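import Pool.Agent.Sok.EP4
import Pool.Agent.Sok.EN0
import Pool.Agent.Sok.EN1
import Pool.Agent.Sok.EN2
import Pool.Agent.Sok.EN3
import Pool.Agent.Sok.EN4
import Pool.Agent.Sok.EN5
import Pool.Agent.Sok.EN6
import Pool.Agent.Sok.EB126
import Pool.Agent.Sok.EB251
import Pool.Agent.Sok.EB40
import Pool.Agent.Sok.EB46
import Pool.Agent.Sok.EB54
import Pool.Agent.Sok.EB66
import Pool.Agent.Sok.EB86

/-! The case of small variance or small degree. -/

namespace Pool.Agent.Sok.E

open Pool.Agent.MP_97ada9_an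

theorem seg_a {x : Bx} {N : ℕ} {l : List (ℕ × ℕ × ℕ)} (hi : ℕ) (hb : box1 x N 1 l = true)
    (hc : (Nat.beq x.m 24 && Nat.beq x.a2 hi) = true) : Seg 24 N 0 hi := by
  simp only [Bool.and_eq_true, Nat.beq_eq] at hc
  rw [← hc.1, ← hc.2]
  exact box1_sound1 hb

theorem seg_b {x : Bx} {N h0 : ℕ} {l : List (ℕ × ℕ × ℕ)} (hi : ℕ) (h : Seg 24 N 0 h0)
    (hb : box1 x N 0 l = true) (hc : (Nat.beq x.m 24 && Nat.ble (Nat.sub x.a0 x.a1) h0 &&
      Nat.beq (Nat.add x.a0 x.a1) hi) = true) : Seg 24 N 0 hi := by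
  simp only [Bool.and_eq_true, Nat.beq_eq, Nat.ble_eq] at hc
  have := box1_sound0 hb
  rw [hc.1.1] at this
  rw [← hc.2]
  exact h.join this hc.1.2

theorem seg_2 : Seg 24 2 0 (2 ^ 24) :=
  have r0 := p_2
  have r1 := r0.2
  have r2 := r1.2
  have s0 := seg_a 2097152 r0.1 (Eq.refl true)
  have s1 := seg_b 5872026 s0 r2 (Eq.refl true)
  have s2 := seg_b 16777216 s1 r1.1 (Eq.refl true)
  s2

theorem seg_3 : Seg 24 3 0 (2 ^ 24) :=
  have r0 := p_3
  have r1 := r0.2
  have r2 := r1.2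
  have r3 := r2.2
  have r4 := r3.2
  have s0 := seg_a 1048576 r0.1 (Eq.refl true)
  have s1 := seg_b 1056344 s0 r4 (Eq.refl true)
  have s2 := seg_b 3169030 s1 r3.1 (Eq.refl true)
  have s3 := seg_b 9507090 s2 r2.1 (Eq.refl true)
  have s4 := seg_b 16777216 s3 r1.1 (Eq.refl true)
  s4

theorem seg_4 : Seg 24 4 0 (2 ^ 24) :=
  have r0 := p_4
  have r1 := r0.2
  have r2 := r1.2
  have r3 := r2.2
  have r4 := r3.2
  have r5 := r4.2
  have s0 := seg_a 262144 r0.1 (Eq.refl true)
  have s1 := seg_b 470696 s0 r5 (Eq.refl true)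
  have s2 := seg_b 1412084 s1 r4.1 (Eq.refl true)
  have s3 := seg_b 4236250 s2 r3.1 (Eq.refl true)
  have s4 := seg_b 11324622 s3 r2.1 (Eq.refl true)
  have s5 := seg_b 16777216 s4 r1.1 (Eq.refl true)
  s5

theorem seg_5 : Seg 24 5 0 (2 ^ 24) :=
  have r0 := p_5
  have r1 := r0.2
  have r2 := r1.2
  have r3 := r2.2
  have r4 := r3.2
  have r5 := r4.2
  have r6 := r5.2
  have s0 := seg_a 131072 r0.1 (Eq.refl true)
  have s1 := seg_b 249796 s0 r6 (Eq.refl true)
  have s2 := seg_b 749384 s1 r5.1 (Eq.refl true)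
  have s3 := seg_b 2248148 s2 r4.1 (Eq.refl true)
  have s4 := seg_b 6744442 s3 r3.1 (Eq.refl true)
  have s5 := seg_b 12415140 s4 r2.1 (Eq.refl true)
  have s6 := seg_b 16777216 s5 r1.1 (Eq.refl true)
  s6

theorem seg_6 : Seg 24 6 0 (2 ^ 24) :=
  have r0 := p_6
  have r1 := r0.2
  have r2 := r1.2
  have r3 := r2.2
  have r4 := r3.2
  have r5 := r4.2
  have r6 := r5.2
  have s0 := seg_a 131072 r0.1 (Eq.refl true)
  have s1 := seg_b 311726 s0 r6 (Eq.refl true)
  have s2 := seg_b 935176 s1 r5.1 (Eq.refl true)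
  have s3 := seg_b 2805526 s2 r4.1 (Eq.refl true)
  have s4 := seg_b 8416574 s3 r3.1 (Eq.refl true)
  have s5 := seg_b 13142154 s4 r2.1 (Eq.refl true)
  have s6 := seg_b 16777216 s5 r1.1 (Eq.refl true)
  s6

theorem seg_7 : Seg 24 7 0 (2 ^ 24) :=
  have r0 := p_7
  have r1 := r0.2
  have r2 := r1.2
  have r3 := r2.2
  have r4 := r3.2
  have r5 := r4.2
  have r6 := r5.2
  have r7 := r6.2
  have s0 := seg_a 65536 r0.1 (Eq.refl true)
  have s1 := seg_b 196042 s0 r7 (Eq.refl true)
  have s2 := seg_b 588126 s1 r6.1 (Eq.refl true)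
  have s3 := seg_b 1764374 s2 r5.1 (Eq.refl true)
  have s4 := seg_b 5293122 s3 r4.1 (Eq.refl true)
  have s5 := seg_b 9610950 s4 r3.1 (Eq.refl true)
  have s6 := seg_b 13661448 s5 r2.1 (Eq.refl true)
  have s7 := seg_b 16777216 s6 r1.1 (Eq.refl true)
  s7

theorem seg_8 : Seg 24 8 0 (2 ^ 24) :=
  have r0 := p_8
  have r1 := r0.2
  have r2 := r1.2
  have r3 := r2.2
  have r4 := r3.2
  have r5 := r4.2
  have r6 := r5.2
  have r7 := r6.2
  have r8 := r7.2
  have s0 := seg_a 65536 r0.1 (Eq.refl true)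
  have s1 := seg_b 112976 s0 r8 (Eq.refl true)
  have s2 := seg_b 338926 s1 r7.1 (Eq.refl true)
  have s3 := seg_b 1016774 s2 r6.1 (Eq.refl true)
  have s4 := seg_b 3050318 s3 r5.1 (Eq.refl true)
  have s5 := seg_b 6728638 s4 r4.1 (Eq.refl true)
  have s6 := seg_b 10506736 s5 r3.1 (Eq.refl true)
  have s7 := seg_b 14050920 s6 r2.1 (Eq.refl true)
  have s8 := seg_b 16777216 s7 r1.1 (Eq.refl true)
  s8

theorem seg_9 : Seg 24 9 0 (2 ^ 24) :=
  have r0 := p_9
  have r1 := r0.2
  have r2 := r1.2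
  have r3 := r2.2
  have r4 := r3.2
  have r5 := r4.2
  have r6 := r5.2
  have r7 := r6.2
  have r8 := r7.2
  have r9 := r8.2
  have s0 := seg_a 65536 r0.1 (Eq.refl true)
  have s1 := seg_b 68076 s0 r9 (Eq.refl true)
  have s2 := seg_b 204226 s1 r8.1 (Eq.refl true)
  have s3 := seg_b 612676 s2 r7.1 (Eq.refl true)
  have s4 := seg_b 1838026 s3 r6.1 (Eq.refl true)
  have s5 := seg_b 5514078 s4 r5.1 (Eq.refl true)
  have s6 := seg_b 8449642 s5 r4.1 (Eq.refl true)
  have s7 := seg_b 11203456 s6 r3.1 (Eq.refl true)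
  have s8 := seg_b 14353842 s7 r2.1 (Eq.refl true)
  have s9 := seg_b 16777216 s8 r1.1 (Eq.refl true)
  s9

theorem seg_10 : Seg 24 10 0 (2 ^ 24) :=
  have r0 := p_10
  have r1 := r0.2
  have r2 := r1.2
  have r3 := r2.2
  have r4 := r3.2
  have r5 := r4.2
  have r6 := r5.2
  have r7 := r6.2
  have r8 := r7.2
  have r9 := r8.2
  have r10 := r9.2
  have s0 := seg_a 32768 r0.1 (Eq.refl true)
  have s1 := seg_b 39578 s0 r10 (Eq.refl true)
  have s2 := seg_b 118734 s1 r9.1 (Eq.refl true)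
  have s3 := seg_b 356200 s2 r8.1 (Eq.refl true)
  have s4 := seg_b 1068596 s3 r7.1 (Eq.refl true)
  have s5 := seg_b 3205786 s4 r6.1 (Eq.refl true)
  have s6 := seg_b 6640392 s5 r5.1 (Eq.refl true)
  have s7 := seg_b 9282398 s6 r4.1 (Eq.refl true)
  have s8 := seg_b 11760830 s7 r3.1 (Eq.refl true)
  have s9 := seg_b 14596178 s8 r2.1 (Eq.refl true)
  have s10 := seg_b 16777216 s9 r1.1 (Eq.refl true)
  s10

theorem seg_11 : Seg 24 11 0 (2 ^ 24) :=
  have r0 := p_11
  have r1 := r0.2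
  have r2 := r1.2
  have r3 := r2.2
  have r4 := r3.2
  have r5 := r4.2
  have r6 := r5.2
  have r7 := r6.2
  have r8 := r7.2
  have r9 := r8.2
  have r10 := r9.2
  have s0 := seg_a 32768 r0.1 (Eq.refl true)
  have s1 := seg_b 49134 s0 r10 (Eq.refl true)
  have s2 := seg_b 147400 s1 r9.1 (Eq.refl true)
  have s3 := seg_b 442196 s2 r8.1 (Eq.refl true)
  have s4 := seg_b 1326588 s3 r7.1 (Eq.refl true)
  have s5 := seg_b 3979760 s4 r6.1 (Eq.refl true)
  have s6 := seg_b 6540104 s5 r5.1 (Eq.refl true)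
  have s7 := seg_b 9469160 s6 r4.1 (Eq.refl true)
  have s8 := seg_b 12216868 s7 r3.1 (Eq.refl true)
  have s9 := seg_b 14794456 s8 r2.1 (Eq.refl true)
  have s10 := seg_b 16777216 s9 r1.1 (Eq.refl true)
  s10

theorem seg_12 : Seg 24 12 0 (2 ^ 24) :=
  have r0 := p_12
  have r1 := r0.2
  have r2 := r1.2
  have r3 := r2.2
  have r4 := r3.2
  have r5 := r4.2
  have r6 := r5.2
  have r7 := r6.2
  have r8 := r7.2
  have r9 := r8.2
  have r10 := r9.2
  have r11 := r10.2
  have s0 := seg_a 32768 r0.1 (Eq.refl true)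
  have s1 := seg_b 60362 s0 r11 (Eq.refl true)
  have s2 := seg_b 181084 s1 r10.1 (Eq.refl true)
  have s3 := seg_b 543248 s2 r9.1 (Eq.refl true)
  have s4 := seg_b 1629744 s3 r8.1 (Eq.refl true)
  have s5 := seg_b 4296742 s4 r7.1 (Eq.refl true)
  have s6 := seg_b 6348280 s5 r6.1 (Eq.refl true)
  have s7 := seg_b 8272800 s6 r5.1 (Eq.refl true)
  have s8 := seg_b 10078168 s7 r4.1 (Eq.refl true)
  have s9 := seg_b 12596898 s8 r3.1 (Eq.refl true)
  have s10 := seg_b 14959686 s9 r2.1 (Eq.refl true)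
  have s11 := seg_b 16777216 s10 r1.1 (Eq.refl true)
  s11

theorem seg_13 : Seg 24 13 0 (2 ^ 24) :=
  have r0 := p_13
  have r1 := r0.2
  have r2 := r1.2
  have r3 := r2.2
  have r4 := r3.2
  have r5 := r4.2
  have r6 := r5.2
  have r7 := r6.2
  have r8 := r7.2
  have r9 := r8.2
  have r10 := r9.2
  have r11 := r10.2
  have r12 := r11.2
  have s0 := seg_a 32768 r0.1 (Eq.refl true)
  have s1 := seg_b 52168 s0 r12 (Eq.refl true)
  have s2 := seg_b 156502 s1 r11.1 (Eq.refl true)
  have s3 := seg_b 469506 s2 r10.1 (Eq.refl true)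
  have s4 := seg_b 1035670 s3 r9.1 (Eq.refl true)
  have s5 := seg_b 2284564 s4 r8.1 (Eq.refl true)
  have s6 := seg_b 4746410 s5 r7.1 (Eq.refl true)
  have s7 := seg_b 6640138 s6 r6.1 (Eq.refl true)
  have s8 := seg_b 8416620 s7 r5.1 (Eq.refl true)
  have s9 := seg_b 10083114 s8 r4.1 (Eq.refl true)
  have s10 := seg_b 12918460 s9 r3.1 (Eq.refl true)
  have s11 := seg_b 15099496 s10 r2.1 (Eq.refl true)
  have s12 := seg_b 16777216 s11 r1.1 (Eq.refl true)
  s12

theorem seg_14 : Seg 24 14 0 (2 ^ 24) :=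
  have r0 := p_14
  have r1 := r0.2
  have r2 := r1.2
  have r3 := r2.2
  have r4 := r3.2
  have r5 := r4.2
  have r6 := r5.2
  have r7 := r6.2
  have r8 := r7.2
  have r9 := r8.2
  have r10 := r9.2
  have r11 := r10.2
  have r12 := r11.2
  have r13 := r12.2
  have s0 := seg_a 32768 r0.1 (Eq.refl true)
  have s1 := seg_b 43146 s0 r13 (Eq.refl true)
  have s2 := seg_b 129434 s1 r12.1 (Eq.refl true)
  have s3 := seg_b 388300 s2 r11.1 (Eq.refl true)
  have s4 := seg_b 856542 s3 r10.1 (Eq.refl true)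
  have s5 := seg_b 1889428 s4 r9.1 (Eq.refl true)
  have s6 := seg_b 4326300 s5 r8.1 (Eq.refl true)
  have s7 := seg_b 6200818 s6 r7.1 (Eq.refl true)
  have s8 := seg_b 7642756 s7 r6.1 (Eq.refl true)
  have s9 := seg_b 9292346 s8 r5.1 (Eq.refl true)
  have s10 := seg_b 10561262 s9 r4.1 (Eq.refl true)
  have s11 := seg_b 13194084 s10 r3.1 (Eq.refl true)
  have s12 := seg_b 15219332 s11 r2.1 (Eq.refl true)
  have s13 := seg_b 16777216 s12 r1.1 (Eq.refl true)
  s13

theorem seg_15 : Seg 24 15 0 (2 ^ 24) :=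
  have r0 := p_15
  have r1 := r0.2
  have r2 := r1.2
  have r3 := r2.2
  have r4 := r3.2
  have r5 := r4.2
  have r6 := r5.2
  have r7 := r6.2
  have r8 := r7.2
  have r9 := r8.2
  have r10 := r9.2
  have r11 := r10.2
  have r12 := r11.2
  have r13 := r12.2
  have r14 := r13.2
  have s0 := seg_a 16384 r0.1 (Eq.refl true)
  have s1 := seg_b 24870 s0 r14 (Eq.refl true)
  have s2 := seg_b 74610 s1 r13.1 (Eq.refl true)
  have s3 := seg_b 223828 s2 r12.1 (Eq.refl true)
  have s4 := seg_b 671482 s3 r11.1 (Eq.refl true)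
  have s5 := seg_b 1481204 s4 r10.1 (Eq.refl true)
  have s6 := seg_b 3469312 s5 r9.1 (Eq.refl true)
  have s7 := seg_b 4998626 s6 r8.1 (Eq.refl true)
  have s8 := seg_b 6433256 s7 r7.1 (Eq.refl true)
  have s9 := seg_b 7779064 s8 r6.1 (Eq.refl true)
  have s10 := seg_b 9656644 s9 r5.1 (Eq.refl true)
  have s11 := seg_b 11417978 s10 r4.1 (Eq.refl true)
  have s12 := seg_b 13432962 s11 r3.1 (Eq.refl true)
  have s13 := seg_b 15323192 s12 r2.1 (Eq.refl true)
  have s14 := seg_b 16777216 s13 r1.1 (Eq.refl true)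
  s14

theorem seg_16 : Seg 24 16 0 (2 ^ 24) :=
  have r0 := p_16
  have r1 := r0.2
  have r2 := r1.2
  have r3 := r2.2
  have r4 := r3.2
  have r5 := r4.2
  have r6 := r5.2
  have r7 := r6.2
  have r8 := r7.2
  have r9 := r8.2
  have r10 := r9.2
  have r11 := r10.2
  have r12 := r11.2
  have r13 := r12.2
  have r14 := r13.2
  have s0 := seg_a 16384 r0.1 (Eq.refl true)
  have s1 := seg_b 47870 s0 r14 (Eq.refl true)
  have s2 := seg_b 143608 s1 r13.1 (Eq.refl true)
  have s3 := seg_b 430824 s2 r12.1 (Eq.refl true)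
  have s4 := seg_b 950342 s3 r11.1 (Eq.refl true)
  have s5 := seg_b 2096336 s4 r10.1 (Eq.refl true)
  have s6 := seg_b 3960186 s5 r9.1 (Eq.refl true)
  have s7 := seg_b 5393918 s6 r8.1 (Eq.refl true)
  have s8 := seg_b 7034120 s7 r7.1 (Eq.refl true)
  have s9 := seg_b 8295814 s8 r6.1 (Eq.refl true)
  have s10 := seg_b 9739204 s9 r5.1 (Eq.refl true)
  have s11 := seg_b 11752928 s10 r4.1 (Eq.refl true)
  have s12 := seg_b 13641976 s11 r3.1 (Eq.refl true)
  have s13 := seg_b 15414068 s12 r2.1 (Eq.refl true)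
  have s14 := seg_b 16777216 s13 r1.1 (Eq.refl true)
  s14

theorem seg_17 : Seg 24 17 0 (2 ^ 24) :=
  have r0 := p_17
  have r1 := r0.2
  have r2 := r1.2
  have r3 := r2.2
  have r4 := r3.2
  have r5 := r4.2
  have r6 := r5.2
  have r7 := r6.2
  have r8 := r7.2
  have r9 := r8.2
  have r10 := r9.2
  have r11 := r10.2
  have r12 := r11.2
  have r13 := r12.2
  have r14 := r13.2
  have r15 := r14.2
  have s0 := seg_a 16384 r0.1 (Eq.refl true)
  have s1 := seg_b 47486 s0 r15 (Eq.refl true)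
  have s2 := seg_b 142454 s1 r14.1 (Eq.refl true)
  have s3 := seg_b 427362 s2 r13.1 (Eq.refl true)
  have s4 := seg_b 942708 s3 r12.1 (Eq.refl true)
  have s5 := seg_b 2079500 s4 r11.1 (Eq.refl true)
  have s6 := seg_b 3949482 s5 r10.1 (Eq.refl true)
  have s7 := seg_b 5387930 s6 r9.1 (Eq.refl true)
  have s8 := seg_b 6737320 s7 r8.1 (Eq.refl true)
  have s9 := seg_b 8003166 s8 r7.1 (Eq.refl true)
  have s10 := seg_b 9190640 s9 r6.1 (Eq.refl true)
  have s11 := seg_b 10104082 s10 r5.1 (Eq.refl true)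
  have s12 := seg_b 11658200 s11 r4.1 (Eq.refl true)
  have s13 := seg_b 13826404 s12 r3.1 (Eq.refl true)
  have s14 := seg_b 15494254 s13 r2.1 (Eq.refl true)
  have s15 := seg_b 16777216 s14 r1.1 (Eq.refl true)
  s15

theorem seg_18 : Seg 24 18 0 (2 ^ 24) :=
  have r0 := p_18
  have r1 := r0.2
  have r2 := r1.2
  have r3 := r2.2
  have r4 := r3.2
  have r5 := r4.2
  have r6 := r5.2
  have r7 := r6.2
  have r8 := r7.2
  have r9 := r8.2
  have r10 := r9.2
  have r11 := r10.2
  have r12 := r11.2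
  have r13 := r12.2
  have r14 := r13.2
  have r15 := r14.2
  have r16 := r15.2
  have s0 := seg_a 16384 r0.1 (Eq.refl true)
  have s1 := seg_b 27010 s0 r16 (Eq.refl true)
  have s2 := seg_b 81030 s1 r15.1 (Eq.refl true)
  have s3 := seg_b 243086 s2 r14.1 (Eq.refl true)
  have s4 := seg_b 729258 s3 r13.1 (Eq.refl true)
  have s5 := seg_b 1608652 s4 r12.1 (Eq.refl true)
  have s6 := seg_b 3152428 s5 r11.1 (Eq.refl true)
  have s7 := seg_b 4339948 s6 r10.1 (Eq.refl true)
  have s8 := seg_b 5698482 s7 r9.1 (Eq.refl true)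
  have s9 := seg_b 6972906 s8 r8.1 (Eq.refl true)
  have s10 := seg_b 8168426 s9 r7.1 (Eq.refl true)
  have s11 := seg_b 9289928 s10 r6.1 (Eq.refl true)
  have s12 := seg_b 10152622 s11 r5.1 (Eq.refl true)
  have s13 := seg_b 11942594 s12 r4.1 (Eq.refl true)
  have s14 := seg_b 13990340 s13 r3.1 (Eq.refl true)
  have s15 := seg_b 15565530 s14 r2.1 (Eq.refl true)
  have s16 := seg_b 16777216 s15 r1.1 (Eq.refl true)
  s16

theorem seg_19 : Seg 24 19 0 (2 ^ 24) :=
  have r0 := p_19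
  have r1 := r0.2
  have r2 := r1.2
  have r3 := r2.2
  have r4 := r3.2
  have r5 := r4.2
  have r6 := r5.2
  have r7 := r6.2
  have r8 := r7.2
  have r9 := r8.2
  have r10 := r9.2
  have r11 := r10.2
  have r12 := r11.2
  have r13 := r12.2
  have r14 := r13.2
  have r15 := r14.2
  have r16 := r15.2
  have r17 := r16.2
  have s0 := seg_a 16384 r0.1 (Eq.refl true)
  have s1 := seg_b 18598 s0 r17 (Eq.refl true)
  have s2 := seg_b 55792 s1 r16.1 (Eq.refl true)
  have s3 := seg_b 167376 s2 r15.1 (Eq.refl true)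
  have s4 := seg_b 502128 s3 r14.1 (Eq.refl true)
  have s5 := seg_b 1107634 s4 r13.1 (Eq.refl true)
  have s6 := seg_b 2443308 s5 r12.1 (Eq.refl true)
  have s7 := seg_b 3905836 s6 r11.1 (Eq.refl true)
  have s8 := seg_b 5030858 s7 r10.1 (Eq.refl true)
  have s9 := seg_b 6086228 s8 r9.1 (Eq.refl true)
  have s10 := seg_b 7076258 s9 r8.1 (Eq.refl true)
  have s11 := seg_b 8208862 s10 r7.1 (Eq.refl true)
  have s12 := seg_b 9504572 s11 r6.1 (Eq.refl true)
  have s13 := seg_b 10501272 s12 r5.1 (Eq.refl true)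
  have s14 := seg_b 12197040 s13 r4.1 (Eq.refl true)
  have s15 := seg_b 14137014 s14 r3.1 (Eq.refl true)
  have s16 := seg_b 15629302 s15 r2.1 (Eq.refl true)
  have s17 := seg_b 16777216 s16 r1.1 (Eq.refl true)
  s17

theorem seg_20 : Seg 24 20 0 (2 ^ 24) :=
  have r0 := p_20
  have r1 := r0.2
  have r2 := r1.2
  have r3 := r2.2
  have r4 := r3.2
  have r5 := r4.2
  have r6 := r5.2
  have r7 := r6.2
  have r8 := r7.2
  have r9 := r8.2
  have r10 := r9.2
  have r11 := r10.2
  have r12 := r11.2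
  have r13 := r12.2
  have r14 := r13.2
  have r15 := r14.2
  have r16 := r15.2
  have r17 := r16.2
  have r18 := r17.2
  have s0 := seg_a 16384 r0.1 (Eq.refl true)
  have s1 := seg_b 25404 s0 r18 (Eq.refl true)
  have s2 := seg_b 76210 s1 r17.1 (Eq.refl true)
  have s3 := seg_b 228630 s2 r16.1 (Eq.refl true)
  have s4 := seg_b 685890 s3 r15.1 (Eq.refl true)
  have s5 := seg_b 1243152 s4 r14.1 (Eq.refl true)
  have s6 := seg_b 2537804 s5 r13.1 (Eq.refl true)
  have s7 := seg_b 3752302 s6 r12.1 (Eq.refl true)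
  have s8 := seg_b 4686532 s7 r11.1 (Eq.refl true)
  have s9 := seg_b 5755300 s8 r10.1 (Eq.refl true)
  have s10 := seg_b 6977982 s9 r9.1 (Eq.refl true)
  have s11 := seg_b 8124964 s10 r8.1 (Eq.refl true)
  have s12 := seg_b 9200934 s11 r7.1 (Eq.refl true)
  have s13 := seg_b 10028604 s12 r6.1 (Eq.refl true)
  have s14 := seg_b 11436790 s13 r5.1 (Eq.refl true)
  have s15 := seg_b 12757790 s14 r4.1 (Eq.refl true)
  have s16 := seg_b 14269026 s15 r3.1 (Eq.refl true)
  have s17 := seg_b 15686698 s16 r2.1 (Eq.refl true)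
  have s18 := seg_b 16777216 s17 r1.1 (Eq.refl true)
  s18

theorem seg_21 : Seg 24 21 0 (2 ^ 24) :=
  have r0 := p_21
  have r1 := r0.2
  have r2 := r1.2
  have r3 := r2.2
  have r4 := r3.2
  have r5 := r4.2
  have r6 := r5.2
  have r7 := r6.2
  have r8 := r7.2
  have r9 := r8.2
  have r10 := r9.2
  have r11 := r10.2
  have r12 := r11.2
  have r13 := r12.2
  have r14 := r13.2
  have r15 := r14.2
  have r16 := r15.2
  have r17 := r16.2
  have r18 := r17.2
  have s0 := seg_a 16384 r0.1 (Eq.refl true)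
  have s1 := seg_b 47712 s0 r18 (Eq.refl true)
  have s2 := seg_b 143134 s1 r17.1 (Eq.refl true)
  have s3 := seg_b 429400 s2 r16.1 (Eq.refl true)
  have s4 := seg_b 778272 s3 r15.1 (Eq.refl true)
  have s5 := seg_b 1410590 s4 r14.1 (Eq.refl true)
  have s6 := seg_b 2914248 s5 r13.1 (Eq.refl true)
  have s7 := seg_b 4070908 s6 r12.1 (Eq.refl true)
  have s8 := seg_b 5155956 s7 r11.1 (Eq.refl true)
  have s9 := seg_b 6173826 s8 r10.1 (Eq.refl true)
  have s10 := seg_b 7128678 s9 r9.1 (Eq.refl true)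
  have s11 := seg_b 8221040 s10 r8.1 (Eq.refl true)
  have s12 := seg_b 9245772 s11 r7.1 (Eq.refl true)
  have s13 := seg_b 10034028 s12 r6.1 (Eq.refl true)
  have s14 := seg_b 11375156 s13 r5.1 (Eq.refl true)
  have s15 := seg_b 12633252 s14 r4.1 (Eq.refl true)
  have s16 := seg_b 14388464 s15 r3.1 (Eq.refl true)
  have s17 := seg_b 15738628 s16 r2.1 (Eq.refl true)
  have s18 := seg_b 16777216 s17 r1.1 (Eq.refl true)
  s18

theorem seg_22 : Seg 24 22 0 (2 ^ 24) :=
  have r0 := p_22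
  have r1 := r0.2
  have r2 := r1.2
  have r3 := r2.2
  have r4 := r3.2
  have r5 := r4.2
  have r6 := r5.2
  have r7 := r6.2
  have r8 := r7.2
  have r9 := r8.2
  have r10 := r9.2
  have r11 := r10.2
  have r12 := r11.2
  have r13 := r12.2
  have r14 := r13.2
  have r15 := r14.2
  have r16 := r15.2
  have r17 := r16.2
  have r18 := r17.2
  have r19 := r18.2
  have r20 := r19.2
  have s0 := seg_a 16384 r0.1 (Eq.refl true)
  have s1 := seg_b 36192 s0 r20 (Eq.refl true)
  have s2 := seg_b 79832 s1 r19.1 (Eq.refl true)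
  have s3 := seg_b 176098 s2 r18.1 (Eq.refl true)
  have s4 := seg_b 388450 s3 r17.1 (Eq.refl true)
  have s5 := seg_b 704048 s4 r16.1 (Eq.refl true)
  have s6 := seg_b 1276062 s5 r15.1 (Eq.refl true)
  have s7 := seg_b 2304854 s6 r14.1 (Eq.refl true)
  have s8 := seg_b 3481802 s7 r13.1 (Eq.refl true)
  have s9 := seg_b 4585882 s8 r12.1 (Eq.refl true)
  have s10 := seg_b 5621606 s9 r11.1 (Eq.refl true)
  have s11 := seg_b 6593206 s10 r10.1 (Eq.refl true)
  have s12 := seg_b 7340592 s11 r9.1 (Eq.refl true)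
  have s13 := seg_b 8612186 s12 r8.1 (Eq.refl true)
  have s14 := seg_b 9590336 s13 r7.1 (Eq.refl true)
  have s15 := seg_b 10507928 s14 r6.1 (Eq.refl true)
  have s16 := seg_b 12069106 s15 r5.1 (Eq.refl true)
  have s17 := seg_b 13533628 s16 r4.1 (Eq.refl true)
  have s18 := seg_b 14907478 s17 r3.1 (Eq.refl true)
  have s19 := seg_b 15964286 s18 r2.1 (Eq.refl true)
  have s20 := seg_b 16777216 s19 r1.1 (Eq.refl true)
  s20

theorem seg_23 : Seg 24 23 0 (2 ^ 24) :=
  have r0 := p_23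
  have r1 := r0.2
  have r2 := r1.2
  have r3 := r2.2
  have r4 := r3.2
  have r5 := r4.2
  have r6 := r5.2
  have r7 := r6.2
  have r8 := r7.2
  have r9 := r8.2
  have r10 := r9.2
  have r11 := r10.2
  have r12 := r11.2
  have r13 := r12.2
  have r14 := r13.2
  have r15 := r14.2
  have r16 := r15.2
  have r17 := r16.2
  have r18 := r17.2
  have r19 := r18.2
  have r20 := r19.2
  have r21 := r20.2
  have r22 := r21.2
  have s0 := seg_a 16384 r0.1 (Eq.refl true)
  have s1 := seg_b 26894 s0 r22 (Eq.refl true)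
  have s2 := seg_b 59322 s1 r21.1 (Eq.refl true)
  have s3 := seg_b 130852 s2 r20.1 (Eq.refl true)
  have s4 := seg_b 288638 s3 r19.1 (Eq.refl true)
  have s5 := seg_b 636700 s4 r18.1 (Eq.refl true)
  have s6 := seg_b 1153998 s5 r17.1 (Eq.refl true)
  have s7 := seg_b 2070956 s6 r16.1 (Eq.refl true)
  have s8 := seg_b 3119964 s7 r15.1 (Eq.refl true)
  have s9 := seg_b 3926894 s8 r14.1 (Eq.refl true)
  have s10 := seg_b 4850030 s9 r13.1 (Eq.refl true)
  have s11 := seg_b 5716014 s10 r12.1 (Eq.refl true)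
  have s12 := seg_b 6706710 s11 r11.1 (Eq.refl true)
  have s13 := seg_b 7468784 s12 r10.1 (Eq.refl true)
  have s14 := seg_b 8531980 s13 r9.1 (Eq.refl true)
  have s15 := seg_b 9349824 s14 r8.1 (Eq.refl true)
  have s16 := seg_b 9978936 s15 r7.1 (Eq.refl true)
  have s17 := seg_b 11049298 s16 r6.1 (Eq.refl true)
  have s18 := seg_b 12273804 s17 r5.1 (Eq.refl true)
  have s19 := seg_b 13674652 s18 r4.1 (Eq.refl true)
  have s20 := seg_b 14988770 s19 r3.1 (Eq.refl true)
  have s21 := seg_b 15999630 s20 r2.1 (Eq.refl true)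
  have s22 := seg_b 16777216 s21 r1.1 (Eq.refl true)
  s22

theorem seg_24 : Seg 24 24 0 (2 ^ 24) :=
  have r0 := p_24
  have r1 := r0.2
  have r2 := r1.2
  have r3 := r2.2
  have r4 := r3.2
  have r5 := r4.2
  have r6 := r5.2
  have r7 := r6.2
  have r8 := r7.2
  have r9 := r8.2
  have r10 := r9.2
  have r11 := r10.2
  have r12 := r11.2
  have r13 := r12.2
  have r14 := r13.2
  have r15 := r14.2
  have r16 := r15.2
  have r17 := r16.2
  have r18 := r17.2
  have r19 := r18.2
  have r20 := r19.2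
  have r21 := r20.2
  have r22 := r21.2
  have r23 := r22.2
  have s0 := seg_a 8192 r0.1 (Eq.refl true)
  have s1 := seg_b 18862 s0 r23 (Eq.refl true)
  have s2 := seg_b 41602 s1 r22.1 (Eq.refl true)
  have s3 := seg_b 91766 s2 r21.1 (Eq.refl true)
  have s4 := seg_b 202420 s3 r20.1 (Eq.refl true)
  have s5 := seg_b 446510 s4 r19.1 (Eq.refl true)
  have s6 := seg_b 809284 s5 r18.1 (Eq.refl true)
  have s7 := seg_b 1466798 s6 r17.1 (Eq.refl true)
  have s8 := seg_b 2538440 s7 r16.1 (Eq.refl true)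
  have s9 := seg_b 3543734 s8 r15.1 (Eq.refl true)
  have s10 := seg_b 4317038 s9 r14.1 (Eq.refl true)
  have s11 := seg_b 5201706 s10 r13.1 (Eq.refl true)
  have s12 := seg_b 5882220 s11 r12.1 (Eq.refl true)
  have s13 := seg_b 6831632 s12 r11.1 (Eq.refl true)
  have s14 := seg_b 7561950 s13 r10.1 (Eq.refl true)
  have s15 := seg_b 8580844 s14 r9.1 (Eq.refl true)
  have s16 := seg_b 9364610 s15 r8.1 (Eq.refl true)
  have s17 := seg_b 9967508 s16 r7.1 (Eq.refl true)
  have s18 := seg_b 10993272 s17 r6.1 (Eq.refl true)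
  have s19 := seg_b 12166758 s18 r5.1 (Eq.refl true)
  have s20 := seg_b 13803928 s19 r4.1 (Eq.refl true)
  have s21 := seg_b 15063290 s20 r3.1 (Eq.refl true)
  have s22 := seg_b 16032030 s21 r2.1 (Eq.refl true)
  have s23 := seg_b 16777216 s22 r1.1 (Eq.refl true)
  s23

theorem seg_25 : Seg 24 25 0 (2 ^ 24) :=
  have r0 := p_25
  have r1 := r0.2
  have r2 := r1.2
  have r3 := r2.2
  have r4 := r3.2
  have r5 := r4.2
  have r6 := r5.2
  have r7 := r6.2
  have r8 := r7.2
  have r9 := r8.2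
  have r10 := r9.2
  have r11 := r10.2
  have r12 := r11.2
  have r13 := r12.2
  have r14 := r13.2
  have r15 := r14.2
  have r16 := r15.2
  have r17 := r16.2
  have r18 := r17.2
  have r19 := r18.2
  have r20 := r19.2
  have r21 := r20.2
  have r22 := r21.2
  have r23 := r22.2
  have s0 := seg_a 8192 r0.1 (Eq.refl true)
  have s1 := seg_b 21142 s0 r23 (Eq.refl true)
  have s2 := seg_b 46634 s1 r22.1 (Eq.refl true)
  have s3 := seg_b 102866 s2 r21.1 (Eq.refl true)
  have s4 := seg_b 226906 s3 r20.1 (Eq.refl true)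
  have s5 := seg_b 500522 s4 r19.1 (Eq.refl true)
  have s6 := seg_b 907178 s5 r18.1 (Eq.refl true)
  have s7 := seg_b 1644230 s6 r17.1 (Eq.refl true)
  have s8 := seg_b 2673008 s7 r16.1 (Eq.refl true)
  have s9 := seg_b 3464376 s8 r15.1 (Eq.refl true)
  have s10 := seg_b 4369710 s9 r14.1 (Eq.refl true)
  have s11 := seg_b 5218992 s10 r13.1 (Eq.refl true)
  have s12 := seg_b 6015694 s11 r12.1 (Eq.refl true)
  have s13 := seg_b 6927132 s12 r11.1 (Eq.refl true)
  have s14 := seg_b 7782142 s13 r10.1 (Eq.refl true)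
  have s15 := seg_b 8760282 s14 r9.1 (Eq.refl true)
  have s16 := seg_b 9677862 s15 r8.1 (Eq.refl true)
  have s17 := seg_b 10538632 s16 r7.1 (Eq.refl true)
  have s18 := seg_b 11739524 s17 r6.1 (Eq.refl true)
  have s19 := seg_b 12866066 s18 r5.1 (Eq.refl true)
  have s20 := seg_b 13922862 s19 r4.1 (Eq.refl true)
  have s21 := seg_b 15131848 s20 r3.1 (Eq.refl true)
  have s22 := seg_b 16061838 s21 r2.1 (Eq.refl true)
  have s23 := seg_b 16777216 s22 r1.1 (Eq.refl true)
  s23

theorem seg_26 : Seg 24 26 0 (2 ^ 24) :=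
  have r0 := p_26
  have r1 := r0.2
  have r2 := r1.2
  have r3 := r2.2
  have r4 := r3.2
  have r5 := r4.2
  have r6 := r5.2
  have r7 := r6.2
  have r8 := r7.2
  have r9 := r8.2
  have r10 := r9.2
  have r11 := r10.2
  have r12 := r11.2
  have r13 := r12.2
  have r14 := r13.2
  have r15 := r14.2
  have r16 := r15.2
  have r17 := r16.2
  have r18 := r17.2
  have r19 := r18.2
  have r20 := r19.2
  have r21 := r20.2
  have r22 := r21.2
  have r23 := r22.2
  have r24 := r23.2
  have r25 := r24.2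
  have s0 := seg_a 8192 r0.1 (Eq.refl true)
  have s1 := seg_b 10790 s0 r25 (Eq.refl true)
  have s2 := seg_b 22618 s1 r24.1 (Eq.refl true)
  have s3 := seg_b 49886 s2 r23.1 (Eq.refl true)
  have s4 := seg_b 110040 s3 r22.1 (Eq.refl true)
  have s5 := seg_b 242734 s4 r21.1 (Eq.refl true)
  have s6 := seg_b 535436 s5 r20.1 (Eq.refl true)
  have s7 := seg_b 970456 s6 r19.1 (Eq.refl true)
  have s8 := seg_b 1758918 s7 r18.1 (Eq.refl true)
  have s9 := seg_b 2813412 s8 r17.1 (Eq.refl true)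
  have s10 := seg_b 3624562 s9 r16.1 (Eq.refl true)
  have s11 := seg_b 4385492 s10 r15.1 (Eq.refl true)
  have s12 := seg_b 5256004 s11 r14.1 (Eq.refl true)
  have s13 := seg_b 5925630 s12 r13.1 (Eq.refl true)
  have s14 := seg_b 6859850 s13 r12.1 (Eq.refl true)
  have s15 := seg_b 7736230 s14 r11.1 (Eq.refl true)
  have s16 := seg_b 8558352 s15 r10.1 (Eq.refl true)
  have s17 := seg_b 9329576 s16 r9.1 (Eq.refl true)
  have s18 := seg_b 9922826 s17 r8.1 (Eq.refl true)
  have s19 := seg_b 10750490 s18 r7.1 (Eq.refl true)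
  have s20 := seg_b 11905196 s19 r6.1 (Eq.refl true)
  have s21 := seg_b 12793432 s20 r5.1 (Eq.refl true)
  have s22 := seg_b 14032642 s21 r4.1 (Eq.refl true)
  have s23 := seg_b 15195130 s22 r3.1 (Eq.refl true)
  have s24 := seg_b 16089352 s23 r2.1 (Eq.refl true)
  have s25 := seg_b 16777216 s24 r1.1 (Eq.refl true)
  s25

theorem seg_27 : Seg 24 27 0 (2 ^ 24) :=
  have r0 := p_27
  have r1 := r0.2
  have r2 := r1.2
  have r3 := r2.2
  have r4 := r3.2
  have r5 := r4.2
  have r6 := r5.2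
  have r7 := r6.2
  have r8 := r7.2
  have r9 := r8.2
  have r10 := r9.2
  have r11 := r10.2
  have r12 := r11.2
  have r13 := r12.2
  have r14 := r13.2
  have r15 := r14.2
  have r16 := r15.2
  have r17 := r16.2
  have r18 := r17.2
  have r19 := r18.2
  have r20 := r19.2
  have r21 := r20.2
  have r22 := r21.2
  have r23 := r22.2
  have r24 := r23.2
  have r25 := r24.2
  have s0 := seg_a 8192 r0.1 (Eq.refl true)
  have s1 := seg_b 12438 s0 r25 (Eq.refl true)
  have s2 := seg_b 27434 s1 r24.1 (Eq.refl true)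
  have s3 := seg_b 60512 s2 r23.1 (Eq.refl true)
  have s4 := seg_b 133480 s3 r22.1 (Eq.refl true)
  have s5 := seg_b 294438 s4 r21.1 (Eq.refl true)
  have s6 := seg_b 649490 s5 r20.1 (Eq.refl true)
  have s7 := seg_b 1177178 s6 r19.1 (Eq.refl true)
  have s8 := seg_b 2259628 s7 r18.1 (Eq.refl true)
  have s9 := seg_b 3092282 s8 r17.1 (Eq.refl true)
  have s10 := seg_b 3873386 s9 r16.1 (Eq.refl true)
  have s11 := seg_b 4606130 s10 r15.1 (Eq.refl true)
  have s12 := seg_b 5444398 s11 r14.1 (Eq.refl true)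
  have s13 := seg_b 6089220 s12 r13.1 (Eq.refl true)
  have s14 := seg_b 6826906 s13 r12.1 (Eq.refl true)
  have s15 := seg_b 7394358 s14 r11.1 (Eq.refl true)
  have s16 := seg_b 8186032 s15 r10.1 (Eq.refl true)
  have s17 := seg_b 9091716 s16 r9.1 (Eq.refl true)
  have s18 := seg_b 9788396 s17 r8.1 (Eq.refl true)
  have s19 := seg_b 10973718 s18 r7.1 (Eq.refl true)
  have s20 := seg_b 12085654 s19 r6.1 (Eq.refl true)
  have s21 := seg_b 12940990 s20 r5.1 (Eq.refl true)
  have s22 := seg_b 14134300 s21 r4.1 (Eq.refl true)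
  have s23 := seg_b 15253730 s22 r3.1 (Eq.refl true)
  have s24 := seg_b 16114830 s23 r2.1 (Eq.refl true)
  have s25 := seg_b 16777216 s24 r1.1 (Eq.refl true)
  s25

theorem seg_28 : Seg 24 28 0 (2 ^ 24) :=
  have r0 := p_28
  have r1 := r0.2
  have r2 := r1.2
  have r3 := r2.2
  have r4 := r3.2
  have r5 := r4.2
  have r6 := r5.2
  have r7 := r6.2
  have r8 := r7.2
  have r9 := r8.2
  have r10 := r9.2
  have r11 := r10.2
  have r12 := r11.2
  have r13 := r12.2
  have r14 := r13.2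
  have r15 := r14.2
  have r16 := r15.2
  have r17 := r16.2
  have r18 := r17.2
  have r19 := r18.2
  have r20 := r19.2
  have r21 := r20.2
  have r22 := r21.2
  have r23 := r22.2
  have r24 := r23.2
  have r25 := r24.2
  have r26 := r25.2
  have s0 := seg_a 8192 r0.1 (Eq.refl true)
  have s1 := seg_b 13170 s0 r26 (Eq.refl true)
  have s2 := seg_b 29050 s1 r25.1 (Eq.refl true)
  have s3 := seg_b 64078 s2 r24.1 (Eq.refl true)
  have s4 := seg_b 141344 s3 r23.1 (Eq.refl true)
  have s5 := seg_b 311784 s4 r22.1 (Eq.refl true)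
  have s6 := seg_b 687754 s5 r21.1 (Eq.refl true)
  have s7 := seg_b 1087486 s6 r20.1 (Eq.refl true)
  have s8 := seg_b 1999890 s7 r19.1 (Eq.refl true)
  have s9 := seg_b 2855806 s8 r18.1 (Eq.refl true)
  have s10 := seg_b 3658730 s9 r17.1 (Eq.refl true)
  have s11 := seg_b 4411944 s10 r16.1 (Eq.refl true)
  have s12 := seg_b 5273628 s11 r15.1 (Eq.refl true)
  have s13 := seg_b 5936462 s12 r14.1 (Eq.refl true)
  have s14 := seg_b 6861206 s13 r13.1 (Eq.refl true)
  have s15 := seg_b 7572548 s14 r12.1 (Eq.refl true)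
  have s16 := seg_b 8386332 s15 r11.1 (Eq.refl true)
  have s17 := seg_b 9149732 s16 r10.1 (Eq.refl true)
  have s18 := seg_b 9736964 s17 r9.1 (Eq.refl true)
  have s19 := seg_b 10287840 s18 r8.1 (Eq.refl true)
  have s20 := seg_b 11430838 s19 r7.1 (Eq.refl true)
  have s21 := seg_b 12310068 s20 r6.1 (Eq.refl true)
  have s22 := seg_b 13536714 s21 r5.1 (Eq.refl true)
  have s23 := seg_b 14687414 s22 r4.1 (Eq.refl true)
  have s24 := seg_b 15572568 s23 r3.1 (Eq.refl true)
  have s25 := seg_b 16253456 s24 r2.1 (Eq.refl true)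
  have s26 := seg_b 16777216 s25 r1.1 (Eq.refl true)
  s26

theorem seg_29 : Seg 24 29 0 (2 ^ 24) :=
  have r0 := p_29
  have r1 := r0.2
  have r2 := r1.2
  have r3 := r2.2
  have r4 := r3.2
  have r5 := r4.2
  have r6 := r5.2
  have r7 := r6.2
  have r8 := r7.2
  have r9 := r8.2
  have r10 := r9.2
  have r11 := r10.2
  have r12 := r11.2
  have r13 := r12.2
  have r14 := r13.2
  have r15 := r14.2
  have r16 := r15.2
  have r17 := r16.2
  have r18 := r17.2
  have r19 := r18.2
  have r20 := r19.2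
  have r21 := r20.2
  have r22 := r21.2
  have r23 := r22.2
  have r24 := r23.2
  have r25 := r24.2
  have r26 := r25.2
  have r27 := r26.2
  have s0 := seg_a 8192 r0.1 (Eq.refl true)
  have s1 := seg_b 11308 s0 r27 (Eq.refl true)
  have s2 := seg_b 24938 s1 r26.1 (Eq.refl true)
  have s3 := seg_b 55008 s2 r25.1 (Eq.refl true)
  have s4 := seg_b 121338 s3 r24.1 (Eq.refl true)
  have s5 := seg_b 267654 s4 r23.1 (Eq.refl true)
  have s6 := seg_b 590410 s5 r22.1 (Eq.refl true)
  have s7 := seg_b 933566 s6 r21.1 (Eq.refl true)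
  have s8 := seg_b 1692056 s7 r20.1 (Eq.refl true)
  have s9 := seg_b 2572988 s8 r19.1 (Eq.refl true)
  have s10 := seg_b 3250628 s9 r18.1 (Eq.refl true)
  have s11 := seg_b 4025856 s10 r17.1 (Eq.refl true)
  have s12 := seg_b 4753088 s11 r16.1 (Eq.refl true)
  have s13 := seg_b 5435296 s12 r15.1 (Eq.refl true)
  have s14 := seg_b 6215750 s13 r14.1 (Eq.refl true)
  have s15 := seg_b 6947884 s14 r13.1 (Eq.refl true)
  have s16 := seg_b 7511064 s15 r12.1 (Eq.refl true)
  have s17 := seg_b 8155350 s16 r11.1 (Eq.refl true)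
  have s18 := seg_b 9054218 s17 r10.1 (Eq.refl true)
  have s19 := seg_b 9745656 s18 r9.1 (Eq.refl true)
  have s20 := seg_b 10710308 s19 r8.1 (Eq.refl true)
  have s21 := seg_b 11615236 s20 r7.1 (Eq.refl true)
  have s22 := seg_b 12464138 s21 r6.1 (Eq.refl true)
  have s23 := seg_b 13648474 s22 r5.1 (Eq.refl true)
  have s24 := seg_b 14759486 s23 r4.1 (Eq.refl true)
  have s25 := seg_b 15614112 s24 r3.1 (Eq.refl true)
  have s26 := seg_b 16271518 s25 r2.1 (Eq.refl true)
  have s27 := seg_b 16777216 s26 r1.1 (Eq.refl true)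
  s27

theorem seg_30 : Seg 24 30 0 (2 ^ 24) :=
  have r0 := p_30
  have r1 := r0.2
  have r2 := r1.2
  have r3 := r2.2
  have r4 := r3.2
  have r5 := r4.2
  have r6 := r5.2
  have r7 := r6.2
  have r8 := r7.2
  have r9 := r8.2
  have r10 := r9.2
  have r11 := r10.2
  have r12 := r11.2
  have r13 := r12.2
  have r14 := r13.2
  have r15 := r14.2
  have r16 := r15.2
  have r17 := r16.2
  have r18 := r17.2
  have r19 := r18.2
  have r20 := r19.2
  have r21 := r20.2
  have r22 := r21.2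
  have r23 := r22.2
  have r24 := r23.2
  have r25 := r24.2
  have r26 := r25.2
  have r27 := r26.2
  have r28 := r27.2
  have r29 := r28.2
  have s0 := seg_a 8192 r0.1 (Eq.refl true)
  have s1 := seg_b 10304 s0 r29 (Eq.refl true)
  have s2 := seg_b 19922 s1 r28.1 (Eq.refl true)
  have s3 := seg_b 43940 s2 r27.1 (Eq.refl true)
  have s4 := seg_b 96924 s3 r26.1 (Eq.refl true)
  have s5 := seg_b 213800 s4 r25.1 (Eq.refl true)
  have s6 := seg_b 471614 s5 r24.1 (Eq.refl true)
  have s7 := seg_b 745722 s6 r23.1 (Eq.refl true)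
  have s8 := seg_b 1179150 s7 r22.1 (Eq.refl true)
  have s9 := seg_b 1972642 s8 r21.1 (Eq.refl true)
  have s10 := seg_b 2717008 s9 r20.1 (Eq.refl true)
  have s11 := seg_b 3289598 s10 r19.1 (Eq.refl true)
  have s12 := seg_b 3944648 s11 r18.1 (Eq.refl true)
  have s13 := seg_b 4694032 s12 r17.1 (Eq.refl true)
  have s14 := seg_b 5397020 s13 r16.1 (Eq.refl true)
  have s15 := seg_b 6056486 s14 r15.1 (Eq.refl true)
  have s16 := seg_b 6810922 s15 r14.1 (Eq.refl true)
  have s17 := seg_b 7391258 s16 r13.1 (Eq.refl true)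
  have s18 := seg_b 8200906 s17 r12.1 (Eq.refl true)
  have s19 := seg_b 8960428 s18 r11.1 (Eq.refl true)
  have s20 := seg_b 9544676 s19 r10.1 (Eq.refl true)
  have s21 := seg_b 9994098 s20 r9.1 (Eq.refl true)
  have s22 := seg_b 10926594 s21 r8.1 (Eq.refl true)
  have s23 := seg_b 11993380 s22 r7.1 (Eq.refl true)
  have s24 := seg_b 12813986 s23 r6.1 (Eq.refl true)
  have s25 := seg_b 13752768 s24 r5.1 (Eq.refl true)
  have s26 := seg_b 14826746 s25 r4.1 (Eq.refl true)
  have s27 := seg_b 15652884 s26 r3.1 (Eq.refl true)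
  have s28 := seg_b 16288376 s27 r2.1 (Eq.refl true)
  have s29 := seg_b 16777216 s28 r1.1 (Eq.refl true)
  s29

theorem seg_31 : Seg 24 31 0 (2 ^ 24) :=
  have r0 := p_31
  have r1 := r0.2
  have r2 := r1.2
  have r3 := r2.2
  have r4 := r3.2
  have r5 := r4.2
  have r6 := r5.2
  have r7 := r6.2
  have r8 := r7.2
  have r9 := r8.2
  have r10 := r9.2
  have r11 := r10.2
  have r12 := r11.2
  have r13 := r12.2
  have r14 := r13.2
  have r15 := r14.2
  have r16 := r15.2
  have r17 := r16.2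
  have r18 := r17.2
  have r19 := r18.2
  have r20 := r19.2
  have r21 := r20.2
  have r22 := r21.2
  have r23 := r22.2
  have r24 := r23.2
  have r25 := r24.2
  have r26 := r25.2
  have r27 := r26.2
  have r28 := r27.2
  have r29 := r28.2
  have s0 := seg_a 8192 r0.1 (Eq.refl true)
  have s1 := seg_b 13008 s0 r29 (Eq.refl true)
  have s2 := seg_b 28688 s1 r28.1 (Eq.refl true)
  have s3 := seg_b 63280 s2 r27.1 (Eq.refl true)
  have s4 := seg_b 139584 s3 r26.1 (Eq.refl true)
  have s5 := seg_b 307902 s4 r25.1 (Eq.refl true)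
  have s6 := seg_b 679192 s5 r24.1 (Eq.refl true)
  have s7 := seg_b 1073948 s6 r23.1 (Eq.refl true)
  have s8 := seg_b 1745184 s7 r22.1 (Eq.refl true)
  have s9 := seg_b 2513086 s8 r21.1 (Eq.refl true)
  have s10 := seg_b 3103780 s9 r20.1 (Eq.refl true)
  have s11 := seg_b 3779540 s10 r19.1 (Eq.refl true)
  have s12 := seg_b 4413462 s11 r18.1 (Eq.refl true)
  have s13 := seg_b 5008136 s12 r17.1 (Eq.refl true)
  have s14 := seg_b 5565994 s13 r16.1 (Eq.refl true)
  have s15 := seg_b 6204190 s14 r15.1 (Eq.refl true)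
  have s16 := seg_b 6934292 s15 r14.1 (Eq.refl true)
  have s17 := seg_b 7495910 s16 r13.1 (Eq.refl true)
  have s18 := seg_b 8279446 s17 r12.1 (Eq.refl true)
  have s19 := seg_b 9014472 s18 r11.1 (Eq.refl true)
  have s20 := seg_b 9579878 s19 r10.1 (Eq.refl true)
  have s21 := seg_b 10014806 s20 r9.1 (Eq.refl true)
  have s22 := seg_b 11115318 s21 r8.1 (Eq.refl true)
  have s23 := seg_b 12147694 s22 r7.1 (Eq.refl true)
  have s24 := seg_b 12941830 s23 r6.1 (Eq.refl true)
  have s25 := seg_b 13850330 s24 r5.1 (Eq.refl true)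
  have s26 := seg_b 14889664 s25 r4.1 (Eq.refl true)
  have s27 := seg_b 15689152 s26 r3.1 (Eq.refl true)
  have s28 := seg_b 16304144 s27 r2.1 (Eq.refl true)
  have s29 := seg_b 16777216 s28 r1.1 (Eq.refl true)
  s29

theorem seg_32 : Seg 24 32 0 (2 ^ 24) :=
  have r0 := p_32
  have r1 := r0.2
  have r2 := r1.2
  have r3 := r2.2
  have r4 := r3.2
  have r5 := r4.2
  have r6 := r5.2
  have r7 := r6.2
  have r8 := r7.2
  have r9 := r8.2
  have r10 := r9.2
  have r11 := r10.2
  have r12 := r11.2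
  have r13 := r12.2
  have r14 := r13.2
  have r15 := r14.2
  have r16 := r15.2
  have r17 := r16.2
  have r18 := r17.2
  have r19 := r18.2
  have r20 := r19.2
  have r21 := r20.2
  have r22 := r21.2
  have r23 := r22.2
  have r24 := r23.2
  have r25 := r24.2
  have r26 := r25.2
  have r27 := r26.2
  have r28 := r27.2
  have r29 := r28.2
  have r30 := r29.2
  have s0 := seg_a 8192 r0.1 (Eq.refl true)
  have s1 := seg_b 11752 s0 r30 (Eq.refl true)
  have s2 := seg_b 25920 s1 r29.1 (Eq.refl true)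
  have s3 := seg_b 57170 s2 r28.1 (Eq.refl true)
  have s4 := seg_b 126106 s3 r27.1 (Eq.refl true)
  have s5 := seg_b 278170 s4 r26.1 (Eq.refl true)
  have s6 := seg_b 613604 s5 r25.1 (Eq.refl true)
  have s7 := seg_b 970242 s6 r24.1 (Eq.refl true)
  have s8 := seg_b 1534166 s7 r23.1 (Eq.refl true)
  have s9 := seg_b 2327168 s8 r22.1 (Eq.refl true)
  have s10 := seg_b 2937170 s9 r21.1 (Eq.refl true)
  have s11 := seg_b 3509406 s10 r20.1 (Eq.refl true)
  have s12 := seg_b 4164052 s11 r19.1 (Eq.refl true)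
  have s13 := seg_b 4778168 s12 r18.1 (Eq.refl true)
  have s14 := seg_b 5480722 s13 r17.1 (Eq.refl true)
  have s15 := seg_b 6284452 s14 r16.1 (Eq.refl true)
  have s16 := seg_b 6902706 s15 r15.1 (Eq.refl true)
  have s17 := seg_b 7378286 s16 r14.1 (Eq.refl true)
  have s18 := seg_b 8041788 s17 r13.1 (Eq.refl true)
  have s19 := seg_b 8800842 s18 r12.1 (Eq.refl true)
  have s20 := seg_b 9384730 s19 r11.1 (Eq.refl true)
  have s21 := seg_b 9833876 s20 r10.1 (Eq.refl true)
  have s22 := seg_b 10598048 s21 r9.1 (Eq.refl true)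
  have s23 := seg_b 11472268 s22 r8.1 (Eq.refl true)
  have s24 := seg_b 12292362 s23 r7.1 (Eq.refl true)
  have s25 := seg_b 13061682 s24 r6.1 (Eq.refl true)
  have s26 := seg_b 13941792 s25 r5.1 (Eq.refl true)
  have s27 := seg_b 14948648 s26 r4.1 (Eq.refl true)
  have s28 := seg_b 15723154 s27 r3.1 (Eq.refl true)
  have s29 := seg_b 16318928 s28 r2.1 (Eq.refl true)
  have s30 := seg_b 16777216 s29 r1.1 (Eq.refl true)
  s30

theorem seg_33 : Seg 24 33 0 (2 ^ 24) :=
  have r0 := p_33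
  have r1 := r0.2
  have r2 := r1.2
  have r3 := r2.2
  have r4 := r3.2
  have r5 := r4.2
  have r6 := r5.2
  have r7 := r6.2
  have r8 := r7.2
  have r9 := r8.2
  have r10 := r9.2
  have r11 := r10.2
  have r12 := r11.2
  have r13 := r12.2
  have r14 := r13.2
  have r15 := r14.2
  have r16 := r15.2
  have r17 := r16.2
  have r18 := r17.2
  have r19 := r18.2
  have r20 := r19.2
  have r21 := r20.2
  have r22 := r21.2
  have r23 := r22.2
  have r24 := r23.2
  have r25 := r24.2
  have r26 := r25.2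
  have r27 := r26.2
  have r28 := r27.2
  have r29 := r28.2
  have r30 := r29.2
  have r31 := r30.2
  have r32 := r31.2
  have s0 := seg_a 8192 r0.1 (Eq.refl true)
  have s1 := seg_b 10316 s0 r32 (Eq.refl true)
  have s2 := seg_b 19982 s1 r31.1 (Eq.refl true)
  have s3 := seg_b 44076 s2 r30.1 (Eq.refl true)
  have s4 := seg_b 97224 s3 r29.1 (Eq.refl true)
  have s5 := seg_b 214464 s4 r28.1 (Eq.refl true)
  have s6 := seg_b 473080 s5 r27.1 (Eq.refl true)
  have s7 := seg_b 748040 s6 r26.1 (Eq.refl true)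
  have s8 := seg_b 1182814 s7 r25.1 (Eq.refl true)
  have s9 := seg_b 1899338 s8 r24.1 (Eq.refl true)
  have s10 := seg_b 2571502 s9 r23.1 (Eq.refl true)
  have s11 := seg_b 3202052 s10 r22.1 (Eq.refl true)
  have s12 := seg_b 3793564 s11 r21.1 (Eq.refl true)
  have s13 := seg_b 4470262 s12 r20.1 (Eq.refl true)
  have s14 := seg_b 4990800 s13 r19.1 (Eq.refl true)
  have s15 := seg_b 5586302 s14 r18.1 (Eq.refl true)
  have s16 := seg_b 6267564 s15 r17.1 (Eq.refl true)
  have s17 := seg_b 6791612 s16 r16.1 (Eq.refl true)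
  have s18 := seg_b 7194726 s17 r15.1 (Eq.refl true)
  have s19 := seg_b 7880582 s18 r14.1 (Eq.refl true)
  have s20 := seg_b 8665210 s19 r13.1 (Eq.refl true)
  have s21 := seg_b 9268770 s20 r12.1 (Eq.refl true)
  have s22 := seg_b 9733048 s21 r11.1 (Eq.refl true)
  have s23 := seg_b 10168582 s22 r10.1 (Eq.refl true)
  have s24 := seg_b 11072256 s23 r9.1 (Eq.refl true)
  have s25 := seg_b 11919982 s24 r8.1 (Eq.refl true)
  have s26 := seg_b 12572080 s25 r7.1 (Eq.refl true)
  have s27 := seg_b 13481846 s26 r6.1 (Eq.refl true)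
  have s28 := seg_b 14522628 s27 r5.1 (Eq.refl true)
  have s29 := seg_b 15323230 s28 r4.1 (Eq.refl true)
  have s30 := seg_b 15939078 s29 r3.1 (Eq.refl true)
  have s31 := seg_b 16412808 s30 r2.1 (Eq.refl true)
  have s32 := seg_b 16777216 s31 r1.1 (Eq.refl true)
  s32

theorem seg_34 : Seg 24 34 0 (2 ^ 24) :=
  have r0 := p_34
  have r1 := r0.2
  have r2 := r1.2
  have r3 := r2.2
  have r4 := r3.2
  have r5 := r4.2
  have r6 := r5.2
  have r7 := r6.2
  have r8 := r7.2
  have r9 := r8.2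
  have r10 := r9.2
  have r11 := r10.2
  have r12 := r11.2
  have r13 := r12.2
  have r14 := r13.2
  have r15 := r14.2
  have r16 := r15.2
  have r17 := r16.2
  have r18 := r17.2
  have r19 := r18.2
  have r20 := r19.2
  have r21 := r20.2
  have r22 := r21.2
  have r23 := r22.2
  have r24 := r23.2
  have r25 := r24.2
  have r26 := r25.2
  have r27 := r26.2
  have r28 := r27.2
  have r29 := r28.2
  have r30 := r29.2
  have r31 := r30.2
  have r32 := r31.2
  have s0 := seg_a 8192 r0.1 (Eq.refl true)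
  have s1 := seg_b 10834 s0 r32 (Eq.refl true)
  have s2 := seg_b 22862 s1 r31.1 (Eq.refl true)
  have s3 := seg_b 50428 s2 r30.1 (Eq.refl true)
  have s4 := seg_b 111234 s3 r29.1 (Eq.refl true)
  have s5 := seg_b 201606 s4 r28.1 (Eq.refl true)
  have s6 := seg_b 444716 s5 r27.1 (Eq.refl true)
  have s7 := seg_b 703192 s6 r26.1 (Eq.refl true)
  have s8 := seg_b 1111898 s7 r25.1 (Eq.refl true)
  have s9 := seg_b 1807346 s8 r24.1 (Eq.refl true)
  have s10 := seg_b 2459738 s9 r23.1 (Eq.refl true)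
  have s11 := seg_b 3071740 s10 r22.1 (Eq.refl true)
  have s12 := seg_b 3645852 s11 r21.1 (Eq.refl true)
  have s13 := seg_b 4184420 s12 r20.1 (Eq.refl true)
  have s14 := seg_b 4689646 s13 r19.1 (Eq.refl true)
  have s15 := seg_b 5394506 s14 r18.1 (Eq.refl true)
  have s16 := seg_b 5936706 s15 r17.1 (Eq.refl true)
  have s17 := seg_b 6556988 s16 r16.1 (Eq.refl true)
  have s18 := seg_b 7034128 s17 r15.1 (Eq.refl true)
  have s19 := seg_b 7845932 s18 r14.1 (Eq.refl true)
  have s20 := seg_b 8470398 s19 r13.1 (Eq.refl true)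
  have s21 := seg_b 9184794 s20 r12.1 (Eq.refl true)
  have s22 := seg_b 9734330 s21 r11.1 (Eq.refl true)
  have s23 := seg_b 10363004 s22 r10.1 (Eq.refl true)
  have s24 := seg_b 11240090 s23 r9.1 (Eq.refl true)
  have s25 := seg_b 12062874 s24 r8.1 (Eq.refl true)
  have s26 := seg_b 12695786 s25 r7.1 (Eq.refl true)
  have s27 := seg_b 13578788 s26 r6.1 (Eq.refl true)
  have s28 := seg_b 14588952 s27 r5.1 (Eq.refl true)
  have s29 := seg_b 15366002 s28 r4.1 (Eq.refl true)
  have s30 := seg_b 15963734 s29 r3.1 (Eq.refl true)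
  have s31 := seg_b 16423528 s30 r2.1 (Eq.refl true)
  have s32 := seg_b 16777216 s31 r1.1 (Eq.refl true)
  s32

theorem seg_35 : Seg 24 35 0 (2 ^ 24) :=
  have r0 := p_35
  have r1 := r0.2
  have r2 := r1.2
  have r3 := r2.2
  have r4 := r3.2
  have r5 := r4.2
  have r6 := r5.2
  have r7 := r6.2
  have r8 := r7.2
  have r9 := r8.2
  have r10 := r9.2
  have r11 := r10.2
  have r12 := r11.2
  have r13 := r12.2
  have r14 := r13.2
  have r15 := r14.2
  have r16 := r15.2
  have r17 := r16.2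
  have r18 := r17.2
  have r19 := r18.2
  have r20 := r19.2
  have r21 := r20.2
  have r22 := r21.2
  have r23 := r22.2
  have r24 := r23.2
  have r25 := r24.2
  have r26 := r25.2
  have r27 := r26.2
  have r28 := r27.2
  have r29 := r28.2
  have r30 := r29.2
  have r31 := r30.2
  have r32 := r31.2
  have r33 := r32.2
  have s0 := seg_a 8192 r0.1 (Eq.refl true)
  have s1 := seg_b 10846 s0 r33 (Eq.refl true)
  have s2 := seg_b 22926 s1 r32.1 (Eq.refl true)
  have s3 := seg_b 41548 s2 r31.1 (Eq.refl true)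
  have s4 := seg_b 75302 s3 r30.1 (Eq.refl true)
  have s5 := seg_b 136482 s4 r29.1 (Eq.refl true)
  have s6 := seg_b 301062 s5 r28.1 (Eq.refl true)
  have s7 := seg_b 664102 s6 r27.1 (Eq.refl true)
  have s8 := seg_b 1050088 s7 r26.1 (Eq.refl true)
  have s9 := seg_b 1770246 s8 r25.1 (Eq.refl true)
  have s10 := seg_b 2445818 s9 r24.1 (Eq.refl true)
  have s11 := seg_b 2965490 s10 r23.1 (Eq.refl true)
  have s12 := seg_b 3560002 s11 r22.1 (Eq.refl true)
  have s13 := seg_b 4117708 s12 r21.1 (Eq.refl true)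
  have s14 := seg_b 4640886 s13 r20.1 (Eq.refl true)
  have s15 := seg_b 5239410 s14 r19.1 (Eq.refl true)
  have s16 := seg_b 5699814 s15 r18.1 (Eq.refl true)
  have s17 := seg_b 6342142 s16 r17.1 (Eq.refl true)
  have s18 := seg_b 6944702 s17 r16.1 (Eq.refl true)
  have s19 := seg_b 7408210 s18 r15.1 (Eq.refl true)
  have s20 := seg_b 8054870 s19 r14.1 (Eq.refl true)
  have s21 := seg_b 8794658 s20 r13.1 (Eq.refl true)
  have s22 := seg_b 9363726 s21 r12.1 (Eq.refl true)
  have s23 := seg_b 9801472 s22 r11.1 (Eq.refl true)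
  have s24 := seg_b 10546248 s23 r10.1 (Eq.refl true)
  have s25 := seg_b 11398280 s24 r9.1 (Eq.refl true)
  have s26 := seg_b 12197560 s25 r8.1 (Eq.refl true)
  have s27 := seg_b 12812392 s26 r7.1 (Eq.refl true)
  have s28 := seg_b 13670166 s27 r6.1 (Eq.refl true)
  have s29 := seg_b 14651470 s28 r5.1 (Eq.refl true)
  have s30 := seg_b 15406320 s29 r4.1 (Eq.refl true)
  have s31 := seg_b 15986974 s30 r3.1 (Eq.refl true)
  have s32 := seg_b 16433632 s31 r2.1 (Eq.refl true)
  have s33 := seg_b 16777216 s32 r1.1 (Eq.refl true)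
  s33

theorem seg_36 : Seg 24 36 0 (2 ^ 24) :=
  have r0 := p_36
  have r1 := r0.2
  have r2 := r1.2
  have r3 := r2.2
  have r4 := r3.2
  have r5 := r4.2
  have r6 := r5.2
  have r7 := r6.2
  have r8 := r7.2
  have r9 := r8.2
  have r10 := r9.2
  have r11 := r10.2
  have r12 := r11.2
  have r13 := r12.2
  have r14 := r13.2
  have r15 := r14.2
  have r16 := r15.2
  have r17 := r16.2
  have r18 := r17.2
  have r19 := r18.2
  have r20 := r19.2
  have r21 := r20.2
  have r22 := r21.2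
  have r23 := r22.2
  have r24 := r23.2
  have r25 := r24.2
  have r26 := r25.2
  have r27 := r26.2
  have r28 := r27.2
  have r29 := r28.2
  have r30 := r29.2
  have r31 := r30.2
  have r32 := r31.2
  have r33 := r32.2
  have r34 := r33.2
  have r35 := r34.2
  have s0 := seg_a 8192 r0.1 (Eq.refl true)
  have s1 := seg_b 16578 s0 r35 (Eq.refl true)
  have s2 := seg_b 30044 s1 r34.1 (Eq.refl true)
  have s3 := seg_b 54452 s2 r33.1 (Eq.refl true)
  have s4 := seg_b 98686 s3 r32.1 (Eq.refl true)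
  have s5 := seg_b 178862 s4 r31.1 (Eq.refl true)
  have s6 := seg_b 324178 s5 r30.1 (Eq.refl true)
  have s7 := seg_b 587560 s6 r29.1 (Eq.refl true)
  have s8 := seg_b 929060 s7 r28.1 (Eq.refl true)
  have s9 := seg_b 1464036 s8 r27.1 (Eq.refl true)
  have s10 := seg_b 2210402 s9 r26.1 (Eq.refl true)
  have s11 := seg_b 2784530 s10 r25.1 (Eq.refl true)
  have s12 := seg_b 3323114 s11 r24.1 (Eq.refl true)
  have s13 := seg_b 3828354 s12 r23.1 (Eq.refl true)
  have s14 := seg_b 4406354 s13 r22.1 (Eq.refl true)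
  have s15 := seg_b 4850970 s14 r21.1 (Eq.refl true)
  have s16 := seg_b 5471272 s15 r20.1 (Eq.refl true)
  have s17 := seg_b 6053170 s16 r19.1 (Eq.refl true)
  have s18 := seg_b 6599042 s17 r18.1 (Eq.refl true)
  have s19 := seg_b 7018944 s18 r17.1 (Eq.refl true)
  have s20 := seg_b 7604764 s19 r16.1 (Eq.refl true)
  have s21 := seg_b 8274950 s20 r15.1 (Eq.refl true)
  have s22 := seg_b 8903644 s21 r14.1 (Eq.refl true)
  have s23 := seg_b 9387256 s22 r13.1 (Eq.refl true)
  have s24 := seg_b 9759266 s23 r12.1 (Eq.refl true)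
  have s25 := seg_b 10184852 s24 r11.1 (Eq.refl true)
  have s26 := seg_b 10908942 s25 r10.1 (Eq.refl true)
  have s27 := seg_b 11588202 s26 r9.1 (Eq.refl true)
  have s28 := seg_b 12365282 s27 r8.1 (Eq.refl true)
  have s29 := seg_b 13094252 s28 r7.1 (Eq.refl true)
  have s30 := seg_b 13928200 s29 r6.1 (Eq.refl true)
  have s31 := seg_b 14710516 s30 r5.1 (Eq.refl true)
  have s32 := seg_b 15444398 s31 r4.1 (Eq.refl true)
  have s33 := seg_b 16008924 s32 r3.1 (Eq.refl true)
  have s34 := seg_b 16443176 s33 r2.1 (Eq.refl true)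
  have s35 := seg_b 16777216 s34 r1.1 (Eq.refl true)
  s35

theorem seg_37 : Seg 24 37 0 (2 ^ 24) :=
  have r0 := p_37
  have r1 := r0.2
  have r2 := r1.2
  have r3 := r2.2
  have r4 := r3.2
  have r5 := r4.2
  have r6 := r5.2
  have r7 := r6.2
  have r8 := r7.2
  have r9 := r8.2
  have r10 := r9.2
  have r11 := r10.2
  have r12 := r11.2
  have r13 := r12.2
  have r14 := r13.2
  have r15 := r14.2
  have r16 := r15.2
  have r17 := r16.2
  have r18 := r17.2
  have r19 := r18.2
  have r20 := r19.2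
  have r21 := r20.2
  have r22 := r21.2
  have r23 := r22.2
  have r24 := r23.2
  have r25 := r24.2
  have r26 := r25.2
  have r27 := r26.2
  have r28 := r27.2
  have r29 := r28.2
  have r30 := r29.2
  have r31 := r30.2
  have r32 := r31.2
  have r33 := r32.2
  have r34 := r33.2
  have r35 := r34.2
  have r36 := r35.2
  have s0 := seg_a 8192 r0.1 (Eq.refl true)
  have s1 := seg_b 9936 s0 r36 (Eq.refl true)
  have s2 := seg_b 17874 s1 r35.1 (Eq.refl true)
  have s3 := seg_b 32392 s2 r34.1 (Eq.refl true)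
  have s4 := seg_b 58704 s3 r33.1 (Eq.refl true)
  have s5 := seg_b 106398 s4 r32.1 (Eq.refl true)
  have s6 := seg_b 192836 s5 r31.1 (Eq.refl true)
  have s7 := seg_b 349504 s6 r30.1 (Eq.refl true)
  have s8 := seg_b 633460 s7 r29.1 (Eq.refl true)
  have s9 := seg_b 1001636 s8 r28.1 (Eq.refl true)
  have s10 := seg_b 1522146 s9 r27.1 (Eq.refl true)
  have s11 := seg_b 2248330 s10 r26.1 (Eq.refl true)
  have s12 := seg_b 2806934 s11 r25.1 (Eq.refl true)
  have s13 := seg_b 3330954 s12 r24.1 (Eq.refl true)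
  have s14 := seg_b 3822532 s13 r23.1 (Eq.refl true)
  have s15 := seg_b 4384904 s14 r22.1 (Eq.refl true)
  have s16 := seg_b 4817498 s15 r21.1 (Eq.refl true)
  have s17 := seg_b 5421028 s16 r20.1 (Eq.refl true)
  have s18 := seg_b 5987194 s17 r19.1 (Eq.refl true)
  have s19 := seg_b 6518308 s18 r18.1 (Eq.refl true)
  have s20 := seg_b 7016540 s19 r17.1 (Eq.refl true)
  have s21 := seg_b 7586526 s20 r16.1 (Eq.refl true)
  have s22 := seg_b 8121224 s21 r15.1 (Eq.refl true)
  have s23 := seg_b 8732924 s22 r14.1 (Eq.refl true)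
  have s24 := seg_b 9306754 s23 r13.1 (Eq.refl true)
  have s25 := seg_b 9748162 s24 r12.1 (Eq.refl true)
  have s26 := seg_b 10499170 s25 r11.1 (Eq.refl true)
  have s27 := seg_b 11203682 s26 r10.1 (Eq.refl true)
  have s28 := seg_b 11864576 s27 r9.1 (Eq.refl true)
  have s29 := seg_b 12484554 s28 r8.1 (Eq.refl true)
  have s30 := seg_b 13193816 s29 r7.1 (Eq.refl true)
  have s31 := seg_b 14005220 s30 r6.1 (Eq.refl true)
  have s32 := seg_b 14766388 s31 r5.1 (Eq.refl true)
  have s33 := seg_b 15480430 s32 r4.1 (Eq.refl true)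
  have s34 := seg_b 16029694 s33 r3.1 (Eq.refl true)
  have s35 := seg_b 16452206 s34 r2.1 (Eq.refl true)
  have s36 := seg_b 16777216 s35 r1.1 (Eq.refl true)
  s36

theorem seg_38 : Seg 24 38 0 (2 ^ 24) :=
  have r0 := p_38
  have r1 := r0.2
  have r2 := r1.2
  have r3 := r2.2
  have r4 := r3.2
  have r5 := r4.2
  have r6 := r5.2
  have r7 := r6.2
  have r8 := r7.2
  have r9 := r8.2
  have r10 := r9.2
  have r11 := r10.2
  have r12 := r11.2
  have r13 := r12.2
  have r14 := r13.2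
  have r15 := r14.2
  have r16 := r15.2
  have r17 := r16.2
  have r18 := r17.2
  have r19 := r18.2
  have r20 := r19.2
  have r21 := r20.2
  have r22 := r21.2
  have r23 := r22.2
  have r24 := r23.2
  have r25 := r24.2
  have r26 := r25.2
  have r27 := r26.2
  have r28 := r27.2
  have r29 := r28.2
  have r30 := r29.2
  have r31 := r30.2
  have r32 := r31.2
  have r33 := r32.2
  have r34 := r33.2
  have r35 := r34.2
  have r36 := r35.2
  have s0 := seg_a 8192 r0.1 (Eq.refl true)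
  have s1 := seg_b 9912 s0 r36 (Eq.refl true)
  have s2 := seg_b 17746 s1 r35.1 (Eq.refl true)
  have s3 := seg_b 32158 s2 r34.1 (Eq.refl true)
  have s4 := seg_b 58280 s3 r33.1 (Eq.refl true)
  have s5 := seg_b 105626 s4 r32.1 (Eq.refl true)
  have s6 := seg_b 191440 s5 r31.1 (Eq.refl true)
  have s7 := seg_b 346974 s6 r30.1 (Eq.refl true)
  have s8 := seg_b 628874 s7 r29.1 (Eq.refl true)
  have s9 := seg_b 992144 s8 r28.1 (Eq.refl true)
  have s10 := seg_b 1498958 s9 r27.1 (Eq.refl true)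
  have s11 := seg_b 2206032 s10 r26.1 (Eq.refl true)
  have s12 := seg_b 2749936 s11 r25.1 (Eq.refl true)
  have s13 := seg_b 3260166 s12 r24.1 (Eq.refl true)
  have s14 := seg_b 3843878 s13 r23.1 (Eq.refl true)
  have s15 := seg_b 4391452 s14 r22.1 (Eq.refl true)
  have s16 := seg_b 4812664 s15 r21.1 (Eq.refl true)
  have s17 := seg_b 5400312 s16 r20.1 (Eq.refl true)
  have s18 := seg_b 5852350 s17 r19.1 (Eq.refl true)
  have s19 := seg_b 6369486 s18 r18.1 (Eq.refl true)
  have s20 := seg_b 6854606 s19 r17.1 (Eq.refl true)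
  have s21 := seg_b 7227776 s20 r16.1 (Eq.refl true)
  have s22 := seg_b 7862686 s21 r15.1 (Eq.refl true)
  have s23 := seg_b 8458288 s22 r14.1 (Eq.refl true)
  have s24 := seg_b 9139666 s23 r13.1 (Eq.refl true)
  have s25 := seg_b 9663804 s24 r12.1 (Eq.refl true)
  have s26 := seg_b 10066988 s25 r11.1 (Eq.refl true)
  have s27 := seg_b 10903542 s26 r10.1 (Eq.refl true)
  have s28 := seg_b 11547046 s27 r9.1 (Eq.refl true)
  have s29 := seg_b 12283222 s28 r8.1 (Eq.refl true)
  have s30 := seg_b 13125416 s29 r7.1 (Eq.refl true)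
  have s31 := seg_b 13915468 s30 r6.1 (Eq.refl true)
  have s32 := seg_b 14819298 s31 r5.1 (Eq.refl true)
  have s33 := seg_b 15514552 s32 r4.1 (Eq.refl true)
  have s34 := seg_b 16049364 s33 r3.1 (Eq.refl true)
  have s35 := seg_b 16460758 s34 r2.1 (Eq.refl true)
  have s36 := seg_b 16777216 s35 r1.1 (Eq.refl true)
  s36

theorem seg_39 : Seg 24 39 0 (2 ^ 24) :=
  have r0 := p_39
  have r1 := r0.2
  have r2 := r1.2
  have r3 := r2.2
  have r4 := r3.2
  have r5 := r4.2
  have r6 := r5.2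
  have r7 := r6.2
  have r8 := r7.2
  have r9 := r8.2
  have r10 := r9.2
  have r11 := r10.2
  have r12 := r11.2
  have r13 := r12.2
  have r14 := r13.2
  have r15 := r14.2
  have r16 := r15.2
  have r17 := r16.2
  have r18 := r17.2
  have r19 := r18.2
  have r20 := r19.2
  have r21 := r20.2
  have r22 := r21.2
  have r23 := r22.2
  have r24 := r23.2
  have r25 := r24.2
  have r26 := r25.2
  have r27 := r26.2
  have r28 := r27.2
  have r29 := r28.2
  have r30 := r29.2
  have r31 := r30.2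
  have r32 := r31.2
  have r33 := r32.2
  have r34 := r33.2
  have r35 := r34.2
  have r36 := r35.2
  have r37 := r36.2
  have s0 := seg_a 8192 r0.1 (Eq.refl true)
  have s1 := seg_b 9930 s0 r37 (Eq.refl true)
  have s2 := seg_b 17844 s1 r36.1 (Eq.refl true)
  have s3 := seg_b 32338 s2 r35.1 (Eq.refl true)
  have s4 := seg_b 58606 s3 r34.1 (Eq.refl true)
  have s5 := seg_b 106218 s4 r33.1 (Eq.refl true)
  have s6 := seg_b 192514 s5 r32.1 (Eq.refl true)
  have s7 := seg_b 348924 s6 r31.1 (Eq.refl true)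
  have s8 := seg_b 632408 s7 r30.1 (Eq.refl true)
  have s9 := seg_b 999976 s8 r29.1 (Eq.refl true)
  have s10 := seg_b 1641946 s9 r28.1 (Eq.refl true)
  have s11 := seg_b 2244172 s10 r27.1 (Eq.refl true)
  have s12 := seg_b 2707424 s11 r26.1 (Eq.refl true)
  have s13 := seg_b 3237390 s12 r25.1 (Eq.refl true)
  have s14 := seg_b 3843678 s13 r24.1 (Eq.refl true)
  have s15 := seg_b 4310054 s14 r23.1 (Eq.refl true)
  have s16 := seg_b 4747556 s15 r22.1 (Eq.refl true)
  have s17 := seg_b 5357932 s16 r21.1 (Eq.refl true)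
  have s18 := seg_b 5827452 s17 r20.1 (Eq.refl true)
  have s19 := seg_b 6364588 s18 r19.1 (Eq.refl true)
  have s20 := seg_b 6868468 s19 r18.1 (Eq.refl true)
  have s21 := seg_b 7256068 s20 r17.1 (Eq.refl true)
  have s22 := seg_b 7915528 s21 r16.1 (Eq.refl true)
  have s23 := seg_b 8422806 s22 r15.1 (Eq.refl true)
  have s24 := seg_b 9003140 s23 r14.1 (Eq.refl true)
  have s25 := seg_b 9449552 s24 r13.1 (Eq.refl true)
  have s26 := seg_b 9792946 s25 r12.1 (Eq.refl true)
  have s27 := seg_b 10377196 s26 r11.1 (Eq.refl true)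
  have s28 := seg_b 11045586 s27 r10.1 (Eq.refl true)
  have s29 := seg_b 11810232 s28 r9.1 (Eq.refl true)
  have s30 := seg_b 12398422 s29 r8.1 (Eq.refl true)
  have s31 := seg_b 13219028 s30 r7.1 (Eq.refl true)
  have s32 := seg_b 13988828 s31 r6.1 (Eq.refl true)
  have s33 := seg_b 14869488 s32 r5.1 (Eq.refl true)
  have s34 := seg_b 15546920 s33 r4.1 (Eq.refl true)
  have s35 := seg_b 16068022 s34 r3.1 (Eq.refl true)
  have s36 := seg_b 16468870 s35 r2.1 (Eq.refl true)
  have s37 := seg_b 16777216 s36 r1.1 (Eq.refl true)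
  s37

theorem low {N : ℕ} (hN : N < 40) (q : ℂ) (h1 : ‖q‖ = 1) (h2 : q ≠ 1) : OnePer q N := by
  interval_cases N
  · exact onePer_of_half h1 (fun _ => 0) (by simp) (by simp) (by simp)
  · exact onePer_of_half h1 (fun _ => 0) (by simp) (by simp) (by simp)
  · exact seg_2.all q h1 h2
  · exact seg_3.all q h1 h2
  · exact seg_4.all q h1 h2
  · exact seg_5.all q h1 h2
  · exact seg_6.all q h1 h2
  · exact seg_7.all q h1 h2
  · exact seg_8.all q h1 h2
  · exact seg_9.all q h1 h2
  · exact seg_10.all q h1 h2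
  · exact seg_11.all q h1 h2
  · exact seg_12.all q h1 h2
  · exact seg_13.all q h1 h2
  · exact seg_14.all q h1 h2
  · exact seg_15.all q h1 h2
  · exact seg_16.all q h1 h2
  · exact seg_17.all q h1 h2
  · exact seg_18.all q h1 h2
  · exact seg_19.all q h1 h2
  · exact seg_20.all q h1 h2
  · exact seg_21.all q h1 h2
  · exact seg_22.all q h1 h2
  · exact seg_23.all q h1 h2
  · exact seg_24.all q h1 h2
  · exact seg_25.all q h1 h2
  · exact seg_26.all q h1 h2
  · exact seg_27.all q h1 h2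
  · exact seg_28.all q h1 h2
  · exact seg_29.all q h1 h2
  · exact seg_30.all q h1 h2
  · exact seg_31.all q h1 h2
  · exact seg_32.all q h1 h2
  · exact seg_33.all q h1 h2
  · exact seg_34.all q h1 h2
  · exact seg_35.all q h1 h2
  · exact seg_36.all q h1 h2
  · exact seg_37.all q h1 h2
  · exact seg_38.all q h1 h2
  · exact seg_39.all q h1 h2

theorem g126 : Good c126 b126_51 :=
  have r0 := t126
  have g0 := Good.start r0.1 r0.2.1
  have r1 := r0.2.2
  have g1 := g0.link r1.1 r1.2.1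
  have r2 := r1.2.2
  have g2 := g1.link r2.1 r2.2.1
  have r3 := r2.2.2
  have g3 := g2.link r3.1 r3.2.1
  have r4 := r3.2.2
  have g4 := g3.link r4.1 r4.2.1
  have r5 := r4.2.2
  have g5 := g4.link r5.1 r5.2.1
  have r6 := r5.2.2
  have g6 := g5.link r6.1 r6.2.1
  have r7 := r6.2.2
  have g7 := g6.link r7.1 r7.2.1
  have r8 := r7.2.2
  have g8 := g7.link r8.1 r8.2.1
  have r9 := r8.2.2
  have g9 := g8.link r9.1 r9.2.1
  have r10 := r9.2.2
  have g10 := g9.link r10.1 r10.2.1
  have r11 := r10.2.2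
  have g11 := g10.link r11.1 r11.2.1
  have r12 := r11.2.2
  have g12 := g11.link r12.1 r12.2.1
  have r13 := r12.2.2
  have g13 := g12.link r13.1 r13.2.1
  have r14 := r13.2.2
  have g14 := g13.link r14.1 r14.2.1
  have r15 := r14.2.2
  have g15 := g14.link r15.1 r15.2.1
  have r16 := r15.2.2
  have g16 := g15.link r16.1 r16.2.1
  have r17 := r16.2.2
  have g17 := g16.link r17.1 r17.2.1
  have r18 := r17.2.2
  have g18 := g17.link r18.1 r18.2.1
  have r19 := r18.2.2
  have g19 := g18.link r19.1 r19.2.1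
  have r20 := r19.2.2
  have g20 := g19.link r20.1 r20.2.1
  have r21 := r20.2.2
  have g21 := g20.link r21.1 r21.2.1
  have r22 := r21.2.2
  have g22 := g21.link r22.1 r22.2.1
  have r23 := r22.2.2
  have g23 := g22.link r23.1 r23.2.1
  have r24 := r23.2.2
  have g24 := g23.link r24.1 r24.2.1
  have r25 := r24.2.2
  have g25 := g24.link r25.1 r25.2.1
  have r26 := r25.2.2
  have g26 := g25.link r26.1 r26.2.1
  have r27 := r26.2.2
  have g27 := g26.link r27.1 r27.2.1
  have r28 := r27.2.2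
  have g28 := g27.link r28.1 r28.2.1
  have r29 := r28.2.2
  have g29 := g28.link r29.1 r29.2.1
  have r30 := r29.2.2
  have g30 := g29.link r30.1 r30.2.1
  have r31 := r30.2.2
  have g31 := g30.link r31.1 r31.2.1
  have r32 := r31.2.2
  have g32 := g31.link r32.1 r32.2.1
  have r33 := r32.2.2
  have g33 := g32.link r33.1 r33.2.1
  have r34 := r33.2.2
  have g34 := g33.link r34.1 r34.2.1
  have r35 := r34.2.2
  have g35 := g34.link r35.1 r35.2.1
  have r36 := r35.2.2
  have g36 := g35.link r36.1 r36.2.1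
  have r37 := r36.2.2
  have g37 := g36.link r37.1 r37.2.1
  have r38 := r37.2.2
  have g38 := g37.link r38.1 r38.2.1
  have r39 := r38.2.2
  have g39 := g38.link r39.1 r39.2.1
  have r40 := r39.2.2
  have g40 := g39.link r40.1 r40.2.1
  have r41 := r40.2.2
  have g41 := g40.link r41.1 r41.2.1
  have r42 := r41.2.2
  have g42 := g41.link r42.1 r42.2.1
  have r43 := r42.2.2
  have g43 := g42.link r43.1 r43.2.1
  have r44 := r43.2.2
  have g44 := g43.link r44.1 r44.2.1
  have r45 := r44.2.2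
  have g45 := g44.link r45.1 r45.2.1
  have r46 := r45.2.2
  have g46 := g45.link r46.1 r46.2.1
  have r47 := r46.2.2
  have g47 := g46.link r47.1 r47.2.1
  have r48 := r47.2.2
  have g48 := g47.link r48.1 r48.2.1
  have r49 := r48.2.2
  have g49 := g48.link r49.1 r49.2.1
  have r50 := r49.2.2
  have g50 := g49.link r50.1 r50.2.1
  have r51 := r50.2.2
  have g51 := g50.link r51.1 r51.2
  g51

theorem chain126 (hA : Asym) (N : ℕ) (h0 : 126 ≤ N) (h1 : N ≤ 250)
    (hp : ∀ q : ℂ, ‖q‖ = 1 → q ≠ 1 → OnePer q (N - 1)) :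
    ∀ q : ℂ, ‖q‖ = 1 → q ≠ 1 → OnePer q N := by
  have e : b126_51.lo = 163316 / 2 ^ 24 := by
    show ((163316 : ℕ) : ℝ) / 2 ^ 24 = _
    norm_num
  have e' : ((c126.Nlo : ℕ) : ℝ) = 126 := by
    show ((126 : ℕ) : ℝ) = _
    norm_num
  refine g126.fin (7907 / 1000) (173 / 8) (by norm_num) (by norm_num) ?_ ?_ ?_ hA N ⟨h0, ?_⟩ hp
  · rw [e]; norm_num
  · rw [e, e']; norm_num
  · rw [e']; norm_num
  · show (100131 - 33023) * N ≤ 2 ^ 24
    omega

theorem g251 : Good c251 b251_57 :=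
  have r0 := t251
  have g0 := Good.start r0.1 r0.2.1
  have r1 := r0.2.2
  have g1 := g0.link r1.1 r1.2.1
  have r2 := r1.2.2
  have g2 := g1.link r2.1 r2.2.1
  have r3 := r2.2.2
  have g3 := g2.link r3.1 r3.2.1
  have r4 := r3.2.2
  have g4 := g3.link r4.1 r4.2.1
  have r5 := r4.2.2
  have g5 := g4.link r5.1 r5.2.1
  have r6 := r5.2.2
  have g6 := g5.link r6.1 r6.2.1
  have r7 := r6.2.2
  have g7 := g6.link r7.1 r7.2.1
  have r8 := r7.2.2
  have g8 := g7.link r8.1 r8.2.1
  have r9 := r8.2.2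
  have g9 := g8.link r9.1 r9.2.1
  have r10 := r9.2.2
  have g10 := g9.link r10.1 r10.2.1
  have r11 := r10.2.2
  have g11 := g10.link r11.1 r11.2.1
  have r12 := r11.2.2
  have g12 := g11.link r12.1 r12.2.1
  have r13 := r12.2.2
  have g13 := g12.link r13.1 r13.2.1
  have r14 := r13.2.2
  have g14 := g13.link r14.1 r14.2.1
  have r15 := r14.2.2
  have g15 := g14.link r15.1 r15.2.1
  have r16 := r15.2.2
  have g16 := g15.link r16.1 r16.2.1
  have r17 := r16.2.2
  have g17 := g16.link r17.1 r17.2.1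
  have r18 := r17.2.2
  have g18 := g17.link r18.1 r18.2.1
  have r19 := r18.2.2
  have g19 := g18.link r19.1 r19.2.1
  have r20 := r19.2.2
  have g20 := g19.link r20.1 r20.2.1
  have r21 := r20.2.2
  have g21 := g20.link r21.1 r21.2.1
  have r22 := r21.2.2
  have g22 := g21.link r22.1 r22.2.1
  have r23 := r22.2.2
  have g23 := g22.link r23.1 r23.2.1
  have r24 := r23.2.2
  have g24 := g23.link r24.1 r24.2.1
  have r25 := r24.2.2
  have g25 := g24.link r25.1 r25.2.1
  have r26 := r25.2.2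
  have g26 := g25.link r26.1 r26.2.1
  have r27 := r26.2.2
  have g27 := g26.link r27.1 r27.2.1
  have r28 := r27.2.2
  have g28 := g27.link r28.1 r28.2.1
  have r29 := r28.2.2
  have g29 := g28.link r29.1 r29.2.1
  have r30 := r29.2.2
  have g30 := g29.link r30.1 r30.2.1
  have r31 := r30.2.2
  have g31 := g30.link r31.1 r31.2.1
  have r32 := r31.2.2
  have g32 := g31.link r32.1 r32.2.1
  have r33 := r32.2.2
  have g33 := g32.link r33.1 r33.2.1
  have r34 := r33.2.2
  have g34 := g33.link r34.1 r34.2.1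
  have r35 := r34.2.2
  have g35 := g34.link r35.1 r35.2.1
  have r36 := r35.2.2
  have g36 := g35.link r36.1 r36.2.1
  have r37 := r36.2.2
  have g37 := g36.link r37.1 r37.2.1
  have r38 := r37.2.2
  have g38 := g37.link r38.1 r38.2.1
  have r39 := r38.2.2
  have g39 := g38.link r39.1 r39.2.1
  have r40 := r39.2.2
  have g40 := g39.link r40.1 r40.2.1
  have r41 := r40.2.2
  have g41 := g40.link r41.1 r41.2.1
  have r42 := r41.2.2
  have g42 := g41.link r42.1 r42.2.1
  have r43 := r42.2.2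
  have g43 := g42.link r43.1 r43.2.1
  have r44 := r43.2.2
  have g44 := g43.link r44.1 r44.2.1
  have r45 := r44.2.2
  have g45 := g44.link r45.1 r45.2.1
  have r46 := r45.2.2
  have g46 := g45.link r46.1 r46.2.1
  have r47 := r46.2.2
  have g47 := g46.link r47.1 r47.2.1
  have r48 := r47.2.2
  have g48 := g47.link r48.1 r48.2.1
  have r49 := r48.2.2
  have g49 := g48.link r49.1 r49.2.1
  have r50 := r49.2.2
  have g50 := g49.link r50.1 r50.2.1
  have r51 := r50.2.2
  have g51 := g50.link r51.1 r51.2.1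
  have r52 := r51.2.2
  have g52 := g51.link r52.1 r52.2.1
  have r53 := r52.2.2
  have g53 := g52.link r53.1 r53.2.1
  have r54 := r53.2.2
  have g54 := g53.link r54.1 r54.2.1
  have r55 := r54.2.2
  have g55 := g54.link r55.1 r55.2.1
  have r56 := r55.2.2
  have g56 := g55.link r56.1 r56.2.1
  have r57 := r56.2.2
  have g57 := g56.link r57.1 r57.2
  g57

theorem chain251 (hA : Asym) (N : ℕ) (h0 : 251 ≤ N)
    (hp : ∀ q : ℂ, ‖q‖ = 1 → q ≠ 1 → OnePer q (N - 1)) :
    ∀ q : ℂ, ‖q‖ = 1 → q ≠ 1 → OnePer q N := by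
  have e : b251_57.lo = 190482 / 2 ^ 24 := by
    show ((190482 : ℕ) : ℝ) / 2 ^ 24 = _
    norm_num
  have e' : ((c251.Nlo : ℕ) : ℝ) = 251 := by
    show ((251 : ℕ) : ℝ) = _
    norm_num
  refine g251.fin (7420 / 1000) (161 / 8) (by norm_num) (by norm_num) ?_ ?_ ?_ hA N ⟨h0, ?_⟩ hp
  · rw [e]; norm_num
  · rw [e, e']; norm_num
  · rw [e']; norm_num
  · show (33421 - 33421) * N ≤ 2 ^ 24
    omega

theorem g40 : Good c40 b40_48 :=
  have r0 := t40
  have g0 := Good.start r0.1 r0.2.1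
  have r1 := r0.2.2
  have g1 := g0.link r1.1 r1.2.1
  have r2 := r1.2.2
  have g2 := g1.link r2.1 r2.2.1
  have r3 := r2.2.2
  have g3 := g2.link r3.1 r3.2.1
  have r4 := r3.2.2
  have g4 := g3.link r4.1 r4.2.1
  have r5 := r4.2.2
  have g5 := g4.link r5.1 r5.2.1
  have r6 := r5.2.2
  have g6 := g5.link r6.1 r6.2.1
  have r7 := r6.2.2
  have g7 := g6.link r7.1 r7.2.1
  have r8 := r7.2.2
  have g8 := g7.link r8.1 r8.2.1
  have r9 := r8.2.2
  have g9 := g8.link r9.1 r9.2.1
  have r10 := r9.2.2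
  have g10 := g9.link r10.1 r10.2.1
  have r11 := r10.2.2
  have g11 := g10.link r11.1 r11.2.1
  have r12 := r11.2.2
  have g12 := g11.link r12.1 r12.2.1
  have r13 := r12.2.2
  have g13 := g12.link r13.1 r13.2.1
  have r14 := r13.2.2
  have g14 := g13.link r14.1 r14.2.1
  have r15 := r14.2.2
  have g15 := g14.link r15.1 r15.2.1
  have r16 := r15.2.2
  have g16 := g15.link r16.1 r16.2.1
  have r17 := r16.2.2
  have g17 := g16.link r17.1 r17.2.1
  have r18 := r17.2.2
  have g18 := g17.link r18.1 r18.2.1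
  have r19 := r18.2.2
  have g19 := g18.link r19.1 r19.2.1
  have r20 := r19.2.2
  have g20 := g19.link r20.1 r20.2.1
  have r21 := r20.2.2
  have g21 := g20.link r21.1 r21.2.1
  have r22 := r21.2.2
  have g22 := g21.link r22.1 r22.2.1
  have r23 := r22.2.2
  have g23 := g22.link r23.1 r23.2.1
  have r24 := r23.2.2
  have g24 := g23.link r24.1 r24.2.1
  have r25 := r24.2.2
  have g25 := g24.link r25.1 r25.2.1
  have r26 := r25.2.2
  have g26 := g25.link r26.1 r26.2.1
  have r27 := r26.2.2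
  have g27 := g26.link r27.1 r27.2.1
  have r28 := r27.2.2
  have g28 := g27.link r28.1 r28.2.1
  have r29 := r28.2.2
  have g29 := g28.link r29.1 r29.2.1
  have r30 := r29.2.2
  have g30 := g29.link r30.1 r30.2.1
  have r31 := r30.2.2
  have g31 := g30.link r31.1 r31.2.1
  have r32 := r31.2.2
  have g32 := g31.link r32.1 r32.2.1
  have r33 := r32.2.2
  have g33 := g32.link r33.1 r33.2.1
  have r34 := r33.2.2
  have g34 := g33.link r34.1 r34.2.1
  have r35 := r34.2.2
  have g35 := g34.link r35.1 r35.2.1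
  have r36 := r35.2.2
  have g36 := g35.link r36.1 r36.2.1
  have r37 := r36.2.2
  have g37 := g36.link r37.1 r37.2.1
  have r38 := r37.2.2
  have g38 := g37.link r38.1 r38.2.1
  have r39 := r38.2.2
  have g39 := g38.link r39.1 r39.2.1
  have r40 := r39.2.2
  have g40 := g39.link r40.1 r40.2.1
  have r41 := r40.2.2
  have g41 := g40.link r41.1 r41.2.1
  have r42 := r41.2.2
  have g42 := g41.link r42.1 r42.2.1
  have r43 := r42.2.2
  have g43 := g42.link r43.1 r43.2.1
  have r44 := r43.2.2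
  have g44 := g43.link r44.1 r44.2.1
  have r45 := r44.2.2
  have g45 := g44.link r45.1 r45.2.1
  have r46 := r45.2.2
  have g46 := g45.link r46.1 r46.2.1
  have r47 := r46.2.2
  have g47 := g46.link r47.1 r47.2.1
  have r48 := r47.2.2
  have g48 := g47.link r48.1 r48.2
  g48

theorem chain40 (hA : Asym) (N : ℕ) (h0 : 40 ≤ N) (h1 : N ≤ 45)
    (hp : ∀ q : ℂ, ‖q‖ = 1 → q ≠ 1 → OnePer q (N - 1)) :
    ∀ q : ℂ, ‖q‖ = 1 → q ≠ 1 → OnePer q N := by
  have e : b40_48.lo = 56184 / 2 ^ 24 := by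
    show ((56184 : ℕ) : ℝ) / 2 ^ 24 = _
    norm_num
  have e' : ((c40.Nlo : ℕ) : ℝ) = 40 := by
    show ((40 : ℕ) : ℝ) = _
    norm_num
  refine g40.fin (11689 / 1000) (304 / 8) (by norm_num) (by norm_num) ?_ ?_ ?_ hA N ⟨h0, ?_⟩ hp
  · rw [e]; norm_num
  · rw [e, e']; norm_num
  · rw [e']; norm_num
  · show (396129 - 23302) * N ≤ 2 ^ 24
    omega

theorem g46 : Good c46 b46_44 :=
  have r0 := t46
  have g0 := Good.start r0.1 r0.2.1
  have r1 := r0.2.2
  have g1 := g0.link r1.1 r1.2.1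
  have r2 := r1.2.2
  have g2 := g1.link r2.1 r2.2.1
  have r3 := r2.2.2
  have g3 := g2.link r3.1 r3.2.1
  have r4 := r3.2.2
  have g4 := g3.link r4.1 r4.2.1
  have r5 := r4.2.2
  have g5 := g4.link r5.1 r5.2.1
  have r6 := r5.2.2
  have g6 := g5.link r6.1 r6.2.1
  have r7 := r6.2.2
  have g7 := g6.link r7.1 r7.2.1
  have r8 := r7.2.2
  have g8 := g7.link r8.1 r8.2.1
  have r9 := r8.2.2
  have g9 := g8.link r9.1 r9.2.1
  have r10 := r9.2.2
  have g10 := g9.link r10.1 r10.2.1
  have r11 := r10.2.2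
  have g11 := g10.link r11.1 r11.2.1
  have r12 := r11.2.2
  have g12 := g11.link r12.1 r12.2.1
  have r13 := r12.2.2
  have g13 := g12.link r13.1 r13.2.1
  have r14 := r13.2.2
  have g14 := g13.link r14.1 r14.2.1
  have r15 := r14.2.2
  have g15 := g14.link r15.1 r15.2.1
  have r16 := r15.2.2
  have g16 := g15.link r16.1 r16.2.1
  have r17 := r16.2.2
  have g17 := g16.link r17.1 r17.2.1
  have r18 := r17.2.2
  have g18 := g17.link r18.1 r18.2.1
  have r19 := r18.2.2
  have g19 := g18.link r19.1 r19.2.1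
  have r20 := r19.2.2
  have g20 := g19.link r20.1 r20.2.1
  have r21 := r20.2.2
  have g21 := g20.link r21.1 r21.2.1
  have r22 := r21.2.2
  have g22 := g21.link r22.1 r22.2.1
  have r23 := r22.2.2
  have g23 := g22.link r23.1 r23.2.1
  have r24 := r23.2.2
  have g24 := g23.link r24.1 r24.2.1
  have r25 := r24.2.2
  have g25 := g24.link r25.1 r25.2.1
  have r26 := r25.2.2
  have g26 := g25.link r26.1 r26.2.1
  have r27 := r26.2.2
  have g27 := g26.link r27.1 r27.2.1
  have r28 := r27.2.2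
  have g28 := g27.link r28.1 r28.2.1
  have r29 := r28.2.2
  have g29 := g28.link r29.1 r29.2.1
  have r30 := r29.2.2
  have g30 := g29.link r30.1 r30.2.1
  have r31 := r30.2.2
  have g31 := g30.link r31.1 r31.2.1
  have r32 := r31.2.2
  have g32 := g31.link r32.1 r32.2.1
  have r33 := r32.2.2
  have g33 := g32.link r33.1 r33.2.1
  have r34 := r33.2.2
  have g34 := g33.link r34.1 r34.2.1
  have r35 := r34.2.2
  have g35 := g34.link r35.1 r35.2.1
  have r36 := r35.2.2
  have g36 := g35.link r36.1 r36.2.1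
  have r37 := r36.2.2
  have g37 := g36.link r37.1 r37.2.1
  have r38 := r37.2.2
  have g38 := g37.link r38.1 r38.2.1
  have r39 := r38.2.2
  have g39 := g38.link r39.1 r39.2.1
  have r40 := r39.2.2
  have g40 := g39.link r40.1 r40.2.1
  have r41 := r40.2.2
  have g41 := g40.link r41.1 r41.2.1
  have r42 := r41.2.2
  have g42 := g41.link r42.1 r42.2.1
  have r43 := r42.2.2
  have g43 := g42.link r43.1 r43.2.1
  have r44 := r43.2.2
  have g44 := g43.link r44.1 r44.2
  g44

theorem chain46 (hA : Asym) (N : ℕ) (h0 : 46 ≤ N) (h1 : N ≤ 53)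
    (hp : ∀ q : ℂ, ‖q‖ = 1 → q ≠ 1 → OnePer q (N - 1)) :
    ∀ q : ℂ, ‖q‖ = 1 → q ≠ 1 → OnePer q N := by
  have e : b46_44.lo = 75300 / 2 ^ 24 := by
    show ((75300 : ℕ) : ℝ) / 2 ^ 24 = _
    norm_num
  have e' : ((c46.Nlo : ℕ) : ℝ) = 46 := by
    show ((46 : ℕ) : ℝ) = _
    norm_num
  refine g46.fin (10597 / 1000) (259 / 8) (by norm_num) (by norm_num) ?_ ?_ ?_ hA N ⟨h0, ?_⟩ hp
  · rw [e]; norm_num
  · rw [e, e']; norm_num
  · rw [e']; norm_num
  · show (340637 - 24086) * N ≤ 2 ^ 24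
    omega

theorem g54 : Good c54 b54_45 :=
  have r0 := t54
  have g0 := Good.start r0.1 r0.2.1
  have r1 := r0.2.2
  have g1 := g0.link r1.1 r1.2.1
  have r2 := r1.2.2
  have g2 := g1.link r2.1 r2.2.1
  have r3 := r2.2.2
  have g3 := g2.link r3.1 r3.2.1
  have r4 := r3.2.2
  have g4 := g3.link r4.1 r4.2.1
  have r5 := r4.2.2
  have g5 := g4.link r5.1 r5.2.1
  have r6 := r5.2.2
  have g6 := g5.link r6.1 r6.2.1
  have r7 := r6.2.2
  have g7 := g6.link r7.1 r7.2.1
  have r8 := r7.2.2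
  have g8 := g7.link r8.1 r8.2.1
  have r9 := r8.2.2
  have g9 := g8.link r9.1 r9.2.1
  have r10 := r9.2.2
  have g10 := g9.link r10.1 r10.2.1
  have r11 := r10.2.2
  have g11 := g10.link r11.1 r11.2.1
  have r12 := r11.2.2
  have g12 := g11.link r12.1 r12.2.1
  have r13 := r12.2.2
  have g13 := g12.link r13.1 r13.2.1
  have r14 := r13.2.2
  have g14 := g13.link r14.1 r14.2.1
  have r15 := r14.2.2
  have g15 := g14.link r15.1 r15.2.1
  have r16 := r15.2.2
  have g16 := g15.link r16.1 r16.2.1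
  have r17 := r16.2.2
  have g17 := g16.link r17.1 r17.2.1
  have r18 := r17.2.2
  have g18 := g17.link r18.1 r18.2.1
  have r19 := r18.2.2
  have g19 := g18.link r19.1 r19.2.1
  have r20 := r19.2.2
  have g20 := g19.link r20.1 r20.2.1
  have r21 := r20.2.2
  have g21 := g20.link r21.1 r21.2.1
  have r22 := r21.2.2
  have g22 := g21.link r22.1 r22.2.1
  have r23 := r22.2.2
  have g23 := g22.link r23.1 r23.2.1
  have r24 := r23.2.2
  have g24 := g23.link r24.1 r24.2.1
  have r25 := r24.2.2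
  have g25 := g24.link r25.1 r25.2.1
  have r26 := r25.2.2
  have g26 := g25.link r26.1 r26.2.1
  have r27 := r26.2.2
  have g27 := g26.link r27.1 r27.2.1
  have r28 := r27.2.2
  have g28 := g27.link r28.1 r28.2.1
  have r29 := r28.2.2
  have g29 := g28.link r29.1 r29.2.1
  have r30 := r29.2.2
  have g30 := g29.link r30.1 r30.2.1
  have r31 := r30.2.2
  have g31 := g30.link r31.1 r31.2.1
  have r32 := r31.2.2
  have g32 := g31.link r32.1 r32.2.1
  have r33 := r32.2.2
  have g33 := g32.link r33.1 r33.2.1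
  have r34 := r33.2.2
  have g34 := g33.link r34.1 r34.2.1
  have r35 := r34.2.2
  have g35 := g34.link r35.1 r35.2.1
  have r36 := r35.2.2
  have g36 := g35.link r36.1 r36.2.1
  have r37 := r36.2.2
  have g37 := g36.link r37.1 r37.2.1
  have r38 := r37.2.2
  have g38 := g37.link r38.1 r38.2.1
  have r39 := r38.2.2
  have g39 := g38.link r39.1 r39.2.1
  have r40 := r39.2.2
  have g40 := g39.link r40.1 r40.2.1
  have r41 := r40.2.2
  have g41 := g40.link r41.1 r41.2.1
  have r42 := r41.2.2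
  have g42 := g41.link r42.1 r42.2.1
  have r43 := r42.2.2
  have g43 := g42.link r43.1 r43.2.1
  have r44 := r43.2.2
  have g44 := g43.link r44.1 r44.2.1
  have r45 := r44.2.2
  have g45 := g44.link r45.1 r45.2
  g45

theorem chain54 (hA : Asym) (N : ℕ) (h0 : 54 ≤ N) (h1 : N ≤ 65)
    (hp : ∀ q : ℂ, ‖q‖ = 1 → q ≠ 1 → OnePer q (N - 1)) :
    ∀ q : ℂ, ‖q‖ = 1 → q ≠ 1 → OnePer q N := by
  have e : b54_45.lo = 94860 / 2 ^ 24 := by
    show ((94860 : ℕ) : ℝ) / 2 ^ 24 = _
    norm_num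
  have e' : ((c54.Nlo : ℕ) : ℝ) = 54 := by
    show ((54 : ℕ) : ℝ) = _
    norm_num
  refine g54.fin (9759 / 1000) (229 / 8) (by norm_num) (by norm_num) ?_ ?_ ?_ hA N ⟨h0, ?_⟩ hp
  · rw [e]; norm_num
  · rw [e, e']; norm_num
  · rw [e']; norm_num
  · show (284401 - 26290) * N ≤ 2 ^ 24
    omega

theorem g66 : Good c66 b66_52 :=
  have r0 := t66
  have g0 := Good.start r0.1 r0.2.1
  have r1 := r0.2.2
  have g1 := g0.link r1.1 r1.2.1
  have r2 := r1.2.2
  have g2 := g1.link r2.1 r2.2.1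
  have r3 := r2.2.2
  have g3 := g2.link r3.1 r3.2.1
  have r4 := r3.2.2
  have g4 := g3.link r4.1 r4.2.1
  have r5 := r4.2.2
  have g5 := g4.link r5.1 r5.2.1
  have r6 := r5.2.2
  have g6 := g5.link r6.1 r6.2.1
  have r7 := r6.2.2
  have g7 := g6.link r7.1 r7.2.1
  have r8 := r7.2.2
  have g8 := g7.link r8.1 r8.2.1
  have r9 := r8.2.2
  have g9 := g8.link r9.1 r9.2.1
  have r10 := r9.2.2
  have g10 := g9.link r10.1 r10.2.1
  have r11 := r10.2.2
  have g11 := g10.link r11.1 r11.2.1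
  have r12 := r11.2.2
  have g12 := g11.link r12.1 r12.2.1
  have r13 := r12.2.2
  have g13 := g12.link r13.1 r13.2.1
  have r14 := r13.2.2
  have g14 := g13.link r14.1 r14.2.1
  have r15 := r14.2.2
  have g15 := g14.link r15.1 r15.2.1
  have r16 := r15.2.2
  have g16 := g15.link r16.1 r16.2.1
  have r17 := r16.2.2
  have g17 := g16.link r17.1 r17.2.1
  have r18 := r17.2.2
  have g18 := g17.link r18.1 r18.2.1
  have r19 := r18.2.2
  have g19 := g18.link r19.1 r19.2.1
  have r20 := r19.2.2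
  have g20 := g19.link r20.1 r20.2.1
  have r21 := r20.2.2
  have g21 := g20.link r21.1 r21.2.1
  have r22 := r21.2.2
  have g22 := g21.link r22.1 r22.2.1
  have r23 := r22.2.2
  have g23 := g22.link r23.1 r23.2.1
  have r24 := r23.2.2
  have g24 := g23.link r24.1 r24.2.1
  have r25 := r24.2.2
  have g25 := g24.link r25.1 r25.2.1
  have r26 := r25.2.2
  have g26 := g25.link r26.1 r26.2.1
  have r27 := r26.2.2
  have g27 := g26.link r27.1 r27.2.1
  have r28 := r27.2.2
  have g28 := g27.link r28.1 r28.2.1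
  have r29 := r28.2.2
  have g29 := g28.link r29.1 r29.2.1
  have r30 := r29.2.2
  have g30 := g29.link r30.1 r30.2.1
  have r31 := r30.2.2
  have g31 := g30.link r31.1 r31.2.1
  have r32 := r31.2.2
  have g32 := g31.link r32.1 r32.2.1
  have r33 := r32.2.2
  have g33 := g32.link r33.1 r33.2.1
  have r34 := r33.2.2
  have g34 := g33.link r34.1 r34.2.1
  have r35 := r34.2.2
  have g35 := g34.link r35.1 r35.2.1
  have r36 := r35.2.2
  have g36 := g35.link r36.1 r36.2.1
  have r37 := r36.2.2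
  have g37 := g36.link r37.1 r37.2.1
  have r38 := r37.2.2
  have g38 := g37.link r38.1 r38.2.1
  have r39 := r38.2.2
  have g39 := g38.link r39.1 r39.2.1
  have r40 := r39.2.2
  have g40 := g39.link r40.1 r40.2.1
  have r41 := r40.2.2
  have g41 := g40.link r41.1 r41.2.1
  have r42 := r41.2.2
  have g42 := g41.link r42.1 r42.2.1
  have r43 := r42.2.2
  have g43 := g42.link r43.1 r43.2.1
  have r44 := r43.2.2
  have g44 := g43.link r44.1 r44.2.1
  have r45 := r44.2.2
  have g45 := g44.link r45.1 r45.2.1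
  have r46 := r45.2.2
  have g46 := g45.link r46.1 r46.2.1
  have r47 := r46.2.2
  have g47 := g46.link r47.1 r47.2.1
  have r48 := r47.2.2
  have g48 := g47.link r48.1 r48.2.1
  have r49 := r48.2.2
  have g49 := g48.link r49.1 r49.2.1
  have r50 := r49.2.2
  have g50 := g49.link r50.1 r50.2.1
  have r51 := r50.2.2
  have g51 := g50.link r51.1 r51.2.1
  have r52 := r51.2.2
  have g52 := g51.link r52.1 r52.2
  g52

theorem chain66 (hA : Asym) (N : ℕ) (h0 : 66 ≤ N) (h1 : N ≤ 85)
    (hp : ∀ q : ℂ, ‖q‖ = 1 → q ≠ 1 → OnePer q (N - 1)) :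
    ∀ q : ℂ, ‖q‖ = 1 → q ≠ 1 → OnePer q N := by
  have e : b66_52.lo = 115970 / 2 ^ 24 := by
    show ((115970 : ℕ) : ℝ) / 2 ^ 24 = _
    norm_num
  have e' : ((c66.Nlo : ℕ) : ℝ) = 66 := by
    show ((66 : ℕ) : ℝ) = _
    norm_num
  refine g66.fin (9052 / 1000) (206 / 8) (by norm_num) (by norm_num) ?_ ?_ ?_ hA N ⟨h0, ?_⟩ hp
  · rw [e]; norm_num
  · rw [e, e']; norm_num
  · rw [e']; norm_num
  · show (225790 - 28411) * N ≤ 2 ^ 24
    omega

theorem g86 : Good c86 b86_52 :=
  have r0 := t86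
  have g0 := Good.start r0.1 r0.2.1
  have r1 := r0.2.2
  have g1 := g0.link r1.1 r1.2.1
  have r2 := r1.2.2
  have g2 := g1.link r2.1 r2.2.1
  have r3 := r2.2.2
  have g3 := g2.link r3.1 r3.2.1
  have r4 := r3.2.2
  have g4 := g3.link r4.1 r4.2.1
  have r5 := r4.2.2
  have g5 := g4.link r5.1 r5.2.1
  have r6 := r5.2.2
  have g6 := g5.link r6.1 r6.2.1
  have r7 := r6.2.2
  have g7 := g6.link r7.1 r7.2.1
  have r8 := r7.2.2
  have g8 := g7.link r8.1 r8.2.1
  have r9 := r8.2.2
  have g9 := g8.link r9.1 r9.2.1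
  have r10 := r9.2.2
  have g10 := g9.link r10.1 r10.2.1
  have r11 := r10.2.2
  have g11 := g10.link r11.1 r11.2.1
  have r12 := r11.2.2
  have g12 := g11.link r12.1 r12.2.1
  have r13 := r12.2.2
  have g13 := g12.link r13.1 r13.2.1
  have r14 := r13.2.2
  have g14 := g13.link r14.1 r14.2.1
  have r15 := r14.2.2
  have g15 := g14.link r15.1 r15.2.1
  have r16 := r15.2.2
  have g16 := g15.link r16.1 r16.2.1
  have r17 := r16.2.2
  have g17 := g16.link r17.1 r17.2.1
  have r18 := r17.2.2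
  have g18 := g17.link r18.1 r18.2.1
  have r19 := r18.2.2
  have g19 := g18.link r19.1 r19.2.1
  have r20 := r19.2.2
  have g20 := g19.link r20.1 r20.2.1
  have r21 := r20.2.2
  have g21 := g20.link r21.1 r21.2.1
  have r22 := r21.2.2
  have g22 := g21.link r22.1 r22.2.1
  have r23 := r22.2.2
  have g23 := g22.link r23.1 r23.2.1
  have r24 := r23.2.2
  have g24 := g23.link r24.1 r24.2.1
  have r25 := r24.2.2
  have g25 := g24.link r25.1 r25.2.1
  have r26 := r25.2.2
  have g26 := g25.link r26.1 r26.2.1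
  have r27 := r26.2.2
  have g27 := g26.link r27.1 r27.2.1
  have r28 := r27.2.2
  have g28 := g27.link r28.1 r28.2.1
  have r29 := r28.2.2
  have g29 := g28.link r29.1 r29.2.1
  have r30 := r29.2.2
  have g30 := g29.link r30.1 r30.2.1
  have r31 := r30.2.2
  have g31 := g30.link r31.1 r31.2.1
  have r32 := r31.2.2
  have g32 := g31.link r32.1 r32.2.1
  have r33 := r32.2.2
  have g33 := g32.link r33.1 r33.2.1
  have r34 := r33.2.2
  have g34 := g33.link r34.1 r34.2.1
  have r35 := r34.2.2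
  have g35 := g34.link r35.1 r35.2.1
  have r36 := r35.2.2
  have g36 := g35.link r36.1 r36.2.1
  have r37 := r36.2.2
  have g37 := g36.link r37.1 r37.2.1
  have r38 := r37.2.2
  have g38 := g37.link r38.1 r38.2.1
  have r39 := r38.2.2
  have g39 := g38.link r39.1 r39.2.1
  have r40 := r39.2.2
  have g40 := g39.link r40.1 r40.2.1
  have r41 := r40.2.2
  have g41 := g40.link r41.1 r41.2.1
  have r42 := r41.2.2
  have g42 := g41.link r42.1 r42.2.1
  have r43 := r42.2.2
  have g43 := g42.link r43.1 r43.2.1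
  have r44 := r43.2.2
  have g44 := g43.link r44.1 r44.2.1
  have r45 := r44.2.2
  have g45 := g44.link r45.1 r45.2.1
  have r46 := r45.2.2
  have g46 := g45.link r46.1 r46.2.1
  have r47 := r46.2.2
  have g47 := g46.link r47.1 r47.2.1
  have r48 := r47.2.2
  have g48 := g47.link r48.1 r48.2.1
  have r49 := r48.2.2
  have g49 := g48.link r49.1 r49.2.1
  have r50 := r49.2.2
  have g50 := g49.link r50.1 r50.2.1
  have r51 := r50.2.2
  have g51 := g50.link r51.1 r51.2.1
  have r52 := r51.2.2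
  have g52 := g51.link r52.1 r52.2
  g52

theorem chain86 (hA : Asym) (N : ℕ) (h0 : 86 ≤ N) (h1 : N ≤ 125)
    (hp : ∀ q : ℂ, ‖q‖ = 1 → q ≠ 1 → OnePer q (N - 1)) :
    ∀ q : ℂ, ‖q‖ = 1 → q ≠ 1 → OnePer q N := by
  have e : b86_52.lo = 138744 / 2 ^ 24 := by
    show ((138744 : ℕ) : ℝ) / 2 ^ 24 = _
    norm_num
  have e' : ((c86.Nlo : ℕ) : ℝ) = 86 := by
    show ((86 : ℕ) : ℝ) = _
    norm_num
  refine g86.fin (8442 / 1000) (188 / 8) (by norm_num) (by norm_num) ?_ ?_ ?_ hA N ⟨h0, ?_⟩ hp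
  · rw [e]; norm_num
  · rw [e, e']; norm_num
  · rw [e']; norm_num
  · show (164651 - 30434) * N ≤ 2 ^ 24
    omega

end Pool.Agent.Sok.E

namespace Pool.Agent.Sok

open Pool.Agent.MP_97ada9_an

theorem partE (h : Asym) : ∀ N : ℕ, ∀ q : ℂ, ‖q‖ = 1 → q ≠ 1 → OnePer q N := by
  intro N
  induction N using Nat.strong_induction_on with
  | _ N ih =>
    by_cases h0 : N < 40
    · exact E.low h0
    have hp := ih (N - 1) (by omega)
    by_cases h40 : N ≤ 45
    · exact E.chain40 h N (by omega) h40 hp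
    by_cases h46 : N ≤ 53
    · exact E.chain46 h N (by omega) h46 hp
    by_cases h54 : N ≤ 65
    · exact E.chain54 h N (by omega) h54 hp
    by_cases h66 : N ≤ 85
    · exact E.chain66 h N (by omega) h66 hp
    by_cases h86 : N ≤ 125
    · exact E.chain86 h N (by omega) h86 hp
    by_cases h126 : N ≤ 250
    · exact E.chain126 h N (by omega) h126 hp
    exact E.chain251 h N (by omega) hp

end Pool.Agent.Sok
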