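import Pool.Agent.Sok.B1.D0
import Pool.Agent.Sok.B1.D1
import Pool.Agent.Sok.B1.D2
import Pool.Agent.Sok.B1.D3
import Pool.Agent.Sok.B1.D4
import Pool.Agent.Sok.B1.D5
import Pool.Agent.Sok.B1.D6
import Pool.Agent.Sok.B1.D7
import Pool.Agent.Sok.B1.D8
import Pool.Agent.Sok.B1.D9
import Pool.Agent.Sok.B1.D10
import Pool.Agent.Sok.B1.D11
import Pool.Agent.Sok.B1.D12
import Pool.Agent.Sok.B1.D13
import Pool.Agent.Sok.B1.Z
import Pool.Agent.Sok.D.Cls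

/-! The branch `b = 1`, `t ≤ 11/20`. -/

set_option autoImplicit false
set_option linter.defProp false

namespace Pool.Agent.Sok

theorem b1cls : ClsOk b1B 0 341 :=
  (b1Map_ok clsOk b1tm).app (b1tc199.app (b1tc213.app (b1tc227.app (b1tc241.app (b1tc255.app (b1tc269.app (b1tc283.app (b1tc297.app (b1tc311.app (b1tc325.app (b1tc339)))))))))))

theorem b1zone0 : (b1Zn 0x8733828f8533839a839a825281338000).Ok :=
  b1Zn_ok (B1L.of (R := b1tR0) (L := b1tL0)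
    ((B1R.of b1cls b1tR0_0c).app ((B1R.of b1cls b1tR0_1c).app ((B1R.of b1cls b1tR0_2c).app ((B1R.of b1cls b1tR0_3c).app ((B1R.of b1cls b1tR0_4c).app ((B1R.of b1cls b1tR0_5c).app ((B1R.of b1cls b1tR0_6c).app ((B1R.of b1cls b1tR0_7c).app ((B1R.of b1cls b1tR0_8c).app ((B1R.of b1cls b1tR0_9c).app ((B1R.of b1cls b1tR0_10c).app ((B1R.of b1cls b1tR0_11c).app ((B1R.of b1cls b1tR0_12c).app ((B1R.of b1cls b1tR0_13c).app ((B1R.of b1cls b1tR0_14c).app ((B1R.of b1cls b1tR0_15c).app ((B1R.of b1cls b1tR0_16c).app ((B1R.of b1cls b1tR0_17c).app ((B1R.of b1cls b1tR0_18c).app ((B1R.of b1cls b1tR0_19c).app ((B1R.of b1cls b1tR0_20c).app ((B1R.of b1cls b1tR0_21c).app ((B1R.of b1cls b1tR0_22c).app ((B1R.of b1cls b1tR0_23c).app ((B1R.of b1cls b1tR0_24c).app ((B1R.of b1cls b1tR0_25c).app ((B1R.of b1cls b1tR0_26c).app ((B1R.of b1cls b1tR0_27c)))))))))))))))))))))))))))))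
    ((B1M.of b1cls b1tL0_0c).app ((B1M.of b1cls b1tL0_1c).app ((B1M.of b1cls b1tL0_2c).app ((B1M.of b1cls b1tL0_3c).app ((B1M.of b1cls b1tL0_4c).app ((B1M.of b1cls b1tL0_5c).app ((B1M.of b1cls b1tL0_6c).app ((B1M.of b1cls b1tL0_7c).app ((B1M.of b1cls b1tL0_8c).app ((B1M.of b1cls b1tL0_9c).app ((B1M.of b1cls b1tL0_10c).app ((B1M.of b1cls b1tL0_11c).app ((B1M.of b1cls b1tL0_12c).app ((B1M.of b1cls b1tL0_13c).app ((B1M.of b1cls b1tL0_14c).app ((B1M.of b1cls b1tL0_15c).app ((B1M.of b1cls b1tL0_16c).app ((B1M.of b1cls b1tL0_17c))))))))))))))))))) b1tG0) b1C_0 b1tZ0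

theorem b1zone1 : (b1Zn 0x8752828f8533839a839a823d81cd8133).Ok :=
  b1Zn_ok (B1L.of (R := b1tR1) (L := b1tL1)
    ((B1R.of b1cls b1tR1_0c).app ((B1R.of b1cls b1tR1_1c).app ((B1R.of b1cls b1tR1_2c).app ((B1R.of b1cls b1tR1_3c).app ((B1R.of b1cls b1tR1_4c).app ((B1R.of b1cls b1tR1_5c).app ((B1R.of b1cls b1tR1_6c).app ((B1R.of b1cls b1tR1_7c).app ((B1R.of b1cls b1tR1_8c).app ((B1R.of b1cls b1tR1_9c).app ((B1R.of b1cls b1tR1_10c).app ((B1R.of b1cls b1tR1_11c).app ((B1R.of b1cls b1tR1_12c).app ((B1R.of b1cls b1tR1_13c).app ((B1R.of b1cls b1tR1_14c).app ((B1R.of b1cls b1tR1_15c).app ((B1R.of b1cls b1tR1_16c).app ((B1R.of b1cls b1tR1_17c).app ((B1R.of b1cls b1tR1_18c).app ((B1R.of b1cls b1tR1_19c).app ((B1R.of b1cls b1tR1_20c).app ((B1R.of b1cls b1tR1_21c).app ((B1R.of b1cls b1tR1_22c).app ((B1R.of b1cls b1tR1_23c).app ((B1R.of b1cls b1tR1_24c).app ((B1R.of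 b1cls b1tR1_25c).app ((B1R.of b1cls b1tR1_26c).app ((B1R.of b1cls b1tR1_27c).app ((B1R.of b1cls b1tR1_28c).app ((B1R.of b1cls b1tR1_29c).app ((B1R.of b1cls b1tR1_30c).app ((B1R.of b1cls b1tR1_31c).app ((B1R.of b1cls b1tR1_32c).app ((B1R.of b1cls b1tR1_33c).app ((B1R.of b1cls b1tR1_34c).app ((B1R.of b1cls b1tR1_35c).app ((B1R.of b1cls b1tR1_36c).app ((B1R.of b1cls b1tR1_37c).app ((B1R.of b1cls b1tR1_38c).app ((B1R.of b1cls b1tR1_39c).app ((B1R.of b1cls b1tR1_40c).app ((B1R.of b1cls b1tR1_41c).app ((B1R.of b1cls b1tR1_42c).app ((B1R.of b1cls b1tR1_43c).app ((B1R.of b1cls b1tR1_44c))))))))))))))))))))))))))))))))))))))))))))))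
    ((B1M.of b1cls b1tL1_0c).app ((B1M.of b1cls b1tL1_1c).app ((B1M.of b1cls b1tL1_2c).app ((B1M.of b1cls b1tL1_3c).app ((B1M.of b1cls b1tL1_4c).app ((B1M.of b1cls b1tL1_5c).app ((B1M.of b1cls b1tL1_6c).app ((B1M.of b1cls b1tL1_7c).app ((B1M.of b1cls b1tL1_8c).app ((B1M.of b1cls b1tL1_9c).app ((B1M.of b1cls b1tL1_10c).app ((B1M.of b1cls b1tL1_11c).app ((B1M.of b1cls b1tL1_12c).app ((B1M.of b1cls b1tL1_13c).app ((B1M.of b1cls b1tL1_14c).app ((B1M.of b1cls b1tL1_15c).app ((B1M.of b1cls b1tL1_16c).app ((B1M.of b1cls b1tL1_17c).app ((B1M.of b1cls b1tL1_18c).app ((B1M.of b1cls b1tL1_19c).app ((B1M.of b1cls b1tL1_20c).app ((B1M.of b1cls b1tL1_21c).app ((B1M.of b1cls b1tL1_22c).app ((B1M.of b1cls b1tL1_23c).app ((B1M.of b1cls b1tL1_24c).app ((B1M.of b1cls b1tL1_25c).app ((B1M.of b1cls b1tL1_26c)))))))))))))))))))))))))))) b1tG1) b1C_1 b1tZ1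

theorem b1zone2 : (b1Zn 0x8771828f8566839a839a8229823381cd).Ok :=
  b1Zn_ok (B1L.of (R := b1tR2) (L := b1tL2)
    ((B1R.of b1cls b1tR2_0c).app ((B1R.of b1cls b1tR2_1c).app ((B1R.of b1cls b1tR2_2c).app ((B1R.of b1cls b1tR2_3c).app ((B1R.of b1cls b1tR2_4c).app ((B1R.of b1cls b1tR2_5c).app ((B1R.of b1cls b1tR2_6c).app ((B1R.of b1cls b1tR2_7c).app ((B1R.of b1cls b1tR2_8c).app ((B1R.of b1cls b1tR2_9c).app ((B1R.of b1cls b1tR2_10c).app ((B1R.of b1cls b1tR2_11c).app ((B1R.of b1cls b1tR2_12c).app ((B1R.of b1cls b1tR2_13c).app ((B1R.of b1cls b1tR2_14c).app ((B1R.of b1cls b1tR2_15c).app ((B1R.of b1cls b1tR2_16c).app ((B1R.of b1cls b1tR2_17c).app ((B1R.of b1cls b1tR2_18c).app ((B1R.of b1cls b1tR2_19c).app ((B1R.of b1cls b1tR2_20c).app ((B1R.of b1cls b1tR2_21c).app ((B1R.of b1cls b1tR2_22c).app ((B1R.of b1cls b1tR2_23c).app ((B1R.of b1cls b1tR2_24c).app ((B1R.of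 b1cls b1tR2_25c).app ((B1R.of b1cls b1tR2_26c).app ((B1R.of b1cls b1tR2_27c).app ((B1R.of b1cls b1tR2_28c).app ((B1R.of b1cls b1tR2_29c).app ((B1R.of b1cls b1tR2_30c).app ((B1R.of b1cls b1tR2_31c)))))))))))))))))))))))))))))))))
    ((B1M.of b1cls b1tL2_0c).app ((B1M.of b1cls b1tL2_1c).app ((B1M.of b1cls b1tL2_2c).app ((B1M.of b1cls b1tL2_3c).app ((B1M.of b1cls b1tL2_4c).app ((B1M.of b1cls b1tL2_5c).app ((B1M.of b1cls b1tL2_6c).app ((B1M.of b1cls b1tL2_7c).app ((B1M.of b1cls b1tL2_8c).app ((B1M.of b1cls b1tL2_9c).app ((B1M.of b1cls b1tL2_10c).app ((B1M.of b1cls b1tL2_11c).app ((B1M.of b1cls b1tL2_12c).app ((B1M.of b1cls b1tL2_13c).app ((B1M.of b1cls b1tL2_14c).app ((B1M.of b1cls b1tL2_15c).app ((B1M.of b1cls b1tL2_16c).app ((B1M.of b1cls b1tL2_17c).app ((B1M.of b1cls b1tL2_18c)))))))))))))))))))) b1tG2) b1C_2 b1tZ2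

theorem b1zone3 : (b1Zn 0x879a827b859a839a839a81ec82cd8233).Ok :=
  b1Zn_ok (B1L.of (R := b1tR3) (L := b1tL3)
    ((B1R.of b1cls b1tR3_0c).app ((B1R.of b1cls b1tR3_1c).app ((B1R.of b1cls b1tR3_2c).app ((B1R.of b1cls b1tR3_3c).app ((B1R.of b1cls b1tR3_4c).app ((B1R.of b1cls b1tR3_5c).app ((B1R.of b1cls b1tR3_6c).app ((B1R.of b1cls b1tR3_7c).app ((B1R.of b1cls b1tR3_8c).app ((B1R.of b1cls b1tR3_9c).app ((B1R.of b1cls b1tR3_10c).app ((B1R.of b1cls b1tR3_11c).app ((B1R.of b1cls b1tR3_12c).app ((B1R.of b1cls b1tR3_13c).app ((B1R.of b1cls b1tR3_14c).app ((B1R.of b1cls b1tR3_15c).app ((B1R.of b1cls b1tR3_16c).app ((B1R.of b1cls b1tR3_17c).app ((B1R.of b1cls b1tR3_18c).app ((B1R.of b1cls b1tR3_19c).app ((B1R.of b1cls b1tR3_20c).app ((B1R.of b1cls b1tR3_21c).app ((B1R.of b1cls b1tR3_22c).app ((B1R.of b1cls b1tR3_23c).app ((B1R.of b1cls b1tR3_24c).app ((B1R.of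 b1cls b1tR3_25c).app ((B1R.of b1cls b1tR3_26c).app ((B1R.of b1cls b1tR3_27c).app ((B1R.of b1cls b1tR3_28c).app ((B1R.of b1cls b1tR3_29c).app ((B1R.of b1cls b1tR3_30c).app ((B1R.of b1cls b1tR3_31c).app ((B1R.of b1cls b1tR3_32c).app ((B1R.of b1cls b1tR3_33c).app ((B1R.of b1cls b1tR3_34c).app ((B1R.of b1cls b1tR3_35c).app ((B1R.of b1cls b1tR3_36c).app ((B1R.of b1cls b1tR3_37c).app ((B1R.of b1cls b1tR3_38c).app ((B1R.of b1cls b1tR3_39c).app ((B1R.of b1cls b1tR3_40c).app ((B1R.of b1cls b1tR3_41c)))))))))))))))))))))))))))))))))))))))))))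
    ((B1M.of b1cls b1tL3_0c).app ((B1M.of b1cls b1tL3_1c).app ((B1M.of b1cls b1tL3_2c).app ((B1M.of b1cls b1tL3_3c).app ((B1M.of b1cls b1tL3_4c).app ((B1M.of b1cls b1tL3_5c).app ((B1M.of b1cls b1tL3_6c).app ((B1M.of b1cls b1tL3_7c).app ((B1M.of b1cls b1tL3_8c).app ((B1M.of b1cls b1tL3_9c).app ((B1M.of b1cls b1tL3_10c).app ((B1M.of b1cls b1tL3_11c).app ((B1M.of b1cls b1tL3_12c).app ((B1M.of b1cls b1tL3_13c).app ((B1M.of b1cls b1tL3_14c).app ((B1M.of b1cls b1tL3_15c).app ((B1M.of b1cls b1tL3_16c).app ((B1M.of b1cls b1tL3_17c).app ((B1M.of b1cls b1tL3_18c).app ((B1M.of b1cls b1tL3_19c).app ((B1M.of b1cls b1tL3_20c).app ((B1M.of b1cls b1tL3_21c).app ((B1M.of b1cls b1tL3_22c).app ((B1M.of b1cls b1tL3_23c).app ((B1M.of b1cls b1tL3_24c).app ((B1M.of b1cls b1tL3_25c).app ((B1M.of b1cls b1tL3_26c).app ((B1M.of b1cls b1tL3_27c).app ((B1M.of b1cls b1tL3_28c).app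 ((B1M.of b1cls b1tL3_29c).app ((B1M.of b1cls b1tL3_30c).app ((B1M.of b1cls b1tL3_31c).app ((B1M.of b1cls b1tL3_32c).app ((B1M.of b1cls b1tL3_33c))))))))))))))))))))))))))))))))))) b1tG3) b1C_3 b1tZ3

theorem b1zone4 : (b1Zn 0x87cd826685e1839a839a81cd833382cd).Ok :=
  b1Zn_ok (B1L.of (R := b1tR4) (L := b1tL4)
    ((B1R.of b1cls b1tR4_0c).app ((B1R.of b1cls b1tR4_1c).app ((B1R.of b1cls b1tR4_2c).app ((B1R.of b1cls b1tR4_3c).app ((B1R.of b1cls b1tR4_4c).app ((B1R.of b1cls b1tR4_5c).app ((B1R.of b1cls b1tR4_6c).app ((B1R.of b1cls b1tR4_7c).app ((B1R.of b1cls b1tR4_8c).app ((B1R.of b1cls b1tR4_9c).app ((B1R.of b1cls b1tR4_10c).app ((B1R.of b1cls b1tR4_11c).app ((B1R.of b1cls b1tR4_12c).app ((B1R.of b1cls b1tR4_13c).app ((B1R.of b1cls b1tR4_14c).app ((B1R.of b1cls b1tR4_15c).app ((B1R.of b1cls b1tR4_16c).app ((B1R.of b1cls b1tR4_17c).app ((B1R.of b1cls b1tR4_18c).app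 ((B1R.of b1cls b1tR4_19c).app ((B1R.of b1cls b1tR4_20c).app ((B1R.of b1cls b1tR4_21c).app ((B1R.of b1cls b1tR4_22c).app ((B1R.of b1cls b1tR4_23c).app ((B1R.of b1cls b1tR4_24c).app ((B1R.of b1cls b1tR4_25c).app ((B1R.of b1cls b1tR4_26c).app ((B1R.of b1cls b1tR4_27c).app ((B1R.of b1cls b1tR4_28c).app ((B1R.of b1cls b1tR4_29c).app ((B1R.of b1cls b1tR4_30c))))))))))))))))))))))))))))))))
    ((B1M.of b1cls b1tL4_0c).app ((B1M.of b1cls b1tL4_1c).app ((B1M.of b1cls b1tL4_2c).app ((B1M.of b1cls b1tL4_3c).app ((B1M.of b1cls b1tL4_4c).app ((B1M.of b1cls b1tL4_5c).app ((B1M.of b1cls b1tL4_6c).app ((B1M.of b1cls b1tL4_7c).app ((B1M.of b1cls b1tL4_8c).app ((B1M.of b1cls b1tL4_9c).app ((B1M.of b1cls b1tL4_10c).app ((B1M.of b1cls b1tL4_11c).app ((B1M.of b1cls b1tL4_12c).app ((B1M.of b1cls b1tL4_13c).app ((B1M.of b1cls b1tL4_14c).app ((B1M.of b1cls b1tL4_15c).app ((B1M.of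 b1cls b1tL4_16c).app ((B1M.of b1cls b1tL4_17c).app ((B1M.of b1cls b1tL4_18c).app ((B1M.of b1cls b1tL4_19c).app ((B1M.of b1cls b1tL4_20c).app ((B1M.of b1cls b1tL4_21c).app ((B1M.of b1cls b1tL4_22c).app ((B1M.of b1cls b1tL4_23c).app ((B1M.of b1cls b1tL4_24c).app ((B1M.of b1cls b1tL4_25c).app ((B1M.of b1cls b1tL4_26c).app ((B1M.of b1cls b1tL4_27c).app ((B1M.of b1cls b1tL4_28c).app ((B1M.of b1cls b1tL4_29c))))))))))))))))))))))))))))))) b1tG4) b1C_4 b1tZ4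

theorem b1zone5 : (b1Zn 0x880082528633839a839a81ae839a8333).Ok :=
  b1Zn_ok (B1L.of (R := b1tR5) (L := b1tL5)
    ((B1R.of b1cls b1tR5_0c).app ((B1R.of b1cls b1tR5_1c).app ((B1R.of b1cls b1tR5_2c).app ((B1R.of b1cls b1tR5_3c).app ((B1R.of b1cls b1tR5_4c).app ((B1R.of b1cls b1tR5_5c).app ((B1R.of b1cls b1tR5_6c).app ((B1R.of b1cls b1tR5_7c).app ((B1R.of b1cls b1tR5_8c).app ((B1R.of b1cls b1tR5_9c).app ((B1R.of b1cls b1tR5_10c).app ((B1R.of b1cls b1tR5_11c).app ((B1R.of b1cls b1tR5_12c).app ((B1R.of b1cls b1tR5_13c).app ((B1R.of b1cls b1tR5_14c).app ((B1R.of b1cls b1tR5_15c).app ((B1R.of b1cls b1tR5_16c).app ((B1R.of b1cls b1tR5_17c).app ((B1R.of b1cls b1tR5_18c).app ((B1R.of b1cls b1tR5_19c).app ((B1R.of b1cls b1tR5_20c).app ((B1R.of b1cls b1tR5_21c)))))))))))))))))))))))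
    ((B1M.of b1cls b1tL5_0c).app ((B1M.of b1cls b1tL5_1c).app ((B1M.of b1cls b1tL5_2c).app ((B1M.of b1cls b1tL5_3c).app ((B1M.of b1cls b1tL5_4c).app ((B1M.of b1cls b1tL5_5c).app ((B1M.of b1cls b1tL5_6c).app ((B1M.of b1cls b1tL5_7c).app ((B1M.of b1cls b1tL5_8c).app ((B1M.of b1cls b1tL5_9c).app ((B1M.of b1cls b1tL5_10c).app ((B1M.of b1cls b1tL5_11c).app ((B1M.of b1cls b1tL5_12c).app ((B1M.of b1cls b1tL5_13c).app ((B1M.of b1cls b1tL5_14c).app ((B1M.of b1cls b1tL5_15c).app ((B1M.of b1cls b1tL5_16c).app ((B1M.of b1cls b1tL5_17c).app ((B1M.of b1cls b1tL5_18c).app ((B1M.of b1cls b1tL5_19c))))))))))))))))))))) b1tG5) b1C_5 b1tZ5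

theorem b1zone6 : (b1Zn 0x8848823d869a839a839a819a8400839a).Ok :=
  b1Zn_ok (B1L.of (R := b1tR6) (L := b1tL6)
    ((B1R.of b1cls b1tR6_0c).app ((B1R.of b1cls b1tR6_1c).app ((B1R.of b1cls b1tR6_2c).app ((B1R.of b1cls b1tR6_3c).app ((B1R.of b1cls b1tR6_4c).app ((B1R.of b1cls b1tR6_5c).app ((B1R.of b1cls b1tR6_6c).app ((B1R.of b1cls b1tR6_7c).app ((B1R.of b1cls b1tR6_8c).app ((B1R.of b1cls b1tR6_9c).app ((B1R.of b1cls b1tR6_10c).app ((B1R.of b1cls b1tR6_11c).app ((B1R.of b1cls b1tR6_12c).app ((B1R.of b1cls b1tR6_13c).app ((B1R.of b1cls b1tR6_14c).app ((B1R.of b1cls b1tR6_15c).app ((B1R.of b1cls b1tR6_16c).app ((B1R.of b1cls b1tR6_17c).app ((B1R.of b1cls b1tR6_18c).app ((B1R.of b1cls b1tR6_19c).app ((B1R.of b1cls b1tR6_20c).app ((B1R.of b1cls b1tR6_21c).app ((B1R.of b1cls b1tR6_22c).app ((B1R.of b1cls b1tR6_23c).app ((B1R.of b1cls b1tR6_24c))))))))))))))))))))))))))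
    ((B1M.of b1cls b1tL6_0c).app ((B1M.of b1cls b1tL6_1c).app ((B1M.of b1cls b1tL6_2c).app ((B1M.of b1cls b1tL6_3c).app ((B1M.of b1cls b1tL6_4c).app ((B1M.of b1cls b1tL6_5c).app ((B1M.of b1cls b1tL6_6c).app ((B1M.of b1cls b1tL6_7c).app ((B1M.of b1cls b1tL6_8c).app ((B1M.of b1cls b1tL6_9c).app ((B1M.of b1cls b1tL6_10c).app ((B1M.of b1cls b1tL6_11c).app ((B1M.of b1cls b1tL6_12c).app ((B1M.of b1cls b1tL6_13c).app ((B1M.of b1cls b1tL6_14c).app ((B1M.of b1cls b1tL6_15c).app ((B1M.of b1cls b1tL6_16c).app ((B1M.of b1cls b1tL6_17c).app ((B1M.of b1cls b1tL6_18c).app ((B1M.of b1cls b1tL6_19c).app ((B1M.of b1cls b1tL6_20c)))))))))))))))))))))) b1tG6) b1C_6 b1tZ6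

theorem branchB1 (P : Par) (hd : 0 < P.δ) (ht : P.t ≤ 11 / 20) : P.Uniq 1 :=
  b1_final (l := [0x8733828f8533839a839a825281338000, 0x8752828f8533839a839a823d81cd8133, 0x8771828f8566839a839a8229823381cd, 0x879a827b859a839a839a81ec82cd8233, 0x87cd826685e1839a839a81cd833382cd, 0x880082528633839a839a81ae839a8333, 0x8848823d869a839a839a819a8400839a])
    (by
      simp only [List.forall_mem_cons]
      exact ⟨b1zone0, b1zone1, b1zone2, b1zone3, b1zone4, b1zone5, b1zone6, fun _ h => absurd h List.not_mem_nil⟩)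
    (by decide +kernel) P hd ht

end Pool.Agent.Sok
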