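import Pool.Agent.Sok.B2f
import Pool.Agent.Sok.B2D.CAll
import Pool.Agent.Sok.D.Cls

/-! The resonant region for denominator two. -/

set_option autoImplicit false

namespace Pool.Agent.Sok

theorem inB2_ok {b : Box} (hb : inB2 b = true) (P : Par) (hP : b.Mem P) : P.Uniq 2 :=
  inB2_of clsOk ccAll hb P hP

end Pool.Agent.Sok
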