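import Pool.Agent.Sok.D.AllA
import Pool.Agent.Sok.D.AllB
import Pool.Agent.Sok.B1
import Pool.Agent.Sok.B2

/-! The asymptotic part: all denominators. -/

set_option autoImplicit false

namespace Pool.Agent.Sok

theorem case0 : CaseFrom 0 0 :=
  caseFrom LA_ok (f := inB2)
    (fun c h P hP b _ hb _ => by
      obtain rfl : b = 2 := hb
      exact inB2_ok h P hP)
    (l := [307, 512, 819, 1229, 1843, 2662, 3359, 4096]) (by decide +kernel)

theorem asym : Asym := by
  refine asym_of_cases (a := 2252) (fun i hi => ?_) case10 fun P hδ ht _ => branchB1 P hδ (ht.trans ?_)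
  · interval_cases i
    exacts [case0, case1, case2, case3, case4, case5, case6, case7, case8, case9]
  · rw [show Int.ofNat (Nat.shiftLeft 2252 28) = 604516646912 from rfl, toR]
    norm_num

end Pool.Agent.Sok
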