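import Mathlib

/-! Generic estimates for contour integrals of `E = exp (L * f)` along segments and rays. -/

set_option autoImplicit false

namespace Pool.Agent.Sok

open Set Filter Topology

/-- an entire integrand with primitives of `E` and `w * E` -/
structure Prim where
  E : ℂ → ℂ
  A0 : ℂ → ℂ
  A1 : ℂ → ℂ
  hc : Continuous E
  hA0 : ∀ w, HasDerivAt A0 (E w) w
  hA1 : ∀ w, HasDerivAt A1 (w * E w) w

def Prim.P (J : Prim) (z : ℂ) : ℂ × ℂ := (J.A0 z, J.A1 z)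

/-- the integrand solves `E' = L f1 E` on `U`, and `f2, ..., f5` are the derivatives of `f1` -/
structure Jet extends Prim where
  L : ℝ
  f1 : ℂ → ℂ
  f2 : ℂ → ℂ
  f3 : ℂ → ℂ
  f4 : ℂ → ℂ
  f5 : ℂ → ℂ
  U : Set ℂ
  hL : 0 < L
  hE : ∀ w ∈ U, HasDerivAt E (L * f1 w * E w) w
  h1 : ∀ w ∈ U, HasDerivAt f1 (f2 w) w
  h2 : ∀ w ∈ U, HasDerivAt f2 (f3 w) w
  h3 : ∀ w ∈ U, HasDerivAt f3 (f4 w) w
  h4 : ∀ w ∈ U, HasDerivAt f4 (f5 w) w

/-- weight of the first moment: nothing, `L0`, or `L` -/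
noncomputable def wt (ty : ℕ) (L0 L : ℝ) : ℝ := if ty = 0 then 0 else if ty = 1 then L0 else L

/-- bound for the integral and for the first moment about `zr` between two values of the
primitives -/
def Bd (L E0 W : ℝ) (zr : ℂ) (u v : ℂ × ℂ) (I M : ℝ) : Prop :=
  Real.sqrt L * ‖v.1 - u.1‖ ≤ E0 * I ∧
    W * Real.sqrt L * ‖(v.2 - u.2) - zr * (v.1 - u.1)‖ ≤ E0 * M

theorem wt_nonneg (ty : ℕ) {L0 L : ℝ} (h0 : 0 ≤ L0) (h : 0 ≤ L) : 0 ≤ wt ty L0 L := by
  unfold wt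
  split_ifs
  exacts [le_rfl, h0, h]

theorem Bd.refl (L W : ℝ) {E0 : ℝ} (zr : ℂ) (u : ℂ × ℂ) : Bd L E0 W zr u u 0 0 := by
  simp [Bd]

theorem Bd.symm {L E0 W : ℝ} {zr : ℂ} {u v : ℂ × ℂ} {I M : ℝ} (h : Bd L E0 W zr u v I M) :
    Bd L E0 W zr v u I M := by
  obtain ⟨h1, h2⟩ := h
  refine ⟨by rwa [norm_sub_rev], ?_⟩
  have e : (u.2 - v.2) - zr * (u.1 - v.1) = -((v.2 - u.2) - zr * (v.1 - u.1)) := by ring
  rwa [e, norm_neg]

theorem Bd.trans {L E0 W : ℝ} {zr : ℂ} {u v w : ℂ × ℂ} {I M I' M' : ℝ} (hW : 0 ≤ W)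
    (h : Bd L E0 W zr u v I M) (h' : Bd L E0 W zr v w I' M') :
    Bd L E0 W zr u w (I + I') (M + M') := by
  obtain ⟨h1, h2⟩ := h
  obtain ⟨h3, h4⟩ := h'
  have hs : 0 ≤ Real.sqrt L := Real.sqrt_nonneg L
  constructor
  · have e : w.1 - u.1 = (v.1 - u.1) + (w.1 - v.1) := by ring
    have t := mul_le_mul_of_nonneg_left (norm_add_le (v.1 - u.1) (w.1 - v.1)) hs
    rw [e]
    linarith [mul_add (Real.sqrt L) ‖v.1 - u.1‖ ‖w.1 - v.1‖, mul_add E0 I I']
  · have e : (w.2 - u.2) - zr * (w.1 - u.1) =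
        ((v.2 - u.2) - zr * (v.1 - u.1)) + ((w.2 - v.2) - zr * (w.1 - v.1)) := by ring
    have t := mul_le_mul_of_nonneg_left
      (norm_add_le ((v.2 - u.2) - zr * (v.1 - u.1)) ((w.2 - v.2) - zr * (w.1 - v.1)))
      (mul_nonneg hW hs)
    rw [e]
    linarith [mul_add (W * Real.sqrt L) ‖(v.2 - u.2) - zr * (v.1 - u.1)‖
      ‖(w.2 - v.2) - zr * (w.1 - v.1)‖, mul_add E0 M M']

theorem Bd.mono {L E0 W : ℝ} {zr : ℂ} {u v : ℂ × ℂ} {I M I' M' : ℝ} (hE : 0 ≤ E0)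
    (h : Bd L E0 W zr u v I M) (hI : I ≤ I') (hM : M ≤ M') : Bd L E0 W zr u v I' M' :=
  ⟨h.1.trans (mul_le_mul_of_nonneg_left hI hE), h.2.trans (mul_le_mul_of_nonneg_left hM hE)⟩

/-- quadratic majorant of the height along the segment from `z` to `z + h` -/
def Prof (E : ℂ → ℂ) (E0 L : ℝ) (z h : ℂ) (g ρ κ : ℝ) : Prop :=
  ∀ s : ℝ, 0 ≤ s → s ≤ 1 → ‖E (z + s * h)‖ ≤ E0 * Real.exp (L * (-g - ρ * s + κ * s ^ 2 / 2))

theorem genA_line {f : ℂ → ℂ} {f' z h : ℂ} {s : ℝ} (c : ℂ) (hf : HasDerivAt f f' (z + s * h)) :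
    HasDerivAt (fun w : ℂ => f (z + w * h) * c) (f' * (h * c)) s := by
  have h0 : HasDerivAt (fun w : ℂ => z + w * h) h (s : ℂ) := by
    simpa using ((hasDerivAt_id (s : ℂ)).mul_const h).const_add z
  have h1 := (HasDerivAt.comp (s : ℂ) (h₂ := f) (h := fun w : ℂ => z + w * h) hf h0).mul_const c
  rw [← mul_assoc]
  exact h1

theorem genA_re {f : ℂ → ℂ} {f' z h : ℂ} {s : ℝ} (n : ℕ) (hf : HasDerivAt f f' (z + s * h)) :
    HasDerivAt (fun t : ℝ => (f (z + t * h) * h ^ n).re) (f' * h ^ (n + 1)).re s := by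
  have h1 := (genA_line (h ^ n) hf).real_of_complex
  rwa [← pow_succ'] at h1

/-- comparison of the height with a majorant of its logarithmic derivative -/
theorem genA_cmp (J : Jet) {z h : ℂ} {S : ℝ} (hS : 0 ≤ S) (φ φ' : ℝ → ℝ)
    (hU : ∀ s : ℝ, 0 ≤ s → s ≤ S → z + s * h ∈ J.U ∧ HasDerivAt φ (φ' s) s ∧
      (J.f1 (z + s * h) * h).re ≤ φ' s) :
    ‖J.E (z + S * h)‖ ≤ ‖J.E z‖ * Real.exp (J.L * (φ S - φ 0)) := by
  have hd : ∀ s ∈ Icc (0 : ℝ) S,
      HasDerivAt (fun t : ℝ => ‖J.E (z + t * h)‖ ^ 2 * Real.exp (-(2 * J.L) * φ t))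
        (2 * J.L * ‖J.E (z + s * h)‖ ^ 2 * Real.exp (-(2 * J.L) * φ s) *
          ((J.f1 (z + s * h) * h).re - φ' s)) s := by
    intro s hs
    obtain ⟨hu, hφ, -⟩ := hU s hs.1 hs.2
    have h1 := (genA_line 1 (J.hE _ hu)).comp_ofReal
    simp only [mul_one] at h1
    have h2 := h1.norm_sq.mul (hφ.const_mul (-(2 * J.L))).exp
    refine h2.congr_deriv ?_
    rw [Complex.inner, Complex.sq_norm, Complex.normSq_apply]
    simp only [Complex.mul_re, Complex.mul_im, Complex.conj_re, Complex.conj_im,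
      Complex.ofReal_re, Complex.ofReal_im]
    ring
  have ha : AntitoneOn (fun t : ℝ => ‖J.E (z + t * h)‖ ^ 2 * Real.exp (-(2 * J.L) * φ t))
      (Icc 0 S) := by
    refine antitoneOn_of_deriv_nonpos (convex_Icc 0 S)
      (fun s hs => (hd s hs).continuousAt.continuousWithinAt)
      (fun s hs => (hd s (interior_subset hs)).differentiableAt.differentiableWithinAt) ?_
    intro s hs
    have hs' := interior_subset hs
    rw [(hd s hs').deriv]
    have := J.hL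
    exact mul_nonpos_of_nonneg_of_nonpos (by positivity)
      (sub_nonpos.2 (hU s hs'.1 hs'.2).2.2)
  have h3 := ha (left_mem_Icc.2 hS) (right_mem_Icc.2 hS) hS
  simp only [Complex.ofReal_zero, zero_mul, add_zero] at h3
  refine (pow_le_pow_iff_left₀ (norm_nonneg _) (by positivity) two_ne_zero).1 ?_
  have e1 : Real.exp (J.L * (φ S - φ 0)) ^ 2 * Real.exp (-(2 * J.L) * φ S) =
      Real.exp (-(2 * J.L) * φ 0) := by
    rw [sq, ← Real.exp_add, ← Real.exp_add]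
    ring_nf
  refine le_of_mul_le_mul_right ?_ (Real.exp_pos (-(2 * J.L) * φ S))
  rw [mul_pow, mul_assoc, e1]
  exact h3

theorem genA_fin {a b E0 x y t : ℝ} (hE0 : 0 ≤ E0) (h : a ≤ b * Real.exp t)
    (h1 : b ≤ E0 * Real.exp x) (hxy : x + t ≤ y) : a ≤ E0 * Real.exp y := by
  refine h.trans ((mul_le_mul_of_nonneg_right h1 (Real.exp_pos t).le).trans ?_)
  rw [mul_assoc, ← Real.exp_add]
  exact mul_le_mul_of_nonneg_left (Real.exp_le_exp.2 hxy) hE0

theorem genA_re_le {a h : ℂ} {K : ℝ} (n : ℕ) (ha : ‖a‖ ≤ K) : (a * h ^ n).re ≤ K * ‖h‖ ^ n := by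
  refine (Complex.re_le_norm _).trans ?_
  rw [norm_mul, norm_pow]
  exact mul_le_mul_of_nonneg_right ha (by positivity)

/-- corrected trapezoidal rule for the height -/
theorem seg_height (J : Jet) {z h : ℂ} {E0 g1 g2 K5 : ℝ} (hE0 : 0 ≤ E0)
    (hU : ∀ s : ℝ, 0 ≤ s → s ≤ 1 → z + s * h ∈ J.U ∧ ‖J.f5 (z + s * h)‖ ≤ K5)
    (h1 : ‖J.E z‖ ≤ E0 * Real.exp (-(J.L * g1)))
    (hg : g2 ≤ g1 - ((J.f1 z * h + J.f1 (z + h) * h) / 2 +
      (J.f2 z * h ^ 2 - J.f2 (z + h) * h ^ 2) / 12).re - K5 * ‖h‖ ^ 5 / 720) :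
    ‖J.E (z + h)‖ ≤ E0 * Real.exp (-(J.L * g2)) := by
  have key := genA_cmp J (z := z) (h := h) zero_le_one
    (fun s => (s - 1 / 2) * (J.f1 (z + s * h) * h ^ 1).re -
      (1 / 12 - s / 2 + s ^ 2 / 2) * (J.f2 (z + s * h) * h ^ 2).re +
      (s / 12 - s ^ 2 / 4 + s ^ 3 / 6) * (J.f3 (z + s * h) * h ^ 3).re -
      (s ^ 2 / 24 - s ^ 3 / 12 + s ^ 4 / 24) * (J.f4 (z + s * h) * h ^ 4).re +
      K5 * ‖h‖ ^ 5 * (s ^ 3 / 72 - s ^ 4 / 48 + s ^ 5 / 120))
    (fun s => (J.f1 (z + s * h) * h ^ 1).re +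
      (s * (1 - s)) ^ 2 / 24 * (K5 * ‖h‖ ^ 5 - (J.f5 (z + s * h) * h ^ 5).re)) ?_
  · simp only [Complex.ofReal_one, one_mul, Complex.ofReal_zero, zero_mul, add_zero,
      pow_one] at key
    refine genA_fin hE0 key h1 ?_
    have e : ((J.f1 z * h + J.f1 (z + h) * h) / 2 +
        (J.f2 z * h ^ 2 - J.f2 (z + h) * h ^ 2) / 12).re =
        ((J.f1 z * h).re + (J.f1 (z + h) * h).re) / 2 +
          ((J.f2 z * h ^ 2).re - (J.f2 (z + h) * h ^ 2).re) / 12 := by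
      simp only [Complex.add_re, Complex.div_ofNat_re, Complex.sub_re]
    rw [e] at hg
    have := mul_le_mul_of_nonneg_left hg J.hL.le
    linarith
  · intro s h0 h1
    obtain ⟨hu, hK⟩ := hU s h0 h1
    refine ⟨hu, ?_, ?_⟩
    · have d1 := genA_re 1 (J.h1 _ hu)
      have d2 := genA_re 2 (J.h2 _ hu)
      have d3 := genA_re 3 (J.h3 _ hu)
      have d4 := genA_re 4 (J.h4 _ hu)
      have p1 := hasDerivAt_id' s
      have p2 := hasDerivAt_pow 2 s
      have p3 := hasDerivAt_pow 3 s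
      have p4 := hasDerivAt_pow 4 s
      have p5 := hasDerivAt_pow 5 s
      have t1 := (p1.sub_const (1 / 2)).mul d1
      have t2 := (((p1.div_const 2).const_sub (1 / 12)).add (p2.div_const 2)).mul d2
      have t3 := (((p1.div_const 12).sub (p2.div_const 4)).add (p3.div_const 6)).mul d3
      have t4 := (((p2.div_const 24).sub (p3.div_const 12)).add (p4.div_const 24)).mul d4
      have t5 := (((p3.div_const 72).sub (p4.div_const 48)).add
        (p5.div_const 120)).const_mul (K5 * ‖h‖ ^ 5)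
      refine ((((t1.sub t2).add t3).sub t4).add t5).congr_deriv ?_
      simp only [Pi.add_apply, Pi.sub_apply]
      push_cast
      ring
    · have := genA_re_le (h := h) 5 hK
      rw [pow_one]
      exact le_add_of_nonneg_right (mul_nonneg (by positivity) (sub_nonneg.2 this))

/-- second order Taylor bound of the height -/
theorem prof_of (J : Jet) {z h : ℂ} {E0 g ρ κ K3 : ℝ} (hE0 : 0 ≤ E0)
    (hU : ∀ s : ℝ, 0 ≤ s → s ≤ 1 → z + s * h ∈ J.U ∧ ‖J.f3 (z + s * h)‖ ≤ K3)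
    (h1 : ‖J.E z‖ ≤ E0 * Real.exp (-(J.L * g)))
    (hρ : ρ ≤ -(J.f1 z * h).re) (hκ : (J.f2 z * h ^ 2).re + K3 * ‖h‖ ^ 3 / 3 ≤ κ) :
    Prof J.E E0 J.L z h g ρ κ := by
  intro S hS0 hS1
  have hK : 0 ≤ K3 * ‖h‖ ^ 3 :=
    mul_nonneg ((norm_nonneg _).trans (hU 0 le_rfl zero_le_one).2) (by positivity)
  have key := genA_cmp J (z := z) (h := h) hS0
    (fun s => -((S - s) * (J.f1 (z + s * h) * h ^ 1).re) -
      (S - s) ^ 2 / 2 * (J.f2 (z + s * h) * h ^ 2).re - K3 * ‖h‖ ^ 3 * ((S - s) ^ 3 / 6))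
    (fun s => (J.f1 (z + s * h) * h ^ 1).re +
      (S - s) ^ 2 / 2 * (K3 * ‖h‖ ^ 3 - (J.f3 (z + s * h) * h ^ 3).re)) ?_
  · simp only [Complex.ofReal_zero, zero_mul, add_zero, pow_one, sub_self, sub_zero] at key
    refine genA_fin hE0 key h1 ?_
    have a1 := mul_le_mul_of_nonneg_left hρ hS0
    have a2 := mul_le_mul_of_nonneg_left hκ (sq_nonneg S)
    have a3 : K3 * ‖h‖ ^ 3 * S ^ 3 ≤ K3 * ‖h‖ ^ 3 * S ^ 2 :=
      mul_le_mul_of_nonneg_left (pow_le_pow_of_le_one hS0 hS1 (by norm_num)) hK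
    have a4 : -g + (S * (J.f1 z * h).re + S ^ 2 / 2 * (J.f2 z * h ^ 2).re +
        K3 * ‖h‖ ^ 3 * (S ^ 3 / 6)) ≤ -g - ρ * S + κ * S ^ 2 / 2 := by linarith
    have := mul_le_mul_of_nonneg_left a4 J.hL.le
    linarith
  · intro s h0 h1
    obtain ⟨hu, hK⟩ := hU s h0 (h1.trans hS1)
    refine ⟨hu, ?_, ?_⟩
    · have d1 := genA_re 1 (J.h1 _ hu)
      have d2 := genA_re 2 (J.h2 _ hu)
      have p1 := (hasDerivAt_id' s).const_sub S
      have t1 := (p1.mul d1).neg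
      have t2 := ((p1.pow 2).div_const 2).mul d2
      have t3 := ((p1.pow 3).div_const 6).const_mul (K3 * ‖h‖ ^ 3)
      refine ((t1.sub t2).sub t3).congr_deriv ?_
      simp only [Pi.pow_apply]
      push_cast
      ring
    · have := genA_re_le (h := h) 3 hK
      rw [pow_one]
      exact le_add_of_nonneg_right (mul_nonneg (by positivity) (sub_nonneg.2 this))

theorem genA_close (J : Jet) {z h : ℂ} {K : ℝ}
    (hU : ∀ s : ℝ, 0 ≤ s → s ≤ 1 → z + s * h ∈ J.U ∧ ‖J.f1 (z + s * h) * h‖ ≤ K) :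
    ‖J.E (z + h)‖ ≤ ‖J.E z‖ * Real.exp (J.L * K) := by
  have key := genA_cmp J (z := z) (h := h) zero_le_one (fun s => K * s) (fun _ => K)
    (fun s h0 h1 => ⟨(hU s h0 h1).1, by simpa using (hasDerivAt_id' s).const_mul K,
      (Complex.re_le_norm _).trans (hU s h0 h1).2⟩)
  simpa using key

/-- change of the height along a segment on which `f1` is small -/
theorem height_close (J : Jet) {z h : ℂ} {K : ℝ}
    (hU : ∀ s : ℝ, 0 ≤ s → s ≤ 1 → z + s * h ∈ J.U ∧ ‖J.f1 (z + s * h) * h‖ ≤ K) :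
    ‖J.E (z + h)‖ ≤ ‖J.E z‖ * Real.exp (J.L * K) ∧
      ‖J.E z‖ ≤ ‖J.E (z + h)‖ * Real.exp (J.L * K) := by
  refine ⟨genA_close J hU, ?_⟩
  have key := genA_close J (z := z + h) (h := -h) (K := K) ?_
  · simpa using key
  · intro s h0 h1
    have e : z + h + s * -h = z + ((1 - s : ℝ) : ℂ) * h := by
      push_cast
      ring
    rw [e, mul_neg, norm_neg]
    exact hU (1 - s) (by linarith) (by linarith)

/-- the height decreases at rate `r` along the first `S` units of a ray -/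
theorem ray_height (J : Jet) {z e : ℂ} {E0 g r S : ℝ} (hE0 : 0 ≤ E0)
    (hU : ∀ s : ℝ, 0 ≤ s → s ≤ S → z + s * e ∈ J.U ∧ (J.f1 (z + s * e) * e).re ≤ -r)
    (h1 : ‖J.E z‖ ≤ E0 * Real.exp (-(J.L * g))) (s : ℝ) (hs : 0 ≤ s) (hS : s ≤ S) :
    ‖J.E (z + s * e)‖ ≤ E0 * Real.exp (-(J.L * (g + r * s))) := by
  have key := genA_cmp J (z := z) (h := e) hs (fun t => -r * t) (fun _ => -r)
    (fun t h0 h1 => ⟨(hU t h0 (h1.trans hS)).1, by simpa using (hasDerivAt_id' t).const_mul (-r),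
      (hU t h0 (h1.trans hS)).2⟩)
  refine genA_fin hE0 key h1 (le_of_eq ?_)
  ring

section acc

variable (J : Prim) {L L0 E0 : ℝ} {ty : ℕ} {zr z h : ℂ}

theorem gb_core {S len : ℝ} (φ ψ : ℝ → ℝ) (hφ : Continuous φ) (hψ : Continuous ψ) (hS : 0 ≤ S)
    (hlen : ‖h‖ ≤ len)
    (hP : ∀ s : ℝ, 0 ≤ s → s ≤ S → ‖J.E (z + s * h)‖ ≤ φ s ∧ ‖z + s * h - zr‖ ≤ ψ s) :
    ‖(J.P (z + S * h)).1 - (J.P z).1‖ ≤ len * ∫ s in (0 : ℝ)..S, φ s ∧
      ‖((J.P (z + S * h)).2 - (J.P z).2) - zr * ((J.P (z + S * h)).1 - (J.P z).1)‖ ≤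
        len * ∫ s in (0 : ℝ)..S, ψ s * φ s := by
  have hc := J.hc
  have hl : ∀ s : ℝ, HasDerivAt (fun s : ℝ => z + s * h) h s := fun s => by
    simpa using ((hasDerivAt_id s).ofReal_comp.mul_const h).const_add z
  have d0 : ∀ s : ℝ, HasDerivAt (fun s : ℝ => J.A0 (z + s * h)) (J.E (z + s * h) * h) s :=
    fun s => (J.hA0 _).comp s (hl s)
  have d1 : ∀ s : ℝ, HasDerivAt (fun s : ℝ => J.A1 (z + s * h) - zr * J.A0 (z + s * h))
      ((z + s * h - zr) * (J.E (z + s * h) * h)) s := fun s =>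
    (((J.hA1 _).comp s (hl s)).sub ((d0 s).const_mul zr)).congr_deriv (by ring)
  have i0 := intervalIntegral.integral_eq_sub_of_hasDerivAt (a := 0) (b := S) (fun s _ => d0 s)
    (Continuous.intervalIntegrable (by fun_prop) _ _)
  have i1 := intervalIntegral.integral_eq_sub_of_hasDerivAt (a := 0) (b := S) (fun s _ => d1 s)
    (Continuous.intervalIntegrable (by fun_prop) _ _)
  simp only [Complex.ofReal_zero, zero_mul, add_zero] at i0 i1
  have e1 : ((J.P (z + S * h)).2 - (J.P z).2) - zr * ((J.P (z + S * h)).1 - (J.P z).1) =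
      J.A1 (z + S * h) - zr * J.A0 (z + S * h) - (J.A1 z - zr * J.A0 z) := by
    simp only [Prim.P]
    ring
  have hb : ∀ s : ℝ, s ∈ Ioc 0 S → ‖J.E (z + s * h) * h‖ ≤ len * φ s := fun s hs => by
    rw [norm_mul, mul_comm]
    exact mul_le_mul hlen (hP s hs.1.le hs.2).1 (norm_nonneg _) ((norm_nonneg _).trans hlen)
  constructor
  · change ‖J.A0 (z + S * h) - J.A0 z‖ ≤ _
    rw [← i0, ← intervalIntegral.integral_const_mul]
    exact intervalIntegral.norm_integral_le_of_norm_le hS (Eventually.of_forall hb)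
      (Continuous.intervalIntegrable (by fun_prop) _ _)
  · rw [e1, ← i1, ← intervalIntegral.integral_const_mul]
    refine intervalIntegral.norm_integral_le_of_norm_le hS (Eventually.of_forall fun s hs => ?_)
      (Continuous.intervalIntegrable (by fun_prop) _ _)
    rw [norm_mul, mul_left_comm]
    exact mul_le_mul (hP s hs.1.le hs.2).2 (hb s hs) (norm_nonneg _)
      ((norm_nonneg _).trans (hP s hs.1.le hs.2).2)

theorem gb_pow {g : ℝ} (k : ℕ) (hL0 : 0 < L0) (hL : L0 ≤ L) (hg : (k : ℝ) / 2 ≤ g * L0) :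
    Real.sqrt L ^ k * Real.exp (-(L * g)) ≤ Real.sqrt L0 ^ k * Real.exp (-(L0 * g)) := by
  have ht : 0 ≤ (L - L0) / L0 := div_nonneg (sub_nonneg.2 hL) hL0.le
  have h1 : Real.sqrt L ≤ Real.sqrt L0 * Real.exp ((L - L0) / L0 / 2) := by
    rw [Real.exp_half, ← Real.sqrt_mul hL0.le]
    refine Real.sqrt_le_sqrt ?_
    have := mul_le_mul_of_nonneg_left (Real.add_one_le_exp ((L - L0) / L0)) hL0.le
    rw [mul_add, mul_div_cancel₀ _ hL0.ne'] at this
    linarith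
  have h2 := pow_le_pow_left₀ (Real.sqrt_nonneg L) h1 k
  refine (mul_le_mul_of_nonneg_right h2 (Real.exp_nonneg _)).trans ?_
  rw [mul_pow, ← Real.exp_nat_mul, mul_assoc, ← Real.exp_add]
  refine mul_le_mul_of_nonneg_left (Real.exp_le_exp.2 ?_) (by positivity)
  have h3 := mul_le_mul_of_nonneg_left hg ht
  have h4 : (L - L0) / L0 * (g * L0) = (L - L0) * g := by field_simp
  linarith

theorem gb_wt (hL0 : 0 < L0) (hL : L0 ≤ L) :
    0 ≤ wt ty L0 L ∧ wt ty L0 L ≤ L ∧ (wt ty L0 L ≤ L0 ∨ 2 ≤ ty) := by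
  unfold wt
  split_ifs with h1 h2
  · exact ⟨le_rfl, by linarith, Or.inl hL0.le⟩
  · exact ⟨hL0.le, hL, Or.inl le_rfl⟩
  · exact ⟨by linarith, le_rfl, Or.inr (by omega)⟩

theorem gb_W {g : ℝ} (k : ℕ) (hL0 : 0 < L0) (hL : L0 ≤ L) (hg : (k : ℝ) / 2 ≤ g * L0)
    (hm : 2 ≤ ty → ((k + 2 : ℕ) : ℝ) / 2 ≤ g * L0) :
    wt ty L0 L * (Real.sqrt L ^ k * Real.exp (-(L * g))) ≤
      L0 * (Real.sqrt L0 ^ k * Real.exp (-(L0 * g))) := by
  obtain ⟨-, h2, h3 | h3⟩ := gb_wt (ty := ty) hL0 hL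
  · exact mul_le_mul h3 (gb_pow k hL0 hL hg) (by positivity) hL0.le
  · have := gb_pow (k + 2) hL0 hL (hm h3)
    rw [pow_add, pow_add, Real.sq_sqrt (hL0.le.trans hL), Real.sq_sqrt hL0.le] at this
    refine (mul_le_mul_of_nonneg_right h2 (by positivity)).trans ?_
    linarith

theorem gb_exp {g r S len dist : ℝ} (hL0 : 0 < L0) (hL : L0 ≤ L) (hE0 : 0 ≤ E0) (hS : 0 ≤ S)
    (hP : ∀ s : ℝ, 0 ≤ s → s ≤ S → ‖J.E (z + s * h)‖ ≤ E0 * Real.exp (-(L * (g + r * s))))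
    (hr0 : 0 < r) (hlen : ‖h‖ ≤ len) (hd : ‖z - zr‖ ≤ dist) (hg : 0 ≤ g)
    (hm : 2 ≤ ty → 1 / 2 ≤ g * L0) :
    Bd L E0 (wt ty L0 L) zr (J.P z) (J.P (z + S * h))
      (len * Real.exp (-(L0 * g)) / (Real.sqrt L0 * r))
      (dist * len * Real.sqrt L0 * Real.exp (-(L0 * g)) / r +
        len ^ 2 * Real.exp (-(L0 * g)) / (Real.sqrt L0 * r ^ 2)) := by
  have hLp : 0 < L := hL0.trans_le hL
  have hl0 : 0 ≤ len := (norm_nonneg _).trans hlen
  have hd0 : 0 ≤ dist := (norm_nonneg _).trans hd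
  obtain ⟨c0, c1⟩ := gb_core J (zr := zr)
    (fun s => E0 * Real.exp (-(L * g)) * Real.exp (-(L * r * s))) (fun s => dist + len * s)
    (by fun_prop) (by fun_prop) hS hlen (fun s h0 h1 => by
      constructor
      · rw [mul_assoc, ← Real.exp_add]
        refine (hP s h0 h1).trans_eq ?_
        congr 2
        ring
      · rw [add_sub_right_comm]
        refine (norm_add_le _ _).trans (add_le_add hd ?_)
        rw [norm_mul, Complex.norm_real, Real.norm_of_nonneg h0, mul_comm]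
        exact mul_le_mul_of_nonneg_right hlen h0)
  obtain ⟨c, hc⟩ : ∃ c, c = L * r := ⟨_, rfl⟩
  have hc0 : 0 < c := hc ▸ mul_pos hLp hr0
  rw [← hc] at c0 c1
  have de : ∀ s : ℝ, HasDerivAt (fun s : ℝ => Real.exp (-(c * s))) (Real.exp (-(c * s)) * -c) s :=
    fun s => by simpa using ((hasDerivAt_id s).const_mul c).neg.exp
  obtain ⟨X, hX⟩ : ∃ X, X = Real.exp (-(L * g)) := ⟨_, rfl⟩
  have hX0 : 0 < X := hX ▸ Real.exp_pos _
  rw [← hX] at c0 c1
  have hY := Real.exp_pos (-(c * S))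
  have i0 : ∫ s in (0 : ℝ)..S, E0 * X * Real.exp (-(c * s)) ≤ E0 * X / c := by
    rw [intervalIntegral.integral_eq_sub_of_hasDerivAt
      (f := fun s => -(E0 * X / c) * Real.exp (-(c * s)))
      (fun s _ => ((de s).const_mul _).congr_deriv (by field_simp))
      (Continuous.intervalIntegrable (by fun_prop) _ _)]
    have : 0 ≤ E0 * X / c * Real.exp (-(c * S)) := by positivity
    simp only [mul_zero, neg_zero, Real.exp_zero]
    linarith
  have i1 : ∫ s in (0 : ℝ)..S, (dist + len * s) * (E0 * X * Real.exp (-(c * s))) ≤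
      E0 * X * (dist / c + len / c ^ 2) := by
    rw [intervalIntegral.integral_eq_sub_of_hasDerivAt
      (f := fun s => -(E0 * X * (dist / c + len / c ^ 2 + len / c * s)) * Real.exp (-(c * s)))
      (fun s _ => ((((((hasDerivAt_id' s).const_mul (len / c)).const_add _).const_mul
        (E0 * X)).neg).mul (de s)).congr_deriv (by simp only [Pi.neg_apply]; field_simp; ring))
      (Continuous.intervalIntegrable (by fun_prop) _ _)]
    have : 0 ≤ E0 * X * (dist / c + len / c ^ 2 + len / c * S) * Real.exp (-(c * S)) := by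
      positivity
    simp only [mul_zero, neg_zero, Real.exp_zero]
    linarith
  have p0 := gb_pow (g := g) 0 hL0 hL (by simpa using mul_nonneg hg hL0.le)
  have p1 := fun h => gb_pow (g := g) 1 hL0 hL (by simpa using hm h)
  simp only [pow_zero, one_mul, pow_one, ← hX] at p0 p1
  obtain ⟨w0, w1, w2⟩ := gb_wt (ty := ty) hL0 hL
  have hab := Real.sqrt_le_sqrt hL
  have ha := Real.sqrt_pos.2 hL0
  have ea := Real.sq_sqrt hL0.le
  have eb := Real.sq_sqrt hLp.le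
  unfold Bd
  generalize Real.sqrt L0 = a at *
  generalize Real.sqrt L = b at *
  generalize Real.exp (-(L0 * g)) = X0 at *
  generalize wt ty L0 L = W at *
  have hb : 0 < b := ha.trans_le hab
  have q1 : X / b ≤ X0 / a := div_le_div₀ (hX0.le.trans p0) p0 ha hab
  have q2 : W * X / b ≤ a * X0 := by
    rw [div_le_iff₀ hb]
    rcases w2 with w2 | w2
    · calc W * X ≤ a * a * X0 := mul_le_mul (by linarith) p0 hX0.le (by positivity)
        _ = a * X0 * a := by ring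
        _ ≤ a * X0 * b := mul_le_mul_of_nonneg_left hab (mul_nonneg ha.le (hX0.le.trans p0))
    · calc W * X ≤ b ^ 2 * X := mul_le_mul_of_nonneg_right (by linarith) hX0.le
        _ = b * X * b := by ring
        _ ≤ a * X0 * b := mul_le_mul_of_nonneg_right (p1 w2) hb.le
  have q3 : W * X / b ^ 3 ≤ X0 / a := by
    refine le_trans ?_ q1
    rw [div_le_div_iff₀ (by positivity) hb]
    calc W * X * b ≤ b ^ 2 * X * b :=
          mul_le_mul_of_nonneg_right (mul_le_mul_of_nonneg_right (by linarith) hX0.le) hb.le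
      _ = X * b ^ 3 := by ring
  subst hc
  rw [← eb] at i0 i1 c0 c1
  constructor
  · calc _ ≤ b * (len * (E0 * X / (b ^ 2 * r))) :=
          mul_le_mul_of_nonneg_left (c0.trans (mul_le_mul_of_nonneg_left i0 hl0)) hb.le
      _ = E0 * len / r * (X / b) := by field_simp
      _ ≤ E0 * len / r * (X0 / a) := mul_le_mul_of_nonneg_left q1 (by positivity)
      _ = _ := by field_simp
  · calc _ ≤ W * b * (len * (E0 * X * (dist / (b ^ 2 * r) + len / (b ^ 2 * r) ^ 2))) :=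
          mul_le_mul_of_nonneg_left (c1.trans (mul_le_mul_of_nonneg_left i1 hl0)) (by positivity)
      _ = E0 * len * dist / r * (W * X / b) + E0 * len ^ 2 / r ^ 2 * (W * X / b ^ 3) := by
          field_simp
      _ ≤ E0 * len * dist / r * (a * X0) + E0 * len ^ 2 / r ^ 2 * (X0 / a) :=
          add_le_add (mul_le_mul_of_nonneg_left q2 (by positivity))
            (mul_le_mul_of_nonneg_left q3 (by positivity))
      _ = _ := by field_simp

/-- exponential decay from the start of the segment -/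
theorem accA {g ρ κ r len dist : ℝ} (hL0 : 0 < L0) (hL : L0 ≤ L) (hE0 : 0 ≤ E0)
    (hP : Prof J.E E0 L z h g ρ κ) (hr0 : 0 < r) (hr : r ≤ ρ - max κ 0 / 2)
    (hlen : ‖h‖ ≤ len) (hd : ‖z - zr‖ ≤ dist) (hg : 0 ≤ g) (hm : 2 ≤ ty → 1 / 2 ≤ g * L0) :
    Bd L E0 (wt ty L0 L) zr (J.P z) (J.P (z + h))
      (len * Real.exp (-(L0 * g)) / (Real.sqrt L0 * r))
      (dist * len * Real.sqrt L0 * Real.exp (-(L0 * g)) / r +
        len ^ 2 * Real.exp (-(L0 * g)) / (Real.sqrt L0 * r ^ 2)) := by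
  have := gb_exp J (ty := ty) (zr := zr) (g := g) (z := z) (h := h) hL0 hL hE0 zero_le_one
    (fun s h0 h1 => (hP s h0 h1).trans (mul_le_mul_of_nonneg_left (Real.exp_le_exp.2 ?_) hE0))
    hr0 hlen hd hg hm
  · simpa using this
  · rw [← mul_neg]
    refine mul_le_mul_of_nonneg_left ?_ (hL0.le.trans hL)
    have a1 := mul_le_mul_of_nonneg_right hr h0
    have a2 := mul_le_mul_of_nonneg_right (le_max_left κ 0) (sq_nonneg s)
    have a3 := mul_le_mul_of_nonneg_left (show s ^ 2 ≤ s by nlinarith) (le_max_right κ 0)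
    linarith

/-- supremum times length -/
theorem accB {g len dist : ℝ} (hL0 : 0 < L0) (hL : L0 ≤ L) (hE0 : 0 ≤ E0)
    (hP : ∀ s : ℝ, 0 ≤ s → s ≤ 1 → ‖J.E (z + s * h)‖ ≤ E0 * Real.exp (-(L * g)) ∧
      ‖z + s * h - zr‖ ≤ dist)
    (hlen : ‖h‖ ≤ len) (hg : 1 / 2 ≤ g * L0) (hm : 2 ≤ ty → 3 / 2 ≤ g * L0) :
    Bd L E0 (wt ty L0 L) zr (J.P z) (J.P (z + h))
      (len * Real.sqrt L0 * Real.exp (-(L0 * g)))
      (dist * (len * Real.sqrt L0 * Real.exp (-(L0 * g))) * L0) := by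
  have hl0 : 0 ≤ len := (norm_nonneg _).trans hlen
  have hd0 : 0 ≤ dist := (norm_nonneg _).trans (hP 0 le_rfl zero_le_one).2
  obtain ⟨c0, c1⟩ := gb_core J (zr := zr) (fun _ => E0 * Real.exp (-(L * g))) (fun _ => dist)
    continuous_const continuous_const zero_le_one hlen hP
  simp only [intervalIntegral.integral_const, sub_zero, one_smul, Complex.ofReal_one,
    one_mul] at c0 c1
  have p1 := gb_pow (g := g) 1 hL0 hL (by simpa using hg)
  have p2 := gb_W (ty := ty) (g := g) 1 hL0 hL (by simpa using hg) fun h => by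
    simpa using hm h
  have w0 := (gb_wt (ty := ty) hL0 hL).1
  simp only [pow_one] at p1 p2
  constructor
  · refine (mul_le_mul_of_nonneg_left c0 (Real.sqrt_nonneg _)).trans ?_
    have := mul_le_mul_of_nonneg_left p1 (mul_nonneg hE0 hl0)
    linarith
  · refine (mul_le_mul_of_nonneg_left c1 (mul_nonneg w0 (Real.sqrt_nonneg _))).trans ?_
    have := mul_le_mul_of_nonneg_left p2 (mul_nonneg (mul_nonneg hE0 hl0) hd0)
    linarith

theorem Prof.sup {E : ℂ → ℂ} {g ρ κ g' : ℝ} (hL : 0 ≤ L) (hE0 : 0 ≤ E0)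
    (hP : Prof E E0 L z h g ρ κ) (hg : g' ≤ g - max 0 (-ρ + max κ 0 / 2)) (s : ℝ) (h0 : 0 ≤ s)
    (h1 : s ≤ 1) : ‖E (z + s * h)‖ ≤ E0 * Real.exp (-(L * g')) := by
  refine (hP s h0 h1).trans (mul_le_mul_of_nonneg_left (Real.exp_le_exp.2 ?_) hE0)
  rw [← mul_neg]
  refine mul_le_mul_of_nonneg_left ?_ hL
  have a1 := mul_le_mul_of_nonneg_right (le_max_right 0 (-ρ + max κ 0 / 2)) h0
  have a2 := mul_le_mul_of_nonneg_right (le_max_left κ 0) (sq_nonneg s)
  have a3 := mul_le_mul_of_nonneg_left (show s ^ 2 ≤ s by nlinarith) (le_max_right κ 0)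
  have a4 := mul_le_mul_of_nonneg_left h1 (le_max_left 0 (-ρ + max κ 0 / 2))
  linarith

/-- Gaussian bound -/
theorem accG {g ρ κ g' len dist : ℝ} (hL0 : 0 < L0) (hL : L0 ≤ L) (hE0 : 0 ≤ E0)
    (hP : Prof J.E E0 L z h g ρ κ) (hκ : κ < 0) (hg' : g' ≤ g - min ρ 0 ^ 2 / (2 * -κ))
    (hlen : ‖h‖ ≤ len) (hd : ∀ s : ℝ, 0 ≤ s → s ≤ 1 → ‖z + s * h - zr‖ ≤ dist) (hg : 0 ≤ g')
    (hm : 2 ≤ ty → 1 ≤ g' * L0) :
    Bd L E0 (wt ty L0 L) zr (J.P z) (J.P (z + h))
      (len * Real.sqrt (2 * Real.pi / -κ) * Real.exp (-(L0 * g')))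
      (dist * (len * Real.sqrt (2 * Real.pi / -κ) * Real.exp (-(L0 * g'))) * L0) := by
  have hLp : 0 < L := hL0.trans_le hL
  have hl0 : 0 ≤ len := (norm_nonneg _).trans hlen
  have hd0 : 0 ≤ dist := (norm_nonneg _).trans (hd 0 le_rfl zero_le_one)
  obtain ⟨k, rfl⟩ : ∃ k, κ = -k := ⟨-κ, (neg_neg κ).symm⟩
  rw [neg_neg] at hg' ⊢
  have hk : 0 < k := neg_lt_zero.1 hκ
  have hb : 0 < L * k / 2 := by positivity
  obtain ⟨c0, c1⟩ := gb_core J (zr := zr)
    (fun s => E0 * Real.exp (-(L * g')) * Real.exp (-(L * k / 2) * (s + min ρ 0 / k) ^ 2))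
    (fun _ => dist) (by fun_prop) continuous_const zero_le_one hlen (fun s h0 h1 => by
      refine ⟨(hP s h0 h1).trans ?_, hd s h0 h1⟩
      rw [mul_assoc, ← Real.exp_add]
      refine mul_le_mul_of_nonneg_left (Real.exp_le_exp.2 ?_) hE0
      have e : -(L * g') + -(L * k / 2) * (s + min ρ 0 / k) ^ 2 =
          L * (-g' - min ρ 0 ^ 2 / (2 * k) - min ρ 0 * s + -k * s ^ 2 / 2) := by
        field_simp
        ring
      rw [e]
      refine mul_le_mul_of_nonneg_left ?_ hLp.le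
      have := mul_le_mul_of_nonneg_right (min_le_left ρ 0) h0
      linarith)
  have i0 : ∫ s in (0 : ℝ)..1, Real.exp (-(L * k / 2) * (s + min ρ 0 / k) ^ 2) ≤
      Real.sqrt (2 * Real.pi / k) / Real.sqrt L := by
    rw [intervalIntegral.integral_of_le zero_le_one]
    refine (MeasureTheory.setIntegral_le_integral
      ((integrable_exp_neg_mul_sq hb).comp_add_right (min ρ 0 / k))
      (Eventually.of_forall fun s => Real.exp_nonneg _)).trans_eq ?_
    rw [MeasureTheory.integral_add_right_eq_self (fun s => Real.exp (-(L * k / 2) * s ^ 2)),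
      integral_gaussian, ← Real.sqrt_div' _ hLp.le]
    congr 1
    field_simp
  simp only [intervalIntegral.integral_const_mul, Complex.ofReal_one, one_mul] at c0 c1
  have p1 := gb_pow (g := g') 0 hL0 hL (by simpa using mul_nonneg hg hL0.le)
  have p2 := gb_W (ty := ty) (g := g') 0 hL0 hL (by simpa using mul_nonneg hg hL0.le) fun h => by
    simpa using hm h
  have w0 := (gb_wt (ty := ty) hL0 hL).1
  simp only [pow_zero, one_mul] at p1 p2
  have hs := Real.sqrt_pos.2 hLp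
  have hG := Real.sqrt_nonneg (2 * Real.pi / k)
  have hX := Real.exp_pos (-(L * g'))
  rw [le_div_iff₀ hs] at i0
  constructor
  · refine (mul_le_mul_of_nonneg_left c0 hs.le).trans ?_
    have a1 := mul_le_mul_of_nonneg_left i0 (mul_nonneg (mul_nonneg hE0 hl0) hX.le)
    have a2 := mul_le_mul_of_nonneg_left p1 (mul_nonneg (mul_nonneg hE0 hl0) hG)
    linarith
  · refine (mul_le_mul_of_nonneg_left c1 (mul_nonneg w0 hs.le)).trans ?_
    have a1 := mul_le_mul_of_nonneg_left i0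
      (mul_nonneg (mul_nonneg (mul_nonneg (mul_nonneg hE0 hl0) hX.le) hd0) w0)
    have a2 := mul_le_mul_of_nonneg_left p2 (mul_nonneg (mul_nonneg (mul_nonneg hE0 hl0) hG) hd0)
    linarith

/-- a vertical or slanted piece of unit direction `e` and arbitrary length `S` -/
theorem accR {e : ℂ} {g r S dist : ℝ} (hL0 : 0 < L0) (hL : L0 ≤ L) (hE0 : 0 ≤ E0) (he : ‖e‖ = 1)
    (hS : 0 ≤ S)
    (hP : ∀ s : ℝ, 0 ≤ s → s ≤ S → ‖J.E (z + s * e)‖ ≤ E0 * Real.exp (-(L * (g + r * s))))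
    (hr0 : 0 < r) (hd : ‖z - zr‖ ≤ dist) (hg : 0 ≤ g) (hm : 2 ≤ ty → 1 / 2 ≤ g * L0) :
    Bd L E0 (wt ty L0 L) zr (J.P z) (J.P (z + S * e))
      (Real.exp (-(L0 * g)) / (Real.sqrt L0 * r))
      (dist * Real.sqrt L0 * Real.exp (-(L0 * g)) / r +
        Real.exp (-(L0 * g)) / (Real.sqrt L0 * r ^ 2)) := by
  simpa using gb_exp J (ty := ty) hL0 hL hE0 hS hP hr0 he.le hd hg hm

/-- a ray going to infinity -/
theorem accRay {e : ℂ} {g r dist : ℝ} {v : ℂ × ℂ} (hL0 : 0 < L0) (hL : L0 ≤ L) (hE0 : 0 ≤ E0)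
    (he : ‖e‖ = 1)
    (hP : ∀ s : ℝ, 0 ≤ s → ‖J.E (z + s * e)‖ ≤ E0 * Real.exp (-(L * (g + r * s))))
    (hv : Tendsto (fun s : ℝ => J.P (z + s * e)) atTop (𝓝 v))
    (hr0 : 0 < r) (hd : ‖z - zr‖ ≤ dist) (hg : 0 ≤ g) (hm : 2 ≤ ty → 1 / 2 ≤ g * L0) :
    Bd L E0 (wt ty L0 L) zr (J.P z) v
      (Real.exp (-(L0 * g)) / (Real.sqrt L0 * r))
      (dist * Real.sqrt L0 * Real.exp (-(L0 * g)) / r +
        Real.exp (-(L0 * g)) / (Real.sqrt L0 * r ^ 2)) := by
  have key := fun (S : ℝ) (hS : 0 ≤ S) =>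
    accR J (ty := ty) hL0 hL hE0 he hS (fun s h0 _ => hP s h0) hr0 hd hg hm
  have v1 := (continuous_fst.tendsto v).comp hv
  have v2 := (continuous_snd.tendsto v).comp hv
  constructor
  · refine le_of_tendsto ((v1.sub_const (J.P z).1).norm.const_mul (Real.sqrt L)) ?_
    filter_upwards [eventually_ge_atTop 0] with S hS
    exact (key S hS).1
  · refine le_of_tendsto (((v2.sub_const (J.P z).2).sub
      ((v1.sub_const (J.P z).1).const_mul zr)).norm.const_mul (wt ty L0 L * Real.sqrt L)) ?_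
    filter_upwards [eventually_ge_atTop 0] with S hS
    exact (key S hS).2

end acc

/-- Krawczyk type existence of a zero: the simplified Newton map is a contraction of the ball -/
theorem kraw {F dF ddF : ℂ → ℂ} {c : ℂ} {ρ ε m K : ℝ} (hρ : 0 ≤ ρ)
    (h1 : ∀ z, ‖z - c‖ ≤ ρ → HasDerivAt F (dF z) z ∧ HasDerivAt dF (ddF z) z ∧ ‖ddF z‖ ≤ K)
    (hε : ‖F c‖ ≤ ε) (hm0 : 0 < m) (hm : m ≤ ‖dF c‖) (hK : K * ρ ≤ m / 2)
    (hr : ε + K * ρ ^ 2 ≤ ρ * m) : ∃ z, ‖z - c‖ ≤ ρ ∧ F z = 0 := by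
  have hc : c ∈ Metric.closedBall c ρ := Metric.mem_closedBall_self hρ
  have hb : ∀ z ∈ Metric.closedBall c ρ, ‖z - c‖ ≤ ρ := fun z hz => mem_closedBall_iff_norm.1 hz
  have hK0 : 0 ≤ K := (norm_nonneg _).trans (h1 c (hb c hc)).2.2
  have hd0 : 0 < ‖dF c‖ := hm0.trans_le hm
  have hd : dF c ≠ 0 := norm_pos_iff.1 hd0
  have hlip : ∀ z ∈ Metric.closedBall c ρ, ‖dF z - dF c‖ ≤ K * ρ := fun z hz =>
    ((convex_closedBall c ρ).norm_image_sub_le_of_norm_hasDerivWithin_le (f' := ddF)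
      (fun w hw => (h1 w (hb w hw)).2.1.hasDerivWithinAt) (fun w hw => (h1 w (hb w hw)).2.2)
      hc hz).trans (mul_le_mul_of_nonneg_left (hb z hz) hK0)
  have hN : ∀ x ∈ Metric.closedBall c ρ, ∀ y ∈ Metric.closedBall c ρ,
      ‖(y - F y / dF c) - (x - F x / dF c)‖ ≤ K * ρ / m * ‖y - x‖ := by
    intro x hx y hy
    refine (convex_closedBall c ρ).norm_image_sub_le_of_norm_hasDerivWithin_le
      (f := fun w => w - F w / dF c) (f' := fun w => 1 - dF w / dF c)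
      (fun w hw => ((hasDerivAt_id' w).sub
        ((h1 w (hb w hw)).1.div_const (dF c))).hasDerivWithinAt) ?_ hx hy
    intro w hw
    have e : 1 - dF w / dF c = -((dF w - dF c) / dF c) := by
      field_simp
      ring
    rw [e, norm_neg, norm_div]
    exact div_le_div₀ (by positivity) (hlip w hw) hm0 hm
  have hmaps : MapsTo (fun w => w - F w / dF c) (Metric.closedBall c ρ)
      (Metric.closedBall c ρ) := by
    intro y hy
    refine mem_closedBall_iff_norm.2 ?_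
    have e : y - F y / dF c - c = ((y - F y / dF c) - (c - F c / dF c)) - F c / dF c := by ring
    have a1 : ‖F c / dF c‖ ≤ ε / m := by
      rw [norm_div]
      exact div_le_div₀ ((norm_nonneg _).trans hε) hε hm0 hm
    have a2 := (hN c hc y hy).trans
      (mul_le_mul_of_nonneg_left (hb y hy) (by positivity : 0 ≤ K * ρ / m))
    have a3 : K * ρ / m * ρ + ε / m ≤ ρ := by
      rw [div_mul_eq_mul_div, ← add_div, div_le_iff₀ hm0]
      linarith
    show ‖y - F y / dF c - c‖ ≤ ρ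
    rw [e]
    exact (norm_sub_le _ _).trans (by linarith)
  have : CompleteSpace (Metric.closedBall c ρ) := Metric.isClosed_closedBall.completeSpace_coe
  have : Nonempty (Metric.closedBall c ρ) := ⟨⟨c, hc⟩⟩
  have hcon : ContractingWith (1 / 2) (hmaps.restrict _ _ _) := by
    refine ⟨by norm_num, LipschitzWith.of_dist_le_mul fun x y => ?_⟩
    have a1 := hN y y.2 x x.2
    have a2 : K * ρ / m ≤ 1 / 2 := by
      rw [div_le_iff₀ hm0]
      linarith
    rw [Subtype.dist_eq, Subtype.dist_eq, dist_eq_norm, dist_eq_norm]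
    refine a1.trans (mul_le_mul_of_nonneg_right ?_ (norm_nonneg _))
    simpa using a2
  obtain ⟨z, hz⟩ : ∃ z : Metric.closedBall c ρ, hmaps.restrict _ _ _ z = z :=
    ⟨_, hcon.fixedPoint_isFixedPt⟩
  refine ⟨z, hb z z.2, ?_⟩
  have e : (z : ℂ) - F z / dF c = z := congrArg Subtype.val hz
  have e2 : F z / dF c = 0 := by linear_combination -e
  exact (div_eq_zero_iff.1 e2).resolve_right hd

end Pool.Agent.Sok
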