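import Pool.Agent.Sok.Num
import Pool.Agent.Sok.Gen

/-! Fixed point accumulation of the bounds `accA`, `accB`, `accG`, `accR`, `accRay`. -/

set_option autoImplicit false

namespace Pool.Agent.Sok

open Filter Topology

/-- lower bound `L0` of the large parameter, bounds for its square root, type of the moment -/
structure Ac where
  L0 : ℤ
  sD : ℤ
  sU : ℤ
  ty : ℕ

def mkAc (L0 : ℤ) (ty : ℕ) (k : Ac → Bool) : Bool :=
  fI L0 fun L0 => fI (sqrtD L0) fun sD => fI (sqrtU L0) fun sU =>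
    ltI 0 sD && k ⟨L0, sD, sU, ty⟩

def Ac.Ok (a : Ac) (L : ℝ) : Prop :=
  0 < toR a.L0 ∧ toR a.L0 ≤ L ∧ 0 < toR a.sD ∧ toR a.sD ≤ Real.sqrt (toR a.L0) ∧
    Real.sqrt (toR a.L0) ≤ toR a.sU

noncomputable def Ac.W (a : Ac) (L : ℝ) : ℝ := wt a.ty (toR a.L0) L

theorem mkAc_ok {L0 : ℤ} {ty : ℕ} {k : Ac → Bool} (h : mkAc L0 ty k = true) :
    ∃ a : Ac, k a = true ∧ a.L0 = L0 ∧ a.ty = ty ∧ ∀ L, toR L0 ≤ L → a.Ok L := by
  simp only [mkAc, fI_eq, Bool.and_eq_true] at h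
  have h0 := ltI_ok h.1
  rw [toR_zero] at h0
  exact ⟨_, h.2, rfl, rfl, fun L hL =>
    ⟨Real.sqrt_pos.1 (h0.trans_le (sqrtD_ok L0)), hL, h0, sqrtD_ok L0, sqrtU_ok L0⟩⟩

def half : ℤ := 549755813888

/-- `exp (-L0 g)` with the test `c ≤ g L0` -/
def Ac.ex (a : Ac) (g c : ℤ) (k : ℤ → Bool) : Bool :=
  fI (mulD a.L0 g) fun y => leI c y && fI (expU (-y)) k

def aA (a : Ac) (g r len dist I M : ℤ) (k : ℤ → ℤ → Bool) : Bool :=
  fI g fun g => fI r fun r => ltI 0 r && leI 0 len && leI 0 dist &&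
  a.ex g (cond (Nat.ble 2 a.ty) half 0) fun e =>
  fI (mulU len e) fun le => fI (mulD a.sD r) fun sr => ltI 0 sr &&
  fI (I + divU le sr) fun I' =>
  cond (Nat.beq a.ty 0) (k I' M)
    (fI (mulD sr r) fun srr => ltI 0 srr &&
      fI (M + divU (mulU (mulU dist a.sU) le) r + divU (mulU len le) srr) fun M' => k I' M')

def aB (a : Ac) (g len dist I M : ℤ) (k : ℤ → ℤ → Bool) : Bool :=
  fI g fun g => leI 0 len && leI 0 dist &&
  a.ex g (cond (Nat.ble 2 a.ty) (3 * half) half) fun e =>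
  fI (mulU (mulU len a.sU) e) fun i => fI (I + i) fun I' =>
  cond (Nat.beq a.ty 0) (k I' M) (fI (M + mulU (mulU dist i) a.L0) fun M' => k I' M')

/-- `kap` is the positive curvature -/
def aG (a : Ac) (g len kap dist I M : ℤ) (k : ℤ → ℤ → Bool) : Bool :=
  fI g fun g => fI kap fun kap => ltI 0 kap && leI 0 len && leI 0 dist &&
  a.ex g (cond (Nat.ble 2 a.ty) one 0) fun e =>
  fI (mulU (mulU len (sqrtU (divU (2 * piU) kap))) e) fun i => fI (I + i) fun I' =>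
  cond (Nat.beq a.ty 0) (k I' M) (fI (M + mulU (mulU dist i) a.L0) fun M' => k I' M')

variable {a : Ac} {L : ℝ} {g r len dist kap I M : ℤ} {k : ℤ → ℤ → Bool}

theorem acc_half : toR half = 1 / 2 := by norm_num [toR, half]

theorem acc_half3 : toR (3 * half) = 3 / 2 := by norm_num [toR, half]

theorem acc_ex (g c d : ℤ) {k : ℤ → Bool} (hcd : toR d ≤ toR c)
    (h : a.ex g (cond (Nat.ble 2 a.ty) c d) k = true) :
    ∃ e, k e = true ∧ toR d ≤ toR g * toR a.L0 ∧ (2 ≤ a.ty → toR c ≤ toR g * toR a.L0) ∧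
      Real.exp (-(toR a.L0 * toR g)) ≤ toR e := by
  simp only [Ac.ex, fI_eq, Bool.and_eq_true] at h
  have h1 := (leI_ok h.1).trans (mulD_ok a.L0 g)
  rw [mul_comm] at h1
  refine ⟨_, h.2, ?_, fun h2 => ?_, le_trans (Real.exp_le_exp.2 ?_) (expU_ok _)⟩
  · cases hb : Nat.ble 2 a.ty <;> rw [hb] at h1
    · exact h1
    · exact hcd.trans h1
  · rwa [Nat.ble_eq_true_of_le h2] at h1
  · rw [toR_neg]
    exact neg_le_neg (mulD_ok a.L0 g)

theorem acc_fin {E0 x y I M : ℝ} {zr : ℂ} {u v : ℂ × ℂ} (hE : 0 ≤ E0)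
    (h : Bd L E0 (wt a.ty (toR a.L0) L) zr u v x y) (hI : x ≤ I)
    (hM : a.ty = 0 ∧ M = 0 ∨ y ≤ M) : Bd L E0 (a.W L) zr u v I M := by
  rcases hM with ⟨h1, rfl⟩ | hM
  · exact ⟨(h.mono hE hI le_rfl).1, by simp [Ac.W, wt, h1]⟩
  · exact h.mono hE hI hM

theorem acc_g (ha : a.Ok L) (h : toR 0 ≤ toR g * toR a.L0) : 0 ≤ toR g := by
  rw [toR_zero] at h
  exact nonneg_of_mul_nonneg_left h ha.1

theorem acc_A (ha : a.Ok L) (h : aA a g r len dist I M k = true) :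
    ∃ I' M', k I' M' = true ∧ 0 < toR r ∧ 0 ≤ toR g ∧ (2 ≤ a.ty → 1 / 2 ≤ toR g * toR a.L0) ∧
      toR len * Real.exp (-(toR a.L0 * toR g)) / (Real.sqrt (toR a.L0) * toR r) ≤
        toR I' - toR I ∧
      (a.ty = 0 ∧ toR M' - toR M = 0 ∨
        toR dist * toR len * Real.sqrt (toR a.L0) * Real.exp (-(toR a.L0 * toR g)) / toR r +
          toR len ^ 2 * Real.exp (-(toR a.L0 * toR g)) / (Real.sqrt (toR a.L0) * toR r ^ 2) ≤
        toR M' - toR M) := by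
  simp only [aA, fI_eq, Bool.and_eq_true] at h
  obtain ⟨⟨⟨h1, h2⟩, h3⟩, h⟩ := h
  obtain ⟨e, h, h4, h5, h6⟩ := acc_ex g half 0 (by rw [acc_half, toR_zero]; norm_num) h
  simp only [Bool.and_eq_true] at h
  obtain ⟨h7, h⟩ := h
  replace h1 := ltI_ok h1
  replace h2 := leI_ok h2
  replace h3 := leI_ok h3
  replace h7 := ltI_ok h7
  rw [toR_zero] at h1 h2 h3 h7
  rw [acc_half] at h5
  have hX := Real.exp_pos (-(toR a.L0 * toR g))
  have hs := Real.sqrt_nonneg (toR a.L0)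
  have e1 := mulU_le h2 hX.le le_rfl h6
  have e2 := mulD_le ha.2.2.1.le h1.le ha.2.2.2.1 le_rfl
  have e3 := divU_le (mul_nonneg h2 hX.le) h7 e1 e2
  cases hb : Nat.beq a.ty 0 <;> rw [hb] at h
  · simp only [cond_false, Bool.and_eq_true] at h
    have h8 := ltI_ok h.1
    rw [toR_zero] at h8
    have e4 := divU_le (by positivity) h1
      (mulU_le (by positivity) (by positivity) (mulU_le h3 hs le_rfl ha.2.2.2.2) e1) le_rfl
    have e5 := divU_le (by positivity) h8 (mulU_le h2 (by positivity) le_rfl e1)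
      (mulD_le h7.le h1.le e2 le_rfl)
    refine ⟨_, _, h.2, h1, acc_g ha h4, h5, by rwa [toR_add, add_sub_cancel_left], Or.inr ?_⟩
    rw [toR_add, toR_add, add_assoc, add_sub_cancel_left]
    refine le_trans (le_of_eq ?_) (add_le_add e4 e5)
    ring
  · exact ⟨_, _, h, h1, acc_g ha h4, h5, by rwa [toR_add, add_sub_cancel_left],
      Or.inl ⟨Nat.eq_of_beq_eq_true hb, sub_self _⟩⟩

theorem acc_M {x : ℝ} {i I' : ℤ} (ha : a.Ok L) (hd : 0 ≤ toR dist) (hx : 0 ≤ x) (hi : x ≤ toR i)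
    (h : cond (Nat.beq a.ty 0) (k I' M) (k I' (M + mulU (mulU dist i) a.L0)) = true) :
    ∃ M', k I' M' = true ∧
      (a.ty = 0 ∧ toR M' - toR M = 0 ∨ toR dist * x * toR a.L0 ≤ toR M' - toR M) := by
  cases hb : Nat.beq a.ty 0 <;> rw [hb] at h
  · refine ⟨_, h, Or.inr ?_⟩
    rw [toR_add, add_sub_cancel_left]
    exact mulU_le (mul_nonneg hd hx) ha.1.le (mulU_le hd hx le_rfl hi) le_rfl
  · exact ⟨_, h, Or.inl ⟨Nat.eq_of_beq_eq_true hb, sub_self _⟩⟩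

theorem aA_ok (ha : a.Ok L) (h : aA a g r len dist I M k = true) :
    ∃ I' M', k I' M' = true ∧ ∀ (J : Prim) (E0 ρ κ : ℝ) (zr z h : ℂ), 0 ≤ E0 →
      Prof J.E E0 L z h (toR g) ρ κ → toR r ≤ ρ - max κ 0 / 2 → ‖h‖ ≤ toR len →
      ‖z - zr‖ ≤ toR dist →
      Bd L E0 (a.W L) zr (J.P z) (J.P (z + h)) (toR I' - toR I) (toR M' - toR M) := by
  obtain ⟨I', M', h1, h2, h3, h4, h5, h6⟩ := acc_A ha h
  exact ⟨I', M', h1, fun J E0 ρ κ zr z h hE hP hr hl hd =>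
    acc_fin hE (accA J ha.1 ha.2.1 hE hP h2 hr hl hd h3 h4) h5 h6⟩

theorem aA_ray (ha : a.Ok L) (h : aA a g r one dist I M k = true) :
    ∃ I' M', k I' M' = true ∧
      (∀ (J : Prim) (E0 S : ℝ) (zr z e : ℂ), 0 ≤ E0 → ‖e‖ = 1 → 0 ≤ S →
        (∀ s : ℝ, 0 ≤ s → s ≤ S →
          ‖J.E (z + s * e)‖ ≤ E0 * Real.exp (-(L * (toR g + toR r * s)))) →
        ‖z - zr‖ ≤ toR dist →
        Bd L E0 (a.W L) zr (J.P z) (J.P (z + S * e)) (toR I' - toR I) (toR M' - toR M)) ∧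
      (∀ (J : Prim) (E0 : ℝ) (zr z e : ℂ) (v : ℂ × ℂ), 0 ≤ E0 → ‖e‖ = 1 →
        (∀ s : ℝ, 0 ≤ s → ‖J.E (z + s * e)‖ ≤ E0 * Real.exp (-(L * (toR g + toR r * s)))) →
        Tendsto (fun s : ℝ => J.P (z + s * e)) atTop (𝓝 v) → ‖z - zr‖ ≤ toR dist →
        Bd L E0 (a.W L) zr (J.P z) v (toR I' - toR I) (toR M' - toR M)) := by
  obtain ⟨I', M', h1, h2, h3, h4, h5, h6⟩ := acc_A ha h
  simp only [toR_one, one_mul, mul_one, one_pow] at h5 h6
  exact ⟨I', M', h1, fun J E0 S zr z e hE he hS hP hd =>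
    acc_fin hE (accR J ha.1 ha.2.1 hE he hS hP h2 hd h3 h4) h5 h6,
    fun J E0 zr z e v hE he hP hv hd =>
      acc_fin hE (accRay J ha.1 ha.2.1 hE he hP hv h2 hd h3 h4) h5 h6⟩

theorem aB_ok (ha : a.Ok L) (h : aB a g len dist I M k = true) :
    ∃ I' M', k I' M' = true ∧ ∀ (J : Prim) (E0 : ℝ) (zr z h : ℂ), 0 ≤ E0 →
      (∀ s : ℝ, 0 ≤ s → s ≤ 1 → ‖J.E (z + s * h)‖ ≤ E0 * Real.exp (-(L * toR g)) ∧
        ‖z + s * h - zr‖ ≤ toR dist) → ‖h‖ ≤ toR len →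
      Bd L E0 (a.W L) zr (J.P z) (J.P (z + h)) (toR I' - toR I) (toR M' - toR M) := by
  simp only [aB, fI_eq, Bool.and_eq_true] at h
  obtain ⟨⟨h2, h3⟩, h⟩ := h
  obtain ⟨e, h, h4, h5, h6⟩ := acc_ex g (3 * half) half (by rw [acc_half, acc_half3]; norm_num) h
  replace h2 := leI_ok h2
  replace h3 := leI_ok h3
  rw [toR_zero] at h2 h3
  rw [acc_half] at h4
  rw [acc_half3] at h5
  have hX := Real.exp_pos (-(toR a.L0 * toR g))
  have hs := Real.sqrt_nonneg (toR a.L0)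
  have e1 := mulU_le (by positivity) hX.le (mulU_le h2 hs le_rfl ha.2.2.2.2) h6
  obtain ⟨M', h7, h8⟩ := acc_M ha h3 (by positivity) e1 h
  exact ⟨_, M', h7, fun J E0 zr z h hE hP hl =>
    acc_fin hE (accB J ha.1 ha.2.1 hE hP hl h4 h5) (by rwa [toR_add, add_sub_cancel_left]) h8⟩

theorem aG_ok (ha : a.Ok L) (h : aG a g len kap dist I M k = true) :
    ∃ I' M', k I' M' = true ∧ ∀ (J : Prim) (E0 g0 ρ κ : ℝ) (zr z h : ℂ), 0 ≤ E0 →
      Prof J.E E0 L z h g0 ρ κ → κ ≤ -toR kap → toR g ≤ g0 - min ρ 0 ^ 2 / (2 * toR kap) →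
      ‖h‖ ≤ toR len → (∀ s : ℝ, 0 ≤ s → s ≤ 1 → ‖z + s * h - zr‖ ≤ toR dist) →
      Bd L E0 (a.W L) zr (J.P z) (J.P (z + h)) (toR I' - toR I) (toR M' - toR M) := by
  simp only [aG, fI_eq, Bool.and_eq_true] at h
  obtain ⟨⟨⟨h1, h2⟩, h3⟩, h⟩ := h
  obtain ⟨e, h, h4, h5, h6⟩ := acc_ex g one 0 (by rw [toR_one, toR_zero]; norm_num) h
  replace h1 := ltI_ok h1
  replace h2 := leI_ok h2
  replace h3 := leI_ok h3
  rw [toR_zero] at h1 h2 h3
  rw [toR_one] at h5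
  have hX := Real.exp_pos (-(toR a.L0 * toR g))
  have e0 : Real.sqrt (2 * Real.pi / - -toR kap) ≤ toR (sqrtU (divU (2 * piU) kap)) := by
    rw [neg_neg]
    refine (Real.sqrt_le_sqrt (divU_le (by positivity) h1 ?_ le_rfl)).trans (sqrtU_ok _)
    rw [toR_intmul]
    have := piU_ok
    push_cast
    linarith
  have e1 := mulU_le (by positivity) hX.le (mulU_le h2 (Real.sqrt_nonneg _) le_rfl e0) h6
  obtain ⟨M', h7, h8⟩ := acc_M ha h3 (by positivity) e1 h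
  refine ⟨_, M', h7, fun J E0 g0 ρ κ zr z h hE hP hκ hg hl hd => acc_fin hE
    (accG J (g := g0) (ρ := ρ) (κ := -toR kap) ha.1 ha.2.1 hE (fun s s0 s1 => (hP s s0 s1).trans ?_)
      (neg_lt_zero.2 h1) (by rwa [neg_neg]) hl hd (acc_g ha h4) h5)
    (by rwa [toR_add, add_sub_cancel_left]) h8⟩
  refine mul_le_mul_of_nonneg_left (Real.exp_le_exp.2 ?_) hE
  refine mul_le_mul_of_nonneg_left ?_ (ha.1.le.trans ha.2.1)
  have := mul_le_mul_of_nonneg_right hκ (sq_nonneg s)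
  linarith

end Pool.Agent.Sok
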