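import Pool.Agent.Sok.EA1

/-! A zero free disc for q near one, and the roots for q = -1. -/

namespace Pool.Agent.Sok

open Pool.Agent.MP_97ada9_an Finset

/-- The partition function of a list of weights, all scaled by t. -/
noncomputable def a3_F (q : ℂ) : List ℂ → ℂ → ℂ
  | [], _ => 1
  | x :: l, t => a3_F q l t + t * x * a3_F q l (q * t)

theorem a3_cons (q x : ℂ) (l : List ℂ) (t : ℂ) :
    a3_F q (x :: l) t = a3_F q l t + t * x * a3_F q l (q * t) := rfl

theorem a3_map (q c : ℂ) (l : List ℂ) (t : ℂ) :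
    a3_F q (l.map (c * ·)) t = a3_F q l (c * t) := by
  induction l generalizing t with
  | nil => rfl
  | cons x l ih =>
    rw [List.map_cons, a3_cons, a3_cons, ih, ih, mul_left_comm c q t]
    ring

theorem a3_perm (q : ℂ) {l m : List ℂ} (h : l.Perm m) (t : ℂ) : a3_F q l t = a3_F q m t := by
  induction h generalizing t with
  | nil => rfl
  | cons x _ ih => rw [a3_cons, a3_cons, ih, ih]
  | swap x y l =>
    simp only [a3_cons]
    ring
  | trans _ _ h1 h2 => rw [h1, h2]

theorem a3_rep (q z : ℂ) (N : ℕ) (t : ℂ) : a3_F q (List.replicate N z) t = pc q N (t * z) := by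
  induction N generalizing t with
  | zero => simp [a3_F, pc]
  | succ N ih => rw [List.replicate_succ, a3_cons, ih, ih, pc_succ, mul_assoc q]

theorem a3_ind {q : ℂ} {N : ℕ} {δ b R : ℝ} (hq : ‖q‖ ≤ 1) (hδ : ‖q - 1‖ ≤ δ) (hb : 0 < b)
    (hR : R * (1 + δ * b) ^ N * (1 + b) ≤ b) (n : ℕ) (hn : n ≤ N) :
    ∀ l : List ℂ, l.length = n → (∀ x ∈ l, ‖x‖ ≤ R) →
      a3_F q l 1 ≠ 0 ∧ ‖a3_F q (l.map (q * ·)) 1‖ ≤ (1 + δ * b) ^ n * ‖a3_F q l 1‖ := by
  have hδ0 : 0 ≤ δ := (norm_nonneg _).trans hδ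
  have h1 : 1 ≤ 1 + δ * b := le_add_of_nonneg_right (mul_nonneg hδ0 hb.le)
  induction n with
  | zero =>
    intro l hl _
    obtain rfl := List.length_eq_zero_iff.1 hl
    exact ⟨one_ne_zero, by rw [pow_zero, one_mul]; exact le_rfl⟩
  | succ n ih =>
    replace ih := ih (Nat.le_of_succ_le hn)
    have step : ∀ (x : ℂ) (m : List ℂ), m.length = n → ‖x‖ ≤ R → (∀ y ∈ m, ‖y‖ ≤ R) →
        a3_F q (x :: m) 1 ≠ 0 ∧
          ‖a3_F q (q * x :: m) 1‖ ≤ (1 + δ * b) * ‖a3_F q (x :: m) 1‖ := by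
      intro x m hm hx hy
      obtain ⟨i1, i2⟩ := ih m hm hy
      rw [a3_map] at i2
      have e1 : a3_F q (q * x :: m) 1 =
          a3_F q (x :: m) 1 + (q - 1) * (x * a3_F q m (q * 1)) := by
        rw [a3_cons, a3_cons]; ring
      have e2 : a3_F q m 1 = a3_F q (x :: m) 1 - x * a3_F q m (q * 1) := by
        rw [a3_cons]; ring
      have hR0 : 0 ≤ R := (norm_nonneg x).trans hx
      have u1 : ‖x * a3_F q m (q * 1)‖ * (1 + b) ≤ b * ‖a3_F q m 1‖ := by
        rw [norm_mul]
        calc _ ≤ R * ((1 + δ * b) ^ N * ‖a3_F q m 1‖) * (1 + b) :=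
              mul_le_mul_of_nonneg_right (mul_le_mul hx (i2.trans (mul_le_mul_of_nonneg_right
                (pow_le_pow_right₀ h1 (Nat.le_of_succ_le hn)) (norm_nonneg _)))
                (norm_nonneg _) hR0) (by linarith only [hb])
          _ = R * (1 + δ * b) ^ N * (1 + b) * ‖a3_F q m 1‖ := by ring
          _ ≤ _ := mul_le_mul_of_nonneg_right hR (norm_nonneg _)
      have u2 : ‖a3_F q m 1‖ ≤ ‖a3_F q (x :: m) 1‖ + ‖x * a3_F q m (q * 1)‖ := by
        have := norm_sub_le (a3_F q (x :: m) 1) (x * a3_F q m (q * 1))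
        rwa [← e2] at this
      have u3 : ‖x * a3_F q m (q * 1)‖ ≤ b * ‖a3_F q (x :: m) 1‖ := by
        linarith only [u1, mul_le_mul_of_nonneg_left u2 hb.le]
      refine ⟨fun h0 => i1 ?_, ?_⟩
      · rw [h0, norm_zero] at u2 u3
        exact norm_le_zero_iff.1 (by linarith only [u2, u3])
      · rw [e1]
        refine (norm_add_le _ _).trans ?_
        rw [norm_mul]
        linarith only [mul_le_mul hδ u3 (norm_nonneg _) hδ0]
    have inner : ∀ l1 l2 : List ℂ, (l1 ++ l2).length = n + 1 → (∀ x ∈ l1 ++ l2, ‖x‖ ≤ R) →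
        ‖a3_F q (l1.map (q * ·) ++ l2) 1‖ ≤
          (1 + δ * b) ^ l1.length * ‖a3_F q (l1 ++ l2) 1‖ := by
      intro l1
      induction l1 with
      | nil =>
        intro l2 _ _
        rw [List.length_nil, pow_zero, one_mul]
        exact le_rfl
      | cons x l1 ih1 =>
        intro l2 hl hx
        have p1 : (l1 ++ x :: l2).Perm (x :: l1 ++ l2) := List.perm_middle
        have a1 := ih1 (x :: l2) (p1.length_eq.trans hl) fun y hy => hx y (p1.subset hy)
        rw [a3_perm q p1, a3_perm q List.perm_middle] at a1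
        have a2 := (step x (l1.map (q * ·) ++ l2) (by simpa using hl)
          (hx x List.mem_cons_self) fun y hy => ?_).2
        · rw [List.length_cons, pow_succ', mul_assoc]
          exact a2.trans (mul_le_mul_of_nonneg_left a1 (zero_le_one.trans h1))
        · rcases List.mem_append.1 hy with hy | hy
          · obtain ⟨w, hw, rfl⟩ := List.mem_map.1 hy
            rw [norm_mul]
            exact (mul_le_of_le_one_left (norm_nonneg _) hq).trans
              (hx w (List.mem_cons_of_mem _ (List.mem_append_left _ hw)))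
          · exact hx y (List.mem_cons_of_mem _ (List.mem_append_right _ hy))
    intro l hl hx
    constructor
    · obtain ⟨x, m, rfl⟩ := List.exists_cons_of_length_eq_add_one hl
      exact (step x m (by simpa using hl) (hx x List.mem_cons_self)
        fun y hy => hx y (List.mem_cons_of_mem _ hy)).1
    · have := inner l [] (by rwa [List.append_nil]) (by rwa [List.append_nil])
      rwa [List.append_nil, List.append_nil, hl] at this

/-- A zero free disc, by a Dobrushin type induction. -/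
theorem zero_free {q z : ℂ} {N : ℕ} {δ b R : ℝ} (hq : ‖q‖ ≤ 1) (hδ : ‖q - 1‖ ≤ δ) (hb : 0 < b)
    (hR : R * (1 + δ * b) ^ N * (1 + b) ≤ b) (hz : ‖z‖ ≤ R) : pc q N z ≠ 0 := by
  have := (a3_ind hq hδ hb hR N le_rfl (List.replicate N z) List.length_replicate
    fun x hx => by rwa [List.eq_of_mem_replicate hx]).1
  rwa [a3_rep, one_mul] at this

/-- For q near one there is no root of small variance. -/
theorem onePer_small (hA : Asym) {N N0 : ℕ} (h0 : 40 ≤ N0) (hN : N0 ≤ N) {τ τa Z β : ℝ}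
    (h1 : 0 < τ) (h2 : τ ≤ τa) (hZ : 0 ≤ Z) (hβ : 0 < β) (h3 : 4 * τa * β ≤ 64)
    (h4 : Z * (1 + β / N0) ≤ β * (1 - 4 * τa * β / 64) ^ 64) (h5 : 7 * (1 + Z / N0) ^ 2 ≤ Z) :
    OnePer (qq τ) N := by
  have n0 : (0 : ℝ) < N0 := by exact_mod_cast (by omega : 0 < N0)
  have n1 : (N0 : ℝ) ≤ N := by exact_mod_cast hN
  have n2 : (0 : ℝ) < N := n0.trans_le n1
  have z0 : 0 ≤ Z / N := div_nonneg hZ n2.le
  have x0 : 0 ≤ 4 * τa * β := mul_nonneg (by linarith only [h1, h2]) hβ.le
  refine onePer_of_inside hA (h0.trans hN) (norm_qq τ) (qq_ne_one h1) z0 ?_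
    fun z w hz _ _ hR => absurd hz (zero_free (δ := 4 * τa) (norm_qq τ).le
      ((norm_qq_sub_one h1.le).trans (by linarith only [h2])) (div_pos hβ n2) ?_ hR.le)
  · rw [mul_div_cancel₀ _ n2.ne']
    refine le_trans (mul_le_mul_of_nonneg_left (pow_le_pow_left₀ (by linarith only [z0]) ?_ 2)
      (by norm_num)) h5
    linarith only [div_le_div_of_nonneg_left hZ n0 n1]
  · have a1 : (1 + 4 * τa * (β / N)) ^ N ≤ Real.exp (4 * τa * β) := by
      have e : 4 * τa * β = N * (4 * τa * (β / N)) := by field_simp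
      rw [e, Real.exp_nat_mul]
      have := mul_nonneg (by linarith only [h1, h2] : 0 ≤ 4 * τa) (div_pos hβ n2).le
      exact pow_le_pow_left₀ (by linarith only [this])
        (by linarith only [Real.add_one_le_exp (4 * τa * (β / N))]) N
    have a2 : (1 - 4 * τa * β / 64) ^ 64 ≤ Real.exp (-(4 * τa * β)) := by
      have := Real.one_sub_div_pow_le_exp_neg (n := 64) (t := 4 * τa * β) (by exact_mod_cast h3)
      exact_mod_cast this
    have a3 : Z * (1 + β / N) ≤ β * Real.exp (-(4 * τa * β)) :=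
      (mul_le_mul_of_nonneg_left
        (by linarith only [div_le_div_of_nonneg_left hβ.le n0 n1]) hZ).trans
        (h4.trans (mul_le_mul_of_nonneg_left a2 hβ.le))
    have b0 : 0 ≤ 1 + β / N := by linarith only [div_pos hβ n2]
    calc _ ≤ Z / N * Real.exp (4 * τa * β) * (1 + β / N) :=
          mul_le_mul_of_nonneg_right (mul_le_mul_of_nonneg_left a1 z0) b0
      _ = Z * (1 + β / N) * Real.exp (4 * τa * β) / N := by ring
      _ ≤ β * Real.exp (-(4 * τa * β)) * Real.exp (4 * τa * β) / N :=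
          div_le_div_of_nonneg_right (mul_le_mul_of_nonneg_right a3 (Real.exp_pos _).le) n2.le
      _ = _ := by rw [mul_assoc, ← Real.exp_add, neg_add_cancel, Real.exp_zero, mul_one]

theorem a3_neg_one (N : ℕ) (z : ℂ) : 2 * pc (-1) N z =
    (1 - Complex.I) * (1 + Complex.I * z) ^ N + (1 + Complex.I) * (1 - Complex.I * z) ^ N := by
  induction N generalizing z with
  | zero => simp [pc]; ring
  | succ N ih =>
    have h1 := ih z
    have h2 := ih (-1 * z)
    rw [show 1 + Complex.I * (-1 * z) = 1 - Complex.I * z by ring,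
      show 1 - Complex.I * (-1 * z) = 1 + Complex.I * z by ring] at h2
    rw [pc_succ, pow_succ, pow_succ]
    linear_combination h1 + z * h2 +
      (z * (1 + Complex.I * z) ^ N + z * (1 - Complex.I * z) ^ N) * Complex.I_mul_I

theorem a3_arctan (x : ℝ) : |Real.arctan x| ≤ |x| := by
  have key : ∀ y : ℝ, 0 ≤ y → Real.arctan y ≤ y := fun y hy => by
    have := Real.le_tan (Real.arctan_nonneg.2 hy) (Real.arctan_lt_pi_div_two y)
    rwa [Real.tan_arctan] at this
  rcases le_total 0 x with h | h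
  · rw [abs_of_nonneg h, abs_of_nonneg (Real.arctan_nonneg.2 h)]
    exact key x h
  · rw [abs_of_nonpos h, abs_of_nonpos (Real.arctan_le_zero.2 h), ← Real.arctan_neg]
    exact key _ (neg_nonneg.2 h)

theorem a3_polar (x : ℝ) : (1 + Complex.I * x) * (Real.cos (Real.arctan x) : ℝ) =
    Complex.exp (Real.arctan x * Complex.I) := by
  have h1 : x * Real.cos (Real.arctan x) = Real.sin (Real.arctan x) := by
    have := Real.tan_mul_cos (Real.cos_arctan_pos x).ne'
    rwa [Real.tan_arctan] at this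
  rw [Complex.exp_mul_I, ← Complex.ofReal_cos, ← Complex.ofReal_sin, ← h1, Complex.ofReal_mul]
  ring

/-- The roots for q = -1. -/
theorem a3_root {N : ℕ} (hN : 1 ≤ N) {z : ℂ} (h : pc (-1) N z = 0) : ∃ k : ℤ,
    z = (Real.tan ((4 * k - 1) * Real.pi / (4 * N)) : ℝ) ∧
      |(4 * k - 1 : ℝ)| * Real.pi ≤ 4 * (N * ‖z‖) := by
  have h1 := a3_neg_one N z
  rw [h, mul_zero] at h1
  have h2 : (1 + Complex.I * z) ^ N = -Complex.I * (1 - Complex.I * z) ^ N := by
    linear_combination (-(1 + Complex.I) / 2) * h1 +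
      ((1 + Complex.I * z) ^ N / 2 - (1 - Complex.I * z) ^ N / 2) * Complex.I_mul_I
  have h3 : ‖1 + Complex.I * z‖ = ‖1 - Complex.I * z‖ := by
    have := congrArg norm h2
    rw [norm_mul, norm_neg, Complex.norm_I, one_mul, norm_pow, norm_pow] at this
    exact (pow_left_inj₀ (norm_nonneg _) (norm_nonneg _) (by omega)).1 this
  have h4 : z.im = 0 := by
    have := congrArg (· ^ 2) h3
    simp only [Complex.sq_norm, Complex.normSq_apply] at this
    simp at this
    linarith only [this]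
  obtain ⟨x, rfl⟩ : ∃ x : ℝ, z = x := ⟨z.re, Complex.ext rfl h4⟩
  have p1 := a3_polar x
  have p2 := a3_polar (-x)
  rw [Real.arctan_neg, Real.cos_neg, Complex.ofReal_neg, mul_neg, ← sub_eq_add_neg] at p2
  have h5 : Complex.exp (N * (Real.arctan x * Complex.I)) =
      Complex.exp (-(Real.pi / 2 * Complex.I) + N * ((-Real.arctan x : ℝ) * Complex.I)) := by
    rw [Complex.exp_add, Complex.exp_nat_mul, Complex.exp_nat_mul, ← p1, ← p2, mul_pow, mul_pow,
      h2, Complex.exp_neg, Complex.exp_pi_div_two_mul_I, Complex.inv_I, mul_assoc]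
  obtain ⟨k, hk⟩ := Complex.exp_eq_exp_iff_exists_int.1 h5
  have h6 : 4 * (N * Real.arctan x) = (4 * k - 1) * Real.pi := by
    generalize Real.arctan x = y at hk
    have := congrArg Complex.im hk
    simp at this
    linarith only [this]
  have n0 : (0 : ℝ) < N := by exact_mod_cast hN
  refine ⟨k, ?_, ?_⟩
  · rw [← h6, ← mul_assoc, mul_div_cancel_left₀ _ (by positivity), Real.tan_arctan]
  · rw [← abs_of_pos Real.pi_pos, ← abs_mul, ← h6, abs_mul, abs_mul, abs_of_pos n0,
      Complex.norm_real, Real.norm_eq_abs, abs_of_pos (by norm_num : (0 : ℝ) < 4)]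
    exact mul_le_mul_of_nonneg_left (mul_le_mul_of_nonneg_left (a3_arctan x) n0.le) (by norm_num)

/-- Counting the small roots for q = -1. -/
theorem cnt_start {N J : ℕ} (hN : 1 ≤ N) {ζ : ℂ} (h : pc (-1) N ζ = 0)
    (hJ : 200 * (N * ‖ζ‖) ≤ 157 * (2 * J + 1)) : Cnt (-1) N J ζ := by
  refine ⟨h, ?_⟩
  set S := {z | pc (-1) N z = 0 ∧ ‖z‖ < ‖ζ‖} with hS
  set K : Finset ℤ := Ioc ((J : ℤ) / 2 - J) ((J : ℤ) / 2) with hK
  set f : ℤ → ℂ := fun k => (Real.tan ((4 * k - 1) * Real.pi / (4 * N)) : ℝ) with hf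
  have key : ∀ z, pc (-1) N z = 0 → ‖z‖ ≤ ‖ζ‖ → z ∈ f '' (K : Set ℤ) := by
    intro z hz hle
    obtain ⟨k, e, hk⟩ := a3_root hN hz
    refine ⟨k, ?_, e.symm⟩
    have a1 := mul_le_mul_of_nonneg_left hle (Nat.cast_nonneg (α := ℝ) N)
    have a2 : (3.14 : ℝ) * (2 * J + 1) < Real.pi * (2 * J + 1) :=
      mul_lt_mul_of_pos_right Real.pi_gt_d2 (by positivity)
    have a3 : |(4 * k - 1 : ℝ)| < 2 * J + 1 :=
      lt_of_mul_lt_mul_right (by linarith only [hk, a1, a2, hJ]) Real.pi_pos.le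
    have a4 : |4 * k - 1| < 2 * (J : ℤ) + 1 := by exact_mod_cast a3
    rw [abs_lt] at a4
    rw [mem_coe, hK, mem_Ioc]
    omega
  have sub : insert ζ S ⊆ f '' (K : Set ℤ) :=
    Set.insert_subset (key ζ h le_rfl) fun z hz => key z hz.1 hz.2.le
  have fin : (f '' (K : Set ℤ)).Finite := K.finite_toSet.image f
  have c1 := (Set.ncard_le_ncard sub fin).trans (Set.ncard_image_le K.finite_toSet)
  rw [Set.ncard_insert_of_notMem (fun hz => lt_irrefl _ hz.2)
    (fin.subset ((Set.subset_insert _ _).trans sub)), Set.ncard_coe_finset, hK, Int.card_Ioc] at c1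
  omega

end Pool.Agent.Sok
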