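import Pool.Agent.Sok.TB
import Pool.Agent.Sok.EA3

/-! Zero free regions from the induction on the number of sites, and elementary constraints. -/

set_option autoImplicit false

namespace Pool.Agent.Sok

open Complex Pool.Agent.MP_97ada9_an

namespace Par

variable (P : Par)

/-- the centred logarithm of the argument of the polynomial -/
noncomputable def xi0 (T : ℝ) : ℂ :=
  ⟨Real.log (P.p / (1 - P.p)), T + 2 * P.lamU - 4 * P.lamU * P.p⟩

theorem b1a_exp (T : ℝ) : exp (P.xi0 T - I * (P.N - 1) * (P.δ / 2)) =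
    (P.p / (1 - P.p) : ℝ) * exp (I * (T + P.δ / 2 - P.N * P.δ * P.p : ℝ)) := by
  rw [← Real.exp_log (div_pos P.hp0 P.q_pos), ofReal_exp, ← exp_add, xi0, mk_eq_add_mul_I, lamU]
  congr 1
  push_cast
  ring

/-- a zero of `S` is a zero of the polynomial -/
theorem S_pc {T : ℝ} (h : P.S T = 0) :
    pc (exp (I * P.δ)) P.N (exp (P.xi0 T - I * (P.N - 1) * (P.δ / 2))) = 0 := by
  have hq : (1 - P.p : ℂ) ≠ 0 := by exact_mod_cast P.q_pos.ne'
  have key : P.S T = (1 - P.p) ^ P.N * exp (I * P.δ * (P.N * P.p) ^ 2 / 2 - I * T * (P.N * P.p)) *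
      pc (exp (I * P.δ)) P.N (exp (P.xi0 T - I * (P.N - 1) * (P.δ / 2))) := by
    rw [b1a_exp, S, pc, Finset.mul_sum]
    refine Finset.sum_congr rfl fun n hn => ?_
    have h1 : exp (I * P.δ * (n - P.N * P.p) ^ 2 / 2 + I * T * (n - P.N * P.p)) =
        exp (I * P.δ * (P.N * P.p) ^ 2 / 2 - I * T * (P.N * P.p)) * (exp (I * P.δ) ^ n.choose 2 *
          exp (I * (T + P.δ / 2 - P.N * P.δ * P.p : ℝ)) ^ n) := by
      rw [← exp_nat_mul, ← exp_nat_mul, ← exp_add, ← exp_add, Nat.cast_choose_two]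
      congr 1
      push_cast
      ring
    have h2 : (1 - P.p : ℂ) ^ P.N = (1 - P.p) ^ (P.N - n) * (1 - P.p) ^ n :=
      (pow_sub_mul_pow _ (Nat.lt_succ_iff.1 (Finset.mem_range.1 hn))).symm
    have h3 : (1 - P.p : ℂ) ^ n * ((P.p / (1 - P.p) : ℝ) : ℂ) ^ n = P.p ^ n := by
      rw [← mul_pow]
      push_cast
      rw [mul_div_cancel₀ _ hq]
    rw [h1, h2, mul_pow, ← h3]
    ring
  rw [h] at key
  exact (mul_eq_zero.1 key.symm).resolve_left (mul_ne_zero (pow_ne_zero _ hq) (exp_ne_zero _))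

/-- no zeros on the left of the turning point -/
theorem dobL (hδ : 0 < P.δ) (h : P.vre * ((1 + P.kap) * (1 + P.k2)) ≤ -(2 * P.kap * (1 - P.kap)))
    (T : ℝ) : P.S T ≠ 0 := by
  have hk := kap_pos hδ
  have hk1 : 0 < 1 - P.kap := sub_pos.2 P.kap_lt
  have hk2 := P.k2_nonneg
  have hp := P.hp0
  have hq := P.q_pos
  have hb : 0 < (1 - P.kap) / (2 * P.kap) := by positivity
  refine fun h0 => zero_free (δ := P.δ) (R := P.p / (1 - P.p)) (norm_exp_I_mul_ofReal _).le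
    (Real.norm_exp_I_mul_ofReal_sub_one_le.trans (Real.norm_of_nonneg hδ.le).le) hb ?_ ?_
    (P.S_pc h0)
  · have h1 : P.N * (P.δ * ((1 - P.kap) / (2 * P.kap))) * ((1 + P.kap) * (1 + P.k2)) =
        4 * P.kap := by
      have := P.lamU_k2
      rw [lamU, ← P.kap_sq] at this
      rw [← P.kap_sq]
      field_simp
      linear_combination 4 * this
    have h2 : P.N * (P.δ * ((1 - P.kap) / (2 * P.kap))) ≤ 2 * P.kap / (1 + P.k2) - P.vre := by
      refine le_of_mul_le_mul_right ?_ (show 0 < (1 + P.kap) * (1 + P.k2) by positivity)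
      have : 2 * P.kap / (1 + P.k2) * ((1 + P.kap) * (1 + P.k2)) = 2 * P.kap * (1 + P.kap) := by
        field_simp
      rw [h1, sub_mul, this]
      linarith
    have h3 : (1 + P.δ * ((1 - P.kap) / (2 * P.kap))) ^ P.N ≤
        Real.exp (2 * P.kap / (1 + P.k2) - P.vre) := by
      refine le_trans ?_ (Real.exp_le_exp.2 h2)
      rw [Real.exp_nat_mul]
      exact pow_le_pow_left₀ (by positivity) (add_comm (1 : ℝ) _ ▸ Real.add_one_le_exp _) _
    have h4 := P.exp_vre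
    refine (mul_le_mul_of_nonneg_right (mul_le_mul_of_nonneg_left h3 (div_pos hp hq).le)
      (by positivity)).trans (le_of_eq ?_)
    generalize Real.exp (2 * P.kap / (1 + P.k2) - P.vre) = e at h4 ⊢
    field_simp at h4 ⊢
    linear_combination -h4
  · rw [b1a_exp, norm_mul, norm_exp_I_mul_ofReal, mul_one, norm_real,
      Real.norm_of_nonneg (div_pos hp hq).le]

end Par

theorem b1b_cosh (x : ℝ) : 1 + x ^ 2 / 2 ≤ Real.cosh x := by
  have h1 : Real.cosh x = 1 + 2 * Real.sinh (x / 2) ^ 2 := by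
    have h := Real.cosh_two_mul (x / 2)
    rw [show 2 * (x / 2) = x by ring, Real.cosh_sq] at h
    linarith
  have h2 : |x / 2| ≤ |Real.sinh (x / 2)| := by
    rw [Real.abs_sinh]; exact Real.self_le_sinh_iff.2 (abs_nonneg _)
  have h3 := sq_le_sq.2 h2
  nlinarith

theorem b1b_cos {y : ℝ} (h : |y| ≤ 9 / 10) : Real.cos y ≤ 1 - 4578 / 10000 * y ^ 2 := by
  have h1 := (abs_le.1 (Real.cos_bound (x := y) (by linarith))).2
  have h2 : y ^ 2 ≤ (9 / 10) ^ 2 := by rw [← sq_abs]; exact pow_le_pow_left₀ (abs_nonneg y) h 2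
  have h3 : |y| ^ 4 = y ^ 2 * y ^ 2 := by rw [← sq_abs]; ring
  rw [h3] at h1
  nlinarith [sq_nonneg y]

theorem b1b_gap {κ x y : ℝ} (h0 : 0 < κ) (h1 : κ ≤ 3 / 10) (hy : |y| ≤ Real.pi)
    (h : (293 / 100 * κ) ^ 2 ≤ x ^ 2 + y ^ 2) : 386 / 100 * κ ^ 2 ≤ Real.cosh x - Real.cos y := by
  have h2 := b1b_cosh x
  rcases le_total |y| (9 / 10) with h3 | h3
  · have h4 := b1b_cos h3
    nlinarith [sq_nonneg x, sq_nonneg κ]
  · have h4 : Real.cos y ≤ Real.cos (9 / 10) := by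
      rw [← Real.cos_abs y]
      exact Real.cos_le_cos_of_nonneg_of_le_pi (by norm_num) hy h3
    have h5 := b1b_cos (y := 9 / 10) (by rw [abs_of_pos (by norm_num)])
    nlinarith [sq_nonneg x]

/-- Elementary bound for `tanh (ξ/2) = (e^ξ - 1)/(e^ξ + 1)` away from its poles. -/
theorem dob_tanh {κ : ℝ} (h0 : 0 < κ) (h1 : κ ≤ 3 / 10) {ξ : ℂ}
    (h : ∀ k : ℤ, 293 / 100 * κ ≤ ‖ξ - (2 * k + 1) * Real.pi * I‖) :
    exp ξ + 1 ≠ 0 ∧ κ * ‖exp ξ - 1‖ ≤ 39 / 50 * ‖exp ξ + 1‖ := by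
  have hpi := Real.pi_pos
  obtain ⟨k, hk1, hk2⟩ : ∃ k : ℤ, k * (2 * Real.pi) ≤ ξ.im ∧ ξ.im < (k + 1) * (2 * Real.pi) :=
    ⟨⌊ξ.im / (2 * Real.pi)⌋, (le_div_iff₀ (by positivity)).1 (Int.floor_le _),
      (div_lt_iff₀ (by positivity)).1 (Int.lt_floor_add_one _)⟩
  obtain ⟨y, hy⟩ : ∃ y : ℝ, y = ξ.im - (2 * k + 1) * Real.pi := ⟨_, rfl⟩
  have hy1 : |y| ≤ Real.pi := by rw [abs_le]; constructor <;> linarith
  have h2 : ‖ξ - (2 * k + 1) * Real.pi * I‖ ^ 2 = ξ.re ^ 2 + y ^ 2 := by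
    rw [Complex.sq_norm, Complex.normSq_apply, hy]; simp; ring
  have h3 := b1b_gap (x := ξ.re) h0 h1 hy1
    (h2 ▸ pow_le_pow_left₀ (by positivity) (h k) 2)
  have hc : Real.cos ξ.im = -Real.cos y := by
    rw [show ξ.im = y + Real.pi + k * (2 * Real.pi) by rw [hy]; ring,
      Real.cos_add_int_mul_two_pi, Real.cos_add_pi]
  have hE := Real.exp_pos ξ.re
  have hch : Real.exp ξ.re ^ 2 + 1 = 2 * Real.exp ξ.re * Real.cosh ξ.re := by
    rw [Real.cosh_eq, Real.exp_neg]; field_simp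
  have hsc := Real.sin_sq_add_cos_sq ξ.im
  have e1 : ‖exp ξ + 1‖ ^ 2 = 2 * Real.exp ξ.re * (Real.cosh ξ.re - Real.cos y) := by
    rw [Complex.sq_norm, Complex.normSq_apply]
    simp only [add_re, add_im, exp_re, exp_im, one_re, one_im, add_zero]
    rw [hc] at hsc ⊢
    linear_combination hch + Real.exp ξ.re ^ 2 * hsc
  have e2 : ‖exp ξ - 1‖ ^ 2 = 2 * Real.exp ξ.re * (Real.cosh ξ.re + Real.cos y) := by
    rw [Complex.sq_norm, Complex.normSq_apply]
    simp only [sub_re, sub_im, exp_re, exp_im, one_re, one_im, sub_zero]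
    rw [hc] at hsc ⊢
    linear_combination hch + Real.exp ξ.re ^ 2 * hsc
  have hk0 : 0 < κ ^ 2 := by positivity
  constructor
  · intro h0'
    rw [h0', norm_zero] at e1
    have : 0 < 2 * Real.exp ξ.re * (Real.cosh ξ.re - Real.cos y) :=
      mul_pos (by positivity) (by linarith)
    have h9 : (0 : ℝ) ^ 2 = 0 := by norm_num
    linarith
  · refine (pow_le_pow_iff_left₀ (by positivity) (by positivity) two_ne_zero).1 ?_
    rw [mul_pow, mul_pow, e1, e2]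
    have h4 : κ ^ 2 ≤ 9 / 100 := by nlinarith
    have h5 : κ ^ 2 * (Real.cosh ξ.re + Real.cos y)
        ≤ (39 / 50) ^ 2 * (Real.cosh ξ.re - Real.cos y) := by
      have h6 := Real.cos_le_one y
      have h7 : κ ^ 2 * (Real.cosh ξ.re - Real.cos y) ≤ 9 / 100 * (Real.cosh ξ.re - Real.cos y) :=
        mul_le_mul_of_nonneg_right h4 (by linarith)
      nlinarith
    nlinarith

theorem b1b_log {z : ℂ} (h : ‖z‖ ≤ 121 / 10000) : ‖log (1 + z) - z‖ ≤ 62 / 10000 * ‖z‖ := by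
  refine (Complex.norm_log_one_add_sub_self_le (by linarith)).trans ?_
  have h1 : (1 - ‖z‖)⁻¹ ≤ 1013 / 1000 := by
    rw [inv_le_comm₀ (by linarith) (by norm_num)]; linarith
  have h2 := norm_nonneg z
  have h3 : ‖z‖ ^ 2 * (1 - ‖z‖)⁻¹ ≤ ‖z‖ ^ 2 * (1013 / 1000) :=
    mul_le_mul_of_nonneg_left h1 (by positivity)
  nlinarith

/-- One exchange multiplies the value by `exp (i h + θ)` with `θ` small. -/
theorem dob_step {h M : ℝ} (h0 : 0 ≤ h) (hM : 1 ≤ M) (h1 : M * h ≤ 3 / 125) {ξ : ℂ}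
    (h2 : exp ξ + 1 ≠ 0) (h3 : ‖exp ξ - 1‖ ≤ M * ‖exp ξ + 1‖) :
    1 + exp (ξ - I * h) ≠ 0 ∧ ∃ θ : ℂ, ‖θ‖ ≤ 1007 / 1000 * (M * h) ∧
      1 + exp (ξ + I * h) = exp (I * h + θ) * (1 + exp (ξ - I * h)) := by
  have hh : h ≤ 3 / 125 := by nlinarith
  have hc : 99992 / 100000 ≤ Real.cos (h / 2) := by
    have := Real.one_sub_sq_div_two_le_cos (x := h / 2)
    nlinarith
  have hs0 : 0 ≤ Real.sin (h / 2) :=
    Real.sin_nonneg_of_nonneg_of_le_pi (by linarith) (by linarith [Real.pi_gt_three])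
  have hs : Real.sin (h / 2) ≤ h / 2 := Real.sin_le (by linarith)
  obtain ⟨c, hcd⟩ : ∃ c : ℝ, c = Real.cos (h / 2) := ⟨_, rfl⟩
  obtain ⟨s, hsd⟩ : ∃ s : ℝ, s = Real.sin (h / 2) := ⟨_, rfl⟩
  have eu : exp (I * h / 2) = c + s * I := by
    rw [hcd, hsd, ofReal_cos, ofReal_sin, ← exp_mul_I]; congr 1; push_cast; ring
  have ev : exp (-(I * h / 2)) = c - s * I := by
    rw [hcd, hsd, ofReal_cos, ofReal_sin, cos_sub_sin_I]; congr 1; push_cast; ring
  rw [← hcd] at hc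
  rw [← hsd] at hs hs0
  have hc0 : (c : ℂ) ≠ 0 := ofReal_ne_zero.2 (by linarith)
  obtain ⟨z, hz⟩ : ∃ z : ℂ, z = I * ((exp ξ - 1) / (exp ξ + 1) * (s / c)) := ⟨_, rfl⟩
  have hn : 0 < ‖exp ξ + 1‖ := norm_pos_iff.2 h2
  have hz1 : ‖z‖ ≤ 50005 / 100000 * (M * h) := by
    rw [hz, norm_mul, norm_I, one_mul, norm_mul, norm_div, norm_div, norm_real, norm_real,
      Real.norm_of_nonneg hs0, Real.norm_of_nonneg (by linarith)]
    have a1 : ‖exp ξ - 1‖ / ‖exp ξ + 1‖ ≤ M := (div_le_iff₀ hn).2 h3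
    have a2 : s / c ≤ 50005 / 100000 * h := by
      rw [div_le_iff₀ (by linarith)]; nlinarith
    refine (mul_le_mul a1 a2 (div_nonneg hs0 (by linarith)) (by linarith)).trans (le_of_eq ?_)
    ring
  have hz2 : ‖z‖ ≤ 121 / 10000 := by linarith
  have hp : 1 + z ≠ 0 := fun h' => by
    rw [show z = -1 by linear_combination h', norm_neg, norm_one] at hz2; linarith
  have hm : 1 + -z ≠ 0 := fun h' => by
    rw [show z = 1 by linear_combination -h', norm_one] at hz2; linarith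
  have huv : exp (I * h / 2) * exp (-(I * h / 2)) = 1 := by rw [← exp_add]; simp
  have hu2 : exp (I * h) = exp (I * h / 2) * exp (I * h / 2) := by
    rw [← exp_add]; congr 1; ring
  have hv2 : exp (-(I * h)) = exp (-(I * h / 2)) * exp (-(I * h / 2)) := by
    rw [← exp_add]; congr 1; ring
  have hzc : (exp ξ + 1) * c * z = I * (exp ξ - 1) * s := by rw [hz]; field_simp
  have f1 : 1 + exp (ξ + I * h) = exp (I * h / 2) * ((exp ξ + 1) * c * (1 + z)) := by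
    rw [exp_add, hu2]
    have : (exp ξ + 1) * c * (1 + z) = exp (-(I * h / 2)) + exp ξ * exp (I * h / 2) := by
      rw [ev, eu]; linear_combination hzc
    rw [this]; linear_combination -huv
  have f2 : 1 + exp (ξ - I * h) = exp (-(I * h / 2)) * ((exp ξ + 1) * c * (1 + -z)) := by
    rw [sub_eq_add_neg, exp_add, hv2]
    have : (exp ξ + 1) * c * (1 + -z) = exp (I * h / 2) + exp ξ * exp (-(I * h / 2)) := by
      rw [ev, eu]; linear_combination -hzc
    rw [this]; linear_combination -huv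
  refine ⟨by rw [f2]; exact mul_ne_zero (exp_ne_zero _) (mul_ne_zero (mul_ne_zero h2 hc0) hm),
    log (1 + z) - log (1 + -z), ?_, ?_⟩
  · have a1 := b1b_log hz2
    have a2 := b1b_log (z := -z) (by rwa [norm_neg])
    rw [norm_neg] at a2
    have a3 : log (1 + z) - log (1 + -z)
        = (log (1 + z) - z) - (log (1 + -z) - -z) + 2 * z := by ring
    have a4 : ‖(2 : ℂ) * z‖ = 2 * ‖z‖ := by rw [norm_mul]; simp
    rw [a3]
    refine (norm_add_le _ _).trans ?_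
    have a5 := norm_sub_le (log (1 + z) - z) (log (1 + -z) - -z)
    have a6 : 0 ≤ M * h := by positivity
    linarith
  · rw [f1, f2, exp_add, exp_sub, exp_log hp, exp_log hm, hu2]
    field_simp
    linear_combination -huv

theorem b1c_q {N : ℕ} {h ρ : ℝ} {ξ0 : ℂ} (h0 : 0 ≤ h) (h1 : h ≤ ρ)
    (H : ∀ ξ : ℂ, ‖ξ - ξ0‖ ≤ N * ρ →
      ∃ θ : ℂ, ‖θ‖ ≤ ρ ∧ 1 + exp (ξ + I * h) = exp (I * h + θ) * (1 + exp (ξ - I * h)))
    {q : ℂ} (hq : q = exp (I * h + I * h)) (n : ℕ) :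
    ∀ l : List ℂ, l.length = n →
      (∀ x ∈ l, ∃ θ : ℂ, ‖θ‖ ≤ (N - n - 1) * ρ ∧ x = exp (ξ0 - I * n * h + θ)) →
      ∃ θ : ℂ, ‖θ‖ ≤ n * ρ ∧ a3_F q l q = exp (I * n * h + θ) * a3_F q l 1 := by
  have hn : ‖I * (h : ℂ)‖ ≤ ρ := by
    rwa [norm_mul, norm_I, one_mul, norm_real, Real.norm_of_nonneg h0]
  induction n with
  | zero =>
    intro l hl _
    obtain rfl := List.length_eq_zero_iff.1 hl
    exact ⟨0, by simp, by simp [a3_F]⟩
  | succ n ih =>
    have step : ∀ (x : ℂ) (m : List ℂ), m.length = n →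
        (∃ θ : ℂ, ‖θ‖ ≤ (N - (n + 1) - 1) * ρ ∧ x = exp (ξ0 - I * (n + 1) * h + θ)) →
        (∀ y ∈ m, ∃ θ : ℂ, ‖θ‖ ≤ (N - n - 1) * ρ ∧ y = exp (ξ0 - I * n * h + θ)) →
        ∃ θ : ℂ, ‖θ‖ ≤ ρ ∧ a3_F q (q * x :: m) 1 = exp (I * h + θ) * a3_F q (x :: m) 1 := by
      rintro x m hm ⟨a, a1, rfl⟩ hy
      obtain ⟨b, b1, b2⟩ := ih m hm hy
      obtain ⟨c, c1, c2⟩ := H (ξ0 + (a + b)) (by
        rw [add_sub_cancel_left]
        linarith only [norm_add_le a b, a1, b1, h0, h1])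
      refine ⟨c, c1, ?_⟩
      have e1 : exp (ξ0 - I * (n + 1) * h + a) * exp (I * n * h + b) =
          exp (ξ0 + (a + b) - I * h) := by
        rw [← exp_add]; exact congrArg exp (by ring)
      have e2 : q * exp (ξ0 + (a + b) - I * h) = exp (ξ0 + (a + b) + I * h) := by
        rw [hq, ← exp_add]; exact congrArg exp (by ring)
      rw [a3_cons, a3_cons, mul_one, b2]
      linear_combination a3_F q m 1 * c2 + (q - exp (I * h + c)) * a3_F q m 1 * e1 +
        a3_F q m 1 * e2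
    have inner : ∀ l1 l2 : List ℂ, (l1 ++ l2).length = n + 1 →
        (∀ x ∈ l1 ++ l2, ∃ θ : ℂ, ‖θ‖ ≤ (N - (n + 1) - 1) * ρ ∧
          x = exp (ξ0 - I * (n + 1) * h + θ)) →
        ∃ θ : ℂ, ‖θ‖ ≤ l1.length * ρ ∧
          a3_F q (l1.map (q * ·) ++ l2) 1 = exp (I * l1.length * h + θ) * a3_F q (l1 ++ l2) 1 := by
      intro l1
      induction l1 with
      | nil =>
        intro l2 _ _
        exact ⟨0, by simp, by simp⟩
      | cons x l1 ih1 =>
        intro l2 hl hx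
        have p1 : (l1 ++ x :: l2).Perm (x :: l1 ++ l2) := List.perm_middle
        obtain ⟨a, a1, a2⟩ :=
          ih1 (x :: l2) (p1.length_eq.trans hl) fun y hy => hx y (p1.subset hy)
        rw [a3_perm q p1, a3_perm q List.perm_middle] at a2
        obtain ⟨b, b1, b2⟩ := step x (l1.map (q * ·) ++ l2) (by simpa using hl)
          (hx x List.mem_cons_self) (fun y hy => by
            rcases List.mem_append.1 hy with hy | hy
            · obtain ⟨w, hw, rfl⟩ := List.mem_map.1 hy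
              obtain ⟨c, c1, rfl⟩ := hx w (List.mem_cons_of_mem _ (List.mem_append_left _ hw))
              refine ⟨c + I * h, by linarith only [norm_add_le c (I * h), c1, hn], ?_⟩
              rw [hq, ← exp_add]; exact congrArg exp (by ring)
            · obtain ⟨c, c1, rfl⟩ := hx y (List.mem_cons_of_mem _ (List.mem_append_right _ hy))
              exact ⟨c - I * h, by linarith only [norm_sub_le c (I * h), c1, hn],
                congrArg exp (by ring)⟩)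
        refine ⟨a + b, ?_, ?_⟩
        · rw [List.length_cons, Nat.cast_succ]
          linarith only [norm_add_le a b, a1, b1]
        · rw [List.map_cons, List.cons_append, b2, a2, ← mul_assoc, ← exp_add, List.length_cons,
            Nat.cast_succ]
          exact congrArg (fun z => exp z * _) (by ring)
    intro l hl hx
    have := inner l [] (by rwa [List.append_nil]) (by
      rw [List.append_nil]; simpa only [Nat.cast_succ] using hx)
    rwa [List.append_nil, List.append_nil, hl, a3_map, mul_one] at this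

theorem b1c_p {N : ℕ} {h ρ : ℝ} {ξ0 : ℂ} (h0 : 0 ≤ h) (h1 : h ≤ ρ)
    (H : ∀ ξ : ℂ, ‖ξ - ξ0‖ ≤ N * ρ → exp ξ + 1 ≠ 0 ∧
      ∃ θ : ℂ, ‖θ‖ ≤ ρ ∧ 1 + exp (ξ + I * h) = exp (I * h + θ) * (1 + exp (ξ - I * h)))
    {q : ℂ} (hq : q = exp (I * h + I * h)) (n : ℕ) :
    ∀ l : List ℂ, l.length = n →
      (∀ x ∈ l, ∃ θ : ℂ, ‖θ‖ ≤ (N - n) * ρ ∧ x = exp (ξ0 - I * (n - 1) * h + θ)) →
      a3_F q l 1 ≠ 0 := by
  have hn : ‖I * (h : ℂ)‖ ≤ ρ := by
    rwa [norm_mul, norm_I, one_mul, norm_real, Real.norm_of_nonneg h0]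
  induction n with
  | zero =>
    intro l hl _
    obtain rfl := List.length_eq_zero_iff.1 hl
    exact one_ne_zero
  | succ n ih =>
    intro l hl hx
    obtain ⟨x, m, rfl⟩ := List.exists_cons_of_length_eq_add_one hl
    have hm : m.length = n := by simpa using hl
    have hx' : ∀ y ∈ x :: m, ∃ θ : ℂ, ‖θ‖ ≤ (N - n - 1) * ρ ∧ y = exp (ξ0 - I * n * h + θ) := by
      intro y hy
      obtain ⟨c, c1, rfl⟩ := hx y hy
      rw [Nat.cast_succ] at c1
      exact ⟨c, by linarith only [c1], congrArg exp (by rw [Nat.cast_succ]; ring)⟩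
    have i1 := ih m hm fun y hy => by
      obtain ⟨c, c1, rfl⟩ := hx' y (List.mem_cons_of_mem _ hy)
      exact ⟨c - I * h, by linarith only [norm_sub_le c (I * h), c1, hn], congrArg exp (by ring)⟩
    obtain ⟨b, b1, b2⟩ := b1c_q h0 h1 (fun ξ hξ => (H ξ hξ).2) hq n m hm
      fun y hy => hx' y (List.mem_cons_of_mem _ hy)
    obtain ⟨a, a1, rfl⟩ := hx' x List.mem_cons_self
    have c1 := (H (ξ0 + (a + b)) (by
      rw [add_sub_cancel_left]
      linarith only [norm_add_le a b, a1, b1, h0, h1])).1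
    have e1 : exp (ξ0 - I * n * h + a) * exp (I * n * h + b) = exp (ξ0 + (a + b)) := by
      rw [← exp_add]; exact congrArg exp (by ring)
    rw [a3_cons, mul_one, b2]
    exact fun e => mul_ne_zero c1 i1 (by linear_combination e - a3_F q m 1 * e1)

/-- Induction on the number of sites. -/
theorem dob_ind {N : ℕ} {h ρ : ℝ} {ξ0 : ℂ} (h0 : 0 ≤ h) (h1 : h ≤ ρ)
    (H : ∀ ξ : ℂ, ‖ξ - ξ0‖ ≤ N * ρ → exp ξ + 1 ≠ 0 ∧ 1 + exp (ξ - I * h) ≠ 0 ∧
      ∃ θ : ℂ, ‖θ‖ ≤ ρ ∧ 1 + exp (ξ + I * h) = exp (I * h + θ) * (1 + exp (ξ - I * h))) :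
    pc (exp (I * (2 * h : ℝ))) N (exp (ξ0 - I * (N - 1) * h)) ≠ 0 := by
  have := b1c_p h0 h1 (fun ξ hξ => ⟨(H ξ hξ).1, (H ξ hξ).2.2⟩) (q := exp (I * (2 * h : ℝ)))
    (congrArg exp (by push_cast; ring)) N (List.replicate N (exp (ξ0 - I * (N - 1) * h)))
    List.length_replicate fun x hx =>
      ⟨0, by simp, by rw [List.eq_of_mem_replicate hx, add_zero]⟩
  rwa [a3_rep, one_mul] at this

namespace Par

variable (P : Par)

/-- No zeros away from the poles. -/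
theorem dobD (hδ : 0 < P.δ) (hk : P.kap ≤ 3 / 10) {T : ℝ}
    (h : ∀ k : ℤ, 61 / 10 * P.kap ≤ ‖P.xi0 T - (2 * k + 1) * Real.pi * I‖) : P.S T ≠ 0 := by
  intro hS
  have hκ := kap_pos hδ
  have hk2 := P.kap_sq
  have hk9 : P.k2 ≤ 9 / 100 := by nlinarith
  have hk0 := P.k2_nonneg
  have hk4 : 9919 / 10000 ≤ 1 - P.k2 ^ 2 := by nlinarith
  obtain ⟨M, hMd⟩ : ∃ M : ℝ, M = 39 / 50 / P.kap := ⟨_, rfl⟩
  have hMk : M * P.kap = 39 / 50 := by rw [hMd]; field_simp
  have hM : 1 ≤ M := by rw [hMd, le_div_iff₀ hκ]; linarith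
  have hδ1 : 5 * (9919 / 10000) * P.δ ≤ P.kap ^ 2 := by
    have a1 := P.Xi_δ
    have a2 := P.Xi_ge
    nlinarith
  have hMh : M * (P.δ / 2) ≤ 3 / 125 := by
    have a1 : 5 * (9919 / 10000) * (M * P.δ) ≤ M * P.kap * P.kap := by nlinarith
    rw [hMk] at a1
    linarith
  have hN : (P.N : ℝ) * (1007 / 1000 * (M * (P.δ / 2))) ≤ 317 / 100 * P.kap := by
    have a1 := P.lamU_k2
    have a2 := P.lamU_nonneg
    have a3 : 9919 / 10000 * P.lamU ≤ 2 * P.kap ^ 2 := by nlinarith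
    have a4 : 9919 / 10000 * (M * P.lamU) ≤ 2 * (M * P.kap * P.kap) := by nlinarith
    have a5 : (P.N : ℝ) * (1007 / 1000 * (M * (P.δ / 2))) = 2014 / 1000 * (M * P.lamU) := by
      unfold lamU; ring
    rw [hMk] at a4
    rw [a5]; linarith
  have h0 : 0 ≤ P.δ / 2 := by linarith
  refine dob_ind (N := P.N) (h := P.δ / 2) (ρ := 1007 / 1000 * (M * (P.δ / 2))) (ξ0 := P.xi0 T)
    h0 (by nlinarith) (fun ξ hξ => ?_) ?_
  · obtain ⟨b1, b2⟩ := dob_tanh (ξ := ξ) hκ hk fun k => by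
      have c1 := h k
      have c2 := norm_sub_le_norm_sub_add_norm_sub (P.xi0 T) ξ ((2 * k + 1) * Real.pi * I)
      rw [norm_sub_rev (P.xi0 T) ξ] at c2
      linarith
    refine ⟨b1, dob_step h0 hM hMh b1 ?_⟩
    rw [hMd, div_mul_eq_mul_div, le_div_iff₀ hκ, mul_comm]; exact b2
  · have c1 := P.S_pc hS
    rw [show 2 * (P.δ / 2) = P.δ by ring, ofReal_div, ofReal_ofNat]
    exact c1

theorem b1a_log {k : ℝ} (h0 : 0 ≤ k) (h1 : k < 1) :
    2 * k ≤ Real.log ((1 + k) / (1 - k)) ∧ Real.log ((1 + k) / (1 - k)) ≤ 2 * k / (1 - k ^ 2) := by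
  have h2 : 0 < 1 - k := sub_pos.2 h1
  have h3 : 0 < 1 + k := by linarith
  have h4 : 2 * k ≤ Real.log ((1 + k) / (1 - k)) := by
    have h5 := Real.le_log_one_add_of_nonneg (x := 2 * k / (1 - k)) (by positivity)
    rwa [show 1 + 2 * k / (1 - k) = (1 + k) / (1 - k) by field_simp; ring,
      show 2 * (2 * k / (1 - k)) / (2 * k / (1 - k) + 2) = 2 * k by field_simp; ring] at h5
  refine ⟨h4, (Real.self_le_sinh_iff.2 (by linarith)).trans (le_of_eq ?_)⟩
  rw [Real.sinh_log (div_pos h3 h2), show 1 - k ^ 2 = (1 - k) * (1 + k) by ring]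
  field_simp
  ring

theorem b1a_near {u : ℝ} (h1 : -Real.pi ≤ u) (h2 : u ≤ Real.pi) (m : ℤ) :
    u ^ 2 ≤ (u - 2 * m * Real.pi) ^ 2 := by
  have hπ := Real.pi_pos
  rcases lt_trichotomy m 0 with h | h | h
  · have h3 : (m : ℝ) ≤ -1 := by exact_mod_cast Int.le_sub_one_of_lt h
    have h4 : m * Real.pi ≤ -Real.pi := by nlinarith
    nlinarith [mul_nonneg (show 0 ≤ -(m * Real.pi) by linarith)
      (show 0 ≤ u - m * Real.pi by linarith)]
  · simp [h]
  · have h3 : (1 : ℝ) ≤ m := by exact_mod_cast h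
    have h4 : Real.pi ≤ m * Real.pi := by nlinarith
    nlinarith [mul_nonneg (show 0 ≤ m * Real.pi by linarith)
      (show 0 ≤ m * Real.pi - u by linarith)]

/-- the zeros in one period lie in a disc -/
theorem dob_win (hδ : 0 < P.δ) (hk : P.kap ≤ 3 / 10) : P.vre ≤ 2 * P.kap * (101 / 50) ∧
    ∃ t0 a b : ℝ, 1917 / 1000 ≤ a ∧ -(21 / 10) ≤ b ∧ b ≤ -2 ∧ ∀ T, t0 ≤ T → T ≤ t0 + 2 * Real.pi →
      P.S T = 0 → (P.vre / (2 * P.kap) - a) ^ 2 + ((T + P.vim) / (2 * P.kap) - b) ^ 2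
        ≤ (61 / 20) ^ 2 := by
  have h0 := kap_pos hδ
  have h2 : 0 < 2 * P.kap := by linarith
  have hs := P.kap_sq
  have k0 := P.k2_nonneg
  have k1 : P.k2 ≤ 9 / 100 := by nlinarith
  obtain ⟨l1, l2⟩ := b1a_log P.kap_nonneg P.kap_lt
  rw [hs] at l2
  have a1 : 2 * P.kap / (1 + P.k2) ≤ 2 * Real.arctan P.kap :=
    (sub_le_sub_iff_right Real.pi).1 P.wT_lo
  have a2 : 2 * Real.arctan P.kap ≤ 2 * P.kap := (sub_le_sub_iff_right Real.pi).1 P.wT_hi.1
  have d1 : 0 < 1 - P.k2 := by linarith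
  have d2 : 0 < 1 + P.k2 := by linarith
  have e0 : 2 * P.kap / (1 - P.k2) + 2 * P.kap / (1 + P.k2) = 2 * P.kap * 2 / (1 - P.k2 ^ 2) := by
    rw [show 1 - P.k2 ^ 2 = (1 - P.k2) * (1 + P.k2) by ring]
    field_simp
    ring
  have e1 : 2 * P.kap * 2 / (1 - P.k2 ^ 2) ≤ 2 * P.kap * (101 / 50) := by
    rw [div_le_iff₀ P.k4_pos, mul_assoc (2 * P.kap)]
    exact mul_le_mul_of_nonneg_left (by nlinarith) h2.le
  have e2 : 2 * P.kap * 2 ≤ 2 * P.kap * 2 / (1 - P.k2 ^ 2) :=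
    le_div_self (by linarith) P.k4_pos (by nlinarith)
  have e3 : 917 / 1000 * (2 * P.kap) ≤ 2 * P.kap / (1 + P.k2) := by
    rw [le_div_iff₀ d2]
    nlinarith
  have e4 : 2 * P.kap / (1 - P.k2) ≤ 11 / 10 * (2 * P.kap) := by
    rw [div_le_iff₀ d1]
    nlinarith
  have e5 : Real.log (P.p / (1 - P.p)) ≤ 0 :=
    Real.log_nonpos (div_pos P.hp0 P.q_pos).le ((div_le_one P.q_pos).2 (by linarith [P.hp]))
  refine ⟨by unfold vre; linarith, -(2 * Real.pi) - 2 * P.lamU + 4 * P.lamU * P.p,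
    (Real.log ((1 + P.kap) / (1 - P.kap)) + 2 * P.kap / (1 + P.k2)) / (2 * P.kap),
    -(2 * Real.arctan P.kap + 2 * P.kap / (1 - P.k2)) / (2 * P.kap), ?_, ?_, ?_,
    fun T t1 t2 hS => ?_⟩
  · rw [le_div_iff₀ h2]
    linarith
  · rw [le_div_iff₀ h2]
    linarith
  · rw [div_le_iff₀ h2]
    linarith
  by_contra hc
  refine P.dobD hδ hk (fun k => ?_) hS
  rw [not_le, ← sub_div, ← sub_div, div_pow _ (2 * P.kap), div_pow _ (2 * P.kap), ← add_div,
    lt_div_iff₀ (pow_pos h2 2)] at hc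
  have f1 := b1a_near (u := T + 2 * P.lamU - 4 * P.lamU * P.p + Real.pi) (by linarith)
    (by linarith) (k + 1)
  refine (pow_le_pow_iff_left₀ (by positivity) (norm_nonneg _) two_ne_zero).1 ?_
  rw [← normSq_eq_norm_sq, normSq_apply]
  simp only [vre, vim] at hc
  simp [xi0] at f1 ⊢
  nlinarith

/-- a lower bound of `lam` in the universal coordinates -/
theorem lam_ge {E : ℝ} (h0 : 0 ≤ E) (h : E ≤ Real.exp (P.vre - 2 * P.kap / (1 + P.k2))) :
    E * (1 - P.kap) ≤ 1 + P.kap ∧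
      8 * P.k2 * E ≤ P.lam * ((1 + P.k2) * (1 + P.kap + E * (1 - P.kap)) ^ 2) := by
  have hk : 0 ≤ 1 - P.kap := sub_nonneg.2 P.kap_lt.le
  have hp := P.hp0
  have hq := P.q_pos
  have h1 := mul_le_mul_of_nonneg_right h hk
  have h2 : E * (1 - P.kap) ≤ 1 + P.kap := h1.trans ((mul_comm _ _).trans_le P.vre_le)
  have h3 : Real.exp (P.vre - 2 * P.kap / (1 + P.k2)) * (1 - P.kap) * (1 - P.p) =
      (1 + P.kap) * P.p := by
    have h4 := P.exp_vre
    rw [← neg_sub P.vre, Real.exp_neg] at h4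
    have h5 := Real.exp_pos (P.vre - 2 * P.kap / (1 + P.k2))
    generalize Real.exp (P.vre - 2 * P.kap / (1 + P.k2)) = e at h4 h5 ⊢
    field_simp at h4
    linear_combination h4
  have h4 : 0 ≤ (1 + P.kap) * P.p - E * (1 - P.kap) * (1 - P.p) :=
    sub_nonneg.2 (h3 ▸ mul_le_mul_of_nonneg_right h1 hq.le)
  have h5 : 0 ≤ (1 + P.kap) * (1 - P.p) - E * (1 - P.kap) * P.p :=
    sub_nonneg.2 (mul_le_mul h2 (by linarith [P.hp]) hp.le (by linarith [P.kap_nonneg]))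
  have h6 := mul_nonneg (mul_nonneg P.lamU_nonneg (add_nonneg zero_le_one P.k2_nonneg))
    (mul_nonneg h4 h5)
  have h7 : P.lam = 4 * P.lamU * (P.p * (1 - P.p)) := by
    rw [lam, s2, lamU]
    ring
  have h8 := P.lamU_k2
  refine ⟨h2, ?_⟩
  rw [h7]
  rw [← P.kap_sq] at h6 h8 ⊢
  linear_combination 4 * h6 - 4 * E * h8

theorem lam_le (h : P.t ≤ 11 / 20) : P.lam ≤ 79 / 50 := by
  have h0 := P.t_nonneg
  have h1 : P.lam * (1 - P.t ^ 2) = 2 * P.t := by
    have h2 := P.sg_eq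
    have h3 : 0 < 1 + P.t ^ 2 := by positivity
    rw [sg, P.cg_eq] at h2
    field_simp at h2
    linear_combination h2
  nlinarith [mul_nonneg P.lam_nonneg (show 0 ≤ (11 / 20) ^ 2 - P.t ^ 2 by nlinarith)]

theorem vre_six (h : P.lam ≤ 79 / 50) (hk : 1 / 4 ≤ P.kap) : P.vre ≤ 6 := by
  by_contra hc
  have hs := P.kap_sq
  have k0 := P.k2_nonneg
  have k1 := P.kap_lt
  have h1 : 2 * P.kap / (1 + P.k2) ≤ 1 := by
    rw [div_le_one (by linarith)]
    nlinarith [sq_nonneg (1 - P.kap)]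
  have h2 : (90 : ℝ) ≤ Real.exp 5 := by
    refine le_trans ?_ (Real.sum_le_exp_of_nonneg (by norm_num) 6)
    norm_num [Finset.sum_range_succ, Nat.factorial]
  obtain ⟨h3, h4⟩ := P.lam_ge (E := 90) (by norm_num)
    (h2.trans (Real.exp_le_exp.2 (by linarith [not_le.1 hc])))
  have h5 : (1 + P.kap + 90 * (1 - P.kap)) ^ 2 ≤ 4 ^ 2 :=
    pow_le_pow_left₀ (by linarith) (by linarith) 2
  have h6 := mul_le_mul h (mul_le_mul_of_nonneg_left h5 (add_nonneg zero_le_one k0))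
    (by positivity) (by norm_num)
  nlinarith

end Par

end Pool.Agent.Sok
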