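import Pool.Agent.Sok.HB

/-! The estimate of the complete piece for small `δ`. -/

set_option autoImplicit false

namespace Pool.Agent.Sok

open Complex Set Filter Topology MeasureTheory

theorem sm_seg {F f : ℂ → ℂ} (hF : ∀ w, HasDerivAt F (f w) w) (hf : Continuous f) (z e : ℂ)
    {a b : ℝ} (hab : a ≤ b) {g : ℝ → ℝ} (hg : Continuous g)
    (h : ∀ x, a ≤ x → x ≤ b → ‖f (z + x * e) * e‖ ≤ g x) :
    ‖F (z + b * e) - F (z + a * e)‖ ≤ ∫ x in a..b, g x := by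
  have hd : ∀ x ∈ uIcc a b, HasDerivAt (fun x : ℝ => F (z + x * e)) (f (z + x * e) * e) x := by
    intro x _
    have h1 : HasDerivAt (fun w : ℂ => z + w * e) e (x : ℂ) := by
      simpa using ((hasDerivAt_id (x : ℂ)).mul_const e).const_add z
    exact ((hF (z + x * e)).comp (x : ℂ) h1).comp_ofReal
  have hc : Continuous fun x : ℝ => f (z + x * e) * e := by fun_prop
  rw [← intervalIntegral.integral_eq_sub_of_hasDerivAt hd (hc.intervalIntegrable a b)]
  refine intervalIntegral.norm_integral_le_of_norm_le hab ?_ (hg.intervalIntegrable a b)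
  exact Eventually.of_forall fun x hx => h x hx.1.le hx.2

theorem sm_exp1 {z : ℂ} {ρ : ℝ} (h0 : 0 ≤ ρ) (h : z.re ≤ ρ) : ‖exp z - 1‖ ≤ ‖z‖ * Real.exp ρ := by
  have := sm_seg (F := exp) (f := exp) Complex.hasDerivAt_exp Complex.continuous_exp 0 z
    zero_le_one (g := fun _ => ‖z‖ * Real.exp ρ) continuous_const (by
      intro x hx0 hx1
      rw [norm_mul, Complex.norm_exp, mul_comm]
      refine mul_le_mul_of_nonneg_left (Real.exp_le_exp.2 ?_) (norm_nonneg _)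
      simp only [zero_add, mul_re, ofReal_re, ofReal_im, zero_mul, sub_zero]
      nlinarith)
  simpa using this

theorem sm_exp2 {z : ℂ} {ρ : ℝ} (h0 : 0 ≤ ρ) (h : z.re ≤ ρ) :
    ‖exp z - 1 - z‖ ≤ ‖z‖ ^ 2 / 2 * Real.exp ρ := by
  have hF : ∀ w : ℂ, HasDerivAt (fun w : ℂ => exp w - 1 - w) (exp w - 1) w := fun w =>
    ((Complex.hasDerivAt_exp w).sub_const 1).sub (hasDerivAt_id w)
  have := sm_seg hF (by fun_prop) 0 z zero_le_one (g := fun x => ‖z‖ ^ 2 * Real.exp ρ * x)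
    (by fun_prop) (by
      intro x hx0 hx1
      have h1 : (0 + x * z).re ≤ ρ := by
        simp only [zero_add, mul_re, ofReal_re, ofReal_im, zero_mul, sub_zero]
        nlinarith
      have h2 := sm_exp1 h0 h1
      rw [zero_add, norm_mul, Complex.norm_real, Real.norm_of_nonneg hx0] at h2
      rw [norm_mul, zero_add]
      calc _ ≤ x * ‖z‖ * Real.exp ρ * ‖z‖ := mul_le_mul_of_nonneg_right h2 (norm_nonneg _)
        _ = _ := by ring)
  rw [intervalIntegral.integral_const_mul, integral_id] at this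
  simp only [ofReal_one, one_mul, zero_add, ofReal_zero, zero_mul, add_zero, exp_zero, sub_self,
    sub_zero] at this
  linarith

theorem sm_ray {F f : ℂ → ℂ} (hF : ∀ w, HasDerivAt F (f w) w) (hf : Continuous f) (z e : ℂ)
    {v : ℂ} (hv : Tendsto (fun s : ℝ => F (z + s * e)) atTop (𝓝 v)) {K ρ : ℝ} (hK : 0 ≤ K)
    (hρ : 0 < ρ) (h : ∀ x : ℝ, 0 ≤ x → ‖f (z + x * e) * e‖ ≤ K * Real.exp (-(ρ * x))) :
    ‖v - F z‖ ≤ K / ρ := by
  refine le_of_tendsto (hv.sub_const (F z)).norm ?_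
  filter_upwards [eventually_ge_atTop 0] with s hs
  have h1 := sm_seg hF hf z e hs (g := fun x => K * Real.exp (-(ρ * x))) (by fun_prop)
    (fun x hx _ => h x hx)
  have hd : ∀ x ∈ uIcc (0 : ℝ) s, HasDerivAt (fun x : ℝ => -(K / ρ) * Real.exp (-(ρ * x)))
      (K * Real.exp (-(ρ * x))) x := by
    intro x _
    have h2 := (((hasDerivAt_id x).const_mul ρ).neg.exp).const_mul (-(K / ρ))
    refine h2.congr_deriv ?_
    simp only [id, Pi.neg_apply]
    field_simp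
  rw [intervalIntegral.integral_eq_sub_of_hasDerivAt hd
    ((by fun_prop : Continuous fun x : ℝ => K * Real.exp (-(ρ * x))).intervalIntegrable _ _)] at h1
  simp only [ofReal_zero, zero_mul, add_zero, mul_zero, neg_zero, Real.exp_zero, mul_one] at h1
  have h3 : 0 ≤ K / ρ * Real.exp (-(ρ * s)) := by positivity
  linarith

theorem sm_g0 {k : ℝ} (hk : 0 < k) {a b : ℝ} (hab : a ≤ b) (c : ℝ) :
    ∫ x in a..b, Real.exp (-(k * (x - c) ^ 2)) ≤ Real.sqrt (Real.pi / k) := by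
  have hi : Integrable fun x : ℝ => Real.exp (-k * x ^ 2) := integrable_exp_neg_mul_sq hk
  have hi' : Integrable fun x : ℝ => Real.exp (-k * (x - c) ^ 2) := hi.comp_sub_right c
  rw [← integral_gaussian, ← integral_sub_right_eq_self (fun x : ℝ => Real.exp (-k * x ^ 2)) c,
    intervalIntegral.integral_of_le hab]
  simp only [← neg_mul]
  exact setIntegral_le_integral hi' (Eventually.of_forall fun x => (Real.exp_pos _).le)

theorem sm_g1 {k : ℝ} (hk : 0 < k) {a b c : ℝ} (ha : a ≤ c) (hb : c ≤ b) :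
    ∫ x in a..b, |x - c| * Real.exp (-(k * (x - c) ^ 2)) ≤ 1 / k := by
  have hc : Continuous fun x : ℝ => |x - c| * Real.exp (-(k * (x - c) ^ 2)) := by fun_prop
  have hc' : Continuous fun x : ℝ => (x - c) * Real.exp (-(k * (x - c) ^ 2)) := by fun_prop
  have hd : ∀ x : ℝ, HasDerivAt (fun x : ℝ => -(1 / (2 * k)) * Real.exp (-(k * (x - c) ^ 2)))
      ((x - c) * Real.exp (-(k * (x - c) ^ 2))) x := by
    intro x
    have h2 := (((((hasDerivAt_id x).sub_const c).pow 2).const_mul k).neg.exp).const_mul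
      (-(1 / (2 * k)))
    refine h2.congr_deriv ?_
    simp only [id, Pi.neg_apply, Pi.pow_apply]
    field_simp
    norm_num
  rw [← intervalIntegral.integral_add_adjacent_intervals (b := c) (hc.intervalIntegrable _ _)
    (hc.intervalIntegrable _ _)]
  have e1 : ∫ x in a..c, |x - c| * Real.exp (-(k * (x - c) ^ 2)) =
      -∫ x in a..c, (x - c) * Real.exp (-(k * (x - c) ^ 2)) := by
    rw [← intervalIntegral.integral_neg]
    refine intervalIntegral.integral_congr fun x hx => ?_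
    rw [uIcc_of_le ha] at hx
    rw [abs_of_nonpos (by linarith [hx.2]), neg_mul]
  have e2 : ∫ x in c..b, |x - c| * Real.exp (-(k * (x - c) ^ 2)) =
      ∫ x in c..b, (x - c) * Real.exp (-(k * (x - c) ^ 2)) := by
    refine intervalIntegral.integral_congr fun x hx => ?_
    rw [uIcc_of_le hb] at hx
    rw [abs_of_nonneg (by linarith [hx.1])]
  rw [e1, e2, intervalIntegral.integral_eq_sub_of_hasDerivAt (fun x _ => hd x)
    (hc'.intervalIntegrable _ _), intervalIntegral.integral_eq_sub_of_hasDerivAt (fun x _ => hd x)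
    (hc'.intervalIntegrable _ _)]
  simp only [sub_self, ne_eq, OfNat.ofNat_ne_zero, not_false_eq_true, zero_pow, mul_zero,
    neg_zero, Real.exp_zero, mul_one]
  have h1 : 0 ≤ 1 / (2 * k) * Real.exp (-(k * (a - c) ^ 2)) := by positivity
  have h2 : 0 ≤ 1 / (2 * k) * Real.exp (-(k * (b - c) ^ 2)) := by positivity
  have h3 : 1 / k = 2 * (1 / (2 * k)) := by field_simp
  linarith

/-- the contour: two vertical rays joined by a slanted segment -/
theorem sm_contour {F f : ℂ → ℂ} (hF : ∀ w, HasDerivAt F (f w) w) (hf : Continuous f) (z : ℂ)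
    {r c k α γ K ρ : ℝ} {u v : ℂ} (hk : 0 < k) (hc : |c| ≤ r) (hα : 0 ≤ α) (hγ : 0 ≤ γ)
    (hK : 0 ≤ K) (hρ : 0 < ρ)
    (hv : Tendsto (fun s : ℝ => F (z + r * (1 + I) + s * I)) atTop (𝓝 v))
    (hu : Tendsto (fun s : ℝ => F (z + (-r : ℝ) * (1 + I) + s * -I)) atTop (𝓝 u))
    (h1 : ∀ x : ℝ, -r ≤ x → x ≤ r →
      ‖f (z + x * (1 + I))‖ ≤ (α + γ * |x - c|) * Real.exp (-(k * (x - c) ^ 2)))
    (h2 : ∀ s : ℝ, 0 ≤ s → ‖f (z + r * (1 + I) + s * I)‖ ≤ K * Real.exp (-(ρ * s)))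
    (h3 : ∀ s : ℝ, 0 ≤ s → ‖f (z + (-r : ℝ) * (1 + I) + s * -I)‖ ≤ K * Real.exp (-(ρ * s))) :
    ‖v - u‖ ≤ Real.sqrt 2 * (α * Real.sqrt (Real.pi / k) + γ / k) + 2 * (K / ρ) := by
  have hc' := abs_le.1 hc
  have a1 := sm_ray hF hf _ I hv hK hρ (fun s hs => by simpa using h2 s hs)
  have a2 := sm_ray hF hf _ (-I) hu hK hρ (fun s hs => by
    rw [norm_mul, norm_neg, norm_I, mul_one]; exact h3 s hs)
  have hn : ‖(1 + I : ℂ)‖ = Real.sqrt 2 := by
    rw [Complex.norm_eq_sqrt_sq_add_sq]; norm_num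
  have c0 : Continuous fun x : ℝ => Real.exp (-(k * (x - c) ^ 2)) := by fun_prop
  have c1 : Continuous fun x : ℝ => |x - c| * Real.exp (-(k * (x - c) ^ 2)) := by fun_prop
  have a3 := sm_seg hF hf z (1 + I) (a := -r) (b := r) (by linarith [hc'.1, hc'.2])
    (g := fun x => Real.sqrt 2 * α * Real.exp (-(k * (x - c) ^ 2)) +
      Real.sqrt 2 * γ * (|x - c| * Real.exp (-(k * (x - c) ^ 2)))) (by fun_prop) (by
      intro x hx1 hx2
      rw [norm_mul, hn]
      calc _ ≤ (α + γ * |x - c|) * Real.exp (-(k * (x - c) ^ 2)) * Real.sqrt 2 :=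
            mul_le_mul_of_nonneg_right (h1 x hx1 hx2) (Real.sqrt_nonneg _)
        _ = _ := by ring)
  rw [intervalIntegral.integral_add ((c0.const_mul _).intervalIntegrable _ _)
    ((c1.const_mul _).intervalIntegrable _ _), intervalIntegral.integral_const_mul,
    intervalIntegral.integral_const_mul] at a3
  have b0 := mul_le_mul_of_nonneg_left (sm_g0 hk (a := -r) (b := r) (by linarith [hc'.1, hc'.2]) c)
    (mul_nonneg (Real.sqrt_nonneg 2) hα)
  have b1 := mul_le_mul_of_nonneg_left (sm_g1 hk hc'.1 hc'.2) (mul_nonneg (Real.sqrt_nonneg 2) hγ)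
  have e : v - u = (v - F (z + r * (1 + I))) + (F (z + r * (1 + I)) - F (z + (-r : ℝ) * (1 + I))) -
      (u - F (z + (-r : ℝ) * (1 + I))) := by ring
  rw [e]
  refine (norm_sub_le _ _).trans ?_
  have b2 := norm_add_le (v - F (z + r * (1 + I)))
    (F (z + r * (1 + I)) - F (z + (-r : ℝ) * (1 + I)))
  have e2 : Real.sqrt 2 * (α * Real.sqrt (Real.pi / k) + γ / k) =
      Real.sqrt 2 * α * Real.sqrt (Real.pi / k) + Real.sqrt 2 * γ * (1 / k) := by ring
  linarith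

theorem sm_Rq_nonneg {p a : ℝ} (hp0 : 0 ≤ p) (hp : p ≤ 1 / 2) (ha : |a| ≤ 2) : 0 ≤ Rq p a := by
  have h := abs_le.1 ha
  have h1 : 0 ≤ p * (1 - p) := mul_nonneg hp0 (by linarith)
  have h2 : 0 ≤ (1 - 2 * (p * (1 - p))) * a ^ 2 := mul_nonneg (by nlinarith) (sq_nonneg a)
  have h3 : -2 ≤ (1 - 2 * p) * a := by nlinarith
  unfold Rq
  have h4 : 0 ≤ 1 + (1 - 2 * p) * a / 3 + (1 - 2 * (p * (1 - p))) * a ^ 2 / 2 := by linarith
  positivity

theorem sm_Rq_le {p a r : ℝ} (hp0 : 0 ≤ p) (hp : p ≤ 1 / 2) (ha : |a| ≤ r) :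
    Rq p a ≤ 2 * (p * (1 - p)) * (1 + r / 3 + r ^ 2 / 2) * a ^ 2 := by
  have h := abs_le.1 ha
  have h1 : 0 ≤ p * (1 - p) := mul_nonneg hp0 (by linarith)
  have h0 : a ^ 2 ≤ r ^ 2 := sq_le_sq' h.1 h.2
  have h2 : (1 - 2 * (p * (1 - p))) * a ^ 2 ≤ r ^ 2 := by nlinarith [sq_nonneg a]
  have h3 : (1 - 2 * p) * a ≤ r := by nlinarith
  unfold Rq
  have h4 : 1 + (1 - 2 * p) * a / 3 + (1 - 2 * (p * (1 - p))) * a ^ 2 / 2 ≤
      1 + r / 3 + r ^ 2 / 2 := by linarith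
  have h5 : 0 ≤ 2 * (p * (1 - p)) * a ^ 2 := by positivity
  calc _ ≤ 2 * (p * (1 - p)) * a ^ 2 * (1 + r / 3 + r ^ 2 / 2) :=
        mul_le_mul_of_nonneg_left h4 h5
    _ = _ := by ring

theorem sm_taylor {θ x r : ℝ} (T : ℝ) (h0 : 0 ≤ θ) (hx : |x| ≤ r) :
    Real.cos (T + x) * Real.exp (θ * x) ≤ Real.cos T + x * (θ * Real.cos T - Real.sin T) +
      (1 + θ ^ 2) * Real.exp (θ * r) / 2 * x ^ 2 := by
  have h := abs_le.1 hx
  have hr : 0 ≤ r := (abs_nonneg x).trans hx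
  have hz : ((θ * x : ℝ) + x * I : ℂ).re ≤ θ * r := by
    simp only [add_re, ofReal_re, mul_re, I_re, mul_zero, ofReal_im, I_im, mul_one, sub_self,
      add_zero]
    exact mul_le_mul_of_nonneg_left h.2 h0
  have h1 := sm_exp2 (mul_nonneg h0 hr) hz
  have hn : ‖((θ * x : ℝ) + x * I : ℂ)‖ ^ 2 = (1 + θ ^ 2) * x ^ 2 := by
    rw [Complex.sq_norm, Complex.normSq_add_mul_I]; ring
  have h2 : (exp (T * I) * (exp ((θ * x : ℝ) + x * I) - 1 - ((θ * x : ℝ) + x * I))).re ≤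
      ‖((θ * x : ℝ) + x * I : ℂ)‖ ^ 2 / 2 * Real.exp (θ * r) := by
    refine (Complex.re_le_norm _).trans ?_
    rw [norm_mul, Complex.norm_exp_ofReal_mul_I, one_mul]
    exact h1
  have h3 : (exp (T * I) * (exp ((θ * x : ℝ) + x * I) - 1 - ((θ * x : ℝ) + x * I))).re =
      Real.cos (T + x) * Real.exp (θ * x) - Real.cos T - x * (θ * Real.cos T - Real.sin T) := by
    simp only [mul_re, sub_re, sub_im, exp_re, exp_im, add_re, add_im, ofReal_re, ofReal_im, I_re,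
      I_im, mul_im, one_re, one_im, mul_zero, mul_one, sub_self, add_zero, zero_add, sub_zero,
      Real.exp_zero, one_mul, Real.cos_add]
    ring
  rw [h3, hn] at h2
  linarith

namespace Par

variable (P : Par)

/-- the exponent of the majorant -/
noncomputable def smY (T a φ : ℝ) : ℝ := a * (T - φ) / P.δ + P.s2 * HBe P.p a (Real.cos φ)

/-- the centre of the Gaussian -/
noncomputable def smC (T κ : ℝ) : ℝ :=
  P.lam * ((1 - 2 * P.p) * (Real.cos T - 1) - Real.sin T) / (2 * κ)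

theorem sm_beta (T : ℝ) {th : ℝ} (hth : 1 - 2 * P.p ≤ th) :
    ((1 - 2 * P.p) * (Real.cos T - 1) - Real.sin T) ^ 2 ≤ 2 * (1 + th ^ 2) * (1 - Real.cos T) := by
  have h0 : 0 ≤ 1 - 2 * P.p := by linarith [P.hp]
  have h1 : (1 - 2 * P.p) ^ 2 ≤ th ^ 2 := pow_le_pow_left₀ h0 hth 2
  have h2 := Real.sin_sq_add_cos_sq T
  have h3 : 0 ≤ 1 - Real.cos T := by linarith [Real.cos_le_one T]
  have h4 : ((1 - 2 * P.p) * (Real.cos T - 1) - Real.sin T) ^ 2 ≤
      (1 + (1 - 2 * P.p) ^ 2) * ((Real.cos T - 1) ^ 2 + Real.sin T ^ 2) := by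
    nlinarith [sq_nonneg ((Real.cos T - 1) + (1 - 2 * P.p) * Real.sin T)]
  have h5 : (Real.cos T - 1) ^ 2 + Real.sin T ^ 2 = 2 * (1 - Real.cos T) := by nlinarith
  rw [h5] at h4
  nlinarith

theorem sm_centre {T κ lp th b : ℝ} (hlp : P.lam ≤ lp) (hth : 1 - 2 * P.p ≤ th) (hκ : 0 < κ)
    (hb0 : 0 ≤ b) (hb : 2 * (1 - Real.cos T) ≤ b ^ 2) :
    |P.smC T κ| ≤ lp * Real.sqrt (1 + th ^ 2) * b / (2 * κ) := by
  have h0 := P.lam_nonneg
  have h1 : |(1 - 2 * P.p) * (Real.cos T - 1) - Real.sin T| ≤ Real.sqrt (1 + th ^ 2) * b := by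
    refine abs_le_of_sq_le_sq' ?_ (by positivity) |> abs_le.2
    rw [mul_pow, Real.sq_sqrt (by positivity)]
    have := P.sm_beta T hth
    nlinarith [sq_nonneg th]
  unfold smC
  rw [abs_div, abs_mul, abs_of_nonneg h0, abs_of_pos (by positivity : 0 < 2 * κ), mul_assoc]
  exact div_le_div_of_nonneg_right (mul_le_mul hlp h1 (abs_nonneg _) (h0.trans hlp))
    (by positivity)

theorem sm_slant (hδ : 0 < P.δ) {T r lp th κ cS cT x : ℝ} (hlp : P.lam ≤ lp)
    (hth : 1 - 2 * P.p ≤ th) (hκ0 : 0 < κ)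
    (hκ : κ ≤ 1 - lp * ((1 + (1 - 2 * P.p) ^ 2) * Real.exp ((1 - 2 * P.p) * r) / 2 +
      2 * (P.p * (1 - P.p)) * (1 + r / 3 + r ^ 2 / 2)))
    (hcS0 : 0 ≤ cS) (hcS : cS ≤ 1 - lp * (1 + th ^ 2) / (2 * κ))
    (hcT0 : 0 ≤ cT) (hcT : cT * T ^ 2 ≤ 1 - Real.cos T) (hx : |x| ≤ r) :
    P.smY T x (T + x) ≤ P.ka * (T ^ 2 * -(cS * cT)) - κ / P.δ * (x - P.smC T κ) ^ 2 := by
  have hp := P.hp
  have hp0 := P.hp0
  have hs : 0 < P.s2 := by linarith [P.s2_ge]
  have hr : 0 ≤ r := (abs_nonneg x).trans hx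
  have hl0 := P.lam_nonneg
  have h1 := sm_taylor T (by linarith : 0 ≤ 1 - 2 * P.p) hx
  have h2 := sm_Rq_le hp0.le hp hx
  have hβ := P.sm_beta T hth
  have hc1 : 0 ≤ 1 - Real.cos T := by linarith [Real.cos_le_one T]
  unfold smY smC HBe
  obtain ⟨K, hK⟩ : ∃ K, K = (1 + (1 - 2 * P.p) ^ 2) * Real.exp ((1 - 2 * P.p) * r) / 2 +
      2 * (P.p * (1 - P.p)) * (1 + r / 3 + r ^ 2 / 2) := ⟨_, rfl⟩
  have hK0 : 0 ≤ K := by
    have : 0 ≤ P.p * (1 - P.p) := mul_nonneg hp0.le (by linarith)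
    rw [hK]; positivity
  obtain ⟨b, hb⟩ : ∃ b, b = (1 - 2 * P.p) * (Real.cos T - 1) - Real.sin T := ⟨_, rfl⟩
  rw [← hK] at hκ
  rw [← hb] at hβ ⊢
  have h3 : Real.cos (T + x) * Real.exp ((1 - 2 * P.p) * x) - 1 - (1 - 2 * P.p) * x + Rq P.p x ≤
      (Real.cos T - 1) + x * b + K * x ^ 2 := by
    rw [hK, hb]; linarith
  have h4 := mul_le_mul_of_nonneg_left h3 hs.le
  have h5 : κ ≤ 1 - P.lam * K := by linarith [mul_le_mul_of_nonneg_right hlp hK0]
  have h6 : P.s2 * K ≤ (1 - κ) / P.δ := by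
    rw [le_div_iff₀ hδ]
    have : P.s2 * K * P.δ = P.lam * K := by unfold lam; ring
    linarith
  have h7 := mul_le_mul_of_nonneg_right h6 (sq_nonneg x)
  have e1 : κ / P.δ * (x - P.lam * b / (2 * κ)) ^ 2 =
      κ / P.δ * x ^ 2 - P.s2 * (x * b) + P.s2 * (P.lam * b ^ 2 / (4 * κ)) := by
    unfold lam; field_simp; ring
  have e2 : x * (T - (T + x)) / P.δ = -(κ / P.δ * x ^ 2) - (1 - κ) / P.δ * x ^ 2 := by
    field_simp; ring
  have h8 : P.lam * b ^ 2 / (4 * κ) ≤ lp * (1 + th ^ 2) / (2 * κ) * (1 - Real.cos T) := by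
    have : P.lam * b ^ 2 ≤ lp * (2 * (1 + th ^ 2) * (1 - Real.cos T)) :=
      mul_le_mul hlp hβ (sq_nonneg b) (hl0.trans hlp)
    calc _ ≤ lp * (2 * (1 + th ^ 2) * (1 - Real.cos T)) / (4 * κ) :=
          div_le_div_of_nonneg_right this (by positivity)
      _ = _ := by field_simp; ring
  have h9 : cS * (1 - Real.cos T) ≤ (1 - lp * (1 + th ^ 2) / (2 * κ)) * (1 - Real.cos T) :=
    mul_le_mul_of_nonneg_right hcS hc1
  have h10 : cS * (cT * T ^ 2) ≤ cS * (1 - Real.cos T) := mul_le_mul_of_nonneg_left hcT hcS0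
  have h11 : P.ka ≤ P.s2 := mul_le_of_le_one_right hs.le (pow_le_one₀ P.cg_pos.le P.cg_le)
  have h12 : P.ka * (cS * (cT * T ^ 2)) ≤ P.s2 * (cS * (cT * T ^ 2)) :=
    mul_le_mul_of_nonneg_right h11 (by positivity)
  have h13 : cS * (cT * T ^ 2) ≤ (1 - Real.cos T) - P.lam * b ^ 2 / (4 * κ) := by linarith
  have h14 := mul_le_mul_of_nonneg_left h13 hs.le
  rw [e1, e2]
  linarith

theorem sm_rayY (hδ : 0 < P.δ) {T r lp th rate a s σ : ℝ} (hr0 : 0 ≤ r) (hlp : P.lam ≤ lp)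
    (hth : 1 - 2 * P.p ≤ th) (hrate : rate ≤ r - lp * Real.exp (th * r)) (hσ : σ = 1 ∨ σ = -1)
    (ha : a = σ * r) (hs : 0 ≤ s) :
    P.smY T a (T + a + σ * s) ≤ P.smY T a (T + a) - rate / P.δ * s := by
  have hp := P.hp
  have hs2 : 0 < P.s2 := by linarith [P.s2_ge]
  have hl0 := P.lam_nonneg
  have h1 : Real.cos (T + a + σ * s) - Real.cos (T + a) ≤ s := by
    refine (le_abs_self _).trans ((Real.abs_cos_sub_cos_le _ _).trans ?_)
    rcases hσ with h | h <;> simp [h, abs_of_nonneg hs]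
  have h2 : Real.exp ((1 - 2 * P.p) * a) ≤ Real.exp (th * r) := by
    refine Real.exp_le_exp.2 ?_
    rcases hσ with h | h <;> rw [ha, h] <;> nlinarith
  have h3 : (Real.cos (T + a + σ * s) - Real.cos (T + a)) * Real.exp ((1 - 2 * P.p) * a) ≤
      s * Real.exp (th * r) :=
    (mul_le_mul_of_nonneg_right h1 (Real.exp_pos _).le).trans (mul_le_mul_of_nonneg_left h2 hs)
  have h4 := mul_le_mul_of_nonneg_left h3 hs2.le
  have h5 : P.s2 * Real.exp (th * r) ≤ (r - rate) / P.δ := by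
    rw [le_div_iff₀ hδ]
    have e : P.s2 * Real.exp (th * r) * P.δ = P.lam * Real.exp (th * r) := by unfold lam; ring
    have := mul_le_mul_of_nonneg_right hlp (Real.exp_pos (th * r)).le
    linarith
  have h6 := mul_le_mul_of_nonneg_right h5 hs
  have e : a * (T - (T + a + σ * s)) / P.δ =
      a * (T - (T + a)) / P.δ - rate / P.δ * s - (r - rate) / P.δ * s := by
    rcases hσ with h | h <;> rw [ha, h] <;> field_simp <;> ring
  unfold smY HBe
  rw [e]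
  linarith

/-- the integrand with one factor removed -/
noncomputable def smD (T : ℝ) (w : ℂ) : ℂ := Eg P.δ (P.N - 1) (1 - P.p) P.p (P.β T) w

theorem sm_D (T : ℝ) {a r Cp : ℝ} (φ : ℝ) (ha : |a| ≤ r) (hr : r ≤ 2)
    (hCp : Real.exp (P.p * (1 - P.p) * (Real.exp ((1 - 2 * P.p) * r) + 1 + (1 - 2 * P.p) * r) +
      P.p * r) ≤ Cp) :
    ‖P.smD T (a + φ * I)‖ ≤ Cp * Real.exp (P.smY T a φ) := by
  have hp := P.hp
  have hp0 := P.hp0
  have h := abs_le.1 ha
  have h1 := log_le_HBe (p := P.p) (a := a) (φ := φ) hp0.le (by linarith) (ha.trans hr)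
  have h2 := pow_le_pow_left₀ (norm_nonneg _) h1 (P.N - 1)
  rw [← Real.exp_nat_mul] at h2
  have hN : ((P.N - 1 : ℕ) : ℝ) = P.N - 1 := by
    rw [Nat.cast_sub (by linarith [P.hN]), Nat.cast_one]
  have e1 : (I * (a + φ * I) ^ 2 / (2 * P.δ) + P.β T * (a + φ * I)).re =
      a * (T - φ) / P.δ - P.N * P.p * a := by
    have e : I * (a + φ * I) ^ 2 / (2 * P.δ) + P.β T * (a + φ * I) =
        ((a * (T - φ) / P.δ - P.N * P.p * a : ℝ) : ℂ) +
          (((a ^ 2 - φ ^ 2) / (2 * P.δ) + (T / P.δ - P.N * P.p) * φ : ℝ) : ℂ) * I := by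
      unfold β
      push_cast
      linear_combination (a * φ / P.δ + φ ^ 2 * I / (2 * P.δ)) * I_mul_I
    rw [e, add_re, ofReal_re, mul_re, ofReal_im, I_re, I_im]
    ring
  unfold smD Eg
  rw [norm_mul, norm_pow, Complex.norm_exp, e1]
  refine (mul_le_mul_of_nonneg_left h2 (Real.exp_pos _).le).trans ?_
  refine le_trans ?_ (mul_le_mul_of_nonneg_right hCp (Real.exp_pos _).le)
  rw [← Real.exp_add, ← Real.exp_add, hN]
  refine Real.exp_le_exp.2 ?_
  have h3 : -HBe P.p a (Real.cos φ) ≤ Real.exp ((1 - 2 * P.p) * r) + 1 + (1 - 2 * P.p) * r := by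
    have h4 := sm_Rq_nonneg hp0.le hp (ha.trans hr)
    have h5 : (1 - 2 * P.p) * a ≤ (1 - 2 * P.p) * r :=
      mul_le_mul_of_nonneg_left h.2 (by linarith)
    have h6 := Real.exp_le_exp.2 h5
    have h7 := mul_le_mul_of_nonneg_right (Real.neg_one_le_cos φ)
      (Real.exp_pos ((1 - 2 * P.p) * a)).le
    unfold HBe
    linarith
  have h8 := mul_le_mul_of_nonneg_left h3 (mul_nonneg hp0.le (by linarith : 0 ≤ 1 - P.p))
  have h9 := mul_le_mul_of_nonneg_left h.1 hp0.le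
  unfold smY s2
  linarith

/-- integration by parts: a primitive of `i δ s2 (e^w - 1) smD` -/
noncomputable def smF (T : ℝ) (w : ℂ) : ℂ :=
  (P.V T w).2 - I * T * (P.V T w).1 + I * P.δ * P.E T w

theorem smF_deriv (hδ : 0 < P.δ) (T : ℝ) (w : ℂ) :
    HasDerivAt (P.smF T) (I * P.lam * (exp w - 1) * P.smD T w) w := by
  have hd : (P.δ : ℂ) ≠ 0 := ofReal_ne_zero.2 hδ.ne'
  have h1 : HasDerivAt (fun w : ℂ => I * w ^ 2 / (2 * P.δ) + P.β T * w)
      (I * (2 * w) / (2 * P.δ) + P.β T) w := by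
    have a1 : HasDerivAt (fun w : ℂ => w ^ 2) (2 * w) w := by simpa using hasDerivAt_pow 2 w
    exact (((a1.const_mul I).div_const (2 * P.δ : ℂ)).add
      ((hasDerivAt_id w).const_mul (P.β T))).congr_deriv (by rw [mul_one])
  have h2 : HasDerivAt (fun w : ℂ => ((1 - P.p : ℂ) + P.p * exp w) ^ P.N)
      (P.N * ((1 - P.p : ℂ) + P.p * exp w) ^ (P.N - 1) * (P.p * exp w)) w :=
    (((Complex.hasDerivAt_exp w).const_mul (P.p : ℂ)).const_add (1 - P.p : ℂ)).pow P.N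
  have h3 := h1.cexp.mul h2
  have h4 := ((G1_deriv P.N (1 - P.p) P.p (P.β T) hδ w).sub
    ((G0_deriv P.N (1 - P.p) P.p (P.β T) hδ w).const_mul (I * T))).add (h3.const_mul (I * P.δ))
  refine h4.congr_deriv ?_
  have e : ((1 - P.p : ℂ) + P.p * exp w) ^ P.N =
      ((1 - P.p : ℂ) + P.p * exp w) ^ (P.N - 1) * ((1 - P.p : ℂ) + P.p * exp w) := by
    rw [← pow_succ, Nat.sub_add_cancel (by linarith [P.hN])]
  unfold smD Eg lam s2
  rw [e]
  generalize ((1 - P.p : ℂ) + P.p * exp w) ^ (P.N - 1) = X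
  generalize exp (I * w ^ 2 / (2 * P.δ) + P.β T * w) = Y
  unfold β
  push_cast
  field_simp
  linear_combination (w * (1 - P.p + P.p * exp w) * X * Y) * I_mul_I

theorem sm_pt (T x : ℝ) : (T * I + x * (1 + I) : ℂ) = x + (T + x : ℝ) * I := by
  push_cast; ring

theorem sm_ptU (T r s : ℝ) :
    (T * I + r * (1 + I) + s * I : ℂ) = r + (T + r + 1 * s : ℝ) * I := by
  push_cast; ring

theorem sm_ptD (T r s : ℝ) : (T * I + (-r : ℝ) * (1 + I) + s * -I : ℂ) =
    (-r : ℝ) + (T + -r + -1 * s : ℝ) * I := by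
  push_cast; ring

/-- the majorant along the contour -/
def smMaj (T r κ rate E0 ev : ℝ) : Prop :=
  (∀ x, |x| ≤ r → Real.exp (P.smY T x (T + x)) ≤
    E0 * Real.exp (-(κ / P.δ * (x - P.smC T κ) ^ 2))) ∧
  (∀ s, 0 ≤ s → Real.exp (P.smY T r (T + r + 1 * s)) ≤
    E0 * ev * Real.exp (-(rate / P.δ * s))) ∧
  (∀ s, 0 ≤ s → Real.exp (P.smY T (-r) (T + -r + -1 * s)) ≤
    E0 * ev * Real.exp (-(rate / P.δ * s)))

theorem sm_decay {g : ℝ → ℂ} {K ρ : ℝ} (hρ : 0 < ρ)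
    (h : ∀ s, 0 ≤ s → ‖g s‖ ≤ K * Real.exp (-(ρ * s))) : Tendsto g atTop (𝓝 0) := by
  have h1 : Tendsto (fun s : ℝ => K * Real.exp (-(ρ * s))) atTop (𝓝 (K * 0)) :=
    (Real.tendsto_exp_neg_atTop_nhds_zero.comp (tendsto_id.const_mul_atTop hρ)).const_mul K
  rw [mul_zero] at h1
  exact squeeze_zero_norm' ((eventually_ge_atTop 0).mono h) h1

theorem sm_ints (hδ : 0 < P.δ) {T r κ rate E0 ev Cp : ℝ} (hr0 : 0 < r) (hr : r ≤ 2)
    (hκ0 : 0 < κ) (hrate0 : 0 < rate) (hE0 : 0 ≤ E0) (hev : 0 ≤ ev) (hc : |P.smC T κ| ≤ r)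
    (hCp : Real.exp (P.p * (1 - P.p) * (Real.exp ((1 - 2 * P.p) * r) + 1 + (1 - 2 * P.p) * r) +
      P.p * r) ≤ Cp) (hM : P.smMaj T r κ rate E0 ev) :
    ‖(P.Vtop T).1‖ ≤ Real.sqrt 2 * (E0 * Real.sqrt (Real.pi / (κ / P.δ))) +
        2 * (E0 * ev / (rate / P.δ)) ∧
      ‖(P.Vtop T).2 - I * T * (P.Vtop T).1‖ ≤
        Real.sqrt 2 * (P.lam * Cp * E0 * (|T| + Real.sqrt 2 * Real.exp r * |P.smC T κ|) *
          Real.sqrt (Real.pi / (κ / P.δ)) +
            P.lam * Cp * E0 * (Real.sqrt 2 * Real.exp r) / (κ / P.δ)) +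
        2 * (P.lam * (1 + Real.exp r) * Cp * (E0 * ev) / (rate / P.δ)) := by
  obtain ⟨m1, m2, m3⟩ := hM
  have hk : 0 < κ / P.δ := div_pos hκ0 hδ
  have hρ : 0 < rate / P.δ := div_pos hrate0 hδ
  have hl0 := P.lam_nonneg
  have hCp0 : 0 ≤ Cp := (Real.exp_pos _).le.trans hCp
  have har : |r| ≤ r := (abs_of_pos hr0).le
  have har' : |-r| ≤ r := by rw [abs_neg]; exact har
  have hb : (P.β T).im = 0 := ofReal_im _
  have tU := lim_up P.N (1 - P.p) P.p (P.β T) hδ (T * I + r * (1 + I)) (by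
    rw [sm_pt, hb]; simpa using div_pos hr0 hδ)
  have tD := lim_down P.N (1 - P.p) P.p (P.β T) hδ (T * I + (-r : ℝ) * (1 + I)) (by
    rw [sm_pt, hb]; simpa using div_neg_of_neg_of_pos (neg_neg_of_pos hr0) hδ)
  simp only [sub_eq_add_neg, ← mul_neg] at tD
  simp only [← sub_eq_add_neg (1 : ℂ)] at tD
  have eU : ∀ s : ℝ, 0 ≤ s → ‖P.E T (T * I + r * (1 + I) + s * I)‖ ≤
      E0 * ev * Real.exp (-(rate / P.δ * s)) := fun s hs => by
    rw [sm_ptU]; exact (P.E_le hδ T _ (har.trans hr)).trans (m2 s hs)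
  have eD : ∀ s : ℝ, 0 ≤ s → ‖P.E T (T * I + (-r : ℝ) * (1 + I) + s * -I)‖ ≤
      E0 * ev * Real.exp (-(rate / P.δ * s)) := fun s hs => by
    rw [sm_ptD]; exact (P.E_le hδ T _ (har'.trans hr)).trans (m3 s hs)
  constructor
  · have := sm_contour (G0_deriv P.N (1 - P.p) P.p (P.β T) hδ) (Eg_cont _ _ _ _) (T * I)
      (α := E0) (γ := 0) hk hc hE0 le_rfl (mul_nonneg hE0 hev) hρ tU.fst_nhds tD.fst_nhds (by
        intro x h1 h2
        have hx : |x| ≤ r := abs_le.2 ⟨h1, h2⟩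
        rw [sm_pt, zero_mul, add_zero]
        exact (P.E_le hδ T _ (hx.trans hr)).trans (m1 x hx)) eU eD
    rw [sub_zero, zero_div, add_zero] at this
    exact this
  · have uU : Tendsto (fun s : ℝ => P.smF T (T * I + r * (1 + I) + s * I)) atTop
        (𝓝 ((P.Vtop T).2 - I * T * (P.Vtop T).1 + I * P.δ * 0)) :=
      (tU.snd_nhds.sub (tU.fst_nhds.const_mul _)).add ((sm_decay hρ eU).const_mul _)
    have uD : Tendsto (fun s : ℝ => P.smF T (T * I + (-r : ℝ) * (1 + I) + s * -I)) atTop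
        (𝓝 (0 - I * T * 0 + I * P.δ * 0)) :=
      (tD.snd_nhds.sub (tD.fst_nhds.const_mul _)).add ((sm_decay hρ eD).const_mul _)
    have hn : ∀ w : ℂ, ‖I * P.lam * (exp w - 1) * P.smD T w‖ =
        P.lam * ‖exp w - 1‖ * ‖P.smD T w‖ := fun w => by
      rw [norm_mul, norm_mul, norm_mul, norm_I, one_mul, Complex.norm_real,
        Real.norm_of_nonneg hl0]
    have hray : ∀ a φ Z : ℝ, |a| ≤ r → Real.exp (P.smY T a φ) ≤ E0 * ev * Z →
        ‖I * P.lam * (exp (a + φ * I) - 1) * P.smD T (a + φ * I)‖ ≤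
          P.lam * (1 + Real.exp r) * Cp * (E0 * ev) * Z := by
      intro a φ Z ha hZ
      have b1 : ‖exp (a + φ * I) - 1‖ ≤ 1 + Real.exp r := by
        refine (norm_sub_le _ _).trans ?_
        rw [Complex.norm_exp, norm_one, add_comm]
        refine add_le_add le_rfl (Real.exp_le_exp.2 ?_)
        simpa using (abs_le.1 ha).2
      have b2 := (P.sm_D T φ ha hr hCp).trans (mul_le_mul_of_nonneg_left hZ hCp0)
      rw [hn]
      calc _ ≤ P.lam * (1 + Real.exp r) * (Cp * (E0 * ev * Z)) :=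
            mul_le_mul (mul_le_mul_of_nonneg_left b1 hl0) b2 (norm_nonneg _) (by positivity)
        _ = _ := by ring
    have hcont : Continuous fun w : ℂ => I * P.lam * (exp w - 1) * P.smD T w :=
      (continuous_const.mul (Complex.continuous_exp.sub continuous_const)).mul (Eg_cont _ _ _ _)
    have := sm_contour (P.smF_deriv hδ T) hcont (T * I)
      (α := P.lam * Cp * E0 * (|T| + Real.sqrt 2 * Real.exp r * |P.smC T κ|))
      (γ := P.lam * Cp * E0 * (Real.sqrt 2 * Real.exp r))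
      (K := P.lam * (1 + Real.exp r) * Cp * (E0 * ev)) hk hc (by positivity) (by positivity)
      (by positivity) hρ uU uD (by
        intro x h1 h2
        have hx : |x| ≤ r := abs_le.2 ⟨h1, h2⟩
        have b0 : ‖(x * (1 + I) : ℂ)‖ = |x| * Real.sqrt 2 := by
          rw [norm_mul, Complex.norm_real, Real.norm_eq_abs, Complex.norm_eq_sqrt_sq_add_sq]
          norm_num
        have b1 := sm_exp1 (z := x * (1 + I)) hr0.le (by simpa using h2)
        have b2 := sm_exp1 (z := T * I) le_rfl (by simp)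
        rw [norm_mul, norm_I, Complex.norm_real, Real.norm_eq_abs, Real.exp_zero, mul_one,
          mul_one] at b2
        have b3 : ‖exp (T * I + x * (1 + I)) - 1‖ ≤ |T| + |x| * Real.sqrt 2 * Real.exp r := by
          have e : exp (T * I + x * (1 + I)) - 1 =
              (exp (T * I) - 1) + exp (T * I) * (exp (x * (1 + I)) - 1) := by
            rw [Complex.exp_add]; ring
          rw [e]
          refine (norm_add_le _ _).trans (add_le_add b2 ?_)
          rw [norm_mul, Complex.norm_exp_ofReal_mul_I, one_mul, ← b0]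
          exact b1
        have b4 : |x| ≤ |P.smC T κ| + |x - P.smC T κ| := by
          simpa using abs_add_le (P.smC T κ) (x - P.smC T κ)
        have b5 : ‖exp (T * I + x * (1 + I)) - 1‖ ≤
            |T| + (|P.smC T κ| + |x - P.smC T κ|) * Real.sqrt 2 * Real.exp r :=
          b3.trans (by gcongr)
        have b6 := (P.sm_D T (T + x) hx hr hCp).trans (mul_le_mul_of_nonneg_left (m1 x hx) hCp0)
        rw [← sm_pt] at b6
        rw [hn]
        calc _ ≤ P.lam * (|T| + (|P.smC T κ| + |x - P.smC T κ|) * Real.sqrt 2 * Real.exp r) *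
              (Cp * (E0 * Real.exp (-(κ / P.δ * (x - P.smC T κ) ^ 2)))) :=
              mul_le_mul (mul_le_mul_of_nonneg_left b5 hl0) b6 (norm_nonneg _) (by positivity)
          _ = _ := by ring)
      (fun s hs => by rw [sm_ptU]; exact hray _ _ _ har (m2 s hs))
      (fun s hs => by rw [sm_ptD]; exact hray _ _ _ har' (m3 s hs))
    simp only [mul_zero, add_zero, sub_zero] at this
    exact this

theorem sm_norms (hδ : 0 < P.δ) (T : ℝ) :
    ‖P.cF T‖ = Real.sqrt P.L * ‖(P.Vtop T).1‖ ∧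
      ‖P.nF T‖ ≤ Real.sqrt P.L * ‖(P.Vtop T).2 - I * T * (P.Vtop T).1‖ / (P.lam * P.cg ^ 2) +
        Real.sqrt P.L * ‖(P.Vtop T).1‖ * |T| / P.cg := by
  have hg := P.cg_pos
  have hsg := P.sg_pos hδ
  have e0 : ‖exp (-(I * T ^ 2 / (2 * P.δ)))‖ = 1 := by
    have e : -(I * T ^ 2 / (2 * P.δ)) = ((-(T ^ 2 / (2 * P.δ)) : ℝ) : ℂ) * I := by
      push_cast; ring
    rw [e, Complex.norm_exp_ofReal_mul_I]
  have e1 : ‖((Real.sqrt P.L : ℝ) : ℂ)‖ = Real.sqrt P.L := by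
    rw [Complex.norm_real, Real.norm_of_nonneg (Real.sqrt_nonneg _)]
  have e2 : ‖I * T - P.ref T‖ = |T| * P.sg := by
    have a1 : (P.cg : ℂ) ^ 2 + (P.sg : ℂ) ^ 2 = 1 := by exact_mod_cast P.sq_add
    have a2 : I * T - P.ref T = T * P.sg * (P.cg + P.sg * I) := by
      unfold ref
      linear_combination (-(I * T)) * a1
    rw [a2, norm_mul, norm_mul, Complex.norm_add_mul_I, P.sq_add, Real.sqrt_one, mul_one,
      Complex.norm_real, Complex.norm_real, Real.norm_eq_abs, Real.norm_of_nonneg hsg.le]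
  have e3 : P.sc = P.lam * P.cg ^ 2 := by unfold sc sg; ring
  have hsc : 0 < P.sc := mul_pos hsg hg
  constructor
  · rw [P.cF_eq hδ, cV, norm_mul, norm_mul, e0, e1, mul_one, sub_zero]
  · rw [P.nF_eq hδ, nV, norm_div, norm_mul, norm_mul, e0, e1, mul_one, sub_zero, sub_zero,
      Complex.norm_real, Real.norm_of_nonneg hsc.le, ← e3]
    have a1 : (P.Vtop T).2 - P.ref T * (P.Vtop T).1 =
        ((P.Vtop T).2 - I * T * (P.Vtop T).1) + (I * T - P.ref T) * (P.Vtop T).1 := by ring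
    have a2 := norm_add_le ((P.Vtop T).2 - I * T * (P.Vtop T).1) ((I * T - P.ref T) * (P.Vtop T).1)
    rw [← a1, norm_mul, e2] at a2
    calc _ ≤ Real.sqrt P.L * (‖(P.Vtop T).2 - I * T * (P.Vtop T).1‖ +
          |T| * P.sg * ‖(P.Vtop T).1‖) / P.sc := by gcongr
      _ = _ := by unfold sc; field_simp

theorem sm_scal (hδ : 0 < P.δ) {lp cgl s0 κ : ℝ} (hlp : P.lam ≤ lp) (hcg0 : 0 < cgl)
    (hcg : cgl ≤ P.cg) (hs0 : 0 < s0) (hs : s0 ≤ P.s2) (hκ0 : 0 < κ) :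
    Real.sqrt P.L * (Real.sqrt 2 * Real.sqrt (Real.pi / (κ / P.δ))) ≤
        Real.sqrt (2 * Real.pi / (κ * cgl)) ∧
      Real.sqrt P.L * P.δ ≤ Real.sqrt (lp / s0 / cgl) ∧
      Real.sqrt P.L * P.δ ≤ Real.sqrt (lp / cgl) / Real.sqrt P.s2 ∧
      2 * Real.sqrt (lp / cgl) / κ =
        Real.sqrt (2 * Real.pi / (κ * cgl)) * Real.sqrt (2 * lp / (Real.pi * κ)) := by
  have hg := P.cg_pos
  have hL := P.L_pos hδ
  have hs2 : 0 < P.s2 := hs0.trans_le hs
  have hl0 := P.lam_nonneg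
  have hlp0 : 0 ≤ lp := hl0.trans hlp
  have hpi := Real.pi_pos
  have eL : P.L = 1 / P.δ / P.cg := by rw [← P.L_cg hδ]; field_simp
  have e1 : Real.sqrt P.L * P.δ = Real.sqrt (P.lam / P.s2 / P.cg) := by
    rw [← Real.sqrt_sq hδ.le, ← Real.sqrt_mul hL.le, eL]
    unfold lam
    congr 1
    field_simp
  refine ⟨?_, ?_, ?_, ?_⟩
  · rw [← Real.sqrt_mul zero_le_two, ← Real.sqrt_mul hL.le]
    refine Real.sqrt_le_sqrt ?_
    calc _ = 2 * Real.pi / (κ * P.cg) := by rw [eL]; field_simp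
      _ ≤ _ := by gcongr
  · rw [e1]
    refine Real.sqrt_le_sqrt ?_
    gcongr
  · rw [e1, ← Real.sqrt_div (by positivity), div_right_comm]
    refine Real.sqrt_le_sqrt ?_
    gcongr
  · rw [← Real.sqrt_mul (by positivity)]
    have e : 2 * Real.pi / (κ * cgl) * (2 * lp / (Real.pi * κ)) = (2 / κ) ^ 2 * (lp / cgl) := by
      field_simp
    rw [e, Real.sqrt_mul (by positivity), Real.sqrt_sq (by positivity)]
    ring

theorem sm_final {q G δ κ rate lam cg cgl Cp E0 ev er t c c' PP W Z w hi X n0 n1 : ℝ}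
    (hq : 0 ≤ q) (hκ : 0 < κ) (hrate : 0 < rate) (hlam : 0 < lam) (hcg0 : 0 < cgl)
    (hcg : cgl ≤ cg) (hCp : 0 ≤ Cp) (hE0 : 0 ≤ E0) (hev : 0 ≤ ev) (her : 0 ≤ er) (ht : 0 ≤ t)
    (hc : 0 ≤ c) (hw : 0 < w) (hW : 0 ≤ W) (hhi : 0 ≤ hi) (hPP : 0 ≤ PP) (hc'0 : 0 ≤ c')
    (hc' : Real.sqrt 2 * er * c ≤ c' * t) (h1 : q * (Real.sqrt 2 * G) ≤ PP)
    (h2 : q * δ ≤ W / w) (h3 : 2 * W / κ ≤ PP * Z) (h0 : q * n0 ≤ hi * E0)
    (hn : n1 ≤ Real.sqrt 2 * (lam * Cp * E0 * (t + Real.sqrt 2 * er * c) * G +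
      lam * Cp * E0 * (Real.sqrt 2 * er) / (κ / δ)) +
        2 * (lam * (1 + er) * Cp * (E0 * ev) / (rate / δ)))
    (hX : X ≤ q * n1 / (lam * cg ^ 2) + q * n0 * t / cg) :
    X ≤ ((PP * Cp * (1 + c') / cgl ^ 2 + hi / cgl) * t +
      (PP * Cp * er * Z / cgl + 2 * W * ev * (1 + er) * Cp / (rate * cgl)) / (w * cg)) * E0 := by
  have hg : 0 < cg := hcg0.trans_le hcg
  have s2 : Real.sqrt 2 * Real.sqrt 2 = 2 := Real.mul_self_sqrt zero_le_two
  have a0 : q * n0 * t / cg ≤ hi / cgl * t * E0 :=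
    calc _ ≤ hi * E0 * t / cgl := by gcongr
      _ = _ := by ring
  have a1 : q * n1 / (lam * cg ^ 2) ≤
      (q * (Real.sqrt 2 * G)) * (Cp * E0 * (t + Real.sqrt 2 * er * c)) / cg ^ 2 +
        (2 * (q * δ) / κ) * (Cp * er * E0) / (cg * cg) +
        (q * δ) * (2 * ev * (1 + er) * Cp * E0) / (rate * cg * cg) :=
    calc _ ≤ q * (Real.sqrt 2 * (lam * Cp * E0 * (t + Real.sqrt 2 * er * c) * G +
          lam * Cp * E0 * (Real.sqrt 2 * er) / (κ / δ)) +
          2 * (lam * (1 + er) * Cp * (E0 * ev) / (rate / δ))) / (lam * cg ^ 2) := by gcongr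
      _ = _ := by
        field_simp
        linear_combination (q * Cp * E0 * er * δ * rate) * s2
  have a2 : (q * (Real.sqrt 2 * G)) * (Cp * E0 * (t + Real.sqrt 2 * er * c)) / cg ^ 2 ≤
      PP * Cp * (1 + c') / cgl ^ 2 * t * E0 :=
    calc _ ≤ PP * (Cp * E0 * (t + c' * t)) / cgl ^ 2 := by gcongr
      _ = _ := by ring
  have a3 : (2 * (q * δ) / κ) * (Cp * er * E0) / (cg * cg) ≤
      PP * Cp * er * Z / cgl / (w * cg) * E0 :=
    calc _ ≤ (2 * (W / w) / κ) * (Cp * er * E0) / (cgl * cg) := by gcongr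
      _ = (2 * W / κ) * (Cp * er * E0) / (w * cgl * cg) := by field_simp
      _ ≤ (PP * Z) * (Cp * er * E0) / (w * cgl * cg) := by gcongr
      _ = _ := by field_simp
  have a4 : (q * δ) * (2 * ev * (1 + er) * Cp * E0) / (rate * cg * cg) ≤
      2 * W * ev * (1 + er) * Cp / (rate * cgl) / (w * cg) * E0 :=
    calc _ ≤ (W / w) * (2 * ev * (1 + er) * Cp * E0) / (rate * cgl * cg) := by gcongr
      _ = _ := by field_simp
  have e : ((PP * Cp * (1 + c') / cgl ^ 2 + hi / cgl) * t +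
      (PP * Cp * er * Z / cgl + 2 * W * ev * (1 + er) * Cp / (rate * cgl)) / (w * cg)) * E0 =
      PP * Cp * (1 + c') / cgl ^ 2 * t * E0 + hi / cgl * t * E0 +
        PP * Cp * er * Z / cgl / (w * cg) * E0 +
        2 * W * ev * (1 + er) * Cp / (rate * cgl) / (w * cg) * E0 := by ring
  linarith

/-- bounds for the complete piece when `lam` is small -/
theorem small_entry (hδ : 0 < P.δ) {T r lp th cgl s0 κ cS rs rate ev PP Cp cT hi A C : ℝ}
    (hr0 : 0 < r) (hr : r ≤ 2) (hlp : P.lam ≤ lp) (hth : 1 - 2 * P.p ≤ th) (hcg0 : 0 < cgl)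
    (hcg : cgl ≤ P.cg) (hs0 : 0 < s0) (hs : s0 ≤ P.s2) (hκ0 : 0 < κ)
    (hκ : κ ≤ 1 - lp * ((1 + (1 - 2 * P.p) ^ 2) * Real.exp ((1 - 2 * P.p) * r) / 2 +
      2 * (P.p * (1 - P.p)) * (1 + r / 3 + r ^ 2 / 2)))
    (hcS0 : 0 ≤ cS) (hcS : cS ≤ 1 - lp * (1 + th ^ 2) / (2 * κ))
    (hrs : lp * Real.sqrt (1 + th ^ 2) / κ ≤ rs) (hrs' : rs ≤ r) (hrate0 : 0 < rate)
    (hrate : rate ≤ r - lp * Real.exp (th * r))
    (hev : Real.exp (-(κ * (r - rs) ^ 2 * s0 / lp)) ≤ ev)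
    (hPP : Real.sqrt (2 * Real.pi / (κ * cgl)) ≤ PP)
    (hCp : Real.exp (P.p * (1 - P.p) * (Real.exp ((1 - 2 * P.p) * r) + 1 + (1 - 2 * P.p) * r) +
      P.p * r) ≤ Cp)
    (hcT0 : 0 ≤ cT) (hcT : cT * T ^ 2 ≤ 1 - Real.cos T)
    (hhi : PP + 2 * Real.sqrt (lp / s0 / cgl) / rate * ev ≤ hi)
    (hA : PP * Cp * (1 + Real.exp r * lp * Real.sqrt (2 * (1 + th ^ 2)) / (2 * κ)) / cgl ^ 2 +
      hi / cgl ≤ A)
    (hC : PP * Cp * Real.exp r * Real.sqrt (2 * lp / (Real.pi * κ)) / cgl +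
      2 * Real.sqrt (lp / cgl) * ev * (1 + Real.exp r) * Cp / (rate * cgl) ≤ C) :
    P.Up T (P.cF T) (P.nF T) hi (-(cS * cT)) A 0 C := by
  have hs2 : 0 < P.s2 := hs0.trans_le hs
  have hl0 : 0 < P.lam := mul_pos hδ hs2
  have hlp0 : 0 < lp := hl0.trans_le hlp
  have hg := P.cg_pos
  have hev0 : 0 ≤ ev := (Real.exp_pos _).le.trans hev
  have hCp0 : 0 ≤ Cp := (Real.exp_pos _).le.trans hCp
  have hPP0 : 0 ≤ PP := (Real.sqrt_nonneg _).trans hPP
  have hhi0 : 0 ≤ hi := le_trans (by positivity) hhi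
  have c1 : |P.smC T κ| ≤ rs := by
    refine (P.sm_centre hlp hth hκ0 zero_le_two (by linarith [Real.neg_one_le_cos T])).trans ?_
    refine le_trans (le_of_eq ?_) hrs
    field_simp
  have c2 := P.sm_centre (T := T) hlp hth hκ0 (abs_nonneg T) (by
    rw [sq_abs]; linarith [Real.one_sub_sq_div_two_le_cos (x := T)])
  have c3 := abs_le.1 c1
  have hsl := fun x hx => P.sm_slant (x := x) hδ hlp hth hκ0 hκ hcS0 hcS hcT0 hcT hx
  have hend : ∀ a σ s : ℝ, (σ = 1 ∨ σ = -1) → a = σ * r → 0 ≤ s →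
      Real.exp (P.smY T a (T + a + σ * s)) ≤
        Real.exp (P.ka * (T ^ 2 * -(cS * cT))) * ev * Real.exp (-(rate / P.δ * s)) := by
    intro a σ s hσ ha hs'
    have b1 := P.sm_rayY (T := T) hδ hr0.le hlp hth hrate hσ ha hs'
    have b2 := hsl a (by rcases hσ with h | h <;> simp [ha, h, abs_of_pos hr0])
    have b3 : (r - rs) ^ 2 ≤ (a - P.smC T κ) ^ 2 := by
      rcases hσ with h | h
      · rw [ha, h, one_mul]
        exact pow_le_pow_left₀ (by linarith) (by linarith [c3.2]) 2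
      · rw [ha, h, ← neg_sq (-1 * r - P.smC T κ)]
        exact pow_le_pow_left₀ (by linarith) (by linarith [c3.1]) 2
    have b4 : s0 / lp ≤ 1 / P.δ := by
      rw [div_le_div_iff₀ hlp0 hδ, one_mul, mul_comm]
      exact (mul_le_mul_of_nonneg_left hs hδ.le).trans hlp
    have b5 : κ * (r - rs) ^ 2 * s0 / lp ≤ κ / P.δ * (a - P.smC T κ) ^ 2 :=
      calc _ = κ * (r - rs) ^ 2 * (s0 / lp) := by ring
        _ ≤ κ * (a - P.smC T κ) ^ 2 * (1 / P.δ) := by gcongr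
        _ = _ := by ring
    refine le_trans ?_ (mul_le_mul_of_nonneg_right
      (mul_le_mul_of_nonneg_left hev (Real.exp_pos _).le) (Real.exp_pos _).le)
    rw [← Real.exp_add, ← Real.exp_add]
    exact Real.exp_le_exp.2 (by linarith)
  have hM : P.smMaj T r κ rate (Real.exp (P.ka * (T ^ 2 * -(cS * cT)))) ev := by
    refine ⟨fun x hx => ?_, fun s hs' => hend r 1 s (Or.inl rfl) (one_mul r).symm hs',
      fun s hs' => hend (-r) (-1) s (Or.inr rfl) (neg_one_mul r).symm hs'⟩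
    rw [← Real.exp_add]
    exact Real.exp_le_exp.2 (hsl x hx)
  obtain ⟨i0, i1⟩ := P.sm_ints hδ hr0 hr hκ0 hrate0 (Real.exp_pos _).le hev0 (c1.trans hrs') hCp hM
  obtain ⟨n0, n1⟩ := P.sm_norms hδ T
  obtain ⟨q1, q2, q3, q4⟩ := P.sm_scal hδ hlp hcg0 hcg hs0 hs hκ0
  unfold Up Ub
  have hE0 := (Real.exp_pos (P.ka * (T ^ 2 * -(cS * cT)))).le
  generalize Real.exp (P.ka * (T ^ 2 * -(cS * cT))) = E0 at i0 i1 hE0 ⊢
  have f0 : Real.sqrt P.L * ‖(P.Vtop T).1‖ ≤ hi * E0 :=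
    calc _ ≤ Real.sqrt P.L * (Real.sqrt 2 * (E0 * Real.sqrt (Real.pi / (κ / P.δ))) +
          2 * (E0 * ev / (rate / P.δ))) := mul_le_mul_of_nonneg_left i0 (Real.sqrt_nonneg _)
      _ = (Real.sqrt P.L * (Real.sqrt 2 * Real.sqrt (Real.pi / (κ / P.δ))) +
          2 * (Real.sqrt P.L * P.δ) / rate * ev) * E0 := by field_simp
      _ ≤ (PP + 2 * Real.sqrt (lp / s0 / cgl) / rate * ev) * E0 := by
          have := q1.trans hPP
          gcongr
      _ ≤ _ := mul_le_mul_of_nonneg_right hhi hE0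
  refine ⟨n0.le.trans f0, ?_⟩
  have f1 : Real.sqrt 2 * Real.exp r * |P.smC T κ| ≤
      Real.exp r * lp * Real.sqrt (2 * (1 + th ^ 2)) / (2 * κ) * |T| :=
    calc _ ≤ Real.sqrt 2 * Real.exp r * (lp * Real.sqrt (1 + th ^ 2) * |T| / (2 * κ)) := by gcongr
      _ = _ := by rw [Real.sqrt_mul zero_le_two]; ring
  have f2 := sm_final (Real.sqrt_nonneg P.L) hκ0 hrate0 hl0 hcg0 hcg hCp0 hE0 hev0
    (Real.exp_pos r).le (abs_nonneg T) (abs_nonneg _) (Real.sqrt_pos.2 hs2) (Real.sqrt_nonneg _)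
    hhi0 hPP0 (by positivity) f1 (q1.trans hPP) q3
    (q4.le.trans (mul_le_mul_of_nonneg_right hPP (Real.sqrt_nonneg _))) f0 i1 n1
  refine f2.trans (mul_le_mul_of_nonneg_right ?_ hE0)
  rw [zero_div, add_zero]
  have := Real.sqrt_pos.2 hs2
  gcongr

end Par

end Pool.Agent.Sok
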