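import Pool.Agent.Sok.Fact
import Pool.Agent.Sok.HBb

/-! Table entries obtained from a vertical line, and entries for small `δ`. -/

set_option autoImplicit false

namespace Pool.Agent.Sok

open TM Complex

structure LC where
  ah : ℤ
  φ1 : ℤ
  φj : ℤ
  jpi : Bool
  y0 : ℤ

/-- The line `re w = a = ∓ ah sc` from height `∓π` (far side) to `±φj` (near side, `±π` if `jpi`).
The large parameter is `s2`, the moment is taken about `0` outside of the central part.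
The continuation gets `a`, `cj`, `PG`, `e1`, `e2`, `I`, `M`. -/
def lineV (c : Col) (a : Ac) (pos : Bool) (d : LC)
    (k : TM → ℤ → ℤ → ℤ → ℤ → ℤ → ℤ → Bool) : Bool :=
  ltI 0 d.ah && leI piU (2 * d.φ1) && leI d.φ1 piD &&
  smul c.sc (cond pos (-d.ah) d.ah) fun w => fI (mulU c.sch d.ah) fun al => leI al (2 * one) &&
  mul c.th w fun va => exp va fun ep => neg va fun b => exp b fun em =>
  fI (one - divU (mulU d.φ1 d.φ1) (12 * one)) fun c1l =>
  fI (one - divD (mulD d.φ1 d.φ1) (12 * one)) fun c1h => ltI 0 c1l &&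
  mul c.c2 em fun ce => smul ce (divU half c1l) fun b1 =>
  mul va va fun b => nmul va 2 fun b' => add b b' fun b => ndiv b 12 fun b =>
  addc b half 0 fun b => mul c.th c.th fun t2 => mul t2 b fun b2 =>
  mul w w fun b => mul c.om b fun b => nmul b 3 fun b => add b b' fun b => ndiv b 6 fun b =>
  addc b one 0 fun b => mul c.s1 b fun b3 => add b2 b3 fun b => mul c.sg2 b fun b =>
  add b1 b fun b => hi b fun bh => leI 0 bh && fI (mulU (mulU d.ah d.ah) bh) fun bh =>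
  leI bh d.y0 && lo c.c2 fun c2l => fI (mulD (maxI 0 c2l) (d.y0 - bh)) fun sk =>
  hi ce fun xh => lo ce fun xl => lo ep fun epl => hi em fun emh => lo em fun eml =>
  leI 0 epl && leI 0 eml &&
  fI (d.φ1 - divU (mulU d.ah xh) c1l) fun dN => fI (d.φ1 + divD (mulD d.ah (maxI 0 xl)) c1h) fun dF =>
  leI 0 dN && fI (mulD half (mulD epl c1l)) fun κ =>
  fI (divU emh c1l) fun e2 => fI (divD eml c1h) fun e1 =>
  fI (sqrtU (mulU (2 * piU) e2)) fun PG => fI (piU + al) fun far =>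
  aB a (mulD κ (mulD dF dF) + sk) (piU - d.φ1) far 0 0 fun I M =>
  fI (cond d.jpi (-one) (cosU d.φj)) fun cj => leI cj 0 &&
  (d.jpi || (leI d.φ1 d.φj && leI d.φj piD)) &&
  (cond d.jpi (fun k' => k' c.pi) (cst d.φj 0)) fun φ => smul φ (-d.ah) fun b =>
  addc b d.y0 0 fun b => mul c.c2 b fun b => hblT c w cj fun hb => sub b hb fun b => lo b fun gj =>
  aB a (minI (mulD κ (mulD dN dN) + sk) gj) (cond d.jpi piU d.φj - d.φ1) far I M fun I M =>
  k w cj PG e1 e2 I M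

/-- the continuation gets `hi Af PG li B C` -/
def lineOut (c : Col) (PG e2 I M : ℤ) (k : ℤ → ℤ → ℤ → ℤ → ℤ → ℤ → Bool) : Bool :=
  fI (sqrtD c.sgl) fun r => ltI 0 r && ltI 0 c.sgl &&
  fI (divU (PG + I) r) fun h => fI (divU (divU I r) c.sgl) fun Af => fI (divU PG r) fun PG =>
  fI (divU c.cgh c.sgl) fun li => fI (divU (divU M r) c.sgl) fun B =>
  fI (divU (divU (2 * e2) r) c.sgl) fun C => k h Af PG li B C

def chkI (c : Col) (f : FI) (φ1 : ℤ) : Bool :=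
  mkAc c.s02 2 fun a => leI 0 f.TI &&
  lineV c a f.pos ⟨f.ah, φ1, 0, true, f.y0⟩ fun _ _ PG e1 e2 I M =>
  lineOut c PG e2 I M fun h Af PG li B C =>
  leI h f.hi && leI Af f.Af && leI PG f.PG && leI f.e1 e1 && leI e2 f.e2 && leI li f.li &&
  leI B f.B && leI C f.C

/-- lower bound of `H - hb - cg² x (T - φ)` -/
def gapS (c : Col) (T H : TM) (x : ℤ) (φ hb : TM) (k : ℤ → Bool) : Bool :=
  sub T φ fun d => mul c.c2 d fun d => smul d x fun d => add d hb fun d => sub H d fun d => lo d k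

/-- horizontal segment at height `pi = ±π` between the normalised abscissae `x1`, `x2` -/
def horS (c : Col) (a : Ac) (T H pi : TM) (x1 x2 I M : ℤ) (k : ℤ → ℤ → Bool) : Bool :=
  fI (mulU c.sch (maxI (absI x1) (absI x2))) fun m => leI m (2 * one) &&
  smul c.sc x1 fun w => hblT c w (-one) fun hb => gapS c T H x1 pi hb fun g1 =>
  smul c.sc x2 fun w => hblT c w (-one) fun hb => gapS c T H x2 pi hb fun g2 =>
  aB a (minI g1 g2) (mulU c.sch (absI (x1 - x2))) (piU + m) I M k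

/-- the continuation gets `hi A B C` -/
def valL (c : Col) (pos : Bool) (xs xe T1 T2 : ℤ) (d : LC) (k : ℤ → ℤ → ℤ → ℤ → Bool) : Bool :=
  mkAc c.s02 2 fun a => fI (cond pos T1 (-T2)) fun τ1 => fI (cond pos T2 (-T1)) fun τ2 =>
  ltI 0 τ1 && leI τ1 τ2 && var 2 T1 T2 fun T => fI (cond pos (-d.ah) d.ah) fun x =>
  lineV c a pos d fun w cj PG e1 e2 I M =>
  smul T x fun b => addc b d.y0 0 fun b => mul c.c2 b fun H =>
  sgT pos c.pi fun pn => neg pn fun pf =>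
  horS c a T H pf x (cond pos xs xe) I M fun I M =>
  (fun k' : ℤ → ℤ → Bool => cond d.jpi (horS c a T H pn x (cond pos xe xs) I M k')
    (lo H fun hl => fI (hl + one - cj) fun g0 => cst (cond pos d.φj (-d.φj)) 0 fun φ =>
      hblT c w cj fun hb => gapS c T H x φ hb fun g => fI (mulU c.sch d.ah) fun al =>
      aB a (minI g0 g) al (d.φj + al) I M fun I M => aB a g0 (piU - d.φj) piU I M fun I M =>
      horS c a T H pn 0 (cond pos xe xs) I M k')) fun I M =>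
  lineOut c PG e2 I M fun h Af PG li B C =>
  fI (divD d.ah τ2) fun u1 => fI (divU d.ah τ1) fun u2 =>
  fI (maxI (one - u1) (u2 - one)) fun m1 =>
  fI (mulU li (maxI (one - mulD u1 e1) (mulU u2 e2 - one))) fun m2 =>
  fI (Af + mulU PG (sqrtU (mulU m1 m1 + mulU m2 m2))) fun A => k h A B C

def chkL (c : Col) (f : FU) (pos : Bool) (d : LC) : Bool :=
  !f.g.full && leI f.hh 0 &&
  leI (d.y0 - mulD d.ah (absI f.T1)) (mulD f.hh (mulU f.T1 f.T1)) &&
  leI (d.y0 - mulD d.ah (absI f.T2)) (mulD f.hh (mulU f.T2 f.T2)) &&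
  valL c pos f.g.xs f.g.xe f.T1 f.T2 d fun h A B C =>
    leI h f.hi && leI A f.A && leI B f.B && leI C f.C

/-- the constants of `small_entry`; the continuation gets `cS hi A C` -/
def valS (c : Col) (r : ℤ) (k : ℤ → ℤ → ℤ → ℤ → Bool) : Bool :=
  ltI 0 r && leI r (2 * one) && ltI 0 c.cgl &&
  inv c.cg fun b => mul c.sg b fun b => hi b fun lp => ltI 0 lp && hi c.th fun th =>
  smul c.th r fun tr => exp tr fun et => mul c.th c.th fun b => addc b one 0 fun b =>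
  mul b et fun b => ndiv b 2 fun b =>
  smul c.s1 (one + divU r (3 * one) + mulU half (mulU r r)) fun b' => add b b' fun b =>
  hi b fun c2 => fI (one - mulU lp c2) fun κ => ltI 0 κ &&
  fI (one + mulU th th) fun t2 => fI (one - divU (mulU lp t2) (2 * κ)) fun cS => leI 0 cS &&
  fI (divU (mulU lp (sqrtU t2)) κ) fun rs => leI rs r &&
  fI (r - mulU lp (expU (mulU th r))) fun rate => ltI 0 rate &&
  fI (expU (-(divD (mulD (mulD κ (mulD (r - rs) (r - rs))) c.s02) lp))) fun ev =>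
  fI (mulD κ c.cgl) fun kc => ltI 0 kc && fI (sqrtU (divU (2 * piU) kc)) fun PP =>
  add et tr fun b => addc b one 0 fun b => mul c.pq b fun b => smul c.p r fun b' =>
  add b b' fun b => hi b fun b => fI (expU b) fun Cp => fI (expU r) fun er =>
  fI (PP + mulU (divU (2 * sqrtU (divU (divU lp c.s02) c.cgl)) rate) ev) fun h =>
  fI (mulU PP Cp) fun pc =>
  fI (divU (divU (mulU pc (one + divU (mulU (mulU er lp) (sqrtU (2 * t2))) (2 * κ))) c.cgl) c.cgl
    + divU h c.cgl) fun A =>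
  fI (divU (mulU (mulU pc er) (sqrtU (divU (divU (2 * lp) piD) κ))) c.cgl +
    divU (divU (mulU (mulU (mulU (2 * sqrtU (divU lp c.cgl)) ev) (one + er)) Cp) rate) c.cgl)
    fun C => k cS h A C

/-- lower bound of `(1 - cos T)/T²` for `T² ≤ u` -/
def cosQ (u : ℤ) : ℤ :=
  maxI 0 (half - divU u (24 * one) + divD (mulD u u) (720 * one) -
    divU (mulU u (mulU u u)) (40320 * one))

def chkS1 (cS h A C : ℤ) (f : FU) : Bool :=
  f.g.full && leI h f.hi && leI A f.A && leI 0 f.B && leI C f.C &&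
  leI (-(mulD cS (cosQ (maxI (mulU f.T1 f.T1) (mulU f.T2 f.T2))))) f.hh

def chkS (c : Col) (r : ℤ) (l : List FU) : Bool :=
  valS c r fun cS h A C => l.all (chkS1 cS h A C)

section rr

variable {x : Pt} {a b : TM} {r s : ℝ} {u : ℤ} {k : TM → Bool}

theorem lla_eq (h : RepA x a r) (e : r = s) : RepA x a s := e ▸ h

theorem lla_c {z : ℂ} (h : RepA x a z) (e : z = r) : RepA x a r := e ▸ h

theorem lla_mul (ha : RepA x a r) (hb : RepA x b s) (h : mul a b k = true) :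
    ∃ c, k c = true ∧ RepA x c (r * s : ℝ) := by
  obtain ⟨c, h, q⟩ := mul_ok h
  exact ⟨c, h, lla_c (fun y hy => q _ _ _ (ha y hy) (hb y hy)) (ofReal_mul _ _).symm⟩

theorem lla_add (ha : RepA x a r) (hb : RepA x b s) (h : add a b k = true) :
    ∃ c, k c = true ∧ RepA x c (r + s : ℝ) := by
  obtain ⟨c, h, q⟩ := add_ok h
  exact ⟨c, h, lla_c (fun y hy => q _ _ _ (ha y hy) (hb y hy)) (ofReal_add _ _).symm⟩

theorem lla_sub (ha : RepA x a r) (hb : RepA x b s) (h : sub a b k = true) :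
    ∃ c, k c = true ∧ RepA x c (r - s : ℝ) := by
  obtain ⟨c, h, q⟩ := sub_ok h
  exact ⟨c, h, lla_c (fun y hy => q _ _ _ (ha y hy) (hb y hy)) (ofReal_sub _ _).symm⟩

theorem lla_neg (ha : RepA x a r) (h : neg a k = true) :
    ∃ c, k c = true ∧ RepA x c (-r : ℝ) := by
  obtain ⟨c, h, q⟩ := neg_ok h
  exact ⟨c, h, lla_c (fun y hy => q _ _ (ha y hy)) (ofReal_neg _).symm⟩

theorem lla_exp (ha : RepA x a r) (h : TM.exp a k = true) :
    ∃ c, k c = true ∧ RepA x c (Real.exp r : ℝ) := by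
  obtain ⟨c, h, q⟩ := exp_ok h
  exact ⟨c, h, lla_c (fun y hy => q _ _ (ha y hy)) (ofReal_exp _).symm⟩

theorem lla_smul (ha : RepA x a r) (h : smul a u k = true) :
    ∃ c, k c = true ∧ RepA x c (r * toR u : ℝ) := by
  obtain ⟨c, h, q⟩ := smul_ok h
  exact ⟨c, h, lla_c (fun y hy => q _ _ (ha y hy)) (ofReal_mul _ _).symm⟩

theorem lla_nmul (ha : RepA x a r) (h : nmul a u k = true) :
    ∃ c, k c = true ∧ RepA x c (r * u : ℝ) := by
  obtain ⟨c, h, q⟩ := nmul_ok h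
  exact ⟨c, h, lla_c (fun y hy => q _ _ (ha y hy)) (by push_cast; rfl)⟩

theorem lla_ndiv {n : ℕ} (ha : RepA x a r) (h : ndiv a n k = true) :
    ∃ c, k c = true ∧ RepA x c (r / n : ℝ) := by
  obtain ⟨c, h, q⟩ := ndiv_ok h
  exact ⟨c, h, lla_c (fun y hy => q _ _ (ha y hy)) (by push_cast; rfl)⟩

theorem lla_toC (u : ℤ) : toC u 0 = (toR u : ℝ) := Complex.ext rfl toR_zero

theorem lla_addc (ha : RepA x a r) (h : addc a u 0 k = true) :
    ∃ c, k c = true ∧ RepA x c (r + toR u : ℝ) := by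
  obtain ⟨c, h, q⟩ := addc_ok h
  exact ⟨c, h, lla_c (fun y hy => q _ _ (ha y hy)) (by rw [lla_toC, ofReal_add])⟩

theorem lla_cst (h : cst u 0 k = true) : ∃ c, k c = true ∧ RepA x c (toR u : ℝ) := by
  obtain ⟨c, h, q⟩ := cst_ok h
  exact ⟨c, h, lla_c (fun y hy => q _) (lla_toC u)⟩

theorem lla_hi {k : ℤ → Bool} (ha : RepA x a r) (h : hi a k = true) :
    ∃ v, k v = true ∧ r ≤ toR v := by
  obtain ⟨c, h, q⟩ := hi_ok h
  exact ⟨c, h, q _ _ ha.rep⟩

theorem lla_lo {k : ℤ → Bool} (ha : RepA x a r) (h : lo a k = true) :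
    ∃ v, k v = true ∧ toR v ≤ r := by
  obtain ⟨c, h, q⟩ := lo_ok h
  exact ⟨c, h, q _ _ ha.rep⟩

end rr

theorem lla_nn {u : ℤ} : 0 ≤ toR u ↔ 0 ≤ u := by rw [← toR_zero, toR_le]

theorem lla_mulD {u v : ℤ} (hu : 0 ≤ toR u) (hv : 0 ≤ toR v) : 0 ≤ toR (mulD u v) :=
  mulD_nonneg hu hv

theorem lla_divD {u v : ℤ} (hu : 0 ≤ toR u) (hv : 0 ≤ toR v) : 0 ≤ toR (divD u v) :=
  divD_nonneg hu hv

theorem lla_le0 {u : ℤ} (h : leI 0 u = true) : 0 ≤ toR u := toR_zero ▸ leI_ok h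

theorem lla_lt0 {u : ℤ} (h : ltI 0 u = true) : 0 < toR u := toR_zero ▸ ltI_ok h

theorem lla_two (u : ℤ) : toR (2 * u) = 2 * toR u := by rw [toR_intmul]; norm_num

theorem lla_12 : toR (12 * one) = 12 := by rw [toR_intmul, toR_one]; norm_num

/-- the sign of the parameter -/
def llaS (pos : Bool) : ℝ := cond pos 1 (-1)

theorem llaS_or (pos : Bool) : llaS pos = 1 ∨ llaS pos = -1 := by cases pos <;> simp [llaS]

theorem llaS_neg (pos : Bool) (u : ℤ) : toR (cond pos (-u) u) = -llaS pos * toR u := by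
  cases pos <;> simp [llaS, toR_neg]

theorem llaS_pos (pos : Bool) (u : ℤ) : toR (cond pos u (-u)) = llaS pos * toR u := by
  cases pos <;> simp [llaS, toR_neg]

/-- the conclusion of `aB_ok` -/
def llaB (L W g len dist I M : ℝ) : Prop :=
  ∀ (J : Prim) (E0 : ℝ) (zr z h : ℂ), 0 ≤ E0 →
    (∀ s : ℝ, 0 ≤ s → s ≤ 1 → ‖J.E (z + s * h)‖ ≤ E0 * Real.exp (-(L * g)) ∧
      ‖z + s * h - zr‖ ≤ dist) → ‖h‖ ≤ len → Bd L E0 W zr (J.P z) (J.P (z + h)) I M

theorem lla_norm (a θ : ℝ) : ‖(a : ℂ) + θ * I‖ ≤ |a| + |θ| :=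
  (norm_add_le _ _).trans_eq (by simp)

section seg

variable {P : Par} {T W g len dist I M Y : ℝ}

theorem lla_ver (hδ : 0 < P.δ) (hB : llaB P.s2 W g len dist I M) {a σ u1 u2 : ℝ}
    (hσ : σ = 1 ∨ σ = -1) (h0 : 0 ≤ u1) (h12 : u1 ≤ u2) (hl : u2 - u1 ≤ len)
    (hd : |a| + u2 ≤ dist) (hE : ∀ u, u1 ≤ u → u ≤ u2 →
      ‖P.E T (a + (σ * u : ℝ) * Complex.I)‖ ≤ Real.exp (Y - P.s2 * g)) :
    Bd P.s2 (Real.exp Y) W 0 (P.V T (a + (σ * u1 : ℝ) * Complex.I))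
      (P.V T (a + (σ * u2 : ℝ) * Complex.I)) I M := by
  have hs : |σ| = 1 := by rcases hσ with h | h <;> simp [h]
  have := hB (gP P.N (1 - P.p) P.p (P.β T) hδ) (Real.exp Y) 0 (a + (σ * u1 : ℝ) * Complex.I)
    ((σ * (u2 - u1) : ℝ) * Complex.I) (Real.exp_pos _).le (fun s s0 s1 => ?_) ?_
  · rwa [show (a : ℂ) + (σ * u1 : ℝ) * Complex.I + (σ * (u2 - u1) : ℝ) * Complex.I =
      a + (σ * u2 : ℝ) * Complex.I by push_cast; ring] at this
  · have e1 : u1 ≤ u1 + s * (u2 - u1) := by nlinarith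
    have e2 : u1 + s * (u2 - u1) ≤ u2 := by nlinarith
    rw [show (a : ℂ) + (σ * u1 : ℝ) * Complex.I + s * ((σ * (u2 - u1) : ℝ) * Complex.I) =
      a + (σ * (u1 + s * (u2 - u1)) : ℝ) * Complex.I by push_cast; ring, ← Real.exp_add, sub_zero]
    refine ⟨hE _ e1 e2, (lla_norm _ _).trans ?_⟩
    rw [abs_mul, hs, one_mul, abs_of_nonneg (h0.trans e1)]
    linarith
  · rw [norm_mul, norm_I, mul_one, Complex.norm_real, Real.norm_eq_abs, abs_mul, hs, one_mul,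
      abs_of_nonneg (sub_nonneg.2 h12)]
    exact hl

theorem lla_hor (hδ : 0 < P.δ) (hB : llaB P.s2 W g len dist I M) {a1 a2 φ cc m : ℝ}
    (h1 : |a1| ≤ m) (h2 : |a2| ≤ m) (hm : m ≤ 2) (hc : Real.cos φ ≤ cc) (hc0 : cc ≤ 0)
    (hY1 : a1 * (T - φ) / P.δ + P.s2 * HBl P.p a1 cc ≤ Y - P.s2 * g)
    (hY2 : a2 * (T - φ) / P.δ + P.s2 * HBl P.p a2 cc ≤ Y - P.s2 * g)
    (hl : |a2 - a1| ≤ len) (hd : m + |φ| ≤ dist) :
    Bd P.s2 (Real.exp Y) W 0 (P.V T (a1 + φ * Complex.I)) (P.V T (a2 + φ * Complex.I)) I M := by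
  have := hB (gP P.N (1 - P.p) P.p (P.β T) hδ) (Real.exp Y) 0 (a1 + φ * Complex.I)
    ((a2 - a1 : ℝ) : ℂ) (Real.exp_pos _).le (fun s s0 s1 => ?_) ?_
  · rwa [show (a1 : ℂ) + φ * Complex.I + (a2 - a1 : ℝ) = a2 + φ * Complex.I by
      push_cast; ring] at this
  · rw [← Real.exp_add, sub_zero]
    refine ⟨P.hb_hor hδ T (h1.trans hm) (h2.trans hm) hc hc0 hY1 hY2 s s0 s1, ?_⟩
    rw [show (a1 : ℂ) + φ * Complex.I + s * (a2 - a1 : ℝ) =
      (a1 + s * (a2 - a1) : ℝ) + φ * Complex.I by push_cast; ring]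
    refine (lla_norm _ _).trans (le_trans (add_le_add_left (abs_le.2 ⟨?_, ?_⟩) _) hd)
    · nlinarith [(abs_le.1 h1).1, (abs_le.1 h2).1]
    · nlinarith [(abs_le.1 h1).2, (abs_le.1 h2).2]
  · rwa [Complex.norm_real, Real.norm_eq_abs]

/-- the difference `D` of the primitives is the central part plus a rest bounded by `I`, `M` -/
def llaT (P : Par) (T ah y0 e W : ℝ) (D : ℂ × ℂ) (I M : ℝ) : Prop :=
  ∃ Cr : ℂ × ℂ, Real.sqrt P.s2 * ‖Cr.1‖ ≤
      Real.exp (P.ka * (y0 - |T| * ah)) * Real.sqrt (2 * Real.pi * e) ∧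
    Real.sqrt P.s2 * ‖Cr.2 - P.ref T * Cr.1‖ ≤
      Real.exp (P.ka * (y0 - |T| * ah)) * (Real.sqrt (2 * Real.pi * e) * P.sc *
        Real.sqrt ((|T| - ah) ^ 2 + (P.cg / P.sg * (|T| - ah * e)) ^ 2) +
          2 * e / Real.sqrt P.s2) ∧
    Bd P.s2 (Real.exp (P.ka * (y0 - |T| * ah))) W 0 Cr D I M

variable {ah y0 e I' M' : ℝ} {u v t : ℂ × ℂ}

theorem llaT.right (hW : 0 ≤ W) (h : llaT P T ah y0 e W (v - u) I M)
    (h' : Bd P.s2 (Real.exp (P.ka * (y0 - |T| * ah))) W 0 v t (I' - I) (M' - M)) :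
    llaT P T ah y0 e W (t - u) I' M' := by
  obtain ⟨Cr, h1, h2, h3⟩ := h
  have := h3.trans (w := t - u) (I' := I' - I) (M' := M' - M) hW (by simpa [Bd] using h')
  exact ⟨Cr, h1, h2, by simpa using this⟩

theorem llaT.left (hW : 0 ≤ W) (h : llaT P T ah y0 e W (v - u) I M)
    (h' : Bd P.s2 (Real.exp (P.ka * (y0 - |T| * ah))) W 0 u t (I' - I) (M' - M)) :
    llaT P T ah y0 e W (v - t) I' M' := by
  obtain ⟨Cr, h1, h2, h3⟩ := h
  have := h3.trans (w := v - t) (I' := I' - I) (M' := M' - M) hW (by simpa [Bd] using h'.symm)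
  exact ⟨Cr, h1, h2, by simpa using this⟩

end seg

section line

variable {c : Col} {x : Pt} {P : Par} {a : Ac} {T : ℝ} {pos : Bool} {d : LC}

theorem lla_sc (P : Par) : 0 ≤ P.sc := mul_nonneg P.sg_nonneg P.cg_pos.le

theorem lla_W (ha : a.Ok P.s2) : 0 ≤ a.W P.s2 := wt_nonneg _ ha.1.le P.par_s2_pos.le

theorem lla_abs (hc : c.Ok x P) {u v : ℤ} (h : |toR u| ≤ toR v) :
    |P.sc * toR u| ≤ toR (mulU c.sch v) := by
  rw [abs_mul, abs_of_nonneg (lla_sc P)]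
  exact mulU_le (lla_sc P) (abs_nonneg _) hc.sch h

theorem lla_c2 (hc : c.Ok x P) : RepA x c.c2 (P.cg ^ 2 : ℝ) := lla_c hc.c2 (by push_cast; rfl)

theorem lla_gap {s2 c2 B y0 t X sk g : ℝ} (hs : 0 ≤ s2) (h1 : sk ≤ c2 * (y0 - B))
    (h2 : g ≤ X + sk) : s2 * c2 * (B - t) - s2 * X ≤ s2 * c2 * (y0 - t) - s2 * g := by
  nlinarith [mul_le_mul_of_nonneg_left h1 hs, mul_le_mul_of_nonneg_left h2 hs]

theorem lla_sq {κ u : ℤ} {K z : ℝ} (h0 : 0 ≤ toR κ) (h1 : toR κ ≤ K) (h2 : 0 ≤ toR u)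
    (h3 : toR u ≤ z) : toR (mulD κ (mulD u u)) ≤ K * z ^ 2 :=
  mulD_le h0 (lla_mulD h2 h2) h1 ((mulD_le h2 h2 h3 h3).trans_eq (sq z).symm)

theorem lla_lineV (hc : c.Ok x P) (hδ : 0 < P.δ) (ha : a.Ok P.s2) (hT : llaS pos * T = |T|)
    {k : TM → ℤ → ℤ → ℤ → ℤ → ℤ → ℤ → Bool} (h : lineV c a pos d k = true) :
    ∃ w cj PG e1 e2 I M, k w cj PG e1 e2 I M = true ∧ ∃ e φj A : ℝ,
      0 < toR d.ah ∧ A = P.sc * toR (cond pos (-d.ah) d.ah) ∧ RepA x w A ∧
      |A| ≤ toR (mulU c.sch d.ah) ∧ toR (mulU c.sch d.ah) ≤ 2 ∧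
      φj = cond d.jpi Real.pi (toR d.φj) ∧ 0 ≤ φj ∧ φj ≤ Real.pi ∧ Real.cos φj ≤ toR cj ∧
      toR cj ≤ 0 ∧ 0 ≤ toR e1 ∧ toR e1 ≤ e ∧ e ≤ toR e2 ∧
      Real.sqrt (2 * Real.pi * e) ≤ toR PG ∧
      llaT P T (toR d.ah) (toR d.y0) e (a.W P.s2)
        (P.V T (A + (llaS pos * φj : ℝ) * Complex.I) -
          P.V T (A + (-llaS pos * Real.pi : ℝ) * Complex.I)) (toR I) (toR M) := by
  simp only [lineV, fI_eq, Bool.and_eq_true] at h
  obtain ⟨⟨⟨a0, f0⟩, f1⟩, h⟩ := h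
  replace a0 := lla_lt0 a0
  replace f0 : Real.pi / 2 ≤ toR d.φ1 := by
    have := leI_ok f0
    rw [lla_two] at this
    linarith [piU_ok]
  replace f1 := (leI_ok f1).trans piD_ok
  have f2 : 0 ≤ toR d.φ1 := le_trans (by positivity) f0
  have hth : RepA x c.th (1 - 2 * P.p : ℝ) := lla_c hc.th (by push_cast; rfl)
  have hom : RepA x c.om (1 - 2 * (P.p * (1 - P.p)) : ℝ) := lla_c hc.om (by push_cast; rfl)
  have hs1 : RepA x c.s1 (2 * (P.p * (1 - P.p)) : ℝ) := lla_c hc.s1 (by push_cast; rfl)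
  have hg2 : RepA x c.sg2 (P.sg ^ 2 : ℝ) := lla_c hc.sg2 (by push_cast; rfl)
  have hc2 := lla_c2 hc
  obtain ⟨w, h, qw⟩ := lla_smul hc.sc h
  obtain ⟨A, hA⟩ : ∃ A, A = P.sc * toR (cond pos (-d.ah) d.ah) := ⟨_, rfl⟩
  have hAl : |A| ≤ toR (mulU c.sch d.ah) := hA ▸ lla_abs hc (by
    rw [llaS_neg, abs_mul, abs_of_pos a0]
    rcases llaS_or pos with e | e <;> simp [e])
  have hA' : A = -llaS pos * toR d.ah * P.sc := by rw [hA, llaS_neg, mul_comm]
  rw [← hA] at qw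
  simp only [Bool.and_eq_true] at h
  obtain ⟨a2, h⟩ := h
  replace a2 : toR (mulU c.sch d.ah) ≤ 2 := by
    have := leI_ok a2
    rwa [lla_two, toR_one, mul_one] at this
  obtain ⟨va, h, qva⟩ := lla_mul hth qw h
  obtain ⟨ep, h, qep⟩ := lla_exp qva h
  obtain ⟨b, h, q⟩ := lla_neg qva h
  obtain ⟨em, h, qem⟩ := lla_exp q h
  simp only [Bool.and_eq_true] at h
  obtain ⟨c0, h⟩ := h
  replace c0 := lla_lt0 c0
  obtain ⟨c1, hc1⟩ : ∃ c1, c1 = 1 - toR d.φ1 ^ 2 / 12 := ⟨_, rfl⟩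
  have cl : toR (one - divU (mulU d.φ1 d.φ1) (12 * one)) ≤ c1 := by
    have := divU_le (b := 12 * one) (mul_nonneg f2 f2) (by rw [lla_12]; norm_num)
      (mulU_ok d.φ1 d.φ1) lla_12.le
    rw [toR_sub, toR_one, hc1, sq]
    linarith
  have ch : c1 ≤ toR (one - divD (mulD d.φ1 d.φ1) (12 * one)) := by
    have := divD_le (b := 12 * one) (lla_mulD f2 f2) (by norm_num : (0 : ℝ) < 12)
      (mulD_ok d.φ1 d.φ1) lla_12.ge
    rw [toR_sub, toR_one, hc1, sq]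
    linarith
  generalize one - divU (mulU d.φ1 d.φ1) (12 * one) = c1l at h c0 cl
  generalize one - divD (mulD d.φ1 d.φ1) (12 * one) = c1h at h ch
  have c1p : 0 < c1 := c0.trans_le cl
  obtain ⟨ce, h, qce⟩ := lla_mul hc2 qem h
  obtain ⟨b1, h, qb1⟩ := lla_smul qce h
  obtain ⟨b, h, q⟩ := lla_mul qva qva h
  obtain ⟨b', h, qb'⟩ := lla_nmul qva h
  obtain ⟨b, h, q⟩ := lla_add q qb' h
  obtain ⟨b, h, q⟩ := lla_ndiv q h
  obtain ⟨b, h, q⟩ := lla_addc q h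
  obtain ⟨t2, h, qt⟩ := lla_mul hth hth h
  obtain ⟨b2, h, qb2⟩ := lla_mul qt q h
  obtain ⟨b, h, q⟩ := lla_mul qw qw h
  obtain ⟨b, h, q⟩ := lla_mul hom q h
  obtain ⟨b, h, q⟩ := lla_nmul q h
  obtain ⟨b, h, q⟩ := lla_add q qb' h
  obtain ⟨b, h, q⟩ := lla_ndiv q h
  obtain ⟨b, h, q⟩ := lla_addc q h
  obtain ⟨b3, h, qb3⟩ := lla_mul hs1 q h
  obtain ⟨b, h, q⟩ := lla_add qb2 qb3 h
  obtain ⟨b, h, q⟩ := lla_mul hg2 q h
  obtain ⟨b, h, q⟩ := lla_add qb1 q h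
  obtain ⟨bh, h, qh⟩ := lla_hi q h
  simp only [Bool.and_eq_true] at h
  obtain ⟨b0, by0, h⟩ := h
  replace b0 := lla_le0 b0
  replace by0 := leI_ok by0
  have hem := Real.exp_pos (-((1 - 2 * P.p) * A))
  have hep := Real.exp_pos ((1 - 2 * P.p) * A)
  have hce : 0 < P.cg ^ 2 * Real.exp (-((1 - 2 * P.p) * A)) := mul_pos (pow_pos P.cg_pos 2) hem
  have hB : P.lineB A (toR d.ah) c1 ≤ toR (mulU (mulU d.ah d.ah) bh) := by
    refine le_trans ?_ (mulU_le (mul_nonneg a0.le a0.le) b0 (mulU_ok d.ah d.ah) le_rfl)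
    rw [Par.lineB, sq (toR d.ah)]
    refine mul_le_mul_of_nonneg_left (le_trans ?_ qh) (mul_nonneg a0.le a0.le)
    have := mul_le_mul_of_nonneg_left
      (divU_le (a := half) (x := 1 / 2) (by norm_num) c0 acc_half.ge cl) hce.le
    rw [acc_half, toR_one]
    refine add_le_add (le_trans (le_of_eq ?_) this) (le_of_eq ?_)
    · ring
    · push_cast; ring
  generalize mulU (mulU d.ah d.ah) bh = bh at h by0 hB
  obtain ⟨c2l, h, q2⟩ := lla_lo hc2 h
  have hsk : toR (mulD (maxI 0 c2l) (d.y0 - bh)) ≤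
      P.cg ^ 2 * (toR d.y0 - P.lineB A (toR d.ah) c1) := by
    refine mulD_le ?_ ?_ ?_ ?_ <;> simp only [toR_maxI, toR_sub, toR_zero]
    exacts [le_max_left _ _, by linarith, max_le (sq_nonneg _) q2, by linarith]
  generalize mulD (maxI 0 c2l) (d.y0 - bh) = sk at h hsk
  obtain ⟨xh, h, qxh⟩ := lla_hi qce h
  obtain ⟨xl, h, qxl⟩ := lla_lo qce h
  obtain ⟨epl, h, qpl⟩ := lla_lo qep h
  obtain ⟨emh, h, qmh⟩ := lla_hi qem h
  obtain ⟨eml, h, qml⟩ := lla_lo qem h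
  simp only [Bool.and_eq_true] at h
  obtain ⟨⟨p0, m0⟩, n0, h⟩ := h
  replace p0 := lla_le0 p0
  replace m0 := lla_le0 m0
  replace n0 := lla_le0 n0
  have hN : toR (d.φ1 - divU (mulU d.ah xh) c1l) ≤
      toR d.φ1 - P.cg ^ 2 * toR d.ah * Real.exp (-((1 - 2 * P.p) * A)) / c1 := by
    have := divU_le (mul_pos a0 hce).le c0 (mulU_le a0.le hce.le le_rfl qxh) cl
    rw [toR_sub]
    exact sub_le_sub_left (le_trans (le_of_eq (by ring)) this) _
  have hx0 : 0 ≤ toR (maxI 0 xl) := by rw [toR_maxI, toR_zero]; exact le_max_left _ _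
  have hF : toR (d.φ1 + divD (mulD d.ah (maxI 0 xl)) c1h) ≤
      toR d.φ1 + P.cg ^ 2 * toR d.ah * Real.exp (-((1 - 2 * P.p) * A)) / c1 := by
    have := divD_le (lla_mulD a0.le hx0) c1p (mulD_le a0.le hx0 le_rfl
      (toR_maxI 0 xl ▸ max_le (toR_zero.le.trans hce.le) qxl)) ch
    rw [toR_add]
    exact add_le_add_right (this.trans (le_of_eq (by ring))) _
  have hF0 : 0 ≤ toR (d.φ1 + divD (mulD d.ah (maxI 0 xl)) c1h) := by
    rw [toR_add]
    exact add_nonneg f2 (lla_divD (lla_mulD a0.le hx0) (c1p.le.trans ch))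
  have hh0 : 0 ≤ toR half := by rw [acc_half]; norm_num
  have k0 := lla_mulD hh0 (lla_mulD p0 c0.le)
  have k1 : toR (mulD half (mulD epl c1l)) ≤ Real.exp ((1 - 2 * P.p) * A) * c1 / 2 :=
    (mulD_le hh0 (lla_mulD p0 c0.le) acc_half.le (mulD_le p0 c0.le qpl cl)).trans_eq (by ring)
  have gF := lla_gap (t := |T| * toR d.ah) P.par_s2_pos.le hsk
    ((toR_add _ sk).le.trans (add_le_add_left (lla_sq k0 k1 hF0 hF) _))
  have gN := lla_gap (t := |T| * toR d.ah) P.par_s2_pos.le hsk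
    ((toR_add _ sk).le.trans (add_le_add_left (lla_sq k0 k1 n0 hN) _))
  have he2 := divU_le hem.le c0 qmh cl
  have hfar : |A| + Real.pi ≤ toR (piU + mulU c.sch d.ah) := by
    rw [toR_add]; linarith [piU_ok]
  have hσ := llaS_or pos
  have hA2 := hAl.trans a2
  obtain ⟨I1, M1, h, B1⟩ := aB_ok ha h
  have S1 := lla_ver (Y := P.ka * (toR d.y0 - |T| * toR d.ah)) (T := T) (a := A)
    (σ := -llaS pos) hδ B1 (by rcases hσ with e | e <;> simp [e]) f2 f1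
    (by rw [toR_sub]; linarith [piU_ok]) hfar fun u u1 u2 =>
      (P.line_far hδ hσ hT a0.le hA' hA2 f2 hc1 c1p u1 u2).trans (Real.exp_le_exp.2 gF)
  simp only [Bool.and_eq_true] at h
  obtain ⟨⟨j0, j1⟩, h⟩ := h
  replace j0 : toR (cond d.jpi (-one) (cosU d.φj)) ≤ 0 := toR_zero ▸ leI_ok j0
  obtain ⟨φj, hφ⟩ : ∃ φj, φj = cond d.jpi Real.pi (toR d.φj) := ⟨_, rfl⟩
  have hj : toR d.φ1 ≤ φj ∧ φj ≤ Real.pi ∧ Real.cos φj ≤ toR (cond d.jpi (-one) (cosU d.φj)) ∧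
      φj ≤ toR (cond d.jpi piU d.φj) := by
    rw [hφ]
    cases hb : d.jpi <;> rw [hb] at j1
    · simp only [Bool.false_or, Bool.and_eq_true] at j1
      exact ⟨leI_ok j1.1, (leI_ok j1.2).trans piD_ok, cosU_ok _, le_rfl⟩
    · exact ⟨f1, le_rfl, by simp [toR_neg, toR_one], piU_ok⟩
  have hq : ∀ k' : TM → Bool, cond d.jpi (fun k' => k' c.pi) (cst d.φj 0) k' = true →
      ∃ φ, k' φ = true ∧ RepA x φ φj := fun k' h => by
    rw [hφ]
    cases hb : d.jpi <;> rw [hb] at h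
    exacts [lla_cst h, ⟨_, h, hc.pi⟩]
  obtain ⟨φ, h, q⟩ := hq _ h
  generalize cond d.jpi (-one) (cosU d.φj) = cj at h j0 hj
  obtain ⟨b, h, q⟩ := lla_smul q h
  obtain ⟨b, h, q⟩ := lla_addc q h
  obtain ⟨b, h, q⟩ := lla_mul hc2 q h
  obtain ⟨hb, h, q'⟩ := hblT_ok hc qw h
  obtain ⟨b, h, q⟩ := lla_sub q q' h
  obtain ⟨gj, h, qg⟩ := lla_lo q h
  obtain ⟨I2, M2, h, B2⟩ := aB_ok ha h
  rw [toR_minI] at B2
  have S2 := lla_ver (Y := P.ka * (toR d.y0 - |T| * toR d.ah)) (T := T) (a := A)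
    (σ := llaS pos) hδ B2 hσ f2 hj.1 (by rw [toR_sub]; linarith [hj.2.2.2])
    (by linarith [hj.2.1]) fun u u1 u2 =>
      P.line_near hδ hσ hT hA' hA2 f0 hc1 c1p u1 u2 hj.2.1 hj.2.2.1 j0
        (gN.trans (sub_le_sub_left
          (mul_le_mul_of_nonneg_left (min_le_left _ _) P.par_s2_pos.le) _))
        (by
          have := mul_le_mul_of_nonneg_left ((min_le_right (toR (mulD (mulD half (mulD epl c1l))
            (mulD (d.φ1 - divU (mulU d.ah xh) c1l) (d.φ1 - divU (mulU d.ah xh) c1l)) + sk))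
            _).trans qg) P.par_s2_pos.le
          rw [toR_neg] at this
          rw [Par.ka]
          linarith)
  obtain ⟨r1, r2⟩ := P.line_core hδ hσ hT hA' hA2 f2 hc1 c1p (hB.trans by0) rfl rfl
  refine ⟨w, cj, _, _, _, I2, M2, h, _, φj, A, a0, hA, qw, hAl, a2, hφ, f2.trans hj.1, hj.2.1,
    hj.2.2.1, j0, lla_divD m0 (c1p.le.trans ch), divD_le m0 c1p qml ch, he2,
    (Real.sqrt_le_sqrt (mulU_le (by positivity) (by positivity)
      (by rw [lla_two]; linarith [piU_ok]) he2)).trans (sqrtU_ok _), ?_⟩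
  refine llaT.right (lla_W ha) (llaT.left (I := toR 0) (M := toR 0) (lla_W ha) ?_ S1) S2
  rw [toR_zero]
  refine ⟨_, ?_, ?_, Bd.refl _ _ _ _⟩
  · rcases hσ with e | e <;> rw [e]
    · simpa [sub_eq_add_neg] using r1
    · rw [norm_sub_rev] at r1
      simpa [sub_eq_add_neg] using r1
  · rcases hσ with e | e <;> rw [e]
    · simpa [sub_eq_add_neg] using r2
    · rw [← norm_neg] at r2
      refine le_trans (le_of_eq ?_) r2
      simp only [Prod.fst_sub, Prod.snd_sub, neg_mul, one_mul, neg_neg, ofReal_neg,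
        ← sub_eq_add_neg]
      exact congrArg (fun z : ℂ => Real.sqrt P.s2 * ‖z‖) (by ring)

end line

section out

variable {c : Col} {x : Pt} {P : Par} {a : Ac} {T : ℝ} {pos : Bool}

theorem lla_norms (P : Par) (T : ℝ) (u v : ℂ × ℂ) :
    ‖P.cV T u v‖ = Real.sqrt P.s2 * ‖(v - u).1‖ / Real.sqrt P.sg ∧
      ‖P.nV T u v‖ = Real.sqrt P.s2 * ‖(v - u).2 - P.ref T * (v - u).1‖ / Real.sqrt P.sg / P.sc := by
  have e0 : ‖cexp (-(I * T ^ 2 / (2 * P.δ)))‖ = 1 := by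
    have e : -(I * T ^ 2 / (2 * P.δ)) = ((-(T ^ 2 / (2 * P.δ)) : ℝ) : ℂ) * I := by
      push_cast; ring
    rw [e, Complex.norm_exp_ofReal_mul_I]
  have e1 : ‖((Real.sqrt P.L : ℝ) : ℂ)‖ = Real.sqrt P.s2 / Real.sqrt P.sg := by
    rw [Complex.norm_real, Real.norm_of_nonneg (Real.sqrt_nonneg _), Par.L,
      Real.sqrt_div P.par_s2_pos.le]
  constructor
  · rw [Par.cV, norm_mul, norm_mul, e0, e1, mul_one, div_mul_eq_mul_div]
    rfl
  · rw [Par.nV, norm_div, norm_mul, norm_mul, e0, e1, mul_one, div_mul_eq_mul_div,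
      Complex.norm_real, Real.norm_of_nonneg (lla_sc P)]
    rfl

theorem lla_ref (P : Par) (T : ℝ) : ‖P.ref T‖ = |T| * P.cg := by
  have e : (I * P.cg - P.sg : ℂ) = (-P.sg : ℝ) + P.cg * I := by push_cast; ring
  rw [Par.ref, e, norm_mul, norm_mul, Complex.norm_add_mul_I, neg_sq, add_comm, P.sq_add,
    Real.sqrt_one, mul_one, Complex.norm_real, Complex.norm_real, Real.norm_eq_abs,
    Real.norm_of_nonneg P.cg_pos.le]

theorem lla_out (hc : c.Ok x P) (hδ : 0 < P.δ) {ah y0 e : ℝ} {D : ℂ × ℂ} {PG e2 I M : ℤ}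
    (hD : llaT P T ah y0 e P.s2 D (toR I) (toR M)) (he0 : 0 ≤ e) (he : e ≤ toR e2)
    (hPG : Real.sqrt (2 * Real.pi * e) ≤ toR PG) {k : ℤ → ℤ → ℤ → ℤ → ℤ → ℤ → Bool}
    (h : lineOut c PG e2 I M k = true) :
    ∃ h Af PG li B C, k h Af PG li B C = true ∧ 0 ≤ toR PG ∧ 0 ≤ toR li ∧
      ∀ u v, v - u = D ∨ v - u = -D → P.Ub (P.cV T u v) (P.nV T u v) (y0 - |T| * ah) (toR h)
        (toR Af * |T| + toR PG * Real.sqrt ((|T| - ah) ^ 2 + (toR li * |(|T| - ah * e)|) ^ 2))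
        (toR B) (toR C) := by
  simp only [lineOut, fI_eq, Bool.and_eq_true] at h
  obtain ⟨⟨r0, g0⟩, h⟩ := h
  replace r0 := lla_lt0 r0
  replace g0 := lla_lt0 g0
  have r1 := (sqrtD_ok c.sgl).trans (Real.sqrt_le_sqrt hc.sgl)
  obtain ⟨Cr, h1, h2, h3, h4⟩ := hD
  have hs := P.par_s2_pos
  have hS := Real.sqrt_pos.2 hs
  have hg := P.cg_pos
  have hsg := P.sg_pos hδ
  have hG := Real.sqrt_pos.2 hsg
  have hE := Real.exp_pos (P.ka * (y0 - |T| * ah))
  have hq := Real.sqrt_nonneg (2 * Real.pi * e)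
  have hI : 0 ≤ toR I := nonneg_of_mul_nonneg_right (le_trans (by positivity) h3) hE
  have hM : 0 ≤ toR M := nonneg_of_mul_nonneg_right (le_trans (by positivity) h4) hE
  have b1 := divU_le (a := PG + I) (add_nonneg hq hI) r0
    (by rw [toR_add]; exact add_le_add_left hPG _) r1
  have b2 := divU_le (by positivity) g0 (divU_le hI r0 le_rfl r1) hc.sgl
  have b3 := divU_le hq r0 hPG r1
  have b4 := divU_le hg.le g0 hc.cgh hc.sgl
  have b5 := divU_le (by positivity) g0 (divU_le hM r0 le_rfl r1) hc.sgl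
  have b6 := divU_le (by positivity) g0 (divU_le (a := 2 * e2) (x := 2 * e) (by positivity) r0
    (by rw [lla_two]; linarith) r1) hc.sgl
  refine ⟨_, _, _, _, _, _, h, le_trans (by positivity) b3, le_trans (by positivity) b4,
    fun u v huv => ?_⟩
  have n0 : ‖(v - u).1‖ = ‖D.1‖ := by rcases huv with e | e <;> simp [e]
  have n1 : ‖(v - u).2 - P.ref T * (v - u).1‖ = ‖D.2 - P.ref T * D.1‖ := by
    rcases huv with e | e <;> rw [e]
    rw [← norm_neg, Prod.fst_neg, Prod.snd_neg]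
    exact congrArg _ (by ring)
  have t0 : ‖D.1‖ ≤ ‖Cr.1‖ + ‖D.1 - Cr.1‖ := norm_le_insert' _ _
  have t1 : ‖D.2 - P.ref T * D.1‖ ≤
      ‖Cr.2 - P.ref T * Cr.1‖ + ‖D.2 - Cr.2‖ + |T| * P.cg * ‖D.1 - Cr.1‖ := by
    rw [← lla_ref, ← norm_mul, show D.2 - P.ref T * D.1 =
      Cr.2 - P.ref T * Cr.1 + (D.2 - Cr.2) - P.ref T * (D.1 - Cr.1) by ring]
    exact (norm_sub_le _ _).trans (add_le_add_left (norm_add_le _ _) _)
  have hR : Real.sqrt ((|T| - ah) ^ 2 + (P.cg / P.sg * (|T| - ah * e)) ^ 2) ≤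
      Real.sqrt ((|T| - ah) ^ 2 + (toR (divU c.cgh c.sgl) * |(|T| - ah * e)|) ^ 2) := by
    rw [mul_pow, mul_pow, sq_abs]
    gcongr
  rw [zero_mul, sub_zero, mul_assoc, mul_comm, ← le_div_iff₀ hs] at h4
  rw [Par.Ub, (lla_norms P T u v).1, (lla_norms P T u v).2, n0, n1]
  generalize Real.exp (P.ka * (y0 - |T| * ah)) = E0 at *
  generalize Real.sqrt (2 * Real.pi * e) = q at *
  constructor
  · calc _ ≤ (E0 * q + E0 * toR I) / Real.sqrt P.sg := by
          gcongr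
          linarith [mul_le_mul_of_nonneg_left t0 hS.le]
      _ = (q + toR I) / Real.sqrt P.sg * E0 := by ring
      _ ≤ _ := by gcongr
  · have hR0 := Real.sqrt_nonneg ((|T| - ah) ^ 2 + (P.cg / P.sg * (|T| - ah * e)) ^ 2)
    generalize Real.sqrt ((|T| - ah) ^ 2 + (P.cg / P.sg * (|T| - ah * e)) ^ 2) = R at *
    have hsc : 0 < P.sc := mul_pos hsg hg
    calc _ ≤ (E0 * (q * P.sc * R + 2 * e / Real.sqrt P.s2) + E0 * toR M / P.s2 +
          |T| * P.cg * (E0 * toR I)) / Real.sqrt P.sg / P.sc := by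
          gcongr
          linarith [mul_le_mul_of_nonneg_left t1 hS.le,
            mul_le_mul_of_nonneg_left h3 (mul_nonneg (abs_nonneg T) hg.le)]
      _ = (toR I / Real.sqrt P.sg / P.sg * |T| + q / Real.sqrt P.sg * R +
          toR M / Real.sqrt P.sg / P.sg / (P.s2 * P.cg) +
          2 * e / Real.sqrt P.sg / P.sg / (Real.sqrt P.s2 * P.cg)) * E0 := by
          rw [Par.sc]
          field_simp
          ring
      _ ≤ _ := by
          have := le_trans (by positivity) b3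
          gcongr

theorem lla_mono {ex hi m B C ex' hi' m' B' C' : ℝ} {z n : ℂ} (h : P.Ub z n ex hi m B C)
    (h0 : ex ≤ ex') (h1 : hi ≤ hi') (h3 : m ≤ m') (h4 : B ≤ B') (h5 : C ≤ C') :
    P.Ub z n ex' hi' m' B' C' := by
  have hE := Real.exp_le_exp.2 (mul_le_mul_of_nonneg_left h0 P.ka_pos.le)
  have key : ∀ (w : ℂ) (a a' : ℝ), ‖w‖ ≤ a * Real.exp (P.ka * ex) → a ≤ a' →
      ‖w‖ ≤ a' * Real.exp (P.ka * ex') := fun w a a' hw ha =>
    hw.trans (mul_le_mul ha hE (Real.exp_pos _).le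
      ((nonneg_of_mul_nonneg_left ((norm_nonneg w).trans hw) (Real.exp_pos _)).trans ha))
  have hs := P.par_s2_pos
  have hg := P.cg_pos
  exact ⟨key _ _ _ h.1 h1, key _ _ _ h.2 (add_le_add (add_le_add h3
    (div_le_div_of_nonneg_right h4 (by positivity)))
    (div_le_div_of_nonneg_right h5 (by positivity)))⟩

/-- the two cuts seen from the far and from the near end of the line -/
theorem lla_cut (P : Par) (T : ℝ) (pos : Bool) (xs xe : ℤ) (D : ℂ × ℂ)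
    (hD : D = P.V T ((P.sc * toR (cond pos xe xs) : ℝ) + (llaS pos * Real.pi : ℝ) * I) -
      P.V T ((P.sc * toR (cond pos xs xe) : ℝ) + (-llaS pos * Real.pi : ℝ) * I)) :
    P.V T (P.cutU (toR xe)) - P.V T (P.cutD (toR xs)) = D ∨
      P.V T (P.cutU (toR xe)) - P.V T (P.cutD (toR xs)) = -D := by
  have e1 : ∀ y : ℝ, P.cutU y = (P.sc * y : ℝ) + (Real.pi : ℝ) * I := fun y => by
    rw [Par.cutU]; push_cast; ring
  have e2 : ∀ y : ℝ, P.cutD y = (P.sc * y : ℝ) + (-Real.pi : ℝ) * I := fun y => by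
    rw [Par.cutD]; push_cast; ring
  rw [hD, e1, e2]
  cases pos
  · right; simp [llaS]
  · left; simp [llaS]

variable {TT H : TM} {Y : ℝ}

theorem lla_gapS (hc : c.Ok x P) (hδ : 0 < P.δ) (hT : RepA x TT T) (hH : RepA x H Y) {u : ℤ}
    {φ hb : TM} {φ0 hb0 : ℝ} (hφ : RepA x φ φ0) (hh : RepA x hb hb0) {k : ℤ → Bool}
    (h : gapS c TT H u φ hb k = true) : ∃ g, k g = true ∧
      P.sc * toR u * (T - φ0) / P.δ + P.s2 * hb0 ≤ P.s2 * Y - P.s2 * toR g := by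
  obtain ⟨d, h, q⟩ := lla_sub hT hφ h
  obtain ⟨d, h, q⟩ := lla_mul (lla_c2 hc) q h
  obtain ⟨d, h, q⟩ := lla_smul q h
  obtain ⟨d, h, q⟩ := lla_add q hh h
  obtain ⟨d, h, q⟩ := lla_sub hH q h
  obtain ⟨g, h, q⟩ := lla_lo q h
  refine ⟨g, h, ?_⟩
  rw [mul_assoc, mul_div_right_comm, P.hba_sc_div hδ, Par.ka]
  linarith [mul_le_mul_of_nonneg_left q P.par_s2_pos.le]

theorem lla_horS (hc : c.Ok x P) (hδ : 0 < P.δ) (ha : a.Ok P.s2) (hT : RepA x TT T)
    (hH : RepA x H Y) {σ : ℝ} (hσ : σ = 1 ∨ σ = -1) {pi : TM} (hp : RepA x pi (σ * Real.pi : ℝ))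
    {x1 x2 I0 M : ℤ} {k : ℤ → ℤ → Bool} (h : horS c a TT H pi x1 x2 I0 M k = true) :
    ∃ I' M', k I' M' = true ∧ Bd P.s2 (Real.exp (P.s2 * Y)) (a.W P.s2) 0
      (P.V T ((P.sc * toR x1 : ℝ) + (σ * Real.pi : ℝ) * I))
      (P.V T ((P.sc * toR x2 : ℝ) + (σ * Real.pi : ℝ) * I))
      (toR I' - toR I0) (toR M' - toR M) := by
  simp only [horS, fI_eq, Bool.and_eq_true] at h
  obtain ⟨m2, h⟩ := h
  replace m2 := leI_ok m2
  rw [lla_two, toR_one, mul_one] at m2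
  obtain ⟨w, h, q⟩ := lla_smul hc.sc h
  obtain ⟨hb, h, q⟩ := hblT_ok hc q h
  obtain ⟨g1, h, q1⟩ := lla_gapS hc hδ hT hH hp q h
  obtain ⟨w, h, q⟩ := lla_smul hc.sc h
  obtain ⟨hb, h, q⟩ := hblT_ok hc q h
  obtain ⟨g2, h, q2⟩ := lla_gapS hc hδ hT hH hp q h
  obtain ⟨I', M', h, B⟩ := aB_ok ha h
  rw [toR_minI] at B
  have hs := P.par_s2_pos.le
  refine ⟨I', M', h, lla_hor hδ B
    (lla_abs hc (by rw [toR_maxI, toR_absI]; exact le_max_left _ _))
    (lla_abs hc (by rw [toR_maxI, toR_absI, toR_absI]; exact le_max_right _ _)) m2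
    (cc := toR (-one)) ?_ (by rw [toR_neg, toR_one]; norm_num)
    (q1.trans (sub_le_sub_left (mul_le_mul_of_nonneg_left (min_le_left _ _) hs) _))
    (q2.trans (sub_le_sub_left (mul_le_mul_of_nonneg_left (min_le_right _ _) hs) _)) ?_ ?_⟩
  · rcases hσ with e | e <;> simp [e, toR_neg, toR_one]
  · rw [abs_sub_comm, ← mul_sub, ← toR_sub]
    exact lla_abs hc (toR_absI _).ge
  · rw [toR_add, add_comm]
    refine add_le_add_left (le_trans (le_of_eq ?_) piU_ok) _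
    rcases hσ with e | e <;> simp [e, abs_of_pos Real.pi_pos]

theorem lla_sgT (hc : c.Ok x P) {k : TM → Bool} (h : sgT pos c.pi k = true) :
    ∃ pn, k pn = true ∧ RepA x pn (llaS pos * Real.pi : ℝ) := by
  cases pos
  · obtain ⟨pn, h, q⟩ := lla_neg hc.pi h
    exact ⟨pn, h, lla_eq q (by simp [llaS])⟩
  · exact ⟨_, h, lla_eq hc.pi (by simp [llaS])⟩

theorem lla_near (hc : c.Ok x P) (hδ : 0 < P.δ) (ha : a.Ok P.s2) (qT : RepA x TT T)
    (qH : RepA x H Y) {d : LC} (hY : P.s2 * Y = P.ka * (toR d.y0 - |T| * toR d.ah)) {A φj e : ℝ}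
    {xa xe cj I1 M1 : ℤ} (hA : A = P.sc * toR xa) {w pn : TM} (qw : RepA x w A)
    (qn : RepA x pn (llaS pos * Real.pi : ℝ)) (al : |A| ≤ toR (mulU c.sch d.ah))
    (al2 : toR (mulU c.sch d.ah) ≤ 2) (hφ : φj = cond d.jpi Real.pi (toR d.φj)) (j0 : 0 ≤ φj)
    (j1 : φj ≤ Real.pi) (j2 : Real.cos φj ≤ toR cj) (j3 : toR cj ≤ 0) {u : ℂ × ℂ}
    (hD : llaT P T (toR d.ah) (toR d.y0) e (a.W P.s2)
      (P.V T (A + (llaS pos * φj : ℝ) * I) - u) (toR I1) (toR M1)) {k : ℤ → ℤ → Bool}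
    (h : cond d.jpi (horS c a TT H pn xa xe I1 M1 k)
      (lo H fun hl => cst (cond pos d.φj (-d.φj)) 0 fun φ => hblT c w cj fun hb =>
        gapS c TT H xa φ hb fun g =>
        aB a (minI (hl + one - cj) g) (mulU c.sch d.ah) (d.φj + mulU c.sch d.ah) I1 M1 fun I M =>
        aB a (hl + one - cj) (piU - d.φj) piU I M fun I M =>
        horS c a TT H pn 0 xe I M k) = true) :
    ∃ I2 M2, k I2 M2 = true ∧ llaT P T (toR d.ah) (toR d.y0) e (a.W P.s2)
      (P.V T ((P.sc * toR xe : ℝ) + (llaS pos * Real.pi : ℝ) * I) - u) (toR I2) (toR M2) := by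
  have hσ := llaS_or pos
  have hW := lla_W ha
  cases hb : d.jpi <;> rw [hb] at h hφ <;> subst hφ
  · rw [cond_false] at h
    obtain ⟨hl, h, ql⟩ := lla_lo qH h
    obtain ⟨φ, h, qφ⟩ := lla_cst h
    rw [llaS_pos] at qφ
    obtain ⟨hb, h, q⟩ := hblT_ok hc qw h
    obtain ⟨g, h, qg⟩ := lla_gapS hc hδ qT qH qφ q h
    obtain ⟨I2, M2, h, B2⟩ := aB_ok ha h
    obtain ⟨I3, M3, h, B3⟩ := aB_ok ha h
    obtain ⟨I4, M4, h, B4⟩ := lla_horS hc hδ ha qT qH hσ qn h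
    simp only [cond_false] at hD j0 j1 j2
    have hs2 := P.par_s2_pos.le
    have g0 : P.s2 * HBl P.p 0 (toR cj) ≤ P.s2 * Y - P.s2 * toR (hl + one - cj) := by
      rw [← mul_sub, toR_sub, toR_add, toR_one]
      refine mul_le_mul_of_nonneg_left ?_ hs2
      simp only [HBl, Rq]
      linarith
    have co : ∀ u, Real.cos (llaS pos * u) = Real.cos u := fun u => by
      rcases hσ with e | e <;> simp [e]
    rw [toR_minI] at B2
    rw [← hA] at qg
    have S2 := lla_hor (T := T) (Y := P.s2 * Y) (a1 := A) (a2 := 0) (φ := llaS pos * toR d.φj)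
      hδ B2 al (abs_zero.le.trans ((abs_nonneg _).trans al)) al2 ((co _).le.trans j2) j3
      (qg.trans (sub_le_sub_left (mul_le_mul_of_nonneg_left (min_le_right _ _) hs2) _))
      (by
        rw [zero_mul, zero_div, zero_add]
        exact g0.trans (sub_le_sub_left (mul_le_mul_of_nonneg_left (min_le_left _ _) hs2) _))
      (by rwa [zero_sub, abs_neg])
      (by
        rw [toR_add, add_comm]
        refine add_le_add_left (le_of_eq ?_) _
        rcases hσ with e | e <;> simp [e, abs_of_nonneg j0])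
    have S3 := lla_ver (T := T) (Y := P.s2 * Y) (a := 0) hδ B3 hσ j0 j1
      (by rw [toR_sub]; linarith [piU_ok]) (by rw [abs_zero, zero_add]; exact piU_ok)
      fun u u1 u2 => (P.E_le hδ T _ (by norm_num)).trans (Real.exp_le_exp.2 (by
        rw [zero_mul, zero_div, zero_add, co]
        exact (mul_le_mul_of_nonneg_left (HBe_le_HBl _ _
          ((Real.cos_le_cos_of_nonneg_of_le_pi j0 u2 u1).trans j2) j3) hs2).trans g0))
    rw [toR_zero, mul_zero] at B4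
    rw [hY] at S2 S3 B4
    exact ⟨I4, M4, h, ((hD.right hW S2).right hW S3).right hW B4⟩
  · obtain ⟨I2, M2, h, B2⟩ := lla_horS hc hδ ha qT qH hσ qn h
    rw [hY, ← hA] at B2
    exact ⟨I2, M2, h, hD.right hW B2⟩

theorem lla_conc {h a y t t1 t2 : ℝ} (hh : h ≤ 0) (h1 : t1 ≤ t) (h2 : t ≤ t2)
    (f1 : y - a * t1 ≤ h * (t1 * t1)) (f2 : y - a * t2 ≤ h * (t2 * t2)) :
    y - t * a ≤ t ^ 2 * h := by
  by_contra hn
  rw [not_le] at hn
  have a1 : (t - t1) * (h * (t1 + t) + a) < 0 := by nlinarith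
  have a2 : 0 < (t2 - t) * (h * (t2 + t) + a) := by nlinarith
  have a3 := neg_of_mul_neg_right a1 (sub_nonneg.2 h1)
  have a4 := pos_of_mul_pos_right a2 (sub_nonneg.2 h2)
  nlinarith [mul_nonpos_of_nonpos_of_nonneg hh (sub_nonneg.2 (h1.trans h2))]

end out

section

variable {b : Box} {c : Col}

/-- PLAN: state a lemma for `lineV` (with `E0 = exp (ka (y0 - |T| ah))`: `line_core` on
`[-φ1, φ1]`, `line_far`, `line_near` with `aB_ok` for the prim `gP`, large parameter `s2`, `zr = 0`);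
then `‖ref T‖ = |T| cg`, `√L = √s2/√sg`, `sc = sg cg`. -/
theorem chkI_ok (hc : c.For b) {f : FI} {φ1 : ℤ} (h : chkI c f φ1 = true) : f.Ok b := by
  intro P hP hδ T hT
  obtain ⟨x, hx⟩ := hc.2 P hP
  have hc := hx x.x2 x.h2
  obtain ⟨a, h, -, a2, ha⟩ := mkAc_ok h
  simp only [Bool.and_eq_true] at h
  obtain ⟨t0, h⟩ := h
  have hs : llaS f.pos * T = |T| := by
    have := (lla_le0 t0).trans hT
    cases hb : f.pos <;> rw [hb] at this
    · rw [abs_of_nonpos (by simpa using this)]; simp [llaS]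
    · rw [abs_of_nonneg (by simpa using this)]; simp [llaS]
  obtain ⟨w, cj, PG, e1, e2, I, M, h, e, φj, A, a0, rfl, -, -, -, rfl, -, -, -, -, e0, l1, l2,
    hPG, hD⟩ := lla_lineV hc hδ (ha _ hc.s02) hs h
  rw [show a.W P.s2 = P.s2 by simp [Ac.W, Sok.wt, a2]] at hD
  obtain ⟨hi, Af, PG', li, B, C, h, p0, l0, H⟩ := lla_out hc hδ hD (e0.trans l1) l2 hPG h
  simp only [Bool.and_eq_true] at h
  obtain ⟨⟨⟨⟨⟨⟨⟨c1, c2⟩, c3⟩, c4⟩, c5⟩, c6⟩, c7⟩, c8⟩ := h
  refine lla_mono (H _ _ (lla_cut P T f.pos (cond f.pos (-f.ah) f.ah) (cond f.pos (-f.ah) f.ah) _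
    (by rw [Bool.cond_self]; rfl))) le_rfl (leI_ok c1) ?_ (leI_ok c7) (leI_ok c8)
  have d1 := mul_le_mul_of_nonneg_left ((leI_ok c4).trans l1) a0.le
  have d2 := mul_le_mul_of_nonneg_left (l2.trans (leI_ok c5)) a0.le
  have d3 := (abs_le_max_abs_abs (sub_le_sub_left d2 |T|) (sub_le_sub_left d1 |T|)).trans_eq
    (max_comm _ _)
  have d4 := leI_ok c2
  have d5 := leI_ok c3
  have d6 := leI_ok c6
  have d7 := p0.trans d5
  have d8 := l0.trans d6
  gcongr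

theorem chkL_ok (hc : c.For b) {f : FU} {pos : Bool} {d : LC} (h : chkL c f pos d = true) :
    f.Ok b := by
  intro P hP hδ T hT1 hT2
  simp only [chkL, Bool.and_eq_true, Bool.not_eq_true'] at h
  obtain ⟨⟨⟨⟨hf, hh⟩, y1⟩, y2⟩, h⟩ := h
  replace hδ := hδ hf
  replace hh : toR f.hh ≤ 0 := toR_zero ▸ leI_ok hh
  obtain ⟨x, hx⟩ := hc.2 P hP
  obtain ⟨y, hy, ey⟩ := exists_varVal hT1 hT2
  have hc := hx y hy
  obtain ⟨a, h, -, a2, ha⟩ := mkAc_ok h
  replace ha := ha _ hc.s02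
  simp only [fI_eq, Bool.and_eq_true] at h
  obtain ⟨⟨t0, -⟩, h⟩ := h
  replace t0 := lla_lt0 t0
  have hσ := llaS_or pos
  have key : ∀ u : ℤ, leI (d.y0 - mulD d.ah (absI u)) (mulD f.hh (mulU u u)) = true →
      toR d.y0 - toR d.ah * |toR u| ≤ toR f.hh * (|toR u| * |toR u|) := fun u h => by
    have h1 := leI_ok h
    have h2 := mulD_ok d.ah (absI u)
    rw [toR_sub] at h1
    rw [toR_absI] at h2
    rw [abs_mul_abs_self]
    linarith [mulD_ok f.hh (mulU u u), mul_le_mul_of_nonpos_left (mulU_ok u u) hh]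
  have hs : llaS pos * T = |T| ∧ toR (cond pos f.T1 (-f.T2)) ≤ |T| ∧
      |T| ≤ toR (cond pos f.T2 (-f.T1)) ∧ toR d.y0 - |T| * toR d.ah ≤ |T| ^ 2 * toR f.hh := by
    cases pos
    · simp only [cond_false, toR_neg] at t0 ⊢
      have k1 := key _ y1
      have k2 := key _ y2
      rw [abs_of_neg (by linarith)] at k1 k2 ⊢
      exact ⟨by simp [llaS], by linarith, by linarith,
        lla_conc hh (neg_le_neg hT2) (neg_le_neg hT1) k2 k1⟩
    · simp only [cond_true] at t0 ⊢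
      have k1 := key _ y1
      have k2 := key _ y2
      rw [abs_of_pos (by linarith)] at k1 k2 ⊢
      exact ⟨by simp [llaS], hT1, hT2, lla_conc hh hT1 hT2 k1 k2⟩
  obtain ⟨hs, t1, t2, hy0⟩ := hs
  generalize cond pos f.T1 (-f.T2) = τ1 at h t0 t1
  generalize cond pos f.T2 (-f.T1) = τ2 at h t2
  obtain ⟨TT, h, qT⟩ := var_ok h
  replace qT : RepA (x.set2 y hy) TT T := fun y' hy' => ey ▸ qT _
  obtain ⟨w, cj, PG, e1, e2, I, M, h, e, φj, A, a0, hA, qw, al, al2, hφ, j0, j1, j2, j3, e0, l1,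
    l2, hPG, hD⟩ := lla_lineV hc hδ ha hs h
  obtain ⟨b, h, q⟩ := lla_smul qT h
  obtain ⟨b, h, q⟩ := lla_addc q h
  obtain ⟨H, h, qH⟩ := lla_mul (lla_c2 hc) q h
  obtain ⟨Y, hY⟩ : ∃ Y, Y = P.cg ^ 2 * (T * toR (cond pos (-d.ah) d.ah) + toR d.y0) := ⟨_, rfl⟩
  rw [← hY] at qH
  replace hY : P.s2 * Y = P.ka * (toR d.y0 - |T| * toR d.ah) := by
    rw [hY, llaS_neg, ← hs, Par.ka]; ring
  obtain ⟨pn, h, qn⟩ := lla_sgT hc h
  obtain ⟨pf, h, qf⟩ := lla_neg qn h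
  obtain ⟨I1, M1, h, B1⟩ := lla_horS hc hδ ha qT qH (σ := -llaS pos)
    (by rcases hσ with e | e <;> simp [e]) (lla_eq qf (neg_mul _ _).symm) h
  rw [hY, ← hA] at B1
  have hW := lla_W ha
  replace hD := hD.left hW B1
  obtain ⟨I2, M2, h, hD⟩ := lla_near hc hδ ha qT qH hY hA qw qn al al2 hφ j0 j1 j2 j3 hD h
  rw [show a.W P.s2 = P.s2 by simp [Ac.W, Sok.wt, a2]] at hD
  have he := e0.trans l1
  obtain ⟨hi, Af, PG', li, B, C, h, p0, l0, H⟩ := lla_out hc hδ hD he l2 hPG h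
  simp only [Bool.and_eq_true] at h
  obtain ⟨⟨⟨c1, c2⟩, c3⟩, c4⟩ := h
  have := H _ _ (lla_cut P T pos f.g.xs f.g.xe _ rfl)
  simp only [Par.Up, Pc.c, Pc.n, hf]
  refine lla_mono this (by rwa [sq_abs] at hy0) (leI_ok c1)
    (le_trans ?_ (mul_le_mul_of_nonneg_right (leI_ok c2) (abs_nonneg T))) (leI_ok c3) (leI_ok c4)
  have T0 : 0 < |T| := t0.trans_le t1
  have u1 := divD_le a0.le T0 le_rfl t2
  have u0 := lla_divD a0.le (T0.le.trans t2)
  have u2 := divU_le a0.le t0 le_rfl t1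
  obtain ⟨u, hu⟩ : ∃ u, u = toR d.ah / |T| := ⟨_, rfl⟩
  rw [← hu] at u1 u2
  replace hu : toR d.ah = u * |T| := by rw [hu, div_mul_cancel₀ _ T0.ne']
  have m1 : |1 - u| ≤ toR (maxI (one - divD d.ah τ2) (divU d.ah τ1 - one)) := by
    rw [toR_maxI, toR_sub, toR_sub, toR_one, abs_eq_max_neg]
    exact max_le_max (by linarith) (by linarith)
  have m2 : |1 - u * e| ≤
      toR (maxI (one - mulD (divD d.ah τ2) e1) (mulU (divU d.ah τ1) e2 - one)) := by
    rw [toR_maxI, toR_sub, toR_sub, toR_one, abs_eq_max_neg]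
    exact max_le_max (by linarith [mulD_le u0 e0 u1 l1])
      (by linarith [mulU_le (u0.trans u1) he u2 l2])
  have m3 := mulU_le l0 (abs_nonneg _) le_rfl m2
  have m4 := (Real.sqrt_le_sqrt ((add_le_add (mulU_le (abs_nonneg _) (abs_nonneg _) m1 m1)
    (mulU_le (by positivity) (by positivity) m3 m3)).trans_eq (toR_add _ _).symm)).trans
    (sqrtU_ok _)
  rw [toR_add, add_mul]
  refine add_le_add_right (le_trans (le_of_eq ?_) (mul_le_mul_of_nonneg_right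
    (mulU_le p0 (Real.sqrt_nonneg _) le_rfl m4) T0.le)) _
  rw [mul_assoc, hu]
  generalize |T| = t at T0
  rw [show (t - u * t) ^ 2 + (toR li * |t - u * t * e|) ^ 2 = (|1 - u| * |1 - u| +
      toR li * |1 - u * e| * (toR li * |1 - u * e|)) * t ^ 2 by
    rw [mul_mul_mul_comm, abs_mul_abs_self, abs_mul_abs_self, mul_pow, sq_abs]; ring,
    Real.sqrt_mul' _ (sq_nonneg t), Real.sqrt_sq T0.le]

theorem llb_step {σ τ a0 a1 a2 a3 a4 a5 a6 a7 a8 : ℝ} (h0 : σ + a0 = 0)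
    (h : ∀ x, 0 ≤ x → 0 ≤ σ * -Real.sin x + τ * Real.cos x + a1 + 2 * a2 * x + 3 * a3 * x ^ 2 +
      4 * a4 * x ^ 3 + 5 * a5 * x ^ 4 + 6 * a6 * x ^ 5 + 7 * a7 * x ^ 6 + 8 * a8 * x ^ 7)
    (x : ℝ) (hx : 0 ≤ x) :
    0 ≤ σ * Real.cos x + τ * Real.sin x + a0 + a1 * x + a2 * x ^ 2 + a3 * x ^ 3 + a4 * x ^ 4 +
      a5 * x ^ 5 + a6 * x ^ 6 + a7 * x ^ 7 + a8 * x ^ 8 := by
  have hp : ∀ (a : ℝ) (n : ℕ) (y : ℝ), HasDerivAt (fun y => a * y ^ n) (a * (n * y ^ (n - 1))) y :=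
    fun a n y => (hasDerivAt_pow n y).const_mul a
  have hd : ∀ y, HasDerivAt (fun x => σ * Real.cos x + τ * Real.sin x + a0 + a1 * x + a2 * x ^ 2 +
      a3 * x ^ 3 + a4 * x ^ 4 + a5 * x ^ 5 + a6 * x ^ 6 + a7 * x ^ 7 + a8 * x ^ 8)
      (σ * -Real.sin y + τ * Real.cos y + a1 + 2 * a2 * y + 3 * a3 * y ^ 2 +
      4 * a4 * y ^ 3 + 5 * a5 * y ^ 4 + 6 * a6 * y ^ 5 + 7 * a7 * y ^ 6 + 8 * a8 * y ^ 7) y := by
    intro y
    refine ((((((((((((Real.hasDerivAt_cos y).const_mul σ).fun_add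
      ((Real.hasDerivAt_sin y).const_mul τ)).add_const a0).fun_add
      ((hasDerivAt_id' y).const_mul a1)).fun_add (hp a2 2 y)).fun_add (hp a3 3 y)).fun_add
      (hp a4 4 y)).fun_add (hp a5 5 y)).fun_add (hp a6 6 y)).fun_add (hp a7 7 y)).fun_add
      (hp a8 8 y)).congr_deriv ?_
    push_cast
    ring
  rcases hx.eq_or_lt with rfl | hx
  · simp [h0]
  · obtain ⟨y, hy, e⟩ := exists_hasDerivAt_eq_slope _ _ hx
      (fun y _ => (hd y).continuousAt.continuousWithinAt) fun y _ => hd y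
    have h1 := h y hy.1.le
    rw [e, sub_zero, le_div_iff₀ hx] at h1
    simpa [h0] using h1

theorem llb_cos (x : ℝ) :
    Real.cos x ≤ 1 - x ^ 2 / 2 + x ^ 4 / 24 - x ^ 6 / 720 + x ^ 8 / 40320 := by
  have h4 := llb_step (σ := -1) (τ := 0) (a0 := 1) (a1 := 0) (a2 := -1 / 2) (a3 := 0)
    (a4 := 1 / 24) (a5 := 0) (a6 := 0) (a7 := 0) (a8 := 0) (by norm_num)
    fun y hy => by linarith [Real.sin_ge_sub_cube hy]
  have h5 := llb_step (σ := 0) (τ := -1) (a0 := 0) (a1 := 1) (a2 := 0) (a3 := -1 / 6)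
    (a4 := 0) (a5 := 1 / 120) (a6 := 0) (a7 := 0) (a8 := 0) (by norm_num)
    fun y hy => by linarith [h4 y hy]
  have h6 := llb_step (σ := 1) (τ := 0) (a0 := -1) (a1 := 0) (a2 := 1 / 2) (a3 := 0)
    (a4 := -1 / 24) (a5 := 0) (a6 := 1 / 720) (a7 := 0) (a8 := 0) (by norm_num)
    fun y hy => by linarith [h5 y hy]
  have h7 := llb_step (σ := 0) (τ := 1) (a0 := 0) (a1 := -1) (a2 := 0) (a3 := 1 / 6)
    (a4 := 0) (a5 := -1 / 120) (a6 := 0) (a7 := 1 / 5040) (a8 := 0) (by norm_num)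
    fun y hy => by linarith [h6 y hy]
  have h8 := llb_step (σ := -1) (τ := 0) (a0 := 1) (a1 := 0) (a2 := -1 / 2) (a3 := 0)
    (a4 := 1 / 24) (a5 := 0) (a6 := -1 / 720) (a7 := 0) (a8 := 1 / 40320) (by norm_num)
    fun y hy => by linarith [h7 y hy]
  have h := h8 |x| (abs_nonneg x)
  rw [Real.cos_abs, Even.pow_abs (by decide), Even.pow_abs (n := 4) (by decide),
    Even.pow_abs (n := 6) (by decide), Even.pow_abs (n := 8) (by decide)] at h
  linarith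

theorem llb_nat (n : ℕ) : toR ((n : ℤ) * one) = n := by rw [toR_natmul, toR_one, mul_one]

theorem llb_cosQ {u : ℤ} {T : ℝ} (h : T ^ 2 ≤ toR u) :
    0 ≤ toR (cosQ u) ∧ toR (cosQ u) * T ^ 2 ≤ 1 - Real.cos T := by
  have h0 : 0 ≤ toR u := (sq_nonneg T).trans h
  have e1 : toR (24 * one) = 24 := llb_nat 24
  have e2 : toR (720 * one) = 720 := llb_nat 720
  have e3 : toR (40320 * one) = 40320 := llb_nat 40320
  have a1 := divU_ok u (b := 24 * one) (by rw [e1]; norm_num)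
  have a2 := divD_ok (mulD u u) (b := 720 * one) (by rw [e2]; norm_num)
  have a3 := divU_ok (mulU u (mulU u u)) (b := 40320 * one) (by rw [e3]; norm_num)
  have a4 := mulD_ok u u
  have a5 := mulU_le h0 (mul_nonneg h0 h0) le_rfl (mulU_ok u u)
  rw [e1] at a1
  rw [e2] at a2
  rw [e3] at a3
  rw [cosQ, toR_maxI, toR_zero, toR_sub, toR_add, toR_sub, acc_half]
  refine ⟨le_max_left _ _, ?_⟩
  rw [max_mul_of_nonneg _ _ (sq_nonneg T), zero_mul]
  refine max_le (by linarith [Real.cos_le_one T]) ?_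
  have a6 : 0 ≤ (toR u - T ^ 2) * (3 * (toR u + T ^ 2 - 112 / 3) ^ 2 / 4 +
      (toR u - T ^ 2) ^ 2 / 4 + 1904 / 3) :=
    mul_nonneg (sub_nonneg.2 h) (by positivity)
  refine (mul_le_mul_of_nonneg_right (c := 1 / 2 - T ^ 2 / 24 + T ^ 4 / 720 - T ^ 6 / 40320)
    ?_ (sq_nonneg T)).trans ?_
  · linarith
  · linarith [llb_cos T]

theorem llb_mono {P : Par} {T hi hh A B C hi' hh' A' B' C' : ℝ} {z n : ℂ}
    (h : P.Up T z n hi hh A B C) (h1 : hi ≤ hi') (h2 : hh ≤ hh') (h3 : A ≤ A') (h4 : B ≤ B')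
    (h5 : C ≤ C') : P.Up T z n hi' hh' A' B' C' := by
  have hE : Real.exp (P.ka * (T ^ 2 * hh)) ≤ Real.exp (P.ka * (T ^ 2 * hh')) :=
    Real.exp_le_exp.2 (mul_le_mul_of_nonneg_left (mul_le_mul_of_nonneg_left h2 (sq_nonneg T))
      P.ka_pos.le)
  have key : ∀ (w : ℂ) (a a' : ℝ), ‖w‖ ≤ a * Real.exp (P.ka * (T ^ 2 * hh)) → a ≤ a' →
      ‖w‖ ≤ a' * Real.exp (P.ka * (T ^ 2 * hh')) := fun w a a' hw ha =>
    hw.trans (mul_le_mul ha hE (Real.exp_pos _).le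
      ((nonneg_of_mul_nonneg_left ((norm_nonneg w).trans hw) (Real.exp_pos _)).trans ha))
  have hs := P.par_s2_pos
  have hg := P.cg_pos
  exact ⟨key _ _ _ h.1 h1, key _ _ _ h.2 (add_le_add (add_le_add
    (mul_le_mul_of_nonneg_right h3 (abs_nonneg T))
    (div_le_div_of_nonneg_right h4 (by positivity)))
    (div_le_div_of_nonneg_right h5 (by positivity)))⟩

theorem llb_re {z : ℂ} {x y : ℝ} (h : z.re ≤ y) (e : z = x) : x ≤ y := by
  rwa [e, ofReal_re] at h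

theorem llb_valS {r : ℤ} {k : ℤ → ℤ → ℤ → ℤ → Bool} (h : valS c r k = true) :
    ∃ cS hi A C, k cS hi A C = true ∧ ∀ (x : Pt) (P : Par), c.Ok x P → 0 < P.δ →
      ∀ T cT : ℝ, 0 ≤ cT → cT * T ^ 2 ≤ 1 - Real.cos T →
        P.Up T (P.cF T) (P.nF T) (toR hi) (-(toR cS * cT)) (toR A) 0 (toR C) := by
  simp only [valS, fI_eq, Bool.and_eq_true] at h
  obtain ⟨⟨⟨r0, r2⟩, g0⟩, h⟩ := h
  obtain ⟨b1, h, q1⟩ := inv_ok h
  obtain ⟨b2, h, q2⟩ := mul_ok h
  obtain ⟨lp, h, q3⟩ := hi_ok h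
  simp only [Bool.and_eq_true] at h
  obtain ⟨l0, h⟩ := h
  obtain ⟨th, h, q4⟩ := hi_ok h
  obtain ⟨tr, h, q5⟩ := smul_ok h
  obtain ⟨et, h, q6⟩ := exp_ok h
  obtain ⟨b3, h, q7⟩ := mul_ok h
  obtain ⟨b4, h, q8⟩ := addc_ok h
  obtain ⟨b5, h, q9⟩ := mul_ok h
  obtain ⟨b6, h, q10⟩ := ndiv_ok h
  obtain ⟨b7, h, q11⟩ := smul_ok h
  obtain ⟨b8, h, q12⟩ := add_ok h
  obtain ⟨c2, h, q13⟩ := hi_ok h
  simp only [Bool.and_eq_true] at h
  obtain ⟨k0, s0, rr, ra, kc, h⟩ := h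
  obtain ⟨b9, h, q14⟩ := add_ok h
  obtain ⟨b10, h, q15⟩ := addc_ok h
  obtain ⟨b11, h, q16⟩ := mul_ok h
  obtain ⟨b12, h, q17⟩ := smul_ok h
  obtain ⟨b13, h, q18⟩ := add_ok h
  obtain ⟨cp, h, q19⟩ := hi_ok h
  refine ⟨_, _, _, _, h, fun x P hc hδ T cT hT0 hT => ?_⟩
  clear h
  generalize hκ : one - mulU lp c2 = κ at *
  generalize ht2 : one + mulU th th = t2 at *
  generalize hrs : divU (mulU lp (sqrtU t2)) κ = rs at *
  generalize hra : r - mulU lp (expU (mulU th r)) = rate at *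
  generalize hev : expU (-(divD (mulD (mulD κ (mulD (r - rs) (r - rs))) c.s02) lp)) = ev at *
  generalize hPP : sqrtU (divU (2 * piU) (mulD κ c.cgl)) = PP at *
  generalize hhi : PP + mulU (divU (2 * sqrtU (divU (divU lp c.s02) c.cgl)) rate) ev = hi at *
  replace r0 := ltI_ok r0
  replace r2 := leI_ok r2
  replace g0 := ltI_ok g0
  replace l0 := ltI_ok l0
  replace k0 := ltI_ok k0
  replace s0 := leI_ok s0
  replace rr := leI_ok rr
  replace ra := ltI_ok ra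
  replace kc := ltI_ok kc
  rw [toR_zero] at r0 g0 l0 k0 s0 ra kc
  have two : ∀ a : ℤ, toR (2 * a) = 2 * toR a := fun a => by
    rw [toR_intmul]
    norm_num
  have c1 : toC one 0 = 1 := by
    rw [toC, toR_one, toR_zero]
    rfl
  rw [two, toR_one, mul_one] at r2
  have hs0 : 0 < toR c.s02 := by linarith [hc.s02']
  have hpq : 0 ≤ P.p * (1 - P.p) := mul_nonneg P.hp0.le (by linarith [P.hp])
  have hg : (P.cg : ℂ) ≠ 0 := ofReal_ne_zero.2 P.cg_pos.ne'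
  have th0 := hc.th.rep
  have tr0 := q5 _ _ th0
  have et0 := q6 _ _ tr0
  have v1 : P.lam ≤ toR lp := llb_re (q3 _ _ (q2 _ _ _ hc.sg.rep (q1 _ _ hc.cg.rep).2)) (by
    rw [Par.sg]
    push_cast
    field_simp)
  have v2 : 1 - 2 * P.p ≤ toR th := llb_re (q4 _ _ th0) (by push_cast; rfl)
  have v3 : ((1 - 2 * P.p) ^ 2 + 1) * Real.exp ((1 - 2 * P.p) * toR r) / 2 +
      2 * (P.p * (1 - P.p)) * toR (one + divU r (3 * one) + mulU half (mulU r r)) ≤ toR c2 :=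
    llb_re (q13 _ _ (q12 _ _ _ (q10 _ _ (q9 _ _ _ (q8 _ _ (q7 _ _ _ th0 th0)) et0))
      (q11 _ _ hc.s1.rep))) (by
        rw [c1]
        push_cast
        ring)
  have v4 : P.p * (1 - P.p) * (Real.exp ((1 - 2 * P.p) * toR r) + (1 - 2 * P.p) * toR r + 1) +
      P.p * toR r ≤ toR cp :=
    llb_re (q19 _ _ (q18 _ _ _ (q16 _ _ _ hc.pq.rep (q15 _ _ (q14 _ _ _ et0 tr0)))
      (q17 _ _ hc.p.rep))) (by
        rw [c1]
        push_cast
        ring)
  have e3 : toR (3 * one) = 3 := llb_nat 3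
  have w1 : 1 + toR r / 3 + toR r ^ 2 / 2 ≤ toR (one + divU r (3 * one) + mulU half (mulU r r)) := by
    have a1 := divU_ok r (b := 3 * one) (by rw [e3]; norm_num)
    have a2 := mulU_le (by norm_num) (mul_self_nonneg _) acc_half.ge (mulU_ok r r)
    rw [e3] at a1
    rw [toR_add, toR_add, toR_one]
    linarith
  have w2 : 1 + toR th ^ 2 ≤ toR t2 := by
    rw [← ht2, toR_add, toR_one]
    linarith [mulU_ok th th]
  have k2 : 0 < toR (2 * κ) := by
    rw [two]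
    linarith
  have w3 : Real.exp (-(toR κ * (toR r - toR rs) ^ 2 * toR c.s02 / toR lp)) ≤ toR ev := by
    rw [← hev]
    refine (Real.exp_le_exp.2 ?_).trans (expU_ok _)
    rw [toR_neg]
    refine neg_le_neg ((divD_ok _ l0).trans (div_le_div_of_nonneg_right ((mulD_ok _ _).trans
      (mul_le_mul_of_nonneg_right ((mulD_ok _ _).trans (mul_le_mul_of_nonneg_left ?_ k0.le))
        hs0.le)) l0.le))
    rw [← toR_sub, sq]
    exact mulD_ok _ _
  have w4 : Real.sqrt (2 * Real.pi / (toR κ * toR c.cgl)) ≤ toR PP := by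
    rw [← hPP]
    refine (Real.sqrt_le_sqrt (divU_le (by positivity) kc ?_ (mulD_ok _ _))).trans (sqrtU_ok _)
    rw [two]
    linarith [piU_ok]
  have w5 : Real.exp (P.p * (1 - P.p) * (Real.exp ((1 - 2 * P.p) * toR r) + 1 +
      (1 - 2 * P.p) * toR r) + P.p * toR r) ≤ toR (expU cp) :=
    (Real.exp_le_exp.2 (by linarith)).trans (expU_ok _)
  have ev0 : 0 ≤ toR ev := (Real.exp_pos _).le.trans w3
  have PP0 : 0 ≤ toR PP := (Real.sqrt_nonneg _).trans w4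
  have cp0 : 0 ≤ toR (expU cp) := (Real.exp_pos _).le.trans w5
  have sq2 : ∀ {y : ℝ} {a : ℤ}, y ≤ toR a → 2 * Real.sqrt y ≤ toR (2 * sqrtU a) := fun {y a} ha => by
    rw [two]
    linarith [Real.sqrt_le_sqrt ha, sqrtU_ok a]
  have w6 : toR PP + 2 * Real.sqrt (toR lp / toR c.s02 / toR c.cgl) / toR rate * toR ev ≤
      toR hi := by
    rw [← hhi, toR_add]
    exact add_le_add le_rfl (mulU_le (by positivity) ev0 (divU_le (by positivity) ra
      (sq2 (divU_le (by positivity) g0 (divU_ok _ hs0) le_rfl)) le_rfl) le_rfl)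
  have pc := mulU_ok PP (expU cp)
  have er := expU_ok r
  refine P.small_entry hδ r0 r2 v1 v2 g0 hc.cgl hs0 hc.s02 k0 ?_ s0 ?_ ?_ rr ra ?_ w3 w4 w5
    hT0 hT w6 ?_ ?_
  · rw [← hκ, toR_sub, toR_one]
    refine sub_le_sub_left ((mul_le_mul_of_nonneg_left ?_ l0.le).trans (mulU_ok lp c2)) 1
    linarith [mul_le_mul_of_nonneg_left w1 hpq]
  · rw [toR_sub, toR_one]
    exact sub_le_sub_left (divU_le (by positivity) k2
      (mulU_le l0.le (by positivity) le_rfl w2) (two κ).le) 1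
  · rw [← hrs]
    exact divU_le (by positivity) k0 (mulU_le l0.le (by positivity) le_rfl
      ((Real.sqrt_le_sqrt w2).trans (sqrtU_ok _))) le_rfl
  · rw [← hra, toR_sub]
    exact sub_le_sub_left (mulU_le l0.le (by positivity) le_rfl
      ((Real.exp_le_exp.2 (mulU_ok th r)).trans (expU_ok _))) _
  · rw [toR_add, sq (toR c.cgl), ← div_div]
    refine add_le_add (divU_le (by positivity) g0 (divU_le (by positivity) g0
      (mulU_le (by positivity) (by positivity) pc ?_) le_rfl) le_rfl) (divU_ok _ g0)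
    rw [toR_add, toR_one]
    refine add_le_add le_rfl (divU_le (by positivity) k2 (mulU_le (by positivity) (by positivity)
      (mulU_le (by positivity) l0.le er le_rfl) ((Real.sqrt_le_sqrt ?_).trans (sqrtU_ok _)))
      (two κ).le)
    rw [two]
    linarith
  · have pi0 : 0 < toR piD := by norm_num [toR, piD]
    have hπ := Real.pi_pos
    rw [toR_add, ← div_div, ← div_div]
    refine add_le_add (divU_le (by positivity) g0 (mulU_le (by positivity) (by positivity)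
      (mulU_le (by positivity) (by positivity) pc er) ((Real.sqrt_le_sqrt (divU_le (by positivity)
        k0 (divU_le (by positivity) pi0 (two lp).ge piD_ok) le_rfl)).trans (sqrtU_ok _))) le_rfl)
      (divU_le (by positivity) g0 (divU_le (by positivity) ra (mulU_le (by positivity) cp0
        (mulU_le (by positivity) (by positivity) (mulU_le (by positivity) ev0
          (sq2 (divU_ok _ g0)) le_rfl) ?_) le_rfl) le_rfl) le_rfl)
    rw [toR_add, toR_one]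
    linarith

theorem chkS_ok (hc : c.For b) {r : ℤ} {l : List FU} (h : chkS c r l = true) :
    ∀ f ∈ l, f.Ok b := by
  obtain ⟨cS, hi, A, C, h, hv⟩ := llb_valS h
  intro f hf P hP _ T h1 h2
  have h := List.all_eq_true.1 h f hf
  simp only [chkS1, Bool.and_eq_true] at h
  obtain ⟨⟨⟨⟨⟨f0, f1⟩, f2⟩, f3⟩, f4⟩, f5⟩ := h
  have hT : T ^ 2 ≤ toR (maxI (mulU f.T1 f.T1) (mulU f.T2 f.T2)) := by
    rw [toR_maxI]
    rcases le_total T 0 with h0 | h0
    · exact le_max_of_le_left (le_trans (by nlinarith) (mulU_ok f.T1 f.T1))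
    · exact le_max_of_le_right (le_trans (by nlinarith) (mulU_ok f.T2 f.T2))
  obtain ⟨q0, q1⟩ := llb_cosQ hT
  have key : ∀ Q : Par, b.Mem Q → 0 < Q.δ → Q.Up T (Q.cF T) (Q.nF T) (toR f.hi) (toR f.hh)
      (toR f.A) (toR f.B) (toR f.C) := fun Q hQ hδ => by
    obtain ⟨x, hx⟩ := hc.2 Q hQ
    refine llb_mono (hv _ Q (hx x.x2 x.h2) hδ T _ q0 q1) (leI_ok f1) ?_ (leI_ok f2)
      (toR_zero.ge.trans (leI_ok f3)) (leI_ok f4)
    have := leI_ok f5
    rw [toR_neg] at this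
    exact (neg_le_neg (mulD_ok _ _)).trans this
  simp only [Pc.c, Pc.n, f0, if_true]
  rcases P.hδ.eq_or_lt with h0 | h0
  · refine P.Up_lim hc.1 h0.symm fun d hd d0 dt =>
      key _ ⟨hP.1, hP.2.1, hP.2.2.1.trans ?_, dt⟩ d0
    refine le_trans (le_of_eq ?_) (P.withδ d hd).t_nonneg
    rw [Par.t, Par.sg, Par.lam, ← h0, zero_mul, zero_mul, zero_div]
  · exact key P hP h0

end

end Pool.Agent.Sok
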