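import Pool.Agent.Sok.Cmb
import Pool.Agent.Sok.LLine

/-! Tables and certificates packed in natural numbers; covering of the parameter square. -/

set_option autoImplicit false

namespace Pool.Agent.Sok

def bits (n j m : ℕ) : ℕ := Nat.land (Nat.shiftRight n j) m
def bit (n j : ℕ) : Bool := Nat.beq (Nat.land (Nat.shiftRight n j) 1) 1
def sgn (m c s : ℕ) : ℤ :=
  cond (Nat.ble c m) (Int.ofNat (Nat.shiftLeft (Nat.sub m c) s))
    (Int.negSucc (Nat.pred (Nat.shiftLeft (Nat.sub c m) s)))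
/-- a signed field of 32 bits in units of `2^(-20)` -/
def fz (n j : ℕ) : ℤ := sgn (Nat.land (Nat.shiftRight n j) 4294967295) 2147483648 20

def boxOf (n : ℕ) : Box := ⟨fz n 0, fz n 32, fz n 64, fz n 96⟩

def lcOf (n : ℕ) : LCC :=
  ⟨fz n 0, fz n 32, fz n 64, fz n 96, fz n 128, fz n 160, fz n 192, fz n 224, fz n 256, fz n 288,
    fz n 320⟩
def cls (B i : ℕ) : LCC := lcOf (bits B (Nat.mul 352 i) (Nat.pred (Nat.shiftLeft 1 352)))
def ClsOk (B lo hi : ℕ) : Prop := ∀ i, lo ≤ i → i < hi → (cls B i).ok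
def chkCls (B lo : ℕ) : ℕ → Bool
  | 0 => true
  | n + 1 => lcCheck (cls B (Nat.add lo n)) && chkCls B lo n

theorem chkCls_ok {B lo n : ℕ} (h : chkCls B lo n = true) : ClsOk B lo (lo + n) := by
  induction n with
  | zero => intro i h1 h2; omega
  | succ n ih =>
    rw [chkCls, Bool.and_eq_true] at h
    intro i h1 h2
    rcases Nat.lt_or_ge i (lo + n) with h3 | h3
    · exact ih h.2 i h1 h3
    · obtain rfl : i = lo + n := by omega
      exact lcCheck_ok h.1

theorem ClsOk.app {B a b c : ℕ} (h : ClsOk B a b) (h' : ClsOk B b c) : ClsOk B a c :=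
  fun i h1 h2 => (Nat.lt_or_ge i b).elim (h i h1) fun h3 => h' i h3 h2

def fuOf (n : ℕ) : FU :=
  ⟨⟨bit n 0, fz n 32, fz n 64⟩, fz n 96, fz n 128, fz n 160, fz n 192, fz n 224, fz n 256,
    fz n 288⟩
def fxOf (n : ℕ) : FX := ⟨fuOf n, fz n 320, fz n 352, fz n 384, fz n 416, fz n 448⟩
def fiOf (n : ℕ) : FI :=
  ⟨bit n 0, fz n 32, fz n 64, fz n 96, fz n 128, fz n 160, fz n 192, fz n 224, fz n 256, fz n 288,
    fz n 320, fz n 352⟩

def vx (n j : ℕ) : ℤ := sgn (Nat.land (Nat.shiftRight n j) 8191) 4096 32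
def stepOf (n : ℕ) : Step := ⟨bit n 26, vx n 0, vx n 13, bit n 27, bits n 28 7⟩
def stepsOf : ℕ → ℕ → List Step
  | 0, _ => []
  | c + 1, n => stepOf n :: stepsOf c (Nat.shiftRight n 32)

def sadOf (n : ℕ) : SadC := ⟨fz n 0, fz n 32, bits n 96 7, fz n 64⟩
def xcOf (B n : ℕ) : XC :=
  ⟨sadOf n, ⟨vx n 128, vx n 141, cls B (bits n 112 4095), bit n 155,
    stepsOf (bits n 104 15) (Nat.shiftRight n 160),
    stepsOf (bits n 108 15) (Nat.shiftRight n (Nat.add 160 (Nat.mul 32 (bits n 104 15))))⟩,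
    bits n 99 3, bits n 101 3⟩
def ucOf (n : ℕ) : UC :=
  ⟨sadOf n, fz n 64, stepsOf (bits n 104 15) (Nat.shiftRight n 128),
    stepsOf (bits n 108 15) (Nat.shiftRight n (Nat.add 128 (Nat.mul 32 (bits n 104 15)))),
    bits n 99 3, bits n 101 3⟩
def lcdOf (n : ℕ) : LC := ⟨fz n 320, fz n 352, fz n 384, bit n 4, fz n 416⟩

def chkX1 (B m : ℕ) (c : Col) (n : ℕ) : Bool :=
  Nat.blt (bits (Nat.shiftRight n 480) 112 4095) m &&
    chkX c (fxOf n) (xcOf B (Nat.shiftRight n 480))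
def chkU1 (c : Col) (n : ℕ) : Bool :=
  cond (bit n 1) (chkU c (fuOf n) (ucOf (Nat.shiftRight n 320)))
    (cond (bit n 2) (chkS c (fz n 320) [fuOf n]) (chkL c (fuOf n) (bit n 3) (lcdOf n)))
def chkI1 (c : Col) (n : ℕ) : Bool := chkI c (fiOf n) (fz n 384)

def chkXs (B m b : ℕ) (l : List ℕ) : Bool := mkCol (boxOf b) fun c => l.all (chkX1 B m c)
def chkUs (b : ℕ) (l : List ℕ) : Bool := mkCol (boxOf b) fun c => l.all (chkU1 c)
def chkIs (b : ℕ) (l : List ℕ) : Bool := mkCol (boxOf b) fun c => l.all (chkI1 c)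

def XOk (b : ℕ) (l : List ℕ) : Prop := ∀ n ∈ l, (fxOf n).Ok (boxOf b)
def UOk (b : ℕ) (l : List ℕ) : Prop := ∀ n ∈ l, (fuOf n).Ok (boxOf b)
def IOk (b : ℕ) (l : List ℕ) : Prop := ∀ n ∈ l, (fiOf n).Ok (boxOf b)

theorem chkXs_ok {B m b : ℕ} {l : List ℕ} (hB : ClsOk B 0 m) (h : chkXs B m b l = true) :
    XOk b l := by
  obtain ⟨c, h, hc⟩ := mkCol_ok h
  intro n hn
  have h1 := List.all_eq_true.1 h n hn
  rw [chkX1, Bool.and_eq_true] at h1
  exact chkX_ok hc (hB _ (Nat.zero_le _) (Nat.blt_eq.mp h1.1)) h1.2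

theorem chkUs_ok {b : ℕ} {l : List ℕ} (h : chkUs b l = true) : UOk b l := by
  obtain ⟨c, h, hc⟩ := mkCol_ok h
  intro n hn
  have h1 := List.all_eq_true.1 h n hn
  unfold chkU1 at h1
  cases e1 : bit n 1 <;> rw [e1] at h1
  · cases e2 : bit n 2 <;> rw [e2] at h1
    · exact chkL_ok hc h1
    · exact chkS_ok hc h1 _ List.mem_cons_self
  · exact chkU_ok hc h1

theorem chkIs_ok {b : ℕ} {l : List ℕ} (h : chkIs b l = true) : IOk b l := by
  obtain ⟨c, h, hc⟩ := mkCol_ok h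
  exact fun n hn => chkI_ok hc (List.all_eq_true.1 h n hn)

theorem XOk.nil (b : ℕ) : XOk b [] := fun _ h => absurd h List.not_mem_nil
theorem UOk.nil (b : ℕ) : UOk b [] := fun _ h => absurd h List.not_mem_nil
theorem IOk.nil (b : ℕ) : IOk b [] := fun _ h => absurd h List.not_mem_nil
theorem XOk.app {b : ℕ} {l l' : List ℕ} (h : XOk b l) (h' : XOk b l') : XOk b (List.append l l') :=
  fun n hn => (List.mem_append.1 hn).elim (h n) (h' n)
theorem UOk.app {b : ℕ} {l l' : List ℕ} (h : UOk b l) (h' : UOk b l') : UOk b (List.append l l') :=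
  fun n hn => (List.mem_append.1 hn).elim (h n) (h' n)

def tabOf (xs us is : List ℕ) : Tab := ⟨xs.map fxOf, us.map fuOf, is.map fiOf⟩

theorem tabOf_ok {b : ℕ} {xs us is : List ℕ} (hx : XOk b xs) (hu : UOk b us) (hi : IOk b is) :
    (tabOf xs us is).Ok (boxOf b) :=
  ⟨List.forall_mem_map.2 hx, List.forall_mem_map.2 hu, List.forall_mem_map.2 hi⟩

/-- tokens have 12 bits -/
def tk (n j : ℕ) : ℕ := Nat.land (Nat.shiftRight n j) 4095
def sk (n c : ℕ) : ℕ := Nat.shiftRight n (Nat.mul 12 c)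
def rdl : ℕ → ℕ → List ℕ
  | 0, _ => []
  | c + 1, n => Nat.land n 4095 :: rdl c (Nat.shiftRight n 12)
def rdL : ℕ → ℕ → List (List ℕ)
  | 0, _ => []
  | c + 1, n => rdl (Nat.land n 4095) (Nat.shiftRight n 12) ::
      rdL c (sk n (Nat.succ (Nat.land n 4095)))
def sideOf (n : ℕ) : SideC :=
  ⟨rdL (tk n 12) (sk n (Nat.add 3 (tk n 24))), rdl (tk n 24) (Nat.shiftRight n 36), tk n 0⟩
def cutOf (n : ℕ) : Cut :=
  ⟨bit n 0, Int.subNatNat (tk n 12) 8, sgn (tk n 24) 2048 33, sgn (tk n 36) 2048 33,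
    sgn (tk n 48) 2048 33⟩
def kp (n j : ℕ) : ℤ := Int.ofNat (Nat.shiftLeft (tk n j) 30)
def dcOf (n : ℕ) : DC :=
  ⟨cutOf n, bit n 60, kp n 72, kp n 84, rdl (tk n 96) (Nat.shiftRight n 132),
    sideOf (sk n (tk n 108)), sideOf (sk n (tk n 120))⟩
def miOf (n : ℕ) : MI :=
  ⟨kp n 0, rdl (tk n 12) (Nat.shiftRight n 72), rdl (tk n 24) (sk n (tk n 36)),
    sideOf (sk n (tk n 48)), sideOf (sk n (tk n 60))⟩

/-- `0, ..., 6`: denominators `2, ..., 8`; `7, 8, 9`: ranges of large denominators; `10`: one -/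
def caseN (i : ℕ) : Case :=
  cond (Nat.ble i 6) ⟨i + 2, Int.ediv (2 * piD) (i + 2), Int.ediv (2 * piU) (i + 2) + 1⟩
    (cond (Nat.beq i 7) ⟨0, 604731395277, 769658139443⟩
      (cond (Nat.beq i 8) ⟨0, 384829069722, 604731395277⟩
        (cond (Nat.beq i 9) ⟨0, 0, 384829069722⟩ ⟨1, 2 * piD, 2 * piU⟩)))

def caseOf (i : ℕ) : List ℕ → CaseC
  | [] => ⟨caseN i, [], ⟨cutOf 0, 0, 0, 0, 0, []⟩, []⟩
  | h :: l => ⟨caseN i, (l.take (tk h 60)).map dcOf,
      ⟨cutOf h, fz h 84, fz h 116, fz h 148, fz h 180,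
        ((l.drop (tk h 60)).take (tk h 72)).map miOf⟩,
      (l.drop (Nat.add (tk h 60) (tk h 72))).map dcOf⟩

def chkKl (c : Col) (b : Box) (t : Tab) : List ℕ → List (List ℕ) → Bool
  | [], _ => true
  | _ :: _, [] => false
  | i :: l, d :: L => chkCase c b t (caseOf i d) && chkKl c b t l L

def chkKs (b : ℕ) (xs us is l : List ℕ) (L : List (List ℕ)) : Bool :=
  mkCol (boxOf b) fun c => chkKl c (boxOf b) (tabOf xs us is) l L

def AllF (b : ℕ) (l : List ℕ) : Prop := ∀ i ∈ l, (caseN i).Ok (boxOf b)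

theorem chkKs_ok {b : ℕ} {xs us is l : List ℕ} {L : List (List ℕ)} (hx : XOk b xs) (hu : UOk b us)
    (hi : IOk b is) (h : chkKs b xs us is l L = true) : AllF b l := by
  obtain ⟨c, h', hc⟩ := mkCol_ok h
  clear h
  have ht := tabOf_ok hx hu hi
  generalize tabOf xs us is = t at h' ht
  induction l generalizing L with
  | nil => exact fun _ h => absurd h List.not_mem_nil
  | cons i l ih =>
    cases L with
    | nil => exact absurd h' Bool.false_ne_true
    | cons d L =>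
      rw [chkKl, Bool.and_eq_true] at h'
      refine List.forall_mem_cons.2 ⟨?_, ih h'.2⟩
      have h1 := chkCase_ok hc ht h'.1
      cases d <;> exact h1

def Cov (L : List (ℕ × List ℕ)) : Prop := ∀ x ∈ L, AllF x.1 x.2

theorem Cov.nil : Cov [] := fun _ h => absurd h List.not_mem_nil
theorem Cov.cons {b : ℕ} {l : List ℕ} {L : List (ℕ × List ℕ)} (h : AllF b l) (h' : Cov L) :
    Cov ((b, l) :: L) := List.forall_mem_cons.2 ⟨h, h'⟩
theorem Cov.app {L L' : List (ℕ × List ℕ)} (h : Cov L) (h' : Cov L') : Cov (List.append L L') :=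
  fun n hn => (List.mem_append.1 hn).elim (h n) (h' n)

def Box.meets (b c : Box) : Bool := ltI b.pl c.ph && ltI c.pl b.ph && ltI b.tl c.th && ltI c.tl b.th

/-- bisection until each part lies in a box of the list or passes the test `f` -/
def cov (f : Box → Bool) : ℕ → List Box → Box → Bool
  | 0, L, b => L.any b.sub || f b
  | n + 1, L, b => (L.any b.sub || f b) ||
      cond (ltI (8 * (b.th - b.tl)) (5 * (b.ph - b.pl)))
        (fI (Int.ediv (b.pl + b.ph) 2) fun m =>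
          cov f n (L.filter b.meets) ⟨b.pl, m, b.tl, b.th⟩ &&
            cov f n (L.filter b.meets) ⟨m, b.ph, b.tl, b.th⟩)
        (fI (Int.ediv (b.tl + b.th) 2) fun m =>
          cov f n (L.filter b.meets) ⟨b.pl, b.ph, b.tl, m⟩ &&
            cov f n (L.filter b.meets) ⟨b.pl, b.ph, m, b.th⟩)

theorem Box.sub_ok {b c : Box} (h : b.sub c = true) {P : Par} (hP : b.Mem P) : c.Mem P := by
  simp only [Box.sub, Bool.and_eq_true] at h
  exact ⟨(leI_ok h.1.1.1).trans hP.1, hP.2.1.trans (leI_ok h.1.1.2),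
    (leI_ok h.1.2).trans hP.2.2.1, hP.2.2.2.trans (leI_ok h.2)⟩

theorem cov_ok {P : Par} {f : Box → Bool} {n : ℕ} {L : List Box} {b : Box}
    (h : cov f n L b = true) (hP : b.Mem P) : ∃ c, (c ∈ L ∨ f c = true) ∧ c.Mem P := by
  have h0 : ∀ {L : List Box} {b : Box}, (L.any b.sub || f b) = true → b.Mem P →
      ∃ c, (c ∈ L ∨ f c = true) ∧ c.Mem P := fun h hP => (Bool.or_eq_true_iff.1 h).elim
    (fun h => (List.any_eq_true.1 h).imp fun c hc => ⟨Or.inl hc.1, Box.sub_ok hc.2 hP⟩)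
    fun h => ⟨_, Or.inr h, hP⟩
  induction n generalizing L b with
  | zero => exact h0 h hP
  | succ n ih =>
    rw [cov, Bool.or_eq_true] at h
    refine h.elim (fun h => h0 h hP) fun h => ?_
    have h1 : (∃ c, (c ∈ L.filter b.meets ∨ f c = true) ∧ c.Mem P) →
        ∃ c, (c ∈ L ∨ f c = true) ∧ c.Mem P :=
      fun h => h.imp fun c hc => ⟨hc.1.imp_left List.mem_of_mem_filter, hc.2⟩
    apply h1
    cases e : ltI (8 * (b.th - b.tl)) (5 * (b.ph - b.pl)) <;> rw [e] at h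
    · rw [cond_false, fI_eq, Bool.and_eq_true] at h
      rcases le_total P.t (toR (Int.ediv (b.tl + b.th) 2)) with h2 | h2
      · exact ih h.1 ⟨hP.1, hP.2.1, hP.2.2.1, h2⟩
      · exact ih h.2 ⟨hP.1, hP.2.1, h2, hP.2.2.2⟩
    · rw [cond_true, fI_eq, Bool.and_eq_true] at h
      rcases le_total P.p (toR (Int.ediv (b.pl + b.ph) 2)) with h2 | h2
      · exact ih h.1 ⟨hP.1, h2, hP.2.2⟩
      · exact ih h.2 ⟨h2, hP.2.1, hP.2.2⟩

def strip4 (f : Box → Bool) (L : List Box) (t0 t1 : ℤ) : Bool :=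
  cov f 16 L ⟨0, 137438953472, t0, t1⟩ && cov f 16 L ⟨137438953472, 274877906944, t0, t1⟩ &&
  cov f 16 L ⟨274877906944, 412316860416, t0, t1⟩ && cov f 16 L ⟨412316860416, half, t0, t1⟩

/-- the strips between the numbers of the list, in units of `2^(-12)`, reach `t = 1` -/
def strips (f : Box → Bool) (L : List Box) : List ℕ → ℕ → Bool
  | [], a => Nat.ble 4096 a
  | c :: l, a => strip4 f L (Int.ofNat (Nat.shiftLeft a 28)) (Int.ofNat (Nat.shiftLeft c 28)) &&
      strips f L l c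

theorem strips_ok {P : Par} {f : Box → Bool} {L : List Box} {l : List ℕ} {a : ℕ}
    (h : strips f L l a = true) (ha : toR (Int.ofNat (Nat.shiftLeft a 28)) ≤ P.t) :
    ∃ c, (c ∈ L ∨ f c = true) ∧ c.Mem P := by
  induction l generalizing a with
  | nil =>
    have h1 : one ≤ Int.ofNat (Nat.shiftLeft a 28) := by
      have h2 : 4096 ≤ a := Nat.le_of_ble_eq_true h
      rw [show Nat.shiftLeft a 28 = a * 2 ^ 28 from Nat.shiftLeft_eq a 28, one]
      simp only [Int.ofNat_eq_natCast]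
      push_cast
      omega
    have h2 := toR_le.2 h1
    rw [toR_one] at h2
    exact absurd P.t_lt (not_lt.2 (h2.trans ha))
  | cons c l ih =>
    rw [strips, Bool.and_eq_true] at h
    rcases le_total P.t (toR (Int.ofNat (Nat.shiftLeft c 28))) with h2 | h2
    · simp only [strip4, Bool.and_eq_true] at h
      rcases le_total P.p (toR 137438953472) with h3 | h3
      · exact cov_ok h.1.1.1.1 ⟨toR_zero.le.trans P.hp0.le, h3, ha, h2⟩
      rcases le_total P.p (toR 274877906944) with h4 | h4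
      · exact cov_ok h.1.1.1.2 ⟨h3, h4, ha, h2⟩
      rcases le_total P.p (toR 412316860416) with h5 | h5
      · exact cov_ok h.1.1.2 ⟨h4, h5, ha, h2⟩
      · exact cov_ok h.1.2 ⟨h5, P.hp.trans acc_half.ge, ha, h2⟩
    · exact ih h.2 h2

def boxes (i : ℕ) : List (ℕ × List ℕ) → List Box
  | [] => []
  | x :: L => cond (x.2.any (Nat.beq i)) (boxOf x.1 :: boxes i L) (boxes i L)

theorem boxes_ok {i : ℕ} {L : List (ℕ × List ℕ)} (hL : Cov L) :
    ∀ c ∈ boxes i L, (caseN i).Ok c := by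
  induction L with
  | nil => exact fun _ h => absurd h List.not_mem_nil
  | cons x L ih =>
    have h := List.forall_mem_cons.1 hL
    rw [boxes]
    cases e : x.2.any (Nat.beq i)
    · exact ih h.2
    · obtain ⟨j, hj, e⟩ := List.any_eq_true.1 e
      rw [← Nat.eq_of_beq_eq_true e] at hj
      exact List.forall_mem_cons.2 ⟨h.1 i hj, ih h.2⟩

/-- case `i` holds for `t ≥ a / 4096` -/
def CaseFrom (i a : ℕ) : Prop := ∀ P : Par, toR (Int.ofNat (Nat.shiftLeft a 28)) ≤ P.t →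
  ∀ b : ℕ, 1 ≤ b → (caseN i).Mem b → 5.44 ≤ P.ka * (2 * Real.pi / b) ^ 2 → P.Uniq b

theorem caseFrom {i a : ℕ} {L : List (ℕ × List ℕ)} (hL : Cov L) {l : List ℕ} {f : Box → Bool}
    (hf : ∀ c, f c = true → (caseN i).Ok c) (h : strips f (boxes i L) l a = true) :
    CaseFrom i a := by
  intro P hP
  obtain ⟨c, hc, hm⟩ := strips_ok h hP
  exact hc.elim (boxes_ok hL c) (hf c) P hm

theorem asym_of_cases {a : ℕ} (h : ∀ i, i ≤ 9 → CaseFrom i 0) (h1 : CaseFrom 10 a)
    (hB : ∀ P : Par, 0 < P.δ → P.t ≤ toR (Int.ofNat (Nat.shiftLeft a 28)) →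
      5.44 ≤ P.ka * (2 * Real.pi) ^ 2 → P.Uniq 1) : Asym := by
  refine asym_of_uniq fun P b hb hν hδ => ?_
  have h0 : toR (Int.ofNat (Nat.shiftLeft 0 28)) ≤ P.t := toR_zero.le.trans P.t_nonneg
  rcases Nat.lt_or_ge b 2 with h2 | h2
  · obtain rfl : b = 1 := by omega
    rcases le_total P.t (toR (Int.ofNat (Nat.shiftLeft a 28))) with h3 | h3
    · exact hB P (hδ rfl) h3 (by simpa using hν)
    · exact h1 P h3 1 hb rfl hν
  rcases Nat.lt_or_ge b 9 with h9 | h9
  · refine h (b - 2) (by omega) P h0 b hb ?_ hν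
    have e : Nat.ble (b - 2) 6 = true := Nat.ble_eq_true_of_le (by omega)
    unfold Case.Mem caseN
    rw [e, cond_true, if_neg (by simp)]
    simp only
    omega
  have hb9 : (9 : ℝ) ≤ b := by exact_mod_cast h9
  have hD : 2 * Real.pi / b ≤ toR 769658139443 := by
    rw [div_le_iff₀ (by linarith), toR]
    have := Real.pi_lt_d4
    norm_num at this ⊢
    linarith
  have hD0 : toR 0 ≤ 2 * Real.pi / b := by
    rw [toR_zero]
    positivity
  rcases le_total (toR 604731395277) (2 * Real.pi / b) with h3 | h3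
  · exact h 7 (by omega) P h0 b hb ⟨h3, hD⟩ hν
  rcases le_total (toR 384829069722) (2 * Real.pi / b) with h4 | h4
  · exact h 8 (by omega) P h0 b hb ⟨h4, h3⟩ hν
  · exact h 9 (by omega) P h0 b hb ⟨hD0, h4⟩ hν

end Pool.Agent.Sok
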