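import Pool.Agent.Sok.TCh3
import Pool.Agent.Sok.Dat
import Pool.Agent.Sok.B1Dob

/-! Lines of parameters in the chart at the turning point: zero free intervals and cut intervals. -/

set_option autoImplicit false

namespace Pool.Agent.Sok

open TM Complex

/-- the standing assumptions -/
structure Par.Std (P : Par) : Prop where
  hδ : 0 < P.δ
  nl : -(2 * P.kap * (1 - P.kap)) < P.vre * ((1 + P.kap) * (1 + P.k2))
  lam : P.lam ≤ 79 / 50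

/-- outside the cubic disc of radius `Z` -/
def Par.Far (P : Par) (Z T : ℝ) : Prop := (Z * P.kap) ^ 3 ≤ 2 * ‖P.v T‖ ^ 3 * P.Xi ^ 2

/-- A family of lines, `κ ∈ [k1, k2]`, `θ ∈ [a1, a2]`.  Modes: `0`: `v = 2κθ² (c + i t)`,
`1`: `v = 2κθ² (t + i c)`, `2`: `v = 2κ (θ + i t)`, `3`: `v = θ + i t`. -/
structure Cl where
  m : ℕ
  k1 : ℤ
  k2 : ℤ
  a1 : ℤ
  a2 : ℤ
  c : ℤ
  Z : ℤ

namespace Cl

variable (c : Cl)

noncomputable def w (θ t : ℝ) : ℂ :=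
  if c.m = 0 then ⟨toR c.c, t⟩ else if c.m = 1 then ⟨t, toR c.c⟩ else ⟨θ, t⟩
/-- the first scale of the chart -/
noncomputable def s (κ θ : ℝ) : ℝ := if c.m ≤ 1 then θ else if c.m = 2 then 1 else (2 * κ)⁻¹
noncomputable def sc (κ θ : ℝ) : ℝ :=
  if c.m ≤ 1 then 2 * κ * θ ^ 2 else if c.m = 2 then 2 * κ else 1
/-- the large parameter over `Ξ` -/
noncomputable def wt (κ θ : ℝ) : ℝ :=
  if c.m ≤ 1 then 4 * θ ^ 3 else if c.m = 2 then 4 else (κ ^ 2)⁻¹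

structure In (P : Par) (θ : ℝ) : Prop where
  std : P.Std
  h1 : toR c.k1 ≤ P.kap
  h2 : P.kap ≤ toR c.k2
  h3 : toR c.a1 ≤ θ
  h4 : θ ≤ toR c.a2
  h5 : c.m ≤ 1 → 0 < θ

def At (P : Par) (θ T t : ℝ) : Prop :=
  P.v T = (c.sc P.kap θ : ℝ) * c.w θ t ∧ P.Far (toR c.Z) T

/-- no zero with parameter in `[a, b)` -/
def D (a b : ℤ) : Prop :=
  ∀ P θ T t, c.In P θ → c.At P θ T t → P.S T = 0 → toR a ≤ t → toR b ≤ t

/-- a common cut on `[a, b]` -/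
def M (u v a b : ℤ) : Prop :=
  ∀ P θ T t, c.In P θ → c.At P θ T t → toR a ≤ t → t ≤ toR b → toR a < toR b →
    P.Cut T (P.wT + (2 * P.kap * c.s P.kap θ : ℝ) * toC u v)

/-- the zeros in `[t1, t2)` lie in `[ya, yb]`, and if `am` there is at most one -/
def L (t1 t2 ya yb : ℤ) (am : Bool) : Prop :=
  ∀ P θ T t, c.In P θ → c.At P θ T t → P.S T = 0 → toR t1 ≤ t → t < toR t2 →
    toR ya ≤ t ∧ t ≤ toR yb ∧ (am = true → ∀ T' t', c.At P θ T' t' → P.S T' = 0 →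
      toR t1 ≤ t' → t' < toR t2 → T = T')

/-- the cubic disc, for scales in `[a1, a2]` and `re v ≤ 2 κ c` -/
def C : Prop :=
  ∀ (X : TX) (ζ : ℂ), toR c.k1 ≤ X.P.kap → X.P.kap ≤ toR c.k2 → toR c.a1 ≤ X.c1 →
    X.c1 ≤ toR c.a2 → X.m2 = X.c1 → X.L = 1 → X.P.v X.T = 2 * X.P.kap * X.c1 ^ 2 * ζ →
    ‖ζ‖ ≤ toR c.Z → X.P.vre ≤ 2 * X.P.kap * toR c.c → X.P.S X.T ≠ 0

def vh (th t : TM) (k : TM → Bool) : Bool :=
  cond (Nat.beq c.m 0) (mi t fun a => addc a c.c 0 k)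
    (cond (Nat.beq c.m 1) (addc t 0 c.c k) (mi t fun a => add th a k))

/-- the chart for `t ∈ [a, b]`; the continuation also gets the normalised coordinate -/
def chart (a b : ℤ) (ms : ℕ) (dbl : Bool) (k : TM → Chart → TE → Bool) : Bool :=
  leI 0 c.k1 && var 1 c.a1 c.a2 fun th => var 2 a b fun t => c.vh th t fun w =>
  cond (Nat.ble c.m 1)
    (var 0 (mulD c.k1 c.k1) (mulU c.k2 c.k2) fun q => mkTU q th w ms dbl (k w))
    (Nat.beq c.m 2 && cond (Nat.beq ms 0) (var 0 c.k1 c.k2 fun κ => mkT3 κ w (k w))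
      (var 0 (mulD c.k1 c.k1) (mulU c.k2 c.k2) fun q => mkT4 q w ms (k w)))

/-- `re v` divided by `2κ` (modes up to `2`) or by `1` -/
def xr (th t : TM) (k : TM → Bool) : Bool :=
  cond (Nat.ble c.m 1)
    (mul th th fun a => cond (Nat.beq c.m 0) (smul a c.c k) (mul a t k)) (k th)

/-- `L0` is a lower bound of `wt * Ξ` by `Xi_ge` or `Xi_ge'` -/
def low (a b L0 : ℤ) : Bool :=
  var 0 c.k1 c.k2 fun κ => var 1 c.a1 c.a2 fun th => mul κ κ fun q => mul q q fun B =>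
  neg B fun B => addc B one 0 fun B =>
  (cond (Nat.ble c.m 1) (fun k => mul th th fun y => mul y th fun y => nmul y 4 k)
    (cond (Nat.beq c.m 2) (cst (4 * one) 0) (inv q))) fun W =>
  (mul B W fun y => nmul y 5 fun y => lo y fun y => leI L0 y) ||
  var 2 a b fun t => c.xr th t fun X => nmul κ 2 fun d => addc q one 0 fun q1 => inv q1 fun i =>
  (cond (Nat.ble c.m 2) (fun k => sub i X fun y => mul d y k)
    (fun k => mul d i fun y => sub y X k)) fun e => exp e fun E =>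
  addc κ one 0 fun A => mul A A fun A => mul A q1 fun A => mul A E fun A => nmul B 2 fun B =>
  add A B fun A => mul A W fun A => lo A fun y => leI (8 * L0) (7 * y)

/-- `L0` is a lower bound of the large parameter -/
def okL (w : TM) (a b L0 : ℤ) : Bool :=
  (Nat.ble c.m 2 && ltI 0 c.Z && leI 0 L0 && ab w fun r =>
    leI (mulU (mulU L0 L0) (mulU r (mulU r r))) (mulD c.Z (mulD c.Z c.Z))) || c.low a b L0

/-- contradiction with `Std.nl` -/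
def vacL (a b : ℤ) : Bool :=
  var 0 c.k1 c.k2 fun κ => var 1 c.a1 c.a2 fun th => var 2 a b fun t => c.xr th t fun X =>
  mul κ κ fun q => addc q one 0 fun q => addc κ one 0 fun A => mul A q fun A => mul A X fun A =>
  neg κ fun B => addc B one 0 fun B =>
  (cond (Nat.ble c.m 2) (fun k => k B) (fun k => mul B κ fun B => nmul B 2 k)) fun B =>
  add A B fun A => hi A fun y => leI y 0

/-- contradiction with `lam_ge` (mode `2`) -/
def vacR : Bool :=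
  Nat.beq c.m 2 && var 0 c.k1 c.k2 fun κ => mul κ κ fun q => addc q one 0 fun q1 =>
  inv q1 fun i => neg i fun e => addc e c.a1 0 fun e => mul κ e fun e => nmul e 2 fun e =>
  exp e fun E =>
  addc κ one 0 fun A => neg κ fun B => addc B one 0 fun B => mul B E fun B => mul q E fun F =>
  nmul F 400 fun F => nmul q1 79 fun G =>
  (sub B A fun y => lo y fun y => ltI 0 y) ||
  (add A B fun y => mul y y fun y => mul G y fun y => sub F y fun y => lo y fun y => ltI 0 y) ||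
  mul A A fun y => mul G y fun y => nmul y 4 fun y => sub F y fun y => lo y fun y => ltI 0 y

/-- contradiction with `L = 1` -/
def vacC : Bool :=
  leI 0 c.a1 && fI (mulD c.a1 (mulD c.a1 c.a1)) fun q => ltI 0 q &&
    low ⟨2, c.k1, c.k2, c.c, c.c, 0, 0⟩ 0 0 (divU one q + 1)

end Cl

def b1Bits (n j m : ℕ) : ℕ := Nat.land (Nat.shiftRight n j) m
def b1Bit (n j : ℕ) : Bool := Nat.beq (Nat.land (Nat.shiftRight n j) 1) 1
def b1Sg (m c s : ℕ) : ℤ :=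
  cond (Nat.ble c m) (Int.ofNat (Nat.shiftLeft (Nat.sub m c) s))
    (Int.negSucc (Nat.pred (Nat.shiftLeft (Nat.sub c m) s)))
/-- a signed field of 16 bits in units of `2^(-10)` -/
def b1F (n j : ℕ) : ℤ := b1Sg (Nat.land (Nat.shiftRight n j) 65535) 32768 30
/-- a signed field of 13 bits in units of `2^(-8)` -/
def b1V (n j : ℕ) : ℤ := b1Sg (Nat.land (Nat.shiftRight n j) 8191) 4096 32

def b1Steps : ℕ → ℕ → List Step
  | 0, _ => []
  | c + 1, n => ⟨b1Bit n 26, b1V n 0, b1V n 13, b1Bit n 27, b1Bits n 28 7⟩ ::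
      b1Steps c (Nat.shiftRight n 32)

/-- a contour through a saddle point -/
def b1Xt (B n : ℕ) : XT :=
  ⟨b1F n 0, b1F n 16, b1Bits n 32 3, Int.ofNat (Nat.shiftLeft (b1Bits n 34 1048575) 18),
    ⟨b1V n 54, b1V n 67, cls B (b1Bits n 80 1023), b1Bit n 90,
      b1Steps (b1Bits n 92 15) (Nat.shiftRight n 100),
      b1Steps (b1Bits n 96 15) (Nat.shiftRight n (Nat.add 100 (Nat.mul 32 (b1Bits n 92 15))))⟩,
    b1Bits n 91 1⟩

def b1Cl (n : ℕ) : Cl :=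
  ⟨b1Bits n 96 3, b1F n 0, b1F n 16, b1F n 32, b1F n 48, b1F n 64, b1F n 80⟩

def b1L0 (n : ℕ) : ℤ := Int.ofNat (Nat.shiftLeft (b1Bits n 16 65535) 33)

/-- one zero free entry on `[a, b]` -/
def b1De (B nc : ℕ) (c : Cl) (a b : ℤ) (n : ℕ) : Bool :=
  cond (b1Bit n 36) (cond (b1Bit n 37) c.vacR (c.vacL a b))
    (Nat.blt (b1Bits n 120 1023) nc && c.chart a b (b1Bits n 32 7) (b1Bit n 35) fun w C e =>
      c.okL w a b (b1L0 n) && chkTD C e (b1L0 n) (b1Xt B (Nat.shiftRight n 40)))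

def b1Dl (B nc : ℕ) (c : Cl) (b : ℤ) : List ℕ → ℤ → Bool
  | [], a => leI b a
  | n :: l, a => fI (b1F n 0) fun e => b1De B nc c a e n && b1Dl B nc c b l e

/-- one entry with a cut on `[a, b]` -/
def b1Me (B nc : ℕ) (c : Cl) (u v a b : ℤ) (n n' : ℕ) : Bool :=
  Nat.blt (b1Bits n 120 1023) nc && Nat.blt (b1Bits n' 80 1023) nc &&
    c.chart a b (b1Bits n 32 7) (b1Bit n 35) fun w C e =>
      c.okL w a b (b1L0 n) &&
        chkTM C e (b1L0 n) u v (b1Xt B (Nat.shiftRight n 40)) (b1Xt B n')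

def b1Ml (B nc : ℕ) (c : Cl) (u v b : ℤ) : List (ℕ × ℕ) → ℤ → Bool
  | [], a => leI b a
  | n :: l, a => fI (b1F n.1 0) fun e => b1Me B nc c u v a e n.1 n.2 && b1Ml B nc c u v b l e

section

variable {c : Cl} {P : Par} {θ T t : ℝ} {a b L0 : ℤ}

theorem b1d_s_pos (h : c.In P θ) : 0 < c.s P.kap θ := by
  have h1 := Par.kap_pos h.std.hδ
  unfold Cl.s
  split_ifs with h2 h3
  · exact h.h5 h2
  · exact one_pos
  · positivity

theorem b1d_m_pos (h : c.In P θ) : 0 < if c.m ≤ 2 then c.s P.kap θ else 1 := by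
  split_ifs
  · exact b1d_s_pos h
  · exact one_pos

/-- the point of the chart -/
noncomputable def Cl.X (c : Cl) (h : c.In P θ) (T : ℝ) : TX :=
  ⟨P, T, c.s P.kap θ, if c.m ≤ 2 then c.s P.kap θ else 1, h.std.hδ, b1d_s_pos h, b1d_m_pos h⟩

theorem Cl.X_L (h : c.In P θ) (T : ℝ) : (c.X h T).L = c.wt P.kap θ * P.Xi := by
  have h1 := Par.kap_pos h.std.hδ
  change 4 * c.s P.kap θ ^ 2 * (if c.m ≤ 2 then c.s P.kap θ else 1) * P.Xi = _
  unfold Cl.s Cl.wt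
  by_cases h2 : c.m ≤ 1
  · rw [if_pos h2, if_pos h2, if_pos (h2.trans one_le_two)]
    ring
  by_cases h3 : c.m = 2
  · rw [if_neg h2, if_neg h2, if_pos h3, if_pos h3, if_pos h3.le]
    ring
  · rw [if_neg h2, if_neg h2, if_neg h3, if_neg h3, if_neg (by omega)]
    field_simp
    ring

theorem b1d_vh {th tt : TM} {k : TM → Bool} (h : c.vh th tt k = true) :
    ∃ w, k w = true ∧ ∀ x (θ t : ℝ), Rep x th θ → Rep x tt t → Rep x w (c.w θ t) := by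
  unfold Cl.vh at h
  unfold Cl.w
  cases h0 : Nat.beq c.m 0
  · rw [h0, cond_false] at h
    replace h0 := Nat.ne_of_beq_eq_false h0
    cases h1 : Nat.beq c.m 1
    · rw [h1, cond_false] at h
      obtain ⟨_, h, a1⟩ := mi_ok h
      obtain ⟨w, h, a2⟩ := add_ok h
      refine ⟨w, h, fun x θ t b1 b2 => ?_⟩
      rw [if_neg h0, if_neg (Nat.ne_of_beq_eq_false h1),
        show (⟨θ, t⟩ : ℂ) = θ + I * t from by apply Complex.ext <;> simp]
      exact a2 _ _ _ b1 (a1 _ _ b2)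
    · rw [h1, cond_true] at h
      obtain ⟨w, h, a1⟩ := addc_ok h
      refine ⟨w, h, fun x θ t _ b2 => ?_⟩
      rw [if_neg h0, if_pos (Nat.eq_of_beq_eq_true h1),
        show (⟨t, toR c.c⟩ : ℂ) = t + toC 0 c.c from by
          apply Complex.ext <;> simp [toC, toR_zero]]
      exact a1 _ _ b2
  · rw [h0, cond_true] at h
    obtain ⟨_, h, a1⟩ := mi_ok h
    obtain ⟨w, h, a2⟩ := addc_ok h
    refine ⟨w, h, fun x θ t _ b2 => ?_⟩
    rw [if_pos (Nat.eq_of_beq_eq_true h0),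
      show (⟨toR c.c, t⟩ : ℂ) = I * t + toC c.c 0 from by
        apply Complex.ext <;> simp [toC, toR_zero]]
    exact a2 _ _ (a1 _ _ b2)

theorem b1d_sc (hm : c.m ≤ 2) (κ θ : ℝ) : c.sc κ θ = 2 * κ * c.s κ θ ^ 2 := by
  unfold Cl.sc Cl.s
  by_cases h : c.m ≤ 1
  · rw [if_pos h, if_pos h]
  · rw [if_neg h, if_neg h, if_pos (by omega), if_pos (by omega), one_pow, mul_one]

/-- the chart and the end data are sound at a point over the given parameters -/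
theorem Cl.chart_ok {ms : ℕ} {dbl : Bool} {k : TM → Chart → TE → Bool}
    (h : c.chart a b ms dbl k = true) : ∃ w C e, k w C e = true ∧ ∀ P θ T t (hi : c.In P θ),
      P.v T = (c.sc P.kap θ : ℝ) * c.w θ t → toR a ≤ t → t ≤ toR b →
        ∃ x, Rep x w (c.w θ t) ∧ C.Ok x (c.X hi T).J ∧ e.Ok x (c.X hi T) := by
  unfold Cl.chart at h
  rw [Bool.and_eq_true] at h
  obtain ⟨h0, h⟩ := h
  replace h0 := toR_zero ▸ leI_ok h0
  obtain ⟨th, h, a1⟩ := var_ok h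
  obtain ⟨tt, h, a2⟩ := var_ok h
  obtain ⟨w, h, a3⟩ := b1d_vh h
  have a4 : ∀ (x : Pt) (θ t : ℝ), varVal c.a1 c.a2 x.x1 = θ → varVal a b x.x2 = t →
      RepA x w (c.w θ t) := fun x θ t e1 e2 y hy =>
    a3 _ _ _ (e1 ▸ a1 (x.set3 y hy)) (e2 ▸ a2 (x.set3 y hy))
  have a5 : ∀ {P : Par} {θ t : ℝ}, c.In P θ → toR a ≤ t → t ≤ toR b → ∃ x : Pt,
      varVal (mulD c.k1 c.k1) (mulU c.k2 c.k2) x.x0 = P.k2 ∧ varVal c.a1 c.a2 x.x1 = θ ∧
        varVal a b x.x2 = t := fun {P θ t} hi h1 h2 => by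
    have h3 := P.kap_nonneg
    have h4 : P.k2 = P.kap * P.kap := by rw [← P.kap_sq, sq]
    obtain ⟨y0, hy0, e0⟩ := exists_varVal (h4 ▸ mulD_le h0 h0 hi.h1 hi.h1)
      (h4 ▸ mulU_le h3 h3 hi.h2 hi.h2 : P.k2 ≤ toR (mulU c.k2 c.k2))
    obtain ⟨y1, hy1, e1⟩ := exists_varVal hi.h3 hi.h4
    obtain ⟨y2, hy2, e2⟩ := exists_varVal h1 h2
    exact ⟨⟨y0, y1, y2, y0, hy0, hy1, hy2, hy0⟩, e0, e1, e2⟩
  cases hm : Nat.ble c.m 1
  · rw [hm, cond_false, Bool.and_eq_true] at h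
    obtain ⟨hn, h⟩ := h
    replace hn : c.m = 2 := Nat.eq_of_beq_eq_true hn
    have b1 : ∀ κ θ, c.s κ θ = 1 := fun κ θ => by rw [Cl.s, if_neg (by omega), if_pos hn]
    have b2 : ∀ {P : Par} {θ T t : ℝ}, P.v T = (c.sc P.kap θ : ℝ) * c.w θ t →
        P.v T = 2 * P.kap * c.w θ t := fun hv => by
      rw [hv, Cl.sc, if_neg (by omega), if_pos hn, ofReal_mul, ofReal_ofNat]
    cases hs : Nat.beq ms 0
    · rw [hs, cond_false] at h
      obtain ⟨q, h, a6⟩ := var_ok h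
      obtain ⟨C, e, h, a7⟩ := mkT4_ok h
      refine ⟨w, C, e, h, fun P θ T t hi hv h1 h2 => ?_⟩
      obtain ⟨x, e0, e1, e2⟩ := a5 hi h1 h2
      exact ⟨x, (a4 x θ t e1 e2).rep, a7 _ (c.X hi T) _ (b1 _ _) ((if_pos hn.le).trans (b1 _ _))
        (b2 hv) (fun y hy => e0 ▸ a6 (x.set3 y hy)) (a4 x θ t e1 e2)⟩
    · rw [hs, cond_true] at h
      obtain ⟨q, h, a6⟩ := var_ok h
      obtain ⟨C, e, h, a7⟩ := mkT3_ok h
      refine ⟨w, C, e, h, fun P θ T t hi hv h1 h2 => ?_⟩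
      obtain ⟨y0, hy0, e0⟩ := exists_varVal hi.h1 hi.h2
      obtain ⟨y1, hy1, e1⟩ := exists_varVal hi.h3 hi.h4
      obtain ⟨y2, hy2, e2⟩ := exists_varVal h1 h2
      have b3 := a4 ⟨y0, y1, y2, y0, hy0, hy1, hy2, hy0⟩ θ t e1 e2
      refine ⟨_, b3.rep, a7 _ (c.X hi T) _ (b1 _ _) ((if_pos hn.le).trans (b1 _ _)) (b2 hv)
        (fun y hy => ?_) b3⟩
      change Rep _ q (P.kap : ℝ)
      rw [← e0]
      exact a6 _
  rw [hm, cond_true] at h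
  replace hm : c.m ≤ 1 := Nat.le_of_ble_eq_true hm
  obtain ⟨q, h, a6⟩ := var_ok h
  obtain ⟨C, e, h, a7⟩ := mkTU_ok h
  refine ⟨w, C, e, h, fun P θ T t hi hv h1 h2 => ?_⟩
  obtain ⟨x, e0, e1, e2⟩ := a5 hi h1 h2
  refine ⟨x, (a4 x θ t e1 e2).rep, a7 _ (c.X hi T) _ (if_pos (hm.trans one_le_two)) ?_
    (fun y hy => e0 ▸ a6 (x.set3 y hy)) (fun y hy => ?_) (a4 x θ t e1 e2)⟩
  · change P.v T = 2 * (P.kap : ℝ) * (c.s P.kap θ : ℝ) ^ 2 * _
    rw [hv, b1d_sc (hm.trans one_le_two)]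
    push_cast
    rfl
  · change Rep _ th (c.s P.kap θ : ℝ)
    rw [Cl.s, if_pos hm, ← e1]
    exact a1 (x.set3 y hy)

section b1e

variable {f g : TM} {k : TM → Bool} {u : ℤ}

theorem b1e_pt {k1 k2 a1 a2 : ℤ} {κ : ℝ} (h1 : toR k1 ≤ κ) (h2 : κ ≤ toR k2) (h3 : toR a1 ≤ θ)
    (h4 : θ ≤ toR a2) (h5 : toR a ≤ t) (h6 : t ≤ toR b) : ∃ x : Pt,
    varVal k1 k2 (x.get 0) = κ ∧ varVal a1 a2 (x.get 1) = θ ∧ varVal a b (x.get 2) = t := by
  obtain ⟨y0, a0, b0⟩ := exists_varVal h1 h2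
  obtain ⟨y1, a1, b1⟩ := exists_varVal h3 h4
  obtain ⟨y2, a2, b2⟩ := exists_varVal h5 h6
  exact ⟨⟨y0, y1, y2, 0, a0, a1, a2, by simp⟩, b0, b1, b2⟩

theorem b1e_mul (h : mul f g k = true) : ∃ c, k c = true ∧
    ∀ {x} {r s : ℝ}, Rep x f r → Rep x g s → Rep x c (r * s : ℝ) :=
  (mul_ok h).imp fun _ h => ⟨h.1, fun h1 h2 => ofReal_mul _ _ ▸ h.2 _ _ _ h1 h2⟩

theorem b1e_add (h : add f g k = true) : ∃ c, k c = true ∧
    ∀ {x} {r s : ℝ}, Rep x f r → Rep x g s → Rep x c (r + s : ℝ) :=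
  (add_ok h).imp fun _ h => ⟨h.1, fun h1 h2 => ofReal_add _ _ ▸ h.2 _ _ _ h1 h2⟩

theorem b1e_sub (h : sub f g k = true) : ∃ c, k c = true ∧
    ∀ {x} {r s : ℝ}, Rep x f r → Rep x g s → Rep x c (r - s : ℝ) :=
  (sub_ok h).imp fun _ h => ⟨h.1, fun h1 h2 => ofReal_sub _ _ ▸ h.2 _ _ _ h1 h2⟩

theorem b1e_neg (h : neg f k = true) : ∃ c, k c = true ∧
    ∀ {x} {r : ℝ}, Rep x f r → Rep x c (-r : ℝ) :=
  (neg_ok h).imp fun _ h => ⟨h.1, fun h1 => ofReal_neg _ ▸ h.2 _ _ h1⟩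

theorem b1e_inv (h : inv f k = true) : ∃ c, k c = true ∧
    ∀ {x} {r : ℝ}, Rep x f r → Rep x c (r⁻¹ : ℝ) :=
  (inv_ok h).imp fun _ h => ⟨h.1, fun h1 => ofReal_inv _ ▸ (h.2 _ _ h1).2⟩

theorem b1e_exp (h : TM.exp f k = true) : ∃ c, k c = true ∧
    ∀ {x} {r : ℝ}, Rep x f r → Rep x c (Real.exp r : ℝ) :=
  (exp_ok h).imp fun _ h => ⟨h.1, fun h1 => ofReal_exp _ ▸ h.2 _ _ h1⟩

theorem b1e_addc (h : addc f u 0 k = true) : ∃ c, k c = true ∧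
    ∀ {x} {r : ℝ}, Rep x f r → Rep x c (r + toR u : ℝ) :=
  (addc_ok h).imp fun _ h => ⟨h.1, fun h1 => by
    rw [ofReal_add, ← ser_toC]
    exact h.2 _ _ h1⟩

theorem b1e_smul (h : smul f u k = true) : ∃ c, k c = true ∧
    ∀ {x} {r : ℝ}, Rep x f r → Rep x c (r * toR u : ℝ) :=
  (smul_ok h).imp fun _ h => ⟨h.1, fun h1 => ofReal_mul _ _ ▸ h.2 _ _ h1⟩

theorem b1e_nmul (h : nmul f u k = true) : ∃ c, k c = true ∧
    ∀ {x} {r : ℝ}, Rep x f r → Rep x c (r * u : ℝ) :=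
  (nmul_ok h).imp fun _ h => ⟨h.1, fun h1 => by
    rw [ofReal_mul, ofReal_intCast]
    exact h.2 _ _ h1⟩

theorem b1e_lo {k : ℤ → Bool} (h : lo f k = true) : ∃ y, k y = true ∧
    ∀ {x} {r : ℝ}, Rep x f r → toR y ≤ r :=
  (lo_ok h).imp fun _ h => ⟨h.1, fun h1 => h.2 _ _ h1⟩

theorem b1e_hi {k : ℤ → Bool} (h : hi f k = true) : ∃ y, k y = true ∧
    ∀ {x} {r : ℝ}, Rep x f r → r ≤ toR y :=
  (hi_ok h).imp fun _ h => ⟨h.1, fun h1 => h.2 _ _ h1⟩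

/-- the number enclosed by `xr` -/
noncomputable def b1e_xv (c : Cl) (θ t : ℝ) : ℝ :=
  if c.m ≤ 1 then θ * θ * (if c.m = 0 then toR c.c else t) else θ

theorem b1e_xr (h : c.xr f g k = true) : ∃ X, k X = true ∧
    ∀ {x} {θ t : ℝ}, Rep x f θ → Rep x g t → Rep x X (b1e_xv c θ t) := by
  unfold Cl.xr at h
  unfold b1e_xv
  by_cases h1 : c.m ≤ 1
  · rw [Nat.ble_eq_true_of_le h1, cond_true] at h
    obtain ⟨_, h, a1⟩ := b1e_mul h
    simp only [if_pos h1]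
    by_cases h0 : c.m = 0
    · rw [h0, Nat.beq_refl, cond_true] at h
      obtain ⟨_, h, a2⟩ := b1e_smul h
      simp only [if_pos h0]
      exact ⟨_, h, fun b1 _ => a2 (a1 b1 b1)⟩
    · rw [Bool.eq_false_iff.2 fun e => h0 (Nat.eq_of_beq_eq_true e), cond_false] at h
      obtain ⟨_, h, a2⟩ := b1e_mul h
      simp only [if_neg h0]
      exact ⟨_, h, fun b1 b2 => a2 (a1 b1 b1) b2⟩
  · rw [Bool.eq_false_iff.2 fun e => h1 (Nat.le_of_ble_eq_true e), cond_false] at h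
    simp only [if_neg h1]
    exact ⟨_, h, fun b1 _ => b1⟩

theorem b1e_sc (c : Cl) (κ θ t : ℝ) : c.sc κ θ * (c.w θ t).re =
    (if c.m ≤ 2 then 2 * κ else 1) * b1e_xv c θ t := by
  unfold Cl.sc Cl.w b1e_xv
  rcases c.m with _ | _ | _ | m
  · simp only [zero_le, if_true]
    ring
  · simp only [zero_add, le_refl, if_true, one_ne_zero, if_false, Nat.one_le_ofNat]
    ring
  · simp
  · rw [if_neg (by omega), if_neg (by omega), if_neg (by omega), if_neg (by omega),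
      if_neg (by omega), if_neg (by omega)]

theorem b1e_vre (ha : c.At P θ T t) :
    P.vre = (if c.m ≤ 2 then 2 * P.kap else 1) * b1e_xv c θ t := by
  rw [← b1e_sc, ← re_ofReal_mul, ← ha.1]
  rfl

theorem b1e_wt {q : TM} (h : (cond (Nat.ble c.m 1)
      (fun k => mul f f fun y => mul y f fun y => nmul y 4 k)
      (cond (Nat.beq c.m 2) (cst (4 * one) 0) (inv q))) k = true) : ∃ W, k W = true ∧
    ∀ {x} {κ θ : ℝ}, Rep x f θ → Rep x q (κ * κ : ℝ) → Rep x W (c.wt κ θ) := by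
  unfold Cl.wt
  by_cases h1 : c.m ≤ 1
  · rw [Nat.ble_eq_true_of_le h1, cond_true] at h
    obtain ⟨_, h, a1⟩ := b1e_mul h
    obtain ⟨_, h, a2⟩ := b1e_mul h
    obtain ⟨_, h, a3⟩ := b1e_nmul h
    refine ⟨_, h, fun {x κ θ} b1 _ => ?_⟩
    rw [if_pos h1, show 4 * θ ^ 3 = θ * θ * θ * (4 : ℤ) by push_cast; ring]
    exact a3 (a2 (a1 b1 b1) b1)
  · rw [Bool.eq_false_iff.2 fun e => h1 (Nat.le_of_ble_eq_true e), cond_false] at h
    by_cases h0 : c.m = 2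
    · rw [h0, Nat.beq_refl, cond_true] at h
      obtain ⟨_, h, a1⟩ := cst_ok h
      refine ⟨_, h, fun {x κ θ} _ _ => ?_⟩
      have := a1 x
      rw [ser_toC, toR_intmul, toR_one, mul_one, Int.cast_ofNat] at this
      rwa [if_neg h1, if_pos h0]
    · rw [Bool.eq_false_iff.2 fun e => h0 (Nat.eq_of_beq_eq_true e), cond_false] at h
      obtain ⟨_, h, a1⟩ := b1e_inv h
      refine ⟨_, h, fun {x κ θ} _ b2 => ?_⟩
      rw [if_neg h1, if_neg h0, sq]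
      exact a1 b2

theorem b1e_e {i X d : TM} (h : (cond (Nat.ble c.m 2) (fun k => sub i X fun y => mul d y k)
      (fun k => mul d i fun y => sub y X k)) k = true) : ∃ e, k e = true ∧
    ∀ {x} {r s z : ℝ}, Rep x i r → Rep x X s → Rep x d z →
      Rep x e (z * r - (if c.m ≤ 2 then z else 1) * s : ℝ) := by
  by_cases h1 : c.m ≤ 2
  · rw [Nat.ble_eq_true_of_le h1, cond_true] at h
    obtain ⟨_, h, a1⟩ := b1e_sub h
    obtain ⟨_, h, a2⟩ := b1e_mul h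
    refine ⟨_, h, fun b1 b2 b3 => ?_⟩
    rw [if_pos h1, ← mul_sub]
    exact a2 b3 (a1 b1 b2)
  · rw [Bool.eq_false_iff.2 fun e => h1 (Nat.le_of_ble_eq_true e), cond_false] at h
    obtain ⟨_, h, a1⟩ := b1e_mul h
    obtain ⟨_, h, a2⟩ := b1e_sub h
    refine ⟨_, h, fun b1 b2 b3 => ?_⟩
    rw [if_neg h1, one_mul]
    exact a2 (a1 b3 b1) b2

end b1e

theorem Cl.low_ok (h : c.low a b L0 = true) (h1 : toR c.k1 ≤ P.kap) (h2 : P.kap ≤ toR c.k2)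
    (h3 : toR c.a1 ≤ θ) (h4 : θ ≤ toR c.a2) (h5 : 0 ≤ c.wt P.kap θ) (h6 : toR a ≤ t)
    (h7 : t ≤ toR b) (h8 : P.vre ≤ c.sc P.kap θ * (c.w θ t).re) :
    toR L0 ≤ c.wt P.kap θ * P.Xi := by
  obtain ⟨x, e0, e1, e2⟩ := b1e_pt h1 h2 h3 h4 h6 h7
  unfold Cl.low at h
  obtain ⟨_, h, a0⟩ := var_ok h
  obtain ⟨_, h, a1⟩ := var_ok h
  obtain ⟨_, h, a2⟩ := b1e_mul h
  obtain ⟨_, h, a3⟩ := b1e_mul h
  obtain ⟨_, h, a4⟩ := b1e_neg h
  obtain ⟨_, h, a5⟩ := b1e_addc h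
  obtain ⟨_, h, a6⟩ := b1e_wt h
  have b0 := e0 ▸ a0 x
  have b1 := e1 ▸ a1 x
  have b2 := a2 b0 b0
  have b5 := a5 (a4 (a3 b2 b2))
  have b6 := a6 b1 b2
  have k2 : P.kap * P.kap = P.k2 := by rw [← sq, P.kap_sq]
  rw [k2] at b2 b5
  rw [toR_one] at b5
  rcases Bool.or_eq_true_iff.1 h with h | h
  · obtain ⟨_, h, c1⟩ := b1e_mul h
    obtain ⟨_, h, c2⟩ := b1e_nmul h
    obtain ⟨_, h, c3⟩ := b1e_lo h
    have d1 := (leI_ok h).trans (c3 (c2 (c1 b5 b6)))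
    have d2 := mul_le_mul_of_nonneg_left P.Xi_ge h5
    push_cast at d1
    linarith
  · obtain ⟨_, h, c0⟩ := var_ok h
    obtain ⟨_, h, c1⟩ := b1e_xr h
    obtain ⟨_, h, c2⟩ := b1e_nmul h
    obtain ⟨_, h, c3⟩ := b1e_addc h
    obtain ⟨_, h, c4⟩ := b1e_inv h
    obtain ⟨_, h, c5⟩ := b1e_e h
    obtain ⟨_, h, c6⟩ := b1e_exp h
    obtain ⟨_, h, c7⟩ := b1e_addc h
    obtain ⟨_, h, c8⟩ := b1e_mul h
    obtain ⟨_, h, c9⟩ := b1e_mul h
    obtain ⟨_, h, d0⟩ := b1e_mul h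
    obtain ⟨_, h, d1⟩ := b1e_nmul h
    obtain ⟨_, h, d2⟩ := b1e_add h
    obtain ⟨_, h, d3⟩ := b1e_mul h
    obtain ⟨_, h, d4⟩ := b1e_lo h
    have g0 := c3 b2
    have g1 := c7 b0
    have g2 := d4 (d3 (d2 (d0 (c9 (c8 g1 g1) g0)
      (c6 (c5 (c4 g0) (c1 b1 (e2 ▸ c0 x)) (c2 b0)))) (d1 b5)) b6)
    have g3 := leI_ok h
    rw [toR_intmul, toR_intmul] at g3
    rw [toR_one, Int.cast_ofNat, mul_comm P.kap 2, ← b1e_sc] at g2
    have g4 : Real.exp (2 * P.kap * (P.k2 + 1)⁻¹ - c.sc P.kap θ * (c.w θ t).re) ≤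
        Real.exp (2 * P.kap / (1 + P.k2) - P.vre) := by
      rw [add_comm P.k2, ← div_eq_mul_inv]
      exact Real.exp_le_exp.2 (by linarith)
    have g5 : 0 ≤ (1 + P.kap) ^ 2 * (1 + P.k2) :=
      mul_nonneg (sq_nonneg _) (by linarith [P.k2_nonneg])
    have g6 := mul_le_mul_of_nonneg_left P.Xi_ge' h5
    have g7 := mul_le_mul_of_nonneg_left (mul_le_mul_of_nonneg_left g4 g5) h5
    push_cast at g3
    linarith

theorem Cl.okL_ok {w : TM} (h : c.okL w a b L0 = true) (hi : c.In P θ) (ha : c.At P θ T t)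
    (h1 : toR a ≤ t) (h2 : t ≤ toR b) {x : Pt} (hw : Rep x w (c.w θ t)) :
    toR L0 ≤ (c.X hi T).L := by
  rw [Cl.X_L]
  have hk := Par.kap_pos hi.std.hδ
  have hX := P.Xi_pos
  have hs := b1d_s_pos hi
  have hL : 0 < c.wt P.kap θ * P.Xi := Cl.X_L hi T ▸ (c.X hi T).L_pos
  unfold Cl.okL at h
  rw [Bool.or_eq_true] at h
  rcases h with h | h
  swap
  · refine Cl.low_ok h hi.h1 hi.h2 hi.h3 hi.h4 ((mul_pos_iff_of_pos_right hX).1 hL).le h1 h2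
      (le_of_eq ?_)
    have h3 := congrArg Complex.re ha.1
    rwa [re_ofReal_mul] at h3
  simp only [Bool.and_eq_true] at h
  obtain ⟨⟨⟨hm, hZ⟩, h0⟩, h⟩ := h
  replace hm := Nat.le_of_ble_eq_true hm
  replace hZ := toR_zero ▸ ltI_ok hZ
  replace h0 := toR_zero ▸ leI_ok h0
  obtain ⟨r, h, a1⟩ := ab_ok h
  replace a1 := a1 _ _ hw
  replace h := leI_ok h
  have n0 := norm_nonneg (c.w θ t)
  have r0 := n0.trans a1
  have b1 : toR L0 * toR L0 * (toR r * (toR r * toR r)) ≤ toR c.Z * (toR c.Z * toR c.Z) :=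
    (mulU_le (by positivity) (by positivity) (mulU_ok _ _)
      (mulU_le r0 (by positivity) le_rfl (mulU_ok _ _))).trans
      (h.trans (mulD_le hZ.le (mulD_nonneg hZ.le hZ.le) le_rfl (mulD_ok _ _)))
  have b2 := ha.2
  unfold Par.Far at b2
  rw [ha.1, norm_mul, Complex.norm_real, b1d_sc hm, Real.norm_of_nonneg (by positivity)] at b2
  have b3 : c.wt P.kap θ = 4 * c.s P.kap θ ^ 3 := by
    unfold Cl.wt Cl.s
    by_cases h : c.m ≤ 1
    · rw [if_pos h, if_pos h]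
    · rw [if_neg h, if_neg h, if_pos (by omega), if_pos (by omega), one_pow, mul_one]
  have b4 : toR c.Z ^ 3 ≤ (c.wt P.kap θ * P.Xi) ^ 2 * ‖c.w θ t‖ ^ 3 := by
    rw [b3]
    refine le_of_mul_le_mul_right (a := P.kap ^ 3) ?_ (by positivity)
    calc toR c.Z ^ 3 * P.kap ^ 3 = (toR c.Z * P.kap) ^ 3 := by ring
      _ ≤ _ := b2
      _ = _ := by ring
  have b5 : toR c.Z ^ 3 ≤ (c.wt P.kap θ * P.Xi) ^ 2 * toR r ^ 3 :=
    b4.trans (mul_le_mul_of_nonneg_left (pow_le_pow_left₀ n0 a1 3) (by positivity))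
  have b6 : 0 < toR r ^ 3 :=
    (mul_pos_iff_of_pos_left (pow_pos hL 2)).1 ((pow_pos hZ 3).trans_le b5)
  refine (pow_le_pow_iff_left₀ h0 hL.le two_ne_zero).1 (le_of_mul_le_mul_right ?_ b6)
  calc toR L0 ^ 2 * toR r ^ 3 = toR L0 * toR L0 * (toR r * (toR r * toR r)) := by ring
    _ ≤ toR c.Z ^ 3 := b1.trans_eq (by ring)
    _ ≤ _ := b5

theorem Cl.vacL_ok (h : c.vacL a b = true) (hi : c.In P θ) (ha : c.At P θ T t)
    (h1 : toR a ≤ t) (h2 : t ≤ toR b) : False := by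
  obtain ⟨x, e0, e1, e2⟩ := b1e_pt hi.h1 hi.h2 hi.h3 hi.h4 h1 h2
  unfold Cl.vacL at h
  obtain ⟨_, h, a0⟩ := var_ok h
  obtain ⟨_, h, a1⟩ := var_ok h
  obtain ⟨_, h, a2⟩ := var_ok h
  obtain ⟨_, h, a3⟩ := b1e_xr h
  obtain ⟨_, h, a4⟩ := b1e_mul h
  obtain ⟨_, h, a5⟩ := b1e_addc h
  obtain ⟨_, h, a6⟩ := b1e_addc h
  obtain ⟨_, h, a7⟩ := b1e_mul h
  obtain ⟨_, h, a8⟩ := b1e_mul h
  obtain ⟨_, h, a9⟩ := b1e_neg h
  obtain ⟨_, h, b0⟩ := b1e_addc h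
  have c0 := e0 ▸ a0 x
  have c1 := a8 (a7 (a6 c0) (a5 (a4 c0 c0))) (a3 (e1 ▸ a1 x) (e2 ▸ a2 x))
  have c2 := b0 (a9 c0)
  have c3 := hi.std.nl
  have c4 := P.kap_nonneg
  rw [b1e_vre ha, ← P.kap_sq] at c3
  rw [toR_one] at c1 c2
  by_cases h1 : c.m ≤ 2
  · rw [Nat.ble_eq_true_of_le h1, cond_true] at h
    obtain ⟨_, h, d1⟩ := b1e_add h
    obtain ⟨_, h, d2⟩ := b1e_hi h
    have g1 := (d2 (d1 c1 c2)).trans (toR_zero ▸ leI_ok h)
    rw [if_pos h1] at c3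
    have g2 := mul_le_mul_of_nonneg_left g1 c4
    linarith
  · rw [Bool.eq_false_iff.2 fun e => h1 (Nat.le_of_ble_eq_true e), cond_false] at h
    obtain ⟨_, h, d3⟩ := b1e_mul h
    obtain ⟨_, h, d4⟩ := b1e_nmul h
    obtain ⟨_, h, d1⟩ := b1e_add h
    obtain ⟨_, h, d2⟩ := b1e_hi h
    have g1 := (d2 (d1 c1 (d4 (d3 c2 c0)))).trans (toR_zero ▸ leI_ok h)
    rw [if_neg h1] at c3
    push_cast at g1
    linarith

theorem Cl.vacR_ok (h : c.vacR = true) (hi : c.In P θ) (ha : c.At P θ T t) : False := by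
  obtain ⟨x, e0, -, -⟩ := b1e_pt hi.h1 hi.h2 hi.h3 hi.h4 hi.h3 hi.h4
  unfold Cl.vacR at h
  obtain ⟨hm, h⟩ := Bool.and_eq_true_iff.1 h
  replace hm := Nat.eq_of_beq_eq_true hm
  obtain ⟨_, h, a0⟩ := var_ok h
  obtain ⟨_, h, a1⟩ := b1e_mul h
  obtain ⟨_, h, a2⟩ := b1e_addc h
  obtain ⟨_, h, a3⟩ := b1e_inv h
  obtain ⟨_, h, a4⟩ := b1e_neg h
  obtain ⟨_, h, a5⟩ := b1e_addc h
  obtain ⟨_, h, a6⟩ := b1e_mul h
  obtain ⟨_, h, a6'⟩ := b1e_nmul h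
  obtain ⟨_, h, a7⟩ := b1e_exp h
  obtain ⟨_, h, a8⟩ := b1e_addc h
  obtain ⟨_, h, a9⟩ := b1e_neg h
  obtain ⟨_, h, b0⟩ := b1e_addc h
  obtain ⟨_, h, b1⟩ := b1e_mul h
  obtain ⟨_, h, b2⟩ := b1e_mul h
  obtain ⟨_, h, b3⟩ := b1e_nmul h
  obtain ⟨_, h, b4⟩ := b1e_nmul h
  have c0 := e0 ▸ a0 x
  have c1 := a1 c0 c0
  rw [← sq, P.kap_sq] at c1
  have c2 := a2 c1
  have c3 := a7 (a6' (a6 c0 (a5 (a4 (a3 c2)))))
  have hv : P.vre = 2 * P.kap * θ := by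
    rw [b1e_vre ha, b1e_xv, if_pos hm.le, if_neg (by omega)]
  obtain ⟨g1, g2⟩ := P.lam_ge (Real.exp_pos _).le (Real.exp_le_exp.2
    (show P.kap * (-(P.k2 + toR one)⁻¹ + toR c.a1) * (2 : ℤ) ≤ P.vre - 2 * P.kap / (1 + P.k2) by
      rw [toR_one, add_comm P.k2, hv, div_eq_mul_inv]
      push_cast
      linarith [mul_le_mul_of_nonneg_left hi.h3 P.kap_nonneg]))
  have g0 := (Real.exp_pos (P.kap * (-(P.k2 + toR one)⁻¹ + toR c.a1) * (2 : ℤ))).le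
  generalize Real.exp (P.kap * (-(P.k2 + toR one)⁻¹ + toR c.a1) * (2 : ℤ)) = E at c3 g0 g1 g2
  have cA := a8 c0
  have cB := b1 (b0 (a9 c0)) c3
  have cF := b3 (b2 c1 c3)
  have cG := b4 c2
  rw [toR_one] at cA cB cG
  have g3 : 0 ≤ 1 + P.k2 := by linarith [P.k2_nonneg]
  have g4 := g2.trans (mul_le_mul_of_nonneg_right hi.std.lam (mul_nonneg g3 (sq_nonneg _)))
  rcases Bool.or_eq_true_iff.1 h with h | h
  · rcases Bool.or_eq_true_iff.1 h with h | h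
    · obtain ⟨_, h, d1⟩ := b1e_sub h
      obtain ⟨_, h, d2⟩ := b1e_lo h
      have := (toR_zero ▸ ltI_ok h).trans_le (d2 (d1 cB cA))
      linarith
    · obtain ⟨_, h, d1⟩ := b1e_add h
      obtain ⟨_, h, d2⟩ := b1e_mul h
      obtain ⟨_, h, d3⟩ := b1e_mul h
      obtain ⟨_, h, d4⟩ := b1e_sub h
      obtain ⟨_, h, d5⟩ := b1e_lo h
      have := (toR_zero ▸ ltI_ok h).trans_le (d5 (d4 cF (d3 cG (d2 (d1 cA cB) (d1 cA cB)))))
      push_cast at this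
      linarith
  · obtain ⟨_, h, d2⟩ := b1e_mul h
    obtain ⟨_, h, d3⟩ := b1e_mul h
    obtain ⟨_, h, d1⟩ := b1e_nmul h
    obtain ⟨_, h, d4⟩ := b1e_sub h
    obtain ⟨_, h, d5⟩ := b1e_lo h
    have := (toR_zero ▸ ltI_ok h).trans_le (d5 (d4 cF (d1 (d3 cG (d2 cA cA)))))
    have g5 : 0 ≤ E * (1 - P.kap) := mul_nonneg g0 (by linarith [P.kap_lt])
    have g6 : (1 + P.kap + E * (1 - P.kap)) ^ 2 ≤ (2 * (1 + P.kap)) ^ 2 :=
      pow_le_pow_left₀ (by linarith [P.kap_nonneg]) (by linarith) 2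
    have g7 := mul_le_mul_of_nonneg_left g6 g3
    push_cast at this
    linarith

theorem Cl.vacC_ok (h : c.vacC = true) : c.C := by
  intro X ζ h1 h2 h3 _ h5 h6 _ _ h9 _
  unfold Cl.vacC at h
  rw [fI_eq] at h
  obtain ⟨a0, h⟩ := Bool.and_eq_true_iff.1 h
  obtain ⟨a1, h⟩ := Bool.and_eq_true_iff.1 h
  replace a0 := toR_zero ▸ leI_ok a0
  replace a1 := toR_zero ▸ ltI_ok a1
  have a2 := Cl.low_ok (P := X.P) (θ := toR c.c) (t := toR 0) h h1 h2 le_rfl le_rfl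
    (by simp [Cl.wt]) le_rfl le_rfl (by simpa [Cl.sc, Cl.w] using h9)
  have a3 : toR (mulD c.a1 (mulD c.a1 c.a1)) ≤ X.c1 ^ 3 :=
    (mulD_ok _ _).trans ((mul_le_mul_of_nonneg_left (mulD_ok _ _) a0).trans (by
      rw [← sq, ← pow_succ']
      exact pow_le_pow_left₀ a0 h3 3))
  have a4 := divU_ok one a1
  have a5 : (0 : ℝ) < toR 1 := by
    rw [← toR_zero, toR_lt]
    exact one_pos
  rw [toR_add, show Cl.wt ⟨2, c.k1, c.k2, c.c, c.c, 0, 0⟩ X.P.kap (toR c.c) = 4 by simp [Cl.wt]]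
    at a2
  rw [toR_one, div_le_iff₀ a1] at a4
  rw [TX.L, h5] at h6
  have a6 := X.P.Xi_pos
  have a7 := mul_lt_mul_of_pos_right (show toR (divU one (mulD c.a1 (mulD c.a1 c.a1))) <
    4 * X.P.Xi by linarith) a1
  have a8 := mul_le_mul_of_nonneg_left a3 a6.le
  linarith

variable {B nc : ℕ}

theorem b1d_bits (n : ℕ) : b1Bits (Nat.shiftRight n 40) 80 1023 = b1Bits n 120 1023 :=
  congrArg (fun y => Nat.land y 1023) (Nat.shiftRight_add n 40 80).symm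

theorem b1d_cls (hB : ClsOk B 0 nc) {n : ℕ} (h : Nat.blt (b1Bits n 80 1023) nc = true) :
    (b1Xt B n).q.cls.ok :=
  hB _ (Nat.zero_le _) (Nat.blt_eq ▸ h)

theorem b1d_cls2 (hB : ClsOk B 0 nc) {n : ℕ} (h : Nat.blt (b1Bits n 120 1023) nc = true) :
    (b1Xt B (Nat.shiftRight n 40)).q.cls.ok :=
  b1d_cls hB (by rw [b1d_bits]; exact h)

theorem b1d_De (hB : ClsOk B 0 nc) {n : ℕ} (h : b1De B nc c a b n = true) (hi : c.In P θ)
    (ha : c.At P θ T t) (h1 : toR a ≤ t) (h2 : t ≤ toR b) : P.S T ≠ 0 := by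
  unfold b1De at h
  cases h3 : b1Bit n 36
  · rw [h3, cond_false, Bool.and_eq_true] at h
    obtain ⟨w, C, e, h4, h5⟩ := Cl.chart_ok h.2
    obtain ⟨x, h6, h7, h8⟩ := h5 P θ T t hi ha.1 h1 h2
    rw [Bool.and_eq_true] at h4
    exact chkTD_ok (X := c.X hi T) h7 h8 (Cl.okL_ok h4.1 hi ha h1 h2 h6) (b1d_cls2 hB h.1) h4.2
  · rw [h3, cond_true] at h
    cases h4 : b1Bit n 37
    · rw [h4, cond_false] at h
      exact (Cl.vacL_ok h hi ha h1 h2).elim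
    · rw [h4, cond_true] at h
      exact (Cl.vacR_ok h hi ha).elim

theorem b1d_Me (hB : ClsOk B 0 nc) {u v : ℤ} {n n' : ℕ} (h : b1Me B nc c u v a b n n' = true)
    (hi : c.In P θ) (ha : c.At P θ T t) (h1 : toR a ≤ t) (h2 : t ≤ toR b) :
    P.Cut T (P.wT + (2 * P.kap * c.s P.kap θ : ℝ) * toC u v) := by
  unfold b1Me at h
  rw [Bool.and_eq_true, Bool.and_eq_true] at h
  obtain ⟨w, C, e, h4, h5⟩ := Cl.chart_ok h.2
  obtain ⟨x, h6, h7, h8⟩ := h5 P θ T t hi ha.1 h1 h2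
  rw [Bool.and_eq_true] at h4
  exact chkTM_ok (X := c.X hi T) h7 h8 (Cl.okL_ok h4.1 hi ha h1 h2 h6) (b1d_cls2 hB h.1.1)
    (b1d_cls hB h.1.2) h4.2

theorem b1d_Ml (hB : ClsOk B 0 nc) {u v : ℤ} {l : List (ℕ × ℕ)}
    (h : b1Ml B nc c u v b l a = true) (hi : c.In P θ) (ha : c.At P θ T t) (h1 : toR a ≤ t)
    (h2 : t ≤ toR b) (h3 : toR a < toR b) :
    P.Cut T (P.wT + (2 * P.kap * c.s P.kap θ : ℝ) * toC u v) := by
  induction l generalizing a with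
  | nil => exact absurd (leI_ok h) (not_le.2 h3)
  | cons n l ih =>
    rw [b1Ml, fI_eq, Bool.and_eq_true] at h
    rcases le_or_gt t (toR (b1F n.1 0)) with h4 | h4
    · exact b1d_Me hB h.1 hi ha h1 h4
    · exact ih h.2 h4.le (h4.trans_le h2)

theorem b1Dl_ok (hB : ClsOk B 0 nc) {l : List ℕ} (h : b1Dl B nc c b l a = true) : c.D a b := by
  induction l generalizing a with
  | nil => exact fun P θ T t _ _ _ h4 => (leI_ok h).trans h4
  | cons n l ih =>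
    rw [b1Dl, fI_eq, Bool.and_eq_true] at h
    intro P θ T t h1 h2 h3 h4
    exact ih h.2 P θ T t h1 h2 h3
      (le_of_not_gt fun h5 => b1d_De hB h.1 h1 h2 h4 h5.le h3)

theorem b1Ml_ok (hB : ClsOk B 0 nc) {u v : ℤ} {l : List (ℕ × ℕ)}
    (h : b1Ml B nc c u v b l a = true) : c.M u v a b := by
  intro P θ T t h1 h2 h3 h4 h5
  exact b1d_Ml hB h h1 h2 h3 h4 h5

theorem Cl.D.trans {d : ℤ} (h : c.D a b) (h' : c.D b d) : c.D a d :=
  fun P θ T t h1 h2 h3 h4 => h' P θ T t h1 h2 h3 (h P θ T t h1 h2 h3 h4)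

end

end Pool.Agent.Sok
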