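import Pool.Agent.Sok.B1Z

/-! Shared zero free runs. -/

set_option autoImplicit false

namespace Pool.Agent.Sok

/-- the family `c` is part of the family `d` -/
def Cl.sub (c d : Cl) : Bool :=
  Nat.beq c.m d.m && Zn.eqI c.c d.c && leI d.Z c.Z && leI d.k1 c.k1 && leI c.k2 d.k2 &&
    leI d.a1 c.a1 && leI c.a2 d.a2

theorem Cl.D.mono {c d : Cl} {a b : ℤ} (h : c.sub d = true) (hd : d.D a b) : c.D a b := by
  simp only [Cl.sub, Bool.and_eq_true] at h
  obtain ⟨⟨⟨⟨⟨⟨h1, h2⟩, h3⟩, h4⟩, h5⟩, h6⟩, h7⟩ := h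
  replace h1 := Nat.eq_of_beq_eq_true h1
  replace h2 := b1g_eq h2
  intro P θ T t hi ha
  refine hd P θ T t ⟨hi.std, (leI_ok h4).trans hi.h1, hi.h2.trans (leI_ok h5),
    (leI_ok h6).trans hi.h3, hi.h4.trans (leI_ok h7), fun e => hi.h5 (h1 ▸ e)⟩
    ⟨?_, b1g_far (leI_ok h3) ha.2⟩
  have e := ha.1
  unfold Cl.sc Cl.w at e ⊢
  rwa [← h1, ← h2]

theorem Cl.D.of_le {c : Cl} {a a' b : ℤ} (h : leI a' a = true) (hd : c.D a' b) : c.D a b :=
  fun P θ T t h1 h2 h3 h4 => hd P θ T t h1 h2 h3 ((leI_ok h).trans h4)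

def B1R (R : List (ℕ × ℕ)) : Prop := ∀ n ∈ R, (b1Cl n.1).D (b1F n.2 0) (b1F n.2 16)

def b1Rs (B nc : ℕ) : List (ℕ × ℕ) → List (List ℕ) → Bool
  | [], _ => true
  | _ :: _, [] => false
  | n :: R, l :: E => b1Dl B nc (b1Cl n.1) (b1F n.2 16) l (b1F n.2 0) && b1Rs B nc R E

def B1M (L : List (ℕ × ℕ)) : Prop :=
  ∀ n ∈ L, (b1Cl n.1).D (b1F n.2 0) (b1F n.2 32) → (b1Cl n.1).D (b1F n.2 48) (b1F n.2 16) →
    (b1Lf n).Ok

def b1Ms (B nc : ℕ) : List (ℕ × ℕ) → List (ℕ × List (ℕ × ℕ)) → Bool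
  | [], _ => true
  | _ :: _, [] => false
  | n :: L, w :: W => (!b1Bit n.2 64 || b1A B nc n.1 n.2 w.1 w.2) && b1Ms B nc L W

def b1At (k : ℕ × ℕ → Bool) : List (ℕ × ℕ) → ℕ → Bool
  | [], _ => false
  | n :: R, i => cond (Nat.beq i 0) (k n) (b1At k R (Nat.pred i))

/-- chain of runs; the indices are fields of 12 bits of `l`, index + 1, and 0 ends the chain -/
def b1Ch (R : List (ℕ × ℕ)) (c : Cl) (b : ℤ) : ℕ → ℕ → ℤ → Bool
  | 0, _, _ => false
  | f + 1, l, a => cond (Nat.beq l 0) (leI b a)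
      (b1At (fun n => c.sub (b1Cl n.1) && leI (b1F n.2 0) a &&
          b1Ch R c b f (Nat.shiftRight l 12) (b1F n.2 16))
        R (Nat.pred (b1Bits l 0 4095)))

def b1Gs (R : List (ℕ × ℕ)) : List (ℕ × ℕ) → List (ℕ × ℕ) → Bool
  | [], _ => true
  | _ :: _, [] => false
  | n :: L, i :: I => b1Ch R (b1Cl n.1) (b1F n.2 32) 60 i.1 (b1F n.2 0) &&
      b1Ch R (b1Cl n.1) (b1F n.2 16) 60 i.2 (b1F n.2 48) && b1Gs R L I

def b1Vs : List ℕ → Bool
  | [] => true
  | n :: K => (b1Cl n).vacC && b1Vs K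

section

variable {B nc : ℕ} {R R' L L' : List (ℕ × ℕ)}

theorem B1R.nil : B1R [] := fun _ h => absurd h List.not_mem_nil
theorem B1M.nil : B1M [] := fun _ h => absurd h List.not_mem_nil

theorem B1R.app (h : B1R R) (h' : B1R R') : B1R (List.append R R') :=
  fun n hn => (List.mem_append.1 hn).elim (h n) (h' n)

theorem B1M.app (h : B1M L) (h' : B1M L') : B1M (List.append L L') :=
  fun n hn => (List.mem_append.1 hn).elim (h n) (h' n)

theorem B1R.of (hB : ClsOk B 0 nc) {E : List (List ℕ)} (h : b1Rs B nc R E = true) : B1R R := by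
  induction R generalizing E with
  | nil => exact B1R.nil
  | cons n R ih =>
    cases E with
    | nil => exact Bool.noConfusion h
    | cons l E =>
      rw [b1Rs, Bool.and_eq_true] at h
      exact List.forall_mem_cons.2 ⟨b1Dl_ok hB h.1, ih h.2⟩

theorem B1M.of (hB : ClsOk B 0 nc) {W : List (ℕ × List (ℕ × ℕ))} (h : b1Ms B nc L W = true) :
    B1M L := by
  induction L generalizing W with
  | nil => exact B1M.nil
  | cons n L ih =>
    cases W with
    | nil => exact Bool.noConfusion h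
    | cons w W =>
      rw [b1Ms, Bool.and_eq_true] at h
      refine List.forall_mem_cons.2 ⟨fun h1 h2 => ?_, ih h.2⟩
      have h3 := h.1
      unfold LF.Ok b1Lf
      cases e : b1Bit n.2 64
      · exact Cl.L_of_D h1 h2
      · rw [e, Bool.not_true, Bool.false_or, b1A, Bool.and_eq_true, Bool.and_eq_true] at h3
        exact Cl.L_of_M h1 (b1Ml_ok hB h3.2) h2 h3.1.2

theorem b1At_ok {k : ℕ × ℕ → Bool} {i : ℕ} (h : b1At k R i = true) : ∃ n ∈ R, k n = true := by
  induction R generalizing i with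
  | nil => exact Bool.noConfusion h
  | cons n R ih =>
    rw [b1At] at h
    cases e : Nat.beq i 0 <;> rw [e] at h
    · exact (ih h).imp fun _ h => ⟨List.mem_cons_of_mem _ h.1, h.2⟩
    · exact ⟨n, List.mem_cons_self, h⟩

theorem b1Ch_ok (hR : B1R R) {c : Cl} {b a : ℤ} {f l : ℕ} (h : b1Ch R c b f l a = true) :
    c.D a b := by
  induction f generalizing l a with
  | zero => exact Bool.noConfusion h
  | succ f ih =>
    rw [b1Ch] at h
    cases e : Nat.beq l 0 <;> rw [e] at h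
    · obtain ⟨n, hn, h⟩ := b1At_ok h
      rw [Bool.and_eq_true, Bool.and_eq_true] at h
      exact (Cl.D.of_le h.1.2 (Cl.D.mono h.1.1 (hR n hn))).trans (ih h.2)
    · exact fun P θ T t _ _ _ h4 => (leI_ok h).trans h4

theorem B1L.of (hR : B1R R) (hM : B1M L) {I : List (ℕ × ℕ)} (h : b1Gs R L I = true) : B1L L := by
  induction L generalizing I with
  | nil => exact B1L.nil
  | cons n L ih =>
    cases I with
    | nil => exact Bool.noConfusion h
    | cons i I =>
      rw [b1Gs, Bool.and_eq_true, Bool.and_eq_true] at h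
      exact List.forall_mem_cons.2
        ⟨hM n List.mem_cons_self (b1Ch_ok hR h.1.1) (b1Ch_ok hR h.1.2),
          ih (fun m hm => hM m (List.mem_cons_of_mem _ hm)) h.2⟩

theorem B1C.ofV {K : List ℕ} (h : b1Vs K = true) : B1C K := by
  induction K with
  | nil => exact B1C.nil
  | cons n K ih =>
    rw [b1Vs, Bool.and_eq_true] at h
    exact B1C.cons (Cl.vacC_ok h.1) (ih h.2)

end

end Pool.Agent.Sok
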