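import Pool.Agent.Sok.TEnd

/-! Charts at the turning point whose derivative bounds only use a lower bound of `‖N‖`. -/

set_option autoImplicit false

namespace Pool.Agent.Sok

open TM Complex

/-- bounds for `‖τ‖/‖N‖²` and `‖τ‖ ‖3 τ² - 2 a‖/‖N‖²` when `τ² = a + i c/N²` -/
def supN (N : TM) (kq cq : ℤ) (k : ℤ → ℤ → Bool) : Bool :=
  cen N fun p q => fI (sqrtU (mulU p p + mulU q q)) fun r => ltI 0 r && mulc N p (-q) fun w =>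
  lo w fun y => fI (divD y r) fun m1 => ltI 0 m1 && fI (mulD m1 m1) fun m => rp N fun a =>
  ip N fun b => rmul a b fun a => hi a fun h => fI (mulD m m) fun mm => ltI 0 mm &&
  fI (minI (divU (2 * maxI h 0) mm) (divU one m)) fun u => fI (divU cq m) fun c =>
  fI (mulU kq kq) fun kk => fI (mulU (mulU kq cq) u) fun x => fI (mulU c c) fun cc =>
  fI (divU (sqrtU (sqrtU (kk + 2 * x + cc))) m) fun t =>
  fI (mulU t (sqrtU (kk + 6 * x + 9 * cc))) fun v => k t v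

/-- upper bounds of `κ²` and `(1 - κ⁴)/2` -/
def mkKC (k2 : TM) (k : ℤ → ℤ → Bool) : Bool :=
  hi k2 fun kq => rmul k2 k2 fun b => neg b fun b => addc b one 0 fun b => hi b fun c =>
  fI (divU c (2 * one)) fun cq => k kq cq

/-- evaluates `F` at the argument without its error term, and widens the result -/
def robJ (F : TM → (TM → TM → TM → Bool) → Bool) (kq cq : ℤ) (z : TM) (k : TM → TM → Bool) : Bool :=
  fI (Int.ofNat (Nat.shiftLeft z.3 12)) fun r => F ⟨z.1, z.2, 0, z.4⟩ fun iv f1 f2 =>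
  ab iv fun J => fI (sqrtU (kq + mulU cq (mulU J J))) fun t =>
  fI (mulU r (t + divU t (64 * one) + r)) fun d => leI (4 * r) one && leI (2 * d) one &&
  fI (divU J (one - d)) fun J2 => fI (mulU (mulU d J2) (J + J2)) fun e =>
  ab f2 fun a => wid f1 (mulU r (a + e)) fun f1 => wid f2 e fun f2 => k f1 f2

/-- the data of the scaled centred exponential chart -/
structure T3 where
  kap : TM
  k2 : TM
  ia : TM
  al : TM
  ga : TM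
  v : TM
  kq : ℤ
  cq : ℤ

/-- the continuation gets `p q iv (i K) f1 f2` -/
def t3F (c : T3) (z : TM) (k : TM → TM → TM → TM → TM → TM → Bool) : Bool :=
  rmul c.kap z fun h => exp h fun b => neg h fun h => exp h fun a => mul c.al a fun p =>
  mul c.ga b fun q => add p q fun d => inv d fun iv => sub b a fun t => rmul c.ia t fun t =>
  mul t iv fun t => add t c.v fun t => sub z t fun t => mi t fun f1 => mul iv iv fun t =>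
  mi t fun K => neg K fun t => addc t 0 one fun f2 => k p q iv K f1 f2

def t3Chart (c : T3) : Chart where
  jet2 := robJ (fun z k => t3F c z fun _ _ iv _ f1 f2 => k iv f1 f2) c.kq c.cq
  jet4 := fun z k => t3F c z fun p q iv K f1 f2 => sub q p fun t => mul t iv fun t =>
    rmul c.kap t fun τ => mul K τ fun a => nmul a 2 fun f3 => mul τ τ fun a => nmul a 3 fun a =>
    sub c.k2 a fun a => mul K a fun a => nmul a 2 fun f4 => k f1 f2 f3 f4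
  sup := fun z k => rmul c.kap z fun h => exp h fun b => neg h fun h => exp h fun a =>
    mul c.al a fun p => mul c.ga b fun q => add p q fun d => supN d c.kq c.cq fun u v =>
    fI (2 * u) fun u => fI (8 * v) fun v => k u v

/-- the exponential chart with scales one; `v = 2 κ vh` -/
def mkT3 (kap vh : TM) (k : Chart → TE → Bool) : Bool :=
  mkAG kap fun al ga k2 ia => cst one 0 fun o => mkTE k2 o o vh false fun e =>
  mkKC k2 fun kq cq => k (t3Chart ⟨kap, k2, ia, al, ga, vh, kq, cq⟩) e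

def tvChart (c : TS) (kq cq : ℤ) : Chart where
  jet2 := (tsChart c).jet2
  jet4 := (tsChart c).jet4
  sup := fun z k => tsCore c z fun _ _ _ _ N => supN N kq cq fun u v => fI (2 * u) fun u =>
    fI (mulU c.s8 v) fun v => k u v

def tuChart (c : TS) (kq cq : ℤ) : Chart where
  jet2 := robJ (fun z k => tsCore c z fun _ y' _ N1 N => tsF c z y' N1 N k) kq cq
  jet4 := (tsChart c).jet4
  sup := (tvChart c kq cq).sup

/-- the series chart with scale `s`; `v = 2 κ s² vh` -/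
def mkTU (k2 s vh : TM) (m : ℕ) (dbl : Bool) (k : Chart → TE → Bool) : Bool :=
  hi s fun sh => leI sh one && rmul s vh fun va => mkTE k2 s s va false fun e =>
  mkS k2 s vh m dbl fun c => mkKC k2 fun kq cq => k (tuChart c kq cq) e

/-- the data of the series chart with scales one -/
structure T4 where
  k2 : TM
  v : TM
  n : TM
  kq : ℤ
  cq : ℤ
  m : ℕ

/-- the continuation gets `y zS N` -/
def t4Core (c : T4) (z : TM) (k : TM → TM → TM → Bool) : Bool :=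
  mul z z fun t => rmul c.k2 t fun x => ser0 x c.m fun C S => mul x C fun y => mul x S fun a =>
  addc a one 0 fun a => mul z a fun zS => mul c.n zS fun a => add a y fun a =>
  addc a one 0 fun N => k y zS N

/-- the continuation gets `iv (i K) f1 f2` -/
def t4F (c : T4) (z zS N : TM) (k : TM → TM → TM → TM → Bool) : Bool :=
  inv N fun iv => mul zS iv fun t => add t c.v fun t => sub z t fun t => mi t fun f1 =>
  mul iv iv fun t => mi t fun K => neg K fun t => addc t 0 one fun f2 => k iv K f1 f2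

def t4Chart (c : T4) : Chart where
  jet2 := robJ (fun z k => t4Core c z fun _ zS N => t4F c z zS N fun iv _ f1 f2 => k iv f1 f2)
    c.kq c.cq
  jet4 := fun z k => t4Core c z fun y zS N => t4F c z zS N fun iv K f1 f2 =>
    mul c.n y fun a => rmul c.k2 zS fun b => add a b fun a => add a c.n fun A =>
    mul A iv fun τ => mul K τ fun a => nmul a 2 fun f3 => mul τ τ fun a => nmul a 3 fun a =>
    sub c.k2 a fun a => mul K a fun a => nmul a 2 fun f4 => k f1 f2 f3 f4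
  sup := fun z k => t4Core c z fun _ _ N => supN N c.kq c.cq fun u v => fI (2 * u) fun u =>
    fI (8 * v) fun v => k u v

/-- the series chart with scales one; `v = 2 κ vh` -/
def mkT4 (k2 vh : TM) (m : ℕ) (k : Chart → TE → Bool) : Bool :=
  mulc k2 (-half) half fun a => addc a (-half) (-half) fun n => cst one 0 fun o =>
  mkTE k2 o o vh false fun e => mkKC k2 fun kq cq => k (t4Chart ⟨k2, vh, n, kq, cq, m⟩) e

theorem supN_ok {N : TM} {kq cq : ℤ} {k : ℤ → ℤ → Bool} (h : supN N kq cq k = true) :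
    ∃ t v, k t v = true ∧ ∀ pt n, Rep pt N n → n ≠ 0 ∧ ∀ (a c : ℝ) (τ : ℂ), 0 ≤ a → a ≤ toR kq →
      0 ≤ c → c ≤ toR cq → τ ^ 2 = a + c * (I * (n⁻¹ * n⁻¹)) → ‖τ * (n⁻¹ * n⁻¹)‖ ≤ toR t ∧
        ‖τ * (n⁻¹ * n⁻¹) * (3 * τ ^ 2 - a * 2)‖ ≤ toR v := by
  unfold supN at h
  obtain ⟨p, q, h⟩ := cen_ok h
  rw [fI_eq, Bool.and_eq_true] at h
  obtain ⟨t1, h⟩ := h
  obtain ⟨_, h, a1⟩ := mulc_ok h
  obtain ⟨y, h, a2⟩ := lo_ok h
  rw [fI_eq, Bool.and_eq_true, fI_eq] at h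
  obtain ⟨t2, h⟩ := h
  obtain ⟨_, h, a3⟩ := rp_ok h
  obtain ⟨_, h, a4⟩ := ip_ok h
  obtain ⟨_, h, a5⟩ := rmul_ok h
  obtain ⟨g, h, a6⟩ := hi_ok h
  simp only [fI_eq, Bool.and_eq_true] at h
  obtain ⟨t3, h⟩ := h
  replace t1 := toR_zero ▸ ltI_ok t1
  replace t2 := toR_zero ▸ ltI_ok t2
  replace t3 := toR_zero ▸ ltI_ok t3
  refine ⟨_, _, h, fun pt n hn => ?_⟩
  have b1 : ‖toC p (-q)‖ ≤ toR (sqrtU (mulU p p + mulU q q)) := by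
    refine (Real.le_sqrt_of_sq_le ?_).trans (sqrtU_ok _)
    rw [← normSq_eq_norm_sq, normSq_apply, toR_add]
    exact add_le_add (mulU_ok p p) (by simpa [toC, toR_neg] using mulU_ok q q)
  have b2 : toR (divD y (sqrtU (mulU p p + mulU q q))) ≤ ‖n‖ := by
    refine (divD_ok _ t1).trans ((div_le_iff₀ t1).2 (((a2 _ _ (a1 _ _ hn)).trans
      (re_le_norm _)).trans ?_))
    rw [norm_mul]
    exact mul_le_mul_of_nonneg_left b1 (norm_nonneg _)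
  generalize divD y _ = m1 at *
  have b3 := mulD_le t2.le t2.le b2 b2
  have b4 := mulD_nonneg t2.le t2.le
  generalize mulD m1 m1 = m at *
  have b5 : 0 < toR m := b4.lt_of_ne fun e => by
    have := t3.trans_le (mulD_ok m m)
    rw [← e, mul_zero] at this
    exact this.false
  have b6 := mulD_le b4 b4 b3 b3
  have b7 := t2.trans_le b2
  have b8 : ‖n⁻¹ * n⁻¹‖ = 1 / (‖n‖ * ‖n‖) := by rw [norm_mul, norm_inv, one_div, mul_inv]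
  have b9 : (I * (n⁻¹ * n⁻¹)).re = 2 * (n.re * n.im) / (‖n‖ * ‖n‖ * (‖n‖ * ‖n‖)) := by
    rw [← sq ‖n‖, ← normSq_eq_norm_sq]
    simp [inv_re, inv_im]
    ring
  have c1 := a6 _ _ (a5 _ _ _ (a3 _ _ hn) (a4 _ _ hn))
  rw [← ofReal_mul, ofReal_re] at c1
  have c2 : 0 ≤ toR (2 * maxI g 0) ∧ 2 * (n.re * n.im) ≤ toR (2 * maxI g 0) := by
    rw [tailB_two, toR_maxI, toR_zero]
    exact ⟨by positivity, by linarith [le_max_left (toR g) 0]⟩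
  have c3 : 1 / (‖n‖ * ‖n‖) ≤ toR (divU one m) := divU_le zero_le_one b5 toR_one.ge b3
  have c4 : 0 ≤ toR (minI (divU (2 * maxI g 0) (mulD m m)) (divU one m)) ∧
      (I * (n⁻¹ * n⁻¹)).re ≤ toR (minI (divU (2 * maxI g 0) (mulD m m)) (divU one m)) := by
    have := divU_le c2.1 t3 le_rfl b6
    rw [toR_minI]
    refine ⟨le_min (le_trans (div_nonneg c2.1 (by positivity)) this) (le_trans (by positivity) c3),
      le_min (le_trans ?_ this) ((re_le_norm _).trans ?_)⟩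
    · rw [b9]
      exact div_le_div_of_nonneg_right c2.2 (by positivity)
    · rwa [norm_mul, norm_I, one_mul, b8]
  generalize minI _ _ = u at *
  refine ⟨norm_pos_iff.1 b7, fun a c τ h1 h2 h3 h4 h5 => ?_⟩
  have d1 : c * ‖I * (n⁻¹ * n⁻¹)‖ ≤ toR (divU cq m) := by
    rw [norm_mul, norm_I, one_mul, b8, mul_one_div]
    exact divU_le h3 b5 h4 b3
  have d0 : 0 ≤ c * ‖I * (n⁻¹ * n⁻¹)‖ := by positivity
  have d2 := mulU_le d0 d0 d1 d1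
  have d3 := mulU_le h1 h1 h2 h2
  have d4 := (mul_le_mul_of_nonneg_left c4.2 (mul_nonneg h1 h3)).trans
    (mulU_le (mul_nonneg h1 h3) c4.1 (mulU_le h1 h3 h2 h4) le_rfl)
  have d5 : ∀ j : ℝ, ‖a + j * (c * (I * (n⁻¹ * n⁻¹)))‖ ^ 2 = a * a + 2 * j * (a * c *
      (I * (n⁻¹ * n⁻¹)).re) + j ^ 2 * (c * ‖I * (n⁻¹ * n⁻¹)‖ * (c * ‖I * (n⁻¹ * n⁻¹)‖)) := fun j => by
    generalize I * (n⁻¹ * n⁻¹) = W
    rw [mul_mul_mul_comm c ‖W‖, ← sq ‖W‖, ← normSq_eq_norm_sq, ← normSq_eq_norm_sq]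
    simp [normSq_apply]
    ring
  have d6 : ‖τ * (n⁻¹ * n⁻¹)‖ ≤ toR (divU (sqrtU (sqrtU (mulU kq kq + 2 * mulU (mulU kq cq) u +
      mulU (divU cq m) (divU cq m)))) m) := by
    rw [norm_mul, b8, mul_one_div]
    refine divU_le (norm_nonneg _) b5 ((Real.le_sqrt_of_sq_le ((Real.le_sqrt_of_sq_le ?_).trans
      (sqrtU_ok _))).trans (sqrtU_ok _)) b3
    have := d5 1
    rw [ofReal_one, one_mul, ← h5, norm_pow] at this
    rw [this, toR_add, toR_add, tailB_two]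
    linarith
  refine ⟨d6, ?_⟩
  rw [norm_mul]
  refine mulU_le (norm_nonneg _) (norm_nonneg _) d6 ((Real.le_sqrt_of_sq_le ?_).trans (sqrtU_ok _))
  rw [show 3 * τ ^ 2 - a * 2 = a + (3 : ℝ) * (c * (I * (n⁻¹ * n⁻¹))) by
    rw [h5]; push_cast; ring, d5, toR_add, toR_add, toR_intmul, toR_intmul]
  push_cast
  linarith

theorem mkKC_ok {k2 : TM} {k : ℤ → ℤ → Bool} (h : mkKC k2 k = true) : ∃ p q, k p q = true ∧
    ∀ pt (a : ℝ), Rep pt k2 a → a ≤ toR p ∧ (1 - a ^ 2) / 2 ≤ toR q := by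
  unfold mkKC at h
  obtain ⟨_, h, a1⟩ := hi_ok h
  obtain ⟨_, h, a2⟩ := rmul_ok h
  obtain ⟨_, h, a3⟩ := neg_ok h
  obtain ⟨_, h, a4⟩ := addc_ok h
  obtain ⟨c, h, a5⟩ := hi_ok h
  rw [fI_eq] at h
  rw [tch_one] at a4
  refine ⟨_, _, h, fun pt a ha => ⟨a1 _ _ ha, le_trans ?_ (divU_ok c (by
    rw [tailB_two, toR_one]; norm_num))⟩⟩
  have := a5 _ _ (a4 _ _ (a3 _ _ (a2 _ _ _ ha ha)))
  rw [tailB_two, toR_one]
  simp at this
  linarith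

/-- the bounds of the derivatives from `supN` -/
theorem supN_fin {N : TM} {kq cq : ℤ} {k : ℤ → ℤ → Bool} (h : supN N kq cq k = true) :
    ∃ t v, k t v = true ∧ ∀ pt n, Rep pt N n → n ≠ 0 ∧ ∀ (P : Par) (A ch sh : ℂ), P.k2 ≤ toR kq →
      (1 - P.k2 ^ 2) / 2 ≤ toR cq → n = ch + P.nn * sh → A = P.nn * ch + P.k2 * sh →
      ch ^ 2 - P.k2 * sh ^ 2 = 1 → ‖A * n⁻¹ * (I * (n⁻¹ * n⁻¹)) * 2‖ ≤ toR (2 * t) ∧
        ‖A * n⁻¹ * (n⁻¹ * n⁻¹) * (3 * (A * n⁻¹) ^ 2 - P.k2 * 2)‖ ≤ toR v := by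
  obtain ⟨t, v, h, a1⟩ := supN_ok h
  refine ⟨t, v, h, fun pt n hn => ⟨(a1 pt n hn).1, fun P A ch sh h1 h2 h3 h4 h5 => ?_⟩⟩
  obtain ⟨b1, b2⟩ := a1 pt n hn
  have b3 := P.k2_nonneg
  have b4 := P.k2_lt
  have b5 : P.nn ^ 2 = P.k2 + I * (1 - P.k2 ^ 2) / 2 := by
    rw [Par.nn]
    linear_combination (1 - P.k2) ^ 2 / 4 * I_sq
  have b6 : n * n⁻¹ = 1 := mul_inv_cancel₀ b1
  obtain ⟨c1, c2⟩ := b2 P.k2 _ (A * n⁻¹) b3 h1 (by nlinarith) h2 (by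
    have : A ^ 2 = P.k2 * n ^ 2 + I * (1 - P.k2 ^ 2) / 2 := by
      rw [h3, h4]
      linear_combination (P.nn ^ 2 - P.k2) * h5 + b5
    push_cast
    linear_combination n⁻¹ ^ 2 * this + P.k2 * (n * n⁻¹ + 1) * b6)
  refine ⟨?_, c2⟩
  rw [mul_left_comm _ I, norm_mul, norm_mul I, norm_I, one_mul, Complex.norm_two, tailB_two]
  linarith

/-- the jets in the scales one -/
theorem TX.hyp_eq {X : TX} (h1 : X.c1 = 1) (h2 : X.m2 = 1) {vh z y zS N A : ℂ}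
    (hv : X.P.v X.T = 2 * X.P.kap * vh) (hy : cosh (X.P.kap * z) = 1 + y)
    (hz : sinh (X.P.kap * z) = X.P.kap * zS) (e1 : N = X.P.nn * zS + y + 1)
    (e2 : A = X.P.nn * y + X.P.k2 * zS + X.P.nn) (hN : N ≠ 0) : z ∈ X.J.U ∧
      X.J.f1 z = I * (z - (zS * N⁻¹ + vh)) ∧ X.J.f2 z = -(I * (N⁻¹ * N⁻¹)) + I ∧
      X.J.f3 z = I * (N⁻¹ * N⁻¹) * (A * N⁻¹) * (2 : ℤ) ∧
      X.J.f4 z = I * (N⁻¹ * N⁻¹) * (X.P.k2 - A * N⁻¹ * (A * N⁻¹) * (3 : ℤ)) * (2 : ℤ) ∧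
      X.J.f5 z = 8 * I * (A * N⁻¹ * (N⁻¹ * N⁻¹) * (3 * (A * N⁻¹) ^ 2 - X.P.k2 * 2)) := by
  have g0 : (X.P.kap : ℂ) ≠ 0 := ofReal_ne_zero.2 (Par.kap_pos X.hδ).ne'
  have g3 : (X.P.k2 : ℂ) = X.P.kap ^ 2 := by rw [← X.P.kap_sq]; push_cast; rfl
  obtain ⟨C, S, c1, c2⟩ : ∃ C S, y = (X.P.kap * z) ^ 2 * C ∧
      zS = z * (1 + (X.P.kap * z) ^ 2 * S) := by
    by_cases h : z = 0
    · rw [h, mul_zero] at hy hz
      refine ⟨0, 0, by simpa using hy, ?_⟩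
      rw [sinh_zero] at hz
      rw [h, zero_mul]
      exact (mul_eq_zero.1 hz.symm).resolve_left g0
    · exact ⟨y / (X.P.kap * z) ^ 2, (zS / z - 1) / (X.P.kap * z) ^ 2, by field_simp, by
        field_simp; ring⟩
  obtain ⟨m1, m2, m3, m4, m5, m6⟩ := X.ser_eq (s := 1) h1 h2 (vh := vh) (z := z) (C := C) (S := S)
    (y := y) (zS := zS) (N := N) (A := A) (by simpa using hv)
    (by rw [ofReal_one, mul_one, hy, c1]) (by rw [ofReal_one, mul_one, hz, c2, mul_assoc])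
    (by rw [c1, g3, ofReal_one]; ring) rfl (by rw [c2, g3, ofReal_one]; ring) rfl
    (by rw [e1, ofReal_one, one_mul]) (by rw [e2, ofReal_one, one_mul]) hN
  have m : N * N⁻¹ = 1 := mul_inv_cancel₀ hN
  rw [ofReal_one] at m2 m5 m6
  push_cast
  refine ⟨m1, m2.trans ?_, m3.trans ?_, m4.trans (by ring), m5.trans (by ring), m6.trans (by ring)⟩
  · rw [g3]
    linear_combination (-I * z * N⁻¹) * e1 + I * z * m + I * N⁻¹ * c2
  · linear_combination (-I * N⁻¹ * (N⁻¹ + 1)) * e1 + I * (N⁻¹ + 1) * m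

theorem t3_sq {κ : ℝ} {k2 h ch zS : ℂ} (h0 : k2 = κ ^ 2) (h1 : cosh h = ch)
    (h2 : sinh h = κ * zS) : ch ^ 2 - k2 * zS ^ 2 = 1 := by
  rw [← h1, h0, ← mul_pow, ← h2, cosh_sq_sub_sinh_sq]

theorem t3_k2 (P : Par) : (P.k2 : ℂ) = P.kap ^ 2 := by rw [← P.kap_sq]; push_cast; rfl

theorem t3_eight {w : ℂ} {v : ℤ} (h : ‖w‖ ≤ toR v) : ‖8 * I * w‖ ≤ toR (8 * v) := by
  rw [norm_mul, norm_mul, norm_I, toR_intmul]
  norm_num
  exact h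

/-- the denominator of the charts -/
noncomputable def TX.hN (X : TX) (z : ℂ) : ℂ :=
  cosh (X.P.kap * X.c1 * z) + X.P.nn * (sinh (X.P.kap * X.c1 * z) / X.P.kap)

theorem TX.hN_eq {X : TX} (hm : X.m2 = X.c1) {z : ℂ} (h : X.hN z ≠ 0) :
    z ∈ X.J.U ∧ X.c1 * X.J.f2 z = I - I * ((X.hN z)⁻¹ * (X.hN z)⁻¹) := by
  have g0 : (X.P.kap : ℂ) ≠ 0 := ofReal_ne_zero.2 (Par.kap_pos X.hδ).ne'
  have g1 := Complex.exp_ne_zero (X.P.kap * X.c1 * z)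
  have g2 : cexp (X.P.kap * X.c1 * z) * cexp (X.P.kap * X.c1 * z) = cexp (X.a * z) := by
    rw [← Complex.exp_add, TX.a]
    push_cast
    ring_nf
  have g3 : cexp (X.P.kap * X.c1 * z) * X.hN z =
      X.P.al + X.P.ga * (cexp (X.P.kap * X.c1 * z) * cexp (X.P.kap * X.c1 * z)) := by
    rw [TX.hN, Complex.cosh, Complex.sinh, Complex.exp_neg, Par.al, Par.ga]
    field_simp
    ring
  obtain ⟨m1, -, m3, -⟩ := X.ex_eq g2 g3 (mul_ne_zero g1 h)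
  rw [hm, sub_eq_iff_eq_add] at m3
  refine ⟨m1, m3.trans ?_⟩
  field_simp
  ring

theorem rob_ch {η : ℂ} (h : ‖η‖ ≤ 1 / 4) :
    ‖cosh η - 1‖ ≤ ‖η‖ ^ 2 ∧ ‖sinh η‖ ≤ ‖η‖ * (65 / 64) := by
  have h1 : ‖η‖ ≤ 1 := by linarith
  have h2 : ‖-η‖ ≤ 1 := by rwa [norm_neg]
  have a1 := norm_add_le_of_le (norm_exp_sub_one_sub_id_le h1) (norm_exp_sub_one_sub_id_le h2)
  have a2 := norm_sub_le_of_le (exp_bound h1 (n := 3) (by norm_num))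
    (exp_bound h2 (n := 3) (by norm_num))
  rw [show cexp η - 1 - η + (cexp (-η) - 1 - -η) = 2 * (cosh η - 1) by rw [Complex.cosh]; ring,
    norm_mul, Complex.norm_two, norm_neg] at a1
  rw [show cexp η - ∑ m ∈ Finset.range 3, η ^ m / m.factorial - (cexp (-η) -
      ∑ m ∈ Finset.range 3, (-η) ^ m / m.factorial) = 2 * (sinh η - η) by
    simp [Complex.sinh, Finset.sum_range_succ]; ring, norm_mul, Complex.norm_two, norm_neg] at a2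
  have a3 := norm_add_le (sinh η - η) η
  have a4 : ‖η‖ ^ 3 ≤ ‖η‖ * (1 / 16) := by
    rw [pow_succ', sq]
    exact mul_le_mul_of_nonneg_left ((mul_le_mul h h (norm_nonneg _) (by norm_num)).trans
      (by norm_num)) (norm_nonneg _)
  rw [sub_add_cancel] at a3
  norm_num [Nat.factorial] at a2
  exact ⟨by linarith, by linarith [norm_nonneg η]⟩

theorem rob_str {x : Pt} {w : TM} {z : ℂ} (h : Rep x w z) : ∃ z1, Rep x ⟨w.1, w.2, 0, w.4⟩ z1 ∧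
    ‖z - z1‖ ≤ toR (Int.ofNat (Nat.shiftLeft w.3 12)) := by
  have e : toR (Int.ofNat (Nat.shiftLeft w.3 12)) = w.3 / 2 ^ 28 := by
    rw [num_toR_nat, Nat.shiftLeft_eq', Nat.shiftLeft_eq]
    push_cast
    ring
  rw [e]
  by_cases g : w.4 < 2 ^ 51
  · obtain ⟨c, d, a1, a2, a3, a4⟩ := h g
    refine ⟨TMI.evC x c d / 2 ^ 28, fun _ => ⟨c, d, a1, a2, a3, by
      rw [mul_div_cancel₀ _ (by norm_num)]; simp⟩, ?_⟩
    rw [show z - TMI.evC x c d / 2 ^ 28 = (2 ^ 28 * z - TMI.evC x c d) / 2 ^ 28 by ring, norm_div]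
    simpa using div_le_div_of_nonneg_right a4 (show (0 : ℝ) ≤ 2 ^ 28 by norm_num)
  · exact ⟨z, fun g' => absurd g' g, by rw [sub_self, norm_zero]; positivity⟩

theorem robJ_ok {F : TM → (TM → TM → TM → Bool) → Bool} {kq cq : ℤ} {x : Pt} {X : TX}
    (hm : X.m2 = X.c1) (hs : X.c1 ≤ 1) (h3 : X.P.k2 ≤ toR kq) (h4 : (1 - X.P.k2 ^ 2) / 2 ≤ toR cq)
    (hF : ∀ w k, F w k = true → ∃ i a b, k i a b = true ∧ ∀ y hy z, Rep (x.set3 y hy) w z →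
      X.hN z ≠ 0 ∧ Rep (x.set3 y hy) i (X.hN z)⁻¹ ∧ Rep (x.set3 y hy) a (X.J.f1 z) ∧
        Rep (x.set3 y hy) b (X.J.f2 z)) (w : TM) (k : TM → TM → Bool)
    (h : robJ F kq cq w k = true) : ∃ a b, k a b = true ∧ ∀ y hy z, Rep (x.set3 y hy) w z →
      z ∈ X.J.U ∧ Rep (x.set3 y hy) a (X.J.f1 z) ∧ Rep (x.set3 y hy) b (X.J.f2 z) := by
  unfold robJ at h
  rw [fI_eq] at h
  obtain ⟨_, _, _, h, a1⟩ := hF _ _ h
  obtain ⟨J, h, a2⟩ := ab_ok h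
  simp only [fI_eq, Bool.and_eq_true] at h
  obtain ⟨⟨t1, t2⟩, h⟩ := h
  obtain ⟨a, h, a3⟩ := ab_ok h
  obtain ⟨_, h, a4⟩ := wid_ok h
  obtain ⟨_, h, a5⟩ := wid_ok h
  refine ⟨_, _, h, fun y hy z hz => ?_⟩
  obtain ⟨z1, b1, b2⟩ := rob_str hz
  obtain ⟨c1, c2, c3, c4⟩ := a1 y hy z1 b1
  generalize Int.ofNat (Nat.shiftLeft w.3 12) = r at *
  replace t1 := leI_ok t1
  replace t2 := leI_ok t2
  rw [toR_intmul, toR_one] at t1 t2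
  push_cast at t1 t2
  have g0 := Par.kap_pos X.hδ
  have g0' : (X.P.kap : ℂ) ≠ 0 := ofReal_ne_zero.2 g0.ne'
  have g1 := X.P.kap_lt
  have g2 := X.h1
  have g3 := X.P.k2_nonneg
  have g4 := X.P.k2_lt
  have g5 := a2 _ _ c2
  have g6 := (norm_nonneg _).trans b2
  obtain ⟨τ, e1, e2⟩ : ∃ τ, τ ^ 2 = X.P.k2 + ((1 - X.P.k2 ^ 2) / 2 : ℝ) *
      (I * ((X.hN z1)⁻¹ * (X.hN z1)⁻¹)) ∧ ∀ u, X.hN u * (X.hN z1)⁻¹ - 1 =
        cosh (X.P.kap * X.c1 * (u - z1)) - 1 + τ * (sinh (X.P.kap * X.c1 * (u - z1)) / X.P.kap) := by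
    have m := mul_inv_cancel₀ c1
    have b5 : X.P.nn ^ 2 = X.P.k2 + I * (1 - X.P.k2 ^ 2) / 2 := by
      rw [Par.nn]
      linear_combination (1 - X.P.k2) ^ 2 / 4 * I_sq
    have b6 := cosh_sq_sub_sinh_sq (X.P.kap * X.c1 * z1)
    refine ⟨(X.P.nn * cosh (X.P.kap * X.c1 * z1) + X.P.kap * sinh (X.P.kap * X.c1 * z1)) *
      (X.hN z1)⁻¹, ?_, fun u => ?_⟩
    · have : (X.P.nn * cosh (X.P.kap * X.c1 * z1) + X.P.kap * sinh (X.P.kap * X.c1 * z1)) ^ 2 =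
          X.P.k2 * X.hN z1 ^ 2 + I * (1 - X.P.k2 ^ 2) / 2 := by
        rw [← sub_eq_iff_eq_add'.2 b5, TX.hN, t3_k2]
        field_simp
        linear_combination (X.P.nn ^ 2 - X.P.kap ^ 2) * b6
      push_cast
      linear_combination (X.hN z1)⁻¹ ^ 2 * this + X.P.k2 * (X.hN z1 * (X.hN z1)⁻¹ + 1) * m
    · have : X.hN u = X.hN z1 * cosh (X.P.kap * X.c1 * (u - z1)) +
          (X.P.nn * cosh (X.P.kap * X.c1 * z1) + X.P.kap * sinh (X.P.kap * X.c1 * z1)) *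
            (sinh (X.P.kap * X.c1 * (u - z1)) / X.P.kap) := by
        rw [TX.hN, TX.hN, show X.P.kap * X.c1 * u = X.P.kap * X.c1 * z1 +
          X.P.kap * X.c1 * (u - z1) by ring, cosh_add, sinh_add]
        field_simp
        ring
      rw [this]
      linear_combination cosh (X.P.kap * X.c1 * (u - z1)) * m
  have d1 : ‖τ‖ ≤ toR (sqrtU (kq + mulU cq (mulU J J))) := by
    refine (Real.le_sqrt_of_sq_le ?_).trans (sqrtU_ok _)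
    have g7 : 0 ≤ (1 - X.P.k2 ^ 2) / 2 := by nlinarith
    rw [← norm_pow, e1, toR_add]
    refine norm_add_le_of_le (by rwa [norm_real, Real.norm_of_nonneg g3]) ?_
    rw [norm_mul, norm_mul, norm_I, one_mul, norm_mul, norm_real, Real.norm_of_nonneg g7]
    exact mulU_le g7 (by positivity) h4 (mulU_le (norm_nonneg _) (norm_nonneg _) g5 g5)
  generalize sqrtU _ = t at *
  have d2 : toR r * (‖τ‖ * (65 / 64) + toR r) ≤ toR (mulU r (t + divU t (64 * one) + r)) := by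
    refine mulU_le g6 (by positivity) le_rfl ?_
    have := divU_ok t (b := 64 * one) (by rw [toR_intmul, toR_one]; norm_num)
    rw [toR_intmul, toR_one] at this
    rw [toR_add, toR_add]
    push_cast at this
    linarith
  generalize mulU r (t + _ + r) = d at *
  have d0 : 0 ≤ toR d := le_trans (by positivity) d2
  have d3 : ∀ u, ‖u - z1‖ ≤ toR r → X.hN u ≠ 0 ∧ ‖X.J.f2 u - X.J.f2 z1‖ ≤
      toR (mulU (mulU d (divU J (one - d))) (J + divU J (one - d))) := fun u hu => by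
    have p1 : ‖X.P.kap * X.c1 * (u - z1)‖ ≤ X.P.kap * (X.c1 * toR r) := by
      rw [norm_mul, norm_mul, norm_real, norm_real, Real.norm_of_nonneg g0.le,
        Real.norm_of_nonneg g2.le, mul_assoc]
      gcongr
    have p0 : X.c1 * toR r ≤ toR r := mul_le_of_le_one_left g6 hs
    have p2 := p1.trans (mul_le_of_le_one_left (by positivity) g1.le)
    obtain ⟨p3, p4⟩ := rob_ch (p2.trans (p0.trans (by linarith)))
    have p5 : ‖X.hN u * (X.hN z1)⁻¹ - 1‖ ≤ X.c1 * toR d := by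
      rw [e2]
      refine le_trans (norm_add_le_of_le (p3.trans (pow_le_pow_left₀ (norm_nonneg _) p2 2))
        (r₂ := ‖τ‖ * (X.c1 * toR r * (65 / 64))) ?_) (le_trans ?_
          (mul_le_mul_of_nonneg_left d2 g2.le))
      · rw [norm_mul, norm_div, norm_real, Real.norm_of_nonneg g0.le]
        refine mul_le_mul_of_nonneg_left ((div_le_iff₀ g0).2 ?_) (norm_nonneg _)
        linarith
      · have := mul_le_mul_of_nonneg_left p0 (mul_nonneg g2.le g6)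
        linarith
    have p6 : 1 - toR d ≤ ‖X.hN u‖ * ‖(X.hN z1)⁻¹‖ := by
      have := norm_sub_norm_le 1 (X.hN u * (X.hN z1)⁻¹)
      rw [norm_sub_rev, norm_one, norm_mul] at this
      linarith [mul_le_of_le_one_left d0 hs]
    have p7 : X.hN u ≠ 0 := fun e => by
      rw [e, norm_zero, zero_mul] at p6
      linarith
    have p8 : ‖(X.hN u)⁻¹‖ ≤ toR (divU J (one - d)) := by
      refine le_trans ?_ (divU_le (y := 1 - toR d) (norm_nonneg _)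
        (by rw [toR_sub, toR_one]; linarith) g5 (by rw [toR_sub, toR_one]))
      rw [norm_inv, inv_eq_one_div, div_le_div_iff₀ (norm_pos_iff.2 p7) (by linarith), one_mul,
        mul_comm]
      exact p6
    refine ⟨p7, le_of_mul_le_mul_left ?_ g2⟩
    have p9 : X.c1 * (X.J.f2 u - X.J.f2 z1) = I * ((X.hN u * (X.hN z1)⁻¹ - 1) * (X.hN u)⁻¹ *
        ((X.hN z1)⁻¹ + (X.hN u)⁻¹)) := by
      rw [mul_sub, (X.hN_eq hm p7).2, (X.hN_eq hm c1).2]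
      field_simp
      ring
    have q1 := congrArg norm p9
    rw [norm_mul, norm_real, Real.norm_of_nonneg g2.le, norm_mul, norm_I, one_mul, norm_mul,
      norm_mul] at q1
    have q2 := mulU_le (mul_nonneg d0 (norm_nonneg _)) (norm_nonneg _)
      (mulU_le d0 (norm_nonneg _) le_rfl p8) (toR_add _ _ ▸ norm_add_le_of_le g5 p8)
    rw [q1]
    refine le_trans ?_ (mul_le_mul_of_nonneg_left q2 g2.le)
    rw [← mul_assoc, ← mul_assoc]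
    gcongr
  generalize mulU (mulU d _) _ = e at a4 a5 d3
  obtain ⟨d4, d5⟩ := d3 z b2
  refine ⟨(X.hN_eq hm d4).1, a4 _ _ _ c3 ?_, a5 _ _ _ c4 d5⟩
  have := (convex_closedBall z1 (toR r)).norm_image_sub_le_of_norm_hasDerivWithin_le
    (f := X.J.f1) (f' := X.J.f2) (C := toR (a + e)) (fun u hu => (X.J.h1 u (X.hN_eq hm
      (d3 u (mem_closedBall_iff_norm.1 hu)).1).1).hasDerivWithinAt) (fun u hu => by
        rw [← add_sub_cancel (X.J.f2 z1) (X.J.f2 u), toR_add]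
        exact norm_add_le_of_le (a3 _ _ c4) (d3 u (mem_closedBall_iff_norm.1 hu)).2)
    (Metric.mem_closedBall_self g6) (mem_closedBall_iff_norm.2 b2)
  refine this.trans (le_trans ?_ (mulU_ok _ _))
  rw [mul_comm, toR_add]
  exact mul_le_mul_of_nonneg_right b2 (add_nonneg ((norm_nonneg _).trans (a3 _ _ c4))
    ((norm_nonneg _).trans d5))

theorem t3_hN {X : TX} (h1 : X.c1 = 1) {z y zS : ℂ} (hy : cosh (X.P.kap * z) = 1 + y)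
    (hz : sinh (X.P.kap * z) = X.P.kap * zS) : X.P.nn * zS + y + 1 = X.hN z := by
  rw [TX.hN, h1, ofReal_one, mul_one, hy, hz,
    mul_div_cancel_left₀ _ (ofReal_ne_zero.2 (Par.kap_pos X.hδ).ne')]
  ring

structure T3.Ok (c : T3) (x : Pt) (X : TX) (vh : ℂ) : Prop where
  c1 : X.c1 = 1
  m2 : X.m2 = 1
  hv : X.P.v X.T = 2 * X.P.kap * vh
  kap : RepA x c.kap X.P.kap
  k2 : RepA x c.k2 X.P.k2
  ia : RepA x c.ia ((2 * X.P.kap)⁻¹ : ℝ)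
  al : RepA x c.al X.P.al
  ga : RepA x c.ga X.P.ga
  v : RepA x c.v vh
  kq : X.P.k2 ≤ toR c.kq
  cq : (1 - X.P.k2 ^ 2) / 2 ≤ toR c.cq

theorem t3_alg (X : TX) (z : ℂ) : ∃ y zS, cosh (X.P.kap * z) = 1 + y ∧
    sinh (X.P.kap * z) = X.P.kap * zS ∧
    X.P.al * cexp (-(X.P.kap * z)) + X.P.ga * cexp (X.P.kap * z) = X.P.nn * zS + y + 1 ∧
    ((2 * X.P.kap)⁻¹ : ℝ) * (cexp (X.P.kap * z) - cexp (-(X.P.kap * z))) = zS ∧
    X.P.kap * (X.P.ga * cexp (X.P.kap * z) - X.P.al * cexp (-(X.P.kap * z))) =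
      X.P.nn * y + X.P.k2 * zS + X.P.nn := by
  have g0 : (X.P.kap : ℂ) ≠ 0 := ofReal_ne_zero.2 (Par.kap_pos X.hδ).ne'
  refine ⟨cosh (X.P.kap * z) - 1, sinh (X.P.kap * z) / X.P.kap, by ring, by field_simp, ?_, ?_, ?_⟩
  all_goals
    rw [← cosh_sub_sinh, ← cosh_add_sinh]
    try simp only [Par.al, Par.ga, t3_k2]
    push_cast
    field_simp
    ring

theorem t3F_ok {c : T3} {w : TM} {k : TM → TM → TM → TM → TM → TM → Bool}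
    (h : t3F c w k = true) : ∃ r1 r2 r3 r4 r5 r6, k r1 r2 r3 r4 r5 r6 = true ∧
      ∀ x (X : TX) vh, c.Ok x X vh → ∀ t ht z, Rep (x.set3 t ht) w z → ∃ p q iv K,
        Rep (x.set3 t ht) r1 p ∧ Rep (x.set3 t ht) r2 q ∧ Rep (x.set3 t ht) r3 iv ∧
        Rep (x.set3 t ht) r4 K ∧ (z ∈ X.J.U ∧ X.hN z ≠ 0 ∧ iv = (X.hN z)⁻¹) ∧
        Rep (x.set3 t ht) r5 (X.J.f1 z) ∧ Rep (x.set3 t ht) r6 (X.J.f2 z) ∧
        X.J.f3 z = K * (X.P.kap * ((q - p) * iv)) * (2 : ℤ) ∧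
        X.J.f4 z = K * (X.P.k2 - X.P.kap * ((q - p) * iv) * (X.P.kap * ((q - p) * iv)) * (3 : ℤ)) *
          (2 : ℤ) := by
  unfold t3F at h
  obtain ⟨_, h, a1⟩ := rmul_ok h
  obtain ⟨_, h, a2⟩ := exp_ok h
  obtain ⟨_, h, a3⟩ := neg_ok h
  obtain ⟨_, h, a4⟩ := exp_ok h
  obtain ⟨_, h, a5⟩ := mul_ok h
  obtain ⟨_, h, a6⟩ := mul_ok h
  obtain ⟨_, h, a7⟩ := add_ok h
  obtain ⟨_, h, a8⟩ := inv_ok h
  obtain ⟨_, h, a9⟩ := sub_ok h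
  obtain ⟨_, h, b0⟩ := rmul_ok h
  obtain ⟨_, h, b1⟩ := mul_ok h
  obtain ⟨_, h, b2⟩ := add_ok h
  obtain ⟨_, h, b3⟩ := sub_ok h
  obtain ⟨_, h, b4⟩ := mi_ok h
  obtain ⟨_, h, b5⟩ := mul_ok h
  obtain ⟨_, h, b6⟩ := mi_ok h
  obtain ⟨_, h, b7⟩ := neg_ok h
  obtain ⟨_, h, b8⟩ := addc_ok h
  rw [tch_I] at b8
  refine ⟨_, _, _, _, _, _, h, fun x X vh hc t ht z hz => ?_⟩
  have c0 := a1 _ _ _ (hc.kap t ht) hz
  have c1 := a2 _ _ c0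
  have c2 := a4 _ _ (a3 _ _ c0)
  have c3 := a5 _ _ _ (hc.al t ht) c2
  have c4 := a6 _ _ _ (hc.ga t ht) c1
  obtain ⟨c5, c6⟩ := a8 _ _ (a7 _ _ _ c3 c4)
  have c7 := b6 _ _ (b5 _ _ _ c6 c6)
  have c8 := b0 _ _ _ (hc.ia t ht) (a9 _ _ _ c1 c2)
  obtain ⟨y, zS, e1, e2, e3, e4, e5⟩ := t3_alg X z
  obtain ⟨d1, d2, d3, d4, d5, -⟩ := TX.hyp_eq hc.c1 hc.m2 hc.hv e1 e2 e3 e5 c5
  rw [e4] at c8
  rw [mul_assoc (X.P.kap : ℂ)] at d4 d5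
  have e6 := e3.trans (t3_hN hc.c1 e1 e2)
  exact ⟨_, _, _, _, c3, c4, c6, c7, ⟨d1, e6 ▸ c5, congrArg _ e6⟩, d2 ▸ b4 _ _ (b3 _ _ _ hz (b2 _ _ _
    (b1 _ _ _ c8 c6) (hc.v t ht))), d3 ▸ b8 _ _ (b7 _ _ c7), d4, d5⟩

theorem t3Chart_ok {c : T3} {x : Pt} {X : TX} {vh : ℂ} (hc : c.Ok x X vh) :
    (t3Chart c).Ok x X.J where
  h2 := fun w k h => by
    dsimp only [t3Chart] at h
    refine robJ_ok (hc.m2.trans hc.c1.symm) hc.c1.le hc.kq hc.cq (fun w k h => ?_) w k h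
    obtain ⟨_, _, _, _, _, _, h, a1⟩ := t3F_ok h
    refine ⟨_, _, _, h, fun t ht z hz => ?_⟩
    obtain ⟨p, q, _, _, -, -, b0, -, ⟨-, b1, rfl⟩, b2, b3, -⟩ := a1 x X vh hc t ht z hz
    exact ⟨b1, b0, b2, b3⟩
  h4 := fun w k h => by
    dsimp only [t3Chart] at h
    obtain ⟨_, _, _, _, _, _, h, a1⟩ := t3F_ok h
    obtain ⟨_, h, a2⟩ := sub_ok h
    obtain ⟨_, h, a3⟩ := mul_ok h
    obtain ⟨_, h, a4⟩ := rmul_ok h
    obtain ⟨_, h, a5⟩ := mul_ok h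
    obtain ⟨_, h, a6⟩ := nmul_ok h
    obtain ⟨_, h, a7⟩ := mul_ok h
    obtain ⟨_, h, a8⟩ := nmul_ok h
    obtain ⟨_, h, a9⟩ := sub_ok h
    obtain ⟨_, h, e1⟩ := mul_ok h
    obtain ⟨_, h, e2⟩ := nmul_ok h
    refine ⟨_, _, _, _, h, fun t ht z hz => ?_⟩
    obtain ⟨p, q, _, _, b1, b2, b3, b4, b5, b6, b7, b8, b9⟩ := a1 x X vh hc t ht z hz
    have g1 := a4 _ _ _ (hc.kap t ht) (a3 _ _ _ (a2 _ _ _ b2 b1) b3)
    exact ⟨b5.1, b6, b7, b8 ▸ a6 _ _ (a5 _ _ _ b4 g1), b9 ▸ e2 _ _ (e1 _ _ _ b4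
      (a9 _ _ _ (hc.k2 t ht) (a8 _ _ (a7 _ _ _ g1 g1))))⟩
  hs := fun w k h => by
    dsimp only [t3Chart] at h
    obtain ⟨_, h, a1⟩ := rmul_ok h
    obtain ⟨_, h, a2⟩ := exp_ok h
    obtain ⟨_, h, a3⟩ := neg_ok h
    obtain ⟨_, h, a4⟩ := exp_ok h
    obtain ⟨_, h, a5⟩ := mul_ok h
    obtain ⟨_, h, a6⟩ := mul_ok h
    obtain ⟨_, h, a7⟩ := add_ok h
    obtain ⟨u, v, h, a8⟩ := supN_fin h
    simp only [fI_eq] at h
    refine ⟨_, _, h, fun t ht z hz => ?_⟩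
    have c0 := a1 _ _ _ (hc.kap t ht) hz
    obtain ⟨c1, c2⟩ := a8 _ _ (a7 _ _ _ (a5 _ _ _ (hc.al t ht) (a4 _ _ (a3 _ _ c0)))
      (a6 _ _ _ (hc.ga t ht) (a2 _ _ c0)))
    obtain ⟨y, zS, e1, e2, e3, -, -⟩ := t3_alg X z
    obtain ⟨d1, -, -, d4, -, d6⟩ := TX.hyp_eq hc.c1 hc.m2 hc.hv e1 e2 e3 rfl c1
    obtain ⟨c3, c4⟩ := c2 X.P (X.P.nn * y + X.P.k2 * zS + X.P.nn) (1 + y) zS hc.kq hc.cq
      (e3.trans (by ring)) (by ring) (t3_sq (t3_k2 _) e1 e2)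
    exact ⟨d1, by rwa [d4, mul_comm (I * _), Int.cast_ofNat], d6 ▸ t3_eight c4⟩

theorem t3_va {X : TX} {vh : ℂ} (h1 : X.c1 = 1) (h : X.P.v X.T = 2 * X.P.kap * vh) :
    vh = X.va := by
  rw [← tch_va (vh := vh) (by simpa [h1] using h), h1, ofReal_one, one_mul]

theorem mkT3_ok {kap vh : TM} {k : Chart → TE → Bool} (h : mkT3 kap vh k = true) :
    ∃ C e, k C e = true ∧ ∀ x (X : TX) (vh0 : ℂ), X.c1 = 1 → X.m2 = 1 →
      X.P.v X.T = 2 * X.P.kap * vh0 → RepA x kap X.P.kap → RepA x vh vh0 →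
      C.Ok x X.J ∧ e.Ok x X := by
  unfold mkT3 at h
  obtain ⟨_, _, _, _, h, a1⟩ := mkAG_ok h
  obtain ⟨o, h, a2⟩ := cst_ok h
  obtain ⟨_, h, a3⟩ := mkTE_ok h
  obtain ⟨_, _, h, a4⟩ := mkKC_ok h
  rw [tch_one] at a2
  refine ⟨_, _, h, fun x X vh0 h1 h2 h3 h4 h5 => ?_⟩
  have c1 := fun y hy => (a1 _ _ (h4 y hy)).2.2.1
  obtain ⟨c2, c3⟩ := a4 _ _ (RepA.rep c1)
  exact ⟨t3Chart_ok ⟨h1, h2, h3, h4, c1, fun y hy => (a1 _ _ (h4 y hy)).2.2.2,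
    fun y hy => (a1 _ _ (h4 y hy)).1, fun y hy => (a1 _ _ (h4 y hy)).2.1, h5, c2, c3⟩,
    a3 x X c1 (fun y hy => h1 ▸ a2 _) (fun y hy => h2 ▸ a2 _) (t3_va h1 h3 ▸ h5)
      (fun h => nomatch h)⟩

theorem tsCore_n {c : TS} {w : TM} {k : TM → TM → TM → TM → TM → Bool}
    (h : tsCore c w k = true) : ∃ a1 a2 a3 a4 a5, k a1 a2 a3 a4 a5 = true ∧
      ∀ x (X : TX) w0 vh, c.Ok x X w0 → X.m2 = X.c1 → X.P.v X.T = 2 * X.P.kap * X.c1 ^ 2 * vh →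
      ∀ t ht z, Rep (x.set3 t ht) w z → ∃ y' N1 N A ch sh, Rep (x.set3 t ht) a2 y' ∧
        Rep (x.set3 t ht) a4 N1 ∧ Rep (x.set3 t ht) a5 N ∧ N = X.hN z ∧
        N = ch + X.P.nn * sh ∧ A = X.P.nn * ch + X.P.k2 * sh ∧ ch ^ 2 - X.P.k2 * sh ^ 2 = 1 ∧
        (N ≠ 0 → z ∈ X.J.U ∧ X.J.f1 z = I * (z * (N1 - y') * N⁻¹ - vh) ∧
          X.J.f2 z = I * (N1 * N⁻¹ * (N⁻¹ + 1)) ∧ X.J.f3 z = A * N⁻¹ * (I * (N⁻¹ * N⁻¹)) * 2 ∧ X.J.f5 z =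
          8 * X.c1 ^ 2 * I * (A * N⁻¹ * (N⁻¹ * N⁻¹) * (3 * (A * N⁻¹) ^ 2 - X.P.k2 * 2))) := by
  unfold tsCore at h
  obtain ⟨_, h, a1⟩ := mul_ok h
  obtain ⟨_, h, a2⟩ := rmul_ok h
  obtain ⟨_, h, a3⟩ := rmul_ok h
  obtain ⟨_, _, h, a4⟩ := serT_ok h
  obtain ⟨_, h, a5⟩ := mul_ok h
  obtain ⟨_, h, a6⟩ := mul_ok h
  obtain ⟨_, h, a7⟩ := rmul_ok h
  obtain ⟨_, h, a8⟩ := addc_ok h
  obtain ⟨_, h, a9⟩ := mul_ok h
  obtain ⟨_, h, b1⟩ := mul_ok h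
  obtain ⟨_, h, b2⟩ := add_ok h
  obtain ⟨_, h, b3⟩ := rmul_ok h
  obtain ⟨_, h, b4⟩ := addc_ok h
  rw [tch_one] at a8 b4
  refine ⟨_, _, _, _, _, h, fun x X _ vh hc h1 h2 t ht z hz => ?_⟩
  have c1 := a2 _ _ _ (hc.sw t ht) (a1 _ _ _ hz hz)
  have c2 := a3 _ _ _ (hc.s t ht) c1
  rw [show (X.c1 : ℂ) * (X.c1 * X.P.k2 * (z * z)) = (X.P.kap * X.c1 * z) ^ 2 by
    rw [t3_k2]; ring] at c2
  obtain ⟨C, S, c3, c4, c5, c6⟩ := a4 _ _ c2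
  have d1 := a5 _ _ _ c1 c3
  have d2 := a6 _ _ _ c1 c4
  have d3 := a9 _ _ _ hz (a8 _ _ (a7 _ _ _ (hc.s t ht) d2))
  have d4 := b2 _ _ _ (b1 _ _ _ (hc.n t ht) d3) d1
  refine ⟨_, _, _, _, X.c1 * (X.c1 * X.P.k2 * (z * z) * C) + 1, X.c1 * (z * (X.c1 *
    (X.c1 * X.P.k2 * (z * z) * S) + 1)), d2, d4, b4 _ _ (b3 _ _ _ (hc.s t ht) d4), ?_, by ring, rfl,
    t3_sq (t3_k2 _) (c5.trans ?_) (c6.trans ?_), fun hN => ?_⟩
  · rw [TX.hN, c5, c6, mul_assoc (X.P.kap : ℂ), mul_assoc (X.P.kap : ℂ),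
      mul_div_cancel_left₀ _ (ofReal_ne_zero.2 (Par.kap_pos X.hδ).ne'), t3_k2]
    ring
  · rw [t3_k2]
    ring
  · rw [t3_k2]
    ring
  · obtain ⟨m1, m4, m5, m2, -, m3⟩ := X.ser_eq rfl h1 h2 c5 c6 rfl rfl rfl rfl rfl
      (A := X.P.nn * (X.c1 * (X.c1 * X.P.k2 * (z * z) * C) + 1) + X.P.k2 * (X.c1 * (z * (X.c1 *
        (X.c1 * X.P.k2 * (z * z) * S) + 1)))) (by ring) hN
    exact ⟨m1, m4, m5, m2, m3⟩

theorem tvChart_sh {c : TS} {kq cq : ℤ} {x : Pt} {X : TX} {w0 vh : ℂ} (hc : c.Ok x X w0)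
    (h1 : X.m2 = X.c1) (h2 : X.P.v X.T = 2 * X.P.kap * X.c1 ^ 2 * vh) (h3 : X.P.k2 ≤ toR kq)
    (h4 : (1 - X.P.k2 ^ 2) / 2 ≤ toR cq) : (tvChart c kq cq).Ok x (X.Jc (I * (vh - w0))) where
  h2 := fun w k h => (tsChart_sh hc h1 h2).h2 w k (by dsimp only [tvChart] at h; exact h)
  h4 := fun w k h => (tsChart_sh hc h1 h2).h4 w k (by dsimp only [tvChart] at h; exact h)
  hs := fun w k h => by
    dsimp only [tvChart] at h
    obtain ⟨_, _, _, _, _, h, a1⟩ := tsCore_n h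
    obtain ⟨u, v, h, a3⟩ := supN_fin h
    simp only [fI_eq] at h
    refine ⟨_, _, h, fun t ht z hz => ?_⟩
    obtain ⟨_, _, N, A, ch, sh, -, -, b1, -, b2, b3, b4, b5⟩ := a1 x X w0 vh hc h1 h2 t ht z hz
    obtain ⟨c1, c2⟩ := a3 _ _ b1
    obtain ⟨c3, c4⟩ := c2 X.P A ch sh h3 h4 b2 b3 b4
    obtain ⟨d1, -, -, d4, d6⟩ := b5 c1
    refine ⟨d1, show ‖X.J.f3 z‖ ≤ _ from d4 ▸ c3, show ‖X.J.f5 z‖ ≤ _ from ?_⟩
    rw [d6, norm_mul, norm_mul _ I, norm_I, mul_one]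
    refine mulU_le (norm_nonneg _) (norm_nonneg _) ?_ c4
    simpa using hc.s8

theorem mkTU_ok {k2 s vh : TM} {m : ℕ} {dbl : Bool} {k : Chart → TE → Bool}
    (h : mkTU k2 s vh m dbl k = true) : ∃ C e, k C e = true ∧ ∀ x (X : TX) (vh0 : ℂ),
      X.m2 = X.c1 → X.P.v X.T = 2 * X.P.kap * X.c1 ^ 2 * vh0 → RepA x k2 X.P.k2 →
      RepA x s X.c1 → RepA x vh vh0 → C.Ok x X.J ∧ e.Ok x X := by
  unfold mkTU at h
  obtain ⟨_, h, a0⟩ := hi_ok h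
  obtain ⟨t0, h⟩ := Bool.and_eq_true_iff.1 h
  obtain ⟨_, h, a1⟩ := rmul_ok h
  obtain ⟨_, h, a2⟩ := mkTE_ok h
  obtain ⟨_, h, a3⟩ := mkS_ok h
  obtain ⟨_, _, h, a4⟩ := mkKC_ok h
  refine ⟨_, _, h, fun x X vh0 h1 h2 h3 h4 h5 => ⟨?_, a2 x X h3 h4 (h1 ▸ h4)
    (fun y hy => tch_va h2 ▸ a1 _ _ _ (h4 y hy) (h5 y hy)) (fun h => nomatch h)⟩⟩
  have hc := a3 x X vh0 h3 h4 h5
  have := tvChart_sh hc h1 h2 (a4 _ _ h3.rep).1 (a4 _ _ h3.rep).2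
  rw [sub_self, mul_zero, X.Jc_zero] at this
  refine ⟨fun w k h => ?_, fun w k h => this.h4 w k ?_, fun w k h => this.hs w k ?_⟩
  · dsimp only [tuChart] at h
    refine robJ_ok h1 ((a0 _ _ h4.rep).trans (toR_one ▸ leI_ok t0)) (a4 _ _ h3.rep).1
      (a4 _ _ h3.rep).2 (fun w k h => ?_) w k h
    obtain ⟨_, _, _, _, _, h, b1⟩ := tsCore_n h
    obtain ⟨_, _, _, h, b2⟩ := tsF_ok h
    refine ⟨_, _, _, h, fun t ht z hz => ?_⟩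
    obtain ⟨_, _, _, _, _, _, c1, c2, c3, rfl, -, -, -, c4⟩ := b1 x X _ vh0 hc h1 h2 t ht z hz
    obtain ⟨d1, d2, d3, d4⟩ := b2 _ _ _ _ _ _ (hc.vh t ht) hz c1 c2 c3
    obtain ⟨-, d5, d6, -⟩ := c4 d1
    exact ⟨d1, d2, d5 ▸ d3, d6 ▸ d4⟩
  · dsimp only [tuChart] at h
    dsimp only [tvChart]
    exact h
  · dsimp only [tuChart] at h
    exact h

structure T4.Ok (c : T4) (x : Pt) (X : TX) (vh : ℂ) : Prop where
  c1 : X.c1 = 1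
  m2 : X.m2 = 1
  hv : X.P.v X.T = 2 * X.P.kap * vh
  k2 : RepA x c.k2 X.P.k2
  v : RepA x c.v vh
  n : RepA x c.n X.P.nn
  kq : X.P.k2 ≤ toR c.kq
  cq : (1 - X.P.k2 ^ 2) / 2 ≤ toR c.cq

theorem t4Core_ok {c : T4} {w : TM} {k : TM → TM → TM → Bool} (h : t4Core c w k = true) :
    ∃ a1 a2 a3, k a1 a2 a3 = true ∧ ∀ x (X : TX) vh, c.Ok x X vh → ∀ t ht z,
      Rep (x.set3 t ht) w z → ∃ y zS, Rep (x.set3 t ht) a1 y ∧ Rep (x.set3 t ht) a2 zS ∧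
        Rep (x.set3 t ht) a3 (X.P.nn * zS + y + 1) ∧ cosh (X.P.kap * z) = 1 + y ∧
        sinh (X.P.kap * z) = X.P.kap * zS := by
  unfold t4Core at h
  obtain ⟨_, h, a1⟩ := mul_ok h
  obtain ⟨_, h, a2⟩ := rmul_ok h
  obtain ⟨_, _, h, a4⟩ := ser0_ok h
  obtain ⟨_, h, a5⟩ := mul_ok h
  obtain ⟨_, h, a6⟩ := mul_ok h
  obtain ⟨_, h, a8⟩ := addc_ok h
  obtain ⟨_, h, a9⟩ := mul_ok h
  obtain ⟨_, h, b1⟩ := mul_ok h
  obtain ⟨_, h, b2⟩ := add_ok h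
  obtain ⟨_, h, b4⟩ := addc_ok h
  rw [tch_one] at a8 b4
  refine ⟨_, _, _, h, fun x X vh hc t ht z hz => ?_⟩
  have c2 := a2 _ _ _ (hc.k2 t ht) (a1 _ _ _ hz hz)
  rw [show (X.P.k2 : ℂ) * (z * z) = (X.P.kap * z) ^ 2 by rw [t3_k2]; ring] at c2
  obtain ⟨C, S, c3, c4, c5, c6⟩ := a4 _ _ c2
  have d1 := a5 _ _ _ c2 c3
  have d3 := a9 _ _ _ hz (a8 _ _ (a6 _ _ _ c2 c4))
  exact ⟨_, _, d1, d3, b4 _ _ (b2 _ _ _ (b1 _ _ _ (hc.n t ht) d3) d1), c5, c6.trans (by ring)⟩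

theorem t4F_ok {c : T4} {w a d : TM} {k : TM → TM → TM → TM → Bool} (h : t4F c w a d k = true) :
    ∃ r1 r2 r3 r4, k r1 r2 r3 r4 = true ∧ ∀ pt vh z zS N, Rep pt c.v vh → Rep pt w z →
      Rep pt a zS → Rep pt d N → N ≠ 0 ∧ Rep pt r1 N⁻¹ ∧ Rep pt r2 (I * (N⁻¹ * N⁻¹)) ∧
      Rep pt r3 (I * (z - (zS * N⁻¹ + vh))) ∧ Rep pt r4 (-(I * (N⁻¹ * N⁻¹)) + I) := by
  unfold t4F at h
  obtain ⟨_, h, a1⟩ := inv_ok h
  obtain ⟨_, h, a2⟩ := mul_ok h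
  obtain ⟨_, h, a3⟩ := add_ok h
  obtain ⟨_, h, a4⟩ := sub_ok h
  obtain ⟨_, h, a5⟩ := mi_ok h
  obtain ⟨_, h, a6⟩ := mul_ok h
  obtain ⟨_, h, a7⟩ := mi_ok h
  obtain ⟨_, h, a8⟩ := neg_ok h
  obtain ⟨_, h, a9⟩ := addc_ok h
  rw [tch_I] at a9
  refine ⟨_, _, _, _, h, fun pt vh z zS N h1 h2 h3 h4 => ?_⟩
  obtain ⟨c1, c2⟩ := a1 _ _ h4
  have c3 := a7 _ _ (a6 _ _ _ c2 c2)
  exact ⟨c1, c2, c3, a5 _ _ (a4 _ _ _ h2 (a3 _ _ _ (a2 _ _ _ h3 c2) h1)), a9 _ _ (a8 _ _ c3)⟩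

theorem t4Chart_ok {c : T4} {x : Pt} {X : TX} {vh : ℂ} (hc : c.Ok x X vh) :
    (t4Chart c).Ok x X.J where
  h2 := fun w k h => by
    dsimp only [t4Chart] at h
    refine robJ_ok (hc.m2.trans hc.c1.symm) hc.c1.le hc.kq hc.cq (fun w k h => ?_) w k h
    obtain ⟨_, _, _, h, a1⟩ := t4Core_ok h
    obtain ⟨_, _, _, _, h, a2⟩ := t4F_ok h
    refine ⟨_, _, _, h, fun t ht z hz => ?_⟩
    obtain ⟨y, zS, -, b2, b3, b4, b5⟩ := a1 x X vh hc t ht z hz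
    obtain ⟨c1, c2, -, c4, c5⟩ := a2 _ _ _ _ _ (hc.v t ht) hz b2 b3
    obtain ⟨-, d2, d3, -⟩ := TX.hyp_eq hc.c1 hc.m2 hc.hv b4 b5 rfl rfl c1
    have e := t3_hN hc.c1 b4 b5
    exact ⟨e ▸ c1, e ▸ c2, d2 ▸ c4, d3 ▸ c5⟩
  h4 := fun w k h => by
    dsimp only [t4Chart] at h
    obtain ⟨_, _, _, h, a1⟩ := t4Core_ok h
    obtain ⟨_, _, _, _, h, a2⟩ := t4F_ok h
    obtain ⟨_, h, a3⟩ := mul_ok h
    obtain ⟨_, h, a4⟩ := rmul_ok h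
    obtain ⟨_, h, a5⟩ := add_ok h
    obtain ⟨_, h, a6⟩ := add_ok h
    obtain ⟨_, h, a7⟩ := mul_ok h
    obtain ⟨_, h, a8⟩ := mul_ok h
    obtain ⟨_, h, a9⟩ := nmul_ok h
    obtain ⟨_, h, e1⟩ := mul_ok h
    obtain ⟨_, h, e2⟩ := nmul_ok h
    obtain ⟨_, h, e3⟩ := sub_ok h
    obtain ⟨_, h, e4⟩ := mul_ok h
    obtain ⟨_, h, e5⟩ := nmul_ok h
    refine ⟨_, _, _, _, h, fun t ht z hz => ?_⟩
    obtain ⟨y, zS, b1, b2, b3, b4, b5⟩ := a1 x X vh hc t ht z hz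
    obtain ⟨c1, c2, c3, c4, c5⟩ := a2 _ _ _ _ _ (hc.v t ht) hz b2 b3
    obtain ⟨d1, d2, d3, d4, d5, -⟩ := TX.hyp_eq hc.c1 hc.m2 hc.hv b4 b5 rfl rfl c1
    have g1 := a7 _ _ _ (a6 _ _ _ (a5 _ _ _ (a3 _ _ _ (hc.n t ht) b1) (a4 _ _ _ (hc.k2 t ht) b2))
      (hc.n t ht)) c2
    exact ⟨d1, d2 ▸ c4, d3 ▸ c5, d4 ▸ a9 _ _ (a8 _ _ _ c3 g1), d5 ▸ e5 _ _ (e4 _ _ _ c3
      (e3 _ _ _ (hc.k2 t ht) (e2 _ _ (e1 _ _ _ g1 g1))))⟩
  hs := fun w k h => by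
    dsimp only [t4Chart] at h
    obtain ⟨_, _, _, h, a1⟩ := t4Core_ok h
    obtain ⟨u, v, h, a2⟩ := supN_fin h
    simp only [fI_eq] at h
    refine ⟨_, _, h, fun t ht z hz => ?_⟩
    obtain ⟨y, zS, -, -, b3, b4, b5⟩ := a1 x X vh hc t ht z hz
    obtain ⟨c1, c2⟩ := a2 _ _ b3
    obtain ⟨d1, -, -, d4, -, d6⟩ := TX.hyp_eq hc.c1 hc.m2 hc.hv b4 b5 rfl rfl c1
    obtain ⟨c3, c4⟩ := c2 X.P (X.P.nn * y + X.P.k2 * zS + X.P.nn) (1 + y) zS hc.kq hc.cq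
      (by ring) (by ring) (t3_sq (t3_k2 _) b4 b5)
    exact ⟨d1, by rwa [d4, mul_comm (I * _), Int.cast_ofNat], d6 ▸ t3_eight c4⟩

theorem mkT4_ok {k2 vh : TM} {m : ℕ} {k : Chart → TE → Bool} (h : mkT4 k2 vh m k = true) :
    ∃ C e, k C e = true ∧ ∀ x (X : TX) (vh0 : ℂ), X.c1 = 1 → X.m2 = 1 →
      X.P.v X.T = 2 * X.P.kap * vh0 → RepA x k2 X.P.k2 → RepA x vh vh0 →
      C.Ok x X.J ∧ e.Ok x X := by
  unfold mkT4 at h
  obtain ⟨_, h, a1⟩ := tch_n h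
  obtain ⟨o, h, a2⟩ := cst_ok h
  obtain ⟨_, h, a3⟩ := mkTE_ok h
  obtain ⟨_, _, h, a4⟩ := mkKC_ok h
  rw [tch_one] at a2
  exact ⟨_, _, h, fun x X vh0 h1 h2 h3 h4 h5 => ⟨t4Chart_ok ⟨h1, h2, h3, h4, h5,
    fun y hy => a1 _ _ (h4 y hy), (a4 _ _ h4.rep).1, (a4 _ _ h4.rep).2⟩,
    a3 x X h4 (fun y hy => h1 ▸ a2 _) (fun y hy => h2 ▸ a2 _) (t3_va h1 h3 ▸ h5)
      (fun h => nomatch h)⟩⟩

end Pool.Agent.Sok
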