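import Pool.Agent.Sok.TCC
import Pool.Agent.Sok.TCh3

/-! Direct integration near the turning point with a free starting point and shifted moments. -/

set_option autoImplicit false

namespace Pool.Agent.Sok

open TM Complex Finset

/-- prepares two rays from the end of a path that starts at the turning point -/
def cdPrep (k2 s : TM) (m : ℕ) (v0 vu vd : List CV) (k : CB → Bool) : Bool :=
  cst 0 0 fun o => mkS k2 s o m false fun c => mkKC k2 fun kq cq =>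
  ccRay (tvChart c kq cq) k2 s true v0 o o [] fun R =>
  ccRay (tvChart c kq cq) k2 s true vu R.ze R.psi [] fun Ru =>
  ccRay (tvChart c kq cq) k2 s false vd R.ze R.psi [] fun Rd => k ⟨k2, s, Ru, Rd⟩

def cdAcc (cu cv r thr : ℤ) (po ph : TM) (K : ℕ) :
    List CP → List TM → ℤ → ℤ → (List TM → ℤ → ℤ → Bool) → Bool
  | [], mu, e0, e1, k => k mu e0 e1
  | p :: l, mu, e0, e1, k =>
    sub p.z po fun z => ab z fun m => mulc z cv (-cu) fun a => add p.P a fun Q =>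
    sub Q ph fun Q => fI (mulU r m) fun x => hi Q fun h => fI (mulU (2 * p.hl) (expU (h + x))) fun sb =>
    cond (leI sb thr)
      (fI (e0 + sb) fun e0 => fI (e1 + mulU m sb) fun e1 => cdAcc cu cv r thr po ph K l mu e0 e1 k)
      (leI (2 * x) ((K + 1 : ℕ) * one) && exp Q fun E => mul E p.H fun E => ab E fun b =>
        fI (mulU b (remK x K)) fun er => ndiv z 4 fun z4 => accMu z4 mu E fun mu =>
        fI (e0 + er) fun e0 => fI (e1 + mulU m er) fun e1 =>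
        cdAcc cu cv r thr po ph K l mu e0 e1 k)

def cdEnd (en : End) (cu cv r : ℤ) (po ph zz : TM) (R : CR) (e0 e1 : ℤ) (k : ℤ → ℤ → Bool) :
    Bool :=
  sub R.ze po fun z => ab z fun m => mulc z cv (-cu) fun t => add R.psi t fun t =>
  sub t ph fun t => hi t fun h => mi zz fun t => sub R.f1 t fun f1 => fI (-(h + mulU r m)) fun g =>
  en ⟨R.ze, f1, R.f2, true, 0, 0, g, 0, 0, 0⟩ fun i M =>
  fI (e0 + i) fun e0 => fI (e1 + M + mulU m i) fun e1 => k e0 e1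

/-- order `K` expansion at `(cu, cv)` with moments around `po`, divided by `exp ph` -/
def cdCen (B : CB) (kind K : ℕ) (fl : Bool) (thr cu cv r : ℤ) (po ph : TM) (k : CC → Bool) :
    Bool :=
  cst 0 0 fun o => cst cu cv fun zz => wid zz r fun zz => rmul B.s zz fun va =>
  mkTE B.k2 B.s B.s va false fun e => mkAc one 1 fun a =>
  cdAcc cu cv r thr po ph K B.up.ps (List.replicate (K + 1) o) 0 0 fun mu e0 e1 =>
  cdAcc cu cv r thr po ph K B.dn.ps mu e0 e1 fun mu e0 e1 =>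
  cdEnd (endT e a kind) cu cv r po ph zz B.up e0 e1 fun e0 e1 =>
  cdEnd (endD e a false) cu cv r po ph zz B.dn e0 e1 fun e0 e1 =>
  mapK (fun _ => mean3) mu 0 fun mu =>
  mapK (fun j a => qmul a (4 ^ j : ℕ) (Nat.factorial j)) (List.take K mu) 0 fun co0 =>
  mapK (fun j a => qmul a (4 ^ (j + 1) : ℕ) (Nat.factorial j)) (cond fl (List.tail mu) []) 0
    fun co1 => k ⟨fl, co0, co1, e0, e1, cu, cv, r⟩

/-- a cover by tiles; boxes are halved -/
inductive DT : Type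
  | skip
  | leaf
  | sx (l r : DT)
  | sy (l r : DT)
  | cen (K : ℕ) (thr cu cv r : ℤ) (p q : CV) (t : DT)

def mid (a b : ℤ) : ℤ := Int.ediv (a + b) 2

/-- the terminal boxes are skipped or lie in the disc -/
def covZ (sk : ℤ → ℤ → ℤ → ℤ → Bool) (cu cv r : ℤ) : DT → ℤ → ℤ → ℤ → ℤ → Bool
  | .skip, x1, x2, y1, y2 => sk x1 x2 y1 y2
  | .leaf, x1, x2, y1, y2 => inZ cu cv r x1 x2 y1 y2
  | .sx l t, x1, x2, y1, y2 => fI (mid x1 x2) fun m =>
      covZ sk cu cv r l x1 m y1 y2 && covZ sk cu cv r t m x2 y1 y2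
  | .sy l t, x1, x2, y1, y2 => fI (mid y1 y2) fun m =>
      covZ sk cu cv r l x1 x2 y1 m && covZ sk cu cv r t x1 x2 m y2
  | .cen _ _ _ _ _ _ _ _, _, _, _, _ => false

def cdTree (B : CB) (kind : ℕ) (fl : Bool) (sk : ℤ → ℤ → ℤ → ℤ → Bool)
    (lf : TM → TM → ℤ → ℤ → ℤ → ℤ → TM → TM → Bool) : DT → CC → TM → TM → ℤ → ℤ → ℤ → ℤ → Bool
  | .skip, _, _, _, x1, x2, y1, y2 => sk x1 x2 y1 y2
  | .leaf, c, pu, pv, x1, x2, y1, y2 => ccTile c x1 x2 y1 y2 (lf pu pv x1 x2 y1 y2)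
  | .sx l r, c, pu, pv, x1, x2, y1, y2 => fI (mid x1 x2) fun m =>
      cdTree B kind fl sk lf l c pu pv x1 m y1 y2 && cdTree B kind fl sk lf r c pu pv m x2 y1 y2
  | .sy l r, c, pu, pv, x1, x2, y1, y2 => fI (mid y1 y2) fun m =>
      cdTree B kind fl sk lf l c pu pv x1 x2 y1 m && cdTree B kind fl sk lf r c pu pv x1 x2 m y2
  | .cen K thr cu cv r p q t, _, _, _, x1, x2, y1, y2 => covZ sk cu cv r t x1 x2 y1 y2 &&
      ccVtx B.k2 B.s p fun po => ccVtx B.k2 B.s q fun ph =>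
      cdCen B kind K fl thr cu cv r po ph fun c => cdTree B kind fl sk lf t c po ph x1 x2 y1 y2

structure CR.Od (R : CR) (x : Pt) (X : TX) (ζ sg ze : ℂ) (u : ℂ × ℂ) : Prop where
  ps : PsOk x X ζ R.ps (sg * ((X.J.P ze).1 - u.1)) (sg * ((X.J.P ze).2 - u.2))
  hz : RepA x R.ze ze
  psi : ∃ ψ, RepA x R.psi ψ ∧ X.J.E ze = X.J.E 0 * cexp (ψ - I * ζ * ze)
  f1 : RepA x R.f1 (X.J.f1 ze + I * ζ)
  f2 : RepA x R.f2 (X.J.f2 ze)

structure CB.Od (B : CB) (x : Pt) (X : TX) (ζ : ℂ) : Prop where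
  k2 : RepA x B.k2 X.P.k2
  s : RepA x B.s X.c1
  r : ∃ zu zd u, B.up.Od x X ζ 1 zu u ∧ B.dn.Od x X ζ (-1) zd u

/-- the normalisation for the origin `o` -/
noncomputable def TX.N (X : TX) (ζ o φ : ℂ) : ℂ := X.J.E 0 * cexp (φ - I * ζ * o)

theorem TX.N_ne (X : TX) (ζ o φ : ℂ) : X.N ζ o φ ≠ 0 := mul_ne_zero X.E0_ne (Complex.exp_ne_zero _)

section

variable {x : Pt} {X : TX} {ζ : ℂ}

theorem cdRay_ok {C : Chart} (hC : C.Ok x (X.Jc (I * ζ))) (hL : X.L = 1) {k2 s : TM} {a b : ℂ}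
    (h1 : RepA x k2 a) (h2 : RepA x s b) {up : Bool} {l : List CV} {z psi : TM} {ps : List CP}
    {k : CR → Bool} (h : ccRay C k2 s up l z psi ps k = true) {w ψ : ℂ} {u : ℂ × ℂ}
    (h3 : RepA x z w) (h4 : RepA x psi ψ) (h5 : X.J.E w = X.J.E 0 * cexp (ψ - I * ζ * w))
    (h6 : PsOk x X ζ ps ((if up then 1 else -1) * ((X.J.P w).1 - u.1))
      ((if up then 1 else -1) * ((X.J.P w).2 - u.2))) :
    ∃ R ze, k R = true ∧ R.Od x X ζ (if up then 1 else -1) ze u := by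
  induction l generalizing z psi ps w ψ with
  | nil =>
    unfold ccRay at h
    obtain ⟨_, _, h, a1⟩ := hC.h2 _ _ h
    obtain ⟨_, h, -⟩ := ab_ok h
    exact ⟨_, w, h, h6, h3, ⟨ψ, h4, h5⟩, fun y hy => X.Jc_f1 _ _ ▸ (a1 y hy _ (h3 y hy)).2.1,
      fun y hy => (a1 y hy _ (h3 y hy)).2.2⟩
  | cons v l ih =>
    unfold ccRay at h
    obtain ⟨_, w1, h, a1⟩ := ccVtx_ok h h1 h2
    obtain ⟨p, _, ψ', h, a2, a3, a4⟩ := ccPiece_ok hC hL h h3 a1 h4 h5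
    refine ih h a1 a3 a4 ⟨_, _, _, a2, ?_⟩
    obtain ⟨b1, b2⟩ := hI_seg X.J.toPrim ((w + w1) / 2) ((w1 - w) / 2)
    rw [show (w + w1) / 2 + (w1 - w) / 2 = w1 by ring, show (w + w1) / 2 - (w1 - w) / 2 = w by ring,
      mul_div_cancel₀ _ two_ne_zero] at b1 b2
    simp only [mul_comm (if up then (1 : ℂ) else -1) (w1 - w), ← mul_assoc _ (w1 - w),
      hI_mul _ (ite _ _ _)]
    rw [b1, b2, mul_comm (_ - _), mul_comm (_ - _), ← mul_sub, ← mul_sub, sub_sub_sub_cancel_left,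
      sub_sub_sub_cancel_left]
    exact h6

theorem cdPrep_ok (hX : X.Unit ζ) {k2 s : TM} (h1 : RepA x k2 X.P.k2) (h2 : RepA x s X.c1) {m : ℕ}
    {v0 vu vd : List CV} {k : CB → Bool} (h : cdPrep k2 s m v0 vu vd k = true) :
    ∃ B, k B = true ∧ B.Od x X ζ := by
  unfold cdPrep at h
  obtain ⟨o, h, a1⟩ := cst_ok h
  obtain ⟨c, h, a2⟩ := mkS_ok h
  obtain ⟨_, _, h, a7⟩ := mkKC_ok h
  rw [ser_toC, toR_zero, ofReal_zero] at a1
  have a3 : RepA x o 0 := fun y hy => a1 _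
  have hC := tvChart_sh (a2 x X 0 h1 h2 a3) hX.m2 hX.v (a7 _ _ h1.rep).1 (a7 _ _ h1.rep).2
  rw [sub_zero] at hC
  obtain ⟨_, z0, h, a4⟩ := ccRay_ok hC hX.L h1 h2 h a3 a3 (by simp) ⟨by simp, by simp⟩
  obtain ⟨ψ, b1, b2⟩ := a4.psi
  obtain ⟨_, zu, h, a5⟩ := cdRay_ok hC hX.L h1 h2 h (u := X.J.P z0) a4.hz b1 b2 ⟨by simp, by simp⟩
  obtain ⟨_, zd, h, a6⟩ := cdRay_ok hC hX.L h1 h2 h (u := X.J.P z0) a4.hz b1 b2 ⟨by simp, by simp⟩
  exact ⟨_, h, h1, h2, zu, zd, _, a5, a6⟩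

/-- the state of the accumulation -/
def AccOd (x : Pt) (N w : ℂ) (K n : ℕ) (mu : List TM) (e0 e1 : ℤ) (D0 D1 : ℂ) : Prop :=
  mu.length = n ∧ ∃ F : ℕ → ℝ → ℂ, (∀ j, Continuous (F j)) ∧
    (∀ (y : ℝ) hy, RepL (x.set3 y hy) mu fun j => F j y) ∧
    ‖D0 / N - ∑ j ∈ range K, hI (F j) * (4 ^ j / j.factorial) * w ^ j‖ ≤ toR e0 ∧
    ‖D1 / N - ∑ j ∈ range K, hI (F (j + 1)) * (4 ^ (j + 1) / j.factorial) * w ^ j‖ ≤ toR e1

theorem cdAcc_ok {cu cv r thr : ℤ} {po ph : TM} {o φ : ℂ} (ho : RepA x po o) (hφ : RepA x ph φ)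
    {K n : ℕ} (hr : ‖ζ - toC cu cv‖ ≤ toR r) {l : List CP} {mu : List TM} {e0 e1 : ℤ} {k : List TM → ℤ → ℤ → Bool}
    (h : cdAcc cu cv r thr po ph K l mu e0 e1 k = true) {A0 A1 D0 D1 : ℂ} (h1 : PsOk x X ζ l A0 A1)
    (h2 : AccOd x (X.N ζ o φ) (-(I * (ζ - toC cu cv))) K n mu e0 e1 D0 D1) :
    ∃ mu' a b, k mu' a b = true ∧ AccOd x (X.N ζ o φ) (-(I * (ζ - toC cu cv))) K n mu' a b
      (D0 + A0) (D1 + (A1 - o * A0)) := by
  induction l generalizing mu e0 e1 A0 A1 D0 D1 with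
  | nil => exact ⟨mu, e0, e1, h, by rwa [h1.1, h1.2, mul_zero, sub_zero, add_zero, add_zero]⟩
  | cons p l ih =>
    obtain ⟨zc, hh, H, hp, h1⟩ := h1
    obtain ⟨g1, F, g2, g3, g4, g5⟩ := h2
    unfold cdAcc at h
    obtain ⟨_, h, a0⟩ := sub_ok h
    obtain ⟨m, h, am⟩ := ab_ok h
    obtain ⟨_, h, a1⟩ := mulc_ok h
    obtain ⟨_, h, a2⟩ := add_ok h
    obtain ⟨Q, h, a2'⟩ := sub_ok h
    rw [fI_eq] at h
    obtain ⟨u, h, a3⟩ := hi_ok h
    rw [fI_eq] at h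
    rw [cc_cen] at a1
    have hz := fun (y : ℝ) hy => a0 _ _ _ (hp.hz y hy).1 (ho y hy)
    have hm := fun (y : ℝ) hy => am _ _ (hz y hy)
    have hc := X.J.hc
    have hw : ‖-(I * (ζ - toC cu cv))‖ ≤ toR r := by rwa [norm_neg, norm_mul, norm_I, one_mul]
    have b0 : ∀ (y : ℝ) hy, ∃ q, Rep (x.set3 y hy) Q q ∧ X.J.E (zc + y * hh) / X.N ζ o φ =
        cexp q * cexp (-(I * (ζ - toC cu cv)) * (zc + y * hh - o)) := fun y hy => by
      obtain ⟨-, -, P0, s2, s3⟩ := hp.hz y hy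
      refine ⟨_, a2' _ _ _ (a2 _ _ _ s2 (a1 _ _ (hz y hy))) (hφ y hy), ?_⟩
      rw [s3, TX.N, mul_div_mul_left _ _ X.E0_ne, ← Complex.exp_add, ← Complex.exp_sub]
      congr 1
      ring
    have b2 : (hI fun y => (zc + y * hh) * X.J.E (zc + y * hh) * H) =
        (hI fun y => (zc + y * hh - o) * X.J.E (zc + y * hh) * H) +
          o * hI fun y => X.J.E (zc + y * hh) * H := by
      rw [mul_comm o, ← hI_mul, ← hI_add (by fun_prop) (by fun_prop)]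
      congr 1
      funext y
      ring
    rw [b2] at h1
    generalize -(I * (ζ - toC cu cv)) = w at *
    generalize X.N ζ o φ = N at *
    have b1 : ∀ y : ℝ, |y| ≤ 1 → ‖w * (zc + y * hh - o)‖ ≤ toR (mulU r m) := fun y hy => by
      rw [norm_mul]
      exact mulU_le (norm_nonneg _) (norm_nonneg _) hw (hm y hy)
    have fin : ∀ (mu' : List TM) (F' : ℕ → ℝ → ℂ) (er : ℤ), mu'.length = n →
        (∀ j, Continuous (F' j)) → (∀ (y : ℝ) hy, RepL (x.set3 y hy) mu' fun j => F j y + F' j y) →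
        ‖hI (fun y => X.J.E (zc + y * hh) * H) / N -
          ∑ j ∈ range K, hI (F' j) * (4 ^ j / j.factorial) * w ^ j‖ ≤ toR er →
        ‖hI (fun y => (zc + y * hh - o) * X.J.E (zc + y * hh) * H) / N - ∑ j ∈ range K,
          hI (F' (j + 1)) * (4 ^ (j + 1) / j.factorial) * w ^ j‖ ≤ toR (mulU m er) →
        cdAcc cu cv r thr po ph K l mu' (e0 + er) (e1 + mulU m er) k = true →
        ∃ mu' a b, k mu' a b = true ∧ AccOd x N w K n mu' a b (D0 + A0) (D1 + (A1 - o * A0)) := by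
      intro mu' F' er s1 s2 s3 s4 s5 s6
      have := ih s6 h1 (D0 := D0 + hI fun y => X.J.E (zc + y * hh) * H)
        (D1 := D1 + hI fun y => (zc + y * hh - o) * X.J.E (zc + y * hh) * H)
        ⟨s1, fun j y => F j y + F' j y, fun j => (g2 j).add (s2 j), s3, by
          simp only [hI_add (g2 _) (s2 _), add_mul (hI _), add_mul (hI _ * _), sum_add_distrib]
          rw [add_div, add_sub_add_comm, toR_add]
          exact norm_add_le_of_le g4 s4, by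
          simp only [hI_add (g2 _) (s2 _), add_mul (hI _), add_mul (hI _ * _), sum_add_distrib]
          rw [add_div, add_sub_add_comm, toR_add]
          exact norm_add_le_of_le g5 s5⟩
      rwa [add_add_sub_cancel, show ∀ a b c : ℂ, c + a + (A1 - (a + o * b) - o * (A0 - b)) =
        c + (A1 - o * A0) from fun _ _ _ => by ring] at this
    have e0' : hI (fun y => X.J.E (zc + y * hh) * H) / N =
        hI fun y => X.J.E (zc + y * hh) / N * H := by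
      rw [div_eq_mul_inv, ← hI_mul]
      congr 1
      funext y
      ring
    have e1' : hI (fun y => (zc + y * hh - o) * X.J.E (zc + y * hh) * H) / N =
        hI fun y => (zc + y * hh - o) * (X.J.E (zc + y * hh) / N * H) := by
      rw [div_eq_mul_inv, ← hI_mul]
      congr 1
      funext y
      ring
    cases hb : leI (mulU (2 * p.hl) (expU (u + mulU r m))) thr <;> rw [hb] at h
    · rw [cond_false] at h
      obtain ⟨t, h⟩ := Bool.and_eq_true_iff.1 h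
      obtain ⟨_, h, c1⟩ := exp_ok h
      obtain ⟨_, h, c2⟩ := mul_ok h
      obtain ⟨b, h, c3⟩ := ab_ok h
      rw [fI_eq] at h
      obtain ⟨_, h, c4⟩ := ndiv_ok h
      obtain ⟨mu', h, c5, c6⟩ := accMu_ok h
      rw [fI_eq, fI_eq] at h
      replace t := leI_ok t
      rw [toR_intmul, toR_natmul, toR_one] at t
      obtain ⟨G, hG⟩ : ∃ G : ℝ → ℂ, G = fun y : ℝ =>
        X.J.E (zc + y * hh) / N * cexp (-(w * (zc + y * hh - o))) * H := ⟨_, rfl⟩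
      have d0 : Continuous G := by rw [hG]; fun_prop
      have d1 : ∀ (y : ℝ) hy, ∃ q, Rep (x.set3 y hy) Q q ∧ G y = cexp q * H := fun y hy => by
        obtain ⟨q, s1, s2⟩ := b0 y hy
        refine ⟨q, s1, ?_⟩
        rw [hG]
        dsimp only
        rw [s2, mul_assoc (cexp q), ← Complex.exp_add, add_neg_cancel, Complex.exp_zero, mul_one]
      have d2 : ∀ y : ℝ, X.J.E (zc + y * hh) / N * H = G y * cexp (w * (zc + y * hh - o)) :=
        fun y => by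
          rw [hG]
          dsimp only
          rw [mul_right_comm _ H, mul_assoc (_ / _), ← Complex.exp_add, neg_add_cancel,
            Complex.exp_zero, mul_one]
      have d3 : ∀ y : ℝ, |y| ≤ 1 → ‖G y * (cexp (w * (zc + y * hh - o)) - ∑ j ∈ range K,
          (w * (zc + y * hh - o)) ^ j / j.factorial)‖ ≤ toR (mulU b (remK (mulU r m) K)) :=
        fun y hy => by
          obtain ⟨q, s1, s2⟩ := d1 y hy
          rw [norm_mul]
          refine mulU_le (norm_nonneg _) (norm_nonneg _) (s2 ▸ c3 _ _ (c2 _ _ _ (c1 _ _ s1)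
            (hp.hH y hy))) ((Complex.exp_bound' ?_).trans (remK_ok (norm_nonneg _) (b1 y hy)))
          rw [div_le_iff₀ (by positivity)]
          push_cast at t ⊢
          linarith only [t, b1 y hy]
      refine fin mu' (fun j y => G y * ((zc + y * hh - o) / (4 : ℕ)) ^ j) _ (c5.trans g1)
        (fun j => by fun_prop) (fun y hy => ?_) ?_ ?_ h
      · obtain ⟨q, s1, s2⟩ := d1 y hy
        rw [s2]
        exact c6 _ _ _ _ (c4 _ _ (hz y hy)) (c2 _ _ _ (c1 _ _ s1) (hp.hH y hy)) (g3 y hy)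
      · have := cc_exp (z := fun y : ℝ => zc + y * hh - o) d0 (by fun_prop) w K 0
          (fun y hy => by simpa only [pow_zero, mul_one] using d3 y hy)
        simpa only [pow_zero, mul_one, add_zero, e0', d2] using this
      · have := cc_exp (z := fun y : ℝ => zc + y * hh - o) d0 (by fun_prop) w K 1
          (b := toR (mulU m (mulU b (remK (mulU r m) K)))) (fun y hy => by
            rw [pow_one, mul_comm (G y), mul_assoc, norm_mul]
            exact mulU_le (norm_nonneg _) (norm_nonneg _) (hm y hy) (d3 y hy))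
        simp only [pow_one, mul_comm (G _) (_ - o), mul_assoc (_ - o)] at this
        simpa only [e1', d2] using this
    · rw [cond_true, fI_eq, fI_eq] at h
      have d1 : ∀ y : ℝ, |y| ≤ 1 → ‖X.J.E (zc + y * hh) / N * H‖ ≤
          toR (mulU (2 * p.hl) (expU (u + mulU r m))) := fun y hy => by
        obtain ⟨q, s1, s2⟩ := b0 y hy
        rw [s2, ← Complex.exp_add, norm_mul, norm_exp, mul_comm]
        refine mulU_le (norm_nonneg _) (Real.exp_pos _).le (by rw [toR_intmul]; exact hp.hl)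
          ((Real.exp_le_exp.2 ?_).trans (expU_ok _))
        rw [add_re, toR_add]
        exact add_le_add (a3 _ _ s1) ((re_le_norm _).trans (b1 y hy))
      refine fin mu (fun _ _ => 0) _ g1 (fun j => continuous_const)
        (fun y hy => by simpa using g3 y hy) ?_ ?_ h
      · rw [e0']
        simpa only [show hI (fun _ => 0) = 0 by simp [hI], zero_mul, sum_const_zero, sub_zero]
          using hI_le d1
      · have := hI_le (f := fun y : ℝ => (zc + y * hh - o) * (X.J.E (zc + y * hh) / N * H))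
          fun y hy => (norm_mul_le _ _).trans
            (mulU_le (norm_nonneg _) (norm_nonneg _) (hm y hy) (d1 y hy))
        rw [e1']
        simpa only [show hI (fun _ => 0) = 0 by simp [hI], zero_mul, sum_const_zero, sub_zero]
          using this

theorem cdEnd_ok (hL : X.L = 1) {en : End} {a : Ac} {cu cv r : ℤ} {po ph : TM} {o φ : ℂ}
    (ho : RepA x po o) (hφ : RepA x ph φ) (hr : ‖ζ - toC cu cv‖ ≤ toR r) {zz : TM} (hz : RepA x zz ζ) {R : CR} {sg ze : ℂ} {u v : ℂ × ℂ}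
    (hR : R.Od x X ζ sg ze u) (he : en.Ok x X.J a ‖X.N ζ o φ‖ ze v) {e0 e1 : ℤ}
    {k : ℤ → ℤ → Bool} (h : cdEnd en cu cv r po ph zz R e0 e1 k = true) (hW : a.W 1 = 1) :
    ∃ a0 a1, k a0 a1 = true ∧ ‖(v.1 - (X.J.P ze).1) / X.N ζ o φ‖ ≤ toR a0 - toR e0 ∧
      ‖(v.2 - (X.J.P ze).2 - o * (v.1 - (X.J.P ze).1)) / X.N ζ o φ‖
        ≤ toR a1 - toR e1 := by
  unfold cdEnd at h
  obtain ⟨_, h, a0⟩ := sub_ok h
  obtain ⟨m, h, am⟩ := ab_ok h
  obtain ⟨_, h, a1⟩ := mulc_ok h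
  obtain ⟨_, h, a2⟩ := add_ok h
  obtain ⟨_, h, a2'⟩ := sub_ok h
  obtain ⟨_, h, a3⟩ := hi_ok h
  obtain ⟨_, h, a4⟩ := mi_ok h
  obtain ⟨_, h, a5⟩ := sub_ok h
  rw [fI_eq] at h
  rw [cc_cen] at a1
  have hE := norm_pos_iff.2 (X.N_ne ζ o φ)
  have c0 := am _ _ (a0 _ _ _ hR.hz.rep ho.rep)
  obtain ⟨ψ, b1, b2⟩ := hR.psi
  obtain ⟨i, M, h, b3, b4⟩ := he _ _ (X.J.P ze) ze ⟨hR.hz, fun y hy => by
    simpa using a5 _ _ _ (hR.f1 y hy) (a4 _ _ (hz y hy)), hR.f2, by simp [ser_toC, toR_zero], by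
      have c1 := a3 _ _ (a2' _ _ _ (a2 _ _ _ b1.rep (a1 _ _ (a0 _ _ _ hR.hz.rep ho.rep))) hφ.rep)
      have c2 : ‖-(I * (ζ - toC cu cv)) * (ze - o)‖ ≤ toR (mulU r m) := by
        rw [norm_mul, norm_neg, norm_mul, norm_I, one_mul]
        exact mulU_le (norm_nonneg _) (norm_nonneg _) hr c0
      rw [b2, show ψ - I * ζ * ze = φ - I * ζ * o + (ψ + (ze - o) * -(I * toC cu cv) - φ +
        -(I * (ζ - toC cu cv)) * (ze - o)) by ring, Complex.exp_add, ← mul_assoc, ← TX.N, norm_mul,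
        norm_exp, X.J_L, hL, one_mul, toR_neg, neg_neg, toR_add, add_re]
      exact mul_le_mul_of_nonneg_left
        (Real.exp_le_exp.2 (add_le_add c1 ((re_le_norm _).trans c2))) hE.le,
    by simp [toR_zero], toR_zero ▸ Bd.refl _ _ _ _⟩ h
  rw [fI_eq, fI_eq] at h
  rw [X.J_L, hL, Real.sqrt_one, one_mul, ← div_le_iff₀' hE, ← norm_div] at b3
  refine ⟨_, _, h, by rwa [toR_add, add_sub_cancel_left], ?_⟩
  rw [X.J_L, hL, hW, Real.sqrt_one, one_mul, one_mul, ← div_le_iff₀' hE, ← norm_div] at b4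
  rw [toR_add, toR_add, add_assoc, add_sub_cancel_left, ← sub_add_sub_cancel _
    (ze * (v.1 - (X.J.P ze).1)), ← sub_mul, add_div, mul_div_assoc]
  exact norm_add_le_of_le b4 ((norm_mul_le _ _).trans
    (mulU_le (norm_nonneg _) (norm_nonneg _) c0 b3))

/-- the expansion represents `T0` and `T1` -/
def CC.Od (c : CC) (x : Pt) (ζ T0 T1 : ℂ) : Prop := 0 ≤ toR c.r → ∃ f0 f1 : ℕ → ℂ,
  (∀ (y : ℝ) hy, RepL (x.set3 y hy) c.co0 f0 ∧ RepL (x.set3 y hy) c.co1 f1) ∧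
  ‖T0 - ∑ j ∈ range c.co0.length, f0 j * (-(I * (ζ - toC c.cu c.cv))) ^ j‖ ≤ toR c.e0 ∧
  (c.fl = true →
    ‖T1 - ∑ j ∈ range c.co1.length, f1 j * (-(I * (ζ - toC c.cu c.cv))) ^ j‖ ≤ toR c.e1)

theorem cdCen_ok (hX : X.Unit ζ) {B : CB} (hB : B.Od x X ζ) {kind K : ℕ} {thr cu cv r : ℤ}
    {fl : Bool} {po ph : TM} {o φ : ℂ} (ho : RepA x po o) (hφ : RepA x ph φ)
    (hr : ‖ζ - toC cu cv‖ ≤ toR r) {k : CC → Bool}
    (h : cdCen B kind K fl thr cu cv r po ph k = true) : ∃ c, k c = true ∧ c.fl = fl ∧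
      c.Od x ζ (X.top.1 / X.N ζ o φ)
        ((X.top.2 - o * X.top.1) / X.N ζ o φ) := by
  unfold cdCen at h
  obtain ⟨_, h, a1⟩ := cst_ok h
  obtain ⟨_, h, a2⟩ := cst_ok h
  obtain ⟨zz, h, a3⟩ := wid_ok h
  obtain ⟨_, h, a4⟩ := rmul_ok h
  obtain ⟨e, h, a5⟩ := mkTE_ok h
  obtain ⟨a, h, a6, a7, a8⟩ := mkAc_ok h
  rw [ser_toC, toR_zero, ofReal_zero] at a1
  have b1 : RepA x zz ζ := fun y hy => a3 _ _ _ (a2 _) hr
  have he := a5 x X hB.k2 hB.s (hX.m2 ▸ hB.s)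
    (fun y hy => tch_va hX.v ▸ a4 _ _ _ (hB.s y hy) (b1 y hy)) (fun h => nomatch h)
  have ha := a8 X.L (by rw [toR_one, hX.L])
  have hW : a.W 1 = 1 := by simp [Ac.W, wt, a6, a7, toR_one]
  obtain ⟨zu, zd, u, hu, hd⟩ := hB.r
  obtain ⟨_, _, _, h, b2⟩ := cdAcc_ok ho hφ (n := K + 1) hr h hu.ps (D0 := 0) (D1 := 0)
    ⟨List.length_replicate, fun _ _ => 0, fun _ => continuous_const,
      fun y hy => RepL.rep (a1 _) _, by simp [hI, toR_zero], by simp [hI, toR_zero]⟩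
  obtain ⟨mu, _, _, h, b3, F, b4, b5, b6, b7⟩ := cdAcc_ok ho hφ hr h hd.ps b2
  obtain ⟨_, _, h, c1, c2⟩ := cdEnd_ok hX.L ho hφ hr b1 hu (endT_ok he ha (norm_nonneg _) kind zu) h hW
  obtain ⟨_, _, h, c3, c4⟩ := cdEnd_ok hX.L ho hφ hr b1 hd (v := (0, 0))
    (endD_ok he ha (norm_nonneg _) false zd) h hW
  obtain ⟨mv, h, d1, d2⟩ := mapK_mean (x := x) h
  obtain ⟨co0, h, d3, d4⟩ := mapK_q (p := fun j => (4 ^ j : ℕ)) h
  obtain ⟨co1, h, d5, d6⟩ := mapK_q (p := fun j => (4 ^ (j + 1) : ℕ)) h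
  have d7 : co0.length = K := by simp [d3, d1, b3]
  refine ⟨_, h, rfl, fun _ => ⟨_, _, fun y hy => ⟨d4 _ _ ((d2 F b4 b5 y hy).take K),
    d6 _ (fun j => hI (F (j + 1))) (by
      cases fl
      exacts [trivial, (d2 F b4 b5 y hy).tail])⟩, ?_, fun hf => ?_⟩⟩
  · have := norm_add_le_of_le b6 (norm_sub_le_of_le c1 c3)
    refine le_trans (le_of_eq (congrArg norm ?_)) (this.trans (le_of_eq (by ring)))
    simp only [d7, add_zero]
    push_cast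
    ring
  · obtain rfl : fl = true := hf
    have d8 : co1.length = K := by simp [d5, d1, b3]
    have := norm_add_le_of_le b7 (norm_sub_le_of_le c2 c4)
    refine le_trans (le_of_eq (congrArg norm ?_)) (this.trans (le_of_eq (by ring)))
    simp only [d8, add_zero]
    push_cast
    ring

theorem cdTile_ok {c : CC} {T0 T1 : ℂ} (hc : c.Od x ζ T0 T1) {x1 x2 y1 y2 : ℤ}
    {k : TM → TM → Bool} (h : ccTile c x1 x2 y1 y2 k = true) : ∃ S0 S1, k S0 S1 = true ∧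
      (ζ.re = varVal x1 x2 x.x2 → ζ.im = varVal y1 y2 x.x3 → Rep x S0 T0 ∧
        (c.fl = true → Rep x S1 T1)) := by
  unfold ccTile at h
  obtain ⟨t, h⟩ := Bool.and_eq_true_iff.1 h
  obtain ⟨_, h, a1⟩ := var_ok h
  obtain ⟨_, h, a2⟩ := var_ok h
  obtain ⟨_, h, a3⟩ := mi_ok h
  obtain ⟨_, h, a4⟩ := sub_ok h
  obtain ⟨_, h, a5⟩ := horL_ok h
  obtain ⟨_, h, a6⟩ := wid_ok h
  obtain ⟨_, h, a7⟩ := horL_ok h
  obtain ⟨_, h, a8⟩ := wid_ok h
  obtain ⟨f0, f1, b1, b2, b3⟩ := hc (toR_zero ▸ leI_ok t)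
  refine ⟨_, _, h, fun h1 h2 => ?_⟩
  have b4 := a4 _ _ _ (a2 x) (a3 _ _ (a1 x))
  rw [show ((varVal (y1 - c.cv) (y2 - c.cv) (x.get 3) : ℝ) : ℂ) -
      I * (varVal (x1 - c.cu) (x2 - c.cu) (x.get 2) : ℝ) = -(I * (ζ - toC c.cu c.cv)) by
    apply Complex.ext <;> simp [toC, h1, h2, varVal, toR_sub, Pt.get] <;> ring] at b4
  exact ⟨a6 _ _ _ (a5 _ _ _ b4 (b1 x.x3 x.h3).1) b2,
    fun hf => a8 _ _ _ (a7 _ _ _ b4 (b1 x.x3 x.h3).2) (b3 hf)⟩

/-- the terminal box that contains `ζ` -/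
noncomputable def DT.find (ζ : ℂ) : DT → ℤ → ℤ → ℤ → ℤ → ℤ × ℤ × ℤ × ℤ
  | .skip, x1, x2, y1, y2 => (x1, x2, y1, y2)
  | .leaf, x1, x2, y1, y2 => (x1, x2, y1, y2)
  | .sx l r, x1, x2, y1, y2 =>
      if ζ.re ≤ toR (mid x1 x2) then l.find ζ x1 (mid x1 x2) y1 y2 else r.find ζ (mid x1 x2) x2 y1 y2
  | .sy l r, x1, x2, y1, y2 =>
      if ζ.im ≤ toR (mid y1 y2) then l.find ζ x1 x2 y1 (mid y1 y2) else r.find ζ x1 x2 (mid y1 y2) y2
  | .cen _ _ _ _ _ _ _ t, x1, x2, y1, y2 => t.find ζ x1 x2 y1 y2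

theorem DT.find_mem (t : DT) {x1 x2 y1 y2 : ℤ} (h : InB ζ (x1, x2, y1, y2)) :
    InB ζ (t.find ζ x1 x2 y1 y2) := by
  induction t generalizing x1 x2 y1 y2 with
  | skip => exact h
  | leaf => exact h
  | sx l r i1 i2 =>
    unfold DT.find
    split_ifs with g
    exacts [i1 ⟨h.1, g, h.2.2⟩, i2 ⟨(not_le.1 g).le, h.2⟩]
  | sy l r i1 i2 =>
    unfold DT.find
    split_ifs with g
    exacts [i1 ⟨h.1, h.2.1, h.2.2.1, g⟩, i2 ⟨h.1, h.2.1, (not_le.1 g).le, h.2.2.2⟩]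
  | cen K thr cu cv r pu pv t i => exact i h

theorem covZ_ok {sk : ℤ → ℤ → ℤ → ℤ → Bool} {cu cv r : ℤ} {t : DT} {x1 x2 y1 y2 : ℤ}
    (hm : InB ζ (x1, x2, y1, y2)) (h : covZ sk cu cv r t x1 x2 y1 y2 = true)
    {b : ℤ × ℤ × ℤ × ℤ} (hb : b = t.find ζ x1 x2 y1 y2) :
    sk b.1 b.2.1 b.2.2.1 b.2.2.2 = true ∨ ‖ζ - toC cu cv‖ ≤ toR r := by
  induction t generalizing x1 x2 y1 y2 with
  | skip => exact Or.inl (hb ▸ h)
  | leaf => exact Or.inr (inZ_ok h hm.1 hm.2.1 hm.2.2.1 hm.2.2.2)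
  | sx l r i1 i2 =>
    unfold covZ at h
    unfold DT.find at hb
    obtain ⟨h1, h2⟩ := Bool.and_eq_true_iff.1 (fI_eq _ _ ▸ h)
    split_ifs at hb with g
    exacts [i1 (x2 := mid x1 x2) ⟨hm.1, g, hm.2.2⟩ h1 hb,
      i2 (x1 := mid x1 x2) ⟨(not_le.1 g).le, hm.2⟩ h2 hb]
  | sy l r i1 i2 =>
    unfold covZ at h
    unfold DT.find at hb
    obtain ⟨h1, h2⟩ := Bool.and_eq_true_iff.1 (fI_eq _ _ ▸ h)
    split_ifs at hb with g
    exacts [i1 (y2 := mid y1 y2) ⟨hm.1, hm.2.1, hm.2.2.1, g⟩ h1 hb,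
      i2 (y1 := mid y1 y2) ⟨hm.1, hm.2.1, (not_le.1 g).le, hm.2.2.2⟩ h2 hb]
  | cen K thr cu cv r p q t i => exact nomatch h

theorem cdTree_ok (hX : X.Unit ζ) {B : CB} (hB : B.Od x X ζ) {kind : ℕ} {fl : Bool}
    {sk : ℤ → ℤ → ℤ → ℤ → Bool} {lf : TM → TM → ℤ → ℤ → ℤ → ℤ → TM → TM → Bool} {t : DT} {c : CC}
    {pu pv : TM} {o φ : ℂ} (ho : RepA x pu o) (hφ : RepA x pv φ) (hf : c.fl = fl)
    (hc : c.Od x ζ (X.top.1 / X.N ζ o φ)
      ((X.top.2 - o * X.top.1) / X.N ζ o φ)) {x1 x2 y1 y2 : ℤ}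
    (hm : InB ζ (x1, x2, y1, y2)) (h : cdTree B kind fl sk lf t c pu pv x1 x2 y1 y2 = true)
    {b : ℤ × ℤ × ℤ × ℤ} (hb : b = t.find ζ x1 x2 y1 y2) : sk b.1 b.2.1 b.2.2.1 b.2.2.2 = true ∨
      ∃ p q o φ S0 S1, lf p q b.1 b.2.1 b.2.2.1 b.2.2.2 S0 S1 = true ∧ Rep x p o ∧ Rep x q φ ∧
        (ζ.re = varVal b.1 b.2.1 x.x2 → ζ.im = varVal b.2.2.1 b.2.2.2 x.x3 →
          Rep x S0 (X.top.1 / X.N ζ o φ) ∧
            (fl = true → Rep x S1 ((X.top.2 - o * X.top.1) / X.N ζ o φ))) := by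
  induction t generalizing c pu pv o φ x1 x2 y1 y2 with
  | skip => exact Or.inl (hb ▸ h)
  | leaf =>
    unfold cdTree at h
    obtain ⟨S0, S1, g1, g2⟩ := cdTile_ok hc h
    exact Or.inr ⟨pu, pv, o, φ, S0, S1, hb ▸ g1, ho.rep, hφ.rep, hb ▸ hf ▸ g2⟩
  | sx l r i1 i2 =>
    unfold cdTree at h
    unfold DT.find at hb
    obtain ⟨h1, h2⟩ := Bool.and_eq_true_iff.1 (fI_eq _ _ ▸ h)
    split_ifs at hb with g
    exacts [i1 (x2 := mid x1 x2) ho hφ hf hc ⟨hm.1, g, hm.2.2⟩ h1 hb,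
      i2 (x1 := mid x1 x2) ho hφ hf hc ⟨(not_le.1 g).le, hm.2⟩ h2 hb]
  | sy l r i1 i2 =>
    unfold cdTree at h
    unfold DT.find at hb
    obtain ⟨h1, h2⟩ := Bool.and_eq_true_iff.1 (fI_eq _ _ ▸ h)
    split_ifs at hb with g
    exacts [i1 (y2 := mid y1 y2) ho hφ hf hc ⟨hm.1, hm.2.1, hm.2.2.1, g⟩ h1 hb,
      i2 (y1 := mid y1 y2) ho hφ hf hc ⟨hm.1, hm.2.1, (not_le.1 g).le, hm.2.2.2⟩ h2 hb]
  | cen K thr cu cv r pu pv t i =>
    unfold cdTree at h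
    obtain ⟨h1, h⟩ := Bool.and_eq_true_iff.1 h
    refine (covZ_ok hm h1 hb).elim Or.inl fun h2 => ?_
    obtain ⟨_, _, h, g2⟩ := ccVtx_ok h hB.k2 hB.s
    obtain ⟨_, _, h, g3⟩ := ccVtx_ok h hB.k2 hB.s
    obtain ⟨c', h, g0, g1⟩ := cdCen_ok hX hB g2 g3 h2 h
    exact i g2 g3 g0 g1 hm h hb

/-- the cover of a box of values of `ζ` -/
theorem cdCover_ok (hX : X.Unit ζ) {k2 s : TM} (h1 : ∀ y hy, RepA (x.set2 y hy) k2 X.P.k2)
    (h2 : ∀ y hy, RepA (x.set2 y hy) s X.c1) {m kind : ℕ} {fl : Bool} {v0 vu vd : List CV}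
    {sk : ℤ → ℤ → ℤ → ℤ → Bool} {lf : TM → TM → ℤ → ℤ → ℤ → ℤ → TM → TM → Bool} {t : DT}
    {x1 x2 y1 y2 : ℤ} (hm : InB ζ (x1, x2, y1, y2)) (h : (cdPrep k2 s m v0 vu vd fun B =>
      cdTree B kind fl sk lf t (cc0 fl) s s x1 x2 y1 y2) = true) :
    ∃ a1 a2 b1 b2, InB ζ (a1, a2, b1, b2) ∧ (sk a1 a2 b1 b2 = true ∨
      ∃ y hy y' hy' p q o φ S0 S1, lf p q a1 a2 b1 b2 S0 S1 = true ∧ ζ.re = varVal a1 a2 y ∧
        ζ.im = varVal b1 b2 y' ∧ Rep ((x.set2 y hy).set3 y' hy') p o ∧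
        Rep ((x.set2 y hy).set3 y' hy') q φ ∧
        Rep ((x.set2 y hy).set3 y' hy') S0 (X.top.1 / X.N ζ o φ) ∧
        (fl = true →
          Rep ((x.set2 y hy).set3 y' hy') S1 ((X.top.2 - o * X.top.1) / X.N ζ o φ))) := by
  have a1 := t.find_mem hm
  obtain ⟨y, hy, a2⟩ := exists_varVal a1.1 a1.2.1
  obtain ⟨y', hy', a3⟩ := exists_varVal a1.2.2.1 a1.2.2.2
  obtain ⟨B, h, hB⟩ := cdPrep_ok (x := (x.set2 y hy).set3 y' hy') hX (h1 y hy) (h2 y hy) h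
  refine ⟨_, _, _, _, a1, (cdTree_ok hX hB (h2 y hy) (h2 y hy) (c := cc0 fl) rfl (fun g => absurd g
    (by norm_num [cc0, toR])) hm h rfl).imp_right fun ⟨p, q, o, φ, S0, S1, g1, g3, g4, g2⟩ =>
    ⟨y, hy, y', hy', p, q, o, φ, S0, S1, g1, a2.symm, a3.symm, g3, g4, g2 a2.symm a3.symm⟩⟩

end

end Pool.Agent.Sok
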