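import Pool.Agent.Sok.B1G
import Pool.Agent.Sok.TCD

/-! Packed certificates for the cubic disc. -/

set_option autoImplicit false

namespace Pool.Agent.Sok

open TM Complex

/-- the cubic disc, for the values of `ζ` in a box -/
def Cl.Q (c : Cl) (x1 x2 y1 y2 : ℤ) : Prop :=
  ∀ (X : TX) (ζ : ℂ), toR c.k1 ≤ X.P.kap → X.P.kap ≤ toR c.k2 → toR c.a1 ≤ X.c1 →
    X.c1 ≤ toR c.a2 → X.Unit ζ → InB ζ (x1, x2, y1, y2) → ‖ζ‖ ≤ toR c.Z →
    X.P.vre ≤ 2 * X.P.kap * toR c.c → X.P.S X.T ≠ 0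

def b1Cv (n : ℕ) : CV := ⟨b1V n 0, b1V n 13, b1V n 26, b1V n 39, b1V n 52, b1V n 65⟩

/-- a centre with packed data -/
def b1Cc (n : ℕ) (t : DT) : DT :=
  .cen (b1Bits n 39 31) (Int.ofNat (Nat.shiftLeft (b1Bits n 44 4095) 24)) (b1V n 0) (b1V n 13)
    (b1V n 26) (b1Cv (Nat.shiftRight n 56)) (b1Cv (Nat.shiftRight n 134)) t

/-- reads a tree from tokens: `0` leaf, `1` and `2` cuts, `3 0` skip, `3 1` centre -/
def b1Tr : ℕ → ℕ → List ℕ → (DT → ℕ → List ℕ → Bool) → Bool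
  | 0, _, _, _ => false
  | f + 1, n, l, k => fN (Nat.shiftRight n 2) fun n' =>
    cond (Nat.beq (Nat.land n 3) 0) (k .leaf n' l)
      (cond (Nat.beq (Nat.land n 3) 3)
        (cond (b1Bit n 2)
          (b1Tr f (Nat.shiftRight n 3) (List.tail l) fun t n' l' => k (b1Cc (List.headD l 0) t) n' l')
          (k .skip (Nat.shiftRight n 3) l))
        (b1Tr f n' l fun a n' l => b1Tr f n' l fun b n' l =>
          k (cond (b1Bit n 0) (.sx a b) (.sy a b)) n' l))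

theorem b1Tr_ok {f n : ℕ} {l : List ℕ} {k : DT → ℕ → List ℕ → Bool}
    (h : b1Tr f n l k = true) : ∃ t n' l', k t n' l' = true := by
  induction f generalizing n l k with
  | zero => exact absurd h Bool.false_ne_true
  | succ f ih =>
    simp only [b1Tr, fN_eq] at h
    cases e1 : Nat.beq (Nat.land n 3) 0 <;> rw [e1] at h
    · cases e2 : Nat.beq (Nat.land n 3) 3 <;> rw [e2] at h
      · obtain ⟨_, _, _, h⟩ := ih h
        obtain ⟨_, _, _, h⟩ := ih h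
        exact ⟨_, _, _, h⟩
      · cases e3 : b1Bit n 2 <;> rw [e3] at h
        · exact ⟨_, _, _, h⟩
        · obtain ⟨_, _, _, h⟩ := ih h
          exact ⟨_, _, _, h⟩
    · exact ⟨_, _, _, h⟩

/-- the enclosed number is not zero -/
def b1Nz (S : TM) : Bool := cen S fun u v => mulc S u (-v) fun W => lo W fun l => ltI 0 l

/-- one contour and one cover: `p` holds the order of the series and the tokens -/
def b1K (c : Cl) (x1 x2 y1 y2 : ℤ) (p : ℕ) (v0 vu vd cs : List ℕ) : Bool :=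
  leI 0 c.k1 && b1Tr 40 (Nat.shiftRight p 5) cs fun t _ _ =>
  var 0 (mulD c.k1 c.k1) (mulU c.k2 c.k2) fun a => var 1 c.a1 c.a2 fun s =>
  cdPrep a s (b1Bits p 0 15) (v0.map b1Cv) (vu.map b1Cv) (vd.map b1Cv) fun B =>
  cdTree B (b1Bits p 4 1) false (outZ c.Z)
    (fun _ _ _ _ _ _ S _ => b1Nz S) t (cc0 false) s s x1 x2 y1 y2

/-- contradiction with `L = 1` for `re ζ ≤ x` -/
def Cl.vacQ (c : Cl) (x : ℤ) : Bool :=
  leI 0 c.a1 && Cl.vacC ⟨c.m, c.k1, c.k2, c.a1, c.a2, minI c.c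
    (cond (leI 0 x) (mulU (mulU c.a2 c.a2) x) (-mulD (mulD c.a1 c.a1) (-x))), c.Z⟩

def b1U (m : ℕ) : ℤ := Int.ofNat (Nat.shiftLeft m 30)

/-- a cover of the parameters -/
inductive QT : Type
  | vac
  | out
  | lf (p : ℕ) (v0 vu vd cs : List ℕ)
  | sk (m : ℕ) (l r : QT)
  | ss (m : ℕ) (l r : QT)
  | sx (l r : QT)
  | sy (l r : QT)

def b1Q : QT → Cl → ℤ → ℤ → ℤ → ℤ → Bool
  | .vac, c, _, x2, _, _ => c.vacQ x2
  | .out, c, x1, x2, y1, y2 => outZ c.Z x1 x2 y1 y2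
  | .lf p v0 vu vd cs, c, x1, x2, y1, y2 => b1K c x1 x2 y1 y2 p v0 vu vd cs
  | .sk m l r, c, x1, x2, y1, y2 =>
      b1Q l ⟨c.m, c.k1, b1U m, c.a1, c.a2, c.c, c.Z⟩ x1 x2 y1 y2 &&
        b1Q r ⟨c.m, b1U m, c.k2, c.a1, c.a2, c.c, c.Z⟩ x1 x2 y1 y2
  | .ss m l r, c, x1, x2, y1, y2 =>
      b1Q l ⟨c.m, c.k1, c.k2, c.a1, b1U m, c.c, c.Z⟩ x1 x2 y1 y2 &&
        b1Q r ⟨c.m, c.k1, c.k2, b1U m, c.a2, c.c, c.Z⟩ x1 x2 y1 y2
  | .sx l r, c, x1, x2, y1, y2 => fI (mid x1 x2) fun m =>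
      b1Q l c x1 m y1 y2 && b1Q r c m x2 y1 y2
  | .sy l r, c, x1, x2, y1, y2 => fI (mid y1 y2) fun m =>
      b1Q l c x1 x2 y1 m && b1Q r c x1 x2 m y2

def b1Qs : List ℕ → List QT → Bool
  | [], _ => true
  | _ :: _, [] => false
  | n :: K, t :: T => (fI (b1Cl n).Z fun z => fI (-z) fun w => b1Q t (b1Cl n) w z w z) && b1Qs K T

section

variable {c : Cl} {x1 x2 y1 y2 m : ℤ}

theorem b1q_out {Z : ℤ} (h : outZ Z x1 x2 y1 y2 = true) {ζ : ℂ}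
    (h1 : InB ζ (x1, x2, y1, y2)) : toR Z < ‖ζ‖ := by
  refine not_le.1 fun h5 => ?_
  simp only [outZ, fI_eq] at h
  have b : ∀ (t : ℝ) (a b : ℤ), toR a ≤ t → t ≤ toR b →
      toR (mulD (maxI (maxI a (-b)) 0) (maxI (maxI a (-b)) 0)) ≤ t * t := fun t a b g1 g2 => by
    have d1 : 0 ≤ toR (maxI (maxI a (-b)) 0) := by
      rw [toR_maxI, toR_zero]
      exact le_max_right _ _
    have d2 : toR (maxI (maxI a (-b)) 0) ≤ |t| := by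
      rw [toR_maxI, toR_maxI, toR_zero, toR_neg]
      exact max_le (max_le (g1.trans (le_abs_self t)) ((neg_le_neg g2).trans (neg_le_abs t)))
        (abs_nonneg t)
    rw [← abs_mul_abs_self]
    exact mulD_le d1 d1 d2 d2
  have d3 := (mulU_le (norm_nonneg _) (norm_nonneg _) h5 h5).trans_lt (ltI_ok h)
  rw [toR_add, ← sq, ← normSq_eq_norm_sq, normSq_apply] at d3
  exact absurd (add_le_add (b _ _ _ h1.1 h1.2.1) (b _ _ _ h1.2.2.1 h1.2.2.2)) (not_le.2 d3)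

theorem b1K_ok {p : ℕ} {v0 vu vd cs : List ℕ} (h : b1K c x1 x2 y1 y2 p v0 vu vd cs = true) :
    c.Q x1 x2 y1 y2 := by
  intro X ζ h1 h2 h3 h4 hX hm h5 _
  unfold b1K at h
  obtain ⟨t0, h⟩ := Bool.and_eq_true_iff.1 h
  obtain ⟨_, _, _, h⟩ := b1Tr_ok h
  obtain ⟨_, h, a1⟩ := var_ok h
  obtain ⟨_, h, a2⟩ := var_ok h
  have b0 := toR_zero ▸ leI_ok t0
  have b1 := X.P.kap_nonneg
  obtain ⟨y0, g0, e0⟩ := exists_varVal (t := X.P.k2)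
    (by rw [← X.P.kap_sq, sq]; exact mulD_le b0 b0 h1 h1)
    (by rw [← X.P.kap_sq, sq]; exact mulU_le b1 b1 h2 h2)
  obtain ⟨y1, g1, e1⟩ := exists_varVal h3 h4
  obtain ⟨p1, p2, q1, q2, c3, c4 | ⟨_, _, _, _, _, _, _, _, _, _, c4, -, -, -, -, c5, -⟩⟩ :=
    cdCover_ok (x := ⟨y0, y1, 0, 0, g0, g1, by simp, by simp⟩) hX
    (fun y hy y' hy' => by rw [← e0]; exact a1 _) (fun y hy y' hy' => by rw [← e1]; exact a2 _)
    hm h
  · exact absurd h5 (not_le.2 (b1q_out c4 c3))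
  · obtain ⟨_, _, c4⟩ := cen_ok c4
    obtain ⟨_, c4, c6⟩ := mulc_ok c4
    obtain ⟨_, c4, c7⟩ := lo_ok c4
    refine X.S_top fun h0 => ?_
    have := (toR_zero ▸ ltI_ok c4).trans_le (c7 _ _ (c6 _ _ c5))
    simp [h0] at this

theorem Cl.vacQ_ok (h : c.vacQ x2 = true) : c.Q x1 x2 y1 y2 := by
  intro X ζ h1 h2 h3 h4 hX hm h5 h6
  rw [Cl.vacQ, Bool.and_eq_true] at h
  refine Cl.vacC_ok h.2 X ζ h1 h2 h3 h4 hX.m2 hX.L hX.v h5 ?_
  have a0 := toR_zero ▸ leI_ok h.1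
  have a1 := a0.trans h3
  have hk := X.P.kap_nonneg
  have hv : X.P.vre = 2 * X.P.kap * (X.c1 * X.c1 * ζ.re) := by
    have := congrArg Complex.re hX.v
    rw [← ofReal_ofNat, ← ofReal_pow, ← ofReal_mul, ← ofReal_mul, re_ofReal_mul] at this
    rw [show X.P.vre = (X.P.v X.T).re from rfl, this]
    ring
  have hx : ζ.re ≤ toR x2 := hm.2.1
  change _ ≤ _ * toR (minI _ _)
  rw [toR_minI, mul_min_of_nonneg _ _ (by positivity), le_min_iff]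
  refine ⟨h6, hv.trans_le (mul_le_mul_of_nonneg_left ?_ (by positivity))⟩
  refine (mul_le_mul_of_nonneg_left hx (mul_nonneg a1 a1)).trans ?_
  cases e : leI 0 x2
  · have b1 : toR x2 ≤ 0 := toR_zero ▸ (leI_false e).le
    have b2 := mulD_le (mulD_nonneg a0 a0) (b := -x2) (by rw [toR_neg]; linarith)
      (mulD_le a0 a0 h3 h3) le_rfl
    rw [cond_false, toR_neg] at *
    linarith
  · exact mulU_le (mul_nonneg a1 a1) (toR_zero ▸ leI_ok e) (mulU_le a1 a1 h4 h4) le_rfl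

theorem Cl.Q.sk (h : Cl.Q ⟨c.m, c.k1, m, c.a1, c.a2, c.c, c.Z⟩ x1 x2 y1 y2)
    (h' : Cl.Q ⟨c.m, m, c.k2, c.a1, c.a2, c.c, c.Z⟩ x1 x2 y1 y2) : c.Q x1 x2 y1 y2 :=
  fun X ζ h1 h2 => (le_total X.P.kap (toR m)).elim (fun g => h X ζ h1 g) fun g => h' X ζ g h2

theorem Cl.Q.ss (h : Cl.Q ⟨c.m, c.k1, c.k2, c.a1, m, c.c, c.Z⟩ x1 x2 y1 y2)
    (h' : Cl.Q ⟨c.m, c.k1, c.k2, m, c.a2, c.c, c.Z⟩ x1 x2 y1 y2) : c.Q x1 x2 y1 y2 :=
  fun X ζ h1 h2 h3 h4 => (le_total X.c1 (toR m)).elim (fun g => h X ζ h1 h2 h3 g)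
    fun g => h' X ζ h1 h2 g h4

theorem Cl.Q.sx (h : c.Q x1 m y1 y2) (h' : c.Q m x2 y1 y2) : c.Q x1 x2 y1 y2 :=
  fun X ζ h1 h2 h3 h4 h5 h6 => (le_total ζ.re (toR m)).elim
    (fun g => h X ζ h1 h2 h3 h4 h5 ⟨h6.1, g, h6.2.2⟩) fun g => h' X ζ h1 h2 h3 h4 h5 ⟨g, h6.2⟩

theorem Cl.Q.sy (h : c.Q x1 x2 y1 m) (h' : c.Q x1 x2 m y2) : c.Q x1 x2 y1 y2 :=
  fun X ζ h1 h2 h3 h4 h5 h6 => (le_total ζ.im (toR m)).elim
    (fun g => h X ζ h1 h2 h3 h4 h5 ⟨h6.1, h6.2.1, h6.2.2.1, g⟩)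
    fun g => h' X ζ h1 h2 h3 h4 h5 ⟨h6.1, h6.2.1, g, h6.2.2.2⟩

theorem b1Q_ok {t : QT} (h : b1Q t c x1 x2 y1 y2 = true) : c.Q x1 x2 y1 y2 := by
  induction t generalizing c x1 x2 y1 y2 with
  | vac => exact Cl.vacQ_ok h
  | out => exact fun X ζ _ _ _ _ _ h1 h2 => absurd h2 (not_le.2 (b1q_out h h1))
  | lf => exact b1K_ok h
  | sk m l r i j => exact Cl.Q.sk (i (Bool.and_eq_true_iff.1 h).1) (j (Bool.and_eq_true_iff.1 h).2)
  | ss m l r i j => exact Cl.Q.ss (i (Bool.and_eq_true_iff.1 h).1) (j (Bool.and_eq_true_iff.1 h).2)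
  | sx l r i j =>
    rw [b1Q, fI_eq, Bool.and_eq_true] at h
    exact Cl.Q.sx (i h.1) (j h.2)
  | sy l r i j =>
    rw [b1Q, fI_eq, Bool.and_eq_true] at h
    exact Cl.Q.sy (i h.1) (j h.2)

theorem Cl.Q.fin (h : c.Q (-c.Z) c.Z (-c.Z) c.Z) : c.C := fun X ζ h1 h2 h3 h4 h5 h6 h7 h8 => by
  have c1 := abs_le.1 ((abs_re_le_norm ζ).trans h8)
  have c2 := abs_le.1 ((abs_im_le_norm ζ).trans h8)
  exact h X ζ h1 h2 h3 h4 ⟨h5, h6, h7⟩ ⟨toR_neg c.Z ▸ c1.1, c1.2, toR_neg c.Z ▸ c2.1, c2.2⟩ h8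

theorem B1C.ofQ {K : List ℕ} {T : List QT} (h : b1Qs K T = true) : B1C K := by
  induction K generalizing T with
  | nil => exact B1C.nil
  | cons n K ih =>
    cases T with
    | nil => exact Bool.noConfusion h
    | cons t T =>
      rw [b1Qs, fI_eq, fI_eq, Bool.and_eq_true] at h
      exact B1C.cons (Cl.Q.fin (b1Q_ok h.1)) (ih h.2)

end

end Pool.Agent.Sok
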