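import Pool.Agent.MP_97ada9_an.Reduce

/-! Definitions shared by the asymptotic part and the small variance part. -/

namespace Pool.Agent.Sok

open Pool.Agent.MP_97ada9_an Finset

/-- At most one root on each circle of variance at least seven, for degree at least forty. -/
def Asym : Prop :=
  ∀ N : ℕ, 40 ≤ N → ∀ q z w : ℂ, ‖q‖ = 1 → q ≠ 1 → pc q N z = 0 → pc q N w = 0 → ‖z‖ = ‖w‖ →
    7 ≤ N * ‖z‖ / (1 + ‖z‖) ^ 2 → z = w

/-- A rational parametrisation of the unit circle. -/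
noncomputable def qq (τ : ℂ) : ℂ := ((1 + Complex.I * τ) / (1 - Complex.I * τ)) ^ 2

/-- The centred exponent (n - c) (n - c - 1) / 2. -/
def ex (c n : ℕ) : ℕ := if n ≤ c then (c - n + 1).choose 2 else (n - c).choose 2

/-- The centred polynomial. -/
noncomputable def gc (q : ℂ) (N c : ℕ) (w : ℂ) : ℂ :=
  ∑ n ∈ range (N + 1), (N.choose n : ℂ) * q ^ ex c n * w ^ n

/-- Its derivative. -/
noncomputable def gd (q : ℂ) (N c : ℕ) (w : ℂ) : ℂ :=
  ∑ n ∈ range (N + 1), (N.choose n : ℂ) * q ^ ex c n * (n * w ^ (n - 1))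

/-- ζ is a root and fewer than J roots have smaller modulus. -/
def Cnt (q : ℂ) (N J : ℕ) (ζ : ℂ) : Prop :=
  pc q N ζ = 0 ∧ {z | pc q N z = 0 ∧ ‖z‖ < ‖ζ‖}.ncard < J

end Pool.Agent.Sok
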