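import Pool.Agent.Sok.Par
import Pool.Agent.Sok.Defs

/-! The Gauss sum decomposition near a root of unity and the reduction of `Asym` to `Uniq`. -/

set_option autoImplicit false

namespace Pool.Agent.Sok

open Complex Set Filter Topology Pool.Agent.MP_97ada9_an

/-- a short primitive vector of the lattice spanned by `1` and `x + i y` -/
theorem za_short (x y : ℝ) (hy : 0 < y) : ∃ c d : ℤ, IsCoprime c d ∧
    1.732 * ((c * x + d) ^ 2 + (c * y) ^ 2) ≤ 2 * y := by
  let τ : UpperHalfPlane := ⟨⟨x, y⟩, hy⟩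
  obtain ⟨g, hg⟩ := ModularGroup.exists_smul_mem_fd τ
  have h1 := ModularGroup.three_le_four_mul_im_sq_of_mem_fd hg
  have h2 := ModularGroup.im_smul_eq_div_normSq g τ
  have h3 := (g • τ).im_pos
  have h4 : normSq (UpperHalfPlane.denom g τ) = (g 1 0 * x + g 1 1) ^ 2 + (g 1 0 * y) ^ 2 := by
    rw [ModularGroup.denom_apply, normSq_apply]
    simp [τ]
    ring
  have h5 : 0 < normSq (UpperHalfPlane.denom g τ) := UpperHalfPlane.normSq_denom_pos _ τ.im_ne_zero
  have h6 : 0.866 ≤ (g • τ).im := by nlinarith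
  refine ⟨g 1 0, g 1 1, ModularGroup.bottom_row_coprime g, ?_⟩
  rw [h2, le_div_iff₀ h5, h4] at h6
  have : τ.im = y := rfl
  linarith

/-- a fraction close to the angle -/
theorem exists_frac (θ s : ℝ) (hs : 7 ≤ s) : ∃ (a : ℤ) (b : ℕ), 1 ≤ b ∧ IsCoprime a (b : ℤ) ∧
    5.44 * (1 + ((θ - 2 * Real.pi * a / b) * s) ^ 2) ≤ s * (2 * Real.pi / b) ^ 2 := by
  have hπ := Real.pi_gt_d4
  have hs0 : 0 < s := by linarith
  have hπ0 := Real.pi_pos
  have key : ∀ c d : ℤ, 0 < c → IsCoprime c d →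
      1.732 * ((c * (θ / (2 * Real.pi)) + d) ^ 2 + (c * (1 / (2 * Real.pi * s))) ^ 2) ≤
        2 * (1 / (2 * Real.pi * s)) → ∃ (a : ℤ) (b : ℕ), 1 ≤ b ∧ IsCoprime a (b : ℤ) ∧
      5.44 * (1 + ((θ - 2 * Real.pi * a / b) * s) ^ 2) ≤ s * (2 * Real.pi / b) ^ 2 := by
    intro c d hc hcd h
    obtain ⟨b, rfl⟩ := Int.eq_ofNat_of_zero_le hc.le
    have hb : 0 < b := by exact_mod_cast hc
    have hb' : (0 : ℝ) < b := by exact_mod_cast hb
    refine ⟨-d, b, hb, hcd.symm.neg_left, ?_⟩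
    set X := (θ - 2 * Real.pi * ((-d : ℤ) : ℝ) / b) * s with hX
    have e : (((b : ℤ) : ℝ) * (θ / (2 * Real.pi)) + d) ^ 2 +
        (((b : ℤ) : ℝ) * (1 / (2 * Real.pi * s))) ^ 2 =
          (b / (2 * Real.pi * s)) ^ 2 * (1 + X ^ 2) := by
      rw [hX]
      push_cast
      field_simp
      ring
    rw [e] at h
    have h2 := mul_le_mul_of_nonneg_right h
      (show 0 ≤ Real.pi * (2 * Real.pi * s / b) ^ 2 by positivity)
    have e1 : 1.732 * ((b / (2 * Real.pi * s)) ^ 2 * (1 + X ^ 2)) *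
        (Real.pi * (2 * Real.pi * s / b) ^ 2) = 1.732 * Real.pi * (1 + X ^ 2) := by
      field_simp
    have e2 : 2 * (1 / (2 * Real.pi * s)) * (Real.pi * (2 * Real.pi * s / b) ^ 2) =
        s * (2 * Real.pi / b) ^ 2 := by
      field_simp
    rw [e1, e2] at h2
    have : 0 < 1 + X ^ 2 := by positivity
    nlinarith
  obtain ⟨c, d, hcd, h⟩ := za_short (θ / (2 * Real.pi)) (1 / (2 * Real.pi * s)) (by positivity)
  rcases lt_trichotomy c 0 with hc | hc | hc
  · refine key (-c) (-d) (by omega) hcd.neg_neg ?_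
    push_cast
    refine le_trans (le_of_eq ?_) h
    ring
  · exfalso
    subst hc
    have hd : d = 1 ∨ d = -1 := Int.isUnit_iff.1 (isCoprime_zero_left.1 hcd)
    have h1 : 1 / (2 * Real.pi * s) ≤ 1 / 2 :=
      one_div_le_one_div_of_le (by norm_num) (by nlinarith)
    rcases hd with rfl | rfl <;> norm_num at h h1 <;> linarith
  · exact key c d hc hcd h

/-- the sum of a periodic function over a shifted window -/
theorem za_window {f : ℤ → ℂ} {b : ℕ} (hf : ∀ k, f (k + b) = f k) (s : ℤ) :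
    ∑ k ∈ Finset.range b, f (k + s) = ∑ k ∈ Finset.range b, f k := by
  have W : ∀ m : ℤ, ∑ k ∈ Finset.range b, f (k + (m + 1)) = ∑ k ∈ Finset.range b, f (k + m) := by
    intro m
    have h1 := Finset.sum_range_succ (fun k : ℕ => f (k + m)) b
    have h2 := Finset.sum_range_succ' (fun k : ℕ => f (k + m)) b
    have h3 := hf m
    simp only [Nat.cast_add, Nat.cast_one, Nat.cast_zero, zero_add, add_assoc, add_comm 1 m] at h2
    rw [add_comm m] at h3
    linear_combination h1 - h2 + h3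
  induction s using Int.induction_on with
  | zero => simp
  | succ n ih => rw [W, ih]
  | pred n ih => rw [← ih, ← W (-(n : ℤ) - 1), sub_add_cancel]

theorem za_exp {x y : ℂ} (n : ℤ) (h : x = y + n * (2 * Real.pi * I)) : exp x = exp y := by
  rw [h, exp_add, exp_int_mul_two_pi_mul_I, mul_one]

/-- the quadratic phase -/
noncomputable def zaY (α : ℤ) (b : ℕ) (k : ℤ) : ℂ := exp (I * Real.pi * α * k * (k + b) / b)

theorem zaY_per (α : ℤ) {b : ℕ} (hb : 1 ≤ b) (k : ℤ) : zaY α b (k + b) = zaY α b k := by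
  have hb' : (b : ℂ) ≠ 0 := Nat.cast_ne_zero.2 (by omega)
  refine za_exp (α * (k + b)) ?_
  push_cast
  field_simp
  ring

/-- completing the square -/
theorem zaY_mul {α a m : ℤ} {b : ℕ} (hb : 1 ≤ b) (h : α * a = -1 + m * b) (k : ℤ) (n : ℕ) :
    zaY α b k * exp (-(2 * Real.pi * I * k * n / b)) =
      zaY α b (k + a * n) * exp (2 * Real.pi * I * a / b * (n.choose 2 : ℕ) +
        I * (Real.pi * a / b - Real.pi * (m * a + m * b - 1)) * n) := by
  have hb' : (b : ℂ) ≠ 0 := Nat.cast_ne_zero.2 (by omega)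
  have h' : (α : ℂ) * a = -1 + m * b := by exact_mod_cast h
  have h2 : ((n.choose 2 : ℕ) : ℂ) = n * (n - 1) / 2 := Nat.cast_choose_two ℂ n
  unfold zaY
  rw [← exp_add, ← exp_add]
  refine za_exp (-(m * k * n + m * a * (n.choose 2 : ℕ))) ?_
  push_cast
  rw [h2]
  field_simp
  linear_combination (-(2 * k * n + a * n ^ 2 + b * n)) * h'

theorem za_norm (x : ℝ) : ‖exp (I * x)‖ = 1 := by rw [mul_comm, norm_exp_ofReal_mul_I]

/-- the Gauss sum decomposition -/
theorem zak (P : Par) (a : ℤ) (b : ℕ) (hb : 1 ≤ b) (hab : IsCoprime a (b : ℤ)) :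
    ∃ χ : ℤ → ℂ, (∀ k, ‖χ k‖ = 1) ∧ ∃ (K : ℂ → ℝ) (u : ℂ → ℂ),
      (∀ z, ‖z‖ = P.p / (1 - P.p) →
        pc (exp (I * (2 * Real.pi * a / b + P.δ))) P.N z = 0 →
          0 ≤ K z ∧ K z < 1 ∧ P.ZZ b χ (K z) (u z)) ∧
      ∀ z w, ‖z‖ = P.p / (1 - P.p) → ‖w‖ = P.p / (1 - P.p) → K z = K w → u z = u w → z = w := by
  obtain ⟨a', m, ham⟩ := hab
  have h : (-a') * a = -1 + m * b := by linear_combination -ham
  set α := -a' with hα
  have hb0 : (0 : ℝ) < b := by exact_mod_cast hb
  have hb' : (b : ℂ) ≠ 0 := Nat.cast_ne_zero.2 (by omega)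
  have hπ := Real.pi_pos
  have hπ' : (Real.pi : ℂ) ≠ 0 := ofReal_ne_zero.2 hπ.ne'
  have hp1 : 0 < 1 - P.p := by linarith [P.hp]
  set φ : ℝ := Real.pi * a / b - Real.pi * (m * a + m * b - 1) with hφ
  set T : ℂ → ℝ := fun z => (arg z - φ - P.δ / 2 + P.δ * (P.N * P.p)) * b / (2 * Real.pi) with hT
  refine ⟨fun k => zaY α b k * exp (-(2 * Real.pi * I * k * (P.N * P.p) / b)), fun k => ?_,
    fun z => Int.fract (T z), fun z => exp (2 * Real.pi * I * α * ⌊T z⌋ / b), ?_, ?_⟩
  · unfold zaY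
    beta_reduce
    rw [← exp_add, ← za_norm (Real.pi * α * k * (k + b) / b - 2 * Real.pi * k * (P.N * P.p) / b)]
    congr 2
    push_cast
    ring
  · intro z hz h0
    refine ⟨Int.fract_nonneg _, Int.fract_lt_one _, ?_, fun k => ?_, ?_⟩
    · beta_reduce
      rw [← za_norm (2 * Real.pi * α * ⌊T z⌋ / b)]
      congr 2
      push_cast
      ring
    · simp only [zaY_per α hb]
      rw [← exp_int_mul, ← exp_int_mul, mul_assoc (zaY α b k), mul_assoc (zaY α b k),
        mul_assoc (zaY α b k), ← exp_add, ← exp_add, ← exp_add]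
      congr 1
      refine za_exp (α * ⌊T z⌋) ?_
      push_cast
      field_simp
      ring
    · set j := ⌊T z⌋ with hj
      set G := ∑ k ∈ Finset.range b, zaY α b k with hG
      set C0 : ℂ := P.δ * (P.N * P.p) ^ 2 / 2 - P.δ * (P.N * P.p) / 2 +
        (arg z - φ) * (P.N * P.p) with hC0
      have hz' : z = (P.p / (1 - P.p) : ℝ) * exp (arg z * I) := by
        rw [← hz, norm_mul_exp_arg_mul_I]
      have hp' : (1 - (P.p : ℂ)) ≠ 0 := by exact_mod_cast hp1.ne'
      have hfr : ((Int.fract (T z) : ℝ) : ℂ) =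
          (arg z - φ - P.δ / 2 + P.δ * (P.N * P.p)) * b / (2 * Real.pi) - j := by
        rw [Int.fract, ← hj, hT]
        push_cast
        ring
      have main : zaY α b j * exp (-(2 * Real.pi * I * j * (P.N * P.p) / b)) * exp (I * C0) *
          ∑ k ∈ Finset.range b, zaY α b k * exp (-(2 * Real.pi * I * (k : ℤ) * (P.N * P.p) / b)) *
            exp (2 * Real.pi * I * α * j / b) ^ k *
              P.S ((Int.fract (T z) - k) * (2 * Real.pi / b)) =
          G * (1 - P.p) ^ P.N * pc (exp (I * (2 * Real.pi * a / b + P.δ))) P.N z := by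
        unfold Par.S pc
        simp only [Finset.mul_sum]
        rw [Finset.sum_comm]
        refine Finset.sum_congr rfl fun n hn => ?_
        have hn' : n ≤ P.N := Nat.lt_succ_iff.1 (Finset.mem_range.1 hn)
        rw [hG, ← za_window (zaY_per α hb) (j + a * n), Finset.sum_mul, Finset.sum_mul]
        refine Finset.sum_congr rfl fun k _ => ?_
        have h1 := zaY_mul hb h (k + j) n
        have h2 : ((n.choose 2 : ℕ) : ℂ) = n * (n - 1) / 2 := Nat.cast_choose_two ℂ n
        have h3 : (1 - (P.p : ℂ)) ^ P.N * z ^ n =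
            (1 - P.p) ^ (P.N - n) * P.p ^ n * exp (n * (arg z * I)) := by
          conv_lhs => rw [hz', ← Nat.sub_add_cancel hn', pow_add, mul_pow, ← exp_nat_mul]
          push_cast
          rw [div_pow]
          field_simp
        have h4 : zaY α b j * exp (-(2 * Real.pi * I * j * (P.N * P.p) / b)) * exp (I * C0) *
            (zaY α b k * exp (-(2 * Real.pi * I * (k : ℤ) * (P.N * P.p) / b)) *
              exp (2 * Real.pi * I * α * j / b) ^ k *
              exp (I * P.δ * (n - P.N * P.p) ^ 2 / 2 +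
                I * ((Int.fract (T z) - k) * (2 * Real.pi / b) : ℝ) * (n - P.N * P.p))) =
            zaY α b (k + j) * exp (-(2 * Real.pi * I * (k + j : ℤ) * n / b)) *
              exp (I * P.δ * (n.choose 2 : ℕ) + n * (arg z * I) - I * φ * n) := by
          unfold zaY
          simp only [← exp_nat_mul, ← exp_add]
          congr 1
          push_cast
          rw [hfr, h2, hC0]
          field_simp
          ring
        have h5 : exp (2 * Real.pi * I * a / b * (n.choose 2 : ℕ) +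
            I * (Real.pi * a / b - Real.pi * (m * a + m * b - 1)) * n) *
              exp (I * P.δ * (n.choose 2 : ℕ) + n * (arg z * I) - I * φ * n) =
            exp (I * (2 * Real.pi * a / b + P.δ)) ^ n.choose 2 * exp (n * (arg z * I)) := by
          simp only [← exp_nat_mul, ← exp_add]
          congr 1
          rw [hφ]
          push_cast
          ring
        rw [h1, mul_assoc (zaY α b (k + j + a * n)), h5, add_assoc (k : ℤ)] at h4
        linear_combination ((P.N.choose n : ℂ) * (1 - P.p) ^ (P.N - n) * P.p ^ n) * h4 -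
          zaY α b (k + (j + a * n)) * (P.N.choose n : ℂ) *
            exp (I * (2 * Real.pi * a / b + P.δ)) ^ n.choose 2 * h3
      rw [h0, mul_zero] at main
      refine (mul_eq_zero.1 main).resolve_left ?_
      unfold zaY
      exact mul_ne_zero (mul_ne_zero (exp_ne_zero _) (exp_ne_zero _)) (exp_ne_zero _)
  · intro z w hz hw hK hu
    obtain ⟨n, hn⟩ := exp_eq_exp_iff_exists_int.1 hu
    have h1 : α * ⌊T z⌋ = α * ⌊T w⌋ + n * b := by
      have : (α : ℂ) * ⌊T z⌋ = α * ⌊T w⌋ + n * b := by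
        field_simp at hn
        linear_combination hn
      exact_mod_cast this
    have h2 : ⌊T z⌋ = ⌊T w⌋ + (m * (⌊T z⌋ - ⌊T w⌋) - a * n) * b := by
      linear_combination (⌊T z⌋ - ⌊T w⌋) * h - a * h1
    generalize m * (⌊T z⌋ - ⌊T w⌋) - a * n = l at h2
    have h3 : T z = T w + l * b := by
      have e : (⌊T z⌋ : ℝ) = ⌊T w⌋ + l * b := by exact_mod_cast h2
      have hK' : T z - ⌊T z⌋ = T w - ⌊T w⌋ := hK
      linarith
    have h4 : arg z = arg w + l * (2 * Real.pi) := by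
      simp only [hT] at h3
      field_simp at h3
      linarith
    rw [← norm_mul_exp_arg_mul_I z, ← norm_mul_exp_arg_mul_I w, hz, hw]
    congr 1
    refine za_exp l ?_
    rw [h4]
    push_cast
    ring

/-- the reversed polynomial -/
theorem za_rev {q z : ℂ} (hq : q ≠ 0) (N : ℕ) (hN : 1 ≤ N) (h : pc q N z = 0) :
    pc q N (q ^ (N - 1) * z)⁻¹ = 0 := by
  have hz := pc_ne h
  have e : q ^ N.choose 2 * z ^ N * pc q N (q ^ (N - 1) * z)⁻¹ = pc q N z := by
    unfold pc
    rw [Finset.mul_sum, ← Finset.sum_flip]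
    refine Finset.sum_congr rfl fun n hn => ?_
    have hn' : n ≤ N := Nat.lt_succ_iff.1 (Finset.mem_range.1 hn)
    obtain ⟨k, rfl⟩ := Nat.exists_eq_add_of_le hn'
    have e1 : n + k - n = k := by omega
    have e2 : (n + k).choose 2 + k.choose 2 = n.choose 2 + (n + k - 1) * k := by
      have a1 := choose_two_add n k
      have a2 := two_choose k
      obtain ⟨t, ht⟩ : ∃ t, n + k = t + 1 := ⟨n + k - 1, by omega⟩
      have a3 : n + k - 1 = t := by omega
      rw [a3]
      nlinarith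
    have e3 : q ^ (n + k).choose 2 * q ^ k.choose 2 = q ^ n.choose 2 * (q ^ (n + k - 1)) ^ k := by
      rw [← pow_add, e2, pow_add, pow_mul]
    rw [e1, Nat.choose_symm_add, inv_pow, mul_pow, pow_add z]
    have : (q ^ (n + k - 1)) ^ k ≠ 0 := pow_ne_zero _ (pow_ne_zero _ hq)
    field_simp
    linear_combination ((n + k).choose k : ℂ) * e3
  rw [h] at e
  exact (mul_eq_zero.1 e).resolve_left (mul_ne_zero (pow_ne_zero _ hq) (pow_ne_zero _ hz))

theorem za_conj (q z : ℂ) (N : ℕ) :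
    pc ((starRingEnd ℂ) q) N ((starRingEnd ℂ) z) = (starRingEnd ℂ) (pc q N z) := by
  simp [pc]

/-- the reduction to the relaxed equation -/
theorem asym_of_uniq (h : ∀ (P : Par) (b : ℕ), 1 ≤ b → 5.44 ≤ P.ka * (2 * Real.pi / b) ^ 2 →
    (b = 1 → 0 < P.δ) → P.Uniq b) : Asym := by
  have h1 : ∀ (P : Par) (a : ℤ) (b : ℕ), 1 ≤ b → IsCoprime a (b : ℤ) →
      5.44 * (1 + (P.δ * P.s2) ^ 2) ≤ P.s2 * (2 * Real.pi / b) ^ 2 → ∀ q z w : ℂ,
      q = exp (I * (2 * Real.pi * a / b + P.δ)) → q ≠ 1 → pc q P.N z = 0 → pc q P.N w = 0 →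
      ‖z‖ = P.p / (1 - P.p) → ‖w‖ = P.p / (1 - P.p) → z = w := by
    intro P a b hb hab hk q z w hq hq1 hz hw nz nw
    obtain ⟨χ, hχ, K, u, k1, k2⟩ := zak P a b hb hab
    have hU : P.Uniq b := by
      refine h P b hb ?_ fun e => P.hδ.lt_of_ne fun e0 => hq1 ?_
      · have pos : 0 < 1 + P.lam ^ 2 := by positivity
        have e : P.ka = P.s2 / (1 + P.lam ^ 2) := by
          unfold Par.ka Par.cg
          rw [div_pow, Real.sq_sqrt pos.le]
          ring
        rw [e, div_mul_eq_mul_div, le_div_iff₀ pos]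
        exact hk
      · rw [hq, ← e0, e, ← exp_zero]
        refine za_exp a ?_
        push_cast
        ring
    subst hq
    obtain ⟨a1, a2, a3⟩ := k1 z nz hz
    obtain ⟨b1, b2, b3⟩ := k1 w nw hw
    obtain ⟨c1, c2⟩ := hU χ hχ _ _ _ _ a1 a2 b1 b2 a3 b3
    exact k2 z w nz nw c1 c2
  have h2 : ∀ N : ℕ, 40 ≤ N → ∀ q z w : ℂ, ‖q‖ = 1 → q ≠ 1 → pc q N z = 0 → pc q N w = 0 →
      ‖z‖ = ‖w‖ → 7 ≤ N * ‖z‖ / (1 + ‖z‖) ^ 2 → ‖z‖ ≤ 1 → z = w := by
    intro N hN q z w hq hq1 hz hw hzw hs hr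
    have r0 : 0 < ‖z‖ := norm_pos_iff.2 (pc_ne hz)
    set r := ‖z‖ with hrdef
    have p0 : 0 < r / (1 + r) := by positivity
    have p1 : r / (1 + r) ≤ 1 / 2 := by
      rw [div_le_div_iff₀ (by positivity) (by norm_num)]
      linarith
    have p2 : 7 ≤ N * (r / (1 + r)) * (1 - r / (1 + r)) := by
      refine hs.trans (le_of_eq ?_)
      field_simp
      ring
    have p3 : r = r / (1 + r) / (1 - r / (1 + r)) := by
      field_simp
      ring
    obtain ⟨a, b, hb, hab, hk⟩ := exists_frac (arg q) _ p2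
    have hq' : q = exp (arg q * I) := by
      conv_lhs => rw [← norm_mul_exp_arg_mul_I q, hq, ofReal_one, one_mul]
    rcases le_total 0 (arg q - 2 * Real.pi * a / b) with hd | hd
    · refine h1 ⟨N, r / (1 + r), _, hN, p0, p1, hd, p2⟩ a b hb hab hk q z w ?_ hq1 hz hw p3
        (hzw.symm.trans p3)
      refine hq'.trans ?_
      congr 1
      push_cast
      ring
    · refine (starRingEnd ℂ).injective ?_
      refine h1 ⟨N, r / (1 + r), -(arg q - 2 * Real.pi * a / b), hN, p0, p1, neg_nonneg.2 hd, p2⟩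
        (-a) b hb hab.neg_left ?_ ((starRingEnd ℂ) q) _ _ ?_ ?_ ?_ ?_ ?_ ?_
      · refine le_trans (le_of_eq ?_) hk
        unfold Par.s2
        ring
      · refine (congrArg _ hq').trans ?_
        rw [← exp_conj]
        congr 1
        simp only [map_mul, conj_ofReal, conj_I]
        push_cast
        ring
      · exact fun e => hq1 (by simpa using congrArg (starRingEnd ℂ) e)
      · rw [za_conj, hz, map_zero]
      · rw [za_conj, hw, map_zero]
      · rw [norm_conj]
        exact p3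
      · rw [norm_conj]
        exact hzw.symm.trans p3
  intro N hN q z w hq hq1 hz hw hzw hs
  rcases le_total ‖z‖ 1 with hr | hr
  · exact h2 N hN q z w hq hq1 hz hw hzw hs hr
  have q0 : q ≠ 0 := fun e => by simp [e] at hq
  have r0 : 0 < ‖z‖ := by linarith
  have n1 : ∀ x : ℂ, ‖(q ^ (N - 1) * x)⁻¹‖ = ‖x‖⁻¹ := fun x => by simp [hq]
  have := h2 N hN q _ _ hq hq1 (za_rev q0 N (by omega) hz) (za_rev q0 N (by omega) hw)
    (by rw [n1, n1, hzw]) (by
      rw [n1]
      refine hs.trans (le_of_eq ?_)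
      field_simp
      ring) (by rw [n1]; exact inv_le_one_of_one_le₀ hr)
  exact mul_left_cancel₀ (pow_ne_zero _ q0) (inv_injective this)

/-- the abscissae of the cuts -/
noncomputable def cutx (k0 : ℤ) (xl xc xu : ℝ) (k : ℤ) : ℝ :=
  if k0 < k then xu else if k < k0 then xl else xc

/-- the sum of a periodic function over a window of length `b` -/
theorem zb_window {f : ℤ → ℂ} {b : ℕ} (hf : ∀ k, f (k + b) = f k) (mU : ℕ) : ∀ mL : ℕ,
    mU + mL = b → ∑ j ∈ Finset.range mU, f (-j) + ∑ j ∈ Finset.range mL, f (j + 1) =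
      ∑ k ∈ Finset.range b, f k := by
  induction mU with
  | zero =>
    intro mL h
    have e : mL = b := by omega
    subst e
    have h1 := Finset.sum_range_succ (fun k : ℕ => f k) mL
    have h2 := Finset.sum_range_succ' (fun k : ℕ => f k) mL
    have h3 := hf 0
    simp only [zero_add] at h3
    simp only [Nat.cast_add, Nat.cast_one, Nat.cast_zero] at h2
    simp only [Finset.range_zero, Finset.sum_empty, zero_add]
    linear_combination h1 - h2 + h3
  | succ m ih =>
    intro mL h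
    have h1 := ih (mL + 1) (by omega)
    rw [Finset.sum_range_succ] at h1
    rw [Finset.sum_range_succ, ← h1]
    have h2 := hf (-m)
    have e : (-(m : ℤ) + b) = mL + 1 := by omega
    rw [e] at h2
    linear_combination -h2

/-- the complete term of index `k` -/
noncomputable def zbT (P : Par) (b : ℕ) (χ : ℤ → ℂ) (κ : ℝ) (u : ℂ) (k : ℤ) : ℂ :=
  χ k * u ^ k * P.cF ((κ - k) * (2 * Real.pi / b))

theorem zbT_per (P : Par) {b : ℕ} {χ : ℤ → ℂ} {κ : ℝ} {u : ℂ} (h : P.ZZ b χ κ u) (k : ℤ) :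
    zbT P b χ κ u (k + b) = zbT P b χ κ u k := by
  rcases Nat.eq_zero_or_pos b with hb | hb
  · subst hb
    simp
  have hb' : (b : ℝ) ≠ 0 := by positivity
  have e : (κ - k) * (2 * Real.pi / b) =
      (κ - ((k + b : ℤ) : ℝ)) * (2 * Real.pi / b) + 2 * Real.pi * ((1 : ℤ) : ℝ) := by
    push_cast
    field_simp
    ring
  unfold zbT Par.cF
  rw [h.2.1 k, e, P.S_period]
  simp only [Int.cast_one, mul_one]
  ring

theorem zbT_sum (P : Par) {b : ℕ} {χ : ℤ → ℂ} {κ : ℝ} {u : ℂ} (h : P.ZZ b χ κ u) :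
    ∑ k ∈ Finset.range b, zbT P b χ κ u k = 0 := by
  have h1 := h.2.2
  have : ∑ k ∈ Finset.range b, zbT P b χ κ u k =
      (1 + I) * (Real.sqrt (Real.pi / P.cg) : ℝ) *
        ∑ k ∈ Finset.range b, χ k * u ^ k * P.S ((κ - k) * (2 * Real.pi / b)) := by
    rw [Finset.mul_sum]
    refine Finset.sum_congr rfl fun k _ => ?_
    unfold zbT Par.cF
    simp only [zpow_natCast, Int.cast_natCast]
    ring
  rw [this, h1, mul_zero]

/-- the primitive of index `k` at the point `w` -/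
noncomputable def zbH (P : Par) (b : ℕ) (χ : ℤ → ℂ) (κ : ℝ) (u : ℂ) (k : ℤ) (w : ℂ) : ℂ :=
  χ k * u ^ k * P.cV ((κ - k) * (2 * Real.pi / b)) (0, 0) (P.V ((κ - k) * (2 * Real.pi / b)) w)

theorem zbH_shift (P : Par) (hδ : 0 < P.δ) {b : ℕ} (hb : 1 ≤ b) {χ : ℤ → ℂ} {κ : ℝ} {u : ℂ}
    (h : P.ZZ b χ κ u) (k : ℤ) (w : ℂ) :
    zbH P b χ κ u (k + b) w = zbH P b χ κ u k (w + 2 * Real.pi * I) := by
  have hb' : (b : ℝ) ≠ 0 := by positivity
  have e : (κ - ((k + b : ℤ) : ℝ)) * (2 * Real.pi / b) =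
      (κ - k) * (2 * Real.pi / b) - 2 * Real.pi := by
    push_cast
    field_simp
    ring
  unfold zbH
  rw [h.2.1 k, e, P.cV_shift hδ]
  ring

theorem zbH_iter (P : Par) (hδ : 0 < P.δ) {b : ℕ} (hb : 1 ≤ b) {χ : ℤ → ℂ} {κ : ℝ} {u : ℂ}
    (h : P.ZZ b χ κ u) (j : ℕ) : ∀ (k : ℤ) (w : ℂ),
    zbH P b χ κ u (k + j * b) w = zbH P b χ κ u k (w + ((2 * Real.pi * j : ℝ) : ℂ) * I) := by
  induction j with
  | zero => intro k w; simp
  | succ j ih =>
    intro k w
    have e : k + ((j + 1 : ℕ) : ℤ) * b = k + j * b + b := by push_cast; ring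
    rw [e, zbH_shift P hδ hb h, ih]
    congr 1
    push_cast
    ring

theorem zb_lin : Tendsto (fun j : ℕ => 2 * Real.pi * (j : ℝ)) atTop atTop :=
  tendsto_natCast_atTop_atTop.const_mul_atTop (by positivity)

theorem zbH_up (P : Par) (hδ : 0 < P.δ) (b : ℕ) (χ : ℤ → ℂ) (κ : ℝ) (u : ℂ) (k : ℤ) {w : ℂ}
    (hw : 0 < w.re) :
    Tendsto (fun j : ℕ => zbH P b χ κ u k (w + ((2 * Real.pi * j : ℝ) : ℂ) * I)) atTop
      (𝓝 (zbT P b χ κ u k)) := by
  have h1 := (continuous_fst.tendsto _).comp ((lim_up P.N (1 - P.p) P.p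
    (P.β ((κ - k) * (2 * Real.pi / b))) hδ w
      (by unfold Par.β; rw [ofReal_im, add_zero]; positivity)).comp zb_lin)
  unfold zbH zbT
  rw [P.cF_eq hδ]
  unfold Par.cV
  exact ((h1.sub_const _).const_mul _).const_mul _

theorem zbH_down (P : Par) (hδ : 0 < P.δ) (b : ℕ) (χ : ℤ → ℂ) (κ : ℝ) (u : ℂ) (k : ℤ) {w : ℂ}
    (hw : w.re < 0) :
    Tendsto (fun j : ℕ => zbH P b χ κ u k (w - ((2 * Real.pi * j : ℝ) : ℂ) * I)) atTop (𝓝 0) := by
  have h1 := (continuous_fst.tendsto _).comp ((lim_down P.N (1 - P.p) P.p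
    (P.β ((κ - k) * (2 * Real.pi / b))) hδ w
      (by unfold Par.β; rw [ofReal_im, add_zero]; exact div_neg_of_neg_of_pos hw hδ)).comp zb_lin)
  have h2 := ((h1.sub_const (0 : ℂ)).const_mul ((Real.sqrt P.L : ℝ) *
    exp (-(I * ((κ - k) * (2 * Real.pi / b) : ℝ) ^ 2 / (2 * P.δ))))).const_mul (χ k * u ^ k)
  simp only [sub_self, mul_zero] at h2
  exact h2

/-- a telescoping identity -/
theorem zb_tele (g : ℤ → ℂ) (b n : ℕ) :
    ∑ j ∈ Finset.range n, (g (-j) - g (-j - b)) + ∑ j ∈ Finset.range n, (g (j + 1) - g (j + 1 - b)) =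
      ∑ i ∈ Finset.range b, g (n - i) - ∑ i ∈ Finset.range b, g (-n - i) := by
  have W : ∀ m : ℤ, ∑ i ∈ Finset.range b, g (m + 1 - i) =
      ∑ i ∈ Finset.range b, g (m - i) + (g (m + 1) - g (m + 1 - b)) := by
    intro m
    have h1 := Finset.sum_range_succ (fun i : ℕ => g (m + 1 - i)) b
    have h2 := Finset.sum_range_succ' (fun i : ℕ => g (m + 1 - i)) b
    simp only [Nat.cast_add, Nat.cast_one, Nat.cast_zero, sub_zero, add_sub_add_right_eq_sub] at h2
    linear_combination h2 - h1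
  induction n with
  | zero => simp
  | succ n ih =>
    rw [Finset.sum_range_succ, Finset.sum_range_succ]
    have h1 := W n
    have h2 := W (-((n + 1 : ℕ) : ℤ))
    have e : -((n + 1 : ℕ) : ℤ) + 1 = -n := by push_cast; ring
    rw [e] at h2
    have e' : ((n + 1 : ℕ) : ℤ) = n + 1 := by push_cast; ring
    rw [e'] at h2 ⊢
    linear_combination ih - h1 - h2

/-- the pieces between consecutive cuts telescope -/
theorem link_piece (P : Par) (hδ : 0 < P.δ) {b : ℕ} (hb : 1 ≤ b) {χ : ℤ → ℂ} {κ : ℝ} {u : ℂ}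
    (h : P.ZZ b χ κ u) (k0 : ℤ) {xl xc xu : ℝ} (hl : xl < 0) (hu : 0 < xu) :
    Sol (fun j => χ (-j) * P.cP (cutx k0 xl xc xu (-j - b)) (cutx k0 xl xc xu (-j))
        ((κ + j) * (2 * Real.pi / b)))
      (fun j => χ (j + 1) * P.cP (cutx k0 xl xc xu (j + 1 - b)) (cutx k0 xl xc xu (j + 1))
        ((κ - (j + 1)) * (2 * Real.pi / b))) u := by
  have hsc : 0 < P.sc := mul_pos (P.sg_pos hδ) P.cg_pos
  set g : ℤ → ℂ := fun k => zbH P b χ κ u k (P.cutU (cutx k0 xl xc xu k)) with hg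
  have piece : ∀ k : ℤ, χ k * P.cP (cutx k0 xl xc xu (k - b)) (cutx k0 xl xc xu k)
      ((κ - k) * (2 * Real.pi / b)) * u ^ k = g k - g (k - b) := by
    intro k
    have h1 := zbH_shift P hδ hb h (k - b) (P.cutD (cutx k0 xl xc xu (k - b)))
    have e : P.cutD (cutx k0 xl xc xu (k - b)) + 2 * Real.pi * I =
        P.cutU (cutx k0 xl xc xu (k - b)) := by
      unfold Par.cutD Par.cutU
      ring
    rw [e, sub_add_cancel] at h1
    simp only [hg]
    rw [← h1]
    unfold zbH Par.cP Par.cV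
    simp only [sub_zero]
    ring
  have hmul : Tendsto (fun n : ℕ => n * b) atTop atTop :=
    tendsto_atTop_mono (fun n => Nat.le_mul_of_pos_right n hb) tendsto_id
  refine ⟨fun n => n * b, fun n => n * b, hmul, hmul, ?_⟩
  have hU : Tendsto (fun n : ℕ => ∑ i ∈ Finset.range b, g (((n * b : ℕ) : ℤ) - i)) atTop (𝓝 0) := by
    have h0 := zb_window (zbT_per P h) b 0 rfl
    rw [zbT_sum P h] at h0
    simp only [Finset.range_zero, Finset.sum_empty, add_zero] at h0
    rw [← h0]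
    refine tendsto_finsetSum _ fun i hi => ?_
    have hre : 0 < (P.cutU xu).re := by
      unfold Par.cutU
      simpa using mul_pos hu hsc
    refine (zbH_up P hδ b χ κ u (-i) hre).congr' ?_
    filter_upwards [eventually_ge_atTop (k0.natAbs + i + 1)] with n hn
    have h1 : n ≤ n * b := Nat.le_mul_of_pos_right n hb
    have e : ((n * b : ℕ) : ℤ) - i = -i + n * b := by push_cast; ring
    have hc : cutx k0 xl xc xu (((n * b : ℕ) : ℤ) - i) = xu := if_pos (by omega)
    simp only [hg]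
    rw [hc, e, zbH_iter P hδ hb h]
  have hD : Tendsto (fun n : ℕ => ∑ i ∈ Finset.range b, g (-((n * b : ℕ) : ℤ) - i)) atTop
      (𝓝 0) := by
    have h0 : (0 : ℂ) = ∑ i ∈ Finset.range b, 0 := by simp
    rw [h0]
    refine tendsto_finsetSum _ fun i hi => ?_
    have hre : (P.cutU xl).re < 0 := by
      unfold Par.cutU
      simpa using mul_neg_of_neg_of_pos hl hsc
    refine (zbH_down P hδ b χ κ u (-i) hre).congr' ?_
    filter_upwards [eventually_ge_atTop (k0.natAbs + 1)] with n hn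
    have h1 : n ≤ n * b := Nat.le_mul_of_pos_right n hb
    have hc : cutx k0 xl xc xu (-((n * b : ℕ) : ℤ) - i) = xl := by
      unfold cutx
      rw [if_neg (by omega), if_pos (by omega)]
    have h2 := zbH_iter P hδ hb h n (-((n * b : ℕ) : ℤ) - i)
      (P.cutU xl - ((2 * Real.pi * n : ℝ) : ℂ) * I)
    have e : -((n * b : ℕ) : ℤ) - i + n * b = -i := by push_cast; ring
    rw [e, sub_add_cancel] at h2
    simp only [hg]
    rw [hc, h2]
  have h3 := hU.sub hD
  rw [sub_zero] at h3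
  refine h3.congr fun n => ?_
  rw [← zb_tele g b (n * b)]
  congr 1
  · refine Finset.sum_congr rfl fun j _ => ?_
    rw [← piece]
    simp only [zpow_neg, zpow_natCast, inv_pow, Int.cast_neg, Int.cast_natCast, sub_neg_eq_add]
  · refine Finset.sum_congr rfl fun j _ => ?_
    rw [← piece, ← zpow_natCast]
    simp only [Nat.cast_add, Nat.cast_one, Int.cast_add, Int.cast_natCast, Int.cast_one]

/-- the window of `b` complete pieces: `mU` upper ones and `mL` lower ones -/
theorem link_full (P : Par) {b : ℕ} {χ : ℤ → ℂ} {κ : ℝ} {u : ℂ} (h : P.ZZ b χ κ u) (mU mL : ℕ)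
    (hm : mU + mL = b) :
    Sol (fun j => if j < mU then χ (-j) * P.cF ((κ + j) * (2 * Real.pi / b)) else 0)
      (fun j => if j < mL then χ (j + 1) * P.cF ((κ - (j + 1)) * (2 * Real.pi / b)) else 0) u := by
  refine ⟨fun n => mU + n, fun n => mL + n, tendsto_atTop_mono (fun n => Nat.le_add_left n mU)
    tendsto_id, tendsto_atTop_mono (fun n => Nat.le_add_left n mL) tendsto_id, ?_⟩
  have h0 := zb_window (zbT_per P h) mU mL hm
  rw [zbT_sum P h] at h0
  refine tendsto_const_nhds.congr fun n => ?_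
  rw [Finset.sum_range_add, Finset.sum_range_add]
  simp only [add_lt_iff_neg_left, not_lt_zero, if_false, zero_mul, Finset.sum_const_zero, add_zero]
  refine h0.symm.trans ?_
  congr 1
  · refine Finset.sum_congr rfl fun j hj => ?_
    rw [if_pos (Finset.mem_range.1 hj)]
    unfold zbT
    simp only [zpow_neg, zpow_natCast, inv_pow, Int.cast_neg, Int.cast_natCast, sub_neg_eq_add]
    ring
  · refine Finset.sum_congr rfl fun j hj => ?_
    rw [if_pos (Finset.mem_range.1 hj), ← zpow_natCast]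
    unfold zbT
    simp only [Nat.cast_add, Nat.cast_one, Int.cast_add, Int.cast_natCast, Int.cast_one]
    ring

/-- denominator one -/
theorem uniq_one (P : Par)
    (h : ∀ T T', P.S T = 0 → P.S T' = 0 → ∃ k : ℤ, T' = T + 2 * Real.pi * k) : P.Uniq 1 := by
  intro χ hχ κ κ' u u' h0 h1 h0' h1' hz hz'
  have hne : ∀ k, χ k ≠ 0 := fun k e => by simpa [e] using hχ k
  have hS : ∀ {κ : ℝ} {u : ℂ}, P.ZZ 1 χ κ u → P.S (κ * (2 * Real.pi)) = 0 := by
    intro κ u hz
    simpa [hne] using hz.2.2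
  obtain ⟨k, hk⟩ := h _ _ (hS hz) (hS hz')
  have hk' : κ' = κ + k := by
    have : (κ' - (κ + k)) * (2 * Real.pi) = 0 := by linear_combination hk
    rcases mul_eq_zero.1 this with e | e
    · linarith
    · exact absurd e (by positivity)
  have k1 : (k : ℝ) < 1 := by linarith
  have k2 : (-1 : ℝ) < k := by linarith
  have k0 : k = 0 := by
    have a1 : k < 1 := by exact_mod_cast k1
    have a2 : -1 < k := by exact_mod_cast k2
    omega
  refine ⟨by rw [hk', k0]; simp, ?_⟩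
  have e1 := hz.2.1 0
  have e2 := hz'.2.1 0
  simp only [Nat.cast_one, zero_add, zpow_one, zpow_zero] at e1 e2
  exact mul_left_cancel₀ (hne 1) (e1.trans e2.symm)

/-- it is enough to look at one period -/
theorem zero_period (P : Par) (t0 : ℝ)
    (h : ∀ T T', t0 ≤ T → T ≤ t0 + 2 * Real.pi → t0 ≤ T' → T' ≤ t0 + 2 * Real.pi →
      P.S T = 0 → P.S T' = 0 → T = T') : P.Uniq 1 := by
  have red : ∀ T, P.S T = 0 → ∃ k : ℤ, t0 ≤ T + 2 * Real.pi * k ∧
      T + 2 * Real.pi * k ≤ t0 + 2 * Real.pi ∧ P.S (T + 2 * Real.pi * k) = 0 := by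
    intro T hT
    obtain ⟨k, hk, -⟩ := existsUnique_add_zsmul_mem_Ico Real.two_pi_pos T t0
    rw [zsmul_eq_mul, mul_comm (k : ℝ)] at hk
    exact ⟨k, hk.1, hk.2.le, by rw [P.S_period, hT, mul_zero]⟩
  refine uniq_one P fun T T' hT hT' => ?_
  obtain ⟨k, a1, a2, a3⟩ := red T hT
  obtain ⟨k', b1, b2, b3⟩ := red T' hT'
  refine ⟨k - k', ?_⟩
  have := h _ _ a1 a2 b1 b2 a3 b3
  push_cast
  linarith

theorem zb_two (P : Par) {χ : ℤ → ℂ} {κ : ℝ} {u : ℂ} (h : P.ZZ 2 χ κ u) :
    χ 0 * P.S (κ * Real.pi) + χ 1 * u * P.S (κ * Real.pi - Real.pi) = 0 := by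
  have h1 := h.2.2
  simp only [Finset.sum_range_succ, Finset.range_zero, Finset.sum_empty, zero_add, Nat.cast_zero,
    Nat.cast_one, pow_zero, pow_one, mul_one, sub_zero, Nat.cast_ofNat] at h1
  have e1 : κ * (2 * Real.pi / 2) = κ * Real.pi := by ring
  have e2 : (κ - 1) * (2 * Real.pi / 2) = κ * Real.pi - Real.pi := by ring
  rwa [e1, e2] at h1

/-- denominator two -/
theorem zz_two (P : Par) {χ : ℤ → ℂ} (hχ : ∀ k, ‖χ k‖ = 1) {κ : ℝ} {u : ℂ} (h : P.ZZ 2 χ κ u) :
    ‖P.S (κ * Real.pi)‖ = ‖P.S (κ * Real.pi - Real.pi)‖ := by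
  have h1 := congrArg norm (eq_neg_of_add_eq_zero_left (zb_two P h))
  rwa [norm_neg, norm_mul, norm_mul, norm_mul, hχ, hχ, h.1, one_mul, one_mul, one_mul] at h1

theorem zz_two_u (P : Par) {χ : ℤ → ℂ} (hχ : ∀ k, ‖χ k‖ = 1) {κ : ℝ} {u u' : ℂ}
    (h : P.ZZ 2 χ κ u) (h' : P.ZZ 2 χ κ u') (h0 : P.S (κ * Real.pi) ≠ 0) : u = u' := by
  have hne : χ 1 ≠ 0 := fun e => by simpa [e] using hχ 1
  have h1 : P.S (κ * Real.pi - Real.pi) ≠ 0 := fun e => h0 (by
    have := zz_two P hχ h
    rwa [e, norm_zero, norm_eq_zero] at this)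
  have h2 : χ 1 * u * P.S (κ * Real.pi - Real.pi) = χ 1 * u' * P.S (κ * Real.pi - Real.pi) := by
    linear_combination zb_two P h - zb_two P h'
  exact mul_left_cancel₀ hne (mul_right_cancel₀ h1 h2)

end Pool.Agent.Sok
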