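import Pool.Agent.Sok.B1D
import Pool.Agent.Sok.Zak

/-! Gluing of the lines: rings around the turning point, strips, zones. -/

set_option autoImplicit false

namespace Pool.Agent.Sok

open Complex

/-- two zeros with a common cut between them coincide -/
theorem Par.cut_uniq (P : Par) (hδ : 0 < P.δ) {T T' : ℝ} {c : ℂ} (h : T ≤ T')
    (hc : ∀ s, T ≤ s → s ≤ T' → P.Cut s c) (h1 : P.S T = 0) (h2 : P.S T' = 0) : T = T' := by
  have eg : ∀ s, P.cV s (P.V s c) (P.Vtop s) = P.cF s - P.cV s (0, 0) (P.V s c) := fun s => by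
    rw [P.cF_eq hδ]
    simp only [Par.cV]
    ring
  have en : ∀ s, P.nV s (P.V s c) (P.Vtop s) = P.nF s - P.nV s (0, 0) (P.V s c) := fun s => by
    rw [P.nF_eq hδ]
    simp only [Par.nV]
    ring
  have ez : ∀ s, P.S s = 0 → ‖P.cV s (0, 0) (P.V s c)‖ = ‖P.cV s (P.V s c) (P.Vtop s)‖ :=
    fun s hs => by rw [eg, Par.cF, hs, mul_zero, zero_sub, norm_neg]
  refine two_term (a := T) (b := T') (f := fun s => P.cV s (0, 0) (P.V s c))
    (g := fun s => P.cV s (P.V s c) (P.Vtop s))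
    (f' := fun s => P.ka * (P.nV s (0, 0) (P.V s c) - (1 + I * P.lam) * s * P.cV s (0, 0) (P.V s c)))
    (g' := fun s => P.ka * (P.nV s (P.V s c) (P.Vtop s) -
      (1 + I * P.lam) * s * P.cV s (P.V s c) (P.Vtop s)))
    (fun s a b => ⟨P.cV_deriv hδ s c, (hc s a b).1⟩) (fun s a b => ⟨?_, (hc s a b).2.1⟩)
    (fun s a b => ?_) le_rfl h h le_rfl (ez T h1) (ez T' h2)
  · rw [funext eg]
    refine ((P.cF_deriv s).fun_sub (P.cV_deriv hδ s c)).congr_deriv ?_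
    rw [en, eg]
    ring
  · obtain ⟨a1, a2, a3⟩ := hc s a b
    have e : P.ka * (P.nV s (P.V s c) (P.Vtop s) -
        (1 + I * P.lam) * s * P.cV s (P.V s c) (P.Vtop s)) / P.cV s (P.V s c) (P.Vtop s) -
        P.ka * (P.nV s (0, 0) (P.V s c) - (1 + I * P.lam) * s * P.cV s (0, 0) (P.V s c)) /
          P.cV s (0, 0) (P.V s c) = P.ka * (P.nV s (P.V s c) (P.Vtop s) /
          P.cV s (P.V s c) (P.Vtop s) - P.nV s (0, 0) (P.V s c) / P.cV s (0, 0) (P.V s c)) := by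
      field_simp
      ring
    rw [e, re_ofReal_mul]
    exact mul_pos P.ka_pos a3

section

variable {c : Cl} {t1 t2 ya yb u v : ℤ}

theorem Cl.L_of_D (h1 : c.D t1 ya) (h2 : c.D yb t2) : c.L t1 t2 ya yb false := by
  intro P θ T t hi ha hS a b
  exact ⟨h1 P θ T t hi ha hS a, (lt_of_not_ge fun h => not_le.2 b (h2 P θ T t hi ha hS h)).le,
    fun h => Bool.noConfusion h⟩

theorem b1f_sc {P : Par} {θ : ℝ} (hi : c.In P θ) : 0 < c.sc P.kap θ := by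
  have hk := Par.kap_pos hi.std.hδ
  unfold Cl.sc
  split_ifs with a b
  · have := hi.h5 a
    positivity
  · positivity
  · exact one_pos

theorem b1f_w (hm : c.m ≠ 1) (θ : ℝ) : ∃ x : ℝ, ∀ t, c.w θ t = ⟨x, t⟩ := by
  unfold Cl.w
  by_cases a : c.m = 0
  · exact ⟨toR c.c, fun t => if_pos a⟩
  · exact ⟨θ, fun t => by rw [if_neg a, if_neg hm]⟩

theorem b1f_mid (hM : c.M u v ya yb) (hm : c.m ≠ 1) (h : c.Z ≤ 0 ∨ yb ≤ 0) {P : Par}
    {θ T T' t t' : ℝ} (hi : c.In P θ) (ha : c.At P θ T t) (ha' : c.At P θ T' t') (hS : P.S T = 0)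
    (hS' : P.S T' = 0) (h1 : toR ya ≤ t) (h2 : t ≤ t') (h3 : t' ≤ toR yb) : T = T' := by
  have hs := b1f_sc hi
  obtain ⟨x, hx⟩ := b1f_w hm θ
  have e : ∀ {S s : ℝ}, P.v S = (c.sc P.kap θ : ℝ) * c.w θ s ↔
      P.vre = c.sc P.kap θ * x ∧ S + P.vim = c.sc P.kap θ * s := fun {S s} => by
    rw [hx, Complex.ext_iff, re_ofReal_mul, im_ofReal_mul]
    rfl
  obtain ⟨e1, e2⟩ := e.1 ha.1
  obtain ⟨-, e3⟩ := e.1 ha'.1
  rcases h2.eq_or_lt with h2 | h2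
  · rw [h2] at e2
    linarith
  have hT : T ≤ T' := by nlinarith
  refine P.cut_uniq (c := P.wT + (2 * P.kap * c.s P.kap θ : ℝ) * toC u v) hi.std.hδ hT
    (fun s a b => ?_) hS hS'
  have e4 : s + P.vim = c.sc P.kap θ * ((s + P.vim) / c.sc P.kap θ) := by field_simp
  have a' : t ≤ (s + P.vim) / c.sc P.kap θ := by
    rw [le_div_iff₀ hs]
    linarith
  have b' : (s + P.vim) / c.sc P.kap θ ≤ t' := by
    rw [div_le_iff₀ hs]
    linarith
  refine hM P θ s _ hi ⟨e.2 ⟨e1, e4⟩, ?_⟩ (h1.trans a') (b'.trans h3) (by linarith)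
  unfold Par.Far
  rcases h with h | h
  · have h4 : toR c.Z ≤ 0 := toR_zero ▸ toR_le.2 h
    have h5 : toR c.Z * P.kap ≤ 0 := mul_nonpos_of_nonpos_of_nonneg h4 P.kap_nonneg
    exact (Odd.pow_nonpos (by decide) h5).trans (by positivity)
  · have h4 : toR yb ≤ 0 := toR_zero ▸ toR_le.2 h
    have h5 : T' + P.vim ≤ 0 := by nlinarith
    have h6 : ‖P.v T'‖ ≤ ‖P.v s‖ := by
      rw [← sq_le_sq₀ (norm_nonneg _) (norm_nonneg _), Complex.sq_norm, Complex.sq_norm,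
        normSq_apply, normSq_apply]
      change P.vre * P.vre + (T' + P.vim) * (T' + P.vim) ≤
        P.vre * P.vre + (s + P.vim) * (s + P.vim)
      nlinarith
    refine le_trans ha'.2 ?_
    gcongr

/-- a cut between the two zero free parts of a vertical line leaves at most one zero -/
theorem Cl.L_of_M (h1 : c.D t1 ya) (hM : c.M u v ya yb) (h2 : c.D yb t2)
    (h : (!Nat.beq c.m 1 && (leI c.Z 0 || leI yb 0)) = true) : c.L t1 t2 ya yb true := by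
  simp only [Bool.and_eq_true, Bool.or_eq_true, Bool.not_eq_true', leI_iff] at h
  have hm : c.m ≠ 1 := Nat.ne_of_beq_eq_false h.1
  intro P θ T t hi ha hS a b
  obtain ⟨a1, a2, -⟩ := Cl.L_of_D h1 h2 P θ T t hi ha hS a b
  refine ⟨a1, a2, fun _ T' t' ha' hS' a' b' => ?_⟩
  obtain ⟨a3, a4, -⟩ := Cl.L_of_D h1 h2 P θ T' t' hi ha' hS' a' b'
  rcases le_total t t' with h3 | h3
  · exact b1f_mid hM hm h.2 hi ha ha' hS hS' a1 h3 a4
  · exact (b1f_mid hM hm h.2 hi ha' ha hS' hS a3 h3 a2).symm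

end

structure Rc where
  k1 : ℤ
  k2 : ℤ
  a1 : ℤ
  a2 : ℤ

def Rc.Mem (b : Rc) (x y : ℝ) : Prop := toR b.k1 ≤ x ∧ x ≤ toR b.k2 ∧ toR b.a1 ≤ y ∧ y ≤ toR b.a2

/-- the first box that contains the corner `(x, y)` and points beyond it -/
def bxFind (x y : ℤ) (k : ℤ → ℤ → Bool) : List Rc → Bool
  | [] => false
  | b :: l => cond (leI b.k1 x && ltI x b.k2 && leI b.a1 y && ltI y b.a2) (k b.k2 b.a2)
      (bxFind x y k l)

/-- the rectangle is covered by the boxes of the list -/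
def bxCov (L : List Rc) : ℕ → ℤ → ℤ → ℤ → ℤ → Bool
  | 0, _, _, _, _ => false
  | n + 1, x1, x2, y1, y2 => bxFind x1 y1 (fun x y =>
      cond (ltI x x2) (bxCov L n x1 x y1 y2 && bxCov L n x x2 y1 y2)
        (leI y2 y || bxCov L n x1 x2 y y2)) L

theorem b1f_find {x y : ℤ} {k : ℤ → ℤ → Bool} {L : List Rc} (h : bxFind x y k L = true) :
    ∃ b ∈ L, b.k1 ≤ x ∧ b.a1 ≤ y ∧ k b.k2 b.a2 = true := by
  induction L with
  | nil => exact Bool.noConfusion h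
  | cons b l ih =>
    rw [bxFind] at h
    cases e : (leI b.k1 x && ltI x b.k2 && leI b.a1 y && ltI y b.a2) with
    | false =>
      rw [e, cond_false] at h
      obtain ⟨b', h1, h2⟩ := ih h
      exact ⟨b', List.mem_cons_of_mem _ h1, h2⟩
    | true =>
      rw [e, cond_true] at h
      simp only [Bool.and_eq_true, leI_iff] at e
      exact ⟨b, List.mem_cons_self, e.1.1.1, e.1.2, h⟩

theorem bxCov_ok {L : List Rc} {n : ℕ} {x1 x2 y1 y2 : ℤ} (h : bxCov L n x1 x2 y1 y2 = true)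
    {x y : ℝ} (hm : Rc.Mem ⟨x1, x2, y1, y2⟩ x y) : ∃ b ∈ L, b.Mem x y := by
  induction n generalizing x1 x2 y1 y2 with
  | zero => exact Bool.noConfusion h
  | succ n ih =>
    rw [bxCov] at h
    obtain ⟨b, hb, h1, h2, h⟩ := b1f_find h
    obtain ⟨m1, m2, m3, m4⟩ := hm
    cases e : ltI b.k2 x2 with
    | true =>
      rw [e, cond_true, Bool.and_eq_true] at h
      rcases le_total x (toR b.k2) with h3 | h3
      · exact ih h.1 ⟨m1, h3, m3, m4⟩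
      · exact ih h.2 ⟨h3, m2, m3, m4⟩
    | false =>
      rw [e, cond_false, Bool.or_eq_true] at h
      have key : y ≤ toR b.a2 → ∃ b ∈ L, b.Mem x y := fun h3 =>
        ⟨b, hb, (toR_le.2 h1).trans m1, le_trans m2 (ltI_false e), (toR_le.2 h2).trans m3, h3⟩
      rcases h with h | h
      · exact key (le_trans m4 (leI_ok h))
      · rcases le_total y (toR b.a2) with h3 | h3
        · exact key h3
        · exact ih h ⟨m1, m2, h3, m4⟩

/-- a line together with its conclusion -/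
structure LF where
  c : Cl
  t1 : ℤ
  t2 : ℤ
  ya : ℤ
  yb : ℤ
  am : Bool

def LF.Ok (f : LF) : Prop := f.c.L f.t1 f.t2 f.ya f.yb f.am

def Cl.bx (c : Cl) : Rc := ⟨c.k1, c.k2, c.a1, c.a2⟩

def lfSel (p : LF → Bool) : List LF → List Rc
  | [] => []
  | f :: l => cond (p f) (f.c.bx :: lfSel p l) (lfSel p l)

def ccSel (p : Cl → Bool) : List Cl → List Rc
  | [] => []
  | c :: l => cond (p c) (c.bx :: ccSel p l) (ccSel p l)

/-- A zone `κ ∈ [k1, k2]`.  The ring is the rectangle `[-X1, X0] × [-Y2, Y1]` scaled by `θ²`,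
`θ ≤ sm`; `s2` is a lower bound and `xb / X0` an upper bound of `sm²`. -/
structure Zn where
  k1 : ℤ
  k2 : ℤ
  X0 : ℤ
  X1 : ℤ
  Y1 : ℤ
  Y2 : ℤ
  sm : ℤ
  Z : ℤ

namespace Zn

variable (z : Zn)

def eqI (a b : ℤ) : Bool := leI a b && leI b a

/-- a zero free side of the ring, of mode `m`, at `c`, from `a` to `b` -/
def side (m : ℕ) (c a b : ℤ) (f : LF) : Bool :=
  Nat.beq f.c.m m && eqI f.c.c c && leI f.c.Z z.Z && leI f.t1 a && ltI b f.t2 && ltI b f.ya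

def right (f : LF) : Bool :=
  Nat.beq f.c.m 0 && eqI f.c.c z.X0 && leI f.c.Z z.Z && leI f.t1 (-z.Y2) && ltI z.Y1 f.t2 && f.am

def cov (L : List Rc) (a b : ℤ) : Bool := bxCov L 400 z.k1 z.k2 a b

def chkRing (L : List LF) (K : List Cl) : Bool :=
  ltI 0 z.X0 && ltI 0 z.X1 && ltI 0 z.Y1 && ltI 0 z.Y2 && ltI 0 z.Z && leI 0 z.sm &&
  fI (mulU z.X0 (mulU z.sm z.sm)) fun xb => leI (3 * xb) one &&
  z.cov (ccSel (fun c => leI z.Z c.Z && leI xb c.c) K) 0 one &&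
  z.cov (lfSel (z.side 1 z.Y1 (-z.X1) z.X0) L) 0 z.sm &&
  z.cov (lfSel (z.side 1 (-z.Y2) (-z.X1) z.X0) L) 0 z.sm &&
  z.cov (lfSel (z.side 0 (-z.X1) (-z.Y2) z.Y1) L) 0 z.sm &&
  z.cov (lfSel z.right L) 0 z.sm

/-- the point `v T` lies in the ring -/
def In (P : Par) (T : ℝ) : Prop :=
  -(2 * P.kap * toR z.sm ^ 2 * toR z.X1) ≤ (P.v T).re ∧
    (P.v T).re ≤ 2 * P.kap * toR z.sm ^ 2 * toR z.X0 ∧
    -(2 * P.kap * toR z.sm ^ 2 * toR z.Y2) ≤ (P.v T).im ∧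
    (P.v T).im ≤ 2 * P.kap * toR z.sm ^ 2 * toR z.Y1

def Ring : Prop := ∀ P : Par, P.Std → toR z.k1 ≤ P.kap → P.kap ≤ toR z.k2 → ∀ T T',
  z.In P T → z.In P T' → P.S T = 0 → P.S T' = 0 → T = T'

/-- the hole of the line lies in the ring; `g` is a lower bound of `2κ sm²` over the scale -/
def hole (g : ℤ) (f : LF) : Bool :=
  leI 0 g && leI (-f.c.a1) (mulD g z.X1) && leI f.c.a2 (mulD g z.X0) &&
    leI (-f.ya) (mulD g z.Y2) && leI f.yb (mulD g z.Y1)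

/-- a strip of mode `2` that contains a period -/
def str3 (f : LF) : Bool :=
  Nat.beq f.c.m 2 && leI f.c.Z 0 && leI 0 f.c.k1 && leI f.t1 f.t2 &&
    ltI piU (mulD f.c.k1 (f.t2 - f.t1)) && (f.am || z.hole (mulD z.sm z.sm) f)

/-- a strip of mode `2` that crosses the disc of `dob_win` -/
def str2 (f : LF) : Bool :=
  Nat.beq f.c.m 2 && leI f.c.Z 0 && fI (maxI 0 (qD 1917 1000 - f.c.a2)) fun d =>
    fI (qU 3721 400 - mulD d d) fun r => fI (qD (-21) 10 - f.t1) fun x => fI (f.t2 + 2 * one) fun y =>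
    leI 0 x && leI 0 y && leI r (mulD x x) && ltI r (mulD y y) &&
    (f.am || z.hole (mulD z.sm z.sm) f)

def chk (L : List LF) (K : List Cl) : Bool :=
  z.chkRing L K &&
    cond (leI z.k2 (qD 3 10)) (z.cov (lfSel z.str2 L) (-one) (qU 101 50))
      (leI (qU 1 4) z.k1 && z.cov (lfSel z.str3 L) (-one) (12 * one))

def Ok : Prop := ∀ P : Par, P.Std → toR z.k1 ≤ P.kap → P.kap ≤ toR z.k2 → P.Uniq 1

end Zn

section

variable {z : Zn} {L : List LF} {K : List Cl}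

theorem lfSel_ok {p : LF → Bool} {b : Rc} (h : b ∈ lfSel p L) : ∃ f ∈ L, p f = true ∧ b = f.c.bx := by
  induction L with
  | nil => exact absurd h List.not_mem_nil
  | cons f l ih =>
    rw [lfSel] at h
    have key : b ∈ lfSel p l → ∃ g ∈ f :: l, p g = true ∧ b = g.c.bx := fun h =>
      (ih h).imp fun _ h => ⟨List.mem_cons_of_mem _ h.1, h.2⟩
    cases e : p f with
    | false => exact key (by rwa [e, cond_false] at h)
    | true =>
      rw [e, cond_true, List.mem_cons] at h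
      exact h.elim (fun h => ⟨f, List.mem_cons_self, e, h⟩) key

theorem ccSel_ok {p : Cl → Bool} {b : Rc} (h : b ∈ ccSel p K) : ∃ c ∈ K, p c = true ∧ b = c.bx := by
  induction K with
  | nil => exact absurd h List.not_mem_nil
  | cons f l ih =>
    rw [ccSel] at h
    have key : b ∈ ccSel p l → ∃ g ∈ f :: l, p g = true ∧ b = g.bx := fun h =>
      (ih h).imp fun _ h => ⟨List.mem_cons_of_mem _ h.1, h.2⟩
    cases e : p f with
    | false => exact key (by rwa [e, cond_false] at h)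
    | true =>
      rw [e, cond_true, List.mem_cons] at h
      exact h.elim (fun h => ⟨f, List.mem_cons_self, e, h⟩) key

theorem b1g_Xi {P : Par} (h : P.vre ≤ 2 / 3) : 1 ≤ 4 * P.Xi := by
  have h1 := P.Xi_ge'
  have h2 := P.k4_pos
  have h3 := P.kap_nonneg
  have h4 := P.k2_nonneg
  have h5 : 0 ≤ 2 * P.kap / (1 + P.k2) := by positivity
  have h6 := Real.add_one_le_exp (2 * P.kap / (1 + P.k2) - P.vre)
  have h7 : 1 ≤ (1 + P.kap) ^ 2 * (1 + P.k2) :=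
    one_le_mul_of_one_le_of_one_le (one_le_pow₀ (by linarith)) (by linarith)
  have h8 := mul_le_mul_of_nonneg_right h7 (Real.exp_pos (2 * P.kap / (1 + P.k2) - P.vre)).le
  linarith

theorem b1g_far {P : Par} {Z Z' T : ℝ} (h : Z' ≤ Z) (hF : P.Far Z T) : P.Far Z' T :=
  ((Odd.pow_le_pow (by decide)).2 (mul_le_mul_of_nonneg_right h P.kap_nonneg)).trans hF

theorem b1g_far0 {P : Par} {Z : ℤ} (h : leI Z 0 = true) (T : ℝ) : P.Far (toR Z) T := by
  have h1 := leI_ok h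
  rw [toR_zero] at h1
  refine b1g_far h1 ?_
  unfold Par.Far
  rw [zero_mul, zero_pow three_ne_zero]
  positivity

/-- a zero is outside the cubic disc -/
theorem Zn.far_of {P : Par} (hδ : 0 < P.δ) {T : ℝ} {xb : ℤ} (hK : ∀ c ∈ K, c.C)
    (h : z.cov (ccSel (fun c => leI z.Z c.Z && leI xb c.c) K) 0 one = true)
    (h0 : 0 < toR z.Z) (hx : 3 * toR xb ≤ 1) (h1 : toR z.k1 ≤ P.kap) (h2 : P.kap ≤ toR z.k2)
    (h3 : P.vre ≤ 2 * P.kap * toR xb) (hS : P.S T = 0) : P.Far (toR z.Z) T := by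
  by_contra hF
  unfold Par.Far at hF
  rw [not_le] at hF
  have hk := Par.kap_pos hδ
  have hΞ := P.Xi_pos
  have hX : 1 ≤ 4 * P.Xi := b1g_Xi (by nlinarith [P.kap_lt])
  obtain ⟨r, r0, r3⟩ : ∃ r : ℝ, 0 < r ∧ r ^ 3 = (4 * P.Xi)⁻¹ :=
    ⟨(4 * P.Xi)⁻¹ ^ ((3 : ℕ) : ℝ)⁻¹, by positivity,
      Real.rpow_inv_natCast_pow (by positivity) three_ne_zero⟩
  have r1 : r ≤ 1 := by
    rw [← pow_le_one_iff_of_nonneg r0.le three_ne_zero, r3]
    exact inv_le_one_of_one_le₀ hX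
  have r4 : r ^ 3 * (4 * P.Xi) = 1 := by rw [r3, inv_mul_cancel₀ (by positivity)]
  obtain ⟨b, hb, hm⟩ := bxCov_ok h (x := P.kap) (y := r)
    ⟨h1, h2, by rw [toR_zero]; exact r0.le, by rw [toR_one]; exact r1⟩
  obtain ⟨c, hc, hp, rfl⟩ := ccSel_ok hb
  rw [Bool.and_eq_true] at hp
  have hs : (0 : ℝ) < 2 * P.kap * r ^ 2 := by positivity
  refine hK c hc ⟨P, T, r, r, hδ, r0, r0⟩ (P.v T / (2 * P.kap * r ^ 2 : ℝ)) hm.1 hm.2.1 hm.2.2.1
    hm.2.2.2 rfl ?_ ?_ ?_ ?_ hS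
  · change 4 * r ^ 2 * r * P.Xi = 1
    linear_combination r4
  · change P.v T = 2 * P.kap * r ^ 2 * (P.v T / (2 * P.kap * r ^ 2 : ℝ))
    have := ofReal_ne_zero.2 hs.ne'
    push_cast at this ⊢
    rw [mul_div_cancel₀ _ this]
  · refine le_trans ?_ (leI_ok hp.1)
    rw [norm_div, norm_real, Real.norm_of_nonneg hs.le, div_le_iff₀ hs,
      ← (Odd.pow_le_pow (n := 3) (by decide))]
    have e : (toR z.Z * (2 * P.kap * r ^ 2)) ^ 3 * (2 * P.Xi ^ 2) = (toR z.Z * P.kap) ^ 3 := by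
      linear_combination (toR z.Z * P.kap) ^ 3 * (r ^ 3 * (4 * P.Xi) + 1) * r4
    refine le_of_mul_le_mul_right ?_ (by positivity : 0 < 2 * P.Xi ^ 2)
    rw [e]
    linarith
  · exact h3.trans (mul_le_mul_of_nonneg_left (leI_ok hp.2) (by positivity))

theorem b1g_gauge {x y A0 A1 B1 B2 m : ℝ} (a0 : 0 < A0) (a1 : 0 < A1) (b1 : 0 < B1) (b2 : 0 < B2)
    (h1 : -(m * A1) ≤ x) (h2 : x ≤ m * A0) (h3 : -(m * B2) ≤ y) (h4 : y ≤ m * B1)
    (hne : ¬ (x = 0 ∧ y = 0)) : ∃ g, 0 < g ∧ g ≤ m ∧ -(g * A1) ≤ x ∧ x ≤ g * A0 ∧ -(g * B2) ≤ y ∧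
      y ≤ g * B1 ∧ (x = g * A0 ∨ x = g * -A1 ∨ y = g * B1 ∨ y = g * -B2) := by
  obtain ⟨g, hg⟩ : ∃ g, g = max (max (x / A0) (-x / A1)) (max (y / B1) (-y / B2)) := ⟨_, rfl⟩
  have e1 : x ≤ g * A0 := (div_le_iff₀ a0).1 (hg ▸ le_max_of_le_left (le_max_left _ _))
  have e2 : -x ≤ g * A1 := (div_le_iff₀ a1).1 (hg ▸ le_max_of_le_left (le_max_right _ _))
  have e3 : y ≤ g * B1 := (div_le_iff₀ b1).1 (hg ▸ le_max_of_le_right (le_max_left _ _))
  have e4 : -y ≤ g * B2 := (div_le_iff₀ b2).1 (hg ▸ le_max_of_le_right (le_max_right _ _))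
  refine ⟨g, ?_, ?_, by linarith, e1, by linarith, e3, ?_⟩
  · by_contra hn
    rw [not_lt] at hn
    have := mul_nonpos_of_nonpos_of_nonneg hn a0.le
    have := mul_nonpos_of_nonpos_of_nonneg hn a1.le
    have := mul_nonpos_of_nonpos_of_nonneg hn b1.le
    have := mul_nonpos_of_nonpos_of_nonneg hn b2.le
    exact hne ⟨by linarith, by linarith⟩
  · rw [hg]
    exact max_le (max_le ((div_le_iff₀ a0).2 h2) ((div_le_iff₀ a1).2 (by linarith)))
      (max_le ((div_le_iff₀ b1).2 h4) ((div_le_iff₀ b2).2 (by linarith)))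
  · have hc : g = x / A0 ∨ g = -x / A1 ∨ g = y / B1 ∨ g = -y / B2 := by
      rw [hg]
      rcases max_choice (max (x / A0) (-x / A1)) (max (y / B1) (-y / B2)) with h | h <;> rw [h]
      · exact (max_choice _ _).elim Or.inl fun h => Or.inr (Or.inl h)
      · exact Or.inr (Or.inr (max_choice _ _))
    rcases hc with h | h | h | h
    · exact Or.inl (by rw [h, div_mul_cancel₀ _ a0.ne'])
    · exact Or.inr (Or.inl (by rw [mul_neg, h, div_mul_cancel₀ _ a1.ne', neg_neg]))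
    · exact Or.inr (Or.inr (Or.inl (by rw [h, div_mul_cancel₀ _ b1.ne'])))
    · exact Or.inr (Or.inr (Or.inr (by rw [mul_neg, h, div_mul_cancel₀ _ b2.ne', neg_neg])))

theorem b1g_eq {a b : ℤ} (h : Zn.eqI a b = true) : a = b := by
  rw [Zn.eqI, Bool.and_eq_true] at h
  exact le_antisymm (leI_iff.1 h.1) (leI_iff.1 h.2)

theorem b1g_at {c : Cl} {P : Par} {θ T t : ℝ} (h1 : P.vre = c.sc P.kap θ * (c.w θ t).re)
    (h2 : T + P.vim = c.sc P.kap θ * (c.w θ t).im) (hF : P.Far (toR c.Z) T) : c.At P θ T t :=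
  ⟨Complex.ext (by rw [re_ofReal_mul]; exact h1) (by rw [im_ofReal_mul]; exact h2), hF⟩

theorem b1g_at0 {c : Cl} (hm : c.m = 0) {P : Par} {θ T t : ℝ}
    (h1 : P.vre = 2 * P.kap * θ ^ 2 * toR c.c) (h2 : T + P.vim = 2 * P.kap * θ ^ 2 * t)
    (hF : P.Far (toR c.Z) T) : c.At P θ T t :=
  b1g_at (by simpa [Cl.sc, Cl.w, hm] using h1) (by simpa [Cl.sc, Cl.w, hm] using h2) hF

theorem b1g_at1 {c : Cl} (hm : c.m = 1) {P : Par} {θ T t : ℝ}
    (h1 : P.vre = 2 * P.kap * θ ^ 2 * t) (h2 : T + P.vim = 2 * P.kap * θ ^ 2 * toR c.c)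
    (hF : P.Far (toR c.Z) T) : c.At P θ T t :=
  b1g_at (by simpa [Cl.sc, Cl.w, hm] using h1) (by simpa [Cl.sc, Cl.w, hm] using h2) hF

theorem b1g_at2 {c : Cl} (hm : c.m = 2) {P : Par} {θ T t : ℝ}
    (h1 : P.vre = 2 * P.kap * θ) (h2 : T + P.vim = 2 * P.kap * t)
    (hF : P.Far (toR c.Z) T) : c.At P θ T t :=
  b1g_at (by simpa [Cl.sc, Cl.w, hm] using h1) (by simpa [Cl.sc, Cl.w, hm] using h2) hF

/-- a line of the list whose box contains the point -/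
theorem b1g_line {p : LF → Bool} {a b : ℤ} (h : z.cov (lfSel p L) a b = true) {P : Par}
    (hP : P.Std) (h1 : toR z.k1 ≤ P.kap) (h2 : P.kap ≤ toR z.k2) {θ : ℝ} (h3 : toR a ≤ θ)
    (h4 : θ ≤ toR b) : ∃ f ∈ L, p f = true ∧ ((f.c.m ≤ 1 → 0 < θ) → f.c.In P θ) := by
  obtain ⟨_, hb, hm⟩ := bxCov_ok h (x := P.kap) (y := θ) ⟨h1, h2, h3, h4⟩
  obtain ⟨f, hf, hp, rfl⟩ := lfSel_ok hb
  exact ⟨f, hf, hp, fun h5 => ⟨hP, hm.1, hm.2.1, hm.2.2.1, hm.2.2.2, h5⟩⟩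

theorem b1g_side (hL : ∀ f ∈ L, f.Ok) {m : ℕ} {c a b : ℤ}
    (h : z.cov (lfSel (z.side m c a b) L) 0 z.sm = true) {P : Par}
    (hP : P.Std) (h1 : toR z.k1 ≤ P.kap) (h2 : P.kap ≤ toR z.k2) {θ T t : ℝ} (h3 : 0 < θ)
    (h4 : θ ≤ toR z.sm) (hS : P.S T = 0) (hF : P.Far (toR z.Z) T) (ha : toR a ≤ t)
    (hb : t ≤ toR b)
    (hA : ∀ d : Cl, d.m = m → d.c = c → P.Far (toR d.Z) T → d.At P θ T t) : False := by
  obtain ⟨f, hf, hp, hi⟩ := b1g_line h hP h1 h2 (θ := θ) (by rw [toR_zero]; exact h3.le) h4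
  simp only [Zn.side, Bool.and_eq_true] at hp
  obtain ⟨⟨⟨⟨⟨p1, p2⟩, p3⟩, p4⟩, p5⟩, p6⟩ := hp
  have := (hL f hf P θ T t (hi fun _ => h3) (hA f.c (Nat.eq_of_beq_eq_true p1) (b1g_eq p2)
    (b1g_far (leI_ok p3) hF)) hS ((leI_ok p4).trans ha) (hb.trans_lt (ltI_ok p5))).1
  linarith [ltI_ok p6]

theorem b1g_pos {a : ℤ} (h : ltI 0 a = true) : 0 < toR a := toR_zero ▸ ltI_ok h

theorem b1g_nn {a : ℤ} (h : leI 0 a = true) : 0 ≤ toR a := toR_zero ▸ leI_ok h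

theorem b1g_ring (h : z.chkRing L K = true) : 0 < toR z.X0 ∧ 0 < toR z.X1 ∧ 0 < toR z.Y1 ∧
    0 < toR z.Y2 ∧ 0 ≤ toR z.sm := by
  simp only [Zn.chkRing, Bool.and_eq_true, fI_eq] at h
  obtain ⟨⟨⟨⟨⟨⟨x0, x1⟩, y1⟩, y2⟩, -⟩, sm⟩, -⟩ := h
  exact ⟨b1g_pos x0, b1g_pos x1, b1g_pos y1, b1g_pos y2, b1g_nn sm⟩

/-- at most one zero in the ring -/
theorem Zn.chkRing_ok (hL : ∀ f ∈ L, f.Ok) (hK : ∀ c ∈ K, c.C) (h : z.chkRing L K = true) :
    z.Ring := by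
  obtain ⟨x0, x1, y1, y2, sm⟩ := b1g_ring h
  simp only [Zn.chkRing, Bool.and_eq_true, fI_eq] at h
  obtain ⟨⟨⟨-, z0⟩, -⟩, ⟨⟨⟨⟨hx, cC⟩, cT⟩, cB⟩, cL⟩, cR⟩ := h
  intro P hP h1 h2
  have hk := Par.kap_pos hP.hδ
  have hk2 : 0 < 2 * P.kap := by positivity
  have hx' : 3 * toR (mulU z.X0 (mulU z.sm z.sm)) ≤ 1 := by
    have := leI_ok hx
    rw [toR_intmul, toR_one] at this
    exact_mod_cast this
  have far : ∀ T, z.In P T → P.S T = 0 → P.Far (toR z.Z) T := fun T hT hS => by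
    refine Zn.far_of hP.hδ hK cC (b1g_pos z0) hx' h1 h2 (le_trans hT.2.1 ?_) hS
    have := mulU_le x0.le (mul_nonneg sm sm) le_rfl (mulU_ok z.sm z.sm)
    rw [mul_assoc]
    exact mul_le_mul_of_nonneg_left (by linarith) hk2.le
  have key : ∀ T, z.In P T → P.S T = 0 → ∃ θ t, 0 < θ ∧ θ ≤ toR z.sm ∧
      P.vre = 2 * P.kap * θ ^ 2 * toR z.X0 ∧ T + P.vim = 2 * P.kap * θ ^ 2 * t ∧
      toR (-z.Y2) ≤ t ∧ t ≤ toR z.Y1 := by
    intro T hT hS
    have hF := far T hT hS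
    have hne : ¬ (P.vre = 0 ∧ T + P.vim = 0) := by
      rintro ⟨e1, e2⟩
      have e : P.v T = 0 := Complex.ext e1 e2
      have hz := b1g_pos z0
      unfold Par.Far at hF
      rw [e, norm_zero, zero_pow three_ne_zero, mul_zero, zero_mul] at hF
      exact absurd hF (not_le.2 (by positivity))
    obtain ⟨g, g0, g1, e1, e2, e3, e4, e5⟩ :=
      b1g_gauge (x := P.vre) (y := T + P.vim) x0 x1 y1 y2 hT.1 hT.2.1 hT.2.2.1 hT.2.2.2 hne
    obtain ⟨θ, t0, rfl⟩ : ∃ θ : ℝ, 0 < θ ∧ g = 2 * P.kap * θ ^ 2 :=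
      ⟨Real.sqrt (g / (2 * P.kap)), Real.sqrt_pos.2 (div_pos g0 hk2), by
        rw [Real.sq_sqrt (div_pos g0 hk2).le, mul_div_cancel₀ _ hk2.ne']⟩
    have t1 : θ ≤ toR z.sm := abs_le_of_sq_le_sq' (le_of_mul_le_mul_left g1 hk2) sm |>.2
    have u0 : P.vre = 2 * P.kap * θ ^ 2 * (P.vre / (2 * P.kap * θ ^ 2)) :=
      (mul_div_cancel₀ _ g0.ne').symm
    have u1 : toR (-z.X1) ≤ P.vre / (2 * P.kap * θ ^ 2) := by
      rw [toR_neg, le_div_iff₀ g0]; linarith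
    have u2 : P.vre / (2 * P.kap * θ ^ 2) ≤ toR z.X0 := by rw [div_le_iff₀ g0]; linarith
    have v0 : T + P.vim = 2 * P.kap * θ ^ 2 * ((T + P.vim) / (2 * P.kap * θ ^ 2)) :=
      (mul_div_cancel₀ _ g0.ne').symm
    have v1 : toR (-z.Y2) ≤ (T + P.vim) / (2 * P.kap * θ ^ 2) := by
      rw [toR_neg, le_div_iff₀ g0]; linarith
    have v2 : (T + P.vim) / (2 * P.kap * θ ^ 2) ≤ toR z.Y1 := by rw [div_le_iff₀ g0]; linarith
    rcases e5 with e | e | e | e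
    · exact ⟨θ, _, t0, t1, e, v0, v1, v2⟩
    · exact (b1g_side hL cL hP h1 h2 t0 t1 hS hF v1 v2 fun d d1 d2 d3 =>
        b1g_at0 d1 (by rw [d2, toR_neg]; exact e) v0 d3).elim
    · exact (b1g_side hL cT hP h1 h2 t0 t1 hS hF u1 u2 fun d d1 d2 d3 =>
        b1g_at1 d1 u0 (by rw [d2]; exact e) d3).elim
    · exact (b1g_side hL cB hP h1 h2 t0 t1 hS hF u1 u2 fun d d1 d2 d3 =>
        b1g_at1 d1 u0 (by rw [d2, toR_neg]; exact e) d3).elim
  intro T T' hT hT' hS hS'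
  obtain ⟨θ, t, t0, t1, e1, e2, e3, e4⟩ := key T hT hS
  obtain ⟨θ', t', -, -, d1, d2, d3, d4⟩ := key T' hT' hS'
  have e : 2 * P.kap * θ' ^ 2 = 2 * P.kap * θ ^ 2 := mul_right_cancel₀ x0.ne' (d1.symm.trans e1)
  rw [e] at d2
  obtain ⟨f, hf, hp, hi⟩ := b1g_line cR hP h1 h2 (θ := θ) (by rw [toR_zero]; exact t0.le) t1
  simp only [Zn.right, Bool.and_eq_true] at hp
  obtain ⟨⟨⟨⟨⟨p1, p2⟩, p3⟩, p4⟩, p5⟩, p6⟩ := hp
  have hm := Nat.eq_of_beq_eq_true p1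
  rw [← b1g_eq p2] at e1
  exact (hL f hf P θ T t (hi fun _ => t0)
    (b1g_at0 hm e1 e2 (b1g_far (leI_ok p3) (far T hT hS))) hS ((leI_ok p4).trans e3)
    (e4.trans_lt (ltI_ok p5))).2.2 p6 T' t'
    (b1g_at0 hm e1 d2 (b1g_far (leI_ok p3) (far T' hT' hS'))) hS' ((leI_ok p4).trans d3)
    (d4.trans_lt (ltI_ok p5))

theorem b1g_bd {s m x : ℝ} {g a b : ℤ} (hs : 0 ≤ s) (hg : s * toR g ≤ m) (hA : 0 ≤ toR b)
    (h : leI a (mulD g b) = true) (hx : x ≤ toR a) : s * x ≤ m * toR b := by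
  have h1 := (hx.trans (leI_ok h)).trans (mulD_ok g b)
  have h2 := mul_le_mul_of_nonneg_left h1 hs
  have h3 := mul_le_mul_of_nonneg_right hg hA
  linarith [mul_assoc s (toR g) (toR b)]

/-- the hole lies in the ring -/
theorem b1g_hole (hR : z.chkRing L K = true) {g : ℤ} {f : LF} (h : z.hole g f = true) {P : Par}
    {s θ T t : ℝ} (hs : 0 ≤ s) (hg : s * toR g ≤ 2 * P.kap * toR z.sm ^ 2) (hi : f.c.In P θ)
    (ha : toR f.ya ≤ t) (hb : t ≤ toR f.yb) (h1 : P.vre = s * θ) (h2 : T + P.vim = s * t) :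
    z.In P T := by
  obtain ⟨x0, x1, y1, y2, -⟩ := b1g_ring hR
  simp only [Zn.hole, Bool.and_eq_true] at h
  obtain ⟨⟨⟨⟨-, p1⟩, p2⟩, p3⟩, p4⟩ := h
  have e1 := b1g_bd (x := -θ) hs hg x1.le p1 (by rw [toR_neg]; linarith [hi.h3])
  have e2 := b1g_bd hs hg x0.le p2 hi.h4
  have e3 := b1g_bd (x := -t) hs hg y2.le p3 (by rw [toR_neg]; linarith)
  have e4 := b1g_bd hs hg y1.le p4 hb
  refine ⟨?_, ?_, ?_, ?_⟩
  · change _ ≤ P.vre
    linarith
  · change P.vre ≤ _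
    linarith
  · change _ ≤ T + P.vim
    linarith
  · change T + P.vim ≤ _
    linarith

theorem b1g_vre {P : Par} (hP : P.Std) : -(2 * P.kap * (1 - P.kap)) ≤ P.vre := by
  have h1 := hP.nl
  have h2 := P.kap_nonneg
  have h3 := P.kap_lt
  have h4 := P.k2_nonneg
  have h5 : 1 ≤ (1 + P.kap) * (1 + P.k2) :=
    one_le_mul_of_one_le_of_one_le (by linarith) (by linarith)
  have h6 : 0 ≤ 2 * P.kap * (1 - P.kap) := mul_nonneg (by linarith) (by linarith)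
  rcases le_total 0 P.vre with h | h
  · linarith
  · linarith [mul_le_mul_of_nonpos_left h5 h]

/-- the disc of `dob_win` lies in the strip -/
theorem b1g_disc {θ t a b : ℝ} {a2 t1 t2 d r x y : ℤ} (ha : 1917 / 1000 ≤ a) (hb : -(21 / 10) ≤ b)
    (hb' : b ≤ -2) (h : (θ - a) ^ 2 + (t - b) ^ 2 ≤ (61 / 20) ^ 2) (hθ : θ ≤ toR a2)
    (hd : d = maxI 0 (qD 1917 1000 - a2)) (hr : r = qU 3721 400 - mulD d d)
    (hx : x = qD (-21) 10 - t1) (hy : y = t2 + 2 * one) (x0 : leI 0 x = true)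
    (y0 : leI 0 y = true) (p1 : leI r (mulD x x) = true) (p2 : ltI r (mulD y y) = true) :
    toR t1 ≤ t ∧ t < toR t2 := by
  have d1 : toR d = max 0 (toR (qD 1917 1000) - toR a2) := by
    rw [hd, toR_maxI, toR_zero, toR_sub]
  have q1 := qD_ok 1917 (b := 1000) (by norm_num)
  have q2 := qU_ok 3721 (b := 400) (by norm_num)
  have q3 := qD_ok (-21) (b := 10) (by norm_num)
  push_cast at q1 q2 q3
  have d2 : toR d * toR d ≤ (θ - a) ^ 2 := by
    rw [← sq, ← sq_abs (θ - a)]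
    refine pow_le_pow_left₀ (d1 ▸ le_max_left _ _) ?_ 2
    rw [d1, abs_sub_comm]
    exact max_le (abs_nonneg _) (le_trans (by linarith) (le_abs_self _))
  have r1 : (t - b) ^ 2 ≤ toR r := by
    rw [hr, toR_sub]
    linarith [mulD_ok d d]
  have x1 : toR x = toR (qD (-21) 10) - toR t1 := by rw [hx, toR_sub]
  have y1 : toR y = toR t2 + 2 := by
    rw [hy, toR_add, toR_intmul, toR_one]
    norm_num
  have x2 := (abs_le_of_sq_le_sq' (a := t - b)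
    (by linarith [leI_ok p1, mulD_ok x x, sq (toR x)]) (b1g_nn x0)).1
  have y2 := (abs_lt_of_sq_lt_sq' (a := t - b)
    (by linarith [ltI_ok p2, mulD_ok y y, sq (toR y)]) (b1g_nn y0)).2
  constructor <;> linarith

theorem Zn.chk_ok (hL : ∀ f ∈ L, f.Ok) (hK : ∀ c ∈ K, c.C) (h : z.chk L K = true) : z.Ok := by
  rw [Zn.chk, Bool.and_eq_true] at h
  obtain ⟨hR, h⟩ := h
  have ring := Zn.chkRing_ok hL hK hR
  have sm := (b1g_ring hR).2.2.2.2
  intro P hP h1 h2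
  have hk := Par.kap_pos hP.hδ
  have hk2 : 0 < 2 * P.kap := by positivity
  have hv := b1g_vre hP
  have hs := mulD_ok z.sm z.sm
  rw [← sq] at hs
  have u0 : ∀ x : ℝ, x = 2 * P.kap * (x / (2 * P.kap)) := fun x =>
    (mul_div_cancel₀ _ hk2.ne').symm
  cases hc : leI z.k2 (qD 3 10) <;> rw [hc] at h
  · rw [cond_false, Bool.and_eq_true] at h
    have q1 := qU_ok 1 (b := 4) (by norm_num)
    push_cast at q1
    have q2 : 1 / 4 ≤ P.kap := by linarith [leI_ok h.1]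
    obtain ⟨f, hf, hp, hi⟩ := b1g_line h.2 hP h1 h2 (θ := P.vre / (2 * P.kap))
      (by rw [toR_neg, toR_one, le_div_iff₀ hk2]; nlinarith)
      (by
        rw [toR_intmul, toR_one, div_le_iff₀ hk2]
        have := P.vre_six hP.lam q2
        push_cast
        linarith)
    simp only [Zn.str3, Bool.and_eq_true, Bool.or_eq_true] at hp
    obtain ⟨⟨⟨⟨⟨p1, p2⟩, -⟩, p6⟩, p3⟩, p4⟩ := hp
    have hm := Nat.eq_of_beq_eq_true p1
    have hi := hi (by omega)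
    have p5 := (piU_ok.trans_lt (ltI_ok p3)).trans_le (mulD_ok _ _)
    rw [toR_sub] at p5
    have p7 := mul_le_mul_of_nonneg_right hi.h1 (sub_nonneg.2 (leI_ok p6))
    have c0 : ∀ T, 2 * P.kap * toR f.t1 - P.vim ≤ T →
        T ≤ 2 * P.kap * toR f.t1 - P.vim + 2 * Real.pi →
        toR f.t1 ≤ (T + P.vim) / (2 * P.kap) ∧ (T + P.vim) / (2 * P.kap) < toR f.t2 :=
      fun T a1 a2 => ⟨by rw [le_div_iff₀ hk2]; linarith, by rw [div_lt_iff₀ hk2]; linarith⟩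
    refine zero_period P (2 * P.kap * toR f.t1 - P.vim) fun T T' a1 a2 b1 b2 hS hS' => ?_
    have c1 := c0 T a1 a2
    have c2 := c0 T' b1 b2
    have A := hL f hf P _ T _ hi (b1g_at2 hm (u0 _) (u0 _) (b1g_far0 p2 T)) hS c1.1 c1.2
    have B := hL f hf P _ T' _ hi (b1g_at2 hm (u0 _) (u0 _) (b1g_far0 p2 T')) hS' c2.1 c2.2
    rcases p4 with p4 | p4
    · exact A.2.2 p4 T' _ (b1g_at2 hm (u0 _) (u0 _) (b1g_far0 p2 T')) hS' c2.1 c2.2
    · have hg := mul_le_mul_of_nonneg_left hs hk2.le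
      exact ring P hP h1 h2 T T' (b1g_hole hR p4 hk2.le hg hi A.1 A.2.1 (u0 _) (u0 _))
        (b1g_hole hR p4 hk2.le hg hi B.1 B.2.1 (u0 _) (u0 _)) hS hS'
  · rw [cond_true] at h
    have q1 := qD_ok 3 (b := 10) (by norm_num)
    have q2 := qU_ok 101 (b := 50) (by norm_num)
    push_cast at q1 q2
    obtain ⟨w0, t0, a, b, w1, w2, w3, w4⟩ := P.dob_win hP.hδ (by linarith [leI_ok hc])
    obtain ⟨f, hf, hp, hi⟩ := b1g_line h hP h1 h2 (θ := P.vre / (2 * P.kap))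
      (by rw [toR_neg, toR_one, le_div_iff₀ hk2]; nlinarith)
      (le_trans (by rw [div_le_iff₀ hk2]; linarith) q2)
    simp only [Zn.str2, Bool.and_eq_true, Bool.or_eq_true, fI_eq] at hp
    obtain ⟨⟨p1, p2⟩, ⟨⟨⟨x0, y0⟩, r1⟩, r2⟩, p4⟩ := hp
    have hm := Nat.eq_of_beq_eq_true p1
    have hi := hi (by omega)
    refine zero_period P t0 fun T T' a1 a2 b1 b2 hS hS' => ?_
    have c1 := b1g_disc w1 w2 w3 (w4 T a1 a2 hS) hi.h4 rfl rfl rfl rfl x0 y0 r1 r2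
    have c2 := b1g_disc w1 w2 w3 (w4 T' b1 b2 hS') hi.h4 rfl rfl rfl rfl x0 y0 r1 r2
    have A := hL f hf P _ T _ hi (b1g_at2 hm (u0 _) (u0 _) (b1g_far0 p2 T)) hS c1.1 c1.2
    have B := hL f hf P _ T' _ hi (b1g_at2 hm (u0 _) (u0 _) (b1g_far0 p2 T')) hS' c2.1 c2.2
    rcases p4 with p4 | p4
    · exact A.2.2 p4 T' _ (b1g_at2 hm (u0 _) (u0 _) (b1g_far0 p2 T')) hS' c2.1 c2.2
    · have hg := mul_le_mul_of_nonneg_left hs hk2.le
      exact ring P hP h1 h2 T T' (b1g_hole hR p4 hk2.le hg hi A.1 A.2.1 (u0 _) (u0 _))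
        (b1g_hole hR p4 hk2.le hg hi B.1 B.2.1 (u0 _) (u0 _)) hS hS'

end

def b1Lf (n : ℕ × ℕ) : LF := ⟨b1Cl n.1, b1F n.2 0, b1F n.2 16, b1F n.2 32, b1F n.2 48, b1Bit n.2 64⟩
def b1Zn (n : ℕ) : Zn :=
  ⟨b1F n 0, b1F n 16, b1F n 32, b1F n 48, b1F n 64, b1F n 80, b1F n 96, b1F n 112⟩

def B1L (L : List (ℕ × ℕ)) : Prop := ∀ n ∈ L, (b1Lf n).Ok
def B1C (K : List ℕ) : Prop := ∀ n ∈ K, (b1Cl n).C

theorem B1L.nil : B1L [] := fun _ h => absurd h List.not_mem_nil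
theorem B1C.nil : B1C [] := fun _ h => absurd h List.not_mem_nil
theorem B1L.app {L L' : List (ℕ × ℕ)} (h : B1L L) (h' : B1L L') : B1L (List.append L L') :=
  fun n hn => (List.mem_append.1 hn).elim (h n) (h' n)
theorem B1C.app {L L' : List ℕ} (h : B1C L) (h' : B1C L') : B1C (List.append L L') :=
  fun n hn => (List.mem_append.1 hn).elim (h n) (h' n)
theorem B1C.cons {n : ℕ} {L : List ℕ} (h : (b1Cl n).C) (h' : B1C L) : B1C (n :: L) :=
  List.forall_mem_cons.2 ⟨h, h'⟩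

section

variable {L : List (ℕ × ℕ)}

/-- the cut part of a line -/
def b1A (B nc c t w : ℕ) (l : List (ℕ × ℕ)) : Bool :=
  b1Bit t 64 && (!Nat.beq (b1Cl c).m 1 && (leI (b1Cl c).Z 0 || leI (b1F t 48) 0)) &&
    b1Ml B nc (b1Cl c) (b1V w 0) (b1V w 13) (b1F t 48) l (b1F t 32)

theorem b1Zn_ok {K : List ℕ} (hL : B1L L) (hK : B1C K) {n : ℕ}
    (h : (b1Zn n).chk (L.map b1Lf) (K.map b1Cl) = true) : (b1Zn n).Ok :=
  Zn.chk_ok (List.forall_mem_map.2 hL) (List.forall_mem_map.2 hK) h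

end

/-- the zones reach `κ = 1` -/
def b1Reach : List ℕ → ℤ → Bool
  | [], a => leI one a
  | n :: l, a => leI (b1Zn n).k1 a && b1Reach l (b1Zn n).k2

theorem b1f_reach {l : List ℕ} {a : ℤ} (hr : b1Reach l a = true) {x : ℝ} (h1 : toR a ≤ x)
    (h2 : x < 1) : ∃ n ∈ l, toR (b1Zn n).k1 ≤ x ∧ x ≤ toR (b1Zn n).k2 := by
  induction l generalizing a with
  | nil =>
    have := leI_ok hr
    rw [toR_one] at this
    linarith
  | cons n l ih =>
    rw [b1Reach, Bool.and_eq_true] at hr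
    rcases le_total x (toR (b1Zn n).k2) with h3 | h3
    · exact ⟨n, List.mem_cons_self, (leI_ok hr.1).trans h1, h3⟩
    · exact (ih hr.2 h3).imp fun _ h => ⟨List.mem_cons_of_mem _ h.1, h.2⟩

/-- the zones settle the branch -/
theorem b1_final {l : List ℕ} (h : ∀ n ∈ l, (b1Zn n).Ok) (hr : b1Reach l 0 = true) (P : Par)
    (hd : 0 < P.δ) (ht : P.t ≤ 11 / 20) : P.Uniq 1 := by
  rcases lt_or_ge (-(2 * P.kap * (1 - P.kap))) (P.vre * ((1 + P.kap) * (1 + P.k2))) with h1 | h1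
  · obtain ⟨n, hn, h2, h3⟩ := b1f_reach hr (toR_zero.le.trans P.kap_nonneg) P.kap_lt
    exact h n hn P ⟨hd, h1, P.lam_le ht⟩ h2 h3
  · exact zero_period P 0 fun T _ _ _ _ _ hT _ => absurd hT (P.dobL hd h1 T)

end Pool.Agent.Sok
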