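import Pool.Agent.Sok.TEnd
import Pool.Agent.Sok.Dat

/-! Denominator two near the turning point: the region, monotonicity of the moduli, uniqueness. -/

set_option autoImplicit false

namespace Pool.Agent.Sok

open Complex

def bK : ℤ := 439804231680
def bX0 : ℤ := -285873274880
def bX1 : ℤ := 494781071360
def bS : ℤ := 659707396096

/-- the box lies in the region treated here -/
def inB2 (b : Box) : Bool :=
  ltI 0 b.tl && leI 0 b.pl && leI b.ph half && fI (one - mulU b.th b.th) fun d => ltI 0 d &&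
  fI (divD (2 * b.tl) (one - mulD b.tl b.tl)) fun lL => fI (divU (2 * b.th) d) fun lH =>
  ltI 0 lL && fI (divD (4 * mulD b.pl (one - b.pl)) lH) fun mL =>
  fI (divU (4 * mulU b.ph (one - b.ph)) lL) fun mH =>
  fI (divD one (sqrtU (one + mulU mH mH) + mH)) fun aL =>
  fI (sqrtD (one + mulD mL mL) + mL) fun g => ltI 0 g && fI (divU one g) fun aH =>
  fI (sqrtD aL) fun kL => fI (sqrtU aH) fun kH => leI bK kL &&
  fI (one + divD one kH) fun u => fI (one + divU one kL) fun w =>
  fI (divD (mulD (mulD (mulD u u) (one + aL)) lL) (8 * mulU (one - b.pl) (one - b.pl))) fun eL =>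
  fI (8 * mulD (one - b.ph) (one - b.ph)) fun q => ltI 0 q &&
  fI (divU (mulU (mulU (mulU w w) (one + aH)) lH) q) fun eH =>
  ltI 0 eL && leI bX0 (logD eL + divD (2 * kL) (one + aH)) &&
  fI (logU eH + divU (2 * kH) (one + aL)) fun xH =>
  leI xH bX1 && leI xH (mulD (2 * kL) (mulD bS bS))

/-- the region -/
structure Par.Reg (P : Par) : Prop where
  hδ : 0 < P.δ
  k : toR bK ≤ P.kap
  x0 : toR bX0 ≤ P.vre
  x1 : P.vre ≤ toR bX1
  xs : P.vre ≤ 2 * P.kap * toR bS ^ 2

theorem b2_n (n a : ℤ) : toR (n * a) = n * toR a := toR_intmul n a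

theorem b2_lam (P : Par) : P.lam = 2 * P.t / (1 - P.t ^ 2) := by
  have h1 := P.cg_eq
  have h2 := P.sg_eq
  have h3 : P.sg = P.lam * P.cg := rfl
  have t0 := P.t_nonneg
  have t1 := P.t_lt
  have h4 : 0 < 1 - P.t ^ 2 := by nlinarith
  have h5 : 0 < 1 + P.t ^ 2 := by positivity
  rw [h2, h1] at h3
  field_simp at h3 ⊢
  linarith

theorem b2_lamU (P : Par) : P.lam = 4 * P.lamU * (P.p * (1 - P.p)) := by
  unfold Par.lam Par.lamU Par.s2
  ring

theorem b2_k2 {P : Par} (hδ : 0 < P.δ) {m : ℝ} (hm : m = 4 * (P.p * (1 - P.p)) / P.lam) :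
    P.k2 = 1 / (Real.sqrt (1 + m * m) + m) := by
  have hl := Par.lamU_pos hδ
  have hp := P.hp0
  have hq := P.q_pos
  have e : m = 1 / P.lamU := by
    rw [hm, b2_lamU]
    field_simp
  have e2 : Real.sqrt (1 + m * m) = Real.sqrt (1 + P.lamU ^ 2) / P.lamU := by
    have e3 : 1 + P.lamU ^ 2 = (1 + m * m) * (P.lamU * P.lamU) := by
      rw [e]
      field_simp
      ring
    rw [e3, Real.sqrt_mul (add_nonneg zero_le_one (mul_self_nonneg m)),
      Real.sqrt_mul_self hl.le, mul_div_cancel_right₀ _ hl.ne']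
  rw [e2, e]
  unfold Par.k2
  have : 0 ≤ Real.sqrt (1 + P.lamU ^ 2) := Real.sqrt_nonneg _
  field_simp
  ring

theorem b2_vre {P : Par} (hδ : 0 < P.δ) : P.vre = Real.log ((1 + 1 / P.kap) * (1 + 1 / P.kap) *
    (1 + P.k2) * P.lam / (8 * ((1 - P.p) * (1 - P.p)))) + 2 * P.kap / (1 + P.k2) := by
  have h1 := P.exp_vre
  have h2 := P.lamU_k2
  have h3 := P.kap_sq
  have hk := Par.kap_pos hδ
  have hp := P.hp0
  have hq := P.q_pos
  have e : (1 + 1 / P.kap) * (1 + 1 / P.kap) * (1 + P.k2) * P.lam / (8 * ((1 - P.p) * (1 - P.p)))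
      = Real.exp (P.vre - 2 * P.kap / (1 + P.k2)) := by
    have e1 : Real.exp (P.vre - 2 * P.kap / (1 + P.k2)) *
        Real.exp (2 * P.kap / (1 + P.k2) - P.vre) = 1 := by
      rw [← Real.exp_add]
      simp
    generalize Real.exp (P.vre - 2 * P.kap / (1 + P.k2)) = A at e1 ⊢
    generalize Real.exp (2 * P.kap / (1 + P.k2) - P.vre) = B at e1 h1
    have e2 : (1 - P.kap) * (1 - P.p) * A = (1 + P.kap) * P.p := by
      have e3 : (1 - P.kap) * (1 - P.p) = (1 + P.kap) * B * P.p := by
        rw [← h1]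
        field_simp
      rw [e3]
      linear_combination (1 + P.kap) * P.p * e1
    have hk1 : 0 < 1 - P.kap := sub_pos.2 P.kap_lt
    rw [← h3] at h2
    rw [b2_lamU, ← h3]
    have e4 : A = (1 + P.kap) * P.p / ((1 - P.kap) * (1 - P.p)) := by
      rw [← e2]
      field_simp
    rw [e4]
    field_simp
    linear_combination (4 * (1 + P.kap)) * h2
  rw [e, Real.log_exp]
  ring

theorem inB2_reg {b : Box} (h : inB2 b = true) {P : Par} (hP : b.Mem P) : P.Reg := by
  unfold inB2 at h
  simp only [fI_eq, Bool.and_eq_true] at h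
  obtain ⟨⟨⟨c1, c2⟩, c3⟩, c4, c5, c6, c7, c8, ⟨c9, c10⟩, c11, c12⟩ := h
  obtain ⟨p1, p2, t1, t2⟩ := hP
  replace c1 := ltI_ok c1
  replace c2 := leI_ok c2
  replace c3 := leI_ok c3
  replace c4 := ltI_ok c4
  replace c5 := ltI_ok c5
  replace c6 := ltI_ok c6
  replace c7 := leI_ok c7
  replace c8 := ltI_ok c8
  replace c9 := ltI_ok c9
  replace c10 := leI_ok c10
  replace c11 := leI_ok c11
  replace c12 := leI_ok c12
  rw [toR_zero] at c1 c2 c4 c5 c6 c8 c9
  rw [tch_half] at c3
  have t0 : 0 < P.t := c1.trans_le t1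
  have t3 := P.t_lt
  have hp := P.hp0
  have hq := P.q_pos
  have t4 : 0 < 1 - P.t ^ 2 := by nlinarith
  have hl : 0 < P.lam := by rw [b2_lam]; positivity
  have hδ : 0 < P.δ := by
    rcases P.hδ.eq_or_lt with e | e
    · unfold Par.lam at hl
      rw [← e, zero_mul] at hl
      exact absurd hl (lt_irrefl _)
    · exact e
  have hk := Par.kap_pos hδ
  have hk2 := Par.k2_pos hδ
  have l1 : toR (divD (2 * b.tl) (one - mulD b.tl b.tl)) ≤ P.lam := by
    rw [b2_lam]
    refine divD_le (by rw [b2_n]; positivity) t4 (by rw [b2_n]; push_cast; linarith) ?_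
    have := mulD_le c1.le c1.le t1 t1
    rw [toR_sub, toR_one]
    nlinarith
  have l2 : P.lam ≤ toR (divU (2 * b.th) (one - mulU b.th b.th)) := by
    rw [b2_lam]
    refine divU_le (by positivity) c4 (by rw [b2_n]; push_cast; linarith) ?_
    have := mulU_le t0.le t0.le t2 t2
    rw [toR_sub, toR_one]
    nlinarith
  generalize divD (2 * b.tl) (one - mulD b.tl b.tl) = lL at *
  generalize divU (2 * b.th) (one - mulU b.th b.th) = lH at *
  obtain ⟨m, hm⟩ : ∃ m, m = 4 * (P.p * (1 - P.p)) / P.lam := ⟨_, rfl⟩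
  have m0 : 0 ≤ m := by rw [hm]; positivity
  have q1 : 0 ≤ toR (one - b.pl) := by rw [toR_sub, toR_one]; linarith
  have q2 : 0 ≤ toR (one - b.ph) := by rw [toR_sub, toR_one]; linarith
  have m00 : 0 ≤ toR (4 * mulD b.pl (one - b.pl)) := by
    rw [b2_n]
    exact mul_nonneg (by norm_num) (mulD_nonneg c2 q1)
  have m1 : toR (divD (4 * mulD b.pl (one - b.pl)) lH) ≤ m := by
    rw [hm]
    refine divD_le m00 hl ?_ l2
    have := mulD_ok b.pl (one - b.pl)
    rw [toR_sub, toR_one] at this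
    rw [b2_n]
    push_cast
    nlinarith
  have m3 := divD_nonneg m00 (hl.le.trans l2)
  have m2 : m ≤ toR (divU (4 * mulU b.ph (one - b.ph)) lL) := by
    rw [hm]
    refine divU_le (by positivity) c5 ?_ l1
    have := mulU_ok b.ph (one - b.ph)
    rw [toR_sub, toR_one] at this
    rw [b2_n]
    push_cast
    nlinarith
  generalize divD (4 * mulD b.pl (one - b.pl)) lH = mL at *
  generalize divU (4 * mulU b.ph (one - b.ph)) lL = mH at *
  have s0 : 0 < Real.sqrt (1 + m * m) := Real.sqrt_pos.2 (by positivity)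
  have a0 : Real.sqrt (1 + m * m) + m ≤ toR (sqrtU (one + mulU mH mH) + mH) := by
    rw [toR_add]
    refine add_le_add (le_trans (Real.sqrt_le_sqrt ?_) (sqrtU_ok _)) m2
    rw [toR_add, toR_one]
    have := mulU_le m0 m0 m2 m2
    linarith
  have a1 : toR (divD one (sqrtU (one + mulU mH mH) + mH)) ≤ P.k2 := by
    rw [b2_k2 hδ hm]
    exact divD_le (by rw [toR_one]; norm_num) (by positivity) toR_one.le a0
  have a3 : 0 ≤ toR (divD one (sqrtU (one + mulU mH mH) + mH)) :=
    divD_nonneg (by rw [toR_one]; norm_num) (le_trans (by positivity) a0)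
  have a2 : P.k2 ≤ toR (divU one (sqrtD (one + mulD mL mL) + mL)) := by
    rw [b2_k2 hδ hm]
    refine divU_le (by norm_num) c6 toR_one.ge ?_
    rw [toR_add]
    refine add_le_add (le_trans (sqrtD_ok _) (Real.sqrt_le_sqrt ?_)) m1
    rw [toR_add, toR_one]
    have := mulD_le m3 m3 m1 m1
    linarith
  generalize divD one (sqrtU (one + mulU mH mH) + mH) = aL at *
  generalize divU one (sqrtD (one + mulD mL mL) + mL) = aH at *
  have k1 : toR (sqrtD aL) ≤ P.kap := (sqrtD_ok _).trans (Real.sqrt_le_sqrt a1)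
  have k2 : P.kap ≤ toR (sqrtU aH) := (Real.sqrt_le_sqrt a2).trans (sqrtU_ok _)
  have k0 : 0 < toR (sqrtD aL) := lt_of_lt_of_le (by unfold toR bK; norm_num) c7
  generalize sqrtD aL = kL at *
  generalize sqrtU aH = kH at *
  have u1 : toR (one + divD one kH) ≤ 1 + 1 / P.kap := by
    rw [toR_add, toR_one]
    have := divD_le (a := one) (x := 1) (by rw [toR_one]; norm_num) hk toR_one.le k2
    linarith
  have u0 : 0 ≤ toR (one + divD one kH) := by
    rw [toR_add, toR_one]
    have := divD_nonneg (a := one) (by rw [toR_one]; norm_num) (hk.le.trans k2)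
    linarith
  have u2 : 1 + 1 / P.kap ≤ toR (one + divU one kL) := by
    rw [toR_add, toR_one]
    have := divU_le (a := one) (x := 1) (by norm_num) k0 toR_one.ge k1
    linarith
  generalize one + divD one kH = u at *
  generalize one + divU one kL = w at *
  have b0 : 0 ≤ toR (one + aL) := by rw [toR_add, toR_one]; linarith
  have b1 : toR (one + aL) ≤ 1 + P.k2 := by rw [toR_add, toR_one]; linarith
  have b2 : 1 + P.k2 ≤ toR (one + aH) := by rw [toR_add, toR_one]; linarith
  have b3 : 0 < toR (one + aL) := by rw [toR_add, toR_one]; linarith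
  obtain ⟨A, hA⟩ : ∃ A, A = (1 + 1 / P.kap) * (1 + 1 / P.kap) * (1 + P.k2) * P.lam /
    (8 * ((1 - P.p) * (1 - P.p))) := ⟨_, rfl⟩
  have A0 : 0 < A := by rw [hA]; positivity
  have e1 : toR (divD (mulD (mulD (mulD u u) (one + aL)) lL)
      (8 * mulU (one - b.pl) (one - b.pl))) ≤ A := by
    rw [hA]
    have n1 := mulD_nonneg u0 u0
    have n2 := mulD_nonneg n1 b0
    refine divD_le (mulD_nonneg n2 c5.le) (by positivity)
      (mulD_le n2 c5.le (mulD_le n1 b0 (mulD_le u0 u0 u1 u1) b1) l1) ?_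
    have q3 : 1 - P.p ≤ toR (one - b.pl) := by rw [toR_sub, toR_one]; linarith
    have := mulU_le hq.le hq.le q3 q3
    rw [b2_n]
    push_cast
    linarith
  have e2 : A ≤ toR (divU (mulU (mulU (mulU w w) (one + aH)) lH)
      (8 * mulD (one - b.ph) (one - b.ph))) := by
    rw [hA]
    refine divU_le (by positivity) c8 (mulU_le (by positivity) hl.le (mulU_le (by positivity)
      (by positivity) (mulU_le (by positivity) (by positivity) u2 u2) b2) l2) ?_
    have q3 : toR (one - b.ph) ≤ 1 - P.p := by rw [toR_sub, toR_one]; linarith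
    have := mulD_le q2 q2 q3 q3
    rw [b2_n]
    push_cast
    linarith
  have v1 := (logD_ok c9).trans (Real.log_le_log c9 e1)
  have v2 := (Real.log_le_log A0 e2).trans (logU_ok (A0.trans_le e2))
  have d1 : toR (divD (2 * kL) (one + aH)) ≤ 2 * P.kap / (1 + P.k2) :=
    divD_le (by rw [b2_n]; positivity) (by positivity) (by rw [b2_n]; push_cast; linarith) b2
  have d2 : 2 * P.kap / (1 + P.k2) ≤ toR (divU (2 * kH) (one + aL)) :=
    divU_le (by positivity) b3 (by rw [b2_n]; push_cast; linarith) b1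
  have hv := b2_vre hδ
  rw [← hA] at hv
  rw [toR_add] at c10 c11 c12
  have s1 : 0 ≤ toR bS := by unfold toR bS; norm_num
  have f1 : toR (mulD (2 * kL) (mulD bS bS)) ≤ 2 * P.kap * (toR bS * toR bS) :=
    mulD_le (by rw [b2_n]; positivity) (mulD_nonneg s1 s1) (by rw [b2_n]; push_cast; linarith)
      (mulD_ok _ _)
  exact ⟨hδ, c7.trans k1, by linarith, by linarith, by rw [sq]; linarith⟩

end Pool.Agent.Sok
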