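import Pool.Agent.Sok.TEnd

/-! Direct integration near the turning point, in the scaling with large parameter one. -/

set_option autoImplicit false

namespace Pool.Agent.Sok

open TM Complex Finset

/-- a vertex `(u, v) + κ² (a1, a2) + s (b1, b2)` -/
structure CV where
  u : ℤ
  v : ℤ
  a1 : ℤ
  a2 : ℤ
  b1 : ℤ
  b2 : ℤ

/-- a prepared segment -/
structure CP where
  z : TM
  H : TM
  P : TM
  m : ℤ
  hl : ℤ

/-- a prepared ray -/
structure CR where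
  ps : List CP
  ze : TM
  psi : TM
  f1 : TM
  f2 : TM
  me : ℤ

/-- a prepared column -/
structure CB where
  k2 : TM
  s : TM
  up : CR
  dn : CR

def ccVtx (k2 s : TM) (w : CV) (k : TM → Bool) : Bool :=
  mulc k2 w.a1 w.a2 fun a => mulc s w.b1 w.b2 fun b => add a b fun a => addc a w.u w.v k

def ccPiece (C : Chart) (up : Bool) (z0 z1 psi : TM) (k : CP → TM → Bool) : Bool :=
  add z0 z1 fun a => ndiv a 2 fun zc => sub z1 z0 fun H => ndiv H 2 fun hh => ab hh fun hl =>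
  C.jet4 zc fun f1 f2 f3 f4 => var 3 (-one) one fun u => mul u hh fun a => add zc a fun z =>
  C.sup z fun _ K5 => ab z fun m => mul hh hh fun h2 => mul h2 hh fun h3 => mul h2 h2 fun h4 =>
  mul f1 hh fun a1 => mul f2 h2 fun a => ndiv a 2 fun a2 => mul f3 h3 fun a => ndiv a 6 fun a3 =>
  mul f4 h4 fun a => ndiv a 24 fun a4 => fI (mulU hl hl) fun l2 =>
  fI (divU (mulU K5 (mulU (mulU l2 l2) hl)) (120 * one)) fun r =>
  add a1 a3 fun od => add a2 a4 fun ev => add psi od fun a => sub a ev fun a => wid a r fun pc =>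
  mul u a4 fun a => add a a3 fun a => mul u a fun a => add a a2 fun a => mul u a fun a =>
  add a a1 fun a => mul u a fun a => add a pc fun a => wid a r fun P =>
  add pc od fun a => add a ev fun a => wid a r fun psi' =>
  cond up (k ⟨z, H, P, m, hl⟩ psi') (neg H fun H => k ⟨z, H, P, m, hl⟩ psi')

def ccRay (C : Chart) (k2 s : TM) (up : Bool) :
    List CV → TM → TM → List CP → (CR → Bool) → Bool
  | [], z, psi, ps, k => C.jet2 z fun f1 f2 => ab z fun me => k ⟨ps, z, psi, f1, f2, me⟩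
  | w :: l, z, psi, ps, k => ccVtx k2 s w fun z1 => ccPiece C up z z1 psi fun p psi' =>
      ccRay C k2 s up l z1 psi' (p :: ps) k

/-- prepares the two rays from the turning point -/
def ccPrep (k2 s : TM) (m : ℕ) (dbl : Bool) (vu vd : List CV) (k : CB → Bool) : Bool :=
  cst 0 0 fun o => mkS k2 s o m dbl fun c => ccRay (tsChart c) k2 s true vu o o [] fun Ru =>
  ccRay (tsChart c) k2 s false vd o o [] fun Rd => k ⟨k2, s, Ru, Rd⟩

/-- adds `E z^j` to the entry `j` -/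
def accMu (z : TM) : List TM → TM → (List TM → Bool) → Bool
  | [], _, k => k []
  | [a], E, k => add a E fun a => k [a]
  | a :: b :: l, E, k => add a E fun a => mul E z fun E => accMu z (b :: l) E fun l => k (a :: l)

/-- bound for `2 x^K / K!` -/
def remK (x : ℤ) (K : ℕ) : ℤ :=
  qU (Int.ofNat (2 * Int.natAbs x ^ K)) (1099511627776 ^ K * Nat.factorial K)

def ccAcc (cu cv r thr : ℤ) (K : ℕ) :
    List CP → List TM → ℤ → ℤ → (List TM → ℤ → ℤ → Bool) → Bool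
  | [], mu, e0, e1, k => k mu e0 e1
  | p :: l, mu, e0, e1, k =>
    mulc p.z cv (-cu) fun a => add p.P a fun Q => fI (mulU r p.m) fun x => hi Q fun h =>
    fI (mulU (2 * p.hl) (expU (h + x))) fun sb =>
    cond (leI sb thr)
      (fI (e0 + sb) fun e0 => fI (e1 + mulU p.m sb) fun e1 => ccAcc cu cv r thr K l mu e0 e1 k)
      (leI (2 * x) ((K + 1 : ℕ) * one) && exp Q fun E => mul E p.H fun E => ab E fun b =>
        fI (mulU b (remK x K)) fun er => ndiv p.z 4 fun z4 => accMu z4 mu E fun mu =>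
        fI (e0 + er) fun e0 => fI (e1 + mulU p.m er) fun e1 => ccAcc cu cv r thr K l mu e0 e1 k)

def ccEnd (en : End) (cu cv r : ℤ) (zz : TM) (R : CR) (e0 e1 : ℤ) (k : ℤ → ℤ → Bool) : Bool :=
  mulc R.ze cv (-cu) fun t => add R.psi t fun t => hi t fun h => mi zz fun t =>
  sub R.f1 t fun f1 => fI (-(h + mulU r R.me)) fun g =>
  en ⟨R.ze, f1, R.f2, true, 0, 0, g, 0, 0, 0⟩ fun i M =>
  fI (e0 + i) fun e0 => fI (e1 + M + mulU R.me i) fun e1 => k e0 e1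

/-- multiplication by the rational number `p / q` -/
def qmul (a : TM) (p : ℤ) (q : ℕ) (k : TM → Bool) : Bool :=
  ab a fun b => smul a (qD p q) fun c => wid c (mulU b (qU p q - qD p q)) k

def mapK (f : ℕ → TM → (TM → Bool) → Bool) : List TM → ℕ → (List TM → Bool) → Bool
  | [], _, k => k []
  | a :: l, j, k => f j a fun b => mapK f l (j + 1) fun l => k (b :: l)

/-- the expansion at a centre -/
structure CC where
  fl : Bool
  co0 : List TM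
  co1 : List TM
  e0 : ℤ
  e1 : ℤ
  cu : ℤ
  cv : ℤ
  r : ℤ

/-- order `K` expansion at `(cu, cv)`, valid in the disc of radius `r`; `fl` asks for the moment -/
def ccCen (B : CB) (kind K : ℕ) (thr : ℤ) (fl : Bool) (cu cv r : ℤ) (k : CC → Bool) : Bool :=
  cst 0 0 fun o => cst cu cv fun zz => wid zz r fun zz => rmul B.s zz fun va =>
  mkTE B.k2 B.s B.s va false fun e => mkAc one (cond fl 1 0) fun a =>
  ccAcc cu cv r thr K B.up.ps (List.replicate (cond fl (K + 1) K) o) 0 0 fun mu e0 e1 =>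
  ccAcc cu cv r thr K B.dn.ps mu e0 e1 fun mu e0 e1 =>
  ccEnd (endT e a kind) cu cv r zz B.up e0 e1 fun e0 e1 =>
  ccEnd (endD e a false) cu cv r zz B.dn e0 e1 fun e0 e1 =>
  mapK (fun _ => mean3) mu 0 fun mu =>
  mapK (fun j a => qmul a (4 ^ j : ℕ) (Nat.factorial j)) (List.take K mu) 0 fun co0 =>
  mapK (fun j a => qmul a (4 ^ (j + 1) : ℕ) (Nat.factorial j)) (cond fl (List.tail mu) []) 0
    fun co1 => k ⟨fl, co0, co1, e0, e1, cu, cv, r⟩

def horL (w : TM) : List TM → (TM → Bool) → Bool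
  | [], k => cst 0 0 k
  | [a], k => k a
  | a :: b :: l, k => horL w (b :: l) fun s => mul s w fun s => add s a k

/-- models of the integral and of the first moment on a tile (variables `2` and `3`) -/
def ccTile (c : CC) (x1 x2 y1 y2 : ℤ) (k : TM → TM → Bool) : Bool :=
  leI 0 c.r && var 2 (x1 - c.cu) (x2 - c.cu) fun a => var 3 (y1 - c.cv) (y2 - c.cv) fun b => mi a fun a =>
  sub b a fun w => horL w c.co0 fun S0 => wid S0 c.e0 fun S0 => horL w c.co1 fun S1 =>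
  wid S1 c.e1 fun S1 => k S0 S1

/-- the box lies in the disc -/
def inZ (cu cv r x1 x2 y1 y2 : ℤ) : Bool :=
  fI (maxI (x2 - cu) (cu - x1)) fun dx => fI (maxI (y2 - cv) (cv - y1)) fun dy =>
  leI 0 r && leI (mulU dx dx + mulU dy dy) (mulD r r)

/-- a cover by tiles -/
inductive CT : Type
  | skip
  | leaf
  | sx (m : ℤ) (l r : CT)
  | sy (m : ℤ) (l r : CT)
  | cen (cu cv r : ℤ) (t : CT)

def ccTree (B : CB) (kind K : ℕ) (thr : ℤ) (fl : Bool) (sk : ℤ → ℤ → ℤ → ℤ → Bool)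
    (lf : ℤ → ℤ → ℤ → ℤ → TM → TM → Bool) : CT → CC → ℤ → ℤ → ℤ → ℤ → Bool
  | .skip, _, x1, x2, y1, y2 => sk x1 x2 y1 y2
  | .leaf, c, x1, x2, y1, y2 => ccTile c x1 x2 y1 y2 (lf x1 x2 y1 y2)
  | .sx m l r, c, x1, x2, y1, y2 =>
      ccTree B kind K thr fl sk lf l c x1 m y1 y2 && ccTree B kind K thr fl sk lf r c m x2 y1 y2
  | .sy m l r, c, x1, x2, y1, y2 =>
      ccTree B kind K thr fl sk lf l c x1 x2 y1 m && ccTree B kind K thr fl sk lf r c x1 x2 m y2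
  | .cen cu cv r t, _, x1, x2, y1, y2 => inZ cu cv r x1 x2 y1 y2 &&
      ccCen B kind K thr fl cu cv r fun c => ccTree B kind K thr fl sk lf t c x1 x2 y1 y2

/-- the empty expansion -/
def cc0 (fl : Bool) : CC := ⟨fl, [], [], 0, 0, 0, 0, -1⟩

/-- the box lies outside the disc of radius `Z` -/
def outZ (Z x1 x2 y1 y2 : ℤ) : Bool :=
  fI (maxI (maxI x1 (-x2)) 0) fun dx => fI (maxI (maxI y1 (-y2)) 0) fun dy =>
  ltI (mulU Z Z) (mulD dx dx + mulD dy dy)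

def chkCC (k1 k2 s1 s2 Z thr : ℤ) (m K kind : ℕ) (vu vd : List CV) (t : CT) : Bool :=
  leI 0 k1 && var 0 (mulD k1 k1) (mulU k2 k2) fun a => var 1 s1 s2 fun s =>
  ccPrep a s m false vu vd fun B => ccTree B kind K thr false (outZ Z)
    (fun _ _ _ _ S _ => ablo S fun l => ltI 0 l) t (cc0 false) (-Z) Z (-Z) Z

/-- the scaling of this file -/
structure TX.Unit (X : TX) (ζ : ℂ) : Prop where
  m2 : X.m2 = X.c1
  L : X.L = 1
  v : X.P.v X.T = 2 * X.P.kap * X.c1 ^ 2 * ζ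

/-- the mean over `[-1, 1]` -/
noncomputable def hI (f : ℝ → ℂ) : ℂ := (1 / 2 : ℂ) * ∫ y in (-1 : ℝ)..1, f y

theorem hI_le {f : ℝ → ℂ} {b : ℝ} (h : ∀ y, |y| ≤ 1 → ‖f y‖ ≤ b) : ‖hI f‖ ≤ b := by
  have h1 := intervalIntegral.norm_integral_le_of_norm_le_const (a := -1) (b := 1) (f := f) (C := b)
    fun y hy => by
      rw [Set.uIoc_of_le (by norm_num)] at hy
      exact h y (abs_le.2 ⟨hy.1.le, hy.2⟩)
  rw [hI, norm_mul]
  norm_num at h1 ⊢
  linarith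

theorem hI_add {f g : ℝ → ℂ} (hf : Continuous f) (hg : Continuous g) :
    hI (fun y => f y + g y) = hI f + hI g := by
  rw [hI, hI, hI, intervalIntegral.integral_add (hf.intervalIntegrable _ _)
    (hg.intervalIntegrable _ _), mul_add]

theorem hI_mul (f : ℝ → ℂ) (c : ℂ) : hI (fun y => f y * c) = hI f * c := by
  rw [hI, hI, intervalIntegral.integral_mul_const, mul_assoc]

theorem hI_seg (J : Prim) (zc hh : ℂ) :
    hI (fun y => J.E (zc + y * hh) * (2 * hh)) = (J.P (zc + hh)).1 - (J.P (zc - hh)).1 ∧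
    hI (fun y => (zc + y * hh) * J.E (zc + y * hh) * (2 * hh))
      = (J.P (zc + hh)).2 - (J.P (zc - hh)).2 := by
  have hc := J.hc
  have i0 := intervalIntegral.integral_eq_sub_of_hasDerivAt (a := -1) (b := 1)
    (fun s _ => ta_comp (J.hA0 (zc + s * hh))) (Continuous.intervalIntegrable (by fun_prop) _ _)
  have i1 := intervalIntegral.integral_eq_sub_of_hasDerivAt (a := -1) (b := 1)
    (fun s _ => ta_comp (J.hA1 (zc + s * hh))) (Continuous.intervalIntegrable (by fun_prop) _ _)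
  simp only [ofReal_one, ofReal_neg, one_mul, neg_mul, ← sub_eq_add_neg] at i0 i1
  simp only [mul_comm 2 hh, ← mul_assoc, hI_mul _ 2]
  simp only [hI, Prim.P, i0, i1]
  constructor <;> ring

theorem cc_exp {G z : ℝ → ℂ} (hG : Continuous G) (hz : Continuous z) (w : ℂ) (K i : ℕ) {b : ℝ}
    (h : ∀ y, |y| ≤ 1 →
      ‖G y * z y ^ i * (cexp (w * z y) - ∑ j ∈ range K, (w * z y) ^ j / j.factorial)‖ ≤ b) :
    ‖hI (fun y => G y * z y ^ i * cexp (w * z y)) - ∑ j ∈ range K,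
      hI (fun y => G y * (z y / (4 : ℕ)) ^ (j + i)) * (4 ^ (j + i) / j.factorial) * w ^ j‖ ≤ b := by
  refine le_trans (le_of_eq (congrArg norm ?_)) (hI_le h)
  clear h
  induction K with
  | zero => simp
  | succ K ih =>
    rw [sum_range_succ, ← sub_sub, ih, ← hI_mul, ← hI_mul, sub_eq_iff_eq_add,
      ← hI_add (by fun_prop) (by fun_prop)]
    congr 1
    funext y
    rw [sum_range_succ, div_pow, mul_pow]
    push_cast
    field_simp
    ring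

theorem TX.E0_ne (X : TX) : X.J.E 0 ≠ 0 :=
  X.E_ne (Par.den_ne X.hδ (by simp [Par.al_ga X.hδ]))

theorem TX.taylor (X : TX) (hL : X.L = 1) {zc hh : ℂ} {K : ℝ} (hU : ∀ y : ℝ, |y| ≤ 1 →
    zc + y * hh ∈ X.J.U ∧ ‖X.J.f5 (zc + y * hh)‖ * ‖hh‖ ^ 5 / 120 ≤ K) {y : ℝ} (hy : |y| ≤ 1) :
    ∃ R : ℂ, ‖R‖ ≤ K ∧ X.J.E (zc + y * hh) = X.J.E zc * cexp (X.J.f1 zc * hh * y +
      X.J.f2 zc * hh ^ 2 / 2 * y ^ 2 + X.J.f3 zc * hh ^ 3 / 6 * y ^ 3 +
      X.J.f4 zc * hh ^ 4 / 24 * y ^ 4 + R) := by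
  obtain ⟨R, h1, h2⟩ := co_taylor (X.Jc (-X.J.f1 zc)) (z := zc) (D := y * hh) (K := K)
    (by rw [X.Jc_f1, add_neg_cancel]) (fun s hs => by
      have h3 := hU (s * y) (by
        rw [abs_mul, abs_of_nonneg hs.1]
        exact mul_le_one₀ hs.2 (abs_nonneg _) hy)
      rw [ofReal_mul, mul_assoc] at h3
      refine ⟨h3.1, le_trans ?_ h3.2⟩
      have h4 : ‖(y : ℂ) * hh‖ ≤ ‖hh‖ := by
        rw [norm_mul, norm_real]
        exact mul_le_of_le_one_left (norm_nonneg _) hy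
      change ‖X.J.f5 _‖ * _ / _ ≤ _
      gcongr) (s := 1) ⟨zero_le_one, le_rfl⟩
  refine ⟨R, by simpa using h1, ?_⟩
  rw [X.Jc_E, X.Jc_E, show (X.Jc (-X.J.f1 zc)).L = X.L from rfl, hL, ofReal_one, one_mul, one_mul,
    one_mul, one_mul, one_mul, mul_assoc, mul_assoc, mul_assoc, ← Complex.exp_add,
    ← Complex.exp_add, ← Complex.exp_add, ← eq_div_iff (Complex.exp_ne_zero _), mul_div_assoc,
    ← Complex.exp_sub] at h2
  rw [h2]
  congr 2
  change _ + (_ + (X.J.f2 zc * _ / 2 * _ + X.J.f3 zc * _ / 6 * _ + X.J.f4 zc * _ / 24 * _ + R))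
    - _ = _
  ring

theorem TX.piece (X : TX) (hL : X.L = 1) {c d ψ ζ A1 A2 A3 A4 : ℂ} {K : ℝ} (hU : ∀ y : ℝ, |y| ≤ 1 →
    c + y * d ∈ X.J.U ∧ ‖X.J.f5 (c + y * d)‖ * ‖d‖ ^ 5 / 120 ≤ K)
    (h : X.J.E (c - d) = X.J.E 0 * cexp (ψ - I * ζ * (c - d))) (e1 : A1 = (X.J.f1 c + I * ζ) * d)
    (e2 : A2 = X.J.f2 c * (d * d) / (2 : ℕ)) (e3 : A3 = X.J.f3 c * (d * d * d) / (6 : ℕ))
    (e4 : A4 = X.J.f4 c * (d * d * (d * d)) / (24 : ℕ)) : ∃ R0, ‖R0‖ ≤ K ∧ ∀ y : ℝ, |y| ≤ 1 →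
      ∃ R, ‖R‖ ≤ K ∧ X.J.E (c + y * d) = X.J.E 0 * cexp (y * (y * (y * (y * A4 + A3) + A2) + A1) +
        (ψ + (A1 + A3) - (A2 + A4) + R0) + R - I * ζ * (c + y * d)) := by
  obtain ⟨R0, r1, r2⟩ := X.taylor hL hU (y := -1) (by simp)
  rw [ofReal_neg, ofReal_one, neg_one_mul, ← sub_eq_add_neg, h,
    ← div_eq_iff (Complex.exp_ne_zero _), mul_div_assoc, ← Complex.exp_sub] at r2
  refine ⟨-R0, by rwa [norm_neg], fun y hy => ?_⟩
  obtain ⟨R, s1, s2⟩ := X.taylor hL hU hy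
  refine ⟨R, s1, ?_⟩
  rw [s2, ← r2, mul_assoc, ← Complex.exp_add, e1, e2, e3, e4]
  congr 2
  push_cast
  ring

structure CP.Ok (p : CP) (x : Pt) (X : TX) (ζ zc hh H : ℂ) : Prop where
  hH : RepA x p.H H
  hl : ‖H‖ ≤ 2 * toR p.hl
  hz : ∀ (y : ℝ) hy, Rep (x.set3 y hy) p.z (zc + y * hh) ∧ ‖zc + y * hh‖ ≤ toR p.m ∧
    ∃ P0, Rep (x.set3 y hy) p.P P0 ∧
      X.J.E (zc + y * hh) = X.J.E 0 * cexp (P0 - I * ζ * (zc + y * hh))

/-- the segments carry the integral `D0` and the moment `D1` -/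
def PsOk (x : Pt) (X : TX) (ζ : ℂ) : List CP → ℂ → ℂ → Prop
  | [], D0, D1 => D0 = 0 ∧ D1 = 0
  | p :: l, D0, D1 => ∃ zc hh H, p.Ok x X ζ zc hh H ∧
      PsOk x X ζ l (D0 - hI fun y => X.J.E (zc + y * hh) * H)
        (D1 - hI fun y => (zc + y * hh) * X.J.E (zc + y * hh) * H)

structure CR.Ok (R : CR) (x : Pt) (X : TX) (ζ sg ze : ℂ) : Prop where
  ps : PsOk x X ζ R.ps (sg * ((X.J.P ze).1 - (X.J.P 0).1)) (sg * ((X.J.P ze).2 - (X.J.P 0).2))
  hz : RepA x R.ze ze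
  psi : ∃ ψ, RepA x R.psi ψ ∧ X.J.E ze = X.J.E 0 * cexp (ψ - I * ζ * ze)
  f1 : RepA x R.f1 (X.J.f1 ze + I * ζ)
  f2 : RepA x R.f2 (X.J.f2 ze)
  me : ‖ze‖ ≤ toR R.me

structure CB.Ok (B : CB) (x : Pt) (X : TX) (ζ : ℂ) : Prop where
  k2 : RepA x B.k2 X.P.k2
  s : RepA x B.s X.c1
  up : ∃ ze, B.up.Ok x X ζ 1 ze
  dn : ∃ ze, B.dn.Ok x X ζ (-1) ze

section

variable {x : Pt} {X : TX} {ζ : ℂ}

theorem ccVtx_ok {k2 s : TM} {w : CV} {k : TM → Bool} (h : ccVtx k2 s w k = true) {a b : ℂ}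
    (h1 : RepA x k2 a) (h2 : RepA x s b) : ∃ c z, k c = true ∧ RepA x c z := by
  unfold ccVtx at h
  obtain ⟨_, h, a1⟩ := mulc_ok h
  obtain ⟨_, h, a2⟩ := mulc_ok h
  obtain ⟨_, h, a3⟩ := add_ok h
  obtain ⟨_, h, a4⟩ := addc_ok h
  exact ⟨_, _, h, fun y hy => a4 _ _ (a3 _ _ _ (a1 _ _ (h1 y hy)) (a2 _ _ (h2 y hy)))⟩

theorem ccPiece_ok {C : Chart} (hC : C.Ok x (X.Jc (I * ζ))) (hL : X.L = 1) {up : Bool}
    {z0 z1 psi : TM} {k : CP → TM → Bool} (h : ccPiece C up z0 z1 psi k = true) {w0 w1 ψ : ℂ}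
    (h0 : RepA x z0 w0) (h1 : RepA x z1 w1) (h2 : RepA x psi ψ)
    (h3 : X.J.E w0 = X.J.E 0 * cexp (ψ - I * ζ * w0)) : ∃ p psi' ψ', k p psi' = true ∧
      p.Ok x X ζ ((w0 + w1) / 2) ((w1 - w0) / 2) ((if up then 1 else -1) * (w1 - w0)) ∧
      RepA x psi' ψ' ∧ X.J.E w1 = X.J.E 0 * cexp (ψ' - I * ζ * w1) := by
  unfold ccPiece at h
  obtain ⟨_, h, a1⟩ := add_ok h
  obtain ⟨zc, h, a2⟩ := ndiv_ok h
  obtain ⟨H, h, a3⟩ := sub_ok h
  obtain ⟨hh, h, a4⟩ := ndiv_ok h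
  obtain ⟨hl, h, a5⟩ := ab_ok h
  obtain ⟨_, _, _, _, h, a6⟩ := hC.h4 _ _ h
  obtain ⟨u, h, a7⟩ := var_ok h
  obtain ⟨_, h, a8⟩ := mul_ok h
  obtain ⟨z, h, a9⟩ := add_ok h
  obtain ⟨_, K5, h, b1⟩ := hC.hs _ _ h
  obtain ⟨m, h, b2⟩ := ab_ok h
  obtain ⟨_, h, b3⟩ := mul_ok h
  obtain ⟨_, h, b4⟩ := mul_ok h
  obtain ⟨_, h, b5⟩ := mul_ok h
  obtain ⟨A1, h, b6⟩ := mul_ok h
  obtain ⟨_, h, b7⟩ := mul_ok h
  obtain ⟨A2, h, b8⟩ := ndiv_ok h
  obtain ⟨_, h, b9⟩ := mul_ok h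
  obtain ⟨A3, h, c1⟩ := ndiv_ok h
  obtain ⟨_, h, c2⟩ := mul_ok h
  obtain ⟨A4, h, c3⟩ := ndiv_ok h
  rw [fI_eq, fI_eq] at h
  obtain ⟨_, h, c4⟩ := add_ok h
  obtain ⟨_, h, c5⟩ := add_ok h
  obtain ⟨_, h, c6⟩ := add_ok h
  obtain ⟨_, h, c7⟩ := sub_ok h
  obtain ⟨pc, h, c8⟩ := wid_ok h
  obtain ⟨_, h, d1⟩ := mul_ok h
  obtain ⟨_, h, d2⟩ := add_ok h
  obtain ⟨_, h, d3⟩ := mul_ok h
  obtain ⟨_, h, d4⟩ := add_ok h
  obtain ⟨_, h, d5⟩ := mul_ok h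
  obtain ⟨_, h, d6⟩ := add_ok h
  obtain ⟨_, h, d7⟩ := mul_ok h
  obtain ⟨_, h, d8⟩ := add_ok h
  obtain ⟨P, h, d9⟩ := wid_ok h
  obtain ⟨_, h, e1⟩ := add_ok h
  obtain ⟨_, h, e2⟩ := add_ok h
  obtain ⟨psi', h, e3⟩ := wid_ok h
  have g1 : RepA x zc ((w0 + w1) / 2) := fun y hy => a2 _ _ (a1 _ _ _ (h0 y hy) (h1 y hy))
  have g2 : RepA x H (w1 - w0) := fun y hy => a3 _ _ _ (h1 y hy) (h0 y hy)
  have g3 : RepA x hh ((w1 - w0) / 2) := fun y hy => a4 _ _ (g2 y hy)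
  have g4 := a5 _ _ g3.rep
  have g5 : ‖w1 - w0‖ ≤ 2 * toR hl := by
    rw [norm_div, Complex.norm_two] at g4
    linarith
  have g6 : w0 = (w0 + w1) / 2 - (w1 - w0) / 2 := by ring
  have g7 : w1 = (w0 + w1) / 2 + (1 : ℝ) * ((w1 - w0) / 2) := by push_cast; ring
  generalize (w0 + w1) / 2 = c at *
  generalize (w1 - w0) / 2 = d at *
  have g8 : ∀ (y : ℝ) hy, Rep (x.set3 y hy) u y := fun y hy => by
    have := a7 (x.set3 y hy)
    rwa [show varVal (-one) one ((x.set3 y hy).get 3) = y by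
      simp [varVal, toR_neg, toR_one, Pt.get, Pt.set3]] at this
  have g9 : ∀ (y : ℝ) hy, Rep (x.set3 y hy) z (c + y * d) := fun y hy =>
    a9 _ _ _ (g1 y hy) (a8 _ _ _ (g8 y hy) (g3 y hy))
  have hd := norm_nonneg d
  obtain ⟨R0, r1, t0⟩ := X.piece hL (c := c) (d := d) (K := toR (divU
    (mulU K5 (mulU (mulU (mulU hl hl) (mulU hl hl)) hl)) (120 * one))) (fun y hy =>
      ⟨(b1 y hy _ (g9 y hy)).1, by
        have l2 := mulU_le hd hd g4 g4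
        refine divU_le (by positivity) (by norm_num [toR, one]) (le_trans (le_of_eq
          (by change ‖X.J.f5 _‖ * _ = ‖X.J.f5 _‖ * _; ring))
          (mulU_le (norm_nonneg _) (by positivity) (b1 y hy _ (g9 y hy)).2.2 (mulU_le (by positivity)
            hd (mulU_le (by positivity) (by positivity) l2 l2) g4))) (by norm_num [toR, one])⟩)
    (g6 ▸ h3) rfl rfl rfl rfl
  have i1 : RepA x A1 ((X.J.f1 c + I * ζ) * d) := fun y hy =>
    b6 _ _ _ (X.Jc_f1 _ _ ▸ (a6 y hy _ (g1 y hy)).2.1) (g3 y hy)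
  have i2 : RepA x A2 (X.J.f2 c * (d * d) / (2 : ℕ)) := fun y hy =>
    b8 _ _ (b7 _ _ _ (a6 y hy _ (g1 y hy)).2.2.1 (b3 _ _ _ (g3 y hy) (g3 y hy)))
  have i3 : RepA x A3 (X.J.f3 c * (d * d * d) / (6 : ℕ)) := fun y hy =>
    c1 _ _ (b9 _ _ _ (a6 y hy _ (g1 y hy)).2.2.2.1
      (b4 _ _ _ (b3 _ _ _ (g3 y hy) (g3 y hy)) (g3 y hy)))
  have i4 : RepA x A4 (X.J.f4 c * (d * d * (d * d)) / (24 : ℕ)) := fun y hy =>
    c3 _ _ (c2 _ _ _ (a6 y hy _ (g1 y hy)).2.2.2.2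
      (b5 _ _ _ (b3 _ _ _ (g3 y hy) (g3 y hy)) (b3 _ _ _ (g3 y hy) (g3 y hy))))
  obtain ⟨R1, r3, r4⟩ := t0 1 (by simp)
  have j0 : ∀ w R : ℂ, ‖w + R - w‖ = ‖R‖ := fun w R => by rw [add_sub_cancel_left]
  have j1 := fun y hy => c4 _ _ _ (i1 y hy) (i3 y hy)
  have j2 := fun y hy => c5 _ _ _ (i2 y hy) (i4 y hy)
  have j3 := fun y hy => c8 _ _ _ (c7 _ _ _ (c6 _ _ _ (h2 y hy) (j1 y hy)) (j2 y hy))
    ((j0 _ R0).trans_le r1)
  have key : ∀ H', RepA x H' ((if up then 1 else -1) * (w1 - w0)) →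
      CP.Ok ⟨z, H', P, m, hl⟩ x X ζ c d ((if up then 1 else -1) * (w1 - w0)) := fun H' hH =>
    ⟨hH, by cases up <;> simpa [norm_sub_rev w0] using g5, fun y hy => by
      obtain ⟨R, s1, s2⟩ := t0 y hy
      exact ⟨g9 y hy, b2 _ _ (g9 y hy), _, d9 _ _ _ (d8 _ _ _ (d7 _ _ _ (g8 y hy) (d6 _ _ _
        (d5 _ _ _ (g8 y hy) (d4 _ _ _ (d3 _ _ _ (g8 y hy) (d2 _ _ _ (d1 _ _ _ (g8 y hy) (i4 y hy))
        (i3 y hy))) (i2 y hy))) (i1 y hy))) (j3 y hy)) ((j0 _ R).trans_le s1), s2⟩⟩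
  have last : RepA x psi' _ := fun y hy => e3 _ _ _ (e2 _ _ _ (e1 _ _ _ (j3 y hy) (j1 y hy))
    (j2 y hy)) ((j0 _ R1).trans_le r3)
  rw [← g7] at r4
  cases up
  · rw [cond_false] at h
    obtain ⟨_, h, n1⟩ := neg_ok h
    exact ⟨_, _, _, h, key _ fun y hy => by simpa using n1 _ _ (g2 y hy), last,
      r4.trans (congrArg (fun t => X.J.E 0 * cexp t) (by push_cast; ring))⟩
  · rw [cond_true] at h
    exact ⟨_, _, _, h, key _ fun y hy => by simpa using g2 y hy, last,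
      r4.trans (congrArg (fun t => X.J.E 0 * cexp t) (by push_cast; ring))⟩

theorem ccRay_ok {C : Chart} (hC : C.Ok x (X.Jc (I * ζ))) (hL : X.L = 1) {k2 s : TM} {a b : ℂ}
    (h1 : RepA x k2 a) (h2 : RepA x s b) {up : Bool} {l : List CV} {z psi : TM} {ps : List CP}
    {k : CR → Bool} (h : ccRay C k2 s up l z psi ps k = true) {w ψ : ℂ} (h3 : RepA x z w)
    (h4 : RepA x psi ψ) (h5 : X.J.E w = X.J.E 0 * cexp (ψ - I * ζ * w))
    (h6 : PsOk x X ζ ps ((if up then 1 else -1) * ((X.J.P w).1 - (X.J.P 0).1))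
      ((if up then 1 else -1) * ((X.J.P w).2 - (X.J.P 0).2))) :
    ∃ R ze, k R = true ∧ R.Ok x X ζ (if up then 1 else -1) ze := by
  induction l generalizing z psi ps w ψ with
  | nil =>
    unfold ccRay at h
    obtain ⟨_, _, h, a1⟩ := hC.h2 _ _ h
    obtain ⟨_, h, a2⟩ := ab_ok h
    exact ⟨_, w, h, h6, h3, ⟨ψ, h4, h5⟩, fun y hy => X.Jc_f1 _ _ ▸ (a1 y hy _ (h3 y hy)).2.1,
      fun y hy => (a1 y hy _ (h3 y hy)).2.2, a2 _ _ h3.rep⟩
  | cons v l ih =>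
    unfold ccRay at h
    obtain ⟨_, w1, h, a1⟩ := ccVtx_ok h h1 h2
    obtain ⟨p, _, ψ', h, a2, a3, a4⟩ := ccPiece_ok hC hL h h3 a1 h4 h5
    refine ih h a1 a3 a4 ⟨_, _, _, a2, ?_⟩
    obtain ⟨b1, b2⟩ := hI_seg X.J.toPrim ((w + w1) / 2) ((w1 - w) / 2)
    rw [show (w + w1) / 2 + (w1 - w) / 2 = w1 by ring, show (w + w1) / 2 - (w1 - w) / 2 = w by ring,
      mul_div_cancel₀ _ two_ne_zero] at b1 b2
    simp only [mul_comm (if up then (1 : ℂ) else -1) (w1 - w), ← mul_assoc _ (w1 - w), hI_mul _ (ite _ _ _)]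
    rw [b1, b2, mul_comm (_ - _), mul_comm (_ - _), ← mul_sub, ← mul_sub, sub_sub_sub_cancel_left,
      sub_sub_sub_cancel_left]
    exact h6

theorem ccPrep_ok (hX : X.Unit ζ) {k2 s : TM} (h1 : RepA x k2 X.P.k2) (h2 : RepA x s X.c1) {m : ℕ}
    {dbl : Bool} {vu vd : List CV} {k : CB → Bool} (h : ccPrep k2 s m dbl vu vd k = true) :
    ∃ B, k B = true ∧ B.Ok x X ζ := by
  unfold ccPrep at h
  obtain ⟨o, h, a1⟩ := cst_ok h
  obtain ⟨c, h, a2⟩ := mkS_ok h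
  rw [ser_toC, toR_zero, ofReal_zero] at a1
  have a3 : RepA x o 0 := fun y hy => a1 _
  have hC := tsChart_sh (a2 x X 0 h1 h2 a3) hX.m2 hX.v
  rw [sub_zero] at hC
  obtain ⟨_, zu, h, a4⟩ := ccRay_ok hC hX.L h1 h2 h a3 a3 (by simp) ⟨by simp, by simp⟩
  obtain ⟨_, zd, h, a5⟩ := ccRay_ok hC hX.L h1 h2 h a3 a3 (by simp) ⟨by simp, by simp⟩
  exact ⟨_, h, h1, h2, ⟨zu, a4⟩, ⟨zd, a5⟩⟩

/-- the entries of a list enclose the values `f j` -/
def RepL (pt : Pt) : List TM → (ℕ → ℂ) → Prop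
  | [], _ => True
  | a :: l, f => Rep pt a (f 0) ∧ RepL pt l fun j => f (j + 1)

theorem accMu_ok {z E : TM} {mu : List TM} {k : List TM → Bool} (h : accMu z mu E k = true) :
    ∃ l, k l = true ∧ l.length = mu.length ∧ ∀ pt f z0 E0, Rep pt z z0 → Rep pt E E0 →
      RepL pt mu f → RepL pt l fun j => f j + E0 * z0 ^ j := by
  induction mu generalizing E k with
  | nil => exact ⟨[], h, rfl, fun _ _ _ _ _ _ _ => trivial⟩
  | cons a l ih =>
    cases l with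
    | nil =>
      unfold accMu at h
      obtain ⟨_, h, a1⟩ := add_ok h
      exact ⟨_, h, rfl, fun pt f z0 E0 _ h2 h3 => ⟨by simpa using a1 _ _ _ h3.1 h2, trivial⟩⟩
    | cons b l =>
      unfold accMu at h
      obtain ⟨_, h, a1⟩ := add_ok h
      obtain ⟨_, h, a2⟩ := mul_ok h
      obtain ⟨l', h, a3, a4⟩ := ih h
      refine ⟨_, h, congrArg (· + 1) a3, fun pt f z0 E0 h1 h2 h3 =>
        ⟨by simpa using a1 _ _ _ h3.1 h2, ?_⟩⟩
      simpa only [pow_succ', mul_assoc] using a4 pt _ _ _ h1 (a2 _ _ _ h2 h1) h3.2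

theorem remK_ok {r : ℤ} {K : ℕ} {t : ℝ} (h0 : 0 ≤ t) (h : t ≤ toR r) :
    t ^ K / K.factorial * 2 ≤ toR (remK r K) := by
  refine le_trans ?_ (qU_ok _ (by positivity))
  have h1 : t ≤ (r.natAbs : ℝ) / 1099511627776 := h.trans (by
    rw [toR, Nat.cast_natAbs, Int.cast_abs]
    exact div_le_div_of_nonneg_right (le_abs_self _) (by norm_num))
  refine (mul_le_mul_of_nonneg_right (div_le_div_of_nonneg_right (pow_le_pow_left₀ h0 h1 K)
    (by positivity)) zero_le_two).trans (le_of_eq ?_)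
  rw [Int.ofNat_eq_natCast, Int.cast_natCast, div_pow]
  push_cast
  field_simp

/-- the state of the accumulation -/
def AccOk (x : Pt) (X : TX) (w : ℂ) (K n : ℕ) (mu : List TM) (e0 e1 : ℤ) (D0 D1 : ℂ) : Prop :=
  mu.length = n ∧ ∃ F : ℕ → ℝ → ℂ, (∀ j, Continuous (F j)) ∧
    (∀ (y : ℝ) hy, RepL (x.set3 y hy) mu fun j => F j y) ∧
    ‖D0 / X.J.E 0 - ∑ j ∈ range K, hI (F j) * (4 ^ j / j.factorial) * w ^ j‖ ≤ toR e0 ∧
    ‖D1 / X.J.E 0 - ∑ j ∈ range K, hI (F (j + 1)) * (4 ^ (j + 1) / j.factorial) * w ^ j‖ ≤ toR e1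

theorem cc_cen (cu cv : ℤ) : toC cv (-cu) = -(I * toC cu cv) := by
  apply Complex.ext <;> simp [toC, toR_neg]

theorem ccAcc_ok {cu cv r thr : ℤ} {K n : ℕ} (hr : ‖ζ - toC cu cv‖ ≤ toR r) {l : List CP}
    {mu : List TM} {e0 e1 : ℤ} {k : List TM → ℤ → ℤ → Bool}
    (h : ccAcc cu cv r thr K l mu e0 e1 k = true) {A0 A1 D0 D1 : ℂ} (h1 : PsOk x X ζ l A0 A1)
    (h2 : AccOk x X (-(I * (ζ - toC cu cv))) K n mu e0 e1 D0 D1) : ∃ mu' a b, k mu' a b = true ∧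
      AccOk x X (-(I * (ζ - toC cu cv))) K n mu' a b (D0 + A0) (D1 + A1) := by
  induction l generalizing mu e0 e1 A0 A1 D0 D1 with
  | nil => exact ⟨mu, e0, e1, h, by rwa [h1.1, h1.2, add_zero, add_zero]⟩
  | cons p l ih =>
    obtain ⟨zc, hh, H, hp, h1⟩ := h1
    obtain ⟨g1, F, g2, g3, g4, g5⟩ := h2
    unfold ccAcc at h
    obtain ⟨_, h, a1⟩ := mulc_ok h
    obtain ⟨Q, h, a2⟩ := add_ok h
    rw [fI_eq] at h
    obtain ⟨u, h, a3⟩ := hi_ok h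
    rw [fI_eq] at h
    rw [cc_cen] at a1
    have hE := X.E0_ne
    have hc := X.J.hc
    have hw : ‖-(I * (ζ - toC cu cv))‖ ≤ toR r := by rwa [norm_neg, norm_mul, norm_I, one_mul]
    have b0 : ∀ (y : ℝ) hy, ∃ q, Rep (x.set3 y hy) Q q ∧ X.J.E (zc + y * hh) / X.J.E 0 =
        cexp q * cexp (-(I * (ζ - toC cu cv)) * (zc + y * hh)) := fun y hy => by
      obtain ⟨s1, -, P0, s2, s3⟩ := hp.hz y hy
      refine ⟨_, a2 _ _ _ s2 (a1 _ _ s1), ?_⟩
      rw [s3, mul_div_cancel_left₀ _ hE, ← Complex.exp_add]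
      congr 1
      ring
    generalize -(I * (ζ - toC cu cv)) = w at *
    have b1 : ∀ y : ℝ, |y| ≤ 1 → ‖w * (zc + y * hh)‖ ≤ toR (mulU r p.m) := fun y hy => by
      rw [norm_mul]
      exact mulU_le (norm_nonneg _) (norm_nonneg _) hw (hp.hz y hy).2.1
    have fin : ∀ (mu' : List TM) (F' : ℕ → ℝ → ℂ) (er : ℤ), mu'.length = n →
        (∀ j, Continuous (F' j)) → (∀ (y : ℝ) hy, RepL (x.set3 y hy) mu' fun j => F j y + F' j y) →
        ‖hI (fun y => X.J.E (zc + y * hh) * H) / X.J.E 0 -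
          ∑ j ∈ range K, hI (F' j) * (4 ^ j / j.factorial) * w ^ j‖ ≤ toR er →
        ‖hI (fun y => (zc + y * hh) * X.J.E (zc + y * hh) * H) / X.J.E 0 - ∑ j ∈ range K,
          hI (F' (j + 1)) * (4 ^ (j + 1) / j.factorial) * w ^ j‖ ≤ toR (mulU p.m er) →
        ccAcc cu cv r thr K l mu' (e0 + er) (e1 + mulU p.m er) k = true →
        ∃ mu' a b, k mu' a b = true ∧ AccOk x X w K n mu' a b (D0 + A0) (D1 + A1) := by
      intro mu' F' er s1 s2 s3 s4 s5 s6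
      have := ih s6 h1 (D0 := D0 + hI fun y => X.J.E (zc + y * hh) * H)
        (D1 := D1 + hI fun y => (zc + y * hh) * X.J.E (zc + y * hh) * H)
        ⟨s1, fun j y => F j y + F' j y, fun j => (g2 j).add (s2 j), s3, by
          simp only [hI_add (g2 _) (s2 _), add_mul (hI _), add_mul (hI _ * _), sum_add_distrib]
          rw [add_div, add_sub_add_comm, toR_add]
          exact norm_add_le_of_le g4 s4, by
          simp only [hI_add (g2 _) (s2 _), add_mul (hI _), add_mul (hI _ * _), sum_add_distrib]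
          rw [add_div, add_sub_add_comm, toR_add]
          exact norm_add_le_of_le g5 s5⟩
      rwa [add_add_sub_cancel, add_add_sub_cancel] at this
    have e0' : hI (fun y => X.J.E (zc + y * hh) * H) / X.J.E 0 =
        hI fun y => X.J.E (zc + y * hh) / X.J.E 0 * H := by
      rw [div_eq_mul_inv, ← hI_mul]
      congr 1
      funext y
      ring
    have e1' : hI (fun y => (zc + y * hh) * X.J.E (zc + y * hh) * H) / X.J.E 0 =
        hI fun y => (zc + y * hh) * (X.J.E (zc + y * hh) / X.J.E 0 * H) := by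
      rw [div_eq_mul_inv, ← hI_mul]
      congr 1
      funext y
      ring
    cases hb : leI (mulU (2 * p.hl) (expU (u + mulU r p.m))) thr <;> rw [hb] at h
    · rw [cond_false] at h
      obtain ⟨t, h⟩ := Bool.and_eq_true_iff.1 h
      obtain ⟨_, h, c1⟩ := exp_ok h
      obtain ⟨_, h, c2⟩ := mul_ok h
      obtain ⟨b, h, c3⟩ := ab_ok h
      rw [fI_eq] at h
      obtain ⟨_, h, c4⟩ := ndiv_ok h
      obtain ⟨mu', h, c5, c6⟩ := accMu_ok h
      rw [fI_eq, fI_eq] at h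
      replace t := leI_ok t
      rw [toR_intmul, toR_natmul, toR_one] at t
      obtain ⟨G, hG⟩ : ∃ G : ℝ → ℂ, G = fun y : ℝ =>
        X.J.E (zc + y * hh) / X.J.E 0 * cexp (-(w * (zc + y * hh))) * H := ⟨_, rfl⟩
      have d0 : Continuous G := by rw [hG]; fun_prop
      have d1 : ∀ (y : ℝ) hy, ∃ q, Rep (x.set3 y hy) Q q ∧ G y = cexp q * H := fun y hy => by
        obtain ⟨q, s1, s2⟩ := b0 y hy
        refine ⟨q, s1, ?_⟩
        rw [hG]
        dsimp only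
        rw [s2, mul_assoc (cexp q), ← Complex.exp_add, add_neg_cancel, Complex.exp_zero, mul_one]
      have d2 : ∀ y : ℝ, X.J.E (zc + y * hh) / X.J.E 0 * H = G y * cexp (w * (zc + y * hh)) :=
        fun y => by
          rw [hG]
          dsimp only
          rw [mul_right_comm _ H, mul_assoc (_ / _), ← Complex.exp_add, neg_add_cancel,
            Complex.exp_zero, mul_one]
      have d3 : ∀ y : ℝ, |y| ≤ 1 → ‖G y * (cexp (w * (zc + y * hh)) - ∑ j ∈ range K,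
          (w * (zc + y * hh)) ^ j / j.factorial)‖ ≤ toR (mulU b (remK (mulU r p.m) K)) :=
        fun y hy => by
          obtain ⟨q, s1, s2⟩ := d1 y hy
          rw [norm_mul]
          refine mulU_le (norm_nonneg _) (norm_nonneg _) (s2 ▸ c3 _ _ (c2 _ _ _ (c1 _ _ s1)
            (hp.hH y hy))) ((Complex.exp_bound' ?_).trans (remK_ok (norm_nonneg _) (b1 y hy)))
          rw [div_le_iff₀ (by positivity)]
          push_cast at t ⊢
          linarith only [t, b1 y hy]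
      refine fin mu' (fun j y => G y * ((zc + y * hh) / (4 : ℕ)) ^ j) _ (c5.trans g1)
        (fun j => by fun_prop) (fun y hy => ?_) ?_ ?_ h
      · obtain ⟨q, s1, s2⟩ := d1 y hy
        rw [s2]
        exact c6 _ _ _ _ (c4 _ _ (hp.hz y hy).1) (c2 _ _ _ (c1 _ _ s1) (hp.hH y hy)) (g3 y hy)
      · have := cc_exp (z := fun y : ℝ => zc + y * hh) d0 (by fun_prop) w K 0
          (fun y hy => by simpa only [pow_zero, mul_one] using d3 y hy)
        simpa only [pow_zero, mul_one, add_zero, e0', d2] using this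
      · have := cc_exp (z := fun y : ℝ => zc + y * hh) d0 (by fun_prop) w K 1
          (b := toR (mulU p.m (mulU b (remK (mulU r p.m) K)))) (fun y hy => by
            rw [pow_one, mul_comm (G y), mul_assoc, norm_mul]
            exact mulU_le (norm_nonneg _) (norm_nonneg _) (hp.hz y hy).2.1 (d3 y hy))
        simp only [pow_one, mul_comm (G _) (zc + _), mul_assoc (zc + _)] at this
        simpa only [e1', d2] using this
    · rw [cond_true, fI_eq, fI_eq] at h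
      have d1 : ∀ y : ℝ, |y| ≤ 1 → ‖X.J.E (zc + y * hh) / X.J.E 0 * H‖ ≤
          toR (mulU (2 * p.hl) (expU (u + mulU r p.m))) := fun y hy => by
        obtain ⟨q, s1, s2⟩ := b0 y hy
        rw [s2, ← Complex.exp_add, norm_mul, norm_exp, mul_comm]
        refine mulU_le (norm_nonneg _) (Real.exp_pos _).le (by rw [toR_intmul]; exact hp.hl)
          ((Real.exp_le_exp.2 ?_).trans (expU_ok _))
        rw [add_re, toR_add]
        exact add_le_add (a3 _ _ s1) ((re_le_norm _).trans (b1 y hy))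
      refine fin mu (fun _ _ => 0) _ g1 (fun j => continuous_const)
        (fun y hy => by simpa using g3 y hy) ?_ ?_ h
      · rw [e0']
        simpa only [show hI (fun _ => 0) = 0 by simp [hI], zero_mul, sum_const_zero, sub_zero]
          using hI_le d1
      · have := hI_le (f := fun y : ℝ => (zc + y * hh) * (X.J.E (zc + y * hh) / X.J.E 0 * H))
          fun y hy => (norm_mul_le _ _).trans
            (mulU_le (norm_nonneg _) (norm_nonneg _) (hp.hz y hy).2.1 (d1 y hy))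
        rw [e1']
        simpa only [show hI (fun _ => 0) = 0 by simp [hI], zero_mul, sum_const_zero, sub_zero]
          using this

theorem ccEnd_ok (hL : X.L = 1) {en : End} {a : Ac} {cu cv r : ℤ} (hr : ‖ζ - toC cu cv‖ ≤ toR r)
    {zz : TM} (hz : RepA x zz ζ) {R : CR} {sg ze : ℂ} (hR : R.Ok x X ζ sg ze) {v : ℂ × ℂ}
    (he : en.Ok x X.J a ‖X.J.E 0‖ ze v) {e0 e1 : ℤ} {k : ℤ → ℤ → Bool}
    (h : ccEnd en cu cv r zz R e0 e1 k = true) : ∃ a0 a1, k a0 a1 = true ∧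
      ‖(v.1 - (X.J.P ze).1) / X.J.E 0‖ ≤ toR a0 - toR e0 ∧
      (a.W 1 = 1 → ‖(v.2 - (X.J.P ze).2) / X.J.E 0‖ ≤ toR a1 - toR e1) := by
  unfold ccEnd at h
  obtain ⟨_, h, a1⟩ := mulc_ok h
  obtain ⟨_, h, a2⟩ := add_ok h
  obtain ⟨u, h, a3⟩ := hi_ok h
  obtain ⟨_, h, a4⟩ := mi_ok h
  obtain ⟨_, h, a5⟩ := sub_ok h
  rw [fI_eq] at h
  rw [cc_cen] at a1
  obtain ⟨ψ, b1, b2⟩ := hR.psi
  have hE := norm_pos_iff.2 X.E0_ne
  obtain ⟨i, M, h, b3, b4⟩ := he _ _ (X.J.P ze) ze ⟨hR.hz, fun y hy => by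
    simpa using a5 _ _ _ (hR.f1 y hy) (a4 _ _ (hz y hy)), hR.f2, by simp [ser_toC, toR_zero], by
      have c1 := a3 _ _ (a2 _ _ _ b1.rep (a1 _ _ hR.hz.rep))
      have c2 : ‖-(I * (ζ - toC cu cv)) * ze‖ ≤ toR (mulU r R.me) := by
        rw [norm_mul, norm_neg, norm_mul, norm_I, one_mul]
        exact mulU_le (norm_nonneg _) (norm_nonneg _) hr hR.me
      rw [b2, norm_mul, norm_exp, X.J_L, hL, one_mul, toR_neg, neg_neg, toR_add,
        show ψ - I * ζ * ze = ψ + ze * -(I * toC cu cv) + -(I * (ζ - toC cu cv)) * ze by ring, add_re]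
      exact mul_le_mul_of_nonneg_left
        (Real.exp_le_exp.2 (add_le_add c1 ((re_le_norm _).trans c2))) hE.le,
    by simp [toR_zero], toR_zero ▸ Bd.refl _ _ _ _⟩ h
  rw [fI_eq, fI_eq] at h
  rw [X.J_L, hL, Real.sqrt_one, one_mul, ← div_le_iff₀' hE, ← norm_div] at b3
  refine ⟨_, _, h, by rwa [toR_add, add_sub_cancel_left], fun hW => ?_⟩
  rw [X.J_L, hL, hW, Real.sqrt_one, one_mul, one_mul, ← div_le_iff₀' hE, ← norm_div] at b4
  rw [toR_add, toR_add, add_assoc, add_sub_cancel_left, ← sub_add_cancel (v.2 - (X.J.P ze).2)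
    (ze * (v.1 - (X.J.P ze).1)), add_div, mul_div_assoc]
  exact norm_add_le_of_le b4 ((norm_mul_le _ _).trans
    (mulU_le (norm_nonneg _) (norm_nonneg _) hR.me b3))

theorem qmul_ok {a : TM} {p : ℤ} {q : ℕ} (hq : 0 < q) {k : TM → Bool} (h : qmul a p q k = true) :
    ∃ c, k c = true ∧ ∀ pt z, Rep pt a z → Rep pt c (z * (p / q)) := by
  unfold qmul at h
  obtain ⟨_, h, a1⟩ := ab_ok h
  obtain ⟨_, h, a2⟩ := smul_ok h
  obtain ⟨_, h, a3⟩ := wid_ok h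
  refine ⟨_, h, fun pt z hz => a3 _ _ _ (a2 _ _ hz) ?_⟩
  have b1 := qU_ok p hq
  have b2 := qD_ok p hq
  rw [← mul_sub, norm_mul, ← ofReal_intCast, ← ofReal_natCast, ← ofReal_div, ← ofReal_sub,
    norm_real, Real.norm_of_nonneg (sub_nonneg.2 b2)]
  exact mulU_le (norm_nonneg _) (sub_nonneg.2 b2) (a1 _ _ hz) (by rw [toR_sub]; linarith)

theorem mapK_q {p : ℕ → ℤ} {l : List TM} {j : ℕ} {k : List TM → Bool}
    (h : mapK (fun j a => qmul a (p j) (Nat.factorial j)) l j k = true) :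
    ∃ l', k l' = true ∧ l'.length = l.length ∧ ∀ pt f, RepL pt l f →
      RepL pt l' fun i => f i * (p (i + j) / (i + j).factorial) := by
  induction l generalizing j k with
  | nil => exact ⟨[], h, rfl, fun _ _ _ => trivial⟩
  | cons a l ih =>
    unfold mapK at h
    obtain ⟨_, h, a1⟩ := qmul_ok (Nat.factorial_pos j) h
    obtain ⟨l', h, a2, a3⟩ := ih h
    refine ⟨_, h, congrArg (· + 1) a2, fun pt f hf => ⟨by simpa using a1 _ _ hf.1, ?_⟩⟩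
    simpa only [add_assoc, add_comm 1 j] using a3 pt _ hf.2

theorem mapK_mean {l : List TM} {j : ℕ} {k : List TM → Bool}
    (h : mapK (fun _ => mean3) l j k = true) : ∃ l', k l' = true ∧ l'.length = l.length ∧
      ∀ F : ℕ → ℝ → ℂ, (∀ i, Continuous (F i)) →
        (∀ (y : ℝ) hy, RepL (x.set3 y hy) l fun i => F i y) →
        ∀ (y : ℝ) hy, RepL (x.set3 y hy) l' fun i => hI (F i) := by
  induction l generalizing j k with
  | nil => exact ⟨[], h, rfl, fun _ _ _ _ _ => trivial⟩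
  | cons a l ih =>
    unfold mapK at h
    obtain ⟨_, h, a1⟩ := mean3_ok h
    obtain ⟨l', h, a2, a3⟩ := ih h
    exact ⟨_, h, congrArg (· + 1) a2, fun F h1 h2 y hy =>
      ⟨a1 x _ (h1 0).continuousOn (fun y hy => (h2 y hy).1) y hy,
        a3 (fun i => F (i + 1)) (fun i => h1 _) (fun y hy => (h2 y hy).2) y hy⟩⟩

theorem RepL.take {pt : Pt} {l : List TM} {f : ℕ → ℂ} (h : RepL pt l f) (n : ℕ) :
    RepL pt (l.take n) f := by
  induction l generalizing n f with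
  | nil => simpa using h
  | cons a l ih =>
    cases n with
    | zero => trivial
    | succ n => exact ⟨h.1, ih h.2 n⟩

theorem RepL.tail {pt : Pt} {l : List TM} {f : ℕ → ℂ} (h : RepL pt l f) :
    RepL pt l.tail fun j => f (j + 1) := by
  cases l with
  | nil => trivial
  | cons a l => exact h.2

theorem RepL.rep {pt : Pt} {o : TM} (h : Rep pt o 0) (n : ℕ) :
    RepL pt (List.replicate n o) fun _ => 0 := by
  induction n with
  | zero => trivial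
  | succ n ih => exact ⟨h, ih⟩

def CC.Ok (c : CC) (x : Pt) (X : TX) (ζ : ℂ) : Prop := 0 ≤ toR c.r → ∃ f0 f1 : ℕ → ℂ,
  (∀ (y : ℝ) hy, RepL (x.set3 y hy) c.co0 f0 ∧ RepL (x.set3 y hy) c.co1 f1) ∧
  ‖X.top.1 / X.J.E 0 - ∑ j ∈ range c.co0.length, f0 j * (-(I * (ζ - toC c.cu c.cv))) ^ j‖
    ≤ toR c.e0 ∧ (c.fl = true →
  ‖X.top.2 / X.J.E 0 - ∑ j ∈ range c.co1.length, f1 j * (-(I * (ζ - toC c.cu c.cv))) ^ j‖
    ≤ toR c.e1)

theorem ccCen_ok (hX : X.Unit ζ) {B : CB} (hB : B.Ok x X ζ) {kind K : ℕ} {thr : ℤ} {fl : Bool}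
    {cu cv r : ℤ} (hr : ‖ζ - toC cu cv‖ ≤ toR r) {k : CC → Bool}
    (h : ccCen B kind K thr fl cu cv r k = true) : ∃ c, k c = true ∧ c.fl = fl ∧ c.Ok x X ζ := by
  unfold ccCen at h
  obtain ⟨o, h, a1⟩ := cst_ok h
  obtain ⟨_, h, a2⟩ := cst_ok h
  obtain ⟨zz, h, a3⟩ := wid_ok h
  obtain ⟨_, h, a4⟩ := rmul_ok h
  obtain ⟨e, h, a5⟩ := mkTE_ok h
  obtain ⟨a, h, a6, a7, a8⟩ := mkAc_ok h
  rw [ser_toC, toR_zero, ofReal_zero] at a1
  have b1 : RepA x zz ζ := fun y hy => a3 _ _ _ (a2 _) hr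
  have he := a5 x X hB.k2 hB.s (hX.m2 ▸ hB.s)
    (fun y hy => tch_va hX.v ▸ a4 _ _ _ (hB.s y hy) (b1 y hy)) (fun h => nomatch h)
  have ha := a8 X.L (by rw [toR_one, hX.L])
  obtain ⟨zu, hu⟩ := hB.up
  obtain ⟨zd, hd⟩ := hB.dn
  obtain ⟨_, _, _, h, b2⟩ := ccAcc_ok (n := cond fl (K + 1) K) hr h hu.ps (D0 := 0) (D1 := 0)
    ⟨List.length_replicate, fun _ _ => 0, fun _ => continuous_const,
      fun y hy => RepL.rep (a1 _) _, by simp [hI, toR_zero], by simp [hI, toR_zero]⟩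
  obtain ⟨mu, _, _, h, b3, F, b4, b5, b6, b7⟩ := ccAcc_ok hr h hd.ps b2
  obtain ⟨_, _, h, c1, c2⟩ := ccEnd_ok hX.L hr b1 hu (endT_ok he ha (norm_nonneg _) kind zu) h
  obtain ⟨_, _, h, c3, c4⟩ := ccEnd_ok hX.L hr b1 hd (v := (0, 0))
    (endD_ok he ha (norm_nonneg _) false zd) h
  obtain ⟨mv, h, d1, d2⟩ := mapK_mean (x := x) h
  obtain ⟨co0, h, d3, d4⟩ := mapK_q (p := fun j => (4 ^ j : ℕ)) h
  obtain ⟨co1, h, d5, d6⟩ := mapK_q (p := fun j => (4 ^ (j + 1) : ℕ)) h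
  have d7 : co0.length = K := by
    rw [d3, List.length_take, d1, b3]
    cases fl <;> simp
  refine ⟨_, h, rfl, fun _ => ⟨_, _, fun y hy => ⟨d4 _ _ ((d2 F b4 b5 y hy).take K),
    d6 _ (fun j => hI (F (j + 1))) (by cases fl; exacts [trivial, (d2 F b4 b5 y hy).tail])⟩,
    ?_, fun hf => ?_⟩⟩
  · have := norm_add_le_of_le b6 (norm_sub_le_of_le c1 c3)
    refine le_trans (le_of_eq (congrArg norm ?_)) (this.trans (le_of_eq (by ring)))
    simp only [d7, add_zero]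
    push_cast
    ring
  · obtain rfl : fl = true := hf
    have hW : a.W 1 = 1 := by simp [Ac.W, wt, a6, a7, toR_one]
    have d8 : co1.length = K := by rw [d5, cond_true, List.length_tail, d1, b3]; rfl
    have := norm_add_le_of_le b7 (norm_sub_le_of_le (c2 hW) (c4 hW))
    refine le_trans (le_of_eq (congrArg norm ?_)) (this.trans (le_of_eq (by ring)))
    simp only [d8, add_zero]
    push_cast
    ring

theorem horL_ok {w : TM} {l : List TM} {k : TM → Bool} (h : horL w l k = true) :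
    ∃ c, k c = true ∧ ∀ pt f z, Rep pt w z → RepL pt l f →
      Rep pt c (∑ j ∈ range l.length, f j * z ^ j) := by
  induction l generalizing k with
  | nil =>
    obtain ⟨_, h, a1⟩ := cst_ok (u := 0) (v := 0) h
    exact ⟨_, h, fun pt _ _ _ _ => by simpa [ser_toC, toR_zero] using a1 pt⟩
  | cons a l ih =>
    cases l with
    | nil => exact ⟨a, h, fun pt f z _ h2 => by simpa using h2.1⟩
    | cons b l =>
      unfold horL at h
      obtain ⟨_, h, a1⟩ := ih h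
      obtain ⟨_, h, a2⟩ := mul_ok h
      obtain ⟨_, h, a3⟩ := add_ok h
      refine ⟨_, h, fun pt f z h1 h2 => ?_⟩
      rw [List.length_cons, sum_range_succ', pow_zero, mul_one]
      simpa only [sum_mul, mul_assoc, ← pow_succ] using
        a3 _ _ _ (a2 _ _ _ (a1 pt _ z h1 h2.2) h1) h2.1

theorem ccTile_ok {c : CC} (hc : c.Ok x X ζ) {x1 x2 y1 y2 : ℤ} {k : TM → TM → Bool}
    (h : ccTile c x1 x2 y1 y2 k = true) : ∃ S0 S1, k S0 S1 = true ∧
      (ζ.re = varVal x1 x2 x.x2 → ζ.im = varVal y1 y2 x.x3 → Rep x S0 (X.top.1 / X.J.E 0) ∧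
        (c.fl = true → Rep x S1 (X.top.2 / X.J.E 0))) := by
  unfold ccTile at h
  obtain ⟨t, h⟩ := Bool.and_eq_true_iff.1 h
  obtain ⟨_, h, a1⟩ := var_ok h
  obtain ⟨_, h, a2⟩ := var_ok h
  obtain ⟨_, h, a3⟩ := mi_ok h
  obtain ⟨_, h, a4⟩ := sub_ok h
  obtain ⟨_, h, a5⟩ := horL_ok h
  obtain ⟨_, h, a6⟩ := wid_ok h
  obtain ⟨_, h, a7⟩ := horL_ok h
  obtain ⟨_, h, a8⟩ := wid_ok h
  obtain ⟨f0, f1, b1, b2, b3⟩ := hc (toR_zero ▸ leI_ok t)
  refine ⟨_, _, h, fun h1 h2 => ?_⟩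
  have b4 := a4 _ _ _ (a2 x) (a3 _ _ (a1 x))
  rw [show ((varVal (y1 - c.cv) (y2 - c.cv) (x.get 3) : ℝ) : ℂ) -
      I * (varVal (x1 - c.cu) (x2 - c.cu) (x.get 2) : ℝ) = -(I * (ζ - toC c.cu c.cv)) by
    apply Complex.ext <;> simp [toC, h1, h2, varVal, toR_sub, Pt.get] <;> ring] at b4
  exact ⟨a6 _ _ _ (a5 _ _ _ b4 (b1 x.x3 x.h3).1) b2,
    fun hf => a8 _ _ _ (a7 _ _ _ b4 (b1 x.x3 x.h3).2) (b3 hf)⟩

theorem inZ_ok {cu cv r x1 x2 y1 y2 : ℤ} (h : inZ cu cv r x1 x2 y1 y2 = true)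
    (h1 : toR x1 ≤ ζ.re) (h2 : ζ.re ≤ toR x2) (h3 : toR y1 ≤ ζ.im) (h4 : ζ.im ≤ toR y2) :
    ‖ζ - toC cu cv‖ ≤ toR r := by
  simp only [inZ, fI_eq, Bool.and_eq_true] at h
  have a0 := toR_zero ▸ leI_ok h.1
  have a1 := (leI_ok h.2).trans (mulD_ok r r)
  have b : ∀ (t : ℝ) (u a b : ℤ), toR a ≤ t → t ≤ toR b → (t - toR u) * (t - toR u) ≤
      toR (mulU (maxI (b - u) (u - a)) (maxI (b - u) (u - a))) := fun t u a b g1 g2 => by
    have : |t - toR u| ≤ toR (maxI (b - u) (u - a)) := by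
      rw [toR_maxI, toR_sub, toR_sub]
      exact abs_le_max_of_le (by linarith) (by linarith)
    rw [← abs_mul_abs_self]
    exact mulU_le (abs_nonneg _) (abs_nonneg _) this this
  refine (pow_le_pow_iff_left₀ (norm_nonneg _) a0 two_ne_zero).1 ?_
  rw [← normSq_eq_norm_sq, normSq_apply, sq]
  rw [toR_add] at a1
  exact (add_le_add (b _ cu _ _ h1 h2) (b _ cv _ _ h3 h4)).trans a1
where
  abs_le_max_of_le {t a b : ℝ} (h1 : t ≤ a) (h2 : -t ≤ b) : |t| ≤ max a b :=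
    abs_le.2 ⟨by linarith [le_max_right a b], h1.trans (le_max_left a b)⟩

/-- the terminal box that contains `ζ` -/
noncomputable def CT.find (ζ : ℂ) : CT → ℤ → ℤ → ℤ → ℤ → ℤ × ℤ × ℤ × ℤ
  | .skip, x1, x2, y1, y2 => (x1, x2, y1, y2)
  | .leaf, x1, x2, y1, y2 => (x1, x2, y1, y2)
  | .sx m l r, x1, x2, y1, y2 =>
      if ζ.re ≤ toR m then l.find ζ x1 m y1 y2 else r.find ζ m x2 y1 y2
  | .sy m l r, x1, x2, y1, y2 =>
      if ζ.im ≤ toR m then l.find ζ x1 x2 y1 m else r.find ζ x1 x2 m y2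
  | .cen _ _ _ t, x1, x2, y1, y2 => t.find ζ x1 x2 y1 y2

def InB (ζ : ℂ) (b : ℤ × ℤ × ℤ × ℤ) : Prop :=
  toR b.1 ≤ ζ.re ∧ ζ.re ≤ toR b.2.1 ∧ toR b.2.2.1 ≤ ζ.im ∧ ζ.im ≤ toR b.2.2.2

theorem CT.find_mem (t : CT) {x1 x2 y1 y2 : ℤ} (h : InB ζ (x1, x2, y1, y2)) :
    InB ζ (t.find ζ x1 x2 y1 y2) := by
  induction t generalizing x1 x2 y1 y2 with
  | skip => exact h
  | leaf => exact h
  | sx m l r i1 i2 =>
    unfold CT.find
    split_ifs with g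
    exacts [i1 ⟨h.1, g, h.2.2⟩, i2 ⟨(not_le.1 g).le, h.2⟩]
  | sy m l r i1 i2 =>
    unfold CT.find
    split_ifs with g
    exacts [i1 ⟨h.1, h.2.1, h.2.2.1, g⟩, i2 ⟨h.1, h.2.1, (not_le.1 g).le, h.2.2.2⟩]
  | cen cu cv r t i => exact i h

theorem ccTree_ok (hX : X.Unit ζ) {B : CB} (hB : B.Ok x X ζ) {kind K : ℕ} {thr : ℤ} {fl : Bool}
    {sk : ℤ → ℤ → ℤ → ℤ → Bool} {lf : ℤ → ℤ → ℤ → ℤ → TM → TM → Bool} {t : CT} {c : CC}
    (hc : c.Ok x X ζ) (hf : c.fl = fl) {x1 x2 y1 y2 : ℤ} (hm : InB ζ (x1, x2, y1, y2))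
    (h : ccTree B kind K thr fl sk lf t c x1 x2 y1 y2 = true) {b : ℤ × ℤ × ℤ × ℤ}
    (hb : b = t.find ζ x1 x2 y1 y2) : sk b.1 b.2.1 b.2.2.1 b.2.2.2 = true ∨
      ∃ S0 S1, lf b.1 b.2.1 b.2.2.1 b.2.2.2 S0 S1 = true ∧ (ζ.re = varVal b.1 b.2.1 x.x2 →
        ζ.im = varVal b.2.2.1 b.2.2.2 x.x3 → Rep x S0 (X.top.1 / X.J.E 0) ∧
          (fl = true → Rep x S1 (X.top.2 / X.J.E 0))) := by
  induction t generalizing c x1 x2 y1 y2 with
  | skip => exact Or.inl (hb ▸ h)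
  | leaf =>
    unfold ccTree at h
    exact Or.inr (hb ▸ hf ▸ ccTile_ok hc h)
  | sx m l r i1 i2 =>
    unfold ccTree at h
    unfold CT.find at hb
    obtain ⟨h1, h2⟩ := Bool.and_eq_true_iff.1 h
    split_ifs at hb with g
    exacts [i1 (x2 := m) hc hf ⟨hm.1, g, hm.2.2⟩ h1 hb,
      i2 (x1 := m) hc hf ⟨(not_le.1 g).le, hm.2⟩ h2 hb]
  | sy m l r i1 i2 =>
    unfold ccTree at h
    unfold CT.find at hb
    obtain ⟨h1, h2⟩ := Bool.and_eq_true_iff.1 h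
    split_ifs at hb with g
    exacts [i1 (y2 := m) hc hf ⟨hm.1, hm.2.1, hm.2.2.1, g⟩ h1 hb,
      i2 (y1 := m) hc hf ⟨hm.1, hm.2.1, (not_le.1 g).le, hm.2.2.2⟩ h2 hb]
  | cen cu cv r t i =>
    unfold ccTree at h
    obtain ⟨h1, h⟩ := Bool.and_eq_true_iff.1 h
    obtain ⟨c', h, g1, g2⟩ := ccCen_ok hX hB (inZ_ok h1 hm.1 hm.2.1 hm.2.2.1 hm.2.2.2) h
    exact i g2 g1 hm h hb

/-- the cover of a box of values of `ζ` -/
theorem ccCover_ok (hX : X.Unit ζ) {k2 s : TM} (h1 : ∀ y hy, RepA (x.set2 y hy) k2 X.P.k2)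
    (h2 : ∀ y hy, RepA (x.set2 y hy) s X.c1) {m kind K : ℕ} {thr : ℤ} {dbl fl : Bool}
    {vu vd : List CV} {sk : ℤ → ℤ → ℤ → ℤ → Bool} {lf : ℤ → ℤ → ℤ → ℤ → TM → TM → Bool} {t : CT}
    {x1 x2 y1 y2 : ℤ} (hm : InB ζ (x1, x2, y1, y2)) (h : (ccPrep k2 s m dbl vu vd fun B =>
      ccTree B kind K thr fl sk lf t (cc0 fl) x1 x2 y1 y2) = true) :
    ∃ a1 a2 b1 b2, InB ζ (a1, a2, b1, b2) ∧ (sk a1 a2 b1 b2 = true ∨
      ∃ y hy y' hy' S0 S1, lf a1 a2 b1 b2 S0 S1 = true ∧ ζ.re = varVal a1 a2 y ∧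
        ζ.im = varVal b1 b2 y' ∧ Rep ((x.set2 y hy).set3 y' hy') S0 (X.top.1 / X.J.E 0) ∧
        (fl = true → Rep ((x.set2 y hy).set3 y' hy') S1 (X.top.2 / X.J.E 0))) := by
  have a1 := t.find_mem hm
  obtain ⟨y, hy, a2⟩ := exists_varVal a1.1 a1.2.1
  obtain ⟨y', hy', a3⟩ := exists_varVal a1.2.2.1 a1.2.2.2
  obtain ⟨B, h, hB⟩ := ccPrep_ok (x := (x.set2 y hy).set3 y' hy') hX (h1 y hy) (h2 y hy) h
  refine ⟨_, _, _, _, a1, (ccTree_ok hX hB (c := cc0 fl) (fun g => absurd g (by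
    norm_num [cc0, toR])) rfl hm h rfl).imp_right fun ⟨S0, S1, g1, g2⟩ =>
    ⟨y, hy, y', hy', S0, S1, g1, a2.symm, a3.symm, g2 a2.symm a3.symm⟩⟩

theorem TX.S_top (X : TX) (h : X.top.1 ≠ 0) : X.P.S X.T ≠ 0 := fun h0 => by
  have h3 := X.cF_top
  rw [Par.cF, h0, mul_zero] at h3
  exact mul_ne_zero (mul_ne_zero (ofReal_ne_zero.2 (Real.sqrt_pos.2 (X.P.L_pos X.hδ)).ne')
    (Complex.exp_ne_zero _)) (mul_ne_zero (ofReal_ne_zero.2 X.a_pos.ne') h) h3.symm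

theorem chkCC_ok {k1 k2 s1 s2 Z thr : ℤ} {m K kind : ℕ} {vu vd : List CV} {t : CT}
    (h : chkCC k1 k2 s1 s2 Z thr m K kind vu vd t = true) (hX : X.Unit ζ) (h1 : toR k1 ≤ X.P.kap)
    (h2 : X.P.kap ≤ toR k2) (h3 : toR s1 ≤ X.c1) (h4 : X.c1 ≤ toR s2) (h5 : ‖ζ‖ ≤ toR Z) :
    X.P.S X.T ≠ 0 := by
  unfold chkCC at h
  obtain ⟨t0, h⟩ := Bool.and_eq_true_iff.1 h
  obtain ⟨_, h, a1⟩ := var_ok h
  obtain ⟨_, h, a2⟩ := var_ok h
  have b0 := toR_zero ▸ leI_ok t0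
  have b1 := X.P.kap_nonneg
  obtain ⟨y0, g0, e0⟩ := exists_varVal (t := X.P.k2)
    (by rw [← X.P.kap_sq, sq]; exact mulD_le b0 b0 h1 h1)
    (by rw [← X.P.kap_sq, sq]; exact mulU_le b1 b1 h2 h2)
  obtain ⟨y1, g1, e1⟩ := exists_varVal h3 h4
  have c1 := abs_le.1 ((abs_re_le_norm ζ).trans h5)
  have c2 := abs_le.1 ((abs_im_le_norm ζ).trans h5)
  obtain ⟨p1, p2, q1, q2, c3, c4 | ⟨_, _, _, _, _, _, c4, -, -, c5, -⟩⟩ := ccCover_ok
    (x := ⟨y0, y1, 0, 0, g0, g1, by simp, by simp⟩) hX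
    (fun y hy y' hy' => by rw [← e0]; exact a1 _) (fun y hy y' hy' => by rw [← e1]; exact a2 _)
    ⟨toR_neg Z ▸ c1.1, c1.2, toR_neg Z ▸ c2.1, c2.2⟩ h
  · simp only [outZ, fI_eq] at c4
    have b : ∀ (t : ℝ) (a b : ℤ), toR a ≤ t → t ≤ toR b →
        toR (mulD (maxI (maxI a (-b)) 0) (maxI (maxI a (-b)) 0)) ≤ t * t := fun t a b g1 g2 => by
      have d1 : 0 ≤ toR (maxI (maxI a (-b)) 0) := by
        rw [toR_maxI, toR_zero]
        exact le_max_right _ _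
      have d2 : toR (maxI (maxI a (-b)) 0) ≤ |t| := by
        rw [toR_maxI, toR_maxI, toR_zero, toR_neg]
        exact max_le (max_le (g1.trans (le_abs_self t)) ((neg_le_neg g2).trans (neg_le_abs t)))
          (abs_nonneg t)
      rw [← abs_mul_abs_self]
      exact mulD_le d1 d1 d2 d2
    have d3 := (mulU_le (norm_nonneg _) (norm_nonneg _) h5 h5).trans_lt (ltI_ok c4)
    rw [toR_add, ← sq, ← normSq_eq_norm_sq, normSq_apply] at d3
    exact absurd (add_le_add (b _ _ _ c3.1 c3.2.1) (b _ _ _ c3.2.2.1 c3.2.2.2)) (not_le.2 d3)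
  · obtain ⟨_, c4, c6⟩ := ablo_ok c4
    refine X.S_top fun h0 => ?_
    have := (toR_zero ▸ ltI_ok c4).trans_le (c6 _ _ c5)
    simp [h0] at this

end

end Pool.Agent.Sok
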