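import Pool.Agent.Sok.B2a
import Pool.Agent.Sok.TCC

/-! Denominator two near the turning point: monotone moduli, domination and uniqueness. -/

set_option autoImplicit false

namespace Pool.Agent.Sok

open Complex Set

def bY : ℤ := 714682138624
def bZ : ℤ := 2528876953600
def bLam : ℤ := 879609511936
def bW : ℤ := 109951582208
def bLo : ℤ := 1869169557504
def bB0 : ℤ := 219902115840
def bB1 : ℤ := 879609511936

namespace Par

variable (P : Par)

/-- the modulus of `S` increases -/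
def Inc (T : ℝ) : Prop := P.S T ≠ 0 ∧ 0 < (P.S' T / P.S T).re
/-- the modulus of `S` decreases -/
def Dec (T : ℝ) : Prop := P.S T ≠ 0 ∧ (P.S' T / P.S T).re < 0
/-- the term at `T + π` dominates -/
def Dm (T : ℝ) : Prop := ‖(P.Vtop T).1‖ < ‖(P.Vtop (T + Real.pi)).1‖
/-- the height gained by the term at `T + π` -/
noncomputable def gain (T : ℝ) : ℝ :=
  (P.v T).im * (toR bLam * P.vre - 2 * P.kap / (1 + P.k2) - 2 * P.kap * toR bW) +
    (1 - P.kap) / (1 + P.kap) * (toR bB0 + toR bB1 * P.vre)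
/-- lower bound of the term at `T + π` -/
def Low (T : ℝ) : Prop := toR bLo * (‖P.E T P.wT‖ * Real.exp (P.gain T / P.δ) * Real.sqrt P.δ) ≤
  ‖(P.Vtop (T + Real.pi)).1‖
/-- the alternative near the turning point -/
def GA (T : ℝ) : Prop := P.Inc T ∨ ((P.v T).im < 0 ∧ (P.Low T → P.Dm T))

end Par

theorem b2_one {f f' : ℝ → ℝ} {a b : ℝ} (hf : ∀ t, HasDerivAt f (f' t) t)
    (h : ∀ t, a ≤ t → t ≤ b → f t = 0 → 0 < f' t) (ha : f a = 0) (hb : f b = 0) : ¬ a < b := by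
  intro hab
  have hc : Continuous f := continuous_iff_continuousAt.2 fun t => (hf t).continuousAt
  have h1 : ∀ᶠ t in nhdsWithin a (Ioi a), 0 < f t := by
    have e := (hasDerivAt_iff_tendsto_slope_left_right.1 (hf a)).2
    filter_upwards [e.eventually (lt_mem_nhds (h a le_rfl hab.le ha)), self_mem_nhdsWithin]
      with t h1 h2
    rw [slope_def_field, ha, sub_zero] at h1
    exact (div_pos_iff_of_pos_right (sub_pos.2 h2)).1 h1
  obtain ⟨c, hc1, hc2⟩ := (h1.and (Ioo_mem_nhdsGT hab)).exists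
  have hK : IsCompact (Icc c b ∩ f ⁻¹' {0}) :=
    isCompact_Icc.inter_right (isClosed_singleton.preimage hc)
  obtain ⟨u, ⟨⟨u1, u2⟩, u3⟩, hu⟩ := hK.exists_isLeast ⟨b, ⟨hc2.2.le, le_rfl⟩, hb⟩
  have u4 : f u = 0 := u3
  have u5 : c < u := lt_of_le_of_ne u1 fun e => by rw [← e] at u4; linarith
  have h2 : ∀ᶠ t in nhdsWithin u (Iio u), f t < 0 := by
    have e := (hasDerivAt_iff_tendsto_slope_left_right.1 (hf u)).1
    filter_upwards [e.eventually (lt_mem_nhds (h u (hc2.1.le.trans u1) u2 u4)),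
      self_mem_nhdsWithin] with t h1 h2
    rw [slope_def_field, u4, sub_zero] at h1
    exact (div_pos_iff.1 h1).elim (fun e => absurd e.2 (not_lt.2 (sub_neg.2 h2).le)) fun e => e.1
  obtain ⟨d, hd1, hd2⟩ := (h2.and (Ioo_mem_nhdsLT u5)).exists
  obtain ⟨w, w1, w2⟩ := intermediate_value_Icc' hd2.1.le hc.continuousOn ⟨hd1.le, hc1.le⟩
  have := hu ⟨⟨w1.1, w1.2.trans (hd2.2.le.trans u2)⟩, w2⟩
  linarith [w1.2, hd2.2]

theorem b2_nsq {f : ℝ → ℂ} {f' : ℂ} {t : ℝ} (h : HasDerivAt f f' t) :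
    HasDerivAt (fun s => normSq (f s)) (2 * (f' * (starRingEnd ℂ) (f t)).re) t := by
  have e : (fun s => normSq (f s)) = fun s => (f s).re * (f s).re + (f s).im * (f s).im := by
    funext s
    rw [normSq_apply]
  rw [e]
  refine (((ta_re h).mul (ta_re h)).add ((ta_im h).mul (ta_im h))).congr_deriv ?_
  simp
  ring

theorem b2_re {a b : ℂ} (h : b ≠ 0) : (a * (starRingEnd ℂ) b).re = (a / b).re * normSq b := by
  have e : a * (starRingEnd ℂ) b = a / b * (normSq b : ℝ) := by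
    rw [← mul_conj]
    field_simp
  rw [e, re_mul_ofReal]

theorem b2_per (P : Par) (T : ℝ) : ‖P.S (T + Real.pi + Real.pi)‖ = ‖P.S T‖ := by
  have e := P.S_period T 1
  rw [show T + 2 * Real.pi * (1 : ℤ) = T + Real.pi + Real.pi by push_cast; ring] at e
  rw [e, norm_mul, norm_exp]
  simp

theorem b2_shift (P : Par) (T : ℝ) (k : ℤ) : (‖P.S (T + k * Real.pi)‖ =
    ‖P.S (T + k * Real.pi + Real.pi)‖ → ‖P.S T‖ = ‖P.S (T + k * Real.pi)‖) ∧
    (‖P.S (T + k * Real.pi)‖ = ‖P.S (T + k * Real.pi + Real.pi)‖ ↔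
      ‖P.S T‖ = ‖P.S (T + Real.pi)‖) := by
  induction k using Int.induction_on with
  | zero => simp
  | succ n ih =>
    have e : T + ((n : ℤ) + 1 : ℤ) * Real.pi = T + (n : ℤ) * Real.pi + Real.pi := by
      push_cast
      ring
    rw [e, b2_per]
    exact ⟨fun h => (ih.1 h.symm).trans h.symm, eq_comm.trans ih.2⟩
  | pred n ih =>
    have e : T + (-(n : ℤ) : ℤ) * Real.pi = T + (-(n : ℤ) - 1 : ℤ) * Real.pi + Real.pi := by
      push_cast
      ring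
    rw [e, b2_per] at ih
    exact ⟨fun h => (ih.1 h.symm).trans h.symm, eq_comm.trans ih.2⟩

theorem uniq_two (P : Par) (T0 : ℝ) (h : ∀ T, T0 ≤ T → T ≤ T0 + Real.pi →
    (P.Inc T ∧ P.Dec (T + Real.pi)) ∨ ‖P.S T‖ < ‖P.S (T + Real.pi)‖) : P.Uniq 2 := by
  have hπ := Real.pi_pos
  have hd : ∀ t, HasDerivAt (fun s => normSq (P.S s) - normSq (P.S (s + Real.pi)))
      (2 * (P.S' t * (starRingEnd ℂ) (P.S t)).re -
        2 * (P.S' (t + Real.pi) * (starRingEnd ℂ) (P.S (t + Real.pi))).re) t := fun t =>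
    (b2_nsq (P.S_deriv t)).sub (b2_nsq ((P.S_deriv (t + Real.pi)).comp_add_const t Real.pi))
  have hz : ∀ t, T0 ≤ t → t ≤ T0 + Real.pi → ‖P.S t‖ = ‖P.S (t + Real.pi)‖ →
      P.Inc t ∧ P.Dec (t + Real.pi) := fun t t1 t2 e =>
    (h t t1 t2).resolve_right (by rw [e]; exact lt_irrefl _)
  have hn : ∀ t, normSq (P.S t) - normSq (P.S (t + Real.pi)) = 0 ↔
      ‖P.S t‖ = ‖P.S (t + Real.pi)‖ := fun t => by
    rw [sub_eq_zero, normSq_eq_norm_sq, normSq_eq_norm_sq,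
      pow_left_inj₀ (norm_nonneg _) (norm_nonneg _) two_ne_zero]
  have h1 : ∀ a b, T0 ≤ a → b ≤ T0 + Real.pi → ‖P.S a‖ = ‖P.S (a + Real.pi)‖ →
      ‖P.S b‖ = ‖P.S (b + Real.pi)‖ → ¬ a < b := fun a b a1 b1 a2 b2 =>
    b2_one hd (fun t t1 t2 e => by
      obtain ⟨⟨i1, i2⟩, d1, d2⟩ := hz t (a1.trans t1) (t2.trans b1) ((hn t).1 e)
      rw [b2_re i1, b2_re d1]
      have := mul_pos i2 (normSq_pos.2 i1)
      have := mul_neg_of_neg_of_pos d2 (normSq_pos.2 d1)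
      linarith) ((hn a).2 a2) ((hn b).2 b2)
  have h2 : ∀ κ : ℝ, ‖P.S (κ * Real.pi)‖ = ‖P.S (κ * Real.pi - Real.pi)‖ → ∃ k : ℤ,
      T0 ≤ (κ + k) * Real.pi ∧ (κ + k) * Real.pi < T0 + Real.pi ∧
      ‖P.S ((κ + k) * Real.pi)‖ = ‖P.S ((κ + k) * Real.pi + Real.pi)‖ ∧ P.S (κ * Real.pi) ≠ 0 := by
    intro κ e
    have k1 := Int.le_ceil (T0 / Real.pi - κ)
    have k2 := Int.ceil_lt_add_one (T0 / Real.pi - κ)
    generalize ⌈T0 / Real.pi - κ⌉ = k at k1 k2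
    have e0 : T0 = T0 / Real.pi * Real.pi := by field_simp
    have t1 : T0 ≤ (κ + k) * Real.pi := by nlinarith
    have t2 : (κ + k) * Real.pi < T0 + Real.pi := by nlinarith
    have e1 := (b2_shift P (κ * Real.pi) (-1)).2.1 (by
      rw [show κ * Real.pi + (-1 : ℤ) * Real.pi = κ * Real.pi - Real.pi by push_cast; ring,
        sub_add_cancel]
      exact e.symm)
    have e2 := b2_shift P (κ * Real.pi) k
    rw [← add_mul] at e2
    have e3 := e2.2.2 e1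
    refine ⟨k, t1, t2, e3, fun e4 => (hz _ t1 t2.le e3).1.1 ?_⟩
    rw [← norm_eq_zero, ← e2.1 e3, e4, norm_zero]
  intro χ hχ κ κ' u u' k0 k1 k0' k1' z z'
  obtain ⟨k, a1, a2, a3, a4⟩ := h2 κ (zz_two P hχ z)
  obtain ⟨k', b1, b2, b3, -⟩ := h2 κ' (zz_two P hχ z')
  have e := le_antisymm (not_lt.1 (h1 _ _ b1 a2.le b3 a3)) (not_lt.1 (h1 _ _ a1 b2.le a3 b3))
  have e1 : κ + k = κ' + k' := mul_right_cancel₀ hπ.ne' e
  have e2 : k = k' := by
    have i1 : (k : ℝ) < k' + 1 := by linarith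
    have i2 : (k' : ℝ) < k + 1 := by linarith
    have j1 : k < k' + 1 := by exact_mod_cast i1
    have j2 : k' < k + 1 := by exact_mod_cast i2
    omega
  have e3 : κ = κ' := by rw [e2] at e1; linarith
  subst e3
  exact ⟨rfl, zz_two_u P hχ z z' a4⟩

theorem Par.Dm.lt {P : Par} (hδ : 0 < P.δ) {T : ℝ} (h : P.Dm T) :
    ‖P.S T‖ < ‖P.S (T + Real.pi)‖ := by
  have e : ∀ t, ‖(1 + I) * ((Real.sqrt (Real.pi / P.cg) : ℝ) : ℂ)‖ * ‖P.S t‖ =
      Real.sqrt P.L * ‖(P.Vtop t).1‖ := fun t => by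
    have e1 := P.cF_eq hδ t
    unfold Par.cF Par.cV at e1
    rw [← norm_mul, e1, norm_mul, norm_mul, norm_exp, sub_zero, Complex.norm_real,
      Real.norm_of_nonneg (Real.sqrt_nonneg _)]
    have e2 : (-(I * (t : ℂ) ^ 2 / (2 * P.δ))).re = 0 := by
      rw [show -(I * (t : ℂ) ^ 2 / (2 * P.δ)) = ((-(t ^ 2 / (2 * P.δ)) : ℝ) : ℂ) * I by
        push_cast; ring, re_ofReal_mul, I_re, mul_zero]
    rw [e2, Real.exp_zero, mul_one]
  have h1 := mul_lt_mul_of_pos_left h (Real.sqrt_pos.2 (P.L_pos hδ))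
  rw [← e, ← e] at h1
  exact lt_of_mul_lt_mul_left h1 (norm_nonneg _)

/-- the logarithmic derivative of `S` through the mean position -/
theorem TX.logd (X : TX) (h : X.top.1 ≠ 0) : X.P.S X.T ≠ 0 ∧
    X.P.δ * (X.P.S' X.T / X.P.S X.T).re =
      2 * X.P.kap * (X.c1 * (X.top.2 / X.top.1 - X.va).re + (1 + X.P.k2)⁻¹) := by
  have hS := X.S_top h
  refine ⟨hS, ?_⟩
  have hm := (X.mean (u := (0, 0)) (v := X.P.Vtop X.T) (by rw [affV_zero, sub_zero]; exact h)).2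
  rw [affV_zero, ← X.P.cF_eq X.hδ, ← X.P.nF_eq X.hδ] at hm
  simp only [sub_zero] at hm
  rw [← X.w_re]
  have hc := X.P.cg_pos
  have hs := X.P.sg_pos X.hδ
  have h2 := X.P.par_s2_pos
  have hC : (1 + I) * ((Real.sqrt (Real.pi / X.P.cg) : ℝ) : ℂ) ≠ 0 := by
    refine mul_ne_zero (fun e => ?_) (ofReal_ne_zero.2 (Real.sqrt_pos.2 (by positivity)).ne')
    have := congrArg re e
    simp at this
  have e1 : X.P.nF X.T / X.P.cF X.T =
      X.P.S' X.T / X.P.S X.T / X.P.ka + (1 + I * X.P.lam) * X.T := by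
    have hk : (X.P.ka : ℂ) ≠ 0 := ofReal_ne_zero.2 X.P.ka_pos.ne'
    unfold Par.nF Par.cF
    generalize (1 + I) * ((Real.sqrt (Real.pi / X.P.cg) : ℝ) : ℂ) = c at hC
    field_simp
  have e2 : X.P.sc / X.P.ka = X.P.δ := by
    unfold Par.sc Par.ka Par.sg Par.lam
    field_simp
  have e3 : X.P.wT + X.a * (X.top.2 / X.top.1) = (X.P.δ : ℂ) * (X.P.S' X.T / X.P.S X.T) +
      ((X.P.sc : ℂ) * ((1 + I * X.P.lam) * X.T) + X.P.ref X.T) := by
    rw [e1] at hm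
    rw [← e2]
    push_cast
    unfold TX.top
    linear_combination -hm
  rw [e3, add_re, re_ofReal_mul]
  have e4 : ((X.P.sc : ℂ) * ((1 + I * X.P.lam) * X.T) + X.P.ref X.T).re = 0 := by
    unfold Par.ref Par.sc
    simp
    ring
  rw [e4, add_zero]

theorem TX.inc (X : TX) (h : X.top.1 ≠ 0)
    (h1 : 0 < X.c1 * (X.top.2 / X.top.1 - X.va).re + (1 + X.P.k2)⁻¹) : X.P.Inc X.T := by
  obtain ⟨e1, e2⟩ := X.logd h
  have := mul_pos (mul_pos two_pos (Par.kap_pos X.hδ)) h1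
  rw [← e2] at this
  exact ⟨e1, (mul_pos_iff_of_pos_left X.hδ).1 this⟩

theorem TX.dec (X : TX) (h : X.top.1 ≠ 0)
    (h1 : X.c1 * (X.top.2 / X.top.1 - X.va).re + (1 + X.P.k2)⁻¹ < 0) : X.P.Dec X.T := by
  obtain ⟨e1, e2⟩ := X.logd h
  have := mul_neg_of_pos_of_neg (mul_pos two_pos (Par.kap_pos X.hδ)) h1
  rw [← e2] at this
  exact ⟨e1, neg_of_mul_neg_right this X.hδ.le⟩

theorem TX.top_norm (X : TX) : ‖(X.P.Vtop X.T).1‖ = X.a * ‖X.top.1‖ := by
  unfold TX.top affV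
  rw [norm_div, Complex.norm_real, Real.norm_of_nonneg X.a_pos.le,
    mul_div_cancel₀ _ X.a_pos.ne']

/-- the comparison of the two terms, uniformly in the scale -/
theorem b2_scale {I η L L0 c0 c3 s sh g lo : ℝ} (hs : 0 < s) (h1 : s ≤ sh) (h2 : L0 ≤ L)
    (h0 : 0 < c0) (h3 : 0 ≤ c3) (h4 : sh ≤ 2 * (L0 * c0)) (hg : 0 ≤ g)
    (h5 : g ≤ c0 / sh + c3 / (sh * sh * sh) - η) (hI : 0 ≤ I)
    (h6 : I * Real.exp (-(L0 * g)) < lo * Real.sqrt sh) :
    I * Real.exp (L * η) < lo * Real.sqrt s * Real.exp (L * (c0 / s + c3 / (s * s * s))) := by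
  have hh : 0 < sh := hs.trans_le h1
  have hL : 0 < L0 := by
    by_contra e
    have := mul_nonneg (neg_nonneg.2 (not_lt.1 e)) h0.le
    linarith
  have e1 : c3 / (sh * sh * sh) ≤ c3 / (s * s * s) :=
    div_le_div_of_nonneg_left h3 (by positivity) (by gcongr)
  have e2 : c0 / sh ≤ c0 / s := div_le_div_of_nonneg_left h0.le hs h1
  have e3 : Real.sqrt sh ≤ Real.sqrt s * Real.exp (L0 * (c0 / s - c0 / sh)) := by
    rw [Real.sqrt_le_left (by positivity), mul_pow, Real.sq_sqrt hs.le, ← Real.exp_nat_mul]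
    have e4 := Real.add_one_le_exp ((2 : ℕ) * (L0 * (c0 / s - c0 / sh)))
    have e5 : sh ≤ s * ((2 : ℕ) * (L0 * (c0 / s - c0 / sh)) + 1) := by
      have e6 : s * ((2 : ℕ) * (L0 * (c0 / s - c0 / sh)) + 1) =
          2 * (L0 * c0) / sh * (sh - s) + s := by
        push_cast
        field_simp
      have e7 : 1 ≤ 2 * (L0 * c0) / sh := (one_le_div hh).2 h4
      rw [e6]
      nlinarith
    nlinarith
  have hlo : 0 < lo := by
    have := (mul_nonneg hI (Real.exp_pos _).le).trans_lt h6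
    exact (mul_pos_iff_of_pos_right (Real.sqrt_pos.2 hh)).1 this
  have e8 : L * η + L0 * g + L0 * (c0 / s - c0 / sh) ≤ L * (c0 / s + c3 / (s * s * s)) := by
    have e9 : 0 ≤ (L - L0) * (c0 / s + c3 / (s * s * s) - η) :=
      mul_nonneg (sub_nonneg.2 h2) (by linarith)
    nlinarith
  calc I * Real.exp (L * η) = I * Real.exp (-(L0 * g)) * Real.exp (L * η + L0 * g) := by
        rw [mul_assoc, ← Real.exp_add]
        congr 2
        ring
    _ < lo * Real.sqrt sh * Real.exp (L * η + L0 * g) :=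
        mul_lt_mul_of_pos_right h6 (Real.exp_pos _)
    _ ≤ lo * (Real.sqrt s * Real.exp (L0 * (c0 / s - c0 / sh))) * Real.exp (L * η + L0 * g) := by
        gcongr
    _ = lo * Real.sqrt s * Real.exp (L * η + L0 * g + L0 * (c0 / s - c0 / sh)) := by
        rw [Real.exp_add _ (L0 * (c0 / s - c0 / sh))]
        ring
    _ ≤ _ := by gcongr

/-- domination in the scaled chart -/
theorem TX.dom (X : TX) (hm : X.m2 = X.c1) {vh : ℂ}
    (hv : X.P.v X.T = 2 * X.P.kap * X.c1 ^ 2 * vh) {I η c0 c3 : ℝ}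
    (hI : Real.sqrt X.L * ‖X.top.1‖ ≤ ‖X.J.E 0‖ * Real.exp (X.L * η) * I)
    (h0 : c0 ≤ -(vh.im * ((1 + X.P.k2)⁻¹ - X.c1 * X.c1 * vh.re * toR bLam + toR bW)))
    (h3 : c3 ≤ (X.P.kap * (X.c1 * X.c1 * vh.re) * (2 * toR bB1) + toR bB0) *
      ((1 - X.P.kap) / ((1 + X.P.kap) * (4 * (X.P.kap * X.P.kap)))))
    (h : I * Real.exp (X.L * η) < toR bLo * Real.sqrt X.c1 *
      Real.exp (X.L * (c0 / X.c1 + c3 / (X.c1 * X.c1 * X.c1)))) (hl : X.P.Low X.T) :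
    X.P.Dm X.T := by
  have hk := Par.kap_pos X.hδ
  have hk2 := Par.k2_pos X.hδ
  have hs := X.h1
  have hδ := X.hδ
  have hL := X.L_pos
  have e0 : X.J.E 0 = X.P.E X.T X.P.wT := by rw [X.J_E, mul_zero, add_zero]
  have e1 : X.P.vre = 2 * X.P.kap * X.c1 ^ 2 * vh.re := by
    have := congrArg re hv
    rw [show (2 * X.P.kap * X.c1 ^ 2 : ℂ) = ((2 * X.P.kap * X.c1 ^ 2 : ℝ) : ℂ) by push_cast; ring,
      re_ofReal_mul] at this
    exact this
  have e2 : (X.P.v X.T).im = 2 * X.P.kap * X.c1 ^ 2 * vh.im := by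
    rw [hv, show (2 * X.P.kap * X.c1 ^ 2 : ℂ) = ((2 * X.P.kap * X.c1 ^ 2 : ℝ) : ℂ) by
      push_cast; ring, im_ofReal_mul]
  have e3 := X.L_δ
  rw [hm] at e3
  have e4 : X.L * (c0 / X.c1 + c3 / (X.c1 * X.c1 * X.c1)) ≤ X.P.gain X.T / X.P.δ := by
    have e5 : X.P.gain X.T / X.P.δ = X.L * (-(vh.im * ((1 + X.P.k2)⁻¹ -
        X.c1 * X.c1 * vh.re * toR bLam + toR bW)) / X.c1 + (X.P.kap * (X.c1 * X.c1 * vh.re) *
        (2 * toR bB1) + toR bB0) * ((1 - X.P.kap) / ((1 + X.P.kap) * (4 * (X.P.kap * X.P.kap)))) /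
        (X.c1 * X.c1 * X.c1)) := by
      have e6 : X.L = (2 * X.P.kap * X.c1) ^ 2 * X.c1 / X.P.δ := by
        rw [eq_div_iff hδ.ne', e3]
        rfl
      unfold Par.gain
      rw [e2, e1, e6]
      field_simp
      ring
    rw [e5]
    gcongr
  have e7 : X.a = Real.sqrt X.L * Real.sqrt X.P.δ / Real.sqrt X.c1 := by
    rw [← Real.sqrt_mul hL.le, e3, Real.sqrt_mul (sq_nonneg _), Real.sqrt_sq X.a_pos.le,
      mul_div_cancel_right₀ _ (Real.sqrt_pos.2 hs).ne']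
  have hE : 0 < ‖X.J.E 0‖ := norm_pos_iff.2 X.E0_ne
  have hq := Real.sqrt_pos.2 hs
  have hd := Real.sqrt_pos.2 hδ
  have b0 : 0 ≤ toR bLo := by unfold toR bLo; norm_num
  unfold Par.Dm
  refine lt_of_lt_of_le ?_ hl
  rw [X.top_norm, ← e0, e7]
  calc Real.sqrt X.L * Real.sqrt X.P.δ / Real.sqrt X.c1 * ‖X.top.1‖
      = Real.sqrt X.L * ‖X.top.1‖ * (Real.sqrt X.P.δ / Real.sqrt X.c1) := by ring
    _ ≤ ‖X.J.E 0‖ * Real.exp (X.L * η) * I * (Real.sqrt X.P.δ / Real.sqrt X.c1) := by gcongr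
    _ = I * Real.exp (X.L * η) * (‖X.J.E 0‖ * (Real.sqrt X.P.δ / Real.sqrt X.c1)) := by ring
    _ < toR bLo * Real.sqrt X.c1 * Real.exp (X.L * (c0 / X.c1 + c3 / (X.c1 * X.c1 * X.c1))) *
        (‖X.J.E 0‖ * (Real.sqrt X.P.δ / Real.sqrt X.c1)) :=
        mul_lt_mul_of_pos_right h (by positivity)
    _ ≤ toR bLo * Real.sqrt X.c1 * Real.exp (X.P.gain X.T / X.P.δ) *
        (‖X.J.E 0‖ * (Real.sqrt X.P.δ / Real.sqrt X.c1)) := by gcongr
    _ = _ := by field_simp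

end Pool.Agent.Sok
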