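import Pool.Agent.Sok.TEnd

/-! Heights, the gap at a saddle point and a vertical end with a majorant (chart of scale one). -/

set_option autoImplicit false

namespace Pool.Agent.Sok

open TM Complex

theorem th_trig {t : ℝ} (h0 : 0 ≤ t) (h1 : t ≤ Real.pi) : t * Real.cos t ≤ Real.sin t := by
  rcases lt_or_ge t (Real.pi / 2) with h | h
  · have h2 := Real.le_tan h0 h
    rwa [Real.tan_eq_sin_div_cos, le_div_iff₀ (Real.cos_pos_of_mem_Ioo ⟨by linarith, h⟩)] at h2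
  · exact (mul_nonpos_of_nonneg_of_nonpos h0 (Real.cos_nonpos_of_pi_div_two_le_of_le h
      (by linarith))).trans (Real.sin_nonneg_of_nonneg_of_le_pi h0 h1)

theorem th_real {a ψ x y c r φ D e ρ b n : ℝ} (hD : 0 < D) (hr : 0 ≤ r) (hc : 0 ≤ c) (hρ : 0 ≤ ρ)
    (hn : 0 ≤ n) (h1 : ρ * Real.sin (Real.pi + φ - ψ) + r * e = D * (ψ - y - r * c))
    (h2 : ρ * Real.cos (Real.pi + φ - ψ) = D * (x - a - c))
    (h3 : n * (D - 1) = ρ * Real.sin (Real.pi + φ - ψ) + r * e / 2 + r * (1 / 2 + c))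
    (h4 : r * (1 + c) ≤ φ) (h5 : φ ≤ ψ) (h6 : ψ ≤ 2 * Real.pi) (h7 : y ≤ Real.pi) (h8 : e ≤ D)
    (h9 : 0 ≤ ρ * Real.cos (Real.pi + φ - ψ))
    (hb : b * D ≤ c * a * D + (1 + c) * (ρ * Real.cos (Real.pi + φ - ψ)) + e / 2 + 1 / 2 + c) :
    (y - Real.pi) * a + r * b ≤
      Real.pi * (c - x) + (-(a * ψ) + (y + r * c) * a - (c - x) * ψ + n * Real.log D) := by
  have g0 : 0 ≤ φ := le_trans (by positivity) h4
  have g1 : 0 ≤ Real.pi + φ - ψ := by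
    by_contra g
    have g2 := mul_nonpos_of_nonneg_of_nonpos hρ
      (Real.sin_nonpos_of_nonpos_of_neg_pi_le (not_le.1 g).le (by linarith))
    have g3 := mul_neg_of_pos_of_neg hD (not_le.1 g)
    nlinarith [mul_le_mul_of_nonneg_left h8 hr, mul_le_mul_of_nonneg_left h4 hD.le,
      mul_le_mul_of_nonneg_left h7 hD.le]
  have g2 := mul_le_mul_of_nonneg_left (th_trig g1 (by linarith)) hρ
  have g3 : D - 1 ≤ D * Real.log D := by
    have := mul_le_mul_of_nonneg_left (Real.one_sub_inv_le_log_of_pos hD) hD.le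
    rwa [mul_sub, mul_one, mul_inv_cancel₀ hD.ne'] at this
  refine le_of_mul_le_mul_left ?_ hD
  generalize Real.sin (Real.pi + φ - ψ) = S at *
  generalize Real.cos (Real.pi + φ - ψ) = C at *
  have g4 := mul_le_mul_of_nonneg_left g3 hn
  have g5 := mul_le_mul_of_nonneg_left hb hr
  have g6 := mul_le_mul_of_nonneg_right h4 h9
  have g7 : (ψ - Real.pi) * (ρ * C) = (ψ - Real.pi) * (D * (x - a - c)) := by rw [h2]
  linarith

namespace Par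

variable (P : Par)

noncomputable def cc : ℝ := 2 * P.kap / (1 + P.k2)
noncomputable def rr : ℝ := (1 - P.kap) / (1 + P.kap)
noncomputable def dnT (z : ℂ) : ℂ := P.al + P.ga * cexp z
/-- the height of `wT + z` over the turning point -/
noncomputable def Hh (T : ℝ) (z : ℂ) : ℝ :=
  -(z.re * z.im) + ((P.v T).im + P.rr * P.cc) * z.re - (P.cc - (P.v T).re) * z.im +
    P.N * P.δ / 2 * Real.log (normSq (P.dnT z))
noncomputable def Wg (z : ℂ) : ℂ := -(1 + I * P.kap) ^ 2 / (1 + P.k2) * cexp z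

theorem Nd_eq : P.N * P.δ * (1 - P.kap ^ 4) = 8 * P.kap ^ 2 := by
  have h := P.lamU_k2
  rw [← P.kap_sq, lamU] at h
  linear_combination 4 * h

theorem rr_nonneg : 0 ≤ P.rr :=
  div_nonneg (sub_nonneg.2 P.kap_lt.le) (by linarith [P.kap_nonneg])

theorem wT_re : P.wT.re = P.cc - P.vre := by
  have hl : Real.log (P.p / (1 - P.p)) = -Real.log ((1 - P.p) / P.p) := by
    rw [← Real.log_inv, inv_div]
  simp only [wT, vre, cc, hl]
  ring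

variable {P} (hδ : 0 < P.δ)
include hδ

theorem Nd_val : (P.N * P.δ : ℂ) =
    8 * P.kap ^ 2 / ((1 - P.kap) * (1 + P.kap) * (1 + P.kap ^ 2)) ∧ (P.kap : ℂ) ≠ 0 ∧
    (1 - P.kap : ℂ) ≠ 0 ∧ (1 + P.kap : ℂ) ≠ 0 ∧ (1 + P.kap ^ 2 : ℂ) ≠ 0 := by
  have h1 := kap_pos hδ
  have g1 : (1 - P.kap : ℂ) ≠ 0 := by exact_mod_cast (sub_pos.2 P.kap_lt).ne'
  have g2 : (1 + P.kap : ℂ) ≠ 0 := by exact_mod_cast (show 1 + P.kap ≠ 0 by positivity)
  have g3 : (1 + P.kap ^ 2 : ℂ) ≠ 0 := by exact_mod_cast (show 1 + P.kap ^ 2 ≠ 0 by positivity)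
  refine ⟨eq_div_of_mul_eq (mul_ne_zero (mul_ne_zero g1 g2) g3) ?_, ofReal_ne_zero.2 h1.ne', g1,
    g2, g3⟩
  have h2 : (P.N * P.δ * (1 - P.kap ^ 4) : ℂ) = 8 * P.kap ^ 2 := by exact_mod_cast P.Nd_eq
  linear_combination h2

theorem Nd_ga : P.N * P.δ * P.ga = -(P.rr * P.cc : ℝ) - I * P.cc := by
  obtain ⟨h, g0, g1, g2, g3⟩ := Nd_val hδ
  rw [h, ga, nn, rr, cc, ← P.kap_sq]
  push_cast
  field_simp
  ring

theorem Nd_conj : P.N * P.δ * P.ga * (starRingEnd ℂ) P.al = -(1 + I * P.kap) ^ 2 / (1 + P.k2) ∧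
    P.N * P.δ * P.ga * (starRingEnd ℂ) P.ga = P.rr ∧
    P.N * P.δ * (P.al * (starRingEnd ℂ) P.al - 1) = (P.rr * (1 + 2 * P.cc) : ℝ) := by
  obtain ⟨h, g0, g1, g2, g3⟩ := Nd_val hδ
  simp only [h, ga, al, nn, rr, cc, ← P.kap_sq, map_div₀, map_sub, map_add, map_mul, map_neg,
    map_one, conj_ofReal, conj_I, map_ofNat]
  push_cast
  refine ⟨?_, ?_, ?_⟩ <;> field_simp
  · linear_combination (8 * (1 - P.kap ^ 2) * (1 + P.kap ^ 2)) * I_mul_I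
  · linear_combination (-8 * (1 - P.kap ^ 2) ^ 2) * I_mul_I
  · linear_combination (-8 * (1 - P.kap ^ 2) ^ 2) * I_mul_I

theorem den_U {z : ℂ} (h : (1 - P.p : ℂ) + P.p * cexp (P.wT + z) ≠ 0) : P.dnT z ≠ 0 := fun h0 => by
  have h1 := den_wT hδ z
  rw [← dnT, h0, mul_zero] at h1
  exact mul_ne_zero h (al_ne hδ) h1

theorem den_fac (z : ℂ) :
    (1 - P.p : ℂ) + P.p * cexp (P.wT + z) = (1 - P.p + P.p * cexp P.wT) * P.dnT z := by
  apply mul_right_cancel₀ (al_ne hδ)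
  have h1 := den_wT hδ 0
  rw [add_zero, Complex.exp_zero, mul_one, al_ga hδ, mul_one] at h1
  rw [den_wT hδ z, mul_right_comm, h1, dnT]

theorem lin_wT (T : ℝ) : I * P.wT + P.δ * P.β T = (P.rr * P.cc : ℝ) + I * P.cc - I * P.v T := by
  have h1 := phi_wT hδ T 0
  have h2 : (P.δ : ℂ) ≠ 0 := ofReal_ne_zero.2 hδ.ne'
  rw [phi1, mul_add, mul_add, mul_div_cancel₀ _ h2, add_zero] at h1
  linear_combination h1 - Nd_ga hδ

/-- the modulus of the integrand is given by the height -/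
theorem height (T : ℝ) {z : ℂ} (h : P.dnT z ≠ 0) :
    ‖P.E T (P.wT + z)‖ = ‖P.E T P.wT‖ * Real.exp (P.Hh T z / P.δ) := by
  have h2 : (P.δ : ℂ) ≠ 0 := ofReal_ne_zero.2 hδ.ne'
  have h3 : I * (P.wT + z) ^ 2 / (2 * P.δ) + P.β T * (P.wT + z) = I * P.wT ^ 2 / (2 * P.δ) +
      P.β T * P.wT + (((P.rr * P.cc : ℝ) + I * P.cc - I * P.v T) * z + I * z ^ 2 / 2) / P.δ := by
    rw [← lin_wT hδ]
    field_simp
    ring
  have h4 : ‖P.dnT z‖ ^ P.N = Real.exp (P.N / 2 * Real.log (normSq (P.dnT z))) := by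
    rw [normSq_eq_norm_sq, Real.log_pow, ← mul_assoc, Nat.cast_ofNat, div_mul_cancel₀ _ two_ne_zero,
      Real.exp_nat_mul, Real.exp_log (norm_pos_iff.2 h)]
  rw [E, E, Eg, Eg, h3, den_fac hδ, Complex.exp_add, mul_pow, mul_mul_mul_comm, norm_mul]
  congr 1
  rw [norm_mul, norm_exp, norm_pow, h4, ← Real.exp_add, div_ofReal_re, Hh]
  congr 1
  have h5 := hδ.ne'
  simp [sq]
  field_simp
  ring

omit hδ in
/-- the shift of the parameter by `π` -/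
theorem height_shift (T : ℝ) : ‖P.E T P.wT‖ =
    ‖P.E (T - Real.pi) P.wT‖ * Real.exp (Real.pi * (P.cc - (P.v T).re) / P.δ) := by
  have h3 : P.β T = P.β (T - Real.pi) + (Real.pi / P.δ : ℝ) := by
    simp only [β]
    push_cast
    ring
  rw [E, E, Eg, Eg, h3, add_mul, ← add_assoc, Complex.exp_add, mul_right_comm, norm_mul, norm_exp,
    re_ofReal_mul, wT_re, div_mul_eq_mul_div]
  rfl

theorem Wg_eq (z : ℂ) : P.Wg z = P.N * P.δ * P.ga * (starRingEnd ℂ) P.al * cexp z := by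
  rw [(Nd_conj hδ).1, Wg]

theorem Wg_polar (z : ℂ) : ∃ ρ, 0 ≤ ρ ∧ (P.Wg z).re = ρ * Real.cos (P.wT.im + z.im) ∧
    (P.Wg z).im = ρ * Real.sin (P.wT.im + z.im) := by
  have h1 := P.q_pos
  have h2 := P.hp0
  have h3 := normSq_nonneg P.al
  have h4 : P.Wg z = (P.N * P.δ * P.p * normSq P.al / (1 - P.p) : ℝ) * cexp (P.wT + z) := by
    have h5 : (1 - P.p : ℂ) ≠ 0 := by exact_mod_cast h1.ne'
    rw [Wg_eq hδ, Complex.exp_add]
    push_cast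
    rw [← mul_conj]
    field_simp
    linear_combination -(P.N * P.δ * (starRingEnd ℂ) P.al) * exp_wT hδ
  refine ⟨P.N * P.δ * P.p * normSq P.al / (1 - P.p) * Real.exp (P.wT + z).re, by positivity, ?_, ?_⟩
  · rw [h4, re_ofReal_mul, exp_re, add_im, ← mul_assoc]
  · rw [h4, im_ofReal_mul, exp_im, add_im, ← mul_assoc]

theorem den_conj (z : ℂ) : P.N * P.δ * P.ga * cexp z * (starRingEnd ℂ) (P.dnT z) =
      P.Wg z + (P.rr * Real.exp (2 * z.re) : ℝ) ∧ P.N * P.δ / 2 * (normSq (P.dnT z) - 1) =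
      (P.Wg z).re + P.rr * Real.exp (2 * z.re) / 2 + P.rr * (1 / 2 + P.cc) := by
  obtain ⟨-, h2, h3⟩ := Nd_conj hδ
  have h4 : cexp z * (starRingEnd ℂ) (cexp z) = (Real.exp (2 * z.re) : ℝ) := by
    rw [mul_conj, normSq_eq_norm_sq, norm_exp, ← Real.exp_nat_mul, Nat.cast_ofNat]
  have h5 : P.N * P.δ * P.ga * cexp z * (starRingEnd ℂ) (P.dnT z) =
      P.Wg z + (P.rr * Real.exp (2 * z.re) : ℝ) := by
    rw [Wg_eq hδ, dnT, map_add, map_mul, ofReal_mul, ← h4, ← h2]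
    ring
  refine ⟨h5, ofReal_injective ?_⟩
  have h6 := congrArg (starRingEnd ℂ) (Wg_eq hδ z)
  simp only [map_mul, conj_conj, conj_ofReal, conj_natCast] at h6
  rw [ofReal_add, ofReal_add, re_eq_add_conj, h6, ofReal_mul, ofReal_sub, ← mul_conj]
  push_cast at h3 h5 ⊢
  rw [dnT, map_add, map_mul] at h5
  rw [dnT, map_add, map_mul]
  linear_combination h5 / 2 + h3 / 2

end Par

namespace TX

variable {X : TX} (ha : X.a = 1) (hm : X.m2 = 1)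
include ha

theorem E_one (z : ℂ) : X.J.E z = X.P.E X.T (X.P.wT + z) := by
  rw [J_E, ha, ofReal_one, one_mul]

theorem den_U {z : ℂ} (h : z ∈ X.J.U) : X.P.dnT z ≠ 0 := by
  refine Par.den_U X.hδ fun h0 => h ?_
  rw [ha, ofReal_one, one_mul]
  exact h0

/-- the height in the chart -/
theorem height {z : ℂ} (h : X.P.dnT z ≠ 0) :
    ‖X.J.E z‖ = ‖X.P.E X.T X.P.wT‖ * Real.exp (X.P.Hh X.T z / X.P.δ) := by
  rw [E_one ha, Par.height X.hδ _ h]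

include hm

theorem s_eq (z : ℂ) : X.P.N * X.P.δ * lgs (1 - X.P.p) X.P.p (X.P.wT + z) =
    X.J.f1 z - I * (z - X.P.v X.T) - (X.P.rr * X.P.cc : ℝ) - I * X.P.cc := by
  have h1 := X.f1_eq z
  rw [va, σ, ha, hm, ofReal_one, one_mul, one_mul, one_mul, div_one] at h1
  linear_combination Par.Nd_ga X.hδ - h1

/-- a lower bound for the height of a saddle point -/
theorem gap {z : ℂ} {b : ℝ} (h0 : X.J.f1 z = 0) (hy : (X.P.v X.T).im ≤ Real.pi)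
    (h1 : Real.pi / 2 ≤ z.im) (h2 : z.im ≤ 2 * Real.pi) (h3 : 0 ≤ (X.P.Wg z).im)
    (h4 : Real.exp (2 * z.re) ≤ normSq (X.P.dnT z))
    (h5 : b * normSq (X.P.dnT z) ≤ X.P.cc * z.re * normSq (X.P.dnT z) +
      (1 + X.P.cc) * (X.P.Wg z).im + Real.exp (2 * z.re) / 2 + 1 / 2 + X.P.cc) :
    ‖X.P.E (X.T - Real.pi) X.P.wT‖ *
      Real.exp ((((X.P.v X.T).im - Real.pi) * z.re + X.P.rr * b) / X.P.δ) ≤ ‖X.J.E z‖ := by
  have hD := (Real.exp_pos _).trans_le h4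
  have hd := normSq_pos.1 hD
  have hk := X.P.kap_nonneg
  have hc : 0 ≤ X.P.cc := div_nonneg (by positivity) (by linarith [X.P.k2_nonneg])
  obtain ⟨ρ, g1, g2, g3⟩ := Par.Wg_polar X.hδ z
  obtain ⟨g4, g5⟩ := Par.den_conj X.hδ z
  have g6 := s_eq ha hm z
  rw [Par.lgs_wT X.hδ hd, lgs, h0, ← Par.dnT, ← mul_div_assoc, div_eq_iff hd, ← mul_assoc] at g6
  rw [g6, mul_assoc, mul_conj] at g4
  have g7 := congrArg re g4
  have g8 := congrArg im g4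
  have g9 : X.P.wT.im + z.im = Real.pi / 2 - (Real.pi + (-(Real.pi / 2) - X.P.wT.im) - z.im) := by
    ring
  rw [g9, Real.cos_pi_div_two_sub] at g2
  rw [g9, Real.sin_pi_div_two_sub] at g3
  simp only [mul_re, mul_im, sub_re, sub_im, add_re, add_im, ofReal_re, ofReal_im, I_re, I_im,
    zero_re, zero_im] at g7 g8
  rw [g3] at h3 h5
  rw [height ha hd, X.P.height_shift X.T, mul_assoc, ← Real.exp_add, ← add_div]
  refine mul_le_mul_of_nonneg_left (Real.exp_le_exp.2 (div_le_div_of_nonneg_right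
    (th_real hD X.P.rr_nonneg hc g1 (by have := X.hδ; positivity) (by linarith) (by linarith)
      (g2 ▸ g5) ?_ ?_ h2 hy h4 h3 h5) X.hδ.le)) (norm_nonneg _)
  · have g := X.P.wT_hi.2
    have e : X.P.rr * (1 + X.P.cc) = 2 * (1 + X.P.k2)⁻¹ - 1 := by
      rw [Par.rr, Par.cc, ← X.P.kap_sq]
      field_simp
      ring
    linarith
  · have g := X.P.wT_lo
    rw [← Par.cc] at g
    linarith

/-- the majorant on a vertical ray -/
theorem ray_maj {z s : ℂ} {E0 g g' r : ℝ} (hE0 : 0 ≤ E0)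
    (hs : s = X.J.f1 z - I * (z - X.P.v X.T) - (X.P.rr * X.P.cc : ℝ) - I * X.P.cc) (h0 : s ≠ 0)
    (hr0 : 0 < r) (hr : r ≤ (z - X.P.v X.T).re + X.P.cc)
    (hg : g' ≤ g - (‖s‖ - s.re + ‖s‖ * ‖s‖ * ((1 - X.P.k2 ^ 2) / (16 * X.P.k2))))
    (hE : ‖X.J.E z‖ ≤ E0 * Real.exp (-(X.L * g))) :
    (∀ t : ℝ, 0 ≤ t → ‖X.J.E (z + t * I)‖ ≤ E0 * Real.exp (-(X.L * (g' + r * t)))) ∧
      Filter.Tendsto (fun t : ℝ => X.J.P (z + t * I)) Filter.atTop (nhds X.top) := by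
  have hd := X.hδ
  have hN := X.P.N_pos
  have hb : (X.P.β X.T).im = 0 := ofReal_im _
  have hre : (X.P.wT + z).re = (z - X.P.v X.T).re + X.P.cc := by
    rw [add_re, sub_re, X.P.wT_re, Par.v]
    ring
  have hL : X.L = 1 / X.P.δ := by
    rw [eq_div_iff hd.ne', X.L_δ, ha, hm, one_pow, one_mul]
  constructor
  · intro t ht
    rw [← s_eq ha hm] at hs
    rw [E_one ha] at hE ⊢
    rw [← add_assoc]
    generalize X.P.wT + z = w at *
    have hq : (1 - X.P.p : ℂ) = (1 - X.P.p : ℝ) := by push_cast; rfl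
    have h1 : (1 - X.P.p : ℂ) + X.P.p * cexp w ≠ 0 := fun h => h0 (by rw [hs, lgs, h]; simp)
    have h2 : (1 - X.P.p : ℂ) + X.P.p * cexp (w + t * I) = (1 - X.P.p + X.P.p * cexp w) *
        (1 - lgs (1 - X.P.p) X.P.p w + lgs (1 - X.P.p) X.P.p w * cexp (t * I)) := by
      rw [lgs, Complex.exp_add]
      field_simp
      ring
    generalize lgs (1 - X.P.p) X.P.p w = σ at h2 hs
    have h3 : ‖1 - σ‖ ≤ 1 - σ.re + ‖σ‖ * ‖σ‖ / 2 := by
      have h4 := normSq_sub 1 σ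
      rw [normSq_eq_norm_sq, normSq_eq_norm_sq σ] at h4
      simp at h4
      nlinarith [sq_nonneg (‖1 - σ‖ - 1)]
    have h4 : ‖1 - σ + σ * cexp (t * I)‖ ≤ Real.exp (‖σ‖ - σ.re + ‖σ‖ * ‖σ‖ / 2) := by
      refine (norm_add_le _ _).trans (le_trans ?_ (Real.add_one_le_exp _))
      rw [norm_mul, norm_exp_ofReal_mul_I]
      linarith
    have h5 := up_cmp (q := 1 - X.P.p) (p := X.P.p) (x := w.re) (y := w.im) (u := t) (N := X.P.N)
      (β := X.P.β X.T) (m := ‖σ‖ - σ.re + ‖σ‖ * ‖σ‖ / 2) hd (by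
        rw [← up_normSq, ← up_normSq, ofReal_add, add_mul, ← add_assoc, re_add_im, ← hq, h2,
          map_mul, normSq_eq_norm_sq (_ + σ * _), two_mul, Real.exp_add, ← sq]
        exact mul_le_mul_of_nonneg_left (pow_le_pow_left₀ (norm_nonneg _) h4 2) (normSq_nonneg _))
    rw [re_add_im, ← hq] at h5
    refine h5.trans ((mul_le_mul_of_nonneg_right hE (Real.exp_pos _).le).trans ?_)
    rw [mul_assoc, ← Real.exp_add]
    refine mul_le_mul_of_nonneg_left (Real.exp_le_exp.2 ?_) hE0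
    have h6 : ‖s‖ = X.P.N * X.P.δ * ‖σ‖ := by
      rw [hs, norm_mul, norm_mul, Complex.norm_natCast, norm_real, Real.norm_of_nonneg hd.le]
    have h7 : s.re = X.P.N * X.P.δ * σ.re := by
      rw [hs, ← ofReal_natCast, ← ofReal_mul, re_ofReal_mul]
    have h8 : (1 - X.P.k2 ^ 2) / (16 * X.P.k2) = 1 / (2 * (X.P.N * X.P.δ)) := by
      have := Par.k2_pos hd
      have h9 := X.P.Nd_eq
      rw [div_eq_div_iff (by positivity) (by positivity), ← X.P.kap_sq]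
      linear_combination 2 * h9
    rw [h6, h7, h8] at hg
    rw [hL, hb, hre]
    refine le_of_mul_le_mul_left ?_ hd
    have h9 := mul_le_mul_of_nonneg_right hr ht
    field_simp at hg ⊢
    linarith
  · have h7 := lim_up X.P.N (1 - X.P.p) X.P.p (X.P.β X.T) hd (X.P.wT + z)
      (by rw [hre, hb, add_zero]; exact div_pos (hr0.trans_le hr) hd)
    refine (((affV_cont X.P.wT X.a).tendsto _).comp h7).congr (fun s => ?_)
    rw [J_P, ha, ofReal_one, one_mul, ← add_assoc, ← ha]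
    rfl

end TX

/-- functions of `κ` -/
structure TK where
  c : TM
  rc : TM
  g : TM
  o : TM
  n : TM
  w : TM
  q : ℤ

structure TK.Ok (t : TK) (x : Pt) (P : Par) : Prop where
  c : Rep x t.c P.cc
  rc : Rep x t.rc (P.rr * P.cc : ℝ)
  g : ∃ g : ℂ, Rep x t.g g ∧ P.ga = (1 - P.kap : ℝ) * g
  o : Rep x t.o (1 - P.kap : ℝ)
  n : ∃ n : ℝ, Rep x t.n n ∧ P.N * P.δ / 2 * (1 - P.kap) = n
  w : Rep x t.w (-(1 + I * P.kap) ^ 2 / (1 + P.k2))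
  q : (1 - P.k2 ^ 2) / (16 * P.k2) ≤ toR t.q

def mkTK (kap : TM) (k : TK → Bool) : Bool :=
  rmul kap kap fun k2 => addc k2 one 0 fun a => inv a fun i2 => addc kap one 0 fun a =>
  inv a fun i1 => inv kap fun i0 => rmul kap i2 fun c => nmul c 2 fun c => neg kap fun o =>
  addc o one 0 fun o => rmul c i1 fun b => rmul b o fun rc => rmul b kap fun n =>
  nmul n 2 fun n => addc i0 0 one fun g => mdi g fun g => ndiv g 4 fun g => neg g fun g =>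
  mi c fun a => nmul i2 2 fun w => add w a fun w => neg w fun w => addc w one 0 fun w =>
  rmul i0 i0 fun a => sub a k2 fun a => ndiv a 16 fun a => hi a fun q => k ⟨c, rc, g, o, n, w, q⟩

/-- the squared modulus -/
def nsq (a : TM) (k : TM → Bool) : Bool := conj a fun b => mul a b fun c => rp c k

/-- the height `Hh` -/
def hT (t : TK) (v z : TM) (k : TM → Bool) : Bool :=
  exp z fun u => addc u (-one) 0 fun u => mul t.g u fun u => nsq u fun n => rmul t.o n fun n =>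
  rp u fun u => nmul u 2 fun u => add u n fun Y => rmul t.o Y fun s => g2T s fun g =>
  rmul s g fun g => rmul g Y fun g => sub Y g fun g => rmul t.n g fun H =>
  rp z fun a => ip z fun ψ => rp v fun x => ip v fun y => add y t.rc fun y => sub y ψ fun y =>
  rmul y a fun y => sub t.c x fun x => rmul x ψ fun x => sub y x fun y => add y H k

/-- the hypotheses of `TX.gap` -/
def gapK (t : TK) (z b : TM) : Bool :=
  ip z fun ψ => lo ψ fun l => leI piU (2 * l) && hi ψ fun h => leI h (2 * piD) &&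
  exp z fun E => mul t.w E fun W => ip W fun W => lo W fun l => leI 0 l && nsq E fun e =>
  addc E (-one) 0 fun u => mul t.g u fun u => rmul t.o u fun u => addc u one 0 fun u =>
  nsq u fun D => sub D e fun a => lo a fun l => leI 0 l && rp z fun a => rmul t.c a fun a =>
  sub a b fun a => rmul a D fun a => addc W one 0 fun W => addc t.c one 0 fun c =>
  rmul c W fun W => add a W fun a => nmul a 2 fun a => add a e fun a => lo a fun l => leI one l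

/-- vertical end with a majorant -/
def endM (t : TK) (v : TM) (a : Ac) : End := fun S k =>
  sub S.cur v fun d => mi d fun s => sub S.f1 s fun s => sub s t.rc fun s => mi t.c fun c =>
  sub s c fun s => ablo s fun w => ltI 0 w && ab s fun m => lo s fun l => add d t.c fun d =>
  lo d fun r => ltI 0 r &&
  aA a (S.g - (m - l + mulU (mulU m m) t.q)) r one S.dist S.I S.M k

theorem th_c {x : Pt} {a : TM} {z w : ℂ} (h : Rep x a z) (e : z = w) : Rep x a w := e ▸ h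

theorem mkTK_ok {kap : TM} {k : TK → Bool} (h : mkTK kap k = true) : ∃ t, k t = true ∧
    ∀ x (P : Par), 0 < P.δ → Rep x kap P.kap → t.Ok x P := by
  unfold mkTK at h
  obtain ⟨_, h, a1⟩ := rmul_ok h
  obtain ⟨_, h, a2⟩ := addc_ok h
  obtain ⟨_, h, a3⟩ := inv_ok h
  obtain ⟨_, h, a4⟩ := addc_ok h
  obtain ⟨_, h, a5⟩ := inv_ok h
  obtain ⟨_, h, a6⟩ := inv_ok h
  obtain ⟨_, h, a7⟩ := rmul_ok h
  obtain ⟨_, h, a8⟩ := nmul_ok h
  obtain ⟨_, h, a9⟩ := neg_ok h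
  obtain ⟨_, h, b1⟩ := addc_ok h
  obtain ⟨_, h, b2⟩ := rmul_ok h
  obtain ⟨_, h, b3⟩ := rmul_ok h
  obtain ⟨_, h, b4⟩ := rmul_ok h
  obtain ⟨_, h, b5⟩ := nmul_ok h
  obtain ⟨_, h, b6⟩ := addc_ok h
  obtain ⟨_, h, b7⟩ := mdi_ok h
  obtain ⟨_, h, b8⟩ := ndiv_ok h
  obtain ⟨_, h, b9⟩ := neg_ok h
  obtain ⟨_, h, c1⟩ := mi_ok h
  obtain ⟨_, h, c2⟩ := nmul_ok h
  obtain ⟨_, h, c3⟩ := add_ok h
  obtain ⟨_, h, c4⟩ := neg_ok h
  obtain ⟨_, h, c5⟩ := addc_ok h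
  obtain ⟨_, h, c6⟩ := rmul_ok h
  obtain ⟨_, h, c7⟩ := sub_ok h
  obtain ⟨_, h, c8⟩ := ndiv_ok h
  obtain ⟨_, h, c9⟩ := hi_ok h
  rw [tch_one] at a2 a4 b1 c5
  rw [show toC 0 one = I by apply Complex.ext <;> simp [toC, toR_zero, toR_one]] at b6
  refine ⟨_, h, fun x P hδ hk => ?_⟩
  obtain ⟨g, g0, g1, g2, g3⟩ := Par.Nd_val hδ
  have d1 := a1 _ _ _ hk hk
  have d2 := (a3 _ _ (a2 _ _ d1)).2
  have d3 := (a6 _ _ hk).2
  have d4 := a8 _ _ (a7 _ _ _ hk d2)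
  have d5 := b1 _ _ (a9 _ _ hk)
  have d6 := b2 _ _ _ d4 (a5 _ _ (a4 _ _ hk)).2
  have d7 := c9 _ _ (th_c (c8 _ _ (c7 _ _ _ (c6 _ _ _ d3 d3) d1))
    (w := ((1 - P.k2 ^ 2) / (16 * P.k2) : ℝ)) (by
      rw [← P.kap_sq]
      push_cast
      field_simp))
  rw [← sq, add_comm] at d2 d4 d6
  rw [add_comm (P.kap : ℂ)] at d6
  refine ⟨th_c d4 ?_, th_c (b3 _ _ _ d6 d5) ?_, ⟨_, b9 _ _ (b8 _ _ (b7 _ _ (b6 _ _ d3))), ?_⟩,
    th_c d5 (by push_cast; ring), ⟨_, th_c (b5 _ _ (b4 _ _ _ d6 hk)) ?_, rfl⟩,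
    th_c (c5 _ _ (c4 _ _ (c3 _ _ _ (c2 _ _ d2) (c1 _ _ d4)))) ?_, d7⟩
  · rw [Par.cc, ← P.kap_sq]
    push_cast
    ring
  · rw [Par.rr, Par.cc, ← P.kap_sq]
    push_cast
    ring
  · rw [Par.ga, Par.nn, ← P.kap_sq]
    push_cast
    field_simp
    linear_combination (4 * P.kap * (1 - P.kap)) * I_mul_I
  · push_cast
    rw [g]
    field_simp
    ring
  · rw [← P.kap_sq]
    push_cast
    field_simp
    linear_combination (P.kap ^ 2) * I_mul_I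

theorem th_den {P : Par} (hδ : 0 < P.δ) {g : ℂ} (h : P.ga = (1 - P.kap : ℝ) * g) (w : ℂ) :
    (1 - P.kap : ℝ) * (g * (cexp w + toC (-one) 0)) + 1 = P.dnT w := by
  rw [ser_toC, toR_neg, toR_one, Par.dnT, ← mul_assoc, ← h]
  push_cast
  linear_combination -Par.al_ga hδ

theorem nsq_ok {a : TM} {k : TM → Bool} (h : nsq a k = true) :
    ∃ c, k c = true ∧ ∀ x z, Rep x a z → Rep x c (normSq z) := by
  unfold nsq at h
  obtain ⟨_, h, a1⟩ := conj_ok h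
  obtain ⟨_, h, a2⟩ := mul_ok h
  obtain ⟨_, h, a3⟩ := rp_ok h
  refine ⟨_, h, fun x z hz => ?_⟩
  have := a3 _ _ (a2 _ _ _ hz (a1 _ _ hz))
  rwa [mul_conj, ofReal_re] at this

theorem hT_ok {t : TK} {v z : TM} {k : TM → Bool} (h : hT t v z k = true) : ∃ c, k c = true ∧
    ∀ x (P : Par) T w, 0 < P.δ → t.Ok x P → Rep x v (P.v T) → Rep x z w →
      P.dnT w ≠ 0 ∧ Rep x c (P.Hh T w) := by
  unfold hT at h
  obtain ⟨_, h, a1⟩ := exp_ok h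
  obtain ⟨_, h, a2⟩ := addc_ok h
  obtain ⟨_, h, a3⟩ := mul_ok h
  obtain ⟨_, h, a4⟩ := nsq_ok h
  obtain ⟨_, h, a5⟩ := rmul_ok h
  obtain ⟨_, h, a6⟩ := rp_ok h
  obtain ⟨_, h, a7⟩ := nmul_ok h
  obtain ⟨_, h, a8⟩ := add_ok h
  obtain ⟨_, h, a9⟩ := rmul_ok h
  obtain ⟨_, h, b1⟩ := g2T_ok h
  obtain ⟨_, h, b2⟩ := rmul_ok h
  obtain ⟨_, h, b3⟩ := rmul_ok h
  obtain ⟨_, h, b4⟩ := sub_ok h
  obtain ⟨_, h, b5⟩ := rmul_ok h
  obtain ⟨_, h, c1⟩ := rp_ok h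
  obtain ⟨_, h, c2⟩ := ip_ok h
  obtain ⟨_, h, c3⟩ := rp_ok h
  obtain ⟨_, h, c4⟩ := ip_ok h
  obtain ⟨_, h, c5⟩ := add_ok h
  obtain ⟨_, h, c6⟩ := sub_ok h
  obtain ⟨_, h, c7⟩ := rmul_ok h
  obtain ⟨_, h, c8⟩ := sub_ok h
  obtain ⟨_, h, c9⟩ := rmul_ok h
  obtain ⟨_, h, d1⟩ := sub_ok h
  obtain ⟨_, h, d2⟩ := add_ok h
  refine ⟨_, h, fun x P T w hδ ht hv hz => ?_⟩
  obtain ⟨g, g1, g2⟩ := ht.g
  obtain ⟨n, n1, n2⟩ := ht.n
  have e1 := a3 _ _ _ g1 (a2 _ _ (a1 _ _ hz))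
  have e2 := th_den hδ g2 w
  generalize g * (cexp w + toC (-one) 0) = u at e1 e2
  have e3 := a8 _ _ _ (a7 _ _ (a6 _ _ e1)) (a5 _ _ _ ht.o (a4 _ _ e1))
  rw [← ofReal_intCast, ← ofReal_mul, ← ofReal_mul, ← ofReal_add] at e3
  have e4 := a9 _ _ _ ht.o e3
  have e5 : normSq (P.dnT w) =
      1 + (1 - P.kap) * (u.re * (2 : ℤ) + (1 - P.kap) * normSq u) := by
    rw [← e2]
    simp [normSq_apply]
    ring
  rw [← ofReal_mul] at e4
  obtain ⟨e6, e7⟩ := b1 _ _ e4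
  refine ⟨normSq_pos.1 (by linarith), ?_⟩
  have e8 := d2 _ _ _ (d1 _ _ _ (c7 _ _ _ (c6 _ _ _ (c5 _ _ _ (c4 _ _ hv) ht.rc) (c2 _ _ hz))
    (c1 _ _ hz)) (c9 _ _ _ (c8 _ _ _ ht.c (c3 _ _ hv)) (c2 _ _ hz)))
    (b5 _ _ _ n1 (b4 _ _ _ e3 (b3 _ _ _ (b2 _ _ _ e4 e7) e3)))
  rw [Par.Hh, e5, g2_spec]
  refine th_c e8 ?_
  rw [← n2]
  push_cast
  ring

theorem gapK_ok {t : TK} {z b : TM} (h : gapK t z b = true) {x : Pt} {X : TX} (ha : X.a = 1)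
    (hm : X.m2 = 1) (ht : t.Ok x X.P) {w : ℂ} {b0 : ℝ} (hz : Rep x z w) (hb : Rep x b b0)
    (h0 : X.J.f1 w = 0) (hy : (X.P.v X.T).im ≤ Real.pi) :
    ‖X.P.E (X.T - Real.pi) X.P.wT‖ *
      Real.exp ((((X.P.v X.T).im - Real.pi) * w.re + X.P.rr * b0) / X.P.δ) ≤ ‖X.J.E w‖ := by
  unfold gapK at h
  obtain ⟨_, h, a1⟩ := ip_ok h
  obtain ⟨_, h, a2⟩ := lo_ok h
  obtain ⟨t1, h⟩ := Bool.and_eq_true_iff.1 h
  obtain ⟨_, h, a3⟩ := hi_ok h
  obtain ⟨t2, h⟩ := Bool.and_eq_true_iff.1 h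
  obtain ⟨_, h, a4⟩ := exp_ok h
  obtain ⟨_, h, a5⟩ := mul_ok h
  obtain ⟨_, h, a6⟩ := ip_ok h
  obtain ⟨_, h, a7⟩ := lo_ok h
  obtain ⟨t3, h⟩ := Bool.and_eq_true_iff.1 h
  obtain ⟨_, h, a8⟩ := nsq_ok h
  obtain ⟨_, h, a9⟩ := addc_ok h
  obtain ⟨_, h, b1⟩ := mul_ok h
  obtain ⟨_, h, b2⟩ := rmul_ok h
  obtain ⟨_, h, b3⟩ := addc_ok h
  obtain ⟨_, h, b4⟩ := nsq_ok h
  obtain ⟨_, h, b5⟩ := sub_ok h
  obtain ⟨_, h, b6⟩ := lo_ok h
  obtain ⟨t4, h⟩ := Bool.and_eq_true_iff.1 h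
  obtain ⟨_, h, b7⟩ := rp_ok h
  obtain ⟨_, h, b8⟩ := rmul_ok h
  obtain ⟨_, h, b9⟩ := sub_ok h
  obtain ⟨_, h, c1⟩ := rmul_ok h
  obtain ⟨_, h, c2⟩ := addc_ok h
  obtain ⟨_, h, c3⟩ := addc_ok h
  obtain ⟨_, h, c4⟩ := rmul_ok h
  obtain ⟨_, h, c5⟩ := add_ok h
  obtain ⟨_, h, c6⟩ := nmul_ok h
  obtain ⟨_, h, c7⟩ := add_ok h
  obtain ⟨_, h, c8⟩ := lo_ok h
  rw [tch_one] at b3 c2 c3
  obtain ⟨g, g1, g2⟩ := ht.g
  have d1 := a4 _ _ hz
  have d2 := a6 _ _ (a5 _ _ _ ht.w d1)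
  have d3 := a8 _ _ d1
  have d4 := b4 _ _ (b3 _ _ (b2 _ _ _ ht.o (b1 _ _ _ g1 (a9 _ _ d1))))
  rw [th_den X.hδ g2] at d4
  rw [← Par.Wg] at d2
  rw [normSq_eq_norm_sq, norm_exp, ← Real.exp_nat_mul, Nat.cast_ofNat] at d3
  have e1 := (leI_ok t1).trans_eq (toR_intmul _ _)
  have e2 := (leI_ok t2).trans_eq (toR_intmul _ _)
  have e3 := a2 _ _ (a1 _ _ hz)
  have e4 := a3 _ _ (a1 _ _ hz)
  have e5 := (toR_zero ▸ leI_ok t4).trans (b6 _ _ (b5 _ _ _ d4 d3))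
  have e6 := (toR_one ▸ leI_ok h).trans (c8 _ _ (c7 _ _ _ (c6 _ _ (c5 _ _ _
    (c1 _ _ _ (b9 _ _ _ (b8 _ _ _ ht.c (b7 _ _ hz)) hb) d4)
    (c4 _ _ _ (c3 _ _ ht.c) (c2 _ _ d2)))) d3))
  norm_cast at e5 e6
  rw [ofReal_re] at e3 e4
  push_cast at e1 e2 e6
  exact TX.gap ha hm h0 hy (by linarith [piU_ok]) (by linarith [piD_ok])
    ((toR_zero ▸ leI_ok t3).trans (a7 _ _ d2)) (by linarith) (by linarith)

theorem endM_ok {t : TK} {v : TM} {a : Ac} {x : Pt} {X : TX} (h1 : X.a = 1) (h2 : X.m2 = 1)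
    (ht : t.Ok x X.P) (hv : Rep x v (X.P.v X.T)) (ha : a.Ok X.L) {E0 : ℝ} (hE : 0 ≤ E0) (zc : ℂ) :
    End.Ok (endM t v a) x X.J a E0 zc X.top := by
  intro S k u0 z hS h
  unfold endM at h
  obtain ⟨_, h, a1⟩ := sub_ok h
  obtain ⟨_, h, a2⟩ := mi_ok h
  obtain ⟨_, h, a3⟩ := sub_ok h
  obtain ⟨_, h, a4⟩ := sub_ok h
  obtain ⟨_, h, a5⟩ := mi_ok h
  obtain ⟨_, h, a6⟩ := sub_ok h
  obtain ⟨_, h, a7⟩ := ablo_ok h
  obtain ⟨t1, h⟩ := Bool.and_eq_true_iff.1 h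
  obtain ⟨m, h, a8⟩ := ab_ok h
  obtain ⟨l, h, a9⟩ := lo_ok h
  obtain ⟨_, h, b1⟩ := add_ok h
  obtain ⟨r, h, b2⟩ := lo_ok h
  obtain ⟨t2, h⟩ := Bool.and_eq_true_iff.1 h
  have d1 := a1 _ _ _ hS.hc.rep hv
  have d2 := a6 _ _ _ (a4 _ _ _ (a3 _ _ _ hS.h1.rep (a2 _ _ d1)) ht.rc) (a5 _ _ ht.c)
  have d3 := a8 _ _ d2
  have d4 := mulU_le (mul_self_nonneg _) (div_nonneg X.P.k4_pos.le
    (mul_nonneg (by norm_num) X.P.k2_nonneg)) (mulU_le (norm_nonneg _) (norm_nonneg _) d3 d3) ht.q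
  obtain ⟨d5, d6⟩ := TX.ray_maj h1 h2 (g' := toR (S.g - (m - l + mulU (mulU m m) t.q))) hE rfl
    (norm_pos_iff.1 ((toR_zero ▸ ltI_ok t1).trans_le (a7 _ _ d2))) (toR_zero ▸ ltI_ok t2)
    (b2 _ _ (b1 _ _ _ d1 ht.c)) (by
      rw [toR_sub, toR_add, toR_sub]
      linarith [a9 _ _ d2]) hS.hg
  exact te_fin (S := { S with g := S.g - (m - l + mulU (mulU m m) t.q) }) ha hE
    ⟨hS.hc, hS.h1, hS.h2, hS.hz, by simpa [X.J_L] using d5 0 le_rfl, hS.hd, hS.hB⟩ h norm_I d5 d6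

end Pool.Agent.Sok
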