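import Pool.Agent.Sok.B2b
import Pool.Agent.Sok.TH

/-! Denominator two near the turning point: boxes, common tests and the disc. -/

set_option autoImplicit false

namespace Pool.Agent.Sok

open TM Complex

/-- a box in three variables -/
structure B2x where
  a1 : ℤ
  a2 : ℤ
  b1 : ℤ
  b2 : ℤ
  c1 : ℤ
  c2 : ℤ

structure B2x.In (b : B2x) (u v w : ℝ) : Prop where
  a1 : toR b.a1 ≤ u
  a2 : u ≤ toR b.a2
  b1 : toR b.b1 ≤ v
  b2 : v ≤ toR b.b2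
  c1 : toR b.c1 ≤ w
  c2 : w ≤ toR b.c2

/-- the property holds on the box -/
def Cv (G : ℝ → ℝ → ℝ → Prop) (b : B2x) : Prop := ∀ u v w, b.In u v w → G u v w

section

variable {G : ℝ → ℝ → ℝ → Prop} {a1 a2 b1 b2 c1 c2 m : ℤ}

theorem Cv.s0 (h : Cv G ⟨a1, m, b1, b2, c1, c2⟩) (h' : Cv G ⟨m, a2, b1, b2, c1, c2⟩) :
    Cv G ⟨a1, a2, b1, b2, c1, c2⟩ := fun u v w e => (le_total u (toR m)).elim
  (fun f => h u v w ⟨e.1, f, e.3, e.4, e.5, e.6⟩) fun f => h' u v w ⟨f, e.2, e.3, e.4, e.5, e.6⟩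

theorem Cv.s1 (h : Cv G ⟨a1, a2, b1, m, c1, c2⟩) (h' : Cv G ⟨a1, a2, m, b2, c1, c2⟩) :
    Cv G ⟨a1, a2, b1, b2, c1, c2⟩ := fun u v w e => (le_total v (toR m)).elim
  (fun f => h u v w ⟨e.1, e.2, e.3, f, e.5, e.6⟩) fun f => h' u v w ⟨e.1, e.2, f, e.4, e.5, e.6⟩

theorem Cv.s2 (h : Cv G ⟨a1, a2, b1, b2, c1, m⟩) (h' : Cv G ⟨a1, a2, b1, b2, m, c2⟩) :
    Cv G ⟨a1, a2, b1, b2, c1, c2⟩ := fun u v w e => (le_total w (toR m)).elim
  (fun f => h u v w ⟨e.1, e.2, e.3, e.4, e.5, f⟩) fun f => h' u v w ⟨e.1, e.2, e.3, e.4, f, e.6⟩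

end

/-- bisection trees -/
inductive KD : Type
  | lf (n : ℕ)
  | s0 (l r : KD)
  | s1 (l r : KD)
  | s2 (l r : KD)

def kd (f : ℕ → B2x → Bool) : KD → B2x → Bool
  | .lf n, b => f n b
  | .s0 l r, b => fI (Int.ediv (b.a1 + b.a2) 2) fun m =>
      kd f l ⟨b.a1, m, b.b1, b.b2, b.c1, b.c2⟩ && kd f r ⟨m, b.a2, b.b1, b.b2, b.c1, b.c2⟩
  | .s1 l r, b => fI (Int.ediv (b.b1 + b.b2) 2) fun m =>
      kd f l ⟨b.a1, b.a2, b.b1, m, b.c1, b.c2⟩ && kd f r ⟨b.a1, b.a2, m, b.b2, b.c1, b.c2⟩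
  | .s2 l r, b => fI (Int.ediv (b.c1 + b.c2) 2) fun m =>
      kd f l ⟨b.a1, b.a2, b.b1, b.b2, b.c1, m⟩ && kd f r ⟨b.a1, b.a2, b.b1, b.b2, m, b.c2⟩

theorem kd_ok {G : ℝ → ℝ → ℝ → Prop} {f : ℕ → B2x → Bool} (hf : ∀ n b, f n b = true → Cv G b)
    {t : KD} {b : B2x} (h : kd f t b = true) : Cv G b := by
  induction t generalizing b with
  | lf n => exact hf n b h
  | s0 l r il ir =>
    rw [kd, fI_eq, Bool.and_eq_true] at h
    exact (il h.1).s0 (ir h.2)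
  | s1 l r il ir =>
    rw [kd, fI_eq, Bool.and_eq_true] at h
    exact (il h.1).s1 (ir h.2)
  | s2 l r il ir =>
    rw [kd, fI_eq, Bool.and_eq_true] at h
    exact (il h.1).s2 (ir h.2)

theorem B2x.In.pt {b : B2x} {u v w : ℝ} (h : b.In u v w) : ∃ x : Pt, varVal b.a1 b.a2 (x.get 0) = u ∧
    varVal b.b1 b.b2 (x.get 1) = v ∧ varVal b.c1 b.c2 (x.get 2) = w := by
  obtain ⟨x0, h0, e0⟩ := exists_varVal h.a1 h.a2
  obtain ⟨x1, h1, e1⟩ := exists_varVal h.b1 h.b2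
  obtain ⟨x2, h2, e2⟩ := exists_varVal h.c1 h.c2
  exact ⟨⟨x0, x1, x2, 0, h0, h1, h2, by simp⟩, e0, e1, e2⟩

/-- a lower model of `8 Ξ / 7` -/
def xiT (kap ik x : TM) (k : TM → Bool) : Bool :=
  rmul kap ik fun c => nmul c 2 fun c => sub c x fun d => exp d fun d => rmul kap kap fun k2 =>
  addc kap one 0 fun t => rmul t t fun t => addc k2 one 0 fun u => rmul t u fun t =>
  rmul t d fun t => rmul k2 k2 fun u => nmul u (-2) fun u => addc u (2 * one) 0 fun u => add t u k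

theorem xiT_ok {kap ik x : TM} {k : TM → Bool} (h : xiT kap ik x k = true) :
    ∃ c, k c = true ∧ ∀ pt (P : Par) (x0 : ℝ), Rep pt kap P.kap → Rep pt ik (P.k2 + 1 : ℂ)⁻¹ →
      Rep pt x x0 → P.vre ≤ x0 → ∃ w : ℝ, Rep pt c w ∧ 7 / 2 * w ≤ 4 * P.Xi := by
  unfold xiT at h
  obtain ⟨c, h, hc⟩ := rmul_ok h
  obtain ⟨c', h, hc'⟩ := nmul_ok h
  obtain ⟨d, h, hd⟩ := sub_ok h
  obtain ⟨d', h, hd'⟩ := exp_ok h
  obtain ⟨k2, h, hk2⟩ := rmul_ok h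
  obtain ⟨t1, h, ht1⟩ := addc_ok h
  obtain ⟨t2, h, ht2⟩ := rmul_ok h
  obtain ⟨u1, h, hu1⟩ := addc_ok h
  obtain ⟨t3, h, ht3⟩ := rmul_ok h
  obtain ⟨t4, h, ht4⟩ := rmul_ok h
  obtain ⟨u2, h, hu2⟩ := rmul_ok h
  obtain ⟨u3, h, hu3⟩ := nmul_ok h
  obtain ⟨u4, h, hu4⟩ := addc_ok h
  obtain ⟨r, h, hr⟩ := add_ok h
  refine ⟨r, h, fun pt P x0 e1 e2 e3 e4 => ⟨(1 + P.kap) ^ 2 * (1 + P.k2) *
    Real.exp (2 * P.kap / (1 + P.k2) - x0) + 2 * (1 - P.k2 ^ 2), ?_, ?_⟩⟩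
  · have e5 := hk2 _ _ _ e1 e1
    have e6 := ht1 _ _ e1
    refine th_c (hr _ _ _ (ht4 _ _ _ (ht3 _ _ _ (ht2 _ _ _ e6 e6) (hu1 _ _ e5))
      (hd' _ _ (hd _ _ _ (hc' _ _ (hc _ _ _ e1 e2)) e3))) (hu4 _ _ (hu3 _ _ (hu2 _ _ _ e5 e5)))) ?_
    have e7 : (P.kap : ℂ) * P.kap = P.k2 := by rw [← P.kap_sq]; push_cast; ring
    rw [e7, tch_one, tch_two]
    push_cast
    rw [show (P.kap : ℂ) * ((P.k2 : ℂ) + 1)⁻¹ * 2 - x0 = 2 * P.kap / (1 + P.k2) - x0 by ring]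
    ring
  · have e5 := P.Xi_ge'
    have e6 : Real.exp (2 * P.kap / (1 + P.k2) - x0) ≤
        Real.exp (2 * P.kap / (1 + P.k2) - P.vre) := Real.exp_le_exp.2 (by linarith)
    have e7 := mul_le_mul_of_nonneg_left e6
      (mul_nonneg (sq_nonneg (1 + P.kap)) (add_nonneg zero_le_one P.k2_nonneg))
    linarith

/-- the scalar test of `b2_scale` -/
def dChk (I η L0 c0 c3 sh : ℤ) : Bool :=
  ltI 0 c0 && leI 0 c3 && ltI 0 sh && leI sh (2 * mulD L0 c0) &&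
  fI (divD c0 sh + divD c3 (mulU (mulU sh sh) sh) - η) fun g => leI 0 g &&
  ltI (mulU I (expU (-mulD L0 g))) (mulD bLo (sqrtD sh))

/-- domination in the scaled chart; `x`, `y` are the parts of the scaled parameter -/
def dPart (kap s ik x y : TM) (kh sh L0 η I : ℤ) : Bool :=
  hi y fun u => ltI u 0 && rmul s s fun t => rmul t x fun t => smul t bLam fun u =>
  sub ik u fun u => addc u bW 0 fun u => rmul y u fun u => hi u fun c0 =>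
  rmul kap t fun t => smul t (2 * bB1) fun t => addc t bB0 0 fun t => lo t fun b =>
  leI 0 b && leI kh one && ltI 0 kh &&
  dChk I η L0 (-c0) (mulD b (divD (one - kh) (mulU (one + kh) (4 * mulU kh kh)))) sh

theorem dPart_ok {kap s ik x y : TM} {kh sh L0 η I : ℤ}
    (h : dPart kap s ik x y kh sh L0 η I = true) {pt : Pt} {X : TX} (hm : X.m2 = X.c1) {vh : ℂ}
    (hv : X.P.v X.T = 2 * X.P.kap * X.c1 ^ 2 * vh) (h1 : Rep pt kap X.P.kap) (h2 : Rep pt s X.c1)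
    (h3 : Rep pt ik (X.P.k2 + 1 : ℂ)⁻¹) (h4 : Rep pt x vh.re) (h5 : Rep pt y vh.im)
    (h6 : X.P.kap ≤ toR kh) (h7 : X.c1 ≤ toR sh) (h8 : toR L0 ≤ X.L)
    (hI : Real.sqrt X.L * ‖X.top.1‖ ≤ ‖X.J.E 0‖ * Real.exp (X.L * toR η) * toR I) :
    X.P.GA X.T := by
  unfold dPart at h
  obtain ⟨u0, h, hu0⟩ := hi_ok h
  rw [Bool.and_eq_true] at h
  obtain ⟨c1, h⟩ := h
  obtain ⟨t1, h, ht1⟩ := rmul_ok h
  obtain ⟨t2, h, ht2⟩ := rmul_ok h
  obtain ⟨u1, h, hu1⟩ := smul_ok h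
  obtain ⟨u2, h, hu2⟩ := sub_ok h
  obtain ⟨u3, h, hu3⟩ := addc_ok h
  obtain ⟨u4, h, hu4⟩ := rmul_ok h
  obtain ⟨c0, h, hc0⟩ := hi_ok h
  obtain ⟨t3, h, ht3⟩ := rmul_ok h
  obtain ⟨t4, h, ht4⟩ := smul_ok h
  obtain ⟨t5, h, ht5⟩ := addc_ok h
  obtain ⟨b, h, hb⟩ := lo_ok h
  unfold dChk at h
  simp only [fI_eq, Bool.and_eq_true] at h
  obtain ⟨⟨⟨c2, c3⟩, c4⟩, ⟨⟨⟨c5, c6⟩, c7⟩, c8⟩, c9, c10⟩ := h
  have hk := Par.kap_pos X.hδ
  have hk1 := X.P.kap_lt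
  have hs := X.h1
  have e1 := (hu0 _ _ h5).trans_lt (ltI_ok c1)
  rw [toR_zero, ofReal_re] at e1
  have e2 := ht2 _ _ _ (ht1 _ _ _ h2 h2) h4
  have e3 := hc0 _ _ (th_c (hu4 _ _ _ h5 (hu3 _ _ (hu2 _ _ _ h3 (hu1 _ _ e2))))
    (w := (vh.im * ((1 + X.P.k2)⁻¹ - X.c1 * X.c1 * vh.re * toR bLam + toR bW) : ℝ))
    (by rw [ser_toC]; push_cast; ring))
  have e4 := hb _ _ (th_c (ht5 _ _ (ht4 _ _ (ht3 _ _ _ h1 e2)))
    (w := (X.P.kap * (X.c1 * X.c1 * vh.re) * (2 * toR bB1) + toR bB0 : ℝ))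
    (by rw [ser_toC, tailB_two]; push_cast; ring))
  rw [ofReal_re] at e3 e4
  replace c2 := leI_ok c2
  replace c3 := leI_ok c3
  replace c5 := ltI_ok c5
  replace c6 := leI_ok c6
  replace c7 := ltI_ok c7
  replace c8 := leI_ok c8
  replace c9 := leI_ok c9
  replace c10 := ltI_ok c10
  rw [toR_zero] at c2 c5 c6 c7 c9
  rw [toR_one] at c3
  have e5 : 0 ≤ toR (one - kh) := by rw [toR_sub, toR_one]; linarith
  have e6 : (1 + X.P.kap) * (4 * (X.P.kap * X.P.kap)) ≤ toR (mulU (one + kh) (4 * mulU kh kh)) := by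
    refine mulU_le (by positivity) (by positivity) (by rw [toR_add, toR_one]; linarith) ?_
    have := mulU_le hk.le hk.le h6 h6
    rw [b2_n]
    push_cast
    linarith
  have e7 := mulD_le c2 (divD_nonneg e5 (le_trans (by positivity) e6)) e4
    (divD_le (x := 1 - X.P.kap) e5 (by positivity) (by rw [toR_sub, toR_one]; linarith) e6)
  generalize mulD b (divD (one - kh) (mulU (one + kh) (4 * mulU kh kh))) = c3' at *
  have hE : 0 < ‖X.J.E 0‖ * Real.exp (X.L * toR η) :=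
    mul_pos (norm_pos_iff.2 X.E0_ne) (Real.exp_pos _)
  have I0 : 0 ≤ toR I := (mul_nonneg_iff_of_pos_left hE).1 (le_trans (by positivity) hI)
  have e8 : toR (divD (-c0) sh + divD c3' (mulU (mulU sh sh) sh) - η) ≤
      toR (-c0) / toR sh + toR c3' / (toR sh * toR sh * toR sh) - toR η := by
    have f1 := divD_ok (-c0) c7
    have f2 := divD_le c6 (by positivity) le_rfl
      (mulU_le (by positivity) c7.le (mulU_ok sh sh) (le_refl (toR sh)))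
    rw [toR_sub, toR_add]
    linarith
  generalize divD (-c0) sh + divD c3' (mulU (mulU sh sh) sh) - η = g at *
  have b0 : 0 ≤ toR bLo := by unfold toR bLo; norm_num
  have e9 : toR I * Real.exp (-(toR L0 * toR g)) < toR bLo * Real.sqrt (toR sh) := by
    refine lt_of_le_of_lt (mulU_le I0 (Real.exp_pos _).le le_rfl
      (le_trans (Real.exp_le_exp.2 ?_) (expU_ok _))) (c10.trans_le
      (mulD_le b0 (sqrtD_nonneg _) le_rfl (sqrtD_ok _)))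
    rw [toR_neg]
    exact neg_le_neg (mulD_ok _ _)
  refine Or.inr ⟨?_, X.dom hm hv hI (c0 := toR (-c0)) (by rw [toR_neg]; linarith) e7
    (b2_scale hs h7 h8 c5 c6 (c8.trans ?_) c9 e8 I0 e9)⟩
  · rw [hv, show (2 * X.P.kap * X.c1 ^ 2 : ℂ) = ((2 * X.P.kap * X.c1 ^ 2 : ℝ) : ℂ) by
      push_cast; ring, im_ofReal_mul]
    exact mul_neg_of_pos_of_neg (by positivity) e1
  · rw [tailB_two]
    have := mulD_ok L0 (-c0)
    linarith

/-- the alternative in the disc -/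
def GC (u v _w : ℝ) : Prop := ∀ (X : TX) (ζ : ℂ), X.P.Reg → X.Unit ζ → X.P.kap = u → X.c1 = v →
  ‖ζ‖ ≤ toR bZ → X.P.GA X.T

/-- the test on a tile: the mean lies to the right, or the term is dominated -/
def cLf (kap s s2 ik : TM) (kh sh x1 x2 y1 y2 : ℤ) (S0 S1 : TM) : Bool :=
  var 2 x1 x2 fun x =>
  (rmul s2 x fun t => sub ik t fun t => rmul t S0 fun t => rmul s S1 fun u => add t u fun t =>
    conj S0 fun u => mul t u fun t => lo t fun l => ltI 0 l) ||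
  var 3 y1 y2 fun y => ab S0 fun I => dPart kap s ik x y kh sh one 0 I

def chkC (b : B2x) (thr : ℤ) (m K kind : ℕ) (vu vd : List CV) (t : CT) : Bool :=
  var 0 b.a1 b.a2 fun kap => var 1 b.b1 b.b2 fun s => rmul kap kap fun k2 => rmul s s fun s2 =>
  addc k2 one 0 fun a => inv a fun ik => ccPrep k2 s m false vu vd fun B =>
  ccTree B kind K thr true (outZ bZ) (cLf kap s s2 ik b.a2 b.b2) t (cc0 true) (-bZ) bZ (-bZ) bZ

theorem outZ_ok {Z x1 x2 y1 y2 : ℤ} (h : outZ Z x1 x2 y1 y2 = true) {ζ : ℂ}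
    (h1 : InB ζ (x1, x2, y1, y2)) : toR Z < ‖ζ‖ := by
  refine not_le.1 fun h5 => ?_
  simp only [outZ, fI_eq] at h
  have b : ∀ (t : ℝ) (a b : ℤ), toR a ≤ t → t ≤ toR b →
      toR (mulD (maxI (maxI a (-b)) 0) (maxI (maxI a (-b)) 0)) ≤ t * t := fun t a b g1 g2 => by
    have d1 : 0 ≤ toR (maxI (maxI a (-b)) 0) := by
      rw [toR_maxI, toR_zero]
      exact le_max_right _ _
    have d2 : toR (maxI (maxI a (-b)) 0) ≤ |t| := by
      rw [toR_maxI, toR_maxI, toR_zero, toR_neg]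
      exact max_le (max_le (g1.trans (le_abs_self t)) ((neg_le_neg g2).trans (neg_le_abs t)))
        (abs_nonneg t)
    rw [← abs_mul_abs_self]
    exact mulD_le d1 d1 d2 d2
  have d3 := (mulU_le (norm_nonneg _) (norm_nonneg _) h5 h5).trans_lt (ltI_ok h)
  rw [toR_add, ← sq, ← normSq_eq_norm_sq, normSq_apply] at d3
  exact absurd (add_le_add (b _ _ _ h1.1 h1.2.1) (b _ _ _ h1.2.2.1 h1.2.2.2)) (not_le.2 d3)

theorem cLf_ok {kap s s2 ik S0 S1 : TM} {kh sh x1 x2 y1 y2 : ℤ}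
    (h : cLf kap s s2 ik kh sh x1 x2 y1 y2 S0 S1 = true) {x : Pt} {X : TX} {ζ : ℂ} (hX : X.Unit ζ)
    (h1 : Rep x kap X.P.kap) (h2 : Rep x s X.c1) (h3 : Rep x s2 (X.c1 * X.c1))
    (h4 : Rep x ik (X.P.k2 + 1 : ℂ)⁻¹) (h5 : X.P.kap ≤ toR kh) (h6 : X.c1 ≤ toR sh)
    (e1 : ζ.re = varVal x1 x2 x.x2) (e2 : ζ.im = varVal y1 y2 x.x3)
    (g0 : Rep x S0 (X.top.1 / X.J.E 0)) (g1 : Rep x S1 (X.top.2 / X.J.E 0)) : X.P.GA X.T := by
  unfold cLf at h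
  obtain ⟨_, h, a1⟩ := var_ok h
  have b1 := th_c (a1 x) (congrArg ofReal e1.symm)
  have hE := X.E0_ne
  rcases Bool.or_eq_true_iff.1 h with h | h
  · obtain ⟨_, h, a2⟩ := rmul_ok h
    obtain ⟨_, h, a3⟩ := sub_ok h
    obtain ⟨_, h, a4⟩ := rmul_ok h
    obtain ⟨_, h, a5⟩ := rmul_ok h
    obtain ⟨_, h, a6⟩ := add_ok h
    obtain ⟨_, h, a7⟩ := conj_ok h
    obtain ⟨_, h, a8⟩ := mul_ok h
    obtain ⟨_, h, a9⟩ := lo_ok h
    have b2 := (toR_zero ▸ ltI_ok h).trans_le (a9 _ _ (a8 _ _ _ (a6 _ _ _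
      (a4 _ _ _ (a3 _ _ _ h4 (a2 _ _ _ h3 b1)) g0) (a5 _ _ _ h2 g1)) (a7 _ _ g0)))
    have b3 : X.top.1 / X.J.E 0 ≠ 0 := fun e => by simp [e] at b2
    have b4 := left_ne_zero_of_mul b3
    rw [b2_re b3, mul_pos_iff_of_pos_right (normSq_pos.2 b3), add_div, mul_div_cancel_right₀ _ b3,
      mul_div_assoc, div_div_div_cancel_right₀ hE, ← ofReal_one, ← ofReal_add, ← ofReal_inv] at b2
    refine Or.inl (X.inc b4 (b2.trans_eq ?_))
    rw [← tch_va hX.v]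
    simp only [add_re, sub_re, ofReal_re, re_ofReal_mul, mul_assoc, add_comm X.P.k2]
    ring
  · obtain ⟨_, h, a2⟩ := var_ok h
    obtain ⟨_, h, a3⟩ := ab_ok h
    refine dPart_ok h hX.m2 hX.v h1 h2 h4 b1 (th_c (a2 x) (congrArg ofReal e2.symm)) h5 h6
      (by rw [toR_one, hX.L]) ?_
    have b2 := a3 _ _ g0
    rw [norm_div, div_le_iff₀' (norm_pos_iff.2 hE)] at b2
    rwa [hX.L, Real.sqrt_one, toR_zero, mul_zero, Real.exp_zero, one_mul, mul_one]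

theorem chkC_ok {b : B2x} {thr : ℤ} {m K kind : ℕ} {vu vd : List CV} {t : CT}
    (h : chkC b thr m K kind vu vd t = true) : Cv GC b := by
  rintro _ _ w hb X ζ - hX rfl rfl hz
  unfold chkC at h
  obtain ⟨_, h, a1⟩ := var_ok h
  obtain ⟨_, h, a2⟩ := var_ok h
  obtain ⟨_, h, a3⟩ := rmul_ok h
  obtain ⟨_, h, a4⟩ := rmul_ok h
  obtain ⟨_, h, a5⟩ := addc_ok h
  obtain ⟨_, h, a6⟩ := inv_ok h
  obtain ⟨x, e0, e1, -⟩ := hb.pt
  rw [tch_one] at a5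
  have b1 := fun y hy y' hy' => th_c (a1 ((x.set2 y hy).set3 y' hy')) (congrArg ofReal e0)
  have b2 := fun y hy y' hy' => th_c (a2 ((x.set2 y hy).set3 y' hy')) (congrArg ofReal e1)
  have b3 := fun y hy y' hy' => th_c (a3 _ _ _ (b1 y hy y' hy') (b1 y hy y' hy'))
    (w := X.P.k2) (by rw [← X.P.kap_sq, ofReal_pow, sq])
  have c1 := abs_le.1 ((abs_re_le_norm ζ).trans hz)
  have c2 := abs_le.1 ((abs_im_le_norm ζ).trans hz)
  obtain ⟨p1, p2, q1, q2, c3, c4 | ⟨y, hy, y', hy', _, _, c4, c5, c6, c7, c8⟩⟩ :=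
    ccCover_ok (x := x) hX b3 b2 ⟨toR_neg bZ ▸ c1.1, c1.2, toR_neg bZ ▸ c2.1, c2.2⟩ h
  · exact absurd hz (not_le.2 (outZ_ok c4 c3))
  · exact cLf_ok c4 hX (b1 y hy y' hy') (b2 y hy y' hy')
      (a4 _ _ _ (b2 y hy y' hy') (b2 y hy y' hy')) (a6 _ _ (a5 _ _ (b3 y hy y' hy'))).2 hb.a2 hb.b2
      c5 c6 c7 (c8 rfl)

/-- the scale is too large -/
def skC (b : B2x) : Bool :=
  leI 0 b.b1 && var 0 b.a1 b.a2 fun kap => rmul kap kap fun a => addc a one 0 fun a =>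
  inv a fun ik => cst bX1 0 fun x => xiT kap ik x fun t => lo t fun l =>
  ltI (2 * one) (7 * mulD l (mulD (mulD b.b1 b.b1) b.b1))

theorem skC_no {b : B2x} (h : skC b = true) {X : TX} {ζ : ℂ} {w : ℝ} (hb : b.In X.P.kap X.c1 w)
    (hR : X.P.Reg) (hX : X.Unit ζ) : False := by
  unfold skC at h
  obtain ⟨t, h⟩ := Bool.and_eq_true_iff.1 h
  obtain ⟨_, h, a1⟩ := var_ok h
  obtain ⟨_, h, a2⟩ := rmul_ok h
  obtain ⟨_, h, a3⟩ := addc_ok h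
  obtain ⟨_, h, a4⟩ := inv_ok h
  obtain ⟨_, h, a5⟩ := cst_ok h
  obtain ⟨_, h, a6⟩ := xiT_ok h
  obtain ⟨l, h, a7⟩ := lo_ok h
  obtain ⟨x, e0, -, -⟩ := hb.pt
  rw [tch_one] at a3
  rw [ser_toC] at a5
  have b1 := th_c (a1 x) (congrArg ofReal e0)
  obtain ⟨u, b2, b3⟩ := a6 x X.P _ b1 (a4 _ _ (a3 _ _ (th_c (a2 _ _ _ b1 b1) (w := X.P.k2)
    (by rw [← X.P.kap_sq, ofReal_pow, sq])))).2 (a5 x) hR.x1
  have b4 := a7 _ _ b2
  have b5 := toR_zero ▸ leI_ok t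
  have b6 := ltI_ok h
  have b7 := mulD_nonneg (mulD_nonneg b5 b5) b5
  have b8 := mulD_le (mulD_nonneg b5 b5) b5 (mulD_le b5 b5 hb.b1 hb.b1) hb.b1
  have b9 := mulD_ok l (mulD (mulD b.b1 b.b1) b.b1)
  have hL := hX.L
  rw [TX.L, hX.m2] at hL
  rw [ofReal_re] at b4
  rw [b2_n, b2_n, toR_one] at b6
  push_cast at b6
  have c1 := mul_le_mul (show 7 / 2 * toR l ≤ 4 * X.P.Xi by linarith) b8 b7
    (by linarith [X.P.Xi_pos])
  exact absurd hL (ne_of_gt (by linarith))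

theorem skC_ok {b : B2x} (h : skC b = true) : Cv GC b := by
  rintro _ _ w hb X ζ hR hX rfl rfl -
  exact (skC_no h hb hR hX).elim

end Pool.Agent.Sok
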