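import Pool.Agent.Sok.B2c
import Pool.Agent.Sok.TCD

/-! Denominator two near the turning point: the disc, with contours adapted to the parameter. -/

set_option autoImplicit false

namespace Pool.Agent.Sok

open TM Complex

/-- the radius of the disc treated here -/
def cZ : ℤ := 2528876953600

/-- the alternative in the part of the disc inside a box -/
def GD (x1 x2 y1 y2 : ℤ) (u v _w : ℝ) : Prop := ∀ (X : TX) (ζ : ℂ), X.P.Reg → X.Unit ζ →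
  X.P.kap = u → X.c1 = v → InB ζ (x1, x2, y1, y2) → ‖ζ‖ ≤ toR cZ → X.P.GA X.T

/-- the test on a tile, with moments around `po`, divided by `exp ph` -/
def dLf (kap s ik : TM) (kh sh : ℤ) (po ph : TM) (x1 x2 y1 y2 : ℤ) (S0 S1 : TM) : Bool :=
  var 2 x1 x2 fun x =>
  (inv S0 fun j => mul S1 j fun t => add t po fun t => rp t fun t => rmul s x fun u =>
    sub t u fun t => rmul s t fun t => add t ik fun t => lo t fun l => ltI 0 l) ||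
  var 3 y1 y2 fun y => ab S0 fun I => rp po fun pu => ip po fun pv => rmul x pv fun a =>
    rmul y pu fun b => add a b fun a => add a ph fun a => hi a fun η =>
    dPart kap s ik x y kh sh one η I

def cdV (n : ℕ) : CV := ⟨vx n 0, vx n 13, vx n 26, vx n 39, vx n 52, vx n 65⟩

/-- a centre with packed data -/
def cdC (n : ℕ) (t : DT) : DT :=
  .cen (bits n 39 31) (Int.ofNat (Nat.shiftLeft (bits n 44 4095) 24)) (vx n 0) (vx n 13) (vx n 26)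
    (cdV (Nat.shiftRight n 56)) (cdV (Nat.shiftRight n 134)) t

/-- an interval as a model -/
def ivT (a b : ℤ) (k : TM → Bool) : Bool :=
  fI (mid a b) fun c => cst c 0 fun o => wid o (maxI (b - c) (c - a)) k

theorem ivT_ok {a b : ℤ} {k : TM → Bool} (h : ivT a b k = true) :
    ∃ c, k c = true ∧ ∀ x (t : ℝ), toR a ≤ t → t ≤ toR b → Rep x c t := by
  unfold ivT at h
  rw [fI_eq] at h
  obtain ⟨_, h, a1⟩ := cst_ok h
  obtain ⟨_, h, a2⟩ := wid_ok h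
  refine ⟨_, h, fun x t h1 h2 => a2 _ _ _ (a1 x) ?_⟩
  rw [ser_toC, ← ofReal_sub, norm_real, Real.norm_eq_abs, toR_maxI, toR_sub, toR_sub]
  exact inZ_ok.abs_le_max_of_le (by linarith) (by linarith)

def chkG (b : B2x) (x1 x2 y1 y2 : ℤ) (m kind : ℕ) (v0 vu vd : List ℕ) (t : DT) : Bool :=
  leI 0 b.a1 && var 0 (mulD b.a1 b.a1) (mulU b.a2 b.a2) fun k2 => var 1 b.b1 b.b2 fun s =>
  ivT b.a1 b.a2 fun kap => addc k2 one 0 fun a => inv a fun ik =>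
  cdPrep k2 s m (v0.map cdV) (vu.map cdV) (vd.map cdV) fun B =>
  cdTree B kind true (outZ cZ) (dLf kap s ik b.a2 b.b2) t (cc0 true) s s x1 x2 y1 y2

theorem dLf_ok {kap s ik po ph S0 S1 : TM} {kh sh x1 x2 y1 y2 : ℤ}
    (h : dLf kap s ik kh sh po ph x1 x2 y1 y2 S0 S1 = true) {x : Pt} {X : TX} {ζ : ℂ}
    (hX : X.Unit ζ) (h1 : Rep x kap X.P.kap) (h2 : Rep x s X.c1)
    (h4 : Rep x ik (X.P.k2 + 1 : ℂ)⁻¹) (h5 : X.P.kap ≤ toR kh) (h6 : X.c1 ≤ toR sh)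
    (e1 : ζ.re = varVal x1 x2 x.x2) (e2 : ζ.im = varVal y1 y2 x.x3)
    {o φ : ℂ} (ho : Rep x po o) (hφ : Rep x ph φ) (g0 : Rep x S0 (X.top.1 / X.N ζ o φ))
    (g1 : Rep x S1 ((X.top.2 - o * X.top.1) / X.N ζ o φ)) : X.P.GA X.T := by
  unfold dLf at h
  obtain ⟨_, h, a1⟩ := var_ok h
  have b1 := th_c (a1 x) (congrArg ofReal e1.symm)
  have hE := X.N_ne ζ o φ
  rcases Bool.or_eq_true_iff.1 h with h | h
  · obtain ⟨_, h, a2⟩ := inv_ok h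
    obtain ⟨_, h, a3⟩ := mul_ok h
    obtain ⟨_, h, a4⟩ := add_ok h
    obtain ⟨_, h, a5⟩ := rp_ok h
    obtain ⟨_, h, a6⟩ := rmul_ok h
    obtain ⟨_, h, a7⟩ := sub_ok h
    obtain ⟨_, h, a8⟩ := rmul_ok h
    obtain ⟨_, h, c1⟩ := add_ok h
    obtain ⟨_, h, a9⟩ := lo_ok h
    obtain ⟨b3, b5⟩ := a2 _ _ g0
    have b2 := (toR_zero ▸ ltI_ok h).trans_le (a9 _ _ (c1 _ _ _ (a8 _ _ _ h2 (a7 _ _ _
      (a5 _ _ (a4 _ _ _ (a3 _ _ _ g1 b5) ho)) (a6 _ _ _ h2 b1))) h4))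
    have b4 := left_ne_zero_of_mul b3
    rw [← div_eq_mul_inv, div_div_div_cancel_right₀ hE, sub_div, mul_div_cancel_right₀ _ b4,
      sub_add_cancel, ← ofReal_one, ← ofReal_add, ← ofReal_inv] at b2
    refine Or.inl (X.inc b4 (b2.trans_eq ?_))
    rw [← tch_va hX.v]
    simp only [add_re, sub_re, ofReal_re, re_ofReal_mul, add_comm X.P.k2]
  · obtain ⟨_, h, a2⟩ := var_ok h
    obtain ⟨_, h, a3⟩ := ab_ok h
    obtain ⟨_, h, a0⟩ := rp_ok h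
    obtain ⟨_, h, c1⟩ := ip_ok h
    obtain ⟨_, h, a4⟩ := rmul_ok h
    obtain ⟨_, h, a5⟩ := rmul_ok h
    obtain ⟨_, h, a6⟩ := add_ok h
    obtain ⟨_, h, c2⟩ := add_ok h
    obtain ⟨_, h, a7⟩ := hi_ok h
    have b2 := th_c (a2 x) (congrArg ofReal e2.symm)
    refine dPart_ok h hX.m2 hX.v h1 h2 h4 b1 b2 h5 h6 (by rw [toR_one, hX.L]) ?_
    have b3 := a3 _ _ g0
    have b4 := a7 _ _ (c2 _ _ _ (a6 _ _ _ (a4 _ _ _ b1 (c1 _ _ ho)) (a5 _ _ _ b2 (a0 _ _ ho))) hφ)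
    rw [norm_div, div_le_iff₀' (norm_pos_iff.2 hE), TX.N, norm_mul, norm_exp] at b3
    rw [hX.L, Real.sqrt_one, one_mul, one_mul]
    refine b3.trans (mul_le_mul_of_nonneg_right (mul_le_mul_of_nonneg_left (Real.exp_le_exp.2
      (le_trans (le_of_eq ?_) b4)) (norm_nonneg _)) ((norm_nonneg _).trans (a3 _ _ g0)))
    simp
    ring

theorem chkG_ok {b : B2x} {x1 x2 y1 y2 : ℤ} {m kind : ℕ} {v0 vu vd : List ℕ} {t : DT}
    (h : chkG b x1 x2 y1 y2 m kind v0 vu vd t = true) : Cv (GD x1 x2 y1 y2) b := by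
  rintro _ _ w hb X ζ - hX rfl rfl hm hz
  unfold chkG at h
  obtain ⟨t0, h⟩ := Bool.and_eq_true_iff.1 h
  obtain ⟨_, h, a1⟩ := var_ok h
  obtain ⟨_, h, a2⟩ := var_ok h
  obtain ⟨_, h, a3⟩ := ivT_ok h
  obtain ⟨_, h, a5⟩ := addc_ok h
  obtain ⟨_, h, a6⟩ := inv_ok h
  have b0 := toR_zero ▸ leI_ok t0
  have b1 := X.P.kap_nonneg
  obtain ⟨y0, g0, e0⟩ := exists_varVal (t := X.P.k2)
    (by rw [← X.P.kap_sq, sq]; exact mulD_le b0 b0 hb.a1 hb.a1)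
    (by rw [← X.P.kap_sq, sq]; exact mulU_le b1 b1 hb.a2 hb.a2)
  obtain ⟨y1, g1, e1⟩ := exists_varVal hb.b1 hb.b2
  obtain ⟨x, hx⟩ : ∃ x : Pt, x = ⟨y0, y1, 0, 0, g0, g1, by simp, by simp⟩ := ⟨_, rfl⟩
  rw [tch_one] at a5
  have b2 := fun y hy y' hy' => th_c (a2 ((x.set2 y hy).set3 y' hy')) (w := X.c1)
    (by rw [← e1, hx]; rfl)
  have b3 := fun y hy y' hy' => th_c (a1 ((x.set2 y hy).set3 y' hy')) (w := X.P.k2)
    (by rw [← e0, hx]; rfl)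
  obtain ⟨p1, p2, q1, q2, c3, c4 | ⟨y, hy, y', hy', _, _, _, _, _, _, c4, c5, c6, c7, c8, c9, c10⟩⟩ :=
    cdCover_ok (x := x) hX b3 b2 hm h
  · exact absurd hz (not_le.2 (outZ_ok c4 c3))
  · exact dLf_ok c4 hX (a3 _ _ hb.a1 hb.a2) (b2 y hy y' hy')
      (a6 _ _ (a5 _ _ (b3 y hy y' hy'))).2 hb.a2 hb.b2 c5 c6 c7 c8 c9 (c10 rfl)

section

variable {x1 x2 y1 y2 m : ℤ} {b : B2x}

theorem skD_ok (h : skC b = true) : Cv (GD x1 x2 y1 y2) b := by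
  rintro _ _ w hb X ζ hR hX rfl rfl - -
  exact (skC_no h hb hR hX).elim

/-- the scale is too large for the real parts up to `x` -/
def skE (b : B2x) (x : ℤ) : Bool :=
  leI 0 b.b1 && var 0 b.a1 b.a2 fun kap => rmul kap kap fun a => addc a one 0 fun a =>
  inv a fun ik => fI (maxI (mulU (mulD b.b1 b.b1) x) (mulU (mulU b.b2 b.b2) x)) fun c =>
  smul kap (2 * c) fun x => xiT kap ik x fun t => lo t fun l =>
  ltI (2 * one) (7 * mulD l (mulD (mulD b.b1 b.b1) b.b1))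

theorem skE_ok (h : skE b x2 = true) : Cv (GD x1 x2 y1 y2) b := by
  rintro _ _ w hb X ζ hR hX rfl rfl hm -
  unfold skE at h
  obtain ⟨t, h⟩ := Bool.and_eq_true_iff.1 h
  obtain ⟨_, h, a1⟩ := var_ok h
  obtain ⟨_, h, a2⟩ := rmul_ok h
  obtain ⟨_, h, a3⟩ := addc_ok h
  obtain ⟨_, h, a4⟩ := inv_ok h
  rw [fI_eq] at h
  obtain ⟨_, h, a5⟩ := smul_ok h
  obtain ⟨_, h, a6⟩ := xiT_ok h
  obtain ⟨l, h, a7⟩ := lo_ok h
  obtain ⟨x, e0, -, -⟩ := hb.pt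
  rw [tch_one] at a3
  have b1 := th_c (a1 x) (congrArg ofReal e0)
  have b5 := toR_zero ▸ leI_ok t
  have d1 := mulD_le b5 b5 hb.b1 hb.b1
  have d2 := mulU_le X.h1.le X.h1.le hb.b2 hb.b2
  have d3 : X.c1 * X.c1 * toR x2 ≤
      toR (maxI (mulU (mulD b.b1 b.b1) x2) (mulU (mulU b.b2 b.b2) x2)) := by
    rw [toR_maxI]
    exact (le_total 0 (toR x2)).elim (fun g => le_max_of_le_right
      ((mul_le_mul_of_nonneg_right d2 g).trans (mulU_ok _ _))) fun g => le_max_of_le_left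
        ((mul_le_mul_of_nonpos_right d1 g).trans (mulU_ok _ _))
  generalize maxI _ _ = c at d3 a5
  have d4 : X.P.vre = 2 * X.P.kap * X.c1 ^ 2 * ζ.re := by
    simpa [Par.v, ← ofReal_pow] using congrArg re hX.v
  have d5 := mul_le_mul_of_nonneg_left ((mul_le_mul_of_nonneg_left hm.2.1
    (mul_self_nonneg X.c1)).trans d3) (Par.kap_pos X.hδ).le
  obtain ⟨u, b2, b3⟩ := a6 x X.P (X.P.kap * toR (2 * c)) b1 (a4 _ _ (a3 _ _ (th_c (a2 _ _ _ b1 b1)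
    (w := X.P.k2) (by rw [← X.P.kap_sq, ofReal_pow, sq])))).2 (th_c (a5 _ _ b1) (by push_cast; rfl))
    (by rw [d4, b2_n]; push_cast; linarith)
  have b4 := a7 _ _ b2
  have b6 := ltI_ok h
  have b7 := mulD_nonneg (mulD_nonneg b5 b5) b5
  have b8 := mulD_le (mulD_nonneg b5 b5) b5 d1 hb.b1
  have b9 := mulD_ok l (mulD (mulD b.b1 b.b1) b.b1)
  have hL := hX.L
  rw [TX.L, hX.m2] at hL
  rw [ofReal_re] at b4
  rw [b2_n, b2_n, toR_one] at b6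
  push_cast at b6
  have c1 := mul_le_mul (show 7 / 2 * toR l ≤ 4 * X.P.Xi by linarith) b8 b7
    (by linarith [X.P.Xi_pos])
  exact absurd hL (ne_of_gt (by linarith))

theorem GD.sx (h : Cv (GD x1 m y1 y2) b) (h' : Cv (GD m x2 y1 y2) b) : Cv (GD x1 x2 y1 y2) b :=
  fun u v w hb X ζ h1 h2 h3 h4 h5 => (le_total ζ.re (toR m)).elim
    (fun g => h u v w hb X ζ h1 h2 h3 h4 ⟨h5.1, g, h5.2.2⟩)
    fun g => h' u v w hb X ζ h1 h2 h3 h4 ⟨g, h5.2⟩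

theorem GD.sy (h : Cv (GD x1 x2 y1 m) b) (h' : Cv (GD x1 x2 m y2) b) : Cv (GD x1 x2 y1 y2) b :=
  fun u v w hb X ζ h1 h2 h3 h4 h5 => (le_total ζ.im (toR m)).elim
    (fun g => h u v w hb X ζ h1 h2 h3 h4 ⟨h5.1, h5.2.1, h5.2.2.1, g⟩)
    fun g => h' u v w hb X ζ h1 h2 h3 h4 ⟨h5.1, h5.2.1, g, h5.2.2.2⟩

theorem GD.fin (h : Cv (GD (-cZ) cZ (-cZ) cZ) b) : Cv GC b := fun u v w hb X ζ h1 h2 h3 h4 h5 => by
  have h6 : ‖ζ‖ ≤ toR cZ := h5.trans (by norm_num [toR, bZ, cZ])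
  have c1 := abs_le.1 ((abs_re_le_norm ζ).trans h6)
  have c2 := abs_le.1 ((abs_im_le_norm ζ).trans h6)
  exact h u v w hb X ζ h1 h2 h3 h4 ⟨toR_neg cZ ▸ c1.1, c1.2, toR_neg cZ ▸ c2.1, c2.2⟩ h6

end

end Pool.Agent.Sok
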