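import Pool.Agent.Sok.B2c

/-! Denominator two near the turning point: the ring and the two strips. -/

set_option autoImplicit false

namespace Pool.Agent.Sok

open TM Complex

def xtOf (B n : ℕ) : XT :=
  ⟨fz n 0, fz n 32, bits n 96 7, fz n 64, ⟨vx n 128, vx n 141, cls B (bits n 112 4095), bit n 101,
    stepsOf (bits n 104 15) (Nat.shiftRight n 160),
    stepsOf (bits n 108 15) (Nat.shiftRight n (Nat.add 160 (Nat.mul 32 (bits n 104 15))))⟩,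
    bits n 99 3⟩

theorem xtOf_ok {B m n : ℕ} (hB : ClsOk B 0 m) (h : Nat.blt (bits n 112 4095) m = true) :
    (xtOf B n).q.cls.ok := hB _ (Nat.zero_le _) (by simpa [Nat.blt_eq] using h)

def utD (n : ℕ) : List Step := stepsOf (bits n 104 15) (Nat.shiftRight n 128)
def utU (n : ℕ) : List Step :=
  stepsOf (bits n 108 15) (Nat.shiftRight n (Nat.add 128 (Nat.mul 32 (bits n 104 15))))

/-- the real part of the mean position, with its error -/
def mVal (e : TE) (a : Ac) (z : TM) (l M : ℤ) (k : TM → ℤ → Bool) : Bool :=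
  ltI 0 l && sub z e.va fun d => rp d fun d => rmul e.c1 d fun d => add d e.ik fun d =>
  hi e.c1 fun c => fI (mulU c (divU (divU M l) a.L0)) fun r => k d r

theorem mVal_ok {e : TE} {a : Ac} {z : TM} {l M : ℤ} {k : TM → ℤ → Bool}
    (h : mVal e a z l M k = true) {x : Pt} {X : TX} (he : e.Ok x X) (ha : a.Ok X.L) (ht : a.ty = 1)
    {z0 : ℂ} (hz : RepA x z z0) (hE : 0 < ‖X.J.E z0‖)
    (h1 : ‖X.J.E z0‖ * toR l ≤ Real.sqrt X.L * ‖X.top.1 - ((0, 0) : ℂ × ℂ).1‖) {hi' : ℝ}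
    (h2 : Bd X.L ‖X.J.E z0‖ (a.W X.L) z0 (0, 0) X.top hi' (toR M)) :
    ∃ d r, k d r = true ∧ X.top.1 ≠ 0 ∧ ∃ g : ℝ, Rep x d g ∧
      |X.c1 * (X.top.2 / X.top.1 - X.va).re + (1 + X.P.k2)⁻¹ - g| ≤ toR r := by
  unfold mVal at h
  rw [Bool.and_eq_true] at h
  obtain ⟨c1, h⟩ := h
  obtain ⟨d1, h, hd1⟩ := sub_ok h
  obtain ⟨d2, h, hd2⟩ := rp_ok h
  obtain ⟨d3, h, hd3⟩ := rmul_ok h
  obtain ⟨d4, h, hd4⟩ := add_ok h
  obtain ⟨c, h, hc⟩ := hi_ok h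
  rw [fI_eq] at h
  have l0 := ltI_ok c1
  rw [toR_zero] at l0
  have hW : a.W X.L = toR a.L0 := by unfold Ac.W wt; rw [ht]; simp
  have e := te_mean hE l0 ha.1 h1 (hW ▸ h2.2)
  simp only [sub_zero] at e
  refine ⟨_, _, h, e.1, X.c1 * (z0 - X.va).re + (1 + X.P.k2)⁻¹, th_c (hd4 _ _ _ (hd3 _ _ _
    he.c1.rep (hd2 _ _ (hd1 _ _ _ hz.rep he.va.rep))) he.ik.rep) (by push_cast; ring), ?_⟩
  have e1 : X.c1 * (X.top.2 / X.top.1 - X.va).re + (1 + X.P.k2)⁻¹ -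
      (X.c1 * (z0 - X.va).re + (1 + X.P.k2)⁻¹) = X.c1 * (X.top.2 / X.top.1 - z0).re := by
    simp only [sub_re]
    ring
  rw [e1, abs_mul, abs_of_pos X.h1]
  refine mulU_le X.h1.le (abs_nonneg _) (hc _ _ he.c1.rep) (e.2.trans (le_trans ?_ (divU_ok _ ha.1)))
  exact div_le_div_of_nonneg_right (divU_ok _ l0) ha.1.le

/-- the mean lies to the right -/
def incT (B m : ℕ) (C : Chart) (e : TE) (L0 : ℤ) (n : ℕ) : Bool :=
  Nat.blt (bits n 112 4095) m && mkAc L0 1 fun a =>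
  valT C a (xtOf B n) (endD e a false) (endT e a (bits n 99 3)) fun z l _ M =>
  mVal e a z l M fun d r => lo d fun g => ltI r g

theorem incT_ok {B m : ℕ} (hB : ClsOk B 0 m) {C : Chart} {e : TE} {L0 : ℤ} {n : ℕ}
    (h : incT B m C e L0 n = true) {x : Pt} {X : TX} (hC : C.Ok x X.J) (he : e.Ok x X)
    (hL : toR L0 ≤ X.L) : X.P.Inc X.T := by
  unfold incT at h
  rw [Bool.and_eq_true] at h
  obtain ⟨c1, h⟩ := h
  obtain ⟨a, h, -, a2, a3⟩ := mkAc_ok h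
  have ha := a3 _ hL
  obtain ⟨z, z0, l, u, M, h, h1, -, h2, h3, h4⟩ := valT_ok hC ha (xtOf_ok hB c1)
    (fun E0 zc hE => endD_ok he ha hE false zc) (fun E0 zc hE => endT_ok he ha hE _ zc) h
  obtain ⟨d, r, h, h5, g, h6, h7⟩ := mVal_ok h he ha a2 h1 h2 h3 h4
  obtain ⟨g', h, hg⟩ := lo_ok h
  have e1 := (ltI_ok h).trans_le (hg _ _ h6)
  rw [ofReal_re] at e1
  exact X.inc h5 (by linarith [(abs_le.1 h7).1])

def rotT : ℕ → TM → (TM → Bool) → Bool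
  | 0, a, k => k a
  | j + 1, a, k => mi a fun b => rotT j b k

theorem rotT_ok {j : ℕ} {a : TM} {k : TM → Bool} (h : rotT j a k = true) :
    ∃ c, k c = true ∧ ∀ x z, Rep x a z → Rep x c (I ^ j * z) := by
  induction j generalizing a with
  | zero => exact ⟨a, h, fun x z e => by rwa [pow_zero, one_mul]⟩
  | succ j ih =>
    obtain ⟨b, h, hb⟩ := mi_ok h
    obtain ⟨c, h, hc⟩ := ih h
    exact ⟨c, h, fun x z e => th_c (hc _ _ (hb _ _ e)) (by ring)⟩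

/-- the alternative on a side of the ring -/
def GR (j : ℕ) (u v w : ℝ) : Prop := ∀ X : TX, X.P.Reg → X.m2 = X.c1 → X.P.kap = u → X.c1 = v →
  X.P.v X.T = 2 * X.P.kap * X.c1 ^ 2 * (I ^ j * (1 + I * w)) → (X.P.v X.T).im ≤ toR bY →
  toR bZ ^ 3 ≤ X.L ^ 2 * ‖1 + I * w‖ ^ 3 → X.P.GA X.T

/-- the box lies outside the region -/
def rSk (b : B2x) (vh : TM) : Bool :=
  leI 0 b.a1 && leI 0 b.b1 && fI (mulD (2 * b.a1) (mulD b.b1 b.b1)) fun q =>
  (lo vh fun l => ltI bX1 (mulD q l)) || (hi vh fun l => ltI (-bX0) (mulD q (-l))) ||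
  ip vh fun y => lo y fun l => ltI bY (mulD q l)

def rL0 (b : B2x) (kap s x ik : TM) (k : ℤ → Bool) : Bool :=
  rmul s s fun s2 => rmul s2 x fun t => rmul kap t fun t => nmul t 2 fun t => xiT kap ik t fun t =>
  rmul s2 s fun u => rmul u t fun t => lo t fun l => fI (maxI b.c2 (-b.c1)) fun p =>
  fI (sqrtU (one + mulU p p)) fun r =>
  fI (maxI (mulD l (7 * half)) (sqrtD (divD (mulD (mulD bZ bZ) bZ) (mulU (mulU r r) r)))) k

def rLf (B m j n : ℕ) (b : B2x) : Bool :=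
  var 2 b.c1 b.c2 fun p => mi p fun p => addc p one 0 fun p => rotT j p fun vh =>
  cond (Nat.beq n 0) (rSk b vh)
    (var 0 b.a1 b.a2 fun kap => var 1 b.b1 b.b2 fun s => rmul kap kap fun k2 =>
      mkTS k2 s vh (bits n 2 7) false fun C e => rp vh fun x => rL0 b kap s x e.ik fun L0 =>
      fN (Nat.shiftRight n 8) fun c => cond (bit n 0) (incT B m C e L0 c)
        (mkAc L0 0 fun a => cst 0 0 fun z => entryU C a z (fz c 64) (utD c) (utU c)
          (endD e a false) (endT e a (bits c 99 3)) fun I _ => ip vh fun y =>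
          dPart kap s e.ik x y b.a2 b.b2 L0 (fz c 64) I))

theorem b2_out {q l c : ℤ} {Q t : ℝ} (h0 : 0 ≤ toR q) (h1 : toR q ≤ Q) (h2 : toR l ≤ t)
    (h3 : 0 ≤ toR c) (h : ltI c (mulD q l) = true) : toR c < Q * t := by
  have e := (ltI_ok h).trans_le (mulD_ok _ _)
  have e1 : 0 < toR l := by
    by_contra e2
    have := mul_nonpos_of_nonneg_of_nonpos h0 (not_lt.1 e2)
    linarith
  exact e.trans_le (mul_le_mul h1 h2 e1.le (h0.trans h1))

theorem b2_parts {X : TX} {vh : ℂ} (hv : X.P.v X.T = 2 * X.P.kap * X.c1 ^ 2 * vh) :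
    X.P.vre = 2 * X.P.kap * (X.c1 * X.c1) * vh.re ∧
      (X.P.v X.T).im = 2 * X.P.kap * (X.c1 * X.c1) * vh.im := by
  have e : X.P.v X.T = ((2 * X.P.kap * (X.c1 * X.c1) : ℝ) : ℂ) * vh := by
    rw [hv]
    push_cast
    ring
  exact ⟨(congrArg re e).trans (re_ofReal_mul _ _), (congrArg im e).trans (im_ofReal_mul _ _)⟩

theorem rSk_ok {b : B2x} {vh : TM} (h : rSk b vh = true) {x : Pt} {X : TX} {w : ℂ}
    (hw : Rep x vh w) (hR : X.P.Reg) (hv : X.P.v X.T = 2 * X.P.kap * X.c1 ^ 2 * w)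
    (h1 : toR b.a1 ≤ X.P.kap) (h2 : toR b.b1 ≤ X.c1) (h3 : (X.P.v X.T).im ≤ toR bY) : False := by
  unfold rSk at h
  simp only [fI_eq, Bool.and_eq_true, Bool.or_eq_true] at h
  obtain ⟨⟨c1, c2⟩, h⟩ := h
  replace c1 := leI_ok c1
  replace c2 := leI_ok c2
  rw [toR_zero] at c1 c2
  have c3 : 0 ≤ toR (2 * b.a1) := by rw [tailB_two]; linarith
  have q0 := mulD_nonneg c3 (mulD_nonneg c2 c2)
  have q1 := mulD_le (x := 2 * X.P.kap) c3 (mulD_nonneg c2 c2) (by rw [tailB_two]; linarith)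
    (mulD_le c2 c2 h2 h2)
  obtain ⟨e1, e2⟩ := b2_parts hv
  rcases h with (h | h) | h
  · obtain ⟨l, h, hl⟩ := lo_ok h
    have := b2_out q0 q1 (hl _ _ hw) (by unfold toR bX1; norm_num) h
    linarith [hR.x1]
  · obtain ⟨l, h, hl⟩ := hi_ok h
    have := b2_out (t := -w.re) q0 q1 (by rw [toR_neg]; exact neg_le_neg (hl _ _ hw))
      (by unfold toR bX0; norm_num) h
    rw [toR_neg] at this
    linarith [hR.x0]
  · obtain ⟨y, h, hy⟩ := ip_ok h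
    obtain ⟨l, h, hl⟩ := lo_ok h
    have := b2_out q0 q1 (hl _ _ (hy _ _ hw)) (by unfold toR bY; norm_num) h
    rw [ofReal_re] at this
    linarith

theorem b2_seven : toR (7 * half) = 7 / 2 := by
  rw [b2_n, tch_half]
  norm_num

theorem rL0_ok {b : B2x} {kap s x ik : TM} {k : ℤ → Bool} (h : rL0 b kap s x ik k = true) {pt : Pt}
    {X : TX} (hm : X.m2 = X.c1) {vh : ℂ} (hv : X.P.v X.T = 2 * X.P.kap * X.c1 ^ 2 * vh)
    (h1 : Rep pt kap X.P.kap) (h2 : Rep pt s X.c1) (h3 : Rep pt x vh.re)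
    (h4 : Rep pt ik (X.P.k2 + 1 : ℂ)⁻¹) {w : ℝ} (h5 : toR b.c1 ≤ w) (h6 : w ≤ toR b.c2)
    (h7 : toR bZ ^ 3 ≤ X.L ^ 2 * ‖1 + I * w‖ ^ 3) : ∃ L0, k L0 = true ∧ toR L0 ≤ X.L := by
  unfold rL0 at h
  obtain ⟨s2, h, hs2⟩ := rmul_ok h
  obtain ⟨t1, h, ht1⟩ := rmul_ok h
  obtain ⟨t2, h, ht2⟩ := rmul_ok h
  obtain ⟨t3, h, ht3⟩ := nmul_ok h
  obtain ⟨t4, h, ht4⟩ := xiT_ok h
  obtain ⟨u, h, hu⟩ := rmul_ok h
  obtain ⟨t5, h, ht5⟩ := rmul_ok h
  obtain ⟨l, h, hl⟩ := lo_ok h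
  rw [fI_eq, fI_eq, fI_eq] at h
  refine ⟨_, h, ?_⟩
  have e1 := hs2 _ _ _ h2 h2
  obtain ⟨ξ, e2, e3⟩ := ht4 pt X.P X.P.vre h1 h4 (th_c (ht3 _ _ (ht2 _ _ _ h1 (ht1 _ _ _ e1 h3)))
    (by rw [(b2_parts hv).1]; push_cast; ring)) le_rfl
  have e4 := hl _ _ (th_c (ht5 _ _ _ (hu _ _ _ e1 h2) e2) (w := (X.c1 * X.c1 * X.c1 * ξ : ℝ))
    (by push_cast; ring))
  rw [ofReal_re] at e4
  have hs := X.h1
  rw [toR_maxI]
  refine max_le ((mulD_ok _ _).trans ?_) ((sqrtD_ok _).trans ?_)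
  · have e5 := mul_le_mul_of_nonneg_left e3 (by positivity : 0 ≤ X.c1 * X.c1 * X.c1)
    unfold TX.L
    rw [b2_seven, hm]
    nlinarith
  · have p1 : |w| ≤ toR (maxI b.c2 (-b.c1)) := by
      rw [toR_maxI, toR_neg]
      exact abs_le.2 ⟨by linarith [le_max_right (toR b.c2) (-toR b.c1)], h6.trans (le_max_left _ _)⟩
    have p2 : ‖1 + I * w‖ ≤ toR (sqrtU (one + mulU (maxI b.c2 (-b.c1)) (maxI b.c2 (-b.c1)))) := by
      refine le_trans (Real.le_sqrt_of_sq_le ?_) (sqrtU_ok _)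
      have := mulU_le (abs_nonneg _) (abs_nonneg _) p1 p1
      rw [abs_mul_abs_self] at this
      rw [toR_add, toR_one, ← normSq_eq_norm_sq, normSq_apply]
      simp
      linarith
    have p3 : 0 < ‖1 + I * w‖ := norm_pos_iff.2 fun e => by simpa using congrArg re e
    have z0 : 0 ≤ toR bZ := by unfold toR bZ; norm_num
    have p4 := divD_le (mulD_nonneg (mulD_nonneg z0 z0) z0) (by positivity)
      (mulD_le (mulD_nonneg z0 z0) z0 (mulD_ok _ _) le_rfl)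
      (mulU_le (by positivity) p3.le (mulU_le p3.le p3.le p2 p2) p2)
    refine Real.sqrt_le_iff.2 ⟨X.L_pos.le, p4.trans ?_⟩
    rw [div_le_iff₀ (by positivity)]
    nlinarith

theorem b2_var {i : ℕ} {u v : ℤ} {c : TM} (h : ∀ x, Rep x c (varVal u v (x.get i) : ℝ)) {x : Pt}
    {t : ℝ} (hi : i < 3) (e : varVal u v (x.get i) = t) : RepA x c t := fun y hy => by
  have e1 := h (x.set3 y hy)
  have e2 : (x.set3 y hy).get i = x.get i := by
    interval_cases i <;> rfl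
  rwa [e2, e] at e1

theorem b2_kk {x : Pt} {P : Par} {kap k2 : TM}
    (h : ∀ x z w, Rep x kap z → Rep x kap w → Rep x k2 (z * w)) (h1 : RepA x kap P.kap) :
    RepA x k2 P.k2 := fun y hy => th_c (h _ _ _ (h1 y hy) (h1 y hy)) (by
  rw [← P.kap_sq]; push_cast; ring)

theorem rLf_ok {B m : ℕ} (hB : ClsOk B 0 m) (j n : ℕ) (b : B2x) (h : rLf B m j n b = true) :
    Cv (GR j) b := by
  intro u v w hb X hR hm e1 e2 hv hy hZ
  subst e1 e2
  obtain ⟨x, x0, x1, x2⟩ := hb.pt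
  unfold rLf at h
  obtain ⟨p1, h, hp1⟩ := var_ok h
  obtain ⟨p2, h, hp2⟩ := mi_ok h
  obtain ⟨p3, h, hp3⟩ := addc_ok h
  obtain ⟨vh, h, hvh⟩ := rotT_ok h
  have r3 : RepA x vh (I ^ j * (1 + I * w)) := fun y hy => th_c (hvh _ _ (hp3 _ _ (hp2 _ _
    (b2_var hp1 (by norm_num) x2 y hy)))) (by rw [tch_one]; ring)
  cases hn : Nat.beq n 0
  · rw [hn, cond_false] at h
    obtain ⟨kap, h, hk⟩ := var_ok h
    obtain ⟨s, h, hs⟩ := var_ok h
    obtain ⟨k2, h, hk2⟩ := rmul_ok h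
    obtain ⟨C, e, h, hC⟩ := mkTS_ok h
    obtain ⟨xr, h, hxr⟩ := rp_ok h
    have r1 := b2_var hk (by norm_num) x0
    have r2 := b2_var hs (by norm_num) x1
    obtain ⟨hC, he⟩ := hC x X _ hm hv (b2_kk hk2 r1) r2 r3
    obtain ⟨L0, h, hL⟩ := rL0_ok h hm hv r1.rep r2.rep (hxr _ _ r3.rep) he.ik.rep hb.c1 hb.c2 hZ
    rw [fN_eq] at h
    cases hn' : bit n 0
    · rw [hn', cond_false] at h
      obtain ⟨a, h, -, -, a3⟩ := mkAc_ok h
      have ha := a3 _ hL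
      obtain ⟨z, h, hz⟩ := cst_ok h
      have hE : 0 ≤ ‖X.J.E 0‖ * Real.exp (X.L * toR (fz (n.shiftRight 8) 64)) := by positivity
      obtain ⟨I', M, h, hI⟩ := entryU_ok (z0 := 0) hC ha
        (fun y hy => th_c (hz _) (by rw [ser_toC, toR_zero, ofReal_zero]))
        (by rw [mul_assoc, ← Real.exp_add, X.J_L, add_neg_cancel, Real.exp_zero, mul_one]) hE
        (endD_ok he ha hE false 0) (endT_ok he ha hE _ 0) h
      obtain ⟨y, h, hy'⟩ := ip_ok h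
      exact dPart_ok h hm hv r1.rep r2.rep he.ik.rep (hxr _ _ r3.rep) (hy' _ _ r3.rep) hb.a2 hb.b2
        hL (by simpa [X.J_L] using hI.1)
    · rw [hn', cond_true] at h
      exact Or.inl (incT_ok hB h hC he hL)
  · rw [hn, cond_true] at h
    exact (rSk_ok h r3.rep hR hv hb.a1 hb.b1 hy).elim

end Pool.Agent.Sok
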