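import Pool.Agent.Sok.B2d

/-! Denominator two near the turning point: the facts in the chart of scale one, and the glue. -/

set_option autoImplicit false

namespace Pool.Agent.Sok

open TM Complex

/-- the chart of scale one -/
noncomputable def Par.X1 (P : Par) (hδ : 0 < P.δ) (T : ℝ) : TX :=
  ⟨P, T, (2 * P.kap)⁻¹, 1, hδ, inv_pos.2 (mul_pos two_pos (Par.kap_pos hδ)), one_pos⟩

theorem Par.X1_a (P : Par) (hδ : 0 < P.δ) (T : ℝ) : (P.X1 hδ T).a = 1 :=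
  mul_inv_cancel₀ (mul_pos two_pos (Par.kap_pos hδ)).ne'

theorem Par.X1_L (P : Par) (hδ : 0 < P.δ) (T : ℝ) : (P.X1 hδ T).L = P.δ⁻¹ := by
  have e := (P.X1 hδ T).L_δ
  rw [P.X1_a] at e
  exact eq_inv_of_mul_eq_one_left (e.trans (by simp [Par.X1]))

theorem Par.X1_top (P : Par) (hδ : 0 < P.δ) (T : ℝ) : ‖(P.X1 hδ T).top.1‖ = ‖(P.Vtop T).1‖ := by
  have e := (P.X1 hδ T).top_norm
  rw [P.X1_a, one_mul] at e
  exact e.symm

theorem Par.v_pi (P : Par) (T : ℝ) : P.v (T + Real.pi) = P.v T + Real.pi * I := by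
  apply Complex.ext <;> simp [Par.v]
  ring

def GU (u v w : ℝ) : Prop := ∀ (P : Par) (T : ℝ), P.Reg → P.kap = u → P.vre = v → (P.v T).im = w →
  2 * P.kap * toR bS ^ 2 ≤ w → P.Inc T
def GW (u v w : ℝ) : Prop := ∀ (P : Par) (T : ℝ), P.Reg → P.kap = u → P.vre = v → (P.v T).im = w →
  w ≤ -(2 * P.kap * toR bS ^ 2) → P.Dm T
def GB (u v w : ℝ) : Prop := ∀ (P : Par) (T : ℝ), P.Reg → P.kap = u → P.vre = v → (P.v T).im = w →
  -(2 * P.kap * toR bS ^ 2) ≤ w → P.Dec (T + Real.pi) ∧ (w < 0 → P.Low T)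

def hU (k : ℤ) : ℤ := mulU (2 * k) (mulU bS bS)
def hD (k : ℤ) : ℤ := mulD (2 * k) (mulD bS bS)

theorem hU_ok {k : ℤ} {P : Par} (h : P.kap ≤ toR k) : 2 * P.kap * toR bS ^ 2 ≤ toR (hU k) :=
  mulU_le (mul_nonneg zero_le_two P.kap_nonneg) (sq_nonneg _) (by rw [tailB_two]; linarith)
    (by rw [sq]; exact mulU_ok _ _)

theorem hD_ok {k : ℤ} {P : Par} (h0 : leI 0 k = true) (h : toR k ≤ P.kap) :
    toR (hD k) ≤ 2 * P.kap * toR bS ^ 2 := by
  have e := leI_ok h0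
  rw [toR_zero] at e
  have s0 : 0 ≤ toR bS := by unfold toR bS; norm_num
  exact mulD_le (by rw [tailB_two]; linarith) (mulD_nonneg s0 s0) (by rw [tailB_two]; linarith)
    (by rw [sq]; exact mulD_ok _ _)

/-- the variables; the continuation gets `κ`, `x`, `v` and `v + π i` -/
def eVar (b : B2x) (k : TM → TM → TM → TM → Bool) : Bool :=
  var 0 b.a1 b.a2 fun kap => var 1 b.b1 b.b2 fun x => var 2 b.c1 b.c2 fun y => mi y fun y =>
  add x y fun v => addc v 0 piD fun w => wid w 1 fun w => k kap x v w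

theorem eVar_ok {b : B2x} {k : TM → TM → TM → TM → Bool} (h : eVar b k = true) {P : Par} {T : ℝ}
    (hb : b.In P.kap P.vre (P.v T).im) : ∃ pt kap x v w, k kap x v w = true ∧ RepA pt kap P.kap ∧
      RepA pt x P.vre ∧ RepA pt v (P.v T) ∧ RepA pt w (P.v (T + Real.pi)) := by
  obtain ⟨pt, x0, x1, x2⟩ := hb.pt
  unfold eVar at h
  obtain ⟨kap, h, hk⟩ := var_ok h
  obtain ⟨x, h, hx⟩ := var_ok h
  obtain ⟨y, h, hy⟩ := var_ok h
  obtain ⟨y', h, hy'⟩ := mi_ok h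
  obtain ⟨v, h, hv⟩ := add_ok h
  obtain ⟨w, h, hw⟩ := addc_ok h
  obtain ⟨w', h, hw'⟩ := wid_ok h
  have r1 := b2_var hx (by norm_num) x1
  have r2 : RepA pt v (P.v T) := fun t ht => th_c (hv _ _ _ (r1 t ht) (hy' _ _
    (b2_var hy (by norm_num) x2 t ht))) (by apply Complex.ext <;> simp [Par.v])
  refine ⟨pt, kap, x, v, w', h, b2_var hk (by norm_num) x0, r1, r2, fun t ht =>
    hw' _ _ _ (hw _ _ (r2 t ht)) ?_⟩
  have e : P.v (T + Real.pi) - (P.v T + toC 0 piD) = ((Real.pi - toR piD : ℝ) : ℂ) * I := by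
    rw [P.v_pi]
    apply Complex.ext <;> simp [toC, toR_zero]
  have e1 := piD_ok
  have e2 := piU_ok
  have e3 : toR piU = toR piD + toR 1 := by rw [← toR_add]; rfl
  rw [e, norm_mul, norm_I, mul_one, Complex.norm_real, Real.norm_of_nonneg (by linarith)]
  linarith

def eL0 (e : TE) (kap x : TM) (k : ℤ → Bool) : Bool :=
  xiT kap e.ik x fun t => rmul e.c1 e.c1 fun u => rmul u t fun t => lo t fun l =>
  fI (mulD l (7 * half)) k

theorem eL0_ok {e : TE} {kap x : TM} {k : ℤ → Bool} (h : eL0 e kap x k = true) {pt : Pt} {P : Par}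
    {hδ : 0 < P.δ} {T : ℝ} (he : e.Ok pt (P.X1 hδ T)) (h1 : RepA pt kap P.kap)
    (h2 : RepA pt x P.vre) : ∃ L0, k L0 = true ∧ ∀ T', toR L0 ≤ (P.X1 hδ T').L := by
  unfold eL0 at h
  obtain ⟨t, h, ht⟩ := xiT_ok h
  obtain ⟨u, h, hu⟩ := rmul_ok h
  obtain ⟨t', h, ht'⟩ := rmul_ok h
  obtain ⟨l, h, hl⟩ := lo_ok h
  rw [fI_eq] at h
  refine ⟨_, h, fun T' => (mulD_ok _ _).trans ?_⟩
  obtain ⟨ξ, e1, e2⟩ := ht pt P P.vre h1.rep he.ik.rep h2.rep le_rfl
  have e3 := hl _ _ (th_c (ht' _ _ _ (hu _ _ _ he.c1.rep he.c1.rep) e1)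
    (w := ((2 * P.kap)⁻¹ * (2 * P.kap)⁻¹ * ξ : ℝ)) (by push_cast; simp [Par.X1]))
  rw [ofReal_re] at e3
  have e4 := mul_le_mul_of_nonneg_left e2 (mul_self_nonneg (2 * P.kap)⁻¹)
  rw [b2_seven]
  change _ ≤ 4 * (2 * P.kap)⁻¹ ^ 2 * 1 * P.Xi
  nlinarith

/-- the upper strip -/
def tLf (B m n : ℕ) (b : B2x) : Bool :=
  cond (Nat.beq n 0) (ltI (hU b.a2) b.b1 || (leI 0 b.a1 && ltI b.c2 (hD b.a1)))
    (eVar b fun kap x v _ => mkT1 kap v fun C e => eL0 e kap x fun L0 => incT B m C e L0 n)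

theorem tLf_ok {B m : ℕ} (hB : ClsOk B 0 m) (n : ℕ) (b : B2x) (h : tLf B m n b = true) :
    Cv GU b := by
  intro u v w hb P T hR e1 e2 e3 hy
  subst e1 e2 e3
  unfold tLf at h
  cases hn : Nat.beq n 0
  · rw [hn, cond_false] at h
    obtain ⟨pt, kap, x, v, w, h, r1, r2, r3, -⟩ := eVar_ok h hb
    obtain ⟨C, e, h, hC⟩ := mkT1_ok h
    obtain ⟨hC, he⟩ := hC pt (P.X1 hR.hδ T) (P.X1_a _ _) rfl r1 r3
    obtain ⟨L0, h, hL⟩ := eL0_ok h he r1 r2
    have e := incT_ok hB h hC he (hL T)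
    exact e
  · rw [hn, cond_true, Bool.or_eq_true, Bool.and_eq_true] at h
    exfalso
    rcases h with h | ⟨h0, h⟩
    · linarith [ltI_ok h, hU_ok hb.a2, hb.b1, hR.xs]
    · linarith [ltI_ok h, hD_ok h0 hb.a1, hb.c2]

def endB (e : TE) (t : TK) (v : TM) (a : Ac) (ku : ℕ) : End :=
  cond (Nat.beq ku 2) (endM t v a) (endT e a ku)

theorem endB_ok {e : TE} {t : TK} {v : TM} {a : Ac} {x : Pt} {X : TX} (h1 : X.a = 1)
    (h2 : X.m2 = 1) (he : e.Ok x X) (ht : t.Ok x X.P) (hv : Rep x v (X.P.v X.T)) (ha : a.Ok X.L)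
    (ku : ℕ) (E0 : ℝ) (zc : ℂ) (hE : 0 ≤ E0) : End.Ok (endB e t v a ku) x X.J a E0 zc X.top := by
  unfold endB
  cases Nat.beq ku 2
  · exact endT_ok he ha hE _ zc
  · exact endM_ok h1 h2 ht hv ha hE zc

def lowT (t : TK) (kap x z : TM) (l : ℤ) : Bool :=
  leI bLo l && smul x bB1 fun b => addc b bB0 0 fun b => gapK t z b && smul x bLam fun u =>
  sub z u fun u => add u t.c fun u => smul kap (2 * bW) fun w => add u w fun u => hi u fun r =>
  leI r 0

/-- the term at `T + π` -/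
def bLf (B m n : ℕ) (b : B2x) : Bool :=
  cond (Nat.beq n 0) (ltI (hU b.a2) b.b1 || ltI b.c2 (-hU b.a2))
    (eVar b fun kap x _ v => mkT1 kap v fun C e => eL0 e kap x fun L0 => mkTK kap fun t =>
      Nat.blt (bits n 112 4095) m && mkAc L0 1 fun a =>
      valT C a (xtOf B n) (endD e a false) (endB e t v a (bits n 99 3)) fun z l _ M =>
      mVal e a z l M fun d r => hi d fun g => ltI r (-g) && (leI 0 b.c1 || lowT t kap x z l))

theorem bLf_ok {B m : ℕ} (hB : ClsOk B 0 m) (n : ℕ) (b : B2x) (h : bLf B m n b = true) :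
    Cv GB b := by
  intro u v w hb P T hR e1 e2 e3 hy
  subst e1 e2 e3
  unfold bLf at h
  cases hn : Nat.beq n 0
  · rw [hn, cond_false] at h
    obtain ⟨pt, kap, x, v, w, h, r1, r2, -, r3⟩ := eVar_ok h hb
    obtain ⟨C, e, h, hC⟩ := mkT1_ok h
    have a1 := P.X1_a hR.hδ (T + Real.pi)
    obtain ⟨hC, he⟩ := hC pt (P.X1 hR.hδ (T + Real.pi)) a1 rfl r1 r3
    obtain ⟨L0, h, hL⟩ := eL0_ok h he r1 r2
    obtain ⟨t, h, ht⟩ := mkTK_ok h
    replace ht := ht pt P hR.hδ r1.rep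
    rw [Bool.and_eq_true] at h
    obtain ⟨c1, h⟩ := h
    obtain ⟨a, h, -, a2, a3⟩ := mkAc_ok h
    have ha := a3 _ (hL (T + Real.pi))
    obtain ⟨z, z0, l, u, M, h, h1, h0, h2, h3, h4⟩ := valT_ok hC ha (xtOf_ok hB c1)
      (fun E0 zc hE => endD_ok he ha hE false zc) (endB_ok a1 rfl he ht r3.rep ha _) h
    obtain ⟨d, r, h, h5, g, h6, h7⟩ := mVal_ok h he ha a2 h1 h2 h3 h4
    obtain ⟨g', h, hg⟩ := hi_ok h
    rw [Bool.and_eq_true, Bool.or_eq_true] at h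
    obtain ⟨c2, h⟩ := h
    have e1 := hg _ _ h6
    have e2 := ltI_ok c2
    rw [ofReal_re] at e1
    rw [toR_neg] at e2
    refine ⟨(P.X1 hR.hδ (T + Real.pi)).dec h5 (by linarith [(abs_le.1 h7).2]), fun hw => ?_⟩
    rcases h with h | h
    · exact absurd ((toR_zero.symm.trans_le (leI_ok h)).trans hb.c1) (not_le.2 hw)
    unfold lowT at h
    rw [Bool.and_eq_true] at h
    obtain ⟨c3, h⟩ := h
    obtain ⟨b1, h, hb1⟩ := smul_ok h
    obtain ⟨b2, h, hb2⟩ := addc_ok h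
    rw [Bool.and_eq_true] at h
    obtain ⟨c4, h⟩ := h
    obtain ⟨u1, h, hu1⟩ := smul_ok h
    obtain ⟨u2, h, hu2⟩ := sub_ok h
    obtain ⟨u3, h, hu3⟩ := add_ok h
    obtain ⟨u4, h, hu4⟩ := smul_ok h
    obtain ⟨u5, h, hu5⟩ := add_ok h
    obtain ⟨r', h, hr⟩ := hi_ok h
    have f1 : ((P.X1 hR.hδ (T + Real.pi)).P.v (P.X1 hR.hδ (T + Real.pi)).T).im =
        (P.v T).im + Real.pi := by
      change (P.v (T + Real.pi)).im = _
      rw [P.v_pi]
      simp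
    have f2 := gapK_ok c4 a1 rfl ht h1.rep (b0 := toR bB0 + toR bB1 * P.vre)
      (th_c (hb2 _ _ (hb1 _ _ r2.rep)) (by rw [ser_toC]; push_cast; ring)) h0 (by linarith)
    rw [f1, add_sub_cancel_right] at f2
    change ‖P.E (T + Real.pi - Real.pi) P.wT‖ * Real.exp ((_ + P.rr * _) / P.δ) ≤ _ at f2
    rw [add_sub_cancel_right] at f2
    have f3 := (hr _ _ (hu5 _ _ _ (hu3 _ _ _ (hu2 _ _ _ h1.rep (hu1 _ _ r2.rep)) ht.c)
      (hu4 _ _ r1.rep))).trans (leI_ok h)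
    rw [toR_zero, tailB_two] at f3
    simp only [add_re, sub_re, ← ofReal_mul, ofReal_re] at f3
    have f4 : P.gain T ≤ (P.v T).im * z0.re + P.rr * (toR bB0 + toR bB1 * P.vre) := by
      have f6 : z0.re ≤ toR bLam * P.vre - 2 * P.kap / (1 + P.k2) - 2 * P.kap * toR bW := by
        change z0.re - P.vre * toR bLam + 2 * P.kap / (1 + P.k2) + P.kap * (2 * toR bW) ≤ 0 at f3
        linarith
      exact add_le_add (mul_le_mul_of_nonpos_left f6 hw.le) le_rfl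
    have f5 : ‖P.E T P.wT‖ * Real.exp (P.gain T / P.δ) ≤ ‖(P.X1 hR.hδ (T + Real.pi)).J.E z0‖ :=
      le_trans (mul_le_mul_of_nonneg_left (Real.exp_le_exp.2
        (div_le_div_of_nonneg_right f4 hR.hδ.le)) (norm_nonneg _)) f2
    rw [P.X1_L, Real.sqrt_inv] at h3
    simp only [Bool.false_eq_true, if_false, sub_zero] at h3
    rw [P.X1_top] at h3
    have f6 := Real.sqrt_pos.2 hR.hδ
    have b0 : 0 ≤ toR bLo := by unfold toR bLo; norm_num
    have f7 := (mul_le_mul f5 (leI_ok c3) b0 (norm_nonneg _)).trans h3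
    rw [le_inv_mul_iff₀ f6] at f7
    unfold Par.Low
    linarith
  · rw [hn, cond_true, Bool.or_eq_true] at h
    exfalso
    rcases h with h | h
    · linarith [ltI_ok h, hU_ok hb.a2, hb.b1, hR.xs]
    · have := ltI_ok h
      rw [toR_neg] at this
      linarith [hU_ok hb.a2, hb.c2]

/-- the lower strip -/
def wLf (B m n : ℕ) (b : B2x) : Bool :=
  cond (Nat.beq n 0) (ltI (hU b.a2) b.b1 || (leI 0 b.a1 && ltI (-hD b.a1) b.c1))
    (eVar b fun kap x v w => mkT1 kap w fun C e => eL0 e kap x fun L0 => mkTK kap fun t =>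
      fN (Nat.shiftRight n 16) fun p => fN (Nat.shiftRight n (bits n 0 65535)) fun q =>
      Nat.blt (bits p 112 4095) m && mkAc L0 0 fun a =>
      valT C a (xtOf B p) (endD e a false) (endB e t w a (bits p 99 3)) fun z l _ _ =>
      hT t w z fun H => sub t.c x fun c => piT fun π => rmul π c fun c => add H c fun H =>
      mkT1 kap v fun C e => cst (fz q 0) (fz q 32) fun z => newton C (bits q 96 7) z fun z =>
      strip z fun z => hT t v z fun H' => sub H H' fun H => lo H fun g =>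
      fI (g - fz q 64) fun g => leI 0 g &&
      entryU C a z (fz q 64) (utD q) (utU q) (endD e a false) (endT e a (bits q 99 3)) fun I _ =>
      ltI (mulU I (expU (-mulD L0 g))) l)

theorem wLf_ok {B m : ℕ} (hB : ClsOk B 0 m) (n : ℕ) (b : B2x) (h : wLf B m n b = true) :
    Cv GW b := by
  intro u v w hb P T hR e1 e2 e3 hy
  subst e1 e2 e3
  unfold wLf at h
  cases hn : Nat.beq n 0
  · rw [hn, cond_false] at h
    have hδ := hR.hδ
    obtain ⟨pt, kap, x, v, w, h, r1, r2, r4, r3⟩ := eVar_ok h hb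
    obtain ⟨C, e, h, hC⟩ := mkT1_ok h
    have a1 := P.X1_a hδ (T + Real.pi)
    have a0 := P.X1_a hδ T
    obtain ⟨hC, he⟩ := hC pt (P.X1 hδ (T + Real.pi)) a1 rfl r1 r3
    obtain ⟨L0, h, hL⟩ := eL0_ok h he r1 r2
    obtain ⟨t, h, ht⟩ := mkTK_ok h
    replace ht := ht pt P hδ r1.rep
    rw [fN_eq, fN_eq, Bool.and_eq_true] at h
    obtain ⟨c1, h⟩ := h
    obtain ⟨a, h, -, -, a3⟩ := mkAc_ok h
    have ha := a3 _ (hL (T + Real.pi))
    have ha' := a3 _ (hL T)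
    obtain ⟨z, z0, l, u, M, h, h1, -, h2, h3, -⟩ := valT_ok hC ha (xtOf_ok hB c1)
      (fun E0 zc hE => endD_ok he ha hE false zc) (endB_ok a1 rfl he ht r3.rep ha _) h
    obtain ⟨H1, h, hH1⟩ := hT_ok h
    obtain ⟨d1, hH1⟩ := hH1 pt P _ _ hδ ht r3.rep h1.rep
    obtain ⟨c, h, hc⟩ := sub_ok h
    obtain ⟨π, h, hπ⟩ := piT_ok h
    obtain ⟨c', h, hc'⟩ := rmul_ok h
    obtain ⟨H2, h, hH2⟩ := add_ok h
    obtain ⟨C', e', h, hC'⟩ := mkT1_ok h
    obtain ⟨hC', he'⟩ := hC' pt (P.X1 hδ T) a0 rfl r1 r4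
    obtain ⟨y1, h, -⟩ := cst_ok h
    obtain ⟨y2, h⟩ := tla_newton hC' h
    obtain ⟨y, h, f, hf⟩ := strip_ok h
    have r5 : RepA pt y (f pt.x0 pt.x1 pt.x2) := fun s hs => hf (pt.set3 s hs)
    generalize f pt.x0 pt.x1 pt.x2 = y0 at r5
    obtain ⟨H3, h, hH3⟩ := hT_ok h
    obtain ⟨d2, hH3⟩ := hH3 pt P _ _ hδ ht r4.rep r5.rep
    obtain ⟨H4, h, hH4⟩ := sub_ok h
    obtain ⟨g, h, hg⟩ := lo_ok h
    rw [fI_eq, Bool.and_eq_true] at h
    obtain ⟨c2, h⟩ := h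
    generalize fz (n.shiftRight (bits n 0 65535)) 64 = η at h c2
    have hE : 0 ≤ ‖(P.X1 hδ T).J.E y0‖ * Real.exp ((P.X1 hδ T).L * toR η) := by positivity
    obtain ⟨I', M', h, hI, -⟩ := entryU_ok hC' ha' r5
      (by rw [mul_assoc, ← Real.exp_add, TX.J_L, add_neg_cancel, Real.exp_zero, mul_one]) hE
      (endD_ok he' ha' hE false y0) (endT_ok he' ha' hE _ y0) h
    have f1 := hg _ _ (hH4 _ _ _ (hH2 _ _ _ hH1 (hc' _ _ _ (hπ pt) (hc _ _ _ ht.c r2.rep))) hH3)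
    simp only [← ofReal_mul, ← ofReal_sub, ← ofReal_add, ofReal_re] at f1
    have f2 := TX.height a1 d1
    have f3 := TX.height a0 d2
    have f4 := Par.height_shift (P := P) (T + Real.pi)
    rw [add_sub_cancel_right] at f4
    change _ = ‖P.E (T + Real.pi) P.wT‖ * Real.exp (P.Hh (T + Real.pi) z0 / P.δ) at f2
    change _ = ‖P.E T P.wT‖ * Real.exp (P.Hh T y0 / P.δ) at f3
    change _ = _ * Real.exp (Real.pi * (P.cc - P.vre) / P.δ) at f4
    simp only [Bool.false_eq_true, if_false, sub_zero] at h3 hI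
    rw [TX.J_L, f3, P.X1_top, P.X1_L] at hI
    rw [f2, f4, P.X1_top, P.X1_L] at h3
    have hL' := hL T
    rw [P.X1_L] at hL'
    have E0 : 0 < ‖P.E T P.wT‖ := by
      rw [f2, f4] at h2
      exact (mul_pos_iff_of_pos_right (Real.exp_pos _)).1
        ((mul_pos_iff_of_pos_right (Real.exp_pos _)).1 h2)
    have I0 : 0 ≤ toR I' := (mul_nonneg_iff_of_pos_left (by positivity)).1
      (le_trans (by positivity) hI)
    have g0 := leI_ok c2
    rw [toR_zero] at g0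
    have f5 : toR I' * Real.exp (-(P.δ⁻¹ * toR (g - η))) < toR l := by
      refine lt_of_le_of_lt (mulU_le I0 (Real.exp_pos _).le le_rfl
        (le_trans (Real.exp_le_exp.2 ?_) (expU_ok _))) (ltI_ok h)
      rw [toR_neg]
      exact neg_le_neg ((mulD_ok _ _).trans (mul_le_mul_of_nonneg_right hL' g0))
    have l0 : 0 ≤ toR l := le_trans (by positivity) f5.le
    have f6 : P.Hh T y0 / P.δ + P.δ⁻¹ * toR η + P.δ⁻¹ * toR (g - η) ≤
        Real.pi * (P.cc - P.vre) / P.δ + P.Hh (T + Real.pi) z0 / P.δ := by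
      have := mul_le_mul_of_nonneg_left f1 (inv_pos.2 hδ).le
      rw [toR_sub]
      simp only [div_eq_inv_mul]
      linarith
    refine lt_of_mul_lt_mul_left (lt_of_le_of_lt hI (lt_of_lt_of_le ?_ h3)) (Real.sqrt_nonneg _)
    calc ‖P.E T P.wT‖ * Real.exp (P.Hh T y0 / P.δ) * Real.exp (P.δ⁻¹ * toR η) * toR I'
        = ‖P.E T P.wT‖ * Real.exp (P.Hh T y0 / P.δ + P.δ⁻¹ * toR η + P.δ⁻¹ * toR (g - η)) *
          (toR I' * Real.exp (-(P.δ⁻¹ * toR (g - η)))) := by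
          rw [Real.exp_add, Real.exp_add, Real.exp_neg]
          field_simp
      _ < ‖P.E T P.wT‖ * Real.exp (P.Hh T y0 / P.δ + P.δ⁻¹ * toR η + P.δ⁻¹ * toR (g - η)) *
          toR l := mul_lt_mul_of_pos_left f5 (by positivity)
      _ ≤ ‖P.E T P.wT‖ * Real.exp (Real.pi * (P.cc - P.vre) / P.δ +
          P.Hh (T + Real.pi) z0 / P.δ) * toR l := by gcongr
      _ = _ := by rw [Real.exp_add]; ring
  · rw [hn, cond_true, Bool.or_eq_true, Bool.and_eq_true] at h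
    exfalso
    rcases h with h | ⟨h0, h⟩
    · linarith [ltI_ok h, hU_ok hb.a2, hb.b1, hR.xs]
    · have := ltI_ok h
      rw [toR_neg] at this
      linarith [hD_ok h0 hb.a1, hb.c1]

theorem b2_polar {v : ℂ} (h : v ≠ 0) : ∃ (j : ℕ) (m p : ℝ), j < 4 ∧ 0 < m ∧ |p| ≤ 1 ∧
    (m = |v.re| ∨ m = |v.im|) ∧ v = m * (I ^ j * (1 + I * p)) := by
  have key : ∀ w : ℂ, 0 < w.re → |w.im| ≤ w.re → ∃ p : ℝ, |p| ≤ 1 ∧ w = w.re * (1 + I * p) :=
    fun w h1 h2 => ⟨w.im / w.re, by rwa [abs_div, abs_of_pos h1, div_le_one h1], by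
      apply Complex.ext <;> simp
      field_simp⟩
  rcases le_total |v.im| |v.re| with e | e
  · rcases lt_trichotomy v.re 0 with f | f | f
    · obtain ⟨p, p1, p2⟩ := key (-v) (by simpa using f) (by simpa [abs_of_neg f] using e)
      refine ⟨2, -v.re, p, by norm_num, by linarith, p1, Or.inl (abs_of_neg f).symm, ?_⟩
      rw [neg_re] at p2
      rw [I_sq]
      linear_combination -p2
    · refine absurd (Complex.ext f ?_) h
      rw [f, abs_zero] at e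
      exact abs_nonpos_iff.1 e
    · obtain ⟨p, p1, p2⟩ := key v f (by rwa [abs_of_pos f] at e)
      exact ⟨0, v.re, p, by norm_num, f, p1, Or.inl (abs_of_pos f).symm, by
        rw [pow_zero, one_mul]; exact p2⟩
  · rcases lt_trichotomy v.im 0 with f | f | f
    · obtain ⟨p, p1, p2⟩ := key (I * v) (by simpa using f) (by simpa [abs_of_neg f] using e)
      refine ⟨3, -v.im, p, by norm_num, by linarith, p1, Or.inr (abs_of_neg f).symm, ?_⟩
      rw [show (I * v).re = -v.im by simp] at p2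
      linear_combination I ^ 3 * p2 - v * I_pow_four
    · refine absurd (Complex.ext ?_ f) h
      rw [f, abs_zero] at e
      exact abs_nonpos_iff.1 e
    · obtain ⟨p, p1, p2⟩ := key (-(I * v)) (by simpa using f) (by simpa [abs_of_pos f] using e)
      refine ⟨1, v.im, p, by norm_num, f, p1, Or.inr (abs_of_pos f).symm, ?_⟩
      rw [show (-(I * v)).re = v.im by simp] at p2
      linear_combination I * p2 + v * I_mul_I

def bYa : ℤ := 307862962176
def bYb : ℤ := -2748779069440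
def bYc : ℤ := -824633720832

theorem b2_square (hR : ∀ j < 4, Cv (GR j) ⟨bK, one, 0, bS, -one, one⟩)
    (hC : Cv GC ⟨bK, one, 0, one, 0, 0⟩) {P : Par} (h : P.Reg) {T : ℝ} (h1 : (P.v T).im ≤ toR bY)
    (h2 : |(P.v T).im| ≤ 2 * P.kap * toR bS ^ 2) : P.GA T := by
  have hk := Par.kap_pos h.hδ
  have k0 : 39 / 100 ≤ P.kap := le_trans (by unfold toR bK; norm_num) h.k
  have k1 : P.kap ≤ toR one := by rw [toR_one]; exact P.kap_lt.le
  have s0 : 0 ≤ toR bS := by unfold toR bS; norm_num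
  have s1 : 36 / 100 ≤ toR bS ^ 2 := by unfold toR bS; norm_num
  have s2 : toR bS ^ 2 ≤ 1 / 2 := by unfold toR bS; norm_num
  have hX := P.Xi_pos
  obtain ⟨s, hs, e⟩ : ∃ s : ℝ, 0 < s ∧ s ^ 3 = (4 * P.Xi)⁻¹ :=
    ⟨(4 * P.Xi)⁻¹ ^ ((3 : ℕ) : ℝ)⁻¹, by positivity,
      Real.rpow_inv_natCast_pow (by positivity) three_ne_zero⟩
  have e1 : 4 * s ^ 2 * s * P.Xi = 1 := by
    rw [show 4 * s ^ 2 * s * P.Xi = s ^ 3 * (4 * P.Xi) by ring, e, inv_mul_cancel₀ (by positivity)]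
  have hc : (2 * P.kap * s ^ 2 : ℂ) ≠ 0 := by
    exact_mod_cast (by positivity : 2 * P.kap * s ^ 2 ≠ 0)
  obtain ⟨ζ, hζ⟩ : ∃ ζ, P.v T = 2 * P.kap * s ^ 2 * ζ :=
    ⟨P.v T / (2 * P.kap * s ^ 2), (mul_div_cancel₀ _ hc).symm⟩
  rcases le_or_gt ‖ζ‖ (toR bZ) with hz | hz
  · have e2 : s ≤ 1 := by
      refine le_of_not_gt fun e3 => ?_
      have e4 := P.Xi_ge'
      have e5 : 1 ≤ Real.exp (2 * P.kap / (1 + P.k2) - P.vre) := by
        refine Real.one_le_exp (sub_nonneg.2 (h.xs.trans ?_))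
        rw [le_div_iff₀ (by linarith [P.k2_nonneg])]
        have : toR bS ^ 2 * (1 + P.k2) ≤ 1 := by nlinarith [P.k2_lt]
        nlinarith
      have e6 : 1 ≤ (1 + P.kap) ^ 2 * (1 + P.k2) * Real.exp (2 * P.kap / (1 + P.k2) - P.vre) :=
        one_le_mul_of_one_le_of_one_le (one_le_mul_of_one_le_of_one_le
          (one_le_pow₀ (by linarith)) (by linarith [P.k2_nonneg])) e5
      have e7 := P.k4_pos
      have e8 : 1 ≤ s ^ 2 * s := one_le_mul_of_one_le_of_one_le (one_le_pow₀ e3.le) e3.le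
      nlinarith
    exact hC P.kap s 0 ⟨h.k, k1, toR_zero.trans_le hs.le, e2.trans toR_one.ge, toR_zero.le,
      toR_zero.ge⟩ ⟨P, T, s, s, h.hδ, hs, hs⟩ ζ h ⟨rfl, e1, hζ⟩ rfl rfl hz
  · have z0 : 0 < toR bZ := by unfold toR bZ; norm_num
    obtain ⟨j, m, p, hj, hm, hp, h3, h4⟩ := b2_polar (v := P.v T) (by
      rw [hζ]
      exact mul_ne_zero hc (norm_pos_iff.1 (z0.trans hz)))
    have e2 : m ≤ 2 * P.kap * toR bS ^ 2 := by
      rcases h3 with h3 | h3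
      · rw [h3]
        have x0 : -(27 / 100) ≤ P.vre := le_trans (by unfold toR bX0; norm_num) h.x0
        exact abs_le.2 ⟨le_trans (by nlinarith) x0, h.xs⟩
      · rwa [h3]
    obtain ⟨r, hr, e3⟩ : ∃ r : ℝ, 0 < r ∧ m = 2 * P.kap * r ^ 2 :=
      ⟨Real.sqrt (m / (2 * P.kap)), Real.sqrt_pos.2 (by positivity), by
        rw [Real.sq_sqrt (by positivity)]
        field_simp⟩
    have e4 : r ≤ toR bS := by
      rw [e3] at e2
      exact (sq_le_sq₀ hr.le s0).1 (le_of_mul_le_mul_left e2 (by positivity))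
    refine hR j hj P.kap r p ⟨h.k, k1, toR_zero.trans_le hr.le, e4, ?_, ?_⟩
      ⟨P, T, r, r, h.hδ, hr, hr⟩ h rfl rfl rfl ?_ h1 ?_
    · rw [toR_neg, toR_one]
      exact (abs_le.1 hp).1
    · rw [toR_one]
      exact (abs_le.1 hp).2
    · change P.v T = 2 * P.kap * (r : ℂ) ^ 2 * _
      rw [h4, e3]
      push_cast
      rfl
    · have e5 := congrArg norm (hζ.symm.trans h4)
      rw [e3] at e5
      simp only [norm_mul, norm_pow, norm_I, one_pow, one_mul, Complex.norm_real, Real.norm_eq_abs,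
        abs_of_pos hk, abs_of_pos hr, abs_of_pos hs, Complex.norm_ofNat,
        abs_two] at e5
      have e6 : ‖ζ‖ = r ^ 2 * ‖1 + I * p‖ / s ^ 2 := by
        rw [eq_div_iff (by positivity)]
        exact mul_left_cancel₀ (by positivity : 2 * P.kap ≠ 0) (by linarith)
      have e7 : (4 * r ^ 2 * r * P.Xi) ^ 2 * ‖1 + I * p‖ ^ 3 = ‖ζ‖ ^ 3 := by
        have e8 : P.Xi = 1 / (4 * s ^ 2 * s) := by
          rw [eq_div_iff (by positivity)]
          linarith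
        rw [e6, e8]
        field_simp
      change _ ≤ (4 * r ^ 2 * r * P.Xi) ^ 2 * _
      rw [e7]
      exact pow_le_pow_left₀ z0.le hz.le 3

/-- the conclusion from the five covers -/
theorem b2_final (hR : ∀ j < 4, Cv (GR j) ⟨bK, one, 0, bS, -one, one⟩)
    (hC : Cv GC ⟨bK, one, 0, one, 0, 0⟩) (hT : Cv GU ⟨bK, one, bX0, bX1, bYa, bY⟩)
    (hD : Cv GW ⟨bK, one, bX0, bX1, bYb, -bYa⟩) (hB : Cv GB ⟨bK, one, bX0, bX1, bYc, bY⟩)
    {P : Par} (h : P.Reg) : P.Uniq 2 := by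
  refine uniq_two P (toR bY - Real.pi - P.vim) fun T t1 t2 => ?_
  have k1 : P.kap ≤ toR one := by rw [toR_one]; exact P.kap_lt.le
  have y1 : (P.v T).im ≤ toR bY := by change T + P.vim ≤ _; linarith
  have y2 : toR bY - Real.pi ≤ (P.v T).im := by change _ ≤ T + P.vim; linarith
  have s1 : toR bYa ≤ 2 * P.kap * toR bS ^ 2 :=
    le_trans (by unfold toR bYa bK bS; norm_num : _ ≤ 2 * toR bK * toR bS ^ 2)
      (mul_le_mul_of_nonneg_right (by linarith [h.k]) (sq_nonneg _))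
  have s2 : 2 * P.kap * toR bS ^ 2 ≤ -toR bYc :=
    le_trans (mul_le_mul_of_nonneg_right (by linarith [P.kap_lt]) (sq_nonneg _))
      (by unfold toR bYc bS; norm_num : 2 * 1 * toR bS ^ 2 ≤ _)
  have s3 : 0 ≤ toR bYa := by unfold toR bYa; norm_num
  rcases le_total (P.v T).im (-(2 * P.kap * toR bS ^ 2)) with e | e
  · refine Or.inr (Par.Dm.lt h.hδ (hD _ _ _ ⟨h.k, k1, h.x0, h.x1, ?_, ?_⟩ P T h rfl rfl rfl e))
    · have e1 : toR bYb + 3.1416 ≤ toR bY := by unfold toR bYb bY; norm_num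
      linarith [Real.pi_lt_d4]
    · rw [toR_neg]
      linarith
  obtain ⟨b1, b2⟩ := hB _ _ _ ⟨h.k, k1, h.x0, h.x1, by linarith, y1⟩ P T h rfl rfl rfl e
  rcases le_total (2 * P.kap * toR bS ^ 2) (P.v T).im with e' | e'
  · exact Or.inl ⟨hT _ _ _ ⟨h.k, k1, h.x0, h.x1, by linarith, y1⟩ P T h rfl rfl rfl e', b1⟩
  rcases b2_square hR hC h y1 (abs_le.2 ⟨e, e'⟩) with g | ⟨g1, g2⟩
  · exact Or.inl ⟨g, b1⟩
  · exact Or.inr (Par.Dm.lt h.hδ (g2 (b2 g1)))

end Pool.Agent.Sok
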