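import Pool.Agent.Sok.B2D.R

/-! Denominator two near the turning point: everything except the disc. -/

namespace Pool.Agent.Sok

theorem inB2_of (h : ClsOk clsB 0 920) (hC : Cv GC ⟨bK, one, 0, one, 0, 0⟩) {b : Box}
    (hb : inB2 b = true) (P : Par) (hP : b.Mem P) : P.Uniq 2 := by
  refine b2_final (fun j hj => ?_) hC (b2t h) (b2d h) (b2b h) (inB2_reg hb hP)
  interval_cases j
  exacts [b2r0 h, b2r1 h, b2r2 h, b2r3 h]

end Pool.Agent.Sok
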