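import Pool.Agent.Sok.Side
import Pool.Agent.Sok.Zak

/-! Dominance and monotonicity checks; uniqueness of the zero for one column and denominator. -/

set_option autoImplicit false

namespace Pool.Agent.Sok

/-- the entries of a column -/
structure Tab where
  xs : List FX
  us : List FU
  is : List FI

def Tab.Ok (t : Tab) (b : Box) : Prop :=
  (∀ f ∈ t.xs, f.Ok b) ∧ (∀ f ∈ t.us, f.Ok b) ∧ ∀ f ∈ t.is, f.Ok b

def Box.sub (b b' : Box) : Bool :=
  leI b'.pl b.pl && leI b.ph b'.ph && leI b'.tl b.tl && leI b.th b'.th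

theorem ca_sub {b b' : Box} (hb : b.sub b' = true) {P : Par} (h : b.Mem P) : b'.Mem P := by
  simp only [Box.sub, Bool.and_eq_true] at hb
  exact ⟨(leI_ok hb.1.1.1).trans h.1, h.2.1.trans (leI_ok hb.1.1.2),
    (leI_ok hb.1.2).trans h.2.2.1, h.2.2.2.trans (leI_ok hb.2)⟩

theorem Tab.Ok.mono {t : Tab} {b b' : Box} (h : t.Ok b') (hb : b.sub b' = true) : t.Ok b :=
  ⟨fun f hf => ⟨fun P hP => (h.1 f hf).1 P (ca_sub hb hP), (h.1 f hf).2.1,
      fun P hP => (h.1 f hf).2.2 P (ca_sub hb hP)⟩,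
    fun f hf P hP => h.2.1 f hf P (ca_sub hb hP), fun f hf P hP => h.2.2 f hf P (ca_sub hb hP)⟩

def Tab.app (t s : Tab) : Tab := ⟨t.xs ++ s.xs, t.us ++ s.us, t.is ++ s.is⟩

theorem Tab.Ok.app {t s : Tab} {b : Box} (h : t.Ok b) (h' : s.Ok b) : (t.app s).Ok b :=
  ⟨fun f hf => (List.mem_append.1 hf).elim (h.1 f) (h'.1 f),
    fun f hf => (List.mem_append.1 hf).elim (h.2.1 f) (h'.2.1 f),
    fun f hf => (List.mem_append.1 hf).elim (h.2.2 f) (h'.2.2 f)⟩

def nth {α : Type} : List α → ℕ → List α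
  | [], _ => []
  | a :: _, 0 => [a]
  | _ :: l, n + 1 => nth l n

def pickX (t : Tab) : List ℕ → List FX
  | [] => []
  | i :: l => nth t.xs i ++ pickX t l

/-- even numbers refer to `us`, odd numbers to `xs` -/
def pickU (t : Tab) : List ℕ → List FU
  | [] => []
  | i :: l => cond (Nat.beq (i % 2) 0) (nth t.us (i / 2)) ((nth t.xs (i / 2)).map FX.toFU) ++
      pickU t l

/-- The cuts. For a known denominator `k0` is the index of the special cut (for complete pieces,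
`1 - k0` is the number of upper pieces); for an unknown denominator `k0 = -((b-1)/2)`, `xc = xu`. -/
structure Cut where
  full : Bool
  k0 : ℤ
  xl : ℤ
  xc : ℤ
  xu : ℤ

def Cut.x (g : Cut) (k : ℤ) : ℤ := cond (ltI g.k0 k) g.xu (cond (ltI k g.k0) g.xl g.xc)

/-- the piece of index `j` on the side `pos`; `b = 0` stands for an unknown denominator, where it
is the piece inside the window -/
def Cut.pc (g : Cut) (b : ℕ) (pos : Bool) (j : ℕ) : Pc :=
  cond g.full ⟨true, 0, 0⟩ (cond (Nat.beq b 0) ⟨false, g.xl, g.xu⟩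
    (cond pos ⟨false, g.x (-j - b), g.x (-j)⟩ ⟨false, g.x (j + 1 - b), g.x (j + 1)⟩))

/-- `3/4`: a spacing below this bound leaves at least four pieces on each side -/
def d34 : ℤ := 824633720832

def Cut.chk (g : Cut) (bx : Box) (b : ℕ) (cx : Cx) : Bool :=
  (g.full || (ltI 0 bx.tl && ltI g.xl 0 && ltI 0 g.xu)) &&
  cond (Nat.beq b 0) (leI cx.Dh d34) (!g.full || (leI g.k0 0 && leI (2 - g.k0) b))

structure SideC where
  ones : List (List ℕ)
  geo : List ℕ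
  img : ℕ

/-- the sums over the pieces `j ≥ j0` of one side -/
def side (cx : Cx) (t : Tab) (g : Cut) (b : ℕ) (R : Rf) (pos : Bool) (j0 : ℕ) (d : SideC)
    (k : ℤ → ℤ → ℤ → Bool) : Bool :=
  R.chk && ones cx R pos (g.pc b pos) (d.ones.map (pickU t)) j0 0 0 0 fun j s0 s1 s2 =>
  cond (Nat.beq b 0)
    (Nat.ble j 4 &&
      coversS pos (mulD (R.k1 + j * one) cx.Dl) (cond pos (piU + mulU half cx.Dh) piU)
        (pickU t d.geo) &&
      geoL cx R j (g.pc 0 pos 0) (pickU t d.geo) s0 s1 s2 fun s0 s1 s2 =>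
      cond g.full (k s0 s1 s2)
        (match nth t.is d.img with
          | [] => false
          | f :: _ => (f.pos == pos) && f.pc.beq (cond pos ⟨false, g.xl, g.xl⟩ ⟨false, g.xu, g.xu⟩) &&
              leI f.TI (cond pos piD (piD - mulU half cx.Dh)) && imgG cx R f s0 s1 s2 k))
    (cond g.full
      (leI j (cond pos (1 - g.k0) (b - 1 + g.k0)) && leI (cond pos (1 - g.k0) (b - 1 + g.k0)) j &&
        k s0 s1 s2)
      (match nth t.is d.img with
        | [] => false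
        | f :: _ => (f.pos == pos) &&
            f.pc.beq (cond pos ⟨false, g.xl, g.xl⟩ ⟨false, g.xu, g.xu⟩) &&
            cond pos (ltI (-j) g.k0)
              (ltI g.k0 (j + 1 - b) || (leI g.k0 (j + 1 - b) && leI g.xc g.xu && leI g.xu g.xc)) &&
            imgX cx R j f s0 s1 s2 k))

/-- worst constants of a list of dominant entries -/
def aggr (g : Pc) : List FX → FX → (FX → Bool) → Bool
  | [], a, k => k a
  | f :: l, a, k => f.g.beq g && fI (minI a.lo f.lo) fun lo => fI (maxI a.hi f.hi) fun hi =>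
      fI (minI a.hl f.hl) fun hl => fI (maxI a.hh f.hh) fun hh => fI (minI a.m f.m) fun m =>
      fI (maxI a.z f.z) fun z => fI (maxI a.sb f.sb) fun sb =>
      aggr g l { a with lo := lo, hi := hi, hl := hl, hh := hh, m := m, z := z, sb := sb } k

/-- the dominant piece of the side `pos` for `k ∈ [k1, k2]` -/
def prin (cx : Cx) (t : Tab) (g : Cut) (b : ℕ) (pos : Bool) (k1 k2 : ℤ) (l : List ℕ)
    (k : FX → Bool) : Bool :=
  coversS pos (mulD k1 cx.Dl) (mulU k2 cx.Dh) ((pickX t l).map FX.toFU) &&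
  match pickX t l with
  | [] => false
  | f :: l' => aggr (g.pc b pos 0) (f :: l') f fun a =>
      leI a.hl 0 && leI a.hh 0 && leI 0 a.z && leI 0 a.sb && k a

structure DC where
  g : Cut
  up : Bool
  κ1 : ℤ
  κ2 : ℤ
  pr : List ℕ
  sU : SideC
  sL : SideC

/-- the continuation gets the relative size of the other terms -/
def valD (bx : Box) (cx : Cx) (t : Tab) (b : ℕ) (d : DC) (k : ℤ → Bool) : Bool :=
  d.g.chk bx b cx && fI (one - d.κ2) fun l1 => fI (one - d.κ1) fun l2 =>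
  cond d.up
    (prin cx t d.g b true d.κ1 d.κ2 d.pr fun a =>
      side cx t d.g b ⟨d.κ1, d.κ2, d.κ1, d.κ2, a.lo, -a.hl, one, one, 0, 0⟩ true 1 d.sU fun u _ _ =>
      side cx t d.g b ⟨l1, l2, d.κ2, d.κ1, a.lo, -a.hl, one, one, 0, 0⟩ false 0 d.sL fun v _ _ =>
      k (u + v))
    (prin cx t d.g b false l1 l2 d.pr fun a =>
      side cx t d.g b ⟨d.κ1, d.κ2, l2, l1, a.lo, -a.hl, one, one, 0, 0⟩ true 0 d.sU fun u _ _ =>
      side cx t d.g b ⟨l1, l2, l1, l2, a.lo, -a.hl, one, one, 0, 0⟩ false 1 d.sL fun v _ _ =>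
      k (u + v))

def chkD (bx : Box) (cx : Cx) (t : Tab) (b : ℕ) (d : DC) : Bool :=
  valD bx cx t b d fun v => ltI v one

structure MI where
  κ2 : ℤ
  pU : List ℕ
  pL : List ℕ
  sU : SideC
  sL : SideC

structure MC where
  g : Cut
  B : ℤ
  g0 : ℤ
  K1 : ℤ
  K2 : ℤ
  l : List MI

/-- bound for the ratio of the piece `c` at `kc` to the piece `a` at `ka` -/
def ratio (cx : Cx) (Q : ℤ) (a c : FX) (ka kc : ℤ) : ℤ :=
  let y := mulD (mulD kc kc) (-c.hh) - mulU (mulU ka ka) (-a.hl)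
  cond (ltI y 0) Q (minI Q (mulU (divU c.hi a.lo) (expU (-(mulD cx.ν y)))))

/-- the continuation gets `g0 B K1 K2` on `[κ1, d.κ2]` -/
def valM1 (cx : Cx) (t : Tab) (b : ℕ) (g : Cut) (Q Q2 κ1 : ℤ) (d : MI)
    (k : ℤ → ℤ → ℤ → ℤ → Bool) : Bool :=
  fI (one - d.κ2) fun l1 => fI (one - κ1) fun l2 =>
  prin cx t g b true κ1 d.κ2 d.pU fun a => prin cx t g b false l1 l2 d.pL fun c =>
  fI (minI (mulD κ1 a.m + mulD l2 c.m) (mulD d.κ2 a.m + mulD l1 c.m) - mulU (a.sb + c.sb) cx.q)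
  fun g0 => fI (mulU d.κ2 a.z + mulU a.sb cx.q) fun z0 => fI (mulU l2 c.z + mulU c.sb cx.q) fun z1 =>
  fI (mulU (ratio cx Q a c d.κ2 l1) Q2) fun Y => fI (mulU (ratio cx Q c a l2 κ1) Q2) fun Y' =>
  side cx t g b ⟨κ1, d.κ2, κ1, d.κ2, a.lo, -a.hl, Y, Q2, z0, z1⟩ true 1 d.sU fun u0 u1 u2 =>
  side cx t g b ⟨l1, l2, l1, l2, c.lo, -c.hl, Y', Q2, z1, z0⟩ false 1 d.sL fun v0 v1 v2 =>
  k g0 (u0 + v0) (u1 + v1) (u2 + v2)

def chkMl (cx : Cx) (t : Tab) (b : ℕ) (m : MC) (Q Q2 : ℤ) : List MI → ℤ → (ℤ → Bool) → Bool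
  | [], κ, k => k κ
  | d :: l, κ, k => valM1 cx t b m.g Q Q2 κ d (fun g0 B K1 K2 =>
      leI m.g0 g0 && leI B m.B && leI K1 m.K1 && leI K2 m.K2) && chkMl cx t b m Q Q2 l d.κ2 k

/-- checks the interval starting at `κ`; the continuation gets its right end -/
def chkMon (bx : Box) (cx : Cx) (t : Tab) (b : ℕ) (m : MC) (κ : ℤ) (k : ℤ → Bool) : Bool :=
  m.g.chk bx b cx && leI 0 m.B && ltI (3 * m.B) one && ltI m.K1 one && leI 0 m.g0 &&
  ltI m.K2 (mulD (mulD m.g0 (one - m.B)) (one - m.K1)) &&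
  fI (divU one (one - m.B)) fun Q => fI (one - mulU m.B Q) fun e => ltI 0 e &&
  fI (divU one e) fun Q2 => chkMl cx t b m Q Q2 m.l κ k

def chkDl (bx : Box) (cx : Cx) (t : Tab) (b : ℕ) : List DC → ℤ → (ℤ → Bool) → Bool
  | [], κ, k => k κ
  | d :: l, κ, k => leI d.κ1 κ && chkD bx cx t b d && chkDl bx cx t b l d.κ2 k

/-- the denominators covered: `b` itself, or, for `b = 0`, those with `2π/b ∈ [Dl, Dh]` -/
structure Case where
  b : ℕ
  Dl : ℤ
  Dh : ℤ

def Case.chk (c : Case) : Bool :=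
  Nat.beq c.b 0 || (leI (c.b * c.Dl) (2 * piD) && leI (2 * piU) (c.b * c.Dh))

def Case.Mem (c : Case) (b : ℕ) : Prop :=
  if c.b = 0 then toR c.Dl ≤ 2 * Real.pi / b ∧ 2 * Real.pi / b ≤ toR c.Dh else b = c.b

structure CaseC where
  c : Case
  dL : List DC
  m : MC
  dR : List DC

def chkCase (col : Col) (bx : Box) (t : Tab) (d : CaseC) : Bool :=
  d.c.chk && mkCx col d.c.Dl d.c.Dh fun cx => chkDl bx cx t d.c.b d.dL 0 fun κ =>
  chkMon bx cx t d.c.b d.m κ fun κ => chkDl bx cx t d.c.b d.dR κ fun κ => leI one κ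

/-- uniqueness for the column `bx` and the denominators of `c` -/
def Case.Ok (c : Case) (bx : Box) : Prop := ∀ P, bx.Mem P → ∀ b : ℕ, 1 ≤ b → c.Mem b →
  5.44 ≤ P.ka * (2 * Real.pi / b) ^ 2 → P.Uniq b

section

variable {bx : Box} {cx : Cx} {t : Tab} {b0 b : ℕ} {P : Par}

/-- the actual index of the special cut -/
def Cut.k (g : Cut) (b0 b : ℕ) : ℤ := if b0 = 0 then -(((b - 1) / 2 : ℕ) : ℤ) else g.k0

/-- the terms of the side `pos` (`k` is `κ` or `1 - κ`), up to unimodular factors -/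
noncomputable def Cut.a (g : Cut) (P : Par) (b0 b : ℕ) (pos : Bool) (k : ℝ) (j : ℕ) : ℂ :=
  if g.full then
    (if (j : ℤ) < (if pos then 1 - g.k b0 b else b - 1 + g.k b0 b) then
      P.cF (sT pos (2 * Real.pi / b) k j) else 0)
  else
    let x := cutx (g.k b0 b) (toR g.xl) (toR (if b0 = 0 then g.xu else g.xc)) (toR g.xu)
    if pos then P.cP (x (-j - b)) (x (-j)) (sT pos (2 * Real.pi / b) k j)
    else P.cP (x (j + 1 - b)) (x (j + 1)) (sT pos (2 * Real.pi / b) k j)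

noncomputable def Cut.n (g : Cut) (P : Par) (b0 b : ℕ) (pos : Bool) (k : ℝ) (j : ℕ) : ℂ :=
  (if g.full then
    (if (j : ℤ) < (if pos then 1 - g.k b0 b else b - 1 + g.k b0 b) then
      P.nF (sT pos (2 * Real.pi / b) k j) else 0)
  else
    let x := cutx (g.k b0 b) (toR g.xl) (toR (if b0 = 0 then g.xu else g.xc)) (toR g.xu)
    if pos then P.nP (x (-j - b)) (x (-j)) (sT pos (2 * Real.pi / b) k j)
    else P.nP (x (j + 1 - b)) (x (j + 1)) (sT pos (2 * Real.pi / b) k j)) / (2 * Real.pi / b : ℝ)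

theorem ca_nth {α : Type} {a : α} : ∀ {l : List α} {n : ℕ}, a ∈ nth l n → a ∈ l
  | [], _, h => by simp [nth] at h
  | _ :: _, 0, h => by
    simp only [nth, List.mem_singleton] at h
    exact h ▸ List.mem_cons_self
  | _ :: _, _ + 1, h => List.mem_cons_of_mem _ (ca_nth h)

theorem ca_pickX (ht : t.Ok bx) : ∀ (l : List ℕ), ∀ f ∈ pickX t l, f.Ok bx
  | [], _, h => by simp [pickX] at h
  | _ :: l, f, h => (List.mem_append.1 h).elim (fun h => ht.1 f (ca_nth h)) (ca_pickX ht l f)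

theorem ca_pickU (ht : t.Ok bx) : ∀ (l : List ℕ), ∀ f ∈ pickU t l, f.Ok bx
  | [], _, h => by simp [pickU] at h
  | i :: l, f, h => by
    refine (List.mem_append.1 h).elim (fun h => ?_) (ca_pickU ht l f)
    cases hi : Nat.beq (i % 2) 0 <;> rw [hi] at h
    · obtain ⟨e, he, rfl⟩ := List.mem_map.1 h
      exact (ht.1 e (ca_nth he)).1
    · exact ht.2.1 f (ca_nth h)

theorem ca_le {a c : ℤ} (h : leI a c = true) : a ≤ c := toR_le.1 (leI_ok h)

theorem ca_lt {a c : ℤ} (h : ltI a c = true) : a < c := toR_lt.1 (ltI_ok h)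

theorem ca_beq {g h : Pc} (e : g.beq h = true) :
    g.full = h.full ∧ ∀ P T, g.c P T = h.c P T ∧ g.n P T = h.n P T := by
  obtain ⟨gf, gs, ge⟩ := g
  obtain ⟨hf, hs, he⟩ := h
  cases gf <;> cases hf <;> simp only [Pc.beq, cond_true, cond_false, Bool.and_eq_true,
    Bool.not_true, Bool.not_false, Bool.false_eq_true, false_and] at e
  · obtain rfl := le_antisymm (ca_le e.1.1.1.2) (ca_le e.1.1.2)
    obtain rfl := le_antisymm (ca_le e.1.2) (ca_le e.2)
    exact ⟨rfl, fun _ _ => ⟨rfl, rfl⟩⟩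
  · exact ⟨rfl, fun _ _ => ⟨rfl, rfl⟩⟩

theorem ca_x (g : Cut) (k : ℤ) :
    toR (g.x k) = cutx g.k0 (toR g.xl) (toR g.xc) (toR g.xu) k := by
  unfold Cut.x cutx
  cases h1 : ltI g.k0 k
  · rw [if_neg (not_lt.2 (toR_le.1 (ltI_false h1)))]
    cases h2 : ltI k g.k0
    · rw [if_neg (not_lt.2 (toR_le.1 (ltI_false h2)))]
      rfl
    · rw [if_pos (ca_lt h2)]
      rfl
  · rw [if_pos (ca_lt h1)]
    rfl

theorem ca_cut (hP : bx.Mem P) {g : Cut} (hg : g.chk bx b0 cx = true) (hf : g.full = false) :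
    0 < P.δ ∧ toR g.xl < 0 ∧ 0 < toR g.xu := by
  simp only [Cut.chk, hf, Bool.false_or, Bool.and_eq_true] at hg
  have h1 := ltI_ok hg.1.1.1
  have h2 := ltI_ok hg.1.1.2
  have h3 := ltI_ok hg.1.2
  rw [toR_zero] at h1 h2 h3
  refine ⟨lt_of_le_of_ne P.hδ fun h => ?_, h2, h3⟩
  have h4 := h1.trans_le hP.2.2.1
  simp [Par.t, Par.sg, Par.lam, ← h] at h4

/-- the number of pieces of a side inside the window -/
def Cut.W (g : Cut) (b0 b : ℕ) (pos : Bool) : ℤ :=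
  if pos then 1 - g.k b0 b else b - 1 + g.k b0 b

theorem ca_nine {g : Cut} (hb : 1 ≤ b) (hg : g.chk bx 0 cx = true)
    (hcx : cx.Ok P (2 * Real.pi / b)) : 9 ≤ b := by
  simp only [Cut.chk, Bool.and_eq_true] at hg
  have h1 := hcx.hh.trans (leI_ok (b := d34) hg.2)
  have h2 : toR d34 = 3 / 4 := by norm_num [toR, d34]
  have h3 : (0 : ℝ) < b := by exact_mod_cast hb
  rw [h2, div_le_iff₀ h3] at h1
  have h4 : (8 : ℝ) < b := by linarith [Real.pi_gt_three]
  exact_mod_cast h4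

theorem ca_W (hb : 1 ≤ b) (hb0 : b0 = 0 ∨ b = b0) {g : Cut} (hg : g.chk bx b0 cx = true)
    (hcx : cx.Ok P (2 * Real.pi / b)) (hw : g.full = true ∨ b0 = 0) (pos : Bool) :
    1 ≤ g.W b0 b pos := by
  by_cases h0 : b0 = 0
  · subst h0
    have := ca_nine hb hg hcx
    cases pos <;> simp only [Cut.W, Cut.k, if_true, Bool.false_eq_true, if_false] <;> omega
  · obtain rfl := hb0.resolve_left h0
    have hf := hw.resolve_right h0
    obtain ⟨c, rfl⟩ := Nat.exists_eq_succ_of_ne_zero h0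
    simp only [Cut.chk, hf, Nat.beq, cond_false, Bool.not_true, Bool.false_or,
      Bool.and_eq_true] at hg
    have h1 := ca_le hg.2.1
    have h2 := ca_le hg.2.2
    cases pos <;> simp only [Cut.W, Cut.k, if_true, Bool.false_eq_true, if_false, if_neg h0] <;>
      omega

theorem ca_pcf (g : Cut) (b0 : ℕ) (pos : Bool) (j : ℕ) : (g.pc b0 pos j).full = g.full := by
  unfold Cut.pc
  cases g.full <;> cases Nat.beq b0 0 <;> cases pos <;> rfl

/-- inside the window the terms are the pieces `g.pc` -/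
theorem ca_in (hb : 1 ≤ b) (hb0 : b0 = 0 ∨ b = b0) (g : Cut) (P : Par) (pos : Bool) (k : ℝ)
    {j : ℕ} (hj : g.full = true ∨ b0 = 0 → (j : ℤ) < g.W b0 b pos) :
    g.a P b0 b pos k j = (g.pc b0 pos j).c P (sT pos (2 * Real.pi / b) k j) ∧
      g.n P b0 b pos k j =
        (g.pc b0 pos j).n P (sT pos (2 * Real.pi / b) k j) / (2 * Real.pi / b : ℝ) := by
  unfold Cut.a Cut.n Cut.pc Pc.c Pc.n
  cases hf : g.full
  · by_cases h0 : b0 = 0
    · subst h0
      have hw := hj (Or.inr rfl)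
      have e : ∀ i : ℤ, cutx (g.k 0 b) (toR g.xl) (toR g.xu) (toR g.xu) i =
          if i < g.k 0 b then toR g.xl else toR g.xu := fun i => by
        unfold cutx
        split_ifs <;> first | rfl | omega
      have hk : g.k 0 b = -(((b - 1) / 2 : ℕ) : ℤ) := if_pos rfl
      cases pos <;> simp only [Cut.W, if_true, Bool.false_eq_true, if_false] at hw <;>
        simp only [Bool.false_eq_true, if_false, if_true, Nat.beq, cond_true, cond_false, e]
      · rw [if_pos (by omega), if_neg (by omega)]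
        exact ⟨rfl, rfl⟩
      · rw [if_pos (by omega), if_neg (by omega)]
        exact ⟨rfl, rfl⟩
    · obtain rfl := hb0.resolve_left h0
      have hk : g.k b b = g.k0 := if_neg h0
      have e : Nat.beq b 0 = false := by
        obtain ⟨c, rfl⟩ := Nat.exists_eq_succ_of_ne_zero h0
        rfl
      cases pos <;>
        simp only [Bool.false_eq_true, if_false, if_true, e, cond_true, cond_false, hk, if_neg h0,
          ca_x, and_self]
  · have hw := hj (Or.inl hf)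
    unfold Cut.W at hw
    simp only [if_true, cond_true, if_pos hw, and_self]

/-- beyond the window complete pieces do not occur -/
theorem ca_zero {g : Cut} (hf : g.full = true) (P : Par) (pos : Bool) (k : ℝ) {j : ℕ}
    (hj : g.W b0 b pos ≤ j) : g.a P b0 b pos k j = 0 ∧ g.n P b0 b pos k j = 0 := by
  unfold Cut.W at hj
  simp only [Cut.a, Cut.n, hf, if_true, if_neg (not_lt.2 hj), zero_div, and_self]

/-- beyond the window the pieces lie on one vertical line -/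
theorem ca_out (hb : 1 ≤ b) {g : Cut} (hf : g.full = false) (P : Par) (pos : Bool) (k : ℝ) {j : ℕ}
    (hj : g.W b0 b pos ≤ j) (hc : pos = false → b0 ≠ 0 → g.W b0 b pos = j → g.xc = g.xu) :
    g.a P b0 b pos k j = (cond pos ⟨false, g.xl, g.xl⟩ ⟨false, g.xu, g.xu⟩ : Pc).c P
        (sT pos (2 * Real.pi / b) k j) ∧
      g.n P b0 b pos k j = (cond pos ⟨false, g.xl, g.xl⟩ ⟨false, g.xu, g.xu⟩ : Pc).n P
        (sT pos (2 * Real.pi / b) k j) / (2 * Real.pi / b : ℝ) := by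
  unfold Cut.a Cut.n Pc.c Pc.n cutx
  cases pos <;> simp only [Cut.W, if_true, Bool.false_eq_true, if_false] at hj hc <;>
    simp only [hf, Bool.false_eq_true, if_false, if_true, cond_true, cond_false]
  · have e : (if g.k b0 b < j + 1 - b then toR g.xu else if j + 1 - b < g.k b0 b then toR g.xl
        else toR (if b0 = 0 then g.xu else g.xc)) = toR g.xu := by
      split_ifs with h1 h2 h3
      · rfl
      · omega
      · rfl
      · rw [hc trivial h3 (by omega)]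
    rw [e, if_pos (by omega)]
    exact ⟨rfl, rfl⟩
  · rw [if_neg (by omega), if_pos (by omega), if_neg (by omega), if_pos (by omega)]
    exact ⟨rfl, rfl⟩

theorem ca_isPc {pos : Bool} {D k : ℝ} (hD : 0 < D) {a n : ℕ → ℂ} {j : ℕ} {g h : Pc}
    (e : ∀ T, g.c P T = h.c P T ∧ g.n P T = h.n P T) (hδ : g.full = false → 0 < P.δ)
    (ha : a j = h.c P (sT pos D k j) ∧ n j = h.n P (sT pos D k j) / D) :
    IsPc P pos D k a n j g :=
  ⟨by rw [ha.1, (e _).1], by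
    rw [ha.2, (e _).2, norm_div, Complex.norm_real, Real.norm_of_nonneg hD.le], hδ⟩

/-- `a` has worse constants than `f` -/
def FX.Wk (f a : FX) : Prop := toR a.lo ≤ toR f.lo ∧ toR f.hi ≤ toR a.hi ∧ toR a.hl ≤ toR f.hl ∧
  toR f.hh ≤ toR a.hh ∧ toR a.m ≤ toR f.m ∧ toR f.z ≤ toR a.z ∧ toR f.sb ≤ toR a.sb

theorem FX.Wk.trans {f a c : FX} (h : f.Wk a) (h' : a.Wk c) : f.Wk c :=
  ⟨h'.1.trans h.1, h.2.1.trans h'.2.1, h'.2.2.1.trans h.2.2.1, h.2.2.2.1.trans h'.2.2.2.1,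
    h'.2.2.2.2.1.trans h.2.2.2.2.1, h.2.2.2.2.2.1.trans h'.2.2.2.2.2.1,
    h.2.2.2.2.2.2.trans h'.2.2.2.2.2.2⟩

theorem ca_aggr {g : Pc} {K : FX → Bool} : ∀ (l : List FX) (a : FX), aggr g l a K = true →
    (∀ f ∈ l, 0 < toR f.lo) → 0 < toR a.lo →
    ∃ c, K c = true ∧ 0 < toR c.lo ∧ a.Wk c ∧ ∀ f ∈ l, f.g.beq g = true ∧ f.Wk c
  | [], a, h, _, h0 => ⟨a, h, h0, ⟨le_rfl, le_rfl, le_rfl, le_rfl, le_rfl, le_rfl, le_rfl⟩,
      fun _ hf => by simp at hf⟩
  | f :: l, a, h, hl, h0 => by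
    simp only [aggr, fI_eq, Bool.and_eq_true] at h
    obtain ⟨c, h1, h2, h3, h4⟩ := ca_aggr l _ h.2 (fun e he => hl e (List.mem_cons_of_mem _ he))
      (by
        show 0 < toR (minI a.lo f.lo)
        rw [toR_minI]
        exact lt_min h0 (hl f List.mem_cons_self))
    refine ⟨c, h1, h2, FX.Wk.trans ?_ h3, fun e he => ?_⟩
    · simp only [FX.Wk, toR_minI, toR_maxI, min_le_left, le_max_left, and_self]
    · rcases List.mem_cons.1 he with rfl | he
      · refine ⟨h.1, FX.Wk.trans ?_ h3⟩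
        simp only [FX.Wk, toR_minI, toR_maxI, min_le_right, le_max_right, and_self]
      · exact h4 e he

theorem ca_cov {pos : Bool} {lo hi : ℤ} {l : List FU} (h : coversS pos lo hi l = true) {x : ℝ}
    (h1 : toR lo ≤ x) (h2 : x ≤ toR hi) :
    ∃ f ∈ l, toR f.T1 ≤ (if pos then x else -x) ∧ (if pos then x else -x) ≤ toR f.T2 := by
  cases pos
  · exact covers_ok h (by rw [toR_neg]; exact neg_le_neg h2) (by rw [toR_neg]; exact neg_le_neg h1)
  · exact covers_ok h h1 h2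

/-- The aggregated entry `a` is valid for the dominant piece, whose parameter is
`sT pos D k 0 = ± k D`; note that `g.n` is divided by `D`. -/
theorem prin_ok (ht : t.Ok bx) (hP : bx.Mem P) (hb : 1 ≤ b) (hb0 : b0 = 0 ∨ b = b0)
    (hcx : cx.Ok P (2 * Real.pi / b)) {g : Cut} (hg : g.chk bx b0 cx = true) {pos : Bool}
    {k1 k2 : ℤ} {l : List ℕ} {K : FX → Bool} (h : prin cx t g b0 pos k1 k2 l K = true) :
    ∃ a : FX, K a = true ∧ 0 < toR a.lo ∧ toR a.hl ≤ 0 ∧ toR a.hh ≤ 0 ∧ 0 ≤ toR a.z ∧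
      0 ≤ toR a.sb ∧ ∀ k : ℝ, 0 ≤ toR k1 → toR k1 ≤ k → k ≤ toR k2 →
        ‖g.a P b0 b pos k 0‖ ≤
          toR a.hi * Real.exp (P.ka * ((k * (2 * Real.pi / b)) ^ 2 * toR a.hh)) ∧
        toR a.lo * Real.exp (P.ka * ((k * (2 * Real.pi / b)) ^ 2 * toR a.hl)) ≤
          ‖g.a P b0 b pos k 0‖ ∧
        P.Pr (sT pos (2 * Real.pi / b) k 0) (g.a P b0 b pos k 0)
          ((2 * Real.pi / b : ℝ) * g.n P b0 b pos k 0)
          (toR a.lo) (toR a.hl) (toR a.m) (toR a.z) (toR a.sb) := by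
  simp only [prin, Bool.and_eq_true] at h
  obtain ⟨hc, h⟩ := h
  have hX := ca_pickX ht l
  generalize pickX t l = L at hc h hX
  cases L with
  | nil => simp at h
  | cons f L =>
  obtain ⟨a, h1, h2, -, h4⟩ := ca_aggr _ _ h (fun e he => (hX e he).2.1)
    (hX f List.mem_cons_self).2.1
  simp only [Bool.and_eq_true] at h1
  obtain ⟨⟨⟨⟨a1, a2⟩, a3⟩, a4⟩, a5⟩ := h1
  replace a1 := leI_ok a1
  replace a2 := leI_ok a2
  replace a3 := leI_ok a3
  replace a4 := leI_ok a4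
  rw [toR_zero] at a1 a2 a3 a4
  refine ⟨a, a5, h2, a1, a2, a3, a4, fun k k0 hk1 hk2 => ?_⟩
  have hD := hcx.hD
  obtain ⟨e', he', e1, e2⟩ := ca_cov hc (mulD_le k0 hcx.hl0 hk1 hcx.hl)
    (mulU_le (k0.trans hk1) hD.le hk2 hcx.hh)
  obtain ⟨e, he, rfl⟩ := List.mem_map.1 he'
  obtain ⟨hq, w1, w2, w3, w4, w5, w6, w7⟩ := h4 e he
  obtain ⟨q1, q2⟩ := ca_beq hq
  obtain ⟨i1, i2⟩ := ca_in hb hb0 g P pos k (j := 0) fun hw => by
    have := ca_W hb hb0 hg hcx hw pos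
    omega
  have hT : sT pos (2 * Real.pi / b) k 0 =
      if pos then k * (2 * Real.pi / b) else -(k * (2 * Real.pi / b)) := by
    simp only [sT, Nat.cast_zero, add_zero]
  have hT2 : sT pos (2 * Real.pi / b) k 0 ^ 2 = (k * (2 * Real.pi / b)) ^ 2 := by
    rw [hT]
    split_ifs
    · rfl
    · exact neg_sq _
  rw [← hT] at e1 e2
  have hδ : e.g.full = false → 0 < P.δ := fun hf =>
    (ca_cut hP hg (by rw [← ca_pcf g b0 pos 0, ← q1, hf])).1
  have u1 := ((hX e he).1 P hP hδ _ e1 e2).1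
  obtain ⟨p1, p2, p3⟩ := (hX e he).2.2 P hP hδ _ e1 e2
  have hn : ((2 * Real.pi / b : ℝ) : ℂ) * g.n P b0 b pos k 0 =
      e.g.n P (sT pos (2 * Real.pi / b) k 0) := by
    rw [i2, (q2 _ _).2, mul_div_cancel₀ _ (Complex.ofReal_ne_zero.2 hD.ne')]
  rw [hn, i1, ← (q2 _ _).1, ← hT2]
  generalize e.g.n P (sT pos (2 * Real.pi / b) k 0) = n at p2 p3 ⊢
  generalize e.g.c P (sT pos (2 * Real.pi / b) k 0) = c at u1 p1 p2 p3 ⊢
  generalize sT pos (2 * Real.pi / b) k 0 = T at u1 p1 p2 p3 ⊢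
  have ex : ∀ {x y : ℝ}, x ≤ y → Real.exp (P.ka * (T ^ 2 * x)) ≤ Real.exp (P.ka * (T ^ 2 * y)) :=
    fun hxy => Real.exp_le_exp.2
      (mul_le_mul_of_nonneg_left (mul_le_mul_of_nonneg_left hxy (sq_nonneg T)) P.ka_pos.le)
  have hs : toR e.sb / (P.s2 * P.cg) ≤ toR a.sb / (P.s2 * P.cg) :=
    div_le_div_of_nonneg_right w7 (mul_pos P.par_s2_pos P.cg_pos).le
  have l1 : toR a.lo * Real.exp (P.ka * (T ^ 2 * toR a.hl)) ≤ ‖c‖ :=
    (mul_le_mul w1 (ex w3) (Real.exp_pos _).le (hX e he).2.1.le).trans p1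
  refine ⟨u1.trans (mul_le_mul w2 (ex w4) (Real.exp_pos _).le ?_), l1, l1,
    p2.trans (mul_le_mul_of_nonneg_right (add_le_add
      (mul_le_mul_of_nonneg_right w6 (abs_nonneg T)) hs) (norm_nonneg c)),
    p3.trans (mul_le_mul_of_nonneg_right (add_le_add
      (mul_le_mul_of_nonneg_right (sub_le_sub_left w5 1) (sq_nonneg T))
      (mul_le_mul_of_nonneg_left hs (abs_nonneg T))) (sq_nonneg _))⟩
  exact (nonneg_of_mul_nonneg_left ((norm_nonneg c).trans u1) (Real.exp_pos _)).trans w2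

theorem ca_sum {f : ℕ → ℝ} {J J1 J2 : ℕ → Prop} [DecidablePred J] [DecidablePred J1]
    [DecidablePred J2] (hf : ∀ i, 0 ≤ f i) (hJ : ∀ i, J i → J1 i ∨ J2 i ∨ f i = 0) (N : ℕ) :
    ∑ j ∈ (Finset.range N).filter J, f j ≤
      ∑ j ∈ (Finset.range N).filter J1, f j + ∑ j ∈ (Finset.range N).filter J2, f j := by
  simp only [Finset.sum_filter, ← Finset.sum_add_distrib]
  refine Finset.sum_le_sum fun i _ => ?_
  have h0 := hf i
  have h1 := hJ i
  split_ifs with a1 a2 a3 a4 a5 a6 a7 <;> first | linarith | skip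
  rcases h1 a1 with h | h | h
  · exact absurd h a2
  · exact absurd h a4
  · linarith

theorem ca_glue {a n : ℕ → ℂ} {J J1 J2 : ℕ → Prop} [DecidablePred J] [DecidablePred J1]
    [DecidablePred J2] {R : Rf} (hR : R.chk = true) {Rr S0 S1 S2 T0 T1 T2 U0 U1 U2 : ℝ}
    (hJ : ∀ i, J i → J1 i ∨ J2 i ∨ (a i = 0 ∧ n i = 0))
    (h1 : SideB a n J1 Rr (toR R.Y) (toR R.Y0) (toR R.e0) (toR R.e1) S0 S1 S2)
    (h2 : SideB a n J2 Rr (toR R.Y) (toR R.Y0) (toR R.e0) (toR R.e1) T0 T1 T2)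
    (e0 : U0 = S0 + T0) (e1 : U1 = S1 + T1) (e2 : U2 = S2 + T2) :
    SideB a n J Rr (toR R.Y) (toR R.Y0) (toR R.e0) (toR R.e1) U0 U1 U2 := by
  simp only [Rf.chk, Bool.and_eq_true] at hR
  have y := leI_ok hR.1.1.1.2
  have y0 := leI_ok hR.1.1.2
  have z0 := leI_ok hR.1.2
  have z1 := leI_ok hR.2
  rw [toR_zero] at y y0 z0 z1
  intro N
  obtain ⟨a0, a1, a2⟩ := h1 N
  obtain ⟨b0, b1, b2⟩ := h2 N
  rw [e0, e1, e2, add_mul, add_mul, add_mul]
  refine ⟨(ca_sum (fun i => by positivity) (fun i hi => ?_) N).trans (add_le_add a0 b0),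
    (ca_sum (fun i => by positivity) (fun i hi => ?_) N).trans (add_le_add a1 b1),
    (ca_sum (fun i => by positivity) (fun i hi => ?_) N).trans (add_le_add a2 b2)⟩ <;>
  exact (hJ i hi).imp_right fun h => h.imp_right fun h => by simp [h.1, h.2]

theorem ca_nil (a n : ℕ → ℂ) (Rr Y Y0 e0 e1 : ℝ) :
    SideB a n (fun _ => False) Rr Y Y0 e0 e1 0 0 0 := fun N => by simp

/-- the position of the window for an unknown denominator -/
theorem ca_win {g : Cut} (hb : 9 ≤ b) (pos : Bool) {k : ℝ} (k0 : 0 ≤ k) (k1 : k ≤ 1) :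
    4 ≤ g.W 0 b pos ∧ ∀ i : ℕ,
      ((i : ℤ) < g.W 0 b pos → (k + i) * (2 * Real.pi / b) ≤
        Real.pi + if pos then 1 / 2 * (2 * Real.pi / b) else 0) ∧
      (g.W 0 b pos ≤ i → Real.pi - (if pos then 0 else 1 / 2 * (2 * Real.pi / b)) ≤
        (k + i) * (2 * Real.pi / b)) := by
  have hb' : (0 : ℝ) < b := by exact_mod_cast (by omega : 0 < b)
  have hD : 0 < 2 * Real.pi / b := by positivity
  have e : Real.pi = b / 2 * (2 * Real.pi / b) := by field_simp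
  generalize 2 * Real.pi / b = D at hD e ⊢
  have hk : g.k 0 b = -(((b - 1) / 2 : ℕ) : ℤ) := if_pos rfl
  cases pos <;> simp only [Cut.W, hk, if_true, Bool.false_eq_true, if_false] <;>
    refine ⟨by omega, fun i => ⟨fun h => ?_, fun h => ?_⟩⟩
  · have h' : (2 * i + 2 : ℝ) ≤ b := by exact_mod_cast (by omega : 2 * i + 2 ≤ b)
    nlinarith
  · have h' : (b : ℝ) ≤ 2 * i + 1 := by exact_mod_cast (by omega : b ≤ 2 * i + 1)
    nlinarith
  · have h' : (2 * i + 1 : ℝ) ≤ b := by exact_mod_cast (by omega : 2 * i + 1 ≤ b)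
    nlinarith
  · have h' : (b : ℝ) ≤ 2 * i := by exact_mod_cast (by omega : b ≤ 2 * i)
    nlinarith

/-- PLAN: for `b0 = 0`, `2π/b ≤ 3/4` gives `b ≥ 9`; the upper window is `j ≤ (b-1)/2`, where
`(k+j) D ≤ π + D/2`, beyond it `(k+j) D ≥ π`; the lower window is `j < b - 1 - (b-1)/2`, where
`(k+j) D ≤ π`, beyond it `(k+j) D ≥ π - D/2`. -/
theorem side_ok (ht : t.Ok bx) (hP : bx.Mem P) (hb : 1 ≤ b) (hb0 : b0 = 0 ∨ b = b0) {g : Cut}
    (hg : g.chk bx b0 cx = true) {R : Rf} {pos : Bool} {k r Rr : ℝ}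
    (S : R.chk = true → Sit cx R P (2 * Real.pi / b) k r Rr) {j0 : ℕ} (hj : j0 ≤ 1) {d : SideC}
    {K : ℤ → ℤ → ℤ → Bool} (h : side cx t g b0 R pos j0 d K = true) :
    ∃ s0 s1 s2, K s0 s1 s2 = true ∧
      SideB (g.a P b0 b pos k) (g.n P b0 b pos k) (fun i => j0 ≤ i) Rr (toR R.Y) (toR R.Y0)
        (toR R.e0) (toR R.e1) (toR s0) (toR s1) (toR s2) := by
  simp only [side, Bool.and_eq_true] at h
  obtain ⟨hR, h⟩ := h
  replace S := S hR
  have hD := S.cx.hD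
  have hδ : g.full = false → 0 < P.δ := fun hf => (ca_cut hP hg hf).1
  have hL : ∀ l ∈ d.ones.map (pickU t), ∀ f ∈ l, f.Ok bx := fun l hl => by
    obtain ⟨e, -, rfl⟩ := List.mem_map.1 hl
    exact ca_pickU ht e
  have k01 : 0 ≤ k ∧ k ≤ 1 := by
    have hR' := hR
    simp only [Rf.chk, Bool.and_eq_true] at hR'
    have a1 := leI_ok hR'.1.1.1.1.1.1.1.1
    have a2 := leI_ok hR'.1.1.1.1.1.1.2
    rw [toR_zero] at a1
    rw [toR_one] at a2
    exact ⟨a1.trans S.h1, S.h2.trans a2⟩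
  have pin : ∀ i : ℕ, (g.full = true ∨ b0 = 0 → (i : ℤ) < g.W b0 b pos) →
      IsPc P pos (2 * Real.pi / b) k (g.a P b0 b pos k) (g.n P b0 b pos k) i (g.pc b0 pos i) :=
    fun i hi => ca_isPc hD (fun _ => ⟨rfl, rfl⟩) (fun hf => hδ (by rwa [ca_pcf] at hf))
      (ca_in hb hb0 g P pos k hi)
  have pout : g.full = false → ∀ {f : FI},
      f.pc.beq (cond pos ⟨false, g.xl, g.xl⟩ ⟨false, g.xu, g.xu⟩) = true → ∀ i : ℕ,
      g.W b0 b pos ≤ i → (pos = false → b0 ≠ 0 → g.W b0 b pos = i → g.xc = g.xu) →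
      IsPc P pos (2 * Real.pi / b) k (g.a P b0 b pos k) (g.n P b0 b pos k) i f.pc :=
    fun hf f e i hi hc => ca_isPc hD ((ca_beq e).2 P) (fun _ => hδ hf)
      (ca_out hb hf P pos k hi hc)
  obtain ⟨x0, x1, x2, hx, -⟩ := ones_ok S hP hL
    (a := fun i => (g.pc b0 pos i).c P (sT pos (2 * Real.pi / b) k i))
    (n := fun i => (g.pc b0 pos i).n P (sT pos (2 * Real.pi / b) k i) / (2 * Real.pi / b : ℝ))
    (fun i _ _ => ca_isPc hD (fun _ => ⟨rfl, rfl⟩) (fun hf => hδ (by rwa [ca_pcf] at hf))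
      ⟨rfl, rfl⟩) h
  have key := fun hp => ones_ok (a := g.a P b0 b pos k) (n := g.n P b0 b pos k) S hP hL hp h
  clear h
  generalize j0 + (d.ones.map (pickU t)).length = j at hx key
  simp only [toR_zero, sub_zero] at key
  by_cases h0 : b0 = 0
  · subst h0
    obtain ⟨w4, hw⟩ := ca_win (g := g) (ca_nine hb hg S.cx) pos k01.1 k01.2
    have hh : 1 / 2 * (2 * Real.pi / b) ≤ toR (mulU half cx.Dh) :=
      mulU_le (by norm_num) hD.le acc_half.ge S.cx.hh
    simp only [Nat.beq, cond_true, Bool.and_eq_true] at hx key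
    have j4 : j ≤ 4 := Nat.le_of_ble_eq_true hx.1.1
    obtain ⟨t0, t1, t2, ⟨⟨-, hc⟩, h⟩, B1⟩ := key fun i _ hi => pin i fun _ => by omega
    obtain ⟨m, hm⟩ := Int.eq_ofNat_of_zero_le (by omega : 0 ≤ g.W 0 b pos)
    obtain ⟨u0, u1, u2, h, B2⟩ := geoL_ok (a := g.a P 0 b pos k) (n := g.n P 0 b pos k) (m := m)
      S hP (ca_pickU ht _) (fun i _ hi => ⟨pin i fun _ => by omega,
        ((hw i).1 (by omega)).trans (by
          have := piU_ok
          cases pos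
          · simpa using this
          · simp only [if_true, cond_true, toR_add]
            linarith)⟩) hc h
    have B3 := ca_glue (J := fun i => j0 ≤ i ∧ i < m) hR (fun i hi => by omega) B1 B2
      (add_sub_cancel _ _).symm (add_sub_cancel _ _).symm (add_sub_cancel _ _).symm
    cases hf : g.full <;> rw [hf] at h
    · cases hn : nth t.is d.img with
      | nil => simp [hn] at h
      | cons f L =>
        simp only [hn, cond_false, Bool.and_eq_true, beq_iff_eq] at h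
        obtain ⟨⟨⟨a1, a2⟩, a3⟩, h⟩ := h
        obtain ⟨v0, v1, v2, h, B4⟩ := imgG_ok (a := g.a P 0 b pos k) (n := g.n P 0 b pos k)
          (m := m) S hP (ht.2.2 f (ca_nth (hn ▸ List.mem_cons_self))) a1
          (fun i hi => ⟨pout hf a2 i (by omega) fun _ h => absurd rfl h,
            (leI_ok a3).trans (le_trans (by
              have := piD_ok
              cases pos
              · simp only [Bool.false_eq_true, if_false, cond_false, toR_sub]
                linarith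
              · simpa using this) ((hw i).2 (by omega)))⟩) h
        exact ⟨v0, v1, v2, h, ca_glue hR (fun i hi => by omega) B3 B4
          (add_sub_cancel _ _).symm (add_sub_cancel _ _).symm (add_sub_cancel _ _).symm⟩
    · refine ⟨u0, u1, u2, h, ca_glue hR (fun i hi => ?_) B3 (ca_nil _ _ _ _ _ _ _)
        (add_zero _).symm (add_zero _).symm (add_zero _).symm⟩
      by_cases hi' : i < m
      · exact Or.inl ⟨hi, hi'⟩
      · exact Or.inr (Or.inr (ca_zero hf P pos k (by omega)))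
  · obtain rfl := hb0.resolve_left h0
    have e : Nat.beq b 0 = false := by
      obtain ⟨c, rfl⟩ := Nat.exists_eq_succ_of_ne_zero h0
      rfl
    have hW : g.W b b pos = cond pos (1 - g.k0) (b - 1 + g.k0) := by
      unfold Cut.W Cut.k
      rw [if_neg h0]
      cases pos <;> rfl
    cases hf : g.full <;> simp only [e, hf, cond_false, cond_true, ← hW] at hx key
    · obtain ⟨t0, t1, t2, h, B1⟩ := key fun i _ _ => pin i fun h => by
        rw [hf] at h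
        exact absurd (h.resolve_left Bool.false_ne_true) h0
      cases hn : nth t.is d.img with
      | nil => simp [hn] at h
      | cons f L =>
        simp only [hn, Bool.and_eq_true, beq_iff_eq] at h
        obtain ⟨⟨⟨a1, a2⟩, a3⟩, h⟩ := h
        have a4 : g.W b b pos ≤ j ∧ (pos = false → g.W b b pos = j → g.xc = g.xu) := by
          rw [hW]
          cases pos
          · simp only [cond_false, Bool.or_eq_true, Bool.and_eq_true] at a3 ⊢
            rcases a3 with a3 | a3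
            · have := ca_lt a3
              exact ⟨by omega, fun _ _ => by omega⟩
            · have := ca_le a3.1.1
              exact ⟨by omega, fun _ _ => le_antisymm (ca_le a3.1.2) (ca_le a3.2)⟩
          · have := ca_lt a3
            simp only [cond_true]
            exact ⟨by omega, fun h => absurd h (by decide)⟩
        obtain ⟨v0, v1, v2, h, B4⟩ := imgX_ok (a := g.a P b b pos k) (n := g.n P b b pos k)
          S hP (ht.2.2 f (ca_nth (hn ▸ List.mem_cons_self))) a1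
          (fun i hi => pout hf a2 i (by omega) fun hp _ hi' => a4.2 hp (by omega)) h
        exact ⟨v0, v1, v2, h, ca_glue hR (fun i hi => by omega) B1 B4
          (add_sub_cancel _ _).symm (add_sub_cancel _ _).symm (add_sub_cancel _ _).symm⟩
    · simp only [Bool.and_eq_true] at hx key
      have a1 := ca_le hx.1.1
      have a2 := ca_le hx.1.2
      obtain ⟨t0, t1, t2, h, B1⟩ := key fun i _ _ => pin i fun _ => by omega
      refine ⟨t0, t1, t2, h.2, ca_glue hR (fun i hi => ?_) B1 (ca_nil _ _ _ _ _ _ _)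
        (add_zero _).symm (add_zero _).symm (add_zero _).symm⟩
      by_cases hi' : i < j
      · exact Or.inl ⟨hi, hi'⟩
      · exact Or.inr (Or.inr (ca_zero hf P pos k (by omega)))

theorem ca_sol (hP : bx.Mem P) (hb : 1 ≤ b) (hb0 : b0 = 0 ∨ b = b0)
    (hcx : cx.Ok P (2 * Real.pi / b)) {g : Cut} (hg : g.chk bx b0 cx = true) {χ : ℤ → ℂ} {κ : ℝ}
    {u : ℂ} (h : P.ZZ b χ κ u) : Sol (fun j => χ (-j) * g.a P b0 b true κ j)
      (fun j => χ (j + 1) * g.a P b0 b false (1 - κ) j) u := by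
  have e : ∀ j : ℕ, sT false (2 * Real.pi / b) (1 - κ) j = (κ - (j + 1)) * (2 * Real.pi / b) :=
    fun j => by simp only [sT, Bool.false_eq_true, if_false]; ring
  have e' : ∀ j : ℕ, sT true (2 * Real.pi / b) κ j = (κ + j) * (2 * Real.pi / b) := fun j => rfl
  unfold Cut.a
  cases hf : g.full
  · obtain ⟨a1, a2, a3⟩ := ca_cut hP hg hf
    simp only [e, e', Bool.false_eq_true, if_false, if_true]
    exact link_piece P a1 hb h _ a2 a3
  · have h1 := ca_W hb hb0 hg hcx (Or.inl hf) true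
    have h2 := ca_W hb hb0 hg hcx (Or.inl hf) false
    simp only [Cut.W, Bool.false_eq_true, if_false, if_true] at h1 h2
    have := link_full P h (1 - g.k b0 b).toNat (b - 1 + g.k b0 b).toNat (by omega)
    simp only [Int.lt_toNat] at this
    simpa only [e, e', Bool.false_eq_true, if_false, if_true, mul_ite, mul_zero] using this

theorem ca_two {a n c m : ℕ → ℂ} {Rr Y Y0 e0 e1 S0 S1 S2 Y' Y0' e0' e1' T0 T1 T2 : ℝ}
    (h : SideB a n (fun i => 1 ≤ i) Rr Y Y0 e0 e1 S0 S1 S2)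
    (h' : SideB c m (fun i => 0 ≤ i) Rr Y' Y0' e0' e1' T0 T1 T2) (N : ℕ) :
    ∑ j ∈ Finset.range N, ‖a (j + 1)‖ + ∑ j ∈ Finset.range N, ‖c j‖ ≤ (S0 + T0) * Rr := by
  have h1 := (h (N + 1)).1
  have h2 := (h' N).1
  rw [Finset.sum_filter, Finset.sum_range_succ'] at h1
  simp only [le_add_iff_nonneg_left, zero_le, if_true, nonpos_iff_eq_zero, one_ne_zero, if_false,
    add_zero, Finset.filter_true] at h1 h2
  rw [add_mul]
  exact add_le_add h1 h2

theorem ca_k1 {g : Cut} {R : Rf} {pos : Bool} {j0 : ℕ} {d : SideC} {K : ℤ → ℤ → ℤ → Bool}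
    (h : side cx t g b0 R pos j0 d K = true) : 0 ≤ toR R.k1 := by
  simp only [side, Rf.chk, Bool.and_eq_true] at h
  exact toR_zero ▸ leI_ok h.1.1.1.1.1.1.1.1.1

theorem ca_ref {D lo hl r x : ℝ} (h : lo * Real.exp (P.ka * ((r * D) ^ 2 * hl)) ≤ x) :
    lo * Real.exp (-(P.ka * D ^ 2 * (r ^ 2 * -hl))) ≤ x := by
  rwa [show -(P.ka * D ^ 2 * (r ^ 2 * -hl)) = P.ka * ((r * D) ^ 2 * hl) by ring]

/-- PLAN: `link_piece` or `link_full`, `dom_upper`, `dom_lower`, `side_ok`. -/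
theorem chkD_ok (ht : t.Ok bx) (hP : bx.Mem P) (hb : 1 ≤ b) (hb0 : b0 = 0 ∨ b = b0)
    (hcx : cx.Ok P (2 * Real.pi / b)) {d : DC} (h : chkD bx cx t b0 d = true) {χ : ℤ → ℂ}
    (hχ : ∀ k, ‖χ k‖ = 1) {κ : ℝ} (h1 : toR d.κ1 ≤ κ) (h2 : κ ≤ toR d.κ2) (u : ℂ) :
    ¬ P.ZZ b χ κ u := by
  intro hz
  simp only [chkD, valD, fI_eq, Bool.and_eq_true] at h
  obtain ⟨hg, h⟩ := h
  have hs := ca_sol hP hb hb0 hcx hg hz
  have l1 : toR (one - d.κ2) ≤ 1 - κ := by rw [toR_sub, toR_one]; linarith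
  have l2 : 1 - κ ≤ toR (one - d.κ1) := by rw [toR_sub, toR_one]; linarith
  cases hd : d.up <;> rw [hd] at h
  · obtain ⟨a, h, a1, -, -, -, -, a2⟩ := prin_ok ht hP hb hb0 hcx hg h
    have k0 : 0 ≤ toR (one - d.κ2) := by
      simp only [side, Rf.chk, Bool.and_eq_true] at h
      have := leI_ok h.1.1.1.1.1.1.1.2
      rw [toR_sub]
      linarith
    have a3 := (a2 (1 - κ) k0 l1 l2).2.1
    have a4 := ca_ref a3
    rw [← toR_neg] at a4
    obtain ⟨u0, u1, u2, h, BU⟩ := side_ok ht hP hb hb0 hg (k := κ) (r := 1 - κ)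
      (fun hR => ⟨hcx, hR, h1, h2, Or.inr ⟨rfl, rfl, rfl⟩, a4⟩) zero_le_one h
    obtain ⟨v0, v1, v2, h, BL⟩ := side_ok ht hP hb hb0 hg (k := 1 - κ) (r := 1 - κ)
      (fun hR => ⟨hcx, hR, l1, l2, Or.inl ⟨rfl, rfl, rfl⟩, a4⟩) le_rfl h
    have hv := ltI_ok h
    rw [toR_add, toR_one, add_comm] at hv
    refine dom_lower hz.1 hv ?_ (fun n => ?_) hs
    · rw [← norm_pos_iff, norm_mul, hχ, one_mul]
      exact (mul_pos a1 (Real.exp_pos _)).trans_le a3
    · simp only [norm_mul, hχ, one_mul]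
      rw [add_comm]
      exact ca_two BL BU n
  · obtain ⟨a, h, a1, -, -, -, -, a2⟩ := prin_ok ht hP hb hb0 hcx hg h
    have a3 := (a2 κ (ca_k1 h) h1 h2).2.1
    have a4 := ca_ref a3
    rw [← toR_neg] at a4
    obtain ⟨u0, u1, u2, h, BU⟩ := side_ok ht hP hb hb0 hg (k := κ) (r := κ)
      (fun hR => ⟨hcx, hR, h1, h2, Or.inl ⟨rfl, rfl, rfl⟩, a4⟩) le_rfl h
    obtain ⟨v0, v1, v2, h, BL⟩ := side_ok ht hP hb hb0 hg (k := 1 - κ) (r := κ)
      (fun hR => ⟨hcx, hR, l1, l2, Or.inr ⟨(sub_sub_cancel _ _).symm, (sub_sub_cancel _ _).symm,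
        (sub_sub_cancel _ _).symm⟩, a4⟩) zero_le_one h
    have hv := ltI_ok h
    rw [toR_add, toR_one] at hv
    refine dom_upper hz.1 hv ?_ (fun n => ?_) hs
    · rw [← norm_pos_iff, norm_mul, hχ, one_mul]
      exact (mul_pos a1 (Real.exp_pos _)).trans_le a3
    · simp only [norm_mul, hχ, one_mul]
      exact ca_two BU BL n

theorem chkDl_ok (ht : t.Ok bx) (hP : bx.Mem P) (hb : 1 ≤ b) (hb0 : b0 = 0 ∨ b = b0)
    (hcx : cx.Ok P (2 * Real.pi / b)) {l : List DC} {κ0 : ℤ} {K : ℤ → Bool}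
    (h : chkDl bx cx t b0 l κ0 K = true) : ∃ κ1, K κ1 = true ∧ ∀ χ : ℤ → ℂ, (∀ k, ‖χ k‖ = 1) →
      ∀ κ u, toR κ0 ≤ κ → κ ≤ toR κ1 → P.ZZ b χ κ u → κ = toR κ0 ∧ κ1 = κ0 := by
  induction l generalizing κ0 with
  | nil => exact ⟨κ0, h, fun _ _ _ _ h1 h2 _ => ⟨le_antisymm h2 h1, rfl⟩⟩
  | cons d l ih =>
    simp only [chkDl, Bool.and_eq_true] at h
    obtain ⟨κ1, h1, h2⟩ := ih h.2
    refine ⟨κ1, h1, fun χ hχ κ u a1 a2 hz => ?_⟩
    have a3 : κ ≤ toR d.κ2 := by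
      by_contra a4
      exact a4 (h2 χ hχ κ u (not_le.1 a4).le a2 hz).1.le
    exact absurd hz (chkD_ok ht hP hb hb0 hcx h.1.2 hχ ((leI_ok h.1.1).trans a1) a3 u)

theorem cb_lt {x y : ℤ} : ltI x y = true ↔ x < y := ltI_iff

theorem cb_le {x y : ℤ} : leI x y = true ↔ x ≤ y := leI_iff

theorem cb_beq {g h : Pc} (e : g.beq h = true) :
    g.full = h.full ∧ (∀ P T, g.c P T = h.c P T) ∧ ∀ P T, g.n P T = h.n P T := by
  obtain ⟨f, x, y⟩ := g
  obtain ⟨f', x', y'⟩ := h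
  cases f <;> cases f' <;> simp [Pc.beq, cb_le] at e
  · obtain rfl : x = x' := by omega
    obtain rfl : y = y' := by omega
    exact ⟨rfl, fun _ _ => rfl, fun _ _ => rfl⟩
  · exact ⟨rfl, fun _ _ => rfl, fun _ _ => rfl⟩

theorem cb_nth {α : Type} {l : List α} {i : ℕ} {a : α} (h : a ∈ nth l i) : a ∈ l := by
  induction l generalizing i with
  | nil => simp [nth] at h
  | cons c l ih =>
    cases i with
    | zero => simp only [nth, List.mem_singleton] at h; simp [h]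
    | succ i => exact List.mem_cons_of_mem _ (ih h)

theorem cb_pickX {l : List ℕ} {f : FX} (h : f ∈ pickX t l) : f ∈ t.xs := by
  induction l with
  | nil => simp [pickX] at h
  | cons i l ih =>
    rcases List.mem_append.1 h with h | h
    · exact cb_nth h
    · exact ih h

/-- the constants of `a` are worse than those of `f` -/
def cbLe (f a : FX) : Prop := toR a.lo ≤ toR f.lo ∧ toR f.hi ≤ toR a.hi ∧ toR a.hl ≤ toR f.hl ∧
  toR f.hh ≤ toR a.hh ∧ toR a.m ≤ toR f.m ∧ toR f.z ≤ toR a.z ∧ toR f.sb ≤ toR a.sb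

theorem cbLe.trans {f a c : FX} (h : cbLe f a) (h' : cbLe a c) : cbLe f c :=
  ⟨h'.1.trans h.1, h.2.1.trans h'.2.1, h'.2.2.1.trans h.2.2.1, h.2.2.2.1.trans h'.2.2.2.1,
    h'.2.2.2.2.1.trans h.2.2.2.2.1, h.2.2.2.2.2.1.trans h'.2.2.2.2.2.1,
    h.2.2.2.2.2.2.trans h'.2.2.2.2.2.2⟩

theorem cb_aggr {g : Pc} {l : List FX} {a : FX} {K : FX → Bool} (h : aggr g l a K = true)
    (ha : 0 < toR a.lo) (hl : ∀ f ∈ l, 0 < toR f.lo) :
    ∃ c, K c = true ∧ 0 < toR c.lo ∧ cbLe a c ∧ ∀ f ∈ l, f.g.beq g = true ∧ cbLe f c := by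
  induction l generalizing a with
  | nil => exact ⟨a, h, ha, ⟨le_rfl, le_rfl, le_rfl, le_rfl, le_rfl, le_rfl, le_rfl⟩, by simp⟩
  | cons f l ih =>
    simp only [aggr, fI_eq, Bool.and_eq_true] at h
    obtain ⟨c, h1, h2, h3, h4⟩ := ih h.2
      (by simp only [toR_minI]; exact lt_min ha (hl f List.mem_cons_self))
      fun f hf => hl f (List.mem_cons_of_mem _ hf)
    refine ⟨c, h1, h2, cbLe.trans ?_ h3, fun e he => ?_⟩
    · simp only [cbLe, toR_minI, toR_maxI, min_le_left, le_max_left, and_self]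
    · rcases List.mem_cons.1 he with rfl | he
      · refine ⟨h.1, cbLe.trans ?_ h3⟩
        simp only [cbLe, toR_minI, toR_maxI, min_le_right, le_max_right, and_self]
      · exact h4 e he

theorem cb_cov {pos : Bool} {k1 k2 : ℤ} {l : List FU} {D k : ℝ} (hcx : cx.Ok P D)
    (h : coversS pos (mulD k1 cx.Dl) (mulU k2 cx.Dh) l = true) (h0 : 0 ≤ k) (h1 : toR k1 ≤ k)
    (h2 : k ≤ toR k2) : ∃ f ∈ l, toR f.T1 ≤ sT pos D k 0 ∧ sT pos D k 0 ≤ toR f.T2 := by
  have e1 : toR (mulD k1 cx.Dl) ≤ k * D :=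
    (mulD_ok _ _).trans ((mul_le_mul_of_nonneg_right h1 hcx.hl0).trans
      (mul_le_mul_of_nonneg_left hcx.hl h0))
  have e2 : k * D ≤ toR (mulU k2 cx.Dh) := mulU_le h0 hcx.hD.le h2 hcx.hh
  cases pos
  · refine covers_ok h ?_ ?_ <;> simp only [sT, toR_neg] <;> simpa
  · refine covers_ok h ?_ ?_ <;> simp only [sT] <;> simpa

theorem cb_prin (ht : t.Ok bx) (hP : bx.Mem P) {D : ℝ} (hcx : cx.Ok P D) {g : Cut} {pos : Bool}
    (hδ : (g.pc b0 pos 0).full = false → 0 < P.δ) {k1 k2 : ℤ} {l : List ℕ} {K : FX → Bool}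
    (h : prin cx t g b0 pos k1 k2 l K = true) :
    ∃ a, K a = true ∧ 0 < toR a.lo ∧ toR a.hl ≤ 0 ∧ toR a.hh ≤ 0 ∧ 0 ≤ toR a.z ∧ 0 ≤ toR a.sb ∧
      ∀ k, 0 ≤ k → toR k1 ≤ k → k ≤ toR k2 →
        P.Pr (sT pos D k 0) ((g.pc b0 pos 0).c P (sT pos D k 0))
          ((g.pc b0 pos 0).n P (sT pos D k 0)) (toR a.lo) (toR a.hl) (toR a.m) (toR a.z)
          (toR a.sb) ∧
        ‖(g.pc b0 pos 0).c P (sT pos D k 0)‖ ≤
          toR a.hi * Real.exp (P.ka * (sT pos D k 0 ^ 2 * toR a.hh)) := by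
  have hx : ∀ f ∈ pickX t l, f.Ok bx := fun f hf => ht.1 f (cb_pickX hf)
  unfold prin at h
  generalize pickX t l = L at h hx
  cases L with
  | nil => simp at h
  | cons f L =>
    simp only [Bool.and_eq_true] at h
    obtain ⟨a, h1, h2, -, h4⟩ := cb_aggr h.2 (hx f List.mem_cons_self).2.1
      fun e he => (hx e he).2.1
    simp only [Bool.and_eq_true] at h1
    obtain ⟨⟨⟨⟨p1, p2⟩, p3⟩, p4⟩, p5⟩ := h1
    have q1 := leI_ok p1
    have q2 := leI_ok p2
    have q3 := leI_ok p3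
    have q4 := leI_ok p4
    rw [toR_zero] at q1 q2 q3 q4
    refine ⟨a, p5, h2, q1, q2, q3, q4, fun k k0 k1 k2 => ?_⟩
    obtain ⟨e', he', T1, T2⟩ := cb_cov hcx h.1 k0 k1 k2
    obtain ⟨e, he, rfl⟩ := List.mem_map.1 he'
    obtain ⟨hb, l1, l2, l3, l4, l5, l6, l7⟩ := h4 e he
    obtain ⟨b1, b2, b3⟩ := cb_beq hb
    have hd : e.g.full = false → 0 < P.δ := fun h => hδ (b1 ▸ h)
    obtain ⟨r1, r2, r3⟩ := (hx e he).2.2 P hP hd _ T1 T2
    have r4 := ((hx e he).1 P hP hd _ T1 T2).1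
    rw [b2] at r1 r2 r3 r4
    rw [b3] at r2 r3
    generalize sT pos D k 0 = T at *
    have hk := P.ka_pos.le
    have hs : 0 < P.s2 * P.cg := mul_pos P.par_s2_pos P.cg_pos
    refine ⟨⟨le_trans ?_ r1, r2.trans ?_, r3.trans ?_⟩, r4.trans ?_⟩
    · have := h2.le.trans l1
      gcongr
    · gcongr
    · gcongr
    · have := (nonneg_of_mul_nonneg_left ((norm_nonneg _).trans r4) (Real.exp_pos _)).trans l2
      gcongr

theorem cb_full (g : Cut) (b0 : ℕ) (pos : Bool) (j : ℕ) : (g.pc b0 pos j).full = g.full := by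
  unfold Cut.pc
  cases g.full <;> cases Nat.beq b0 0 <;> cases pos <;> rfl

theorem cb_chk (hP : bx.Mem P) (hb : 1 ≤ b) (hb0 : b0 = 0 ∨ b = b0)
    (hcx : cx.Ok P (2 * Real.pi / b)) {g : Cut} (hg : g.chk bx b0 cx = true) :
    (g.full = false → 0 < P.δ ∧ toR g.xl < 0 ∧ 0 < toR g.xu) ∧ (b0 = 0 → 2 ≤ b) ∧
      (g.full = true → g.k b0 b ≤ 0 ∧ 2 - g.k b0 b ≤ b) := by
  simp only [Cut.chk, Bool.and_eq_true] at hg
  have h2 : b0 = 0 → 2 ≤ b := fun h0 => by
    subst h0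
    have h3 : toR cx.Dh ≤ toR d34 := leI_ok hg.2
    have h4 : toR d34 < 1 := by rw [← toR_one, toR_lt]; decide
    by_contra h5
    obtain rfl : b = 1 := by omega
    have := hcx.hh
    have := Real.pi_gt_three
    simp only [Nat.cast_one, div_one] at *
    linarith
  refine ⟨fun hf => ?_, h2, fun hf => ?_⟩
  · have h1 := hg.1
    simp only [hf, Bool.false_or, Bool.and_eq_true] at h1
    have a1 := ltI_ok h1.1.1
    have a2 := ltI_ok h1.1.2
    have a3 := ltI_ok h1.2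
    rw [toR_zero] at a1 a2 a3
    refine ⟨P.hδ.lt_of_ne fun h0 => ?_, a2, a3⟩
    have := a1.trans_le hP.2.2.1
    rw [Par.t, Par.sg, Par.lam, ← h0] at this
    simp at this
  · unfold Cut.k
    split_ifs with h0
    · have := h2 h0
      omega
    · obtain rfl : b = b0 := hb0.resolve_left h0
      have h1 := hg.2
      rw [show Nat.beq b 0 = false by cases b <;> simp_all [Nat.beq]] at h1
      simpa [hf, cb_le] using h1

theorem cb_x (g : Cut) (k : ℤ) : toR (g.x k) = cutx g.k0 (toR g.xl) (toR g.xc) (toR g.xu) k := by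
  unfold Cut.x cutx
  split_ifs with h1 h2
  · rw [cb_lt.2 h1, cond_true]
  · rw [Bool.eq_false_iff.2 (mt cb_lt.1 h1), cb_lt.2 h2, cond_false, cond_true]
  · rw [Bool.eq_false_iff.2 (mt cb_lt.1 h1), Bool.eq_false_iff.2 (mt cb_lt.1 h2), cond_false,
      cond_false]

theorem cb_zero (hb0 : b0 = 0 ∨ b = b0) {g : Cut} (h2 : b0 = 0 → 2 ≤ b)
    (h3 : g.full = true → g.k b0 b ≤ 0 ∧ 2 - g.k b0 b ≤ b) (pos : Bool) (k : ℝ) :
    g.a P b0 b pos k 0 = (g.pc b0 pos 0).c P (sT pos (2 * Real.pi / b) k 0) ∧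
      g.n P b0 b pos k 0 =
        (g.pc b0 pos 0).n P (sT pos (2 * Real.pi / b) k 0) / (2 * Real.pi / b : ℝ) := by
  unfold Cut.a Cut.n Cut.pc Pc.c Pc.n
  cases hf : g.full
  · by_cases h0 : b0 = 0
    · have h4 := h2 h0
      subst h0
      have e1 : ∀ x y, cutx (g.k 0 b) x y y (-(b : ℤ)) = x := fun x y => by
        unfold cutx Cut.k
        rw [if_pos rfl, if_neg (by omega), if_pos (by omega)]
      have e2 : ∀ x y, cutx (g.k 0 b) x y y (1 - (b : ℤ)) = x := fun x y => by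
        unfold cutx Cut.k
        rw [if_pos rfl, if_neg (by omega), if_pos (by omega)]
      have e3 : ∀ x y, cutx (g.k 0 b) x y y 0 = y := fun x y => by
        unfold cutx Cut.k
        rw [if_pos rfl, if_neg (show ¬ (0 : ℤ) < _ by omega), ite_self]
      have e4 : ∀ x y, cutx (g.k 0 b) x y y 1 = y := fun x y => by
        unfold cutx Cut.k
        rw [if_pos rfl, if_pos (by omega)]
      cases pos <;> simp [e1, e2, e3, e4, Nat.beq]
    · obtain rfl : b = b0 := hb0.resolve_left h0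
      rw [show Nat.beq b 0 = false by cases b <;> simp_all [Nat.beq]]
      cases pos <;> simp [cb_x, Cut.k, h0]
  · have h4 := h3 hf
    have e1 : (0 : ℤ) < 1 - g.k b0 b := by omega
    have e2 : (0 : ℤ) < b - 1 + g.k b0 b := by omega
    cases pos <;> simp only [Nat.cast_zero, e1, e2, if_true, cond_true, Bool.false_eq_true,
      if_false, and_self]

theorem cb_link (hb : 1 ≤ b) {g : Cut} (h1 : g.full = false → 0 < P.δ ∧ toR g.xl < 0 ∧ 0 < toR g.xu)
    (h3 : g.full = true → g.k b0 b ≤ 0 ∧ 2 - g.k b0 b ≤ b) {χ : ℤ → ℂ} {κ : ℝ} {u : ℂ}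
    (h : P.ZZ b χ κ u) : Sol (fun j => χ (-j) * g.a P b0 b true κ j)
      (fun j => χ (j + 1) * g.a P b0 b false (1 - κ) j) u := by
  have e : ∀ j : ℕ, sT false (2 * Real.pi / b) (1 - κ) j = (κ - (j + 1)) * (2 * Real.pi / b) :=
    fun j => by simp only [sT, Bool.false_eq_true, if_false]; ring
  have e' : ∀ j : ℕ, sT true (2 * Real.pi / b) κ j = (κ + j) * (2 * Real.pi / b) := fun j => rfl
  unfold Cut.a
  cases hf : g.full
  · obtain ⟨a1, a2, a3⟩ := h1 hf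
    simp only [e, e', Bool.false_eq_true, if_false, if_true]
    exact link_piece P a1 hb h _ a2 a3
  · have h4 := h3 hf
    have := link_full P h (1 - g.k b0 b).toNat (b - 1 + g.k b0 b).toNat (by omega)
    simp only [Int.lt_toNat] at this
    simpa only [e, e', Bool.false_eq_true, if_false, if_true, mul_ite, mul_zero] using this

theorem cb_der {c n : ℝ → ℂ} {w : ℂ} {T : ℝ → ℝ} {D κ x : ℝ} (hD : 0 < D) (hT : HasDerivAt T D κ)
    (hx : T κ = x * D)
    (hc : ∀ T, HasDerivAt c (P.ka * (n T - (1 + Complex.I * P.lam) * T * c T)) T) :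
    HasDerivAt (fun s => w * c (T s)) (((P.ka * D ^ 2 : ℝ) : ℂ) * (w * (n (T κ) / D) +
      -(1 + Complex.I * P.lam) * x * (w * c (T κ)))) κ := by
  refine ((HasDerivAt.scomp κ (hc (T κ)) hT).const_mul w).congr_deriv ?_
  have hD' : (D : ℂ) ≠ 0 := Complex.ofReal_ne_zero.2 hD.ne'
  rw [Complex.real_smul]
  generalize n (T κ) = y
  generalize c (T κ) = z
  rw [hx]
  push_cast
  field_simp
  ring

theorem cb_dA (hb : 1 ≤ b) {g : Cut} (h1 : g.full = false → 0 < P.δ) (w : ℂ) (pos : Bool) (j : ℕ)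
    {k : ℝ → ℝ} {κ x : ℝ}
    (hT : HasDerivAt (fun s => sT pos (2 * Real.pi / b) (k s) j) (2 * Real.pi / b) κ)
    (hx : sT pos (2 * Real.pi / b) (k κ) j = x * (2 * Real.pi / b)) :
    HasDerivAt (fun s => w * g.a P b0 b pos (k s) j)
      (((P.ka * (2 * Real.pi / b) ^ 2 : ℝ) : ℂ) * (w * g.n P b0 b pos (k κ) j +
        -(1 + Complex.I * P.lam) * x * (w * g.a P b0 b pos (k κ) j))) κ := by
  have hD : 0 < 2 * Real.pi / b := by have := Real.pi_pos; positivity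
  unfold Cut.a Cut.n
  cases hf : g.full
  · simp only [Bool.false_eq_true, if_false]
    split_ifs
    all_goals exact cb_der hD hT hx (P.cP_deriv (h1 hf) _ _)
  · simp only [if_true]
    by_cases h : (j : ℤ) < if pos = true then 1 - g.k b0 b else b - 1 + g.k b0 b
    · simp only [if_pos h]
      exact cb_der hD hT hx P.cF_deriv
    · simp only [if_neg h, mul_zero, zero_div, add_zero]
      exact hasDerivAt_const _ _

theorem cb_dom {D k s lo hl m z sb q : ℝ} {c n : ℂ} (hD : 0 < D) (hk : 0 ≤ k) (hs : s = 1 ∨ s = -1)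
    (hlo : 0 < lo) (hsb : 0 ≤ sb) (hq : 1 / (P.s2 * P.cg * D) ≤ q)
    (h : P.Pr (s * (k * D)) c n lo hl m z sb) :
    c ≠ 0 ∧ ‖n / D‖ / ‖c‖ ≤ k * z + sb * q ∧ s * (n / D / c).re ≤ (1 - m) * k + sb * q := by
  obtain ⟨h1, h2, h3⟩ := h
  have hc : 0 < ‖c‖ := (mul_pos hlo (Real.exp_pos _)).trans_le h1
  have ha : |s * (k * D)| = k * D := by
    rcases hs with rfl | rfl <;> simp [abs_of_nonneg (mul_nonneg hk hD.le)]
  have hs2 : s ^ 2 = 1 := by rcases hs with rfl | rfl <;> norm_num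
  have hp : 0 < P.s2 * P.cg := mul_pos P.par_s2_pos P.cg_pos
  have e1 : sb / (P.s2 * P.cg) / D ≤ sb * q := by
    rw [div_div, div_eq_mul_one_div]
    exact mul_le_mul_of_nonneg_left hq hsb
  rw [ha] at h2 h3
  have e2 : ‖n / D‖ / ‖c‖ ≤ k * z + sb / (P.s2 * P.cg) / D := by
    rw [norm_div, Complex.norm_real, Real.norm_of_nonneg hD.le, div_div, mul_comm D, ← div_div,
      div_le_iff₀ hD, div_le_iff₀ hc]
    refine h2.trans_eq ?_
    field_simp
  refine ⟨norm_pos_iff.1 hc, e2.trans (by linarith), ?_⟩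
  rcases hk.eq_or_lt with rfl | hk
  · have e3 : |(n / D / c).re| ≤ ‖n / D‖ / ‖c‖ := by
      rw [← norm_div]; exact Complex.abs_re_le_norm _
    have e4 := abs_le.1 e3
    rcases hs with rfl | rfl <;> linarith [e4.1, e4.2]
  · have e3 : (n / D / c).re = (n * (starRingEnd ℂ) c).re / ‖c‖ ^ 2 / D := by
      rw [div_right_comm, Complex.div_ofReal_re, div_eq_mul_inv n, Complex.inv_def,
        Complex.normSq_eq_norm_sq, ← mul_assoc, Complex.re_mul_ofReal, div_eq_mul_inv _ (‖c‖ ^ 2)]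
    have e5 : s * (n / D / c).re ≤ (1 - m) * k + sb / (P.s2 * P.cg) / D := by
      rw [e3]
      generalize (n * (starRingEnd ℂ) c).re = y at h3 ⊢
      generalize sb / (P.s2 * P.cg) = v at h3 ⊢
      rw [mul_pow, hs2, one_mul] at h3
      have e6 : s * (y / ‖c‖ ^ 2 / D) = s * (k * D) * y / (‖c‖ ^ 2 * (k * D ^ 2)) := by
        field_simp
      rw [e6, div_le_iff₀ (by positivity)]
      refine h3.trans_eq ?_
      field_simp
    linarith

theorem cb_ratio {Q ka kc : ℤ} {a c : FX} {ν x w r s : ℝ} (h0 : 0 < toR cx.ν) (hν : toR cx.ν ≤ ν)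
    (hlo : 0 < toR a.lo) (hl : toR a.hl ≤ 0) (hh : toR c.hh ≤ 0) (hc0 : 0 ≤ toR kc)
    (hc : toR kc ≤ s) (hr0 : 0 ≤ r) (hr : r ≤ toR ka) (hx0 : 0 ≤ x)
    (hx : x ≤ toR c.hi * Real.exp (ν * (s ^ 2 * toR c.hh)))
    (hw : toR a.lo * Real.exp (ν * (r ^ 2 * toR a.hl)) ≤ w) (hQ : x / w ≤ toR Q) :
    x / w ≤ toR (ratio cx Q a c ka kc) := by
  unfold ratio
  dsimp only
  set y := mulD (mulD kc kc) (-c.hh) - mulU (mulU ka ka) (-a.hl) with hy
  cases e : ltI y 0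
  · rw [cond_false, toR_minI]
    refine le_min hQ ?_
    have y0 := ltI_false e
    rw [toR_zero] at y0
    have hi : 0 ≤ toR c.hi := nonneg_of_mul_nonneg_left (hx0.trans hx) (Real.exp_pos _)
    have y1 : toR (mulD (mulD kc kc) (-c.hh)) ≤ s ^ 2 * -toR c.hh := by
      refine (mulD_ok _ _).trans ?_
      rw [toR_neg]
      refine mul_le_mul_of_nonneg_right ((mulD_ok _ _).trans ?_) (by linarith)
      nlinarith
    have y2 : r ^ 2 * -toR a.hl ≤ toR (mulU (mulU ka ka) (-a.hl)) :=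
      mulU_le (sq_nonneg r) (by linarith) (by rw [sq]; exact mulU_le hr0 hr0 hr hr)
        (toR_neg _).ge
    have y3 : toR y ≤ s ^ 2 * -toR c.hh - r ^ 2 * -toR a.hl := by
      rw [hy, toR_sub]; linarith
    have y4 : toR (mulD cx.ν y) ≤ ν * (s ^ 2 * -toR c.hh - r ^ 2 * -toR a.hl) :=
      mulD_le h0.le y0 hν y3
    calc x / w ≤ toR c.hi * Real.exp (ν * (s ^ 2 * toR c.hh)) /
          (toR a.lo * Real.exp (ν * (r ^ 2 * toR a.hl))) := by gcongr
      _ = toR c.hi / toR a.lo *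
          Real.exp (ν * (s ^ 2 * toR c.hh) - ν * (r ^ 2 * toR a.hl)) := by
        rw [Real.exp_sub]; field_simp
      _ ≤ _ := by
        refine mulU_le (by positivity) (Real.exp_pos _).le (divU_ok _ hlo)
          (le_trans (Real.exp_le_exp.2 ?_) (expU_ok _))
        rw [toR_neg]; linarith
  · exact hQ

theorem cb_shift (f : ℕ → ℝ) (n : ℕ) :
    ∑ j ∈ (Finset.range (n + 1)).filter (fun i => 1 ≤ i), f j =
      ∑ j ∈ Finset.range n, f (j + 1) := by
  rw [Finset.sum_filter, Finset.sum_range_succ']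
  simp

theorem cb_side {a n a' n' : ℕ → ℂ} {Y Y0 e0 e1 S0 S1 S2 : ℝ} (ha : ∀ j, ‖a' j‖ = ‖a j‖)
    (hn : ∀ j, ‖n' j‖ = ‖n j‖) (h0 : a 0 ≠ 0)
    (h : SideB a n (fun i => 1 ≤ i) ‖a 0‖ Y Y0 e0 e1 S0 S1 S2) (N : ℕ) :
    ∑ j ∈ Finset.range N, ‖a' (j + 1)‖ / ‖a' 0‖ ≤ S0 ∧
    ∀ y q f0 f1 : ℝ, 0 ≤ y → y ≤ Y → 0 ≤ q → q ≤ Y0 → 0 ≤ f0 → f0 ≤ e0 → 0 ≤ f1 → f1 ≤ e1 →
      ∑ j ∈ Finset.range N, ((j : ℝ) + 2) * q * y ^ (j + 1) * (‖a' (j + 1)‖ / ‖a' 0‖) ≤ S1 ∧
      ∑ j ∈ Finset.range N, q * y ^ (j + 1) *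
        ((‖n' (j + 1)‖ + (((j : ℝ) + 2) * f0 + (j + 1) * f1) * ‖a' (j + 1)‖) / ‖a' 0‖) ≤ S2 := by
  obtain ⟨h1, h2, h3⟩ := h (N + 1)
  rw [cb_shift] at h1 h2 h3
  have hp : 0 < ‖a 0‖ := norm_pos_iff.2 h0
  simp only [ha, hn, ← mul_div_assoc, ← Finset.sum_div, div_le_iff₀ hp]
  refine ⟨h1, fun y q f0 f1 y0 y1 q0 q1 a0 a1 c0 c1 => ⟨le_trans ?_ h2, le_trans ?_ h3⟩⟩
  · refine Finset.sum_le_sum fun j _ => ?_
    have := q0.trans q1
    push_cast
    rw [show (j : ℝ) + 1 + 1 = j + 2 by ring]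
    gcongr
  · refine Finset.sum_le_sum fun j _ => ?_
    have := q0.trans q1
    have := y0.trans y1
    push_cast
    rw [show (j : ℝ) + 1 + 1 = j + 2 by ring]
    gcongr

theorem cb_rchk {g : Cut} {R : Rf} {pos : Bool} {j0 : ℕ} {d : SideC} {K : ℤ → ℤ → ℤ → Bool}
    (h : side cx t g b0 R pos j0 d K = true) : 0 ≤ toR R.k1 ∧ toR R.k2 ≤ 1 := by
  have h1 : R.chk = true := (Bool.and_eq_true _ _ ▸ h).1
  simp only [Rf.chk, Bool.and_eq_true] at h1
  exact ⟨toR_zero ▸ leI_ok h1.1.1.1.1.1.1.1.1, toR_one ▸ leI_ok h1.1.1.1.1.1.1.2⟩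

theorem cb_uat (ht : t.Ok bx) (hP : bx.Mem P) (hb : 1 ≤ b) (hb0 : b0 = 0 ∨ b = b0)
    (hcx : cx.Ok P (2 * Real.pi / b)) {g : Cut} (hg : g.chk bx b0 cx = true) {Q Q2 κ1 : ℤ} {d : MI}
    {B g0 K1 K2 : ℤ} (hB : toR B < 1 / 2) (hQ : 1 / (1 - toR B) ≤ toR Q)
    (hQ2 : 1 / (1 - toR B / (1 - toR B)) ≤ toR Q2)
    (h : valM1 cx t b0 g Q Q2 κ1 d (fun g0' B' K1' K2' =>
      leI g0 g0' && leI B' B && leI K1' K1 && leI K2' K2) = true) {χ : ℤ → ℂ}
    (hχ : ∀ k, ‖χ k‖ = 1) {κ : ℝ} (h1 : toR κ1 ≤ κ) (h2 : κ ≤ toR d.κ2) :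
    UAt (fun j => χ (-j) * g.a P b0 b true κ j) (fun j => χ (j + 1) * g.a P b0 b false (1 - κ) j)
      (fun j => χ (-j) * g.n P b0 b true κ j) (fun j => χ (j + 1) * g.n P b0 b false (1 - κ) j)
      (toR B) (toR g0) (toR K1) (toR K2) (1 + Complex.I * P.lam) := by
  obtain ⟨c1, c2, c3⟩ := cb_chk hP hb hb0 hcx hg
  have hδ : ∀ pos, (g.pc b0 pos 0).full = false → 0 < P.δ := fun pos h =>
    (c1 (cb_full g b0 pos 0 ▸ h)).1
  simp only [valM1, fI_eq] at h
  obtain ⟨a, h, a1, a2, a3, a4, a5, ha⟩ := cb_prin ht hP hcx (hδ true) h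
  obtain ⟨c, h, d1, d2, d3, d4, d5, hc⟩ := cb_prin ht hP hcx (hδ false) h
  obtain ⟨k0, k1⟩ := cb_rchk h
  dsimp only at k0 k1
  have l1 : toR (one - d.κ2) = 1 - toR d.κ2 := by rw [toR_sub, toR_one]
  have l2 : toR (one - κ1) = 1 - toR κ1 := by rw [toR_sub, toR_one]
  have κ0 : 0 ≤ κ := k0.trans h1
  have κ0' : 0 ≤ 1 - κ := by linarith
  have m1 : toR (one - d.κ2) ≤ 1 - κ := by linarith
  have m2 : 1 - κ ≤ toR (one - κ1) := by linarith
  obtain ⟨pa, ua⟩ := ha κ κ0 h1 h2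
  obtain ⟨pc, uc⟩ := hc (1 - κ) κ0' m1 m2
  obtain ⟨za, zn⟩ := cb_zero (P := P) hb0 c2 c3 true κ
  obtain ⟨zc, zm⟩ := cb_zero (P := P) hb0 c2 c3 false (1 - κ)
  have hD := hcx.hD
  have s1 : sT true (2 * Real.pi / b) κ 0 = 1 * (κ * (2 * Real.pi / b)) := by simp [sT]
  have s2 : sT false (2 * Real.pi / b) (1 - κ) 0 = -1 * ((1 - κ) * (2 * Real.pi / b)) := by
    simp [sT]
  rw [← za] at pa ua
  rw [← zc] at pc uc
  have t1 : ∀ y, P.ka * (sT true (2 * Real.pi / b) κ 0 ^ 2 * y) =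
      P.ka * (2 * Real.pi / b) ^ 2 * (κ ^ 2 * y) := fun y => by rw [s1]; ring
  have t2 : ∀ y, P.ka * (sT false (2 * Real.pi / b) (1 - κ) 0 ^ 2 * y) =
      P.ka * (2 * Real.pi / b) ^ 2 * ((1 - κ) ^ 2 * y) := fun y => by rw [s2]; ring
  have la := pa.1
  have lc := pc.1
  rw [t1] at la ua
  rw [t2] at lc uc
  obtain ⟨n1, n2, n3⟩ := cb_dom hD κ0 (Or.inl rfl) a1 a5 hcx.hq (s1 ▸ pa)
  obtain ⟨o1, o2, o3⟩ := cb_dom hD κ0' (Or.inr rfl) d1 d5 hcx.hq (s2 ▸ pc)
  rw [← s1, ← zn] at n2 n3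
  rw [← s2, ← zm] at o2 o3
  obtain ⟨u0, u1, u2, h, sU⟩ := side_ok ht hP hb hb0 hg (k := κ) (r := κ)
    (Rr := ‖g.a P b0 b true κ 0‖)
    (fun hR => ⟨hcx, hR, h1, h2, Or.inl ⟨rfl, rfl, rfl⟩, by
      rw [toR_neg, mul_neg, mul_neg, neg_neg]; exact la⟩) le_rfl h
  obtain ⟨v0, v1, v2, h, sL⟩ := side_ok ht hP hb hb0 hg (k := 1 - κ) (r := 1 - κ)
    (Rr := ‖g.a P b0 b false (1 - κ) 0‖)
    (fun hR => ⟨hcx, hR, m1, m2, Or.inl ⟨rfl, rfl, rfl⟩, by
      rw [toR_neg, mul_neg, mul_neg, neg_neg]; exact lc⟩) le_rfl h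
  dsimp only at sU sL
  simp only [Bool.and_eq_true] at h
  obtain ⟨⟨⟨f1, f2⟩, f3⟩, f4⟩ := h
  replace f1 := leI_ok f1
  replace f2 := leI_ok f2
  replace f3 := leI_ok f3
  replace f4 := leI_ok f4
  rw [toR_add] at f2 f3 f4
  have hχ0 : ∀ k, χ k ≠ 0 := fun k => norm_ne_zero_iff.1 (by rw [hχ]; exact one_ne_zero)
  have nm : ∀ k z, ‖χ k * z‖ = ‖z‖ := fun k z => by rw [norm_mul, hχ, one_mul]
  have SU := cb_side (a' := fun j => χ (-j) * g.a P b0 b true κ j)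
    (n' := fun j => χ (-j) * g.n P b0 b true κ j) (fun _ => nm _ _) (fun _ => nm _ _) n1 sU
  have SL := cb_side (a' := fun j => χ (j + 1) * g.a P b0 b false (1 - κ) j)
    (n' := fun j => χ (j + 1) * g.n P b0 b false (1 - κ) j) (fun _ => nm _ _) (fun _ => nm _ _)
    o1 sL
  have q0 : 0 ≤ toR cx.q := le_trans (by
    have := P.par_s2_pos
    have := P.cg_pos
    positivity) hcx.hq
  refine ⟨mul_ne_zero (hχ0 _) n1, mul_ne_zero (hχ0 _) o1, ?_,
    fun n => by linarith [(SU n).1, (SL n).1], fun r1 r2 n => ?_⟩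
  · rw [mul_div_mul_left _ _ (hχ0 _), mul_div_mul_left _ _ (hχ0 _), Complex.add_re,
      Complex.sub_re]
    have i1 : (1 + Complex.I * P.lam).re = 1 := by simp
    rw [toR_sub, toR_minI, toR_add, toR_add] at f1
    have i2 := mulU_ok (a.sb + c.sb) cx.q
    have i3 := mulD_ok κ1 a.m
    have i4 := mulD_ok (one - κ1) c.m
    have i5 := mulD_ok d.κ2 a.m
    have i6 := mulD_ok (one - d.κ2) c.m
    rw [toR_add] at i2
    rw [l2] at i4
    rw [l1] at i6
    have i7 : min (toR (mulD κ1 a.m) + toR (mulD (one - κ1) c.m))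
        (toR (mulD d.κ2 a.m) + toR (mulD (one - d.κ2) c.m)) ≤
        κ * toR a.m + (1 - κ) * toR c.m := by
      rcases le_total (toR a.m) (toR c.m) with e | e
      · exact (min_le_right _ _).trans (by nlinarith)
      · exact (min_le_left _ _).trans (by nlinarith)
    rw [i1]
    linarith
  · have hB1 : 0 < 1 - toR B := by linarith
    have q2 : 0 ≤ 1 / (1 - toR B / (1 - toR B)) := by
      have : toR B / (1 - toR B) ≤ 1 := by rw [div_le_one hB1]; linarith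
      exact div_nonneg zero_le_one (by linarith)
    simp only [nm] at r1 r2
    have pU := norm_pos_iff.2 n1
    have pL := norm_pos_iff.2 o1
    have r3 : ‖g.a P b0 b true κ 0‖ / ‖g.a P b0 b false (1 - κ) 0‖ ≤ toR Q := by
      refine le_trans ?_ hQ
      rw [le_div_iff₀ pU] at r1
      rw [div_le_div_iff₀ pL hB1]
      linarith
    have y1 := cb_ratio hcx.hν0 hcx.hν a1 a2 d3 (by linarith) m1 κ0 h2 (norm_nonneg _) uc la
      (r2.trans hQ)
    have y2 := cb_ratio hcx.hν0 hcx.hν d1 d2 a3 k0 h1 κ0' m2 (norm_nonneg _) ua lc r3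
    have z0 : ‖g.n P b0 b true κ 0‖ / ‖g.a P b0 b true κ 0‖ ≤
        toR (mulU d.κ2 a.z + mulU a.sb cx.q) := by
      rw [toR_add]
      exact n2.trans (add_le_add (mulU_le κ0 a4 h2 le_rfl) (mulU_ok _ _))
    have z1 : ‖g.n P b0 b false (1 - κ) 0‖ / ‖g.a P b0 b false (1 - κ) 0‖ ≤
        toR (mulU (one - κ1) c.z + mulU c.sb cx.q) := by
      rw [toR_add]
      exact o2.trans (add_le_add (mulU_le κ0' d4 m2 le_rfl) (mulU_ok _ _))
    have w1 := (SU n).2 _ _ _ _ (by positivity) (mulU_le (by positivity) q2 y1 hQ2) q2 hQ2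
      (by positivity) z0 (by positivity) z1
    have w2 := (SL n).2 _ _ _ _ (by positivity) (mulU_le (by positivity) q2 y2 hQ2) q2 hQ2
      (by positivity) z1 (by positivity) z0
    simp only [nm] at w1 w2 ⊢
    exact ⟨by linarith [w1.1, w2.1], by linarith [w1.2, w2.2]⟩

theorem cb_ml (ht : t.Ok bx) (hP : bx.Mem P) (hb : 1 ≤ b) (hb0 : b0 = 0 ∨ b = b0)
    (hcx : cx.Ok P (2 * Real.pi / b)) {m : MC} (hg : m.g.chk bx b0 cx = true) {Q Q2 : ℤ}
    (hB : toR m.B < 1 / 2) (hQ : 1 / (1 - toR m.B) ≤ toR Q)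
    (hQ2 : 1 / (1 - toR m.B / (1 - toR m.B)) ≤ toR Q2) {l : List MI} {κ0 : ℤ} {K : ℤ → Bool}
    (h : chkMl cx t b0 m Q Q2 l κ0 K = true) : ∃ κ1, K κ1 = true ∧ (l = [] → κ1 = κ0) ∧
      ∀ χ : ℤ → ℂ, (∀ k, ‖χ k‖ = 1) → l ≠ [] → ∀ κ, toR κ0 ≤ κ → κ ≤ toR κ1 →
        UAt (fun j => χ (-j) * m.g.a P b0 b true κ j)
          (fun j => χ (j + 1) * m.g.a P b0 b false (1 - κ) j)
          (fun j => χ (-j) * m.g.n P b0 b true κ j)
          (fun j => χ (j + 1) * m.g.n P b0 b false (1 - κ) j)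
          (toR m.B) (toR m.g0) (toR m.K1) (toR m.K2) (1 + Complex.I * P.lam) := by
  induction l generalizing κ0 with
  | nil => exact ⟨κ0, h, fun _ => rfl, fun _ _ h => (h rfl).elim⟩
  | cons d l ih =>
    rw [chkMl, Bool.and_eq_true] at h
    obtain ⟨κ1, e1, e2, e3⟩ := ih h.2
    refine ⟨κ1, e1, fun h => by simp at h, fun χ hχ _ κ h1 h2 => ?_⟩
    by_cases h3 : κ ≤ toR d.κ2
    · exact cb_uat ht hP hb hb0 hcx hg hB hQ hQ2 h.1 hχ h1 h3
    · exact e3 χ hχ (fun h4 => h3 (e2 h4 ▸ h2)) κ (not_le.1 h3).le h2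

/-- uniqueness on the monotonicity interval -/
theorem chkMon_ok (ht : t.Ok bx) (hP : bx.Mem P) (hb : 1 ≤ b) (hb0 : b0 = 0 ∨ b = b0)
    (hcx : cx.Ok P (2 * Real.pi / b)) {m : MC} {κ0 : ℤ} {K : ℤ → Bool}
    (h : chkMon bx cx t b0 m κ0 K = true) : ∃ κ1, K κ1 = true ∧ (m.l = [] → κ1 = κ0) ∧
      ∀ χ : ℤ → ℂ, (∀ k, ‖χ k‖ = 1) →
      ∀ κ κ' u u', toR κ0 ≤ κ → κ ≤ toR κ1 → toR κ0 ≤ κ' → κ' ≤ toR κ1 → m.l ≠ [] →
        P.ZZ b χ κ u → P.ZZ b χ κ' u' → κ = κ' ∧ u = u' := by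
  simp only [chkMon, fI_eq, Bool.and_eq_true] at h
  obtain ⟨⟨⟨⟨⟨⟨hg, h1⟩, h2⟩, h3⟩, -⟩, h5⟩, h6, h⟩ := h
  have B0 := leI_ok h1
  have B1 := ltI_ok h2
  have K1 := ltI_ok h3
  have K2 := ltI_ok h5
  have e0 := ltI_ok h6
  rw [toR_zero] at B0 e0
  rw [toR_intmul, toR_one] at B1
  rw [toR_one] at K1
  push_cast at B1
  have l1 : toR (one - m.B) = 1 - toR m.B := by rw [toR_sub, toR_one]
  have l2 : toR (one - m.K1) = 1 - toR m.K1 := by rw [toR_sub, toR_one]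
  have hB1 : 0 < 1 - toR m.B := by linarith
  have hQ := divU_ok one (l1 ▸ hB1)
  have hQ2 := divU_ok one e0
  rw [toR_one] at hQ hQ2
  rw [l1] at hQ
  have hQ3 : 1 / (1 - toR m.B / (1 - toR m.B)) ≤
      toR (divU one (one - mulU m.B (divU one (one - m.B)))) := by
    refine le_trans (one_div_le_one_div_of_le e0 ?_) hQ2
    rw [toR_sub, toR_one, div_eq_mul_one_div]
    exact sub_le_sub_left (mulU_le B0 (by positivity) le_rfl hQ) 1
  have hK : toR m.K2 < toR m.g0 * (1 - toR m.B) * (1 - toR m.K1) := by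
    refine K2.trans_le ((mulD_ok _ _).trans ?_)
    rw [l2, ← l1]
    exact mul_le_mul_of_nonneg_right (mulD_ok _ _) (by linarith)
  obtain ⟨κ1, e1, e2, e3⟩ := cb_ml ht hP hb hb0 hcx hg (by linarith) hQ hQ3 h
  obtain ⟨c1, -, c3⟩ := cb_chk hP hb hb0 hcx hg
  refine ⟨κ1, e1, e2, fun χ hχ κ κ' u u' a1 a2 a3 a4 hl z z' => ?_⟩
  refine ulem (ν := P.ka * (2 * Real.pi / b) ^ 2) (r0 := fun κ => -(1 + Complex.I * P.lam) * κ)
    (dr := fun _ => 1 + Complex.I * P.lam)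
    (aU := fun j κ => χ (-j) * m.g.a P b0 b true κ j)
    (aL := fun j κ => χ (j + 1) * m.g.a P b0 b false (1 - κ) j)
    (nU := fun j κ => χ (-j) * m.g.n P b0 b true κ j)
    (nL := fun j κ => χ (j + 1) * m.g.n P b0 b false (1 - κ) j)
    (hcx.hν0.trans_le hcx.hν) B0 (by linarith) K1 hK (fun j s _ _ => ?_) (fun j s _ _ => ?_)
    (e3 χ hχ hl) a1 a2 a3 a4 z.1 z'.1 (cb_link hb c1 c3 z) (cb_link hb c1 c3 z')
  · refine (cb_dA hb (fun h => (c1 h).1) (χ (-j)) true j (k := fun s => s) (x := s + j)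
      ?_ rfl).congr_deriv ?_
    · simpa [sT] using ((hasDerivAt_id s).add_const (j : ℝ)).mul_const (2 * Real.pi / b)
    · push_cast; ring
  · refine (cb_dA hb (fun h => (c1 h).1) (χ (j + 1)) false j (k := fun s => 1 - s)
      (x := s - (j + 1)) ?_ ?_).congr_deriv ?_
    · simpa [sT] using ((((hasDerivAt_id s).const_sub 1).add_const (j : ℝ)).mul_const
        (2 * Real.pi / b)).fun_neg
    · simp only [sT, Bool.false_eq_true, if_false]; ring
    · push_cast; ring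

end

/-- uniqueness for one case -/
theorem chkCase_ok {col : Col} {bx : Box} (hc : col.For bx) {t : Tab} (ht : t.Ok bx) {d : CaseC}
    (h : chkCase col bx t d = true) : d.c.Ok bx := by
  intro P hP b hb hm hν χ hχ
  simp only [chkCase, Bool.and_eq_true] at h
  obtain ⟨cx, h2, -, -, h3⟩ := mkCx_ok h.2
  obtain ⟨x, hx⟩ := hc.2 P hP
  have hb' : (0 : ℝ) < b := by exact_mod_cast hb
  have hm' : (d.c.b = 0 ∨ b = d.c.b) ∧ toR d.c.Dl ≤ 2 * Real.pi / b ∧
      2 * Real.pi / b ≤ toR d.c.Dh := by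
    unfold Case.Mem at hm
    split_ifs at hm with h0
    · exact ⟨Or.inl h0, hm⟩
    · have h1 := h.1
      unfold Case.chk at h1
      rw [← hm] at h0 h1
      rw [show Nat.beq b 0 = false by cases b <;> simp_all [Nat.beq], Bool.false_or,
        Bool.and_eq_true] at h1
      have i1 := leI_ok h1.1
      have i2 := leI_ok h1.2
      rw [toR_natmul, toR_intmul] at i1
      rw [toR_natmul, toR_intmul] at i2
      push_cast at i1 i2
      refine ⟨Or.inr hm, ?_, ?_⟩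
      · rw [le_div_iff₀ hb']; linarith [piD_ok]
      · rw [div_le_iff₀ hb']; linarith [piU_ok]
  have hcx := h3 _ P _ (hx 0 (by simp)) (by have := Real.pi_pos; positivity) hm'.2.1 hm'.2.2 hν
  obtain ⟨κa, h4, ha⟩ := chkDl_ok ht hP hb hm'.1 hcx h2
  obtain ⟨κb, h5, hl, hM⟩ := chkMon_ok ht hP hb hm'.1 hcx h4
  obtain ⟨κc, h6, hC⟩ := chkDl_ok ht hP hb hm'.1 hcx h5
  have h7 := leI_ok h6
  rw [toR_one] at h7
  have key : ∀ κ u, 0 ≤ κ → κ < 1 → P.ZZ b χ κ u → toR κa ≤ κ ∧ κ < toR κb := by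
    intro κ u k0 k1 z
    refine ⟨le_of_not_gt fun k2 => ?_, lt_of_not_ge fun k2 => ?_⟩
    · obtain ⟨e1, e2⟩ := ha χ hχ κ u (toR_zero ▸ k0) k2.le z
      rw [e2, ← e1] at k2
      exact lt_irrefl _ k2
    · obtain ⟨e1, e2⟩ := hC χ hχ κ u k2 (by linarith) z
      rw [e2, ← e1] at h7
      linarith
  intro κ κ' u u' k0 k1 k0' k1' z z'
  obtain ⟨p1, p2⟩ := key κ u k0 k1 z
  obtain ⟨p3, p4⟩ := key κ' u' k0' k1' z'
  refine hM χ hχ κ κ' u u' p1 p2.le p3 p4.le (fun e => ?_) z z'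
  rw [hl e] at p2
  linarith

end Pool.Agent.Sok
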