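import Pool.Agent.Sok.Gen

/-! The Laplace estimate on a symmetric segment through a saddle point. -/

set_option autoImplicit false

namespace Pool.Agent.Sok

open Set

noncomputable def lcX (U0 u : ℝ) : ℝ := min 1 (u / U0)
noncomputable def lcY (U0 p k u : ℝ) : ℝ := u ^ 2 / 2 * (p * lcX U0 u + k * lcX U0 u ^ 3)
noncomputable def lcZ (U0 e k u : ℝ) : ℝ := u ^ 2 / 2 * (e * lcX U0 u ^ 2 + k * lcX U0 u ^ 3)
noncomputable def lcG (u : ℝ) : ℝ := Real.exp (-(u ^ 2 / 2)) * 2 / Real.sqrt (2 * Real.pi)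
/-- the common factor of the moment integrals -/
noncomputable def lcM (U0 p e k u : ℝ) : ℝ :=
  (2 + Real.cosh (lcY U0 p k u)) / 3 * Real.exp (lcZ U0 e k u) * lcG u

/-- the numerical constants of a class of saddle cores -/
structure LCok (U0 p e k J2 JE tr M3 M5 N3 N5 : ℝ) : Prop where
  hU : 0 < U0
  hp : 0 ≤ p
  he : 0 ≤ e
  hk : 0 ≤ k
  hJ2 : ∀ U, 0 ≤ U → ∫ u in (0 : ℝ)..U, u ^ 4 / 8 * lcX U0 u ^ 2 *
    ((5 + Real.cosh (lcY U0 p k u)) / 6) * Real.exp (lcZ U0 e k u) * lcG u ≤ J2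
  hJE : ∀ U, 0 ≤ U → ∫ u in (0 : ℝ)..U, (Real.exp (lcZ U0 e k u) - 1) * lcG u ≤ JE
  htr : ∫ u in Ioi U0, lcG u ≤ tr
  hM3 : ∀ U, 0 ≤ U → ∫ u in (0 : ℝ)..U, u ^ 4 / 2 * lcM U0 p e k u ≤ M3
  hM5 : ∀ U, 0 ≤ U → ∫ u in (0 : ℝ)..U, u ^ 4 / 2 * lcX U0 u ^ 2 * lcM U0 p e k u ≤ M5
  hN3 : ∀ U, 0 ≤ U → ∫ u in (0 : ℝ)..U, min u U0 ^ 2 * u ^ 2 / 2 * lcM U0 p e k u ≤ N3
  hN5 : ∀ U, 0 ≤ U →
    ∫ u in (0 : ℝ)..U, min u U0 ^ 2 * u ^ 2 / 2 * lcX U0 u ^ 2 * lcM U0 p e k u ≤ N5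

/-- hypotheses on the core `[z - d, z + d]` -/
structure CoreHyp (J : Jet) (z d : ℂ) (L0 U0 p e k al c kk : ℝ) : Prop where
  hL0 : 0 < L0
  hL : L0 ≤ J.L
  hz : J.f1 z = 0
  hal0 : 0 < al
  hU : ∀ s : ℝ, -1 ≤ s → s ≤ 1 → z + s * d ∈ J.U ∧
    ‖J.f5 (z + s * d)‖ * ‖d‖ ^ 5 / 120 ≤ kk * al
  hal : al ≤ -(J.f2 z * d ^ 2 / 2).re
  hp : |(J.f3 z * d ^ 3 / 6).re| ≤ p * al
  hc : ‖J.f3 z * d ^ 3 / 6‖ ≤ c * al
  he : ‖J.f4 z * d ^ 4 / 24‖ ≤ e * al
  hk : kk ≤ k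
  hU0 : U0 ^ 2 ≤ 2 * al * L0

theorem co_bound {g g' : ℝ → ℂ} {B B' : ℝ → ℝ} (hg : ∀ s ∈ Icc (0 : ℝ) 1, HasDerivAt g (g' s) s)
    (g0 : g 0 = 0) (hB : ∀ s, HasDerivAt B (B' s) s) (B0 : B 0 = 0)
    (hb : ∀ s ∈ Icc (0 : ℝ) 1, ‖g' s‖ ≤ B' s) : ∀ s ∈ Icc (0 : ℝ) 1, ‖g s‖ ≤ B s := by
  intro s hs
  exact image_norm_le_of_norm_deriv_right_le_deriv_boundary (f' := g') (a := 0) (b := 1)
    (fun x hx => (hg x hx).continuousAt.continuousWithinAt)
    (fun x hx => (hg x (Ico_subset_Icc_self hx)).hasDerivWithinAt) (by simp [g0, B0]) hB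
    (fun x hx => hb x (Ico_subset_Icc_self hx)) hs

theorem co_pow {g g' : ℝ → ℂ} {C : ℝ} (n : ℕ) (hg : ∀ s ∈ Icc (0 : ℝ) 1, HasDerivAt g (g' s) s)
    (g0 : g 0 = 0) (hb : ∀ s ∈ Icc (0 : ℝ) 1, ‖g' s‖ ≤ C * s ^ n) :
    ∀ s ∈ Icc (0 : ℝ) 1, ‖g s‖ ≤ C / (n + 1) * s ^ (n + 1) := by
  refine co_bound (B := fun s => C / (n + 1) * s ^ (n + 1)) (B' := fun s => C * s ^ n) hg g0
    (fun s => ?_) (by simp) hb
  refine ((hasDerivAt_pow (n + 1) s).const_mul (C / (n + 1))).congr_deriv ?_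
  have : (n : ℝ) + 1 ≠ 0 := by positivity
  push_cast
  field_simp

theorem co_cosh_real (x : ℝ) {t : ℝ} (h0 : 0 ≤ t) (h1 : t ≤ 1) :
    Real.cosh (t * x) ≤ 1 + t ^ 2 * (Real.cosh x - 1) := by
  have hs := ((Real.hasSum_cosh x).mul_left (t ^ 2)).add (hasSum_ite_eq 0 (1 - t ^ 2))
  have h := hasSum_le (fun n => ?_) (Real.hasSum_cosh (t * x)) hs
  · linarith
  · rcases Nat.eq_zero_or_pos n with rfl | hn
    · simp
    · rw [if_neg hn.ne', add_zero, mul_pow, mul_div_assoc]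
      refine mul_le_mul_of_nonneg_right (pow_le_pow_of_le_one h0 h1 (by omega)) ?_
      exact div_nonneg (by rw [pow_mul]; positivity) (by positivity)

theorem co_norm_cosh (w : ℂ) : ‖Complex.cosh w‖ ≤ Real.cosh w.re := by
  have h : Complex.cosh w = (Complex.exp w + Complex.exp (-w)) / 2 := rfl
  rw [h, Real.cosh_eq, norm_div, Complex.norm_two]
  have := norm_add_le (Complex.exp w) (Complex.exp (-w))
  rw [Complex.norm_exp, Complex.norm_exp, Complex.neg_re] at this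
  linarith

theorem co_lin (b : ℂ) (s : ℝ) : HasDerivAt (fun t : ℝ => (t : ℂ) * b) b s := by
  simpa using (Complex.ofRealCLM.hasDerivAt (x := s)).mul_const b

theorem co_ray {f : ℂ → ℂ} {f' b : ℂ} {s : ℝ} (h : HasDerivAt f f' (s * b)) :
    HasDerivAt (fun t : ℝ => f (t * b)) (f' * b) s :=
  HasDerivAt.comp_of_eq (h₂ := f) (𝕜' := ℂ) s h (co_lin b s) rfl

theorem co_sinh_aux (b : ℂ) : ∀ s ∈ Icc (0 : ℝ) 1,
    ‖Complex.sinh (s * b)‖ ≤ ‖b‖ * (s + s ^ 3 / 3 * (Real.cosh b.re - 1)) := by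
  refine co_bound (g' := fun s => Complex.cosh (s * b) * b)
    (B' := fun s => ‖b‖ * (1 + s ^ 2 * (Real.cosh b.re - 1)))
    (fun s _ => co_ray (Complex.hasDerivAt_sinh _)) (by simp) (fun s => ?_) (by simp) (fun s hs => ?_)
  · refine (((hasDerivAt_id s).add (((hasDerivAt_pow 3 s).div_const 3).mul_const
      (Real.cosh b.re - 1))).const_mul ‖b‖).congr_deriv ?_
    push_cast
    ring
  · rw [norm_mul, mul_comm]
    refine mul_le_mul_of_nonneg_left ((co_norm_cosh _).trans ?_) (norm_nonneg _)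
    rw [Complex.re_ofReal_mul]
    exact co_cosh_real _ hs.1 hs.2

theorem co_sinh (b : ℂ) : ‖Complex.sinh b‖ ≤ ‖b‖ * ((2 + Real.cosh b.re) / 3) := by
  have h := co_sinh_aux b 1 ⟨zero_le_one, le_rfl⟩
  simp only [Complex.ofReal_one, one_mul, one_pow] at h
  refine h.trans (le_of_eq ?_)
  ring

theorem co_cosh (b : ℂ) : ‖Complex.cosh b - 1‖ ≤ ‖b‖ ^ 2 / 2 * ((5 + Real.cosh b.re) / 6) := by
  have h := co_bound (g := fun s : ℝ => Complex.cosh (s * b) - 1)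
    (g' := fun s => Complex.sinh (s * b) * b)
    (B := fun s => ‖b‖ ^ 2 * (s ^ 2 / 2 + s ^ 4 / 12 * (Real.cosh b.re - 1)))
    (B' := fun s => ‖b‖ ^ 2 * (s + s ^ 3 / 3 * (Real.cosh b.re - 1)))
    (fun s _ => (co_ray (Complex.hasDerivAt_cosh _)).sub_const 1) (by simp) (fun s => ?_) (by simp) (fun s hs => ?_)
    1 ⟨zero_le_one, le_rfl⟩
  · simp only [Complex.ofReal_one, one_mul, one_pow] at h
    refine h.trans (le_of_eq ?_)
    ring
  · refine ((((hasDerivAt_pow 2 s).div_const 2).add (((hasDerivAt_pow 4 s).div_const 12).mul_const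
      (Real.cosh b.re - 1))).const_mul (‖b‖ ^ 2)).congr_deriv ?_
    push_cast
    ring
  · rw [norm_mul]
    refine (mul_le_mul_of_nonneg_right (co_sinh_aux b s hs) (norm_nonneg b)).trans (le_of_eq ?_)
    ring

theorem co_exp (a : ℂ) : ‖Complex.exp a - 1‖ ≤ Real.exp ‖a‖ - 1 := by
  have h := co_bound (g := fun s : ℝ => Complex.exp (s * a) - 1)
    (g' := fun s => Complex.exp (s * a) * a)
    (B := fun s => Real.exp (s * ‖a‖) - 1) (B' := fun s => Real.exp (s * ‖a‖) * ‖a‖)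
    (fun s _ => (co_lin a s).cexp.sub_const 1) (by simp)
    (fun s => by simpa using ((hasDerivAt_id s).mul_const ‖a‖).exp.sub_const 1) (by simp)
    (fun s hs => ?_) 1 ⟨zero_le_one, le_rfl⟩
  · simpa using h
  · rw [norm_mul, Complex.norm_exp, Complex.re_ofReal_mul]
    refine mul_le_mul_of_nonneg_right (Real.exp_le_exp.2 ?_) (norm_nonneg _)
    exact mul_le_mul_of_nonneg_left (Complex.re_le_norm a) hs.1

/-- a holomorphic function along a real segment -/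
theorem co_seg {f : ℂ → ℂ} {f' z D : ℂ} {s : ℝ} (h : HasDerivAt f f' (z + s * D)) :
    HasDerivAt (fun t : ℝ => f (z + t * D)) (f' * D) s :=
  HasDerivAt.comp_of_eq (h₂ := f) (𝕜' := ℂ) s h ((co_lin D s).const_add z) rfl

theorem co_mono (a : ℂ) (n : ℕ) (s : ℝ) :
    HasDerivAt (fun t : ℝ => a * (t : ℂ) ^ (n + 1)) (a * ((n + 1) * (s : ℂ) ^ n)) s := by
  have h := ((hasDerivAt_pow (n + 1) (s : ℂ)).const_mul a).comp_ofReal
  simpa using h

/-- Taylor expansion of the exponent along half of the core -/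
theorem co_taylor (J : Jet) {z D : ℂ} {K : ℝ} (hz : J.f1 z = 0)
    (hU : ∀ s ∈ Icc (0 : ℝ) 1, z + s * D ∈ J.U ∧ ‖J.f5 (z + s * D)‖ * ‖D‖ ^ 5 / 120 ≤ K)
    {s : ℝ} (hs : s ∈ Icc (0 : ℝ) 1) : ∃ R : ℂ, ‖R‖ ≤ K * s ^ 5 ∧
      J.E (z + s * D) = J.E z * Complex.exp (J.L * (J.f2 z * D ^ 2 / 2 * s ^ 2
        + J.f3 z * D ^ 3 / 6 * s ^ 3 + J.f4 z * D ^ 4 / 24 * s ^ 4 + R)) := by
  have hψ : ContinuousOn (fun t : ℝ => J.f1 (z + t * D) * D) (Icc 0 1) := fun t ht =>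
    ((co_seg (J.h1 _ (hU t ht).1)).mul_const D).continuousAt.continuousWithinAt
  have hψ' : Continuous (fun t : ℝ => J.f1 (z + (projIcc 0 1 zero_le_one t : ℝ) * D) * D) :=
    hψ.comp_continuous (continuous_subtype_val.comp continuous_projIcc)
      (fun t => (projIcc 0 1 zero_le_one t).2)
  obtain ⟨φ, φ0, hφ⟩ : ∃ φ : ℝ → ℂ, φ 0 = 0 ∧
      ∀ t ∈ Icc (0 : ℝ) 1, HasDerivAt φ (J.f1 (z + t * D) * D) t := by
    refine ⟨fun t => ∫ x in (0 : ℝ)..t, J.f1 (z + (projIcc 0 1 zero_le_one x : ℝ) * D) * D,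
      by simp, fun t ht => ?_⟩
    have h := (hψ'.integral_hasStrictDerivAt 0 t).hasDerivAt
    rwa [projIcc_of_mem _ ht] at h
  have hE : J.E (z + s * D) * Complex.exp (-(J.L * φ s)) = J.E z := by
    have hd : ∀ t ∈ Icc (0 : ℝ) 1,
        HasDerivAt (fun t : ℝ => J.E (z + t * D) * Complex.exp (-(J.L * φ t))) 0 t := by
      intro t ht
      refine ((co_seg (J.hE _ (hU t ht).1)).mul
        ((hφ t ht).const_mul (J.L : ℂ)).neg.cexp).congr_deriv ?_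
      simp only [Pi.neg_apply]
      ring
    have h := constant_of_has_deriv_right_zero (a := 0) (b := 1)
      (fun t ht => (hd t ht).continuousAt.continuousWithinAt)
      (fun t ht => (hd t (Ico_subset_Icc_self ht)).hasDerivWithinAt) s hs
    simpa [φ0] using h
  have r4 := co_pow (g := fun t : ℝ => J.f4 (z + t * D) * D ^ 4 - J.f4 z * D ^ 4)
    (g' := fun t : ℝ => J.f5 (z + t * D) * D * D ^ 4) (C := 120 * K) 0
    (fun t ht => ((co_seg (J.h4 _ (hU t ht).1)).mul_const _).sub_const _) (by simp)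
    (fun t ht => by
      have h := (hU t ht).2
      rw [mul_assoc, ← pow_succ', norm_mul, norm_pow]
      norm_num
      linarith)
  have r3 := co_pow (g := fun t : ℝ => J.f3 (z + t * D) * D ^ 3 - J.f3 z * D ^ 3
      - J.f4 z * D ^ 4 * (t : ℂ) ^ (0 + 1)) 1
    (fun t ht => ((((co_seg (J.h3 _ (hU t ht).1)).mul_const (D ^ 3)).sub_const _).sub
      (co_mono _ 0 t)).congr_deriv (by push_cast; ring)) (by simp) r4
  have r2 := co_pow (g := fun t : ℝ => J.f2 (z + t * D) * D ^ 2 - J.f2 z * D ^ 2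
      - J.f3 z * D ^ 3 * (t : ℂ) ^ (0 + 1) - J.f4 z * D ^ 4 / 2 * (t : ℂ) ^ (1 + 1)) 2
    (fun t ht => (((((co_seg (J.h2 _ (hU t ht).1)).mul_const (D ^ 2)).sub_const _).sub
      (co_mono _ 0 t)).sub (co_mono _ 1 t)).congr_deriv (by push_cast; ring)) (by simp) r3
  have r1 := co_pow (g := fun t : ℝ => J.f1 (z + t * D) * D
      - J.f2 z * D ^ 2 * (t : ℂ) ^ (0 + 1) - J.f3 z * D ^ 3 / 2 * (t : ℂ) ^ (1 + 1)
      - J.f4 z * D ^ 4 / 6 * (t : ℂ) ^ (2 + 1)) 3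
    (fun t ht => (((((co_seg (J.h1 _ (hU t ht).1)).mul_const D).sub
      (co_mono _ 0 t)).sub (co_mono _ 1 t)).sub (co_mono _ 2 t)).congr_deriv (by push_cast; ring))
    (by simp [hz]) r2
  have r0 := co_pow (g := fun t : ℝ => φ t
      - J.f2 z * D ^ 2 / 2 * (t : ℂ) ^ (1 + 1) - J.f3 z * D ^ 3 / 6 * (t : ℂ) ^ (2 + 1)
      - J.f4 z * D ^ 4 / 24 * (t : ℂ) ^ (3 + 1)) 4
    (fun t ht => ((((hφ t ht).sub
      (co_mono _ 1 t)).sub (co_mono _ 2 t)).sub (co_mono _ 3 t)).congr_deriv (by push_cast; ring))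
    (by simp [φ0]) r1 s hs
  refine ⟨_, r0.trans (le_of_eq (by push_cast; ring)), ?_⟩
  rw [← hE, mul_assoc, ← Complex.exp_add]
  have h0 : -(J.L * φ s) + J.L * (J.f2 z * D ^ 2 / 2 * s ^ 2 + J.f3 z * D ^ 3 / 6 * s ^ 3
      + J.f4 z * D ^ 4 / 24 * s ^ 4 + (φ s - J.f2 z * D ^ 2 / 2 * (s : ℂ) ^ (1 + 1)
      - J.f3 z * D ^ 3 / 6 * (s : ℂ) ^ (2 + 1) - J.f4 z * D ^ 4 / 24 * (s : ℂ) ^ (3 + 1))) = 0 := by
    ring
  rw [h0, Complex.exp_zero, mul_one]

section core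

variable {J : Jet} {z d : ℂ} {L0 U0 p e k al c kk J2 JE tr M3 M5 N3 N5 : ℝ}

theorem CoreHyp.co_kk (H : CoreHyp J z d L0 U0 p e k al c kk) : 0 ≤ kk := by
  have h := (H.hU 0 (by norm_num) (by norm_num)).2
  exact nonneg_of_mul_nonneg_left (le_trans (by positivity) h) H.hal0

theorem CoreHyp.co_c (H : CoreHyp J z d L0 U0 p e k al c kk) : 0 ≤ c :=
  nonneg_of_mul_nonneg_left ((norm_nonneg _).trans H.hc) H.hal0

theorem CoreHyp.co_half (H : CoreHyp J z d L0 U0 p e k al c kk) (sg : ℝ) (hsg : sg = 1 ∨ sg = -1)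
    {s : ℝ} (hs : s ∈ Icc (0 : ℝ) 1) : ∃ R : ℂ, ‖R‖ ≤ kk * al * s ^ 5 ∧
      J.E (z + s * (sg * d)) = J.E z * Complex.exp (J.L * (J.f2 z * d ^ 2 / 2 * s ^ 2
        + sg * (J.f3 z * d ^ 3 / 6) * s ^ 3 + J.f4 z * d ^ 4 / 24 * s ^ 4 + R)) := by
  obtain ⟨R, hR, hE⟩ := co_taylor J (D := sg * d) (K := kk * al) H.hz (fun t ht => by
    have h := H.hU (t * sg) (by rcases hsg with rfl | rfl <;> linarith [ht.1, ht.2])
      (by rcases hsg with rfl | rfl <;> linarith [ht.1, ht.2])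
    have hn : ‖(sg : ℂ) * d‖ = ‖d‖ := by rcases hsg with rfl | rfl <;> simp
    rwa [hn, ← mul_assoc, ← Complex.ofReal_mul]) hs
  refine ⟨R, hR, hE.trans ?_⟩
  rcases hsg with rfl | rfl
  · simp
  · have h : (J.f2 z * (((-1 : ℝ) : ℂ) * d) ^ 2 / 2 * s ^ 2
        + J.f3 z * (((-1 : ℝ) : ℂ) * d) ^ 3 / 6 * s ^ 3
        + J.f4 z * (((-1 : ℝ) : ℂ) * d) ^ 4 / 24 * s ^ 4 + R) = (J.f2 z * d ^ 2 / 2 * s ^ 2
        + ((-1 : ℝ) : ℂ) * (J.f3 z * d ^ 3 / 6) * s ^ 3 + J.f4 z * d ^ 4 / 24 * s ^ 4 + R) := by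
      push_cast
      ring
    rw [h]

theorem CoreHyp.co_U (H : CoreHyp J z d L0 U0 p e k al c kk) {U : ℝ} (hU : 0 < U)
    (hUU : U ^ 2 = 2 * -(J.f2 z * d ^ 2 / 2).re * J.L) : U0 ≤ U := by
  refine le_trans (le_abs_self _) (abs_le_of_sq_le_sq' ?_ hU.le |> fun h => abs_le.2 h)
  rw [hUU]
  refine H.hU0.trans ?_
  have h1 := H.hal
  have h2 := H.hal0
  have h3 := H.hL0
  exact mul_le_mul (by linarith) H.hL h3.le (by linarith)

theorem co_lcX {U0 U s : ℝ} (hU0 : 0 < U0) (h : U0 ≤ U) (hs : s ∈ Icc (0 : ℝ) 1) :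
    s ≤ lcX U0 (s * U) := by
  refine le_min hs.2 ?_
  rw [le_div_iff₀ hU0]
  exact mul_le_mul_of_nonneg_left h hs.1

theorem co_split (H : CoreHyp J z d L0 U0 p e k al c kk)
    (C : LCok U0 p e k J2 JE tr M3 M5 N3 N5) {U s : ℝ} (hU : 0 < U)
    (hUU : U ^ 2 = 2 * -(J.f2 z * d ^ 2 / 2).re * J.L) (hs : s ∈ Icc (0 : ℝ) 1) :
    ∃ a b : ℂ, J.E (z + s * d) = J.E z * Complex.exp (-(-(J.L * (J.f2 z * d ^ 2 / 2))) * s ^ 2)
        * Complex.exp a * Complex.exp b ∧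
      J.E (z + s * (-d)) = J.E z * Complex.exp (-(-(J.L * (J.f2 z * d ^ 2 / 2))) * s ^ 2)
        * Complex.exp a * Complex.exp (-b) ∧
      ‖a‖ ≤ lcZ U0 e k (s * U) ∧ |b.re| ≤ lcY U0 p k (s * U) ∧
      ‖b‖ ≤ J.L * al * s ^ 3 * (c + kk * lcX U0 (s * U) ^ 2) := by
  obtain ⟨Rp, hp, hEp⟩ := H.co_half 1 (Or.inl rfl) hs
  obtain ⟨Rm, hm, hEm⟩ := H.co_half (-1) (Or.inr rfl) hs
  have hX := co_lcX C.hU (H.co_U hU hUU) hs
  have hL := J.hL
  have hal := H.hal0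
  have hkk := H.co_kk
  have hs0 := hs.1
  have hk := H.hk
  have hsU : J.L * al * s ^ 2 ≤ (s * U) ^ 2 / 2 := by
    rw [mul_pow, hUU]
    have := mul_le_mul_of_nonneg_left H.hal (mul_nonneg hL.le (sq_nonneg s))
    linarith
  have hnL : ‖(J.L : ℂ)‖ = J.L := by rw [Complex.norm_real, Real.norm_of_nonneg hL.le]
  have hns : ∀ n : ℕ, ‖(s : ℂ) ^ n‖ = s ^ n := fun n => by
    rw [norm_pow, Complex.norm_real, Real.norm_of_nonneg hs0]
  have hRa : ‖(Rp + Rm) / 2‖ ≤ kk * al * s ^ 5 := by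
    rw [norm_div, Complex.norm_two]
    linarith [norm_add_le Rp Rm]
  have hRb : ‖(Rp - Rm) / 2‖ ≤ kk * al * s ^ 5 := by
    rw [norm_div, Complex.norm_two]
    linarith [norm_sub_le Rp Rm]
  have hX2 : s ^ 2 ≤ lcX U0 (s * U) ^ 2 := pow_le_pow_left₀ hs0 hX 2
  have hX3 : kk * s ^ 3 ≤ k * lcX U0 (s * U) ^ 3 :=
    mul_le_mul hk (pow_le_pow_left₀ hs0 hX 3) (by positivity) C.hk
  refine ⟨J.L * (J.f4 z * d ^ 4 / 24 * s ^ 4 + (Rp + Rm) / 2),
    J.L * (J.f3 z * d ^ 3 / 6 * s ^ 3 + (Rp - Rm) / 2), ?_, ?_, ?_, ?_, ?_⟩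
  · rw [Complex.ofReal_one, one_mul d] at hEp
    rw [hEp, mul_assoc (J.E z), mul_assoc (J.E z), ← Complex.exp_add, ← Complex.exp_add]
    refine congrArg (fun w => J.E z * Complex.exp w) ?_
    ring
  · rw [Complex.ofReal_neg, Complex.ofReal_one, neg_one_mul d] at hEm
    rw [hEm, mul_assoc (J.E z), mul_assoc (J.E z), ← Complex.exp_add, ← Complex.exp_add]
    refine congrArg (fun w => J.E z * Complex.exp w) ?_
    ring
  · rw [norm_mul, hnL]
    have h1 : ‖J.f4 z * d ^ 4 / 24 * s ^ 4‖ ≤ e * al * s ^ 4 := by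
      rw [norm_mul, hns]
      exact mul_le_mul_of_nonneg_right H.he (by positivity)
    have he := C.he
    calc J.L * ‖J.f4 z * d ^ 4 / 24 * s ^ 4 + (Rp + Rm) / 2‖
        ≤ J.L * (e * al * s ^ 4 + kk * al * s ^ 5) :=
          mul_le_mul_of_nonneg_left ((norm_add_le _ _).trans (add_le_add h1 hRa)) hL.le
      _ = J.L * al * s ^ 2 * (e * s ^ 2 + kk * s ^ 3) := by ring
      _ ≤ _ := mul_le_mul hsU (add_le_add (mul_le_mul_of_nonneg_left hX2 he) hX3)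
          (by positivity) (by positivity)
  · rw [Complex.re_ofReal_mul, abs_mul, abs_of_pos hL, Complex.add_re]
    have h1 : |(J.f3 z * d ^ 3 / 6 * s ^ 3).re| ≤ p * al * s ^ 3 := by
      rw [← Complex.ofReal_pow, Complex.re_mul_ofReal, abs_mul, abs_of_nonneg (pow_nonneg hs0 3)]
      exact mul_le_mul_of_nonneg_right H.hp (by positivity)
    have hp0 := C.hp
    calc J.L * |(J.f3 z * d ^ 3 / 6 * s ^ 3).re + ((Rp - Rm) / 2).re|
        ≤ J.L * (p * al * s ^ 3 + kk * al * s ^ 5) :=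
          mul_le_mul_of_nonneg_left ((abs_add_le _ _).trans
            (add_le_add h1 ((Complex.abs_re_le_norm _).trans hRb))) hL.le
      _ = J.L * al * s ^ 2 * (p * s + kk * s ^ 3) := by ring
      _ ≤ _ := mul_le_mul hsU (add_le_add (mul_le_mul_of_nonneg_left hX hp0) hX3)
          (by positivity) (by positivity)
  · rw [norm_mul, hnL]
    have h1 : ‖J.f3 z * d ^ 3 / 6 * s ^ 3‖ ≤ c * al * s ^ 3 := by
      rw [norm_mul, hns]
      exact mul_le_mul_of_nonneg_right H.hc (by positivity)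
    calc J.L * ‖J.f3 z * d ^ 3 / 6 * s ^ 3 + (Rp - Rm) / 2‖
        ≤ J.L * (c * al * s ^ 3 + kk * al * s ^ 5) :=
          mul_le_mul_of_nonneg_left ((norm_add_le _ _).trans (add_le_add h1 hRb)) hL.le
      _ = J.L * al * s ^ 3 * (c + kk * s ^ 2) := by ring
      _ ≤ _ := mul_le_mul_of_nonneg_left (add_le_add le_rfl (mul_le_mul_of_nonneg_left hX2 hkk))
          (by positivity)

theorem co_gauss {U s : ℝ} (hUU : U ^ 2 = 2 * -(J.f2 z * d ^ 2 / 2).re * J.L) :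
    2 * ‖Complex.exp (-(-(J.L * (J.f2 z * d ^ 2 / 2))) * s ^ 2)‖
      = Real.sqrt (2 * Real.pi) * lcG (s * U) := by
  have h : Real.sqrt (2 * Real.pi) ≠ 0 := by positivity
  have h2 : J.L * (J.f2 z * d ^ 2 / 2).re * s ^ 2
      = -(s ^ 2 * (2 * -(J.f2 z * d ^ 2 / 2).re * J.L) / 2) := by ring
  rw [Complex.norm_exp, neg_neg, ← Complex.ofReal_pow, Complex.re_mul_ofReal,
    Complex.re_ofReal_mul, lcG, mul_pow, hUU, h2]
  field_simp

theorem co_lcG (u : ℝ) : 0 ≤ lcG u := by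
  unfold lcG
  positivity

theorem co_cosh_le {b : ℂ} {y : ℝ} (h : |b.re| ≤ y) : Real.cosh b.re ≤ Real.cosh y :=
  Real.cosh_le_cosh.2 (h.trans (le_abs_self y))

theorem co_even (H : CoreHyp J z d L0 U0 p e k al c kk)
    (C : LCok U0 p e k J2 JE tr M3 M5 N3 N5) {U s : ℝ} (hU : 0 < U)
    (hUU : U ^ 2 = 2 * -(J.f2 z * d ^ 2 / 2).re * J.L) (hs : s ∈ Icc (0 : ℝ) 1) :
    ‖J.E (z + s * d) + J.E (z + s * (-d))
        - J.E z * (2 * Complex.exp (-(-(J.L * (J.f2 z * d ^ 2 / 2))) * s ^ 2))‖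
      ≤ ‖J.E z‖ * Real.sqrt (2 * Real.pi) * ((c + kk) ^ 2 * ((s * U) ^ 4 / 8 * lcX U0 (s * U) ^ 2 *
        ((5 + Real.cosh (lcY U0 p k (s * U))) / 6) * Real.exp (lcZ U0 e k (s * U)) * lcG (s * U))
        + (Real.exp (lcZ U0 e k (s * U)) - 1) * lcG (s * U)) := by
  obtain ⟨a, b, h1, h2, ha, hbr, hb⟩ := co_split H C hU hUU hs
  have hX := co_lcX C.hU (H.co_U hU hUU) hs
  have hX1 : lcX U0 (s * U) ≤ 1 := min_le_left _ _
  have hL := J.hL
  have hal := H.hal0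
  have hkk := H.co_kk
  have hc := H.co_c
  have hs0 := hs.1
  have hX0 := hs0.trans hX
  have hsU : J.L * al * s ^ 2 ≤ (s * U) ^ 2 / 2 := by
    rw [mul_pow, hUU]
    have := mul_le_mul_of_nonneg_left H.hal (mul_nonneg hL.le (sq_nonneg s))
    linarith
  have hb' : ‖b‖ ≤ (s * U) ^ 2 / 2 * lcX U0 (s * U) * (c + kk) := by
    refine hb.trans (mul_le_mul ?_ ?_ (by positivity) (by positivity))
    · rw [pow_succ, ← mul_assoc]
      exact mul_le_mul hsU hX hs0 (by positivity)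
    · exact add_le_add le_rfl (mul_le_of_le_one_right hkk (pow_le_one₀ hX0 hX1))
  have hE : J.E (z + s * d) + J.E (z + s * (-d))
        - J.E z * (2 * Complex.exp (-(-(J.L * (J.f2 z * d ^ 2 / 2))) * s ^ 2))
      = J.E z * (2 * Complex.exp (-(-(J.L * (J.f2 z * d ^ 2 / 2))) * s ^ 2)) *
        (Complex.exp a * (Complex.cosh b - 1) + (Complex.exp a - 1)) := by
    have h : Complex.cosh b = (Complex.exp b + Complex.exp (-b)) / 2 := rfl
    rw [h1, h2, h]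
    ring
  have hea : ‖Complex.exp a‖ ≤ Real.exp (lcZ U0 e k (s * U)) :=
    (Complex.norm_exp_le_exp_norm a).trans (Real.exp_le_exp.2 ha)
  have hch : ‖Complex.cosh b - 1‖ ≤ ((s * U) ^ 2 / 2 * lcX U0 (s * U) * (c + kk)) ^ 2 / 2 *
      ((5 + Real.cosh (lcY U0 p k (s * U))) / 6) := by
    refine (co_cosh b).trans (mul_le_mul ?_ ?_ ?_ (by positivity))
    · exact div_le_div_of_nonneg_right (pow_le_pow_left₀ (norm_nonneg b) hb' 2) (by norm_num)
    · linarith [co_cosh_le hbr]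
    · linarith [Real.cosh_pos b.re]
  have hin : ‖Complex.exp a * (Complex.cosh b - 1) + (Complex.exp a - 1)‖
      ≤ Real.exp (lcZ U0 e k (s * U)) * (((s * U) ^ 2 / 2 * lcX U0 (s * U) * (c + kk)) ^ 2 / 2 *
      ((5 + Real.cosh (lcY U0 p k (s * U))) / 6)) + (Real.exp (lcZ U0 e k (s * U)) - 1) := by
    refine (norm_add_le _ _).trans (add_le_add ?_ ?_)
    · rw [norm_mul]
      exact mul_le_mul hea hch (norm_nonneg _) (Real.exp_pos _).le
    · linarith [co_exp a, Real.exp_le_exp.2 ha]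
  rw [hE, norm_mul, norm_mul, norm_mul, Complex.norm_two, co_gauss hUU]
  have hG := co_lcG (s * U)
  refine (mul_le_mul_of_nonneg_left hin (by positivity)).trans (le_of_eq ?_)
  ring

theorem co_odd (H : CoreHyp J z d L0 U0 p e k al c kk)
    (C : LCok U0 p e k J2 JE tr M3 M5 N3 N5) {U s : ℝ} (hU : 0 < U)
    (hUU : U ^ 2 = 2 * -(J.f2 z * d ^ 2 / 2).re * J.L) (hs : s ∈ Icc (0 : ℝ) 1) :
    ‖(s : ℂ) * (J.E (z + s * d) - J.E (z + s * (-d)))‖
      ≤ ‖J.E z‖ * Real.sqrt (2 * Real.pi) * (J.L * al * s ^ 4 *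
        ((c + kk * lcX U0 (s * U) ^ 2) * lcM U0 p e k (s * U))) := by
  obtain ⟨a, b, h1, h2, ha, hbr, hb⟩ := co_split H C hU hUU hs
  have hE : J.E (z + s * d) - J.E (z + s * (-d))
      = J.E z * (2 * Complex.exp (-(-(J.L * (J.f2 z * d ^ 2 / 2))) * s ^ 2)) *
        (Complex.exp a * Complex.sinh b) := by
    have h : Complex.sinh b = (Complex.exp b - Complex.exp (-b)) / 2 := rfl
    rw [h1, h2, h]
    ring
  have hea : ‖Complex.exp a‖ ≤ Real.exp (lcZ U0 e k (s * U)) :=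
    (Complex.norm_exp_le_exp_norm a).trans (Real.exp_le_exp.2 ha)
  have hsh : ‖Complex.sinh b‖ ≤ J.L * al * s ^ 3 * (c + kk * lcX U0 (s * U) ^ 2) *
      ((2 + Real.cosh (lcY U0 p k (s * U))) / 3) := by
    refine (co_sinh b).trans (mul_le_mul hb ?_ ?_ ((norm_nonneg b).trans hb))
    · linarith [co_cosh_le hbr]
    · linarith [Real.cosh_pos b.re]
  have hin := mul_le_mul hea hsh (norm_nonneg _) (Real.exp_pos _).le
  rw [hE, norm_mul, norm_mul, norm_mul, norm_mul, norm_mul, Complex.norm_two, co_gauss hUU,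
    Complex.norm_real, Real.norm_of_nonneg hs.1]
  have hG := co_lcG (s * U)
  refine (mul_le_mul_of_nonneg_left (mul_le_mul_of_nonneg_left hin (by positivity)) hs.1).trans
    (le_of_eq ?_)
  unfold lcM
  ring

end core

section core2

variable {J : Jet} {z d : ℂ} {L0 U0 p e k al c kk J2 JE tr M3 M5 N3 N5 : ℝ}

theorem co_cont (J : Jet) (z D : ℂ) : Continuous (fun s : ℝ => J.E (z + s * D)) :=
  J.hc.comp (continuous_const.add (Complex.continuous_ofReal.mul continuous_const))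

theorem co_int0 (J : Jet) (z d : ℂ) : J.A0 (z + d) - J.A0 (z - d)
    = d * ∫ s in (0 : ℝ)..1, (J.E (z + s * d) + J.E (z + s * (-d))) := by
  have h := intervalIntegral.integral_eq_sub_of_hasDerivAt (a := 0) (b := 1)
    (f := fun s : ℝ => J.A0 (z + s * d) - J.A0 (z + s * (-d)))
    (f' := fun s : ℝ => d * (J.E (z + s * d) + J.E (z + s * (-d))))
    (fun s _ => ((co_seg (J.hA0 _)).sub (co_seg (J.hA0 _))).congr_deriv (by ring))
    ((continuous_const.mul ((co_cont J z d).add (co_cont J z (-d)))).intervalIntegrable _ _)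
  rw [intervalIntegral.integral_const_mul] at h
  rw [h]
  simp [sub_eq_add_neg]

theorem co_int1 (J : Jet) (z d : ℂ) :
    (J.A1 (z + d) - J.A1 (z - d)) - z * (J.A0 (z + d) - J.A0 (z - d))
      = d ^ 2 * ∫ s in (0 : ℝ)..1, (s : ℂ) * (J.E (z + s * d) - J.E (z + s * (-d))) := by
  have h := intervalIntegral.integral_eq_sub_of_hasDerivAt (a := 0) (b := 1)
    (f := fun s : ℝ => (J.A1 (z + s * d) - J.A1 (z + s * (-d)))
      - z * (J.A0 (z + s * d) - J.A0 (z + s * (-d))))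
    (f' := fun s : ℝ => d ^ 2 * ((s : ℂ) * (J.E (z + s * d) - J.E (z + s * (-d)))))
    (fun s _ => (((co_seg (J.hA1 _)).sub (co_seg (J.hA1 _))).sub
      (((co_seg (J.hA0 _)).sub (co_seg (J.hA0 _))).const_mul z)).congr_deriv (by ring))
    ((continuous_const.mul (Complex.continuous_ofReal.mul
      ((co_cont J z d).sub (co_cont J z (-d))))).intervalIntegrable _ _)
  rw [intervalIntegral.integral_const_mul] at h
  rw [h]
  simp [sub_eq_add_neg]

theorem co_cX (U0 : ℝ) : Continuous (lcX U0) :=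
  continuous_const.min (continuous_id.div_const U0)

theorem co_cY (U0 p k : ℝ) : Continuous (lcY U0 p k) := by
  have := co_cX U0
  unfold lcY
  fun_prop

theorem co_cZ (U0 e k : ℝ) : Continuous (lcZ U0 e k) := by
  have := co_cX U0
  unfold lcZ
  fun_prop

theorem co_cG : Continuous lcG := by
  unfold lcG
  fun_prop

theorem co_cM (U0 p e k : ℝ) : Continuous (lcM U0 p e k) := by
  have h1 := co_cY U0 p k
  have h2 := co_cZ U0 e k
  have h3 := co_cG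
  unfold lcM
  fun_prop

theorem co_lcM (U0 p e k u : ℝ) : 0 ≤ lcM U0 p e k u := by
  have h1 := co_lcG u
  have h2 := Real.cosh_pos (lcY U0 p k u)
  unfold lcM
  positivity

/-- rescaled bound for an integral over the unit interval -/
theorem co_scale {f : ℝ → ℂ} {F G : ℝ → ℝ} {U A x y P Q : ℝ} (hU : 0 < U) (hA : 0 ≤ A)
    (hx : 0 ≤ x) (hy : 0 ≤ y) (hF : Continuous F) (hG : Continuous G)
    (hP : ∫ u in (0 : ℝ)..U, F u ≤ P) (hQ : ∫ u in (0 : ℝ)..U, G u ≤ Q)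
    (h : ∀ s ∈ Icc (0 : ℝ) 1, ‖f s‖ ≤ A * (x * F (s * U) + y * G (s * U))) :
    ‖∫ s in (0 : ℝ)..1, f s‖ ≤ A * (x * P + y * Q) / U := by
  have hc : Continuous (fun u => A * (x * F u + y * G u)) := by fun_prop
  have h1 := intervalIntegral.norm_integral_le_of_norm_le (μ := MeasureTheory.volume) (f := f)
    (g := fun s => (fun u => A * (x * F u + y * G u)) (s * U)) zero_le_one
    (Filter.Eventually.of_forall (fun s hs => h s (Ioc_subset_Icc_self hs)))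
    ((hc.comp (continuous_id.mul continuous_const)).intervalIntegrable _ _)
  rw [intervalIntegral.integral_comp_mul_right (fun u => A * (x * F u + y * G u)) hU.ne',
    zero_mul, one_mul, intervalIntegral.integral_const_mul,
    intervalIntegral.integral_add ((hF.intervalIntegrable _ _).const_mul x)
      ((hG.intervalIntegrable _ _).const_mul y),
    intervalIntegral.integral_const_mul, intervalIntegral.integral_const_mul, smul_eq_mul] at h1
  refine h1.trans ?_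
  rw [div_eq_inv_mul]
  gcongr

theorem CoreHyp.co_ex (H : CoreHyp J z d L0 U0 p e k al c kk) :
    ∃ U : ℝ, 0 < U ∧ U ^ 2 = 2 * -(J.f2 z * d ^ 2 / 2).re * J.L := by
  have h : 0 < 2 * -(J.f2 z * d ^ 2 / 2).re * J.L :=
    mul_pos (by linarith [H.hal, H.hal0]) J.hL
  exact ⟨Real.sqrt _, Real.sqrt_pos.2 h, Real.sq_sqrt h.le⟩

theorem CoreHyp.co_ratio (H : CoreHyp J z d L0 U0 p e k al c kk) {U : ℝ} (hU : 0 < U)
    (hUU : U ^ 2 = 2 * -(J.f2 z * d ^ 2 / 2).re * J.L) :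
    Real.sqrt J.L / U ≤ 1 / Real.sqrt (2 * al) := by
  have hal := H.hal0
  rw [div_le_div_iff₀ hU (by positivity), one_mul, ← Real.sqrt_mul J.hL.le]
  refine Real.sqrt_le_iff.2 ⟨hU.le, ?_⟩
  rw [hUU]
  have := mul_le_mul_of_nonneg_left H.hal J.hL.le
  linarith

theorem co_mom_gen (H : CoreHyp J z d L0 U0 p e k al c kk)
    (C : LCok U0 p e k J2 JE tr M3 M5 N3 N5) {m : ℝ → ℝ} {W T P3 P5 : ℝ} (hW : 0 ≤ W) (hT : 0 ≤ T)
    (hm : Continuous m)
    (h3 : ∀ U, 0 ≤ U → ∫ u in (0 : ℝ)..U, m u * lcM U0 p e k u ≤ P3)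
    (h5 : ∀ U, 0 ≤ U → ∫ u in (0 : ℝ)..U, m u * lcX U0 u ^ 2 * lcM U0 p e k u ≤ P5)
    (hWT : ∀ U, 0 < U → U ^ 2 = 2 * -(J.f2 z * d ^ 2 / 2).re * J.L → ∀ s ∈ Icc (0 : ℝ) 1,
      W * (J.L * al * s ^ 4) ≤ T * m (s * U)) :
    W * Real.sqrt J.L * ‖(J.A1 (z + d) - J.A1 (z - d)) - z * (J.A0 (z + d) - J.A0 (z - d))‖
      ≤ ‖J.E z‖ * (‖d‖ ^ 2 * Real.sqrt (2 * Real.pi) * (T * (c * P3 + kk * P5)) /
        Real.sqrt (2 * al)) := by
  obtain ⟨U, hU, hUU⟩ := H.co_ex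
  have hc := H.co_c
  have hkk := H.co_kk
  have hP3 : 0 ≤ P3 := by simpa using h3 0 le_rfl
  have hP5 : 0 ≤ P5 := by simpa using h5 0 le_rfl
  have hcX := co_cX U0
  have hcM := co_cM U0 p e k
  have h := co_scale (f := fun s : ℝ => (W : ℂ) * ((s : ℂ) * (J.E (z + s * d) - J.E (z + s * (-d)))))
    (A := ‖J.E z‖ * Real.sqrt (2 * Real.pi) * T) hU (by positivity) hc hkk
    (by fun_prop) (by fun_prop) (h3 U hU.le) (h5 U hU.le) (fun s hs => by
      rw [norm_mul, Complex.norm_real, Real.norm_of_nonneg hW]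
      refine (mul_le_mul_of_nonneg_left (co_odd H C hU hUU hs) hW).trans ?_
      have hM := co_lcM U0 p e k (s * U)
      have h1 := mul_le_mul_of_nonneg_right (hWT U hU hUU s hs)
        (show 0 ≤ ‖J.E z‖ * Real.sqrt (2 * Real.pi) *
          ((c + kk * lcX U0 (s * U) ^ 2) * lcM U0 p e k (s * U)) by positivity)
      linarith)
  rw [intervalIntegral.integral_const_mul, norm_mul, Complex.norm_real,
    Real.norm_of_nonneg hW] at h
  rw [co_int1, norm_mul, norm_pow]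
  have h2 := mul_le_mul_of_nonneg_left (H.co_ratio hU hUU)
    (show 0 ≤ ‖J.E z‖ * (‖d‖ ^ 2 * Real.sqrt (2 * Real.pi) * (T * (c * P3 + kk * P5))) by
      positivity)
  have h4 := mul_le_mul_of_nonneg_left h
    (show 0 ≤ Real.sqrt J.L * ‖d‖ ^ 2 by positivity)
  calc _ = Real.sqrt J.L * ‖d‖ ^ 2 *
        (W * ‖∫ s in (0 : ℝ)..1, (s : ℂ) * (J.E (z + s * d) - J.E (z + s * (-d)))‖) := by ring
    _ ≤ _ := h4
    _ = ‖J.E z‖ * (‖d‖ ^ 2 * Real.sqrt (2 * Real.pi) * (T * (c * P3 + kk * P5))) *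
        (Real.sqrt J.L / U) := by ring
    _ ≤ _ := h2
    _ = _ := by ring

theorem co_iG : MeasureTheory.Integrable lcG := by
  have h := ((integrable_exp_neg_mul_sq (b := 1 / 2) (by norm_num)).mul_const 2).div_const
    (Real.sqrt (2 * Real.pi))
  refine h.congr (Filter.Eventually.of_forall (fun u => ?_))
  unfold lcG
  rw [show -(u ^ 2 / 2) = -(1 / 2) * u ^ 2 by ring]

theorem co_tail (H : CoreHyp J z d L0 U0 p e k al c kk)
    (C : LCok U0 p e k J2 JE tr M3 M5 N3 N5) {U : ℝ} (hU : 0 < U)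
    (hUU : U ^ 2 = 2 * -(J.f2 z * d ^ 2 / 2).re * J.L) :
    2 * ‖∫ s in Ioi (1 : ℝ), Complex.exp (-(-(J.L * (J.f2 z * d ^ 2 / 2))) * s ^ 2)‖
      ≤ Real.sqrt (2 * Real.pi) * tr / U := by
  have h1 := MeasureTheory.norm_integral_le_integral_norm
    (μ := MeasureTheory.volume.restrict (Ioi (1 : ℝ)))
    (fun s : ℝ => Complex.exp (-(-(J.L * (J.f2 z * d ^ 2 / 2))) * s ^ 2))
  have h2 : 2 * ∫ s in Ioi (1 : ℝ), ‖Complex.exp (-(-(J.L * (J.f2 z * d ^ 2 / 2))) * s ^ 2)‖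
      = Real.sqrt (2 * Real.pi) * (U⁻¹ * ∫ u in Ioi U, lcG u) := by
    rw [← MeasureTheory.integral_const_mul]
    simp only [co_gauss hUU]
    rw [MeasureTheory.integral_const_mul, MeasureTheory.integral_comp_mul_right_Ioi lcG 1 hU,
      one_mul, smul_eq_mul]
  have h3 : ∫ u in Ioi U, lcG u ≤ tr :=
    le_trans (MeasureTheory.setIntegral_mono_set co_iG.integrableOn
      (Filter.Eventually.of_forall co_lcG) (Ioi_subset_Ioi (H.co_U hU hUU)).eventuallyLE) C.htr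
  have h4 : Real.sqrt (2 * Real.pi) * (U⁻¹ * ∫ u in Ioi U, lcG u)
      ≤ Real.sqrt (2 * Real.pi) * tr / U := by
    rw [mul_div_assoc, div_eq_inv_mul]
    gcongr
  linarith

end core2

/-- the integral over the core is the Gaussian integral up to a controlled error -/
theorem core_int {J : Jet} {z d : ℂ} {L0 U0 p e k al c kk J2 JE tr M3 M5 N3 N5 : ℝ}
    (H : CoreHyp J z d L0 U0 p e k al c kk) (C : LCok U0 p e k J2 JE tr M3 M5 N3 N5) :
    |Real.sqrt J.L * ‖J.A0 (z + d) - J.A0 (z - d)‖ - ‖J.E z‖ * Real.sqrt (2 * Real.pi / ‖J.f2 z‖)|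
      ≤ ‖J.E z‖ * (‖d‖ * Real.sqrt (Real.pi / al) * ((c + kk) ^ 2 * J2 + JE + tr)) := by
  obtain ⟨U, hU, hUU⟩ := H.co_ex
  have hL := J.hL
  have hal := H.hal0
  have hβ : 0 < (-(J.L * (J.f2 z * d ^ 2 / 2)) : ℂ).re := by
    rw [Complex.neg_re, Complex.re_ofReal_mul, ← mul_neg]
    exact mul_pos hL (hal.trans_le H.hal)
  have hJ2 : 0 ≤ J2 := by simpa using C.hJ2 0 le_rfl
  have hJE : 0 ≤ JE := by simpa using C.hJE 0 le_rfl
  have htr : 0 ≤ tr := le_trans (MeasureTheory.integral_nonneg co_lcG) C.htr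
  have hcX := co_cX U0
  have hcY := co_cY U0 p k
  have hcZ := co_cZ U0 e k
  have hcG := co_cG
  have h1 := co_scale (f := fun s : ℝ => J.E (z + s * d) + J.E (z + s * (-d))
      - J.E z * (2 * Complex.exp (-(-(J.L * (J.f2 z * d ^ 2 / 2))) * s ^ 2)))
    (A := ‖J.E z‖ * Real.sqrt (2 * Real.pi)) hU (by positivity) (sq_nonneg (c + kk)) zero_le_one
    (by fun_prop) (by fun_prop) (C.hJ2 U hU.le) (C.hJE U hU.le)
    (fun s hs => by rw [one_mul]; exact co_even H C hU hUU hs)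
  have h2 := co_tail H C hU hUU
  have hi := integrable_cexp_neg_mul_sq hβ
  have h3 := intervalIntegral.integral_interval_add_Ioi (a := 0) (b := 1) hi.integrableOn
    hi.integrableOn
  rw [integral_gaussian_complex_Ioi hβ] at h3
  rw [intervalIntegral.integral_sub
    (((co_cont J z d).intervalIntegrable _ _).add ((co_cont J z (-d)).intervalIntegrable _ _))
    ((hi.intervalIntegrable.const_mul 2).const_mul _),
    intervalIntegral.integral_const_mul, intervalIntegral.integral_const_mul, one_mul] at h1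
  rw [co_int0, norm_mul]
  have hA : (J.f2 z * d ^ 2 / 2) ≠ 0 := by
    intro h
    have := H.hal
    rw [h] at this
    simp at this
    linarith
  have hd : 0 < ‖d‖ := norm_pos_iff.2 (by rintro rfl; simp at hA)
  have hf : 0 < ‖J.f2 z‖ := norm_pos_iff.2 (by intro h; simp [h] at hA)
  have hΓ : Real.sqrt (2 * Real.pi / ‖J.f2 z‖)
      = Real.sqrt J.L * (‖d‖ * ‖((Real.pi : ℂ) / -(J.L * (J.f2 z * d ^ 2 / 2))) ^ (1 / 2 : ℂ)‖) := by
    have hh : (1 / 2 : ℂ) = ((1 / 2 : ℝ) : ℂ) := by norm_num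
    rw [hh, Complex.norm_cpow_real, ← Real.sqrt_eq_rpow, norm_div, norm_neg, norm_mul, norm_div,
      norm_mul, norm_pow, Complex.norm_two, Complex.norm_real, Complex.norm_real,
      Real.norm_of_nonneg hL.le, Real.norm_of_nonneg Real.pi_pos.le, ← Real.sqrt_sq hd.le,
      Real.sq_sqrt (sq_nonneg _), ← Real.sqrt_mul (sq_nonneg _), ← Real.sqrt_mul hL.le]
    refine congrArg Real.sqrt ?_
    field_simp
  have hs : Real.sqrt (Real.pi / al) = Real.sqrt (2 * Real.pi) * (1 / Real.sqrt (2 * al)) := by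
    rw [mul_one_div, ← Real.sqrt_div (by positivity)]
    refine congrArg Real.sqrt ?_
    field_simp
  rw [hΓ, hs]
  generalize ((Real.pi : ℂ) / -(J.L * (J.f2 z * d ^ 2 / 2))) ^ (1 / 2 : ℂ) = Γ at h3 ⊢
  generalize (∫ s in (0 : ℝ)..1, (J.E (z + s * d) + J.E (z + s * (-d)))) = I at h1 ⊢
  generalize (∫ s in (0 : ℝ)..1, Complex.exp (-(-(J.L * (J.f2 z * d ^ 2 / 2))) * s ^ 2)) = G
    at h1 h3
  generalize (∫ s in Ioi (1 : ℝ), Complex.exp (-(-(J.L * (J.f2 z * d ^ 2 / 2))) * s ^ 2)) = T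
    at h2 h3
  have h4 : ‖I - J.E z * Γ‖
      ≤ ‖J.E z‖ * Real.sqrt (2 * Real.pi) * ((c + kk) ^ 2 * J2 + JE + tr) / U := by
    have h5 : I - J.E z * Γ = (I - J.E z * (2 * G)) - J.E z * (2 * T) := by
      linear_combination (2 * J.E z) * h3
    have h6 : ‖J.E z * (2 * T)‖ ≤ ‖J.E z‖ * (Real.sqrt (2 * Real.pi) * tr / U) := by
      rw [norm_mul, norm_mul, Complex.norm_two]
      exact mul_le_mul_of_nonneg_left h2 (norm_nonneg _)
    rw [h5]
    refine ((norm_sub_le _ _).trans (add_le_add h1 h6)).trans (le_of_eq ?_)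
    ring
  have h7 := (abs_norm_sub_norm_le I (J.E z * Γ)).trans h4
  have h8 := mul_le_mul_of_nonneg_left (H.co_ratio hU hUU)
    (show 0 ≤ ‖J.E z‖ * (‖d‖ * Real.sqrt (2 * Real.pi) * ((c + kk) ^ 2 * J2 + JE + tr)) by
      positivity)
  calc _ = |Real.sqrt J.L * ‖d‖ * (‖I‖ - ‖J.E z * Γ‖)| := by
        rw [norm_mul]
        refine congrArg abs ?_
        ring
    _ = Real.sqrt J.L * ‖d‖ * |‖I‖ - ‖J.E z * Γ‖| := by
        rw [abs_mul, abs_of_nonneg (by positivity)]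
    _ ≤ _ := mul_le_mul_of_nonneg_left h7 (by positivity)
    _ = ‖J.E z‖ * (‖d‖ * Real.sqrt (2 * Real.pi) * ((c + kk) ^ 2 * J2 + JE + tr)) *
        (Real.sqrt J.L / U) := by ring
    _ ≤ _ := h8
    _ = _ := by ring

/-- first moment, weight `L` -/
theorem core_mom {J : Jet} {z d : ℂ} {L0 U0 p e k al c kk J2 JE tr M3 M5 N3 N5 : ℝ}
    (H : CoreHyp J z d L0 U0 p e k al c kk) (C : LCok U0 p e k J2 JE tr M3 M5 N3 N5) :
    J.L * Real.sqrt J.L * ‖(J.A1 (z + d) - J.A1 (z - d)) - z * (J.A0 (z + d) - J.A0 (z - d))‖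
      ≤ ‖J.E z‖ * (‖d‖ ^ 2 * Real.sqrt (2 * Real.pi) * (c * M3 + kk * M5) /
        (2 * al * Real.sqrt (2 * al))) := by
  have hal := H.hal0
  have hL := J.hL
  refine (co_mom_gen H C (m := fun u => u ^ 4 / 2) (T := 1 / (2 * al)) hL.le (by positivity)
    (by fun_prop) C.hM3 C.hM5 (fun U hU hUU s hs => ?_)).trans (le_of_eq (by ring))
  have h1 : (s * U) ^ 4 = s ^ 4 * (U ^ 2) ^ 2 := by ring
  have h2 : al ^ 2 ≤ (-(J.f2 z * d ^ 2 / 2).re) ^ 2 := pow_le_pow_left₀ hal.le H.hal 2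
  have h3 := mul_le_mul_of_nonneg_left h2 (show 0 ≤ J.L ^ 2 * s ^ 4 by positivity)
  show _ ≤ 1 / (2 * al) * ((s * U) ^ 4 / 2)
  rw [h1, hUU, one_div, ← div_eq_inv_mul, le_div_iff₀ (by positivity)]
  linarith

/-- first moment, weight `L0` -/
theorem core_mom0 {J : Jet} {z d : ℂ} {L0 U0 p e k al c kk J2 JE tr M3 M5 N3 N5 : ℝ}
    (H : CoreHyp J z d L0 U0 p e k al c kk) (C : LCok U0 p e k J2 JE tr M3 M5 N3 N5) :
    L0 * Real.sqrt J.L * ‖(J.A1 (z + d) - J.A1 (z - d)) - z * (J.A0 (z + d) - J.A0 (z - d))‖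
      ≤ ‖J.E z‖ * (‖d‖ ^ 2 * Real.sqrt (2 * Real.pi) *
        (2 * al * L0 / U0 ^ 2 * (c * N3 + kk * N5)) / (2 * al * Real.sqrt (2 * al))) := by
  have hal := H.hal0
  have hL := J.hL
  have hL0 := H.hL0
  have hU0 := C.hU
  refine (co_mom_gen H C (m := fun u => min u U0 ^ 2 * u ^ 2 / 2) (T := L0 / U0 ^ 2) hL0.le
    (by positivity) (by fun_prop) C.hN3 C.hN5 (fun U hU hUU s hs => ?_)).trans
    (le_of_eq (by field_simp))
  have hs0 := hs.1
  have h1 : s * U0 ≤ min (s * U) U0 :=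
    le_min (mul_le_mul_of_nonneg_left (H.co_U hU hUU) hs0) (mul_le_of_le_one_left hU0.le hs.2)
  have h2 := mul_le_mul H.hal (pow_le_pow_left₀ (by positivity) h1 2) (by positivity)
    (hal.le.trans H.hal)
  have h3 := mul_le_mul_of_nonneg_left h2 (show 0 ≤ L0 * J.L * s ^ 2 by positivity)
  show _ ≤ L0 / U0 ^ 2 * (min (s * U) U0 ^ 2 * (s * U) ^ 2 / 2)
  rw [mul_pow s U, hUU, div_mul_eq_mul_div, le_div_iff₀ (by positivity)]
  linarith

/-- heights at the two ends of the core (`sg = 1` or `-1`) -/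
theorem core_end {J : Jet} {z d : ℂ} {L0 U0 p e k al c kk g : ℝ} (sg : ℝ) (hsg : sg = 1 ∨ sg = -1)
    (H : CoreHyp J z d L0 U0 p e k al c kk)
    (hg : g ≤ -(J.f2 z * d ^ 2 / 2 + sg * (J.f3 z * d ^ 3 / 6) + J.f4 z * d ^ 4 / 24).re
      - kk * al) :
    ‖J.E (z + sg * d)‖ ≤ ‖J.E z‖ * Real.exp (-(J.L * g)) := by
  obtain ⟨R, hR, hE⟩ := H.co_half sg hsg (s := 1) ⟨zero_le_one, le_rfl⟩
  simp only [Complex.ofReal_one, one_mul, one_pow, mul_one] at hR hE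
  rw [hE, norm_mul, Complex.norm_exp, Complex.re_ofReal_mul, Complex.add_re _ R, ← mul_neg]
  refine mul_le_mul_of_nonneg_left (Real.exp_le_exp.2 (mul_le_mul_of_nonneg_left ?_ J.hL.le))
    (norm_nonneg _)
  linarith [Complex.re_le_norm R]

end Pool.Agent.Sok
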