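import Pool.Agent.Sok.Defs

/-! Symmetries and counting arguments. -/

namespace Pool.Agent.Sok

open Pool.Agent.MP_97ada9_an Finset

/-- Reflect the sum: (N - n).choose 2 + (N - 1) * n = N.choose 2 + n.choose 2 for n ≤ N. -/
theorem pc_sym {q z : ℂ} {N : ℕ} (hq : q ≠ 0) (h : pc q N z = 0) :
    pc q N (q ^ (N - 1) * z)⁻¹ = 0 := by
  have hz := pc_ne h
  have key : q ^ N.choose 2 * z ^ N * pc q N (q ^ (N - 1) * z)⁻¹ = pc q N z := by
    unfold pc
    rw [mul_sum, ← sum_range_reflect (fun n => (N.choose n : ℂ) * q ^ n.choose 2 * z ^ n)]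
    refine sum_congr rfl fun n hn => ?_
    have hn' : n ≤ N := by have := mem_range.1 hn; omega
    obtain ⟨m, rfl⟩ := Nat.exists_eq_add_of_le hn'
    have e1 : n + m + 1 - 1 - n = m := by omega
    have e2 : m.choose 2 + (n + m - 1) * n = (n + m).choose 2 + n.choose 2 := by
      rw [choose_two_add]
      rcases n with _ | k
      · simp
      · have := two_choose (k + 1)
        have e3 : k + 1 + m - 1 = k + m := by omega
        rw [e3]
        nlinarith
    have e4 : q ^ m.choose 2 * q ^ ((n + m - 1) * n) = q ^ (n + m).choose 2 * q ^ n.choose 2 := by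
      rw [← pow_add, ← pow_add, e2]
    rw [e1, Nat.choose_symm_add (a := n) (b := m), inv_pow, mul_pow, ← pow_mul, pow_add z]
    have h1 : q ^ ((n + m - 1) * n) ≠ 0 := pow_ne_zero _ hq
    have h2 : z ^ n ≠ 0 := pow_ne_zero _ hz
    field_simp
    linear_combination -((n + m).choose m : ℂ) * e4
  rw [h] at key
  exact (mul_eq_zero.1 key).resolve_left (mul_ne_zero (pow_ne_zero _ hq) (pow_ne_zero _ hz))

theorem onePer_conj {q : ℂ} {N : ℕ} (h : OnePer q N) : OnePer ((starRingEnd ℂ) q) N := by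
  have key : ∀ z, pc q N ((starRingEnd ℂ) z) = (starRingEnd ℂ) (pc ((starRingEnd ℂ) q) N z) := by
    intro z
    simp [pc, map_sum]
  intro z w hz hw hn
  have := h _ _ (by rw [key, hz, map_zero]) (by rw [key, hw, map_zero])
    (by rw [Complex.norm_conj, Complex.norm_conj, hn])
  exact (starRingEnd ℂ).injective this

theorem a1_ne (τ : ℝ) : (1 : ℂ) - Complex.I * τ ≠ 0 := fun h => by
  simpa using congrArg Complex.re h

theorem a1_sub (τ : ℝ) : qq τ - 1 = 4 * Complex.I * τ / (1 - Complex.I * τ) ^ 2 := by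
  have := a1_ne τ
  rw [qq]
  field_simp
  ring

theorem a1_re_im (τ : ℝ) : (qq τ).re = (1 - 6 * τ ^ 2 + τ ^ 4) / (1 + τ ^ 2) ^ 2 ∧
    (qq τ).im = 4 * τ * (1 - τ ^ 2) / (1 + τ ^ 2) ^ 2 := by
  have h := a1_ne τ
  have h1 : (1 : ℝ) + τ ^ 2 ≠ 0 := by positivity
  have h2 : (1 : ℂ) + (τ : ℂ) ^ 2 ≠ 0 := by exact_mod_cast h1
  have e : qq τ = ((1 - 6 * τ ^ 2 + τ ^ 4) / (1 + τ ^ 2) ^ 2 : ℝ) +
      (4 * τ * (1 - τ ^ 2) / (1 + τ ^ 2) ^ 2 : ℝ) * Complex.I := by
    have e1 : (1 + Complex.I * τ) / (1 - Complex.I * τ) =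
        (1 + Complex.I * τ) ^ 2 / (1 + (τ : ℂ) ^ 2) := by
      rw [div_eq_div_iff h h2]
      linear_combination (τ : ℂ) ^ 2 * (1 + Complex.I * τ) * Complex.I_sq
    rw [qq, e1]
    push_cast
    field_simp
    linear_combination (6 * (τ : ℂ) ^ 2 + 4 * Complex.I * (τ : ℂ) ^ 3 +
      (Complex.I ^ 2 - 1) * (τ : ℂ) ^ 4) * Complex.I_sq
  rw [e]
  constructor
  · simp only [Complex.add_re, Complex.ofReal_re, Complex.mul_re, Complex.I_re, Complex.ofReal_im,
      Complex.I_im]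
    ring
  · simp only [Complex.add_im, Complex.ofReal_re, Complex.mul_im, Complex.I_re, Complex.ofReal_im,
      Complex.I_im]
    ring

theorem norm_qq (τ : ℝ) : ‖qq τ‖ = 1 := by
  have e : (1 : ℂ) - Complex.I * τ = (starRingEnd ℂ) (1 + Complex.I * τ) := by
    simp [sub_eq_add_neg]
  rw [qq, norm_pow, norm_div, e, Complex.norm_conj, div_self, one_pow]
  rw [← Complex.norm_conj, ← e]
  exact norm_ne_zero_iff.2 (a1_ne τ)

theorem qq_ne_one {τ : ℝ} (h0 : 0 < τ) : qq τ ≠ 1 := by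
  intro h
  have h1 := a1_sub τ
  rw [h, sub_self, eq_comm, div_eq_zero_iff] at h1
  rcases h1 with h1 | h1
  · simp [h0.ne'] at h1
  · exact pow_ne_zero 2 (a1_ne τ) h1

theorem qq_one : qq ((1 : ℝ) : ℂ) = -1 := by
  have h := a1_ne 1
  rw [qq, div_pow, div_eq_iff (pow_ne_zero 2 h)]
  push_cast
  linear_combination 2 * Complex.I_sq

/-- p - 1 = 2 i τ / (1 - i τ), q - 1 = (p - 1) (p + 1). -/
theorem norm_qq_sub_one {τ : ℝ} (h0 : 0 ≤ τ) : ‖qq τ - 1‖ ≤ 4 * τ := by
  rw [a1_sub, norm_div, norm_pow, norm_mul, norm_mul, Complex.norm_I, Complex.norm_real,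
    Real.norm_of_nonneg h0, Complex.sq_norm, Complex.normSq_apply]
  simp only [Complex.norm_ofNat, Complex.sub_re, Complex.one_re, Complex.mul_re, Complex.I_re,
    Complex.ofReal_re, Complex.I_im, Complex.ofReal_im, Complex.sub_im, Complex.one_im,
    Complex.mul_im]
  rw [div_le_iff₀ (by nlinarith [sq_nonneg τ])]
  nlinarith [mul_nonneg h0 (sq_nonneg τ)]

/-- Take τ = tan (arg q / 4), or use the intermediate value theorem on the real part. -/
theorem exists_qq {q : ℂ} (h1 : ‖q‖ = 1) (h2 : q ≠ 1) (h3 : 0 ≤ q.im) :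
    ∃ τ : ℝ, 0 < τ ∧ τ ≤ 1 ∧ q = qq τ := by
  have hn : ∀ z : ℂ, ‖z‖ = 1 → z.re ^ 2 + z.im ^ 2 = 1 := by
    intro z hz
    have := Complex.sq_norm z
    rw [hz, Complex.normSq_apply] at this
    linarith
  have hq := hn q h1
  have hc : Continuous fun τ : ℝ => (1 - 6 * τ ^ 2 + τ ^ 4) / (1 + τ ^ 2) ^ 2 :=
    Continuous.div (by fun_prop) (by fun_prop) fun τ => by positivity
  obtain ⟨τ, ⟨t0, t1⟩, ht⟩ := intermediate_value_Icc' zero_le_one hc.continuousOn
    (show q.re ∈ _ by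
      constructor
      · norm_num; nlinarith [sq_nonneg q.im]
      · norm_num; nlinarith [sq_nonneg q.im])
  have hre : (qq τ).re = q.re := by rw [(a1_re_im τ).1]; exact ht
  have him : 0 ≤ (qq τ).im := by
    rw [(a1_re_im τ).2]
    exact div_nonneg (mul_nonneg (by positivity) (by nlinarith)) (by positivity)
  have h4 := hn _ (norm_qq τ)
  have e : q = qq τ := by
    refine Complex.ext hre.symm ?_
    rw [hre] at h4
    exact (pow_left_inj₀ h3 him two_ne_zero).1 (by linarith)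
  refine ⟨τ, t0.lt_of_ne ?_, t1, e⟩
  rintro rfl
  exact h2 (by rw [e, qq]; simp)

/-- It is enough to treat the parameters qq τ (use exists_qq, onePer_conj). -/
theorem onePer_of_qq {N : ℕ} (h : ∀ τ : ℝ, 0 < τ → τ ≤ 1 → OnePer (qq τ) N) (q : ℂ)
    (h1 : ‖q‖ = 1) (h2 : q ≠ 1) : OnePer q N := by
  rcases le_total 0 q.im with h3 | h3
  · obtain ⟨τ, t0, t1, rfl⟩ := exists_qq h1 h2 h3
    exact h τ t0 t1
  · obtain ⟨τ, t0, t1, e⟩ := exists_qq (q := (starRingEnd ℂ) q) (by rw [Complex.norm_conj, h1])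
      (fun e => h2 ((starRingEnd ℂ).injective (by rw [e, map_one]))) (by simpa using h3)
    have := onePer_conj (h τ t0 t1)
    rwa [← e, Complex.conj_conj] at this

/-- n.choose 2 + (c + 1).choose 2 = ex c n + c * n. -/
theorem gc_eq (q : ℂ) (N c : ℕ) (z : ℂ) :
    gc q N c (q ^ c * z) = q ^ (c + 1).choose 2 * pc q N z := by
  unfold gc pc
  rw [mul_sum]
  refine sum_congr rfl fun n _ => ?_
  have e : ex c n + c * n = (c + 1).choose 2 + n.choose 2 := by
    unfold ex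
    split_ifs with h
    · obtain ⟨m, rfl⟩ := Nat.exists_eq_add_of_le h
      have e1 : n + m - n + 1 = m + 1 := by omega
      have := two_choose n
      rw [e1, add_assoc n m 1, choose_two_add n]
      nlinarith
    · obtain ⟨m, rfl⟩ := Nat.exists_eq_add_of_le (le_of_not_ge h)
      have e1 : c + m - c = m := by omega
      have := two_choose c
      rw [e1, choose_two_add, choose_two_add]
      simp only [Nat.choose_eq_zero_of_lt one_lt_two]
      nlinarith
  have e2 : q ^ ex c n * q ^ (c * n) = q ^ (c + 1).choose 2 * q ^ n.choose 2 := by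
    rw [← pow_add, ← pow_add, e]
  rw [mul_pow, ← pow_mul]
  linear_combination (N.choose n : ℂ) * z ^ n * e2

theorem a1_mono (ζ : ℕ → ℂ) (M : ℕ) (h : ∀ j, j + 1 < M → ‖ζ j‖ < ‖ζ (j + 1)‖) (i j : ℕ)
    (hij : i < j) (hj : j < M) : ‖ζ i‖ < ‖ζ j‖ := by
  induction j, hij using Nat.le_induction with
  | base => exact h i hj
  | succ k _ ih => exact (ih (by omega)).trans (h k hj)

theorem a1_card {q : ℂ} {N : ℕ} (A : Finset ℂ) (h : ∀ x ∈ A, pc q N x = 0) : A.card ≤ N := by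
  have hd : (pp q N).natDegree ≤ N := by
    refine Polynomial.natDegree_sum_le_of_forall_le _ _ fun n hn => ?_
    refine (Polynomial.natDegree_C_mul_X_pow_le _ _).trans ?_
    have := mem_range.1 hn
    omega
  refine le_trans (Polynomial.card_le_degree_of_subset_roots fun x hx => ?_) hd
  rw [Polynomial.mem_roots (pp_ne q N), Polynomial.IsRoot, pp_eval]
  exact h x hx

theorem a1_norm {q : ℂ} (hq : ‖q‖ = 1) (N : ℕ) (z : ℂ) : ‖(q ^ (N - 1) * z)⁻¹‖ = ‖z‖⁻¹ := by
  rw [norm_inv, norm_mul, norm_pow, hq, one_pow, one_mul]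

theorem a1_inj {q : ℂ} (hq : q ≠ 0) (N : ℕ) :
    Function.Injective fun z : ℂ => (q ^ (N - 1) * z)⁻¹ := fun _ _ h =>
  mul_left_cancel₀ (pow_ne_zero _ hq) (inv_injective h)

theorem a1_count {q : ℂ} {N : ℕ} (hq : ‖q‖ = 1) (A B : Finset ℂ)
    (hA : ∀ x ∈ A, pc q N x = 0 ∧ ‖x‖ < 1) (hB : ∀ x ∈ B, pc q N x = 0 ∧ ‖x‖ = 1) :
    2 * A.card + B.card ≤ N := by
  classical
  have hq0 : q ≠ 0 := fun e => by simp [e] at hq
  have hC : ∀ x ∈ A.image fun z : ℂ => (q ^ (N - 1) * z)⁻¹, pc q N x = 0 ∧ 1 < ‖x‖ := by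
    intro x hx
    obtain ⟨y, hy, rfl⟩ := mem_image.1 hx
    refine ⟨pc_sym hq0 (hA y hy).1, ?_⟩
    rw [a1_norm hq]
    exact (one_lt_inv₀ (norm_pos_iff.2 (pc_ne (hA y hy).1))).2 (hA y hy).2
  have h := a1_card (q := q) (N := N) ((A ∪ B) ∪ A.image fun z : ℂ => (q ^ (N - 1) * z)⁻¹)
    fun x hx => by
      rcases mem_union.1 hx with hx | hx
      · rcases mem_union.1 hx with hx | hx
        · exact (hA x hx).1
        · exact (hB x hx).1
      · exact (hC x hx).1
  rw [card_union_of_disjoint, card_union_of_disjoint, card_image_of_injective _ (a1_inj hq0 N)] at h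
  · omega
  · exact disjoint_left.2 fun x h1 h2 => (hA x h1).2.ne (hB x h2).2
  · refine disjoint_left.2 fun x h1 h2 => ?_
    have := (hC x h2).2
    rcases mem_union.1 h1 with h1 | h1
    · linarith [(hA x h1).2]
    · linarith [(hB x h1).2]

theorem a1_inside {q : ℂ} {N : ℕ} (hq : ‖q‖ = 1)
    (h : ∀ z w, pc q N z = 0 → pc q N w = 0 → ‖z‖ = ‖w‖ → ‖z‖ ≤ 1 → z = w) : OnePer q N := by
  have hq0 : q ≠ 0 := fun e => by simp [e] at hq
  intro z w hz hw hn
  rcases le_total ‖z‖ 1 with h1 | h1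
  · exact h z w hz hw hn h1
  · refine a1_inj hq0 N (h _ _ (pc_sym hq0 hz) (pc_sym hq0 hw) ?_ ?_)
    · rw [a1_norm hq, a1_norm hq, hn]
    · rw [a1_norm hq]
      exact inv_le_one_of_one_le₀ h1

/-- The polynomial pp q N has at most N distinct roots. The map z ↦ (q ^ (N - 1) * z)⁻¹ is an
injection from the roots inside the unit circle to the roots outside and conversely. Two distinct
roots on one circle would give at least 2 * (N / 2 + 1) > N roots. -/
theorem onePer_of_half {q : ℂ} {N : ℕ} (hq : ‖q‖ = 1) (ζ : ℕ → ℂ)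
    (h0 : ∀ j < N / 2, pc q N (ζ j) = 0) (h1 : ∀ j < N / 2, ‖ζ j‖ < 1)
    (h2 : ∀ j, j + 1 < N / 2 → ‖ζ j‖ < ‖ζ (j + 1)‖) : OnePer q N := by
  classical
  have hq0 : q ≠ 0 := fun e => by simp [e] at hq
  have hmono := a1_mono ζ (N / 2) h2
  have hinj : ∀ i < N / 2, ∀ j < N / 2, ‖ζ i‖ = ‖ζ j‖ → i = j := by
    intro i hi j hj e
    rcases lt_trichotomy i j with h | h | h
    · exact absurd e (hmono i j h hj).ne
    · exact h
    · exact absurd e (hmono j i h hi).ne'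
  set T := (range (N / 2)).image ζ with hT
  have hTc : T.card = N / 2 := by
    rw [hT, card_image_of_injOn, card_range]
    intro i hi j hj e
    exact hinj i (by simpa using hi) j (by simpa using hj) (by rw [e])
  have hTm : ∀ x ∈ T, pc q N x = 0 ∧ ‖x‖ < 1 := by
    intro x hx
    obtain ⟨j, hj, rfl⟩ := mem_image.1 hx
    exact ⟨h0 j (mem_range.1 hj), h1 j (mem_range.1 hj)⟩
  have inside : ∀ z w, pc q N z = 0 → pc q N w = 0 → ‖z‖ = ‖w‖ → ‖z‖ ≤ 1 → z = w := by
    intro z w hz hw hn hz1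
    by_contra hne
    rcases hz1.lt_or_eq with hz1 | hz1
    · have ext : ∀ x, pc q N x = 0 → ‖x‖ < 1 → x ∈ T := by
        intro x hx hx1
        by_contra hxT
        have := a1_count hq (insert x T) ∅ (fun y hy => by
          rcases mem_insert.1 hy with rfl | hy
          · exact ⟨hx, hx1⟩
          · exact hTm y hy) (by simp)
        rw [card_insert_of_notMem hxT, hTc] at this
        omega
      obtain ⟨i, hi, rfl⟩ := mem_image.1 (ext z hz hz1)
      obtain ⟨j, hj, rfl⟩ := mem_image.1 (ext w hw (hn ▸ hz1))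
      exact hne (by rw [hinj i (mem_range.1 hi) j (mem_range.1 hj) hn])
    · have := a1_count hq T {z, w} hTm (fun y hy => by
        rcases mem_insert.1 hy with rfl | hy
        · exact ⟨hz, hz1⟩
        · rw [mem_singleton.1 hy]; exact ⟨hw, hn ▸ hz1⟩)
      rw [card_pair hne, hTc] at this
      omega
  exact a1_inside hq inside

/-- r / (1 + r) ^ 2 increases on [0, 1]. -/
theorem var_mono {N : ℕ} {R r : ℝ} (hR : 0 ≤ R) (h : 7 * (1 + R) ^ 2 ≤ N * R) (h1 : R ≤ r)
    (h2 : r ≤ 1) : 7 ≤ N * r / (1 + r) ^ 2 := by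
  have hr : 0 ≤ r := hR.trans h1
  have hN : (0 : ℝ) ≤ N := Nat.cast_nonneg N
  rw [le_div_iff₀ (by positivity)]
  have h3 : 0 ≤ (r - R) * (1 - r * R) :=
    mul_nonneg (sub_nonneg.2 h1) (sub_nonneg.2 (mul_le_one₀ h2 hR (h1.trans h2)))
  have h4 := mul_le_mul_of_nonneg_right h (show 0 ≤ (1 + r) ^ 2 by positivity)
  have h5 := mul_nonneg hN h3
  refine le_of_mul_le_mul_right ?_ (show 0 < (1 + R) ^ 2 by positivity)
  nlinarith

/-- By pc_sym one may assume that the common modulus is at most one. -/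
theorem onePer_of_inside (hA : Asym) {q : ℂ} {N : ℕ} (hN : 40 ≤ N) (hq : ‖q‖ = 1) (hq1 : q ≠ 1)
    {R : ℝ} (hR : 0 ≤ R) (h7 : 7 * (1 + R) ^ 2 ≤ N * R)
    (h : ∀ z w, pc q N z = 0 → pc q N w = 0 → ‖z‖ = ‖w‖ → ‖z‖ < R → z = w) : OnePer q N := by
  refine a1_inside hq fun z w hz hw hn h1 => ?_
  rcases lt_or_ge ‖z‖ R with h2 | h2
  · exact h z w hz hw hn h2
  · exact hA N hN q z w hq hq1 hz hw hn (var_mono hR h7 h2 h1)

/-- The roots of modulus below that of ζ J are exactly ζ 0, ..., ζ (J - 1): these are J distinct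
elements of a finite set with at most J elements. -/
theorem concl {q : ℂ} {N J : ℕ} (ζ : ℕ → ℂ) (h0 : ∀ j ≤ J, pc q N (ζ j) = 0)
    (h2 : ∀ j < J, ‖ζ j‖ < ‖ζ (j + 1)‖) (hc : Cnt q N (J + 1) (ζ J)) :
    (∀ z w, pc q N z = 0 → pc q N w = 0 → ‖z‖ = ‖w‖ → ‖z‖ < ‖ζ J‖ → z = w) ∧
      ∀ j ≤ J, Cnt q N (j + 1) (ζ j) := by
  have hmono := a1_mono ζ (J + 1) fun j hj => h2 j (by omega)
  have hinj : ∀ i ≤ J, ∀ j ≤ J, ‖ζ i‖ = ‖ζ j‖ → i = j := by
    intro i hi j hj e
    rcases lt_trichotomy i j with h | h | h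
    · exact absurd e (hmono i j h (by omega)).ne
    · exact h
    · exact absurd e (hmono j i h (by omega)).ne'
  have hfin : {z | pc q N z = 0 ∧ ‖z‖ < ‖ζ J‖}.Finite :=
    (Polynomial.finite_setOfPred_isRoot (pp_ne q N)).subset fun z hz => by
      simpa [Polynomial.IsRoot, pp_eval] using hz.1
  have hcard : (ζ '' Set.Iio J).ncard = J := by
    rw [Set.InjOn.ncard_image, Set.ncard_Iio_nat]
    intro i hi j hj e
    exact hinj i (le_of_lt hi) j (le_of_lt hj) (by rw [e])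
  have heq : ζ '' Set.Iio J = {z | pc q N z = 0 ∧ ‖z‖ < ‖ζ J‖} := by
    refine Set.eq_of_subset_of_ncard_le ?_ ?_ hfin
    · rintro _ ⟨j, hj, rfl⟩
      exact ⟨h0 j (le_of_lt hj), hmono j J hj (by omega)⟩
    · have := hc.2
      omega
  have hmem : ∀ z, pc q N z = 0 → ‖z‖ < ‖ζ J‖ → ∃ j < J, ζ j = z := by
    intro z hz hz1
    have : z ∈ ζ '' Set.Iio J := by rw [heq]; exact ⟨hz, hz1⟩
    exact this
  refine ⟨fun z w hz hw hn h1 => ?_, fun j hj => ⟨h0 j hj, ?_⟩⟩
  · obtain ⟨i, hi, rfl⟩ := hmem z hz h1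
    obtain ⟨j, hj, rfl⟩ := hmem w hw (hn ▸ h1)
    rw [hinj i hi.le j hj.le hn]
  · have hle : ‖ζ j‖ ≤ ‖ζ J‖ := by
      rcases hj.lt_or_eq with h | h
      · exact (hmono j J h (by omega)).le
      · rw [h]
    have hsub : {z | pc q N z = 0 ∧ ‖z‖ < ‖ζ j‖} ⊆ ζ '' Set.Iio j := by
      rintro z ⟨hz, hz1⟩
      obtain ⟨i, hi, rfl⟩ := hmem z hz (hz1.trans_le hle)
      refine ⟨i, ?_, rfl⟩
      by_contra hij
      rcases (not_lt.1 (mt Set.mem_Iio.2 hij)).lt_or_eq with h | h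
      · exact absurd hz1 (hmono j i h (by omega)).not_gt
      · rw [h] at hz1; exact lt_irrefl _ hz1
    have h3 := Set.ncard_le_ncard hsub ((Set.finite_Iio j).image ζ)
    have h4 := Set.ncard_image_le (f := ζ) (Set.finite_Iio j)
    rw [Set.ncard_Iio_nat] at h4
    omega

end Pool.Agent.Sok
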