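import Pool.Agent.MP_97ada9_an.Pack

/-! Packed Taylor model arithmetic: the programs. -/

namespace Pool.Agent.Sok.E

open Pool.Agent.MP_97ada9_an

noncomputable def force {α : Type} (n : ℕ) (k : ℕ → α) : α :=
  Nat.rec (motive := fun _ => α) (k 0) (fun m _ => k (Nat.succ m)) n

noncomputable def forceB {α : Type} (b : Bool) (k : Bool → α) : α :=
  Bool.rec (motive := fun _ => α) (k false) (k true) b

/-- Digit size and degrees. -/
structure Ly where
  (K Dt De : ℕ)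

def Ly.Wt (y : Ly) : ℕ := Nat.succ (Nat.mul 2 y.Dt)

def Ly.We (y : Ly) : ℕ := Nat.succ (Nat.mul 2 y.De)

def Ly.W (y : Ly) : ℕ := Nat.mul y.Wt y.We

/-- A signed packed polynomial with a bound for its coefficients and an error. -/
structure TM where
  (ok sg : Bool)
  (a s e : ℕ)

noncomputable def forceT {α : Type} (T : TM) (k : TM → α) : α :=
  TM.rec (motive := fun _ => α) (fun ok sg a s e => forceB ok fun ok => forceB sg fun sg =>
    force a fun a => force s fun s => force e fun e => k ⟨ok, sg, a, s, e⟩) T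

/-- Precomputed masks. -/
structure Cf where
  (p km2 s1 s2 s3 H Hm Bm HO M1 M0 HO0 MK KO OD LD O1 L1 cK cD c1 : ℕ)

noncomputable def on (s n : ℕ) : ℕ := ones (Nat.pow 2 s) n

noncomputable def mkCf {α : Type} (y : Ly) (p r R nb : ℕ) (k : Cf → α) : α :=
  force (Nat.mul y.K y.W) fun s1 => force (Nat.mul 3 s1) fun s3 =>
  force (Nat.pow 2 (Nat.sub y.K 2)) fun H => force (Nat.sub (Nat.pow 2 y.K) 1) fun Bm =>
  force (Nat.mul (on y.K y.W) (on s3 (Nat.succ R))) fun O0 =>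
  force (Nat.mul (Nat.mul (on y.K y.W) (on s1 2)) (on s3 (Nat.succ R))) fun O1 =>
  force (Nat.mul (Nat.mul (Nat.mul (on y.K (Nat.succ y.Dt)) (on (Nat.mul y.K y.Wt) (Nat.succ y.De)))
    (on s1 2)) (on s3 (Nat.succ r))) fun OK =>
  force (Nat.sub O1 OK) fun OD =>
  force p fun p => force (Nat.sub y.K 2) fun km2 => force (Nat.mul 2 s1) fun s2 =>
  force (Nat.sub H 1) fun Hm =>
  force (Nat.mul H (on y.K (Nat.mul nb (Nat.mul 3 y.W)))) fun HO =>
  force (Nat.mul Bm O1) fun M1 => force (Nat.mul Bm O0) fun M0 => force (Nat.mul H O0) fun HO0 =>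
  force (Nat.mul (Nat.sub (Nat.pow 2 (Nat.sub y.K p)) 1) OK) fun MK =>
  force (Nat.mul (Nat.pow 2 (Nat.sub km2 p)) OK) fun KO =>
  force (Nat.mul Hm OD) fun LD => force (Nat.mul Hm O1) fun L1 =>
  force (Nat.succ (Nat.mod OK Bm)) fun cK => force (Nat.mod OD Bm) fun cD =>
  force (Nat.mod O1 Bm) fun c1 =>
  k ⟨p, km2, s1, s2, s3, H, Hm, Bm, HO, M1, M0, HO0, MK, KO, OD, LD, O1, L1, cK, cD, c1⟩

noncomputable def sadd (C : ℕ) (sg : Bool) (a : ℕ) : ℕ := cond sg (Nat.add C a) (Nat.sub C a)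

/-- Use I * I = -1. -/
noncomputable def fold (c : Cf) (Z : ℕ) : ℕ :=
  Nat.sub (Nat.add (Nat.land Z c.M1) c.HO0) (Nat.land (Nat.shiftRight Z c.s2) c.M0)

/-- Absolute values of the selected digits, up to one. -/
noncomputable def absd (c : Cf) (Z O L : ℕ) : ℕ :=
  Nat.xor (Nat.land Z L) (Nat.sub L (Nat.mul (Nat.land (Nat.shiftRight Z c.km2) O) c.Hm))

noncomputable def mkT (ok : Bool) (X Y s e : ℕ) : TM :=
  ⟨ok, Nat.ble Y X, cond (Nat.ble Y X) (Nat.sub X Y) (Nat.sub Y X), s, e⟩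

noncomputable def nrm1 (c : Cf) (ok : Bool) (Z s e : ℕ) : TM :=
  mkT (cond ok (Nat.blt s c.H) false) (Nat.land (Nat.shiftRight Z c.p) c.MK) c.KO
    (Nat.add (Nat.shiftRight s c.p) c.cK)
    (Nat.add (Nat.shiftRight (Nat.add (Nat.add e c.cD) (Nat.mod (absd c Z c.OD c.LD) c.Bm)) c.p)
      c.cK)

/-- Fold, truncate and rescale. -/
noncomputable def nrm (c : Cf) (ok : Bool) (Z s e : ℕ) : TM := nrm1 c ok (fold c Z) s e

noncomputable def eqS (a b : Bool) : Bool := cond a b (cond b false true)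

noncomputable def mulT (c : Cf) (nx ny : ℕ) (X Y : TM) : TM :=
  nrm c (cond X.ok Y.ok false) (sadd c.HO (eqS X.sg Y.sg) (Nat.mul X.a Y.a)) (Nat.mul X.s Y.s)
    (Nat.add (Nat.mul nx Y.e) (Nat.mul X.e (Nat.add ny Y.e)))

noncomputable def mulS (c : Cf) (X Y : TM) : TM :=
  mulT c (Nat.add X.s X.e) (Nat.add Y.s Y.e) X Y

noncomputable def l1Z (c : Cf) (Z : ℕ) : ℕ := Nat.add (Nat.mod (absd c Z c.O1 c.L1) c.Bm) c.c1

/-- Recompute the bound for the coefficients. -/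
noncomputable def tight (c : Cf) (X : TM) : TM :=
  forceT X fun X =>
    ⟨cond X.ok (Nat.blt X.s c.H) false, X.sg, X.a, l1Z c (sadd c.HO X.sg X.a), X.e⟩

noncomputable def addT (X Y : TM) : TM :=
  mkT (cond X.ok Y.ok false) (Nat.add (cond X.sg X.a 0) (cond Y.sg Y.a 0))
    (Nat.add (cond X.sg 0 X.a) (cond Y.sg 0 Y.a)) (Nat.add X.s Y.s) (Nat.add X.e Y.e)

noncomputable def negT (X : TM) : TM := ⟨X.ok, cond X.sg false true, X.a, X.s, X.e⟩

/-- The monomial n at bit position sh. -/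
noncomputable def monT (n sh e : ℕ) : TM := ⟨true, true, Nat.shiftLeft n sh, n, e⟩

noncomputable def shT (X : TM) (sh : ℕ) : TM := ⟨X.ok, X.sg, Nat.shiftLeft X.a sh, X.s, X.e⟩

/-- One step of the Horner scheme. -/
noncomputable def hstep (c : Cf) (w : TM) (sw nw sh : ℕ) (X : TM) (b : ℕ) (Q : TM) : TM :=
  nrm c (cond X.ok Q.ok false)
    (sadd (sadd (sadd c.HO (eqS X.sg w.sg) (Nat.mul X.a w.a)) X.sg (Nat.shiftLeft X.a sh)) Q.sg
      (Nat.mul b Q.a))
    (Nat.add (Nat.mul X.s sw) (Nat.mul b Q.s)) (Nat.add (Nat.mul X.e nw) (Nat.mul b Q.e))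

noncomputable def horner (c : Cf) (w : TM) (sw nw sh : ℕ) (l : List (ℕ × TM)) : TM → TM :=
  List.rec (motive := fun _ => TM → TM) (fun X => X)
    (fun g _ ih X => forceT (hstep c w sw nw sh X g.1 g.2) ih) l

noncomputable def sumN (f : ℕ → ℕ) (n : ℕ) : ℕ :=
  Nat.rec (motive := fun _ => ℕ) 0 (fun i ih => Nat.add ih (f i)) n

/-- Digit number i of size b. -/
noncomputable def dgN (raw b i : ℕ) : ℕ :=
  Nat.mod (Nat.shiftRight raw (Nat.mul b i)) (Nat.pow 2 b)

noncomputable def spr (y : Ly) (u : ℕ → ℕ) (dt de : ℕ) : ℕ :=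
  sumN (fun j => Nat.shiftLeft
    (sumN (fun i => Nat.shiftLeft (u (Nat.add i (Nat.mul dt j))) (Nat.mul y.K i)) dt)
    (Nat.mul (Nat.mul y.K y.Wt) j)) de

/-- A real polynomial with dt * de digits of size b + 1, offset o = spr of the constant 2 ^ b. -/
noncomputable def realT (y : Ly) (c : Cf) (raw b dt de o : ℕ) : TM :=
  tight c (mkT true (spr y (dgN raw (Nat.succ b)) dt de) o
    (Nat.mul (Nat.mul dt de) (Nat.pow 2 b)) 0)

noncomputable def offs (y : Ly) (b dt de : ℕ) : ℕ := spr y (fun _ => Nat.pow 2 b) dt de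

noncomputable def sq1 (n x : ℕ) : ℕ := Nat.succ (Nat.div (Nat.add x (Nat.div n x)) 2)

noncomputable def sqU (n : ℕ) : ℕ :=
  sq1 n (sq1 n (sq1 n (sq1 n (Nat.pow 2 (Nat.succ (Nat.div (Nat.log2 n) 2))))))

noncomputable def dist0 (a b : ℕ) : ℕ := Nat.add (Nat.sub a b) (Nat.sub b a)

/-- Absolute value of the signed digit at bit position sh. -/
noncomputable def adg (c : Cf) (Z sh : ℕ) : ℕ :=
  dist0 (Nat.land (Nat.shiftRight Z sh) c.Bm) c.H

noncomputable def nbd1 (u v s : ℕ) : ℕ :=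
  Nat.add (sqU (Nat.add (Nat.mul u u) (Nat.mul v v))) (Nat.sub s (Nat.add u v))

/-- A bound for the norm of re + I * im. -/
noncomputable def nbd (c : Cf) (re im : TM) : ℕ :=
  nbd1 (adg c (sadd c.HO re.sg re.a) 0) (adg c (sadd c.HO im.sg im.a) 0) (Nat.add re.s im.s)

/-- A complex polynomial. -/
structure CP where
  (re im w : TM)
  (n : ℕ)

noncomputable def mkCP {α : Type} (y : Ly) (c : Cf) (raw b dt de o : ℕ) (k : CP → α) : α :=
  forceT (realT y c raw b dt de o) fun re =>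
  forceT (realT y c (Nat.shiftRight raw (Nat.mul (Nat.succ b) (Nat.mul dt de))) b dt de o) fun im =>
  forceT (addT re (shT im c.s1)) fun w => force (nbd c re im) fun n => k ⟨re, im, w, n⟩

/-- Bounds read off from a product. -/
structure FR where
  (ok : Bool)
  (l0 l2 dl e : ℕ)

noncomputable def fin3 (c : Cf) (ok : Bool) (e t0 t1 t2 u v : ℕ) : FR :=
  force (Nat.add (Nat.mul u u) (Nat.mul v v)) fun n =>
  ⟨ok, Nat.add (Nat.sub t0 t1) c.c1, Nat.add t2 c.c1,
    Nat.sub (Nat.add (Nat.div n (sqU n)) (Nat.add u v)) (Nat.add (Nat.sub t1 t2) c.c1), e⟩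

noncomputable def fin2 (c : Cf) (ok : Bool) (e sh Z A : ℕ) : FR :=
  fin3 c ok e (Nat.mod A c.Bm) (Nat.mod (Nat.shiftRight A c.s3) c.Bm)
    (Nat.mod (Nat.shiftRight (Nat.shiftRight A c.s3) c.s3) c.Bm)
    (adg c Z (Nat.add c.s3 sh)) (adg c Z (Nat.add (Nat.add c.s3 sh) c.s1))

noncomputable def fin1 (c : Cf) (ok : Bool) (e sh Z : ℕ) : FR :=
  force Z fun Z => force (absd c Z c.O1 c.L1) fun A => fin2 c ok e sh Z A

noncomputable def finT (c : Cf) (sh : ℕ) (X : TM) (v : CP) : FR :=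
  fin1 c (cond X.ok (cond v.w.ok (Nat.blt (Nat.mul X.s v.w.s) c.H) false) false)
    (Nat.mul X.e v.n) sh (fold c (sadd c.HO (eqS X.sg v.w.sg) (Nat.mul X.a v.w.a)))

noncomputable def sq2 (w : CP) : ℕ := Nat.add (Nat.mul w.re.a w.re.a) (Nat.mul w.im.a w.im.a)

noncomputable def ss2 (w : CP) : ℕ := Nat.add (Nat.mul w.re.s w.re.s) (Nat.mul w.im.s w.im.s)

noncomputable def gap1 (c : Cf) (sh thr Z : ℕ) : Bool :=
  cond (cond (Nat.beq sh 0) true (Nat.beq (Nat.land Z c.Bm) c.H))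
    (Nat.blt (Nat.add (Nat.add thr (l1Z c Z)) (Nat.mul 2 c.H))
      (Nat.mul 2 (Nat.land (Nat.shiftRight Z sh) c.Bm))) false

/-- The squared modulus of v exceeds that of w by more than thr. -/
noncomputable def gapB (c : Cf) (sh thr : ℕ) (w v : CP) : Bool :=
  cond (cond w.w.ok (cond v.w.ok (Nat.blt (Nat.add (ss2 v) (ss2 w)) c.H) false) false)
    (force (Nat.sub (Nat.add c.HO (sq2 v)) (sq2 w)) fun Z => gap1 c sh thr Z) false

/-- The discs of radius r about w and of radius r' about v are separated by a circle. -/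
noncomputable def gapR (c : Cf) (sh : ℕ) (w : CP) (r : ℕ) (v : CP) (r' : ℕ) : Bool :=
  gapB c sh (Nat.mul (Nat.add r r') (Nat.add w.n v.n)) w v

noncomputable def cstCP (n : ℕ) : CP := ⟨monT n 0 0, monT 0 0 0, monT n 0 0, n⟩

/-! The table of powers of q. -/

noncomputable def newt (c : Cf) (V two : TM) (n : ℕ) (U : TM) : TM :=
  Nat.rec (motive := fun _ => TM) U
    (fun _ U => forceT U fun U => tight c (mulS c U (addT two (negT (mulS c V U))))) n

noncomputable def invT (c : Cf) (S : ℕ) (V U : TM) : TM :=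
  forceT (tight c (addT (mulS c V ⟨U.ok, U.sg, U.a, U.s, 0⟩) (negT (monT S 0 0)))) fun R =>
    ⟨cond U.ok R.ok false, U.sg, U.a, U.s, Nat.mul 2 (Nat.add R.s R.e)⟩

/-- The model of (1 + i τ) / (1 - i τ) for τ = (a0 + a1 t + a2 t ^ 2) / 2 ^ m, scale 2 ^ (m + z). -/
noncomputable def pT (y : Ly) (c : Cf) (m z a0 a1 a2 it : ℕ) : TM :=
  force (Nat.pow 2 (Nat.add m z)) fun S =>
  forceT (addT (monT S 0 0) (negT (addT (monT (Nat.shiftLeft a0 z) c.s1 0)
    (addT (monT (Nat.shiftLeft a1 z) (Nat.add c.s1 y.K) 0)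
      (monT (Nat.shiftLeft a2 z) (Nat.add c.s1 (Nat.mul y.K 2)) 0))))) fun V =>
  force (Nat.add (Nat.pow 4 m) (Nat.mul a0 a0)) fun d =>
  forceT (newt c V (monT (Nat.mul 2 S) 0 0) it
    (addT (monT (Nat.div (Nat.mul S (Nat.pow 4 m)) d) 0 0)
      (monT (Nat.div (Nat.mul S (Nat.shiftLeft a0 m)) d) c.s1 0))) fun U =>
  forceT (invT c S V U) fun U => tight c (addT (addT U U) (negT (monT S 0 0)))

noncomputable def nmul (c : Cf) (x y : ℕ) : ℕ := Nat.succ (Nat.shiftRight (Nat.mul x y) c.p)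

/-- The powers q ^ (k.choose 2), k = 1, 2, ..., in decreasing order. -/
noncomputable def tabR (c : Cf) (q : TM) (nq : ℕ) (fuel : ℕ) :
    ℕ → TM → ℕ → TM → ℕ → List TM → List TM :=
  Nat.rec (motive := fun _ => ℕ → TM → ℕ → TM → ℕ → List TM → List TM)
    (fun _ _ _ _ _ acc => acc)
    (fun _ ih k0 Q nQ pw npw acc =>
      force (nmul c nQ npw) fun nQ' => force (nmul c npw nq) fun npw' =>
      Nat.rec (motive := fun _ => List TM) (ih 0 ⟨true, true, 0, 0, nQ'⟩ nQ' pw npw' (Q :: acc))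
        (fun k1 _ => forceT (tight c (mulT c nQ npw Q pw)) fun Q' =>
          forceT (tight c (mulT c npw nq pw q)) fun pw' => ih k1 Q' nQ' pw' npw' (Q :: acc)) k0)
    fuel

noncomputable def tabQ (y : Ly) (c : Cf) (m z a0 a1 a2 it k0 kmax : ℕ) : List TM :=
  force (Nat.pow 2 (Nat.add m z)) fun S =>
  force (Nat.succ (Nat.div (Nat.mul S (Nat.add (Nat.pow 2 m) a2)) (Nat.sub (Nat.pow 2 m) a2)))
    fun np =>
  forceT (pT y c m z a0 a1 a2 it) fun p => forceT (tight c (mulT c np np p p)) fun q =>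
  force (nmul c np np) fun nq => tabR c q nq kmax k0 (monT S 0 0) S q nq []

noncomputable def revL {α : Type} (l : List α) : List α → List α :=
  List.rec (motive := fun _ => List α → List α) (fun acc => acc) (fun a _ ih acc => ih (a :: acc)) l

noncomputable def dropL {α : Type} (n : ℕ) : List α → List α :=
  Nat.rec (motive := fun _ => List α → List α) (fun l => l)
    (fun _ ih l => List.rec (motive := fun _ => List α) [] (fun _ t _ => ih t) l) n

noncomputable def takeL {α : Type} (l : List α) : ℕ → List α :=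
  List.rec (motive := fun _ => ℕ → List α) (fun _ => [])
    (fun a _ ih n => Nat.rec (motive := fun _ => List α) [] (fun m _ => a :: ih m) n) l

noncomputable def appL {α : Type} (l m : List α) : List α :=
  List.rec (motive := fun _ => List α) m (fun a _ ih => a :: ih) l

noncomputable def forceL {α β : Type} (l : List α) (k : List α → β) : β :=
  List.rec (motive := fun _ => β) (k []) (fun a t _ => k (a :: t)) l

/-- The coefficient list for the centre cc, from n = N down to n = 0. -/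
noncomputable def seqQ (R F : List TM) (kmax N cc : ℕ) : List TM :=
  appL (dropL (Nat.sub kmax (Nat.sub N cc)) R) (takeL F (Nat.succ cc))

noncomputable def zipB (N : ℕ) (l : List TM) : ℕ → ℕ → List (ℕ × TM) :=
  List.rec (motive := fun _ => ℕ → ℕ → List (ℕ × TM)) (fun _ _ => [])
    (fun Q _ ih i b => force b fun b => force i fun i =>
      (b, Q) :: ih (Nat.succ i) (Nat.div (Nat.mul b (Nat.sub N i)) (Nat.succ i))) l

/-- Parameters of a box. -/
structure Bx where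
  (K Dt De z pw m a0 a1 a2 it k0 kmax bw dt de bv vt ve sh : ℕ)

def Bx.y (x : Bx) : Ly := ⟨x.K, x.Dt, x.De⟩

noncomputable def zT : TM := ⟨true, true, 0, 0, 0⟩

noncomputable def evalR (c1 : Cf) (sh pos : ℕ) (l : List (ℕ × TM)) (w v : CP) : FR :=
  cond w.w.ok
    (force (Nat.pow 2 sh) fun r => force (Nat.add w.w.s r) fun sw => force (Nat.add w.n r) fun nw =>
      force (Nat.add c1.s3 sh) fun sh' =>
      forceT (horner c1 w.w sw nw sh' l zT) fun X => finT c1 pos X v) ⟨false, 0, 0, 0, 0⟩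

/-- The constant term of the predictor is - 2 ^ b. -/
noncomputable def herm0 (raw b dt : ℕ) : Bool :=
  Nat.beq (dgN raw (b + 1) 0) 0 && Nat.beq (dgN (Nat.shiftRight raw ((b + 1) * (dt * 1))) (b + 1) 0) (2 ^ b)

/-- All roots of a box for small degree; the data are centre, root, normalising factor. -/
noncomputable def roots1 (x : Bx) (N mu : ℕ) (c0 c1 : Cf) (ow ov : ℕ) (R F : List TM)
    (l : List (ℕ × ℕ × ℕ)) : CP → ℕ → Bool :=
  List.rec (motive := fun _ => CP → ℕ → Bool)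
    (fun v rv => gapR c0 (Nat.mul x.K mu) v rv (cstCP (Nat.pow 2 x.pw)) 0)
    (fun d _ ih v rv =>
      mkCP x.y c0 d.2.1 x.bw x.dt 1 ow fun w => mkCP x.y c0 d.2.2 x.bv x.vt 1 ov fun nu =>
      FR.rec (motive := fun _ => Bool) (fun ok l0 _ dl e => force e fun e => force dl fun dl =>
        force (Nat.succ (Nat.div (Nat.mul (Nat.mul N (Nat.pow 2 x.sh)) (Nat.add l0 e))
          (Nat.sub dl e))) fun rw =>
        cond (ok && Nat.blt e dl && Nat.ble d.1 N && Nat.ble (N - d.1) x.kmax &&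
            Nat.blt d.1 x.kmax && (Nat.beq mu 0 || herm0 d.2.1 x.bw x.dt) &&
            (Nat.beq rv 0 || gapR c0 (Nat.mul x.K mu) v rv w rw))
          (ih w rw) false)
        (evalR c1 x.sh (Nat.mul x.K (Nat.mul mu (Nat.sub N 1)))
          (zipB N (seqQ R F x.kmax N d.1) 0 1) w nu)) l

/-- Side conditions common to all boxes. -/
noncomputable def wf (x : Bx) (nb : ℕ) : Bool :=
  Nat.ble (x.m + x.z + 2) x.K && Nat.ble (x.pw + 2) x.K && Nat.blt (nb * 3 * x.y.W) (2 ^ (x.K - 2)) &&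
    Nat.ble 2 x.Dt && Nat.ble x.dt (x.Dt + 1) && Nat.ble x.vt (x.Dt + 1) &&
    Nat.ble x.de (x.De + 1) && Nat.ble x.ve (x.De + 1)

noncomputable def wf1 (x : Bx) (N mu len : ℕ) : Bool :=
  wf x 3 && Nat.beq x.De 0 && Nat.beq len (N / 2) && Nat.ble 2 N &&
    cond (Nat.beq mu 0) (Nat.beq x.a2 0 && Nat.blt 0 x.a1)
      (Nat.beq mu 1 && Nat.beq x.a0 0 && Nat.beq x.a1 0 && Nat.blt 0 x.a2 &&
        Nat.ble (2 * x.a2) (2 ^ x.m) && Nat.ble N x.Dt && Nat.beq x.bw x.pw && Nat.blt 0 x.dt)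

noncomputable def box1 (x : Bx) (N mu : ℕ) (l : List (ℕ × ℕ × ℕ)) : Bool :=
  cond (wf1 x N mu l.length)
    (mkCf x.y (Nat.add x.m x.z) 0 0 1 fun c0 => mkCf x.y x.pw 1 1 3 fun c1 =>
      force (offs x.y x.bw x.dt 1) fun ow => force (offs x.y x.bv x.vt 1) fun ov =>
      forceL (tabQ x.y c0 x.m x.z x.a0 x.a1 x.a2 x.it x.k0 x.kmax) fun R =>
      forceL (revL R []) fun F => roots1 x N mu c0 c1 ow ov R F l (cstCP 0) 0) false

/-! Large degree N: the second variable e is given by 1 / N = (ae + be e) / 2 ^ m. -/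

noncomputable def mT3 (y : Ly) (c : Cf) (u v w : ℕ) : TM :=
  tight c (mkT true u (Nat.add v (Nat.shiftLeft w (Nat.mul y.K y.Wt))) (Nat.add u (Nat.add v w)) 3)

/-- The model of 2 ^ (m + z) * lam * (1 - n / N) / (n + 1). -/
noncomputable def mT (y : Ly) (c : Cf) (m z lam ae be n : ℕ) : TM :=
  force (Nat.div (Nat.shiftLeft lam (Nat.add m z)) (Nat.succ n)) fun u =>
  force (Nat.div (Nat.shiftLeft (Nat.mul (Nat.mul lam n) ae) z) (Nat.succ n)) fun v =>
  force (Nat.div (Nat.shiftLeft (Nat.mul (Nat.mul lam n) be) z) (Nat.succ n)) fun w => mT3 y c u v w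

/-- The coefficients N.choose n * (lam / N) ^ n * q ^ ex in the order of the Horner scheme,
preceded by a bound for the tail. -/
noncomputable def coefL (y : Ly) (c : Cf) (m z lam ae be S b : ℕ) (l : List TM) :
    ℕ → TM → List (ℕ × TM) → List (ℕ × TM) :=
  List.rec (motive := fun _ => ℕ → TM → List (ℕ × TM) → List (ℕ × TM))
    (fun _ C acc => (b, ⟨C.ok, true, 0, 0, Nat.mul 2 (Nat.add C.s C.e)⟩) :: acc)
    (fun Q _ ih n C acc => forceT (tight c (mulT c (Nat.add C.s C.e) S C Q)) fun G =>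
      forceT (tight c (mulS c C (mT y c m z lam ae be n))) fun C' =>
      force (Nat.succ n) fun n' => ih n' C' ((b, G) :: acc)) l

/-- Parameters of a chain of boxes. -/
structure Ch where
  (lam cc m ae be Nlo : ℕ)

/-- A box of a chain; the data of a root are predictor, normalising factor, radius. -/
structure B2 where
  x : Bx
  (r c0 Z1 M : ℕ)
  l : List (ℕ × ℕ × ℕ)

noncomputable def roots2 (h : Ch) (x : Bx) (Z1 M : ℕ) (c0 c1 : Cf) (ow ov : ℕ) (L : List (ℕ × TM))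
    (l : List (ℕ × ℕ × ℕ)) : CP → ℕ → Bool → Bool :=
  List.rec (motive := fun _ => CP → ℕ → Bool → Bool)
    (fun v rv bar => bar && gapR c0 0 (cstCP Z1) 0 v rv &&
      Nat.ble (h.lam * (v.n + rv)) (h.Nlo * 2 ^ x.pw))
    (fun d _ ih v rv _ =>
      mkCP x.y c0 d.1 x.bw x.dt x.de ow fun w => mkCP x.y c0 d.2.1 x.bv x.vt x.ve ov fun nu =>
      FR.rec (motive := fun _ => Bool) (fun ok l0 l2 dl e => force (Nat.add l0 e) fun le =>
        force dl fun dl => force l2 fun l2 =>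
        cond (ok && Nat.blt (2 * le * 4 ^ x.sh + l2 * d.2.2 * d.2.2) (dl * d.2.2 * 2 ^ x.sh) &&
            Nat.blt d.2.2 (2 ^ x.sh) &&
            Nat.ble (2 * h.lam * (w.n + 2 ^ x.sh)) ((M + 1) * 2 ^ x.pw) &&
            (Nat.beq rv 0 || gapR c0 0 v rv w d.2.2))
          (forceB (Nat.blt (le + l2) dl) fun bar => ih w d.2.2 bar) false)
        (evalR c1 x.sh 0 L w nu)) l

noncomputable def wf2 (h : Ch) (b : B2) : Bool :=
  wf b.x (b.r + 2) && Nat.ble 1 b.x.De && Nat.beq b.x.m h.m && Nat.beq b.x.a2 0 &&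
    Nat.blt 0 b.x.a1 && Nat.blt b.x.a1 b.x.a0 && Nat.blt 0 h.be && Nat.ble h.be h.ae &&
    Nat.ble (2 ^ h.m) ((h.ae + h.be) * h.Nlo) && Nat.ble 40 h.Nlo && Nat.blt 0 h.lam &&
    Nat.ble (h.cc + 2) b.M && Nat.blt h.cc b.x.kmax && Nat.ble (b.M - 1 - h.cc) b.x.kmax &&
    Nat.ble (7 * (h.Nlo * 2 ^ b.x.pw + h.lam * b.Z1) ^ 2) (h.lam * b.Z1 * 2 ^ b.x.pw * h.Nlo ^ 2)

noncomputable def box2 (h : Ch) (b : B2) : Bool :=
  cond (wf2 h b)
    (mkCf b.x.y (Nat.add b.x.m b.x.z) 0 0 1 fun c0 =>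
      mkCf b.x.y b.x.pw b.r (Nat.succ b.r) (b.r + 2) fun c1 =>
      force (offs b.x.y b.x.bw b.x.dt b.x.de) fun ow => force (offs b.x.y b.x.bv b.x.vt b.x.ve) fun ov =>
      forceL (tabQ b.x.y c0 b.x.m b.x.z b.x.a0 b.x.a1 b.x.a2 b.x.it b.x.k0 b.x.kmax) fun R =>
      forceL (revL R []) fun F => force (Nat.pow 2 (Nat.add b.x.m b.x.z)) fun S =>
      force (Nat.pow 2 b.x.pw) fun bb =>
      forceL (coefL b.x.y c0 b.x.m b.x.z h.lam h.ae h.be S bb
        (seqQ R F b.x.kmax (b.M - 1) (b.M - 2 - h.cc)) 0 (monT b.c0 0 0) []) fun L =>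
      roots2 h b.x b.Z1 b.M c0 c1 ow ov L b.l (cstCP 0) 0 false) false

noncomputable def sumZ (f : ℕ → ℤ) (n : ℕ) : ℤ :=
  Nat.rec (motive := fun _ => ℤ) 0 (fun i ih => Int.add ih (f i)) n

/-- The coefficient of e ^ j of a real predictor at t = σ. -/
noncomputable def rowZ (raw b dt de : ℕ) (σ : ℤ) (j : ℕ) : ℤ :=
  cond (Nat.blt j de)
    (sumZ (fun i => ((dgN raw (b + 1) (i + dt * j) : ℤ) - (2 ^ b : ℕ)) * σ ^ i) dt) 0

noncomputable def jd1 (x : Bx) (raw : ℕ) (x' : Bx) (raw' : ℕ) : ℕ :=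
  sumN (fun j => Int.natAbs ((2 ^ x'.pw : ℕ) * rowZ raw x.bw x.dt x.de (-1) j -
    (2 ^ x.pw : ℕ) * rowZ raw' x'.bw x'.dt x'.de 1 j)) (x.de + x'.de)

/-- A bound for the distance of two predictors at t = -1 and t = 1, scale 2 ^ (pw + pw'). -/
noncomputable def jd (x : Bx) (raw : ℕ) (x' : Bx) (raw' : ℕ) : ℕ :=
  jd1 x raw x' raw' + jd1 x (Nat.shiftRight raw ((x.bw + 1) * (x.dt * x.de))) x'
    (Nat.shiftRight raw' ((x'.bw + 1) * (x'.dt * x'.de)))

def B2.J (b : B2) : ℕ := b.l.length - 1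

def B2.rt (b : B2) (j : ℕ) : ℕ × ℕ × ℕ := b.l.getD j (0, 0, 0)

/-- The junction of two consecutive boxes. -/
noncomputable def jn (b b' : B2) : Bool :=
  Nat.beq (b.x.a0 - b.x.a1) (b'.x.a0 + b'.x.a1) && Nat.ble b'.J b.J &&
    Nat.ble (jd b.x (b.rt b'.J).1 b'.x (b'.rt b'.J).1 + (b.rt b'.J).2.2 * 2 ^ b'.x.pw)
      (2 ^ b'.x.sh * 2 ^ b.x.pw)

def zB : Bx := ⟨0, 0, 0, 0, 0, 0, 0, 0, 0, 0, 0, 0, 0, 0, 0, 0, 0, 0, 0⟩

/-- The first box of a chain. -/
noncomputable def st (h : Ch) (b : B2) : Bool :=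
  Nat.beq (b.x.a0 + b.x.a1) (2 ^ h.m) &&
    Nat.ble (200 * h.lam * (jd zB 0 b.x (b.rt b.J).1 + (b.rt b.J).2.2))
      (157 * (2 * (b.J + 1) + 1) * 2 ^ b.x.pw)

end Pool.Agent.Sok.E
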