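import Pool.Agent.Sok.EK

/-! Packed Taylor model arithmetic: the meaning of the data. -/

namespace Pool.Agent.Sok.E

open Pool.Agent.MP_97ada9_an Finset Polynomial

theorem force_eq {α : Type} (n : ℕ) (k : ℕ → α) : force n k = k n := by cases n <;> rfl

theorem forceB_eq {α : Type} (b : Bool) (k : Bool → α) : forceB b k = k b := by cases b <;> rfl

theorem forceT_eq {α : Type} (T : TM) (k : TM → α) : forceT T k = k T := by
  cases T; simp only [forceT, force_eq, forceB_eq]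

theorem forceL_eq {α β : Type} (l : List α) (k : List α → β) : forceL l k = k l := by
  cases l <;> rfl

theorem Ly.Wt_eq (y : Ly) : y.Wt = 2 * y.Dt + 1 := rfl
theorem Ly.We_eq (y : Ly) : y.We = 2 * y.De + 1 := rfl
theorem Ly.W_eq (y : Ly) : y.W = y.Wt * y.We := rfl

/-- Position n = ct + Wt * (ce + We * (cj + 3 * ck)) holds the monomial t^ct e^ce I^cj η^ck. -/
def Ly.ct (y : Ly) (n : ℕ) : ℕ := n % y.Wt
def Ly.ce (y : Ly) (n : ℕ) : ℕ := n / y.Wt % y.We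
def Ly.cj (y : Ly) (n : ℕ) : ℕ := n / y.W % 3
def Ly.ck (y : Ly) (n : ℕ) : ℕ := n / y.W / 3

/-- The positions with bounded exponents. -/
def Ly.pos (y : Ly) (a b j k n : ℕ) : Prop := y.ct n ≤ a ∧ y.ce n ≤ b ∧ y.cj n ≤ j ∧ y.ck n ≤ k

instance (y : Ly) (a b j k n : ℕ) : Decidable (y.pos a b j k n) :=
  inferInstanceAs (Decidable (y.ct n ≤ a ∧ y.ce n ≤ b ∧ y.cj n ≤ j ∧ y.ck n ≤ k))

structure Pt (A : Type) where
  (t e : ℂ)
  η : A

section

variable {A : Type} [NormedCommRing A] [NormedAlgebra ℂ A] [NormOneClass A]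

def Pt.ok (P : Pt A) : Prop := ‖P.t‖ ≤ 1 ∧ ‖P.e‖ ≤ 1 ∧ ‖P.η‖ ≤ 1

/-- The powers of η that are dropped without an error term vanish. -/
def Pt.nil (P : Pt A) (R nb : ℕ) : Prop := ∀ k, R < k → k < nb → P.η ^ k = 0

noncomputable def val (y : Ly) (P : Pt A) (n : ℕ) : A :=
  (P.t ^ y.ct n * P.e ^ y.ce n * Complex.I ^ y.cj n) • P.η ^ y.ck n

noncomputable def ev (y : Ly) (P : Pt A) (f : ℤ[X]) : A := f.sum fun n a => (a : ℂ) • val y P n

noncomputable def evc (y : Ly) (t e : ℂ) (f : ℤ[X]) : ℂ := ev y (⟨t, e, 0⟩ : Pt ℂ) f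

noncomputable def l1 (f : ℤ[X]) : ℤ := f.sum fun _ a => |a|

def In (y : Ly) (a b j k : ℕ) (f : ℤ[X]) : Prop := ∀ n, f.coeff n ≠ 0 → y.pos a b j k n

def sval (sg : Bool) (a : ℕ) : ℤ := cond sg (a : ℤ) (-(a : ℤ))

/-- T packs the polynomial f. -/
def PkT (y : Ly) (j k : ℕ) (T : TM) (f : ℤ[X]) : Prop :=
  In y y.Dt y.De j k f ∧ f.eval (2 ^ y.K) = sval T.sg T.a ∧ l1 f ≤ T.s

/-- T encloses the value x at the point P. -/
def Rep (y : Ly) (k : ℕ) (P : Pt A) (T : TM) (x : A) : Prop :=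
  T.ok = true → ∃ f, PkT y 1 k T f ∧ ‖x - ev y P f‖ ≤ T.e

/-- The number with digit one at the positions n < L in O. -/
def pk (K L : ℕ) (O : ℕ → Prop) [DecidablePred O] : ℕ :=
  ∑ n ∈ range L, (if O n then 1 else 0) * (2 ^ K) ^ n

def cnt (L : ℕ) (O : ℕ → Prop) [DecidablePred O] : ℕ := ((range L).filter O).card

def Ly.O0 (y : Ly) (R n : ℕ) : Prop := y.pos (2 * y.Dt) (2 * y.De) 0 R n
def Ly.O1 (y : Ly) (R n : ℕ) : Prop := y.pos (2 * y.Dt) (2 * y.De) 1 R n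
def Ly.OK (y : Ly) (r n : ℕ) : Prop := y.pos y.Dt y.De 1 r n
def Ly.OD (y : Ly) (r R n : ℕ) : Prop := y.O1 R n ∧ ¬ y.OK r n

instance (y : Ly) (R : ℕ) : DecidablePred (y.O0 R) := fun _ => by unfold Ly.O0; infer_instance
instance (y : Ly) (R : ℕ) : DecidablePred (y.O1 R) := fun _ => by unfold Ly.O1; infer_instance
instance (y : Ly) (R : ℕ) : DecidablePred (y.OK R) := fun _ => by unfold Ly.OK; infer_instance
instance (y : Ly) (r R : ℕ) : DecidablePred (y.OD r R) := fun _ => by unfold Ly.OD; infer_instance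

/-- The masks have their intended values. -/
structure CfOK (c : Cf) (y : Ly) (p r R nb : ℕ) : Prop where
  hK : p + 2 ≤ y.K
  hr : r ≤ R
  hR : R < nb
  hL : nb * 3 * y.W < 2 ^ (y.K - 2)
  hp : c.p = p
  km2 : c.km2 = y.K - 2
  s1 : c.s1 = y.K * y.W
  s2 : c.s2 = y.K * (2 * y.W)
  s3 : c.s3 = y.K * (3 * y.W)
  H : c.H = 2 ^ (y.K - 2)
  Hm : c.Hm = 2 ^ (y.K - 2) - 1
  Bm : c.Bm = 2 ^ y.K - 1
  HO : c.HO = 2 ^ (y.K - 2) * ∑ n ∈ range (nb * 3 * y.W), (2 ^ y.K) ^ n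
  O1 : c.O1 = pk y.K (nb * 3 * y.W) (y.O1 R)
  OD : c.OD = pk y.K (nb * 3 * y.W) (y.OD r R)
  M1 : c.M1 = c.Bm * c.O1
  M0 : c.M0 = c.Bm * pk y.K (nb * 3 * y.W) (y.O0 R)
  HO0 : c.HO0 = c.H * pk y.K (nb * 3 * y.W) (y.O0 R)
  MK : c.MK = (2 ^ (y.K - p) - 1) * pk y.K (nb * 3 * y.W) (y.OK r)
  KO : c.KO = 2 ^ (y.K - 2 - p) * pk y.K (nb * 3 * y.W) (y.OK r)
  LD : c.LD = c.Hm * c.OD
  L1 : c.L1 = c.Hm * c.O1
  cK : c.cK = cnt (nb * 3 * y.W) (y.OK r) + 1
  cD : c.cD = cnt (nb * 3 * y.W) (y.OD r R)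
  c1 : c.c1 = cnt (nb * 3 * y.W) (y.O1 R)

/-- Z is the biased form of f. -/
def Bs (c : Cf) (y : Ly) (Z : ℕ) (f : ℤ[X]) : Prop := (Z : ℤ) = c.HO + f.eval (2 ^ y.K)

/-- The digits of Z are H + g n at the positions in O and zero elsewhere. -/
def Dz (y : Ly) (O : ℕ → Prop) [DecidablePred O] (Z : ℕ) (g : ℕ → ℤ) : Prop :=
  ∀ n, (dg y.K Z n : ℤ) = if O n then g n + 2 ^ (y.K - 2) else 0

/-- The absolute value up to one. -/
def ab (z : ℤ) : ℤ := if 0 ≤ z then z else -z - 1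

/-- The real predictor with the digits of raw as coefficients. -/
noncomputable def pv (raw b dt de : ℕ) (t e : ℂ) : ℂ :=
  ∑ j ∈ range de, ∑ i ∈ range dt, ((dgN raw (b + 1) (i + dt * j) : ℂ) - 2 ^ b) * t ^ i * e ^ j

/-- The complex predictor. -/
noncomputable def cv (raw b dt de : ℕ) (t e : ℂ) : ℂ :=
  pv raw b dt de t e + Complex.I * pv (Nat.shiftRight raw ((b + 1) * (dt * de))) b dt de t e

/-- v packs the polynomial w. -/
def CPok (y : Ly) (v : CP) (w : ℂ → ℂ → ℂ) : Prop :=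
  v.w.ok = true → ∃ f g : ℤ[X], PkT y 0 0 v.re f ∧ PkT y 0 0 v.im g ∧
    PkT y 1 0 v.w (f + X ^ y.W * g) ∧
    (∀ t e, w t e = evc y t e f + Complex.I * evc y t e g) ∧
    ∀ t e, ‖t‖ ≤ 1 → ‖e‖ ≤ 1 → ‖w t e‖ ≤ v.n

/-- The list l encloses the values gs. -/
def RepL (y : Ly) (k : ℕ) (P : Pt A) (l : List (ℕ × TM)) (gs : List A) : Prop :=
  List.Forall₂ (fun d g => ∃ x, Rep y k P d.2 x ∧ g = (d.1 : ℂ) • x) l gs

/-- The Horner scheme. -/
noncomputable def hv (σ : ℂ) (w : A) (gs : List A) (x : A) : A :=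
  gs.foldl (fun x g => σ • (x * w + g)) x

/-- The meaning of the bounds read off from a product; κ is the leading coefficient. -/
def FRok (F : FR) (κ : ℂ) (o : ℝ) (pos : ℕ) (P : Pt A) (x : A) : Prop :=
  ∃ P0 P1 : ℂ, ∃ P2 : A, ‖P0‖ ≤ F.l0 ∧ ‖P1 - κ * P.t ^ pos‖ ≤ o ∧ ‖P2‖ ≤ F.l2 ∧
    ‖x - (algebraMap ℂ A P0 + P1 • P.η + P2 * P.η ^ 2)‖ ≤ F.e

end

/-- The list N, N - 1, ..., 0. -/
def down (N : ℕ) : List ℕ := (List.range (N + 1)).reverse

end Pool.Agent.Sok.E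

/-! Polynomials as coefficient sequences: evaluation, norm, support. -/

namespace Pool.Agent.Sok.E

open Pool.Agent.MP_97ada9_an Finset Polynomial

variable {A : Type} [NormedCommRing A] [NormedAlgebra ℂ A] [NormOneClass A]
  {y : Ly} {P : Pt A}
  {f g : ℤ[X]} {a b j k a' b' j' k' : ℕ}

theorem ev_eq_sum {L : ℕ} (h : ∀ n, f.coeff n ≠ 0 → n < L) :
    ev y P f = ∑ n ∈ range L, (f.coeff n : ℂ) • val y P n := by
  unfold ev
  rw [Polynomial.sum_def]
  refine Finset.sum_subset (fun n hn => mem_range.2 (h n (mem_support_iff.1 hn))) fun n _ hn => ?_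
  simp [notMem_support_iff.1 hn]

theorem l1_eq_sum {L : ℕ} (h : ∀ n, f.coeff n ≠ 0 → n < L) :
    l1 f = ∑ n ∈ range L, |f.coeff n| := by
  unfold l1
  rw [Polynomial.sum_def]
  refine Finset.sum_subset (fun n hn => mem_range.2 (h n (mem_support_iff.1 hn))) fun n _ hn => ?_
  simp [notMem_support_iff.1 hn]

theorem eval_eq_sum {L : ℕ} (h : ∀ n, f.coeff n ≠ 0 → n < L) (B : ℤ) :
    f.eval B = ∑ n ∈ range L, f.coeff n * B ^ n := by
  rw [Polynomial.eval_eq_sum, Polynomial.sum_def]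
  refine Finset.sum_subset (fun n hn => mem_range.2 (h n (mem_support_iff.1 hn))) fun n _ hn => ?_
  simp [notMem_support_iff.1 hn]

theorem ev_zero : ev y P 0 = 0 := by
  simp [ev]

theorem ev_add (f g : ℤ[X]) : ev y P (f + g) = ev y P f + ev y P g := by
  unfold ev
  exact Polynomial.sum_add_index f g _ (fun n => by simp) fun n u v => by
    rw [Int.cast_add, add_smul]

theorem ev_neg (f : ℤ[X]) : ev y P (-f) = -ev y P f := by
  rw [eq_neg_iff_add_eq_zero, ← ev_add, neg_add_cancel, ev_zero]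

theorem ev_sub (f g : ℤ[X]) : ev y P (f - g) = ev y P f - ev y P g := by
  rw [sub_eq_add_neg, ev_add, ev_neg, sub_eq_add_neg]

theorem ev_monomial (n : ℕ) (z : ℤ) : ev y P (monomial n z) = (z : ℂ) • val y P n := by
  unfold ev
  exact Polynomial.sum_monomial_index z _ (by simp)

theorem ev_C_mul (z : ℤ) (f : ℤ[X]) : ev y P (C z * f) = (z : ℂ) • ev y P f := by
  induction f using Polynomial.induction_on' with
  | add p q hp hq => rw [mul_add, ev_add, ev_add, hp, hq, smul_add]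
  | monomial n u => rw [C_mul_monomial, ev_monomial, ev_monomial, Int.cast_mul, mul_smul]

theorem ev_sum {ι : Type} (s : Finset ι) (F : ι → ℤ[X]) :
    ev y P (∑ i ∈ s, F i) = ∑ i ∈ s, ev y P (F i) := by
  classical
  induction s using Finset.induction_on with
  | empty => simpa using ev_zero
  | insert i s hi ih => rw [Finset.sum_insert hi, Finset.sum_insert hi, ev_add, ih]

theorem l1_zero : l1 0 = 0 := by
  simp [l1]

theorem l1_nonneg (f : ℤ[X]) : 0 ≤ l1 f := by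
  exact Finset.sum_nonneg fun n _ => abs_nonneg _

theorem abs_coeff_le (f : ℤ[X]) (n : ℕ) : |f.coeff n| ≤ l1 f := by
  by_cases h : n ∈ f.support
  · exact Finset.single_le_sum (f := fun n => |f.coeff n|) (fun n _ => abs_nonneg _) h
  · rw [notMem_support_iff.1 h, abs_zero]
    exact l1_nonneg f

theorem abs_coeff_add_le (f : ℤ[X]) {n m : ℕ} (h : n ≠ m) : |f.coeff n| + |f.coeff m| ≤ l1 f := by
  by_cases hn : n ∈ f.support
  · by_cases hm : m ∈ f.support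
    · exact Finset.add_le_sum (f := fun n => |f.coeff n|) (fun n _ => abs_nonneg _) hn hm h
    · rw [notMem_support_iff.1 hm, abs_zero, add_zero]
      exact abs_coeff_le f n
  · rw [notMem_support_iff.1 hn, abs_zero, zero_add]
    exact abs_coeff_le f m

theorem l1_add (f g : ℤ[X]) : l1 (f + g) ≤ l1 f + l1 g := by
  have hb : ∀ (h : ℤ[X]) (L : ℕ), h.natDegree < L → ∀ n, h.coeff n ≠ 0 → n < L :=
    fun h L hL n hn => (le_natDegree_of_ne_zero hn).trans_lt hL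
  have hf := le_max_left f.natDegree g.natDegree
  have hg := le_max_right f.natDegree g.natDegree
  rw [l1_eq_sum (hb f _ (Nat.lt_succ_of_le hf)), l1_eq_sum (hb g _ (Nat.lt_succ_of_le hg)),
    l1_eq_sum (hb (f + g) _ (Nat.lt_succ_of_le (natDegree_add_le f g))), ← Finset.sum_add_distrib]
  exact Finset.sum_le_sum fun n _ => by rw [coeff_add]; exact abs_add_le _ _

theorem l1_neg (f : ℤ[X]) : l1 (-f) = l1 f := by
  unfold l1
  rw [Polynomial.sum_def, Polynomial.sum_def, support_neg]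
  exact Finset.sum_congr rfl fun n _ => by rw [coeff_neg, abs_neg]

theorem l1_sub (f g : ℤ[X]) : l1 (f - g) ≤ l1 f + l1 g := by
  rw [sub_eq_add_neg, ← l1_neg g]
  exact l1_add f (-g)

theorem l1_monomial (n : ℕ) (z : ℤ) : l1 (monomial n z) = |z| := by
  unfold l1
  exact Polynomial.sum_monomial_index z _ abs_zero

theorem t0_l1_sum {ι : Type} (s : Finset ι) (F : ι → ℤ[X]) :
    l1 (∑ i ∈ s, F i) ≤ ∑ i ∈ s, l1 (F i) := by
  classical
  induction s using Finset.induction_on with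
  | empty => simpa using l1_zero.le
  | insert i s hi ih =>
    rw [Finset.sum_insert hi, Finset.sum_insert hi]
    exact (l1_add _ _).trans (by linarith)

theorem l1_mul (f g : ℤ[X]) : l1 (f * g) ≤ l1 f * l1 g := by
  rw [Polynomial.mul_eq_sum_sum]
  refine (t0_l1_sum _ _).trans ?_
  rw [l1, l1, Polynomial.sum_def, Polynomial.sum_def, Finset.sum_mul_sum]
  refine Finset.sum_le_sum fun i _ => ?_
  rw [Polynomial.sum_def]
  refine (t0_l1_sum _ _).trans (Finset.sum_le_sum fun n _ => ?_)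
  rw [l1_monomial, abs_mul]

theorem l1_C_mul (z : ℤ) (f : ℤ[X]) : l1 (C z * f) ≤ |z| * l1 f := by
  have h := l1_mul (C z) f
  rwa [← monomial_zero_left, l1_monomial, monomial_zero_left] at h

theorem l1_X_pow_mul (n : ℕ) (f : ℤ[X]) : l1 (X ^ n * f) ≤ l1 f := by
  have h := l1_mul (X ^ n) f
  rwa [X_pow_eq_monomial, l1_monomial, abs_one, one_mul, ← X_pow_eq_monomial] at h

theorem l1_sum {ι : Type} (s : Finset ι) (F : ι → ℤ[X]) : l1 (∑ i ∈ s, F i) ≤ ∑ i ∈ s, l1 (F i) := by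
  exact t0_l1_sum s F

theorem norm_val_le (hP : P.ok) (n : ℕ) : ‖val y P n‖ ≤ 1 := by
  obtain ⟨h1, h2, h3⟩ := hP
  unfold val
  rw [norm_smul, norm_mul, norm_mul, norm_pow, norm_pow, norm_pow, Complex.norm_I, one_pow, mul_one]
  have a1 := pow_le_one₀ (n := y.ct n) (norm_nonneg _) h1
  have a2 := pow_le_one₀ (n := y.ce n) (norm_nonneg _) h2
  have a3 := (norm_pow_le P.η (y.ck n)).trans (pow_le_one₀ (norm_nonneg _) h3)
  exact mul_le_one₀ (mul_le_one₀ a1 (by positivity) a2) (norm_nonneg _) a3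

theorem norm_ev_le (hP : P.ok) (f : ℤ[X]) : ‖ev y P f‖ ≤ (l1 f : ℝ) := by
  rw [ev, l1, Polynomial.sum_def, Polynomial.sum_def, Int.cast_sum]
  refine (norm_sum_le _ _).trans (Finset.sum_le_sum fun n _ => ?_)
  rw [norm_smul, Complex.norm_intCast, Int.cast_abs]
  exact mul_le_of_le_one_right (abs_nonneg _) (norm_val_le hP n)

/-- Closed form of the Horner scheme. -/
theorem hv_range (σ : ℂ) (w : A) (u : ℕ → A) (M : ℕ) (x : A) :
    hv σ w ((List.range M).reverse.map u) x =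
      x * (σ • w) ^ M + σ • ∑ n ∈ range M, u n * (σ • w) ^ n := by
  induction M generalizing x with
  | zero => simp [hv]
  | succ M ih =>
    rw [List.range_succ, List.reverse_append, List.reverse_singleton, List.singleton_append,
      List.map_cons]
    have h : hv σ w (u M :: (List.range M).reverse.map u) x =
        hv σ w ((List.range M).reverse.map u) (σ • (x * w + u M)) := rfl
    rw [h, ih, Finset.sum_range_succ, smul_add σ (∑ n ∈ range M, u n * (σ • w) ^ n), pow_succ]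
    simp only [Algebra.smul_def]
    ring

end Pool.Agent.Sok.E

/-! Positions, supports and products. -/

namespace Pool.Agent.Sok.E

open Pool.Agent.MP_97ada9_an Finset Polynomial

variable {A : Type} [NormedCommRing A] [NormedAlgebra ℂ A] [NormOneClass A]
  {y : Ly} {P : Pt A}
  {f g : ℤ[X]} {a b j k a' b' j' k' : ℕ}

theorem t1_Wt_pos (y : Ly) : 0 < y.Wt := Nat.succ_pos _

theorem t1_We_pos (y : Ly) : 0 < y.We := Nat.succ_pos _

theorem t1_W_pos (y : Ly) : 0 < y.W := Nat.mul_pos (t1_Wt_pos y) (t1_We_pos y)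

theorem pos_mono {n : ℕ} (h : y.pos a b j k n) (ha : a ≤ a') (hb : b ≤ b') (hj : j ≤ j')
    (hk : k ≤ k') : y.pos a' b' j' k' n := by
  exact ⟨h.1.trans ha, h.2.1.trans hb, h.2.2.1.trans hj, h.2.2.2.trans hk⟩

theorem pos_lt {n nb : ℕ} (h : y.pos a b j k n) (hk : k < nb) : n < nb * 3 * y.W := by
  have h1 : n / y.W / 3 < nb := lt_of_le_of_lt h.2.2.2 hk
  rw [Nat.div_lt_iff_lt_mul (by norm_num), Nat.div_lt_iff_lt_mul (t1_W_pos y)] at h1
  exact h1

theorem pos_of_lt {n nb : ℕ} (h : n < (nb + 1) * 3 * y.W) : y.pos (2 * y.Dt) (2 * y.De) 2 nb n := by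
  refine ⟨?_, ?_, ?_, ?_⟩
  · exact Nat.lt_succ_iff.mp (Nat.mod_lt _ (t1_Wt_pos y))
  · exact Nat.lt_succ_iff.mp (Nat.mod_lt _ (t1_We_pos y))
  · exact Nat.lt_succ_iff.mp (Nat.mod_lt _ (by norm_num))
  · refine Nat.lt_succ_iff.mp ?_
    show n / y.W / 3 < nb + 1
    rw [Nat.div_lt_iff_lt_mul (by norm_num), Nat.div_lt_iff_lt_mul (t1_W_pos y)]
    exact h

theorem pos_mk (ha : a ≤ 2 * y.Dt) (hb : b ≤ 2 * y.De) (hj : j ≤ 2) (k : ℕ) :
    y.ct (a + y.Wt * b + y.W * j + 3 * y.W * k) = a ∧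
    y.ce (a + y.Wt * b + y.W * j + 3 * y.W * k) = b ∧
    y.cj (a + y.Wt * b + y.W * j + 3 * y.W * k) = j ∧
    y.ck (a + y.Wt * b + y.W * j + 3 * y.W * k) = k := by
  have ha' : a < y.Wt := Nat.lt_succ_of_le ha
  have hb' : b < y.We := Nat.lt_succ_of_le hb
  have e1 : a + y.Wt * b + y.W * j + 3 * y.W * k = a + y.Wt * (b + y.We * (j + 3 * k)) := by
    rw [Ly.W_eq]; ring
  have e2 : (a + y.Wt * (b + y.We * (j + 3 * k))) / y.Wt = b + y.We * (j + 3 * k) := by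
    rw [Nat.add_mul_div_left _ _ (t1_Wt_pos y), Nat.div_eq_of_lt ha', zero_add]
  have e3 : (a + y.Wt * (b + y.We * (j + 3 * k))) / y.W = j + 3 * k := by
    rw [Ly.W_eq, ← Nat.div_div_eq_div_mul, e2, Nat.add_mul_div_left _ _ (t1_We_pos y),
      Nat.div_eq_of_lt hb', zero_add]
  rw [e1]
  refine ⟨?_, ?_, ?_, ?_⟩
  · rw [Ly.ct, Nat.add_mul_mod_self_left, Nat.mod_eq_of_lt ha']
  · rw [Ly.ce, e2, Nat.add_mul_mod_self_left, Nat.mod_eq_of_lt hb']
  · rw [Ly.cj, e3]; omega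
  · rw [Ly.ck, e3]; omega

theorem pos_decomp (y : Ly) (n : ℕ) :
    n = y.ct n + y.Wt * y.ce n + y.W * y.cj n + 3 * y.W * y.ck n ∧ y.ct n ≤ 2 * y.Dt ∧
      y.ce n ≤ 2 * y.De ∧ y.cj n ≤ 2 := by
  refine ⟨?_, Nat.lt_succ_iff.mp (Nat.mod_lt _ (t1_Wt_pos y)),
    Nat.lt_succ_iff.mp (Nat.mod_lt _ (t1_We_pos y)), Nat.lt_succ_iff.mp (Nat.mod_lt _ (by norm_num))⟩
  have h1 := Nat.mod_add_div n y.Wt
  have h2 := Nat.mod_add_div (n / y.Wt) y.We
  have h3 := Nat.mod_add_div (n / y.W) 3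
  have h4 : n / y.Wt / y.We = n / y.W := by rw [Nat.div_div_eq_div_mul, Ly.W_eq]
  rw [h4] at h2
  unfold Ly.ct Ly.ce Ly.cj Ly.ck
  calc n = n % y.Wt + y.Wt * (n / y.Wt) := h1.symm
    _ = n % y.Wt + y.Wt * (n / y.Wt % y.We + y.We * (n / y.W)) := by rw [h2]
    _ = n % y.Wt + y.Wt * (n / y.Wt % y.We + y.We * (n / y.W % 3 + 3 * (n / y.W / 3))) := by
        rw [h3]
    _ = _ := by
        generalize n / y.W % 3 = u
        generalize n / y.W / 3 = v
        rw [Ly.W_eq]; ring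

theorem pos_add {n n' : ℕ} (h1 : y.ct n + y.ct n' ≤ 2 * y.Dt) (h2 : y.ce n + y.ce n' ≤ 2 * y.De)
    (h3 : y.cj n + y.cj n' ≤ 2) :
    y.ct (n + n') = y.ct n + y.ct n' ∧ y.ce (n + n') = y.ce n + y.ce n' ∧
    y.cj (n + n') = y.cj n + y.cj n' ∧ y.ck (n + n') = y.ck n + y.ck n' ∧
    val y P (n + n') = val y P n * val y P n' := by
  have e : n + n' = (y.ct n + y.ct n') + y.Wt * (y.ce n + y.ce n') + y.W * (y.cj n + y.cj n') +
      3 * y.W * (y.ck n + y.ck n') := by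
    have d1 := (pos_decomp y n).1
    have d2 := (pos_decomp y n').1
    calc n + n' = (y.ct n + y.Wt * y.ce n + y.W * y.cj n + 3 * y.W * y.ck n) +
        (y.ct n' + y.Wt * y.ce n' + y.W * y.cj n' + 3 * y.W * y.ck n') := by rw [← d1, ← d2]
      _ = _ := by ring
  obtain ⟨q1, q2, q3, q4⟩ := pos_mk h1 h2 h3 (y.ck n + y.ck n')
  rw [← e] at q1 q2 q3 q4
  refine ⟨q1, q2, q3, q4, ?_⟩
  unfold val
  rw [q1, q2, q3, q4, smul_mul_smul_comm, ← pow_add]
  congr 1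
  ring

theorem t1_add {n n' : ℕ} (h1 : y.ct n + y.ct n' ≤ 2 * y.Dt) (h2 : y.ce n + y.ce n' ≤ 2 * y.De)
    (h3 : y.cj n + y.cj n' ≤ 2) :
    y.ct (n + n') = y.ct n + y.ct n' ∧ y.ce (n + n') = y.ce n + y.ce n' ∧
    y.cj (n + n') = y.cj n + y.cj n' ∧ y.ck (n + n') = y.ck n + y.ck n' := by
  obtain ⟨q1, q2, q3, q4, -⟩ := pos_add (P := (⟨0, 0, 0⟩ : Pt ℂ)) h1 h2 h3
  exact ⟨q1, q2, q3, q4⟩

theorem val_mk (ha : a ≤ 2 * y.Dt) (hb : b ≤ 2 * y.De) (hj : j ≤ 2) (k : ℕ) :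
    val y P (a + y.Wt * b + y.W * j + 3 * y.W * k) =
      (P.t ^ a * P.e ^ b * Complex.I ^ j) • P.η ^ k := by
  obtain ⟨q1, q2, q3, q4⟩ := pos_mk ha hb hj k
  unfold val
  rw [q1, q2, q3, q4]

theorem In.mono (h : In y a b j k f) (ha : a ≤ a') (hb : b ≤ b') (hj : j ≤ j') (hk : k ≤ k') :
    In y a' b' j' k' f := by
  exact fun n hn => pos_mono (h n hn) ha hb hj hk

theorem In.lt {nb : ℕ} (h : In y a b j k f) (hk : k < nb) :
    ∀ n, f.coeff n ≠ 0 → n < nb * 3 * y.W := by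
  exact fun n hn => pos_lt (h n hn) hk

theorem In.zero : In y a b j k 0 := by
  intro n hn
  simp at hn

theorem In.add (h : In y a b j k f) (h' : In y a b j k g) : In y a b j k (f + g) := by
  intro n hn
  by_cases h1 : f.coeff n = 0
  · refine h' n fun h2 => hn ?_
    rw [coeff_add, h1, h2, add_zero]
  · exact h n h1

theorem In.neg (h : In y a b j k f) : In y a b j k (-f) := by
  intro n hn
  refine h n fun h2 => hn ?_
  rw [coeff_neg, h2, neg_zero]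

theorem In.sub (h : In y a b j k f) (h' : In y a b j k g) : In y a b j k (f - g) := by
  rw [sub_eq_add_neg]
  exact h.add h'.neg

theorem In.C_mul (h : In y a b j k f) (z : ℤ) : In y a b j k (C z * f) := by
  intro n hn
  refine h n fun h2 => hn ?_
  rw [coeff_C_mul, h2, mul_zero]

theorem In.sum {ι : Type} {s : Finset ι} {F : ι → ℤ[X]} (h : ∀ i ∈ s, In y a b j k (F i)) :
    In y a b j k (∑ i ∈ s, F i) := by
  intro n hn
  rw [finsetSum_coeff] at hn
  obtain ⟨i, hi, h2⟩ := Finset.exists_ne_zero_of_sum_ne_zero hn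
  exact h i hi n h2

theorem In.monomial {n : ℕ} (h : y.pos a b j k n) (z : ℤ) : In y a b j k (monomial n z) := by
  intro m hm
  rw [coeff_monomial] at hm
  by_cases e : n = m
  · exact e ▸ h
  · simp [e] at hm

theorem In.mul (h : In y a b j k f) (h' : In y a' b' j' k' g) (ha : a + a' ≤ 2 * y.Dt)
    (hb : b + b' ≤ 2 * y.De) (hj : j + j' ≤ 2) :
    In y (a + a') (b + b') (j + j') (k + k') (f * g) := by
  intro n hn
  rw [coeff_mul] at hn
  obtain ⟨⟨u, v⟩, huv, h2⟩ := Finset.exists_ne_zero_of_sum_ne_zero hn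
  have e : u + v = n := by simpa using huv
  obtain ⟨p1, p2, p3, p4⟩ := h u (left_ne_zero_of_mul h2)
  obtain ⟨r1, r2, r3, r4⟩ := h' v (right_ne_zero_of_mul h2)
  obtain ⟨q1, q2, q3, q4⟩ := t1_add (y := y) (n := u) (n' := v) (by omega) (by omega) (by omega)
  rw [← e]
  exact ⟨by omega, by omega, by omega, by omega⟩

theorem ev_mul (h : In y a b j k f) (h' : In y a' b' j' k' g) (ha : a + a' ≤ 2 * y.Dt)
    (hb : b + b' ≤ 2 * y.De) (hj : j + j' ≤ 2) : ev y P (f * g) = ev y P f * ev y P g := by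
  rw [mul_eq_sum_sum, ev_sum]
  conv_rhs => rw [ev, Polynomial.sum, Finset.sum_mul]
  refine Finset.sum_congr rfl fun u hu => ?_
  rw [Polynomial.sum, ev_sum, ev, Polynomial.sum, Finset.mul_sum]
  refine Finset.sum_congr rfl fun v hv => ?_
  obtain ⟨p1, p2, p3, p4⟩ := h u (mem_support_iff.mp hu)
  obtain ⟨r1, r2, r3, r4⟩ := h' v (mem_support_iff.mp hv)
  have q := (pos_add (P := P) (y := y) (n := u) (n' := v) (by omega) (by omega) (by omega)).2.2.2.2
  rw [ev_monomial, q, smul_mul_smul_comm, Int.cast_mul]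

theorem t1_cap (h : In y a b j k f) :
    In y (min a (2 * y.Dt)) (min b (2 * y.De)) (min j 2) k f := by
  intro n hn
  obtain ⟨p1, p2, p3, p4⟩ := h n hn
  obtain ⟨-, d1, d2, d3⟩ := pos_decomp y n
  exact ⟨le_min p1 d1, le_min p2 d2, le_min p3 d3, p4⟩

/-- Multiplication by I. -/
theorem In.mul_I (h : In y a b 0 k f) :
    In y a b 1 k (X ^ y.W * f) ∧ ev y P (X ^ y.W * f) = Complex.I • ev y P f := by
  obtain ⟨q1, q2, q3, q4⟩ := pos_mk (y := y) (a := 0) (b := 0) (j := 1) (Nat.zero_le _)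
    (Nat.zero_le _) (by norm_num) 0
  have v := val_mk (P := P) (y := y) (a := 0) (b := 0) (j := 1) (Nat.zero_le _)
    (Nat.zero_le _) (by norm_num) 0
  simp only [mul_zero, add_zero, zero_add, mul_one] at q1 q2 q3 q4 v
  have hm : In y 0 0 1 0 (Polynomial.monomial y.W (1 : ℤ)) :=
    In.monomial ⟨q1.le, q2.le, q3.le, q4.le⟩ 1
  have h2 := t1_cap h
  rw [← monomial_one_right_eq_X_pow]
  refine ⟨(hm.mul h2 (by omega) (by omega) (by omega)).mono (by omega) (by omega) (by omega)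
    (by omega), ?_⟩
  rw [ev_mul hm h2 (by omega) (by omega) (by omega), ev_monomial, v]
  simp

/-- Multiplication by η. -/
theorem In.mul_eta (h : In y a b j k f) :
    In y a b j (k + 1) (X ^ (3 * y.W) * f) ∧ ev y P (X ^ (3 * y.W) * f) = P.η * ev y P f := by
  obtain ⟨q1, q2, q3, q4⟩ := pos_mk (y := y) (a := 0) (b := 0) (j := 0) (Nat.zero_le _)
    (Nat.zero_le _) (by norm_num) 1
  have v := val_mk (P := P) (y := y) (a := 0) (b := 0) (j := 0) (Nat.zero_le _)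
    (Nat.zero_le _) (by norm_num) 1
  simp only [mul_zero, add_zero, zero_add, mul_one] at q1 q2 q3 q4 v
  have hm : In y 0 0 0 1 (Polynomial.monomial (3 * y.W) (1 : ℤ)) :=
    In.monomial ⟨q1.le, q2.le, q3.le, q4.le⟩ 1
  have h2 := t1_cap h
  rw [← monomial_one_right_eq_X_pow]
  refine ⟨(hm.mul h2 (by omega) (by omega) (by omega)).mono (by omega) (by omega) (by omega)
    (by omega), ?_⟩
  rw [ev_mul hm h2 (by omega) (by omega) (by omega), ev_monomial, v]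
  simp

theorem ev_lift (h : In y a b j 0 f) : ev y P f = algebraMap ℂ A (evc y P.t P.e f) := by
  unfold evc ev
  rw [Polynomial.sum, Polynomial.sum, map_sum]
  refine Finset.sum_congr rfl fun n hn => ?_
  have q : y.ck n = 0 := Nat.le_zero.mp (h n (mem_support_iff.mp hn)).2.2.2
  unfold val
  rw [q]
  simp only [pow_zero, smul_eq_mul, mul_one, smul_smul, Algebra.algebraMap_eq_smul_one]

theorem evc_real (h : In y a b 0 0 f) (t e : ℝ) : (evc y t e f).im = 0 := by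
  unfold evc ev
  rw [Polynomial.sum, Complex.im_sum]
  refine Finset.sum_eq_zero fun n hn => ?_
  have q : y.ck n = 0 := Nat.le_zero.mp (h n (mem_support_iff.mp hn)).2.2.2
  have q' : y.cj n = 0 := Nat.le_zero.mp (h n (mem_support_iff.mp hn)).2.2.1
  unfold val
  rw [q, q']
  simp only [pow_zero, smul_eq_mul, mul_one]
  have : ((f.coeff n : ℤ) : ℂ) * ((t : ℂ) ^ y.ct n * (e : ℂ) ^ y.ce n) =
      (((f.coeff n : ℝ) * (t ^ y.ct n * e ^ y.ce n) : ℝ) : ℂ) := by push_cast; ring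
  rw [this, Complex.ofReal_im]

theorem PkT.mono {T : TM} (h : PkT y j k T f) (hj : j ≤ j') (hk : k ≤ k') : PkT y j' k' T f := by
  exact ⟨h.1.mono le_rfl le_rfl hj hk, h.2⟩

theorem Rep.mono {T : TM} {x : A} (h : Rep y k P T x) (hk : k ≤ k') : Rep y k' P T x := by
  intro hT
  obtain ⟨f, h1, h2⟩ := h hT
  exact ⟨f, h1.mono le_rfl hk, h2⟩

theorem Rep.lift {T : TM} {z : ℂ} (h : Rep y 0 (⟨P.t, P.e, 0⟩ : Pt ℂ) T z) (k : ℕ) :
    Rep y k P T (algebraMap ℂ A z) := by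
  intro hT
  obtain ⟨f, h1, h2⟩ := h hT
  refine ⟨f, h1.mono le_rfl (Nat.zero_le _), ?_⟩
  rw [ev_lift h1.1, ← map_sub, norm_algebraMap']
  exact h2

theorem Rep.norm_le (hP : P.ok) {T : TM} {x : A} (h : Rep y k P T x) (hT : T.ok = true) :
    ‖x‖ ≤ ((Nat.add T.s T.e : ℕ) : ℝ) := by
  obtain ⟨f, h1, h2⟩ := h hT
  have h3 := norm_ev_le (y := y) hP f
  have h4 : (l1 f : ℝ) ≤ (T.s : ℝ) := by exact_mod_cast h1.2.2
  have h5 : ‖x‖ ≤ ‖x - ev y P f‖ + ‖ev y P f‖ := by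
    simpa using norm_add_le (x - ev y P f) (ev y P f)
  rw [Nat.add_eq, Nat.cast_add]
  linarith

/-- The zero polynomial with an error term. -/
theorem rep_err {ok : Bool} {n : ℕ} {x : A} (h : ok = true → ‖x‖ ≤ n) :
    Rep y k P ⟨ok, true, 0, 0, n⟩ x := by
  intro hT
  refine ⟨0, ⟨In.zero, ?_, ?_⟩, ?_⟩
  · simp [sval]
  · simp [l1_zero]
  · rw [ev_zero, sub_zero]
    exact h hT


end Pool.Agent.Sok.E

/-! Digits and masks. -/

namespace Pool.Agent.Sok.E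

open Pool.Agent.MP_97ada9_an Finset Polynomial

theorem t2_lt {K X L : ℕ} (hK : 1 ≤ K) (h : X ≤ L) : X < (2 ^ K) ^ L :=
  h.trans_lt (Nat.lt_pow_self (Nat.one_lt_two_pow (by omega)))

theorem t2_zero {K X L : ℕ} (hK : 1 ≤ K) (h : X ≤ L) : dg K X L = 0 := by
  rw [dg, Nat.div_eq_of_lt (t2_lt hK h), Nat.zero_mod]

theorem t2_dg {K L Z : ℕ} {z : ℕ → ℕ} (hz : ∀ n, z n < 2 ^ K) (h0 : ∀ n, L ≤ n → z n = 0)
    (h : Z = ∑ n ∈ range L, z n * (2 ^ K) ^ n) (n : ℕ) : dg K Z n = z n := by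
  rw [h, dg_sum _ _ _ fun n _ => hz n]
  split_ifs with hn
  exacts [rfl, (h0 n (not_lt.1 hn)).symm]

theorem dg_ext {K X Y : ℕ} (hK : 1 ≤ K) (h : ∀ n, dg K X n = dg K Y n) : X = Y := by
  rw [eq_sum_dg K X (X + Y) (t2_lt hK (by omega)), funext h,
    ← eq_sum_dg K Y (X + Y) (t2_lt hK (by omega))]

theorem dg_pk {K L z : ℕ} {O : ℕ → Prop} [DecidablePred O] (hz : z < 2 ^ K) (n : ℕ) :
    dg K (z * pk K L O) n = if n < L ∧ O n then z else 0 := by
  rw [pk, mul_sum, sum_congr rfl fun n _ => (mul_assoc _ _ _).symm,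
    dg_sum K L (fun n => z * if O n then 1 else 0) fun n _ => by
      split_ifs
      exacts [(mul_one z).trans_lt hz, by positivity]]
  by_cases h1 : n < L <;> by_cases h2 : O n <;> simp [h1, h2]

theorem dg_shiftRight (K X j n : ℕ) : dg K (Nat.shiftRight X (K * j)) n = dg K X (n + j) := by
  rw [dg, dg, show Nat.shiftRight X (K * j) = X / 2 ^ (K * j) from Nat.shiftRight_eq_div_pow _ _,
    Nat.div_div_eq_div_mul, pow_mul, ← pow_add, add_comm]

theorem dg_xor (K X Y n : ℕ) : dg K (Nat.xor X Y) n = dg K X n ^^^ dg K Y n := by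
  unfold dg
  rw [show Nat.xor X Y = X ^^^ Y from rfl, ← pow_mul, Nat.xor_div_two_pow, Nat.xor_mod_two_pow]

theorem land_Bm (K X j : ℕ) : Nat.land (Nat.shiftRight X (K * j)) (2 ^ K - 1) = dg K X j := by
  rw [Nat.land_eq, Nat.and_two_pow_sub_one_eq_mod, dg,
    show Nat.shiftRight X (K * j) = X / 2 ^ (K * j) from Nat.shiftRight_eq_div_pow _ _, pow_mul]

theorem eq_sum_of_dg {K X L : ℕ} (hK : 1 ≤ K) (h : ∀ n, L ≤ n → dg K X n = 0) :
    X = ∑ n ∈ range L, dg K X n * (2 ^ K) ^ n := by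
  exact dg_ext hK fun n => (t2_dg (dg_lt K X) h rfl n).symm

theorem dg_add {K X Y : ℕ} (hK : 1 ≤ K) (h : ∀ n, dg K X n + dg K Y n < 2 ^ K) (n : ℕ) :
    dg K (X + Y) n = dg K X n + dg K Y n := by
  refine t2_dg (L := X + Y) h (fun n hn => ?_) ?_ n
  · rw [t2_zero hK (by omega), t2_zero hK (by omega)]
  · simp only [add_mul, sum_add_distrib]
    rw [← eq_sum_dg K X _ (t2_lt hK (by omega)), ← eq_sum_dg K Y _ (t2_lt hK (by omega))]

theorem dg_sub {K X Y : ℕ} (hK : 1 ≤ K) (h : ∀ n, dg K Y n ≤ dg K X n) (n : ℕ) :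
    dg K (X - Y) n = dg K X n - dg K Y n := by
  refine t2_dg (L := X + Y) (z := fun n => dg K X n - dg K Y n)
    (fun n => (Nat.sub_le _ _).trans_lt (dg_lt _ _ _)) (fun n hn => ?_)
    (Nat.sub_eq_of_eq_add ?_) n
  · rw [t2_zero hK (show X ≤ n by omega), Nat.zero_sub]
  · refine (eq_sum_dg K X (X + Y) (t2_lt hK (by omega))).trans (Eq.trans ?_
      (congrArg _ (eq_sum_dg K Y (X + Y) (t2_lt hK (by omega))).symm))
    rw [← sum_add_distrib]
    exact sum_congr rfl fun n _ => by rw [← add_mul, Nat.sub_add_cancel (h n)]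

theorem dg_mul {K X z : ℕ} (hK : 1 ≤ K) (h : ∀ n, dg K X n * z < 2 ^ K) (n : ℕ) :
    dg K (X * z) n = dg K X n * z := by
  refine t2_dg (L := X) h (fun n hn => ?_) ?_ n
  · rw [t2_zero hK hn, zero_mul]
  · simp only [mul_right_comm _ z]
    rw [← sum_mul, ← eq_sum_dg K X _ (t2_lt hK le_rfl)]

/-- The sum of the digits (mod_sum in Pack.lean). -/
theorem mod_Bm {K X L : ℕ} (hK : 1 ≤ K) (h : ∀ n, L ≤ n → dg K X n = 0)
    (h2 : ∑ n ∈ range L, dg K X n < 2 ^ K - 1) : X % (2 ^ K - 1) = ∑ n ∈ range L, dg K X n := by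
  rw [← mod_sum (2 ^ K) L _ Nat.one_le_two_pow h2, ← eq_sum_of_dg hK h]

theorem sval_mkT (ok : Bool) (X Y s e : ℕ) :
    sval (mkT ok X Y s e).sg (mkT ok X Y s e).a = (X : ℤ) - Y := by
  unfold mkT sval
  cases h : Nat.ble Y X
  · have : X ≤ Y := (not_le.1 fun e => by rw [Nat.ble_eq.mpr e] at h; cases h).le
    simp [Nat.cast_sub this]
  · simp [Nat.cast_sub (Nat.ble_eq.mp h)]

theorem sval_mul (s t : Bool) (a b : ℕ) : sval (eqS s t) (Nat.mul a b) = sval s a * sval t b := by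
  cases s <;> cases t <;> simp [sval, eqS]

variable {c : Cf} {y : Ly} {p r R nb : ℕ}

theorem Bs.zero (c : Cf) (y : Ly) : Bs c y c.HO 0 := by
  rw [Bs, eval_zero, add_zero]

theorem t2_ho (hc : CfOK c y p r R nb) {f : ℤ[X]} (hf : ∀ n, f.coeff n ≠ 0 → n < nb * 3 * y.W)
    (hl : l1 f < c.H) : (∀ n, (f.coeff n + 2 ^ (y.K - 2)).toNat < 2 ^ y.K) ∧
    (∀ n, ((f.coeff n + 2 ^ (y.K - 2)).toNat : ℤ) = f.coeff n + 2 ^ (y.K - 2)) ∧
    c.HO + f.eval (2 ^ y.K) = (∑ n ∈ range (nb * 3 * y.W),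
      (f.coeff n + 2 ^ (y.K - 2)).toNat * (2 ^ y.K) ^ n : ℕ) := by
  have a (n) := abs_lt.1 ((abs_coeff_le f n).trans_lt hl)
  simp only [hc.H, Nat.cast_pow, Nat.cast_ofNat] at a
  have b (n) : ((f.coeff n + 2 ^ (y.K - 2)).toNat : ℤ) = f.coeff n + 2 ^ (y.K - 2) :=
    Int.toNat_of_nonneg (by linarith [(a n).1])
  refine ⟨fun n => ?_, b, ?_⟩
  · have e : (2 : ℤ) ^ y.K = 4 * 2 ^ (y.K - 2) := by
      rw [show (4 : ℤ) = 2 ^ 2 by norm_num, ← pow_add, Nat.add_sub_cancel' (by linarith [hc.hK])]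
    have := a n
    zify
    rw [b, e]
    linarith
  · rw [hc.HO, eval_eq_sum hf]
    push_cast
    simp only [b, mul_sum, add_mul, sum_add_distrib]
    rw [add_comm]

/-- All numbers f.coeff n + H lie in [0, 2 ^ K). -/
theorem Bs.dz (hc : CfOK c y p r R nb) {Z : ℕ} {f : ℤ[X]} (h : Bs c y Z f)
    (hf : ∀ n, f.coeff n ≠ 0 → n < nb * 3 * y.W) (hl : l1 f < c.H) :
    Dz y (fun n => n < nb * 3 * y.W) Z f.coeff := by
  obtain ⟨a, b, e⟩ := t2_ho hc hf hl
  intro n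
  rw [Nat.cast_injective (R := ℤ) (h.trans e), dg_sum _ _ _ fun n _ => a n]
  split_ifs
  exacts [b n, rfl]

/-- The truncated subtraction is exact since c.HO + (f + g).eval (2 ^ K) is nonnegative. -/
theorem Bs.sadd (hc : CfOK c y p r R nb) {Z a : ℕ} {sg : Bool} {f g : ℤ[X]} (h : Bs c y Z f)
    (hg : g.eval (2 ^ y.K) = sval sg a) (hf : ∀ n, (f + g).coeff n ≠ 0 → n < nb * 3 * y.W)
    (hl : l1 (f + g) < c.H) : Bs c y (sadd Z sg a) (f + g) := by
  have e := ((t2_ho hc hf hl).2.2).symm ▸ Int.natCast_nonneg _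
  rw [Bs] at h ⊢
  rw [eval_add, hg, ← add_assoc, ← h] at e ⊢
  cases sg
  · exact Nat.cast_sub (by simpa [sval] using e)
  · rfl

end Pool.Agent.Sok.E

/-! The masks. -/

namespace Pool.Agent.Sok.E

open Pool.Agent.MP_97ada9_an Finset Polynomial

theorem t2b_on {s : ℕ} (hs : 1 ≤ s) (n : ℕ) : on s n = ∑ i ∈ range n, (2 ^ s) ^ i :=
  ones_eq _ _ (Nat.pow_le_pow_right (n := 2) (by norm_num) hs)

theorem t2b_geo (B a b : ℕ) :
    ∑ i ∈ range (a * b), B ^ i = (∑ i ∈ range a, B ^ i) * ∑ l ∈ range b, (B ^ a) ^ l := by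
  induction b with
  | zero => simp
  | succ b ih =>
    rw [Nat.mul_succ, sum_range_add, ih, sum_range_succ, mul_add, sum_mul _ _ ((B ^ a) ^ b)]
    refine congrArg _ (sum_congr rfl fun i _ => ?_)
    rw [pow_add, pow_mul, mul_comm]

theorem t2b_W (y : Ly) : 1 ≤ y.Wt ∧ 1 ≤ y.W :=
  ⟨Nat.succ_pos _, Nat.mul_pos (Nat.succ_pos _) (Nat.succ_pos _)⟩

theorem t2b_pk (y : Ly) (hK : 1 ≤ y.K) {a b j k nb : ℕ} (ha : a ≤ 2 * y.Dt) (hb : b ≤ 2 * y.De)
    (hj : j ≤ 2) (hk : k < nb) :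
    on y.K (a + 1) * on (y.K * y.Wt) (b + 1) * on (y.K * y.W) (j + 1) *
      on (3 * (y.K * y.W)) (k + 1) = pk y.K (nb * 3 * y.W) (y.pos a b j k) := by
  obtain ⟨h1, h2⟩ := t2b_W y
  have h3 : 1 ≤ y.K * y.W := Nat.mul_pos hK h2
  rw [t2b_on hK, t2b_on (Nat.mul_pos hK h1), t2b_on h3, t2b_on (by omega), pk, sum_mul_sum,
    ← sum_product', sum_mul_sum, ← sum_product', sum_mul_sum, ← sum_product']
  simp only [ite_mul, one_mul, zero_mul]
  rw [← sum_filter]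
  refine sum_nbij' (fun x => x.1.1.1 + y.Wt * x.1.1.2 + y.W * x.1.2 + 3 * y.W * x.2)
    (fun n => (((y.ct n, y.ce n), y.cj n), y.ck n)) ?_ ?_ ?_ ?_ ?_
  · rintro ⟨⟨⟨a', b'⟩, j'⟩, k'⟩ hx
    simp only [mem_product, mem_range] at hx
    obtain ⟨e1, e2, e3, e4⟩ := pos_mk (y := y) (a := a') (b := b') (j := j') (by omega) (by omega)
      (by omega) k'
    have h : y.pos a b j k (a' + y.Wt * b' + y.W * j' + 3 * y.W * k') :=
      ⟨by omega, by omega, by omega, by omega⟩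
    exact mem_filter.2 ⟨mem_range.2 (pos_lt h hk), h⟩
  · intro n hn
    obtain ⟨-, e1, e2, e3, e4⟩ := mem_filter.1 hn
    simp only [mem_product, mem_range]
    omega
  · rintro ⟨⟨⟨a', b'⟩, j'⟩, k'⟩ hx
    simp only [mem_product, mem_range] at hx
    obtain ⟨e1, e2, e3, e4⟩ := pos_mk (y := y) (a := a') (b := b') (j := j') (by omega) (by omega)
      (by omega) k'
    simp only [e1, e2, e3, e4]
  · exact fun n _ => (pos_decomp y n).1.symm
  · rintro ⟨⟨⟨a', b'⟩, j'⟩, k'⟩ -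
    simp only [← pow_mul, ← pow_add]
    exact congrArg _ (by ring)

theorem t2b_full (y : Ly) (hK : 1 ≤ y.K) :
    on y.K y.W = on y.K (2 * y.Dt + 1) * on (y.K * y.Wt) (2 * y.De + 1) := by
  rw [t2b_on hK, t2b_on hK, t2b_on (Nat.mul_pos hK (t2b_W y).1), y.W_eq, t2b_geo, pow_mul]
  rfl

theorem t2b_cnt {K L : ℕ} (hK : 2 ≤ K) (hL : L < 2 ^ (K - 2)) (O : ℕ → Prop) [DecidablePred O] :
    pk K L O % (2 ^ K - 1) = cnt L O := by
  have h1 : ∑ n ∈ range L, (if O n then 1 else 0) = cnt L O := (card_filter _ _).symm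
  have h2 : cnt L O ≤ L := (card_filter_le _ _).trans (card_range L).le
  have h3 : 2 ^ K = 2 ^ (K - 2) * 4 := by
    rw [show 4 = 2 ^ 2 from rfl, ← pow_add, Nat.sub_add_cancel hK]
  rw [pk, mod_sum _ _ _ Nat.one_le_two_pow (by omega), h1]

theorem t2b_sub (y : Ly) {r R : ℕ} (hr : r ≤ R) (K L : ℕ) :
    pk K L (y.O1 R) - pk K L (y.OK r) = pk K L (y.OD r R) := by
  refine Nat.sub_eq_of_eq_add ?_
  rw [pk, pk, pk, ← sum_add_distrib]
  refine sum_congr rfl fun n _ => ?_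
  by_cases h : y.OK r n
  · have h1 : y.O1 R n := pos_mono h (by omega) (by omega) le_rfl hr
    have h2 : ¬ y.OD r R n := fun h' => h'.2 h
    simp only [h, h1, h2, if_true, if_false, zero_mul, zero_add]
  · have h2 : y.OD r R n ↔ y.O1 R n := ⟨fun h' => h'.1, fun h' => ⟨h', h⟩⟩
    simp only [h, h2, if_false, zero_mul, add_zero]

/-- The products of repunits are the indicator numbers of the sets of positions
(ones_eq in Pack.lean, pos_mk, pos_decomp); one may show first that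
on K (a + 1) * on (K * Wt) (b + 1) * on (K * W) (j + 1) * on (3 * (K * W)) (k + 1) is
pk K L (y.pos a b j k) for a ≤ 2 Dt, b ≤ 2 De, j ≤ 2, k < nb, L = nb * 3 * W. -/
theorem mkCf_sound (y : Ly) {p r R nb : ℕ} (hK : p + 2 ≤ y.K) (hr : r ≤ R) (hR : R < nb)
    (hL : nb * 3 * y.W < 2 ^ (y.K - 2)) :
    ∃ c, CfOK c y p r R nb ∧ ∀ {α : Type} (k : Cf → α), mkCf y p r R nb k = k c := by
  have hK1 : 1 ≤ y.K := by omega
  have e0 : on y.K y.W * on (3 * (y.K * y.W)) (R + 1) = pk y.K (nb * 3 * y.W) (y.O0 R) := by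
    have h := t2b_pk y hK1 (j := 0) le_rfl le_rfl (by norm_num) hR
    rw [t2b_on (Nat.mul_pos hK1 (t2b_W y).2), sum_range_one, pow_zero, mul_one, ← t2b_full y hK1] at h
    exact h
  have e1 : on y.K y.W * on (y.K * y.W) 2 * on (3 * (y.K * y.W)) (R + 1) =
      pk y.K (nb * 3 * y.W) (y.O1 R) := by
    rw [t2b_full y hK1]
    exact t2b_pk y hK1 (j := 1) le_rfl le_rfl (by norm_num) hR
  have eK : on y.K (y.Dt + 1) * on (y.K * y.Wt) (y.De + 1) * on (y.K * y.W) 2 *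
      on (3 * (y.K * y.W)) (r + 1) = pk y.K (nb * 3 * y.W) (y.OK r) :=
    t2b_pk y hK1 (j := 1) (by omega) (by omega) (by norm_num) (by omega)
  refine ⟨mkCf y p r R nb id, ?_, fun k => by simp only [mkCf, force_eq, id]⟩
  simp only [mkCf, force_eq, id, Nat.mul_eq, Nat.sub_eq, Nat.pow_eq, Nat.succ_eq_add_one, e0, e1, eK,
    t2b_sub y hr]
  exact ⟨hK, hr, hR, hL, rfl, rfl, rfl, by ring, by ring, rfl, rfl, rfl,
    by rw [t2b_on hK1, mul_assoc nb], rfl, rfl, rfl, rfl, rfl, rfl, rfl, rfl, rfl,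
    congrArg (· + 1) (t2b_cnt (by omega) hL _), t2b_cnt (by omega) hL _, t2b_cnt (by omega) hL _⟩

end Pool.Agent.Sok.E
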