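import Pool.Agent.Sok.EP1

/-! Folding, truncation and rescaling. -/

namespace Pool.Agent.Sok.E

open Pool.Agent.MP_97ada9_an Finset Polynomial

variable {A : Type} [NormedCommRing A] [NormedAlgebra ℂ A] [NormOneClass A]
  {y : Ly} {P : Pt A}
  {c : Cf} {p r R nb : ℕ}

theorem t3_Wpos (y : Ly) : 0 < y.W := by
  rw [Ly.W_eq, Ly.Wt_eq, Ly.We_eq]; positivity

theorem t3_O0 (y : Ly) (R n : ℕ) : y.O0 R n ↔ n / y.W % 3 = 0 ∧ n / y.W / 3 ≤ R := by
  obtain ⟨-, h1, h2, -⟩ := pos_decomp y n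
  unfold Ly.O0 Ly.pos
  simp only [h1, h2, true_and, Ly.cj, Ly.ck, Nat.le_zero]

theorem t3_O1 (y : Ly) (R n : ℕ) : y.O1 R n ↔ n / y.W % 3 ≤ 1 ∧ n / y.W / 3 ≤ R := by
  obtain ⟨-, h1, h2, -⟩ := pos_decomp y n
  unfold Ly.O1 Ly.pos
  simp only [h1, h2, true_and, Ly.cj, Ly.ck]

theorem t3_lt (y : Ly) (nb n : ℕ) : n < nb * 3 * y.W ↔ n / y.W < nb * 3 :=
  (Nat.div_lt_iff_lt_mul (t3_Wpos y)).symm

theorem t3_div (y : Ly) (n : ℕ) : (n + 2 * y.W) / y.W = n / y.W + 2 :=
  Nat.add_mul_div_right n 2 (t3_Wpos y)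

theorem t3_split {M : Type} [AddCommMonoid M] (y : Ly) (hR : R < nb) (F : ℕ → M) :
    ∑ n ∈ range (nb * 3 * y.W), (if y.ck n ≤ R then F n else 0) =
      ∑ n ∈ range (nb * 3 * y.W), (if y.O1 R n then F n else 0) +
        ∑ n ∈ range (nb * 3 * y.W), (if y.O0 R n then F (n + 2 * y.W) else 0) := by
  have h1 : ∑ n ∈ range (nb * 3 * y.W), (if y.O0 R n then F (n + 2 * y.W) else 0) =
      ∑ n ∈ range (nb * 3 * y.W), (if y.ck n ≤ R ∧ y.cj n = 2 then F n else 0) := by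
    rw [← sum_filter, ← sum_filter]
    refine sum_nbij' (fun n => n + 2 * y.W) (fun n => n - 2 * y.W) ?_ ?_ ?_ ?_ ?_
    · intro n hn
      simp only [mem_filter, mem_range, t3_lt, t3_O0, Ly.ck, Ly.cj, t3_div] at hn ⊢
      omega
    · intro n hn
      simp only [mem_filter, mem_range, Ly.ck, Ly.cj] at hn
      have h2 : 2 * y.W ≤ n := by
        have := Nat.mod_le (n / y.W) 3
        rw [← Nat.le_div_iff_mul_le (t3_Wpos y)]; omega
      obtain ⟨m, rfl⟩ : ∃ m, n = m + 2 * y.W := ⟨n - 2 * y.W, by omega⟩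
      simp only [mem_filter, mem_range, t3_lt, t3_O0, t3_div, Nat.add_sub_cancel] at hn ⊢
      omega
    · intro n _
      simp only [Nat.add_sub_cancel]
    · intro n hn
      simp only [mem_filter, mem_range, Ly.ck, Ly.cj] at hn
      have h2 : 2 * y.W ≤ n := by
        have := Nat.mod_le (n / y.W) 3
        rw [← Nat.le_div_iff_mul_le (t3_Wpos y)]; omega
      simp only [Nat.sub_add_cancel h2]
    · intro n _
      rfl
  rw [h1, ← sum_add_distrib]
  refine sum_congr rfl fun n _ => ?_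
  have h2 := t3_O1 y R n
  unfold Ly.ck Ly.cj
  by_cases ha : n / y.W / 3 ≤ R
  · by_cases hb : n / y.W % 3 = 2
    · rw [if_pos ha, if_neg (by rw [h2]; omega), if_pos ⟨ha, hb⟩, zero_add]
    · rw [if_pos ha, if_pos (by rw [h2]; omega), if_neg (fun h => hb h.2), add_zero]
  · rw [if_neg ha, if_neg (by rw [h2]; omega), if_neg (fun h => ha h.1), add_zero]

theorem t3_val (P : Pt A) {n : ℕ} (h : y.O0 R n) : val y P (n + 2 * y.W) = -val y P n := by
  have e : 2 * y.W = 0 + y.Wt * 0 + y.W * 2 + 3 * y.W * 0 := by ring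
  obtain ⟨h1, h2, h3, -⟩ := pos_mk (y := y) (a := 0) (b := 0) (j := 2) (Nat.zero_le _)
    (Nat.zero_le _) le_rfl 0
  have h4 := val_mk (y := y) (P := P) (a := 0) (b := 0) (j := 2) (Nat.zero_le _)
    (Nat.zero_le _) le_rfl 0
  rw [← e] at h1 h2 h3 h4
  obtain ⟨g1, g2, g3, -⟩ := h
  have h5 := (pos_add (y := y) (P := P) (n := n) (n' := 2 * y.W) (by omega) (by omega)
    (by omega)).2.2.2.2
  rw [h5, h4]
  simp

/-- The folded coefficients. -/
noncomputable def t3_g (y : Ly) (R : ℕ) (f : ℤ[X]) (n : ℕ) : ℤ :=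
  (if y.O1 R n then f.coeff n else 0) - (if y.O0 R n then f.coeff (n + 2 * y.W) else 0)

theorem t3_g_ne {f : ℤ[X]} {n : ℕ} (h : t3_g y R f n ≠ 0) : y.O1 R n := by
  by_contra h1
  have h0 : ¬ y.O0 R n := by
    rw [t3_O1] at h1; rw [t3_O0]; omega
  apply h
  unfold t3_g
  rw [if_neg h1, if_neg h0, sub_zero]

theorem t3_coeff (hR : R < nb) (f : ℤ[X]) (n : ℕ) :
    (∑ m ∈ range (nb * 3 * y.W), monomial m (t3_g y R f m)).coeff n = t3_g y R f n := by
  rw [finsetSum_coeff]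
  simp only [coeff_monomial]
  rw [sum_ite_eq']
  split_ifs with h
  · rfl
  · by_contra h1
    exact h (mem_range.2 (pos_lt (t3_g_ne (Ne.symm h1)) hR))

theorem t3_mask {K L : ℕ} {O : ℕ → Prop} [DecidablePred O] (X n : ℕ) :
    dg K (Nat.land X ((2 ^ K - 1) * pk K L O)) n = if n < L ∧ O n then dg K X n else 0 := by
  have h0 : 0 < 2 ^ K := by positivity
  rw [dg_land, dg_pk (by omega)]
  split_ifs
  · rw [Nat.and_two_pow_sub_one_eq_mod, Nat.mod_eq_of_lt (dg_lt _ _ _)]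
  · exact Nat.and_zero _

theorem t3_xor {k z : ℕ} (h : z < 2 ^ k) : z ^^^ (2 ^ k - 1) = 2 ^ k - (z + 1) := by
  apply Nat.eq_of_testBit_eq
  intro i
  rw [Nat.testBit_xor, Nat.testBit_two_pow_sub_one, Nat.testBit_two_pow_sub_succ h]
  by_cases hi : i < k
  · simp [hi]
  · have : z.testBit i = false :=
      Nat.testBit_lt_two_pow (lt_of_lt_of_le h (Nat.pow_le_pow_right (by norm_num) (by omega)))
    simp [hi, this]

/-- The coefficient of g is f n - f (n + 2 W) if cj n = 0, f n if cj n = 1, for ck n ≤ R,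
and zero otherwise. -/
theorem fold_dz (hc : CfOK c y p r R nb) {Z : ℕ} {f : ℤ[X]}
    (hf : ∀ n, f.coeff n ≠ 0 → n < nb * 3 * y.W) (hZ : Bs c y Z f) (hl : l1 f < c.H) :
    ∃ g : ℤ[X], In y (2 * y.Dt) (2 * y.De) 1 R g ∧ l1 g ≤ l1 f ∧ Dz y (y.O1 R) (fold c Z) g.coeff ∧
      ∀ P : Pt A, P.nil R nb → ev y P g = ev y P f := by
  have hR := hc.hR
  have hK : 2 ≤ y.K := by have := hc.hK; omega
  have hD := Bs.dz hc hZ hf hl
  have hH : (c.H : ℤ) = 2 ^ (y.K - 2) := by rw [hc.H]; push_cast; rfl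
  have hH0 : 0 < c.H := by rw [hc.H]; positivity
  have h4 : 2 ^ y.K = 4 * c.H := by
    rw [hc.H, show y.K = (y.K - 2) + 2 by omega, Nat.add_sub_cancel]; ring
  set g : ℤ[X] := ∑ m ∈ range (nb * 3 * y.W), monomial m (t3_g y R f m) with hg
  have hgc : ∀ n, g.coeff n = t3_g y R f n := t3_coeff hR f
  have hIn : In y (2 * y.Dt) (2 * y.De) 1 R g := fun n hn => t3_g_ne (by rwa [hgc] at hn)
  refine ⟨g, hIn, ?_, ?_, ?_⟩
  · rw [l1_eq_sum (hIn.lt hR), l1_eq_sum hf]
    calc ∑ n ∈ range (nb * 3 * y.W), |g.coeff n|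
        ≤ ∑ n ∈ range (nb * 3 * y.W), ((if y.O1 R n then |f.coeff n| else 0) +
            (if y.O0 R n then |f.coeff (n + 2 * y.W)| else 0)) := by
          refine sum_le_sum fun n _ => ?_
          rw [hgc]
          refine (abs_sub _ _).trans (le_of_eq ?_)
          congr 1 <;> split_ifs <;> simp
      _ = ∑ n ∈ range (nb * 3 * y.W), (if y.ck n ≤ R then |f.coeff n| else 0) := by
          rw [t3_split y hR (fun n => |f.coeff n|), sum_add_distrib]
      _ ≤ _ := by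
          refine sum_le_sum fun n _ => ?_
          split_ifs
          · exact le_rfl
          · exact abs_nonneg _
  · have hz : ∀ n, n < nb * 3 * y.W → (dg y.K Z n : ℤ) = f.coeff n + c.H := by
      intro n hn
      rw [hD n, if_pos hn, hH]
    have hb : ∀ n, |f.coeff n| < c.H := fun n => lt_of_le_of_lt (abs_coeff_le f n) hl
    have e1 : ∀ n, dg y.K (Nat.land Z c.M1) n =
        if n < nb * 3 * y.W ∧ y.O1 R n then dg y.K Z n else 0 := by
      intro n; rw [hc.M1, hc.Bm, hc.O1, t3_mask]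
    have e2 : ∀ n, dg y.K c.HO0 n = if n < nb * 3 * y.W ∧ y.O0 R n then c.H else 0 := by
      intro n; rw [hc.HO0, dg_pk (by omega)]
    have e3 : ∀ n, dg y.K (Nat.land (Nat.shiftRight Z c.s2) c.M0) n =
        if n < nb * 3 * y.W ∧ y.O0 R n then dg y.K Z (n + 2 * y.W) else 0 := by
      intro n; rw [hc.M0, hc.Bm, hc.s2, t3_mask, dg_shiftRight]
    have e4 : ∀ n, dg y.K (Nat.land Z c.M1 + c.HO0) n =
        dg y.K (Nat.land Z c.M1) n + dg y.K c.HO0 n := by
      refine dg_add (by omega) fun n => ?_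
      rw [e1, e2]
      have h1 := abs_lt.1 (hb n)
      by_cases hn : n < nb * 3 * y.W
      · have h2 := hz n hn
        split_ifs <;> omega
      · rw [if_neg (fun h => hn h.1), if_neg (fun h => hn h.1)]; omega
    have k0 : ∀ n, y.O0 R n → y.O1 R n ∧ n < nb * 3 * y.W ∧ n + 2 * y.W < nb * 3 * y.W := by
      intro n hn
      rw [t3_O0] at hn
      rw [t3_O1, t3_lt, t3_lt, t3_div]
      omega
    have k1 : ∀ n, y.O0 R n → |f.coeff n| + |f.coeff (n + 2 * y.W)| < c.H := by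
      intro n _
      have := t3_Wpos y
      exact lt_of_le_of_lt (abs_coeff_add_le f (by omega)) hl
    have e5 : ∀ n, dg y.K (Nat.land (Nat.shiftRight Z c.s2) c.M0) n ≤
        dg y.K (Nat.land Z c.M1 + c.HO0) n := by
      intro n
      rw [e4, e1, e2, e3]
      by_cases h0 : y.O0 R n
      · obtain ⟨a1, a2, a3⟩ := k0 n h0
        rw [if_pos (And.intro a2 h0), if_pos (And.intro a2 a1), if_pos (And.intro a2 h0)]
        have b1 := hz n a2
        have b2 := hz _ a3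
        have b3 := k1 n h0
        have b4 := neg_abs_le (f.coeff n)
        have b5 := le_abs_self (f.coeff (n + 2 * y.W))
        omega
      · rw [if_neg (fun h => h0 h.2)]; exact Nat.zero_le _
    intro n
    have e6 : dg y.K (fold c Z) n = dg y.K (Nat.land Z c.M1 + c.HO0) n -
        dg y.K (Nat.land (Nat.shiftRight Z c.s2) c.M0) n := dg_sub (by omega) e5 n
    rw [e6, Nat.cast_sub (e5 n), e4, e1, e2, e3, hgc, ← hH]
    unfold t3_g
    by_cases h0 : y.O0 R n
    · obtain ⟨a1, a2, a3⟩ := k0 n h0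
      rw [if_pos (And.intro a2 h0), if_pos (And.intro a2 a1), if_pos (And.intro a2 h0), if_pos a1,
        if_pos a1, if_pos h0]
      push_cast
      rw [hz n a2, hz _ a3]; ring
    · rw [if_neg (fun h : _ ∧ _ => h0 h.2), if_neg (fun h : _ ∧ _ => h0 h.2), if_neg h0]
      by_cases h1 : y.O1 R n
      · have a2 : n < nb * 3 * y.W := pos_lt h1 hR
        rw [if_pos (And.intro a2 h1), if_pos h1, if_pos h1]
        push_cast
        rw [hz n a2]; ring
      · rw [if_neg (fun h : _ ∧ _ => h1 h.2), if_neg h1]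
        simp
  · intro P hP
    rw [ev_eq_sum (hIn.lt hR), ev_eq_sum hf]
    calc ∑ n ∈ range (nb * 3 * y.W), (g.coeff n : ℂ) • val y P n
        = ∑ n ∈ range (nb * 3 * y.W), ((if y.O1 R n then (f.coeff n : ℂ) • val y P n else 0) +
            (if y.O0 R n then (f.coeff (n + 2 * y.W) : ℂ) • val y P (n + 2 * y.W) else 0)) := by
          refine sum_congr rfl fun n _ => ?_
          rw [hgc]
          unfold t3_g
          rw [Int.cast_sub, sub_smul, sub_eq_add_neg]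
          congr 1
          · split_ifs <;> simp
          · split_ifs with h0
            · rw [t3_val P h0, smul_neg]
            · simp
      _ = ∑ n ∈ range (nb * 3 * y.W),
            (if y.ck n ≤ R then (f.coeff n : ℂ) • val y P n else 0) := by
          rw [t3_split y hR (fun n => (f.coeff n : ℂ) • val y P n), sum_add_distrib]
      _ = _ := by
          refine sum_congr rfl fun n hn => ?_
          split_ifs with h
          · rfl
          · have h1 : y.ck n < nb := by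
              have := (t3_lt y nb n).1 (mem_range.1 hn)
              unfold Ly.ck; omega
            unfold val
            rw [hP (y.ck n) (by omega) h1, smul_zero, smul_zero]

/-- For a digit z = g + H the bit K - 2 is set if and only if 0 ≤ g. -/
theorem absd_dz (hc : CfOK c y p r R nb) {U O : ℕ → Prop} [DecidablePred U] [DecidablePred O]
    {Z L : ℕ} {g : ℕ → ℤ} (hZ : Dz y U Z g) (hO : ∀ n, n < L → O n → U n)
    (hg : ∀ n, |g n| < c.H) (n : ℕ) :
    (dg y.K (absd c Z (pk y.K L O) (c.Hm * pk y.K L O)) n : ℤ) =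
      if n < L ∧ O n then ab (g n) else 0 := by
  have hK : 2 ≤ y.K := by have := hc.hK; omega
  have hHm := hc.Hm
  have hkm := hc.km2
  have hH := hc.H
  unfold Dz at hZ
  generalize y.K = K at hK hHm hkm hH hZ ⊢
  obtain ⟨k, rfl⟩ : ∃ k, K = k + 2 := ⟨K - 2, by omega⟩
  simp only [Nat.add_sub_cancel] at hHm hkm hH hZ
  have h4 : (2 : ℕ) ^ (k + 2) = 4 * 2 ^ k := by ring
  have hp : 0 < 2 ^ k := by positivity
  have hg' : ∀ n, |g n| < 2 ^ k := by
    intro n; have := hg n; rw [hH] at this; exact_mod_cast this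
  have e1 : ∀ n, dg (k + 2) ((2 ^ k - 1) * pk (k + 2) L O) n =
      if n < L ∧ O n then 2 ^ k - 1 else 0 := fun n => dg_pk (by omega) n
  have e2 : ∀ n, dg (k + 2) (Nat.land (Nat.shiftRight Z k) (pk (k + 2) L O)) n =
      if n < L ∧ O n then dg (k + 2) Z n / 2 ^ k % 2 else 0 := by
    intro n
    have h1 := dg_pk (K := k + 2) (L := L) (z := 1) (O := O) (by omega) n
    rw [one_mul] at h1
    rw [dg_land, h1]
    split_ifs
    · rw [Nat.and_one_is_mod]
      have h := dg_shift (k + 2) Z k n (by omega)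
      rw [show k + 2 - k = 2 by omega] at h
      omega
    · exact Nat.and_zero _
  have e3 : ∀ n, dg (k + 2) (Nat.land (Nat.shiftRight Z k) (pk (k + 2) L O)) n * (2 ^ k - 1) ≤
      if n < L ∧ O n then 2 ^ k - 1 else 0 := by
    intro n
    rw [e2]
    split_ifs
    · calc _ ≤ 1 * (2 ^ k - 1) := Nat.mul_le_mul_right _ (by omega)
        _ = _ := one_mul _
    · simp
  have e4 : ∀ n, dg (k + 2) (Nat.land (Nat.shiftRight Z k) (pk (k + 2) L O) * (2 ^ k - 1)) n =
      dg (k + 2) (Nat.land (Nat.shiftRight Z k) (pk (k + 2) L O)) n * (2 ^ k - 1) := by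
    refine dg_mul (by omega) fun n => ?_
    have := e3 n
    split_ifs at this <;> omega
  have e5 := dg_sub (K := k + 2) (X := (2 ^ k - 1) * pk (k + 2) L O)
    (Y := Nat.land (Nat.shiftRight Z k) (pk (k + 2) L O) * (2 ^ k - 1)) (by omega)
    (fun n => by rw [e4, e1]; exact e3 n) n
  have e6 : absd c Z (pk (k + 2) L O) (c.Hm * pk (k + 2) L O) =
      Nat.xor (Nat.land Z ((2 ^ k - 1) * pk (k + 2) L O)) ((2 ^ k - 1) * pk (k + 2) L O -
        Nat.land (Nat.shiftRight Z k) (pk (k + 2) L O) * (2 ^ k - 1)) := by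
    unfold absd
    rw [hHm, hkm]; rfl
  rw [e6, dg_xor, e5, dg_land, e4, e1, e2]
  by_cases h : n < L ∧ O n
  · rw [if_pos h, if_pos h, if_pos h]
    have h1 := hZ n
    rw [if_pos (hO n h.1 h.2)] at h1
    have h2 := abs_lt.1 (hg' n)
    have h3 : ((2 ^ k : ℕ) : ℤ) = 2 ^ k := by push_cast; rfl
    rw [Nat.and_two_pow_sub_one_eq_mod]
    generalize dg (k + 2) Z n = z at h1 ⊢
    unfold ab
    rw [← h3] at h1 h2
    split_ifs with h0
    · have h5 : 2 ^ k ≤ z := by omega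
      have h6 : z / 2 ^ k = 1 := by
        rw [Nat.div_eq_iff hp]; omega
      have h7 : z % 2 ^ k = z - 2 ^ k := by
        rw [Nat.mod_eq_sub_mod h5, Nat.mod_eq_of_lt (by omega)]
      rw [h6, h7]
      simp only [Nat.one_mod, one_mul, Nat.sub_self, Nat.xor_zero]
      omega
    · have h5 : z < 2 ^ k := by omega
      rw [Nat.div_eq_of_lt h5, Nat.mod_eq_of_lt h5]
      simp only [Nat.zero_mod, zero_mul, Nat.sub_zero]
      rw [t3_xor h5]
      omega
  · rw [if_neg h, if_neg h, if_neg h]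
    simp

theorem ab_le (z : ℤ) : 0 ≤ ab z ∧ ab z ≤ |z| ∧ |z| ≤ ab z + 1 := by
  unfold ab
  split_ifs with h
  · rw [abs_of_nonneg h]; omega
  · rw [abs_of_neg (by omega)]; omega

theorem l1Z_ge (hc : CfOK c y p r R nb) {Z : ℕ} {f : ℤ[X]}
    (hf : In y (2 * y.Dt) (2 * y.De) 1 R f) (hZ : Bs c y Z f) (hl : l1 f < c.H) :
    l1 f ≤ l1Z c Z := by
  have hR := hc.hR
  have hK : 2 ≤ y.K := by have := hc.hK; omega
  have hf' := hf.lt hR
  have hD := Bs.dz hc hZ hf' hl
  have hb : ∀ n, |f.coeff n| < c.H := fun n => lt_of_le_of_lt (abs_coeff_le f n) hl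
  have hH0 : 0 < c.H := by rw [hc.H]; positivity
  have h4 : 2 ^ y.K = 4 * c.H := by
    rw [hc.H, show y.K = (y.K - 2) + 2 by omega, Nat.add_sub_cancel]; ring
  have hA : ∀ n, (dg y.K (absd c Z c.O1 c.L1) n : ℤ) =
      if n < nb * 3 * y.W ∧ y.O1 R n then ab (f.coeff n) else 0 := by
    intro n
    rw [hc.L1, hc.O1]
    exact absd_dz hc hD (fun n hn _ => hn) hb n
  have hs : ((∑ n ∈ range (nb * 3 * y.W), dg y.K (absd c Z c.O1 c.L1) n : ℕ) : ℤ) ≤ l1 f := by
    rw [l1_eq_sum hf', Nat.cast_sum]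
    refine sum_le_sum fun n _ => ?_
    rw [hA]
    split_ifs
    · exact (ab_le _).2.1
    · exact abs_nonneg _
  have hm := mod_Bm (K := y.K) (X := absd c Z c.O1 c.L1) (L := nb * 3 * y.W) (by omega)
    (fun n hn => by
      have := hA n
      rw [if_neg (fun h => by omega)] at this
      exact_mod_cast this) (by omega)
  have e : l1Z c Z = absd c Z c.O1 c.L1 % (2 ^ y.K - 1) + cnt (nb * 3 * y.W) (y.O1 R) := by
    unfold l1Z
    rw [hc.Bm, hc.c1]; rfl
  rw [e, hm, l1_eq_sum hf', cnt, card_filter]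
  push_cast
  rw [← sum_add_distrib]
  refine sum_le_sum fun n hn => ?_
  rw [hA]
  by_cases h : y.O1 R n
  · rw [if_pos ⟨mem_range.1 hn, h⟩, if_pos h]
    exact (ab_le _).2.2
  · have h0 : f.coeff n = 0 := by
      by_contra h0
      exact h (hf n h0)
    rw [if_neg (fun h' => h h'.2), if_neg h, h0]
    simp

end Pool.Agent.Sok.E

/-! Truncation and rescaling. -/

namespace Pool.Agent.Sok.E

open Pool.Agent.MP_97ada9_an Finset Polynomial

variable {A : Type} [NormedCommRing A] [NormedAlgebra ℂ A] [NormOneClass A]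
  {y : Ly} {P : Pt A}
  {c : Cf} {p r R nb : ℕ}

theorem t3b_cond {a b : Bool} (h : cond a b false = true) : a = true ∧ b = true := by
  cases a <;> simp_all

theorem t3b_cnt (L : ℕ) (O : ℕ → Prop) [DecidablePred O] :
    (cnt L O : ℤ) = ∑ n ∈ range L, (if O n then 1 else 0 : ℤ) := by
  unfold cnt
  rw [card_filter]
  push_cast
  rfl

theorem t3b_coeff (L : ℕ) (u : ℕ → ℤ) (n : ℕ) :
    (∑ m ∈ range L, monomial m (u m) : ℤ[X]).coeff n = if n < L then u n else 0 := by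
  rw [finsetSum_coeff]
  simp only [coeff_monomial]
  rw [sum_ite_eq' (range L) n u]
  simp only [mem_range]

theorem t3b_div (z : ℤ) (p : ℕ) : 2 ^ p * |z / 2 ^ p| ≤ |z| + 2 ^ p ∧
    |z - 2 ^ p * (z / 2 ^ p)| ≤ 2 ^ p := by
  have hD : (0 : ℤ) < 2 ^ p := by positivity
  have h1 := Int.emod_nonneg z hD.ne'
  have h2 := Int.emod_lt_of_pos z hD
  have h3 := Int.emod_add_mul_ediv z (2 ^ p)
  constructor
  · rw [← abs_of_pos hD, ← abs_mul, abs_of_pos hD, abs_le]
    have := le_abs_self z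
    have := neg_abs_le z
    constructor <;> linarith
  · rw [abs_le]
    constructor <;> linarith

theorem t3b_OK_O1 (hc : CfOK c y p r R nb) {n : ℕ} (h : y.OK r n) : y.O1 R n :=
  pos_mono h (by omega) (by omega) le_rfl hc.hr

theorem t3b_dgX (hc : CfOK c y p r R nb) {Z : ℕ} {g : ℕ → ℤ} (hD : Dz y (y.O1 R) Z g) (n : ℕ) :
    (dg y.K (Nat.land (Nat.shiftRight Z c.p) c.MK) n : ℤ) =
      if n < nb * 3 * y.W ∧ y.OK r n then g n / 2 ^ p + 2 ^ (y.K - 2 - p) else 0 := by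
  have hK := hc.hK
  have hlt : 2 ^ (y.K - p) - 1 < 2 ^ y.K := by
    have h1 : 2 ^ (y.K - p) ≤ 2 ^ y.K := Nat.pow_le_pow_right (by norm_num) (by omega)
    have h2 : 0 < 2 ^ (y.K - p) := by positivity
    omega
  rw [dg_land, hc.MK, dg_pk hlt, hc.hp]
  by_cases h : n < nb * 3 * y.W ∧ y.OK r n
  · rw [if_pos h, if_pos h, Nat.and_two_pow_sub_one_eq_mod, dg_shift _ _ _ _ (by omega)]
    have h1 := hD n
    rw [if_pos (t3b_OK_O1 hc h.2)] at h1
    have h2 : (2 : ℤ) ^ (y.K - 2) = 2 ^ (y.K - 2 - p) * 2 ^ p := by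
      rw [← pow_add]; congr 1; omega
    push_cast
    rw [h1, h2, Int.add_mul_ediv_right _ _ (by positivity)]
  · rw [if_neg h, if_neg h]
    simp

theorem t3b_eval (hc : CfOK c y p r R nb) {Z : ℕ} {g : ℕ → ℤ} (hD : Dz y (y.O1 R) Z g) :
    ((Nat.land (Nat.shiftRight Z c.p) c.MK : ℕ) : ℤ) - c.KO =
      ∑ n ∈ range (nb * 3 * y.W), (if y.OK r n then g n / 2 ^ p else 0) * (2 ^ y.K) ^ n := by
  have hK := hc.hK
  have h1 := eq_sum_of_dg (K := y.K) (X := Nat.land (Nat.shiftRight Z c.p) c.MK)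
    (L := nb * 3 * y.W) (by omega) (fun n hn => by
      have := t3b_dgX hc hD n
      rw [if_neg (by omega)] at this
      exact_mod_cast this)
  rw [h1, hc.KO, pk]
  push_cast
  rw [mul_sum, ← sum_sub_distrib]
  refine sum_congr rfl fun n hn => ?_
  rw [t3b_dgX hc hD n]
  have hn' := mem_range.1 hn
  by_cases h : y.OK r n
  · rw [if_pos ⟨hn', h⟩, if_pos h, if_pos h]; ring
  · rw [if_neg (fun h' => h h'.2), if_neg h, if_neg h]; ring

theorem t3b_mod (hc : CfOK c y p r R nb) {Z : ℕ} {g : ℤ[X]} (hD : Dz y (y.O1 R) Z g.coeff)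
    (hg : ∀ n, g.coeff n ≠ 0 → n < nb * 3 * y.W) (hl : l1 g < c.H) :
    ((Nat.mod (absd c Z c.OD c.LD) c.Bm : ℕ) : ℤ) =
      ∑ n ∈ range (nb * 3 * y.W), (if y.OD r R n then ab (g.coeff n) else 0) := by
  have hK := hc.hK
  have hd : ∀ n, (dg y.K (absd c Z c.OD c.LD) n : ℤ) =
      if n < nb * 3 * y.W ∧ y.OD r R n then ab (g.coeff n) else 0 := by
    intro n
    rw [hc.LD, hc.OD]
    exact absd_dz hc hD (fun n _ h => h.1) (fun n => lt_of_le_of_lt (abs_coeff_le g n) hl) n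
  have hs : ((∑ n ∈ range (nb * 3 * y.W), dg y.K (absd c Z c.OD c.LD) n : ℕ) : ℤ) =
      ∑ n ∈ range (nb * 3 * y.W), (if y.OD r R n then ab (g.coeff n) else 0) := by
    push_cast
    refine sum_congr rfl fun n hn => ?_
    rw [hd n]
    have hn' := mem_range.1 hn
    by_cases h : y.OD r R n
    · rw [if_pos ⟨hn', h⟩, if_pos h]
    · rw [if_neg (fun h' => h h'.2), if_neg h]
  have hle : ∑ n ∈ range (nb * 3 * y.W), (if y.OD r R n then ab (g.coeff n) else 0) ≤ l1 g := by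
    rw [l1_eq_sum hg]
    refine sum_le_sum fun n _ => ?_
    split_ifs
    · exact (ab_le _).2.1
    · exact abs_nonneg _
  have hlt : ∑ n ∈ range (nb * 3 * y.W), dg y.K (absd c Z c.OD c.LD) n < 2 ^ y.K - 1 := by
    have h1 : ∑ n ∈ range (nb * 3 * y.W), dg y.K (absd c Z c.OD c.LD) n < c.H := by
      have : ((∑ n ∈ range (nb * 3 * y.W), dg y.K (absd c Z c.OD c.LD) n : ℕ) : ℤ) < c.H := by
        rw [hs]; linarith
      exact_mod_cast this
    have h2 : 2 ^ y.K = 4 * 2 ^ (y.K - 2) := by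
      rw [show (4 : ℕ) = 2 ^ 2 by norm_num, ← pow_add]; congr 1; omega
    rw [hc.H] at h1
    omega
  have hm := mod_Bm (K := y.K) (X := absd c Z c.OD c.LD) (L := nb * 3 * y.W) (by omega)
    (fun n hn => by
      have := hd n
      rw [if_neg (by omega)] at this
      exact_mod_cast this) hlt
  rw [← hs, ← hm, hc.Bm]
  rfl

theorem t3b_div_le (a p : ℕ) : (a : ℝ) / 2 ^ p ≤ (Nat.shiftRight a p : ℕ) + 1 := by
  have hD : (0 : ℝ) < 2 ^ p := by positivity
  rw [div_le_iff₀ hD]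
  have h0 : Nat.shiftRight a p = a / 2 ^ p := Nat.shiftRight_eq_div_pow a p
  have h1 : a < (a / 2 ^ p + 1) * 2 ^ p := by
    rw [← Nat.div_lt_iff_lt_mul (by positivity)]; omega
  rw [h0]
  exact_mod_cast h1.le

/-- The new coefficients are the integer quotients of the folded ones by 2 ^ p at the kept
positions (dg_shift in Pack.lean). -/
theorem nrm_rep (hc : CfOK c y p r R nb) (hP : P.ok) (hn : P.nil R nb) {ok : Bool} {Z s e : ℕ}
    {x : A} (h : ok = true → s < c.H → ∃ f : ℤ[X], (∀ n, f.coeff n ≠ 0 → n < nb * 3 * y.W) ∧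
      Bs c y Z f ∧ l1 f ≤ s ∧ ‖x - ev y P f‖ ≤ e) :
    Rep y r P (nrm c ok Z s e) (((2 : ℂ) ^ p)⁻¹ • x) := by
  intro hok
  have hok' : cond ok (Nat.blt s c.H) false = true := hok
  obtain ⟨h1, h2⟩ := t3b_cond hok'
  have hs : s < c.H := by simpa [Nat.blt_eq] using h2
  obtain ⟨f, hf, hZ, hl, he⟩ := h h1 hs
  have hsH : (s : ℤ) < c.H := by exact_mod_cast hs
  obtain ⟨g, hgI, hgl, hD, hev⟩ := fold_dz (A := A) hc hf hZ (by linarith)
  have hg := hgI.lt hc.hR
  set L := nb * 3 * y.W with hL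
  set u : ℕ → ℤ := fun n => if y.OK r n then g.coeff n / 2 ^ p else 0 with hu
  set f' : ℤ[X] := ∑ m ∈ range L, monomial m (u m) with hf'
  have hco : ∀ n, f'.coeff n = if n < L then u n else 0 := t3b_coeff L u
  clear_value f'
  have hsup : ∀ n, f'.coeff n ≠ 0 → n < L := by
    intro n hn
    by_contra h'
    exact hn (by rw [hco, if_neg h'])
  have hD0 : (0 : ℤ) < 2 ^ p := by positivity
  refine ⟨f', ⟨?_, ?_, ?_⟩, ?_⟩
  · intro n hn
    by_contra h'
    have h'' : ¬ y.OK r n := h'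
    apply hn
    rw [hco]
    simp only [hu, if_neg h'', ite_self]
  · show _ = sval (mkT _ _ _ _ _).sg (mkT _ _ _ _ _).a
    rw [sval_mkT, t3b_eval hc hD, eval_eq_sum hsup]
    refine sum_congr rfl fun n hn => ?_
    rw [hco, if_pos (mem_range.1 hn)]
  · show l1 f' ≤ ((Nat.add (Nat.shiftRight s c.p) c.cK : ℕ) : ℤ)
    have h3 : 2 ^ p * l1 f' ≤ l1 g + 2 ^ p * cnt L (y.OK r) := by
      rw [l1_eq_sum hsup, l1_eq_sum hg, t3b_cnt, mul_sum, mul_sum, ← sum_add_distrib]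
      refine sum_le_sum fun n hn => ?_
      rw [hco, if_pos (mem_range.1 hn)]
      by_cases h' : y.OK r n
      · simp only [hu, if_pos h', mul_one]
        exact (t3b_div _ _).1
      · simp only [hu, if_neg h', abs_zero, mul_zero, add_zero]
        exact abs_nonneg _
    have h0 : Nat.shiftRight s c.p = s / 2 ^ p := by
      rw [hc.hp]; exact Nat.shiftRight_eq_div_pow s p
    have h4 : s < (s / 2 ^ p + 1) * 2 ^ p := by
      rw [← Nat.div_lt_iff_lt_mul (by positivity)]; omega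
    have h5 : (s : ℤ) < (((s / 2 ^ p : ℕ) : ℤ) + 1) * 2 ^ p := by exact_mod_cast h4
    rw [Nat.add_eq, h0, hc.cK, Nat.cast_add, Nat.cast_add, Nat.cast_one]
    refine le_of_mul_le_mul_left ?_ hD0
    nlinarith
  · show _ ≤ ((Nat.add (Nat.shiftRight (Nat.add (Nat.add e c.cD)
      (Nat.mod (absd c (fold c Z) c.OD c.LD) c.Bm)) c.p) c.cK : ℕ) : ℝ)
    have hm := t3b_mod hc hD hg (by linarith)
    set m := Nat.mod (absd c (fold c Z) c.OD c.LD) c.Bm with hmdef
    have h3 : l1 (g - C (2 ^ p) * f') ≤ c.cD + m + 2 ^ p * cnt L (y.OK r) := by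
      have hsup2 : ∀ n, (g - C (2 ^ p) * f').coeff n ≠ 0 → n < L := by
        intro n hn
        by_contra h'
        apply hn
        have a1 : g.coeff n = 0 := by
          by_contra a1
          exact h' (hg n a1)
        rw [coeff_sub, coeff_C_mul, a1, hco, if_neg h']
        simp
      rw [l1_eq_sum hsup2, hm, hc.cD, t3b_cnt, t3b_cnt, mul_sum, ← sum_add_distrib,
        ← sum_add_distrib]
      refine sum_le_sum fun n hn => ?_
      rw [coeff_sub, coeff_C_mul, hco, if_pos (mem_range.1 hn)]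
      by_cases h' : y.OK r n
      · have h'' : ¬ y.OD r R n := fun a => a.2 h'
        simp only [hu, if_pos h', if_neg h'', mul_one, add_zero, zero_add]
        exact (t3b_div _ _).2
      · simp only [hu, if_neg h', mul_zero, add_zero, sub_zero]
        by_cases h'' : y.OD r R n
        · simp only [if_pos h'']
          have := (ab_le (g.coeff n)).2.2
          linarith
        · have a1 : g.coeff n = 0 := by
            by_contra a1
            exact h'' ⟨hgI n a1, h'⟩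
          simp only [if_neg h'', a1, abs_zero, add_zero, le_refl]
    have h4 := norm_ev_le (y := y) hP (g - C (2 ^ p) * f')
    have h5 : (l1 (g - C (2 ^ p) * f') : ℝ) ≤ c.cD + m + 2 ^ p * cnt L (y.OK r) := by
      exact_mod_cast h3
    have hD1 : (0 : ℝ) < 2 ^ p := by positivity
    have hD2 : ((2 : ℂ) ^ p) ≠ 0 := pow_ne_zero _ two_ne_zero
    have h6 : ((2 : ℂ) ^ p)⁻¹ • x - ev y P f' =
        ((2 : ℂ) ^ p)⁻¹ • ((x - ev y P f) + ev y P (g - C (2 ^ p) * f')) := by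
      rw [ev_sub, ev_C_mul, hev P hn]
      push_cast
      rw [sub_add_sub_cancel, smul_sub, smul_smul, inv_mul_cancel₀ hD2, one_smul]
    have h7 : ‖(x - ev y P f) + ev y P (g - C (2 ^ p) * f')‖ ≤
        e + (c.cD + m + 2 ^ p * cnt L (y.OK r)) :=
      (norm_add_le _ _).trans (add_le_add he (h4.trans h5))
    have h8 := t3b_div_le (Nat.add (Nat.add e c.cD) m) p
    rw [h6, norm_smul, norm_inv, norm_pow, Complex.norm_ofNat, Nat.add_eq, hc.cK, hc.hp]
    simp only [Nat.add_eq] at h8 ⊢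
    push_cast at h8 ⊢
    calc _ ≤ (2 ^ p)⁻¹ * (e + (c.cD + m + 2 ^ p * cnt L (y.OK r)) : ℝ) :=
          mul_le_mul_of_nonneg_left h7 (by positivity)
      _ = (e + c.cD + m : ℝ) / 2 ^ p + cnt L (y.OK r) := by field_simp; ring
      _ ≤ _ := by linarith

theorem nrm_ok {ok : Bool} {Z s e : ℕ} (h : (nrm c ok Z s e).ok = true) : ok = true := by
  have hok' : cond ok (Nat.blt s c.H) false = true := h
  exact (t3b_cond hok').1

theorem tight_pk (hc : CfOK c y p r R nb) {X : TM} (h : (tight c X).ok = true) :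
    X.ok = true ∧ X.s < c.H ∧ (tight c X).e = X.e ∧ (tight c X).sg = X.sg ∧ (tight c X).a = X.a ∧
      ∀ j k f, j ≤ 1 → k ≤ R → PkT y j k X f → PkT y j k (tight c X) f := by
  have hT : tight c X =
      ⟨cond X.ok (Nat.blt X.s c.H) false, X.sg, X.a, l1Z c (sadd c.HO X.sg X.a), X.e⟩ := by
    unfold tight; rw [forceT_eq]
  rw [hT] at h ⊢
  obtain ⟨h1, h2⟩ := t3b_cond h
  have hs : X.s < c.H := by simpa [Nat.blt_eq] using h2
  refine ⟨h1, hs, rfl, rfl, rfl, fun j k f hj hk hf => ⟨hf.1, hf.2.1, ?_⟩⟩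
  have hI : In y (2 * y.Dt) (2 * y.De) 1 R f := hf.1.mono (by omega) (by omega) hj hk
  have hsH : (X.s : ℤ) < c.H := by exact_mod_cast hs
  have hl : l1 f < c.H := lt_of_le_of_lt hf.2.2 hsH
  have hB : Bs c y (sadd c.HO X.sg X.a) (0 + f) :=
    Bs.sadd hc (Bs.zero c y) hf.2.1 (by rw [zero_add]; exact hI.lt hc.hR) (by rwa [zero_add])
  rw [zero_add] at hB
  exact l1Z_ge hc hI hB hl

theorem tight_rep (hc : CfOK c y p r R nb) {X : TM} {x : A} {k : ℕ} (hk : k ≤ R)
    (h : Rep y k P X x) : Rep y k P (tight c X) x := by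
  intro hok
  obtain ⟨h1, _, h3, _, _, h6⟩ := tight_pk hc hok
  obtain ⟨f, hf, he⟩ := h h1
  exact ⟨f, h6 1 k f le_rfl hk hf, by rw [h3]; exact he⟩

end Pool.Agent.Sok.E

/-! Arithmetic of Taylor models, the Horner scheme, predictors. -/

namespace Pool.Agent.Sok.E

open Pool.Agent.MP_97ada9_an Finset Polynomial

variable {A : Type} [NormedCommRing A] [NormedAlgebra ℂ A] [NormOneClass A]
  {y : Ly} {P : Pt A}
  {c : Cf} {p r R nb : ℕ}

theorem t4_cond {a b : Bool} (h : cond a b false = true) : a = true ∧ b = true := by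
  cases a <;> simp_all

theorem t4_shl (n s : ℕ) : ((Nat.shiftLeft n s : ℕ) : ℤ) = n * 2 ^ s := by
  show ((n <<< s : ℕ) : ℤ) = _
  rw [Nat.shiftLeft_eq]
  push_cast
  rfl

theorem mulT_rep (hc : CfOK c y p r R nb) (hP : P.ok) (hn : P.nil R nb) {k k' nx ny : ℕ}
    (hk : k + k' < nb) {X Y : TM} {x x' : A} (hX : Rep y k P X x) (hY : Rep y k' P Y x')
    (hx : X.ok = true → ‖x‖ ≤ nx) (hy : Y.ok = true → ‖x'‖ ≤ ny) :
    Rep y r P (mulT c nx ny X Y) (((2 : ℂ) ^ p)⁻¹ • (x * x')) := by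
  refine nrm_rep hc hP hn fun hok hs => ?_
  obtain ⟨h1, h2⟩ := t4_cond hok
  obtain ⟨f, ⟨f1, f2, f3⟩, f4⟩ := hX h1
  obtain ⟨g, ⟨g1, g2, g3⟩, g4⟩ := hY h2
  have hin := (In.mul f1 g1 (by omega) (by omega) (by omega)).lt hk
  have hl : l1 (f * g) ≤ ((Nat.mul X.s Y.s : ℕ) : ℤ) := by
    rw [Nat.mul_eq, Nat.cast_mul]
    exact (l1_mul f g).trans (mul_le_mul f3 g3 (l1_nonneg _) (by positivity))
  have hs' : ((Nat.mul X.s Y.s : ℕ) : ℤ) < c.H := by exact_mod_cast hs
  refine ⟨f * g, hin, ?_, hl, ?_⟩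
  · have := Bs.sadd hc (Bs.zero c y) (g := f * g) (sg := eqS X.sg Y.sg) (a := Nat.mul X.a Y.a)
      (by rw [eval_mul, f2, g2, sval_mul]) (by rwa [zero_add]) (by rw [zero_add]; omega)
    rwa [zero_add] at this
  · rw [ev_mul f1 g1 (by omega) (by omega) (by omega)]
    have e : x * x' - ev y P f * ev y P g = x * (x' - ev y P g) + (x - ev y P f) * ev y P g := by
      ring
    have a1 : ‖ev y P g‖ ≤ ny + Y.e := by
      have e2 : ev y P g = x' - (x' - ev y P g) := by ring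
      rw [e2]
      exact (norm_sub_le _ _).trans (add_le_add (hy h2) g4)
    rw [e]
    simp only [Nat.add_eq, Nat.mul_eq, Nat.cast_add, Nat.cast_mul]
    refine (norm_add_le _ _).trans (add_le_add ((norm_mul_le _ _).trans ?_)
      ((norm_mul_le _ _).trans ?_))
    · exact mul_le_mul (hx h1) g4 (norm_nonneg _) (by positivity)
    · exact mul_le_mul f4 a1 (norm_nonneg _) (by positivity)

theorem mulS_rep (hc : CfOK c y p r R nb) (hP : P.ok) (hn : P.nil R nb) {k k' : ℕ}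
    (hk : k + k' < nb) {X Y : TM} {x x' : A} (hX : Rep y k P X x) (hY : Rep y k' P Y x') :
    Rep y r P (mulS c X Y) (((2 : ℂ) ^ p)⁻¹ • (x * x')) := by
  exact mulT_rep hc hP hn hk hX hY (hX.norm_le hP) (hY.norm_le hP)

theorem addT_pk {j k : ℕ} {X Y : TM} {f g : ℤ[X]} (hX : PkT y j k X f) (hY : PkT y j k Y g) :
    PkT y j k (addT X Y) (f + g) := by
  obtain ⟨f1, f2, f3⟩ := hX
  obtain ⟨g1, g2, g3⟩ := hY
  refine ⟨f1.add g1, ?_, ?_⟩
  · unfold addT
    rw [sval_mkT, eval_add, f2, g2]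
    cases X.sg <;> cases Y.sg <;> simp [sval] <;> ring
  · show l1 (f + g) ≤ ((X.s + Y.s : ℕ) : ℤ)
    rw [Nat.cast_add]
    exact (l1_add f g).trans (add_le_add f3 g3)

theorem addT_rep {k : ℕ} {X Y : TM} {x x' : A} (hX : Rep y k P X x) (hY : Rep y k P Y x') :
    Rep y k P (addT X Y) (x + x') := by
  intro hok
  obtain ⟨h1, h2⟩ := t4_cond (a := X.ok) (b := Y.ok) hok
  obtain ⟨f, f1, f4⟩ := hX h1
  obtain ⟨g, g1, g4⟩ := hY h2
  refine ⟨f + g, addT_pk f1 g1, ?_⟩
  show _ ≤ ((X.e + Y.e : ℕ) : ℝ)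
  have e : x + x' - (ev y P f + ev y P g) = (x - ev y P f) + (x' - ev y P g) := by ring
  rw [ev_add, e, Nat.cast_add]
  exact (norm_add_le _ _).trans (add_le_add f4 g4)

theorem negT_rep {k : ℕ} {X : TM} {x : A} (hX : Rep y k P X x) : Rep y k P (negT X) (-x) := by
  intro hok
  obtain ⟨f, ⟨f1, f2, f3⟩, f4⟩ := hX hok
  refine ⟨-f, ⟨f1.neg, ?_, ?_⟩, ?_⟩
  · show _ = sval (cond X.sg false true) X.a
    rw [eval_neg, f2]
    cases X.sg <;> simp [sval]
  · rw [l1_neg]; exact f3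
  · have e : -x - -ev y P f = -(x - ev y P f) := by ring
    rw [ev_neg, e, norm_neg]
    exact f4

theorem monT_pk {j k i : ℕ} (h : y.pos y.Dt y.De j k i) (n e : ℕ) :
    PkT y j k (monT n (y.K * i) e) (monomial i (n : ℤ)) := by
  refine ⟨In.monomial h _, ?_, ?_⟩
  · show _ = ((Nat.shiftLeft n (y.K * i) : ℕ) : ℤ)
    rw [eval_monomial, t4_shl, ← pow_mul]
  · show _ ≤ (n : ℤ)
    rw [l1_monomial, Nat.abs_cast]

theorem monT_rep {k i : ℕ} (h : y.pos y.Dt y.De 1 k i) (n : ℕ) :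
    Rep y k P (monT n (y.K * i) 0) ((n : ℂ) • val y P i) := by
  intro _
  refine ⟨_, monT_pk h n 0, ?_⟩
  show _ ≤ ((0 : ℕ) : ℝ)
  rw [ev_monomial]
  simp

theorem monT_const (k n : ℕ) : Rep y k P (monT n 0 0) (algebraMap ℂ A n) := by
  have h : y.pos y.Dt y.De 1 k 0 := by simp [Ly.pos, Ly.ct, Ly.ce, Ly.cj, Ly.ck]
  have := monT_rep (P := P) h n
  have e : val y P 0 = 1 := by simp [val, Ly.ct, Ly.ce, Ly.cj, Ly.ck]
  rw [e, mul_zero, ← Algebra.algebraMap_eq_smul_one] at this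
  exact this

theorem hstep_rep (hc : CfOK c y p r R nb) (hP : P.ok) (hn : P.nil R nb) (hr : r + 1 < nb)
    {w : TM} {fw : ℤ[X]} (hw : PkT y 1 0 w fw) {sh nw : ℕ}
    (hnw : ‖ev y P fw + ((2 : ℂ) ^ sh) • P.η‖ ≤ nw) {X Q : TM} {x g : A} (hX : Rep y r P X x)
    (hQ : Rep y r P Q g) (b : ℕ) :
    Rep y r P (hstep c w (Nat.add w.s (Nat.pow 2 sh)) nw (Nat.add c.s3 sh) X b Q)
      (((2 : ℂ) ^ p)⁻¹ • (x * (ev y P fw + ((2 : ℂ) ^ sh) • P.η) + (b : ℂ) • g)) := by
  refine nrm_rep hc hP hn fun hok hs => ?_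
  obtain ⟨h1, h2⟩ := t4_cond hok
  obtain ⟨f, ⟨f1, f2, f3⟩, f4⟩ := hX h1
  obtain ⟨u, ⟨u1, u2, u3⟩, u4⟩ := hQ h2
  obtain ⟨w1, w2, w3⟩ := hw
  have i1 : In y (2 * y.Dt) (2 * y.De) 2 (r + 1) (f * fw) :=
    (In.mul f1 w1 (by omega) (by omega) (by omega)).mono (by omega) (by omega) (by omega) (by omega)
  have i2 : In y (2 * y.Dt) (2 * y.De) 2 (r + 1) (C (2 ^ sh) * (Polynomial.X ^ (3 * y.W) * f)) :=
    ((f1.mul_eta (P := P)).1.C_mul _).mono (by omega) (by omega) (by omega) (by omega)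
  have i3 : In y (2 * y.Dt) (2 * y.De) 2 (r + 1) (C (b : ℤ) * u) :=
    (u1.C_mul _).mono (by omega) (by omega) (by omega) (by omega)
  have l1a : l1 (f * fw) ≤ X.s * w.s :=
    (l1_mul f fw).trans (mul_le_mul f3 w3 (l1_nonneg _) (by positivity))
  have l1b : l1 (C (2 ^ sh) * (Polynomial.X ^ (3 * y.W) * f)) ≤ X.s * 2 ^ sh := by
    refine (l1_C_mul _ _).trans ?_
    rw [abs_of_nonneg (by positivity), mul_comm]
    exact mul_le_mul_of_nonneg_right ((l1_X_pow_mul _ _).trans f3) (by positivity)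
  have l1c : l1 (C (b : ℤ) * u) ≤ b * Q.s := by
    refine (l1_C_mul _ _).trans ?_
    rw [Nat.abs_cast]
    exact mul_le_mul_of_nonneg_left u3 (by positivity)
  have es : ((Nat.add (Nat.mul X.s (Nat.add w.s (Nat.pow 2 sh))) (Nat.mul b Q.s) : ℕ) : ℤ) =
      X.s * w.s + X.s * 2 ^ sh + b * Q.s := by
    simp only [Nat.add_eq, Nat.mul_eq, Nat.pow_eq]
    push_cast
    ring
  have hs' : (X.s : ℤ) * w.s + X.s * 2 ^ sh + b * Q.s < c.H := by
    rw [← es]; exact_mod_cast hs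
  have p2 : (0 : ℤ) ≤ X.s * 2 ^ sh := by positivity
  have p3 : (0 : ℤ) ≤ b * Q.s := by positivity
  have a12 := l1_add (f * fw) (C (2 ^ sh) * (Polynomial.X ^ (3 * y.W) * f))
  have a123 := l1_add (f * fw + C (2 ^ sh) * (Polynomial.X ^ (3 * y.W) * f)) (C (b : ℤ) * u)
  have b1 := Bs.sadd hc (Bs.zero c y) (g := f * fw) (sg := eqS X.sg w.sg) (a := Nat.mul X.a w.a)
    (by rw [eval_mul, f2, w2, sval_mul]) (by rw [zero_add]; exact i1.lt hr)
    (by rw [zero_add]; linarith)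
  rw [zero_add] at b1
  have b2 := Bs.sadd hc b1 (g := C (2 ^ sh) * (Polynomial.X ^ (3 * y.W) * f)) (sg := X.sg)
    (a := Nat.shiftLeft X.a (Nat.add c.s3 sh))
    (by
      rw [eval_mul, eval_mul, eval_C, eval_pow, eval_X, f2, hc.s3, ← pow_mul, Nat.add_eq]
      cases X.sg <;> simp only [sval, cond_true, cond_false, t4_shl, pow_add] <;> ring)
    ((i1.add i2).lt hr) (by linarith)
  have b3 := Bs.sadd hc b2 (g := C (b : ℤ) * u) (sg := Q.sg) (a := Nat.mul b Q.a)
    (by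
      rw [eval_mul, eval_C, u2, Nat.mul_eq]
      cases Q.sg <;> simp [sval])
    (((i1.add i2).add i3).lt hr) (by linarith)
  refine ⟨_, ((i1.add i2).add i3).lt hr, b3, by rw [es]; linarith, ?_⟩
  rw [ev_add, ev_add, ev_mul f1 w1 (by omega) (by omega) (by omega), ev_C_mul, ev_C_mul,
    (f1.mul_eta (P := P)).2]
  have e : x * (ev y P fw + (2 : ℂ) ^ sh • P.η) + (b : ℂ) • g -
      (ev y P f * ev y P fw + (((2 : ℤ) ^ sh : ℤ) : ℂ) • (P.η * ev y P f) +
        (((b : ℕ) : ℤ) : ℂ) • ev y P u) =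
      (x - ev y P f) * (ev y P fw + (2 : ℂ) ^ sh • P.η) + (b : ℂ) • (g - ev y P u) := by
    push_cast
    simp only [Algebra.smul_def]
    ring
  rw [e]
  simp only [Nat.add_eq, Nat.mul_eq, Nat.cast_add, Nat.cast_mul]
  refine (norm_add_le _ _).trans (add_le_add ((norm_mul_le _ _).trans ?_) ?_)
  · exact mul_le_mul f4 hnw (norm_nonneg _) (by positivity)
  · rw [norm_smul, Complex.norm_natCast]
    exact mul_le_mul_of_nonneg_left u4 (by positivity)

theorem horner_rep (hc : CfOK c y p r R nb) (hP : P.ok) (hn : P.nil R nb) (hr : r + 1 < nb)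
    {w : TM} {fw : ℤ[X]} (hw : PkT y 1 0 w fw) {sh nw : ℕ}
    (hnw : ‖ev y P fw + ((2 : ℂ) ^ sh) • P.η‖ ≤ nw) {l : List (ℕ × TM)} {gs : List A}
    (hl : RepL y r P l gs) {X : TM} {x : A} (hX : Rep y r P X x) :
    Rep y r P (horner c w (Nat.add w.s (Nat.pow 2 sh)) nw (Nat.add c.s3 sh) l X)
      (hv ((2 : ℂ) ^ p)⁻¹ (ev y P fw + ((2 : ℂ) ^ sh) • P.η) gs x) := by
  induction hl generalizing X x with
  | nil => exact hX
  | @cons d g l gs h _ ih =>
    obtain ⟨z, hz, rfl⟩ := h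
    show Rep y r P (forceT (hstep c w _ nw _ X d.1 d.2) (horner c w _ nw _ l)) _
    rw [forceT_eq]
    exact ih (hstep_rep hc hP hn hr hw hnw hX hz d.1)

end Pool.Agent.Sok.E

/-! Predictors. -/

namespace Pool.Agent.Sok.E

open Pool.Agent.MP_97ada9_an Finset Polynomial

variable {A : Type} [NormedCommRing A] [NormedAlgebra ℂ A] [NormOneClass A]
  {y : Ly} {P : Pt A}
  {c : Cf} {p r R nb : ℕ}

theorem sumN_eq (f : ℕ → ℕ) (n : ℕ) : sumN f n = ∑ i ∈ range n, f i := by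
  induction n with
  | zero => rfl
  | succ n ih => rw [sum_range_succ, ← ih]; rfl

theorem dgN_lt (raw b i : ℕ) : dgN raw b i < 2 ^ b := by
  exact Nat.mod_lt _ (Nat.two_pow_pos b)

theorem t4b_sq1 (n x : ℕ) (hx : 0 < x) : n ≤ sq1 n x ^ 2 := by
  have h1 : sq1 n x = (x + n / x) / 2 + 1 := rfl
  have h2 : n < x * (n / x + 1) := Nat.lt_mul_div_succ n hx
  have h3 : x + (n / x + 1) ≤ 2 * sq1 n x := by omega
  generalize sq1 n x = z at *
  generalize n / x + 1 = w at *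
  have h4 : (x + w) ^ 2 ≤ (2 * z) ^ 2 := Nat.pow_le_pow_left h3 2
  nlinarith [sq_nonneg ((x : ℤ) - w)]

theorem le_sqU (n : ℕ) : n ≤ sqU n ^ 2 ∧ 0 < sqU n := by
  exact ⟨t4b_sq1 n _ (Nat.succ_pos _), Nat.succ_pos _⟩

theorem adg_eq (hc : CfOK c y p r R nb) {O : ℕ → Prop} [DecidablePred O] {Z : ℕ} {g : ℕ → ℤ}
    (hZ : Dz y O Z g) {i : ℕ} (hi : O i) : (adg c Z (y.K * i) : ℤ) = |g i| := by
  have h1 := hZ i
  rw [if_pos hi] at h1
  unfold adg dist0
  rw [hc.Bm, land_Bm, hc.H]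
  have h2 : ((2 ^ (y.K - 2) : ℕ) : ℤ) = 2 ^ (y.K - 2) := by push_cast; rfl
  simp only [Nat.add_eq, Nat.sub_eq]
  rcases abs_cases (g i) with h3 | h3 <;> omega

theorem t4b_spr (y : Ly) (u : ℕ → ℕ) (dt de : ℕ) : (spr y u dt de : ℤ) =
    ∑ j ∈ range de, ∑ i ∈ range dt, (u (i + dt * j) : ℤ) * (2 ^ y.K) ^ (i + y.Wt * j) := by
  unfold spr
  rw [sumN_eq, Nat.cast_sum]
  refine sum_congr rfl fun j _ => ?_
  rw [t4_shl, sumN_eq, Nat.cast_sum, sum_mul]
  refine sum_congr rfl fun i _ => ?_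
  rw [t4_shl]
  simp only [Nat.mul_eq, Nat.add_eq]
  rw [← pow_mul, mul_assoc, ← pow_add]
  congr 2
  ring

/-- The polynomial is the sum of the monomials (i + Wt * j) (digit - 2 ^ b). -/
theorem realT_pk (hc : CfOK c y p r R nb) {dt de : ℕ} (ht : dt ≤ y.Dt + 1) (he : de ≤ y.De + 1)
    (raw b : ℕ) (h : (realT y c raw b dt de (offs y b dt de)).ok = true) :
    ∃ f : ℤ[X], PkT y 0 0 (realT y c raw b dt de (offs y b dt de)) f ∧ l1 f < c.H ∧
      ∀ t e, evc y t e f = pv raw b dt de t e := by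
  obtain ⟨-, h2, -, -, -, h3⟩ := tight_pk hc h
  set f : ℤ[X] := ∑ j ∈ range de, ∑ i ∈ range dt,
    monomial (i + y.Wt * j + y.W * 0 + 3 * y.W * 0)
      ((dgN raw (b + 1) (i + dt * j) : ℤ) - 2 ^ b) with hf
  have hl : l1 f ≤ ((Nat.mul (Nat.mul dt de) (Nat.pow 2 b) : ℕ) : ℤ) := by
    have a1 : ∀ j ∈ range de, l1 (∑ i ∈ range dt, monomial (i + y.Wt * j + y.W * 0 + 3 * y.W * 0)
        ((dgN raw (b + 1) (i + dt * j) : ℤ) - 2 ^ b)) ≤ dt * 2 ^ b := by
      intro j _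
      refine (l1_sum _ _).trans ((sum_le_card_nsmul _ _ ((2 : ℤ) ^ b) fun i _ => ?_).trans ?_)
      · rw [l1_monomial, abs_le]
        have a2 : ((dgN raw (b + 1) (i + dt * j) : ℕ) : ℤ) < ((2 ^ (b + 1) : ℕ) : ℤ) := by
          exact_mod_cast dgN_lt raw (b + 1) (i + dt * j)
        have a3 : (0 : ℤ) ≤ dgN raw (b + 1) (i + dt * j) := by positivity
        push_cast at a2
        rw [pow_succ] at a2
        constructor <;> linarith
      · simp
    refine (l1_sum _ _).trans ((sum_le_card_nsmul _ _ _ a1).trans (le_of_eq ?_))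
    simp only [Nat.mul_eq, Nat.pow_eq, card_range, nsmul_eq_mul]
    push_cast
    ring
  have hpk : PkT y 0 0 (mkT true (spr y (dgN raw (Nat.succ b)) dt de) (offs y b dt de)
      (Nat.mul (Nat.mul dt de) (Nat.pow 2 b)) 0) f := by
    refine ⟨?_, ?_, hl⟩
    · refine In.sum fun j hj => In.sum fun i hi => In.monomial ?_ _
      rw [mem_range] at hi hj
      obtain ⟨a1, a2, a3, a4⟩ := pos_mk (y := y) (a := i) (b := j) (j := 0) (by omega) (by omega)
        (by omega) 0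
      exact ⟨by omega, by omega, by omega, by omega⟩
    · rw [sval_mkT, offs, t4b_spr, t4b_spr, hf, eval_finsetSum, ← sum_sub_distrib]
      refine sum_congr rfl fun j _ => ?_
      rw [eval_finsetSum, ← sum_sub_distrib]
      refine sum_congr rfl fun i _ => ?_
      rw [eval_monomial]
      simp only [Nat.pow_eq, mul_zero, add_zero, Nat.succ_eq_add_one]
      push_cast
      ring
  refine ⟨f, h3 0 0 f (by omega) (by omega) hpk, hl.trans_lt (by exact_mod_cast h2), fun t e => ?_⟩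
  unfold evc pv
  rw [hf, ev_sum]
  refine sum_congr rfl fun j hj => ?_
  rw [ev_sum]
  refine sum_congr rfl fun i hi => ?_
  rw [mem_range] at hi hj
  rw [ev_monomial, val_mk (by omega) (by omega) (by omega)]
  simp only [pow_zero, mul_one, smul_eq_mul]
  push_cast
  ring

theorem t4b_adg (hc : CfOK c y p r R nb) {T : TM} {f : ℤ[X]} (h : PkT y 0 0 T f)
    (hl : l1 f < c.H) : (adg c (sadd c.HO T.sg T.a) 0 : ℤ) = |f.coeff 0| := by
  have h0 : 0 < nb := lt_of_le_of_lt (Nat.zero_le _) hc.hR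
  have h1 := h.1.lt h0
  have h2 := Bs.sadd hc (Bs.zero c y) h.2.1 (by rwa [zero_add]) (by rwa [zero_add])
  rw [zero_add] at h2
  have h3 : 0 < y.W := Nat.mul_pos (Nat.succ_pos _) (Nat.succ_pos _)
  exact adg_eq hc (Bs.dz hc h2 h1 hl) (i := 0) (by positivity)

theorem t4b_tail (hP : P.ok) (f : ℤ[X]) :
    ‖ev y P f - (f.coeff 0 : A)‖ ≤ (l1 f : ℝ) - |(f.coeff 0 : ℝ)| := by
  have h1 : ∀ n, f.coeff n ≠ 0 → n < f.natDegree + 1 :=
    fun n hn => Nat.lt_succ_of_le (le_natDegree_of_ne_zero hn)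
  have e : val y P 0 = 1 := by simp [val, Ly.ct, Ly.ce, Ly.cj, Ly.ck]
  have e2 : ((f.coeff 0 : ℤ) : ℂ) • (1 : A) = (f.coeff 0 : A) := by
    rw [Int.cast_smul_eq_zsmul, zsmul_one]
  rw [ev_eq_sum h1, l1_eq_sum h1, sum_range_succ', sum_range_succ', e, e2, add_sub_cancel_right]
  push_cast
  rw [add_sub_cancel_right]
  refine norm_sum_le_of_le _ fun n _ => ?_
  rw [norm_smul, Complex.norm_intCast]
  exact mul_le_of_le_one_right (abs_nonneg _) (norm_val_le hP _)

theorem mkCP_sound (hc : CfOK c y p r R nb) {dt de : ℕ} (ht : dt ≤ y.Dt + 1) (he : de ≤ y.De + 1)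
    (raw b : ℕ) : ∃ v, CPok y v (cv raw b dt de) ∧
      ∀ {α : Type} (k : CP → α), mkCP y c raw b dt de (offs y b dt de) k = k v := by
  set re := realT y c raw b dt de (offs y b dt de) with hre
  set im := realT y c (Nat.shiftRight raw ((b + 1) * (dt * de))) b dt de (offs y b dt de) with him
  refine ⟨⟨re, im, addT re (shT im c.s1), nbd c re im⟩, fun hok => ?_, fun k => ?_⟩
  swap
  · unfold mkCP
    rw [forceT_eq, forceT_eq, forceT_eq, force_eq]
    rfl
  obtain ⟨h1, h2⟩ := t4_cond (a := re.ok) (b := im.ok) hok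
  obtain ⟨f, f1, f2, f3⟩ := realT_pk hc ht he raw b h1
  obtain ⟨g, g1, g2, g3⟩ := realT_pk hc ht he _ b h2
  rw [← hre] at f1
  rw [← him] at g1
  have hw : ∀ t e, cv raw b dt de t e = evc y t e f + Complex.I * evc y t e g := by
    intro t e
    rw [f3, g3]; rfl
  refine ⟨f, g, f1, g1, addT_pk (f1.mono (by omega) le_rfl)
    ⟨(g1.1.mul_I (P := (⟨0, 0, 0⟩ : Pt ℂ))).1, ?_, (l1_X_pow_mul _ _).trans g1.2.2⟩, hw, ?_⟩
  · show _ = sval im.sg (Nat.shiftLeft im.a c.s1)
    rw [eval_mul, eval_pow, eval_X, g1.2.1, hc.s1, ← pow_mul]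
    cases im.sg <;> simp only [sval, cond_true, cond_false, t4_shl] <;> ring
  · intro t e ht he
    have hP : (⟨t, e, 0⟩ : Pt ℂ).ok := ⟨ht, he, by simp⟩
    have u1 := t4b_adg hc f1 f2
    have v1 := t4b_adg hc g1 g2
    have u2 := t4b_tail (y := y) hP f
    have v2 := t4b_tail (y := y) hP g
    have u3 := (abs_coeff_le f 0).trans f1.2.2
    have v3 := (abs_coeff_le g 0).trans g1.2.2
    have u4 : (l1 f : ℝ) ≤ re.s := by exact_mod_cast f1.2.2
    have v4 : (l1 g : ℝ) ≤ im.s := by exact_mod_cast g1.2.2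
    show _ ≤ ((nbd1 _ _ (re.s + im.s) : ℕ) : ℝ)
    generalize adg c (sadd c.HO re.sg re.a) 0 = u at u1
    generalize adg c (sadd c.HO im.sg im.a) 0 = v at v1
    have u5 : |(f.coeff 0 : ℝ)| = u := by exact_mod_cast u1.symm
    have v5 : |(g.coeff 0 : ℝ)| = v := by exact_mod_cast v1.symm
    have a1 : ‖((f.coeff 0 : ℝ) : ℂ) + ((g.coeff 0 : ℝ) : ℂ) * Complex.I‖ ≤ sqU (u * u + v * v) := by
      rw [Complex.norm_add_mul_I, Real.sqrt_le_left (by positivity), ← sq_abs (f.coeff 0 : ℝ),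
        ← sq_abs (g.coeff 0 : ℝ), u5, v5, sq, sq]
      exact_mod_cast (le_sqU (u * u + v * v)).1
    have a2 : ((nbd1 u v (re.s + im.s) : ℕ) : ℝ) =
        sqU (u * u + v * v) + ((re.s : ℝ) + im.s - (u + v)) := by
      show ((sqU (u * u + v * v) + (re.s + im.s - (u + v)) : ℕ) : ℝ) = _
      rw [Nat.cast_add, Nat.cast_sub (by omega)]
      push_cast
      ring
    have a3 : evc y t e f + Complex.I * evc y t e g =
        (((f.coeff 0 : ℝ) : ℂ) + ((g.coeff 0 : ℝ) : ℂ) * Complex.I) +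
          ((evc y t e f - f.coeff 0) + Complex.I * (evc y t e g - g.coeff 0)) := by
      push_cast
      ring
    rw [hw, a2, a3]
    refine (norm_add_le _ _).trans (add_le_add a1 ((norm_add_le _ _).trans ?_))
    rw [norm_mul, Complex.norm_I, one_mul]
    unfold evc
    linarith

theorem cstCP_sound (y : Ly) (n : ℕ) : CPok y (cstCP n) fun _ _ => (n : ℂ) := by
  intro _
  have h : ∀ j, y.pos y.Dt y.De j 0 0 := fun j => by simp [Ly.pos, Ly.ct, Ly.ce, Ly.cj, Ly.ck]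
  refine ⟨monomial 0 (n : ℤ), monomial 0 ((0 : ℕ) : ℤ), monT_pk (h 0) n 0, monT_pk (h 0) 0 0, ?_,
    fun t e => ?_, fun t e _ _ => ?_⟩
  · have := monT_pk (h 1) n 0
    simpa [cstCP] using this
  · unfold evc
    rw [ev_monomial, ev_monomial]
    simp [val, Ly.ct, Ly.ce, Ly.cj, Ly.ck]
  · simp [cstCP]

end Pool.Agent.Sok.E
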