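import Pool.Agent.Sok.EP2
import Pool.Agent.Sok.Defs

/-! Reading off bounds: the normalised value at a predictor, and gaps between predictors. -/

namespace Pool.Agent.Sok.E

open Pool.Agent.MP_97ada9_an Finset Polynomial

variable {A : Type} [NormedCommRing A] [NormedAlgebra ℂ A] [NormOneClass A]
  {y : Ly} {P : Pt A}
  {c : Cf} {p r R nb : ℕ}

theorem t5_split {M : Type} [AddCommMonoid M] (a : ℕ → M) {L : ℕ} (h : ∀ n, L ≤ n → a n = 0)
    (s : ℕ) : ∑ n ∈ range L, a n = ∑ n ∈ range s, a n + ∑ n ∈ range L, a (n + s) := by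
  have h1 : ∑ n ∈ range (L + s), a n = ∑ n ∈ range L, a n := by
    rw [sum_range_add, sum_eq_zero (s := range s) (fun n _ => h _ (by omega)), add_zero]
  rw [← h1, add_comm L s, sum_range_add]
  simp only [add_comm s]

theorem t5_shift (a : ℕ → ℤ) (h0 : ∀ n, 0 ≤ a n) {L : ℕ} (h : ∀ n, L ≤ n → a n = 0) (s M : ℕ) :
    ∑ n ∈ range M, a (n + s) ≤ ∑ n ∈ range L, a n := by
  rw [t5_split a h s, t5_split (fun n => a (n + s)) (L := L) (fun n hn => h _ (by omega)) M]
  have h1 : 0 ≤ ∑ n ∈ range s, a n := sum_nonneg fun n _ => h0 _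
  have h2 : 0 ≤ ∑ n ∈ range L, a (n + M + s) := sum_nonneg fun n _ => h0 _
  linarith

theorem t5_cnt (L : ℕ) (O : ℕ → Prop) [DecidablePred O] :
    (cnt L O : ℤ) = ∑ n ∈ range L, if n < L ∧ O n then (1 : ℤ) else 0 := by
  rw [cnt, card_filter]
  push_cast
  refine sum_congr rfl fun n hn => ?_
  simp only [mem_range.1 hn, true_and]

theorem t5_div (n : ℕ) {κ : ℂ} (h : ‖κ‖ ^ 2 = n) : ((n / sqU n : ℕ) : ℝ) ≤ ‖κ‖ := by
  obtain ⟨h1, h2⟩ := le_sqU n
  have h1' : (n : ℝ) ≤ (sqU n : ℝ) ^ 2 := by exact_mod_cast h1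
  have h2' : (0 : ℝ) < sqU n := by exact_mod_cast h2
  have h3 : ‖κ‖ ≤ sqU n := by
    exact (pow_le_pow_iff_left₀ (norm_nonneg _) h2'.le two_ne_zero).1 (by rw [h]; exact h1')
  refine Nat.cast_div_le.trans ?_
  rw [div_le_iff₀ h2', ← h, sq]
  exact mul_le_mul_of_nonneg_left h3 (norm_nonneg _)

theorem t5_W (y : Ly) : 2 * y.Dt < y.W := by
  rw [Ly.W_eq, Ly.Wt_eq, Ly.We_eq]
  nlinarith [Nat.zero_le (y.Dt * y.De), Nat.zero_le y.De]

theorem t5_val_shift (n : ℕ) : val y P (n + 3 * y.W) = val y P n * P.η := by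
  have h0 := pos_mk (y := y) (a := 0) (b := 0) (j := 0) (by omega) (by omega) (by omega) 1
  have h1 := val_mk (y := y) (P := P) (a := 0) (b := 0) (j := 0) (by omega) (by omega) (by omega) 1
  simp only [mul_zero, add_zero, zero_add, mul_one, pow_zero, one_smul, pow_one] at h0 h1
  obtain ⟨-, h2, h3, h4⟩ := pos_decomp y n
  have h5 := pos_add (y := y) (P := P) (n := n) (n' := 3 * y.W) (by omega) (by omega) (by omega)
  rw [h5.2.2.2.2, h1]

noncomputable def t5_m (y : Ly) (P : Pt A) (n : ℕ) : ℂ :=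
  P.t ^ y.ct n * P.e ^ y.ce n * Complex.I ^ y.cj n

omit [NormedAlgebra ℂ A] [NormOneClass A] in
theorem t5_m_le (hP : P.ok) (n : ℕ) : ‖t5_m y P n‖ ≤ 1 := by
  rw [t5_m, norm_mul, norm_mul, norm_pow, norm_pow, norm_pow, Complex.norm_I, one_pow, mul_one]
  exact mul_le_one₀ (pow_le_one₀ (norm_nonneg _) hP.1) (by positivity)
    (pow_le_one₀ (norm_nonneg _) hP.2.1)

omit [NormOneClass A] in
theorem t5_val_low {n : ℕ} (h : n < 3 * y.W) : val y P n = algebraMap ℂ A (t5_m y P n) := by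
  have h1 : y.ck n = 0 := by
    rw [Ly.ck, Nat.div_div_eq_div_mul]
    exact Nat.div_eq_of_lt (by omega)
  rw [val, h1, pow_zero, Algebra.algebraMap_eq_smul_one, t5_m]

omit [NormedAlgebra ℂ A] [NormOneClass A] in
theorem t5_sum_le (hP : P.ok) (s : Finset ℕ) (z : ℕ → ℤ) :
    ‖∑ n ∈ s, (z n : ℂ) * t5_m y P n‖ ≤ ((∑ n ∈ s, |z n| : ℤ) : ℝ) := by
  refine (norm_sum_le _ _).trans ?_
  push_cast
  refine sum_le_sum fun n _ => ?_
  rw [norm_mul, Complex.norm_intCast]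
  exact mul_le_of_le_one_right (abs_nonneg _) (t5_m_le hP n)

theorem t5_sum_le' (hP : P.ok) (s : Finset ℕ) (z : ℕ → ℤ) :
    ‖∑ n ∈ s, (z n : ℂ) • val y P n‖ ≤ ((∑ n ∈ s, |z n| : ℤ) : ℝ) := by
  refine (norm_sum_le _ _).trans ?_
  push_cast
  refine sum_le_sum fun n _ => ?_
  rw [norm_smul, Complex.norm_intCast]
  exact mul_le_of_le_one_right (abs_nonneg _) (norm_val_le hP n)

theorem t5_ev {L : ℕ} {g : ℤ[X]} (hg : ∀ n, g.coeff n ≠ 0 → n < L) :
    ev y P g = algebraMap ℂ A (∑ n ∈ range (3 * y.W), (g.coeff n : ℂ) * t5_m y P n) +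
      (∑ n ∈ range (3 * y.W), (g.coeff (n + 3 * y.W) : ℂ) * t5_m y P n) • P.η +
      (∑ n ∈ range L, (g.coeff (n + 3 * y.W + 3 * y.W) : ℂ) • val y P n) * P.η ^ 2 := by
  have h0 : ∀ n, L ≤ n → (g.coeff n : ℂ) • val y P n = 0 := by
    intro n hn
    have : g.coeff n = 0 := by
      by_contra h
      have := hg n h
      omega
    rw [this, Int.cast_zero, zero_smul]
  rw [ev_eq_sum hg, t5_split _ h0 (3 * y.W),
    t5_split (fun n => (g.coeff (n + 3 * y.W) : ℂ) • val y P (n + 3 * y.W)) (L := L)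
      (fun n hn => h0 _ (by omega)) (3 * y.W), add_assoc, map_sum, sum_smul, sum_mul]
  congr 1
  · refine sum_congr rfl fun n hn => ?_
    rw [t5_val_low (mem_range.1 hn), map_mul, Algebra.smul_def]
  congr 1
  · refine sum_congr rfl fun n hn => ?_
    rw [t5_val_shift, t5_val_low (mem_range.1 hn), ← Algebra.smul_def, smul_smul]
  · refine sum_congr rfl fun n _ => ?_
    rw [t5_val_shift, t5_val_shift, smul_mul_assoc, mul_assoc, sq]

/-- The three digit sums bound the three blocks of coefficients. -/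
theorem t5_blocks (hc : CfOK c y p r R nb) {Z : ℕ} {g : ℤ[X]}
    (hg : In y (2 * y.Dt) (2 * y.De) 1 R g) (hl : l1 g < c.H) (hZ : Dz y (y.O1 R) Z g.coeff)
    {t0 t1 t2 : ℕ} (h0 : t0 = absd c Z c.O1 c.L1 % c.Bm)
    (h1 : t1 = Nat.shiftRight (absd c Z c.O1 c.L1) c.s3 % c.Bm)
    (h2 : t2 = Nat.shiftRight (Nat.shiftRight (absd c Z c.O1 c.L1) c.s3) c.s3 % c.Bm) :
    ∑ n ∈ range (3 * y.W), |g.coeff n| ≤ ((t0 - t1 + c.c1 : ℕ) : ℤ) ∧
    ∑ n ∈ range (3 * y.W), |g.coeff (n + 3 * y.W)| ≤ ((t1 - t2 + c.c1 : ℕ) : ℤ) ∧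
    ∑ n ∈ range (nb * 3 * y.W), |g.coeff (n + 3 * y.W + 3 * y.W)| ≤ ((t2 + c.c1 : ℕ) : ℤ) := by
  have hK := hc.hK
  have hK1 : 1 ≤ y.K := by omega
  have hlt := hg.lt hc.hR
  set L := nb * 3 * y.W with hL
  set B := absd c Z c.O1 c.L1 with hB
  have ha : ∀ n, (dg y.K B n : ℤ) = if n < L ∧ y.O1 R n then ab (g.coeff n) else 0 := by
    intro n
    rw [hB, hc.L1, hc.O1]
    exact absd_dz hc hZ (fun _ _ h => h) (fun n => (abs_coeff_le g n).trans_lt hl) n
  have hz : ∀ n, L ≤ n → dg y.K B n = 0 := by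
    intro n hn
    have := ha n
    rw [if_neg (by omega)] at this
    exact_mod_cast this
  have hle : ∀ n, (dg y.K B n : ℤ) ≤ |g.coeff n| := by
    intro n
    rw [ha]
    split_ifs
    · exact (ab_le _).2.1
    · exact abs_nonneg _
  have hge : ∀ n, |g.coeff n| ≤ (dg y.K B n : ℤ) + if n < L ∧ y.O1 R n then (1 : ℤ) else 0 := by
    intro n
    rw [ha]
    split_ifs with h
    · exact (ab_le _).2.2
    · have : g.coeff n = 0 := by
        by_contra h'
        exact h ⟨hlt n h', hg n h'⟩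
      rw [this]
      simp
  have hS : ∑ n ∈ range L, dg y.K B n < 2 ^ y.K - 1 := by
    have e1 : ((∑ n ∈ range L, dg y.K B n : ℕ) : ℤ) ≤ l1 g := by
      rw [l1_eq_sum hlt]
      push_cast
      exact sum_le_sum fun n _ => hle n
    have e2 : ∑ n ∈ range L, dg y.K B n < c.H := by exact_mod_cast e1.trans_lt hl
    rw [hc.H] at e2
    have e3 : 2 ^ y.K = 2 ^ (y.K - 2) * 4 := by
      rw [show (4 : ℕ) = 2 ^ 2 from rfl, ← pow_add]
      congr 1
      omega
    omega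
  have s1 := t5_split (dg y.K B) hz (3 * y.W)
  have s2 := t5_split (fun n => dg y.K B (n + 3 * y.W)) (L := L) (fun n hn => hz _ (by omega))
    (3 * y.W)
  have e0 : t0 = ∑ n ∈ range L, dg y.K B n := by
    rw [h0, hc.Bm]
    exact mod_Bm hK1 hz hS
  have e1 : t1 = ∑ n ∈ range L, dg y.K B (n + 3 * y.W) := by
    rw [h1, hc.Bm, hc.s3, mod_Bm (L := L) hK1]
    · simp only [dg_shiftRight]
    · intro n hn
      rw [dg_shiftRight]
      exact hz _ (by omega)
    · simp only [dg_shiftRight]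
      omega
  have e2 : t2 = ∑ n ∈ range L, dg y.K B (n + 3 * y.W + 3 * y.W) := by
    rw [h2, hc.Bm, hc.s3, mod_Bm (L := L) hK1]
    · simp only [dg_shiftRight]
    · intro n hn
      rw [dg_shiftRight, dg_shiftRight]
      exact hz _ (by omega)
    · simp only [dg_shiftRight]
      omega
  have hb : ∀ s M, ∑ n ∈ range M, |g.coeff (n + s)| ≤
      ((∑ n ∈ range M, dg y.K B (n + s) + c.c1 : ℕ) : ℤ) := by
    intro s M
    have := t5_shift (fun n => if n < L ∧ y.O1 R n then (1 : ℤ) else 0)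
      (fun n => by split_ifs <;> norm_num) (L := L) (fun n hn => if_neg (by omega)) s M
    rw [← t5_cnt, ← hc.c1] at this
    push_cast
    refine (sum_le_sum fun n _ => hge (n + s)).trans ?_
    rw [sum_add_distrib]
    linarith
  refine ⟨?_, ?_, ?_⟩
  · have := hb 0 (3 * y.W)
    simp only [add_zero] at this
    rwa [show t0 - t1 = ∑ n ∈ range (3 * y.W), dg y.K B n by omega]
  · rw [show t1 - t2 = ∑ n ∈ range (3 * y.W), dg y.K B (n + 3 * y.W) by omega]
    exact hb _ _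
  · rw [e2]
    simp only [add_assoc]
    exact hb _ _

theorem t5_core (hc : CfOK c y p r R nb) (hR : 1 ≤ R) {i : ℕ} (hi : i ≤ 2 * y.Dt) (ok : Bool)
    (e Z : ℕ) :
    ∃ κ : ℂ, ∃ o : ℝ,
      (0 < (fin1 c ok e (y.K * i) Z).dl → (fin1 c ok e (y.K * i) Z).dl + o ≤ ‖κ‖) ∧
      ∀ P : Pt A, P.ok → ∀ g : ℤ[X], In y (2 * y.Dt) (2 * y.De) 1 R g → l1 g < c.H →
        Dz y (y.O1 R) Z g.coeff → ∀ x : A, ‖x - ev y P g‖ ≤ e →
        FRok (fin1 c ok e (y.K * i) Z) κ o i P x := by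
  obtain ⟨G, hG⟩ : ∃ G : ℕ → ℤ, Dz y (fun _ => True) Z G :=
    ⟨fun n => dg y.K Z n - 2 ^ (y.K - 2), fun n => by simp⟩
  obtain ⟨t0, h0⟩ : ∃ t, t = absd c Z c.O1 c.L1 % c.Bm := ⟨_, rfl⟩
  obtain ⟨t1, h1⟩ : ∃ t, t = Nat.shiftRight (absd c Z c.O1 c.L1) c.s3 % c.Bm := ⟨_, rfl⟩
  obtain ⟨t2, h2⟩ : ∃ t,
      t = Nat.shiftRight (Nat.shiftRight (absd c Z c.O1 c.L1) c.s3) c.s3 % c.Bm := ⟨_, rfl⟩
  obtain ⟨u, hu⟩ : ∃ u, u = adg c Z (y.K * (i + 3 * y.W)) := ⟨_, rfl⟩
  obtain ⟨v, hv⟩ : ∃ v, v = adg c Z (y.K * (i + y.W + 3 * y.W)) := ⟨_, rfl⟩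
  have hF : fin1 c ok e (y.K * i) Z = ⟨ok, t0 - t1 + c.c1, t2 + c.c1,
      (u * u + v * v) / sqU (u * u + v * v) + (u + v) - (t1 - t2 + c.c1), e⟩ := by
    have e1 : Nat.add c.s3 (y.K * i) = y.K * (i + 3 * y.W) := by
      rw [Nat.add_eq, hc.s3]; ring
    have e2 : Nat.add (y.K * (i + 3 * y.W)) c.s1 = y.K * (i + y.W + 3 * y.W) := by
      rw [Nat.add_eq, hc.s1]; ring
    simp only [fin1, fin2, fin3, force_eq, e1, e2]
    rw [h0, h1, h2, hu, hv]
    rfl
  have hu' : (u : ℤ) = |G (i + 3 * y.W)| := by rw [hu]; exact adg_eq hc hG trivial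
  have hv' : (v : ℤ) = |G (i + y.W + 3 * y.W)| := by rw [hv]; exact adg_eq hc hG trivial
  refine ⟨(G (i + 3 * y.W) : ℂ) + (G (i + y.W + 3 * y.W) : ℂ) * Complex.I,
    ((t1 - t2 + c.c1 : ℕ) : ℝ) - u - v, ?_, ?_⟩
  · rw [hF]
    intro hd
    have h3 := t5_div (u * u + v * v)
      (κ := (G (i + 3 * y.W) : ℂ) + (G (i + y.W + 3 * y.W) : ℂ) * Complex.I) (by
        have e1 : ((u * u + v * v : ℕ) : ℤ) = G (i + 3 * y.W) ^ 2 + G (i + y.W + 3 * y.W) ^ 2 := by
          push_cast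
          rw [hu', hv', abs_mul_abs_self, abs_mul_abs_self, sq, sq]
        have e2 : ((u * u + v * v : ℕ) : ℝ) =
            (G (i + 3 * y.W) : ℝ) ^ 2 + (G (i + y.W + 3 * y.W) : ℝ) ^ 2 := by exact_mod_cast e1
        rw [e2, Complex.sq_norm, ← Complex.normSq_add_mul_I]
        simp)
    refine le_trans (le_of_eq ?_) h3
    simp only at hd ⊢
    rw [Nat.cast_sub (by omega)]
    push_cast
    ring
  · intro P hP g hg hl hZ x hx
    obtain ⟨b0, b1, b2⟩ := t5_blocks hc hg hl hZ h0 h1 h2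
    have hW := t5_W y
    have q0 := pos_mk (y := y) (a := i) (b := 0) (j := 0) hi (by omega) (by omega) 0
    have q1 := pos_mk (y := y) (a := i) (b := 0) (j := 1) hi (by omega) (by omega) 0
    have q2 := pos_mk (y := y) (a := i) (b := 0) (j := 0) hi (by omega) (by omega) 1
    have q3 := pos_mk (y := y) (a := i) (b := 0) (j := 1) hi (by omega) (by omega) 1
    simp only [mul_zero, add_zero, mul_one] at q0 q1 q2 q3
    have g1 : g.coeff (i + 3 * y.W) = G (i + 3 * y.W) := by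
      have a1 := hZ (i + 3 * y.W)
      have a2 := hG (i + 3 * y.W)
      rw [if_pos (show y.O1 R _ from ⟨by omega, by omega, by omega, by omega⟩)] at a1
      rw [if_pos trivial] at a2
      linarith
    have g2 : g.coeff (i + y.W + 3 * y.W) = G (i + y.W + 3 * y.W) := by
      have a1 := hZ (i + y.W + 3 * y.W)
      have a2 := hG (i + y.W + 3 * y.W)
      rw [if_pos (show y.O1 R _ from ⟨by omega, by omega, by omega, by omega⟩)] at a1
      rw [if_pos trivial] at a2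
      linarith
    have m1 : t5_m y P i = P.t ^ i := by
      rw [t5_m, q0.1, q0.2.1, q0.2.2.1]; simp
    have m2 : t5_m y P (i + y.W) = P.t ^ i * Complex.I := by
      rw [t5_m, q1.1, q1.2.1, q1.2.2.1]; simp
    have i1 : i ∈ range (3 * y.W) := mem_range.2 (by omega)
    have i2 : i + y.W ∈ (range (3 * y.W)).erase i :=
      mem_erase.2 ⟨by omega, mem_range.2 (by omega)⟩
    rw [hF]
    refine ⟨_, _, _, ?_, ?_, ?_, by rw [← t5_ev (hg.lt hc.hR)]; exact hx⟩
    · refine (t5_sum_le hP _ _).trans ?_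
      exact_mod_cast b0
    · rw [← add_sum_erase _ _ i1, ← add_sum_erase _ _ i2] at b1 ⊢
      rw [g1, g2, ← hu', ← hv'] at b1
      rw [g1, g2, m1, m2]
      have := t5_sum_le (y := y) hP (((range (3 * y.W)).erase i).erase (i + y.W))
        fun n => g.coeff (n + 3 * y.W)
      have b1' : (u : ℝ) + (v + ((∑ n ∈ ((range (3 * y.W)).erase i).erase (i + y.W),
          |g.coeff (n + 3 * y.W)| : ℤ) : ℝ)) ≤ ((t1 - t2 + c.c1 : ℕ) : ℝ) := by exact_mod_cast b1
      refine le_trans (le_of_eq ?_) (this.trans (by linarith))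
      congr 1
      ring
    · refine (t5_sum_le' hP _ _).trans ?_
      exact_mod_cast b2

theorem t5_cp {v : CP} {ν : ℂ → ℂ → ℂ} (hv : CPok y v ν) (h : v.w.ok = true) :
    ∃ f : ℤ[X], PkT y 1 0 v.w f ∧ ∀ P : Pt A, ev y P f = algebraMap ℂ A (ν P.t P.e) ∧
      (P.ok → ‖ν P.t P.e‖ ≤ v.n) := by
  obtain ⟨f, g, hf, hg, hw, h1, h2⟩ := hv h
  refine ⟨_, hw, fun P => ⟨?_, fun hP => h2 _ _ hP.1 hP.2.1⟩⟩
  rw [ev_add, (In.mul_I hg.1).2, ev_lift hf.1, ev_lift hg.1, h1, map_add, map_mul,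
    Algebra.smul_def]

/-- Let g n = digit n of the folded product minus H; it does not depend on the point (fold_dz, Dz).
κ = g (3 W + i) + I * g (3 W + i + W), and o = (t1 - t2 + c1) - u - v in the names of fin3.
P0, P1, P2 collect the positions with ck = 0, ck = 1, ck ≥ 2. -/
theorem finT_sound (hc : CfOK c y p r R nb) (hR : 1 ≤ R) {i : ℕ} (hi : i ≤ 2 * y.Dt) {X : TM}
    {v : CP} {ν : ℂ → ℂ → ℂ} (hv : CPok y v ν) (h : (finT c (y.K * i) X v).ok = true) :
    ∃ κ : ℂ, ∃ o : ℝ, (0 < (finT c (y.K * i) X v).dl → (finT c (y.K * i) X v).dl + o ≤ ‖κ‖) ∧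
      ∀ P : Pt A, P.ok → P.nil R nb → ∀ x : A, Rep y r P X x →
        FRok (finT c (y.K * i) X v) κ o i P (ν P.t P.e • x) := by
  obtain ⟨κ, o, h1, h2⟩ := t5_core (A := A) hc hR hi
    (cond X.ok (cond v.w.ok (Nat.blt (Nat.mul X.s v.w.s) c.H) false) false) (Nat.mul X.e v.n)
    (fold c (sadd c.HO (eqS X.sg v.w.sg) (Nat.mul X.a v.w.a)))
  have h' : cond X.ok (cond v.w.ok (Nat.blt (Nat.mul X.s v.w.s) c.H) false) false = true := by
    simpa only [finT, fin1, fin2, fin3, force_eq] using h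
  have hX : X.ok = true := by
    cases hx : X.ok
    · rw [hx] at h'; exact h'
    · rfl
  have hw : v.w.ok = true := by
    cases hx : v.w.ok
    · rw [hX, hx] at h'; exact h'
    · rfl
  have hs : X.s * v.w.s < c.H := by
    rw [hX, hw] at h'
    exact Nat.blt_eq.mp h'
  refine ⟨κ, o, h1, fun P hP hn x hx => ?_⟩
  obtain ⟨f, hf, hx⟩ := hx hX
  obtain ⟨f', hf', h3⟩ := t5_cp (A := A) hv hw
  obtain ⟨h3, h4⟩ := h3 P
  have hI := hf.1.mul hf'.1 (by omega) (by omega) (by omega)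
  have hlt := hI.lt (nb := nb) (by have := hc.hr; have := hc.hR; omega)
  have hl : l1 (f * f') < c.H := by
    refine (l1_mul f f').trans_lt (lt_of_le_of_lt ?_ (Int.ofNat_lt.2 hs))
    push_cast
    exact mul_le_mul hf.2.2 hf'.2.2 (l1_nonneg _) (Nat.cast_nonneg _)
  have hB : Bs c y (sadd c.HO (eqS X.sg v.w.sg) (Nat.mul X.a v.w.a)) (f * f') := by
    have := Bs.sadd hc (Bs.zero c y) (g := f * f') (sg := eqS X.sg v.w.sg) (a := Nat.mul X.a v.w.a)
      (by rw [eval_mul, hf.2.1, hf'.2.1, sval_mul]) (by rwa [zero_add]) (by rwa [zero_add])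
    rwa [zero_add] at this
  obtain ⟨g, g1, g2, g3, g4⟩ := fold_dz (A := A) hc hlt hB hl
  refine h2 P hP g g1 (g2.trans_lt hl) g3 _ ?_
  rw [g4 P hn, ev_mul hf.1 hf'.1 (by omega) (by omega) (by omega), h3, mul_comm,
    ← Algebra.smul_def, ← smul_sub, norm_smul, Nat.mul_eq, Nat.cast_mul, mul_comm]
  exact mul_le_mul hx (h4 hP) (norm_nonneg _) (Nat.cast_nonneg _)

theorem evalR_sound (hc : CfOK c y p r R nb) (hR : 1 ≤ R) (hr : r + 1 < nb) {i : ℕ}
    (hi : i ≤ 2 * y.Dt) {sh : ℕ} {l : List (ℕ × TM)} {w v : CP} {ω ν : ℂ → ℂ → ℂ}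
    (hw : CPok y w ω) (hv' : CPok y v ν) {F : FR} (hF : F = evalR c sh (y.K * i) l w v)
    (h : F.ok = true) :
    w.w.ok = true ∧ ∃ κ : ℂ, ∃ o : ℝ, (0 < F.dl → F.dl + o ≤ ‖κ‖) ∧
      ∀ P : Pt A, P.ok → P.nil R nb → ∀ gs : List A, RepL y r P l gs →
        FRok F κ o i P (ν P.t P.e • hv ((2 : ℂ) ^ p)⁻¹
          (algebraMap ℂ A (ω P.t P.e) + ((2 : ℂ) ^ sh) • P.η) gs 0) := by
  have hk : w.w.ok = true := by
    cases hx : w.w.ok
    · rw [hF, evalR, hx] at h; exact h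
    · rfl
  have hF' : F = finT c (y.K * i) (horner c w.w (Nat.add w.w.s (Nat.pow 2 sh))
      (Nat.add w.n (Nat.pow 2 sh)) (Nat.add c.s3 sh) l zT) v := by
    rw [hF, evalR, hk]
    simp only [cond_true, force_eq, forceT_eq]
  rw [hF'] at h ⊢
  obtain ⟨κ, o, h1, h2⟩ := finT_sound (A := A) hc hR hi hv' h
  refine ⟨hk, κ, o, h1, fun P hP hn gs hl => h2 P hP hn _ ?_⟩
  obtain ⟨f, hf, h3⟩ := t5_cp (A := A) hw hk
  obtain ⟨h3, h4⟩ := h3 P
  rw [← h3]
  refine horner_rep hc hP hn hr hf ?_ hl (rep_err fun _ => by simp)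
  refine (norm_add_le _ _).trans ?_
  rw [h3, norm_algebraMap', norm_smul, norm_pow, Complex.norm_two, Nat.add_eq, Nat.pow_eq]
  push_cast
  exact add_le_add (h4 hP) (mul_le_of_le_one_right (by positivity) hP.2.2)

end Pool.Agent.Sok.E

/-! Gaps between predictors. -/

namespace Pool.Agent.Sok.E

open Pool.Agent.MP_97ada9_an Finset Polynomial

variable {A : Type} [NormedCommRing A] [NormedAlgebra ℂ A] [NormOneClass A]
  {y : Ly} {P : Pt A}
  {c : Cf} {p r R nb : ℕ}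

theorem t5b_sval (s : Bool) (a : ℕ) : sval s a * sval s a = (a : ℤ) * a := by
  cases s <;> simp [sval]

/-- The sum of two squares. -/
theorem t5b_sq {w : CP} {f g : ℤ[X]} (hf : PkT y 0 0 w.re f) (hg : PkT y 0 0 w.im g) :
    In y (2 * y.Dt) (2 * y.De) 0 0 (f * f + g * g) ∧
      (f * f + g * g).eval (2 ^ y.K) = (sq2 w : ℤ) ∧ l1 (f * f + g * g) ≤ (ss2 w : ℤ) ∧
      ∀ t e : ℝ, (evc y t e (f * f + g * g)).re =
        ‖evc y t e f + Complex.I * evc y t e g‖ ^ 2 := by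
  have a1 : y.Dt + y.Dt ≤ 2 * y.Dt := by omega
  have a2 : y.De + y.De ≤ 2 * y.De := by omega
  refine ⟨((hf.1.mul hf.1 a1 a2 (by omega)).add (hg.1.mul hg.1 a1 a2 (by omega))).mono a1 a2
    le_rfl le_rfl, ?_, ?_, fun t e => ?_⟩
  · rw [eval_add, eval_mul, eval_mul, hf.2.1, hg.2.1, t5b_sval, t5b_sval]
    simp only [sq2, Nat.add_eq, Nat.mul_eq]
    push_cast
    rfl
  · have b1 := (l1_mul f f).trans (mul_le_mul hf.2.2 hf.2.2 (l1_nonneg f) (by positivity))
    have b2 := (l1_mul g g).trans (mul_le_mul hg.2.2 hg.2.2 (l1_nonneg g) (by positivity))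
    refine (l1_add _ _).trans ((add_le_add b1 b2).trans_eq ?_)
    simp only [ss2, Nat.add_eq, Nat.mul_eq]
    push_cast
    rfl
  · have c1 := evc_real hf.1 t e
    have c2 := evc_real hg.1 t e
    have c3 : evc y t e (f * f + g * g) =
        evc y t e f * evc y t e f + evc y t e g * evc y t e g := by
      simp only [evc]
      rw [ev_add, ev_mul hf.1 hf.1 a1 a2 (by omega), ev_mul hg.1 hg.1 a1 a2 (by omega)]
    rw [c3, Complex.sq_norm, Complex.normSq_apply]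
    simp [c1, c2]

theorem t5b_val (y : Ly) {t e : ℝ} (ht : |t| ≤ 1) (he : |e| ≤ 1) (n : ℕ) :
    ‖val y (⟨t, e, 0⟩ : Pt ℂ) n‖ ≤ |t| ^ y.ct n := by
  have h1 : |e| ^ y.ce n ≤ 1 := pow_le_one₀ (abs_nonneg e) he
  have h2 : ‖(0 : ℂ)‖ ^ y.ck n ≤ 1 := pow_le_one₀ (norm_nonneg _) (by simp)
  have h3 : 0 ≤ |t| ^ y.ct n := by positivity
  have _ := ht
  simp only [val, smul_eq_mul, norm_mul, norm_pow, Complex.norm_real, Real.norm_eq_abs,
    Complex.norm_I, one_pow, mul_one]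
  calc |t| ^ y.ct n * |e| ^ y.ce n * ‖(0 : ℂ)‖ ^ y.ck n ≤ |t| ^ y.ct n * 1 * 1 := by gcongr
    _ = _ := by ring

/-- A lower bound for the value of a real polynomial with a dominant coefficient. -/
theorem t5b_low {F : ℤ[X]} (hF : In y (2 * y.Dt) (2 * y.De) 0 0 F) {mu : ℕ}
    (hmu : mu = 0 ∨ mu = 1 ∧ y.De = 0 ∧ 1 ≤ y.Dt ∧ F.coeff 0 = 0) {t e : ℝ} (ht : |t| ≤ 1)
    (he : |e| ≤ 1) (h0 : 0 ≤ t ^ mu) :
    (2 * (F.coeff mu : ℝ) - (l1 F : ℝ)) * t ^ mu ≤ (evc y t e F).re := by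
  have hW : 1 ≤ y.W := by
    rw [y.W_eq, y.Wt_eq, y.We_eq]
    exact Nat.succ_le_of_lt (by positivity)
  have hL := hF.lt (nb := 1) (by omega)
  have hm : mu ∈ range (1 * 3 * y.W) := by
    rw [mem_range]
    omega
  have hv : val y (⟨t, e, 0⟩ : Pt ℂ) mu = ((t ^ mu : ℝ) : ℂ) := by
    have := val_mk (y := y) (P := (⟨t, e, 0⟩ : Pt ℂ)) (a := mu) (b := 0) (j := 0)
      (by omega) (by omega) (by omega) 0
    simpa using this
  have hb : ∀ n, F.coeff n ≠ 0 → ‖val y (⟨t, e, 0⟩ : Pt ℂ) n‖ ≤ t ^ mu := by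
    intro n hn
    refine (t5b_val y ht he n).trans ?_
    rcases hmu with rfl | ⟨rfl, h1, -, h3⟩
    · rw [pow_zero]
      exact pow_le_one₀ (abs_nonneg t) ht
    · obtain ⟨-, p2, p3, p4⟩ := hF n hn
      have p5 := (pos_decomp y n).1
      have p6 : y.ct n ≠ 0 := by
        intro p7
        have p8 : y.ce n = 0 := by omega
        have p9 : y.cj n = 0 := by omega
        have p10 : y.ck n = 0 := by omega
        rw [p7, p8, p9, p10] at p5
        simp only [mul_zero, add_zero] at p5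
        exact hn (p5 ▸ h3)
      rw [pow_one] at h0 ⊢
      exact (pow_le_of_le_one (abs_nonneg t) ht p6).trans_eq (abs_of_nonneg h0)
  rw [evc, ev_eq_sum hL, l1_eq_sum hL, Complex.re_sum]
  have e1 : (2 * (F.coeff mu : ℝ) - ((∑ n ∈ range (1 * 3 * y.W), |F.coeff n| : ℤ) : ℝ)) * t ^ mu =
      ∑ n ∈ range (1 * 3 * y.W), ((if n = mu then 2 * (F.coeff mu : ℝ) * t ^ mu else 0) -
        |(F.coeff n : ℝ)| * t ^ mu) := by
    rw [sum_sub_distrib, sum_ite_eq', if_pos hm, ← sum_mul]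
    push_cast
    ring
  rw [e1]
  refine sum_le_sum fun n _ => ?_
  have e2 : ((F.coeff n : ℂ) • val y (⟨t, e, 0⟩ : Pt ℂ) n).re =
      (F.coeff n : ℝ) * (val y (⟨t, e, 0⟩ : Pt ℂ) n).re := by simp
  rw [e2]
  split_ifs with hn
  · subst hn
    rw [hv, Complex.ofReal_re]
    nlinarith [mul_le_mul_of_nonneg_right (le_abs_self (F.coeff n : ℝ)) h0]
  · by_cases hz : F.coeff n = 0
    · simp [hz]
    have e3 : |(F.coeff n : ℝ) * (val y (⟨t, e, 0⟩ : Pt ℂ) n).re| ≤ |(F.coeff n : ℝ)| * t ^ mu := by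
      rw [abs_mul]
      exact mul_le_mul_of_nonneg_left ((Complex.abs_re_le_norm _).trans (hb n hz)) (abs_nonneg _)
    linarith [(abs_le.1 e3).1]

theorem t5b_gap1 {sh thr Z : ℕ} (h : gap1 c sh thr Z = true) :
    (sh = 0 ∨ Nat.land Z c.Bm = c.H) ∧
      thr + l1Z c Z + 2 * c.H < 2 * Nat.land (Nat.shiftRight Z sh) c.Bm := by
  unfold gap1 at h
  cases h1 : Nat.beq sh 0 <;> cases h2 : Nat.beq (Nat.land Z c.Bm) c.H <;>
    simp only [h1, h2, cond_true, cond_false, Bool.false_eq_true, Nat.blt_eq] at h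
  · exact ⟨Or.inr (Nat.eq_of_beq_eq_true h2), h⟩
  · exact ⟨Or.inl (Nat.eq_of_beq_eq_true h1), h⟩
  · exact ⟨Or.inl (Nat.eq_of_beq_eq_true h1), h⟩

theorem t5b_gapB {sh thr : ℕ} {w v : CP} (h : gapB c sh thr w v = true) :
    w.w.ok = true ∧ v.w.ok = true ∧ ss2 v + ss2 w < c.H ∧
      gap1 c sh thr (sadd (sadd c.HO true (sq2 v)) false (sq2 w)) = true := by
  unfold gapB at h
  rw [force_eq] at h
  cases h1 : w.w.ok <;> cases h2 : v.w.ok <;>
    cases h3 : Nat.blt (Nat.add (ss2 v) (ss2 w)) c.H <;>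
    simp only [h1, h2, h3, cond_true, cond_false, Bool.false_eq_true] at h
  exact ⟨rfl, rfl, Nat.blt_eq.mp h3, h⟩

/-- For real t, e the difference of the squared norms is the value of the polynomial
f' * f' + g' * g' - (f * f + g * g); take κ = 2 * coeff mu - l1Z. If mu = 1 the constant
coefficient is zero (or K * mu = 0, impossible), and all positions are powers of t. -/
theorem gapB_sound (hc : CfOK c y p r R nb) {mu thr : ℕ} (hmu : mu = 0 ∨ mu = 1 ∧ y.De = 0 ∧ 1 ≤ y.Dt)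
    {w v : CP} {ω ν : ℂ → ℂ → ℂ} (hw : CPok y w ω) (hv : CPok y v ν)
    (h : gapB c (y.K * mu) thr w v = true) :
    w.w.ok = true ∧ v.w.ok = true ∧ ∃ κ : ℝ, thr < κ ∧ ∀ t e : ℝ, |t| ≤ 1 → |e| ≤ 1 → 0 ≤ t ^ mu →
      κ * t ^ mu ≤ ‖ν t e‖ ^ 2 - ‖ω t e‖ ^ 2 := by
  obtain ⟨k1, k2, k3, k4⟩ := t5b_gapB h
  obtain ⟨k4, k5⟩ := t5b_gap1 k4
  obtain ⟨f, g, hf, hg, -, hω, -⟩ := hw k1
  obtain ⟨f', g', hf', hg', -, hν, -⟩ := hv k2
  obtain ⟨a1, a2, a3, a4⟩ := t5b_sq hf hg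
  obtain ⟨b1, b2, b3, b4⟩ := t5b_sq hf' hg'
  generalize f * f + g * g = F at a1 a2 a3 a4
  generalize f' * f' + g' * g' = F' at b1 b2 b3 b4
  have hnb : 0 < nb := lt_of_le_of_lt (Nat.zero_le _) hc.hR
  have k3' : (ss2 v : ℤ) + ss2 w < c.H := by exact_mod_cast k3
  have hl : l1 (0 + F' + -F) < c.H := by
    have := l1_add F' (-F)
    rw [l1_neg] at this
    rw [zero_add]
    omega
  have hI : In y (2 * y.Dt) (2 * y.De) 0 0 (0 + F' + -F) := (In.zero.add b1).add a1.neg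
  have z1 : Bs c y (sadd c.HO true (sq2 v)) (0 + F') :=
    (Bs.zero c y).sadd hc b2 ((In.zero.add b1).lt hnb) (by rw [zero_add]; omega)
  have z2 : Bs c y (sadd (sadd c.HO true (sq2 v)) false (sq2 w)) (0 + F' + -F) :=
    z1.sadd hc (by rw [eval_neg, a2]; rfl) (hI.lt hnb) hl
  have hd := z2.dz hc (hI.lt hnb) hl
  have hz := l1Z_ge hc (hI.mono le_rfl le_rfl (by omega) (Nat.zero_le _)) z2 hl
  generalize sadd (sadd c.HO true (sq2 v)) false (sq2 w) = Z at k4 k5 hd hz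
  have hW : 1 ≤ y.W := by
    rw [y.W_eq, y.Wt_eq, y.We_eq]
    exact Nat.succ_le_of_lt (by positivity)
  have hL : 3 ≤ nb * 3 * y.W := by nlinarith
  have hH : (c.H : ℤ) = 2 ^ (y.K - 2) := by rw [hc.H]; push_cast; rfl
  have d1 := hd mu
  rw [if_pos (by omega), ← hH] at d1
  rw [hc.Bm, land_Bm] at k5
  have k6 : (thr : ℤ) < 2 * (0 + F' + -F).coeff mu - l1 (0 + F' + -F) := by omega
  refine ⟨k1, k2, 2 * ((0 + F' + -F).coeff mu : ℝ) - (l1 (0 + F' + -F) : ℝ), by exact_mod_cast k6,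
    fun t e ht he h0 => (t5b_low hI ?_ ht he h0).trans_eq ?_⟩
  · rcases hmu with h1 | ⟨h1, h2, h3⟩
    · exact Or.inl h1
    refine Or.inr ⟨h1, h2, h3, ?_⟩
    have hK := hc.hK
    have d0 := hd 0
    rw [if_pos (by omega), ← hH] at d0
    rcases k4 with k4 | k4
    · rw [h1] at k4
      omega
    · have d2 := land_Bm y.K Z 0
      rw [← hc.Bm] at d2
      have d3 : Nat.shiftRight Z (y.K * 0) = Z := rfl
      rw [d3, k4] at d2
      omega
  · rw [hν, hω, ← a4, ← b4]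
    simp only [evc]
    rw [zero_add, ev_add, ev_neg]
    simp [sub_eq_add_neg]

theorem gapR_sound (hc : CfOK c y p r R nb) {mu : ℕ} (hmu : mu = 0 ∨ mu = 1 ∧ y.De = 0 ∧ 1 ≤ y.Dt)
    {w v : CP} {ω ν : ℂ → ℂ → ℂ} (hw : CPok y w ω) (hv : CPok y v ν) {ρ ρ' : ℕ}
    (h : gapR c (y.K * mu) w ρ v ρ' = true) {t e : ℝ} (ht : |t| ≤ 1) (he : |e| ≤ 1)
    (h0 : 0 < t ^ mu) {u u' : ℂ} (hu : ‖u - ω t e‖ ≤ ρ * t ^ mu) (hu' : ‖u' - ν t e‖ ≤ ρ' * t ^ mu) :
    ‖u‖ < ‖u'‖ := by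
  obtain ⟨k1, k2, κ, k3, k4⟩ := gapB_sound hc hmu hw hv h
  obtain ⟨-, -, -, -, -, -, hω⟩ := hw k1
  obtain ⟨-, -, -, -, -, -, hν⟩ := hv k2
  have a1 := hω t e (by simpa using ht) (by simpa using he)
  have a2 := hν t e (by simpa using ht) (by simpa using he)
  have a3 := k4 t e ht he h0.le
  simp only [Nat.add_eq, Nat.mul_eq] at k3
  push_cast at k3
  have a4 : ‖u‖ ≤ ‖ω t e‖ + ρ * t ^ mu := by
    have := norm_add_le (ω t e) (u - ω t e)
    rw [add_sub_cancel] at this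
    linarith
  have a5 : ‖ν t e‖ ≤ ‖u'‖ + ρ' * t ^ mu := by
    have := norm_sub_le u' (u' - ν t e)
    rw [sub_sub_cancel] at this
    linarith
  by_contra hn
  have a6 : ‖ν t e‖ - ‖ω t e‖ ≤ (ρ + ρ') * t ^ mu := by linarith [not_lt.1 hn]
  have a7 := mul_le_mul_of_nonneg_right a6 (add_nonneg (norm_nonneg (ν t e)) (norm_nonneg (ω t e)))
  have a8 : (ρ + ρ') * t ^ mu * (‖ν t e‖ + ‖ω t e‖) ≤ (ρ + ρ') * t ^ mu * (w.n + v.n) :=
    mul_le_mul_of_nonneg_left (by linarith) (by positivity)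
  have a9 := mul_lt_mul_of_pos_right k3 h0
  nlinarith

end Pool.Agent.Sok.E

/-! The tables of coefficients. -/

namespace Pool.Agent.Sok.E

open Pool.Agent.MP_97ada9_an Finset Polynomial

variable {y : Ly} {P : Pt ℂ} {c : Cf} {m z : ℕ}

theorem t6_nil (P : Pt ℂ) : P.nil 0 1 := fun _ _ _ => by omega

theorem t6_mon {a : ℕ} (ha : a ≤ y.Dt) (n : ℕ) {sh : ℕ} (hsh : sh = y.K * y.W + y.K * a) :
    Rep y 0 P (monT n sh 0) (n * (P.t ^ a * Complex.I)) := by
  have h1 := pos_mk (y := y) (a := a) (b := 0) (j := 1) (by omega) (by omega) (by omega) 0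
  have h2 := val_mk (y := y) (P := P) (a := a) (b := 0) (j := 1) (by omega) (by omega) (by omega) 0
  have h3 := monT_rep (P := P) (k := 0) (i := a + y.Wt * 0 + y.W * 1 + 3 * y.W * 0)
    ⟨h1.1.trans_le ha, h1.2.1.trans_le (Nat.zero_le _), h1.2.2.1.le, h1.2.2.2.le⟩ n
  rw [h2] at h3
  have e : sh = y.K * (a + y.Wt * 0 + y.W * 1 + 3 * y.W * 0) := by rw [hsh]; ring
  rw [e]
  simpa using h3

theorem t6_const (n : ℕ) : Rep y 0 P (monT n 0 0) (n : ℂ) := by
  simpa using monT_const (y := y) (P := P) 0 n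

theorem t6_newt {p : ℕ} (hc : CfOK c y p 0 0 1) (hP : P.ok) {V two U : TM} {v w u : ℂ}
    (hV : Rep y 0 P V v) (hw : Rep y 0 P two w) (hU : Rep y 0 P U u) (n : ℕ) :
    ∃ x, Rep y 0 P (newt c V two n U) x := by
  induction n with
  | zero => exact ⟨u, hU⟩
  | succ n ih =>
    obtain ⟨x, hx⟩ := ih
    have e : newt c V two (n + 1) U = tight c (mulS c (newt c V two n U)
        (addT two (negT (mulS c V (newt c V two n U))))) :=
      forceT_eq (newt c V two n U) fun U => tight c (mulS c U (addT two (negT (mulS c V U))))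
    rw [e]
    exact ⟨_, tight_rep hc le_rfl (mulS_rep hc hP (t6_nil P) (k := 0) (k' := 0) one_pos hx
      (addT_rep hw (negT_rep (mulS_rep hc hP (t6_nil P) (k := 0) (k' := 0) one_pos hV hx))))⟩

theorem t6_inv {p : ℕ} (hc : CfOK c y p 0 0 1) (hP : P.ok) {V U : TM} {v u : ℂ}
    (hV : Rep y 0 P V (2 ^ p * v)) (hU : Rep y 0 P U u) (h0 : v ≠ 0) (h1 : ‖v⁻¹‖ ≤ 2) :
    Rep y 0 P (invT c (2 ^ p) V U) (2 ^ p * v⁻¹) := by
  unfold invT
  rw [forceT_eq]
  intro hok
  have hUo : U.ok = true := by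
    cases h : U.ok
    · simp [h] at hok
    · rfl
  obtain ⟨f, hf, -⟩ := hU hUo
  have h2 : Rep y 0 P ⟨U.ok, U.sg, U.a, U.s, 0⟩ (ev y P f) := fun _ => ⟨f, hf, by simp⟩
  have h3 := tight_rep hc le_rfl (addT_rep
    (mulS_rep hc hP (t6_nil P) (k := 0) (k' := 0) one_pos hV h2) (negT_rep (t6_const (2 ^ p))))
  generalize tight c (addT (mulS c V ⟨U.ok, U.sg, U.a, U.s, 0⟩) (negT (monT (2 ^ p) 0 0))) = R
    at hok h3 ⊢
  have h4 := h3.norm_le hP (by simpa [hUo] using hok)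
  refine ⟨f, hf, ?_⟩
  have e : (2 : ℂ) ^ p * v⁻¹ - ev y P f =
      -v⁻¹ * (((2 : ℂ) ^ p)⁻¹ • (2 ^ p * v * ev y P f) + -((2 ^ p : ℕ) : ℂ)) := by
    rw [smul_eq_mul]
    push_cast
    field_simp
    ring
  rw [e, norm_mul, norm_neg]
  refine (mul_le_mul h1 h4 (norm_nonneg _) zero_le_two).trans_eq ?_
  simp only [Nat.mul_eq, Nat.add_eq]
  push_cast
  rfl

/-- newt preserves: there is a value enclosed by U. In invT, U with error zero encloses
u = ev f, and R encloses (1 - I τ) u - S. -/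
theorem pT_rep (hc : CfOK c y (m + z) 0 0 1) (hD : 2 ≤ y.Dt) (hP : P.ok) {a0 a1 a2 : ℕ} {τ : ℂ}
    (hτ : 2 ^ m * τ = a0 + a1 * P.t + a2 * P.t ^ 2) (h0 : 1 - Complex.I * τ ≠ 0)
    (h1 : ‖(1 - Complex.I * τ)⁻¹‖ ≤ 2) (it : ℕ) :
    Rep y 0 P (pT y c m z a0 a1 a2 it)
      (2 ^ (m + z) * ((1 + Complex.I * τ) / (1 - Complex.I * τ))) := by
  unfold pT
  simp only [force_eq, forceT_eq]
  have hV := addT_rep (t6_const (y := y) (P := P) (2 ^ (m + z))) (negT_rep (addT_rep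
    (t6_mon (a := 0) (sh := c.s1) (by omega) (Nat.shiftLeft a0 z) (by rw [hc.s1]; rfl)) (addT_rep
    (t6_mon (a := 1) (sh := Nat.add c.s1 y.K) (by omega) (Nat.shiftLeft a1 z)
      (by rw [hc.s1, mul_one]; rfl))
    (t6_mon (a := 2) (sh := Nat.add c.s1 (Nat.mul y.K 2)) hD (Nat.shiftLeft a2 z)
      (by rw [hc.s1]; rfl)))))
  have e : ((2 ^ (m + z) : ℕ) : ℂ) + -((Nat.shiftLeft a0 z : ℕ) * (P.t ^ 0 * Complex.I) +
      ((Nat.shiftLeft a1 z : ℕ) * (P.t ^ 1 * Complex.I) +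
        (Nat.shiftLeft a2 z : ℕ) * (P.t ^ 2 * Complex.I))) =
      2 ^ (m + z) * (1 - Complex.I * τ) := by
    simp only [Nat.shiftLeft_eq', Nat.shiftLeft_eq]
    push_cast
    linear_combination (2 ^ z * Complex.I) * hτ
  rw [e] at hV
  obtain ⟨x, hx⟩ := t6_newt hc hP hV (t6_const (Nat.mul 2 (2 ^ (m + z))))
    (addT_rep (t6_const (Nat.div (Nat.mul (2 ^ (m + z)) (Nat.pow 4 m))
        (Nat.add (Nat.pow 4 m) (Nat.mul a0 a0))))
      (t6_mon (a := 0) (sh := c.s1) (by omega) (Nat.div (Nat.mul (2 ^ (m + z)) (Nat.shiftLeft a0 m))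
        (Nat.add (Nat.pow 4 m) (Nat.mul a0 a0))) (by rw [hc.s1]; rfl))) it
  have hI := t6_inv hc hP hV hx h0 h1
  have hR := tight_rep hc le_rfl (addT_rep (addT_rep hI hI) (negT_rep (t6_const (2 ^ (m + z)))))
  have e2 : (2 : ℂ) ^ (m + z) * ((1 + Complex.I * τ) / (1 - Complex.I * τ)) =
      2 ^ (m + z) * (1 - Complex.I * τ)⁻¹ + 2 ^ (m + z) * (1 - Complex.I * τ)⁻¹ +
        -((2 ^ (m + z) : ℕ) : ℂ) := by
    push_cast
    field_simp
    ring
  rw [e2]
  exact hR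

theorem t6_nmul {p : ℕ} (hc : CfOK c y p 0 0 1) {x x' : ℂ} {a b : ℕ} (ha : ‖x‖ ≤ a) (hb : ‖x'‖ ≤ b) :
    ‖((2 : ℂ) ^ p)⁻¹ • (x * x')‖ ≤ nmul c a b := by
  have h2 : (0 : ℝ) < 2 ^ p := by positivity
  have h3 : a * b < 2 ^ p * (a * b / 2 ^ p + 1) := Nat.lt_mul_div_succ _ (by positivity)
  have h4 : nmul c a b = a * b / 2 ^ p + 1 := by
    rw [nmul, hc.hp, ← Nat.shiftRight_eq_div_pow]
    rfl
  rw [h4, norm_smul, norm_inv, norm_pow, Complex.norm_two, norm_mul, inv_mul_le_iff₀ h2]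
  refine (mul_le_mul ha hb (norm_nonneg _) (Nat.cast_nonneg _)).trans ?_
  exact_mod_cast h3.le

theorem t6_mul (p : ℕ) (x x' : ℂ) : ((2 : ℂ) ^ p)⁻¹ • (2 ^ p * x * (2 ^ p * x')) = 2 ^ p * (x * x') := by
  rw [smul_eq_mul]
  field_simp

theorem t6_tab {p : ℕ} (hc : CfOK c y p 0 0 1) (hP : P.ok) {q : TM} {nq : ℕ} {w : ℂ}
    (hq : Rep y 0 P q (2 ^ p * w)) (hn : ‖2 ^ p * w‖ ≤ nq) (fuel : ℕ) :
    ∀ (k k0 : ℕ) (Q : TM) (nQ : ℕ) (pw : TM) (npw : ℕ) (acc : List TM),
      Rep y 0 P Q (2 ^ p * w ^ (k + 1).choose 2) → ‖2 ^ p * w ^ (k + 1).choose 2‖ ≤ nQ →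
      (k0 ≠ 0 → Rep y 0 P pw (2 ^ p * w ^ (k + 1))) → ‖2 ^ p * w ^ (k + 1)‖ ≤ npw →
      List.Forall₂ (fun T k => Rep y 0 P T (2 ^ p * w ^ (k + 1).choose 2)) acc
        (List.range k).reverse →
      List.Forall₂ (fun T k => Rep y 0 P T (2 ^ p * w ^ (k + 1).choose 2))
        (tabR c q nq fuel k0 Q nQ pw npw acc) (List.range (k + fuel)).reverse := by
  induction fuel with
  | zero => exact fun _ _ _ _ _ _ _ _ _ _ _ h => h
  | succ n ih =>
    intro k k0 Q nQ pw npw acc h1 h2 h3 h4 h5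
    have e1 : ((2 : ℂ) ^ p)⁻¹ • (2 ^ p * w ^ (k + 1).choose 2 * (2 ^ p * w ^ (k + 1))) =
        2 ^ p * w ^ (k + 1 + 1).choose 2 := by
      rw [t6_mul, Nat.choose_succ_succ' (k + 1) 1, Nat.choose_one_right, ← pow_add, add_comm (k + 1)]
    have e2 : ((2 : ℂ) ^ p)⁻¹ • (2 ^ p * w ^ (k + 1) * (2 ^ p * w)) = 2 ^ p * w ^ (k + 1 + 1) := by
      rw [t6_mul, ← pow_succ]
    have n1 := t6_nmul hc h2 h4
    have n2 := t6_nmul hc h4 hn
    rw [e1] at n1
    rw [e2] at n2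
    have h6 : List.Forall₂ (fun T k => Rep y 0 P T (2 ^ p * w ^ (k + 1).choose 2)) (Q :: acc)
        (List.range (k + 1)).reverse := by
      rw [List.range_succ, List.reverse_append]
      exact List.Forall₂.cons h1 h5
    rw [show k + (n + 1) = k + 1 + n by omega]
    cases k0 with
    | zero =>
      have e : tabR c q nq (n + 1) 0 Q nQ pw npw acc = tabR c q nq n 0
          ⟨true, true, 0, 0, nmul c nQ npw⟩ (nmul c nQ npw) pw (nmul c npw nq) (Q :: acc) := by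
        show (force (nmul c nQ npw) fun nQ' => force (nmul c npw nq) fun npw' =>
          tabR c q nq n 0 ⟨true, true, 0, 0, nQ'⟩ nQ' pw npw' (Q :: acc)) = _
        simp only [force_eq]
      rw [e]
      exact ih _ _ _ _ _ _ _ (rep_err fun _ => n1) n1 (fun h => absurd rfl h) n2 h6
    | succ k1 =>
      have e : tabR c q nq (n + 1) (k1 + 1) Q nQ pw npw acc = tabR c q nq n k1
          (tight c (mulT c nQ npw Q pw)) (nmul c nQ npw) (tight c (mulT c npw nq pw q))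
          (nmul c npw nq) (Q :: acc) := by
        show (force (nmul c nQ npw) fun nQ' => force (nmul c npw nq) fun npw' =>
          forceT (tight c (mulT c nQ npw Q pw)) fun Q' =>
          forceT (tight c (mulT c npw nq pw q)) fun pw' =>
          tabR c q nq n k1 Q' nQ' pw' npw' (Q :: acc)) = _
        simp only [force_eq, forceT_eq]
      have h7 := h3 (Nat.succ_ne_zero k1)
      have r1 := tight_rep hc le_rfl (mulT_rep hc hP (t6_nil P) (k := 0) (k' := 0) one_pos h1 h7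
        (fun _ => h2) fun _ => h4)
      have r2 := tight_rep hc le_rfl (mulT_rep hc hP (t6_nil P) (k := 0) (k' := 0) one_pos h7 hq
        (fun _ => h4) fun _ => hn)
      rw [e1] at r1
      rw [e2] at r2
      rw [e]
      exact ih _ _ _ _ _ _ _ r1 n1 (fun _ => r2) n2 h6

/-- Invariant of tabR at step k: Q encloses S q ^ (k + 1).choose 2, of norm at most nQ;
S q ^ (k + 1) has norm at most npw and is enclosed by pw unless k0 = 0. -/
theorem tabQ_rep (hc : CfOK c y (m + z) 0 0 1) (hD : 2 ≤ y.Dt) (hP : P.ok) {a0 a1 a2 : ℕ} {τ : ℂ}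
    (hτ : 2 ^ m * τ = a0 + a1 * P.t + a2 * P.t ^ 2) (h0 : 1 - Complex.I * τ ≠ 0)
    (h1 : ‖(1 - Complex.I * τ)⁻¹‖ ≤ 2) (h2 : a2 < 2 ^ m)
    (h3 : ‖(1 + Complex.I * τ) / (1 - Complex.I * τ)‖ * (2 ^ m - a2) ≤ 2 ^ m + a2)
    (it k0 kmax : ℕ) :
    List.Forall₂ (fun T k => Rep y 0 P T (2 ^ (m + z) * qq τ ^ (k + 1).choose 2))
      (tabQ y c m z a0 a1 a2 it k0 kmax) (List.range kmax).reverse := by
  have hp := pT_rep hc hD hP hτ h0 h1 it
  unfold tabQ qq
  simp only [force_eq, forceT_eq, Nat.pow_eq, Nat.add_eq, Nat.mul_eq, Nat.sub_eq, Nat.succ_eq_add_one]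
  generalize (1 + Complex.I * τ) / (1 - Complex.I * τ) = u at h3 hp ⊢
  have n0 : ‖2 ^ (m + z) * u‖ ≤
      (Nat.div (2 ^ (m + z) * (2 ^ m + a2)) (2 ^ m - a2) + 1 : ℕ) := by
    have h4 : 2 ^ (m + z) * (2 ^ m + a2) <
        (2 ^ m - a2) * (Nat.div (2 ^ (m + z) * (2 ^ m + a2)) (2 ^ m - a2) + 1) :=
      Nat.lt_mul_div_succ _ (by omega)
    replace h4 := (Nat.cast_le (α := ℝ)).2 h4.le
    rw [Nat.cast_mul (2 ^ m - a2)] at h4
    have h5 : (0 : ℝ) < (2 ^ m - a2 : ℕ) := by exact_mod_cast (by omega : 0 < 2 ^ m - a2)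
    refine le_of_mul_le_mul_left (le_trans ?_ h4) h5
    rw [norm_mul, norm_pow, Complex.norm_two]
    push_cast [h2.le]
    have h6 : (0 : ℝ) < 2 ^ (m + z) := by positivity
    nlinarith [mul_le_mul_of_nonneg_left h3 h6.le]
  generalize Nat.div (2 ^ (m + z) * (2 ^ m + a2)) (2 ^ m - a2) + 1 = np at n0 ⊢
  have hq := tight_rep hc le_rfl (mulT_rep hc hP (t6_nil P) (k := 0) (k' := 0) one_pos hp hp
    (fun _ => n0) fun _ => n0)
  have n1 := t6_nmul hc n0 n0
  rw [t6_mul, ← sq] at hq n1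
  have h := t6_tab hc hP hq n1 kmax 0 k0 (monT (2 ^ (m + z)) 0 0) (2 ^ (m + z)) _ _ []
    (by simpa using t6_const (y := y) (P := P) (2 ^ (m + z))) (by simp)
    (fun _ => by simpa using hq) (by simpa using n1) List.Forall₂.nil
  rwa [zero_add] at h

end Pool.Agent.Sok.E

/-! Lists of coefficients. -/

namespace Pool.Agent.Sok.E

open Pool.Agent.MP_97ada9_an Finset Polynomial

variable {y : Ly} {P : Pt ℂ} {c : Cf} {m z : ℕ}

theorem revL_eq {α : Type} (l acc : List α) : revL l acc = l.reverse ++ acc := by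
  induction l generalizing acc with
  | nil => rfl
  | cons a t ih =>
    have h : revL (a :: t) acc = revL t (a :: acc) := rfl
    rw [h, ih]
    simp

theorem dropL_eq {α : Type} (n : ℕ) (l : List α) : dropL n l = l.drop n := by
  induction n generalizing l with
  | zero => rfl
  | succ n ih =>
    cases l with
    | nil => rfl
    | cons a t =>
      have h : dropL (n + 1) (a :: t) = dropL n t := rfl
      rw [h, ih]
      rfl

theorem takeL_eq {α : Type} (l : List α) (n : ℕ) : takeL l n = l.take n := by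
  induction l generalizing n with
  | nil => cases n <;> rfl
  | cons a t ih =>
    cases n with
    | zero => rfl
    | succ n =>
      have h : takeL (a :: t) (n + 1) = a :: takeL t n := rfl
      rw [h, ih]
      rfl

theorem appL_eq {α : Type} (l m : List α) : appL l m = l ++ m := by
  induction l with
  | nil => rfl
  | cons a t ih =>
    have h : appL (a :: t) m = a :: appL t m := rfl
    rw [h, ih]
    rfl

theorem t6b_gen {Rel : TM → ℕ → Prop} {R : List TM} {kmax a b : ℕ}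
    (h : List.Forall₂ (fun T k => Rel T ((k + 1).choose 2)) R (List.range kmax).reverse)
    (ha : a ≤ kmax) (hb : b ≤ kmax) :
    (R.drop (kmax - a) ++ R.reverse.take b).length = a + b ∧
      ∀ i (hi : i < (R.drop (kmax - a) ++ R.reverse.take b).length),
        Rel ((R.drop (kmax - a) ++ R.reverse.take b).get ⟨i, hi⟩)
          (if i < a then (a - i).choose 2 else (i - a + 1).choose 2) := by
  rw [List.forall₂_iff_get] at h
  obtain ⟨hl, hg⟩ := h
  have hR : R.length = kmax := by simpa using hl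
  have hg' : ∀ i (hi : i < R.length), Rel R[i] ((kmax - i).choose 2) := by
    intro i hi
    have h1 := hg i hi (by rw [← hl]; exact hi)
    have h2 : ((List.range kmax).reverse.get ⟨i, by rw [← hl]; exact hi⟩) = kmax - 1 - i := by
      simp
    rw [h2] at h1
    have h3 : kmax - 1 - i + 1 = kmax - i := by omega
    rw [h3] at h1
    exact h1
  have hd : (R.drop (kmax - a)).length = a := by rw [List.length_drop]; omega
  have ht : (R.reverse.take b).length = b := by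
    rw [List.length_take, List.length_reverse]; omega
  refine ⟨by rw [List.length_append, hd, ht], ?_⟩
  intro i hi
  have hi' : i < a + b := by rw [List.length_append, hd, ht] at hi; exact hi
  rw [List.get_eq_getElem]
  dsimp only
  by_cases h1 : i < a
  · rw [if_pos h1, List.getElem_append_left (by rw [hd]; exact h1), List.getElem_drop]
    have h2 := hg' (kmax - a + i) (by omega)
    have h3 : kmax - (kmax - a + i) = a - i := by omega
    rw [h3] at h2
    exact h2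
  · rw [if_neg h1, List.getElem_append_right (by rw [hd]; omega), List.getElem_take,
      List.getElem_reverse]
    have h2 := hg' (R.length - 1 - (i - (R.drop (kmax - a)).length)) (by omega)
    have h3 : kmax - (R.length - 1 - (i - (R.drop (kmax - a)).length)) = i - a + 1 := by
      rw [hd]; omega
    rw [h3] at h2
    exact h2

theorem seqQ_rel {Rel : TM → ℕ → Prop} {R : List TM} {kmax N cc : ℕ}
    (h : List.Forall₂ (fun T k => Rel T ((k + 1).choose 2)) R (List.range kmax).reverse)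
    (h1 : cc ≤ N) (h2 : N - cc ≤ kmax) (h3 : cc < kmax) :
    List.Forall₂ (fun T n => Rel T (ex cc n)) (seqQ R (revL R []) kmax N cc) (down N) := by
  have hs : seqQ R (revL R []) kmax N cc =
      R.drop (kmax - (N - cc)) ++ R.reverse.take (cc + 1) := by
    unfold seqQ
    rw [appL_eq, dropL_eq, takeL_eq, revL_eq, List.append_nil]
    rfl
  obtain ⟨hl, hg⟩ := t6b_gen h h2 (Nat.succ_le_of_lt h3)
  rw [hs, List.forall₂_iff_get]
  refine ⟨by rw [hl]; simp only [down, List.length_reverse, List.length_range]; omega, ?_⟩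
  intro i hi hi'
  have h4 := hg i hi
  have h5 : i < N + 1 := by simpa [down] using hi'
  have h6 : (down N).get ⟨i, hi'⟩ = N - i := by
    simp [down]
  rw [h6]
  have h7 : ex cc (N - i) =
      if i < N - cc then (N - cc - i).choose 2 else (i - (N - cc) + 1).choose 2 := by
    unfold ex
    by_cases h8 : i < N - cc
    · rw [if_pos h8, if_neg (by omega)]
      congr 1
      omega
    · rw [if_neg h8, if_pos (by omega)]
      congr 1
      omega
  rw [h7]
  exact h4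

theorem seqQ_fwd {Rel : TM → ℕ → Prop} {R : List TM} {kmax M cc : ℕ}
    (h : List.Forall₂ (fun T k => Rel T ((k + 1).choose 2)) R (List.range kmax).reverse)
    (h1 : cc + 2 ≤ M) (h2 : M - 1 - cc ≤ kmax) (h3 : cc < kmax) :
    List.Forall₂ (fun T n => Rel T (ex cc n)) (seqQ R (revL R []) kmax (M - 1) (M - 2 - cc))
      (List.range M) := by
  have hs : seqQ R (revL R []) kmax (M - 1) (M - 2 - cc) =
      R.drop (kmax - (cc + 1)) ++ R.reverse.take (M - 1 - cc) := by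
    unfold seqQ
    rw [appL_eq, dropL_eq, takeL_eq, revL_eq, List.append_nil]
    have e1 : Nat.sub kmax (Nat.sub (M - 1) (M - 2 - cc)) = kmax - (cc + 1) := by
      simp only [Nat.sub_eq]; omega
    have e2 : Nat.succ (M - 2 - cc) = M - 1 - cc := by omega
    rw [e1, e2]
  obtain ⟨hl, hg⟩ := t6b_gen h (Nat.succ_le_of_lt h3) h2
  rw [hs, List.forall₂_iff_get]
  refine ⟨by rw [hl]; simp only [List.length_range]; omega, ?_⟩
  intro i hi hi'
  have h4 := hg i hi
  have h6 : (List.range M).get ⟨i, hi'⟩ = i := by simp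
  rw [h6]
  have h7 : ex cc i =
      if i < cc + 1 then (cc + 1 - i).choose 2 else (i - (cc + 1) + 1).choose 2 := by
    unfold ex
    by_cases h8 : i < cc + 1
    · rw [if_pos h8, if_pos (by omega)]
      congr 1
      omega
    · rw [if_neg h8, if_neg (by omega)]
      congr 1
      omega
  rw [h7]
  exact h4

theorem t6b_zip {Rel : TM → ℕ → Prop} {N : ℕ} (j : ℕ) : ∀ (i : ℕ) (l : List TM), i + j = N + 1 →
    List.Forall₂ Rel l (List.range j).reverse →
    List.Forall₂ (fun d n => d.1 = N.choose n ∧ Rel d.2 n) (zipB N l i (N.choose i))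
      (List.range j).reverse := by
  induction j with
  | zero =>
    intro i l _ h
    cases h
    exact List.Forall₂.nil
  | succ j ih =>
    intro i l hij h
    have hr : (List.range (j + 1)).reverse = j :: (List.range j).reverse := by
      rw [List.range_succ, List.reverse_append]; rfl
    rw [hr] at h ⊢
    cases h with
    | cons h1 h2 =>
      rename_i Q t
      have hz : zipB N (Q :: t) i (N.choose i) =
          (N.choose i, Q) :: zipB N t (i + 1) (N.choose i * (N - i) / (i + 1)) := by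
        have h3 : zipB N (Q :: t) i (N.choose i) = force (N.choose i) fun b => force i fun i =>
            (b, Q) :: zipB N t (Nat.succ i) (Nat.div (Nat.mul b (Nat.sub N i)) (Nat.succ i)) := rfl
        rw [h3, force_eq, force_eq]
        rfl
      have hc : N.choose i * (N - i) / (i + 1) = N.choose (i + 1) := by
        rw [← Nat.choose_succ_right_eq]
        exact Nat.mul_div_cancel _ (Nat.succ_pos i)
      rw [hz, hc]
      refine List.Forall₂.cons ⟨?_, h1⟩ (ih (i + 1) t (by omega) h2)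
      exact Nat.choose_symm_of_eq_add (by omega)

theorem zipB_rel {Rel : TM → ℕ → Prop} {l : List TM} {N : ℕ} (h : List.Forall₂ Rel l (down N)) :
    List.Forall₂ (fun d n => d.1 = N.choose n ∧ Rel d.2 n) (zipB N l 0 1) (down N) := by
  have h0 := t6b_zip (N := N) (N + 1) 0 l (by omega) h
  rw [Nat.choose_zero_right] at h0
  exact h0

theorem t6b_div (a n : ℕ) : ‖(a : ℂ) / (n + 1) - ((a / (n + 1) : ℕ) : ℂ)‖ ≤ 1 := by
  have hn' : (n : ℂ) + 1 ≠ 0 := by exact_mod_cast Nat.succ_ne_zero n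
  have h1 : (a : ℂ) = (n + 1) * ((a / (n + 1) : ℕ) : ℂ) + ((a % (n + 1) : ℕ) : ℂ) := by
    exact_mod_cast (Nat.div_add_mod a (n + 1)).symm
  have h2 : (a : ℂ) / (n + 1) - ((a / (n + 1) : ℕ) : ℂ) =
      ((a % (n + 1) : ℕ) : ℂ) / ((n + 1 : ℕ) : ℂ) := by
    generalize ((a / (n + 1) : ℕ) : ℂ) = d at h1 ⊢
    generalize ((a % (n + 1) : ℕ) : ℂ) = r at h1 ⊢
    rw [h1]
    push_cast
    field_simp
    ring
  rw [h2, norm_div, Complex.norm_natCast, Complex.norm_natCast]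
  apply div_le_one_of_le₀ _ (Nat.cast_nonneg _)
  exact_mod_cast (Nat.mod_lt a (Nat.succ_pos n)).le

theorem t6b_mT3 (hc : CfOK c y (m + z) 0 0 1) (hD : 1 ≤ y.De) (u v w : ℕ) {x : ℂ}
    (hx : ‖x - ((u : ℂ) - v - w * P.e)‖ ≤ 3) : Rep y 0 P (mT3 y c u v w) x := by
  unfold mT3
  apply tight_rep hc le_rfl
  intro _
  have p0 := pos_mk (y := y) (a := 0) (b := 0) (j := 0) (by omega) (by omega) (by omega) 0
  have p1 := pos_mk (y := y) (a := 0) (b := 1) (j := 0) (by omega) (by omega) (by omega) 0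
  have v0 := val_mk (y := y) (P := P) (a := 0) (b := 0) (j := 0) (by omega) (by omega) (by omega) 0
  have v1 := val_mk (y := y) (P := P) (a := 0) (b := 1) (j := 0) (by omega) (by omega) (by omega) 0
  simp only [mul_zero, add_zero, mul_one, zero_add, pow_zero, pow_one, one_mul, smul_eq_mul]
    at p0 p1 v0 v1
  have q0 : y.pos y.Dt y.De 1 0 0 := by
    unfold Ly.pos
    omega
  have q1 : y.pos y.Dt y.De 1 0 y.Wt := by
    unfold Ly.pos
    omega
  refine ⟨monomial 0 (u : ℤ) - monomial 0 (v : ℤ) - monomial y.Wt (w : ℤ), ⟨?_, ?_, ?_⟩, ?_⟩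
  · exact ((In.monomial q0 _).sub (In.monomial q0 _)).sub (In.monomial q1 _)
  · rw [sval_mkT]
    have h1 : Nat.add v (Nat.shiftLeft w (Nat.mul y.K y.Wt)) = v + w * 2 ^ (y.K * y.Wt) := by
      rw [← Nat.shiftLeft_eq]
      rfl
    rw [h1]
    simp only [eval_sub, eval_monomial, pow_zero, mul_one]
    push_cast
    rw [pow_mul]
    ring
  · have h1 := l1_sub (monomial 0 (u : ℤ) - monomial 0 (v : ℤ)) (monomial y.Wt (w : ℤ))
    have h2 := l1_sub (monomial 0 (u : ℤ)) (monomial 0 (v : ℤ))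
    rw [l1_monomial] at h1
    rw [l1_monomial, l1_monomial] at h2
    rw [Nat.abs_cast] at h1
    rw [Nat.abs_cast, Nat.abs_cast] at h2
    have h3 : (((mkT true u (Nat.add v (Nat.shiftLeft w (Nat.mul y.K y.Wt)))
        (Nat.add u (Nat.add v w)) 3).s : ℕ) : ℤ) = u + (v + w) := by
      change ((u + (v + w) : ℕ) : ℤ) = _
      push_cast
      rfl
    rw [h3]
    linarith
  · rw [ev_sub, ev_sub, ev_monomial, ev_monomial, ev_monomial, v0, v1]
    simp only [smul_eq_mul, mul_one, Int.cast_natCast]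
    exact hx

theorem mT_rep (hc : CfOK c y (m + z) 0 0 1) (hD : 1 ≤ y.De) (hP : P.ok) {ae be N : ℕ} (hN : 0 < N)
    (hε : (2 : ℂ) ^ m = N * (ae + be * P.e)) (lam n : ℕ) :
    Rep y 0 P (mT y c m z lam ae be n) (2 ^ (m + z) * (lam * (1 - (n : ℂ) / N) / (n + 1))) := by
  have hm : mT y c m z lam ae be n = mT3 y c (lam * 2 ^ (m + z) / (n + 1))
      (lam * n * ae * 2 ^ z / (n + 1)) (lam * n * be * 2 ^ z / (n + 1)) := by
    unfold mT
    rw [force_eq, force_eq, force_eq, ← Nat.shiftLeft_eq, ← Nat.shiftLeft_eq, ← Nat.shiftLeft_eq]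
    rfl
  rw [hm]
  apply t6b_mT3 hc hD
  have hN' : (N : ℂ) ≠ 0 := Nat.cast_ne_zero.mpr hN.ne'
  have hn' : (n : ℂ) + 1 ≠ 0 := by exact_mod_cast Nat.succ_ne_zero n
  have h1 := t6b_div (lam * 2 ^ (m + z)) n
  have h2 := t6b_div (lam * n * ae * 2 ^ z) n
  have h3 := t6b_div (lam * n * be * 2 ^ z) n
  have hx : (2 : ℂ) ^ (m + z) * (lam * (1 - (n : ℂ) / N) / (n + 1)) =
      ((lam * 2 ^ (m + z) : ℕ) : ℂ) / (n + 1) - ((lam * n * ae * 2 ^ z : ℕ) : ℂ) / (n + 1) -
        ((lam * n * be * 2 ^ z : ℕ) : ℂ) / (n + 1) * P.e := by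
    push_cast
    rw [pow_add, hε]
    field_simp
    ring
  rw [hx]
  generalize ((lam * 2 ^ (m + z) : ℕ) : ℂ) / (n + 1) = U at h1 ⊢
  generalize ((lam * n * ae * 2 ^ z : ℕ) : ℂ) / (n + 1) = V at h2 ⊢
  generalize ((lam * n * be * 2 ^ z : ℕ) : ℂ) / (n + 1) = W at h3 ⊢
  generalize ((lam * 2 ^ (m + z) / (n + 1) : ℕ) : ℂ) = u at h1 ⊢
  generalize ((lam * n * ae * 2 ^ z / (n + 1) : ℕ) : ℂ) = v at h2 ⊢
  generalize ((lam * n * be * 2 ^ z / (n + 1) : ℕ) : ℂ) = w at h3 ⊢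
  have h4 : U - V - W * P.e - (u - v - w * P.e) = (U - u) - (V - v) - (W - w) * P.e := by ring
  rw [h4]
  have h5 : ‖(W - w) * P.e‖ ≤ 1 := by
    rw [norm_mul]
    exact mul_le_one₀ h3 (norm_nonneg _) hP.2.1
  have h6 := norm_sub_le (U - u - (V - v)) ((W - w) * P.e)
  have h7 := norm_sub_le (U - u) (V - v)
  linarith

theorem t6b_step {N : ℕ} (hN : 0 < N) (lam c0 n p : ℕ) :
    ((2 : ℂ) ^ p)⁻¹ • (((c0 : ℂ) * N.choose n * ((lam : ℂ) / N) ^ n) *
      (2 ^ p * (lam * (1 - (n : ℂ) / N) / (n + 1)))) =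
      (c0 : ℂ) * N.choose (n + 1) * ((lam : ℂ) / N) ^ (n + 1) := by
  have hN' : (N : ℂ) ≠ 0 := Nat.cast_ne_zero.mpr hN.ne'
  have hn' : (n : ℂ) + 1 ≠ 0 := by exact_mod_cast Nat.succ_ne_zero n
  have h2 : (2 : ℂ) ^ p ≠ 0 := pow_ne_zero _ two_ne_zero
  have h1 : (N.choose (n + 1) : ℂ) = N.choose n * ((N : ℂ) - n) / (n + 1) := by
    rw [eq_div_iff hn']
    by_cases h : n ≤ N
    · have h3 := Nat.choose_succ_right_eq N n
      have h4 : ((N.choose (n + 1) * (n + 1) : ℕ) : ℂ) = ((N.choose n * (N - n) : ℕ) : ℂ) := by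
        rw [h3]
      push_cast [Nat.cast_sub h] at h4
      exact h4
    · rw [Nat.choose_eq_zero_of_lt (by omega : N < n + 1),
        Nat.choose_eq_zero_of_lt (by omega : N < n)]
      simp
  rw [h1, smul_eq_mul, pow_succ]
  generalize ((lam : ℂ) / N) ^ n = A
  field_simp

theorem t6b_coef (hc : CfOK c y (m + z) 0 0 1) (hD : 1 ≤ y.De) (hP : P.ok) {ae be N : ℕ}
    (hN : 0 < N) (hε : (2 : ℂ) ^ m = N * (ae + be * P.e)) {qs : ℕ → ℂ} (hq : ∀ n, ‖qs n‖ ≤ 1)
    (lam c0 b : ℕ) {T : ℂ} (l : List TM) : ∀ (n k : ℕ) (C : TM) (acc : List (ℕ × TM))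
      (gs : List ℂ),
      List.Forall₂ (fun T n => Rep y 0 P T (2 ^ (m + z) * qs n)) l (List.range' n k) →
      Rep y 0 P C ((c0 : ℂ) * N.choose n * ((lam : ℂ) / N) ^ n) → RepL y 0 P acc gs →
      ‖T‖ ≤ 2 * ‖(c0 : ℂ) * N.choose (n + k) * ((lam : ℂ) / N) ^ (n + k)‖ →
      RepL y 0 P (coefL y c m z lam ae be (Nat.pow 2 (Nat.add m z)) b l n C acc)
        ((b * T) :: (((List.range' n k).reverse.map fun n =>
          (b : ℂ) * (c0 * N.choose n * ((lam : ℂ) / N) ^ n * qs n)) ++ gs)) := by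
  have hn : P.nil 0 1 := fun k h1 h2 => by omega
  induction l with
  | nil =>
    intro n k C acc gs hl hC hacc hT
    have hk : k = 0 := by
      have h1 := hl.length_eq
      simpa using h1.symm
    subst hk
    have h1 : coefL y c m z lam ae be (Nat.pow 2 (Nat.add m z)) b [] n C acc =
        (b, ⟨C.ok, true, 0, 0, Nat.mul 2 (Nat.add C.s C.e)⟩) :: acc := rfl
    rw [h1]
    refine List.Forall₂.cons ⟨T, rep_err fun hok => ?_, rfl⟩ hacc
    have h2 := hC.norm_le hP hok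
    have h3 : ((Nat.mul 2 (Nat.add C.s C.e) : ℕ) : ℝ) = 2 * ((Nat.add C.s C.e : ℕ) : ℝ) := by
      change ((2 * (Nat.add C.s C.e) : ℕ) : ℝ) = _
      push_cast
      rfl
    rw [h3]
    rw [add_zero] at hT
    linarith
  | cons Q t ih =>
    intro n k C acc gs hl hC hacc hT
    cases k with
    | zero => cases hl
    | succ k =>
      rw [List.range'_succ] at hl ⊢
      cases hl with
      | cons hQ ht =>
        have h1 : coefL y c m z lam ae be (Nat.pow 2 (Nat.add m z)) b (Q :: t) n C acc =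
            forceT (tight c (mulT c (Nat.add C.s C.e) (Nat.pow 2 (Nat.add m z)) C Q)) fun G =>
              forceT (tight c (mulS c C (mT y c m z lam ae be n))) fun C' =>
              force (Nat.succ n) fun n' =>
                coefL y c m z lam ae be (Nat.pow 2 (Nat.add m z)) b t n' C' ((b, G) :: acc) := rfl
        rw [h1, forceT_eq, forceT_eq, force_eq]
        have hG := tight_rep hc le_rfl (mulT_rep hc hP hn (k := 0) (k' := 0)
          (nx := Nat.add C.s C.e) (ny := Nat.pow 2 (Nat.add m z)) (by omega) hC hQ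
          (hC.norm_le hP) fun _ => by
            have e1 : ((Nat.pow 2 (Nat.add m z) : ℕ) : ℝ) = 2 ^ (m + z) := by
              change ((2 ^ (m + z) : ℕ) : ℝ) = _
              push_cast
              rfl
            rw [e1, norm_mul, norm_pow, Complex.norm_ofNat]
            exact mul_le_of_le_one_right (by positivity) (hq n))
        have hC' := tight_rep hc le_rfl (mulS_rep hc hP hn (k := 0) (k' := 0) (by omega) hC
          (mT_rep hc hD hP hN hε lam n))
        rw [t6b_step hN] at hC'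
        have h2 : (2 : ℂ) ^ (m + z) ≠ 0 := pow_ne_zero _ two_ne_zero
        have hG' : RepL y 0 P
            ((b, tight c (mulT c (Nat.add C.s C.e) (Nat.pow 2 (Nat.add m z)) C Q)) :: acc)
            (((b : ℂ) * (c0 * N.choose n * ((lam : ℂ) / N) ^ n * qs n)) :: gs) := by
          refine List.Forall₂.cons ⟨_, hG, ?_⟩ hacc
          simp only [smul_eq_mul]
          generalize (c0 : ℂ) * N.choose n * ((lam : ℂ) / N) ^ n = A
          field_simp
        have h3 := ih (n + 1) k _ _ _ ht hC' hG' (by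
          have e2 : n + 1 + k = n + (k + 1) := by omega
          rw [e2]
          exact hT)
        rw [List.reverse_cons, List.map_append, List.append_assoc]
        exact h3

/-- Invariant: C encloses c0 * N.choose n * (lam / N) ^ n (Nat.choose_succ_right_eq; both sides of
the recursion vanish for n ≥ N). -/
theorem coefL_rep (hc : CfOK c y (m + z) 0 0 1) (hD : 1 ≤ y.De) (hP : P.ok) {ae be N : ℕ}
    (hN : 0 < N) (hε : (2 : ℂ) ^ m = N * (ae + be * P.e)) {qs : ℕ → ℂ} (hq : ∀ n, ‖qs n‖ ≤ 1)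
    {l : List TM} {M : ℕ}
    (hl : List.Forall₂ (fun T n => Rep y 0 P T (2 ^ (m + z) * qs n)) l (List.range M))
    (lam c0 b : ℕ) {T : ℂ} (hT : ‖T‖ ≤ 2 * ‖(c0 : ℂ) * N.choose M * ((lam : ℂ) / N) ^ M‖) :
    RepL y 0 P (coefL y c m z lam ae be (Nat.pow 2 (Nat.add m z)) b l 0 (monT c0 0 0) [])
      ((b * T) :: (List.range M).reverse.map fun n =>
        (b : ℂ) * (c0 * N.choose n * ((lam : ℂ) / N) ^ n * qs n)) := by
  have h0 : Rep y 0 P (monT c0 0 0) ((c0 : ℂ) * N.choose 0 * ((lam : ℂ) / N) ^ 0) := by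
    have h1 := monT_const (y := y) (P := P) 0 c0
    simpa using h1
  have h2 := t6b_coef hc hD hP hN hε hq lam c0 b (T := T) l 0 M (monT c0 0 0) [] []
    (by rw [← List.range_eq_range']; exact hl) h0 List.Forall₂.nil (by rw [zero_add]; exact hT)
  rw [List.append_nil, ← List.range_eq_range'] at h2
  exact h2

end Pool.Agent.Sok.E
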