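import Pool.Agent.Sok.Defs

/-! Symmetries and counting arguments. -/

namespace Pool.Agent.Sok.E

open Pool.Agent.MP_97ada9_an Finset

/-- Reflect the sum: (N - n).choose 2 + (N - 1) * n = N.choose 2 + n.choose 2 for n ≤ N. -/
theorem pc_sym {q z : ℂ} {N : ℕ} (hq : q ≠ 0) (h : pc q N z = 0) :
    pc q N (q ^ (N - 1) * z)⁻¹ = 0 := by
  have hz := pc_ne h
  have key : q ^ N.choose 2 * z ^ N * pc q N (q ^ (N - 1) * z)⁻¹ = pc q N z := by
    unfold pc
    rw [mul_sum, ← sum_range_reflect (fun n => (N.choose n : ℂ) * q ^ n.choose 2 * z ^ n)]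
    refine sum_congr rfl fun n hn => ?_
    have hn' : n ≤ N := by have := mem_range.1 hn; omega
    obtain ⟨m, rfl⟩ := Nat.exists_eq_add_of_le hn'
    have e1 : n + m + 1 - 1 - n = m := by omega
    have e2 : m.choose 2 + (n + m - 1) * n = (n + m).choose 2 + n.choose 2 := by
      rw [choose_two_add]
      rcases n with _ | k
      · simp
      · have := two_choose (k + 1)
        have e3 : k + 1 + m - 1 = k + m := by omega
        rw [e3]
        nlinarith
    have e4 : q ^ m.choose 2 * q ^ ((n + m - 1) * n) = q ^ (n + m).choose 2 * q ^ n.choose 2 := by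
      rw [← pow_add, ← pow_add, e2]
    rw [e1, Nat.choose_symm_add (a := n) (b := m), inv_pow, mul_pow, ← pow_mul, pow_add z]
    have h1 : q ^ ((n + m - 1) * n) ≠ 0 := pow_ne_zero _ hq
    have h2 : z ^ n ≠ 0 := pow_ne_zero _ hz
    field_simp
    linear_combination -((n + m).choose m : ℂ) * e4
  rw [h] at key
  exact (mul_eq_zero.1 key).resolve_left (mul_ne_zero (pow_ne_zero _ hq) (pow_ne_zero _ hz))

theorem onePer_conj {q : ℂ} {N : ℕ} (h : OnePer q N) : OnePer ((starRingEnd ℂ) q) N := by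
  have key : ∀ z, pc q N ((starRingEnd ℂ) z) = (starRingEnd ℂ) (pc ((starRingEnd ℂ) q) N z) := by
    intro z
    simp [pc, map_sum]
  intro z w hz hw hn
  have := h _ _ (by rw [key, hz, map_zero]) (by rw [key, hw, map_zero])
    (by rw [Complex.norm_conj, Complex.norm_conj, hn])
  exact (starRingEnd ℂ).injective this

theorem a1_ne (τ : ℝ) : (1 : ℂ) - Complex.I * τ ≠ 0 := fun h => by
  simpa using congrArg Complex.re h

theorem a1_sub (τ : ℝ) : qq τ - 1 = 4 * Complex.I * τ / (1 - Complex.I * τ) ^ 2 := by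
  have := a1_ne τ
  rw [qq]
  field_simp
  ring

theorem a1_re_im (τ : ℝ) : (qq τ).re = (1 - 6 * τ ^ 2 + τ ^ 4) / (1 + τ ^ 2) ^ 2 ∧
    (qq τ).im = 4 * τ * (1 - τ ^ 2) / (1 + τ ^ 2) ^ 2 := by
  have h := a1_ne τ
  have h1 : (1 : ℝ) + τ ^ 2 ≠ 0 := by positivity
  have h2 : (1 : ℂ) + (τ : ℂ) ^ 2 ≠ 0 := by exact_mod_cast h1
  have e : qq τ = ((1 - 6 * τ ^ 2 + τ ^ 4) / (1 + τ ^ 2) ^ 2 : ℝ) +
      (4 * τ * (1 - τ ^ 2) / (1 + τ ^ 2) ^ 2 : ℝ) * Complex.I := by
    have e1 : (1 + Complex.I * τ) / (1 - Complex.I * τ) =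
        (1 + Complex.I * τ) ^ 2 / (1 + (τ : ℂ) ^ 2) := by
      rw [div_eq_div_iff h h2]
      linear_combination (τ : ℂ) ^ 2 * (1 + Complex.I * τ) * Complex.I_sq
    rw [qq, e1]
    push_cast
    field_simp
    linear_combination (6 * (τ : ℂ) ^ 2 + 4 * Complex.I * (τ : ℂ) ^ 3 +
      (Complex.I ^ 2 - 1) * (τ : ℂ) ^ 4) * Complex.I_sq
  rw [e]
  constructor
  · simp only [Complex.add_re, Complex.ofReal_re, Complex.mul_re, Complex.I_re, Complex.ofReal_im,
      Complex.I_im]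
    ring
  · simp only [Complex.add_im, Complex.ofReal_re, Complex.mul_im, Complex.I_re, Complex.ofReal_im,
      Complex.I_im]
    ring

theorem norm_qq (τ : ℝ) : ‖qq τ‖ = 1 := by
  have e : (1 : ℂ) - Complex.I * τ = (starRingEnd ℂ) (1 + Complex.I * τ) := by
    simp [sub_eq_add_neg]
  rw [qq, norm_pow, norm_div, e, Complex.norm_conj, div_self, one_pow]
  rw [← Complex.norm_conj, ← e]
  exact norm_ne_zero_iff.2 (a1_ne τ)

theorem qq_ne_one {τ : ℝ} (h0 : 0 < τ) : qq τ ≠ 1 := by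
  intro h
  have h1 := a1_sub τ
  rw [h, sub_self, eq_comm, div_eq_zero_iff] at h1
  rcases h1 with h1 | h1
  · simp [h0.ne'] at h1
  · exact pow_ne_zero 2 (a1_ne τ) h1

theorem qq_one : qq ((1 : ℝ) : ℂ) = -1 := by
  have h := a1_ne 1
  rw [qq, div_pow, div_eq_iff (pow_ne_zero 2 h)]
  push_cast
  linear_combination 2 * Complex.I_sq

/-- p - 1 = 2 i τ / (1 - i τ), q - 1 = (p - 1) (p + 1). -/
theorem norm_qq_sub_one {τ : ℝ} (h0 : 0 ≤ τ) : ‖qq τ - 1‖ ≤ 4 * τ := by
  rw [a1_sub, norm_div, norm_pow, norm_mul, norm_mul, Complex.norm_I, Complex.norm_real,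
    Real.norm_of_nonneg h0, Complex.sq_norm, Complex.normSq_apply]
  simp only [Complex.norm_ofNat, Complex.sub_re, Complex.one_re, Complex.mul_re, Complex.I_re,
    Complex.ofReal_re, Complex.I_im, Complex.ofReal_im, Complex.sub_im, Complex.one_im,
    Complex.mul_im]
  rw [div_le_iff₀ (by nlinarith [sq_nonneg τ])]
  nlinarith [mul_nonneg h0 (sq_nonneg τ)]

/-- Take τ = tan (arg q / 4), or use the intermediate value theorem on the real part. -/
theorem exists_qq {q : ℂ} (h1 : ‖q‖ = 1) (h2 : q ≠ 1) (h3 : 0 ≤ q.im) :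
    ∃ τ : ℝ, 0 < τ ∧ τ ≤ 1 ∧ q = qq τ := by
  have hn : ∀ z : ℂ, ‖z‖ = 1 → z.re ^ 2 + z.im ^ 2 = 1 := by
    intro z hz
    have := Complex.sq_norm z
    rw [hz, Complex.normSq_apply] at this
    linarith
  have hq := hn q h1
  have hc : Continuous fun τ : ℝ => (1 - 6 * τ ^ 2 + τ ^ 4) / (1 + τ ^ 2) ^ 2 :=
    Continuous.div (by fun_prop) (by fun_prop) fun τ => by positivity
  obtain ⟨τ, ⟨t0, t1⟩, ht⟩ := intermediate_value_Icc' zero_le_one hc.continuousOn
    (show q.re ∈ _ by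
      constructor
      · norm_num; nlinarith [sq_nonneg q.im]
      · norm_num; nlinarith [sq_nonneg q.im])
  have hre : (qq τ).re = q.re := by rw [(a1_re_im τ).1]; exact ht
  have him : 0 ≤ (qq τ).im := by
    rw [(a1_re_im τ).2]
    exact div_nonneg (mul_nonneg (by positivity) (by nlinarith)) (by positivity)
  have h4 := hn _ (norm_qq τ)
  have e : q = qq τ := by
    refine Complex.ext hre.symm ?_
    rw [hre] at h4
    exact (pow_left_inj₀ h3 him two_ne_zero).1 (by linarith)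
  refine ⟨τ, t0.lt_of_ne ?_, t1, e⟩
  rintro rfl
  exact h2 (by rw [e, qq]; simp)

/-- It is enough to treat the parameters qq τ (use exists_qq, onePer_conj). -/
theorem onePer_of_qq {N : ℕ} (h : ∀ τ : ℝ, 0 < τ → τ ≤ 1 → OnePer (qq τ) N) (q : ℂ)
    (h1 : ‖q‖ = 1) (h2 : q ≠ 1) : OnePer q N := by
  rcases le_total 0 q.im with h3 | h3
  · obtain ⟨τ, t0, t1, rfl⟩ := exists_qq h1 h2 h3
    exact h τ t0 t1
  · obtain ⟨τ, t0, t1, e⟩ := exists_qq (q := (starRingEnd ℂ) q) (by rw [Complex.norm_conj, h1])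
      (fun e => h2 ((starRingEnd ℂ).injective (by rw [e, map_one]))) (by simpa using h3)
    have := onePer_conj (h τ t0 t1)
    rwa [← e, Complex.conj_conj] at this

/-- n.choose 2 + (c + 1).choose 2 = ex c n + c * n. -/
theorem gc_eq (q : ℂ) (N c : ℕ) (z : ℂ) :
    gc q N c (q ^ c * z) = q ^ (c + 1).choose 2 * pc q N z := by
  unfold gc pc
  rw [mul_sum]
  refine sum_congr rfl fun n _ => ?_
  have e : ex c n + c * n = (c + 1).choose 2 + n.choose 2 := by
    unfold ex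
    split_ifs with h
    · obtain ⟨m, rfl⟩ := Nat.exists_eq_add_of_le h
      have e1 : n + m - n + 1 = m + 1 := by omega
      have := two_choose n
      rw [e1, add_assoc n m 1, choose_two_add n]
      nlinarith
    · obtain ⟨m, rfl⟩ := Nat.exists_eq_add_of_le (le_of_not_ge h)
      have e1 : c + m - c = m := by omega
      have := two_choose c
      rw [e1, choose_two_add, choose_two_add]
      simp only [Nat.choose_eq_zero_of_lt one_lt_two]
      nlinarith
  have e2 : q ^ ex c n * q ^ (c * n) = q ^ (c + 1).choose 2 * q ^ n.choose 2 := by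
    rw [← pow_add, ← pow_add, e]
  rw [mul_pow, ← pow_mul]
  linear_combination (N.choose n : ℂ) * z ^ n * e2

theorem a1_mono (ζ : ℕ → ℂ) (M : ℕ) (h : ∀ j, j + 1 < M → ‖ζ j‖ < ‖ζ (j + 1)‖) (i j : ℕ)
    (hij : i < j) (hj : j < M) : ‖ζ i‖ < ‖ζ j‖ := by
  induction j, hij using Nat.le_induction with
  | base => exact h i hj
  | succ k _ ih => exact (ih (by omega)).trans (h k hj)

theorem a1_card {q : ℂ} {N : ℕ} (A : Finset ℂ) (h : ∀ x ∈ A, pc q N x = 0) : A.card ≤ N := by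
  have hd : (pp q N).natDegree ≤ N := by
    refine Polynomial.natDegree_sum_le_of_forall_le _ _ fun n hn => ?_
    refine (Polynomial.natDegree_C_mul_X_pow_le _ _).trans ?_
    have := mem_range.1 hn
    omega
  refine le_trans (Polynomial.card_le_degree_of_subset_roots fun x hx => ?_) hd
  rw [Polynomial.mem_roots (pp_ne q N), Polynomial.IsRoot, pp_eval]
  exact h x hx

theorem a1_norm {q : ℂ} (hq : ‖q‖ = 1) (N : ℕ) (z : ℂ) : ‖(q ^ (N - 1) * z)⁻¹‖ = ‖z‖⁻¹ := by
  rw [norm_inv, norm_mul, norm_pow, hq, one_pow, one_mul]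

theorem a1_inj {q : ℂ} (hq : q ≠ 0) (N : ℕ) :
    Function.Injective fun z : ℂ => (q ^ (N - 1) * z)⁻¹ := fun _ _ h =>
  mul_left_cancel₀ (pow_ne_zero _ hq) (inv_injective h)

theorem a1_count {q : ℂ} {N : ℕ} (hq : ‖q‖ = 1) (A B : Finset ℂ)
    (hA : ∀ x ∈ A, pc q N x = 0 ∧ ‖x‖ < 1) (hB : ∀ x ∈ B, pc q N x = 0 ∧ ‖x‖ = 1) :
    2 * A.card + B.card ≤ N := by
  classical
  have hq0 : q ≠ 0 := fun e => by simp [e] at hq
  have hC : ∀ x ∈ A.image fun z : ℂ => (q ^ (N - 1) * z)⁻¹, pc q N x = 0 ∧ 1 < ‖x‖ := by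
    intro x hx
    obtain ⟨y, hy, rfl⟩ := mem_image.1 hx
    refine ⟨pc_sym hq0 (hA y hy).1, ?_⟩
    rw [a1_norm hq]
    exact (one_lt_inv₀ (norm_pos_iff.2 (pc_ne (hA y hy).1))).2 (hA y hy).2
  have h := a1_card (q := q) (N := N) ((A ∪ B) ∪ A.image fun z : ℂ => (q ^ (N - 1) * z)⁻¹)
    fun x hx => by
      rcases mem_union.1 hx with hx | hx
      · rcases mem_union.1 hx with hx | hx
        · exact (hA x hx).1
        · exact (hB x hx).1
      · exact (hC x hx).1
  rw [card_union_of_disjoint, card_union_of_disjoint, card_image_of_injective _ (a1_inj hq0 N)] at h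
  · omega
  · exact disjoint_left.2 fun x h1 h2 => (hA x h1).2.ne (hB x h2).2
  · refine disjoint_left.2 fun x h1 h2 => ?_
    have := (hC x h2).2
    rcases mem_union.1 h1 with h1 | h1
    · linarith [(hA x h1).2]
    · linarith [(hB x h1).2]

theorem a1_inside {q : ℂ} {N : ℕ} (hq : ‖q‖ = 1)
    (h : ∀ z w, pc q N z = 0 → pc q N w = 0 → ‖z‖ = ‖w‖ → ‖z‖ ≤ 1 → z = w) : OnePer q N := by
  have hq0 : q ≠ 0 := fun e => by simp [e] at hq
  intro z w hz hw hn
  rcases le_total ‖z‖ 1 with h1 | h1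
  · exact h z w hz hw hn h1
  · refine a1_inj hq0 N (h _ _ (pc_sym hq0 hz) (pc_sym hq0 hw) ?_ ?_)
    · rw [a1_norm hq, a1_norm hq, hn]
    · rw [a1_norm hq]
      exact inv_le_one_of_one_le₀ h1

/-- The polynomial pp q N has at most N distinct roots. The map z ↦ (q ^ (N - 1) * z)⁻¹ is an
injection from the roots inside the unit circle to the roots outside and conversely. Two distinct
roots on one circle would give at least 2 * (N / 2 + 1) > N roots. -/
theorem onePer_of_half {q : ℂ} {N : ℕ} (hq : ‖q‖ = 1) (ζ : ℕ → ℂ)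
    (h0 : ∀ j < N / 2, pc q N (ζ j) = 0) (h1 : ∀ j < N / 2, ‖ζ j‖ < 1)
    (h2 : ∀ j, j + 1 < N / 2 → ‖ζ j‖ < ‖ζ (j + 1)‖) : OnePer q N := by
  classical
  have hq0 : q ≠ 0 := fun e => by simp [e] at hq
  have hmono := a1_mono ζ (N / 2) h2
  have hinj : ∀ i < N / 2, ∀ j < N / 2, ‖ζ i‖ = ‖ζ j‖ → i = j := by
    intro i hi j hj e
    rcases lt_trichotomy i j with h | h | h
    · exact absurd e (hmono i j h hj).ne
    · exact h
    · exact absurd e (hmono j i h hi).ne'
  set T := (range (N / 2)).image ζ with hT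
  have hTc : T.card = N / 2 := by
    rw [hT, card_image_of_injOn, card_range]
    intro i hi j hj e
    exact hinj i (by simpa using hi) j (by simpa using hj) (by rw [e])
  have hTm : ∀ x ∈ T, pc q N x = 0 ∧ ‖x‖ < 1 := by
    intro x hx
    obtain ⟨j, hj, rfl⟩ := mem_image.1 hx
    exact ⟨h0 j (mem_range.1 hj), h1 j (mem_range.1 hj)⟩
  have inside : ∀ z w, pc q N z = 0 → pc q N w = 0 → ‖z‖ = ‖w‖ → ‖z‖ ≤ 1 → z = w := by
    intro z w hz hw hn hz1
    by_contra hne
    rcases hz1.lt_or_eq with hz1 | hz1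
    · have ext : ∀ x, pc q N x = 0 → ‖x‖ < 1 → x ∈ T := by
        intro x hx hx1
        by_contra hxT
        have := a1_count hq (insert x T) ∅ (fun y hy => by
          rcases mem_insert.1 hy with rfl | hy
          · exact ⟨hx, hx1⟩
          · exact hTm y hy) (by simp)
        rw [card_insert_of_notMem hxT, hTc] at this
        omega
      obtain ⟨i, hi, rfl⟩ := mem_image.1 (ext z hz hz1)
      obtain ⟨j, hj, rfl⟩ := mem_image.1 (ext w hw (hn ▸ hz1))
      exact hne (by rw [hinj i (mem_range.1 hi) j (mem_range.1 hj) hn])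
    · have := a1_count hq T {z, w} hTm (fun y hy => by
        rcases mem_insert.1 hy with rfl | hy
        · exact ⟨hz, hz1⟩
        · rw [mem_singleton.1 hy]; exact ⟨hw, hn ▸ hz1⟩)
      rw [card_pair hne, hTc] at this
      omega
  exact a1_inside hq inside

/-- r / (1 + r) ^ 2 increases on [0, 1]. -/
theorem var_mono {N : ℕ} {R r : ℝ} (hR : 0 ≤ R) (h : 7 * (1 + R) ^ 2 ≤ N * R) (h1 : R ≤ r)
    (h2 : r ≤ 1) : 7 ≤ N * r / (1 + r) ^ 2 := by
  have hr : 0 ≤ r := hR.trans h1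
  have hN : (0 : ℝ) ≤ N := Nat.cast_nonneg N
  rw [le_div_iff₀ (by positivity)]
  have h3 : 0 ≤ (r - R) * (1 - r * R) :=
    mul_nonneg (sub_nonneg.2 h1) (sub_nonneg.2 (mul_le_one₀ h2 hR (h1.trans h2)))
  have h4 := mul_le_mul_of_nonneg_right h (show 0 ≤ (1 + r) ^ 2 by positivity)
  have h5 := mul_nonneg hN h3
  refine le_of_mul_le_mul_right ?_ (show 0 < (1 + R) ^ 2 by positivity)
  nlinarith

/-- By pc_sym one may assume that the common modulus is at most one. -/
theorem onePer_of_inside (hA : Asym) {q : ℂ} {N : ℕ} (hN : 40 ≤ N) (hq : ‖q‖ = 1) (hq1 : q ≠ 1)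
    {R : ℝ} (hR : 0 ≤ R) (h7 : 7 * (1 + R) ^ 2 ≤ N * R)
    (h : ∀ z w, pc q N z = 0 → pc q N w = 0 → ‖z‖ = ‖w‖ → ‖z‖ < R → z = w) : OnePer q N := by
  refine a1_inside hq fun z w hz hw hn h1 => ?_
  rcases lt_or_ge ‖z‖ R with h2 | h2
  · exact h z w hz hw hn h2
  · exact hA N hN q z w hq hq1 hz hw hn (var_mono hR h7 h2 h1)

/-- The roots of modulus below that of ζ J are exactly ζ 0, ..., ζ (J - 1): these are J distinct
elements of a finite set with at most J elements. -/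
theorem concl {q : ℂ} {N J : ℕ} (ζ : ℕ → ℂ) (h0 : ∀ j ≤ J, pc q N (ζ j) = 0)
    (h2 : ∀ j < J, ‖ζ j‖ < ‖ζ (j + 1)‖) (hc : Cnt q N (J + 1) (ζ J)) :
    (∀ z w, pc q N z = 0 → pc q N w = 0 → ‖z‖ = ‖w‖ → ‖z‖ < ‖ζ J‖ → z = w) ∧
      ∀ j ≤ J, Cnt q N (j + 1) (ζ j) := by
  have hmono := a1_mono ζ (J + 1) fun j hj => h2 j (by omega)
  have hinj : ∀ i ≤ J, ∀ j ≤ J, ‖ζ i‖ = ‖ζ j‖ → i = j := by
    intro i hi j hj e
    rcases lt_trichotomy i j with h | h | h
    · exact absurd e (hmono i j h (by omega)).ne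
    · exact h
    · exact absurd e (hmono j i h (by omega)).ne'
  have hfin : {z | pc q N z = 0 ∧ ‖z‖ < ‖ζ J‖}.Finite :=
    (Polynomial.finite_setOfPred_isRoot (pp_ne q N)).subset fun z hz => by
      simpa [Polynomial.IsRoot, pp_eval] using hz.1
  have hcard : (ζ '' Set.Iio J).ncard = J := by
    rw [Set.InjOn.ncard_image, Set.ncard_Iio_nat]
    intro i hi j hj e
    exact hinj i (le_of_lt hi) j (le_of_lt hj) (by rw [e])
  have heq : ζ '' Set.Iio J = {z | pc q N z = 0 ∧ ‖z‖ < ‖ζ J‖} := by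
    refine Set.eq_of_subset_of_ncard_le ?_ ?_ hfin
    · rintro _ ⟨j, hj, rfl⟩
      exact ⟨h0 j (le_of_lt hj), hmono j J hj (by omega)⟩
    · have := hc.2
      omega
  have hmem : ∀ z, pc q N z = 0 → ‖z‖ < ‖ζ J‖ → ∃ j < J, ζ j = z := by
    intro z hz hz1
    have : z ∈ ζ '' Set.Iio J := by rw [heq]; exact ⟨hz, hz1⟩
    exact this
  refine ⟨fun z w hz hw hn h1 => ?_, fun j hj => ⟨h0 j hj, ?_⟩⟩
  · obtain ⟨i, hi, rfl⟩ := hmem z hz h1
    obtain ⟨j, hj, rfl⟩ := hmem w hw (hn ▸ h1)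
    rw [hinj i hi.le j hj.le hn]
  · have hle : ‖ζ j‖ ≤ ‖ζ J‖ := by
      rcases hj.lt_or_eq with h | h
      · exact (hmono j J h (by omega)).le
      · rw [h]
    have hsub : {z | pc q N z = 0 ∧ ‖z‖ < ‖ζ j‖} ⊆ ζ '' Set.Iio j := by
      rintro z ⟨hz, hz1⟩
      obtain ⟨i, hi, rfl⟩ := hmem z hz (hz1.trans_le hle)
      refine ⟨i, ?_, rfl⟩
      by_contra hij
      rcases (not_lt.1 (mt Set.mem_Iio.2 hij)).lt_or_eq with h | h
      · exact absurd hz1 (hmono j i h (by omega)).not_gt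
      · rw [h] at hz1; exact lt_irrefl _ hz1
    have h3 := Set.ncard_le_ncard hsub ((Set.finite_Iio j).image ζ)
    have h4 := Set.ncard_image_le (f := ζ) (Set.finite_Iio j)
    rw [Set.ncard_Iio_nat] at h4
    omega

end Pool.Agent.Sok.E

/-! Existence of roots near approximate roots, and orders of vanishing at q = 1. -/

namespace Pool.Agent.Sok.E

open Pool.Agent.MP_97ada9_an Finset Asymptotics Filter Topology

/-- For a polynomial p of degree at most N with p w ≠ 0, p' w / p w is the sum of (w - root)⁻¹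
(Polynomial.Splits.eval_derivative_div_eval_of_ne_zero or similar); take the nearest root. -/
theorem near_root (a : ℕ → ℂ) (N : ℕ) (w : ℂ)
    (h0 : ∑ n ∈ range (N + 1), a n * (n * w ^ (n - 1)) ≠ 0) :
    ∃ ζ : ℂ, ∑ n ∈ range (N + 1), a n * ζ ^ n = 0 ∧
      ‖ζ - w‖ * ‖∑ n ∈ range (N + 1), a n * (n * w ^ (n - 1))‖ ≤
        N * ‖∑ n ∈ range (N + 1), a n * w ^ n‖ := by
  set p : Polynomial ℂ := ∑ n ∈ range (N + 1), Polynomial.C (a n) * Polynomial.X ^ n with hp
  have h1 : ∀ z, p.eval z = ∑ n ∈ range (N + 1), a n * z ^ n := fun z => by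
    rw [hp, Polynomial.eval_finsetSum]; simp
  have h2 : p.derivative.eval w = ∑ n ∈ range (N + 1), a n * (n * w ^ (n - 1)) := by
    rw [hp, Polynomial.derivative_sum, Polynomial.eval_finsetSum]
    refine sum_congr rfl fun n _ => ?_
    rw [Polynomial.derivative_C_mul_X_pow]
    simp [mul_assoc]
  have h3 : p.natDegree ≤ N := Polynomial.natDegree_sum_le_of_forall_le _ _ fun n hn =>
    (Polynomial.natDegree_C_mul_X_pow_le _ _).trans (Nat.lt_succ_iff.1 (mem_range.1 hn))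
  rw [← h2] at h0 ⊢
  simp only [← h1]
  by_cases hw : p.eval w = 0
  · exact ⟨w, hw, by simp [hw]⟩
  have h4 := (IsAlgClosed.splits p).eval_derivative_div_eval_of_ne_zero hw
  have h5 : p.roots ≠ 0 := fun h => by
    rw [h] at h4
    simp only [Multiset.map_zero, Multiset.sum_zero, div_eq_zero_iff] at h4
    exact h4.elim h0 hw
  obtain ⟨ζ, hζ, hmin⟩ := Multiset.exists_min_image (fun z => ‖w - z‖) h5
  have h6 : p.eval ζ = 0 := (Polynomial.mem_roots'.1 hζ).2
  have h7 : 0 < ‖w - ζ‖ := norm_pos_iff.2 (sub_ne_zero.2 fun h => hw (h ▸ h6))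
  refine ⟨ζ, h6, ?_⟩
  have h8 : ‖p.derivative.eval w / p.eval w‖ ≤ N * (1 / ‖w - ζ‖) := by
    rw [h4]
    refine (norm_multiset_sum_le _).trans ?_
    refine (Multiset.sum_le_card_nsmul _ (1 / ‖w - ζ‖) fun x hx => ?_).trans ?_
    · simp only [Multiset.map_map, Multiset.mem_map, Function.comp_apply] at hx
      obtain ⟨z, hz, rfl⟩ := hx
      rw [norm_div, norm_one]
      exact one_div_le_one_div_of_le h7 (hmin z hz)
    · rw [Multiset.card_map, Multiset.card_map, nsmul_eq_mul]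
      refine mul_le_mul_of_nonneg_right ?_ (by positivity)
      exact_mod_cast (Polynomial.card_roots' p).trans h3
  rw [norm_div, mul_one_div, div_le_div_iff₀ (norm_pos_iff.2 hw) h7] at h8
  rw [norm_sub_rev, mul_comm]
  exact h8

/-- Maximum principle for the reciprocal of f. -/
theorem exists_root {f : ℂ → ℂ} (hf : Differentiable ℂ f) {r : ℝ} (hr : 0 < r)
    (h : ∀ η : ℂ, ‖η‖ = r → ‖f 0‖ < ‖f η‖) : ∃ η : ℂ, ‖η‖ ≤ r ∧ f η = 0 := by
  by_contra hc
  push Not at hc
  have hd : DiffContOnCl ℂ (fun z => (f z)⁻¹) (Metric.ball 0 r) := by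
    refine DifferentiableOn.diffContOnCl ?_
    rw [closure_ball _ hr.ne']
    exact hf.differentiableOn.inv fun z hz => hc z (mem_closedBall_zero_iff.1 hz)
  obtain ⟨z, hz, hmax⟩ := Complex.exists_mem_frontier_isMaxOn_norm Metric.isBounded_ball
    ⟨0, Metric.mem_ball_self hr⟩ hd
  rw [frontier_ball _ hr.ne', mem_sphere_zero_iff_norm] at hz
  have h1 : ‖(f 0)⁻¹‖ ≤ ‖(f z)⁻¹‖ := hmax (subset_closure (Metric.mem_ball_self hr))
  have h2 : 0 < ‖f 0‖ := norm_pos_iff.2 (hc 0 (by simpa using hr.le))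
  have h3 := h z hz
  rw [norm_inv, norm_inv, inv_le_inv₀ h2 (h2.trans h3)] at h1
  linarith

/-- Complex.dist_le_mul_div_pow_of_mapsTo_ball_of_isLittleO (cases m = 0, m = n + 1; F 0 = 0). -/
theorem schwarz_pow {F : ℂ → ℂ} (hd : DifferentiableOn ℂ F (Metric.ball 0 1)) {m : ℕ}
    (hO : F =O[𝓝 0] fun t => t ^ m) {M : ℝ} (hM : ∀ t : ℂ, ‖t‖ ≤ 1 → ‖F t‖ ≤ M) {t : ℂ}
    (ht : ‖t‖ ≤ 1) : ‖F t‖ ≤ M * ‖t‖ ^ m := by
  rcases ht.eq_or_lt with h1 | h1
  · rw [h1, one_pow, mul_one]; exact hM t ht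
  rcases m with _ | n
  · rw [pow_zero, mul_one]; exact hM t ht
  have h0 : F 0 = 0 := hO.eq_zero_imp.self_of_nhds (by simp)
  have h2 : (fun w => F w - F 0) =o[𝓝 (0 : ℂ)] fun w => ‖w - 0‖ ^ n := by
    simp only [h0, sub_zero, ← norm_pow]
    exact (hO.trans_isLittleO (isLittleO_pow_pow (Nat.lt_succ_self n))).norm_right
  have h3 := Complex.dist_le_mul_div_pow_of_mapsTo_ball_of_isLittleO (R₂ := M) hd
    (fun z hz => by
      rw [h0, mem_closedBall_zero_iff]
      exact hM z (mem_ball_zero_iff.1 hz).le) h2 (mem_ball_zero_iff.2 h1)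
  simpa [h0] using h3

/-- Two step induction on N, for all A at once:
pc q (N + 2) z = (1 + z) * pc q (N + 1) z + z * (pc q (N + 1) (q * z) - pc q (N + 1) z) by pc_succ,
and the mean value inequality on the segment from z to q * z with pc_deriv. -/
theorem pc_small (N : ℕ) (A : ℝ) (hA : 0 ≤ A) : ∃ C : ℝ, 0 ≤ C ∧ ∀ u : ℝ, 0 ≤ u → u ≤ 1 →
    ∀ q z : ℂ, ‖q - 1‖ ≤ A * u ^ 2 → ‖z + 1‖ ≤ A * u → ‖pc q N z‖ ≤ C * u ^ N := by
  induction N using Nat.twoStepInduction generalizing A with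
  | zero => exact ⟨1, zero_le_one, fun u _ _ q z _ _ => by simp [pc]⟩
  | one =>
    refine ⟨A, hA, fun u _ _ q z _ hz => ?_⟩
    have : pc q 1 z = z + 1 := by simp [pc, sum_range_succ, add_comm]
    rwa [this, pow_one]
  | more N ih0 ih1 =>
    obtain ⟨C0, hC0, h0⟩ := ih0 (A * (1 + A) ^ 2 + A * (1 + A) + A) (by positivity)
    obtain ⟨C1, hC1, h1⟩ := ih1 A hA
    refine ⟨A * C1 + (1 + A) * ((N + 1) * C0 * (A * (1 + A))), by positivity,
      fun u hu hu1 q z hq hz => ?_⟩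
    have hu2 : u ^ 2 ≤ u := by nlinarith
    have hz1 : ‖z‖ ≤ 1 + A := by
      have := norm_sub_le (z + 1) 1
      rw [add_sub_cancel_right, norm_one] at this
      nlinarith
    have hqz : ‖q * z - z‖ ≤ A * (1 + A) * u ^ 2 := by
      rw [← sub_one_mul, norm_mul]
      calc ‖q - 1‖ * ‖z‖ ≤ A * u ^ 2 * (1 + A) := mul_le_mul hq hz1 (norm_nonneg _) (by positivity)
        _ = _ := by ring
    have hb : ∀ y ∈ Metric.closedBall z (A * (1 + A) * u ^ 2),
        ‖((N : ℂ) + 1) * pc q N (q * y)‖ ≤ (N + 1) * C0 * u ^ N := by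
      intro y hy
      rw [mem_closedBall_iff_norm] at hy
      have a0 : A * (1 + A) * u ^ 2 ≤ A * (1 + A) * u :=
        mul_le_mul_of_nonneg_left hu2 (by positivity)
      have a1 : ‖y‖ ≤ (1 + A) ^ 2 := by
        have := norm_add_le (y - z) z
        rw [sub_add_cancel] at this
        have a2 : A * (1 + A) * u ≤ A * (1 + A) := mul_le_of_le_one_right (by positivity) hu1
        nlinarith
      have a2 : ‖(q - 1) * y‖ ≤ A * (1 + A) ^ 2 * u := by
        rw [norm_mul]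
        calc ‖q - 1‖ * ‖y‖ ≤ A * u * (1 + A) ^ 2 :=
              mul_le_mul (hq.trans (mul_le_mul_of_nonneg_left hu2 hA)) a1 (norm_nonneg _)
                (by positivity)
          _ = _ := by ring
      have a3 : ‖q * y + 1‖ ≤ (A * (1 + A) ^ 2 + A * (1 + A) + A) * u := by
        have e : q * y + 1 = (q - 1) * y + (y - z) + (z + 1) := by ring
        rw [e]
        have := norm_add₃_le (a := (q - 1) * y) (b := y - z) (c := z + 1)
        linarith
      have a4 := h0 u hu hu1 q (q * y) (hq.trans (mul_le_mul_of_nonneg_right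
        (by nlinarith [mul_nonneg hA (sq_nonneg (1 + A)), mul_nonneg hA hA]) (by positivity))) a3
      have a5 : ‖(N : ℂ) + 1‖ = N + 1 := by exact_mod_cast Complex.norm_natCast (N + 1)
      rw [norm_mul, a5, mul_assoc]
      exact mul_le_mul_of_nonneg_left a4 (by positivity)
    have hmv := (convex_closedBall z (A * (1 + A) * u ^ 2)).norm_image_sub_le_of_norm_hasDerivWithin_le
      (f := pc q (N + 1)) (fun y _ => (pc_deriv q N y).hasDerivWithinAt) hb
      (Metric.mem_closedBall_self (by positivity)) (mem_closedBall_iff_norm.2 hqz)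
    have e : pc q (N + 2) z =
        (z + 1) * pc q (N + 1) z + z * (pc q (N + 1) (q * z) - pc q (N + 1) z) := by
      rw [pc_succ q (N + 1)]; ring
    have b1 : ‖(z + 1) * pc q (N + 1) z‖ ≤ A * u * (C1 * u ^ (N + 1)) := by
      rw [norm_mul]
      exact mul_le_mul hz (h1 u hu hu1 q z hq hz) (norm_nonneg _) (by positivity)
    have b2 : ‖z * (pc q (N + 1) (q * z) - pc q (N + 1) z)‖ ≤
        (1 + A) * ((N + 1) * C0 * u ^ N * (A * (1 + A) * u ^ 2)) := by
      rw [norm_mul]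
      exact mul_le_mul hz1 (hmv.trans (mul_le_mul_of_nonneg_left hqz (by positivity)))
        (norm_nonneg _) (by positivity)
    rw [e]
    refine (norm_add_le _ _).trans ((add_le_add b1 b2).trans (le_of_eq ?_))
    ring

theorem a2_pc (N : ℕ) {q z : ℂ → ℂ} (hq : (fun t => q t - 1) =O[𝓝 0] fun t => t ^ 2)
    (hz : (fun t => z t + 1) =O[𝓝 0] fun t => t) :
    (fun t => pc (q t) N (z t)) =O[𝓝 0] fun t => t ^ N := by
  obtain ⟨A, hA, h1⟩ := hq.exists_pos
  obtain ⟨B, hB, h2⟩ := hz.exists_pos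
  obtain ⟨C, -, h⟩ := pc_small N (A + B) (by positivity)
  refine IsBigO.of_bound C ?_
  filter_upwards [h1.bound, h2.bound, Metric.closedBall_mem_nhds (0 : ℂ) one_pos] with t a1 a2 a3
  rw [norm_pow] at a1 ⊢
  refine h _ (norm_nonneg _) (mem_closedBall_zero_iff.1 a3) _ _ ?_ ?_
  · nlinarith [mul_nonneg hB.le (sq_nonneg ‖t‖)]
  · nlinarith [mul_nonneg hA.le (norm_nonneg t)]

theorem a2_mul {q w φ : ℂ → ℂ} (hq : (fun t => q t - 1) =O[𝓝 0] fun t => t ^ 2)
    (hw : (fun t => w t + 1) =O[𝓝 0] fun t => t) (hφ : DifferentiableAt ℂ φ 1) (h1 : φ 1 = 1) :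
    (fun t => φ (q t) * w t + 1) =O[𝓝 0] fun t => t := by
  have h2 : (fun t : ℂ => t ^ 2) =O[𝓝 0] fun t => t := by
    simpa using (isLittleO_pow_pow (𝕜 := ℂ) one_lt_two).isBigO
  have h3 : Tendsto (fun t : ℂ => t) (𝓝 0) (𝓝 0) := tendsto_id
  have h4 : Tendsto q (𝓝 0) (𝓝 1) := tendsto_sub_nhds_zero_iff.1 ((hq.trans h2).trans_tendsto h3)
  have h5 : (fun t => φ (q t) - 1) =O[𝓝 0] fun t => t := by
    have := (hφ.isBigO_sub.comp_tendsto h4).trans (hq.trans h2)
    simpa [Function.comp_def, h1] using this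
  have h6 : Tendsto w (𝓝 0) (𝓝 (-1)) := by
    have := (hw.trans_tendsto h3).sub_const 1
    simpa using this
  have h7 := ((h5.mul (h6.isBigO_one ℂ)).congr_right fun t => mul_one t).add hw
  exact h7.congr_left fun t => by ring

theorem a2_gd (q : ℂ) (N c : ℕ) (w : ℂ) : HasDerivAt (gc q N c) (gd q N c w) w :=
  HasDerivAt.fun_sum fun n _ => (hasDerivAt_pow n w).const_mul ((N.choose n : ℂ) * q ^ ex c n)

/-- With z = w / q ^ c use gc_eq, its derivative (pc_deriv; gd is the derivative of gc) and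
pc_small with u = ‖t‖. -/
theorem herm_bigO (N c : ℕ) {q w : ℂ → ℂ} (hq : (fun t => q t - 1) =O[𝓝 0] fun t => t ^ 2)
    (hw : (fun t => w t + 1) =O[𝓝 0] fun t => t) :
    ((fun t => gc (q t) N c (w t)) =O[𝓝 0] fun t => t ^ N) ∧
      ((fun t => gd (q t) N c (w t)) =O[𝓝 0] fun t => t ^ (N - 1)) := by
  have h4 : Tendsto q (𝓝 0) (𝓝 1) := tendsto_sub_nhds_zero_iff.1 (hq.trans_tendsto (by
    simpa using ((continuous_pow 2).tendsto (0 : ℂ))))
  have h0 : ∀ᶠ t in 𝓝 0, q t ≠ 0 := h4.eventually_ne one_ne_zero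
  have hd : DifferentiableAt ℂ (fun x : ℂ => (x ^ c)⁻¹) 1 :=
    (differentiableAt_id.pow c).inv (by simp)
  have hz := a2_mul hq hw hd (by simp)
  have hz' := a2_mul (φ := fun x => x * (x ^ c)⁻¹) hq hw (differentiableAt_id.mul hd) (by simp)
  constructor
  · have h1 := ((h4.pow ((c + 1).choose 2)).isBigO_one ℂ).mul (a2_pc N hq hz)
    refine h1.congr' ?_ (Eventually.of_forall fun t => one_mul _)
    filter_upwards [h0] with t ht
    rw [← gc_eq, mul_inv_cancel_left₀ (pow_ne_zero c ht)]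
  · rcases N with _ | M
    · have : (fun t => gd (q t) 0 c (w t)) = fun _ => 0 := by
        funext t; simp [gd]
      rw [this]
      exact isBigO_zero _ _
    have h2 : Tendsto (fun t => q t ^ (c + 1).choose 2 * ((M : ℂ) + 1) * (q t ^ c)⁻¹) (𝓝 0) _ :=
      ((h4.pow _).mul_const _).mul ((h4.pow c).inv₀ (by simp))
    have h1 := (h2.isBigO_one ℂ).mul (a2_pc M hq hz')
    refine h1.congr' ?_ (Eventually.of_forall fun t => by simp)
    filter_upwards [h0] with t ht
    have hc := pow_ne_zero c ht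
    set z := (q t ^ c)⁻¹ * w t with hzd
    have e1 : q t ^ c * z = w t := mul_inv_cancel_left₀ hc _
    have d1 := (a2_gd (q t) (M + 1) c (q t ^ c * z)).comp z
      ((hasDerivAt_id z).const_mul (q t ^ c))
    have d2 := (pc_deriv (q t) M z).const_mul (q t ^ (c + 1).choose 2)
    have e2 : (gc (q t) (M + 1) c ∘ HMul.hMul (q t ^ c)) =
        fun y => q t ^ (c + 1).choose 2 * pc (q t) (M + 1) y := funext fun y => gc_eq _ _ _ _
    rw [e2] at d1
    have e3 := d1.unique d2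
    rw [e1, mul_one] at e3
    rw [mul_assoc (q t), (eq_mul_inv_iff_mul_eq₀ hc).2 e3]
    ring

end Pool.Agent.Sok.E

/-! A zero free disc for q near one, and the roots for q = -1. -/

namespace Pool.Agent.Sok.E

open Pool.Agent.MP_97ada9_an Finset

/-- The partition function of a list of weights, all scaled by t. -/
noncomputable def a3_F (q : ℂ) : List ℂ → ℂ → ℂ
  | [], _ => 1
  | x :: l, t => a3_F q l t + t * x * a3_F q l (q * t)

theorem a3_cons (q x : ℂ) (l : List ℂ) (t : ℂ) :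
    a3_F q (x :: l) t = a3_F q l t + t * x * a3_F q l (q * t) := rfl

theorem a3_map (q c : ℂ) (l : List ℂ) (t : ℂ) :
    a3_F q (l.map (c * ·)) t = a3_F q l (c * t) := by
  induction l generalizing t with
  | nil => rfl
  | cons x l ih =>
    rw [List.map_cons, a3_cons, a3_cons, ih, ih, mul_left_comm c q t]
    ring

theorem a3_perm (q : ℂ) {l m : List ℂ} (h : l.Perm m) (t : ℂ) : a3_F q l t = a3_F q m t := by
  induction h generalizing t with
  | nil => rfl
  | cons x _ ih => rw [a3_cons, a3_cons, ih, ih]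
  | swap x y l =>
    simp only [a3_cons]
    ring
  | trans _ _ h1 h2 => rw [h1, h2]

theorem a3_rep (q z : ℂ) (N : ℕ) (t : ℂ) : a3_F q (List.replicate N z) t = pc q N (t * z) := by
  induction N generalizing t with
  | zero => simp [a3_F, pc]
  | succ N ih => rw [List.replicate_succ, a3_cons, ih, ih, pc_succ, mul_assoc q]

theorem a3_ind {q : ℂ} {N : ℕ} {δ b R : ℝ} (hq : ‖q‖ ≤ 1) (hδ : ‖q - 1‖ ≤ δ) (hb : 0 < b)
    (hR : R * (1 + δ * b) ^ N * (1 + b) ≤ b) (n : ℕ) (hn : n ≤ N) :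
    ∀ l : List ℂ, l.length = n → (∀ x ∈ l, ‖x‖ ≤ R) →
      a3_F q l 1 ≠ 0 ∧ ‖a3_F q (l.map (q * ·)) 1‖ ≤ (1 + δ * b) ^ n * ‖a3_F q l 1‖ := by
  have hδ0 : 0 ≤ δ := (norm_nonneg _).trans hδ
  have h1 : 1 ≤ 1 + δ * b := le_add_of_nonneg_right (mul_nonneg hδ0 hb.le)
  induction n with
  | zero =>
    intro l hl _
    obtain rfl := List.length_eq_zero_iff.1 hl
    exact ⟨one_ne_zero, by rw [pow_zero, one_mul]; exact le_rfl⟩
  | succ n ih =>
    replace ih := ih (Nat.le_of_succ_le hn)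
    have step : ∀ (x : ℂ) (m : List ℂ), m.length = n → ‖x‖ ≤ R → (∀ y ∈ m, ‖y‖ ≤ R) →
        a3_F q (x :: m) 1 ≠ 0 ∧
          ‖a3_F q (q * x :: m) 1‖ ≤ (1 + δ * b) * ‖a3_F q (x :: m) 1‖ := by
      intro x m hm hx hy
      obtain ⟨i1, i2⟩ := ih m hm hy
      rw [a3_map] at i2
      have e1 : a3_F q (q * x :: m) 1 =
          a3_F q (x :: m) 1 + (q - 1) * (x * a3_F q m (q * 1)) := by
        rw [a3_cons, a3_cons]; ring
      have e2 : a3_F q m 1 = a3_F q (x :: m) 1 - x * a3_F q m (q * 1) := by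
        rw [a3_cons]; ring
      have hR0 : 0 ≤ R := (norm_nonneg x).trans hx
      have u1 : ‖x * a3_F q m (q * 1)‖ * (1 + b) ≤ b * ‖a3_F q m 1‖ := by
        rw [norm_mul]
        calc _ ≤ R * ((1 + δ * b) ^ N * ‖a3_F q m 1‖) * (1 + b) :=
              mul_le_mul_of_nonneg_right (mul_le_mul hx (i2.trans (mul_le_mul_of_nonneg_right
                (pow_le_pow_right₀ h1 (Nat.le_of_succ_le hn)) (norm_nonneg _)))
                (norm_nonneg _) hR0) (by linarith only [hb])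
          _ = R * (1 + δ * b) ^ N * (1 + b) * ‖a3_F q m 1‖ := by ring
          _ ≤ _ := mul_le_mul_of_nonneg_right hR (norm_nonneg _)
      have u2 : ‖a3_F q m 1‖ ≤ ‖a3_F q (x :: m) 1‖ + ‖x * a3_F q m (q * 1)‖ := by
        have := norm_sub_le (a3_F q (x :: m) 1) (x * a3_F q m (q * 1))
        rwa [← e2] at this
      have u3 : ‖x * a3_F q m (q * 1)‖ ≤ b * ‖a3_F q (x :: m) 1‖ := by
        linarith only [u1, mul_le_mul_of_nonneg_left u2 hb.le]
      refine ⟨fun h0 => i1 ?_, ?_⟩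
      · rw [h0, norm_zero] at u2 u3
        exact norm_le_zero_iff.1 (by linarith only [u2, u3])
      · rw [e1]
        refine (norm_add_le _ _).trans ?_
        rw [norm_mul]
        linarith only [mul_le_mul hδ u3 (norm_nonneg _) hδ0]
    have inner : ∀ l1 l2 : List ℂ, (l1 ++ l2).length = n + 1 → (∀ x ∈ l1 ++ l2, ‖x‖ ≤ R) →
        ‖a3_F q (l1.map (q * ·) ++ l2) 1‖ ≤
          (1 + δ * b) ^ l1.length * ‖a3_F q (l1 ++ l2) 1‖ := by
      intro l1
      induction l1 with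
      | nil =>
        intro l2 _ _
        rw [List.length_nil, pow_zero, one_mul]
        exact le_rfl
      | cons x l1 ih1 =>
        intro l2 hl hx
        have p1 : (l1 ++ x :: l2).Perm (x :: l1 ++ l2) := List.perm_middle
        have a1 := ih1 (x :: l2) (p1.length_eq.trans hl) fun y hy => hx y (p1.subset hy)
        rw [a3_perm q p1, a3_perm q List.perm_middle] at a1
        have a2 := (step x (l1.map (q * ·) ++ l2) (by simpa using hl)
          (hx x List.mem_cons_self) fun y hy => ?_).2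
        · rw [List.length_cons, pow_succ', mul_assoc]
          exact a2.trans (mul_le_mul_of_nonneg_left a1 (zero_le_one.trans h1))
        · rcases List.mem_append.1 hy with hy | hy
          · obtain ⟨w, hw, rfl⟩ := List.mem_map.1 hy
            rw [norm_mul]
            exact (mul_le_of_le_one_left (norm_nonneg _) hq).trans
              (hx w (List.mem_cons_of_mem _ (List.mem_append_left _ hw)))
          · exact hx y (List.mem_cons_of_mem _ (List.mem_append_right _ hy))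
    intro l hl hx
    constructor
    · obtain ⟨x, m, rfl⟩ := List.exists_cons_of_length_eq_add_one hl
      exact (step x m (by simpa using hl) (hx x List.mem_cons_self)
        fun y hy => hx y (List.mem_cons_of_mem _ hy)).1
    · have := inner l [] (by rwa [List.append_nil]) (by rwa [List.append_nil])
      rwa [List.append_nil, List.append_nil, hl] at this

/-- A zero free disc, by a Dobrushin type induction. -/
theorem zero_free {q z : ℂ} {N : ℕ} {δ b R : ℝ} (hq : ‖q‖ ≤ 1) (hδ : ‖q - 1‖ ≤ δ) (hb : 0 < b)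
    (hR : R * (1 + δ * b) ^ N * (1 + b) ≤ b) (hz : ‖z‖ ≤ R) : pc q N z ≠ 0 := by
  have := (a3_ind hq hδ hb hR N le_rfl (List.replicate N z) List.length_replicate
    fun x hx => by rwa [List.eq_of_mem_replicate hx]).1
  rwa [a3_rep, one_mul] at this

/-- For q near one there is no root of small variance. -/
theorem onePer_small (hA : Asym) {N N0 : ℕ} (h0 : 40 ≤ N0) (hN : N0 ≤ N) {τ τa Z β : ℝ}
    (h1 : 0 < τ) (h2 : τ ≤ τa) (hZ : 0 ≤ Z) (hβ : 0 < β) (h3 : 4 * τa * β ≤ 64)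
    (h4 : Z * (1 + β / N0) ≤ β * (1 - 4 * τa * β / 64) ^ 64) (h5 : 7 * (1 + Z / N0) ^ 2 ≤ Z) :
    OnePer (qq τ) N := by
  have n0 : (0 : ℝ) < N0 := by exact_mod_cast (by omega : 0 < N0)
  have n1 : (N0 : ℝ) ≤ N := by exact_mod_cast hN
  have n2 : (0 : ℝ) < N := n0.trans_le n1
  have z0 : 0 ≤ Z / N := div_nonneg hZ n2.le
  have x0 : 0 ≤ 4 * τa * β := mul_nonneg (by linarith only [h1, h2]) hβ.le
  refine onePer_of_inside hA (h0.trans hN) (norm_qq τ) (qq_ne_one h1) z0 ?_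
    fun z w hz _ _ hR => absurd hz (zero_free (δ := 4 * τa) (norm_qq τ).le
      ((norm_qq_sub_one h1.le).trans (by linarith only [h2])) (div_pos hβ n2) ?_ hR.le)
  · rw [mul_div_cancel₀ _ n2.ne']
    refine le_trans (mul_le_mul_of_nonneg_left (pow_le_pow_left₀ (by linarith only [z0]) ?_ 2)
      (by norm_num)) h5
    linarith only [div_le_div_of_nonneg_left hZ n0 n1]
  · have a1 : (1 + 4 * τa * (β / N)) ^ N ≤ Real.exp (4 * τa * β) := by
      have e : 4 * τa * β = N * (4 * τa * (β / N)) := by field_simp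
      rw [e, Real.exp_nat_mul]
      have := mul_nonneg (by linarith only [h1, h2] : 0 ≤ 4 * τa) (div_pos hβ n2).le
      exact pow_le_pow_left₀ (by linarith only [this])
        (by linarith only [Real.add_one_le_exp (4 * τa * (β / N))]) N
    have a2 : (1 - 4 * τa * β / 64) ^ 64 ≤ Real.exp (-(4 * τa * β)) := by
      have := Real.one_sub_div_pow_le_exp_neg (n := 64) (t := 4 * τa * β) (by exact_mod_cast h3)
      exact_mod_cast this
    have a3 : Z * (1 + β / N) ≤ β * Real.exp (-(4 * τa * β)) :=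
      (mul_le_mul_of_nonneg_left
        (by linarith only [div_le_div_of_nonneg_left hβ.le n0 n1]) hZ).trans
        (h4.trans (mul_le_mul_of_nonneg_left a2 hβ.le))
    have b0 : 0 ≤ 1 + β / N := by linarith only [div_pos hβ n2]
    calc _ ≤ Z / N * Real.exp (4 * τa * β) * (1 + β / N) :=
          mul_le_mul_of_nonneg_right (mul_le_mul_of_nonneg_left a1 z0) b0
      _ = Z * (1 + β / N) * Real.exp (4 * τa * β) / N := by ring
      _ ≤ β * Real.exp (-(4 * τa * β)) * Real.exp (4 * τa * β) / N :=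
          div_le_div_of_nonneg_right (mul_le_mul_of_nonneg_right a3 (Real.exp_pos _).le) n2.le
      _ = _ := by rw [mul_assoc, ← Real.exp_add, neg_add_cancel, Real.exp_zero, mul_one]

theorem a3_neg_one (N : ℕ) (z : ℂ) : 2 * pc (-1) N z =
    (1 - Complex.I) * (1 + Complex.I * z) ^ N + (1 + Complex.I) * (1 - Complex.I * z) ^ N := by
  induction N generalizing z with
  | zero => simp [pc]; ring
  | succ N ih =>
    have h1 := ih z
    have h2 := ih (-1 * z)
    rw [show 1 + Complex.I * (-1 * z) = 1 - Complex.I * z by ring,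
      show 1 - Complex.I * (-1 * z) = 1 + Complex.I * z by ring] at h2
    rw [pc_succ, pow_succ, pow_succ]
    linear_combination h1 + z * h2 +
      (z * (1 + Complex.I * z) ^ N + z * (1 - Complex.I * z) ^ N) * Complex.I_mul_I

theorem a3_arctan (x : ℝ) : |Real.arctan x| ≤ |x| := by
  have key : ∀ y : ℝ, 0 ≤ y → Real.arctan y ≤ y := fun y hy => by
    have := Real.le_tan (Real.arctan_nonneg.2 hy) (Real.arctan_lt_pi_div_two y)
    rwa [Real.tan_arctan] at this
  rcases le_total 0 x with h | h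
  · rw [abs_of_nonneg h, abs_of_nonneg (Real.arctan_nonneg.2 h)]
    exact key x h
  · rw [abs_of_nonpos h, abs_of_nonpos (Real.arctan_le_zero.2 h), ← Real.arctan_neg]
    exact key _ (neg_nonneg.2 h)

theorem a3_polar (x : ℝ) : (1 + Complex.I * x) * (Real.cos (Real.arctan x) : ℝ) =
    Complex.exp (Real.arctan x * Complex.I) := by
  have h1 : x * Real.cos (Real.arctan x) = Real.sin (Real.arctan x) := by
    have := Real.tan_mul_cos (Real.cos_arctan_pos x).ne'
    rwa [Real.tan_arctan] at this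
  rw [Complex.exp_mul_I, ← Complex.ofReal_cos, ← Complex.ofReal_sin, ← h1, Complex.ofReal_mul]
  ring

/-- The roots for q = -1. -/
theorem a3_root {N : ℕ} (hN : 1 ≤ N) {z : ℂ} (h : pc (-1) N z = 0) : ∃ k : ℤ,
    z = (Real.tan ((4 * k - 1) * Real.pi / (4 * N)) : ℝ) ∧
      |(4 * k - 1 : ℝ)| * Real.pi ≤ 4 * (N * ‖z‖) := by
  have h1 := a3_neg_one N z
  rw [h, mul_zero] at h1
  have h2 : (1 + Complex.I * z) ^ N = -Complex.I * (1 - Complex.I * z) ^ N := by
    linear_combination (-(1 + Complex.I) / 2) * h1 +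
      ((1 + Complex.I * z) ^ N / 2 - (1 - Complex.I * z) ^ N / 2) * Complex.I_mul_I
  have h3 : ‖1 + Complex.I * z‖ = ‖1 - Complex.I * z‖ := by
    have := congrArg norm h2
    rw [norm_mul, norm_neg, Complex.norm_I, one_mul, norm_pow, norm_pow] at this
    exact (pow_left_inj₀ (norm_nonneg _) (norm_nonneg _) (by omega)).1 this
  have h4 : z.im = 0 := by
    have := congrArg (· ^ 2) h3
    simp only [Complex.sq_norm, Complex.normSq_apply] at this
    simp at this
    linarith only [this]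
  obtain ⟨x, rfl⟩ : ∃ x : ℝ, z = x := ⟨z.re, Complex.ext rfl h4⟩
  have p1 := a3_polar x
  have p2 := a3_polar (-x)
  rw [Real.arctan_neg, Real.cos_neg, Complex.ofReal_neg, mul_neg, ← sub_eq_add_neg] at p2
  have h5 : Complex.exp (N * (Real.arctan x * Complex.I)) =
      Complex.exp (-(Real.pi / 2 * Complex.I) + N * ((-Real.arctan x : ℝ) * Complex.I)) := by
    rw [Complex.exp_add, Complex.exp_nat_mul, Complex.exp_nat_mul, ← p1, ← p2, mul_pow, mul_pow,
      h2, Complex.exp_neg, Complex.exp_pi_div_two_mul_I, Complex.inv_I, mul_assoc]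
  obtain ⟨k, hk⟩ := Complex.exp_eq_exp_iff_exists_int.1 h5
  have h6 : 4 * (N * Real.arctan x) = (4 * k - 1) * Real.pi := by
    generalize Real.arctan x = y at hk
    have := congrArg Complex.im hk
    simp at this
    linarith only [this]
  have n0 : (0 : ℝ) < N := by exact_mod_cast hN
  refine ⟨k, ?_, ?_⟩
  · rw [← h6, ← mul_assoc, mul_div_cancel_left₀ _ (by positivity), Real.tan_arctan]
  · rw [← abs_of_pos Real.pi_pos, ← abs_mul, ← h6, abs_mul, abs_mul, abs_of_pos n0,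
      Complex.norm_real, Real.norm_eq_abs, abs_of_pos (by norm_num : (0 : ℝ) < 4)]
    exact mul_le_mul_of_nonneg_left (mul_le_mul_of_nonneg_left (a3_arctan x) n0.le) (by norm_num)

/-- Counting the small roots for q = -1. -/
theorem cnt_start {N J : ℕ} (hN : 1 ≤ N) {ζ : ℂ} (h : pc (-1) N ζ = 0)
    (hJ : 200 * (N * ‖ζ‖) ≤ 157 * (2 * J + 1)) : Cnt (-1) N J ζ := by
  refine ⟨h, ?_⟩
  set S := {z | pc (-1) N z = 0 ∧ ‖z‖ < ‖ζ‖} with hS
  set K : Finset ℤ := Ioc ((J : ℤ) / 2 - J) ((J : ℤ) / 2) with hK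
  set f : ℤ → ℂ := fun k => (Real.tan ((4 * k - 1) * Real.pi / (4 * N)) : ℝ) with hf
  have key : ∀ z, pc (-1) N z = 0 → ‖z‖ ≤ ‖ζ‖ → z ∈ f '' (K : Set ℤ) := by
    intro z hz hle
    obtain ⟨k, e, hk⟩ := a3_root hN hz
    refine ⟨k, ?_, e.symm⟩
    have a1 := mul_le_mul_of_nonneg_left hle (Nat.cast_nonneg (α := ℝ) N)
    have a2 : (3.14 : ℝ) * (2 * J + 1) < Real.pi * (2 * J + 1) :=
      mul_lt_mul_of_pos_right Real.pi_gt_d2 (by positivity)
    have a3 : |(4 * k - 1 : ℝ)| < 2 * J + 1 :=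
      lt_of_mul_lt_mul_right (by linarith only [hk, a1, a2, hJ]) Real.pi_pos.le
    have a4 : |4 * k - 1| < 2 * (J : ℤ) + 1 := by exact_mod_cast a3
    rw [abs_lt] at a4
    rw [mem_coe, hK, mem_Ioc]
    omega
  have sub : insert ζ S ⊆ f '' (K : Set ℤ) :=
    Set.insert_subset (key ζ h le_rfl) fun z hz => key z hz.1 hz.2.le
  have fin : (f '' (K : Set ℤ)).Finite := K.finite_toSet.image f
  have c1 := (Set.ncard_le_ncard sub fin).trans (Set.ncard_image_le K.finite_toSet)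
  rw [Set.ncard_insert_of_notMem (fun hz => lt_irrefl _ hz.2)
    (fin.subset ((Set.subset_insert _ _).trans sub)), Set.ncard_coe_finset, hK, Int.card_Ioc] at c1
  omega

end Pool.Agent.Sok.E

/-! A trapped root of large variance is a barrier for the other roots. -/

namespace Pool.Agent.Sok.E

open Pool.Agent.MP_97ada9_an Finset

theorem a4_qq_tan {θ : ℝ} (h : Real.cos θ ≠ 0) :
    qq (Real.tan θ : ℝ) = Complex.exp (4 * θ * Complex.I) := by
  have hc : Complex.cos θ ≠ 0 := by exact_mod_cast h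
  have e1 : 1 + Complex.I * (Real.tan θ : ℝ) = Complex.exp (θ * Complex.I) / Complex.cos θ := by
    rw [Complex.exp_mul_I, Complex.ofReal_tan, Complex.tan_eq_sin_div_cos]
    field_simp
  have e2 : 1 - Complex.I * (Real.tan θ : ℝ) = Complex.exp (-θ * Complex.I) / Complex.cos θ := by
    rw [Complex.exp_mul_I, Complex.ofReal_tan, Complex.tan_eq_sin_div_cos, Complex.cos_neg,
      Complex.sin_neg]
    field_simp
    ring
  rw [qq, e1, e2, div_div_div_cancel_right₀ hc, ← Complex.exp_sub, ← Complex.exp_nat_mul]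
  congr 1
  push_cast
  ring

/-- the segment of parameters -/
def a4S : Set ℂ := {t | t.re = 0 ∧ -(2 * Real.pi) < t.im ∧ t.im < 0}

theorem a4S_convex : Convex ℝ a4S :=
  (convex_hyperplane Complex.reLm.isLinear 0).inter
    ((convex_halfSpace_im_gt _).inter (convex_halfSpace_im_lt _))

/-- from the half line to the segment -/
noncomputable def a4t (τ : ℝ) : ℂ := (-(4 * Real.arctan τ) : ℝ) * Complex.I

/-- from the segment to the half line -/
noncomputable def a4u (t : ℂ) : ℝ := Real.tan (-t.im / 4)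

theorem a4t_mem {τ : ℝ} (h : 0 < τ) : a4t τ ∈ a4S := by
  have h1 := Real.arctan_lt_pi_div_two τ
  have h2 := Real.arctan_pos.2 h
  refine ⟨by simp only [a4t, Complex.mul_I_re, Complex.ofReal_im, neg_zero], ?_, ?_⟩ <;> simp only [a4t, Complex.mul_I_im, Complex.ofReal_re] <;>
    linarith

theorem a4u_t (τ : ℝ) : a4u (a4t τ) = τ := by
  simp only [a4u, a4t, Complex.mul_I_im, Complex.ofReal_re]
  rw [show -(-(4 * Real.arctan τ)) / 4 = Real.arctan τ by ring, Real.tan_arctan]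

theorem a4_cos {t : ℂ} (h : t ∈ a4S) : Real.cos (-t.im / 4) ≠ 0 :=
  (Real.cos_pos_of_mem_Ioo ⟨by linarith [h.2.2, Real.pi_pos], by linarith [h.2.1]⟩).ne'

theorem a4u_pos {t : ℂ} (h : t ∈ a4S) : 0 < a4u t :=
  Real.tan_pos_of_pos_of_lt_pi_div_two (by linarith [h.2.2]) (by linarith [h.2.1])

theorem a4_exp {t : ℂ} (h : t ∈ a4S) : Complex.exp (-t) = qq (a4u t) := by
  rw [a4u, a4_qq_tan (a4_cos h)]
  congr 1
  apply Complex.ext
  · simp [h.1]
  · simp
    ring

theorem a4u_cont : ContinuousOn a4u a4S := fun t ht =>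
  ((Real.continuousAt_tan.2 (a4_cos ht)).comp (f := fun t : ℂ => -t.im / 4)
    (by fun_prop)).continuousWithinAt

theorem a4t_cont : Continuous a4t := by
  have := Real.continuous_arctan
  unfold a4t
  fun_prop

theorem a4_fin (q : ℂ) (N : ℕ) : {z | pc q N z = 0}.Finite := by
  simpa only [Polynomial.IsRoot, pp_eval] using Polynomial.finite_setOfPred_isRoot (pp_ne q N)

/-- Continuous branches of roots along the arc. Use branch (Branch.lean) as in the first lines of
the proof of branches (Reduce.lean; closed_map, pc_deriv) on the convex set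
S = {t | t.re = 0 ∧ -2 π < t.im ∧ t.im < 0}; roots are simple by hprev (see the proof of strict:
a double root z gives the roots z and q * z of pc q N). Compose with
τ ↦ -2 * Complex.log ((1 + i τ) / (1 - i τ)) or τ ↦ -(4 * arctan τ) i. -/
theorem arc_branches {N : ℕ} (hprev : ∀ q : ℂ, ‖q‖ = 1 → q ≠ 1 → OnePer q N) :
    (∀ τ : ℝ, 0 < τ → ∀ z, pc (qq τ) (N + 1) z = 0 → ∃ ζ : ℝ → ℂ, ContinuousOn ζ (Set.Ioi 0) ∧
      (∀ s : ℝ, 0 < s → pc (qq s) (N + 1) (ζ s) = 0) ∧ ζ τ = z) ∧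
    ∀ ζ η : ℝ → ℂ, ContinuousOn ζ (Set.Ioi 0) → ContinuousOn η (Set.Ioi 0) →
      (∀ s : ℝ, 0 < s → pc (qq s) (N + 1) (ζ s) = 0) →
      (∀ s : ℝ, 0 < s → pc (qq s) (N + 1) (η s) = 0) →
      ∀ τ : ℝ, 0 < τ → ζ τ = η τ → ∀ s : ℝ, 0 < s → ζ s = η s := by
  have := a4S_convex.contractibleSpace ⟨_, a4t_mem one_pos⟩
  have := a4S_convex.locallyPathConnectedSpace
  have hF : ContDiff ℂ 1 fun x : ℂ × ℂ => pc (Complex.exp (-x.1)) (N + 1) x.2 := by
    unfold pc; fun_prop
  have hN : (N : ℂ) + 1 ≠ 0 := by exact_mod_cast N.succ_ne_zero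
  have hs : ∀ t ∈ a4S, ∀ z, pc (Complex.exp (-t)) (N + 1) z = 0 →
      pc (Complex.exp (-t)) N (Complex.exp (-t) * z) ≠ 0 := fun t ht z hz h0 => by
    have e := pc_succ (Complex.exp (-t)) N z
    rw [hz, h0, mul_zero, add_zero] at e
    have hq : ‖Complex.exp (-t)‖ = 1 := by rw [a4_exp ht, norm_qq]
    have hq1 : Complex.exp (-t) ≠ 1 := by rw [a4_exp ht]; exact qq_ne_one (a4u_pos ht)
    have e2 := hprev _ hq hq1 _ _ h0 e.symm (by rw [norm_mul, hq, one_mul])
    exact hq1 (mul_right_cancel₀ (pc_ne hz) (by rw [e2, one_mul]))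
  obtain ⟨h1, h2⟩ := branch hF (closed_map N) a4S (fun t _ => a4_fin (Complex.exp (-t)) (N + 1))
    fun t ht z hz => ⟨_, mul_ne_zero hN (hs t ht z hz), pc_deriv (Complex.exp (-t)) N z⟩
  have he : ∀ s : ℝ, 0 < s → Complex.exp (-a4t s) = qq s := fun s hs => by
    rw [a4_exp (a4t_mem hs), a4u_t]
  refine ⟨fun τ hτ z hz => ?_, fun ζ η c1 c2 r1 r2 τ hτ e s hs => ?_⟩
  · obtain ⟨ζ, c1, c2, c3⟩ := h1 _ (a4t_mem hτ) z (by simpa only [he τ hτ] using hz)
    exact ⟨ζ ∘ a4t, c1.comp a4t_cont.continuousOn fun s hs => a4t_mem hs,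
      fun s hs => by simpa only [he s hs, Function.comp] using c2 _ (a4t_mem hs), c3⟩
  · have := h2 (ζ ∘ a4u) (η ∘ a4u) (c1.comp a4u_cont fun t ht => a4u_pos ht)
      (c2.comp a4u_cont fun t ht => a4u_pos ht)
      (fun t ht => by simpa only [a4_exp ht, Function.comp] using r1 _ (a4u_pos ht))
      (fun t ht => by simpa only [a4_exp ht, Function.comp] using r2 _ (a4u_pos ht)) _ (a4t_mem hτ)
      (by simpa only [Function.comp, a4u_t] using e) _ (a4t_mem hs)
    simpa only [Function.comp, a4u_t] using this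

/-- Let ζ be the branch through ζ0. The continuous function ‖ζ τ - c τ‖ takes no value in
(ρ1, ρ2], so it stays at most ρ1 (intermediate value theorem). For another branch η the function
‖η τ‖ - ‖ζ τ‖ has no zero on [a, b] by hA, so following branches from τ1 to τ0 injects the roots of
smaller modulus at τ1 into those at τ0 (a finite set). -/
theorem propagate (hA : Asym) {N J : ℕ} (hN : 40 ≤ N + 1)
    (hprev : ∀ q : ℂ, ‖q‖ = 1 → q ≠ 1 → OnePer q N) {a b : ℝ} (ha : 0 < a) {c : ℝ → ℂ}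
    (hc : ContinuousOn c (Set.Icc a b)) {ρ1 ρ2 : ℝ} (hρ : ρ1 < ρ2)
    (htrap : ∀ τ ∈ Set.Icc a b, ∀ z, pc (qq τ) (N + 1) z = 0 → ‖z - c τ‖ ≤ ρ2 →
      ‖z - c τ‖ ≤ ρ1 ∧ 7 ≤ ((N + 1 : ℕ) : ℝ) * ‖z‖ / (1 + ‖z‖) ^ 2)
    {τ0 τ1 : ℝ} (h0 : τ0 ∈ Set.Icc a b) (h1 : τ1 ∈ Set.Icc a b) {ζ0 : ℂ}
    (hζ : Cnt (qq τ0) (N + 1) J ζ0) (hd : ‖ζ0 - c τ0‖ ≤ ρ2) :
    ∃ ζ1, Cnt (qq τ1) (N + 1) J ζ1 ∧ ‖ζ1 - c τ1‖ ≤ ρ1 := by
  obtain ⟨b1, b2⟩ := arc_branches hprev
  have pos : ∀ τ ∈ Set.Icc a b, 0 < τ := fun τ h => ha.trans_le h.1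
  have sub : Set.Icc a b ⊆ Set.Ioi 0 := pos
  obtain ⟨ζ, c1, c2, c3⟩ := b1 τ0 (pos _ h0) ζ0 hζ.1
  have hcont : ContinuousOn (fun τ => ‖ζ τ - c τ‖) (Set.Icc a b) := ((c1.mono sub).sub hc).norm
  have trap : ∀ τ ∈ Set.Icc a b, ‖ζ τ - c τ‖ ≤ ρ2 := by
    intro τ hτ
    by_contra hlt
    obtain ⟨s, hs, e⟩ := isPreconnected_Icc.intermediate_value h0 hτ hcont
      (⟨by simpa only [c3] using hd, (not_le.1 hlt).le⟩ : ρ2 ∈ Set.Icc _ _)
    have := (htrap s hs _ (c2 s (pos s hs)) (le_of_eq e)).1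
    simp only at e
    linarith
  refine ⟨ζ τ1, ⟨c2 _ (pos _ h1), lt_of_le_of_lt ?_ hζ.2⟩,
    (htrap τ1 h1 _ (c2 _ (pos _ h1)) (trap τ1 h1)).1⟩
  have hex : ∀ z : ℂ, ∃ η : ℝ → ℂ, pc (qq τ1) (N + 1) z = 0 → ContinuousOn η (Set.Ioi 0) ∧
      (∀ s : ℝ, 0 < s → pc (qq s) (N + 1) (η s) = 0) ∧ η τ1 = z := fun z => by
    by_cases hz : pc (qq τ1) (N + 1) z = 0
    · obtain ⟨η, hη⟩ := b1 τ1 (pos _ h1) z hz
      exact ⟨η, fun _ => hη⟩
    · exact ⟨ζ, fun h => absurd h hz⟩
  choose η hη using hex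
  refine Set.ncard_le_ncard_of_injOn (fun z => η z τ0) (fun z hz => ?_) (fun z hz w hw e => ?_)
    ((a4_fin _ _).subset fun z hz => hz.1)
  · obtain ⟨d1, d2, d3⟩ := hη z hz.1
    refine ⟨d2 _ (pos _ h0), ?_⟩
    by_contra hge
    obtain ⟨s, hs, e⟩ := isPreconnected_Icc.intermediate_value₂ h1 h0 (d1.mono sub).norm
      (c1.mono sub).norm (by simpa only [d3] using hz.2.le) (by simpa only [c3] using not_lt.1 hge)
    have e2 := hA (N + 1) hN _ _ _ (norm_qq s) (qq_ne_one (pos s hs)) (c2 s (pos s hs))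
      (d2 s (pos s hs)) e.symm (htrap s hs _ (c2 s (pos s hs)) (trap s hs)).2
    have e3 := b2 ζ (η z) c1 d1 c2 d2 s (pos s hs) e2 τ1 (pos _ h1)
    have h4 := hz.2
    rw [e3, d3] at h4
    exact lt_irrefl _ h4
  · obtain ⟨d1, d2, d3⟩ := hη z hz.1
    obtain ⟨f1, f2, f3⟩ := hη w hw.1
    rw [← d3, ← f3]
    exact b2 _ _ d1 f1 d2 f2 τ0 (pos _ h0) e τ1 (pos _ h1)

end Pool.Agent.Sok.E
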