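import Pool.Agent.Sok.EP3
import Pool.Agent.Sok.EPA

/-! From bounds at a predictor to roots, and the step through one box of parameters. -/

namespace Pool.Agent.Sok.E

open Pool.Agent.MP_97ada9_an Finset

/-- The value computed for degree N in the dual numbers. -/
noncomputable def dv (q : ℂ) (N c pw sh S : ℕ) (w ν : ℂ) : DualNumber ℂ :=
  ν • hv ((2 : ℂ) ^ pw)⁻¹ (algebraMap ℂ _ w + ((2 : ℂ) ^ sh) • DualNumber.eps)
    ((down N).map fun n => (N.choose n : ℂ) • algebraMap ℂ (DualNumber ℂ) (S * q ^ ex c n)) 0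

/-- hv_range and the formula for powers of dual numbers. -/
theorem dv_eq (q : ℂ) (N c pw sh S : ℕ) (w ν : ℂ) :
    (dv q N c pw sh S w ν).fst = ν * S / 2 ^ pw * gc q N c (w / 2 ^ pw) ∧
    (dv q N c pw sh S w ν).snd = ν * S / 2 ^ pw * (2 ^ sh / 2 ^ pw * gd q N c (w / 2 ^ pw)) := by
  rw [dv, down, hv_range, zero_mul, zero_add, gc, gd]
  constructor
  · simp only [TrivSqZeroExt.fst_smul, TrivSqZeroExt.fst_sum, TrivSqZeroExt.fst_mul,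
      TrivSqZeroExt.fst_pow, TrivSqZeroExt.fst_add, TrivSqZeroExt.algebraMap_eq_inl,
      TrivSqZeroExt.fst_inl, DualNumber.fst_eps, smul_eq_mul, mul_zero, add_zero, mul_sum]
    exact sum_congr rfl fun n _ => by ring
  · simp only [TrivSqZeroExt.snd_smul, TrivSqZeroExt.snd_sum, DualNumber.snd_mul,
      TrivSqZeroExt.snd_pow, TrivSqZeroExt.fst_smul, TrivSqZeroExt.fst_add, TrivSqZeroExt.snd_add,
      TrivSqZeroExt.algebraMap_eq_inl, TrivSqZeroExt.fst_inl, TrivSqZeroExt.snd_inl,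
      DualNumber.fst_eps, DualNumber.snd_eps, smul_eq_mul, mul_zero, zero_mul, add_zero, zero_add,
      mul_one, mul_sum, nsmul_eq_mul, Nat.pred_eq_sub_one]
    exact sum_congr rfl fun n _ => by ring

/-- TrivSqZeroExt.norm_def; eps ^ 2 = 0. -/
theorem fr_dual {F : FR} {κ : ℂ} {o : ℝ} {i : ℕ} {t e : ℂ} {x : DualNumber ℂ}
    (h : FRok F κ o i ⟨t, e, DualNumber.eps⟩ x) :
    ‖x.fst‖ ≤ F.l0 + F.e ∧ ‖x.snd - κ * t ^ i‖ ≤ o + F.e := by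
  obtain ⟨P0, P1, P2, h0, h1, -, h3⟩ := h
  rw [DualNumber.eps_pow_two, mul_zero, add_zero, TrivSqZeroExt.norm_def] at h3
  simp only [TrivSqZeroExt.fst_sub, TrivSqZeroExt.snd_sub, TrivSqZeroExt.fst_add,
    TrivSqZeroExt.snd_add, TrivSqZeroExt.algebraMap_eq_inl, TrivSqZeroExt.fst_inl,
    TrivSqZeroExt.snd_inl, TrivSqZeroExt.fst_smul, TrivSqZeroExt.snd_smul, DualNumber.fst_eps,
    DualNumber.snd_eps, smul_eq_mul, mul_zero, add_zero, zero_add, mul_one] at h3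
  have a1 := norm_nonneg (x.fst - P0)
  have a2 := norm_nonneg (x.snd - P1)
  have a3 := norm_le_norm_add_norm_sub' x.fst P0
  have a4 := norm_sub_le_norm_sub_add_norm_sub x.snd P1 (κ * t ^ i)
  constructor <;> linarith

/-- near_root and gc_eq. -/
theorem root_of_dv {q w ν : ℂ} {N c pw sh S : ℕ} (hq : q ≠ 0) {a d : ℝ} (hd : 0 < d)
    (h1 : ‖(dv q N c pw sh S w ν).fst‖ ≤ a) (h2 : d ≤ ‖(dv q N c pw sh S w ν).snd‖) :
    ∃ ζ, pc q N ζ = 0 ∧ ‖2 ^ pw * q ^ c * ζ - w‖ * d ≤ N * 2 ^ sh * a := by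
  rw [(dv_eq ..).1] at h1
  rw [(dv_eq ..).2] at h2
  obtain ⟨ζ, z1, z2⟩ := near_root (fun n => (N.choose n : ℂ) * q ^ ex c n) N (w / 2 ^ pw)
    fun e => by
      rw [gd, e, mul_zero, mul_zero, norm_zero] at h2
      exact hd.not_ge h2
  have hc : q ^ c * (ζ / q ^ c) = ζ := mul_div_cancel₀ _ (pow_ne_zero c hq)
  have h3 := gc_eq q N c (ζ / q ^ c)
  rw [hc, gc, z1] at h3
  refine ⟨ζ / q ^ c, (mul_eq_zero.1 h3.symm).resolve_left (pow_ne_zero _ hq), ?_⟩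
  have e : 2 ^ pw * q ^ c * (ζ / q ^ c) - w = 2 ^ pw * (ζ - w / 2 ^ pw) := by
    rw [mul_assoc, hc, mul_sub, mul_div_cancel₀ _ (pow_ne_zero pw two_ne_zero)]
  rw [e]
  refine (mul_le_mul_of_nonneg_left h2 (norm_nonneg _)).trans ?_
  refine le_trans ?_ (mul_le_mul_of_nonneg_left h1 (by positivity))
  have h4 := mul_le_mul_of_nonneg_left z2
    (show 0 ≤ (2 : ℝ) ^ sh * ‖ν * S / 2 ^ pw‖ by positivity)
  rw [← gc, ← gd] at h4
  generalize ν * S / 2 ^ pw = A at h4 ⊢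
  simp only [norm_mul, norm_div, norm_pow, Complex.norm_ofNat]
  refine le_of_eq_of_le ?_ (h4.trans_eq (by ring))
  field_simp

/-- The box at q = 1: herm_bigO and schwarz_pow give the factors ‖t‖ ^ N and ‖t‖ ^ (N - 1). -/
theorem herm_dv {N c pw sh S : ℕ} {α : ℝ} (h0 : 0 ≤ α) (h1 : α < 1) {w ν : ℂ → ℂ}
    (hw : Differentiable ℂ w) (hν : Differentiable ℂ ν) (hw0 : w 0 = -2 ^ pw) {κ : ℂ} {a b : ℝ}
    (h : ∀ t : ℂ, ‖t‖ ≤ 1 → ‖(dv (qq (α * t ^ 2)) N c pw sh S (w t) (ν t)).fst‖ ≤ a ∧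
      ‖(dv (qq (α * t ^ 2)) N c pw sh S (w t) (ν t)).snd - κ * t ^ (N - 1)‖ ≤ b)
    {t : ℂ} (ht : ‖t‖ ≤ 1) :
    ‖(dv (qq (α * t ^ 2)) N c pw sh S (w t) (ν t)).fst‖ ≤ a * ‖t‖ ^ N ∧
      (‖κ‖ - b) * ‖t‖ ^ (N - 1) ≤ ‖(dv (qq (α * t ^ 2)) N c pw sh S (w t) (ν t)).snd‖ := by
  have hne : ∀ t : ℂ, ‖t‖ < 1 → 1 - Complex.I * (α * t ^ 2) ≠ 0 := fun t ht e => by
    have h2 := congrArg norm (sub_eq_zero.1 e)
    rw [norm_one, norm_mul, norm_mul, Complex.norm_I, Complex.norm_real, Real.norm_of_nonneg h0,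
      norm_pow, one_mul] at h2
    have h3 : ‖t‖ ^ 2 ≤ 1 := pow_le_one₀ (norm_nonneg t) ht.le
    nlinarith
  have dq : DifferentiableOn ℂ (fun t : ℂ => qq (α * t ^ 2)) (Metric.ball 0 1) := fun t ht => by
    have := hne t (mem_ball_zero_iff.1 ht)
    unfold qq
    fun_prop (disch := assumption)
  have hq : (fun t : ℂ => qq (α * t ^ 2) - 1) =O[nhds 0] fun t => t ^ 2 := by
    have h2 : DifferentiableAt ℂ qq 0 := by
      unfold qq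
      fun_prop (disch := simp)
    have h3 : Filter.Tendsto (fun t : ℂ => (α : ℂ) * t ^ 2) (nhds 0) (nhds 0) :=
      Continuous.tendsto' (by fun_prop) _ _ (by simp)
    have h4 := h2.isBigO_sub.comp_tendsto h3
    simp only [Function.comp_def, sub_zero] at h4
    have h5 : qq 0 = 1 := by simp [qq]
    rw [h5] at h4
    exact h4.trans (Asymptotics.isBigO_const_mul_self _ _ _)
  have hw1 : (fun t : ℂ => w t / 2 ^ pw + 1) =O[nhds 0] fun t => t := by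
    have h2 := ((hw 0).div_const (2 ^ pw)).isBigO_sub
    simp only [hw0, neg_div, div_self (pow_ne_zero pw (two_ne_zero' ℂ)), sub_neg_eq_add,
      sub_zero] at h2
    exact h2
  obtain ⟨o1, o2⟩ := herm_bigO N c hq hw1
  have dν : Differentiable ℂ fun t => ν t * S / 2 ^ pw := by fun_prop
  have oν := (dν.continuous.tendsto 0).isBigO_one ℂ
  simp only [(dv_eq ..).1, (dv_eq ..).2] at h ⊢
  refine ⟨schwarz_pow (F := fun t => ν t * S / 2 ^ pw * gc (qq (α * t ^ 2)) N c (w t / 2 ^ pw))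
    (dν.differentiableOn.mul ?_) (by simpa using oν.mul o1) (fun t ht => (h t ht).1) ht, ?_⟩
  · unfold gc
    fun_prop
  have h2 := schwarz_pow (F := fun t => ν t * S / 2 ^ pw *
      (2 ^ sh / 2 ^ pw * gd (qq (α * t ^ 2)) N c (w t / 2 ^ pw)) - κ * t ^ (N - 1))
    ((dν.differentiableOn.mul (by
      unfold gd
      fun_prop)).sub (by fun_prop))
    (Asymptotics.IsBigO.sub (by simpa using oν.mul (o2.const_mul_left (2 ^ sh / 2 ^ pw)))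
      (Asymptotics.isBigO_const_mul_self _ _ _)) (fun t ht => (h t ht).2) ht
  have h3 := norm_le_norm_add_norm_sub (ν t * S / 2 ^ pw *
    (2 ^ sh / 2 ^ pw * gd (qq (α * t ^ 2)) N c (w t / 2 ^ pw))) (κ * t ^ (N - 1))
  rw [norm_mul κ, norm_pow] at h3
  linarith

end Pool.Agent.Sok.E

/-! Roots for large degree and the step through one box. -/

namespace Pool.Agent.Sok.E

open Pool.Agent.MP_97ada9_an Finset

/-- The terms of index at least M decrease like a geometric series of ratio one half. -/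
theorem gc_tail {q u : ℂ} (hq : ‖q‖ ≤ 1) {N M lam : ℕ} (hN : 0 < N) (c : ℕ) (c0 : ℂ)
    (hu : 2 * lam * ‖u‖ ≤ M + 1) :
    ∃ T : ℂ, ‖T‖ ≤ 2 * ‖c0 * N.choose M * ((lam : ℂ) / N) ^ M‖ ∧
      c0 * gc q N c (lam * u / N) = T * u ^ M +
        ∑ n ∈ range M, c0 * N.choose n * ((lam : ℂ) / N) ^ n * q ^ ex c n * u ^ n := by
  have hN' : (0 : ℝ) < N := by exact_mod_cast hN
  set b : ℕ → ℂ := fun n => c0 * N.choose n * ((lam : ℂ) / N) ^ n with hb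
  have hn : ∀ n, ‖b n‖ = ‖c0‖ * N.choose n * ((lam : ℝ) / N) ^ n := fun n => by
    simp only [hb, norm_mul, norm_pow, norm_div, Complex.norm_natCast]
  have step : ∀ n, M ≤ n → ‖b (n + 1)‖ * ‖u‖ ≤ ‖b n‖ * (1 / 2) := fun n hMn => by
    have h1 : (N.choose (n + 1) : ℝ) * (n + 1) ≤ N.choose n * N := by
      have := Nat.choose_succ_right_eq N n
      have h2 : N.choose (n + 1) * (n + 1) ≤ N.choose n * N := by
        rw [this]; exact Nat.mul_le_mul_left _ (Nat.sub_le _ _)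
      exact_mod_cast h2
    have h3 : (M : ℝ) ≤ n := by exact_mod_cast hMn
    have h4 : (N.choose (n + 1) : ℝ) * (2 * lam * ‖u‖) ≤ N.choose n * N :=
      (mul_le_mul_of_nonneg_left (hu.trans (by linarith)) (Nat.cast_nonneg _)).trans h1
    have h5 : (N.choose (n + 1) : ℝ) * (lam / N) * ‖u‖ ≤ N.choose n * (1 / 2) := by
      have e : (N.choose (n + 1) : ℝ) * (lam / N) * ‖u‖ =
          N.choose (n + 1) * (2 * lam * ‖u‖) / (2 * N) := by field_simp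
      rw [e, div_le_iff₀ (by positivity)]
      linarith
    have h6 := mul_le_mul_of_nonneg_left h5
      (by positivity : 0 ≤ ‖c0‖ * ((lam : ℝ) / N) ^ n)
    rw [hn, hn, pow_succ]
    linarith
  have geo : ∀ k, ‖b (M + k)‖ * ‖u‖ ^ k ≤ ‖b M‖ * (1 / 2) ^ k := fun k => by
    induction k with
    | zero => simp
    | succ k ih =>
      have h1 := mul_le_mul_of_nonneg_right (step (M + k) (Nat.le_add_right _ _))
        (pow_nonneg (norm_nonneg u) k)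
      rw [← add_assoc, pow_succ, pow_succ]
      linarith
  refine ⟨∑ k ∈ range (N + 1), b (M + k) * q ^ ex c (M + k) * u ^ k, ?_, ?_⟩
  · refine (norm_sum_le _ _).trans ?_
    have h1 : ∑ k ∈ range (N + 1), ‖b (M + k) * q ^ ex c (M + k) * u ^ k‖ ≤
        ∑ k ∈ range (N + 1), ‖b M‖ * (1 / 2) ^ k := by
      refine sum_le_sum fun k _ => le_trans ?_ (geo k)
      rw [norm_mul, norm_mul, norm_pow, norm_pow]
      exact mul_le_mul_of_nonneg_right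
        (mul_le_of_le_one_right (norm_nonneg _) (pow_le_one₀ (norm_nonneg _) hq)) (by positivity)
    refine h1.trans ?_
    rw [← mul_sum, mul_comm]
    exact mul_le_mul_of_nonneg_right (sum_geometric_two_le _) (norm_nonneg _)
  · have h1 : c0 * gc q N c (lam * u / N) = ∑ n ∈ range (N + 1), b n * q ^ ex c n * u ^ n := by
      rw [gc, mul_sum]
      refine sum_congr rfl fun n _ => ?_
      rw [show (lam : ℂ) * u / N = lam / N * u by ring, mul_pow]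
      simp only [hb]
      ring
    have h2 : ∑ n ∈ range (N + 1), b n * q ^ ex c n * u ^ n =
        ∑ n ∈ range (M + (N + 1)), b n * q ^ ex c n * u ^ n := by
      refine sum_subset (range_subset_range.2 (Nat.le_add_left _ _)) fun n _ hn' => ?_
      have : N.choose n = 0 := Nat.choose_eq_zero_of_lt (by simpa using hn')
      simp [hb, this]
    rw [h1, h2, sum_range_add, add_comm, sum_mul]
    congr 1
    refine sum_congr rfl fun k _ => ?_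
    rw [pow_add]
    ring

/-- exists_root on the circle of radius R / 2 ^ sh; f does not vanish on this circle. For the second
claim the concave function x ↦ dl * x - l0 - e - l2 * x ^ 2 is positive at both ends. -/
theorem root_of_fr {F : FR} {κ t e : ℂ} {o : ℝ} {f : ℂ → ℂ} (hf : Differentiable ℂ f)
    (h : ∀ η : ℂ, ‖η‖ ≤ 1 → FRok F κ o 0 ⟨t, e, η⟩ (f η)) (hκ : 0 < F.dl → F.dl + o ≤ ‖κ‖)
    {R sh : ℕ} (h1 : 2 * (F.l0 + F.e) * 4 ^ sh + F.l2 * R * R < F.dl * R * 2 ^ sh)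
    (h2 : R < 2 ^ sh) :
    (∃ η : ℂ, ‖η‖ * 2 ^ sh ≤ R ∧ f η = 0) ∧ (∃ η : ℂ, f η ≠ 0) ∧
      (F.l0 + F.e + F.l2 < F.dl → ∀ η : ℂ, ‖η‖ ≤ 1 → f η = 0 → ‖η‖ * 2 ^ sh ≤ R) := by
  have hpos : 0 < F.dl * R * 2 ^ sh := lt_of_le_of_lt (Nat.zero_le _) h1
  have hdl : 0 < F.dl := Nat.pos_of_ne_zero fun e => by simp [e] at hpos
  have hR : 0 < R := Nat.pos_of_ne_zero fun e => by simp [e] at hpos
  have hκ' := hκ hdl
  have p2 : (0 : ℝ) < 2 ^ sh := by positivity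
  have hR' : (0 : ℝ) < R := by exact_mod_cast hR
  have h2' : (R : ℝ) < 2 ^ sh := by exact_mod_cast h2
  obtain ⟨r, hr⟩ : ∃ r : ℝ, r = R / 2 ^ sh := ⟨_, rfl⟩
  have hrR : r * 2 ^ sh = R := by rw [hr]; field_simp
  have r0 : 0 < r := hr ▸ div_pos hR' p2
  have r1 : r < 1 := hr ▸ (div_lt_one p2).2 h2'
  have h1' : 2 * ((F.l0 : ℝ) + F.e) + F.l2 * r ^ 2 < F.dl * r := by
    have h3 : 2 * ((F.l0 : ℝ) + F.e) * 4 ^ sh + F.l2 * R * R < F.dl * R * 2 ^ sh := by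
      exact_mod_cast h1
    have h4 : (4 : ℝ) ^ sh = 2 ^ sh * 2 ^ sh := by rw [← mul_pow]; norm_num
    rw [h4, ← hrR] at h3
    refine lt_of_mul_lt_mul_right ?_ (mul_pos p2 p2).le
    linarith
  have low : ∀ η : ℂ, ‖η‖ ≤ 1 → F.dl * ‖η‖ - F.l0 - F.e - F.l2 * ‖η‖ ^ 2 ≤ ‖f η‖ := by
    intro η hη
    obtain ⟨P0, P1, P2, a0, a1, a2, a3⟩ := h η hη
    simp only [pow_zero, mul_one, smul_eq_mul, Algebra.algebraMap_self, RingHom.id_apply] at a1 a3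
    have b1 : (F.dl : ℝ) ≤ ‖P1‖ := by
      have := norm_sub_norm_le κ P1
      rw [norm_sub_rev] at this
      linarith
    have b2 : ‖P1 * η‖ ≤ ‖f η‖ + ‖f η - (P0 + P1 * η + P2 * η ^ 2)‖ + ‖P0‖ + ‖P2 * η ^ 2‖ := by
      have e : P1 * η = f η - (f η - (P0 + P1 * η + P2 * η ^ 2)) - P0 - P2 * η ^ 2 := by ring
      calc ‖P1 * η‖ = ‖f η - (f η - (P0 + P1 * η + P2 * η ^ 2)) - P0 - P2 * η ^ 2‖ := by rw [← e]
        _ ≤ _ := (norm_sub_le _ _).trans (add_le_add_left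
          ((norm_sub_le _ _).trans (add_le_add_left (norm_sub_le _ _) _)) _)
    rw [norm_mul, norm_mul, norm_pow] at b2
    have b3 := mul_le_mul_of_nonneg_right b1 (norm_nonneg η)
    have b4 := mul_le_mul_of_nonneg_right a2 (sq_nonneg ‖η‖)
    linarith
  have up : ‖f 0‖ ≤ F.l0 + F.e := by
    obtain ⟨P0, P1, P2, a0, a1, a2, a3⟩ := h 0 (by simp)
    simp only [smul_eq_mul, Algebra.algebraMap_self, RingHom.id_apply, mul_zero, add_zero,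
      ne_eq, OfNat.ofNat_ne_zero, not_false_eq_true, zero_pow] at a3
    have := norm_sub_norm_le (f 0) P0
    linarith
  have circ : ∀ η : ℂ, ‖η‖ = r → ‖f 0‖ < ‖f η‖ := fun η hη => by
    have := low η (hη ▸ r1.le)
    rw [hη] at this
    linarith
  refine ⟨?_, ⟨r, fun e => ?_⟩, fun h3 η hη h4 => ?_⟩
  · obtain ⟨η, e1, e2⟩ := exists_root hf r0 circ
    exact ⟨η, hrR ▸ mul_le_mul_of_nonneg_right e1 p2.le, e2⟩
  · have := circ r (by rw [Complex.norm_real, Real.norm_of_nonneg r0.le])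
    rw [e, norm_zero] at this
    exact absurd this (norm_nonneg _).not_gt
  · rw [← hrR]
    refine mul_le_mul_of_nonneg_right (not_lt.1 fun hx => ?_) p2.le
    have h5 := low η hη
    rw [h4, norm_zero] at h5
    have h6 : (F.l0 : ℝ) + F.e + F.l2 < F.dl := by exact_mod_cast h3
    have c0 : (0 : ℝ) ≤ F.l0 := Nat.cast_nonneg _
    have c1 : (0 : ℝ) ≤ F.e := Nat.cast_nonneg _
    have c2 : (0 : ℝ) ≤ F.l2 := Nat.cast_nonneg _
    generalize ‖η‖ = x at hη hx h5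
    have d1 : 0 ≤ (F.dl * r - F.l0 - F.e - F.l2 * r ^ 2) * (1 - x) :=
      mul_nonneg (by linarith) (by linarith)
    have d2 : 0 < ((F.dl : ℝ) - F.l0 - F.e - F.l2) * (x - r) := mul_pos (by linarith) (by linarith)
    have d3 : 0 ≤ F.l2 * ((x - r) * (1 - x) * (1 - r)) :=
      mul_nonneg c2 (mul_nonneg (mul_nonneg (by linarith) (by linarith)) (by linarith))
    have d4 : (F.dl * x - F.l0 - F.e - F.l2 * x ^ 2) * (1 - r) ≤ 0 :=
      mul_nonpos_of_nonpos_of_nonneg h5 (by linarith)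
    nlinarith

/-- The information on the first J + 1 roots for parameters in [a, b]. -/
structure AB (N J : ℕ) (a b : ℝ) (cen : ℕ → ℝ → ℂ) (rad : ℕ → ℝ) (ρ : ℝ) : Prop where
  ha : 0 < a
  hab : a ≤ b
  cont : ContinuousOn (cen J) (Set.Icc a b)
  root : ∀ τ ∈ Set.Icc a b, ∀ j ≤ J, ∃ ζ, pc (qq τ) N ζ = 0 ∧ ‖ζ - cen j τ‖ ≤ rad j
  gap : ∀ τ ∈ Set.Icc a b, ∀ j < J, ∀ u v : ℂ, ‖u - cen j τ‖ ≤ rad j →
    ‖v - cen (j + 1) τ‖ ≤ rad (j + 1) → ‖u‖ < ‖v‖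
  hρ : rad J < ρ
  trap : ∀ τ ∈ Set.Icc a b, ∀ z, pc (qq τ) N z = 0 → ‖z - cen J τ‖ ≤ ρ → ‖z - cen J τ‖ ≤ rad J
  bar : ∃ Z : ℝ, 0 ≤ Z ∧ 7 * (1 + Z) ^ 2 ≤ N * Z ∧
    ∀ τ ∈ Set.Icc a b, ∀ z : ℂ, ‖z - cen J τ‖ ≤ rad J → Z ≤ ‖z‖ ∧ ‖z‖ ≤ 1

/-- propagate (with var_mono), concl, onePer_of_inside. -/
theorem AB.step (hA : Asym) {N J : ℕ} (hN : 40 ≤ N)
    (hprev : ∀ q : ℂ, ‖q‖ = 1 → q ≠ 1 → OnePer q (N - 1)) {a b : ℝ} {cen : ℕ → ℝ → ℂ}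
    {rad : ℕ → ℝ} {ρ : ℝ} (h : AB N J a b cen rad ρ)
    (h0 : ∃ ζ, Cnt (qq b) N (J + 1) ζ ∧ ‖ζ - cen J b‖ ≤ ρ) :
    (∀ τ ∈ Set.Icc a b, OnePer (qq τ) N) ∧
      ∀ j ≤ J, ∃ ζ, Cnt (qq a) N (j + 1) ζ ∧ ‖ζ - cen j a‖ ≤ rad j := by
  obtain ⟨N, rfl⟩ : ∃ M, N = M + 1 := ⟨N - 1, by omega⟩
  rw [Nat.add_sub_cancel] at hprev
  obtain ⟨ζ0, z1, z2⟩ := h0
  obtain ⟨Z, Z0, Z7, hZ⟩ := h.bar
  have key : ∀ τ ∈ Set.Icc a b, ∃ ζ : ℕ → ℂ, (∀ j ≤ J, ‖ζ j - cen j τ‖ ≤ rad j) ∧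
      (∀ z w, pc (qq τ) (N + 1) z = 0 → pc (qq τ) (N + 1) w = 0 → ‖z‖ = ‖w‖ → ‖z‖ < ‖ζ J‖ →
        z = w) ∧ ∀ j ≤ J, Cnt (qq τ) (N + 1) (j + 1) (ζ j) := by
    intro τ hτ
    obtain ⟨ζ1, y1, y2⟩ := propagate hA hN hprev h.ha h.cont h.hρ
      (fun s hs z hz hd => ⟨h.trap s hs z hz hd, var_mono Z0 Z7
        (hZ s hs z (h.trap s hs z hz hd)).1 (hZ s hs z (h.trap s hs z hz hd)).2⟩)
      (Set.right_mem_Icc.2 h.hab) hτ z1 z2
    have ex : ∀ j, ∃ ζ, j ≤ J → pc (qq τ) (N + 1) ζ = 0 ∧ ‖ζ - cen j τ‖ ≤ rad j ∧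
        (j = J → ζ = ζ1) := fun j => by
      by_cases hj : j < J
      · obtain ⟨ζ, e1, e2⟩ := h.root τ hτ j hj.le
        exact ⟨ζ, fun _ => ⟨e1, e2, fun e => absurd e hj.ne⟩⟩
      · refine ⟨ζ1, fun hj' => ?_⟩
        obtain rfl : j = J := by omega
        exact ⟨y1.1, y2, fun _ => rfl⟩
    choose ζ hζ using ex
    refine ⟨ζ, fun j hj => (hζ j hj).2.1, concl ζ (fun j hj => (hζ j hj).1) (fun j hj => ?_) ?_⟩
    · exact h.gap τ hτ j hj _ _ (hζ j hj.le).2.1 (hζ (j + 1) hj).2.1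
    · rw [(hζ J le_rfl).2.2 rfl]
      exact y1
  refine ⟨fun τ hτ => ?_, fun j hj => ?_⟩
  · obtain ⟨ζ, e1, e2, -⟩ := key τ hτ
    exact onePer_of_inside hA hN (norm_qq τ) (qq_ne_one (h.ha.trans_le hτ.1)) Z0 Z7
      fun z w hz hw hn hlt => e2 z w hz hw hn (hlt.trans_le (hZ τ hτ _ (e1 J le_rfl)).1)
  · obtain ⟨ζ, e1, -, e3⟩ := key a (Set.left_mem_Icc.2 h.hab)
    exact ⟨ζ j, e3 j hj, e1 j hj⟩

end Pool.Agent.Sok.E

/-! Soundness of the check for small degree. -/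

namespace Pool.Agent.Sok.E

open Pool.Agent.MP_97ada9_an Finset

def Seg (m N lo hi : ℕ) : Prop :=
  ∀ τ : ℝ, 0 < τ → (lo : ℝ) ≤ 2 ^ m * τ → 2 ^ m * τ ≤ hi → OnePer (qq τ) N

theorem Seg.join {m N a b c d : ℕ} (h : Seg m N a b) (h' : Seg m N c d) (hc : c ≤ b) :
    Seg m N a d := by
  intro τ h0 h1 h2
  rcases le_total (2 ^ m * τ) (b : ℝ) with h3 | h3
  · exact h τ h0 h1 h3
  · exact h' τ h0 ((Nat.cast_le.2 hc).trans h3) h2

theorem Seg.all {m N : ℕ} (h : Seg m N 0 (2 ^ m)) (q : ℂ) (h1 : ‖q‖ = 1) (h2 : q ≠ 1) :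
    OnePer q N := by
  refine onePer_of_qq (fun τ h0 hτ => h τ h0 ?_ ?_) q h1 h2
  · rw [Nat.cast_zero]
    positivity
  · push_cast
    exact mul_le_of_le_one_right (by positivity) hτ

theorem cv_diff (raw b dt de : ℕ) (e : ℂ) : Differentiable ℂ fun t => cv raw b dt de t e := by
  unfold cv pv
  fun_prop

theorem t7_pv (raw b : ℕ) {dt : ℕ} (hd : 0 < dt) :
    pv raw b dt 1 0 0 = (dgN raw (b + 1) 0 : ℂ) - 2 ^ b := by
  obtain ⟨k, rfl⟩ : ∃ k, dt = k + 1 := ⟨dt - 1, by omega⟩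
  rw [pv, sum_range_one, sum_range_succ']
  simp

theorem herm0_sound {raw b dt : ℕ} (h : herm0 raw b dt = true) (hd : 0 < dt) :
    cv raw b dt 1 0 0 = -2 ^ b := by
  rw [herm0, Bool.and_eq_true, Nat.beq_eq, Nat.beq_eq] at h
  rw [cv, t7_pv _ _ hd, t7_pv _ _ hd, h.1, h.2]
  push_cast
  ring

theorem t7_ok {s : ℂ} (h : ‖s‖ ≤ 1) : (⟨s, 0, DualNumber.eps⟩ : Pt (DualNumber ℂ)).ok := by
  refine ⟨h, by simp, ?_⟩
  show ‖(DualNumber.eps : DualNumber ℂ)‖ ≤ 1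
  rw [TrivSqZeroExt.norm_def]
  simp

theorem t7_nil (s : ℂ) : (⟨s, 0, DualNumber.eps⟩ : Pt (DualNumber ℂ)).nil 1 3 := by
  intro k h1 h2
  obtain rfl : k = 2 := by omega
  exact DualNumber.eps_pow_two

theorem t7_div {a b : ℕ} (hb : 0 < b) {u v : ℝ} (hv : 0 ≤ v) (h : u * b ≤ a * v) :
    u ≤ ((a / b + 1 : ℕ) : ℝ) * v := by
  have h1 : (a : ℝ) ≤ b * ((a / b + 1 : ℕ) : ℝ) := by exact_mod_cast (Nat.lt_mul_div_succ a hb).le
  have h2 : (0 : ℝ) < b := Nat.cast_pos.2 hb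
  refine le_of_mul_le_mul_right (h.trans ?_) h2
  have := mul_le_mul_of_nonneg_right h1 hv
  linarith

/-- One root: q t is the parameter at the point t of the box, D the set of points where the table
encloses the powers of q t. Use seqQ_rel, Rep.lift, zipB_rel, evalR_sound with A = DualNumber ℂ at the
points ⟨t, 0, eps⟩, then fr_dual, herm_dv (if mu = 1), root_of_dv. -/
theorem root1 {x : Bx} {N mu S : ℕ} {c1 : Cf} (hc : CfOK c1 x.y x.pw 1 1 3) {R : List TM}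
    {q : ℂ → ℂ} {D : Set ℂ} (hD : ∀ t ∈ D, ‖t‖ ≤ 1)
    (hR : ∀ t ∈ D, List.Forall₂ (fun T k => Rep x.y 0 (⟨t, 0, 0⟩ : Pt ℂ) T
      (S * q t ^ (k + 1).choose 2)) R (List.range x.kmax).reverse)
    {cc : ℕ} (h1 : cc ≤ N) (h2 : N - cc ≤ x.kmax) (h3 : cc < x.kmax) {w v : CP}
    {ω ν : ℂ → ℂ → ℂ} (hw : CPok x.y w ω) (hv : CPok x.y v ν)
    (hmu : mu = 0 ∨ mu = 1 ∧ 1 ≤ N ∧ N ≤ x.Dt ∧ D = Metric.closedBall 0 1 ∧
      (∃ α : ℝ, 0 ≤ α ∧ α < 1 ∧ q = fun t => qq (α * t ^ 2)) ∧ ω 0 0 = -2 ^ x.pw ∧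
      Differentiable ℂ (fun t => ω t 0) ∧ Differentiable ℂ fun t => ν t 0)
    {F : FR} (hF : F = evalR c1 x.sh (x.K * (mu * (N - 1)))
      (zipB N (seqQ R (revL R []) x.kmax N cc) 0 1) w v) (hok : F.ok = true) (he : F.e < F.dl)
    {t : ℝ} (ht : (t : ℂ) ∈ D) (h0 : 0 < t ^ mu) (hq : q t ≠ 0) :
    ∃ ζ, pc (q t) N ζ = 0 ∧ ‖2 ^ x.pw * q t ^ cc * ζ - ω t 0‖ ≤
      ((N * 2 ^ x.sh * (F.l0 + F.e) / (F.dl - F.e) + 1 : ℕ) : ℝ) * t ^ mu := by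
  have hi : mu * (N - 1) ≤ 2 * x.y.Dt := by
    rcases hmu with rfl | ⟨rfl, _, h, _⟩
    · omega
    · have e : x.y.Dt = x.Dt := rfl
      omega
  obtain ⟨-, κ, o, hκ, H⟩ := evalR_sound (A := DualNumber ℂ) hc le_rfl (by norm_num) hi hw hv
    (F := F) hF hok
  have hκ' : (F.dl : ℝ) + o ≤ ‖κ‖ := hκ (by omega)
  have key : ∀ s ∈ D, ‖(dv (q s) N cc x.pw x.sh S (ω s 0) (ν s 0)).fst‖ ≤ F.l0 + F.e ∧
      ‖(dv (q s) N cc x.pw x.sh S (ω s 0) (ν s 0)).snd - κ * s ^ (mu * (N - 1))‖ ≤ o + F.e := by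
    intro s hs
    refine fr_dual (e := 0) (H ⟨s, 0, DualNumber.eps⟩ (t7_ok (hD s hs)) (t7_nil s) _ ?_)
    have a1 := seqQ_rel (Rel := fun T j => Rep x.y 1 (⟨s, 0, DualNumber.eps⟩ : Pt (DualNumber ℂ)) T
      (algebraMap ℂ (DualNumber ℂ) (S * q s ^ j)))
      ((hR s hs).imp fun T k h => Rep.lift (P := ⟨s, 0, DualNumber.eps⟩) h 1) h1 h2 h3
    rw [RepL, List.forall₂_map_right_iff]
    exact (zipB_rel a1).imp fun d n h => ⟨_, h.2, by rw [h.1]⟩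
  have hd : (0 : ℝ) < (F.dl : ℝ) - F.e := sub_pos.2 (Nat.cast_lt.2 he)
  have hcast : ((F.dl - F.e : ℕ) : ℝ) = (F.dl : ℝ) - F.e := Nat.cast_sub he.le
  rcases hmu with rfl | ⟨rfl, hN, -, rfl, ⟨α, a0, a1, rfl⟩, hω, dω, dν⟩
  · obtain ⟨k1, k2⟩ := key t ht
    rw [zero_mul, pow_zero, mul_one] at k2
    have k3 : (F.dl : ℝ) - F.e ≤ ‖(dv (q t) N cc x.pw x.sh S (ω t 0) (ν t 0)).snd‖ := by
      have := norm_sub_norm_le κ (dv (q t) N cc x.pw x.sh S (ω t 0) (ν t 0)).snd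
      rw [norm_sub_rev] at this
      linarith
    obtain ⟨ζ, z0, z1⟩ := root_of_dv hq hd k1 k3
    refine ⟨ζ, z0, t7_div (by omega) h0.le ?_⟩
    rw [hcast, pow_zero, mul_one]
    push_cast
    exact z1
  · rw [pow_one] at h0 ⊢
    have nt : ‖(t : ℂ)‖ = t := by rw [Complex.norm_real, Real.norm_of_nonneg h0.le]
    obtain ⟨k1, k2⟩ := herm_dv (N := N) (c := cc) (pw := x.pw) (sh := x.sh) (S := S) a0 a1 dω dν hω
      (κ := κ) (a := F.l0 + F.e) (b := o + F.e)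
      (fun s hs => by
        have := key s (by rwa [mem_closedBall_zero_iff])
        rwa [one_mul] at this) (hD t ht)
    rw [nt] at k1 k2
    have hp : 0 < t ^ (N - 1) := pow_pos h0 _
    have k3 : ((F.dl : ℝ) - F.e) * t ^ (N - 1) ≤ _ :=
      (mul_le_mul_of_nonneg_right (by linarith) hp.le).trans k2
    obtain ⟨ζ, z0, z1⟩ := root_of_dv hq (mul_pos hd hp) k1 k3
    refine ⟨ζ, z0, t7_div (by omega) h0.le ?_⟩
    have e : t ^ N = t * t ^ (N - 1) := by rw [← pow_succ', Nat.sub_add_cancel hN]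
    rw [e] at z1
    rw [hcast]
    push_cast
    refine le_of_mul_le_mul_right ?_ hp
    linarith

end Pool.Agent.Sok.E

/-! Soundness of the check for small degree: the list of roots. -/

namespace Pool.Agent.Sok.E

open Pool.Agent.MP_97ada9_an Finset

theorem t7b_eq (x : Bx) (N mu : ℕ) (c0 c1 : Cf) (ow ov : ℕ) (R F : List TM) (d : ℕ × ℕ × ℕ)
    (l : List (ℕ × ℕ × ℕ)) (v : CP) (rv : ℕ) :
    roots1 x N mu c0 c1 ow ov R F (d :: l) v rv =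
      mkCP x.y c0 d.2.1 x.bw x.dt 1 ow fun w => mkCP x.y c0 d.2.2 x.bv x.vt 1 ov fun nu =>
      FR.rec (motive := fun _ => Bool) (fun ok l0 _ dl e => force e fun e => force dl fun dl =>
        force (N * 2 ^ x.sh * (l0 + e) / (dl - e) + 1) fun rw =>
        cond (ok && Nat.blt e dl && Nat.ble d.1 N && Nat.ble (N - d.1) x.kmax &&
            Nat.blt d.1 x.kmax && (Nat.beq mu 0 || herm0 d.2.1 x.bw x.dt) &&
            (Nat.beq rv 0 || gapR c0 (x.K * mu) v rv w rw))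
          (roots1 x N mu c0 c1 ow ov R F l w rw) false)
        (evalR c1 x.sh (x.K * (mu * (N - 1))) (zipB N (seqQ R F x.kmax N d.1) 0 1) w nu) := rfl

/-- One step of the recursion of roots1. -/
theorem t7b_cons {x : Bx} {N mu : ℕ} {c0 c1 : Cf} {p r R' nb : ℕ} (hc0 : CfOK c0 x.y p r R' nb)
    (hdt : x.dt ≤ x.Dt + 1) (hvt : x.vt ≤ x.Dt + 1) {R F : List TM} {d : ℕ × ℕ × ℕ}
    {l : List (ℕ × ℕ × ℕ)} {v : CP} {rv : ℕ}
    (h : roots1 x N mu c0 c1 (offs x.y x.bw x.dt 1) (offs x.y x.bv x.vt 1) R F (d :: l) v rv =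
      true) :
    ∃ w nu : CP, ∃ G : FR, CPok x.y w (cv d.2.1 x.bw x.dt 1) ∧ CPok x.y nu (cv d.2.2 x.bv x.vt 1) ∧
      G = evalR c1 x.sh (x.K * (mu * (N - 1))) (zipB N (seqQ R F x.kmax N d.1) 0 1) w nu ∧
      G.ok = true ∧ G.e < G.dl ∧ d.1 ≤ N ∧ N - d.1 ≤ x.kmax ∧ d.1 < x.kmax ∧
      (mu = 0 ∨ herm0 d.2.1 x.bw x.dt = true) ∧
      (rv = 0 ∨ gapR c0 (x.K * mu) v rv w (N * 2 ^ x.sh * (G.l0 + G.e) / (G.dl - G.e) + 1) = true) ∧
      roots1 x N mu c0 c1 (offs x.y x.bw x.dt 1) (offs x.y x.bv x.vt 1) R F l w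
        (N * 2 ^ x.sh * (G.l0 + G.e) / (G.dl - G.e) + 1) = true := by
  obtain ⟨w, hw, ew⟩ := mkCP_sound hc0 (dt := x.dt) (de := 1) hdt (Nat.le_add_left 1 _) d.2.1 x.bw
  obtain ⟨nu, hnu, enu⟩ := mkCP_sound hc0 (dt := x.vt) (de := 1) hvt (Nat.le_add_left 1 _) d.2.2 x.bv
  rw [t7b_eq, ew, enu] at h
  generalize hG : evalR c1 x.sh (x.K * (mu * (N - 1))) (zipB N (seqQ R F x.kmax N d.1) 0 1)
    w nu = G at h
  refine ⟨w, nu, G, hw, hnu, hG.symm, ?_⟩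
  simp only [force_eq, Bool.cond_eq_ite, Bool.if_false_right, Bool.and_eq_true, Bool.or_eq_true,
    Nat.blt_eq, Nat.ble_eq, Nat.beq_eq, decide_eq_true_eq] at h
  obtain ⟨⟨⟨⟨⟨⟨⟨h1, h2⟩, h3⟩, h4⟩, h5⟩, h6⟩, h7⟩, h8⟩ := h
  exact ⟨h1, h2, h3, h4, h5, h6, h7, h8⟩

/-- The list of roots at a fixed real point, with the number one appended. -/
theorem t7b_ind {x : Bx} {N mu S : ℕ} {c0 c1 : Cf} {p r R' nb : ℕ} (hc0 : CfOK c0 x.y p r R' nb)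
    (hc1 : CfOK c1 x.y x.pw 1 1 3) (hdt : x.dt ≤ x.Dt + 1) (hvt : x.vt ≤ x.Dt + 1) {R : List TM}
    {q : ℂ → ℂ} {D : Set ℂ} (hD : ∀ t ∈ D, ‖t‖ ≤ 1)
    (hR : ∀ t ∈ D, List.Forall₂ (fun T k => Rep x.y 0 (⟨t, 0, 0⟩ : Pt ℂ) T
      (S * q t ^ (k + 1).choose 2)) R (List.range x.kmax).reverse)
    (hmu : mu = 0 ∨ mu = 1 ∧ 1 ≤ N ∧ N ≤ x.Dt ∧ D = Metric.closedBall 0 1 ∧
      (∃ α : ℝ, 0 ≤ α ∧ α < 1 ∧ q = fun t => qq (α * t ^ 2)) ∧ x.De = 0 ∧ x.bw = x.pw ∧ 0 < x.dt)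
    {t : ℝ} (ht : (t : ℂ) ∈ D) (h0 : 0 < t ^ mu) (hq : ‖q t‖ = 1) (l : List (ℕ × ℕ × ℕ)) :
    ∀ (v : CP) (ω : ℂ → ℂ → ℂ) (rv : ℕ), CPok x.y v ω →
      roots1 x N mu c0 c1 (offs x.y x.bw x.dt 1) (offs x.y x.bv x.vt 1) R (revL R []) l v rv =
        true →
      ∃ ζ : ℕ → ℂ, (∀ j < l.length, pc (q t) N (ζ j) = 0) ∧
        (∀ j < l.length, ‖ζ j‖ < ‖ζ (j + 1)‖) ∧ ‖ζ l.length‖ = 1 ∧
        (rv ≠ 0 → ∀ u : ℂ, ‖u - ω t 0‖ ≤ rv * t ^ mu → ‖u‖ < 2 ^ x.pw * ‖ζ 0‖) := by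
  have ht1 : |t| ≤ 1 := by simpa using hD _ ht
  have hq0 : q t ≠ 0 := fun e => by simp [e] at hq
  have hmu' : mu = 0 ∨ mu = 1 ∧ x.y.De = 0 ∧ 1 ≤ x.y.Dt := by
    rcases hmu with h | ⟨h1, h2, h3, -, -, h4, -⟩
    · exact Or.inl h
    · exact Or.inr ⟨h1, h4, h2.trans h3⟩
  induction l with
  | nil =>
    intro v ω rv hv h
    refine ⟨fun _ => 1, by simp, by simp, by simp, fun _ u hu => ?_⟩
    have h' : gapR c0 (x.y.K * mu) v rv (cstCP (2 ^ x.pw)) 0 = true := h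
    have := gapR_sound hc0 hmu' hv (cstCP_sound x.y (2 ^ x.pw)) h' (t := t) (e := 0) ht1 (by simp)
      h0 (u := u) (u' := ((2 ^ x.pw : ℕ) : ℂ)) (by simpa using hu) (by simp)
    simpa using this
  | cons d l ih =>
    intro v ω rv hv h
    obtain ⟨w, nu, G, hw, hnu, hG, h1, h2, h3, h4, h5, h6, h7, h8⟩ := t7b_cons hc0 hdt hvt h
    obtain ⟨ζ0, hz, hn⟩ := root1 hc1 hD hR h3 h4 h5 hw hnu (mu := mu) (by
      rcases hmu with h | ⟨m1, m2, m3, m4, m5, m6, m7, m8⟩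
      · exact Or.inl h
      · refine Or.inr ⟨m1, m2, m3, m4, m5, ?_, cv_diff _ _ _ _ _, cv_diff _ _ _ _ _⟩
        rcases h6 with h6 | h6
        · omega
        · rw [herm0_sound h6 m8, m7]) hG h1 h2 ht h0 hq0
    obtain ⟨ζ, z1, z2, z3, z4⟩ := ih w _ _ hw h8
    have hnorm : ‖(2 : ℂ) ^ x.pw * q t ^ d.1 * ζ0‖ = 2 ^ x.pw * ‖ζ0‖ := by
      simp [hq]
    refine ⟨fun j => Nat.casesOn j ζ0 ζ, ?_, ?_, z3, fun hrv u hu => ?_⟩
    · intro j hj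
      cases j with
      | zero => exact hz
      | succ j => exact z1 j (by simpa using hj)
    · intro j hj
      cases j with
      | zero =>
        have := z4 (Nat.succ_ne_zero _) _ hn
        rw [hnorm] at this
        exact lt_of_mul_lt_mul_left this (by positivity)
      | succ j => exact z2 j (by simpa using hj)
    · rcases h7 with h7 | h7
      · exact absurd h7 hrv
      · have := gapR_sound hc0 hmu' hv hw h7 (t := t) (e := 0) ht1 (by simp) h0 (u := u)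
          (u' := 2 ^ x.pw * q t ^ d.1 * ζ0) (by simpa using hu) (by simpa using hn)
        rw [hnorm] at this
        exact this

/-- The common part of the two cases. -/
theorem t7b_box {x : Bx} {N mu : ℕ} {l : List (ℕ × ℕ × ℕ)} (h : box1 x N mu l = true)
    {τ : ℂ → ℂ} {D : Set ℂ} (hD : ∀ t ∈ D, ‖t‖ ≤ 1)
    (hτ : ∀ t ∈ D, 2 ^ x.m * τ t = x.a0 + x.a1 * t + x.a2 * t ^ 2 ∧ 1 - Complex.I * τ t ≠ 0 ∧
      ‖(1 - Complex.I * τ t)⁻¹‖ ≤ 2 ∧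
      ‖(1 + Complex.I * τ t) / (1 - Complex.I * τ t)‖ * (2 ^ x.m - x.a2) ≤ 2 ^ x.m + x.a2)
    (h2 : x.a2 < 2 ^ x.m)
    (hmu : mu = 0 ∨ mu = 1 ∧ N ≤ x.Dt ∧ D = Metric.closedBall 0 1 ∧
      (∃ α : ℝ, 0 ≤ α ∧ α < 1 ∧ τ = fun s : ℂ => α * s ^ 2) ∧ x.bw = x.pw ∧ 0 < x.dt)
    {t : ℝ} (ht : (t : ℂ) ∈ D) (h0 : 0 < t ^ mu) (hq : ‖qq (τ t)‖ = 1) : OnePer (qq (τ t)) N := by
  unfold box1 at h
  simp only [Bool.cond_eq_ite, Bool.if_false_right, Bool.and_eq_true, decide_eq_true_eq] at h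
  obtain ⟨hwf, h⟩ := h
  unfold wf1 wf at hwf
  simp only [Bool.and_eq_true, Nat.blt_eq, Nat.ble_eq, Nat.beq_eq] at hwf
  obtain ⟨⟨⟨⟨⟨⟨⟨⟨⟨⟨⟨w1, w2⟩, w3⟩, w4⟩, w5⟩, w6⟩, -⟩, -⟩, w7⟩, w8⟩, w9⟩, -⟩ := hwf
  obtain ⟨c0, hc0, e0⟩ := mkCf_sound x.y (p := x.m + x.z) (r := 0) (R := 0) (nb := 1) w1 le_rfl
    Nat.one_pos (lt_of_le_of_lt (Nat.mul_le_mul_right _ (by norm_num)) w3)
  obtain ⟨c1, hc1, e1⟩ := mkCf_sound x.y (p := x.pw) (r := 1) (R := 1) (nb := 3) w2 le_rfl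
    (by norm_num) w3
  change mkCf x.y (x.m + x.z) 0 0 1 _ = true at h
  rw [e0, e1] at h
  simp only [force_eq, forceL_eq] at h
  obtain ⟨ζ, z1, z2, z3, -⟩ := t7b_ind (S := 2 ^ (x.m + x.z)) (q := fun t => qq (τ t)) hc0 hc1 w5 w6
    hD (fun t ht => by
      obtain ⟨a1, a2, a3, a4⟩ := hτ t ht
      have := tabQ_rep hc0 w4 (P := ⟨t, 0, 0⟩) ⟨hD t ht, by simp, by simp⟩ a1 a2 a3 h2 a4 x.it x.k0
        x.kmax
      simpa using this) (mu := mu) (by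
      rcases hmu with h | ⟨m1, m2, m3, ⟨α, m4, m5, m6⟩, m7, m8⟩
      · exact Or.inl h
      · exact Or.inr ⟨m1, by omega, m2, m3, ⟨α, m4, m5, by rw [m6]⟩, w7, m7, m8⟩)
    ht h0 hq l _ _ _ (cstCP_sound x.y 0) h
  rw [w8] at z1 z2 z3
  refine onePer_of_half hq ζ z1 (fun j hj => ?_) fun j hj => z2 j (by omega)
  rw [← z3]
  exact a1_mono ζ (N / 2 + 1) (fun j hj => z2 j (by omega)) j (N / 2) hj (by omega)

theorem t7b_wf {x : Bx} {N mu : ℕ} {l : List (ℕ × ℕ × ℕ)} (h : box1 x N mu l = true) :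
    wf1 x N mu l.length = true := by
  unfold box1 at h
  simp only [Bool.cond_eq_ite, Bool.if_false_right, Bool.and_eq_true, decide_eq_true_eq] at h
  exact h.1

/-- Induction on the list l for roots1, at a fixed real point t: there is a list of roots ζ j with
increasing norms below one, and if rv ≠ 0 the first one has 2 ^ pw * ‖ζ 0‖ > ‖u‖ for all u in the
disc of radius rv * t ^ mu about the value of v (gapR_sound). Then onePer_of_half.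
The point is t = (2 ^ m τ - a0) / a1, D = real points of norm at most one (tabQ_rep). -/
theorem box1_sound0 {x : Bx} {N : ℕ} {l : List (ℕ × ℕ × ℕ)} (h : box1 x N 0 l = true) :
    Seg x.m N (x.a0 - x.a1) (x.a0 + x.a1) := by
  intro τ _ hlo hhi
  have hwf := t7b_wf h
  unfold wf1 at hwf
  simp only [Bool.and_eq_true] at hwf
  have hw := hwf.2
  change (Nat.beq x.a2 0 && Nat.blt 0 x.a1) = true at hw
  simp only [Bool.and_eq_true, Nat.blt_eq, Nat.beq_eq] at hw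
  obtain ⟨w1, w2⟩ := hw
  have ha1 : (0 : ℝ) < x.a1 := by exact_mod_cast w2
  have hlo' : (x.a0 : ℝ) - x.a1 ≤ 2 ^ x.m * τ := by
    refine le_trans ?_ hlo
    rcases le_total x.a1 x.a0 with e | e
    · rw [Nat.cast_sub e]
    · have : (x.a0 : ℝ) ≤ x.a1 := by exact_mod_cast e
      have := Nat.cast_nonneg (α := ℝ) (x.a0 - x.a1)
      linarith
  push_cast at hhi
  set t : ℝ := (2 ^ x.m * τ - x.a0) / x.a1 with htd
  have ht : |t| ≤ 1 := by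
    rw [htd, abs_div, abs_of_pos ha1, div_le_one ha1, abs_le]
    constructor <;> linarith
  have hre : 1 ≤ ‖(1 : ℂ) - Complex.I * τ‖ := by
    have := Complex.abs_re_le_norm ((1 : ℂ) - Complex.I * τ)
    simpa using this
  have hn : ‖(1 + Complex.I * τ) / (1 - Complex.I * τ)‖ = 1 := by
    have := norm_qq τ
    rw [qq, norm_pow] at this
    exact (pow_eq_one_iff_of_nonneg (norm_nonneg _) two_ne_zero).1 this
  refine t7b_box h (τ := fun _ => (τ : ℂ)) (D := {(t : ℂ)}) (t := t) ?_ ?_ ?_ (Or.inl rfl) rfl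
    (by simp) (norm_qq τ)
  · intro s hs
    rw [Set.mem_singleton_iff.1 hs]
    simpa using ht
  · intro s hs
    rw [Set.mem_singleton_iff.1 hs]
    refine ⟨?_, a1_ne τ, ?_, ?_⟩
    · have e : (2 : ℝ) ^ x.m * τ = x.a0 + x.a1 * t := by
        rw [htd]
        field_simp
        ring
      have e' : (2 : ℂ) ^ x.m * τ = x.a0 + x.a1 * t := by exact_mod_cast e
      rw [w1, e']
      simp
    · rw [norm_inv]
      exact (inv_le_one_of_one_le₀ hre).trans one_le_two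
    · rw [hn, w1]
      simp
  · rw [w1]
    positivity

/-- The point is t = sqrt (2 ^ m τ / a2), D = closed unit disc, α = a2 / 2 ^ m ≤ 1 / 2. -/
theorem box1_sound1 {x : Bx} {N : ℕ} {l : List (ℕ × ℕ × ℕ)} (h : box1 x N 1 l = true) :
    Seg x.m N 0 x.a2 := by
  intro τ hτ _ hhi
  have hwf := t7b_wf h
  unfold wf1 at hwf
  simp only [Bool.and_eq_true] at hwf
  have hw := hwf.2
  change (Nat.beq 1 1 && Nat.beq x.a0 0 && Nat.beq x.a1 0 && Nat.blt 0 x.a2 &&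
    Nat.ble (2 * x.a2) (2 ^ x.m) && Nat.ble N x.Dt && Nat.beq x.bw x.pw && Nat.blt 0 x.dt) = true
    at hw
  simp only [Bool.and_eq_true, Nat.blt_eq, Nat.beq_eq, Nat.ble_eq] at hw
  obtain ⟨⟨⟨⟨⟨⟨⟨-, w1⟩, w2⟩, w3⟩, w4⟩, w5⟩, w6⟩, w7⟩ := hw
  have ha2 : (0 : ℝ) < x.a2 := by exact_mod_cast w3
  have hm : (0 : ℝ) < 2 ^ x.m := by positivity
  have w4' : 2 * (x.a2 : ℝ) ≤ 2 ^ x.m := by exact_mod_cast w4
  set α : ℝ := x.a2 / 2 ^ x.m with hα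
  have hα0 : 0 < α := div_pos ha2 hm
  have hα1 : α ≤ 1 / 2 := by
    rw [hα, div_le_iff₀ hm]
    linarith
  have hαm : (x.a2 : ℝ) = 2 ^ x.m * α := by
    rw [hα]
    field_simp
  set t : ℝ := Real.sqrt (τ / α) with htd
  have ht0 : 0 < t := Real.sqrt_pos.2 (div_pos hτ hα0)
  have ht2 : α * t ^ 2 = τ := by
    rw [htd, Real.sq_sqrt (div_pos hτ hα0).le]
    field_simp
  have ht1 : t ≤ 1 := by
    rw [htd, Real.sqrt_le_one, div_le_one hα0]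
    rw [hαm] at hhi
    exact le_of_mul_le_mul_left hhi hm
  have e : (α : ℂ) * (t : ℂ) ^ 2 = τ := by exact_mod_cast ht2
  rw [← e]
  refine t7b_box h (τ := fun s => (α : ℂ) * s ^ 2) (D := Metric.closedBall 0 1) (t := t)
    (fun s hs => by simpa using hs) ?_ (by omega)
    (Or.inr ⟨rfl, w5, rfl, ⟨α, hα0.le, by linarith, rfl⟩, w6, w7⟩)
    (by simpa [abs_of_pos ht0] using ht1) (by simpa using ht0) (by
      simp only [e]
      exact norm_qq τ)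
  intro s hs
  have hs1 : ‖s‖ ≤ 1 := by simpa using hs
  have hb : ‖Complex.I * ((α : ℂ) * s ^ 2)‖ ≤ α := by
    rw [norm_mul, Complex.norm_I, one_mul, norm_mul, norm_pow, Complex.norm_real,
      Real.norm_of_nonneg hα0.le]
    exact mul_le_of_le_one_right hα0.le (pow_le_one₀ (norm_nonneg _) hs1)
  have hl : 1 - α ≤ ‖1 - Complex.I * ((α : ℂ) * s ^ 2)‖ := by
    have := norm_sub_norm_le (1 : ℂ) (Complex.I * ((α : ℂ) * s ^ 2))
    rw [norm_one] at this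
    linarith
  have hu : ‖1 + Complex.I * ((α : ℂ) * s ^ 2)‖ ≤ 1 + α := by
    have := norm_add_le (1 : ℂ) (Complex.I * ((α : ℂ) * s ^ 2))
    rw [norm_one] at this
    linarith
  have hpos : 0 < ‖1 - Complex.I * ((α : ℂ) * s ^ 2)‖ := by linarith
  refine ⟨?_, norm_pos_iff.1 hpos, ?_, ?_⟩
  · have e2 : (x.a2 : ℂ) = 2 ^ x.m * α := by exact_mod_cast hαm
    rw [w1, w2, e2]
    simp only [Nat.cast_zero]
    ring
  · rw [norm_inv, inv_le_comm₀ hpos two_pos]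
    linarith
  · rw [norm_div, div_mul_eq_mul_div, div_le_iff₀ hpos, hαm]
    have h1 : (0 : ℝ) ≤ 1 - α := by linarith
    calc ‖1 + Complex.I * ((α : ℂ) * s ^ 2)‖ * (2 ^ x.m - 2 ^ x.m * α)
        ≤ (1 + α) * (2 ^ x.m - 2 ^ x.m * α) :=
          mul_le_mul_of_nonneg_right hu (by nlinarith)
      _ = (2 ^ x.m + 2 ^ x.m * α) * (1 - α) := by ring
      _ ≤ _ := mul_le_mul_of_nonneg_left hl (by positivity)

end Pool.Agent.Sok.E

/-! Soundness of the check of one box for large degree. -/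

namespace Pool.Agent.Sok.E

open Pool.Agent.MP_97ada9_an Finset

/-- The degrees covered by a chain. -/
def Ch.mem (h : Ch) (N : ℕ) : Prop := h.Nlo ≤ N ∧ (h.ae - h.be) * N ≤ 2 ^ h.m

/-- The value of the variable e. -/
noncomputable def Ch.e (h : Ch) (N : ℕ) : ℝ := (2 ^ h.m / N - h.ae) / h.be

/-- The value of the variable t. -/
noncomputable def B2.t (b : B2) (τ : ℝ) : ℝ := (2 ^ b.x.m * τ - b.x.a0) / b.x.a1

noncomputable def B2.lo (b : B2) : ℝ := ((b.x.a0 - b.x.a1 : ℕ) : ℝ) / 2 ^ b.x.m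

noncomputable def B2.hi (b : B2) : ℝ := ((b.x.a0 + b.x.a1 : ℕ) : ℝ) / 2 ^ b.x.m

noncomputable def B2.w (b : B2) (j : ℕ) : ℂ → ℂ → ℂ := cv (b.rt j).1 b.x.bw b.x.dt b.x.de

noncomputable def cen (h : Ch) (b : B2) (N j : ℕ) (τ : ℝ) : ℂ :=
  h.lam / (N * 2 ^ b.x.pw) * b.w j (b.t τ) (h.e N) / qq τ ^ h.cc

noncomputable def rad (h : Ch) (b : B2) (N j : ℕ) : ℝ := h.lam / (N * 2 ^ b.x.pw) * (b.rt j).2.2

noncomputable def rho (h : Ch) (b : B2) (N : ℕ) : ℝ := h.lam / (N * 2 ^ b.x.pw) * 2 ^ b.x.sh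

theorem t8_val (T W : ℂ) (pw M : ℕ) (c : ℕ → ℂ) :
    hv ((2 : ℂ) ^ pw)⁻¹ W ((((Nat.pow 2 pw : ℕ) : ℂ) * T) ::
      (List.range M).reverse.map fun n => ((Nat.pow 2 pw : ℕ) : ℂ) * c n) 0 =
      T * (W / 2 ^ pw) ^ M + ∑ n ∈ range M, c n * (W / 2 ^ pw) ^ n := by
  have hb : ((Nat.pow 2 pw : ℕ) : ℂ) = 2 ^ pw := by
    show ((2 ^ pw : ℕ) : ℂ) = 2 ^ pw
    push_cast; rfl
  have h2 : (2 : ℂ) ^ pw ≠ 0 := pow_ne_zero _ two_ne_zero
  have h0 : ∀ (g : ℂ) (gs : List ℂ), hv ((2 : ℂ) ^ pw)⁻¹ W (g :: gs) 0 =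
      hv ((2 : ℂ) ^ pw)⁻¹ W gs (((2 : ℂ) ^ pw)⁻¹ • (0 * W + g)) := fun _ _ => rfl
  have hW : ((2 : ℂ) ^ pw)⁻¹ • W = W / 2 ^ pw := by
    rw [smul_eq_mul]; field_simp
  rw [h0, hv_range, hW, hb, smul_eq_mul, smul_eq_mul, mul_sum]
  congr 1
  · field_simp; ring
  · exact sum_congr rfl fun n _ => by field_simp

theorem t8_diff (q : ℂ) (N c : ℕ) : Differentiable ℂ (gc q N c) :=
  fun w => (a2_gd q N c w).differentiableAt

theorem t8_repL {y : Ly} {P : Pt ℂ} {l : List (ℕ × TM)} {gs : List ℂ} (h : RepL y 0 P l gs)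
    (r : ℕ) : RepL y r P l gs :=
  List.Forall₂.imp (fun _ _ ⟨x, hx, hg⟩ => ⟨x, hx.mono (Nat.zero_le r), hg⟩) h

/-- One root. G u stands for gc q N cc (lam * (u / 2 ^ pw) / N). For ‖η‖ ≤ 1 take T from gc_tail at
u = (ω + 2 ^ sh η) / 2 ^ pw, then coefL_rep at the point ⟨t, e, η⟩ (Rep.lift, Rep.mono),
evalR_sound, hv_range show that f η = ν * c0 * G (ω + 2 ^ sh η) satisfies the hypothesis of
root_of_fr. -/
theorem root2 {y : Ly} {m z pw r sh : ℕ} {c0 c1 : Cf} (hc0 : CfOK c0 y (m + z) 0 0 1)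
    (hc1 : CfOK c1 y pw r (r + 1) (r + 2)) (hD : 1 ≤ y.De) {t e q : ℂ} (ht : ‖t‖ ≤ 1)
    (he : ‖e‖ ≤ 1) (hq : ‖q‖ ≤ 1) {ae be N : ℕ} (hN : 0 < N)
    (hε : (2 : ℂ) ^ m = N * (ae + be * e)) {l : List TM} {M cc : ℕ}
    (hl : List.Forall₂ (fun T n => Rep y 0 (⟨t, e, 0⟩ : Pt ℂ) T (2 ^ (m + z) * q ^ ex cc n)) l
      (List.range M)) (lam k0 : ℕ) {w v : CP} {ω ν : ℂ → ℂ → ℂ} (hw : CPok y w ω)
    (hv : CPok y v ν) {F : FR} (hF : F = evalR c1 sh 0 (coefL y c0 m z lam ae be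
      (Nat.pow 2 (Nat.add m z)) (Nat.pow 2 pw) l 0 (monT k0 0 0) []) w v) (hok : F.ok = true)
    {R : ℕ} (h1 : 2 * (F.l0 + F.e) * 4 ^ sh + F.l2 * R * R < F.dl * R * 2 ^ sh) (h2 : R < 2 ^ sh)
    (h3 : 2 * lam * (w.n + 2 ^ sh) ≤ (M + 1) * 2 ^ pw) :
    (∃ u : ℂ, ‖u - ω t e‖ ≤ R ∧ gc q N cc (lam * (u / 2 ^ pw) / N) = 0) ∧
      (F.l0 + F.e + F.l2 < F.dl → ∀ u : ℂ, gc q N cc (lam * (u / 2 ^ pw) / N) = 0 →
        ‖u - ω t e‖ ≤ 2 ^ sh → ‖u - ω t e‖ ≤ R) := by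
  have hF' : F = evalR c1 sh (y.K * 0) (coefL y c0 m z lam ae be
      (Nat.pow 2 (Nat.add m z)) (Nat.pow 2 pw) l 0 (monT k0 0 0) []) w v := by
    rw [hF, Nat.mul_zero]
  obtain ⟨hwok, κ, o, hκ, H⟩ := evalR_sound (A := ℂ) hc1 (Nat.succ_le_succ (Nat.zero_le r))
    (Nat.lt_succ_self (r + 1)) (Nat.zero_le _) hw hv hF' hok
  obtain ⟨_, _, _, _, _, _, hn⟩ := hw hwok
  have hω := hn t e ht he
  have hp : (0 : ℝ) < 2 ^ pw := by positivity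
  have hs : (0 : ℝ) < 2 ^ sh := by positivity
  have hsc : (2 : ℂ) ^ sh ≠ 0 := pow_ne_zero _ two_ne_zero
  have hns : ‖(2 : ℂ) ^ sh‖ = 2 ^ sh := by simp
  set f : ℂ → ℂ := fun η => ν t e * (k0 * gc q N cc (lam * ((ω t e + 2 ^ sh * η) / 2 ^ pw) / N))
    with hf
  have hdf : Differentiable ℂ f := by
    refine Differentiable.const_mul (Differentiable.const_mul ?_ _) _
    refine (t8_diff q N cc).comp (f := fun η : ℂ => lam * ((ω t e + 2 ^ sh * η) / 2 ^ pw) / N) ?_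
    fun_prop
  have hfr : ∀ η : ℂ, ‖η‖ ≤ 1 → FRok F κ o 0 ⟨t, e, η⟩ (f η) := by
    intro η hη
    have hP : (⟨t, e, η⟩ : Pt ℂ).ok := ⟨ht, he, hη⟩
    have hu : 2 * lam * ‖(ω t e + 2 ^ sh * η) / 2 ^ pw‖ ≤ (M : ℝ) + 1 := by
      have a1 : ‖ω t e + 2 ^ sh * η‖ ≤ w.n + 2 ^ sh := by
        refine (norm_add_le _ _).trans (add_le_add hω ?_)
        rw [norm_mul, hns]
        exact mul_le_of_le_one_right hs.le hη
      have a2 : (2 * lam * (w.n + 2 ^ sh) : ℝ) ≤ (M + 1) * 2 ^ pw := by exact_mod_cast h3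
      have a3 : ‖(2 : ℂ) ^ pw‖ = 2 ^ pw := by simp
      rw [norm_div, a3, ← mul_div_assoc, div_le_iff₀ hp]
      exact (mul_le_mul_of_nonneg_left a1 (by positivity)).trans a2
    obtain ⟨T, hT, hTe⟩ := gc_tail hq hN cc (k0 : ℂ) hu
    have hl' : List.Forall₂ (fun T n => Rep y 0 (⟨t, e, η⟩ : Pt ℂ) T (2 ^ (m + z) * q ^ ex cc n)) l
        (List.range M) :=
      List.Forall₂.imp (fun _ _ h => Rep.lift (P := (⟨t, e, η⟩ : Pt ℂ)) h 0) hl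
    have hL := coefL_rep hc0 hD hP hN hε (qs := fun n => q ^ ex cc n)
      (fun n => by rw [norm_pow]; exact pow_le_one₀ (norm_nonneg _) hq) hl' lam k0 (Nat.pow 2 pw) hT
    have := H ⟨t, e, η⟩ hP (fun k a b => by omega) _ (t8_repL hL r)
    rw [t8_val] at this
    have e1 : f η = ν t e • (T * ((algebraMap ℂ ℂ (ω t e) + ((2 : ℂ) ^ sh) • η) / 2 ^ pw) ^ M +
        ∑ n ∈ range M, k0 * N.choose n * ((lam : ℂ) / N) ^ n * q ^ ex cc n *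
          ((algebraMap ℂ ℂ (ω t e) + ((2 : ℂ) ^ sh) • η) / 2 ^ pw) ^ n) := by
      simp only [hf, hTe, smul_eq_mul, Algebra.algebraMap_self, RingHom.id_apply]
    rw [e1]
    exact this
  obtain ⟨⟨η, hη, h0⟩, ⟨η1, hη1⟩, h4⟩ := root_of_fr hdf hfr hκ h1 h2
  have hν : ν t e ≠ 0 := fun h => hη1 (by simp only [hf, h, zero_mul])
  have hk : (k0 : ℂ) ≠ 0 := fun h => hη1 (by simp only [hf, h, zero_mul, mul_zero])
  refine ⟨⟨ω t e + 2 ^ sh * η, ?_, ?_⟩, fun h5 u hu0 hu1 => ?_⟩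
  · rw [add_sub_cancel_left, norm_mul, hns, mul_comm]; exact hη
  · exact (mul_eq_zero.1 ((mul_eq_zero.1 h0).resolve_left hν)).resolve_left hk
  · have e2 : ω t e + 2 ^ sh * ((u - ω t e) / 2 ^ sh) = u := by field_simp; ring
    have e3 : ‖(u - ω t e) / 2 ^ sh‖ * 2 ^ sh = ‖u - ω t e‖ := by
      rw [norm_div, hns]; field_simp
    have := h4 h5 ((u - ω t e) / 2 ^ sh) (by rw [norm_div, hns, div_le_one hs]; exact hu1)
      (by simp only [hf, e2, hu0, mul_zero])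
    rwa [e3] at this

/-- What the check of the roots gives at one real point; G u = 0 is the equation. -/
structure UB (h : Ch) (b : B2) (t e : ℝ) (G : ℂ → ℂ) : Prop where
  root : ∀ j ≤ b.J, ∃ u, G u = 0 ∧ ‖u - b.w j t e‖ ≤ (b.rt j).2.2
  gap : ∀ j < b.J, ∀ u v : ℂ, ‖u - b.w j t e‖ ≤ (b.rt j).2.2 →
    ‖v - b.w (j + 1) t e‖ ≤ (b.rt (j + 1)).2.2 → ‖u‖ < ‖v‖
  hρ : (b.rt b.J).2.2 < 2 ^ b.x.sh
  trap : ∀ u, G u = 0 → ‖u - b.w b.J t e‖ ≤ 2 ^ b.x.sh → ‖u - b.w b.J t e‖ ≤ (b.rt b.J).2.2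
  bar : ∀ u : ℂ, ‖u - b.w b.J t e‖ ≤ (b.rt b.J).2.2 →
    b.Z1 ≤ ‖u‖ ∧ h.lam * ‖u‖ ≤ h.Nlo * 2 ^ b.x.pw

theorem t8_wf {h : Ch} {b : B2} (hw : wf2 h b = true) : 0 < b.x.a1 ∧ b.x.a1 < b.x.a0 ∧ 0 < h.be ∧
    h.be ≤ h.ae ∧ 2 ^ h.m ≤ (h.ae + h.be) * h.Nlo ∧ 40 ≤ h.Nlo := by
  simp only [wf2, Bool.and_eq_true, Nat.ble_eq, Nat.blt_eq] at hw
  obtain ⟨⟨⟨⟨⟨⟨⟨⟨⟨⟨⟨-, a1⟩, a2⟩, a3⟩, a4⟩, a5⟩, a6⟩, -⟩, -⟩, -⟩, -⟩, -⟩ := hw
  exact ⟨a1, a2, a3, a4, a5, a6⟩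

theorem e_mem {h : Ch} {b : B2} (hw : wf2 h b = true) {N : ℕ} (hN : h.mem N) :
    |h.e N| ≤ 1 ∧ (2 : ℂ) ^ h.m = N * (h.ae + h.be * (h.e N : ℂ)) ∧ 40 ≤ N := by
  obtain ⟨-, -, a3, a4, a5, a6⟩ := t8_wf hw
  obtain ⟨b1, b2⟩ := hN
  have hN0 : (0 : ℝ) < N := by exact_mod_cast (by omega : 0 < N)
  have hb : (0 : ℝ) < h.be := by exact_mod_cast a3
  have c1 : (2 : ℝ) ^ h.m ≤ (h.ae + h.be) * N := by
    exact_mod_cast a5.trans (Nat.mul_le_mul_left _ b1)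
  have c2 : ((h.ae : ℝ) - h.be) * N ≤ 2 ^ h.m := by
    have : (((h.ae - h.be) * N : ℕ) : ℝ) ≤ (2 ^ h.m : ℕ) := by exact_mod_cast b2
    rw [Nat.cast_mul, Nat.cast_sub a4] at this
    exact_mod_cast this
  have c3 : (2 : ℝ) ^ h.m / N ≤ h.ae + h.be := by rwa [div_le_iff₀ hN0]
  have c4 : (h.ae : ℝ) - h.be ≤ 2 ^ h.m / N := by rwa [le_div_iff₀ hN0]
  refine ⟨?_, ?_, by omega⟩
  · rw [Ch.e, abs_le, le_div_iff₀ hb, div_le_iff₀ hb]
    constructor <;> linarith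
  · have : (2 : ℝ) ^ h.m = N * (h.ae + h.be * h.e N) := by
      rw [Ch.e]; field_simp; ring
    exact_mod_cast congrArg (fun x : ℝ => (x : ℂ)) this

theorem t_mem {h : Ch} {b : B2} (hw : wf2 h b = true) {τ : ℝ} (hτ : τ ∈ Set.Icc b.lo b.hi) :
    |b.t τ| ≤ 1 ∧ (2 : ℂ) ^ b.x.m * τ = b.x.a0 + b.x.a1 * (b.t τ : ℂ) ∧ 0 < b.lo ∧ b.lo ≤ b.hi ∧
      b.t b.lo = -1 ∧ b.t b.hi = 1 := by
  obtain ⟨a1, a2, -⟩ := t8_wf hw
  have h1 : (0 : ℝ) < b.x.a1 := by exact_mod_cast a1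
  have h2 : (b.x.a1 : ℝ) < b.x.a0 := by exact_mod_cast a2
  have hm : (0 : ℝ) < 2 ^ b.x.m := by positivity
  have elo : b.lo = (b.x.a0 - b.x.a1) / 2 ^ b.x.m := by rw [B2.lo, Nat.cast_sub a2.le]
  have ehi : b.hi = (b.x.a0 + b.x.a1) / 2 ^ b.x.m := by rw [B2.hi, Nat.cast_add]
  obtain ⟨c1, c2⟩ := hτ
  refine ⟨?_, ?_, ?_, c1.trans c2, ?_, ?_⟩
  · rw [elo, div_le_iff₀ hm] at c1
    rw [ehi, le_div_iff₀ hm] at c2
    rw [B2.t, abs_le, le_div_iff₀ h1, div_le_iff₀ h1]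
    constructor <;> linarith
  · have : (2 : ℝ) ^ b.x.m * τ = b.x.a0 + b.x.a1 * b.t τ := by
      rw [B2.t]; field_simp; ring
    exact_mod_cast congrArg (fun x : ℝ => (x : ℂ)) this
  · rw [elo]; exact div_pos (by linarith) hm
  · rw [B2.t, elo]; field_simp; ring
  · rw [B2.t, ehi]; field_simp; ring

end Pool.Agent.Sok.E

/-! Soundness of the check of one box for large degree: the list of roots. -/

namespace Pool.Agent.Sok.E

open Pool.Agent.MP_97ada9_an Finset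

theorem t8b_cons {h : Ch} {x : Bx} {Z1 M : ℕ} {c0 c1 : Cf} {L : List (ℕ × TM)}
    {d : ℕ × ℕ × ℕ} {l : List (ℕ × ℕ × ℕ)} {v : CP} {rv : ℕ} {bar : Bool} {p : ℕ}
    (hc0 : CfOK c0 x.y p 0 0 1) (h1 : x.dt ≤ x.Dt + 1) (h2 : x.de ≤ x.De + 1)
    (h3 : x.vt ≤ x.Dt + 1) (h4 : x.ve ≤ x.De + 1)
    (H : roots2 h x Z1 M c0 c1 (offs x.y x.bw x.dt x.de) (offs x.y x.bv x.vt x.ve) L (d :: l) v rv
      bar = true) :
    ∃ w nu : CP, ∃ F : FR, CPok x.y w (cv d.1 x.bw x.dt x.de) ∧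
      CPok x.y nu (cv d.2.1 x.bv x.vt x.ve) ∧ F = evalR c1 x.sh 0 L w nu ∧ F.ok = true ∧
      2 * (F.l0 + F.e) * 4 ^ x.sh + F.l2 * d.2.2 * d.2.2 < F.dl * d.2.2 * 2 ^ x.sh ∧
      d.2.2 < 2 ^ x.sh ∧ 2 * h.lam * (w.n + 2 ^ x.sh) ≤ (M + 1) * 2 ^ x.pw ∧
      (rv ≠ 0 → gapR c0 0 v rv w d.2.2 = true) ∧
      roots2 h x Z1 M c0 c1 (offs x.y x.bw x.dt x.de) (offs x.y x.bv x.vt x.ve) L l w d.2.2
        (Nat.blt (F.l0 + F.e + F.l2) F.dl) = true := by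
  obtain ⟨w, hw, ew⟩ := mkCP_sound hc0 (dt := x.dt) (de := x.de) h1 h2 d.1 x.bw
  obtain ⟨nu, hnu, enu⟩ := mkCP_sound hc0 (dt := x.vt) (de := x.ve) h3 h4 d.2.1 x.bv
  refine ⟨w, nu, evalR c1 x.sh 0 L w nu, hw, hnu, rfl, ?_⟩
  have H' : (mkCP x.y c0 d.1 x.bw x.dt x.de (offs x.y x.bw x.dt x.de) fun w =>
      mkCP x.y c0 d.2.1 x.bv x.vt x.ve (offs x.y x.bv x.vt x.ve) fun nu =>
      FR.rec (motive := fun _ => Bool) (fun ok l0 l2 dl e => force (Nat.add l0 e) fun le =>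
        force dl fun dl => force l2 fun l2 =>
        cond (ok && Nat.blt (2 * le * 4 ^ x.sh + l2 * d.2.2 * d.2.2) (dl * d.2.2 * 2 ^ x.sh) &&
            Nat.blt d.2.2 (2 ^ x.sh) &&
            Nat.ble (2 * h.lam * (w.n + 2 ^ x.sh)) ((M + 1) * 2 ^ x.pw) &&
            (Nat.beq rv 0 || gapR c0 0 v rv w d.2.2))
          (forceB (Nat.blt (le + l2) dl) fun bar =>
            roots2 h x Z1 M c0 c1 (offs x.y x.bw x.dt x.de) (offs x.y x.bv x.vt x.ve) L l w d.2.2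
              bar) false)
        (evalR c1 x.sh 0 L w nu)) = true := H
  rw [ew, enu] at H'
  generalize evalR c1 x.sh 0 L w nu = F at H' ⊢
  obtain ⟨ok, l0, l2, dl, e⟩ := F
  simp only [force_eq, forceB_eq, Nat.add_eq, Bool.cond_eq_ite, Bool.and_eq_true, Bool.or_eq_true,
    Nat.blt_eq, Nat.ble_eq, Nat.beq_eq] at H'
  split_ifs at H' with hc
  obtain ⟨⟨⟨⟨a1, a2⟩, a3⟩, a4⟩, a5⟩ := hc
  exact ⟨a1, a2, a3, a4, fun hr => a5.resolve_left hr, H'⟩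

theorem t8b_nil {h : Ch} {x : Bx} {Z1 M : ℕ} {c0 c1 : Cf} {L : List (ℕ × TM)} {ow ov : ℕ}
    {v : CP} {rv : ℕ} {bar : Bool} {p : ℕ} (hc0 : CfOK c0 x.y p 0 0 1) {ω : ℂ → ℂ → ℂ}
    (hv : CPok x.y v ω) {t e : ℝ} (ht : |t| ≤ 1) (he : |e| ≤ 1)
    (H : roots2 h x Z1 M c0 c1 ow ov L [] v rv bar = true) :
    bar = true ∧ ∀ u : ℂ, ‖u - ω t e‖ ≤ rv → Z1 ≤ ‖u‖ ∧ h.lam * ‖u‖ ≤ h.Nlo * 2 ^ x.pw := by
  have H' : (bar && gapR c0 0 (cstCP Z1) 0 v rv &&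
      Nat.ble (h.lam * (v.n + rv)) (h.Nlo * 2 ^ x.pw)) = true := H
  simp only [Bool.and_eq_true, Nat.ble_eq] at H'
  obtain ⟨⟨a1, a2⟩, a3⟩ := H'
  refine ⟨a1, fun u hu => ⟨?_, ?_⟩⟩
  · have := gapR_sound (mu := 0) hc0 (Or.inl rfl) (cstCP_sound x.y Z1) hv a2 ht he
      (by simp) (u := (Z1 : ℂ)) (u' := u) (by simp) (by simpa using hu)
    simpa using this.le
  · have hok := (gapB_sound (mu := 0) hc0 (Or.inl rfl) (cstCP_sound x.y Z1) hv a2).2.1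
    obtain ⟨f, g, -, -, -, -, hn⟩ := hv hok
    have b1 := hn t e (by simpa using ht) (by simpa using he)
    have b2 : ‖u‖ ≤ v.n + rv := by
      have := norm_add_le (u - ω t e) (ω t e)
      rw [sub_add_cancel] at this
      linarith
    have b3 : (h.lam : ℝ) * (v.n + rv) ≤ h.Nlo * 2 ^ x.pw := by exact_mod_cast a3
    exact (mul_le_mul_of_nonneg_left b2 (Nat.cast_nonneg _)).trans b3

theorem t8b_list {h : Ch} {x : Bx} {Z1 M : ℕ} {c0 c1 : Cf} {L : List (ℕ × TM)} {p : ℕ}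
    (hc0 : CfOK c0 x.y p 0 0 1) (h1 : x.dt ≤ x.Dt + 1) (h2 : x.de ≤ x.De + 1)
    (h3 : x.vt ≤ x.Dt + 1) (h4 : x.ve ≤ x.De + 1) {t e : ℝ} (ht : |t| ≤ 1) (he : |e| ≤ 1)
    {G : ℂ → ℂ}
    (HR : ∀ {w v : CP} {ω ν : ℂ → ℂ → ℂ}, CPok x.y w ω → CPok x.y v ν → ∀ {F : FR},
      F = evalR c1 x.sh 0 L w v → F.ok = true → ∀ {R : ℕ},
      2 * (F.l0 + F.e) * 4 ^ x.sh + F.l2 * R * R < F.dl * R * 2 ^ x.sh → R < 2 ^ x.sh →
      2 * h.lam * (w.n + 2 ^ x.sh) ≤ (M + 1) * 2 ^ x.pw →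
      (∃ u : ℂ, ‖u - ω t e‖ ≤ R ∧ G u = 0) ∧
        (F.l0 + F.e + F.l2 < F.dl → ∀ u : ℂ, G u = 0 → ‖u - ω t e‖ ≤ 2 ^ x.sh →
          ‖u - ω t e‖ ≤ R))
    (l : List (ℕ × ℕ × ℕ)) : ∀ (v : CP) (ω : ℂ → ℂ → ℂ) (rv : ℕ) (bar : Bool), CPok x.y v ω →
      roots2 h x Z1 M c0 c1 (offs x.y x.bw x.dt x.de) (offs x.y x.bv x.vt x.ve) L l v rv
        bar = true →
      (l = [] → bar = true ∧
        ∀ u : ℂ, ‖u - ω t e‖ ≤ rv → Z1 ≤ ‖u‖ ∧ h.lam * ‖u‖ ≤ h.Nlo * 2 ^ x.pw) ∧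
      (0 < l.length → rv ≠ 0 → ∀ u u' : ℂ, ‖u - ω t e‖ ≤ rv →
        ‖u' - cv (l.getD 0 (0, 0, 0)).1 x.bw x.dt x.de t e‖ ≤ (l.getD 0 (0, 0, 0)).2.2 →
          ‖u‖ < ‖u'‖) ∧
      (∀ j < l.length, (∃ u, G u = 0 ∧
        ‖u - cv (l.getD j (0, 0, 0)).1 x.bw x.dt x.de t e‖ ≤ (l.getD j (0, 0, 0)).2.2) ∧
        (l.getD j (0, 0, 0)).2.2 < 2 ^ x.sh) ∧
      (∀ j, j + 1 < l.length → ∀ u u' : ℂ,
        ‖u - cv (l.getD j (0, 0, 0)).1 x.bw x.dt x.de t e‖ ≤ (l.getD j (0, 0, 0)).2.2 →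
        ‖u' - cv (l.getD (j + 1) (0, 0, 0)).1 x.bw x.dt x.de t e‖ ≤
          (l.getD (j + 1) (0, 0, 0)).2.2 → ‖u‖ < ‖u'‖) ∧
      (∀ j, j + 1 = l.length →
        (∀ u, G u = 0 → ‖u - cv (l.getD j (0, 0, 0)).1 x.bw x.dt x.de t e‖ ≤ 2 ^ x.sh →
          ‖u - cv (l.getD j (0, 0, 0)).1 x.bw x.dt x.de t e‖ ≤ (l.getD j (0, 0, 0)).2.2) ∧
        ∀ u : ℂ, ‖u - cv (l.getD j (0, 0, 0)).1 x.bw x.dt x.de t e‖ ≤ (l.getD j (0, 0, 0)).2.2 →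
          Z1 ≤ ‖u‖ ∧ h.lam * ‖u‖ ≤ h.Nlo * 2 ^ x.pw) := by
  induction l with
  | nil =>
    intro v ω rv bar hv H
    refine ⟨fun _ => t8b_nil hc0 hv ht he H, fun h0 => ?_, fun j hj => ?_, fun j hj => ?_,
      fun j hj => ?_⟩
    all_goals simp at *
  | cons d l ih =>
    intro v ω rv bar hv H
    obtain ⟨w, nu, F, hw, hnu, hF, hok, a1, a2, a3, a4, a5⟩ := t8b_cons hc0 h1 h2 h3 h4 H
    obtain ⟨b1, b2, b3, b4, b5⟩ := ih w _ _ _ hw a5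
    obtain ⟨⟨u0, r1, r2⟩, r3⟩ := HR hw hnu hF hok a1 a2 a3
    have hR : d.2.2 ≠ 0 := by
      intro h0
      rw [h0] at a1
      simp at a1
    refine ⟨fun h0 => by simp at h0, fun _ hr u u' hu hu' => ?_, fun j hj => ?_, fun j hj => ?_,
      fun j hj => ?_⟩
    · exact gapR_sound (mu := 0) hc0 (Or.inl rfl) hv hw (a4 hr) ht he (by simp)
        (by simpa using hu) (by simpa using hu')
    · cases j with
      | zero => exact ⟨⟨u0, r2, r1⟩, a2⟩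
      | succ j => exact b3 j (by simpa using hj)
    · cases j with
      | zero => exact b2 (by simpa using hj) hR
      | succ j => exact b4 j (by simpa using hj)
    · cases j with
      | zero =>
        have hl : l = [] := List.length_eq_zero_iff.1 (by simpa using hj.symm)
        obtain ⟨c1', c2'⟩ := b1 hl
        exact ⟨r3 (by simpa [Nat.blt_eq] using c1'), c2'⟩
      | succ j => exact b5 j (by simpa using hj)

theorem t8b_norm (τ : ℝ) : ‖(1 - Complex.I * τ)⁻¹‖ ≤ 2 ∧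
    ‖(1 + Complex.I * τ) / (1 - Complex.I * τ)‖ = 1 := by
  constructor
  · have h1 : (1 : ℝ) ≤ ‖(1 : ℂ) - Complex.I * τ‖ := by
      have := Complex.abs_re_le_norm ((1 : ℂ) - Complex.I * τ)
      simpa using this
    rw [norm_inv]
    exact (inv_le_one_of_one_le₀ h1).trans one_le_two
  · have h := norm_qq τ
    rw [qq, norm_pow] at h
    exact (pow_eq_one_iff_of_nonneg (norm_nonneg _) two_ne_zero).1 h

/-- mkCf_sound, tabQ_rep, seqQ_fwd, then induction on the list of roots with mkCP_sound, root2,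
gapR_sound (mu = 0), cstCP_sound. -/
theorem box2_ub {h : Ch} {b : B2} (hb : box2 h b = true) {N : ℕ} (hN : h.mem N) {τ : ℝ}
    (hτ : τ ∈ Set.Icc b.lo b.hi) :
    UB h b (b.t τ) (h.e N) fun u => gc (qq τ) N h.cc (h.lam * (u / 2 ^ b.x.pw) / N) := by
  have hw : wf2 h b = true := by
    cases hh : wf2 h b
    · rw [box2, hh] at hb; exact absurd hb (by simp)
    · rfl
  obtain ⟨e1, e2, e3⟩ := e_mem hw hN
  obtain ⟨t1, t2, -⟩ := t_mem hw hτ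
  rw [box2, hw] at hb
  have hw' := hw
  simp only [wf2, wf, Bool.and_eq_true, Nat.ble_eq, Nat.blt_eq, Nat.beq_eq] at hw'
  obtain ⟨⟨⟨⟨⟨⟨⟨⟨⟨⟨⟨⟨⟨⟨⟨⟨⟨⟨⟨⟨⟨w1, w2⟩, w3⟩, w4⟩, w5⟩, w6⟩, w7⟩, w8⟩, w9⟩, w10⟩, w11⟩, -⟩, -⟩, -⟩,
    -⟩, -⟩, -⟩, -⟩, w12⟩, w13⟩, w14⟩, -⟩ := hw'
  have hL0 : 1 * 3 * b.x.y.W < 2 ^ (b.x.y.K - 2) :=
    lt_of_le_of_lt (Nat.mul_le_mul_right _ (Nat.mul_le_mul_right _ (by omega))) w3
  obtain ⟨c0, hc0, ec0⟩ := mkCf_sound b.x.y (p := b.x.m + b.x.z) (r := 0) (R := 0) (nb := 1) w1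
    le_rfl one_pos hL0
  obtain ⟨c1, hc1, ec1⟩ := mkCf_sound b.x.y (p := b.x.pw) (r := b.r) (R := b.r + 1)
    (nb := b.r + 2) w2 (by omega) (by omega) w3
  have hb' : (mkCf b.x.y (b.x.m + b.x.z) 0 0 1 fun c0 =>
      mkCf b.x.y b.x.pw b.r (b.r + 1) (b.r + 2) fun c1 =>
      force (offs b.x.y b.x.bw b.x.dt b.x.de) fun ow =>
      force (offs b.x.y b.x.bv b.x.vt b.x.ve) fun ov =>
      forceL (tabQ b.x.y c0 b.x.m b.x.z b.x.a0 b.x.a1 b.x.a2 b.x.it b.x.k0 b.x.kmax) fun R =>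
      forceL (revL R []) fun F => force (Nat.pow 2 (Nat.add b.x.m b.x.z)) fun S =>
      force (Nat.pow 2 b.x.pw) fun bb =>
      forceL (coefL b.x.y c0 b.x.m b.x.z h.lam h.ae h.be S bb
        (seqQ R F b.x.kmax (b.M - 1) (b.M - 2 - h.cc)) 0 (monT b.c0 0 0) []) fun L =>
      roots2 h b.x b.Z1 b.M c0 c1 ow ov L b.l (cstCP 0) 0 false) = true := hb
  rw [ec0, ec1] at hb'
  simp only [force_eq, forceL_eq] at hb'
  have ht : ‖((b.t τ : ℝ) : ℂ)‖ ≤ 1 := by simpa using t1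
  have he : ‖((h.e N : ℝ) : ℂ)‖ ≤ 1 := by simpa using e1
  have hP : (⟨(b.t τ : ℝ), (h.e N : ℝ), 0⟩ : Pt ℂ).ok := ⟨ht, he, by simp⟩
  have hT := tabQ_rep hc0 w4 hP (a0 := b.x.a0) (a1 := b.x.a1) (a2 := b.x.a2) (τ := τ)
    (by rw [w11, t2]; simp) (a1_ne τ) (t8b_norm τ).1 (by rw [w11]; positivity)
    (by rw [w11, (t8b_norm τ).2]; simp) b.x.it b.x.k0 b.x.kmax
  have hS := seqQ_fwd (Rel := fun T n => Rep b.x.y 0 (⟨(b.t τ : ℝ), (h.e N : ℝ), 0⟩ : Pt ℂ) T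
    (2 ^ (b.x.m + b.x.z) * qq τ ^ n)) hT w12 w14 w13
  obtain ⟨b1, -, b3, b4, b5⟩ := t8b_list hc0 w5 w7 w6 w8 t1 e1
    (G := fun u => gc (qq τ) N h.cc (h.lam * (u / 2 ^ b.x.pw) / N))
    (fun hw hv _ hF hok _ a1 a2 a3 => root2 hc0 hc1 w9 ht he (norm_qq τ).le (by omega)
      (by rw [w10]; exact e2) hS h.lam b.c0 hw hv hF hok a1 a2 a3)
    b.l _ _ _ _ (cstCP_sound b.x.y 0) hb'
  have hl : 0 < b.l.length := by
    rw [List.length_pos_iff]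
    intro h0
    exact absurd (b1 h0).1 (by simp)
  have hJ : b.J + 1 = b.l.length := by unfold B2.J; omega
  refine ⟨fun j hj => (b3 j (by omega)).1, fun j hj => b4 j (by omega), ?_, (b5 _ hJ).1,
    (b5 _ hJ).2⟩
  exact (b3 b.J (by omega)).2

end Pool.Agent.Sok.E

/-! Chains of boxes for large degree. -/

namespace Pool.Agent.Sok.E

open Pool.Agent.MP_97ada9_an Finset

theorem box2_wf {h : Ch} {b : B2} (hb : box2 h b = true) : wf2 h b = true := by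
  unfold box2 at hb
  cases hw : wf2 h b
  · rw [hw] at hb
    exact absurd hb Bool.false_ne_true
  · rfl

theorem t9_wf {h : Ch} {b : B2} (hw : wf2 h b = true) : b.x.m = h.m ∧ 40 ≤ h.Nlo ∧ 0 < h.lam ∧
    7 * (h.Nlo * 2 ^ b.x.pw + h.lam * b.Z1) ^ 2 ≤ h.lam * b.Z1 * 2 ^ b.x.pw * h.Nlo ^ 2 := by
  simp only [wf2, Bool.and_eq_true, Nat.ble_eq, Nat.blt_eq, Nat.beq_eq] at hw
  obtain ⟨⟨⟨⟨⟨⟨⟨⟨⟨⟨⟨⟨⟨-, h1⟩, -⟩, -⟩, -⟩, -⟩, -⟩, -⟩, h2⟩, h3⟩, -⟩, -⟩, -⟩, h4⟩ := hw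
  exact ⟨h1, h2, h3, h4⟩

/-- The change of variable. -/
noncomputable def t9s (h : Ch) (b : B2) (N : ℕ) (τ : ℝ) (u : ℂ) : ℂ :=
  h.lam / (N * 2 ^ b.x.pw) * u / qq τ ^ h.cc

theorem t9_qne (τ : ℝ) : qq τ ≠ 0 := fun e => by
  have := norm_qq τ
  rw [e, norm_zero] at this
  exact zero_ne_one this

theorem t9s_norm (h : Ch) (b : B2) (N : ℕ) (τ : ℝ) (u : ℂ) :
    ‖t9s h b N τ u‖ = h.lam / (N * 2 ^ b.x.pw) * ‖u‖ := by
  unfold t9s
  rw [norm_div, norm_pow, norm_qq, one_pow, div_one, norm_mul, norm_div, norm_mul, norm_pow,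
    Complex.norm_natCast, Complex.norm_natCast, Complex.norm_ofNat]

theorem t9s_sub (h : Ch) (b : B2) (N : ℕ) (τ : ℝ) (u v : ℂ) :
    ‖t9s h b N τ u - t9s h b N τ v‖ = h.lam / (N * 2 ^ b.x.pw) * ‖u - v‖ := by
  rw [← t9s_norm h b N τ]
  congr 1
  unfold t9s
  ring

theorem t9s_surj {h : Ch} (b : B2) {N : ℕ} (hl : 0 < h.lam) (hN : 0 < N) (τ : ℝ) (z : ℂ) :
    ∃ u, z = t9s h b N τ u := by
  refine ⟨N * 2 ^ b.x.pw / h.lam * (qq τ ^ h.cc * z), ?_⟩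
  have h1 : (h.lam : ℂ) ≠ 0 := by exact_mod_cast hl.ne'
  have h2 : (N : ℂ) ≠ 0 := by exact_mod_cast hN.ne'
  have h3 := pow_ne_zero h.cc (t9_qne τ)
  unfold t9s
  field_simp

theorem t9s_root (h : Ch) (b : B2) (N : ℕ) (τ : ℝ) (u : ℂ) :
    pc (qq τ) N (t9s h b N τ u) = 0 ↔
      gc (qq τ) N h.cc (h.lam * (u / 2 ^ b.x.pw) / N) = 0 := by
  have h3 := pow_ne_zero h.cc (t9_qne τ)
  have e : h.lam * (u / 2 ^ b.x.pw) / N = qq τ ^ h.cc * t9s h b N τ u := by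
    unfold t9s
    rw [mul_div_cancel₀ _ h3]
    ring
  rw [e, gc_eq, mul_eq_zero, or_iff_right (pow_ne_zero _ (t9_qne τ))]

theorem t9_cen (h : Ch) (b : B2) (N j : ℕ) (τ : ℝ) :
    cen h b N j τ = t9s h b N τ (b.w j (b.t τ) (h.e N)) := rfl

theorem t9_cont (h : Ch) (b : B2) (N j : ℕ) : Continuous (cen h b N j) := by
  have h1 : Continuous fun τ : ℝ => qq τ := by
    unfold qq
    exact (Continuous.div (by fun_prop) (by fun_prop) a1_ne).pow 2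
  have h2 : Continuous fun τ : ℝ => ((b.t τ : ℝ) : ℂ) := by
    unfold B2.t
    fun_prop
  have h3 : Continuous fun τ : ℝ => b.w j (b.t τ) (h.e N) :=
    (cv_diff (b.rt j).1 b.x.bw b.x.dt b.x.de (h.e N)).continuous.comp h2
  unfold cen
  exact (continuous_const.mul h3).div (h1.pow _) fun τ => pow_ne_zero _ (t9_qne τ)

/-- The substitution u = N * 2 ^ pw / lam * (q ^ cc * z) (gc_eq, norm_qq);
Z = lam * Z1 / (N * 2 ^ pw). -/
theorem box2_sound {h : Ch} {b : B2} (hb : box2 h b = true) {N : ℕ} (hN : h.mem N) :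
    AB N b.J b.lo b.hi (cen h b N) (rad h b N) (rho h b N) := by
  have hw := box2_wf hb
  obtain ⟨-, w1, w2, w3⟩ := t9_wf hw
  have hN0 : 0 < N := by have := hN.1; omega
  have n0 : (0 : ℝ) < N := by exact_mod_cast hN0
  have l0 : (0 : ℝ) < h.lam := by exact_mod_cast w2
  have p0 : (0 : ℝ) < 2 ^ b.x.pw := by positivity
  have c0 : (0 : ℝ) < h.lam / (N * 2 ^ b.x.pw) := by positivity
  have hab : b.lo ≤ b.hi := by
    unfold B2.lo B2.hi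
    refine div_le_div_of_nonneg_right ?_ (by positivity)
    exact_mod_cast (by omega : b.x.a0 - b.x.a1 ≤ b.x.a0 + b.x.a1)
  have hlo : b.lo ∈ Set.Icc b.lo b.hi := ⟨le_rfl, hab⟩
  refine ⟨(t_mem hw hlo).2.2.1, hab, (t9_cont h b N b.J).continuousOn, fun τ hτ j hj => ?_,
    fun τ hτ j hj u v hu hv => ?_, ?_, fun τ hτ z hz hd => ?_,
    h.lam / (N * 2 ^ b.x.pw) * b.Z1, by positivity, ?_, fun τ hτ z hz => ?_⟩
  · obtain ⟨u, h1, h2⟩ := (box2_ub hb hN hτ).root j hj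
    refine ⟨t9s h b N τ u, (t9s_root h b N τ u).2 h1, ?_⟩
    rw [t9_cen, t9s_sub]
    exact mul_le_mul_of_nonneg_left h2 c0.le
  · obtain ⟨u, rfl⟩ := t9s_surj b w2 hN0 τ u
    obtain ⟨v, rfl⟩ := t9s_surj b w2 hN0 τ v
    rw [t9_cen, t9s_sub] at hu hv
    rw [t9s_norm, t9s_norm]
    exact mul_lt_mul_of_pos_left ((box2_ub hb hN hτ).gap j hj u v (le_of_mul_le_mul_left hu c0)
      (le_of_mul_le_mul_left hv c0)) c0
  · refine mul_lt_mul_of_pos_left ?_ c0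
    exact_mod_cast (box2_ub hb hN hlo).hρ
  · obtain ⟨u, rfl⟩ := t9s_surj b w2 hN0 τ z
    rw [t9_cen, t9s_sub] at hd ⊢
    exact mul_le_mul_of_nonneg_left ((box2_ub hb hN hτ).trap u ((t9s_root h b N τ u).1 hz)
      (le_of_mul_le_mul_left hd c0)) c0.le
  · have m0 : (0 : ℝ) < h.Nlo := by exact_mod_cast (by omega : 0 < h.Nlo)
    have m1 : (h.Nlo : ℝ) ≤ N := by exact_mod_cast hN.1
    have w4 : 7 * ((h.Nlo : ℝ) * 2 ^ b.x.pw + h.lam * b.Z1) ^ 2 ≤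
        h.lam * b.Z1 * 2 ^ b.x.pw * h.Nlo ^ 2 := by exact_mod_cast w3
    have z0 : (0 : ℝ) ≤ h.lam * b.Z1 / 2 ^ b.x.pw := by positivity
    have e1 : (h.lam : ℝ) / (N * 2 ^ b.x.pw) * b.Z1 = h.lam * b.Z1 / 2 ^ b.x.pw / N := by
      field_simp
    have w5 : 7 * (1 + (h.lam : ℝ) * b.Z1 / 2 ^ b.x.pw / h.Nlo) ^ 2 ≤
        h.lam * b.Z1 / 2 ^ b.x.pw := by
      have e2 : 1 + (h.lam : ℝ) * b.Z1 / 2 ^ b.x.pw / h.Nlo =
          (h.Nlo * 2 ^ b.x.pw + h.lam * b.Z1) / (h.Nlo * 2 ^ b.x.pw) := by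
        field_simp
      have e3 : (h.lam : ℝ) * b.Z1 / 2 ^ b.x.pw =
          h.lam * b.Z1 * 2 ^ b.x.pw * h.Nlo ^ 2 / (h.Nlo * 2 ^ b.x.pw) ^ 2 := by
        field_simp
      rw [e2, div_pow, ← mul_div_assoc, e3]
      exact div_le_div_of_nonneg_right w4 (by positivity)
    rw [e1, mul_div_cancel₀ _ n0.ne']
    refine le_trans (mul_le_mul_of_nonneg_left (pow_le_pow_left₀ (by positivity) ?_ 2)
      (by norm_num)) w5
    linarith only [div_le_div_of_nonneg_left z0 m0 m1]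
  · obtain ⟨u, rfl⟩ := t9s_surj b w2 hN0 τ z
    rw [t9_cen, t9s_sub] at hz
    obtain ⟨h1, h2⟩ := (box2_ub hb hN hτ).bar u (le_of_mul_le_mul_left hz c0)
    have m1 : (h.Nlo : ℝ) ≤ N := by exact_mod_cast hN.1
    rw [t9s_norm]
    refine ⟨mul_le_mul_of_nonneg_left h1 c0.le, ?_⟩
    rw [div_mul_eq_mul_div, div_le_one (by positivity)]
    exact h2.trans (mul_le_mul_of_nonneg_right m1 p0.le)

theorem sumZ_eq (f : ℕ → ℤ) (n : ℕ) : sumZ f n = ∑ i ∈ range n, f i := by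
  induction n with
  | zero => rfl
  | succ n ih =>
    rw [sum_range_succ, ← ih]
    rfl

theorem t9_pv (raw b dt de : ℕ) (σ : ℤ) (e : ℂ) {D : ℕ} (hD : de ≤ D) :
    pv raw b dt de σ e = ∑ j ∈ range D, (rowZ raw b dt de σ j : ℂ) * e ^ j := by
  unfold pv
  rw [← sum_subset (range_subset_range.2 hD)]
  · refine sum_congr rfl fun j hj => ?_
    have h1 : Nat.blt j de = true := by rw [Nat.blt_eq]; exact mem_range.1 hj
    unfold rowZ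
    rw [h1, cond_true, sumZ_eq]
    push_cast
    rw [sum_mul]
  · intro j _ hj
    have h1 : Nat.blt j de = false := by
      rw [← Bool.not_eq_true, Nat.blt_eq]
      exact fun h => hj (mem_range.2 h)
    unfold rowZ
    rw [h1, cond_false, Int.cast_zero, zero_mul]

theorem t9_jd1 (x : Bx) (raw : ℕ) (x' : Bx) (raw' : ℕ) {e : ℂ} (he : ‖e‖ ≤ 1) :
    ‖2 ^ x'.pw * pv raw x.bw x.dt x.de (-1) e - 2 ^ x.pw * pv raw' x'.bw x'.dt x'.de 1 e‖ ≤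
      jd1 x raw x' raw' := by
  have h1 := t9_pv raw x.bw x.dt x.de (-1) e (Nat.le_add_right x.de x'.de)
  have h2 := t9_pv raw' x'.bw x'.dt x'.de 1 e (Nat.le_add_left x'.de x.de)
  rw [Int.cast_neg, Int.cast_one] at h1
  rw [Int.cast_one] at h2
  rw [h1, h2, mul_sum, mul_sum, ← sum_sub_distrib, jd1, sumN_eq, Nat.cast_sum]
  refine norm_sum_le_of_le _ fun j _ => ?_
  have e1 : 2 ^ x'.pw * ((rowZ raw x.bw x.dt x.de (-1) j : ℂ) * e ^ j) -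
      2 ^ x.pw * ((rowZ raw' x'.bw x'.dt x'.de 1 j : ℂ) * e ^ j) =
      ((((2 ^ x'.pw : ℕ) : ℤ) * rowZ raw x.bw x.dt x.de (-1) j -
        ((2 ^ x.pw : ℕ) : ℤ) * rowZ raw' x'.bw x'.dt x'.de 1 j : ℤ) : ℂ) * e ^ j := by
    push_cast
    ring
  rw [e1, norm_mul, norm_pow, Complex.norm_intCast, Nat.cast_natAbs, Int.cast_abs]
  exact mul_le_of_le_one_right (abs_nonneg _) (pow_le_one₀ (norm_nonneg _) he)

theorem jd_sound (x : Bx) (raw : ℕ) (x' : Bx) (raw' : ℕ) {e : ℂ} (he : ‖e‖ ≤ 1) :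
    ‖2 ^ x'.pw * cv raw x.bw x.dt x.de (-1) e - 2 ^ x.pw * cv raw' x'.bw x'.dt x'.de 1 e‖ ≤
      jd x raw x' raw' := by
  have h1 := t9_jd1 x raw x' raw' he
  have h2 := t9_jd1 x (Nat.shiftRight raw ((x.bw + 1) * (x.dt * x.de))) x'
    (Nat.shiftRight raw' ((x'.bw + 1) * (x'.dt * x'.de))) he
  rw [← one_mul ‖_‖, ← Complex.norm_I, ← norm_mul] at h2
  unfold cv jd
  rw [Nat.cast_add]
  refine le_trans (le_of_eq ?_) ((norm_add_le _ _).trans (add_le_add h1 h2))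
  congr 1
  ring

/-- The chain is established down to the lower end of the box b. -/
def Good (h : Ch) (b : B2) : Prop :=
  wf2 h b = true ∧ (Asym → ∀ N, h.mem N → (∀ q : ℂ, ‖q‖ = 1 → q ≠ 1 → OnePer q (N - 1)) →
    (∀ τ : ℝ, b.lo ≤ τ → τ ≤ 1 → OnePer (qq τ) N) ∧
      ∀ j ≤ b.J, ∃ ζ, Cnt (qq b.lo) N (j + 1) ζ ∧ ‖ζ - cen h b N j b.lo‖ ≤ rad h b N j)

theorem t9_e {h : Ch} {b : B2} (hw : wf2 h b = true) {N : ℕ} (hN : h.mem N) :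
    ‖((h.e N : ℝ) : ℂ)‖ ≤ 1 := by
  rw [Complex.norm_real, Real.norm_eq_abs]
  exact (e_mem hw hN).1

theorem t9_ends {h : Ch} {b : B2} (hw : wf2 h b = true) : b.t b.lo = -1 ∧ b.t b.hi = 1 := by
  have hab : b.lo ≤ b.hi := by
    unfold B2.lo B2.hi
    refine div_le_div_of_nonneg_right ?_ (by positivity)
    exact_mod_cast (by omega : b.x.a0 - b.x.a1 ≤ b.x.a0 + b.x.a1)
  exact (t_mem hw ⟨le_rfl, hab⟩).2.2.2.2

/-- AB.root at τ = 1, cnt_start, jd_sound, AB.step. -/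
theorem Good.start {h : Ch} {b : B2} (hb : box2 h b = true) (hs : st h b = true) : Good h b := by
  have hw := box2_wf hb
  refine ⟨hw, fun hA N hN hp => ?_⟩
  obtain ⟨w0, w1, w2, -⟩ := t9_wf hw
  simp only [st, Bool.and_eq_true, Nat.ble_eq, Nat.beq_eq] at hs
  obtain ⟨s1, s2⟩ := hs
  have hi : b.hi = 1 := by
    unfold B2.hi
    rw [s1, w0]
    push_cast
    exact div_self (by positivity)
  have hAB := box2_sound hb hN
  have h40 := (e_mem hw hN).2.2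
  have n0 : (0 : ℝ) < N := by exact_mod_cast (by omega : 0 < N)
  have p0 : (0 : ℝ) < 2 ^ b.x.pw := by positivity
  obtain ⟨ζ, z1, z2⟩ := hAB.root b.hi ⟨hAB.hab, le_rfl⟩ b.J le_rfl
  have hq : qq b.hi = -1 := by rw [hi]; exact qq_one
  have j1 : ‖b.w b.J 1 (h.e N)‖ ≤ jd zB 0 b.x (b.rt b.J).1 := by
    have := jd_sound zB 0 b.x (b.rt b.J).1 (t9_e hw hN)
    have e0 : cv 0 zB.bw zB.dt zB.de (-1) (h.e N) = 0 := by simp [zB, cv, pv]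
    have e1 : zB.pw = 0 := rfl
    rwa [e0, e1, mul_zero, pow_zero, one_mul, zero_sub, norm_neg] at this
  have j2 : ‖cen h b N b.J b.hi‖ ≤ h.lam / (N * 2 ^ b.x.pw) * jd zB 0 b.x (b.rt b.J).1 := by
    rw [t9_cen, t9s_norm, (t9_ends hw).2, Complex.ofReal_one]
    exact mul_le_mul_of_nonneg_left j1 (by positivity)
  have j3 : ‖ζ‖ ≤ h.lam / (N * 2 ^ b.x.pw) * (jd zB 0 b.x (b.rt b.J).1 + (b.rt b.J).2.2) := by
    have := norm_add_le (ζ - cen h b N b.J b.hi) (cen h b N b.J b.hi)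
    rw [sub_add_cancel] at this
    unfold rad at z2
    linarith only [this, z2, j2]
  have s3 : 200 * (h.lam : ℝ) * (jd zB 0 b.x (b.rt b.J).1 + (b.rt b.J).2.2) ≤
      157 * (2 * ((b.J + 1 : ℕ) : ℝ) + 1) * 2 ^ b.x.pw := by exact_mod_cast s2
  have hc : Cnt (-1) N (b.J + 1) ζ := by
    refine cnt_start (by omega) (hq ▸ z1) (le_of_mul_le_mul_right (le_trans ?_ s3) p0)
    rw [div_mul_eq_mul_div, le_div_iff₀ (by positivity)] at j3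
    linarith only [j3]
  obtain ⟨r1, r2⟩ := hAB.step hA h40 hp ⟨ζ, hq ▸ hc, z2.trans hAB.hρ.le⟩
  exact ⟨fun τ t1 t2 => r1 τ ⟨t1, hi ▸ t2⟩, r2⟩

theorem Good.link {h : Ch} {b b' : B2} (hg : Good h b) (hb : box2 h b' = true)
    (hj : jn b b' = true) : Good h b' := by
  have hw' := box2_wf hb
  obtain ⟨hw, hg⟩ := hg
  refine ⟨hw', fun hA N hN hp => ?_⟩
  obtain ⟨g1, g2⟩ := hg hA N hN hp
  simp only [jn, Bool.and_eq_true, Nat.ble_eq, Nat.beq_eq] at hj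
  obtain ⟨⟨s1, s2⟩, s3⟩ := hj
  have hi : b'.hi = b.lo := by
    unfold B2.hi B2.lo
    rw [s1, (t9_wf hw).1, (t9_wf hw').1]
  have hAB := box2_sound hb hN
  have h40 := (e_mem hw hN).2.2
  have n0 : (0 : ℝ) < N := by exact_mod_cast (by omega : 0 < N)
  have n1 : (N : ℂ) ≠ 0 := by exact_mod_cast (by omega : N ≠ 0)
  have p0 : (0 : ℝ) < 2 ^ b.x.pw := by positivity
  have p1 : (0 : ℝ) < 2 ^ b'.x.pw := by positivity
  obtain ⟨ζ, z1, z2⟩ := g2 b'.J s2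
  have j1 := jd_sound b.x (b.rt b'.J).1 b'.x (b'.rt b'.J).1 (t9_e hw hN)
  have j2 : ‖cen h b N b'.J b.lo - cen h b' N b'.J b'.hi‖ * 2 ^ b'.x.pw ≤
      h.lam / (N * 2 ^ b.x.pw) * jd b.x (b.rt b'.J).1 b'.x (b'.rt b'.J).1 := by
    refine le_trans (le_of_eq ?_) (mul_le_mul_of_nonneg_left j1 (by positivity))
    have e1 : ((2 : ℝ) ^ b'.x.pw) = ‖(2 : ℂ) ^ b'.x.pw‖ := by
      rw [norm_pow, Complex.norm_ofNat]
    rw [← t9s_norm h b N b.lo, e1, ← norm_mul, t9_cen, t9_cen, (t9_ends hw).1, (t9_ends hw').2, hi]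
    congr 1
    have h3 := pow_ne_zero h.cc (t9_qne b.lo)
    unfold t9s B2.w
    push_cast
    field_simp
  have s4 : (jd b.x (b.rt b'.J).1 b'.x (b'.rt b'.J).1 : ℝ) + (b.rt b'.J).2.2 * 2 ^ b'.x.pw ≤
      2 ^ b'.x.sh * 2 ^ b.x.pw := by exact_mod_cast s3
  have j3 : ‖ζ - cen h b' N b'.J b'.hi‖ ≤ rho h b' N := by
    have a1 := norm_add_le (ζ - cen h b N b'.J b.lo) (cen h b N b'.J b.lo - cen h b' N b'.J b'.hi)
    rw [sub_add_sub_cancel] at a1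
    have a2 := mul_le_mul_of_nonneg_left s4
      (show (0 : ℝ) ≤ h.lam / (N * 2 ^ b.x.pw) by positivity)
    have a3 : rho h b' N * 2 ^ b'.x.pw =
        h.lam / (N * 2 ^ b.x.pw) * (2 ^ b'.x.sh * 2 ^ b.x.pw) := by
      unfold rho
      field_simp
    have a4 := mul_le_mul_of_nonneg_right z2 p1.le
    have a5 := mul_le_mul_of_nonneg_right a1 p1.le
    unfold rad at a4
    refine le_of_mul_le_mul_right ?_ p1
    linarith only [a2, a3, a4, a5, j2]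
  obtain ⟨r1, r2⟩ := hAB.step hA h40 hp ⟨ζ, hi ▸ z1, j3⟩
  refine ⟨fun τ t1 t2 => ?_, r2⟩
  rcases le_total τ b'.hi with t3 | t3
  · exact r1 τ ⟨t1, t3⟩
  · exact g1 τ (hi ▸ t3) t2

/-- onePer_small, onePer_of_qq. -/
theorem Good.fin {h : Ch} {b : B2} (hg : Good h b) (Z β : ℝ) (hZ : 0 ≤ Z) (hβ : 0 < β)
    (h3 : 4 * b.lo * β ≤ 64) (h4 : Z * (1 + β / h.Nlo) ≤ β * (1 - 4 * b.lo * β / 64) ^ 64)
    (h5 : 7 * (1 + Z / h.Nlo) ^ 2 ≤ Z) (hA : Asym) (N : ℕ) (hN : h.mem N)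
    (hp : ∀ q : ℂ, ‖q‖ = 1 → q ≠ 1 → OnePer q (N - 1)) (q : ℂ) (h1 : ‖q‖ = 1) (h2 : q ≠ 1) :
    OnePer q N := by
  refine onePer_of_qq (fun τ t0 t1 => ?_) q h1 h2
  rcases le_total τ b.lo with t2 | t2
  · exact onePer_small hA (t9_wf hg.1).2.1 hN.1 t0 t2 hZ hβ h3 h4 h5
  · exact (hg.2 hA N hN hp).1 τ t2 t1

end Pool.Agent.Sok.E
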