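import Pool.Agent.Sok.LEnd

/-! Table entries of a column and their checkers (saddle entries). -/

set_option autoImplicit false

namespace Pool.Agent.Sok

open TM Complex

/-- a piece: the complete integral, or the part between two cuts -/
structure Pc where
  full : Bool
  xs : ℤ
  xe : ℤ

noncomputable def Pc.c (g : Pc) (P : Par) (T : ℝ) : ℂ :=
  if g.full then P.cF T else P.cP (toR g.xs) (toR g.xe) T
noncomputable def Pc.n (g : Pc) (P : Par) (T : ℝ) : ℂ :=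
  if g.full then P.nF T else P.nP (toR g.xs) (toR g.xe) T

/-- upper bound entry -/
structure FU where
  g : Pc
  T1 : ℤ
  T2 : ℤ
  hi : ℤ
  hh : ℤ
  A : ℤ
  B : ℤ
  C : ℤ

/-- the additional data of a dominant entry -/
structure FX extends FU where
  lo : ℤ
  hl : ℤ
  m : ℤ
  z : ℤ
  sb : ℤ

/-- entry for the far pieces on the line of abscissa `∓ ah` for `± T ≥ TI` -/
structure FI where
  pos : Bool
  ah : ℤ
  TI : ℤ
  hi : ℤ
  y0 : ℤ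
  Af : ℤ
  PG : ℤ
  e1 : ℤ
  e2 : ℤ
  li : ℤ
  B : ℤ
  C : ℤ

def FU.Ok (f : FU) (b : Box) : Prop := ∀ P, b.Mem P → (f.g.full = false → 0 < P.δ) →
  ∀ T, toR f.T1 ≤ T → T ≤ toR f.T2 →
    P.Up T (f.g.c P T) (f.g.n P T) (toR f.hi) (toR f.hh) (toR f.A) (toR f.B) (toR f.C)

def FX.Ok (f : FX) (b : Box) : Prop := f.toFU.Ok b ∧ 0 < toR f.lo ∧
  ∀ P, b.Mem P → (f.g.full = false → 0 < P.δ) → ∀ T, toR f.T1 ≤ T → T ≤ toR f.T2 →
    P.Pr T (f.g.c P T) (f.g.n P T) (toR f.lo) (toR f.hl) (toR f.m) (toR f.z) (toR f.sb)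

def FI.pc (f : FI) : Pc := ⟨false, cond f.pos (-f.ah) f.ah, cond f.pos (-f.ah) f.ah⟩

def FI.Ok (f : FI) (b : Box) : Prop := ∀ P, b.Mem P → 0 < P.δ →
  ∀ T, toR f.TI ≤ (if f.pos then T else -T) →
    P.Img T (f.pc.c P T) (f.pc.n P T) (toR f.hi) (toR f.ah) (toR f.y0) (toR f.Af) (toR f.PG)
      (toR f.e1) (toR f.e2) (toR f.li) (toR f.B) (toR f.C)

/-- no zero of `S` on an interval -/
def FFok (T1 T2 : ℤ) (b : Box) : Prop :=
  ∀ P, b.Mem P → 0 < P.δ → ∀ T, toR T1 ≤ T → T ≤ toR T2 → P.S T ≠ 0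

/-- the two parts of the contour cut at `(u, v)` do not vanish and their means are ordered -/
def FMok (T1 T2 u v : ℤ) (b : Box) : Prop :=
  ∀ P, b.Mem P → 0 < P.δ → ∀ T, toR T1 ≤ T → T ≤ toR T2 →
    P.cV T (0, 0) (P.V T (toC u v)) ≠ 0 ∧ P.cV T (P.V T (toC u v)) (P.Vtop T) ≠ 0 ∧
      0 < (P.nV T (P.V T (toC u v)) (P.Vtop T) / P.cV T (P.V T (toC u v)) (P.Vtop T) -
        P.nV T (0, 0) (P.V T (toC u v)) / P.cV T (0, 0) (P.V T (toC u v))).re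

/-- the end belonging to a piece -/
def endG (c : Col) (a : Ac) (T H : TM) (g : Pc) (up : Bool) (kind : ℕ) : End :=
  cond g.full (endF c a T H up kind) (endP c a T H up (cond up g.xe g.xs) kind)

structure XC where
  s : SadC
  q : Path
  kd : ℕ
  ku : ℕ

/-- the continuation gets `lo hi M hl hh zre zab` -/
def valX (c : Col) (g : Pc) (T1 T2 : ℤ) (ty : ℕ) (d : XC)
    (k : ℤ → ℤ → ℤ → ℤ → ℤ → ℤ → ℤ → Bool) : Bool :=
  var 2 T1 T2 fun T => saddle c T d.s true fun S => mkAc c.L0 ty fun a =>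
  entryX (lChart c T) a S.w d.q (endG c a T S.H g false d.kd) (endG c a T S.H g true d.ku)
    fun l h M => lo S.h fun hl => hi S.h fun hh => hi S.z fun zr => ab S.z fun za =>
    k l h M hl hh zr za

def chkX (c : Col) (f : FX) (d : XC) : Bool :=
  ltI 0 f.lo && valX c f.g f.T1 f.T2 2 d fun l h M hl hh zr za =>
    leI f.lo l && leI h f.hi && leI M f.B && leI (divU M l) f.sb &&
    leI f.hl hl && leI hh f.hh && leI zr (one - f.m) && leI za f.z &&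
    leI (mulU za f.hi) f.A && leI 0 f.C

def chkF (c : Col) (T1 T2 : ℤ) (d : XC) : Bool :=
  valX c ⟨true, 0, 0⟩ T1 T2 0 d fun l _ _ _ _ _ _ => ltI 0 l

structure UC where
  s : SadC
  η : ℤ
  dn : List Step
  up : List Step
  kd : ℕ
  ku : ℕ

/-- the continuation gets `hi hh A` -/
def valU (c : Col) (g : Pc) (T1 T2 : ℤ) (d : UC) (k : ℤ → ℤ → ℤ → Bool) : Bool :=
  var 2 T1 T2 fun T => saddle c T d.s false fun S => mkAc c.L0 1 fun a =>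
  addc S.H d.η 0 fun H =>
  entryU (lChart c T) a S.w d.η d.dn d.up (endG c a T H g false d.kd) (endG c a T H g true d.ku)
    fun h M => hi S.h fun hh => ab S.z fun za => fI (maxI T1 (-T2)) fun τ =>
    mul c.sc c.cg fun b => lo b fun b => ltI 0 τ && leI 0 d.η && leI 0 c.scl && leI 0 b &&
    fI (mulD c.scl τ) fun z1 => fI (mulD b (mulD τ τ)) fun z2 => ltI 0 z1 && ltI 0 z2 &&
    fI (hh + divU d.η z2) fun hh => fI (mulU h za + divU (divU M a.L0) z1) fun A => k h hh A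

def chkU (c : Col) (f : FU) (d : UC) : Bool :=
  valU c f.g f.T1 f.T2 d fun h hh A =>
    leI h f.hi && leI hh f.hh && leI A f.A && leI 0 f.B && leI 0 f.C

def chkM (c : Col) (T1 T2 u v : ℤ) (dA dB : XC) : Bool :=
  var 2 T1 T2 fun T => mkAc c.L0 1 fun a =>
  saddle c T dA.s true fun SA => saddle c T dB.s true fun SB =>
  entryX (lChart c T) a SA.w dA.q (endF c a T SA.H false dA.kd) (endCut u v) fun lA _ MA =>
  entryX (lChart c T) a SB.w dB.q (endCut u v) (endF c a T SB.H true dB.ku) fun lB _ MB =>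
  ltI 0 lA && ltI 0 lB && sub SB.w SA.w fun d => lo d fun g =>
  ltI (divU (divU MA lA + divU MB lB) a.L0) g

section

variable {b : Box} {c : Col}

theorem fact_val {P : Par} (hδ : 0 < P.δ) {T : ℝ} {w ζ : ℂ} (hw : w = P.ref T + T * P.sc * ζ)
    (u v : ℂ × ℂ) : ‖P.cV T u v‖ = Real.sqrt P.L * ‖v.1 - u.1‖ ∧
      P.sc * ‖P.nV T u v - T * ζ * P.cV T u v‖ =
        Real.sqrt P.L * ‖(v.2 - u.2) - w * (v.1 - u.1)‖ := by
  have hs : 0 < P.sc := mul_pos (P.sg_pos hδ) P.cg_pos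
  have hs' : (P.sc : ℂ) ≠ 0 := ofReal_ne_zero.2 hs.ne'
  have he : ‖cexp (-(I * T ^ 2 / (2 * P.δ)))‖ = 1 := by
    have h1 : -(I * T ^ 2 / (2 * P.δ)) = ((-(T ^ 2 / (2 * P.δ)) : ℝ) : ℂ) * I := by
      push_cast
      ring
    rw [h1, norm_exp_ofReal_mul_I]
  have hL : ‖((Real.sqrt P.L : ℝ) : ℂ)‖ = Real.sqrt P.L := by
    rw [norm_real, Real.norm_of_nonneg (Real.sqrt_nonneg _)]
  have h2 : (P.sc : ℂ) * (P.nV T u v - T * ζ * P.cV T u v) =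
      (Real.sqrt P.L : ℝ) * cexp (-(I * T ^ 2 / (2 * P.δ))) *
        ((v.2 - u.2) - w * (v.1 - u.1)) := by
    rw [hw, Par.nV, Par.cV]
    field_simp
    ring
  refine ⟨by rw [Par.cV, norm_mul, norm_mul, he, hL, mul_one], ?_⟩
  have h3 := congrArg norm h2
  rwa [norm_mul, norm_mul, norm_mul, he, hL, mul_one, norm_real, Real.norm_of_nonneg hs.le] at h3

theorem fact_Lsc {P : Par} (hδ : 0 < P.δ) : P.L * P.sc = P.s2 * P.cg := by
  rw [Par.sc, ← mul_assoc, P.L_sg hδ]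

theorem fact_LH {P : Par} (hδ : 0 < P.δ) (T h : ℝ) :
    P.L * (P.sg * (T * P.cg) ^ 2 * h) = P.ka * (T ^ 2 * h) := by
  rw [Par.ka, ← P.L_sg hδ]
  ring

theorem fact_pt (hc : c.For b) {P : Par} (hP : b.Mem P) {T1 T2 : ℤ} {T0 : ℝ} (h1 : toR T1 ≤ T0)
    (h2 : T0 ≤ toR T2) {k : TM → Bool} (h : var 2 T1 T2 k = true) :
    ∃ x T, k T = true ∧ c.Ok x P ∧ RepA x T T0 := by
  obtain ⟨x, hx⟩ := hc.2 P hP
  obtain ⟨y, hy, e⟩ := exists_varVal h1 h2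
  obtain ⟨T, h, hT⟩ := var_ok h
  refine ⟨x.set2 y hy, T, h, hx y hy, fun z hz => ?_⟩
  rw [← e]
  exact hT ((x.set2 y hy).set3 z hz)

theorem fact_end {x : Pt} {P : Par} {T H : TM} {T0 H0 : ℝ} {a : Ac} (hc : c.Ok x P)
    (hδ : 0 < P.δ) (ha : a.Ok P.L) (hT : RepA x T T0) (hH : RepA x H H0) (g : Pc) (kd ku : ℕ)
    (zc : ℂ) : ∃ vd vu,
      End.Ok (endG c a T H g false kd) x (P.jet hδ T0) a (Real.exp (P.L * H0)) zc vd ∧
      End.Ok (endG c a T H g true ku) x (P.jet hδ T0) a (Real.exp (P.L * H0)) zc vu ∧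
      g.c P T0 = P.cV T0 vd vu ∧ g.n P T0 = P.nV T0 vd vu := by
  obtain ⟨full, xs, xe⟩ := g
  cases full
  · exact ⟨_, _, endP_ok hc hδ ha hT hH false xs kd zc, endP_ok hc hδ ha hT hH true xe ku zc,
      rfl, rfl⟩
  · exact ⟨_, _, endF_ok hc hδ ha hT hH false kd zc, endF_ok hc hδ ha hT hH true ku zc,
      P.cF_eq hδ T0, P.nF_eq hδ T0⟩

/-- an entry through an exact saddle point -/
theorem fact_entry {x : Pt} {P : Par} {T : TM} {T0 hh : ℝ} {a : Ac} {S : Sad} {w ζ : ℂ}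
    (hc : c.Ok x P) (hδ : 0 < P.δ) (ha : a.Ok P.L) (hT : RepA x T T0) (hS : S.Ok x P T0 w ζ hh)
    (h0 : (P.jet hδ T0).f1 w = 0) {q : Path} (hq : q.cls.ok) {ed eu : End} {vd vu : ℂ × ℂ}
    (hd : ed.Ok x (P.jet hδ T0) a (Real.exp (P.L * (P.sg * (T0 * P.cg) ^ 2 * hh))) w vd)
    (hu : eu.Ok x (P.jet hδ T0) a (Real.exp (P.L * (P.sg * (T0 * P.cg) ^ 2 * hh))) w vu)
    {k : ℤ → ℤ → ℤ → Bool} (h : entryX (lChart c T) a S.w q ed eu k = true) :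
    ∃ l h M, k l h M = true ∧ Real.exp (P.ka * (T0 ^ 2 * hh)) * toR l ≤ ‖P.cV T0 vd vu‖ ∧
      ‖P.cV T0 vd vu‖ ≤ Real.exp (P.ka * (T0 ^ 2 * hh)) * toR h ∧
      a.W P.L * (P.sc * ‖P.nV T0 vd vu - T0 * ζ * P.cV T0 vd vu‖) ≤
        Real.exp (P.ka * (T0 ^ 2 * hh)) * toR M := by
  have hE : ‖(P.jet hδ T0).E w‖ = Real.exp (P.ka * (T0 ^ 2 * hh)) := hS.hE
  rw [fact_LH hδ, ← hE] at hd hu
  obtain ⟨l, h', M, h1, h2, h3⟩ := entryX_ok (lChart_ok hc hδ hT) ha hS.hw h0 hq hd hu h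
  rw [hE] at h2 h3
  obtain ⟨e1, e2⟩ := fact_val hδ hS.eq vd vu
  refine ⟨l, h', M, h1, ?_, ?_, ?_⟩
  · rw [e1]
    exact h2
  · rw [e1]
    exact h3.1
  · rw [e2, ← mul_assoc]
    exact h3.2

theorem fact_X (hc : c.For b) {g : Pc} {T1 T2 : ℤ} {ty : ℕ} {d : XC} (hq : d.q.cls.ok)
    {k : ℤ → ℤ → ℤ → ℤ → ℤ → ℤ → ℤ → Bool} (h : valX c g T1 T2 ty d k = true) {P : Par}
    (hP : b.Mem P) (hδ : 0 < P.δ) {T : ℝ} (h1 : toR T1 ≤ T) (h2 : T ≤ toR T2) :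
    ∃ l h M hl hh zr za, k l h M hl hh zr za = true ∧ ∃ (ζ : ℂ) (e : ℝ), toR hl ≤ e ∧
      e ≤ toR hh ∧ ζ.re ≤ toR zr ∧ ‖ζ‖ ≤ toR za ∧
      Real.exp (P.ka * (T ^ 2 * e)) * toR l ≤ ‖g.c P T‖ ∧
      ‖g.c P T‖ ≤ Real.exp (P.ka * (T ^ 2 * e)) * toR h ∧
      wt ty (toR c.L0) P.L * (P.sc * ‖g.n P T - T * ζ * g.c P T‖) ≤
        Real.exp (P.ka * (T ^ 2 * e)) * toR M := by
  obtain ⟨x, Tm, h, hx, hT⟩ := fact_pt hc hP h1 h2 h
  obtain ⟨S, w, ζ, e, h, hS, h0⟩ := saddle_ok hx hδ hT h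
  obtain ⟨a, h, a1, a2, ha⟩ := mkAc_ok h
  replace ha := ha _ (hx.L0 hδ)
  obtain ⟨vd, vu, hd, hu, e1, e2⟩ := fact_end hx hδ ha hT hS.hH g d.kd d.ku w
  obtain ⟨l, h', M, h, h3, h4, h5⟩ := fact_entry hx hδ ha hT hS (h0 rfl) hq hd hu h
  obtain ⟨hl, h, h6⟩ := lo_ok h
  obtain ⟨hh, h, h7⟩ := hi_ok h
  obtain ⟨zr, h, h8⟩ := hi_ok h
  obtain ⟨za, h, h9⟩ := ab_ok h
  rw [Ac.W, a1, a2] at h5
  rw [e1, e2]
  exact ⟨l, h', M, hl, hh, zr, za, h, ζ, e, h6 _ _ hS.hh.rep, h7 _ _ hS.hh.rep, h8 _ _ hS.hz.rep,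
    h9 _ _ hS.hz.rep, h3, h4, h5⟩

theorem fact_exp (P : Par) (T : ℝ) {e e' : ℝ} (h : e ≤ e') :
    Real.exp (P.ka * (T ^ 2 * e)) ≤ Real.exp (P.ka * (T ^ 2 * e')) :=
  Real.exp_le_exp.2 (mul_le_mul_of_nonneg_left (mul_le_mul_of_nonneg_left h (sq_nonneg T))
    P.ka_pos.le)

theorem fact_Up {P : Par} {T E hi hh A B C : ℝ} {u n : ℂ} (hE0 : 0 < E)
    (hE : E ≤ Real.exp (P.ka * (T ^ 2 * hh))) (h1 : ‖u‖ ≤ E * hi)
    (h2 : ‖n‖ ≤ E * (A * |T| + B / (P.s2 * P.cg))) (hC : 0 ≤ C) : P.Up T u n hi hh A B C := by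
  have h3 : 0 ≤ hi := nonneg_of_mul_nonneg_right ((norm_nonneg u).trans h1) hE0
  have h4 : 0 ≤ A * |T| + B / (P.s2 * P.cg) :=
    nonneg_of_mul_nonneg_right ((norm_nonneg n).trans h2) hE0
  have h5 : 0 ≤ C / (Real.sqrt P.s2 * P.cg) :=
    div_nonneg hC (mul_nonneg (Real.sqrt_nonneg _) P.cg_pos.le)
  refine ⟨h1.trans ?_, h2.trans ?_⟩
  · rw [mul_comm]
    exact mul_le_mul_of_nonneg_left hE h3
  · rw [mul_comm]
    exact mul_le_mul (le_add_of_nonneg_right h5) hE hE0.le (add_nonneg h4 h5)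

theorem fact_tri (T : ℝ) (ζ u n : ℂ) : ‖n‖ ≤ ‖ζ‖ * ‖u‖ * |T| + ‖n - T * ζ * u‖ := by
  have h1 := norm_add_le (T * ζ * u) (n - T * ζ * u)
  rw [add_sub_cancel, norm_mul, norm_mul, norm_real, Real.norm_eq_abs] at h1
  linarith

theorem fact_mem {P : Par} (hP : b.Mem P) (h0 : P.δ = 0) {d : ℝ} (hd : 0 ≤ d)
    (ht : (P.withδ d hd).t ≤ toR b.th) : b.Mem (P.withδ d hd) := by
  refine ⟨hP.1, hP.2.1, le_trans ?_ (P.withδ d hd).t_nonneg, ht⟩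
  have h1 := hP.2.2.1
  rwa [Par.t, Par.sg, Par.lam, h0, zero_mul, zero_mul, zero_div] at h1

theorem fact_Ok {f : FU} (hb : 0 < toR b.th) (h : ∀ P, b.Mem P → 0 < P.δ → ∀ T, toR f.T1 ≤ T →
    T ≤ toR f.T2 → P.Up T (f.g.c P T) (f.g.n P T) (toR f.hi) (toR f.hh) (toR f.A) (toR f.B)
      (toR f.C)) : f.Ok b := by
  intro P hP hf T h1 h2
  rcases P.hδ.eq_or_lt with h0 | h0
  · have h3 : f.g.full = true := by
      by_contra h3
      exact (hf (Bool.eq_false_iff.2 h3)).ne h0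
    simp only [Pc.c, Pc.n, h3, if_true] at h ⊢
    exact P.Up_lim hb h0.symm fun d hd h4 h5 => h _ (fact_mem hP h0.symm hd h5) h4 T h1 h2
  · exact h P hP h0 T h1 h2

theorem fact_Pr {P : Par} {T E l M lo m z sb e hl : ℝ} {ζ u n : ℂ}
    (hE : E = Real.exp (P.ka * (T ^ 2 * e))) (hl0 : 0 < lo) (hlo : lo ≤ l) (he : hl ≤ e)
    (hz : ζ.re ≤ 1 - m) (hz' : ‖ζ‖ ≤ z) (hsb : M / l ≤ sb) (h1 : E * l ≤ ‖u‖)
    (h2 : P.s2 * P.cg * ‖n - T * ζ * u‖ ≤ E * M) : P.Pr T u n lo hl m z sb := by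
  have hE0 : 0 < E := hE ▸ Real.exp_pos _
  have hs : 0 < P.s2 * P.cg := mul_pos P.par_s2_pos P.cg_pos
  have hl' : 0 < l := hl0.trans_le hlo
  have hM : 0 ≤ M :=
    nonneg_of_mul_nonneg_right ((mul_nonneg hs.le (norm_nonneg _)).trans h2) hE0
  have h3 : ‖n - T * ζ * u‖ ≤ sb / (P.s2 * P.cg) * ‖u‖ := by
    rw [div_mul_eq_mul_div, le_div_iff₀ hs, mul_comm]
    refine h2.trans ?_
    have h4 : E * M = M / l * (E * l) := by field_simp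
    rw [h4]
    exact mul_le_mul hsb h1 (by positivity) ((div_nonneg hM hl'.le).trans hsb)
  refine ⟨le_trans ?_ h1, (fact_tri T ζ u n).trans ?_, ?_⟩
  · rw [mul_comm, hE]
    exact mul_le_mul (fact_exp P T he) hlo hl0.le (Real.exp_pos _).le
  · have h4 : ‖ζ‖ * ‖u‖ * |T| ≤ z * ‖u‖ * |T| := by gcongr
    linarith
  · have h4 : n * (starRingEnd ℂ) u =
        T * ζ * ((‖u‖ ^ 2 : ℝ) : ℂ) + (n - T * ζ * u) * (starRingEnd ℂ) u := by
      rw [← normSq_eq_norm_sq, ← mul_conj]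
      ring
    have h5 : T * ((n - T * ζ * u) * (starRingEnd ℂ) u).re ≤
        |T| * (sb / (P.s2 * P.cg) * ‖u‖ * ‖u‖) := by
      refine (le_abs_self _).trans ?_
      rw [abs_mul]
      refine mul_le_mul_of_nonneg_left ((abs_re_le_norm _).trans ?_) (abs_nonneg _)
      rw [norm_mul, RCLike.norm_conj]
      exact mul_le_mul_of_nonneg_right h3 (norm_nonneg _)
    have h6 : T ^ 2 * ‖u‖ ^ 2 * ζ.re ≤ T ^ 2 * ‖u‖ ^ 2 * (1 - m) :=
      mul_le_mul_of_nonneg_left hz (by positivity)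
    rw [h4, add_re, re_mul_ofReal, re_ofReal_mul]
    linarith

theorem fact_X2 (hc : c.For b) {f : FX} {d : XC} (hq : d.q.cls.ok) (h : chkX c f d = true)
    {P : Par} (hP : b.Mem P) (hδ : 0 < P.δ) {T : ℝ} (h1 : toR f.T1 ≤ T) (h2 : T ≤ toR f.T2) :
    P.Up T (f.g.c P T) (f.g.n P T) (toR f.hi) (toR f.hh) (toR f.A) (toR f.B) (toR f.C) ∧
      P.Pr T (f.g.c P T) (f.g.n P T) (toR f.lo) (toR f.hl) (toR f.m) (toR f.z) (toR f.sb) := by
  obtain ⟨t1, h⟩ := Bool.and_eq_true_iff.1 h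
  obtain ⟨l, h', M, hl, hh, zr, za, h, ζ, e, g1, g2, g3, g4, g5, g6, g7⟩ :=
    fact_X hc hq h hP hδ h1 h2
  simp only [Bool.and_eq_true] at h
  obtain ⟨⟨⟨⟨⟨⟨⟨⟨⟨t2, t3⟩, t4⟩, t5⟩, t6⟩, t7⟩, t8⟩, t9⟩, t10⟩, t11⟩ := h
  replace t1 := ltI_ok t1
  replace t2 := leI_ok t2
  replace t3 := leI_ok t3
  replace t4 := leI_ok t4
  replace t5 := leI_ok t5
  replace t6 := leI_ok t6
  replace t7 := leI_ok t7
  replace t8 := leI_ok t8
  replace t9 := leI_ok t9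
  replace t10 := leI_ok t10
  replace t11 := leI_ok t11
  rw [toR_zero] at t1 t11
  rw [toR_sub, toR_one] at t8
  have hW : wt 2 (toR c.L0) P.L = P.L := by simp [wt]
  rw [hW, ← mul_assoc, fact_Lsc hδ] at g7
  have hE := Real.exp_pos (P.ka * (T ^ 2 * e))
  have hs : 0 < P.s2 * P.cg := mul_pos P.par_s2_pos P.cg_pos
  have g8 := g6.trans (mul_le_mul_of_nonneg_left t3 hE.le)
  refine ⟨fact_Up hE (fact_exp P T (g2.trans t7)) g8 ((fact_tri T ζ (f.g.c P T) _).trans ?_) t11,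
    fact_Pr rfl t1 t2 (t6.trans g1) (g3.trans t8) (g4.trans t9)
      ((divU_ok M (t1.trans_le t2)).trans t5) g5 g7⟩
  have g9 : ‖f.g.n P T - T * ζ * f.g.c P T‖ ≤
      Real.exp (P.ka * (T ^ 2 * e)) * (toR f.B / (P.s2 * P.cg)) := by
    rw [← mul_div_assoc, le_div_iff₀ hs, mul_comm]
    exact g7.trans (mul_le_mul_of_nonneg_left t4 hE.le)
  have g10 : ‖ζ‖ * ‖f.g.c P T‖ ≤ Real.exp (P.ka * (T ^ 2 * e)) * toR f.A := by
    refine (mul_le_mul g4 g8 (norm_nonneg _) ((norm_nonneg _).trans g4)).trans ?_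
    rw [mul_left_comm]
    exact mul_le_mul_of_nonneg_left ((mulU_ok _ _).trans t10) hE.le
  have g11 := mul_le_mul_of_nonneg_right g10 (abs_nonneg T)
  linarith

theorem fact_mean {E l M W s T : ℝ} {ζ u n : ℂ} (hE : 0 < E) (hl : 0 < l) (hW : 0 < W)
    (hs : 0 < s) (h1 : E * l ≤ ‖u‖) (h2 : W * (s * ‖n - T * ζ * u‖) ≤ E * M) :
    u ≠ 0 ∧ |s * (n / u).re - (T * s * ζ).re| ≤ M / l / W := by
  have h3 : 0 < ‖u‖ := (mul_pos hE hl).trans_le h1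
  have h4 : u ≠ 0 := norm_pos_iff.1 h3
  have hM : 0 ≤ M := nonneg_of_mul_nonneg_right (le_trans (by positivity) h2) hE
  refine ⟨h4, ?_⟩
  have h5 : s * (n / u).re - (T * s * ζ).re = (s * (n - T * ζ * u) / u).re := by
    rw [← re_ofReal_mul, ← sub_re]
    refine congrArg re ?_
    field_simp
  rw [h5]
  refine (abs_re_le_norm _).trans ?_
  rw [norm_div, norm_mul, norm_real, Real.norm_of_nonneg hs.le, div_le_iff₀ h3,
    div_mul_eq_mul_div, le_div_iff₀ hW, mul_comm]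
  refine h2.trans ?_
  have h6 : E * M = M / l * (E * l) := by field_simp
  rw [h6]
  exact mul_le_mul_of_nonneg_left h1 (div_nonneg hM hl.le)

/-- PLAN: for `δ > 0` choose the third coordinate by `exists_varVal`; `saddle_ok`,
`entryX_ok`, `endP_ok`, `endF_ok`, `cF_eq`, `nF_eq`; `n - T ζ c = √L e (Δ1 - w Δ0)/sc` and
`L sc = s2 cg`. For `δ = 0` (complete pieces) use `Up_lim`, `Pr_lim` with `t1 = toR b.th`. -/
theorem chkX_ok (hc : c.For b) {f : FX} {d : XC} (hq : d.q.cls.ok) (h : chkX c f d = true) :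
    f.Ok b := by
  have h0 : ∀ P : Par, b.Mem P → 0 < P.δ → ∀ T, toR f.T1 ≤ T → T ≤ toR f.T2 → _ :=
    fun P hP hδ T h1 h2 => fact_X2 hc hq h hP hδ h1 h2
  refine ⟨fact_Ok hc.1 fun P hP hδ T h1 h2 => (h0 P hP hδ T h1 h2).1, ?_, ?_⟩
  · have h1 := ltI_ok (Bool.and_eq_true_iff.1 h).1
    rwa [toR_zero] at h1
  · intro P hP hf T h1 h2
    rcases P.hδ.eq_or_lt with hδ | hδ
    · have h3 : f.g.full = true := by
        by_contra h3
        exact (hf (Bool.eq_false_iff.2 h3)).ne hδ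
      simp only [Pc.c, Pc.n, h3, if_true] at h0 ⊢
      exact P.Pr_lim hc.1 hδ.symm fun d hd h4 h5 =>
        (h0 _ (fact_mem hP hδ.symm hd h5) h4 T h1 h2).2
    · exact (h0 P hP hδ T h1 h2).2

theorem chkU_ok (hc : c.For b) {f : FU} {d : UC} (h : chkU c f d = true) : f.Ok b := by
  refine fact_Ok hc.1 fun P hP hδ T h1 h2 => ?_
  unfold chkU valU at h
  obtain ⟨x, Tm, h, hx, hT⟩ := fact_pt hc hP h1 h2 h
  obtain ⟨S, w, ζ, e, h, hS, -⟩ := saddle_ok hx hδ hT h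
  obtain ⟨a, h, a1, a2, ha⟩ := mkAc_ok h
  replace ha := ha _ (hx.L0 hδ)
  obtain ⟨H, h, hH⟩ := addc_ok h
  have hη : ((P.sg * (T * P.cg) ^ 2 * e : ℝ) : ℂ) + toC d.η 0 =
      ((P.sg * (T * P.cg) ^ 2 * e + toR d.η : ℝ) : ℂ) := by
    rw [ofReal_add, toC, toR_zero]
    rfl
  have hH' : RepA x H ((P.sg * (T * P.cg) ^ 2 * e + toR d.η : ℝ) : ℂ) := fun y hy =>
    hη ▸ hH _ _ (hS.hH y hy)
  obtain ⟨vd, vu, hd, hu, e1, e2⟩ := fact_end hx hδ ha hT hH' f.g d.kd d.ku w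
  have hE : ‖(P.jet hδ T).E w‖ ≤ Real.exp (P.L * (P.sg * (T * P.cg) ^ 2 * e + toR d.η)) *
      Real.exp (-(P.L * toR d.η)) := by
    rw [← Real.exp_add, mul_add, add_neg_cancel_right, fact_LH hδ]
    exact hS.hE.le
  obtain ⟨h', M, h, g1, g2⟩ :=
    entryU_ok (lChart_ok hx hδ hT) ha hS.hw hE (Real.exp_pos _).le hd hu h
  obtain ⟨hh, h, g3⟩ := hi_ok h
  obtain ⟨za, h, g4⟩ := ab_ok h
  rw [fI_eq] at h
  obtain ⟨b1, h, g5⟩ := mul_ok h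
  obtain ⟨b2, h, g6⟩ := lo_ok h
  simp only [fI_eq, Bool.and_eq_true] at h
  obtain ⟨⟨⟨⟨t1, t2⟩, t3⟩, t4⟩, ⟨t5, t6⟩, ⟨⟨⟨t7, t8⟩, t9⟩, t10⟩, t11⟩ := h
  replace t1 := ltI_ok t1
  replace t2 := leI_ok t2
  replace t3 := leI_ok t3
  replace t4 := leI_ok t4
  replace t5 := ltI_ok t5
  replace t6 := ltI_ok t6
  replace t7 := leI_ok t7
  replace t8 := leI_ok t8
  replace t9 := leI_ok t9
  replace t10 := leI_ok t10
  replace t11 := leI_ok t11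
  rw [toR_zero] at t1 t2 t3 t4 t5 t6 t10 t11
  rw [toR_add] at t8 t9
  replace g3 : e ≤ toR hh := g3 _ _ hS.hh.rep
  replace g4 : ‖ζ‖ ≤ toR za := g4 _ _ hS.hz.rep
  replace g6 := g6 _ _ (g5 _ _ _ hx.sc.rep hx.cg.rep)
  rw [← ofReal_mul, ofReal_re] at g6
  have hτ : toR (maxI f.T1 (-f.T2)) ≤ |T| := by
    rw [toR_maxI, toR_neg]
    exact max_le (h1.trans (le_abs_self T)) ((neg_le_neg h2).trans (neg_le_abs T))
  generalize maxI f.T1 (-f.T2) = τ at *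
  have z1 : toR (mulD c.scl τ) ≤ P.sc * |T| := mulD_le t3 t1.le hx.scl hτ
  have z2 : toR (mulD b2 (mulD τ τ)) ≤ P.sc * P.cg * T ^ 2 := by
    have h3 := mulD_le t1.le t1.le hτ hτ
    rw [← sq, sq_abs] at h3
    exact (mulD_ok _ _).trans ((mul_le_mul_of_nonneg_left h3 t4).trans
      (mul_le_mul_of_nonneg_right g6 (sq_nonneg T)))
  obtain ⟨v1, v2⟩ := fact_val hδ hS.eq vd vu
  have hW : a.W (P.jet hδ T).L = toR a.L0 := by simp [Ac.W, wt, a2]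
  have hL : (P.jet hδ T).L = P.L := rfl
  rw [hW, hL, mul_assoc, ← v2, ← e1, ← e2] at g2
  rw [hL, ← v1, ← e1] at g1
  have hE0 := Real.exp_pos (P.L * (P.sg * (T * P.cg) ^ 2 * e + toR d.η))
  have hs : 0 < P.sc := mul_pos (P.sg_pos hδ) P.cg_pos
  have hE1 : Real.exp (P.L * (P.sg * (T * P.cg) ^ 2 * e + toR d.η)) ≤
      Real.exp (P.ka * (T ^ 2 * toR f.hh)) := by
    refine le_trans (Real.exp_le_exp.2 ?_)
      (fact_exp P T ((add_le_add g3 (divU_ok d.η t6)).trans t8))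
    have h3 : P.ka * T ^ 2 = P.L * (P.sc * P.cg * T ^ 2) := by
      rw [Par.ka, ← P.L_sg hδ, Par.sc]
      ring
    have h4 : toR d.η ≤ P.sc * P.cg * T ^ 2 * (toR d.η / toR (mulD b2 (mulD τ τ))) := by
      rw [← mul_div_assoc, le_div_iff₀ t6, mul_comm]
      exact mul_le_mul_of_nonneg_right z2 t2
    have h5 := mul_le_mul_of_nonneg_left h4 (P.L_pos hδ).le
    rw [mul_add, fact_LH hδ, mul_add, mul_add, ← mul_assoc P.ka _ (_ / _), h3, mul_assoc P.L]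
    exact add_le_add le_rfl h5
  generalize Real.exp (P.L * (P.sg * (T * P.cg) ^ 2 * e + toR d.η)) = E at *
  have hh0 : 0 ≤ toR h' := nonneg_of_mul_nonneg_right ((norm_nonneg _).trans g1) hE0
  have hM : 0 ≤ toR M := nonneg_of_mul_nonneg_right
    ((mul_nonneg ha.1.le (mul_nonneg hs.le (norm_nonneg _))).trans g2) hE0
  refine fact_Up hE0 hE1 (g1.trans (mul_le_mul_of_nonneg_left t7 hE0.le))
    ((fact_tri T ζ (f.g.c P T) _).trans ?_) t11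
  have g7 : ‖ζ‖ * ‖f.g.c P T‖ ≤ E * toR (mulU h' za) := by
    refine (mul_le_mul g4 g1 (norm_nonneg _) ((norm_nonneg _).trans g4)).trans ?_
    rw [mul_left_comm, mul_comm (toR za)]
    exact mul_le_mul_of_nonneg_left (mulU_ok _ _) hE0.le
  have g8 : ‖f.g.n P T - T * ζ * f.g.c P T‖ ≤
      E * toR (divU (divU M a.L0) (mulD c.scl τ)) * |T| := by
    have h3 := divU_ok M ha.1
    have h4 := divU_ok (divU M a.L0) t5
    have h5 : 0 ≤ toR (divU (divU M a.L0) (mulD c.scl τ)) :=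
      (div_nonneg ((div_nonneg hM ha.1.le).trans h3) t5.le).trans h4
    rw [div_le_iff₀ t5] at h4
    rw [div_le_iff₀ ha.1] at h3
    have h6 := h3.trans (mul_le_mul_of_nonneg_right
      (h4.trans (mul_le_mul_of_nonneg_left z1 h5)) ha.1.le)
    have h7 := g2.trans (mul_le_mul_of_nonneg_left h6 hE0.le)
    refine le_of_mul_le_mul_left ?_ (mul_pos ha.1 hs)
    linarith
  have g9 := mul_le_mul_of_nonneg_right g7 (abs_nonneg T)
  have g10 := mul_le_mul_of_nonneg_right (mul_le_mul_of_nonneg_left t9 hE0.le) (abs_nonneg T)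
  have g11 := mul_nonneg hE0.le (div_nonneg t10 (mul_pos P.par_s2_pos P.cg_pos).le)
  linarith

theorem chkF_ok (hc : c.For b) {T1 T2 : ℤ} {d : XC} (hq : d.q.cls.ok)
    (h : chkF c T1 T2 d = true) : FFok T1 T2 b := by
  intro P hP hδ T h1 h2 h0
  obtain ⟨l, _, _, _, _, _, _, h, ζ, e, -, -, -, -, h3, -⟩ := fact_X hc hq h hP hδ h1 h2
  have h4 := ltI_ok h
  rw [toR_zero] at h4
  have h5 : Pc.c ⟨true, 0, 0⟩ P T = 0 := by
    show P.cF T = 0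
    rw [Par.cF, h0, mul_zero]
  rw [h5, norm_zero] at h3
  exact absurd h3 (not_le.2 (mul_pos (Real.exp_pos _) h4))

theorem chkM_ok (hc : c.For b) {T1 T2 u v : ℤ} {dA dB : XC} (hA : dA.q.cls.ok)
    (hB : dB.q.cls.ok) (h : chkM c T1 T2 u v dA dB = true) : FMok T1 T2 u v b := by
  intro P hP hδ T h1 h2
  obtain ⟨x, Tm, h, hx, hT⟩ := fact_pt hc hP h1 h2 h
  obtain ⟨a, h, a1, a2, ha⟩ := mkAc_ok h
  replace ha := ha _ (hx.L0 hδ)
  obtain ⟨SA, wA, ζA, eA, h, sA, fA⟩ := saddle_ok hx hδ hT h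
  obtain ⟨SB, wB, ζB, eB, h, sB, fB⟩ := saddle_ok hx hδ hT h
  obtain ⟨lA, _, MA, h, p1, -, p2⟩ := fact_entry hx hδ ha hT sA (fA rfl) hA
    (vd := (0, 0)) (vu := P.V T (toC u v)) (endF_ok hx hδ ha hT sA.hH false dA.kd wA)
    (endCut_ok u v _ _ _ _ _) h
  obtain ⟨lB, _, MB, h, q1, -, q2⟩ := fact_entry hx hδ ha hT sB (fB rfl) hB
    (vd := P.V T (toC u v)) (vu := P.Vtop T) (endCut_ok u v _ _ _ _ _)
    (endF_ok hx hδ ha hT sB.hH true dB.ku wB) h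
  simp only [Bool.and_eq_true] at h
  obtain ⟨⟨t1, t2⟩, h⟩ := h
  obtain ⟨dd, h, t3⟩ := sub_ok h
  obtain ⟨g, h, t4⟩ := lo_ok h
  replace t1 := ltI_ok t1
  replace t2 := ltI_ok t2
  rw [toR_zero] at t1 t2
  have t5 := (divU_ok _ ha.1).trans_lt (ltI_ok h)
  have t6 := t4 _ _ (t3 _ _ _ sB.hw.rep sA.hw.rep)
  have hW : a.W P.L = toR a.L0 := by simp [Ac.W, wt, a2]
  have hs : 0 < P.sc := mul_pos (P.sg_pos hδ) P.cg_pos
  rw [hW] at p2 q2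
  obtain ⟨p3, p4⟩ := fact_mean (Real.exp_pos _) t1 ha.1 hs p1 p2
  obtain ⟨q3, q4⟩ := fact_mean (Real.exp_pos _) t2 ha.1 hs q1 q2
  refine ⟨p3, q3, (mul_pos_iff_of_pos_left hs).1 ?_⟩
  rw [sB.eq, sA.eq, add_sub_add_left_eq_sub, sub_re] at t6
  rw [toR_add, add_div] at t5
  have t7 := div_le_div_of_nonneg_right (divU_ok MA t1) ha.1.le
  have t8 := div_le_div_of_nonneg_right (divU_ok MB t2) ha.1.le
  have t9 := (abs_le.1 p4).2
  have t10 := (abs_le.1 q4).1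
  rw [sub_re, mul_sub]
  exact sub_pos.2 (by linarith)

end

end Pool.Agent.Sok
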