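import Pool.Agent.Sok.Par

/-! Explicit majorants of the integrand, the vertical line estimate and the estimate for small `δ`. -/

set_option autoImplicit false

namespace Pool.Agent.Sok

open Complex Set Filter Topology

noncomputable def Rq (p a : ℝ) : ℝ :=
  2 * (p * (1 - p)) * a ^ 2 * (1 + (1 - 2 * p) * a / 3 + (1 - 2 * (p * (1 - p))) * a ^ 2 / 2)
noncomputable def HBe (p a c : ℝ) : ℝ :=
  c * Real.exp ((1 - 2 * p) * a) - 1 - (1 - 2 * p) * a + Rq p a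
noncomputable def HBl (p a c : ℝ) : ℝ := (1 + (1 - 2 * p) * a) * (c - 1) + Rq p a

theorem hba_exp_taylor {x : ℝ} (hx : |x| ≤ 4) : Real.exp x ≤ 1 + x + x ^ 2 / 2 + x ^ 3 / 6 +
    x ^ 4 * (1 / 24 + |x| / 120 + |x| ^ 2 / 720 + |x| ^ 3 / 5040 + |x| ^ 4 / 20160) := by
  have h := Complex.exp_bound' (x := x) (n := 8) (by
    rw [Complex.norm_real, Real.norm_eq_abs]
    push_cast
    linarith)
  have e : exp (x : ℂ) - ∑ m ∈ Finset.range 8, (x : ℂ) ^ m / m.factorial =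
      ((Real.exp x - ∑ m ∈ Finset.range 8, x ^ m / m.factorial : ℝ) : ℂ) := by
    push_cast
    rfl
  rw [e, Complex.norm_real, Complex.norm_real, Real.norm_eq_abs, Real.norm_eq_abs] at h
  have h2 := (abs_le.1 h).2
  simp only [Finset.sum_range_succ, Finset.sum_range_zero, Nat.factorial] at h2
  push_cast at h2
  have h4 : 0 ≤ x ^ 4 := by positivity
  have a1 : x ^ 4 * x ≤ x ^ 4 * |x| := mul_le_mul_of_nonneg_left (le_abs_self x) h4
  have a3 : x ^ 4 * x ^ 3 ≤ x ^ 4 * |x| ^ 3 :=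
    mul_le_mul_of_nonneg_left (by rw [← abs_pow]; exact le_abs_self _) h4
  have a2 : |x| ^ 2 = x ^ 2 := sq_abs x
  have a4 : |x| ^ 4 = x ^ 4 := by rw [← abs_pow, abs_of_nonneg h4]
  have a8 : |x| ^ 8 = x ^ 8 := by rw [← abs_pow, abs_of_nonneg (by positivity)]
  rw [a8] at h2
  rw [a2, a4]
  linarith

theorem hba_exp_le {x M c : ℝ} (hx : |x| ≤ M) (hM : M ≤ 4)
    (hc : 1 / 24 + M / 120 + M ^ 2 / 720 + M ^ 3 / 5040 + M ^ 4 / 20160 ≤ c) :
    Real.exp x ≤ 1 + x + x ^ 2 * (1 / 2 + x / 6 + c * x ^ 2) := by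
  have h := hba_exp_taylor (hx.trans hM)
  have h0 := abs_nonneg x
  have h1 : x ^ 4 * (1 / 24 + |x| / 120 + |x| ^ 2 / 720 + |x| ^ 3 / 5040 + |x| ^ 4 / 20160) ≤
      x ^ 4 * c := by
    refine mul_le_mul_of_nonneg_left (le_trans ?_ hc) (by positivity)
    gcongr
  linarith

theorem hba_cos_le {x : ℝ} (hx : x ^ 2 ≤ 24) : Real.cos x ≤ 1 - x ^ 2 / 2 + x ^ 4 / 24 := by
  have h1 : Real.cos x = 1 - 2 * Real.sin (|x| / 2) ^ 2 := by
    rw [← Real.cos_abs x, Real.sin_sq_eq_half_sub, mul_div_cancel₀ _ two_ne_zero]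
    ring
  have h0 : 0 ≤ |x| / 2 := by positivity
  have h2 := Real.sin_ge_sub_cube h0
  have e : x ^ 2 = 4 * (|x| / 2) ^ 2 := by rw [← sq_abs x]; ring
  have e' : x ^ 4 = 16 * (|x| / 2) ^ 4 := by
    rw [show x ^ 4 = (x ^ 2) ^ 2 by ring, e]; ring
  rw [h1, e', e]
  rw [e] at hx
  generalize |x| / 2 = y at *
  have h3 : 0 ≤ y - y ^ 3 / 6 := by
    have : 0 ≤ y * (6 - y ^ 2) := mul_nonneg h0 (by linarith)
    linarith
  have h4 := pow_le_pow_left₀ h3 h2 2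
  have h5 : 0 ≤ y ^ 6 := by positivity
  linarith

theorem hba_norm_sq (p a φ : ℝ) : ‖(1 - p : ℂ) + p * exp (a + φ * I)‖ ^ 2 =
    (1 - p) ^ 2 + p ^ 2 * Real.exp a ^ 2 + 2 * (p * (1 - p)) * Real.exp a * Real.cos φ := by
  have e : (1 - p : ℂ) + p * exp (a + φ * I) =
      ((1 - p + p * Real.exp a * Real.cos φ : ℝ) : ℂ) + (p * Real.exp a * Real.sin φ : ℝ) * I := by
    rw [exp_add, exp_mul_I]
    push_cast
    ring
  rw [e, Complex.sq_norm, normSq_add_mul_I]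
  linear_combination (p * Real.exp a) ^ 2 * Real.sin_sq_add_cos_sq φ

/-- the basic majorant of the factor `q + p e^w` -/
theorem log_le_HBe {p a φ : ℝ} (hp0 : 0 ≤ p) (hp : p ≤ 1) (ha : |a| ≤ 2) :
    ‖(1 - p : ℂ) + p * exp (a + φ * I)‖ ≤
      Real.exp (p * a + p * (1 - p) * HBe p a (Real.cos φ)) := by
  refine (sq_le_sq₀ (norm_nonneg _) (Real.exp_pos _).le).1 ?_
  have hq : 0 ≤ 1 - p := by linarith
  have b1 : |-(2 * p * a)| ≤ 4 := by
    rw [abs_neg, abs_mul, abs_of_nonneg (by positivity : 0 ≤ 2 * p)]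
    calc 2 * p * |a| ≤ 2 * 1 * 2 := by gcongr
      _ = 4 := by norm_num
  have b2 : |2 * (1 - p) * a| ≤ 4 := by
    rw [abs_mul, abs_of_nonneg (by positivity : 0 ≤ 2 * (1 - p))]
    calc 2 * (1 - p) * |a| ≤ 2 * 1 * 2 := by gcongr; linarith
      _ = 4 := by norm_num
  have c1 := mul_le_mul_of_nonneg_left
    (hba_exp_le (c := 1 / 8) b1 le_rfl (by norm_num)) (sq_nonneg (1 - p))
  have c2 := mul_le_mul_of_nonneg_left
    (hba_exp_le (c := 1 / 8) b2 le_rfl (by norm_num)) (sq_nonneg p)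
  have e1 : Real.exp a ^ 2 = Real.exp (2 * (1 - p) * a) * Real.exp (2 * p * a) := by
    rw [← Real.exp_add, ← Real.exp_nat_mul]
    congr 1
    push_cast
    ring
  have e2 : Real.exp a = Real.exp ((1 - 2 * p) * a) * Real.exp (2 * p * a) := by
    rw [← Real.exp_add]
    congr 1
    ring
  have e3 : 1 = Real.exp (-(2 * p * a)) * Real.exp (2 * p * a) := by
    rw [← Real.exp_add, neg_add_cancel, Real.exp_zero]
  have e4 : Real.exp (p * a + p * (1 - p) * HBe p a (Real.cos φ)) ^ 2 =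
      Real.exp (2 * (p * (1 - p)) * HBe p a (Real.cos φ)) * Real.exp (2 * p * a) := by
    rw [← Real.exp_add, ← Real.exp_nat_mul]
    congr 1
    push_cast
    ring
  have e5 : (1 - p) ^ 2 + p ^ 2 * Real.exp a ^ 2 + 2 * (p * (1 - p)) * Real.exp a * Real.cos φ =
      ((1 - p) ^ 2 * Real.exp (-(2 * p * a)) + p ^ 2 * Real.exp (2 * (1 - p) * a) +
        2 * (p * (1 - p)) * Real.exp ((1 - 2 * p) * a) * Real.cos φ) * Real.exp (2 * p * a) := by
    linear_combination (1 - p) ^ 2 * e3 + p ^ 2 * e1 + 2 * (p * (1 - p)) * Real.cos φ * e2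
  rw [hba_norm_sq, e4, e5]
  refine mul_le_mul_of_nonneg_right (le_trans ?_ (Real.add_one_le_exp _)) (Real.exp_pos _).le
  unfold HBe Rq
  linarith

theorem HBe_mono (p a : ℝ) {c c' : ℝ} (h : c ≤ c') : HBe p a c ≤ HBe p a c' := by
  have := mul_le_mul_of_nonneg_right h (Real.exp_pos ((1 - 2 * p) * a)).le
  unfold HBe
  linarith

theorem HBe_le_HBl (p a : ℝ) {c c' : ℝ} (h : c ≤ c') (h0 : c' ≤ 0) : HBe p a c ≤ HBl p a c' := by
  refine (HBe_mono p a h).trans ?_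
  have := mul_le_mul_of_nonpos_left (Real.add_one_le_exp ((1 - 2 * p) * a)) h0
  unfold HBe HBl
  linarith

theorem HBl_convex {p : ℝ} (hp0 : 0 ≤ p) (hp : p ≤ 1) (c : ℝ) :
    ConvexOn ℝ univ (fun a => HBl p a c) := by
  have hr : 0 ≤ p * (1 - p) := mul_nonneg hp0 (by linarith)
  have hθ : (1 - 2 * p) ^ 2 = 1 - 4 * (p * (1 - p)) := by ring
  have e : (fun a => HBl p a c) = fun a => (c - 1) + ((1 - 2 * p) * (c - 1) * a +
      (2 * (p * (1 - p)) * a ^ 2 + (2 * (p * (1 - p)) * (1 - 2 * p) / 3 * a ^ 3 +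
        p * (1 - p) * (1 - 2 * (p * (1 - p))) * a ^ 4))) := by
    funext a
    unfold HBl Rq
    ring
  rw [e]
  generalize p * (1 - p) = r at *
  generalize 1 - 2 * p = θ at *
  refine convexOn_of_hasDerivWithinAt2_nonneg convex_univ
    (f' := fun a => θ * (c - 1) + (4 * r * a + (2 * r * θ * a ^ 2 + 4 * (r * (1 - 2 * r)) * a ^ 3)))
    (f'' := fun a => 4 * r + (4 * r * θ * a + 12 * (r * (1 - 2 * r)) * a ^ 2)) (by fun_prop)
    (fun x _ => HasDerivAt.hasDerivWithinAt ?_) (fun x _ => HasDerivAt.hasDerivWithinAt ?_)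
    fun x _ => ?_
  · refine ((((hasDerivAt_id' x).const_mul _).fun_add (((hasDerivAt_pow 2 x).const_mul _).fun_add
      (((hasDerivAt_pow 3 x).const_mul _).fun_add
        ((hasDerivAt_pow 4 x).const_mul _)))).const_add _).congr_deriv ?_
    push_cast
    ring
  · refine ((((hasDerivAt_id' x).const_mul _).fun_add (((hasDerivAt_pow 2 x).const_mul _).fun_add
      ((hasDerivAt_pow 3 x).const_mul _))).const_add _).congr_deriv ?_
    push_cast
    ring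
  · have h2 : 0 ≤ r * ((2 + θ * x) ^ 2 + (11 - 20 * r) * x ^ 2) :=
      mul_nonneg hr (add_nonneg (sq_nonneg _) (mul_nonneg (by linarith [sq_nonneg θ])
        (sq_nonneg _)))
    linear_combination h2 + r * x ^ 2 * hθ

theorem hba_ftc {F F' : ℝ → ℂ} {g : ℝ → ℝ} {A B : ℝ} (hAB : A ≤ B)
    (hF : ∀ x, HasDerivAt F (F' x) x) (hc : Continuous F') (hg : MeasureTheory.Integrable g)
    (hg0 : ∀ x, 0 ≤ g x) (h : ∀ x, A ≤ x → x ≤ B → ‖F' x‖ ≤ g x) : ‖F B - F A‖ ≤ ∫ x, g x := by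
  rw [← intervalIntegral.integral_eq_sub_of_hasDerivAt (fun x _ => hF x)
    (hc.intervalIntegrable _ _)]
  refine (intervalIntegral.norm_integral_le_of_norm_le hAB
    (Eventually.of_forall fun x hx => h x hx.1.le hx.2) hg.intervalIntegrable).trans ?_
  rw [intervalIntegral.integral_of_le hAB]
  exact MeasureTheory.setIntegral_le_integral hg (Eventually.of_forall hg0)

theorem hba_int_abs {b : ℝ} (hb : 0 < b) : ∫ x : ℝ, |x| * Real.exp (-b * x ^ 2) = 1 / b := by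
  have h1 : ∫ x in Ioi (0 : ℝ), x * Real.exp (-b * x ^ 2) = (2 * b)⁻¹ := by
    have h := integral_mul_cexp_neg_mul_sq (b := b) (by simpa using hb)
    apply Complex.ofReal_injective
    rw [← integral_complex_ofReal]
    push_cast
    exact h
  have h2 := integral_comp_abs (f := fun x => x * Real.exp (-b * x ^ 2))
  simp only [sq_abs] at h2
  rw [h2, h1]
  field_simp

namespace Par

variable (P : Par)

theorem hba_norm_E (hδ : 0 < P.δ) (T a φ : ℝ) : ‖P.E T (a + φ * I)‖ =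
    Real.exp (a * (T - φ) / P.δ - P.N * P.p * a) *
      ‖(1 - P.p : ℂ) + P.p * exp (a + φ * I)‖ ^ P.N := by
  have e : I * (a + φ * I) ^ 2 / (2 * P.δ) + P.β T * (a + φ * I) =
      ((a * (T - φ) / P.δ - P.N * P.p * a : ℝ) : ℂ) +
        (((a ^ 2 - φ ^ 2) / (2 * P.δ) + (T / P.δ - P.N * P.p) * φ : ℝ) : ℂ) * I := by
    have h : (P.δ : ℂ) ≠ 0 := by exact_mod_cast hδ.ne'
    unfold β
    push_cast
    field_simp
    linear_combination (2 * a * φ + φ ^ 2 * I) * I_sq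
  unfold E Eg
  rw [norm_mul, norm_pow, Complex.norm_exp, e, add_re, ofReal_re, re_ofReal_mul, I_re, mul_zero,
    add_zero]

theorem hba_s2_pos : 0 < P.s2 := by linarith [P.s2_ge]

theorem hba_sc_div (hδ : 0 < P.δ) : P.sc / P.δ = P.ka := by
  have h1 := P.L_cg hδ
  have h2 := P.L_sg hδ
  unfold sc ka
  rw [div_eq_mul_one_div, ← h1, ← h2]
  ring

theorem E_le (hδ : 0 < P.δ) (T : ℝ) {a : ℝ} (φ : ℝ) (ha : |a| ≤ 2) :
    ‖P.E T (a + φ * I)‖ ≤ Real.exp (a * (T - φ) / P.δ + P.s2 * HBe P.p a (Real.cos φ)) := by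
  rw [P.hba_norm_E hδ]
  refine (mul_le_mul_of_nonneg_left (pow_le_pow_left₀ (norm_nonneg _)
    (log_le_HBe P.hp0.le (by linarith [P.hp]) ha) _) (Real.exp_pos _).le).trans_eq ?_
  rw [← Real.exp_nat_mul, ← Real.exp_add]
  congr 1
  unfold s2
  ring

/-- horizontal segment -/
theorem hb_hor (hδ : 0 < P.δ) (T : ℝ) {a1 a2 φ c Y : ℝ} (h1 : |a1| ≤ 2) (h2 : |a2| ≤ 2)
    (hc : Real.cos φ ≤ c) (hc0 : c ≤ 0) (hY1 : a1 * (T - φ) / P.δ + P.s2 * HBl P.p a1 c ≤ Y)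
    (hY2 : a2 * (T - φ) / P.δ + P.s2 * HBl P.p a2 c ≤ Y) (s : ℝ) (hs0 : 0 ≤ s) (hs : s ≤ 1) :
    ‖P.E T (a1 + φ * I + s * ((a2 - a1 : ℝ) : ℂ))‖ ≤ Real.exp Y := by
  have hs' : 0 ≤ 1 - s := by linarith
  have e : a1 + φ * I + s * ((a2 - a1 : ℝ) : ℂ) = (((1 - s) * a1 + s * a2 : ℝ) : ℂ) + φ * I := by
    push_cast
    ring
  have ha : |(1 - s) * a1 + s * a2| ≤ 2 := by
    refine (abs_add_le _ _).trans ?_
    rw [abs_mul, abs_mul, abs_of_nonneg hs', abs_of_nonneg hs0]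
    linarith [mul_le_mul_of_nonneg_left h1 hs', mul_le_mul_of_nonneg_left h2 hs0]
  rw [e]
  refine (P.E_le hδ T φ ha).trans (Real.exp_le_exp.2 ?_)
  have k1 := (HBl_convex P.hp0.le (by linarith [P.hp]) c).2 (mem_univ a1) (mem_univ a2) hs' hs0
    (by ring)
  simp only [smul_eq_mul] at k1
  have k2 := mul_le_mul_of_nonneg_left ((HBe_le_HBl P.p _ hc hc0).trans k1) P.hba_s2_pos.le
  linear_combination k2 + (1 - s) * hY1 + s * hY2

/-- vertical segment -/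
theorem hb_ver (hδ : 0 < P.δ) (T : ℝ) {a φ1 φ2 c Y : ℝ} (h1 : |a| ≤ 2)
    (hc : ∀ s, 0 ≤ s → s ≤ 1 → Real.cos (φ1 + s * (φ2 - φ1)) ≤ c) (hc0 : c ≤ 0)
    (hY1 : a * (T - φ1) / P.δ + P.s2 * HBl P.p a c ≤ Y)
    (hY2 : a * (T - φ2) / P.δ + P.s2 * HBl P.p a c ≤ Y) (s : ℝ) (hs0 : 0 ≤ s) (hs : s ≤ 1) :
    ‖P.E T (a + φ1 * I + s * (((φ2 - φ1 : ℝ) : ℂ) * I))‖ ≤ Real.exp Y := by
  have hs' : 0 ≤ 1 - s := by linarith
  have e : a + φ1 * I + s * (((φ2 - φ1 : ℝ) : ℂ) * I) =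
      a + ((φ1 + s * (φ2 - φ1) : ℝ) : ℂ) * I := by
    push_cast
    ring
  rw [e]
  refine (P.E_le hδ T _ h1).trans (Real.exp_le_exp.2 ?_)
  have k2 := mul_le_mul_of_nonneg_left (HBe_le_HBl P.p a (hc s hs0 hs) hc0) P.hba_s2_pos.le
  linear_combination k2 + (1 - s) * hY1 + s * hY2

/-- the factor `q + p e^w` decreases with the cosine -/
theorem E_cos (hδ : 0 < P.δ) (T a : ℝ) {φ ψ : ℝ} (h : Real.cos ψ ≤ Real.cos φ) :
    ‖P.E T (a + ψ * I)‖ ≤ ‖P.E T (a + φ * I)‖ * Real.exp (a * (φ - ψ) / P.δ) := by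
  have h1 : ‖(1 - P.p : ℂ) + P.p * exp (a + ψ * I)‖ ≤ ‖(1 - P.p : ℂ) + P.p * exp (a + φ * I)‖ := by
    refine (sq_le_sq₀ (norm_nonneg _) (norm_nonneg _)).1 ?_
    rw [hba_norm_sq, hba_norm_sq]
    have hq : 0 ≤ 1 - P.p := by linarith [P.hp]
    have := P.hp0
    gcongr
  rw [P.hba_norm_E hδ, P.hba_norm_E hδ, mul_right_comm (Real.exp _), ← Real.exp_add,
    show a * (T - φ) / P.δ - P.N * P.p * a + a * (φ - ψ) / P.δ =
      a * (T - ψ) / P.δ - P.N * P.p * a by ring]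
  exact mul_le_mul_of_nonneg_left (pow_le_pow_left₀ (norm_nonneg _) h1 _) (Real.exp_pos _).le

/-- the constant below which the exponent `y0` of a vertical line cannot go -/
noncomputable def lineB (a ah c1 : ℝ) : ℝ :=
  ah ^ 2 * (P.cg ^ 2 * Real.exp (-((1 - 2 * P.p) * a)) / (2 * c1) + P.sg ^ 2 *
    ((1 - 2 * P.p) ^ 2 * (1 / 2 + (1 - 2 * P.p) * a / 6 + ((1 - 2 * P.p) * a) ^ 2 / 12) +
      2 * (P.p * (1 - P.p)) *
        (1 + (1 - 2 * P.p) * a / 3 + (1 - 2 * (P.p * (1 - P.p))) * a ^ 2 / 2)))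

theorem hba_lin (hδ : 0 < P.δ) {σ T ah a : ℝ} (hT : σ * T = |T|) (ha : a = -σ * ah * P.sc)
    (φ : ℝ) : a * (T - φ) / P.δ = P.ka * (ah * (σ * φ - |T|)) := by
  rw [ha, ← hT, ← P.hba_sc_div hδ]
  ring

theorem hba_line_exp (hδ : 0 < P.δ) {σ T ah a φ1 c1 φ : ℝ} (hσ : σ = 1 ∨ σ = -1)
    (hT : σ * T = |T|) (ha : a = -σ * ah * P.sc) (ha2 : |a| ≤ 2) (hc : c1 = 1 - φ1 ^ 2 / 12)
    (hc0 : 0 < c1) (hφ : |φ| ≤ φ1) :
    a * (T - φ) / P.δ + P.s2 * HBe P.p a (Real.cos φ) ≤ P.ka * (P.lineB a ah c1 - |T| * ah) -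
      P.s2 * (Real.exp ((1 - 2 * P.p) * a) * c1 / 2 *
        (σ * φ - P.cg ^ 2 * ah * Real.exp (-((1 - 2 * P.p) * a)) / c1) ^ 2) := by
  have hσ2 : σ ^ 2 = 1 := by rcases hσ with h | h <;> simp [h]
  have hφ2 : φ ^ 2 ≤ φ1 ^ 2 := sq_le_sq' (abs_le.1 hφ).1 (abs_le.1 hφ).2
  have k1 : Real.cos φ ≤ 1 - c1 * φ ^ 2 / 2 := by
    have h1 := hba_cos_le (x := φ) (by linarith)
    have h2 := mul_le_mul_of_nonneg_right hφ2 (sq_nonneg φ)
    rw [hc]
    linarith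
  have b1 : |(1 - 2 * P.p) * a| ≤ 2 := by
    rw [abs_mul, abs_of_nonneg (by linarith [P.hp] : 0 ≤ 1 - 2 * P.p)]
    have := mul_le_mul (by linarith [P.hp0] : 1 - 2 * P.p ≤ 1) ha2 (abs_nonneg a) zero_le_one
    linarith
  have k2 := hba_exp_le (c := 1 / 12) b1 (by norm_num) (by norm_num)
  have k3 := mul_le_mul_of_nonneg_left (HBe_mono P.p a k1) P.hba_s2_pos.le
  have k4 := mul_le_mul_of_nonneg_left k2 P.hba_s2_pos.le
  have a2 : a ^ 2 = ah ^ 2 * P.sg ^ 2 * P.cg ^ 2 := by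
    rw [ha]
    unfold sc
    linear_combination ah ^ 2 * P.sg ^ 2 * P.cg ^ 2 * hσ2
  rw [P.hba_lin hδ hT ha, Real.exp_neg]
  refine (add_le_add_right k3 _).trans ?_
  unfold HBe lineB Rq ka
  rw [Real.exp_neg]
  have hE := Real.exp_pos ((1 - 2 * P.p) * a)
  generalize Real.exp ((1 - 2 * P.p) * a) = E at *
  have k5 : E * c1 / 2 * (σ * φ - P.cg ^ 2 * ah * E⁻¹ / c1) ^ 2 =
      E * c1 / 2 * (σ ^ 2 * φ ^ 2) - P.cg ^ 2 * ah * (σ * φ) +
        P.cg ^ 2 * ah ^ 2 * (P.cg ^ 2 * E⁻¹ / (2 * c1)) := by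
    field_simp
    ring
  rw [k5, hσ2]
  linear_combination k4 + P.s2 * ((1 - 2 * P.p) ^ 2 * (1 / 2 + (1 - 2 * P.p) * a / 6 +
    ((1 - 2 * P.p) * a) ^ 2 / 12) + 2 * (P.p * (1 - P.p)) *
      (1 + (1 - 2 * P.p) * a / 3 + (1 - 2 * (P.p * (1 - P.p))) * a ^ 2 / 2)) * a2

/-- Gaussian majorant on the line `re w = a = -σ ah sc`, where `σ T = |T|` -/
theorem line_maj (hδ : 0 < P.δ) {σ T ah a φ1 c1 φ : ℝ} (hσ : σ = 1 ∨ σ = -1) (hT : σ * T = |T|)
    (ha : a = -σ * ah * P.sc) (ha2 : |a| ≤ 2) (hc : c1 = 1 - φ1 ^ 2 / 12) (hc0 : 0 < c1)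
    (hφ : |φ| ≤ φ1) :
    ‖P.E T (a + φ * I)‖ ≤ Real.exp (P.ka * (P.lineB a ah c1 - |T| * ah) -
      P.s2 * (Real.exp ((1 - 2 * P.p) * a) * c1 / 2 *
        (σ * φ - P.cg ^ 2 * ah * Real.exp (-((1 - 2 * P.p) * a)) / c1) ^ 2)) :=
  (P.E_le hδ T φ ha2).trans (Real.exp_le_exp.2 (P.hba_line_exp hδ hσ hT ha ha2 hc hc0 hφ))

/-- the central part of the line -/
theorem line_core (hδ : 0 < P.δ) {σ T ah a φ1 c1 y0 em e : ℝ} (hσ : σ = 1 ∨ σ = -1)
    (hT : σ * T = |T|) (ha : a = -σ * ah * P.sc) (ha2 : |a| ≤ 2) (hφ : 0 ≤ φ1)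
    (hc : c1 = 1 - φ1 ^ 2 / 12) (hc0 : 0 < c1) (hy : P.lineB a ah c1 ≤ y0)
    (hem : em = Real.exp (-((1 - 2 * P.p) * a))) (he : e = em / c1) :
    Real.sqrt P.s2 * ‖(P.V T (a + φ1 * I)).1 - (P.V T (a - φ1 * I)).1‖ ≤
        Real.exp (P.ka * (y0 - |T| * ah)) * Real.sqrt (2 * Real.pi * e) ∧
      Real.sqrt P.s2 * ‖((P.V T (a + φ1 * I)).2 - (P.V T (a - φ1 * I)).2) -
          P.ref T * ((P.V T (a + φ1 * I)).1 - (P.V T (a - φ1 * I)).1)‖ ≤
        Real.exp (P.ka * (y0 - |T| * ah)) * (Real.sqrt (2 * Real.pi * e) * P.sc *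
          Real.sqrt ((|T| - ah) ^ 2 + (P.cg / P.sg * (|T| - ah * e)) ^ 2) +
            2 * e / Real.sqrt P.s2) := by
  have hσ2 : σ ^ 2 = 1 := by rcases hσ with h | h <;> simp [h]
  have hs := P.hba_s2_pos
  have hem0 : 0 < em := hem ▸ Real.exp_pos _
  have he0 : 0 < e := he ▸ div_pos hem0 hc0
  have hsg := P.sg_pos hδ
  have hcg := P.cg_pos
  have hsq := Real.sqrt_pos.2 hs
  set b := P.s2 / (2 * e) with hb
  have hb0 : 0 < b := by positivity
  set μ := σ * (P.cg ^ 2 * ah * e) with hμ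
  set K := Real.exp (P.ka * (y0 - |T| * ah)) with hK
  have hK0 : 0 < K := Real.exp_pos _
  have hE : ∀ x : ℝ, -φ1 ≤ x → x ≤ φ1 →
      ‖P.E T (a + x * I)‖ ≤ K * Real.exp (-b * (x - μ) ^ 2) := by
    intro x h1 h2
    refine (P.line_maj hδ hσ hT ha ha2 hc hc0 (abs_le.2 ⟨h1, h2⟩)).trans ?_
    rw [hK, ← Real.exp_add, Real.exp_le_exp, ← hem]
    have e1 : Real.exp ((1 - 2 * P.p) * a) = em⁻¹ := by rw [hem, Real.exp_neg, inv_inv]
    have e2 : (σ * x - P.cg ^ 2 * ah * em / c1) ^ 2 = (x - μ) ^ 2 := by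
      rw [hμ, he]
      linear_combination (x ^ 2 - (P.cg ^ 2 * ah * em / c1) ^ 2) * hσ2
    have e3 : P.s2 * (em⁻¹ * c1 / 2) = b := by
      rw [hb, he]
      field_simp
    rw [e1, e2, ← mul_assoc, e3]
    linarith [mul_le_mul_of_nonneg_left hy P.ka_pos.le]
  have d0 : ∀ x : ℝ, HasDerivAt (fun x : ℝ => (P.V T (a + x * I)).1) (P.E T (a + x * I) * I) x :=
    fun x => by
      have h := ((G0_deriv P.N (1 - P.p) P.p (P.β T) hδ (a + x * I)).comp (x : ℂ)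
        ((hasDerivAt_mul_const I).const_add (a : ℂ))).comp_ofReal
      exact h
  have d1 : ∀ x : ℝ, HasDerivAt (fun x : ℝ => (P.V T (a + x * I)).2)
      ((a + x * I) * P.E T (a + x * I) * I) x :=
    fun x => by
      have h := ((G1_deriv P.N (1 - P.p) P.p (P.β T) hδ (a + x * I)).comp (x : ℂ)
        ((hasDerivAt_mul_const I).const_add (a : ℂ))).comp_ofReal
      exact h
  have hcont : Continuous fun x : ℝ => P.E T (a + x * I) :=
    (Eg_cont P.N _ _ _).comp (by fun_prop)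
  have i0 := (integrable_exp_neg_mul_sq hb0).comp_sub_right μ
  have i1 : MeasureTheory.Integrable fun x : ℝ => |x - μ| * Real.exp (-b * (x - μ) ^ 2) := by
    refine ((integrable_mul_exp_neg_mul_sq hb0).comp_sub_right μ).abs.congr
      (Eventually.of_forall fun x => ?_)
    simp only [abs_mul, Real.abs_exp]
  have v0 : ∫ x : ℝ, Real.exp (-b * (x - μ) ^ 2) = Real.sqrt (Real.pi / b) := by
    rw [MeasureTheory.integral_sub_right_eq_self (fun x => Real.exp (-b * x ^ 2)),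
      integral_gaussian]
  have v1 : ∫ x : ℝ, |x - μ| * Real.exp (-b * (x - μ) ^ 2) = 1 / b := by
    rw [MeasureTheory.integral_sub_right_eq_self (fun x => |x| * Real.exp (-b * x ^ 2)),
      hba_int_abs hb0]
  have w0 : Real.sqrt P.s2 * Real.sqrt (Real.pi / b) = Real.sqrt (2 * Real.pi * e) := by
    rw [← Real.sqrt_mul hs.le, hb]
    congr 1
    field_simp
  have w1 : Real.sqrt P.s2 * (1 / b) = 2 * e / Real.sqrt P.s2 := by
    rw [hb, eq_div_iff hsq.ne', mul_right_comm, Real.mul_self_sqrt hs.le]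
    field_simp
  have e0 : (a - φ1 * I : ℂ) = a + ((-φ1 : ℝ) : ℂ) * I := by
    push_cast
    ring
  rw [e0]
  constructor
  · have := hba_ftc (by linarith : -φ1 ≤ φ1) d0 (hcont.mul continuous_const) (i0.const_mul K)
      (fun x => by positivity) fun x h1 h2 => by
        rw [norm_mul, norm_I, mul_one]
        exact hE x h1 h2
    rw [MeasureTheory.integral_const_mul, v0] at this
    rw [← w0, mul_left_comm]
    exact mul_le_mul_of_nonneg_left this hsq.le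
  · set D := P.sc * Real.sqrt ((|T| - ah) ^ 2 + (P.cg / P.sg * (|T| - ah * e)) ^ 2) with hD
    have hsc : 0 < P.sc := mul_pos hsg hcg
    have hD0 : 0 ≤ D := by positivity
    have hT' : T = σ * |T| := by
      rw [← hT]
      linear_combination -T * hσ2
    have n0 : ‖(a + μ * I : ℂ) - P.ref T‖ = D := by
      have e1 : (a + μ * I : ℂ) - P.ref T = ((a + T * P.cg * P.sg : ℝ) : ℂ) +
          ((μ - T * P.cg ^ 2 : ℝ) : ℂ) * I := by
        unfold ref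
        push_cast
        ring
      have e2 : a + T * P.cg * P.sg = σ * (P.sc * (|T| - ah)) := by
        rw [ha]
        unfold sc
        linear_combination P.cg * P.sg * hT'
      have e3 : μ - T * P.cg ^ 2 = -σ * (P.sc * (P.cg / P.sg * (|T| - ah * e))) := by
        rw [hμ]
        unfold sc
        field_simp
        linear_combination -hT'
      refine (sq_eq_sq₀ (norm_nonneg _) hD0).1 ?_
      rw [e1, Complex.sq_norm, normSq_add_mul_I, e2, e3, hD, mul_pow P.sc,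
        Real.sq_sqrt (by positivity)]
      linear_combination ((P.sc * (|T| - ah)) ^ 2 +
        (P.sc * (P.cg / P.sg * (|T| - ah * e))) ^ 2) * hσ2
    have := hba_ftc (g := fun x => K * (D * Real.exp (-b * (x - μ) ^ 2) +
        |x - μ| * Real.exp (-b * (x - μ) ^ 2))) (by linarith : -φ1 ≤ φ1)
      (fun x => (d1 x).fun_sub ((d0 x).const_mul (P.ref T)))
      ((((by fun_prop : Continuous fun x : ℝ => (a + x * I : ℂ)).mul hcont).mul
        continuous_const).sub (continuous_const.mul (hcont.mul continuous_const)))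
      (((i0.const_mul D).add i1).const_mul K) (fun x => by positivity) fun x h1 h2 => by
        have e1 : (a + x * I) * P.E T (a + x * I) * I - P.ref T * (P.E T (a + x * I) * I) =
            ((a + μ * I - P.ref T) + ((x - μ : ℝ) : ℂ) * I) * P.E T (a + x * I) * I := by
          push_cast
          ring
        have e2 : ‖(a + μ * I - P.ref T) + ((x - μ : ℝ) : ℂ) * I‖ ≤ D + |x - μ| := by
          refine (norm_add_le _ _).trans_eq ?_
          rw [n0, norm_mul, norm_I, mul_one, Complex.norm_real, Real.norm_eq_abs]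
        rw [e1, norm_mul, norm_I, mul_one, norm_mul]
        refine (mul_le_mul e2 (hE x h1 h2) (norm_nonneg _) (by positivity)).trans_eq ?_
        ring
    rw [MeasureTheory.integral_const_mul, MeasureTheory.integral_add (i0.const_mul D) i1,
      MeasureTheory.integral_const_mul, v0, v1] at this
    rw [mul_assoc _ P.sc, ← hD, ← w0, ← w1]
    refine le_of_eq_of_le ?_ ((mul_le_mul_of_nonneg_left this hsq.le).trans_eq (by ring))
    congr 2
    ring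

/-- far side of the line: both terms of the majorant decrease -/
theorem line_far (hδ : 0 < P.δ) {σ T ah a φ1 c1 φ : ℝ} (hσ : σ = 1 ∨ σ = -1) (hT : σ * T = |T|)
    (hah : 0 ≤ ah) (ha : a = -σ * ah * P.sc) (ha2 : |a| ≤ 2) (hφ0 : 0 ≤ φ1)
    (hc : c1 = 1 - φ1 ^ 2 / 12) (hc0 : 0 < c1) (h1 : φ1 ≤ φ) (h2 : φ ≤ Real.pi) :
    ‖P.E T (a + (-σ * φ : ℝ) * I)‖ ≤ Real.exp (P.ka * (P.lineB a ah c1 - |T| * ah) -
      P.s2 * (Real.exp ((1 - 2 * P.p) * a) * c1 / 2 *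
        (φ1 + P.cg ^ 2 * ah * Real.exp (-((1 - 2 * P.p) * a)) / c1) ^ 2)) := by
  have hσ2 : σ ^ 2 = 1 := by rcases hσ with h | h <;> simp [h]
  have hcos : ∀ x, Real.cos (-σ * x) = Real.cos x := fun x => by
    rcases hσ with h | h <;> simp [h]
  have k1 := P.E_cos hδ T a (φ := -σ * φ1) (ψ := -σ * φ) (by
    rw [hcos, hcos]
    exact Real.cos_le_cos_of_nonneg_of_le_pi hφ0 h2 h1)
  have k2 := P.line_maj hδ hσ hT ha ha2 hc hc0 (φ := -σ * φ1) (by
    rcases hσ with h | h <;> simp [h, abs_of_nonneg hφ0])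
  have k3 : Real.exp (a * (-σ * φ1 - -σ * φ) / P.δ) ≤ 1 := by
    rw [Real.exp_le_one_iff]
    refine div_nonpos_of_nonpos_of_nonneg ?_ hδ.le
    have : 0 ≤ ah * P.sc * (φ - φ1) :=
      mul_nonneg (mul_nonneg hah (mul_nonneg P.sg_nonneg P.cg_pos.le)) (by linarith)
    rw [ha]
    linear_combination this - ah * P.sc * (φ - φ1) * hσ2
  have e : ∀ m, (σ * (-σ * φ1) - m) ^ 2 = (φ1 + m) ^ 2 := fun m => by
    rcases hσ with h | h <;> rw [h] <;> ring
  rw [e] at k2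
  exact k1.trans ((mul_le_of_le_one_right (norm_nonneg _) k3).trans k2)

/-- near side of the line: the majorant is convex on `[π/2, π]` -/
theorem line_near (hδ : 0 < P.δ) {σ T ah a φ1 c1 φj cj Y φ : ℝ} (hσ : σ = 1 ∨ σ = -1)
    (hT : σ * T = |T|) (ha : a = -σ * ah * P.sc) (ha2 : |a| ≤ 2) (hφ0 : Real.pi / 2 ≤ φ1)
    (hc : c1 = 1 - φ1 ^ 2 / 12) (hc0 : 0 < c1) (h1 : φ1 ≤ φ) (h2 : φ ≤ φj) (h3 : φj ≤ Real.pi)
    (hcj : Real.cos φj ≤ cj) (hcj0 : cj ≤ 0)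
    (hY1 : P.ka * (P.lineB a ah c1 - |T| * ah) - P.s2 * (Real.exp ((1 - 2 * P.p) * a) * c1 / 2 *
        (φ1 - P.cg ^ 2 * ah * Real.exp (-((1 - 2 * P.p) * a)) / c1) ^ 2) ≤ Y)
    (hY2 : P.ka * (ah * (φj - |T|)) + P.s2 * HBl P.p a cj ≤ Y) :
    ‖P.E T (a + (σ * φ : ℝ) * I)‖ ≤ Real.exp Y := by
  have hpi := Real.pi_pos
  have hcos : ∀ x, Real.cos (σ * x) = Real.cos x := fun x => by
    rcases hσ with h | h <;> simp [h]
  have hσσ : ∀ x, σ * (σ * x) = x := fun x => by rcases hσ with h | h <;> simp [h]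
  have k1 := P.hba_line_exp hδ hσ hT ha ha2 hc hc0 (φ := σ * φ1) (by
    rcases hσ with h | h <;> simp [h, abs_of_nonneg (by linarith : 0 ≤ φ1)])
  rw [P.hba_lin hδ hT ha, hσσ, hcos] at k1
  have k2 := mul_le_mul_of_nonneg_left (HBe_le_HBl P.p a hcj hcj0) P.hba_s2_pos.le
  refine (P.E_le hδ T _ ha2).trans (Real.exp_le_exp.2 ?_)
  rw [P.hba_lin hδ hT ha, hσσ, hcos]
  obtain ⟨u, v, hu, hv, huv, rfl⟩ := (Convex.mem_Icc (h1.trans h2)).1 ⟨h1, h2⟩
  have k3 := strictConcaveOn_cos_Icc.concaveOn.2 (x := Real.pi - φ1) (y := Real.pi - φj)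
    ⟨by linarith, by linarith⟩ ⟨by linarith, by linarith⟩ hu hv huv
  simp only [smul_eq_mul] at k3
  rw [show u * (Real.pi - φ1) + v * (Real.pi - φj) = Real.pi - (u * φ1 + v * φj) by
    linear_combination Real.pi * huv, Real.cos_pi_sub, Real.cos_pi_sub, Real.cos_pi_sub] at k3
  have k4 : HBe P.p a (Real.cos (u * φ1 + v * φj)) ≤
      u * HBe P.p a (Real.cos φ1) + v * HBe P.p a (Real.cos φj) := by
    have := mul_le_mul_of_nonneg_right k3 (Real.exp_pos ((1 - 2 * P.p) * a)).le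
    unfold HBe
    linear_combination this + (1 + (1 - 2 * P.p) * a - Rq P.p a) * huv
  have k5 := mul_le_mul_of_nonneg_left k4 P.hba_s2_pos.le
  linear_combination k5 + u * (k1.trans hY1) + v * k2 + v * hY2 + (Y + P.ka * ah * |T|) * huv



end Par

end Pool.Agent.Sok
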