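import Pool.Agent.Sok.Num
import Pool.Agent.Sok.Core

/-! Kernel check of the constants of a class of saddle cores. -/

set_option autoImplicit false

namespace Pool.Agent.Sok

open Set

/-- a class of cores with its constants, as fixed point numbers -/
structure LCC where
  U0 : ℤ
  p : ℤ
  e : ℤ
  k : ℤ
  J2 : ℤ
  JE : ℤ
  tr : ℤ
  M3 : ℤ
  M5 : ℤ
  N3 : ℤ
  N5 : ℤ

def LCC.ok (c : LCC) : Prop :=
  LCok (toR c.U0) (toR c.p) (toR c.e) (toR c.k) (toR c.J2) (toR c.JE) (toR c.tr) (toR c.M3)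
    (toR c.M5) (toR c.N3) (toR c.N5)

def lcMu (a b : ℕ) : ℕ := Nat.add (Nat.div (Nat.mul a b) 1099511627776) 1
def lcDv (a b : ℕ) : ℕ := Nat.add (Nat.div (Nat.mul a 1099511627776) b) 1
def lcUp (a m : ℕ) : ℕ := Nat.add (Nat.div a m) 1

def lcSq (e : ℕ) : ℕ := Nat.add (Nat.shiftRight (Nat.pow e 64) 2520) 1

def lcEx (z : ℕ) (k : ℕ → Bool) : Bool :=
  fN (lcUp z 64) fun w => cond (Nat.ble w 1099511627776)
    (fN (lcSq (lcUp (Nat.add (Nat.mul w (Nat.add (Nat.mul w (Nat.add (Nat.mul w (Nat.add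
      (Nat.mul 5 w) 17592186044416)) 58028439341502200385896448))
      127605887595351923798765477786913079296))
      140304157183766680147553743940763169886969524125696)
      127605887595351923798765477786913079296)) k) false

def lcEn (y : ℕ) (k : ℕ → Bool) : Bool :=
  fN (Nat.div y 64) fun w =>
    fN (lcSq (lcUp 8769009823985417509222108996297698117935595257856 (Nat.add (Nat.mul w
      (Nat.add (Nat.mul w (Nat.add w 3298534883328)) 7253554917687775048237056))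
      7975367974709495237422842361682067456))) k

def lcCh (y : ℕ) (k : ℕ → Bool) : Bool :=
  fN y fun y => lcEx y fun a => lcEn y fun b => k (lcUp (Nat.add a b) 2)

def lcLp (nd : ℕ → (ℕ → ℕ → Bool) → Bool) (K : ℕ → Bool) (n : ℕ) : ℕ → ℕ → ℕ → ℕ → Bool :=
  Nat.rec (motive := fun _ => ℕ → ℕ → ℕ → ℕ → Bool) (fun _ _ _ S => K S)
    (fun _ ih i I D S => fN (Nat.add i 1) fun j => nd j fun I' D' =>
      fN (Nat.add S (Nat.add (Nat.mul (Nat.add (Nat.mul 2 I) I') D)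
        (Nat.mul (Nat.add I (Nat.mul 2 I')) D'))) fun S' => ih j I' D' S') n

def lcQd (nd : ℕ → (ℕ → ℕ → Bool) → Bool) (n a h : ℕ) (K : ℕ → Bool) : Bool :=
  nd 0 fun I D => lcLp nd (fun S => lcEx (lcUp (lcMu a (lcMu h h)) 8) fun c =>
    fN (lcMu (lcMu c h) (lcUp S 6597069766656)) K) n 0 I D 0

def lcCore (U p e k j : ℕ) (K : ℕ → ℕ → ℕ → ℕ → ℕ → Bool) : Bool :=
  fN (Nat.div (Nat.mul U j) 64) fun u => fN (Nat.mul 17179869184 j) fun x =>
    fN (lcMu x x) fun x2 => fN (lcMu k (lcMu x2 x)) fun kx =>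
      fN (lcMu (Nat.add u 1) (Nat.add u 1)) fun u2 => fN (lcUp u2 2) fun A =>
        lcEx (lcMu A (Nat.add (lcMu e x2) kx)) fun E =>
          lcEn (Nat.div (Nat.mul u u) 2199023255552) fun D =>
            K (lcMu u2 u2) x2 (lcMu A (Nat.add (lcMu p x) kx)) E D

def lcNd (U p e k c m : ℕ) (b : Bool) (j : ℕ) (K : ℕ → ℕ → Bool) : Bool :=
  lcCore U p e k j fun u4 x2 Y E D => lcCh Y fun C =>
    fN (lcUp (lcMu (cond b (lcMu u4 x2) u4) (lcMu (Nat.add c C) E)) m) fun I => K I D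

def lcNe (U p e k j : ℕ) (K : ℕ → ℕ → Bool) : Bool :=
  lcCore U p e k j fun _ _ _ E D => fN (Nat.sub E 1099511627776) fun I => K I D

def lcGa (a u : ℕ) (K : ℕ → Bool) : Bool :=
  lcEn (Nat.div (Nat.mul a (Nat.mul u u)) 2417851639229258349412352) K

def lcAt (U j : ℕ) : ℕ := Nat.add U (Nat.mul j 137438953472)

def lcEnd (U a : ℕ) (K : ℕ → Bool) : Bool :=
  fN (Nat.div (Nat.mul a (lcAt U 48)) 1099511627776) fun b => cond (Nat.ble 1 b)
    (lcGa a (lcAt U 48) fun g => fN (lcDv g b) K) false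

def lcT (U a : ℕ) (K : ℕ → ℕ → ℕ → Bool) : Bool :=
  fN a fun a => lcQd (fun j k => lcGa a (lcAt U j) (k 1099511627776)) 48 a 137438953472 fun s =>
    lcEnd U a fun t => lcGa a U fun g => fN (Nat.add s t) fun t0 =>
      fN (lcDv (Nat.add (lcMu U g) t0) a) fun t2 =>
        fN (lcDv (Nat.add (lcMu (lcMu U (lcMu U U)) g) (Nat.mul 3 t2)) a) fun t4 => K t0 t2 t4

def lcTe (U r a : ℕ) (K : ℕ → Bool) : Bool :=
  lcQd (fun j k => fN (lcAt U j) fun u => lcEx (lcUp (lcMu r (lcMu u u)) 2) fun E =>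
    fN (Nat.sub E 1099511627776) fun I => lcGa 1099511627776 u (k I)) 48 1099511627776
      137438953472 fun s => lcEnd U a fun t => fN (Nat.add s t) K

def lcLe (s : ℕ) (b : ℤ) : Bool := leI (Int.ofNat (lcMu 877283835129 s)) b

def lcMain (U p e k : ℕ) (c : LCC) : Bool :=
  fN (lcUp U 64) fun h => fN (Nat.add e k) fun r => fN (Nat.add p k) fun q =>
  cond (Nat.ble (Nat.add (Nat.add r q) 1) 1099511627776)
    (fN (Nat.sub 1099511627776 r) fun a =>
    lcQd (lcNd U p e k 5497558138880 48 true) 64 1099511627776 h fun sJ =>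
    lcQd (lcNe U p e k) 64 1099511627776 h fun sE =>
    lcQd (lcNd U p e k 2199023255552 6 false) 64 1099511627776 h fun s3 =>
    lcQd (lcNd U p e k 2199023255552 6 true) 64 1099511627776 h fun s5 =>
    lcT U a fun _ a2 a4 => lcT U (Nat.sub a q) fun _ b2 b4 => lcT U (Nat.add a q) fun _ c2 c4 =>
    lcT U 1099511627776 fun d0 _ _ => lcTe U r a fun tE =>
    fN (lcUp (Nat.add (Nat.mul 4 a4) (Nat.add b4 c4)) 12) fun m4 =>
    fN (lcMu (lcMu U U) (lcUp (Nat.add (Nat.mul 4 a2) (Nat.add b2 c2)) 12)) fun m2 =>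
      lcLe (Nat.add sJ (lcUp (Nat.add (Nat.mul 10 a4) (Nat.add b4 c4)) 96)) c.J2 &&
      lcLe (Nat.add sE tE) c.JE && lcLe d0 c.tr && lcLe (Nat.add s3 m4) c.M3 &&
      lcLe (Nat.add s5 m4) c.M5 && lcLe (Nat.add s3 m2) c.N3 && lcLe (Nat.add s5 m2) c.N5) false

/-- chord bounds on cells, integration by parts beyond `U0` -/
def lcCheck (c : LCC) : Bool :=
  ltI 0 c.U0 && leI 0 c.p && leI 0 c.e && leI 0 c.k &&
    fN (Int.toNat c.U0) fun U => fN (Int.toNat c.p) fun p => fN (Int.toNat c.e) fun e =>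
      fN (Int.toNat c.k) fun k => lcMain U p e k c

/-- the real number denoted by a fixed point natural number -/
noncomputable def lcV (n : ℕ) : ℝ := (n : ℝ) / 1099511627776

theorem lcV_nonneg (n : ℕ) : 0 ≤ lcV n := by unfold lcV; positivity

theorem lcV_add (a b : ℕ) : lcV (Nat.add a b) = lcV a + lcV b := by simp [lcV, add_div]

theorem lcV_mul (m a : ℕ) : lcV (Nat.mul m a) = m * lcV a := by simp [lcV, mul_div_assoc]

theorem lcV_one : lcV 1099511627776 = 1 := by norm_num [lcV]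

theorem lcV_sub (a b : ℕ) : lcV a - lcV b ≤ lcV (Nat.sub a b) := by
  have h : (a : ℝ) ≤ (a - b : ℕ) + b := by exact_mod_cast le_tsub_add
  simp only [lcV, Nat.sub_eq]
  linarith

theorem lc_up (a : ℕ) {m : ℕ} (hm : 0 < m) : (a : ℝ) / m / 1099511627776 ≤ lcV (lcUp a m) := by
  have h : (a : ℝ) ≤ m * (a / m + 1 : ℕ) := by exact_mod_cast (Nat.lt_mul_div_succ a hm).le
  have h2 : (a : ℝ) / m ≤ (a / m + 1 : ℕ) := by
    rw [div_le_iff₀ (by positivity)]
    linarith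
  exact div_le_div_of_nonneg_right h2 (by norm_num)

theorem lc_dn (a m : ℕ) : lcV (Nat.div a m) ≤ (a : ℝ) / m / 1099511627776 :=
  div_le_div_of_nonneg_right Nat.cast_div_le (by norm_num)

theorem lcUp_le {x : ℝ} {a m : ℕ} (hm : 0 < m) (h : x ≤ lcV a) : x / m ≤ lcV (lcUp a m) := by
  refine le_trans ?_ (lc_up a hm)
  rw [div_right_comm]
  exact div_le_div_of_nonneg_right h (by positivity)

theorem lcMu_le {x y : ℝ} {a b : ℕ} (hy : 0 ≤ y) (ha : x ≤ lcV a) (hb : y ≤ lcV b) :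
    x * y ≤ lcV (lcMu a b) := by
  refine (mul_le_mul ha hb hy (lcV_nonneg a)).trans (le_trans (le_of_eq ?_)
    (lc_up (a * b) (m := 1099511627776) (by norm_num)))
  simp only [lcV]
  push_cast
  ring

theorem lcDv_le {x y : ℝ} {a b : ℕ} (hb0 : 0 < b) (ha : x ≤ lcV a) (hb : lcV b ≤ y) :
    x / y ≤ lcV (lcDv a b) := by
  have h0 : 0 < lcV b := by unfold lcV; positivity
  refine (div_le_div₀ (lcV_nonneg a) ha h0 hb).trans (le_trans (le_of_eq ?_)
    (lc_up (a * 1099511627776) hb0))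
  simp only [lcV]
  push_cast
  field_simp

theorem lcSq_le {x y : ℝ} {e : ℕ} (hx : x ≤ 64 * y) (h : Real.exp y ≤ lcV e) :
    Real.exp x ≤ lcV (lcSq e) := by
  have h1 : lcSq e = lcUp (e ^ 64) (2 ^ 2520) := congrArg (· + 1) (Nat.shiftRight_eq_div_pow _ _)
  have h2 : lcV e ^ 64 = ((e ^ 64 : ℕ) : ℝ) / (2 ^ 2520 : ℕ) / 1099511627776 := by
    rw [lcV, show (1099511627776 : ℝ) = 2 ^ 40 by norm_num, div_pow, ← pow_mul, div_div,
      Nat.cast_pow, Nat.cast_pow, Nat.cast_ofNat, ← pow_add]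
  rw [h1]
  refine le_trans ?_ (h2.le.trans (lc_up _ (Nat.two_pow_pos _)))
  refine (Real.exp_le_exp.mpr hx).trans ?_
  rw [show (64 : ℝ) = (64 : ℕ) by norm_num, Real.exp_nat_mul]
  exact pow_le_pow_left₀ (Real.exp_pos _).le h _

theorem lc_fN (n : ℕ) (k : ℕ → Bool) : fN n k = k n := (fN_eq n k).trans (Eq.refl _)

theorem lc_cond {b x : Bool} (h : cond b x false = true) : b = true ∧ x = true := by
  cases b <;> simp_all

theorem lcEx_ok {z : ℕ} {k : ℕ → Bool} {x : ℝ} (h : lcEx z k = true) (hx : x ≤ lcV z) :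
    ∃ e, k e = true ∧ Real.exp x ≤ lcV e := by
  have h1 := lcUp_le (m := 64) (by norm_num) hx
  rw [lcEx, fN_eq] at h
  obtain ⟨h0, h⟩ := lc_cond h
  rw [fN_eq] at h
  generalize lcUp z 64 = w at h0 h h1
  have h2 : lcV w ≤ 1 := by
    rw [lcV, div_le_one (by norm_num)]
    exact_mod_cast Nat.le_of_ble_eq_true h0
  refine ⟨_, h, lcSq_le (y := lcV w) (by push_cast at h1; linarith) ?_⟩
  refine (Real.exp_bound' (lcV_nonneg w) h2 (n := 4) (by norm_num)).trans
    (le_trans (le_of_eq ?_) (lc_up _ (by norm_num)))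
  simp only [lcV, Finset.sum_range_succ, Finset.sum_range_zero, Nat.factorial, Nat.add_eq,
    Nat.mul_eq]
  push_cast
  ring

theorem lcEn_ok {y : ℕ} {k : ℕ → Bool} {x : ℝ} (h : lcEn y k = true) (hx : lcV y ≤ x) :
    ∃ e, k e = true ∧ Real.exp (-x) ≤ lcV e := by
  have h1 := lc_dn y 64
  rw [lcEn, fN_eq, fN_eq] at h
  generalize Nat.div y 64 = w at h h1
  refine ⟨_, h, lcSq_le (y := -lcV w) (by rw [lcV] at hx; push_cast at h1; linarith) ?_⟩
  have h2 := Real.sum_le_exp_of_nonneg (lcV_nonneg w) 4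
  simp only [Finset.sum_range_succ, Finset.sum_range_zero, Nat.factorial] at h2
  have h3 := lcV_nonneg w
  simp only [Nat.add_eq, Nat.mul_eq]
  refine le_trans ?_ (lc_up _ (by positivity))
  rw [Real.exp_neg]
  refine (inv_anti₀ (by positivity) h2).trans (le_of_eq ?_)
  rw [lcV]
  push_cast
  field_simp
  ring

theorem lcCh_ok {y : ℕ} {k : ℕ → Bool} {x : ℝ} (h : lcCh y k = true) (h0 : 0 ≤ x)
    (hx : x ≤ lcV y) : ∃ e, k e = true ∧ Real.cosh x ≤ lcV e := by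
  rw [lcCh, fN_eq] at h
  obtain ⟨a, h, ha⟩ := lcEx_ok (x := lcV y) h le_rfl
  obtain ⟨b, h, hb⟩ := lcEn_ok (x := lcV y) h le_rfl
  refine ⟨_, h, le_trans (Real.cosh_le_cosh.mpr ?_ : _ ≤ Real.cosh (lcV y)) ?_⟩
  · rwa [abs_of_nonneg h0, abs_of_nonneg (lcV_nonneg y)]
  · rw [Real.cosh_eq]
    exact lcUp_le (m := 2) two_pos (by rw [lcV_add]; linarith)

/-- continuous, convex, monotone and nonnegative on the half line -/
structure LcCI (f : ℝ → ℝ) : Prop where
  cont : Continuous f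
  conv : ConvexOn ℝ (Ici 0) f
  mono : MonotoneOn f (Ici 0)
  pos : ∀ ⦃u⦄, u ∈ Ici (0 : ℝ) → 0 ≤ f u

theorem LcCI.const {c : ℝ} (hc : 0 ≤ c) : LcCI fun _ => c :=
  ⟨continuous_const, convexOn_const c (convex_Ici 0), monotoneOn_const, fun _ _ => hc⟩

theorem LcCI.id : LcCI fun u => u :=
  ⟨continuous_id, convexOn_id (convex_Ici 0), monotoneOn_id, fun _ h => h⟩

theorem LcCI.add {f g : ℝ → ℝ} (hf : LcCI f) (hg : LcCI g) : LcCI fun u => f u + g u :=
  ⟨hf.cont.add hg.cont, hf.conv.add hg.conv, hf.mono.add hg.mono,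
    fun _ h => add_nonneg (hf.pos h) (hg.pos h)⟩

theorem LcCI.mul {f g : ℝ → ℝ} (hf : LcCI f) (hg : LcCI g) : LcCI fun u => f u * g u :=
  ⟨hf.cont.mul hg.cont, hf.conv.mul hg.conv hf.pos hg.pos (hf.mono.monovaryOn hg.mono),
    fun _ ha _ hb h => mul_le_mul (hf.mono ha hb h) (hg.mono ha hb h) (hg.pos ha) (hf.pos hb),
    fun _ h => mul_nonneg (hf.pos h) (hg.pos h)⟩

theorem LcCI.div {f : ℝ → ℝ} (hf : LcCI f) {c : ℝ} (hc : 0 ≤ c) : LcCI fun u => f u / c := by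
  simpa only [div_eq_mul_inv] using hf.mul (.const (inv_nonneg.mpr hc))

theorem LcCI.pow {f : ℝ → ℝ} (hf : LcCI f) (n : ℕ) : LcCI fun u => f u ^ n := by
  induction n with
  | zero => simpa using LcCI.const zero_le_one
  | succ n ih => simpa only [pow_succ] using ih.mul hf

theorem LcCI.comp {f g : ℝ → ℝ} (hg : LcCI g) (hf : LcCI f) : LcCI fun u => g (f u) := by
  refine ⟨hg.cont.comp hf.cont, ⟨convex_Ici 0, fun x hx y hy a b ha hb hab => ?_⟩,
    fun _ ha _ hb h => hg.mono (hf.pos ha) (hf.pos hb) (hf.mono ha hb h),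
    fun _ h => hg.pos (hf.pos h)⟩
  exact (hg.mono (hf.pos (convex_Ici 0 hx hy ha hb hab))
    (convex_Ici 0 (hf.pos hx) (hf.pos hy) ha hb hab) (hf.conv.2 hx hy ha hb hab)).trans
    (hg.conv.2 (hf.pos hx) (hf.pos hy) ha hb hab)

theorem lcCI_exp : LcCI Real.exp :=
  ⟨Real.continuous_exp, convexOn_exp.subset (subset_univ _) (convex_Ici 0),
    Real.exp_monotone.monotoneOn _, fun _ _ => (Real.exp_pos _).le⟩

theorem lcCI_em : LcCI fun u => Real.exp u - 1 :=
  ⟨by fun_prop, lcCI_exp.conv.sub (concaveOn_const 1 (convex_Ici 0)),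
    fun _ _ _ _ h => sub_le_sub_right (Real.exp_le_exp.mpr h) 1,
    fun _ h => sub_nonneg.mpr (Real.one_le_exp h)⟩

theorem lcCI_cosh : LcCI Real.cosh := by
  refine ⟨Real.continuous_cosh, ⟨convex_Ici 0, fun x _ y _ a b ha hb hab => ?_⟩,
    Real.cosh_strictMonoOn.monotoneOn, fun _ _ => (Real.cosh_pos _).le⟩
  have h1 := convexOn_exp.2 (mem_univ x) (mem_univ y) ha hb hab
  have h2 := convexOn_exp.2 (mem_univ (-x)) (mem_univ (-y)) ha hb hab
  simp only [smul_eq_mul, Real.cosh_eq] at h1 h2 ⊢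
  rw [show -(a * x + b * y) = a * -x + b * -y by ring]
  linarith

/-- a Gaussian -/
noncomputable def lcGs (a u : ℝ) : ℝ := Real.exp (-(a * u ^ 2 / 2))

theorem lcGs_pos (a u : ℝ) : 0 < lcGs a u := Real.exp_pos _

@[fun_prop] theorem lcGs_cont (a : ℝ) : Continuous (lcGs a) := by unfold lcGs; fun_prop

theorem lcGs_der (a u : ℝ) : HasDerivAt (lcGs a) (-(a * u) * lcGs a u) u := by
  have := ((((hasDerivAt_id u).pow 2).const_mul a).div_const 2).neg.exp
  refine this.congr_deriv ?_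
  simp only [lcGs, Pi.neg_apply, Pi.pow_apply, id]
  ring

theorem lc_cell {f : ℝ → ℝ} (hf : LcCI f) {a s η I D I' D' : ℝ} (ha : 0 ≤ a) (hs : 0 ≤ s)
    (hη : 0 < η) (h1 : f s ≤ I) (h2 : lcGs a s ≤ D) (h3 : f (s + η) ≤ I')
    (h4 : lcGs a (s + η) ≤ D') : ∫ u in s..s + η, f u * lcGs a u ≤
      Real.exp (a * η ^ 2 / 8) * η / 6 * ((2 * I + I') * D + (I + 2 * I') * D') := by
  set κ := Real.exp (a * η ^ 2 / 8) with hκ
  have hd : ∀ u, HasDerivAt (fun u => κ * (I * D * (u - s) +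
      (I * (D' - D) + (I' - I) * D) / η * (u - s) ^ 2 / 2 +
      (I' - I) * (D' - D) / η ^ 2 * (u - s) ^ 3 / 3))
      (((1 - (u - s) / η) * I + (u - s) / η * I') *
        (κ * ((1 - (u - s) / η) * D + (u - s) / η * D'))) u := fun u => by
    have h := (hasDerivAt_id u).sub_const s
    refine ((((h.const_mul _).add (((h.pow 2).const_mul _).div_const 2)).add
      (((h.pow 3).const_mul _).div_const 3)).const_mul κ).congr_deriv ?_
    simp only [id]
    field_simp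
    ring
  have hi := intervalIntegral.integral_eq_sub_of_hasDerivAt (a := s) (b := s + η)
    (fun u _ => hd u) (Continuous.intervalIntegrable (by fun_prop) _ _)
  refine (intervalIntegral.integral_mono_on (by linarith)
    ((hf.cont.mul (lcGs_cont a)).intervalIntegrable _ _)
    (Continuous.intervalIntegrable (by fun_prop) _ _) fun u hu => ?_).trans (hi.trans ?_).le
  · obtain ⟨t, ht⟩ : ∃ t, t = (u - s) / η := ⟨_, rfl⟩
    have t0 : 0 ≤ t := ht ▸ div_nonneg (by linarith [hu.1]) hη.le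
    have t1 : 0 ≤ 1 - t := sub_nonneg.mpr (ht ▸ (div_le_one hη).mpr (by linarith [hu.2]))
    have e : u = (1 - t) * s + t * (s + η) := by rw [ht]; field_simp; ring
    have a1 := hf.conv.2 (mem_Ici.mpr hs) (mem_Ici.mpr (by linarith : 0 ≤ s + η)) t1 t0 (by ring)
    have a2 := convexOn_exp.2 (mem_univ (-(a * s ^ 2 / 2))) (mem_univ (-(a * (s + η) ^ 2 / 2)))
      t1 t0 (by ring)
    simp only [smul_eq_mul] at a1 a2
    rw [← e] at a1
    rw [← ht]
    have b1 : f u ≤ (1 - t) * I + t * I' := a1.trans (by gcongr)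
    refine mul_le_mul b1 ?_ (lcGs_pos _ _).le ((hf.pos (hs.trans hu.1)).trans b1)
    refine le_trans ?_ (mul_le_mul_of_nonneg_left (a2.trans (add_le_add
      (mul_le_mul_of_nonneg_left h2 t1) (mul_le_mul_of_nonneg_left h4 t0))) (Real.exp_pos _).le)
    rw [← Real.exp_add, lcGs, Real.exp_le_exp, e]
    linarith [mul_nonneg ha (sq_nonneg (η * (2 * t - 1)))]
  · field_simp
    ring

theorem lcLp_succ (nd : ℕ → (ℕ → ℕ → Bool) → Bool) (K : ℕ → Bool) (n i I D S : ℕ) :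
    lcLp nd K (n + 1) i I D S = nd (i + 1) fun I' D' =>
      lcLp nd K n (i + 1) I' D' (S + ((2 * I + I') * D + (I + 2 * I') * D')) := rfl

theorem lcQd_ok {f : ℝ → ℝ} (hf : LcCI f) {α s η : ℝ} {nd : ℕ → (ℕ → ℕ → Bool) → Bool}
    {n a h : ℕ} {K : ℕ → Bool} (hK : lcQd nd n a h K = true) (hα : 0 ≤ α) (hs : 0 ≤ s)
    (hη : 0 < η) (ha : α ≤ lcV a) (hh : η ≤ lcV h)
    (hnd : ∀ j k, nd j k = true → ∃ I D, k I D = true ∧ f (s + j * η) ≤ lcV I ∧
      lcGs α (s + j * η) ≤ lcV D) :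
    ∃ r, K r = true ∧ ∫ u in s..s + n * η, f u * lcGs α u ≤ lcV r := by
  have hc : Continuous fun u => f u * lcGs α u := hf.cont.mul (lcGs_cont α)
  have key : ∀ (K : ℕ → Bool) (n i I D S : ℕ), lcLp nd K n i I D S = true →
      f (s + i * η) ≤ lcV I → lcGs α (s + i * η) ≤ lcV D →
      ∫ u in s..s + i * η, f u * lcGs α u ≤
        Real.exp (α * η ^ 2 / 8) * η / 6 * (lcV S / 1099511627776) →
      ∃ S', K S' = true ∧ ∫ u in s..s + (i + n : ℕ) * η, f u * lcGs α u ≤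
        Real.exp (α * η ^ 2 / 8) * η / 6 * (lcV S' / 1099511627776) := by
    intro K n
    induction n with
    | zero => exact fun i I D S h _ _ h3 => ⟨S, h, h3⟩
    | succ n ih =>
      intro i I D S h h1 h2 h3
      rw [lcLp_succ] at h
      obtain ⟨I', D', h, h4, h5⟩ := hnd (i + 1) _ h
      rw [show i + (n + 1) = i + 1 + n by ring]
      refine ih _ _ _ _ h h4 h5 ?_
      have e : s + (i + 1 : ℕ) * η = s + i * η + η := by push_cast; ring
      rw [e] at h4 h5 ⊢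
      have := lc_cell hf hα (by positivity) hη h1 h2 h4 h5
      rw [← intervalIntegral.integral_add_adjacent_intervals (b := s + i * η)
        (hc.intervalIntegrable _ _) (hc.intervalIntegrable _ _)]
      refine (add_le_add h3 this).trans (le_of_eq ?_)
      simp only [lcV]
      push_cast
      ring
  rw [lcQd] at hK
  obtain ⟨I, D, hK, h1, h2⟩ := hnd 0 _ hK
  obtain ⟨S, hK, h3⟩ := key _ n 0 I D 0 hK h1 h2 (by simp [lcV])
  obtain ⟨c, hK, h4⟩ := lcEx_ok (x := α * η ^ 2 / 8) hK (lcUp_le (m := 8) (by norm_num)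
    (lcMu_le (by positivity) ha (by rw [sq]; exact lcMu_le hη.le hh hh)))
  rw [fN_eq] at hK
  refine ⟨_, hK, ?_⟩
  rw [zero_add] at h3
  refine h3.trans (le_trans (le_of_eq ?_) (lcMu_le (by have := lcV_nonneg S; positivity)
    (lcMu_le hη.le h4 hh) (lcUp_le (m := 6597069766656) (by norm_num) (le_refl (lcV S)))))
  push_cast
  ring

theorem lcGa_ok {a u : ℕ} {K : ℕ → Bool} (h : lcGa a u K = true) :
    ∃ g, K g = true ∧ lcGs (lcV a) (lcV u) ≤ lcV g := by
  refine lcEn_ok h ((lc_dn _ _).trans (le_of_eq ?_))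
  simp only [lcV, Nat.mul_eq]
  push_cast
  ring

theorem lcAt_eq (U j : ℕ) : lcV (lcAt U j) = lcV U + j * (1 / 8) := by
  rw [lcAt, lcV_add, lcV_mul]
  norm_num [lcV]

theorem lc_ftc {F f : ℝ → ℝ} {s W c : ℝ} (hf : Continuous f) (hd : ∀ u, HasDerivAt F (f u) u)
    (h1 : F W ≤ 0) (h2 : -F s = c) : ∫ u in s..W, f u ≤ c := by
  rw [intervalIntegral.integral_eq_sub_of_hasDerivAt (fun u _ => hd u) (hf.intervalIntegrable _ _)]
  linarith

theorem lcEnd_ok {U a : ℕ} {K : ℕ → Bool} (h : lcEnd U a K = true) :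
    ∃ t, K t = true ∧ 0 < a ∧
      ∀ W, lcV U + 6 ≤ W → ∫ u in lcV U + 6..W, lcGs (lcV a) u ≤ lcV t := by
  rw [lcEnd, fN_eq] at h
  obtain ⟨h0, h⟩ := lc_cond h
  obtain ⟨g, h, hg⟩ := lcGa_ok h
  rw [fN_eq] at h
  have h1 := Nat.le_of_ble_eq_true h0
  have ha : 0 < a := Nat.pos_of_ne_zero (by
    rintro rfl
    rw [Nat.mul_eq, Nat.zero_mul] at h1
    exact absurd h1 (by decide))
  refine ⟨_, h, ha, fun W hW => ?_⟩
  have e : lcV (lcAt U 48) = lcV U + 6 := by rw [lcAt_eq]; norm_num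
  have hα : 0 < lcV a := by unfold lcV; positivity
  have hV : 0 < lcV U + 6 := by linarith [lcV_nonneg U]
  refine le_trans ?_ (lcDv_le (y := lcV a * (lcV U + 6)) h1 (e ▸ hg) ((lc_dn _ _).trans
    (le_of_eq ?_)))
  · refine (intervalIntegral.integral_mono_on (g := fun u => -(lcV a * u) * lcGs (lcV a) u /
      -(lcV a * (lcV U + 6))) hW ((lcGs_cont _).intervalIntegrable _ _)
      (Continuous.intervalIntegrable (by fun_prop) _ _) fun u hu => ?_).trans
      (lc_ftc (by fun_prop) (fun u => (lcGs_der _ u).div_const _) ?_ (by rw [div_neg, neg_neg]))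
    · rw [neg_mul, neg_div_neg_eq, le_div_iff₀ (by positivity), mul_comm]
      have := lcGs_pos (lcV a) u
      gcongr
      exact hu.1
    · rw [div_neg, neg_nonpos]
      have := lcGs_pos (lcV a) W
      positivity
  · rw [← e]
    simp only [lcV, Nat.mul_eq]
    push_cast
    ring

theorem lc_ibp {α s W : ℝ} (m : ℕ) (hα : 0 < α) (hW : 0 ≤ W) :
    ∫ u in s..W, u ^ (m + 2) * lcGs α u ≤
      (s ^ (m + 1) * lcGs α s + (m + 1) * ∫ u in s..W, u ^ m * lcGs α u) / α := by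
  have h := lc_ftc (F := fun u => -(u ^ (m + 1) * lcGs α u)) (s := s) (W := W)
    (f := fun u => α * (u ^ (m + 2) * lcGs α u) - (m + 1) * (u ^ m * lcGs α u)) (by fun_prop)
    (fun u => (((hasDerivAt_pow (m + 1) u).mul (lcGs_der α u)).neg.congr_deriv (by
      simp only [Nat.add_sub_cancel]; push_cast; ring)))
    (by have := lcGs_pos α W; rw [neg_nonpos]; positivity) (neg_neg _)
  rw [intervalIntegral.integral_sub (Continuous.intervalIntegrable (by fun_prop) _ _)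
    (Continuous.intervalIntegrable (by fun_prop) _ _), intervalIntegral.integral_const_mul,
    intervalIntegral.integral_const_mul] at h
  rw [le_div_iff₀ hα]
  linarith

theorem lc_eighth : (1 / 8 : ℝ) ≤ lcV 137438953472 := by norm_num [lcV]

theorem lcT_ok {U a : ℕ} {K : ℕ → ℕ → ℕ → Bool} (h : lcT U a K = true) :
    ∃ t0 t2 t4, K t0 t2 t4 = true ∧ ∀ W, lcV U + 6 ≤ W →
      ∫ u in lcV U..W, lcGs (lcV a) u ≤ lcV t0 ∧
      ∫ u in lcV U..W, u ^ 2 * lcGs (lcV a) u ≤ lcV t2 ∧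
      ∫ u in lcV U..W, u ^ 4 * lcGs (lcV a) u ≤ lcV t4 := by
  rw [lcT, fN_eq] at h
  have hU := lcV_nonneg U
  obtain ⟨s, h, hs⟩ := lcQd_ok (.const zero_le_one) h (lcV_nonneg a) hU (by norm_num) le_rfl
    lc_eighth fun j k h => by
      obtain ⟨g, h, hg⟩ := lcGa_ok h
      exact ⟨_, g, h, lcV_one.ge, lcAt_eq U j ▸ hg⟩
  obtain ⟨t, h, ha, ht⟩ := lcEnd_ok h
  obtain ⟨g, h, hg⟩ := lcGa_ok h
  rw [fN_eq, fN_eq, fN_eq] at h
  refine ⟨_, _, _, h, fun W hW => ?_⟩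
  have hα : 0 < lcV a := by unfold lcV; positivity
  have hp := (lcGs_pos (lcV a) (lcV U)).le
  have h0 : ∫ u in lcV U..W, lcGs (lcV a) u ≤ lcV (Nat.add s t) := by
    rw [← intervalIntegral.integral_add_adjacent_intervals (b := lcV U + 6)
      ((lcGs_cont _).intervalIntegrable _ _) ((lcGs_cont _).intervalIntegrable _ _), lcV_add]
    norm_num at hs
    exact add_le_add hs (ht W hW)
  have h2 := (lc_ibp (s := lcV U) (W := W) 0 hα (by linarith)).trans (lcDv_le ha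
    (a := Nat.add (lcMu U g) (Nat.add s t)) (by
      rw [lcV_add]
      exact add_le_add (lcMu_le hp (by simp) hg) (by simpa using h0)) le_rfl)
  refine ⟨h0, h2, (lc_ibp (s := lcV U) (W := W) 2 hα (by linarith)).trans (lcDv_le ha ?_ le_rfl)⟩
  rw [lcV_add, lcV_mul]
  refine add_le_add (lcMu_le hp ?_ hg) (by norm_num at h2 ⊢; exact h2)
  rw [pow_succ', sq]
  exact lcMu_le (by positivity) le_rfl (lcMu_le hU le_rfl le_rfl)

theorem lcTe_ok {U r a : ℕ} {K : ℕ → Bool} (h : lcTe U r a K = true) (ha : lcV a = 1 - lcV r) :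
    ∃ t, K t = true ∧ ∀ W, lcV U + 6 ≤ W →
      ∫ u in lcV U..W, (Real.exp (lcV r * u ^ 2 / 2) - 1) * lcGs 1 u ≤ lcV t := by
  rw [lcTe] at h
  obtain ⟨s, h, hs⟩ := lcQd_ok (lcCI_em.comp (((LcCI.const (lcV_nonneg r)).mul
    (LcCI.id.pow 2)).div zero_le_two)) h zero_le_one (lcV_nonneg U) (by norm_num) lcV_one.ge
    lc_eighth fun j k h => by
      rw [fN_eq] at h
      obtain ⟨E, h, hE⟩ := lcEx_ok (x := lcV r * lcV (lcAt U j) ^ 2 / 2) h
        (lcUp_le (m := 2) two_pos (lcMu_le (sq_nonneg _) le_rfl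
          (by rw [sq]; exact lcMu_le (lcV_nonneg _) le_rfl le_rfl)))
      rw [fN_eq] at h
      obtain ⟨g, h, hg⟩ := lcGa_ok h
      rw [lcV_one, lcAt_eq] at hg
      rw [lcAt_eq] at hE
      exact ⟨_, g, h, le_trans (by rw [lcV_one]; linarith) (lcV_sub _ _), hg⟩
  obtain ⟨t, h, -, ht⟩ := lcEnd_ok h
  rw [fN_eq] at h
  refine ⟨_, h, fun W hW => ?_⟩
  rw [← intervalIntegral.integral_add_adjacent_intervals (b := lcV U + 6)
    (Continuous.intervalIntegrable (by fun_prop) _ _)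
    (Continuous.intervalIntegrable (by fun_prop) _ _), lcV_add]
  refine add_le_add (by norm_num at hs ⊢; exact hs) (le_trans (intervalIntegral.integral_mono_on hW
    (Continuous.intervalIntegrable (by fun_prop) _ _) ((lcGs_cont _).intervalIntegrable _ _)
    fun u _ => ?_) (ht W hW))
  have := lcGs_pos 1 u
  rw [sub_mul, ha, lcGs, lcGs, ← Real.exp_add, show lcV r * u ^ 2 / 2 + -(1 * u ^ 2 / 2) =
    -((1 - lcV r) * u ^ 2 / 2) by ring]
  linarith [Real.exp_pos (-(1 * u ^ 2 / 2))]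

/-- the exponents below `U0` -/
noncomputable def lcP (U p k : ℝ) (m : ℕ) (u : ℝ) : ℝ :=
  u ^ 2 / 2 * (p * (u / U) ^ m + k * (u / U) ^ 3)

theorem lcP_ci {U p k : ℝ} (hU : 0 ≤ U) (hp : 0 ≤ p) (hk : 0 ≤ k) (m : ℕ) : LcCI (lcP U p k m) :=
  ((LcCI.id.pow 2).div zero_le_two).mul (((LcCI.const hp).mul ((LcCI.id.div hU).pow m)).add
    ((LcCI.const hk).mul ((LcCI.id.div hU).pow 3)))

theorem lcCore_ok {U p e k j : ℕ} {K : ℕ → ℕ → ℕ → ℕ → ℕ → Bool} (hU : 0 < lcV U)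
    (h : lcCore U p e k j K = true) {u : ℝ} (hu : u = 0 + j * (lcV U / 64)) :
    ∃ u4 x2 Y E D, K u4 x2 Y E D = true ∧ u ^ 4 ≤ lcV u4 ∧ (u / lcV U) ^ 2 ≤ lcV x2 ∧
      lcP (lcV U) (lcV p) (lcV k) 1 u ≤ lcV Y ∧
      Real.exp (lcP (lcV U) (lcV e) (lcV k) 2 u) ≤ lcV E ∧ lcGs 1 u ≤ lcV D := by
  rw [lcCore] at h
  simp only [lc_fN] at h
  have e1 : u = (Nat.mul U j : ℕ) / (64 : ℕ) / 1099511627776 := by
    simp only [hu, lcV, Nat.mul_eq]
    push_cast
    ring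
  have a1 : u ≤ lcV (Nat.add (Nat.div (Nat.mul U j) 64) 1) := e1 ▸ lc_up _ (by norm_num)
  have a2 : lcV (Nat.div (Nat.mul U j) 64) ≤ u := e1 ▸ lc_dn _ _
  have a3 : u / lcV U ≤ lcV (Nat.mul 17179869184 j) := by
    rw [hu, zero_add, mul_div_assoc, div_right_comm, div_self hU.ne']
    simp only [lcV, Nat.mul_eq]
    push_cast
    linarith
  generalize Nat.div (Nat.mul U j) 64 = v at h a1 a2
  generalize Nat.mul 17179869184 j = x at h a3
  have u0 : 0 ≤ u := (lcV_nonneg v).trans a2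
  have x0 : 0 ≤ u / lcV U := by positivity
  have := lcV_nonneg p
  have := lcV_nonneg e
  have := lcV_nonneg k
  have b1 : (u / lcV U) ^ 2 ≤ lcV (lcMu x x) := by rw [sq]; exact lcMu_le x0 a3 a3
  have b2 : lcV k * (u / lcV U) ^ 3 ≤ lcV (lcMu k (lcMu (lcMu x x) x)) :=
    lcMu_le (by positivity) le_rfl (by rw [pow_succ]; exact lcMu_le x0 b1 a3)
  have b3 : u ^ 2 ≤ lcV (lcMu (v.add 1) (v.add 1)) := by rw [sq]; exact lcMu_le u0 a1 a1
  have b4 := lcUp_le (m := 2) two_pos b3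
  obtain ⟨E, h, hE⟩ := lcEx_ok (x := lcP (lcV U) (lcV e) (lcV k) 2 u) h
    (lcMu_le (by positivity) b4 (by
      rw [lcV_add]; exact add_le_add (lcMu_le (sq_nonneg _) le_rfl b1) b2))
  obtain ⟨D, h, hD⟩ := lcEn_ok (x := 1 * u ^ 2 / 2) h ((lc_dn _ _).trans (by
    have := pow_le_pow_left₀ (lcV_nonneg v) a2 2
    simp only [lcV, Nat.mul_eq] at this ⊢
    push_cast
    linarith))
  refine ⟨_, _, _, E, D, h, ?_, b1, lcMu_le (by positivity) b4 ?_, hE, hD⟩
  · rw [show u ^ 4 = u ^ 2 * u ^ 2 by ring]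
    exact lcMu_le (sq_nonneg _) b3 b3
  · rw [lcV_add, pow_one]
    exact add_le_add (lcMu_le x0 le_rfl a3) b2

/-- the moment integrands below `U0` -/
noncomputable def lcF (U p e k c m : ℝ) (b : Bool) (u : ℝ) : ℝ :=
  cond b (u ^ 4 * (u / U) ^ 2) (u ^ 4) *
    ((c + Real.cosh (lcP U p k 1 u)) * Real.exp (lcP U e k 2 u)) / m

theorem lcNd_ok {U p e k c m h : ℕ} {b : Bool} {K : ℕ → Bool} (hU : 0 < lcV U) (hm : 0 < m)
    (hh : lcV U / 64 ≤ lcV h) (hK : lcQd (lcNd U p e k c m b) 64 1099511627776 h K = true) :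
    ∃ s, K s = true ∧ ∫ u in (0 : ℝ)..lcV U,
      lcF (lcV U) (lcV p) (lcV e) (lcV k) (lcV c) m b u * lcGs 1 u ≤ lcV s := by
  have c1 := lcP_ci hU.le (lcV_nonneg p) (lcV_nonneg k) 1
  have c2 := ((LcCI.const (lcV_nonneg c)).add (lcCI_cosh.comp c1)).mul
    (lcCI_exp.comp (lcP_ci hU.le (lcV_nonneg e) (lcV_nonneg k) 2))
  have hf : LcCI (lcF (lcV U) (lcV p) (lcV e) (lcV k) (lcV c) m b) := by
    cases b
    · exact ((LcCI.id.pow 4).mul c2).div m.cast_nonneg
    · exact (((LcCI.id.pow 4).mul ((LcCI.id.div hU.le).pow 2)).mul c2).div m.cast_nonneg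
  obtain ⟨s, hK, hs⟩ := lcQd_ok hf hK zero_le_one le_rfl (by positivity) lcV_one.ge hh
    fun j k h => by
      rw [lcNd] at h
      obtain ⟨u4, x2, Y, E, D, h, h1, h2, h3, h4, h5⟩ := lcCore_ok hU h rfl
      have u0 : (0 : ℝ) ≤ 0 + j * (lcV U / 64) := by positivity
      obtain ⟨C, h, h6⟩ := lcCh_ok h (c1.pos u0) h3
      rw [fN_eq] at h
      refine ⟨_, D, h, lcUp_le hm (lcMu_le (c2.pos u0) ?_ (lcMu_le (Real.exp_pos _).le
        (by rw [lcV_add]; linarith) h4)), h5⟩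
      cases b
      · exact h1
      · exact lcMu_le (sq_nonneg _) h1 h2
  exact ⟨s, hK, by rwa [show 0 + (64 : ℕ) * (lcV U / 64) = lcV U by push_cast; ring] at hs⟩

theorem lcNe_ok {U p e k h : ℕ} {K : ℕ → Bool} (hU : 0 < lcV U)
    (hh : lcV U / 64 ≤ lcV h) (hK : lcQd (lcNe U p e k) 64 1099511627776 h K = true) :
    ∃ s, K s = true ∧ ∫ u in (0 : ℝ)..lcV U,
      (Real.exp (lcP (lcV U) (lcV e) (lcV k) 2 u) - 1) * lcGs 1 u ≤ lcV s := by
  obtain ⟨s, hK, hs⟩ := lcQd_ok (lcCI_em.comp (lcP_ci hU.le (lcV_nonneg e) (lcV_nonneg k) 2)) hK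
    zero_le_one le_rfl (by positivity) lcV_one.ge hh fun j k h => by
      rw [lcNe] at h
      obtain ⟨u4, x2, Y, E, D, h, -, -, -, h4, h5⟩ := lcCore_ok hU h rfl
      rw [fN_eq] at h
      exact ⟨_, D, h, le_trans (by rw [lcV_one]; linarith) (lcV_sub _ _), h5⟩
  exact ⟨s, hK, by rwa [show 0 + (64 : ℕ) * (lcV U / 64) = lcV U by push_cast; ring] at hs⟩

theorem lcLe_ok {s : ℕ} {b : ℤ} {x : ℝ} (h : lcLe s b = true) (hx : x ≤ lcV s) :
    x * (2 / Real.sqrt (2 * Real.pi)) ≤ toR b := by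
  have h1 : 2 / Real.sqrt (2 * Real.pi) ≤ lcV 877283835129 := by
    have : (2506627 / 1000000 : ℝ) ≤ Real.sqrt (2 * Real.pi) :=
      Real.le_sqrt_of_sq_le (by linarith [Real.pi_gt_d6])
    refine (div_le_div_of_nonneg_left zero_le_two (by norm_num) this).trans ?_
    norm_num [lcV]
  refine (mul_le_mul_of_nonneg_right hx (by positivity)).trans ?_
  rw [mul_comm]
  refine (lcMu_le (lcV_nonneg s) h1 le_rfl).trans (le_trans (le_of_eq ?_) (leI_ok h))
  simp [toR, lcV]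

theorem lc_fin {F f g : ℝ → ℝ} {V : ℝ} {s t : ℕ} {b : ℤ} (hb : lcLe (Nat.add s t) b = true)
    (hV : 0 ≤ V) (hs : ∫ u in (0 : ℝ)..V, f u ≤ lcV s)
    (ht : ∀ W, V + 6 ≤ W → ∫ u in V..W, g u ≤ lcV t) (hF : Continuous F) (h0 : ∀ u, 0 ≤ u → 0 ≤ F u)
    (hf : ∀ u ∈ Icc 0 V, F u = f u * (2 / Real.sqrt (2 * Real.pi)))
    (hg : ∀ u, V ≤ u → F u = g u * (2 / Real.sqrt (2 * Real.pi))) (U : ℝ) (hU : 0 ≤ U) :
    ∫ u in (0 : ℝ)..U, F u ≤ toR b := by
  have hW : V + 6 ≤ max U (V + 6) := le_max_right _ _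
  refine (intervalIntegral.integral_mono_interval le_rfl hU (le_max_left U (V + 6))
    (MeasureTheory.ae_restrict_of_forall_mem measurableSet_Ioc fun u hu => h0 u hu.1.le)
    (hF.intervalIntegrable _ _)).trans ?_
  rw [← intervalIntegral.integral_add_adjacent_intervals (b := V) (hF.intervalIntegrable _ _)
    (hF.intervalIntegrable _ _), intervalIntegral.integral_congr (fun u hu => hf u
      (by rwa [uIcc_of_le hV] at hu)), intervalIntegral.integral_congr (fun u hu => hg u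
      (by rw [uIcc_of_le (by linarith)] at hu; exact hu.1)), intervalIntegral.integral_mul_const,
    intervalIntegral.integral_mul_const, ← add_mul]
  exact lcLe_ok hb (by rw [lcV_add]; exact add_le_add hs (ht _ hW))

theorem lc_tail {α β γ V W : ℝ} {m n d a b c : ℕ} (hd : 0 < d)
    (ha : ∫ u in V..W, u ^ m * lcGs α u ≤ lcV a) (hb : ∫ u in V..W, u ^ m * lcGs β u ≤ lcV b)
    (hc : ∫ u in V..W, u ^ m * lcGs γ u ≤ lcV c) :
    ∫ u in V..W, (n * (u ^ m * lcGs α u) + (u ^ m * lcGs β u + u ^ m * lcGs γ u)) / d ≤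
      lcV (lcUp (Nat.add (Nat.mul n a) (Nat.add b c)) d) := by
  have hi : ∀ δ, IntervalIntegrable (fun u => u ^ m * lcGs δ u) MeasureTheory.volume V W :=
    fun δ => Continuous.intervalIntegrable (by fun_prop) _ _
  rw [intervalIntegral.integral_div, intervalIntegral.integral_add ((hi α).const_mul _)
    ((hi β).add (hi γ)), intervalIntegral.integral_add (hi β) (hi γ),
    intervalIntegral.integral_const_mul]
  refine lcUp_le hd ?_
  rw [lcV_add, lcV_add, lcV_mul]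
  gcongr

theorem lcG_eq (u : ℝ) : lcG u = lcGs 1 u * (2 / Real.sqrt (2 * Real.pi)) := by
  rw [lcG, lcGs, one_mul, mul_div_assoc]

theorem lc_high {U p e k u : ℝ} (hU : 0 < U) (hu : U ≤ u) : lcX U u = 1 ∧
    lcZ U e k u = (e + k) * u ^ 2 / 2 ∧
    Real.exp (lcZ U e k u) * lcGs 1 u = lcGs (1 - (e + k)) u ∧
    Real.cosh (lcY U p k u) * (Real.exp (lcZ U e k u) * lcGs 1 u) =
      (lcGs (1 - (e + k) - (p + k)) u + lcGs (1 - (e + k) + (p + k)) u) / 2 := by
  have h1 : lcX U u = 1 := min_eq_left ((one_le_div hU).mpr hu)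
  have h2 : Real.exp (lcZ U e k u) * lcGs 1 u = lcGs (1 - (e + k)) u := by
    rw [lcGs, lcGs, ← Real.exp_add, lcZ, h1]
    exact congrArg _ (by ring)
  refine ⟨h1, by rw [lcZ, h1]; ring, h2, ?_⟩
  rw [h2, Real.cosh_eq, div_mul_eq_mul_div, add_mul, lcGs, lcGs, lcGs, ← Real.exp_add,
    ← Real.exp_add, lcY, h1]
  exact congrArg (· / 2) (congrArg₂ _ (congrArg _ (by ring)) (congrArg _ (by ring)))

theorem lc_low {U p e k u : ℝ} (hU : 0 < U) (hu : u ≤ U) : lcX U u = u / U ∧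
    lcY U p k u = lcP U p k 1 u ∧ lcZ U e k u = lcP U e k 2 u := by
  have h1 : lcX U u = u / U := min_eq_right ((div_le_one hU).mpr hu)
  exact ⟨h1, by rw [lcY, lcP, h1, pow_one], by rw [lcZ, lcP, h1]⟩

theorem lcMain_ok {U p e k : ℕ} {c : LCC} (hU : 0 < lcV U) (h : lcMain U p e k c = true) :
    LCok (lcV U) (lcV p) (lcV e) (lcV k) (toR c.J2) (toR c.JE) (toR c.tr) (toR c.M3) (toR c.M5)
      (toR c.N3) (toR c.N5) := by
  rw [lcMain, fN_eq, fN_eq, fN_eq] at h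
  obtain ⟨h0, h⟩ := lc_cond h
  rw [fN_eq] at h
  have hh : lcV U / 64 ≤ lcV (lcUp U 64) := lcUp_le (m := 64) (by norm_num) le_rfl
  have h0 := Nat.le_of_ble_eq_true h0
  have er := lcV_add e k
  have eq := lcV_add p k
  generalize Nat.add e k = r at h h0 er
  generalize Nat.add p k = q at h h0 eq
  simp only [Nat.add_eq] at h0
  have ea : lcV (Nat.sub 1099511627776 r) = 1 - lcV r := by
    rw [lcV, Nat.sub_eq, Nat.cast_sub (by omega), lcV]
    push_cast
    ring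
  have eb : lcV (Nat.sub (Nat.sub 1099511627776 r) q) = lcV (Nat.sub 1099511627776 r) - lcV q := by
    rw [lcV, Nat.sub_eq, Nat.cast_sub (by rw [Nat.sub_eq]; omega), lcV, lcV, sub_div]
  generalize Nat.sub 1099511627776 r = a at h ea eb
  obtain ⟨sJ, h, hJ⟩ := lcNd_ok hU (by norm_num) hh h
  obtain ⟨sE, h, hE⟩ := lcNe_ok hU hh h
  obtain ⟨s3, h, h3⟩ := lcNd_ok hU (by norm_num) hh h
  obtain ⟨s5, h, h5⟩ := lcNd_ok hU (by norm_num) hh h
  obtain ⟨a0, a2, a4, h, ha⟩ := lcT_ok h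
  obtain ⟨b0, b2, b4, h, hb⟩ := lcT_ok h
  obtain ⟨c0, c2, c4, h, hc⟩ := lcT_ok h
  obtain ⟨d0, d2, d4, h, hd⟩ := lcT_ok h
  obtain ⟨tE, h, hT⟩ := lcTe_ok h ea
  simp only [lc_fN, Bool.and_eq_true] at h
  obtain ⟨⟨⟨⟨⟨⟨g1, g2⟩, g3⟩, g4⟩, g5⟩, g6⟩, g7⟩ := h
  rw [lcV_add] at hc
  rw [eb] at hb
  rw [ea, er] at ha
  rw [ea, er, eq] at hb hc
  rw [er] at hT
  rw [lcV_one] at hd
  rw [show lcV 5497558138880 = 5 by norm_num [lcV]] at hJ
  rw [show lcV 2199023255552 = 2 by norm_num [lcV]] at h3 h5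
  have hp := lcV_nonneg p
  have he := lcV_nonneg e
  have hk := lcV_nonneg k
  have hX : ∀ u, 0 ≤ u → 0 ≤ lcX (lcV U) u := fun u hu => le_min zero_le_one (by positivity)
  have m4 := fun W hW => lc_tail (n := 4) (d := 12) (by norm_num) (ha W hW).2.2 (hb W hW).2.2
    (hc W hW).2.2
  have m2 := fun W hW => (intervalIntegral.integral_const_mul _ _).le.trans
    ((mul_le_mul_of_nonneg_left (lc_tail (n := 4) (d := 12) (by norm_num) (ha W hW).2.1
      (hb W hW).2.1 (hc W hW).2.1) (mul_self_nonneg (lcV U))).trans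
      (lcMu_le (lcV_nonneg _) (lcMu_le hU.le le_rfl le_rfl) le_rfl))
  have cX : Continuous (lcX (lcV U)) := by unfold lcX; fun_prop
  have cY : Continuous (lcY (lcV U) (lcV p) (lcV k)) := by unfold lcY; fun_prop
  have cZ : Continuous (lcZ (lcV U) (lcV e) (lcV k)) := by unfold lcZ; fun_prop
  have cG : Continuous lcG := by unfold lcG; fun_prop
  have cM : Continuous (lcM (lcV U) (lcV p) (lcV e) (lcV k)) := by unfold lcM; fun_prop
  have pG : ∀ u, 0 ≤ lcG u := fun u => by unfold lcG; positivity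
  have pM : ∀ u, 0 ≤ lcM (lcV U) (lcV p) (lcV e) (lcV k) u := fun u => by
    have := pG u
    have := Real.cosh_pos (lcY (lcV U) (lcV p) (lcV k) u)
    unfold lcM
    positivity
  have lo := fun u (hu : u ∈ Icc 0 (lcV U)) => lc_low (p := lcV p) (e := lcV e) (k := lcV k) hU hu.2
  have hi := fun u (hu : lcV U ≤ u) => lc_high (p := lcV p) (e := lcV e) (k := lcV k) hU hu
  refine ⟨hU, hp, he, hk, lc_fin g1 hU.le hJ (fun W hW => lc_tail (by norm_num) (ha W hW).2.2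
      (hb W hW).2.2 (hc W hW).2.2) (by fun_prop) (fun u _ => ?_) (fun u hu => ?_) fun u hu => ?_,
    lc_fin g2 hU.le hE hT (by fun_prop) (fun u hu => ?_) (fun u hu => ?_) fun u hu => ?_, ?_,
    lc_fin g4 hU.le h3 m4 (by fun_prop) (fun u _ => ?_) (fun u hu => ?_) fun u hu => ?_,
    lc_fin g5 hU.le h5 m4 (by fun_prop) (fun u _ => ?_) (fun u hu => ?_) fun u hu => ?_,
    lc_fin g6 hU.le h3 m2 (by fun_prop) (fun u _ => ?_) (fun u hu => ?_) fun u hu => ?_,
    lc_fin g7 hU.le h5 m2 (by fun_prop) (fun u _ => ?_) (fun u hu => ?_) fun u hu => ?_⟩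
  · have := pG u
    have := Real.cosh_pos (lcY (lcV U) (lcV p) (lcV k) u)
    positivity
  · obtain ⟨x1, x2, x3⟩ := lo u hu
    simp only [x1, x2, x3, lcG_eq, lcF, cond_true]
    ring
  · obtain ⟨x1, -, x3, x4⟩ := hi u hu
    rw [x1, lcG_eq, ← x3]
    push_cast
    linear_combination u ^ 4 / 48 * (2 / Real.sqrt (2 * Real.pi)) * x4
  · have := hX u hu
    exact mul_nonneg (sub_nonneg.mpr (Real.one_le_exp (by unfold lcZ; positivity))) (pG u)
  · rw [(lo u hu).2.2, lcG_eq, mul_assoc]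
  · rw [(hi u hu).2.1, lcG_eq, mul_assoc]
  · simp only [lcG_eq]
    rw [MeasureTheory.integral_mul_const]
    refine lcLe_ok g3 ?_
    by_cases hI : MeasureTheory.IntegrableOn (lcGs 1) (Ioi (lcV U))
    · exact le_of_tendsto (MeasureTheory.intervalIntegral_tendsto_integral_Ioi _ hI
        Filter.tendsto_id) ((Filter.eventually_ge_atTop _).mono fun W hW => (hd W hW).1)
    · rw [MeasureTheory.integral_undef hI]
      exact lcV_nonneg _
  · have := pM u
    positivity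
  · obtain ⟨-, x2, x3⟩ := lo u hu
    simp only [lcM, x2, x3, lcG_eq, lcF, cond_false]
    ring
  · obtain ⟨-, -, x3, x4⟩ := hi u hu
    rw [lcM, lcG_eq, ← x3]
    push_cast
    linear_combination u ^ 4 / 6 * (2 / Real.sqrt (2 * Real.pi)) * x4
  · have := pM u
    positivity
  · obtain ⟨x1, x2, x3⟩ := lo u hu
    simp only [lcM, x1, x2, x3, lcG_eq, lcF, cond_true]
    ring
  · obtain ⟨x1, -, x3, x4⟩ := hi u hu
    rw [x1, lcM, lcG_eq, ← x3]
    push_cast
    linear_combination u ^ 4 / 6 * (2 / Real.sqrt (2 * Real.pi)) * x4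
  · have := pM u
    positivity
  · obtain ⟨-, x2, x3⟩ := lo u hu
    simp only [lcM, x2, x3, lcG_eq, lcF, cond_false, min_eq_left hu.2]
    ring
  · obtain ⟨-, -, x3, x4⟩ := hi u hu
    rw [lcM, lcG_eq, ← x3, min_eq_right hu]
    push_cast
    linear_combination lcV U ^ 2 * u ^ 2 / 6 * (2 / Real.sqrt (2 * Real.pi)) * x4
  · have := pM u
    positivity
  · obtain ⟨x1, x2, x3⟩ := lo u hu
    simp only [lcM, x1, x2, x3, lcG_eq, lcF, cond_true, min_eq_left hu.2]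
    ring
  · obtain ⟨x1, -, x3, x4⟩ := hi u hu
    rw [x1, lcM, lcG_eq, ← x3, min_eq_right hu]
    push_cast
    linear_combination lcV U ^ 2 * u ^ 2 / 6 * (2 / Real.sqrt (2 * Real.pi)) * x4

theorem lc_toNat {a : ℤ} (h : toR 0 ≤ toR a) : lcV a.toNat = toR a := by
  rw [lcV, toR, ← Int.cast_natCast, Int.toNat_of_nonneg (toR_le.mp h)]

theorem lcCheck_ok {c : LCC} (h : lcCheck c = true) : c.ok := by
  rw [lcCheck] at h
  simp only [lc_fN, Bool.and_eq_true] at h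
  obtain ⟨⟨⟨⟨h1, h2⟩, h3⟩, h4⟩, h⟩ := h
  have e1 := lc_toNat (ltI_ok h1).le
  have := lcMain_ok (by rw [e1, ← toR_zero]; exact ltI_ok h1) h
  rwa [e1, lc_toNat (leI_ok h2), lc_toNat (leI_ok h3), lc_toNat (leI_ok h4)] at this

end Pool.Agent.Sok
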