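import Pool.Agent.Sok.TM

/-! Taylor models of `(e^w - 1 - w)/w²` and `(x - log (1+x))/x²`. -/

set_option autoImplicit false

namespace Pool.Agent.Sok

open TM

noncomputable def E2 (w : ℂ) : ℂ := if w = 0 then 1 / 2 else (Complex.exp w - 1 - w) / w ^ 2

noncomputable def g2 (x : ℝ) : ℝ := if x = 0 then 1 / 2 else (x - Real.log (1 + x)) / x ^ 2

theorem E2_spec (w : ℂ) : Complex.exp w = 1 + w + w ^ 2 * E2 w := by
  unfold E2
  split_ifs with h
  · simp [h]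
  · rw [mul_div_cancel₀ _ (pow_ne_zero 2 h)]
    ring

theorem g2_spec (x : ℝ) : Real.log (1 + x) = x - x ^ 2 * g2 x := by
  unfold g2
  split_ifs with h
  · simp [h]
  · rw [mul_div_cancel₀ _ (pow_ne_zero 2 h)]
    ring

theorem ser_toC (u : ℤ) : toC u 0 = (toR u : ℝ) := by
  rw [toC, toR_zero]
  rfl

/-- Horner scheme with coefficients `1 / n` -/
def horner (x : TM) : List ℕ → TM → (TM → Bool) → Bool
  | [], s, k => k s
  | n :: l, s, k => mul s x fun a => addq a 1 n fun a => horner x l a k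

/-- the value of the Horner scheme -/
noncomputable def serH (z : ℂ) : List ℕ → ℂ → ℂ
  | [], s => s
  | n :: l, s => serH z l (s * z + 1 / n)

theorem ser_horner {x : TM} (l : List ℕ) {s : TM} {k : TM → Bool} (h : horner x l s k = true) :
    ∃ c, k c = true ∧ ∀ p z w, Rep p x z → Rep p s w → Rep p c (serH z l w) := by
  induction l generalizing s with
  | nil => exact ⟨s, h, fun _ _ _ _ hs => hs⟩
  | cons n l ih =>
    unfold horner at h
    obtain ⟨a, h, ha⟩ := mul_ok h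
    obtain ⟨b, h, hb⟩ := addq_ok h
    obtain ⟨c, h, hc⟩ := ih h
    refine ⟨c, h, fun p z w hz hw => hc p z _ hz ?_⟩
    have := hb _ _ (ha _ _ _ hw hz)
    rwa [Int.cast_one] at this

theorem ser_E2_dbl (x : ℂ) : E2 (x * 2) = ((x * E2 x + 1) * (x * E2 x + 1) + E2 x * 2) / 4 := by
  by_cases h : x = 0
  · simp only [h, E2, zero_mul, if_true]
    norm_num
  · have h1 := E2_spec (x * 2)
    rw [mul_two, Complex.exp_add, E2_spec x, ← mul_two x] at h1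
    refine mul_left_cancel₀ (pow_ne_zero 2 h) ?_
    linear_combination (-1 / 4) * h1

theorem ser_E2_near {x : ℂ} (hx : ‖x‖ ≤ 3 / 4) : ‖E2 x -
    serH x [362880, 40320, 5040, 720, 120, 24, 6, 2] (1 / 3628800)‖ ≤ toR 2500 := by
  have h0 : ‖x‖ ^ 9 * (12 / (39916800 * 11)) ≤ toR 2500 := by
    refine (mul_le_mul_of_nonneg_right (pow_le_pow_left₀ (norm_nonneg _) hx 9)
      (by norm_num)).trans ?_
    norm_num [toR]
  refine le_trans ?_ h0
  by_cases h : x = 0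
  · norm_num [h, E2, serH]
  have h1 := Complex.exp_bound (hx.trans (by norm_num)) (n := 11) (by norm_num)
  have e : Complex.exp x - ∑ m ∈ Finset.range 11, x ^ m / (m.factorial : ℂ) = x ^ 2 * (E2 x -
      serH x [362880, 40320, 5040, 720, 120, 24, 6, 2] (1 / 3628800)) := by
    rw [E2_spec x]
    simp only [Finset.sum_range_succ, Finset.sum_range_zero, Nat.factorial, serH]
    push_cast
    ring
  rw [e, norm_mul, norm_pow] at h1
  refine le_of_mul_le_mul_left (h1.trans (le_of_eq ?_)) (pow_pos (norm_pos_iff.2 h) 2)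
  simp only [Nat.factorial]
  push_cast
  ring

/-- `E2 (2x) = (1 + x E2 x)²/4 + E2 x / 2` -/
def e2dbl (x s : TM) (k : TM → TM → Bool) : Bool :=
  mul x s fun a => addc a one 0 fun e => mul e e fun e => nmul s 2 fun s => add e s fun s =>
  ndiv s 4 fun s => nmul x 2 fun x => k x s

theorem ser_e2dbl {x s : TM} {k : TM → TM → Bool} (h : e2dbl x s k = true) :
    ∃ x' c, k x' c = true ∧ ∀ p z, Rep p x z → Rep p s (E2 z) →
      Rep p x' (z * 2) ∧ Rep p c (E2 (z * 2)) := by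
  unfold e2dbl at h
  obtain ⟨a1, h, h1⟩ := mul_ok h
  obtain ⟨a2, h, h2⟩ := addc_ok h
  obtain ⟨a3, h, h3⟩ := mul_ok h
  obtain ⟨a4, h, h4⟩ := nmul_ok h
  obtain ⟨a5, h, h5⟩ := add_ok h
  obtain ⟨a6, h, h6⟩ := ndiv_ok h
  obtain ⟨a7, h, h7⟩ := nmul_ok h
  refine ⟨a7, a6, h, fun p z hz hs => ⟨by simpa using h7 _ _ hz, ?_⟩⟩
  have b := h2 _ _ (h1 _ _ _ hz hs)
  have c := h6 _ _ (h5 _ _ _ (h3 _ _ _ b b) (h4 _ _ hs))
  rw [ser_toC, toR_one] at c
  rw [ser_E2_dbl]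
  exact_mod_cast c

def e2T (w : TM) (k : TM → Bool) : Bool :=
  ab w fun r => leI r (6 * one) && ndiv w 8 fun x => cst 0 0 fun s => addq s 1 3628800 fun s =>
  horner x [362880, 40320, 5040, 720, 120, 24, 6, 2] s fun s => wid s 2500 fun s =>
  e2dbl x s fun x s => e2dbl x s fun x s => e2dbl x s fun _ s => k s

theorem e2T_ok {w : TM} {k : TM → Bool} (h : e2T w k = true) :
    ∃ c, k c = true ∧ ∀ x z, Rep x w z → Rep x c (E2 z) := by
  unfold e2T at h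
  obtain ⟨r, h, hr⟩ := ab_ok h
  obtain ⟨h0, h⟩ := Bool.and_eq_true_iff.1 h
  obtain ⟨a1, h, h1⟩ := ndiv_ok h
  obtain ⟨a2, h, h2⟩ := cst_ok h
  obtain ⟨a3, h, h3⟩ := addq_ok h
  obtain ⟨a4, h, h4⟩ := ser_horner _ h
  obtain ⟨a5, h, h5⟩ := wid_ok h
  obtain ⟨x1, s1, h, h6⟩ := ser_e2dbl h
  obtain ⟨x2, s2, h, h7⟩ := ser_e2dbl h
  obtain ⟨x3, s3, h, h8⟩ := ser_e2dbl h
  refine ⟨s3, h, fun p z hz => ?_⟩
  have b0 := (hr _ _ hz).trans (leI_ok h0)
  rw [toR_intmul, toR_one] at b0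
  have b1 : ‖z / ((8 : ℕ) : ℂ)‖ ≤ 3 / 4 := by
    rw [norm_div, Complex.norm_natCast, div_le_iff₀ (by norm_num)]
    push_cast at b0 ⊢
    linarith
  have b2 := h3 _ _ (h2 p)
  rw [ser_toC, toR_zero, Complex.ofReal_zero, zero_add, Int.cast_one, Nat.cast_ofNat] at b2
  have b3 := h6 _ _ (h1 _ _ hz) (h5 _ _ _ (h4 _ _ _ (h1 _ _ hz) b2) (ser_E2_near b1))
  have b4 := h7 _ _ b3.1 b3.2
  have b5 := (h8 _ _ b4.1 b4.2).2
  rwa [show z / ((8 : ℕ) : ℂ) * 2 * 2 * 2 = z by push_cast; ring] at b5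

theorem ser_atanh {v : ℝ} (hv : |v| < 1) : ∃ s : ℝ,
    Real.log (1 + v) - Real.log (1 - v) = 2 * v + 2 * v ^ 3 * s ∧
    ‖(s : ℂ) - serH (v * v) [15, 13, 11, 9, 7, 5, 3] (1 / 17)‖ ≤ v ^ 16 / (19 * (1 - v ^ 2)) := by
  have h2 : v ^ 2 < 1 := (sq_lt_one_iff_abs_lt_one v).2 hv
  have hg := hasSum_geometric_of_lt_one (sq_nonneg v) h2
  have hs : Summable fun k : ℕ => (v ^ 2) ^ k / (2 * k + 3) :=
    Summable.of_nonneg_of_le (fun k => by positivity) (fun k => div_le_self (by positivity) (by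
      have := Nat.cast_nonneg (α := ℝ) k
      linarith)) hg.summable
  refine ⟨∑' k : ℕ, (v ^ 2) ^ k / (2 * k + 3), ?_, ?_⟩
  · have h3 := (hasSum_nat_add_iff' 1).2 (Real.hasSum_log_sub_log_of_abs_lt_one hv)
    have h4 := hs.hasSum.mul_left (2 * v ^ 3)
    have e : (fun n : ℕ => 2 * (1 / (2 * ((n + 1 : ℕ) : ℝ) + 1)) * v ^ (2 * (n + 1) + 1)) =
        fun k : ℕ => 2 * v ^ 3 * ((v ^ 2) ^ k / (2 * k + 3)) := funext fun n => by
      push_cast
      rw [show 2 * ((n : ℝ) + 1) + 1 = 2 * n + 3 by ring]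
      ring
    rw [e] at h3
    have h5 := h3.unique h4
    simp only [Finset.sum_range_one, Nat.cast_zero, mul_zero, zero_add, div_one, mul_one,
      pow_one] at h5
    linarith
  · have h3 := hs.sum_add_tsum_nat_add 8
    have h4 : ∑' k : ℕ, (v ^ 2) ^ (k + 8) / (2 * ((k + 8 : ℕ) : ℝ) + 3) ≤
        v ^ 16 / 19 * (1 - v ^ 2)⁻¹ := by
      refine hasSum_le (fun k => ?_) ((summable_nat_add_iff 8).2 hs).hasSum
        (hg.mul_left (v ^ 16 / 19))
      rw [show v ^ 16 / 19 * (v ^ 2) ^ k = (v ^ 2) ^ (k + 8) / 19 by ring]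
      refine div_le_div_of_nonneg_left (by positivity) (by norm_num) ?_
      have := Nat.cast_nonneg (α := ℝ) k
      push_cast
      linarith
    have h5 : 0 ≤ ∑' k : ℕ, (v ^ 2) ^ (k + 8) / (2 * ((k + 8 : ℕ) : ℝ) + 3) :=
      tsum_nonneg fun k => by positivity
    have e : serH (v * v) [15, 13, 11, 9, 7, 5, 3] (1 / 17) =
        ((∑ k ∈ Finset.range 8, (v ^ 2) ^ k / (2 * k + 3) : ℝ) : ℂ) := by
      simp only [Finset.sum_range_succ, Finset.sum_range_zero, serH]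
      push_cast
      ring
    rw [e, ← Complex.ofReal_sub, Complex.norm_real, ← h3, add_sub_cancel_left,
      Real.norm_of_nonneg h5, ← div_div, div_eq_mul_inv]
    exact h4

theorem ser_g2 {t s : ℝ} (ht : -1 < t) (h : Real.log (1 + t * (t + 2)⁻¹) -
    Real.log (1 - t * (t + 2)⁻¹) = 2 * (t * (t + 2)⁻¹) + 2 * (t * (t + 2)⁻¹) ^ 3 * s) :
    g2 t = (-(t * (t + 2)⁻¹) + 1 - t * (t + 2)⁻¹ *
      ((-(t * (t + 2)⁻¹) + 1) * (-(t * (t + 2)⁻¹) + 1)) * s) / 2 := by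
  have h2 : t + 2 ≠ 0 := by linarith
  by_cases h0 : t = 0
  · simp [h0, g2]
  have e1 : 1 - t * (t + 2)⁻¹ = 2 * (t + 2)⁻¹ := by
    field_simp
    ring
  have e2 : 1 + t * (t + 2)⁻¹ = (1 + t) * (2 * (t + 2)⁻¹) := by
    field_simp
    ring
  rw [e1, e2, Real.log_mul (by linarith) (mul_ne_zero two_ne_zero (inv_ne_zero h2)),
    add_sub_cancel_right] at h
  rw [g2, if_neg h0, h]
  field_simp
  ring

/-- with `v = x/(x+2)`, `g2 x = (1-v)/2 - v (1-v)² s/2`, `s = ∑ v^(2k)/(2k+3)` -/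
def g2T (a : TM) (k : TM → Bool) : Bool :=
  addc a (2 * one) 0 fun b => inv b fun b => mul a b fun v => ab v fun r =>
  leI (5 * r) (4 * one) && mul v v fun v2 => cst 0 0 fun s => addq s 1 17 fun s =>
  horner v2 [15, 13, 11, 9, 7, 5, 3] s fun s =>
  fI (mulU r r) fun r2 => fI (mulU r2 r2) fun r4 => fI (mulU r4 r4) fun r8 =>
  ltI r2 one && wid s (divU (mulU r8 r8) (19 * (one - r2))) fun s =>
  neg v fun o => addc o one 0 fun o => mul o o fun o2 => mul v o2 fun t => mul t s fun t =>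
  sub o t fun t => ndiv t 2 k

theorem g2T_ok {a : TM} {k : TM → Bool} (h : g2T a k = true) :
    ∃ c, k c = true ∧ ∀ x (t : ℝ), Rep x a t → -1 < t ∧ Rep x c (g2 t : ℝ) := by
  unfold g2T at h
  obtain ⟨a1, h, h1⟩ := addc_ok h
  obtain ⟨a2, h, h2⟩ := inv_ok h
  obtain ⟨a3, h, h3⟩ := mul_ok h
  obtain ⟨r, h, hr⟩ := ab_ok h
  obtain ⟨h0, h⟩ := Bool.and_eq_true_iff.1 h
  obtain ⟨a4, h, h4⟩ := mul_ok h
  obtain ⟨a5, h, h5⟩ := cst_ok h
  obtain ⟨a6, h, h6⟩ := addq_ok h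
  obtain ⟨a7, h, h7⟩ := ser_horner _ h
  rw [fI_eq, fI_eq, fI_eq] at h
  obtain ⟨h0', h⟩ := Bool.and_eq_true_iff.1 h
  obtain ⟨a8, h, h8⟩ := wid_ok h
  obtain ⟨a9, h, h9⟩ := neg_ok h
  obtain ⟨a10, h, h10⟩ := addc_ok h
  obtain ⟨a11, h, h11⟩ := mul_ok h
  obtain ⟨a12, h, h12⟩ := mul_ok h
  obtain ⟨a13, h, h13⟩ := mul_ok h
  obtain ⟨a14, h, h14⟩ := sub_ok h
  obtain ⟨a15, h, h15⟩ := ndiv_ok h
  refine ⟨a15, h, fun p t ht => ?_⟩
  have b1 := h2 _ _ (h1 _ _ ht)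
  rw [ser_toC, toR_intmul, toR_one, mul_one, Int.cast_ofNat, ← Complex.ofReal_add] at b1
  have b2 := h3 _ _ _ ht b1.2
  rw [← Complex.ofReal_inv, ← Complex.ofReal_mul] at b2
  have b3 := hr _ _ b2
  rw [Complex.norm_real, Real.norm_eq_abs] at b3
  have b4 := leI_ok h0
  rw [toR_intmul, toR_intmul, toR_one] at b4
  push_cast at b4
  have b5 : t + 2 ≠ 0 := Complex.ofReal_ne_zero.1 b1.1
  have b6 : -1 < t := by
    have c : |t| ≤ 4 / 5 * |t + 2| := by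
      rw [abs_mul, abs_inv, mul_inv_le_iff₀ (abs_pos.2 b5)] at b3
      nlinarith [abs_nonneg (t + 2)]
    by_contra c1
    rcases abs_cases t with c2 | c2 <;> rcases abs_cases (t + 2) with c3 | c3 <;> linarith
  refine ⟨b6, ?_⟩
  obtain ⟨v, hv⟩ : ∃ v, t * (t + 2)⁻¹ = v := ⟨_, rfl⟩
  obtain ⟨s, s1, s2⟩ := ser_atanh (v := t * (t + 2)⁻¹) (by linarith)
  rw [ser_g2 b6 s1, hv]
  rw [hv] at b2 b3 s2
  have c2 : v ^ 2 ≤ toR (mulU r r) := by
    rw [← sq_abs, sq]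
    exact mulU_le (abs_nonneg _) (abs_nonneg _) b3 b3
  have c4 := mulU_le (sq_nonneg v) (sq_nonneg v) c2 c2
  have c8 := mulU_le (mul_self_nonneg _) (mul_self_nonneg _) c4 c4
  have c16 := mulU_le (mul_self_nonneg _) (mul_self_nonneg _) c8 c8
  have c0 := ltI_ok h0'
  rw [toR_one] at c0
  have c1 : toR (19 * (one - mulU r r)) = 19 * (1 - toR (mulU r r)) := by
    rw [toR_intmul, toR_sub, toR_one, Int.cast_ofNat]
  have c3 := divU_le (b := 19 * (one - mulU r r)) (y := 19 * (1 - v ^ 2)) (mul_self_nonneg _)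
    (by rw [c1]; linarith) c16 (by rw [c1]; linarith)
  have d1 := h6 _ _ (h5 p)
  rw [ser_toC, toR_zero, Complex.ofReal_zero, zero_add, Int.cast_one, Nat.cast_ofNat] at d1
  have d2 := h8 _ _ _ (h7 _ _ _ (h4 _ _ _ b2 b2) d1) (s2.trans (le_trans (le_of_eq (by ring)) c3))
  have d3 := h10 _ _ (h9 _ _ b2)
  have d4 := h15 _ _ (h14 _ _ _ d3 (h13 _ _ _ (h12 _ _ _ b2 (h11 _ _ _ d3 d3)) d2))
  rw [ser_toC, toR_one] at d4
  exact_mod_cast d4

/-- the number `π` -/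
def piT (k : TM → Bool) : Bool := cst piD 0 fun a => wid a 1 k

theorem piT_ok {k : TM → Bool} (h : piT k = true) :
    ∃ c, k c = true ∧ ∀ x, Rep x c (Real.pi : ℝ) := by
  unfold piT at h
  obtain ⟨a1, h, h1⟩ := cst_ok h
  obtain ⟨a2, h, h2⟩ := wid_ok h
  refine ⟨a2, h, fun p => h2 _ _ _ (h1 p) ?_⟩
  have e : toR piU = toR piD + toR 1 := toR_add piD 1
  rw [ser_toC, ← Complex.ofReal_sub, Complex.norm_real, Real.norm_of_nonneg (sub_nonneg.2 piD_ok)]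
  linarith [piU_ok]

/-- bound for the absolute value of the real part -/
def rab (a : TM) (k : ℤ → Bool) : Bool := hi a fun u => lo a fun v => fI (maxI u (-v)) k

theorem rab_ok {a : TM} {k : ℤ → Bool} (h : rab a k = true) :
    ∃ r, k r = true ∧ ∀ x z, Rep x a z → |z.re| ≤ toR r := by
  unfold rab at h
  obtain ⟨u, h, h1⟩ := hi_ok h
  obtain ⟨v, h, h2⟩ := lo_ok h
  rw [fI_eq] at h
  refine ⟨_, h, fun p z hz => ?_⟩
  rw [toR_maxI, toR_neg]
  exact abs_le.2 ⟨by linarith [h2 _ _ hz, le_max_right (toR u) (-toR v)],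
    (h1 _ _ hz).trans (le_max_left _ _)⟩

end Pool.Agent.Sok
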