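import Pool.Agent.Sok.Tail
import Pool.Agent.Sok.Ser
import Pool.Agent.Sok.HB

/-! The chart in the parameters `p, t, T`: columns, jets and the normalised saddle point. -/

set_option autoImplicit false

namespace Pool.Agent.Sok

open TM Complex

structure Box where
  pl : ℤ
  ph : ℤ
  tl : ℤ
  th : ℤ

def Box.Mem (b : Box) (P : Par) : Prop :=
  toR b.pl ≤ P.p ∧ P.p ≤ toR b.ph ∧ toR b.tl ≤ P.t ∧ P.t ≤ toR b.th

structure Col where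
  p : TM
  q : TM
  th : TM
  pq : TM
  om : TM
  cg : TM
  sg : TM
  sc : TM
  c2 : TM
  q2 : TM
  p2 : TM
  s1 : TM
  s24 : TM
  sg2 : TM
  icg : TM
  u0 : TM
  iq : TM
  pi : TM
  s02 : ℤ
  L0 : ℤ
  sgl : ℤ
  cgl : ℤ
  cgh : ℤ
  scl : ℤ
  sch : ℤ

def mkCol (b : Box) (k : Col → Bool) : Bool :=
  ltI 0 b.th && var 0 b.pl b.ph fun p => var 1 b.tl b.th fun t =>
  neg p fun q => addc q one 0 fun q => sub q p fun th => mul p q fun pq =>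
  nmul pq 2 fun s1 => neg s1 fun om => addc om one 0 fun om =>
  mul t t fun t2 => addc t2 one 0 fun d => inv d fun iv => neg t2 fun n => addc n one 0 fun n =>
  mul n iv fun cg => mul t iv fun sg => nmul sg 2 fun sg => mul sg cg fun sc =>
  mul cg cg fun c2 => mul q q fun q2 => mul p p fun p2 => mul s1 s1 fun s24 =>
  nmul s24 24 fun s24 => mul sg sg fun sg2 => mi cg fun icg => sub icg sg fun u0 =>
  inv q fun iq => piT fun pi => lo pq fun pql => fI (maxI (7 * one) (40 * pql)) fun s02 =>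
  hi sg fun sgh => lo sg fun sgl => hi cg fun cgh => lo cg fun cgl => hi sc fun sch =>
  lo sc fun scl => ltI 0 sgh && fI (divD s02 sgh) fun L0 =>
  k ⟨p, q, th, pq, om, cg, sg, sc, c2, q2, p2, s1, s24, sg2, icg, u0, iq, pi, s02, L0, sgl, cgl,
    cgh, scl, sch⟩

structure Col.Ok (c : Col) (x : Pt) (P : Par) : Prop where
  p : RepA x c.p P.p
  q : RepA x c.q (1 - P.p)
  th : RepA x c.th (1 - 2 * P.p)
  pq : RepA x c.pq (P.p * (1 - P.p))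
  om : RepA x c.om (1 - 2 * (P.p * (1 - P.p)))
  cg : RepA x c.cg P.cg
  sg : RepA x c.sg P.sg
  sc : RepA x c.sc P.sc
  c2 : RepA x c.c2 (P.cg ^ 2)
  q2 : RepA x c.q2 ((1 - P.p) ^ 2)
  p2 : RepA x c.p2 (P.p ^ 2)
  s1 : RepA x c.s1 (2 * (P.p * (1 - P.p)))
  s24 : RepA x c.s24 (96 * (P.p * (1 - P.p)) ^ 2)
  sg2 : RepA x c.sg2 (P.sg ^ 2)
  icg : RepA x c.icg (I * P.cg)
  u0 : RepA x c.u0 (I * P.cg - P.sg)
  iq : RepA x c.iq (1 - P.p : ℂ)⁻¹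
  pi : RepA x c.pi (Real.pi : ℝ)
  s02 : toR c.s02 ≤ P.s2
  s02' : 7 ≤ toR c.s02
  L0 : 0 < P.δ → toR c.L0 ≤ P.L
  sgl : toR c.sgl ≤ P.sg
  cgl : toR c.cgl ≤ P.cg
  cgh : P.cg ≤ toR c.cgh
  scl : toR c.scl ≤ P.sc
  sch : P.sc ≤ toR c.sch

/-- The column is valid at a point of the cube whose third coordinate is arbitrary. -/
def Col.For (c : Col) (b : Box) : Prop :=
  0 < toR b.th ∧ ∀ P, b.Mem P → ∃ x : Pt, ∀ y hy, c.Ok (x.set2 y hy) P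

theorem lcha_eq {x : Pt} {a : TM} {z w : ℂ} (h : Rep x a z) (e : z = w) : Rep x a w := e ▸ h

theorem lcha_one : toC one 0 = 1 := by
  rw [toC, toR_one, toR_zero]
  rfl

theorem lcha_mone : toC (-one) 0 = -1 := by
  rw [toC, toR_neg, toR_one, toR_zero]
  exact Complex.ext (by simp) (by simp)

theorem mkCol_ok {b : Box} {k : Col → Bool} (h : mkCol b k = true) :
    ∃ c, k c = true ∧ c.For b := by
  rw [mkCol, Bool.and_eq_true] at h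
  obtain ⟨h0, h⟩ := h
  obtain ⟨p, h, hp⟩ := var_ok h
  obtain ⟨t, h, ht⟩ := var_ok h
  obtain ⟨q0, h, hq0⟩ := neg_ok h
  obtain ⟨q, h, hq⟩ := addc_ok h
  obtain ⟨th, h, hth⟩ := sub_ok h
  obtain ⟨pq, h, hpq⟩ := mul_ok h
  obtain ⟨s1, h, hs1⟩ := nmul_ok h
  obtain ⟨o0, h, ho0⟩ := neg_ok h
  obtain ⟨om, h, hom⟩ := addc_ok h
  obtain ⟨t2, h, ht2⟩ := mul_ok h
  obtain ⟨d, h, hd⟩ := addc_ok h
  obtain ⟨iv, h, hiv⟩ := inv_ok h
  obtain ⟨n0, h, hn0⟩ := neg_ok h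
  obtain ⟨n, h, hn⟩ := addc_ok h
  obtain ⟨cg, h, hcg⟩ := mul_ok h
  obtain ⟨g0, h, hg0⟩ := mul_ok h
  obtain ⟨sg, h, hsg⟩ := nmul_ok h
  obtain ⟨sc, h, hsc⟩ := mul_ok h
  obtain ⟨c2, h, hc2⟩ := mul_ok h
  obtain ⟨q2, h, hq2⟩ := mul_ok h
  obtain ⟨p2, h, hp2⟩ := mul_ok h
  obtain ⟨s0, h, hs0⟩ := mul_ok h
  obtain ⟨s24, h, hs24⟩ := nmul_ok h
  obtain ⟨sg2, h, hsg2⟩ := mul_ok h
  obtain ⟨icg, h, hicg⟩ := mi_ok h
  obtain ⟨u0, h, hu0⟩ := sub_ok h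
  obtain ⟨iq, h, hiq⟩ := inv_ok h
  obtain ⟨pi, h, hpi⟩ := piT_ok h
  obtain ⟨pql, h, hpql⟩ := lo_ok h
  rw [fI_eq] at h
  obtain ⟨sgh, h, hsgh⟩ := hi_ok h
  obtain ⟨sgl, h, hsgl⟩ := lo_ok h
  obtain ⟨cgh, h, hcgh⟩ := hi_ok h
  obtain ⟨cgl, h, hcgl⟩ := lo_ok h
  obtain ⟨sch, h, hsch⟩ := hi_ok h
  obtain ⟨scl, h, hscl⟩ := lo_ok h
  rw [Bool.and_eq_true, fI_eq] at h
  refine ⟨_, h.2, toR_zero ▸ ltI_ok h0, fun P hP => ?_⟩
  obtain ⟨y0, hy0, e0⟩ := exists_varVal hP.1 hP.2.1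
  obtain ⟨y1, hy1, e1⟩ := exists_varVal hP.2.2.1 hP.2.2.2
  refine ⟨⟨y0, y1, 0, 0, hy0, hy1, by simp, by simp⟩, fun y hy => ?_⟩
  set X := Pt.set2 ⟨y0, y1, 0, 0, hy0, hy1, by simp, by simp⟩ y hy
  have rp : RepA X p P.p := fun z hz => lcha_eq (hp _) (congrArg _ e0)
  have rt : RepA X t P.t := fun z hz => lcha_eq (ht _) (congrArg _ e1)
  have rq : RepA X q (1 - P.p) := fun z hz =>
    lcha_eq (hq _ _ (hq0 _ _ (rp z hz))) (by rw [lcha_one]; ring)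
  have rpq : RepA X pq (P.p * (1 - P.p)) := fun z hz => hpq _ _ _ (rp z hz) (rq z hz)
  have rs1 : RepA X s1 (2 * (P.p * (1 - P.p))) := fun z hz =>
    lcha_eq (hs1 _ _ (rpq z hz)) (by push_cast; ring)
  have rt2 : RepA X t2 (P.t ^ 2) := fun z hz =>
    lcha_eq (ht2 _ _ _ (rt z hz) (rt z hz)) (sq _).symm
  have riv : RepA X iv (1 + P.t ^ 2 : ℂ)⁻¹ := fun z hz =>
    (hiv _ _ (lcha_eq (hd _ _ (rt2 z hz)) (by rw [lcha_one, add_comm]))).2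
  have rcg : RepA X cg P.cg := fun z hz =>
    lcha_eq (hcg _ _ _ (hn _ _ (hn0 _ _ (rt2 z hz))) (riv z hz))
      (by rw [lcha_one, P.cg_eq]; push_cast; ring)
  have rsg : RepA X sg P.sg := fun z hz =>
    lcha_eq (hsg _ _ (hg0 _ _ _ (rt z hz) (riv z hz))) (by rw [P.sg_eq]; push_cast; ring)
  have rsc : RepA X sc P.sc := fun z hz =>
    lcha_eq (hsc _ _ _ (rsg z hz) (rcg z hz)) (by rw [Par.sc]; push_cast; ring)
  have ricg : RepA X icg (I * P.cg) := fun z hz => hicg _ _ (rcg z hz)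
  have e7 : toR (7 * one) = 7 := by rw [toR_intmul, toR_one]; norm_num
  have b1 : toR pql ≤ P.p * (1 - P.p) := by simpa using hpql _ _ rpq.rep
  have b2 : toR (maxI (7 * one) (40 * pql)) ≤ P.s2 := by
    rw [toR_maxI, e7, toR_intmul]
    exact max_le P.s2_ge (le_trans (by push_cast; linarith) P.s2_ge')
  have b3 : 7 ≤ toR (maxI (7 * one) (40 * pql)) := by
    rw [toR_maxI, e7]
    exact le_max_left _ _
  exact ⟨rp, rq, fun z hz => lcha_eq (hth _ _ _ (rq z hz) (rp z hz)) (by ring), rpq,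
    fun z hz => lcha_eq (hom _ _ (ho0 _ _ (rs1 z hz))) (by rw [lcha_one]; ring), rcg, rsg, rsc,
    fun z hz => lcha_eq (hc2 _ _ _ (rcg z hz) (rcg z hz)) (sq _).symm,
    fun z hz => lcha_eq (hq2 _ _ _ (rq z hz) (rq z hz)) (sq _).symm,
    fun z hz => lcha_eq (hp2 _ _ _ (rp z hz) (rp z hz)) (sq _).symm, rs1,
    fun z hz => lcha_eq (hs24 _ _ (hs0 _ _ _ (rs1 z hz) (rs1 z hz))) (by push_cast; ring),
    fun z hz => lcha_eq (hsg2 _ _ _ (rsg z hz) (rsg z hz)) (sq _).symm, ricg,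
    fun z hz => hu0 _ _ _ (ricg z hz) (rsg z hz), fun z hz => (hiq _ _ (rq z hz)).2,
    fun z hz => hpi _, b2, b3,
    fun hδ => divD_le (by linarith) (P.sg_pos hδ) b2 (hsgh _ _ rsg.rep), hsgl _ _ rsg.rep,
    hcgl _ _ rcg.rep, hcgh _ _ rcg.rep, hscl _ _ rsc.rep, hsch _ _ rsc.rep⟩

namespace Par

variable (P : Par)

noncomputable def den (w : ℂ) : ℂ := 1 - P.p + P.p * exp w
noncomputable def K2 (w : ℂ) : ℂ := exp w / P.den w ^ 2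

theorem lcha_den (w : ℂ) : HasDerivAt P.den (P.p * exp w) w :=
  ((hasDerivAt_exp w).const_mul _).const_add _

theorem lcha_K2 {w : ℂ} (h : P.den w ≠ 0) :
    HasDerivAt P.K2 (P.K2 w * (1 - 2 * (P.p * exp w / P.den w))) w := by
  refine ((hasDerivAt_exp w).fun_div ((P.lcha_den w).fun_pow 2) (pow_ne_zero 2 h)).congr_deriv ?_
  rw [K2, show 2 - 1 = 1 from rfl]
  field_simp
  push_cast
  ring

theorem lcha_tau {w : ℂ} (h : P.den w ≠ 0) :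
    HasDerivAt (fun w : ℂ => P.p * exp w / P.den w) (P.p * (1 - P.p) * P.K2 w) w := by
  refine (((hasDerivAt_exp w).const_mul _).fun_div (P.lcha_den w) h).congr_deriv ?_
  rw [K2, den]
  ring

/-- the jet of the phase at the parameter `T` -/
noncomputable def jet (hδ : 0 < P.δ) (T : ℝ) : Jet where
  toPrim := gP P.N (1 - P.p) P.p (P.β T) hδ
  L := P.L
  f1 := fun w => P.cg * (I * w + T) + P.sg * ((exp w - 1) / P.den w)
  f2 := fun w => I * P.cg + P.sg * P.K2 w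
  f3 := fun w => P.sg * P.K2 w * (1 - 2 * (P.p * exp w / P.den w))
  f4 := fun w => P.sg * P.K2 w * (1 - 6 * (P.p * (1 - P.p) * P.K2 w))
  f5 := fun w => P.sg * P.K2 w * (1 - 2 * (P.p * exp w / P.den w)) *
    (1 - 12 * (P.p * (1 - P.p) * P.K2 w))
  U := {w | P.den w ≠ 0}
  hL := P.L_pos hδ
  hE := fun w hw => by
    refine (Eg_deriv P.N _ _ _ w hw).congr_deriv ?_
    have e1 : (P.L : ℂ) * P.cg = 1 / P.δ := by exact_mod_cast P.L_cg hδ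
    have e2 : (P.L : ℂ) * P.sg = P.N * P.p * (1 - P.p) := by exact_mod_cast P.L_sg hδ
    have e3 : P.den w * (P.den w)⁻¹ = 1 := mul_inv_cancel₀ hw
    refine congrArg (· * _) ?_
    unfold β den at *
    push_cast
    linear_combination -(I * w + T) * e1 - (exp w - 1) / (1 - P.p + P.p * exp w) * e2 +
      P.N * P.p * e3
  h1 := fun w hw => by
    refine (((((hasDerivAt_id' w).const_mul I).add_const _).const_mul _).fun_add
      ((((hasDerivAt_exp w).sub_const 1).fun_div (P.lcha_den w) hw).const_mul _)).congr_deriv ?_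
    rw [K2, den]
    ring
  h2 := fun w hw => (((P.lcha_K2 hw).const_mul _).const_add _).congr_deriv (by ring)
  h3 := fun w hw => by
    refine (((P.lcha_K2 hw).const_mul _).fun_mul
      (((P.lcha_tau hw).const_mul 2).const_sub 1)).congr_deriv ?_
    have e : (1 - 2 * (P.p * exp w / P.den w)) ^ 2 = 1 - 4 * (P.p * (1 - P.p) * P.K2 w) := by
      have hw' : P.den w ≠ 0 := hw
      rw [K2]
      field_simp
      rw [den]
      ring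
    linear_combination P.sg * P.K2 w * e
  h4 := fun w hw => (((P.lcha_K2 hw).const_mul _).fun_mul
    ((((P.lcha_K2 hw).const_mul _).const_mul 6).const_sub 1)).congr_deriv (by ring)

theorem lcha_norms (w : ℂ) {X Y : ℝ} (hX : X = (1 - P.p) ^ 2 + P.p ^ 2 * Real.exp w.re ^ 2)
    (hY : Y = 2 * (P.p * (1 - P.p)) * Real.exp w.re * Real.cos w.im) :
    ‖P.den w‖ ^ 2 = X + Y ∧ ‖P.den w - 2 * (P.p * exp w)‖ ^ 2 = X - Y ∧
      ‖P.den w ^ 2 - 12 * (P.p * (1 - P.p) * exp w)‖ ^ 2 = (X + Y) ^ 2 +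
        (96 * (P.p * (1 - P.p)) ^ 2 * Real.exp w.re ^ 2 - 12 * (X * Y)) := by
  have hs := Real.sin_sq w.im
  subst hX hY
  simp only [Complex.sq_norm, normSq_apply, den, sq (_ : ℂ), add_re, add_im, sub_re, sub_im,
    mul_re, mul_im, exp_re, exp_im, ofReal_re, ofReal_im, one_re, one_im, re_ofNat, im_ofNat]
  generalize Real.exp w.re = E at *
  generalize Real.cos w.im = c at *
  generalize Real.sin w.im = s at *
  refine ⟨by linear_combination (P.p * E) ^ 2 * hs, by linear_combination (P.p * E) ^ 2 * hs, ?_⟩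
  calc _ = ((1 - P.p + P.p * E * c) ^ 2 - 12 * P.p * (1 - P.p) * E * c -
        P.p ^ 2 * E ^ 2 * s ^ 2) ^ 2 + s ^ 2 *
        (2 * (1 - P.p + P.p * E * c) * P.p * E - 12 * P.p * (1 - P.p) * E) ^ 2 := by ring
    _ = _ := by rw [hs]; ring

end Par

/-- the chart of the column `c` with the model `T` of the parameter -/
def lChart (c : Col) (T : TM) : Chart where
  jet2 := fun w k =>
    exp w fun e => mul c.p e fun pe => add c.q pe fun d => inv d fun iv =>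
    addc e (-one) 0 fun a => mul a iv fun K1 => mul e iv fun a => mul a iv fun K2 =>
    mi w fun a => add a T fun a => mul c.cg a fun a => mul c.sg K1 fun b => add a b fun f1 =>
    mul c.sg K2 fun sK => add c.icg sK fun f2 => k f1 f2
  jet4 := fun w k =>
    exp w fun e => mul c.p e fun pe => add c.q pe fun d => inv d fun iv =>
    addc e (-one) 0 fun a => mul a iv fun K1 => mul e iv fun a => mul a iv fun K2 =>
    mi w fun a => add a T fun a => mul c.cg a fun a => mul c.sg K1 fun b => add a b fun f1 =>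
    mul c.sg K2 fun sK => add c.icg sK fun f2 =>
    mul pe iv fun a => nmul a (-2) fun a => addc a one 0 fun τ => mul sK τ fun f3 =>
    mul c.pq K2 fun a => nmul a (-6) fun a => addc a one 0 fun a => mul sK a fun f4 =>
    k f1 f2 f3 f4
  sup := fun w k =>
    rp w fun a => exp a fun ea => ip w fun b => mi b fun b => exp b fun b => rp b fun co =>
    mul ea ea fun e2 => mul c.p2 e2 fun X => add c.q2 X fun X => mul c.s1 ea fun Y =>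
    mul Y co fun Y => add X Y fun D => inv D fun iv => mul iv iv fun i2 =>
    mul c.sg2 e2 fun a => mul a iv fun a => sub X Y fun b => mul b i2 fun b => mul a b fun A3 =>
    mul c.s24 e2 fun a => mul X Y fun b => nmul b 12 fun b => sub a b fun a => mul a i2 fun a =>
    addc a one 0 fun G => mul A3 G fun A5 => hi A3 fun u => hi A5 fun v =>
    fI (sqrtU u) fun u => fI (sqrtU v) fun v => k u v

/-- PLAN for `sup`: with `X = q² + p² e^{2a}`, `Y = 2pq e^a cos φ`: `‖den‖² = X + Y`,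
`‖q - p e^w‖² = X - Y`, `‖K2‖² = e^{2a}/(X+Y)²`,
`‖1 - 12 pq K2‖² = 1 + (96 p²q² e^{2a} - 12 X Y)/(X+Y)²`. -/
theorem lChart_ok {c : Col} {x : Pt} {P : Par} (hc : c.Ok x P) (hδ : 0 < P.δ) {T : TM} {T0 : ℝ}
    (hT : RepA x T T0) : (lChart c T).Ok x (P.jet hδ T0) := by
  refine ⟨fun w k h => ?_, fun w k h => ?_, fun w k h => ?_⟩
  · dsimp only [lChart] at h
    obtain ⟨e, h, he⟩ := exp_ok h
    obtain ⟨pe, h, hpe⟩ := mul_ok h
    obtain ⟨d, h, hd⟩ := add_ok h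
    obtain ⟨iv, h, hiv⟩ := inv_ok h
    obtain ⟨a1, h, h1⟩ := addc_ok h
    obtain ⟨K1, h, hK1⟩ := mul_ok h
    obtain ⟨a2, h, h2⟩ := mul_ok h
    obtain ⟨K2, h, hK2⟩ := mul_ok h
    obtain ⟨a3, h, h3⟩ := mi_ok h
    obtain ⟨a4, h, h4⟩ := add_ok h
    obtain ⟨a5, h, h5⟩ := mul_ok h
    obtain ⟨a6, h, h6⟩ := mul_ok h
    obtain ⟨f1, h, hf1⟩ := add_ok h
    obtain ⟨sK, h, hsK⟩ := mul_ok h
    obtain ⟨f2, h, hf2⟩ := add_ok h
    refine ⟨_, _, h, fun y hy z hz => ?_⟩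
    have re := he _ _ hz
    obtain ⟨n0, riv⟩ := hiv _ (P.den z) (hd _ _ _ (hc.q y hy) (hpe _ _ _ (hc.p y hy) re))
    have rK : Rep _ K2 (P.K2 z) :=
      lcha_eq (hK2 _ _ _ (h2 _ _ _ re riv) riv) (by rw [Par.K2]; ring)
    exact ⟨n0, lcha_eq (hf1 _ _ _ (h5 _ _ _ (hc.cg y hy) (h4 _ _ _ (h3 _ _ hz) (hT y hy)))
      (h6 _ _ _ (hc.sg y hy) (hK1 _ _ _ (h1 _ _ re) riv))) (by rw [lcha_mone]; rfl),
      hf2 _ _ _ (hc.icg y hy) (hsK _ _ _ (hc.sg y hy) rK)⟩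
  · dsimp only [lChart] at h
    obtain ⟨e, h, he⟩ := exp_ok h
    obtain ⟨pe, h, hpe⟩ := mul_ok h
    obtain ⟨d, h, hd⟩ := add_ok h
    obtain ⟨iv, h, hiv⟩ := inv_ok h
    obtain ⟨a1, h, h1⟩ := addc_ok h
    obtain ⟨K1, h, hK1⟩ := mul_ok h
    obtain ⟨a2, h, h2⟩ := mul_ok h
    obtain ⟨K2, h, hK2⟩ := mul_ok h
    obtain ⟨a3, h, h3⟩ := mi_ok h
    obtain ⟨a4, h, h4⟩ := add_ok h
    obtain ⟨a5, h, h5⟩ := mul_ok h
    obtain ⟨a6, h, h6⟩ := mul_ok h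
    obtain ⟨f1, h, hf1⟩ := add_ok h
    obtain ⟨sK, h, hsK⟩ := mul_ok h
    obtain ⟨f2, h, hf2⟩ := add_ok h
    obtain ⟨a7, h, h7⟩ := mul_ok h
    obtain ⟨a8, h, h8⟩ := nmul_ok h
    obtain ⟨τ, h, hτ⟩ := addc_ok h
    obtain ⟨f3, h, hf3⟩ := mul_ok h
    obtain ⟨a9, h, h9⟩ := mul_ok h
    obtain ⟨b1, h, g1⟩ := nmul_ok h
    obtain ⟨b2, h, g2⟩ := addc_ok h
    obtain ⟨f4, h, hf4⟩ := mul_ok h
    refine ⟨_, _, _, _, h, fun y hy z hz => ?_⟩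
    have re := he _ _ hz
    have rpe := hpe _ _ _ (hc.p y hy) re
    obtain ⟨n0, riv⟩ := hiv _ (P.den z) (hd _ _ _ (hc.q y hy) rpe)
    have rK : Rep _ K2 (P.K2 z) :=
      lcha_eq (hK2 _ _ _ (h2 _ _ _ re riv) riv) (by rw [Par.K2]; ring)
    have rs := hsK _ _ _ (hc.sg y hy) rK
    refine ⟨n0, lcha_eq (hf1 _ _ _ (h5 _ _ _ (hc.cg y hy) (h4 _ _ _ (h3 _ _ hz) (hT y hy)))
      (h6 _ _ _ (hc.sg y hy) (hK1 _ _ _ (h1 _ _ re) riv))) (by rw [lcha_mone]; rfl),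
      hf2 _ _ _ (hc.icg y hy) rs,
      lcha_eq (hf3 _ _ _ rs (hτ _ _ (h8 _ _ (h7 _ _ _ rpe riv)))) ?_,
      lcha_eq (hf4 _ _ _ rs (g2 _ _ (g1 _ _ (h9 _ _ _ (hc.pq y hy) rK)))) ?_⟩ <;>
    · simp only [lcha_one, Par.jet]
      push_cast
      ring
  · dsimp only [lChart] at h
    obtain ⟨a, h, ha⟩ := rp_ok h
    obtain ⟨ea, h, hea⟩ := exp_ok h
    obtain ⟨b1, h, g1⟩ := ip_ok h
    obtain ⟨b2, h, g2⟩ := mi_ok h
    obtain ⟨b3, h, g3⟩ := exp_ok h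
    obtain ⟨co, h, hco⟩ := rp_ok h
    obtain ⟨e2, h, he2⟩ := mul_ok h
    obtain ⟨X0, h, hX0⟩ := mul_ok h
    obtain ⟨X, h, hX⟩ := add_ok h
    obtain ⟨Y0, h, hY0⟩ := mul_ok h
    obtain ⟨Y, h, hY⟩ := mul_ok h
    obtain ⟨D, h, hD⟩ := add_ok h
    obtain ⟨iv, h, hiv⟩ := inv_ok h
    obtain ⟨i2, h, hi2⟩ := mul_ok h
    obtain ⟨a1, h, h1⟩ := mul_ok h
    obtain ⟨a2, h, h2⟩ := mul_ok h
    obtain ⟨a3, h, h3⟩ := sub_ok h
    obtain ⟨a4, h, h4⟩ := mul_ok h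
    obtain ⟨A3, h, hA3⟩ := mul_ok h
    obtain ⟨a5, h, h5⟩ := mul_ok h
    obtain ⟨a6, h, h6⟩ := mul_ok h
    obtain ⟨a7, h, h7⟩ := nmul_ok h
    obtain ⟨a8, h, h8⟩ := sub_ok h
    obtain ⟨a9, h, h9⟩ := mul_ok h
    obtain ⟨G, h, hG⟩ := addc_ok h
    obtain ⟨A5, h, hA5⟩ := mul_ok h
    obtain ⟨u, h, hu⟩ := hi_ok h
    obtain ⟨v, h, hv⟩ := hi_ok h
    rw [fI_eq, fI_eq] at h
    refine ⟨_, _, h, fun y hy z hz => ?_⟩
    obtain ⟨X', eX⟩ : ∃ X', X' = (1 - P.p) ^ 2 + P.p ^ 2 * Real.exp z.re ^ 2 := ⟨_, rfl⟩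
    obtain ⟨Y', eY⟩ : ∃ Y', Y' = 2 * (P.p * (1 - P.p)) * Real.exp z.re * Real.cos z.im := ⟨_, rfl⟩
    obtain ⟨n1, n2, n3⟩ := P.lcha_norms z eX eY
    have rea : Rep _ ea (Real.exp z.re : ℝ) := lcha_eq (hea _ _ (ha _ _ hz)) (ofReal_exp _).symm
    have rco : Rep _ co (Real.cos z.im : ℝ) := lcha_eq (hco _ _ (g3 _ _ (g2 _ _ (g1 _ _ hz))))
      (by rw [mul_comm, exp_ofReal_mul_I_re])
    have re2 := he2 _ _ _ rea rea
    have rX : Rep _ X X' := lcha_eq (hX _ _ _ (hc.q2 y hy) (hX0 _ _ _ (hc.p2 y hy) re2))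
      (by rw [eX]; push_cast; ring)
    have rY : Rep _ Y Y' := lcha_eq (hY _ _ _ (hY0 _ _ _ (hc.s1 y hy) rea) rco)
      (by rw [eY]; push_cast; ring)
    obtain ⟨n0, riv⟩ := hiv _ _ (hD _ _ _ rX rY)
    have n0' : X' + Y' ≠ 0 := by exact_mod_cast n0
    have hd : P.den z ≠ 0 := fun e => n0' (by rw [← n1, e]; simp)
    have hn : ‖P.den z‖ ≠ 0 := norm_ne_zero_iff.2 hd
    have ri2 := hi2 _ _ _ riv riv
    have m3 : ‖(P.jet hδ T0).f3 z‖ ^ 2 =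
        P.sg ^ 2 * Real.exp z.re ^ 2 * (X' - Y') / (X' + Y') ^ 3 := by
      have e : (P.jet hδ T0).f3 z = P.sg * exp z * (P.den z - 2 * (P.p * exp z)) / P.den z ^ 3 := by
        simp only [Par.jet, Par.K2]
        field_simp
      rw [e, ← n1, ← n2, norm_div, norm_mul, norm_mul, norm_pow, Complex.norm_exp,
        Complex.norm_real, Real.norm_of_nonneg P.sg_nonneg]
      ring
    have m5 : ‖(P.jet hδ T0).f5 z‖ ^ 2 = ‖(P.jet hδ T0).f3 z‖ ^ 2 *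
        ((96 * (P.p * (1 - P.p)) ^ 2 * Real.exp z.re ^ 2 - 12 * (X' * Y')) / (X' + Y') ^ 2 + 1) := by
      have e : (P.jet hδ T0).f5 z = (P.jet hδ T0).f3 z *
          ((P.den z ^ 2 - 12 * (P.p * (1 - P.p) * exp z)) / P.den z ^ 2) := by
        simp only [Par.jet, Par.K2]
        field_simp
      rw [e, norm_mul, norm_div, mul_pow, div_pow, n3, norm_pow, n1, div_add_one (pow_ne_zero 2 n0'),
        add_comm]
    have rA3 : Rep _ A3 (‖(P.jet hδ T0).f3 z‖ ^ 2 : ℝ) := lcha_eq (hA3 _ _ _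
      (h2 _ _ _ (h1 _ _ _ (hc.sg2 y hy) re2) riv) (h4 _ _ _ (h3 _ _ _ rX rY) ri2))
      (by rw [m3]; push_cast; rw [div_eq_mul_inv, ← inv_pow]; ring)
    have rA5 : Rep _ A5 (‖(P.jet hδ T0).f5 z‖ ^ 2 : ℝ) := lcha_eq (hA5 _ _ _ rA3 (hG _ _
      (h9 _ _ _ (h8 _ _ _ (h5 _ _ _ (hc.s24 y hy) re2) (h7 _ _ (h6 _ _ _ rX rY))) ri2)))
      (by rw [m5, lcha_one]; push_cast; rw [div_eq_mul_inv, ← inv_pow]; ring)
    exact ⟨hd, (Real.le_sqrt_of_sq_le (hu _ _ rA3)).trans (sqrtU_ok u),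
      (Real.le_sqrt_of_sq_le (hv _ _ rA5)).trans (sqrtU_ok v)⟩

/-- the normalised saddle equation `F ζ = 0` and its derivative; `sT = T cg`;
the continuation gets `F dF zh w e2 ze` -/
def sadG (c : Col) (sT ζ : TM) (k : TM → TM → TM → TM → TM → TM → Bool) : Bool :=
  mul c.sg ζ fun a => add c.u0 a fun zh => mul sT zh fun w => e2T w fun e2 =>
  mul w e2 fun a => addc a one 0 fun e1 => mul w e1 fun a => addc a one 0 fun e =>
  mul c.p e fun a => add c.q a fun a => inv a fun iv => mul zh e1 fun ze =>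
  mul c.icg ζ fun a => sub a c.u0 fun a => mul ze iv fun b => add a b fun F =>
  mul e iv fun a => mul a iv fun a => mul c.sg a fun a => add c.icg a fun dF =>
  k F dF zh w e2 ze

def sadN (c : Col) (sT : TM) : ℕ → TM → (TM → Bool) → Bool
  | 0, ζ, k => k ζ
  | n + 1, ζ, k => sadG c sT ζ fun F dF _ _ _ _ => inv dF fun i => mul F i fun a =>
      sub ζ a fun a => strip a fun a => sadN c sT n a k

/-- first Newton step, with the derivative frozen at the centre -/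
def sadN0 (c : Col) (sT ζ : TM) (k : TM → Bool) : Bool :=
  sadG c sT ζ fun F dF _ _ _ _ => cen dF fun u v => fI (mulU u u + mulU v v) fun n =>
  mulc F (divD u n) (divD (-v) n) fun a => sub ζ a fun a => strip a k

/-- normalised height -/
def sadH (c : Col) (sT ζ zh e2 ze : TM) (k : TM → Bool) : Bool :=
  conj ze fun a => mul ze a fun a => rp a fun n2 => mul c.p sT fun ps => mul ps n2 fun a =>
  rp ze fun b => nmul b 2 fun b => add a b fun Uh => mul ps Uh fun X => g2T X fun g =>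
  mul Uh Uh fun a => mul a g fun a => sub n2 a fun a => mul c.p a fun a => ndiv a 2 fun a =>
  mul zh zh fun b => mul b e2 fun b => rp b fun b => add a b fun a => mul a c.iq fun a =>
  rp ζ fun b => addc b (-one) 0 fun b => mul c.sg b fun b => ip ζ fun d => mul c.cg d fun d =>
  sub c.sg d fun d => mul b d fun b => add a b k

structure Sad where
  w : TM
  z : TM
  h : TM
  H : TM

structure SadC where
  u : ℤ
  v : ℤ
  n : ℕ
  ρ : ℤ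

/-- `n = 0`: no Newton step; with `ex` the saddle point is enclosed exactly -/
def saddle (c : Col) (T : TM) (s : SadC) (ex : Bool) (k : Sad → Bool) : Bool :=
  mul T c.cg fun sT => cst s.u s.v fun ζ =>
  (fun k' => cond (Nat.beq s.n 0) (k' ζ) (sadN0 c sT ζ fun ζ => sadN c sT (s.n - 1) ζ k'))
  fun ζ => strip ζ fun ζ => sadG c sT ζ fun F dF zh w e2 ze => sadH c sT ζ zh e2 ze fun h =>
  mul sT sT fun a => mul c.sg a fun s2 =>
  cond ex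
    (mul sT c.sg fun a => ab a fun s3 => fI (mulU s3 s.ρ) fun r => wid w r fun wb =>
      (lChart c T).sup wb fun K _ => ab F fun ε => ablo dF fun m => ab dF fun m' =>
      krawT ε m (mulU K s3) s.ρ && wid ζ s.ρ fun z =>
      wid h (mulU (ε + mulU (m' + mulU half m') s.ρ) s.ρ) fun h => mul s2 h fun H =>
      k ⟨wb, z, h, H⟩)
    (mul s2 h fun H => k ⟨w, ζ, h, H⟩)

structure Sad.Ok (S : Sad) (x : Pt) (P : Par) (T : ℝ) (w ζ : ℂ) (h : ℝ) : Prop where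
  hw : RepA x S.w w
  hz : RepA x S.z ζ
  hh : RepA x S.h h
  hH : RepA x S.H (P.sg * (T * P.cg) ^ 2 * h : ℝ)
  eq : w = P.ref T + T * P.sc * ζ
  hE : ‖P.E T w‖ = Real.exp (P.ka * (T ^ 2 * h))

theorem lcb_one : toC one 0 = 1 := by
  rw [toC, toR_one, toR_zero]; rfl

theorem lcb_mone : toC (-one) 0 = -1 := by
  rw [toC, toR_neg, toR_one, toR_zero]
  exact Complex.ext (by simp) (by simp)

section lcb

variable {c : Col} {x : Pt} {P : Par}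

theorem lcb_sadG (hc : c.Ok x P) {sT ζ : TM} {σ : ℂ} (hs : RepA x sT σ)
    {k : TM → TM → TM → TM → TM → TM → Bool} (h : sadG c sT ζ k = true) :
    ∃ F dF zh w e2 ze, k F dF zh w e2 ze = true ∧ ∀ y hy ζ0 z0 w0, Rep (x.set3 y hy) ζ ζ0 →
      z0 = I * P.cg - P.sg + P.sg * ζ0 → w0 = σ * z0 → P.den w0 ≠ 0 ∧
      Rep (x.set3 y hy) F
        (I * P.cg * ζ0 - (I * P.cg - P.sg) + z0 * (w0 * E2 w0 + 1) * (P.den w0)⁻¹) ∧
      Rep (x.set3 y hy) dF (I * P.cg + P.sg * P.K2 w0) ∧ Rep (x.set3 y hy) zh z0 ∧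
      Rep (x.set3 y hy) w w0 ∧ Rep (x.set3 y hy) e2 (E2 w0) ∧
      Rep (x.set3 y hy) ze (z0 * (w0 * E2 w0 + 1)) := by
  unfold sadG at h
  obtain ⟨a1, h, r1⟩ := mul_ok h
  obtain ⟨zh, h, r2⟩ := add_ok h
  obtain ⟨w, h, r3⟩ := mul_ok h
  obtain ⟨e2, h, r4⟩ := e2T_ok h
  obtain ⟨a5, h, r5⟩ := mul_ok h
  obtain ⟨e1, h, r6⟩ := addc_ok h
  obtain ⟨a7, h, r7⟩ := mul_ok h
  obtain ⟨e, h, r8⟩ := addc_ok h
  obtain ⟨a9, h, r9⟩ := mul_ok h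
  obtain ⟨a10, h, r10⟩ := add_ok h
  obtain ⟨iv, h, r11⟩ := inv_ok h
  obtain ⟨ze, h, r12⟩ := mul_ok h
  obtain ⟨a13, h, r13⟩ := mul_ok h
  obtain ⟨a14, h, r14⟩ := sub_ok h
  obtain ⟨a15, h, r15⟩ := mul_ok h
  obtain ⟨F, h, r16⟩ := add_ok h
  obtain ⟨a17, h, r17⟩ := mul_ok h
  obtain ⟨a18, h, r18⟩ := mul_ok h
  obtain ⟨a19, h, r19⟩ := mul_ok h
  obtain ⟨dF, h, r20⟩ := add_ok h
  refine ⟨F, dF, zh, w, e2, ze, h, fun y hy ζ0 z0 w0 hζ hz hw => ?_⟩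
  have s2 := r2 _ _ _ (hc.u0 y hy) (r1 _ _ _ (hc.sg y hy) hζ)
  rw [← hz] at s2
  have s3 := r3 _ _ _ (hs y hy) s2
  rw [← hw] at s3
  have s4 := r4 _ _ s3
  have s6 := r6 _ _ (r5 _ _ _ s3 s4)
  rw [lcb_one] at s6
  have s8 := r8 _ _ (r7 _ _ _ s3 s6)
  rw [lcb_one, show w0 * (w0 * E2 w0 + 1) + 1 = Complex.exp w0 by rw [E2_spec]; ring] at s8
  obtain ⟨hd, s11⟩ := r11 _ _ (r10 _ _ _ (hc.q y hy) (r9 _ _ _ (hc.p y hy) s8))
  have s12 := r12 _ _ _ s2 s6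
  have s20 := r20 _ _ _ (hc.icg y hy)
    (r19 _ _ _ (hc.sg y hy) (r18 _ _ _ (r17 _ _ _ s8 s11) s11))
  refine ⟨hd, r16 _ _ _ (r14 _ _ _ (r13 _ _ _ (hc.icg y hy) hζ) (hc.u0 y hy))
    (r15 _ _ _ s12 s11), ?_, s2, s3, s4, s12⟩
  rwa [Par.K2, Par.den, sq, div_eq_mul_inv, mul_inv, ← mul_assoc (Complex.exp w0)]

theorem lcb_sadN (hc : c.Ok x P) {sT : TM} {σ : ℂ} (hs : RepA x sT σ) {k : TM → Bool} (n : ℕ) :
    ∀ ζ, sadN c sT n ζ k = true → ∃ ζ', k ζ' = true := by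
  induction n with
  | zero => exact fun ζ h => ⟨ζ, h⟩
  | succ n ih =>
    intro ζ h
    unfold sadN at h
    obtain ⟨F, dF, -, -, -, -, h, -⟩ := lcb_sadG hc hs h
    obtain ⟨_, h, -⟩ := inv_ok h
    obtain ⟨_, h, -⟩ := mul_ok h
    obtain ⟨_, h, -⟩ := sub_ok h
    obtain ⟨_, h, -⟩ := strip_ok h
    exact ih _ h

theorem lcb_sadN0 (hc : c.Ok x P) {sT ζ : TM} {σ : ℂ} (hs : RepA x sT σ) {k : TM → Bool}
    (h : sadN0 c sT ζ k = true) : ∃ ζ', k ζ' = true := by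
  unfold sadN0 at h
  obtain ⟨F, dF, -, -, -, -, h, -⟩ := lcb_sadG hc hs h
  obtain ⟨u, v, h⟩ := cen_ok h
  rw [fI_eq] at h
  obtain ⟨_, h, -⟩ := mulc_ok h
  obtain ⟨_, h, -⟩ := sub_ok h
  obtain ⟨_, h, -⟩ := strip_ok h
  exact ⟨_, h⟩

/-- the number `Uh` -/
noncomputable def lcbU (p σ : ℝ) (ze : ℂ) : ℝ := p * σ * normSq ze + ze.re * 2

/-- the normalised height -/
noncomputable def lcbH (P : Par) (σ : ℝ) (ζ z e ze : ℂ) : ℝ :=
  (P.p * (normSq ze - lcbU P.p σ ze * lcbU P.p σ ze * g2 (P.p * σ * lcbU P.p σ ze)) / 2 +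
    (z * z * e).re) * (1 - P.p)⁻¹ + P.sg * (ζ.re - 1) * (P.sg - P.cg * ζ.im)

theorem lcb_sadH (hc : c.Ok x P) {sT ζ zh e2 ze : TM} {σ : ℝ} (hs : RepA x sT σ) {k : TM → Bool}
    (h : sadH c sT ζ zh e2 ze k = true) : ∃ H, k H = true ∧ ∀ y hy ζ0 z0 e0 ze0,
      Rep (x.set3 y hy) ζ ζ0 → Rep (x.set3 y hy) zh z0 → Rep (x.set3 y hy) e2 e0 →
      Rep (x.set3 y hy) ze ze0 → Rep (x.set3 y hy) H (lcbH P σ ζ0 z0 e0 ze0) := by
  unfold sadH at h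
  obtain ⟨_, h, r1⟩ := conj_ok h
  obtain ⟨_, h, r2⟩ := mul_ok h
  obtain ⟨_, h, r3⟩ := rp_ok h
  obtain ⟨_, h, r4⟩ := mul_ok h
  obtain ⟨_, h, r5⟩ := mul_ok h
  obtain ⟨_, h, r6⟩ := rp_ok h
  obtain ⟨_, h, r7⟩ := nmul_ok h
  obtain ⟨_, h, r8⟩ := add_ok h
  obtain ⟨_, h, r9⟩ := mul_ok h
  obtain ⟨_, h, r10⟩ := g2T_ok h
  obtain ⟨_, h, r11⟩ := mul_ok h
  obtain ⟨_, h, r12⟩ := mul_ok h
  obtain ⟨_, h, r13⟩ := sub_ok h
  obtain ⟨_, h, r14⟩ := mul_ok h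
  obtain ⟨_, h, r15⟩ := ndiv_ok h
  obtain ⟨_, h, r16⟩ := mul_ok h
  obtain ⟨_, h, r17⟩ := mul_ok h
  obtain ⟨_, h, r18⟩ := rp_ok h
  obtain ⟨_, h, r19⟩ := add_ok h
  obtain ⟨_, h, r20⟩ := mul_ok h
  obtain ⟨_, h, r21⟩ := rp_ok h
  obtain ⟨_, h, r22⟩ := addc_ok h
  obtain ⟨_, h, r23⟩ := mul_ok h
  obtain ⟨_, h, r24⟩ := ip_ok h
  obtain ⟨_, h, r25⟩ := mul_ok h
  obtain ⟨_, h, r26⟩ := sub_ok h
  obtain ⟨_, h, r27⟩ := mul_ok h
  obtain ⟨H, h, r28⟩ := add_ok h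
  refine ⟨H, h, fun y hy ζ0 z0 e0 ze0 hζ hz he hze => ?_⟩
  have s3 := r3 _ _ (r2 _ _ _ hze (r1 _ _ hze))
  rw [mul_conj, ofReal_re] at s3
  have s4 := r4 _ _ _ (hc.p y hy) (hs y hy)
  have s8 := r8 _ _ _ (r5 _ _ _ s4 s3) (r7 _ _ (r6 _ _ hze))
  rw [show (P.p * σ * normSq ze0 + ze0.re * (2 : ℤ) : ℂ) = lcbU P.p σ ze0 by
    rw [lcbU]; push_cast; rfl] at s8
  have s9 := r9 _ _ _ s4 s8
  rw [← ofReal_mul, ← ofReal_mul] at s9
  have s28 := r28 _ _ _ (r20 _ _ _ (r19 _ _ _ (r15 _ _ (r14 _ _ _ (hc.p y hy) (r13 _ _ _ s3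
    (r12 _ _ _ (r11 _ _ _ s8 s8) (r10 _ _ s9).2)))) (r18 _ _ (r17 _ _ _ (r16 _ _ _ hz hz) he)))
    (hc.iq y hy)) (r27 _ _ _ (r23 _ _ _ (hc.sg y hy) (r22 _ _ (r21 _ _ hζ)))
      (r26 _ _ _ (hc.sg y hy) (r25 _ _ _ (hc.cg y hy) (r24 _ _ hζ))))
  rw [lcb_mone, ← sub_eq_add_neg] at s28
  rw [lcbH]
  push_cast at s28 ⊢
  exact s28

theorem lcb_E (T : ℝ) (w : ℂ) :
    ‖P.E T w‖ = Real.exp (I * w ^ 2 / (2 * P.δ) + P.β T * w).re * ‖P.den w‖ ^ P.N := by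
  rw [Par.E, Eg, norm_mul, norm_exp, norm_pow, Par.den]

theorem lcb_height (hδ : 0 < P.δ) (T : ℝ) {ζ z w : ℂ} (hz : z = I * P.cg - P.sg + P.sg * ζ)
    (hw : w = (T * P.cg : ℝ) * z) (hd : P.den w ≠ 0) : ‖P.E T w‖ =
      Real.exp (P.ka * (T ^ 2 * lcbH P (T * P.cg) ζ z (E2 w) (z * (w * E2 w + 1)))) := by
  have e1 : P.den w = 1 + (P.p * (T * P.cg) : ℝ) * (z * (w * E2 w + 1)) := by
    rw [Par.den, E2_spec, ofReal_mul]
    linear_combination (P.p * (w * E2 w + 1) : ℂ) * hw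
  have e2 : (z * (w * E2 w + 1)).re = z.re + T * P.cg * (z * z * E2 w).re := by
    rw [← re_ofReal_mul, ← add_re]
    congr 1
    linear_combination (z * E2 w) * hw
  rw [lcbH]
  generalize z * (w * E2 w + 1) = ze at e1 e2 ⊢
  have e3 : ‖P.den w‖ ^ 2 = 1 + P.p * (T * P.cg) * lcbU P.p (T * P.cg) ze := by
    rw [e1, lcbU, Complex.sq_norm, normSq_apply, normSq_apply]
    simp only [add_re, add_im, re_ofReal_mul, im_ofReal_mul, one_re, one_im]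
    ring
  have e4 := g2_spec (P.p * (T * P.cg) * lcbU P.p (T * P.cg) ze)
  rw [← e3, Real.log_pow] at e4
  rw [lcb_E, ← Real.exp_log (norm_pos_iff.2 hd), ← Real.exp_nat_mul, ← Real.exp_add]
  congr 1
  have e5 : I * w ^ 2 / (2 * P.δ) = ((T * P.cg) ^ 2 * (1 / P.δ) / 2 : ℝ) * (I * (z * z)) := by
    rw [hw]; push_cast; ring
  have e6 : P.β T * w = ((T * (1 / P.δ) - P.N * P.p) * (T * P.cg) : ℝ) * z := by
    rw [hw, Par.β]; push_cast; ring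
  have e7 : z.re = P.sg * (ζ.re - 1) := by rw [hz]; simp; ring
  have e8 : z.im = P.cg + P.sg * ζ.im := by rw [hz]; simp
  have hq : (1 - P.p) * (1 - P.p)⁻¹ = 1 := mul_inv_cancel₀ (by linarith [P.hp])
  have hL : 1 / P.δ * P.sg = P.s2 * P.cg := by rw [← P.L_cg hδ, ← P.L_sg hδ]; ring
  have hU : lcbU P.p (T * P.cg) ze = P.p * (T * P.cg) * normSq ze +
      (P.sg * (ζ.re - 1) + T * P.cg * (z * z * E2 w).re) * 2 := by rw [lcbU, e2, e7]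
  rw [e5, e6, add_re, re_ofReal_mul, re_ofReal_mul, I_mul_re, mul_im, e7, e8, Par.ka]
  rw [Par.s2] at hL ⊢
  push_cast at e4
  generalize lcbU P.p (T * P.cg) ze = U at e4 hU ⊢
  generalize g2 (P.p * (T * P.cg) * U) = g at e4 ⊢
  generalize (z * z * E2 w).re = R at hU ⊢
  generalize 1 / P.δ = d at hL ⊢
  generalize (1 - P.p)⁻¹ = iq at hq ⊢
  linear_combination (P.N / 2 : ℝ) * e4 + (P.N * P.p * (T * P.cg) / 2) * hU +
    T ^ 2 * P.cg * (ζ.re - 1) * (1 - P.cg ^ 2 - P.cg * P.sg * ζ.im) * hL -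
    T ^ 2 * P.cg ^ 2 * (ζ.re - 1) * (P.N * P.p * (1 - P.p)) * P.sq_add -
    P.N * P.p * (T * P.cg) ^ 2 * (P.p * (normSq ze - U * U * g) / 2 + R) * hq

theorem lcb_f1 (hδ : 0 < P.δ) (T : ℝ) {ζ z w : ℂ} (hz : z = I * P.cg - P.sg + P.sg * ζ)
    (hw : w = (T * P.cg : ℝ) * z) : (P.jet hδ T).f1 w = (T * P.cg : ℝ) * P.sg *
      (I * P.cg * ζ - (I * P.cg - P.sg) + z * (w * E2 w + 1) * (P.den w)⁻¹) := by
  have h1 : (P.cg : ℂ) ^ 2 + P.sg ^ 2 = 1 := by exact_mod_cast P.sq_add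
  show P.cg * (I * w + T) + P.sg * ((Complex.exp w - 1) / P.den w) = _
  rw [E2_spec, div_eq_mul_inv]
  push_cast at hw ⊢
  linear_combination (P.cg * I + P.sg * (w * E2 w + 1) * (P.den w)⁻¹) * hw +
    (P.cg * I * T * P.cg) * hz + (T * P.cg ^ 3 : ℂ) * I_mul_I - (T * P.cg : ℂ) * h1

/-- the exact saddle point of a jet along the map `z ↦ a + s z` -/
theorem lcb_kraw (J : Jet) {a s ζ : ℂ} (hs : s ≠ 0) {ρ ε m m' K : ℝ} (hρ : 0 ≤ ρ)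
    (hU : ∀ z, ‖z - ζ‖ ≤ ρ → a + s * z ∈ J.U ∧ ‖J.f3 (a + s * z) * s‖ ≤ K)
    (hε : ‖J.f1 (a + s * ζ) / s‖ ≤ ε) (hm0 : 0 < m) (hm : m ≤ ‖J.f2 (a + s * ζ)‖)
    (hm' : ‖J.f2 (a + s * ζ)‖ ≤ m') (hK : K * ρ ≤ m / 2) (hr : ε + K * ρ ^ 2 ≤ ρ * m) :
    ∃ z, ‖z - ζ‖ ≤ ρ ∧ J.f1 (a + s * z) = 0 ∧
      ‖J.E (a + s * z)‖ ≤ ‖J.E (a + s * ζ)‖ *
        Real.exp (J.L * (‖s‖ ^ 2 * ((ε + (m' + m' / 2) * ρ) * ρ))) ∧
      ‖J.E (a + s * ζ)‖ ≤ ‖J.E (a + s * z)‖ *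
        Real.exp (J.L * (‖s‖ ^ 2 * ((ε + (m' + m' / 2) * ρ) * ρ))) := by
  have d0 : ∀ z : ℂ, HasDerivAt (fun z => a + s * z) s z := fun z => by
    simpa using ((hasDerivAt_id z).const_mul s).const_add a
  have d1 : ∀ z, ‖z - ζ‖ ≤ ρ → HasDerivAt (fun z => J.f1 (a + s * z) / s) (J.f2 (a + s * z)) z :=
    fun z hz => (((J.h1 _ (hU z hz).1).comp z (d0 z)).div_const s).congr_deriv
      (mul_div_cancel_right₀ _ hs)
  have d2 : ∀ z, ‖z - ζ‖ ≤ ρ → HasDerivAt (fun z => J.f2 (a + s * z)) (J.f3 (a + s * z) * s) z :=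
    fun z hz => (J.h2 _ (hU z hz).1).comp z (d0 z)
  obtain ⟨z, hz, h0⟩ := kraw hρ (fun z hz => ⟨d1 z hz, d2 z hz, (hU z hz).2⟩) hε hm0 hm hK hr
  have hζ : ζ ∈ Metric.closedBall ζ ρ := Metric.mem_closedBall_self hρ
  have hK0 : 0 ≤ K := (norm_nonneg _).trans (hU ζ (by simpa using hρ)).2
  have b2 : ∀ v ∈ Metric.closedBall ζ ρ, ‖J.f2 (a + s * v)‖ ≤ m' + m' / 2 := fun v hv => by
    have := (convex_closedBall ζ ρ).norm_image_sub_le_of_norm_hasDerivWithin_le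
      (fun u hu => (d2 u (mem_closedBall_iff_norm.1 hu)).hasDerivWithinAt)
      (fun u hu => (hU u (mem_closedBall_iff_norm.1 hu)).2) hζ hv
    have h2 := mul_le_mul_of_nonneg_left (mem_closedBall_iff_norm.1 hv) hK0
    linarith [norm_le_norm_sub_add (J.f2 (a + s * v)) (J.f2 (a + s * ζ))]
  have hm1 : 0 ≤ m' + m' / 2 := (norm_nonneg _).trans (b2 ζ hζ)
  have b1 : ∀ v ∈ Metric.closedBall ζ ρ, ‖J.f1 (a + s * v) / s‖ ≤ ε + (m' + m' / 2) * ρ :=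
    fun v hv => by
      have := (convex_closedBall ζ ρ).norm_image_sub_le_of_norm_hasDerivWithin_le
        (fun u hu => (d1 u (mem_closedBall_iff_norm.1 hu)).hasDerivWithinAt) b2 hζ hv
      have h2 := mul_le_mul_of_nonneg_left (mem_closedBall_iff_norm.1 hv) hm1
      linarith [norm_le_norm_sub_add (J.f1 (a + s * v) / s) (J.f1 (a + s * ζ) / s)]
  have key := height_close J (z := a + s * ζ) (h := s * (z - ζ))
    (K := ‖s‖ ^ 2 * ((ε + (m' + m' / 2) * ρ) * ρ)) fun t t0 t1 => by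
      have ht : ‖ζ + t * (z - ζ) - ζ‖ ≤ ρ := by
        rw [add_sub_cancel_left, norm_mul, Complex.norm_real, Real.norm_of_nonneg t0]
        exact (mul_le_of_le_one_left (norm_nonneg _) t1).trans hz
      rw [show a + s * ζ + t * (s * (z - ζ)) = a + s * (ζ + t * (z - ζ)) by ring]
      refine ⟨(hU _ ht).1, ?_⟩
      have h3 := b1 _ (mem_closedBall_iff_norm.2 ht)
      rw [show ∀ u : ℂ, u * (s * (z - ζ)) = s ^ 2 * (u / s * (z - ζ)) from fun u => by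
        field_simp, norm_mul, norm_mul, norm_pow]
      exact mul_le_mul_of_nonneg_left (mul_le_mul h3 hz (norm_nonneg _)
        ((norm_nonneg _).trans h3)) (sq_nonneg _)
  rw [show a + s * ζ + s * (z - ζ) = a + s * z by ring] at key
  exact ⟨z, hz, by simpa [hs] using h0, key⟩

theorem lcb_log {A B c d h : ℝ} (hc : 0 < c) (hA : 0 < A) (hB : B = Real.exp (c * h))
    (h1 : A ≤ B * Real.exp (c * d)) (h2 : B ≤ A * Real.exp (c * d)) :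
    ∃ h', |h' - h| ≤ d ∧ A = Real.exp (c * h') := by
  obtain ⟨h', rfl⟩ : ∃ h', A = Real.exp (c * h') :=
    ⟨Real.log A / c, by rw [mul_div_cancel₀ _ hc.ne', Real.exp_log hA]⟩
  rw [hB, ← Real.exp_add, Real.exp_le_exp, ← mul_add, mul_le_mul_iff_right₀ hc] at h1 h2
  exact ⟨h', abs_le.2 ⟨by linarith, by linarith⟩, rfl⟩

theorem lcb_exact (hδ : 0 < P.δ) (T : ℝ) {ζ : ℂ} {ρ ε m m' K h : ℝ} (hρ : 0 ≤ ρ)
    {W : ℂ → ℂ} (hW : ∀ z, W z = P.ref T + T * P.sc * z)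
    (hU : ∀ z, ‖z - ζ‖ ≤ ρ → P.den (W z) ≠ 0 ∧ ‖(P.jet hδ T).f3 (W z) * (T * P.sc)‖ ≤ K)
    {F : ℂ} (hF : (P.jet hδ T).f1 (W ζ) = T * P.sc * F) (hε : ‖F‖ ≤ ε) (hm0 : 0 < m)
    (hm : m ≤ ‖(P.jet hδ T).f2 (W ζ)‖) (hm' : ‖(P.jet hδ T).f2 (W ζ)‖ ≤ m')
    (hK : K * ρ ≤ m / 2) (hr : ε + K * ρ ^ 2 ≤ ρ * m)
    (hE : ‖P.E T (W ζ)‖ = Real.exp (P.ka * (T ^ 2 * h))) :
    ∃ z h', ‖z - ζ‖ ≤ ρ ∧ |h' - h| ≤ (ε + (m' + m' / 2) * ρ) * ρ ∧
      (P.jet hδ T).f1 (W z) = 0 ∧ ‖P.E T (W z)‖ = Real.exp (P.ka * (T ^ 2 * h')) := by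
  have hε0 := (norm_nonneg _).trans hε
  have hm1 := (norm_nonneg _).trans hm'
  have hd : 0 ≤ (ε + (m' + m' / 2) * ρ) * ρ := by positivity
  rcases eq_or_ne T 0 with rfl | hT
  · exact ⟨ζ, h, by simpa using hρ, by simpa using hd, by simpa using hF, hE⟩
  have hsg := P.sg_pos hδ
  have hsc : 0 < P.sc := mul_pos hsg P.cg_pos
  have hs : (T * P.sc : ℂ) ≠ 0 := mul_ne_zero (ofReal_ne_zero.2 hT) (ofReal_ne_zero.2 hsc.ne')
  simp only [hW] at hU hF hm hm' hE ⊢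
  obtain ⟨z, hz, h0, h1, h2⟩ := lcb_kraw (P.jet hδ T) hs hρ hU
    (by rwa [hF, mul_div_cancel_left₀ _ hs]) hm0 hm hm' hK hr
  have hc : 0 < P.ka * T ^ 2 := mul_pos P.ka_pos (by positivity)
  have e : (P.jet hδ T).L * (‖(T * P.sc : ℂ)‖ ^ 2 * ((ε + (m' + m' / 2) * ρ) * ρ)) =
      P.ka * T ^ 2 * (P.sg * ((ε + (m' + m' / 2) * ρ) * ρ)) := by
    show P.L * _ = _
    rw [← ofReal_mul, Complex.norm_real, Real.norm_eq_abs, sq_abs, Par.ka, ← P.L_sg hδ, Par.sc]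
    ring
  rw [e] at h1 h2
  have hA : 0 < ‖P.E T (P.ref T + T * P.sc * z)‖ := by
    rw [lcb_E]
    exact mul_pos (Real.exp_pos _) (pow_pos (norm_pos_iff.2 (hU z hz).1) _)
  obtain ⟨h', a1, a2⟩ := lcb_log hc hA (hE.trans (by rw [mul_assoc])) h1 h2
  have hs1 : P.sg ≤ 1 := by nlinarith [P.sq_add, sq_nonneg P.cg]
  exact ⟨z, h', hz, a1.trans (mul_le_of_le_one_left hd hs1), h0, by rw [a2, mul_assoc]⟩

end lcb

/-- PLAN. `w = sT zh`, `zh = u0 + sg ζ`, `f1 w = T cg sg F ζ`, `F' = f2 w = dF`,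
`F'' = f3 w * sT * sg`; `F` is `i cg ζ - u0 + zh (1 + w E2 w)/den w` (treat `sT = 0` separately, then
`F` is affine). Height: `log ‖E w‖ = L (cg re (i w²/2 + T w) + sg (log ‖den‖ - p re w)/(pq))`,
`‖den‖² = 1 + p sT Uh`, which gives `ka T² h` with the `h` of `sadH`. From the approximate to the
exact saddle `h` changes by at most `(ε + 1.5 m' ρ) ρ` (`height_close`; if `T = 0` take any value,
for instance the old one). -/
theorem saddle_ok {c : Col} {x : Pt} {P : Par} (hc : c.Ok x P) (hδ : 0 < P.δ) {T : TM} {T0 : ℝ}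
    (hT : RepA x T T0) {s : SadC} {ex : Bool} {k : Sad → Bool} (h : saddle c T s ex k = true) :
    ∃ S w ζ hh, k S = true ∧ S.Ok x P T0 w ζ hh ∧ (ex = true → (P.jet hδ T0).f1 w = 0) := by
  unfold saddle at h
  obtain ⟨sT, h, r1⟩ := mul_ok h
  have hs : RepA x sT (T0 * P.cg : ℝ) := fun y hy => by
    rw [ofReal_mul]; exact r1 _ _ _ (hT y hy) (hc.cg y hy)
  obtain ⟨ζ1, h, -⟩ := cst_ok h
  have H : ∀ k' : TM → Bool, cond (Nat.beq s.n 0) (strip ζ1 k')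
      (sadN0 c sT ζ1 fun ζ => sadN c sT (s.n - 1) ζ fun ζ => strip ζ k') = true →
      ∃ ζ', strip ζ' k' = true := by
    intro k' h'
    cases hb : Nat.beq s.n 0 <;> rw [hb] at h'
    · obtain ⟨ζ', h'⟩ := lcb_sadN0 hc hs h'
      exact lcb_sadN hc hs _ _ h'
    · exact ⟨_, h'⟩
  beta_reduce at h
  obtain ⟨ζ2, h⟩ := H _ h
  obtain ⟨ζ, h, f, hf⟩ := strip_ok h
  have hζ : RepA x ζ (f x.x0 x.x1 x.x2) := fun y hy => hf (x.set3 y hy)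
  generalize f x.x0 x.x1 x.x2 = ζ0 at hζ
  obtain ⟨F, dF, zh, w, e2, ze, h, r2⟩ := lcb_sadG hc hs h
  obtain ⟨hT0, h, r3⟩ := lcb_sadH hc hs h
  obtain ⟨_, h, r4⟩ := mul_ok h
  obtain ⟨s2, h, r5⟩ := mul_ok h
  obtain ⟨z0, hz⟩ : ∃ z0, z0 = I * P.cg - P.sg + P.sg * ζ0 := ⟨_, rfl⟩
  obtain ⟨W, hW⟩ : ∃ W : ℂ → ℂ, ∀ z, W z = P.ref T0 + T0 * P.sc * z := ⟨_, fun _ => rfl⟩
  have hw : W ζ0 = (T0 * P.cg : ℝ) * z0 := by
    rw [hW, hz, Par.ref, Par.sc]; push_cast; ring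
  have g := fun y hy => r2 y hy ζ0 z0 _ (hζ y hy) hz hw
  have g0 := g x.x3 x.h3
  have hE := lcb_height hδ T0 hz hw g0.1
  have hh : RepA x hT0 _ := fun y hy =>
    r3 y hy _ _ _ _ (hζ y hy) (g y hy).2.2.2.1 (g y hy).2.2.2.2.2.1 (g y hy).2.2.2.2.2.2
  generalize lcbH P _ _ _ _ _ = h0 at hE hh
  have hH : ∀ {a H : TM} {v : ℝ}, RepA x a v →
      (∀ x z w, Rep x s2 z → Rep x a w → Rep x H (z * w)) →
      RepA x H (P.sg * (T0 * P.cg) ^ 2 * v : ℝ) := fun ha r y hy => by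
    have := r _ _ _ (r5 _ _ _ (hc.sg y hy) (r4 _ _ _ (hs y hy) (hs y hy))) (ha y hy)
    rwa [← ofReal_mul, ← ofReal_mul, ← ofReal_mul, ← sq] at this
  cases ex
  · rw [cond_false] at h
    obtain ⟨H, h, r6⟩ := mul_ok h
    exact ⟨_, W ζ0, ζ0, h0, h, ⟨fun y hy => (g y hy).2.2.2.2.1, hζ, hh, hH hh r6, hW _, hE⟩,
      fun h => absurd h Bool.false_ne_true⟩
  rw [cond_true] at h
  obtain ⟨_, h, r6⟩ := mul_ok h
  obtain ⟨s3, h, r7⟩ := ab_ok h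
  rw [fI_eq] at h
  obtain ⟨wb, h, r8⟩ := wid_ok h
  obtain ⟨K, _, h, r9⟩ := (lChart_ok hc hδ hT).hs _ _ h
  obtain ⟨ε, h, r10⟩ := ab_ok h
  obtain ⟨m, h, r11⟩ := ablo_ok h
  obtain ⟨m', h, r12⟩ := ab_ok h
  simp only [krawT, Bool.and_eq_true] at h
  obtain ⟨⟨⟨⟨k1, k2⟩, k3⟩, k4⟩, h⟩ := h
  obtain ⟨z, h, r13⟩ := wid_ok h
  obtain ⟨h1, h, r14⟩ := wid_ok h
  obtain ⟨H, h, r15⟩ := mul_ok h
  replace k1 := leI_ok k1
  replace k2 := ltI_ok k2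
  replace k3 := leI_ok k3
  replace k4 := leI_ok k4
  rw [toR_zero] at k1 k2
  have e0 : ((T0 * P.cg : ℝ) : ℂ) * P.sg = T0 * P.sc := by rw [Par.sc]; push_cast; ring
  have n3 : ‖(T0 * P.sc : ℂ)‖ ≤ toR s3 := e0 ▸ r7 _ _ (r6 _ _ _ hs.rep hc.sg.rep)
  have hb : ∀ z, ‖z - ζ0‖ ≤ toR s.ρ → RepA x wb (W z) := fun z hz y hy =>
    r8 _ _ _ (g y hy).2.2.2.2.1 (by
      rw [hW, hW, add_sub_add_left_eq_sub, ← mul_sub, norm_mul]
      exact mulU_le (norm_nonneg _) (norm_nonneg _) n3 hz)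
  have hU : ∀ z, ‖z - ζ0‖ ≤ toR s.ρ → P.den (W z) ≠ 0 ∧
      ‖(P.jet hδ T0).f3 (W z) * (T0 * P.sc)‖ ≤ toR (mulU K s3) := fun z hz => by
    obtain ⟨a1, a2, -⟩ := r9 x.x3 x.h3 _ (hb z hz x.x3 x.h3)
    rw [norm_mul]
    exact ⟨a1, mulU_le (norm_nonneg _) (norm_nonneg _) a2 n3⟩
  have hK0 := (norm_nonneg _).trans (hU ζ0 (by simpa using k1)).2
  have hε := r10 _ _ g0.2.1
  have hm' := r12 _ _ g0.2.2.1
  obtain ⟨z', h', a1, a2, a3, a4⟩ := lcb_exact hδ T0 k1 hW hU (e0 ▸ lcb_f1 hδ T0 hz hw) hε k2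
    (r11 _ _ g0.2.2.1) hm'
    (by
      rw [toR_intmul] at k3
      push_cast at k3
      linarith [mulU_ok (mulU K s3) s.ρ])
    (by
      rw [toR_add] at k4
      have := mulU_le hK0 (mul_self_nonneg _) le_rfl (mulU_ok s.ρ s.ρ)
      rw [sq]
      linarith [mulD_ok s.ρ m]) hE
  have hm0 := (norm_nonneg _).trans hm'
  have hε0 := (norm_nonneg _).trans hε
  have hh' : RepA x h1 h' := fun y hy => r14 _ _ _ (hh y hy) (by
    rw [← ofReal_sub, Complex.norm_real, Real.norm_eq_abs]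
    refine a2.trans (mulU_le (by positivity) k1 ?_ le_rfl)
    rw [toR_add]
    refine add_le_add le_rfl (mulU_le (by positivity) k1 ?_ le_rfl)
    have := mulU_ok half m'
    rw [acc_half] at this
    rw [toR_add]
    linarith)
  exact ⟨_, W z', z', h', h, ⟨hb z' a1, fun y hy => r13 _ _ _ (hζ y hy) a1, hh', hH hh' r15,
    hW _, a4⟩, fun _ => a3⟩

end Pool.Agent.Sok
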