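import Pool.Agent.Sok.LCh

/-! The ends of the contours in the chart of a column. -/

set_option autoImplicit false

namespace Pool.Agent.Sok

open TM Complex

/-- `Rq p a`; the continuation also gets `(1-2p) a` -/
def rqT (c : Col) (a : TM) (k : TM → TM → Bool) : Bool :=
  mul c.th a fun ta => mul a a fun a2 => mul c.om a2 fun b => nmul b 3 fun b =>
  nmul ta 2 fun d => add b d fun b => ndiv b 6 fun b => addc b one 0 fun b =>
  mul c.s1 a2 fun d => mul d b fun R => k R ta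

def hblT (c : Col) (a : TM) (cc : ℤ) (k : TM → Bool) : Bool :=
  rqT c a fun R ta => addc ta one 0 fun b => smul b (cc - one) fun b => add b R k

/-- `HBe p a 1` -/
def hbeT (c : Col) (a : TM) (k : TM → Bool) : Bool :=
  rqT c a fun R ta => exp ta fun e => sub e ta fun e => addc e (-one) 0 fun e => add e R k

section

variable {x : Pt} {a b : TM} {z w : ℂ} {k : TM → Bool} {u v : ℤ}

theorem lend_c (h : RepA x a z) (e : z = w) : RepA x a w := e ▸ h

theorem lend_toC (u : ℤ) : toC u 0 = (toR u : ℝ) := by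
  apply Complex.ext <;> simp [toC, toR_zero]

theorem lend_mul (h : mul a b k = true) (ha : RepA x a z) (hb : RepA x b w) :
    ∃ c, k c = true ∧ RepA x c (z * w) :=
  let ⟨c, h1, h2⟩ := TM.mul_ok h
  ⟨c, h1, fun y hy => h2 _ _ _ (ha y hy) (hb y hy)⟩

theorem lend_add (h : add a b k = true) (ha : RepA x a z) (hb : RepA x b w) :
    ∃ c, k c = true ∧ RepA x c (z + w) :=
  let ⟨c, h1, h2⟩ := TM.add_ok h
  ⟨c, h1, fun y hy => h2 _ _ _ (ha y hy) (hb y hy)⟩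

theorem lend_sub (h : sub a b k = true) (ha : RepA x a z) (hb : RepA x b w) :
    ∃ c, k c = true ∧ RepA x c (z - w) :=
  let ⟨c, h1, h2⟩ := TM.sub_ok h
  ⟨c, h1, fun y hy => h2 _ _ _ (ha y hy) (hb y hy)⟩

theorem lend_neg (h : neg a k = true) (ha : RepA x a z) : ∃ c, k c = true ∧ RepA x c (-z) :=
  let ⟨c, h1, h2⟩ := TM.neg_ok h
  ⟨c, h1, fun y hy => h2 _ _ (ha y hy)⟩

theorem lend_rp (h : rp a k = true) (ha : RepA x a z) :
    ∃ c, k c = true ∧ RepA x c (z.re : ℝ) :=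
  let ⟨c, h1, h2⟩ := TM.rp_ok h
  ⟨c, h1, fun y hy => h2 _ _ (ha y hy)⟩

theorem lend_ip (h : ip a k = true) (ha : RepA x a z) :
    ∃ c, k c = true ∧ RepA x c (z.im : ℝ) :=
  let ⟨c, h1, h2⟩ := TM.ip_ok h
  ⟨c, h1, fun y hy => h2 _ _ (ha y hy)⟩

theorem lend_addc (h : addc a u 0 k = true) (ha : RepA x a z) :
    ∃ c, k c = true ∧ RepA x c (z + (toR u : ℝ)) :=
  let ⟨c, h1, h2⟩ := TM.addc_ok h
  ⟨c, h1, fun y hy => lend_toC u ▸ h2 _ _ (ha y hy)⟩

theorem lend_smul (h : smul a u k = true) (ha : RepA x a z) :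
    ∃ c, k c = true ∧ RepA x c (z * (toR u : ℝ)) :=
  let ⟨c, h1, h2⟩ := TM.smul_ok h
  ⟨c, h1, fun y hy => h2 _ _ (ha y hy)⟩

theorem lend_nmul (h : nmul a u k = true) (ha : RepA x a z) :
    ∃ c, k c = true ∧ RepA x c (z * (u : ℂ)) :=
  let ⟨c, h1, h2⟩ := TM.nmul_ok h
  ⟨c, h1, fun y hy => h2 _ _ (ha y hy)⟩

theorem lend_ndiv {n : ℕ} (h : ndiv a n k = true) (ha : RepA x a z) :
    ∃ c, k c = true ∧ RepA x c (z / (n : ℂ)) :=
  let ⟨c, h1, h2⟩ := TM.ndiv_ok h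
  ⟨c, h1, fun y hy => h2 _ _ (ha y hy)⟩

theorem lend_exp (h : TM.exp a k = true) (ha : RepA x a z) :
    ∃ c, k c = true ∧ RepA x c (Complex.exp z) :=
  let ⟨c, h1, h2⟩ := TM.exp_ok h
  ⟨c, h1, fun y hy => h2 _ _ (ha y hy)⟩

theorem lend_lo {k : ℤ → Bool} {t : ℝ} (h : lo a k = true) (ha : RepA x a t) :
    ∃ r, k r = true ∧ toR r ≤ t :=
  let ⟨r, h1, h2⟩ := TM.lo_ok h
  ⟨r, h1, h2 _ _ ha.rep⟩

theorem lend_hi {k : ℤ → Bool} {t : ℝ} (h : hi a k = true) (ha : RepA x a t) :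
    ∃ r, k r = true ∧ t ≤ toR r :=
  let ⟨r, h1, h2⟩ := TM.hi_ok h
  ⟨r, h1, h2 _ _ ha.rep⟩

theorem lend_rab {k : ℤ → Bool} {t : ℝ} (h : rab a k = true) (ha : RepA x a t) :
    ∃ r, k r = true ∧ |t| ≤ toR r :=
  let ⟨r, h1, h2⟩ := rab_ok h
  ⟨r, h1, h2 _ _ ha.rep⟩

theorem lend_two {r : ℤ} (h : leI r (2 * one) = true) : toR r ≤ 2 := by
  have h1 := leI_ok h
  rw [toR_intmul, toR_one] at h1
  simpa using h1

end

theorem lend_rq {c : Col} {x : Pt} {P : Par} (hc : c.Ok x P) {a : TM} {a0 : ℝ} (ha : RepA x a a0)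
    {k : TM → TM → Bool} (h : rqT c a k = true) :
    ∃ R ta, k R ta = true ∧ RepA x R (Rq P.p a0 : ℝ) ∧ RepA x ta ((1 - 2 * P.p) * a0) := by
  obtain ⟨ta, h, h1⟩ := lend_mul h hc.th ha
  obtain ⟨a2, h, h2⟩ := lend_mul h ha ha
  obtain ⟨b, h, h3⟩ := lend_mul h hc.om h2
  obtain ⟨b, h, h3⟩ := lend_nmul h h3
  obtain ⟨d, h, h4⟩ := lend_nmul h h1
  obtain ⟨b, h, h3⟩ := lend_add h h3 h4
  obtain ⟨b, h, h3⟩ := lend_ndiv h h3
  obtain ⟨b, h, h3⟩ := lend_addc h h3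
  obtain ⟨d, h, h4⟩ := lend_mul h hc.s1 h2
  obtain ⟨R, h, h5⟩ := lend_mul h h4 h3
  refine ⟨R, ta, h, lend_c h5 ?_, h1⟩
  rw [toR_one, Rq]
  push_cast
  ring

theorem hblT_ok {c : Col} {x : Pt} {P : Par} (hc : c.Ok x P) {a : TM} {a0 : ℝ} (ha : RepA x a a0)
    {cc : ℤ} {k : TM → Bool} (h : hblT c a cc k = true) :
    ∃ r, k r = true ∧ RepA x r (HBl P.p a0 (toR cc) : ℝ) := by
  obtain ⟨R, ta, h, h1, h2⟩ := lend_rq hc ha h
  obtain ⟨b, h, h3⟩ := lend_addc h h2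
  obtain ⟨b, h, h3⟩ := lend_smul h h3
  obtain ⟨r, h, h4⟩ := lend_add h h3 h1
  refine ⟨r, h, lend_c h4 ?_⟩
  rw [toR_sub, toR_one, HBl]
  push_cast
  ring

theorem hbeT_ok {c : Col} {x : Pt} {P : Par} (hc : c.Ok x P) {a : TM} {a0 : ℝ} (ha : RepA x a a0)
    {k : TM → Bool} (h : hbeT c a k = true) :
    ∃ r, k r = true ∧ RepA x r (HBe P.p a0 1 : ℝ) := by
  obtain ⟨R, ta, h, h1, h2⟩ := lend_rq hc ha h
  obtain ⟨e, h, h3⟩ := lend_exp h h2
  obtain ⟨e, h, h3⟩ := lend_sub h h3 h2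
  obtain ⟨e, h, h3⟩ := lend_addc h h3
  obtain ⟨r, h, h4⟩ := lend_add h h3 h1
  refine ⟨r, h, lend_c h4 ?_⟩
  rw [toR_neg, toR_one, HBe]
  push_cast
  ring

/-- lower bound of `H - sg hb - cg a (T - φ)` -/
def gapT (c : Col) (T H a φ hb : TM) (k : ℤ → Bool) : Bool :=
  mul c.sg hb fun b => sub H b fun b => sub T φ fun d => mul a d fun d => mul c.cg d fun d =>
  sub b d fun b => lo b k

/-- multiplies by the sign of the end -/
def sgT (up : Bool) (a : TM) (k : TM → Bool) : Bool := cond up (k a) (neg a k)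

/-- common part: abscissa `a` (at most two), ordinate `φ` with `lo ≤ ±φ ≤ π`, `±π`,
remaining height `L2` -/
def endPre (c : Col) (up : Bool) (S : St) (k : TM → TM → TM → ℤ → ℤ → ℤ → Bool) : Bool :=
  rp S.cur fun a => ip S.cur fun φ => rab a fun ra => leI ra (2 * one) &&
  sgT up φ fun ψ => hi ψ fun ph => lo ψ fun pl => leI ph piD &&
  sgT up c.pi fun pi => fI (piU - pl) fun L2 => k a φ pi ra pl L2

/-- horizontal segment at height `±π` from `a` to the cut -/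
def toCut (c : Col) (a : Ac) (T H : TM) (xc : ℤ) (w pi : TM) (dist I M : ℤ)
    (k : ℤ → ℤ → Bool) : Bool :=
  smul c.sc xc fun x => rab x fun rx => leI rx (2 * one) &&
  hblT c w (-one) fun h1 => gapT c T H w pi h1 fun g1 =>
  hblT c x (-one) fun h2 => gapT c T H x pi h2 fun g2 =>
  sub w x fun d => rab d fun ln => aB a (minI g1 g2) ln (dist + ln) I M k

/-- kind `0`: through the imaginary axis; `1`: vertically with the majorant;
`2`: vertically with the monotonicity of `‖q + p e^w‖` -/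
def endP (c : Col) (a : Ac) (T H : TM) (up : Bool) (xc : ℤ) (kind : ℕ) : End := fun S k =>
  endPre c up S fun w φ pi ra pl L2 =>
  cond (Nat.beq kind 2)
    (leI 0 pl && sgT up w fun b => mul c.cg b fun b => lo b fun r =>
      aA a S.g r one S.dist S.I S.M fun I M => toCut c a T H xc w pi (S.dist + L2) I M k)
    (leI piU (2 * pl) && fI (cosU pl) fun cb => leI cb 0 && hblT c w cb fun hb =>
      gapT c T H w φ hb fun g1 =>
      cond (Nat.beq kind 1)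
        (gapT c T H w pi hb fun g2 => aB a (minI g1 g2) L2 (S.dist + L2) S.I S.M fun I M =>
          toCut c a T H xc w pi (S.dist + L2) I M k)
        (smul c.sg (cb - one) fun b => sub H b fun b => lo b fun g0 =>
          aB a (minI g1 g0) ra (S.dist + ra) S.I S.M fun I M =>
          aB a g0 L2 (S.dist + ra + L2) I M fun I M =>
          cst 0 0 fun o => toCut c a T H xc o pi (S.dist + ra + L2) I M k))

/-- kind `0`: vertical ray with the majorant at `cos = 1`; `1`: first monotonically to `±π` -/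
def endF (c : Col) (a : Ac) (T H : TM) (up : Bool) (kind : ℕ) : End := fun S k =>
  cond (Nat.beq kind 0)
    (rp S.cur fun w => ip S.cur fun φ => rab w fun ra => leI ra (2 * one) &&
      sgT up w fun b => mul c.cg b fun b => lo b fun r => hbeT c w fun hb =>
      gapT c T H w φ hb fun g => aA a g r one S.dist S.I S.M k)
    (endPre c up S fun w _ pi _ pl L2 => leI 0 pl &&
      sgT up w fun b => mul c.cg b fun b => lo b fun r =>
      aA a S.g r one S.dist S.I S.M fun I M => hbeT c w fun hb =>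
      gapT c T H w pi hb fun g => aA a g r one (S.dist + L2) I M k)

section

variable {c : Col} {x : Pt} {P : Par} {T H : TM} {T0 H0 : ℝ} {a : Ac}

/-- the sign of the end -/
def lendS (up : Bool) : ℝ := cond up 1 (-1)

theorem lend_sq (up : Bool) : lendS up * lendS up = 1 := by
  cases up <;> simp [lendS]

theorem lend_cos (up : Bool) (t : ℝ) : Real.cos (lendS up * t) = Real.cos t := by
  cases up <;> simp [lendS]

theorem lend_abs (up : Bool) : |lendS up| = 1 := by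
  cases up <;> simp [lendS]

theorem lend_sg {up : Bool} {b : TM} {t : ℝ} {k : TM → Bool} (h : sgT up b k = true)
    (hb : RepA x b t) : ∃ d, k d = true ∧ RepA x d (lendS up * t : ℝ) := by
  cases up
  · obtain ⟨d, h, h1⟩ := lend_neg h hb
    exact ⟨d, h, lend_c h1 (by simp [lendS])⟩
  · exact ⟨b, h, lend_c hb (by simp [lendS])⟩

/-- the decay rate along a vertical line -/
theorem lend_rate (hc : c.Ok x P) {up : Bool} {w : TM} {t : ℝ} {k : ℤ → Bool} (hw : RepA x w t)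
    (h : (sgT up w fun b => mul c.cg b fun b => lo b k) = true) :
    ∃ r, k r = true ∧ toR r ≤ P.cg * (lendS up * t) := by
  obtain ⟨b, h, h1⟩ := lend_sg h hw
  obtain ⟨b, h, h1⟩ := lend_mul h hc.cg h1
  exact lend_lo h (lend_c h1 (by push_cast; ring))

theorem lend_gap (hc : c.Ok x P) (hδ : 0 < P.δ) (hT : RepA x T T0) (hH : RepA x H H0)
    {w φ hb : TM} {w0 φ0 hb0 : ℝ} (hw : RepA x w w0) (hφ : RepA x φ φ0) (hh : RepA x hb hb0)
    {k : ℤ → Bool} (h : gapT c T H w φ hb k = true) : ∃ g, k g = true ∧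
      ∀ g', g' ≤ toR g → w0 * (T0 - φ0) / P.δ + P.s2 * hb0 ≤ P.L * H0 + -(P.L * g') := by
  obtain ⟨b, h, h1⟩ := lend_mul h hc.sg hh
  obtain ⟨b, h, h1⟩ := lend_sub h hH h1
  obtain ⟨d, h, h2⟩ := lend_sub h hT hφ
  obtain ⟨d, h, h2⟩ := lend_mul h hw h2
  obtain ⟨d, h, h2⟩ := lend_mul h hc.cg h2
  obtain ⟨b, h, h1⟩ := lend_sub h h1 h2
  obtain ⟨g, h, h3⟩ := lend_lo (t := H0 - P.sg * hb0 - P.cg * (w0 * (T0 - φ0))) h
    (lend_c h1 (by push_cast; ring))
  refine ⟨g, h, fun g' hg => ?_⟩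
  have h4 := mul_le_mul_of_nonneg_left (hg.trans h3) (P.L_pos hδ).le
  rw [div_eq_mul_one_div, ← P.L_cg hδ, ← P.L_sg hδ]
  linarith

theorem lend_pre (hc : c.Ok x P) {up : Bool} {S : St} {z : ℂ} (hS : RepA x S.cur z)
    {k : TM → TM → TM → ℤ → ℤ → ℤ → Bool} (h : endPre c up S k = true) :
    ∃ w φ pi ra pl L2, k w φ pi ra pl L2 = true ∧ RepA x w (z.re : ℝ) ∧ RepA x φ (z.im : ℝ) ∧
      RepA x pi (lendS up * Real.pi : ℝ) ∧ |z.re| ≤ toR ra ∧ toR ra ≤ 2 ∧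
      toR pl ≤ lendS up * z.im ∧ lendS up * z.im ≤ Real.pi ∧
      Real.pi - lendS up * z.im ≤ toR L2 := by
  obtain ⟨w, h, h1⟩ := lend_rp h hS
  obtain ⟨φ, h, h2⟩ := lend_ip h hS
  obtain ⟨ra, h, h3⟩ := lend_rab h h1
  rw [Bool.and_eq_true] at h
  obtain ⟨h4, h⟩ := h
  obtain ⟨ψ, h, h5⟩ := lend_sg h h2
  obtain ⟨ph, h, h6⟩ := lend_hi h h5
  obtain ⟨pl, h, h7⟩ := lend_lo h h5
  rw [Bool.and_eq_true] at h
  obtain ⟨h8, h⟩ := h
  obtain ⟨pi, h, h9⟩ := lend_sg h hc.pi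
  rw [fI_eq] at h
  refine ⟨w, φ, pi, ra, pl, _, h, h1, h2, h9, h3, lend_two h4, h7,
    h6.trans ((leI_ok h8).trans piD_ok), ?_⟩
  rw [toR_sub]
  linarith [piU_ok]

theorem lend_Bd (hδ : 0 < P.δ) (ha : a.Ok P.L) {E0 I M I' M' : ℝ} {zc : ℂ} {u v w : ℂ × ℂ}
    (h1 : Bd P.L E0 (a.W P.L) zc u v I M) (h2 : Bd P.L E0 (a.W P.L) zc v w (I' - I) (M' - M)) :
    Bd P.L E0 (a.W P.L) zc u w I' M' := by
  have h := h1.trans (wt_nonneg _ ha.1.le (P.L_pos hδ).le) h2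
  rwa [add_sub_cancel, add_sub_cancel] at h

/-- a segment with a uniform bound -/
theorem lend_seg (hδ : 0 < P.δ) (ha : a.Ok P.L) {g len dist n M : ℤ} {k : ℤ → ℤ → Bool}
    (h : aB a g len dist n M k = true) {zc z d z' : ℂ} {u0 : ℂ × ℂ}
    (hB : Bd P.L (Real.exp (P.L * H0)) (a.W P.L) zc u0 (P.V T0 z) (toR n) (toR M))
    (hE : ∀ s : ℝ, 0 ≤ s → s ≤ 1 → ‖P.E T0 (z + s * d)‖ ≤ Real.exp (P.L * H0 + -(P.L * toR g)))
    (hl : ‖d‖ ≤ toR len) (hd : ‖z - zc‖ + toR len ≤ toR dist) (e : z + d = z') :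
    ∃ I' M', k I' M' = true ∧ ‖z' - zc‖ ≤ toR dist ∧
      Bd P.L (Real.exp (P.L * H0)) (a.W P.L) zc u0 (P.V T0 z') (toR I') (toR M') := by
  obtain ⟨I', M', h, h1⟩ := aB_ok ha h
  have hd' : ∀ s : ℝ, 0 ≤ s → s ≤ 1 → ‖z + s * d - zc‖ ≤ toR dist := by
    intro s s0 s1
    have e1 : z + s * d - zc = (z - zc) + s * d := by ring
    have h2 := norm_add_le (z - zc) (s * d)
    rw [norm_mul, Complex.norm_real, Real.norm_eq_abs, abs_of_nonneg s0] at h2
    have h3 := mul_le_of_le_one_left (norm_nonneg d) s1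
    rw [e1]
    linarith
  subst e
  refine ⟨I', M', h, by simpa using hd' 1 zero_le_one le_rfl, lend_Bd hδ ha hB
    (h1 (gP P.N (1 - P.p) P.p (P.β T0) hδ) _ zc z d (Real.exp_pos _).le
      (fun s s0 s1 => ⟨?_, hd' s s0 s1⟩) hl)⟩
  rw [← Real.exp_add]
  exact hE s s0 s1

/-- a horizontal segment -/
theorem lend_hor (hδ : 0 < P.δ) (ha : a.Ok P.L) {g len dist n M : ℤ} {k : ℤ → ℤ → Bool}
    (h : aB a g len dist n M k = true) {zc : ℂ} {u0 : ℂ × ℂ} {a1 a2 φ cc : ℝ}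
    (hB : Bd P.L (Real.exp (P.L * H0)) (a.W P.L) zc u0 (P.V T0 (a1 + φ * I)) (toR n) (toR M))
    (h1 : |a1| ≤ 2) (h2 : |a2| ≤ 2) (h3 : Real.cos φ ≤ cc) (h4 : cc ≤ 0)
    (h5 : a1 * (T0 - φ) / P.δ + P.s2 * HBl P.p a1 cc ≤ P.L * H0 + -(P.L * toR g))
    (h6 : a2 * (T0 - φ) / P.δ + P.s2 * HBl P.p a2 cc ≤ P.L * H0 + -(P.L * toR g))
    (hl : |a1 - a2| ≤ toR len) (hd : ‖a1 + φ * I - zc‖ + toR len ≤ toR dist) :
    ∃ I' M', k I' M' = true ∧ ‖a2 + φ * I - zc‖ ≤ toR dist ∧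
      Bd P.L (Real.exp (P.L * H0)) (a.W P.L) zc u0 (P.V T0 (a2 + φ * I)) (toR I') (toR M') := by
  refine lend_seg hδ ha h hB (P.hb_hor hδ T0 h1 h2 h3 h4 h5 h6) ?_ hd (by push_cast; ring)
  rwa [Complex.norm_real, Real.norm_eq_abs, abs_sub_comm]

/-- a vertical segment up to the height `±π`, with the majorant -/
theorem lend_ver (hδ : 0 < P.δ) (ha : a.Ok P.L) {g len dist n M : ℤ} {k : ℤ → ℤ → Bool}
    (h : aB a g len dist n M k = true) {zc : ℂ} {u0 : ℂ × ℂ} {up : Bool} {a1 φ pl cc : ℝ}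
    (hB : Bd P.L (Real.exp (P.L * H0)) (a.W P.L) zc u0 (P.V T0 (a1 + φ * I)) (toR n) (toR M))
    (h1 : |a1| ≤ 2) (h0 : 0 ≤ pl) (h2 : pl ≤ lendS up * φ) (h2' : lendS up * φ ≤ Real.pi)
    (h3 : Real.cos pl ≤ cc) (h4 : cc ≤ 0)
    (h5 : a1 * (T0 - φ) / P.δ + P.s2 * HBl P.p a1 cc ≤ P.L * H0 + -(P.L * toR g))
    (h6 : a1 * (T0 - lendS up * Real.pi) / P.δ + P.s2 * HBl P.p a1 cc ≤
      P.L * H0 + -(P.L * toR g))
    (hl : Real.pi - lendS up * φ ≤ toR len) (hd : ‖a1 + φ * I - zc‖ + toR len ≤ toR dist) :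
    ∃ I' M', k I' M' = true ∧ ‖a1 + (lendS up * Real.pi : ℝ) * I - zc‖ ≤ toR dist ∧
      Bd P.L (Real.exp (P.L * H0)) (a.W P.L) zc u0 (P.V T0 (a1 + (lendS up * Real.pi : ℝ) * I))
        (toR I') (toR M') := by
  have hs := lend_sq up
  refine lend_seg hδ ha h hB (P.hb_ver hδ T0 h1 (fun s s0 s1 => le_trans ?_ h3) h4 h5 h6) ?_ hd
    (by push_cast; ring)
  · have e : lendS up * (φ + s * (lendS up * Real.pi - φ)) =
        lendS up * φ + s * (Real.pi - lendS up * φ) := by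
      linear_combination s * Real.pi * hs
    have k1 := mul_nonneg s0 (sub_nonneg.2 h2')
    have k2 := mul_le_of_le_one_left (sub_nonneg.2 h2') s1
    rw [← lend_cos up, e]
    exact Real.cos_le_cos_of_nonneg_of_le_pi h0 (by linarith) (by linarith)
  · have e : lendS up * Real.pi - φ = lendS up * (Real.pi - lendS up * φ) := by
      linear_combination φ * hs
    rwa [norm_mul, Complex.norm_I, mul_one, Complex.norm_real, Real.norm_eq_abs, e, abs_mul,
      lend_abs, one_mul, abs_of_nonneg (sub_nonneg.2 h2')]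

theorem lend_norm_e (up : Bool) : ‖(lendS up : ℂ) * I‖ = 1 := by
  rw [norm_mul, Complex.norm_I, mul_one, Complex.norm_real, Real.norm_eq_abs, lend_abs]

/-- a vertical segment up to the height `±π`, by monotonicity -/
theorem lend_mono (hδ : 0 < P.δ) (ha : a.Ok P.L) {g r dist n M : ℤ} {k : ℤ → ℤ → Bool}
    (h : aA a g r one dist n M k = true) {zc : ℂ} {u0 : ℂ × ℂ} {up : Bool} {a1 φ len : ℝ}
    (hB : Bd P.L (Real.exp (P.L * H0)) (a.W P.L) zc u0 (P.V T0 (a1 + φ * I)) (toR n) (toR M))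
    (hg : ‖P.E T0 (a1 + φ * I)‖ ≤ Real.exp (P.L * H0) * Real.exp (-(P.L * toR g)))
    (hr : toR r ≤ P.cg * (lendS up * a1)) (h2 : 0 ≤ lendS up * φ) (h2' : lendS up * φ ≤ Real.pi)
    (hl : Real.pi - lendS up * φ ≤ len) (hd : ‖a1 + φ * I - zc‖ ≤ toR dist) :
    ∃ I' M', k I' M' = true ∧ ‖a1 + (lendS up * Real.pi : ℝ) * I - zc‖ ≤ toR dist + len ∧
      Bd P.L (Real.exp (P.L * H0)) (a.W P.L) zc u0 (P.V T0 (a1 + (lendS up * Real.pi : ℝ) * I))
        (toR I') (toR M') := by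
  have hs := lend_sq up
  have hs' : (lendS up : ℂ) * lendS up = 1 := by exact_mod_cast hs
  obtain ⟨I', M', h, h1, -⟩ := aA_ray ha h
  have e : (a1 : ℂ) + (lendS up * Real.pi : ℝ) * I =
      a1 + φ * I + (Real.pi - lendS up * φ : ℝ) * (lendS up * I) := by
    push_cast
    linear_combination φ * I * hs'
  rw [e]
  refine ⟨I', M', h, ?_, lend_Bd hδ ha hB (h1 (gP P.N (1 - P.p) P.p (P.β T0) hδ) _ _ zc _ _
    (Real.exp_pos _).le (lend_norm_e up) (sub_nonneg.2 h2') (fun s s0 s1 => ?_) hd)⟩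
  · have h3 := norm_add_le (a1 + φ * I - zc) ((Real.pi - lendS up * φ : ℝ) * (lendS up * I))
    rw [norm_mul, lend_norm_e, mul_one, Complex.norm_real, Real.norm_eq_abs,
      abs_of_nonneg (sub_nonneg.2 h2')] at h3
    rw [add_sub_right_comm]
    linarith
  · have e1 : (a1 : ℂ) + φ * I + s * (lendS up * I) = a1 + (φ + lendS up * s : ℝ) * I := by
      push_cast
      ring
    have e2 : lendS up * (φ + lendS up * s) = lendS up * φ + s := by
      linear_combination s * hs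
    have h3 : Real.cos (φ + lendS up * s) ≤ Real.cos φ := by
      rw [← lend_cos up, e2, ← lend_cos up φ]
      exact Real.cos_le_cos_of_nonneg_of_le_pi h2 (by linarith) (by linarith)
    have h4 : a1 * (φ - (φ + lendS up * s)) / P.δ ≤ -(P.L * (toR r * s)) := by
      have h5 := mul_le_mul_of_nonneg_left (mul_le_mul_of_nonneg_right hr s0) (P.L_pos hδ).le
      rw [div_eq_mul_one_div, ← P.L_cg hδ]
      linarith
    change ‖P.E T0 _‖ ≤ _
    rw [e1, mul_add, neg_add, Real.exp_add, ← mul_assoc]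
    exact (P.E_cos hδ T0 a1 h3).trans
      (mul_le_mul hg (Real.exp_le_exp.2 h4) (Real.exp_pos _).le (by positivity))

/-- a vertical ray -/
theorem lend_ray (hδ : 0 < P.δ) (ha : a.Ok P.L) {g r dist n M : ℤ} {k : ℤ → ℤ → Bool}
    (h : aA a g r one dist n M k = true) {zc : ℂ} {u0 : ℂ × ℂ} {up : Bool} {a1 φ : ℝ}
    (hB : Bd P.L (Real.exp (P.L * H0)) (a.W P.L) zc u0 (P.V T0 (a1 + φ * I)) (toR n) (toR M))
    (h1 : |a1| ≤ 2) (hg : a1 * (T0 - φ) / P.δ + P.s2 * HBe P.p a1 1 ≤ P.L * H0 + -(P.L * toR g))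
    (hr : toR r ≤ P.cg * (lendS up * a1)) (hd : ‖a1 + φ * I - zc‖ ≤ toR dist) :
    ∃ I' M', k I' M' = true ∧ Bd P.L (Real.exp (P.L * H0)) (a.W P.L) zc u0
      (if up then P.Vtop T0 else (0, 0)) (toR I') (toR M') := by
  obtain ⟨-, -, -, hr0, -⟩ := acc_A ha h
  have hpos : 0 < lendS up * a1 := (pos_iff_pos_of_mul_pos (hr0.trans_le hr)).1 P.cg_pos
  obtain ⟨I', M', h, -, h2⟩ := aA_ray ha h
  refine ⟨I', M', h, lend_Bd hδ ha hB (h2 (gP P.N (1 - P.p) P.p (P.β T0) hδ) _ zc _ _ _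
    (Real.exp_pos _).le (lend_norm_e up) (fun s s0 => ?_) ?_ hd)⟩
  · have e1 : (a1 : ℂ) + φ * I + s * (lendS up * I) = a1 + (φ + lendS up * s : ℝ) * I := by
      push_cast
      ring
    have h3 := mul_le_mul_of_nonneg_left (HBe_mono P.p a1 (Real.cos_le_one (φ + lendS up * s)))
      P.par_s2_pos.le
    have h5 := mul_le_mul_of_nonneg_left (mul_le_mul_of_nonneg_right hr s0) (P.L_pos hδ).le
    change ‖P.E T0 _‖ ≤ _
    rw [e1, ← Real.exp_add]
    refine (P.E_le hδ T0 _ h1).trans (Real.exp_le_exp.2 ?_)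
    rw [div_eq_mul_one_div, ← P.L_cg hδ] at hg ⊢
    linarith
  · have hβ : (P.β T0).im = 0 := Complex.ofReal_im _
    have hre : ((a1 : ℂ) + φ * I).re = a1 := by simp
    cases up
    · have h3 := lim_down P.N (1 - P.p) P.p (P.β T0) hδ (a1 + φ * I) (by
        rw [hβ, hre, add_zero]
        refine div_neg_of_neg_of_pos ?_ hδ
        simpa [lendS] using hpos)
      refine h3.congr fun s => ?_
      have e : (a1 : ℂ) + φ * I + s * (lendS false * I) = a1 + φ * I - s * I := by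
        simp [lendS, sub_eq_add_neg]
      rw [e]
      rfl
    · have h3 := lim_up P.N (1 - P.p) P.p (P.β T0) hδ (a1 + φ * I) (by
        rw [hβ, hre, add_zero]
        refine div_pos ?_ hδ
        simpa [lendS] using hpos)
      refine h3.congr fun s => ?_
      have e : (a1 : ℂ) + φ * I + s * (lendS true * I) = a1 + φ * I + s * I := by
        simp [lendS]
      rw [e]
      rfl

theorem lend_cut (hc : c.Ok x P) (hδ : 0 < P.δ) (ha : a.Ok P.L) (hT : RepA x T T0)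
    (hH : RepA x H H0) {up : Bool} {xc dist n M : ℤ} {w pi : TM} {k : ℤ → ℤ → Bool}
    (h : toCut c a T H xc w pi dist n M k = true) {a1 : ℝ} (hw : RepA x w a1) (h1 : |a1| ≤ 2)
    (hpi : RepA x pi (lendS up * Real.pi : ℝ)) {zc : ℂ} {u0 : ℂ × ℂ}
    (hd : ‖a1 + (lendS up * Real.pi : ℝ) * I - zc‖ ≤ toR dist)
    (hB : Bd P.L (Real.exp (P.L * H0)) (a.W P.L) zc u0
      (P.V T0 (a1 + (lendS up * Real.pi : ℝ) * I)) (toR n) (toR M)) :
    ∃ I' M', k I' M' = true ∧ Bd P.L (Real.exp (P.L * H0)) (a.W P.L) zc u0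
      (P.V T0 (if up then P.cutU (toR xc) else P.cutD (toR xc))) (toR I') (toR M') := by
  obtain ⟨y, h, h2⟩ := lend_smul h hc.sc
  replace h2 : RepA x y (toR xc * P.sc : ℝ) := lend_c h2 (by push_cast; ring)
  obtain ⟨ry, h, h3⟩ := lend_rab h h2
  rw [Bool.and_eq_true] at h
  obtain ⟨h4, h⟩ := h
  obtain ⟨b1, h, h5⟩ := hblT_ok hc hw h
  obtain ⟨g1, h, h6⟩ := lend_gap hc hδ hT hH hw hpi h5 h
  obtain ⟨b2, h, h7⟩ := hblT_ok hc h2 h
  obtain ⟨g2, h, h8⟩ := lend_gap hc hδ hT hH h2 hpi h7 h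
  obtain ⟨d, h, h9⟩ := lend_sub h hw h2
  obtain ⟨ln, h, h10⟩ := lend_rab (t := a1 - toR xc * P.sc) h (lend_c h9 (by push_cast; ring))
  obtain ⟨I', M', h, -, h11⟩ := lend_hor hδ ha h hB h1 (h3.trans (lend_two h4))
    (by rw [lend_cos, Real.cos_pi, toR_neg, toR_one]) (by rw [toR_neg, toR_one]; norm_num)
    (h6 _ (by rw [toR_minI]; exact min_le_left _ _))
    (h8 _ (by rw [toR_minI]; exact min_le_right _ _)) h10 (by rw [toR_add]; linarith)
  refine ⟨I', M', h, ?_⟩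
  have e : (if up then P.cutU (toR xc) else P.cutD (toR xc)) =
      (toR xc * P.sc : ℝ) + (lendS up * Real.pi : ℝ) * I := by
    cases up <;> simp [Par.cutU, Par.cutD, lendS, sub_eq_add_neg]
  rwa [e]

theorem endP_ok (hc : c.Ok x P) (hδ : 0 < P.δ) (ha : a.Ok P.L) (hT : RepA x T T0)
    (hH : RepA x H H0) (up : Bool) (xc : ℤ) (kind : ℕ) (zc : ℂ) :
    End.Ok (endP c a T H up xc kind) x (P.jet hδ T0) a (Real.exp (P.L * H0)) zc
      (P.V T0 (if up then P.cutU (toR xc) else P.cutD (toR xc))) := by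
  intro S k u0 z hS h
  obtain ⟨w, φ, pi, ra, pl, L2, h, hw, hφ, hpi, h1, h2, h3, h4, h5⟩ := lend_pre hc hS.hc h
  have hB : Bd P.L (Real.exp (P.L * H0)) (a.W P.L) zc u0 (P.V T0 (z.re + z.im * I)) (toR S.I)
      (toR S.M) := by
    rw [re_add_im]
    exact hS.hB
  have hd : ‖z.re + z.im * I - zc‖ ≤ toR S.dist := by
    rw [re_add_im]
    exact hS.hd
  cases hk : Nat.beq kind 2 <;> rw [hk] at h
  · simp only [cond_false, fI_eq, Bool.and_eq_true] at h
    obtain ⟨k1, k2, h⟩ := h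
    replace k1 := leI_ok k1
    replace k2 := leI_ok k2
    rw [toR_intmul] at k1
    rw [toR_zero] at k2
    have k0 : 0 ≤ toR pl := by
      have := piU_ok
      have := Real.pi_pos
      push_cast at k1
      linarith
    obtain ⟨hb, h, k3⟩ := hblT_ok hc hw h
    obtain ⟨g1, h, k4⟩ := lend_gap hc hδ hT hH hw hφ k3 h
    cases hk' : Nat.beq kind 1 <;> rw [hk'] at h
    · obtain ⟨b, h, k5⟩ := lend_smul h hc.sg
      obtain ⟨b, h, k5⟩ := lend_sub h hH k5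
      obtain ⟨g0, h, k6⟩ := lend_lo (t := H0 - P.sg * (toR (cosU pl) - 1)) h
        (lend_c k5 (by rw [toR_sub, toR_one]; push_cast; ring))
      have k7 : ∀ ψ g', g' ≤ toR g0 → 0 * (T0 - ψ) / P.δ + P.s2 * HBl P.p 0 (toR (cosU pl)) ≤
          P.L * H0 + -(P.L * g') := by
        intro ψ g' hg
        have k8 := mul_le_mul_of_nonneg_left (hg.trans k6) (P.L_pos hδ).le
        have e : HBl P.p 0 (toR (cosU pl)) = toR (cosU pl) - 1 := by simp [HBl, Rq]
        rw [e, ← P.L_sg hδ, zero_mul, zero_div]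
        linarith
      have k9 : |(0 : ℝ)| ≤ 2 := by simp
      obtain ⟨I1, M1, h, d1, b1⟩ := lend_hor hδ ha h hB (h1.trans h2) k9
        (by
          rw [← lend_cos up]
          exact (Real.cos_le_cos_of_nonneg_of_le_pi k0 h4 h3).trans (cosU_ok pl)) k2
        (k4 _ (by rw [toR_minI]; exact min_le_left _ _))
        (k7 _ _ (by rw [toR_minI]; exact min_le_right _ _)) (by rwa [sub_zero])
        (by rw [toR_add]; linarith)
      obtain ⟨I2, M2, h, d2, b2⟩ := lend_ver hδ ha h b1 k9 k0 h3 h4 (cosU_ok pl) k2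
        (k7 _ _ le_rfl) (k7 _ _ le_rfl) h5 (by rw [toR_add _ L2]; linarith)
      obtain ⟨o, h, k10⟩ := TM.cst_ok h
      exact lend_cut hc hδ ha hT hH h (fun y hy => by simpa [lend_toC, toR_zero] using k10 _) k9
        hpi d2 b2
    · obtain ⟨g2, h, k5⟩ := lend_gap hc hδ hT hH hw hpi k3 h
      obtain ⟨I1, M1, h, d1, b1⟩ := lend_ver hδ ha h hB (h1.trans h2) k0 h3 h4 (cosU_ok pl) k2
        (k4 _ (by rw [toR_minI]; exact min_le_left _ _))
        (k5 _ (by rw [toR_minI]; exact min_le_right _ _)) h5 (by rw [toR_add]; linarith)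
      exact lend_cut hc hδ ha hT hH h hw (h1.trans h2) hpi d1 b1
  · simp only [cond_true, Bool.and_eq_true] at h
    obtain ⟨k1, h⟩ := h
    replace k1 := leI_ok k1
    rw [toR_zero] at k1
    obtain ⟨r, h, k2⟩ := lend_rate hc hw h
    obtain ⟨I1, M1, h, d1, b1⟩ := lend_mono hδ ha h hB (by rw [re_add_im]; exact hS.hg) k2
      (k1.trans h3) h4 h5 hd
    exact lend_cut hc hδ ha hT hH h hw (h1.trans h2) hpi (by rwa [toR_add]) b1

theorem endF_ok (hc : c.Ok x P) (hδ : 0 < P.δ) (ha : a.Ok P.L) (hT : RepA x T T0)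
    (hH : RepA x H H0) (up : Bool) (kind : ℕ) (zc : ℂ) :
    End.Ok (endF c a T H up kind) x (P.jet hδ T0) a (Real.exp (P.L * H0)) zc
      (if up then P.Vtop T0 else (0, 0)) := by
  intro S k u0 z hS h
  have hB : Bd P.L (Real.exp (P.L * H0)) (a.W P.L) zc u0 (P.V T0 (z.re + z.im * I)) (toR S.I)
      (toR S.M) := by
    rw [re_add_im]
    exact hS.hB
  have hd : ‖z.re + z.im * I - zc‖ ≤ toR S.dist := by
    rw [re_add_im]
    exact hS.hd
  unfold endF at h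
  cases hk : Nat.beq kind 0 <;> rw [hk] at h
  · obtain ⟨w, φ, pi, ra, pl, L2, h, hw, -, hpi, h1, h2, h3, h4, h5⟩ := lend_pre hc hS.hc h
    rw [Bool.and_eq_true] at h
    obtain ⟨k1, h⟩ := h
    replace k1 := leI_ok k1
    rw [toR_zero] at k1
    obtain ⟨r, h, k2⟩ := lend_rate hc hw h
    obtain ⟨I1, M1, h, d1, b1⟩ := lend_mono hδ ha h hB (by rw [re_add_im]; exact hS.hg) k2
      (k1.trans h3) h4 h5 hd
    obtain ⟨hb, h, k3⟩ := hbeT_ok hc hw h
    obtain ⟨g, h, k4⟩ := lend_gap hc hδ hT hH hw hpi k3 h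
    exact lend_ray hδ ha h b1 (h1.trans h2) (k4 _ le_rfl) k2 (by rwa [toR_add])
  · rw [cond_true] at h
    obtain ⟨w, h, hw⟩ := lend_rp h hS.hc
    obtain ⟨φ, h, hφ⟩ := lend_ip h hS.hc
    obtain ⟨ra, h, h1⟩ := lend_rab h hw
    rw [Bool.and_eq_true] at h
    obtain ⟨h2, h⟩ := h
    obtain ⟨r, h, k2⟩ := lend_rate hc hw h
    obtain ⟨hb, h, k3⟩ := hbeT_ok hc hw h
    obtain ⟨g, h, k4⟩ := lend_gap hc hδ hT hH hw hφ k3 h
    exact lend_ray hδ ha h hB (h1.trans (lend_two h2)) (k4 _ le_rfl) k2 hd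

end

end Pool.Agent.Sok
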