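import Mathlib

/-! Uniqueness of the zero of a theta like series dominated by two terms. -/

set_option autoImplicit false

namespace Pool.Agent.Sok

open Filter Topology Finset

/-- `∑_{j ≥ 0} aU j u^(-j) + ∑_{j ≥ 0} aL j u^(j+1) = 0` along a sequence of truncations -/
def Sol (aU aL : ℕ → ℂ) (u : ℂ) : Prop :=
  ∃ φ ψ : ℕ → ℕ, Tendsto φ atTop atTop ∧ Tendsto ψ atTop atTop ∧
    Tendsto (fun n => ∑ j ∈ range (φ n), aU j * u⁻¹ ^ j + ∑ j ∈ range (ψ n), aL j * u ^ (j + 1))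
      atTop (𝓝 0)

theorem ul_sol {aU aL : ℕ → ℂ} {u : ℂ} (hu : ‖u‖ = 1) (hU : Summable fun j => ‖aU (j + 1)‖)
    (hL : Summable fun j => ‖aL (j + 1)‖) (hs : Sol aU aL u) :
    Tendsto (fun n => aU 0 + aL 0 * u + (∑ j ∈ range n, aU (j + 1) * u⁻¹ ^ (j + 1) +
      ∑ j ∈ range n, aL (j + 1) * u ^ (j + 2))) atTop (𝓝 0) := by
  obtain ⟨φ, ψ, hφ, hψ, h⟩ := hs
  have sU : Summable fun j => aU j * u⁻¹ ^ j := Summable.of_norm (by
    simp only [norm_mul, norm_pow, norm_inv, hu, inv_one, one_pow, mul_one]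
    exact (summable_nat_add_iff 1).mp hU)
  have sL : Summable fun j => aL j * u ^ (j + 1) := Summable.of_norm (by
    simp only [norm_mul, norm_pow, hu, one_pow, mul_one]
    exact (summable_nat_add_iff 1).mp hL)
  have tU := sU.hasSum.tendsto_sum_nat
  have tL := sL.hasSum.tendsto_sum_nat
  have e := tendsto_nhds_unique ((tU.comp hφ).add (tL.comp hψ)) h
  have t := (tU.add tL).comp (tendsto_add_atTop_nat 1)
  rw [e] at t
  refine t.congr fun n => ?_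
  simp only [Function.comp, sum_range_succ', pow_zero, mul_one, zero_add, pow_one]
  ring

theorem ul_tail (aU aL : ℕ → ℂ) {u : ℂ} (hu : ‖u‖ = 1) (n : ℕ) :
    ‖∑ j ∈ range n, aU (j + 1) * u⁻¹ ^ (j + 1) + ∑ j ∈ range n, aL (j + 1) * u ^ (j + 2)‖ ≤
      ∑ j ∈ range n, ‖aU (j + 1)‖ + ∑ j ∈ range n, ‖aL (j + 1)‖ := by
  refine (norm_add_le _ _).trans (add_le_add ((norm_sum_le _ _).trans_eq ?_)
    ((norm_sum_le _ _).trans_eq ?_))
  · simp only [norm_mul, norm_pow, norm_inv, hu, inv_one, one_pow, mul_one]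
  · simp only [norm_mul, norm_pow, hu, one_pow, mul_one]

theorem ul_nn (a : ℕ → ℂ) (n : ℕ) : 0 ≤ ∑ j ∈ range n, ‖a j‖ :=
  sum_nonneg fun _ _ => norm_nonneg _

theorem dom_upper {aU aL : ℕ → ℂ} {u : ℂ} (hu : ‖u‖ = 1) {v : ℝ} (hv : v < 1) (h0 : aU 0 ≠ 0)
    (h : ∀ n, ∑ j ∈ range n, ‖aU (j + 1)‖ + ∑ j ∈ range n, ‖aL j‖ ≤ v * ‖aU 0‖) :
    ¬ Sol aU aL u := by
  intro hs
  have t := (ul_sol hu (summable_of_sum_range_le (fun _ => norm_nonneg _) fun n =>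
      (le_add_of_nonneg_right (ul_nn aL n)).trans (h n))
    ((summable_nat_add_iff 1).mpr (summable_of_sum_range_le (fun _ => norm_nonneg _) fun n =>
      (le_add_of_nonneg_left (ul_nn (fun j => aU (j + 1)) n)).trans (h n))) hs).norm
  have hp := norm_pos_iff.mpr h0
  have := ge_of_tendsto' (b := (1 - v) * ‖aU 0‖) t fun n => by
    have a1 := ul_tail aU aL hu n
    have a2 := h (n + 1)
    rw [sum_range_succ, sum_range_succ' fun j => ‖aL j‖] at a2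
    generalize ∑ j ∈ range n, aU (j + 1) * u⁻¹ ^ (j + 1) +
      ∑ j ∈ range n, aL (j + 1) * u ^ (j + 2) = T at a1 ⊢
    have a3 := norm_sub_le (aU 0 + aL 0 * u + T) (aL 0 * u + T)
    have a4 := norm_add_le (aL 0 * u) T
    rw [norm_mul, hu] at a4
    rw [show aU 0 + aL 0 * u + T - (aL 0 * u + T) = aU 0 by ring] at a3
    linarith [norm_nonneg (aU (n + 1))]
  rw [norm_zero] at this
  nlinarith

theorem dom_lower {aU aL : ℕ → ℂ} {u : ℂ} (hu : ‖u‖ = 1) {v : ℝ} (hv : v < 1) (h0 : aL 0 ≠ 0)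
    (h : ∀ n, ∑ j ∈ range n, ‖aU j‖ + ∑ j ∈ range n, ‖aL (j + 1)‖ ≤ v * ‖aL 0‖) :
    ¬ Sol aU aL u := by
  intro hs
  have t := (ul_sol hu
    ((summable_nat_add_iff 1).mpr (summable_of_sum_range_le (fun _ => norm_nonneg _) fun n =>
      (le_add_of_nonneg_right (ul_nn (fun j => aL (j + 1)) n)).trans (h n)))
    (summable_of_sum_range_le (fun _ => norm_nonneg _) fun n =>
      (le_add_of_nonneg_left (ul_nn aU n)).trans (h n)) hs).norm
  have hp := norm_pos_iff.mpr h0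
  have := ge_of_tendsto' (b := (1 - v) * ‖aL 0‖) t fun n => by
    have a1 := ul_tail aU aL hu n
    have a2 := h (n + 1)
    rw [sum_range_succ' fun j => ‖aU j‖, sum_range_succ] at a2
    generalize ∑ j ∈ range n, aU (j + 1) * u⁻¹ ^ (j + 1) +
      ∑ j ∈ range n, aL (j + 1) * u ^ (j + 2) = T at a1 ⊢
    have a3 := norm_sub_le (aU 0 + aL 0 * u + T) (aU 0 + T)
    have a4 := norm_add_le (aU 0) T
    rw [show aU 0 + aL 0 * u + T - (aU 0 + T) = aL 0 * u by ring, norm_mul, hu] at a3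
    linarith [norm_nonneg (aL (n + 1))]
  rw [norm_zero] at this
  nlinarith

/-- The data at one value of the parameter: `aU j, aL j` are the terms, `nU j, nL j` the
derivatives minus an affine reference, divided by the normalising constant. -/
structure UAt (aU aL nU nL : ℕ → ℂ) (B g0 K1 K2 : ℝ) (dr : ℂ) : Prop where
  h0 : aU 0 ≠ 0
  h1 : aL 0 ≠ 0
  hg : g0 ≤ (nL 0 / aL 0 - nU 0 / aU 0 + dr).re
  hB : ∀ n, ∑ j ∈ range n, ‖aU (j + 1)‖ / ‖aU 0‖ + ∑ j ∈ range n, ‖aL (j + 1)‖ / ‖aL 0‖ ≤ B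
  hK : 1 - B ≤ ‖aL 0‖ / ‖aU 0‖ → ‖aL 0‖ / ‖aU 0‖ ≤ 1 / (1 - B) → ∀ n,
    (∑ j ∈ range n, (j + 2) * (1 / (1 - B / (1 - B))) *
        (‖aL 0‖ / ‖aU 0‖ * (1 / (1 - B / (1 - B)))) ^ (j + 1) * (‖aU (j + 1)‖ / ‖aU 0‖) +
      ∑ j ∈ range n, (j + 2) * (1 / (1 - B / (1 - B))) *
        (‖aU 0‖ / ‖aL 0‖ * (1 / (1 - B / (1 - B)))) ^ (j + 1) * (‖aL (j + 1)‖ / ‖aL 0‖) ≤ K1) ∧
    (∑ j ∈ range n, (1 / (1 - B / (1 - B))) *
        (‖aL 0‖ / ‖aU 0‖ * (1 / (1 - B / (1 - B)))) ^ (j + 1) *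
        ((‖nU (j + 1)‖ + ((j + 2) * (‖nU 0‖ / ‖aU 0‖) + (j + 1) * (‖nL 0‖ / ‖aL 0‖)) *
          ‖aU (j + 1)‖) / ‖aU 0‖) +
      ∑ j ∈ range n, (1 / (1 - B / (1 - B))) *
        (‖aU 0‖ / ‖aL 0‖ * (1 / (1 - B / (1 - B)))) ^ (j + 1) *
        ((‖nL (j + 1)‖ + ((j + 2) * (‖nL 0‖ / ‖aL 0‖) + (j + 1) * (‖nU 0‖ / ‖aU 0‖)) *
          ‖aL (j + 1)‖) / ‖aL 0‖) ≤ K2)

theorem ul_log {f : ℝ → ℂ} {f' : ℂ} {t : ℝ} (hf : HasDerivAt f f' t) (h0 : f t ≠ 0) :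
    HasDerivAt (fun s => Real.log ‖f s‖) (f' / f t).re t := by
  have h1 := (hf.norm_sq.log (pow_ne_zero 2 (norm_ne_zero_iff.mpr h0))).div_const 2
  simp only [Real.log_pow, Nat.cast_ofNat, mul_div_cancel_left₀ _ (two_ne_zero (α := ℝ))] at h1
  refine h1.congr_deriv ?_
  rw [Complex.inner, Complex.div_re, Complex.normSq_eq_norm_sq]
  simp only [Complex.mul_re, Complex.conj_re, Complex.conj_im]
  ring

theorem ul_grow {l l' : ℝ → ℝ} {a b c s t : ℝ} (h : ∀ x, a ≤ x → x ≤ b → HasDerivAt l (l' x) x)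
    (hc : ∀ x, a ≤ x → x ≤ b → c ≤ l' x) (h1 : a ≤ s) (h2 : s ≤ t) (h3 : t ≤ b) :
    c * (t - s) ≤ l t - l s :=
  (convex_Icc a b).mul_sub_le_image_sub_of_le_deriv
    (fun x hx => (h x hx.1 hx.2).continuousAt.continuousWithinAt)
    (fun x hx => (h x (interior_subset hx).1
      (interior_subset hx).2).differentiableAt.differentiableWithinAt)
    (fun x hx => by
      rw [(h x (interior_subset hx).1 (interior_subset hx).2).deriv]
      exact hc x (interior_subset hx).1 (interior_subset hx).2)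
    s ⟨h1, h2.trans h3⟩ t ⟨h1.trans h2, h3⟩ h2

theorem ul_pow {x y : ℂ} {M : ℝ} (hx : ‖x‖ ≤ M) (hy : ‖y‖ ≤ M) (m : ℕ) :
    ‖x ^ (m + 1) - y ^ (m + 1)‖ ≤ (m + 1) * M ^ m * ‖x - y‖ := by
  have hM := (norm_nonneg _).trans hx
  induction m with
  | zero => simp
  | succ m ih =>
    rw [show x ^ (m + 1 + 1) - y ^ (m + 1 + 1) =
      x * (x ^ (m + 1) - y ^ (m + 1)) + y ^ (m + 1) * (x - y) by ring]
    refine (norm_add_le _ _).trans ?_
    rw [norm_mul, norm_mul, norm_pow]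
    refine (add_le_add (mul_le_mul hx ih (norm_nonneg _) hM) (mul_le_mul_of_nonneg_right
      (pow_le_pow_left₀ (norm_nonneg _) hy _) (norm_nonneg _))).trans_eq ?_
    push_cast
    ring

/-- one normalised coefficient -/
noncomputable def ulC (f a b : ℂ) (j : ℕ) : ℂ := f / a * (-b / a) ^ (j + 1)

theorem ul_normC (f a b : ℂ) (j : ℕ) : ‖ulC f a b j‖ = ‖f‖ / ‖a‖ * (‖b‖ / ‖a‖) ^ (j + 1) := by
  rw [ulC, norm_mul, norm_pow, norm_div, norm_div, norm_neg]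

theorem ul_coef {f a b : ℝ → ℂ} {nf na nb pf pa pb ν : ℂ} {t : ℝ} (j : ℕ) (ha0 : a t ≠ 0)
    (hb0 : b t ≠ 0) (hf : HasDerivAt f (ν * (nf + pf * f t)) t)
    (ha : HasDerivAt a (ν * (na + pa * a t)) t) (hb : HasDerivAt b (ν * (nb + pb * b t)) t)
    (hp : pf = (j + 2) * pa - (j + 1) * pb) :
    HasDerivAt (fun s => ulC (f s) (a s) (b s) j)
      (ν * ulC (nf + ((j + 1) * (nb / b t) - (j + 2) * (na / a t)) * f t) (a t) (b t) j) t := by
  refine ((hf.fun_div ha ha0).fun_mul ((hb.fun_neg.fun_div ha ha0).fun_pow (j + 1))).congr_deriv ?_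
  rw [ulC, hp, Nat.add_sub_cancel, pow_succ (-b t / a t)]
  generalize (-b t / a t) ^ j = P
  push_cast
  field_simp
  ring

theorem ul_coef_le {nf na nb f a b w : ℂ} {Q : ℝ} (j : ℕ) (hw : ‖w‖ ≤ Q * Q ^ (j + 1)) :
    ‖ulC (nf + ((j + 1) * (nb / b) - (j + 2) * (na / a)) * f) a b j * w‖ ≤
      Q * (‖b‖ / ‖a‖ * Q) ^ (j + 1) *
        ((‖nf‖ + ((j + 2) * (‖na‖ / ‖a‖) + (j + 1) * (‖nb‖ / ‖b‖)) * ‖f‖) / ‖a‖) := by
  have h1 : ‖nf + ((j + 1) * (nb / b) - (j + 2) * (na / a)) * f‖ ≤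
      ‖nf‖ + ((j + 2) * (‖na‖ / ‖a‖) + (j + 1) * (‖nb‖ / ‖b‖)) * ‖f‖ := by
    refine (norm_add_le _ _).trans (add_le_add le_rfl ?_)
    rw [norm_mul]
    refine mul_le_mul_of_nonneg_right ((norm_sub_le _ _).trans_eq ?_) (norm_nonneg _)
    rw [norm_mul, norm_mul, norm_div, norm_div, add_comm, ← Nat.cast_succ, Complex.norm_natCast,
      show ((j : ℂ) + 2) = ((j + 2 : ℕ) : ℂ) by push_cast; rfl, Complex.norm_natCast]
    push_cast
    rfl
  rw [norm_mul, ul_normC]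
  refine (mul_le_mul (mul_le_mul_of_nonneg_right (div_le_div_of_nonneg_right h1 (norm_nonneg _))
    (by positivity)) hw (norm_nonneg _) (by positivity)).trans_eq ?_
  rw [mul_pow]
  ring

/-- truncated right hand side of the fixed point equation -/
noncomputable def ulR (aU aL : ℕ → ℂ) (w : ℂ) (n : ℕ) : ℂ :=
  ∑ j ∈ range n, ulC (aU (j + 1)) (aU 0) (aL 0) j * w⁻¹ ^ (j + 1) -
    ∑ j ∈ range n, ulC (aL (j + 1)) (aL 0) (aU 0) j * w ^ (j + 2)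

theorem ul_fix {aU aL nU nL : ℕ → ℂ} {B g0 K1 K2 : ℝ} {dr u : ℂ} (hB0 : 0 ≤ B) (hB : B < 1)
    (h : UAt aU aL nU nL B g0 K1 K2 dr) (hu : ‖u‖ = 1) (hs : Sol aU aL u) :
    Tendsto (ulR aU aL (-aL 0 / aU 0 * u)) atTop (𝓝 (-aL 0 / aU 0 * u - 1)) ∧
      1 - B ≤ ‖aL 0‖ / ‖aU 0‖ ∧ ‖aL 0‖ / ‖aU 0‖ ≤ 1 / (1 - B) := by
  have h0 := h.h0
  have h1 := h.h1
  have p0 := norm_pos_iff.mpr h0
  have p1 := norm_pos_iff.mpr h1
  have hu0 : u ≠ 0 := norm_ne_zero_iff.mp (hu ▸ one_ne_zero)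
  have hb : ∀ n, (∑ j ∈ range n, ‖aU (j + 1)‖) / ‖aU 0‖ +
      (∑ j ∈ range n, ‖aL (j + 1)‖) / ‖aL 0‖ ≤ B := fun n => by
    rw [sum_div, sum_div]
    exact h.hB n
  have nU := fun n => div_nonneg (ul_nn (fun j => aU (j + 1)) n) p0.le
  have nL := fun n => div_nonneg (ul_nn (fun j => aL (j + 1)) n) p1.le
  have t := ul_sol hu (summable_of_sum_range_le (fun _ => norm_nonneg _) fun n =>
      (div_le_iff₀ p0).mp ((le_add_of_nonneg_right (nL n)).trans (hb n)))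
    (summable_of_sum_range_le (fun _ => norm_nonneg _) fun n =>
      (div_le_iff₀ p1).mp ((le_add_of_nonneg_left (nU n)).trans (hb n))) hs
  have t1 := (t.sub_const (aU 0 + aL 0 * u)).div_const (aU 0)
  simp only [add_sub_cancel_left] at t1
  rw [show (0 - (aU 0 + aL 0 * u)) / aU 0 = -aL 0 / aU 0 * u - 1 by field_simp; ring] at t1
  have hle : ‖-aL 0 / aU 0 * u - 1‖ ≤ B * max 1 (‖aL 0‖ / ‖aU 0‖) :=
    le_of_tendsto' t1.norm fun n => by
      rw [norm_div]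
      refine (div_le_div_of_nonneg_right (ul_tail aU aL hu n) p0.le).trans ?_
      have e : (∑ j ∈ range n, ‖aU (j + 1)‖ + ∑ j ∈ range n, ‖aL (j + 1)‖) / ‖aU 0‖ =
          (∑ j ∈ range n, ‖aU (j + 1)‖) / ‖aU 0‖ * 1 +
            (∑ j ∈ range n, ‖aL (j + 1)‖) / ‖aL 0‖ * (‖aL 0‖ / ‖aU 0‖) := by
        field_simp
      rw [e]
      refine (add_le_add (mul_le_mul_of_nonneg_left (le_max_left 1 (‖aL 0‖ / ‖aU 0‖)) (nU n))
        (mul_le_mul_of_nonneg_left (le_max_right 1 (‖aL 0‖ / ‖aU 0‖)) (nL n))).trans ?_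
      rw [← add_mul]
      exact mul_le_mul_of_nonneg_right (hb n) (zero_le_one.trans (le_max_left _ _))
  have hr := (abs_norm_sub_norm_le (-aL 0 / aU 0 * u) 1).trans hle
  rw [norm_mul, hu, norm_div, norm_neg, mul_one, norm_one, abs_le] at hr
  refine ⟨t1.congr fun n => ?_, ?_, ?_⟩
  · rw [ulR, add_div, sum_div, sum_div, sub_eq_add_neg, ← sum_neg_distrib]
    have hc : -aL 0 / aU 0 ≠ 0 := div_ne_zero (neg_ne_zero.mpr h1) h0
    congr 1
    · refine sum_congr rfl fun j _ => ?_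
      rw [ulC, mul_assoc, ← mul_pow, mul_inv, mul_inv_cancel_left₀ hc]
      ring
    · refine sum_congr rfl fun j _ => ?_
      rw [ulC, pow_succ _ (j + 1), pow_succ _ (j + 1), mul_assoc, ← mul_assoc _ _ (_ * u),
        ← mul_pow, show -aU 0 / aL 0 * (-aL 0 / aU 0 * u) = u by field_simp]
      field_simp
  · rcases le_total 1 (‖aL 0‖ / ‖aU 0‖) with h2 | h2
    · linarith
    · rw [max_eq_left h2] at hr
      linarith [hr.1]
  · rw [le_div_iff₀ (sub_pos.mpr hB)]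
    rcases le_total 1 (‖aL 0‖ / ‖aU 0‖) with h2 | h2
    · rw [max_eq_right h2] at hr
      linarith [hr.2]
    · nlinarith [div_nonneg p1.le p0.le]

theorem ul_lip {aU aL : ℕ → ℂ} {v w : ℂ} {Q : ℝ} (hQ : 1 ≤ Q) (hv0 : v ≠ 0) (hw0 : w ≠ 0)
    (hv : ‖v‖ ≤ Q) (hw : ‖w‖ ≤ Q) (hv' : ‖v⁻¹‖ ≤ Q) (hw' : ‖w⁻¹‖ ≤ Q) (n : ℕ) :
    ‖ulR aU aL v n - ulR aU aL w n‖ ≤
      (∑ j ∈ range n, (j + 2) * Q * (‖aL 0‖ / ‖aU 0‖ * Q) ^ (j + 1) * (‖aU (j + 1)‖ / ‖aU 0‖) +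
        ∑ j ∈ range n, (j + 2) * Q * (‖aU 0‖ / ‖aL 0‖ * Q) ^ (j + 1) * (‖aL (j + 1)‖ / ‖aL 0‖)) *
        ‖v - w‖ := by
  have hQ0 : 0 ≤ Q := zero_le_one.trans hQ
  have hi : ‖v⁻¹ - w⁻¹‖ ≤ Q * Q * ‖v - w‖ := by
    rw [show v⁻¹ - w⁻¹ = v⁻¹ * w⁻¹ * (w - v) by field_simp, norm_mul, norm_mul, norm_sub_rev]
    gcongr
  rw [ulR, ulR, sub_sub_sub_comm, ← sum_sub_distrib, ← sum_sub_distrib, add_mul, sum_mul, sum_mul]
  refine (norm_sub_le _ _).trans (add_le_add (norm_sum_le_of_le _ fun j _ => ?_)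
    (norm_sum_le_of_le _ fun j _ => ?_))
  · rw [← mul_sub, norm_mul, ul_normC]
    have h1 : ‖v⁻¹ ^ (j + 1) - w⁻¹ ^ (j + 1)‖ ≤ (j + 2) * Q ^ j * (Q * Q * ‖v - w‖) := by
      refine (ul_pow hv' hw' j).trans ?_
      gcongr
      norm_num
    refine (mul_le_mul_of_nonneg_left h1 (by positivity)).trans_eq ?_
    rw [mul_pow]
    ring
  · rw [← mul_sub, norm_mul, ul_normC]
    have h1 : ‖v ^ (j + 2) - w ^ (j + 2)‖ ≤ (j + 2) * Q ^ (j + 1) * ‖v - w‖ * Q := by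
      refine (ul_pow hv hw (j + 1)).trans ?_
      rw [show (((j + 1 : ℕ) : ℝ) + 1) = j + 2 by push_cast; ring]
      exact le_mul_of_one_le_right (by positivity) hQ
    refine (mul_le_mul_of_nonneg_left h1 (by positivity)).trans_eq ?_
    rw [mul_pow]
    ring

theorem ul_half {ka kb ν B g0 K1 K2 : ℝ} {aU aL nU nL : ℕ → ℝ → ℂ} {r0 dr : ℝ → ℂ} (hν : 0 < ν)
    (hB0 : 0 ≤ B) (hB : B < 1 / 2) (hK1 : K1 < 1) (hK : K2 < g0 * (1 - B) * (1 - K1))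
    (hdU : ∀ j κ, ka ≤ κ → κ ≤ kb → HasDerivAt (aU j)
      (ν * (nU j κ + (r0 κ - j * dr κ) * aU j κ)) κ)
    (hdL : ∀ j κ, ka ≤ κ → κ ≤ kb → HasDerivAt (aL j)
      (ν * (nL j κ + (r0 κ + (j + 1) * dr κ) * aL j κ)) κ)
    (h : ∀ κ, ka ≤ κ → κ ≤ kb → UAt (fun j => aU j κ) (fun j => aL j κ) (fun j => nU j κ)
      (fun j => nL j κ) B g0 K1 K2 (dr κ))
    {κ κ' : ℝ} {u u' : ℂ} (h1 : ka ≤ κ) (hle : κ ≤ κ') (h2' : κ' ≤ kb)
    (hu : ‖u‖ = 1) (hu' : ‖u'‖ = 1) (hs : Sol (fun j => aU j κ) (fun j => aL j κ) u)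
    (hs' : Sol (fun j => aU j κ') (fun j => aL j κ') u') : κ = κ' ∧ u = u' := by
  have h2 := hle.trans h2'
  have h1' := h1.trans hle
  have hB1 : 0 < 1 - B := by linarith
  obtain ⟨t, r1, r2⟩ := ul_fix hB0 (by linarith) (h κ h1 h2) hu hs
  obtain ⟨t', r1', r2'⟩ := ul_fix hB0 (by linarith) (h κ' h1' h2') hu' hs'
  have hK2 : 0 ≤ K2 := by simpa using ((h κ h1 h2).hK r1 r2 0).2
  have hg : 0 < g0 := by
    by_contra hg
    have := mul_nonpos_of_nonpos_of_nonneg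
      (mul_nonpos_of_nonpos_of_nonneg (not_lt.mp hg) hB1.le) (sub_pos.mpr hK1).le
    linarith
  have hρ : ∀ x, ka ≤ x → x ≤ kb → 0 < ‖aL 0 x‖ / ‖aU 0 x‖ := fun x a b =>
    div_pos (norm_pos_iff.mpr (h x a b).h1) (norm_pos_iff.mpr (h x a b).h0)
  have hgr : ∀ s s', ka ≤ s → s ≤ s' → s' ≤ kb → ν * g0 * (s' - s) ≤
      Real.log (‖aL 0 s'‖ / ‖aU 0 s'‖) - Real.log (‖aL 0 s‖ / ‖aU 0 s‖) := by
    intro s s' a b c
    rw [Real.log_div (norm_ne_zero_iff.mpr (h s' (a.trans b) c).h1)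
        (norm_ne_zero_iff.mpr (h s' (a.trans b) c).h0),
      Real.log_div (norm_ne_zero_iff.mpr (h s a (b.trans c)).h1)
        (norm_ne_zero_iff.mpr (h s a (b.trans c)).h0)]
    refine ul_grow (l := fun x => Real.log ‖aL 0 x‖ - Real.log ‖aU 0 x‖) (fun x a b =>
      (ul_log (hdL 0 x a b) (h x a b).h1).sub (ul_log (hdU 0 x a b) (h x a b).h0))
      (fun x a b => ?_) a b c
    have a0 : aU 0 x ≠ 0 := (h x a b).h0
    have a1 : aL 0 x ≠ 0 := (h x a b).h1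
    rw [← Complex.sub_re, show ν * (nL 0 x + (r0 x + ((0 : ℕ) + 1) * dr x) * aL 0 x) / aL 0 x -
      ν * (nU 0 x + (r0 x - (0 : ℕ) * dr x) * aU 0 x) / aU 0 x =
        ν * (nL 0 x / aL 0 x - nU 0 x / aU 0 x + dr x) by push_cast; field_simp; ring,
      Complex.re_ofReal_mul]
    exact mul_le_mul_of_nonneg_left (h x a b).hg hν.le
  have hmono : ∀ s s', ka ≤ s → s ≤ s' → s' ≤ kb →
      ‖aL 0 s‖ / ‖aU 0 s‖ ≤ ‖aL 0 s'‖ / ‖aU 0 s'‖ := fun s s' a b c => by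
    have := mul_nonneg (mul_pos hν hg).le (sub_nonneg.mpr b)
    rw [← Real.log_le_log_iff (hρ s a (b.trans c)) (hρ s' (a.trans b) c)]
    linarith [hgr s s' a b c]
  set Q := 1 / (1 - B / (1 - B)) with hQ
  have hq : 1 / (1 - B) ≤ Q := by
    have a1 : B / (1 - B) < 1 := (div_lt_one hB1).mpr (by linarith)
    have a2 : B ≤ B / (1 - B) := (le_div_iff₀ hB1).mpr (by nlinarith)
    exact one_div_le_one_div_of_le (by linarith) (by linarith)
  have hQ1 : 1 ≤ Q := le_trans ((le_div_iff₀ hB1).mpr (by linarith)) hq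
  set v := -aL 0 κ / aU 0 κ * u with hv
  set v' := -aL 0 κ' / aU 0 κ' * u' with hv'
  have nv : ‖v‖ = ‖aL 0 κ‖ / ‖aU 0 κ‖ := by rw [hv, norm_mul, hu, norm_div, norm_neg, mul_one]
  have nv' : ‖v'‖ = ‖aL 0 κ'‖ / ‖aU 0 κ'‖ := by
    rw [hv', norm_mul, hu', norm_div, norm_neg, mul_one]
  have pv : 0 < ‖v‖ := nv ▸ hρ κ h1 h2
  have pv' : 0 < ‖v'‖ := nv' ▸ hρ κ' h1' h2'
  have b1 : ‖v‖ ≤ Q := nv ▸ r2.trans hq
  have b2 : ‖v'‖ ≤ Q := nv' ▸ r2'.trans hq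
  have b3 : ‖v⁻¹‖ ≤ Q := by
    rw [norm_inv, ← one_div]
    exact (one_div_le_one_div_of_le hB1 (nv ▸ r1)).trans hq
  have b4 : ‖v'⁻¹‖ ≤ Q := by
    rw [norm_inv, ← one_div]
    exact (one_div_le_one_div_of_le hB1 (nv' ▸ r1')).trans hq
  have c1 : ν * g0 * (κ' - κ) * (1 - B) ≤ ‖v - v'‖ := by
    have a1 := hgr κ κ' h1 hle h2'
    rw [← nv, ← nv', ← Real.log_div pv'.ne' pv.ne'] at a1
    have a2 := a1.trans (Real.log_le_sub_one_of_pos (div_pos pv' pv))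
    rw [div_sub_one pv.ne', le_div_iff₀ pv] at a2
    have a3 := norm_sub_norm_le v' v
    rw [norm_sub_rev] at a3
    have a4 := mul_le_mul_of_nonneg_left (nv ▸ r1 : 1 - B ≤ ‖v‖)
      (mul_nonneg (mul_pos hν hg).le (sub_nonneg.mpr hle))
    linarith
  have c2 : ‖v - v'‖ ≤ K1 * ‖v - v'‖ + ν * K2 * (κ' - κ) := by
    have a := (t.sub t').norm
    rw [sub_sub_sub_cancel_right] at a
    refine le_of_tendsto' a fun n => ?_
    refine (norm_sub_le_norm_sub_add_norm_sub _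
      (ulR (fun j => aU j κ) (fun j => aL j κ) v' n) _).trans (add_le_add ?_ ?_)
    · exact (ul_lip hQ1 (norm_pos_iff.mp pv) (norm_pos_iff.mp pv') b1 b2 b3 b4 n).trans
        (mul_le_mul_of_nonneg_right ((h κ h1 h2).hK r1 r2 n).1 (norm_nonneg _))
    have m := (convex_Icc κ κ').norm_image_sub_le_of_norm_hasDerivWithin_le (C := ν * K2)
      (f := fun x => ulR (fun j => aU j x) (fun j => aL j x) v' n)
      (fun x hx => ((HasDerivAt.fun_sum fun j _ => (ul_coef j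
        (h x (h1.trans hx.1) (hx.2.trans h2')).h0 (h x (h1.trans hx.1) (hx.2.trans h2')).h1
        (hdU (j + 1) x (h1.trans hx.1) (hx.2.trans h2'))
        (hdU 0 x (h1.trans hx.1) (hx.2.trans h2')) (hdL 0 x (h1.trans hx.1) (hx.2.trans h2'))
        (by push_cast; ring)).mul_const (v'⁻¹ ^ (j + 1))).fun_sub
        (HasDerivAt.fun_sum fun j _ => (ul_coef j
        (h x (h1.trans hx.1) (hx.2.trans h2')).h1 (h x (h1.trans hx.1) (hx.2.trans h2')).h0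
        (hdL (j + 1) x (h1.trans hx.1) (hx.2.trans h2'))
        (hdL 0 x (h1.trans hx.1) (hx.2.trans h2')) (hdU 0 x (h1.trans hx.1) (hx.2.trans h2'))
        (by push_cast; ring)).mul_const (v' ^ (j + 2)))).hasDerivWithinAt)
      (fun x hx => by
        have k := ((h x (h1.trans hx.1) (hx.2.trans h2')).hK
          (r1.trans (hmono κ x h1 hx.1 (hx.2.trans h2')))
          ((hmono x κ' (h1.trans hx.1) hx.2 h2').trans r2') n).2
        simp only [mul_assoc (ν : ℂ), ← mul_sum, ← mul_sub]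
        rw [norm_mul, Complex.norm_of_nonneg hν.le]
        refine mul_le_mul_of_nonneg_left (le_trans ?_ k) hν.le
        refine (norm_sub_le _ _).trans (add_le_add (norm_sum_le_of_le _ fun j _ => ?_)
          (norm_sum_le_of_le _ fun j _ => ?_))
        · refine ul_coef_le j ?_
          rw [norm_pow]
          exact (pow_le_pow_left₀ (norm_nonneg _) b4 _).trans
            (le_mul_of_one_le_left (by positivity) hQ1)
        · refine ul_coef_le j ?_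
          rw [norm_pow, ← pow_succ']
          exact pow_le_pow_left₀ (norm_nonneg _) b2 _)
      (Set.right_mem_Icc.mpr hle) (Set.left_mem_Icc.mpr hle)
    rwa [norm_sub_rev κ, Real.norm_of_nonneg (sub_nonneg.mpr hle)] at m
  have c3 : κ = κ' := by
    refine le_antisymm hle (not_lt.mp fun hlt => ?_)
    have a1 := mul_le_mul_of_nonneg_right c1 (sub_pos.mpr hK1).le
    have a2 := mul_lt_mul_of_pos_left hK (mul_pos hν (sub_pos.mpr hlt))
    linarith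
  subst c3
  refine ⟨rfl, ?_⟩
  have c4 : v = v' := by
    rw [← sub_eq_zero, ← norm_le_zero_iff]
    nlinarith [norm_nonneg (v - v')]
  exact mul_left_cancel₀ (div_ne_zero (neg_ne_zero.mpr (h κ h1 h2).h1) (h κ h1 h2).h0) c4

/-- A series dominated by two terms has at most one zero with `‖u‖ = 1`. -/
theorem ulem {ka kb ν B g0 K1 K2 : ℝ} {aU aL nU nL : ℕ → ℝ → ℂ} {r0 dr : ℝ → ℂ} (hν : 0 < ν)
    (hB0 : 0 ≤ B) (hB : B < 1 / 2) (hK1 : K1 < 1) (hK : K2 < g0 * (1 - B) * (1 - K1))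
    (hdU : ∀ j κ, ka ≤ κ → κ ≤ kb → HasDerivAt (aU j)
      (ν * (nU j κ + (r0 κ - j * dr κ) * aU j κ)) κ)
    (hdL : ∀ j κ, ka ≤ κ → κ ≤ kb → HasDerivAt (aL j)
      (ν * (nL j κ + (r0 κ + (j + 1) * dr κ) * aL j κ)) κ)
    (h : ∀ κ, ka ≤ κ → κ ≤ kb → UAt (fun j => aU j κ) (fun j => aL j κ) (fun j => nU j κ)
      (fun j => nL j κ) B g0 K1 K2 (dr κ))
    {κ κ' : ℝ} {u u' : ℂ} (h1 : ka ≤ κ) (h2 : κ ≤ kb) (h1' : ka ≤ κ') (h2' : κ' ≤ kb)
    (hu : ‖u‖ = 1) (hu' : ‖u'‖ = 1) (hs : Sol (fun j => aU j κ) (fun j => aL j κ) u)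
    (hs' : Sol (fun j => aU j κ') (fun j => aL j κ') u') : κ = κ' ∧ u = u' := by
  rcases le_total κ κ' with hle | hle
  · exact ul_half hν hB0 hB hK1 hK hdU hdL h h1 hle h2' hu hu' hs hs'
  · exact (ul_half hν hB0 hB hK1 hK hdU hdL h h1' hle h2 hu' hu hs' hs).imp Eq.symm Eq.symm

/-- two terms of equal modulus at most once -/
theorem two_term {a b : ℝ} {f g f' g' : ℝ → ℂ}
    (hf : ∀ t, a ≤ t → t ≤ b → HasDerivAt f (f' t) t ∧ f t ≠ 0)
    (hg : ∀ t, a ≤ t → t ≤ b → HasDerivAt g (g' t) t ∧ g t ≠ 0)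
    (h : ∀ t, a ≤ t → t ≤ b → 0 < (g' t / g t - f' t / f t).re)
    {s t : ℝ} (hs1 : a ≤ s) (hs2 : s ≤ b) (ht1 : a ≤ t) (ht2 : t ≤ b)
    (hs : ‖f s‖ = ‖g s‖) (ht : ‖f t‖ = ‖g t‖) : s = t := by
  have m : StrictMonoOn (fun x => Real.log ‖g x‖ - Real.log ‖f x‖) (Set.Icc a b) := by
    have d := fun x (hx : x ∈ Set.Icc a b) => (ul_log (hg x hx.1 hx.2).1 (hg x hx.1 hx.2).2).sub
      (ul_log (hf x hx.1 hx.2).1 (hf x hx.1 hx.2).2)
    refine strictMonoOn_of_hasDerivWithinAt_pos (convex_Icc a b)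
      (fun x hx => (d x hx).continuousAt.continuousWithinAt)
      (fun x hx => (d x (interior_subset hx)).hasDerivWithinAt) fun x hx => ?_
    rw [← Complex.sub_re]
    exact h x (interior_subset hx).1 (interior_subset hx).2
  exact m.injOn ⟨hs1, hs2⟩ ⟨ht1, ht2⟩ (by simp only [hs, ht, sub_self])

end Pool.Agent.Sok
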