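import Pool.Agent.Sok.Prim
import Pool.Agent.Sok.ULem

/-! Parameters, the binomial sum `S`, the pieces of its contour integral and the predicates
proved by the tables. -/

set_option autoImplicit false

namespace Pool.Agent.Sok

open Complex Set Filter Topology

structure Par where
  N : ℕ
  p : ℝ
  δ : ℝ
  hN : 40 ≤ N
  hp0 : 0 < p
  hp : p ≤ 1 / 2
  hδ : 0 ≤ δ
  hs : 7 ≤ N * p * (1 - p)

namespace Par

variable (P : Par)

noncomputable def s2 : ℝ := P.N * P.p * (1 - P.p)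
noncomputable def lam : ℝ := P.δ * P.s2
noncomputable def cg : ℝ := 1 / Real.sqrt (1 + P.lam ^ 2)
noncomputable def sg : ℝ := P.lam * P.cg
noncomputable def t : ℝ := P.sg / (1 + P.cg)
noncomputable def sc : ℝ := P.sg * P.cg
noncomputable def L : ℝ := P.s2 / P.sg
/-- `σ² cg²`; for denominators `b` the constant `ν` is `ka * (2π/b)²` -/
noncomputable def ka : ℝ := P.s2 * P.cg ^ 2
noncomputable def β (T : ℝ) : ℂ := (T / P.δ - P.N * P.p : ℝ)

/-- `E exp (i δ X²/2 + i T X)` for `X = n - N p`, `n` binomial -/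
noncomputable def S (T : ℝ) : ℂ :=
  ∑ n ∈ Finset.range (P.N + 1), (P.N.choose n : ℂ) * (1 - P.p) ^ (P.N - n) * P.p ^ n *
    exp (I * P.δ * (n - P.N * P.p) ^ 2 / 2 + I * T * (n - P.N * P.p))

noncomputable def S' (T : ℝ) : ℂ :=
  ∑ n ∈ Finset.range (P.N + 1), (P.N.choose n : ℂ) * (1 - P.p) ^ (P.N - n) * P.p ^ n *
    (I * (n - P.N * P.p)) *
    exp (I * P.δ * (n - P.N * P.p) ^ 2 / 2 + I * T * (n - P.N * P.p))

/-- the complete piece and its normalised centred derivative -/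
noncomputable def cF (T : ℝ) : ℂ := (1 + I) * (Real.sqrt (Real.pi / P.cg) : ℝ) * P.S T
noncomputable def nF (T : ℝ) : ℂ :=
  (1 + I) * (Real.sqrt (Real.pi / P.cg) : ℝ) * P.S' T / P.ka + (1 + I * P.lam) * T * P.cF T

/-- the integrand at the real parameter `T` and the values of its primitives -/
noncomputable def E (T : ℝ) (w : ℂ) : ℂ := Eg P.δ P.N (1 - P.p) P.p (P.β T) w
noncomputable def V (T : ℝ) (w : ℂ) : ℂ × ℂ :=
  (G0 P.δ P.N (1 - P.p) P.p (P.β T) w, G1 P.δ P.N (1 - P.p) P.p (P.β T) w)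
noncomputable def Vtop (T : ℝ) : ℂ × ℂ :=
  (Fu0 P.δ P.N (1 - P.p) P.p (P.β T), Fu1 P.δ P.N (1 - P.p) P.p (P.β T))
/-- the Gaussian saddle `T cg (i cg - sg)` -/
noncomputable def ref (T : ℝ) : ℂ := T * P.cg * (I * P.cg - P.sg)

/-- the piece between two values of the primitives -/
noncomputable def cV (T : ℝ) (u v : ℂ × ℂ) : ℂ :=
  (Real.sqrt P.L : ℝ) * exp (-(I * T ^ 2 / (2 * P.δ))) * (v.1 - u.1)
noncomputable def nV (T : ℝ) (u v : ℂ × ℂ) : ℂ :=
  (Real.sqrt P.L : ℝ) * exp (-(I * T ^ 2 / (2 * P.δ))) *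
    ((v.2 - u.2) - P.ref T * (v.1 - u.1)) / P.sc

/-- the cut points at height `-π` and `π` with normalised abscissa `x` -/
noncomputable def cutD (x : ℝ) : ℂ := x * P.sc - Real.pi * I
noncomputable def cutU (x : ℝ) : ℂ := x * P.sc + Real.pi * I

noncomputable def cP (xs xe T : ℝ) : ℂ := P.cV T (P.V T (P.cutD xs)) (P.V T (P.cutU xe))
noncomputable def nP (xs xe T : ℝ) : ℂ := P.nV T (P.V T (P.cutD xs)) (P.V T (P.cutU xe))

/-- upper bounds for a piece with exponent `ex` -/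
def Ub (c n : ℂ) (ex hi m B C : ℝ) : Prop :=
  ‖c‖ ≤ hi * Real.exp (P.ka * ex) ∧
    ‖n‖ ≤ (m + B / (P.s2 * P.cg) + C / (Real.sqrt P.s2 * P.cg)) * Real.exp (P.ka * ex)

/-- a table entry used as an upper bound -/
def Up (T : ℝ) (c n : ℂ) (hi hh A B C : ℝ) : Prop := P.Ub c n (T ^ 2 * hh) hi (A * |T|) B C

/-- a table entry for all far pieces on one vertical line -/
def Img (T : ℝ) (c n : ℂ) (hi ah y0 Af PG e1 e2 li B C : ℝ) : Prop :=
  P.Ub c n (y0 - |T| * ah) hi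
    (Af * |T| + PG * Real.sqrt ((|T| - ah) ^ 2 +
      (li * max (|(|T| - ah * e1)|) (|(|T| - ah * e2)|)) ^ 2)) B C

/-- a table entry used as a dominant piece -/
def Pr (T : ℝ) (c n : ℂ) (lo hl m z sb : ℝ) : Prop :=
  lo * Real.exp (P.ka * (T ^ 2 * hl)) ≤ ‖c‖ ∧
    ‖n‖ ≤ (z * |T| + sb / (P.s2 * P.cg)) * ‖c‖ ∧
    T * (n * (starRingEnd ℂ) c).re ≤ ((1 - m) * T ^ 2 + |T| * (sb / (P.s2 * P.cg))) * ‖c‖ ^ 2

/-- the relaxed equation of a zero, for the denominator `b` -/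
def ZZ (b : ℕ) (χ : ℤ → ℂ) (κ : ℝ) (u : ℂ) : Prop :=
  ‖u‖ = 1 ∧
    (∀ k : ℤ, χ (k + b) * u ^ (k + b) = χ k * u ^ k * exp (-(2 * Real.pi * I * P.N * P.p))) ∧
    ∑ k ∈ Finset.range b, χ k * u ^ k * P.S ((κ - k) * (2 * Real.pi / b)) = 0

def Uniq (b : ℕ) : Prop := ∀ χ : ℤ → ℂ, (∀ k, ‖χ k‖ = 1) → ∀ κ κ' u u', 0 ≤ κ → κ < 1 → 0 ≤ κ' →
  κ' < 1 → P.ZZ b χ κ u → P.ZZ b χ κ' u' → κ = κ' ∧ u = u'

theorem s2_ge : 7 ≤ P.s2 := P.hs
theorem par_s2_pos : 0 < P.s2 := lt_of_lt_of_le (by norm_num) P.s2_ge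
theorem s2_ge' : 40 * (P.p * (1 - P.p)) ≤ P.s2 := by
  have h1 : (40 : ℝ) ≤ P.N := by exact_mod_cast P.hN
  have h2 : 0 ≤ P.p * (1 - P.p) := mul_nonneg P.hp0.le (by linarith [P.hp])
  rw [s2, mul_assoc]
  exact mul_le_mul_of_nonneg_right h1 h2
theorem lam_nonneg : 0 ≤ P.lam := mul_nonneg P.hδ P.par_s2_pos.le
theorem cg_pos : 0 < P.cg := by
  unfold cg
  positivity
theorem cg_le : P.cg ≤ 1 := by
  unfold cg
  rw [div_le_one (by positivity), Real.le_sqrt' one_pos]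
  nlinarith [sq_nonneg P.lam]
theorem sg_nonneg : 0 ≤ P.sg := mul_nonneg P.lam_nonneg P.cg_pos.le
theorem sg_pos (h : 0 < P.δ) : 0 < P.sg := mul_pos (mul_pos h P.par_s2_pos) P.cg_pos
theorem sq_add : P.cg ^ 2 + P.sg ^ 2 = 1 := by
  have h : 0 < 1 + P.lam ^ 2 := by positivity
  rw [sg, mul_pow, cg, div_pow, Real.sq_sqrt h.le]
  field_simp
theorem t_nonneg : 0 ≤ P.t := div_nonneg P.sg_nonneg (by linarith [P.cg_pos])
theorem t_lt : P.t < 1 := by
  have h := P.cg_pos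
  rw [t, div_lt_one (by linarith)]
  nlinarith [P.sq_add, P.sg_nonneg]
theorem par_t_sq : 1 + P.t ^ 2 = 2 / (1 + P.cg) := by
  have h : 1 + P.cg ≠ 0 := by linarith [P.cg_pos]
  rw [t]
  field_simp
  linear_combination P.sq_add
theorem cg_eq : P.cg = (1 - P.t ^ 2) / (1 + P.t ^ 2) := by
  have h : 1 + P.cg ≠ 0 := by linarith [P.cg_pos]
  rw [show 1 - P.t ^ 2 = 2 - (1 + P.t ^ 2) by ring, P.par_t_sq]
  field_simp
  ring
theorem sg_eq : P.sg = 2 * P.t / (1 + P.t ^ 2) := by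
  have h : 1 + P.cg ≠ 0 := by linarith [P.cg_pos]
  rw [P.par_t_sq, t]
  field_simp
theorem L_pos (h : 0 < P.δ) : 0 < P.L := div_pos P.par_s2_pos (P.sg_pos h)
theorem L_cg (h : 0 < P.δ) : P.L * P.cg = 1 / P.δ := by
  have h1 := P.cg_pos.ne'
  have h2 := P.par_s2_pos.ne'
  rw [L, sg, lam]
  field_simp
theorem L_sg (h : 0 < P.δ) : P.L * P.sg = P.s2 := div_mul_cancel₀ _ (P.sg_pos h).ne'
theorem ka_pos : 0 < P.ka := mul_pos P.par_s2_pos (pow_pos P.cg_pos 2)

theorem S_deriv (T : ℝ) : HasDerivAt P.S (P.S' T) T := by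
  unfold S S'
  refine HasDerivAt.fun_sum fun n _ => ?_
  have h := ((((hasDerivAt_id T).ofReal_comp.const_mul I).mul_const
    ((n : ℂ) - P.N * P.p)).const_add (I * P.δ * (n - P.N * P.p) ^ 2 / 2)).cexp.const_mul
    ((P.N.choose n : ℂ) * (1 - P.p) ^ (P.N - n) * P.p ^ n)
  refine h.congr_deriv ?_
  simp only [id, ofReal_one]
  ring
theorem S_period (T : ℝ) (k : ℤ) :
    P.S (T + 2 * Real.pi * k) = exp (-(2 * Real.pi * I * P.N * P.p) * k) * P.S T := by
  unfold S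
  rw [Finset.mul_sum]
  refine Finset.sum_congr rfl fun n _ => ?_
  have h : exp (I * P.δ * (n - P.N * P.p) ^ 2 / 2 + I * (T + 2 * Real.pi * k : ℝ) * (n - P.N * P.p))
      = exp (-(2 * Real.pi * I * P.N * P.p) * k) *
        exp (I * P.δ * (n - P.N * P.p) ^ 2 / 2 + I * T * (n - P.N * P.p)) := by
    rw [← exp_add, exp_eq_exp_iff_exists_int]
    refine ⟨k * n, ?_⟩
    push_cast
    ring
  rw [h]
  ring
theorem cF_deriv (T : ℝ) :
    HasDerivAt P.cF (P.ka * (P.nF T - (1 + I * P.lam) * T * P.cF T)) T := by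
  have hk : (P.ka : ℂ) ≠ 0 := ofReal_ne_zero.2 P.ka_pos.ne'
  refine ((P.S_deriv T).const_mul ((1 + I) * (Real.sqrt (Real.pi / P.cg) : ℝ))).congr_deriv ?_
  rw [nF, add_sub_cancel_right, mul_div_cancel₀ _ hk]
theorem cF_eq (h : 0 < P.δ) (T : ℝ) : P.cF T = P.cV T (0, 0) (P.Vtop T) := by
  have hd : (P.δ : ℂ) ≠ 0 := ofReal_ne_zero.2 h.ne'
  have h1 : Real.sqrt (Real.pi / P.cg) = Real.sqrt P.L * Real.sqrt (Real.pi * P.δ) := by
    rw [← Real.sqrt_mul (P.L_pos h).le]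
    congr 1
    have h2 := P.L_cg h
    have h3 := P.cg_pos.ne'
    field_simp at h2 ⊢
    linear_combination -h2
  simp only [cF, cV, Vtop, Fu0_eq _ _ _ _ h, h1, sub_zero, S, Finset.mul_sum]
  refine Finset.sum_congr rfl fun n _ => ?_
  have h4 : exp (I * P.δ * (n - P.N * P.p) ^ 2 / 2 + I * T * (n - P.N * P.p)) =
      exp (-(I * T ^ 2 / (2 * P.δ))) * exp (I * P.δ * (P.β T + n) ^ 2 / 2) := by
    rw [← exp_add, β]
    congr 1
    push_cast
    field_simp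
    ring
  rw [h4]
  push_cast
  ring

theorem par_deriv (h : 0 < P.δ) (T : ℝ) {F F1 : ℂ → ℂ} (hF : HasDerivAt F (F1 (P.β T)) (P.β T)) :
    HasDerivAt (fun T => P.cV T (0, 0) (F (P.β T), F1 (P.β T)))
      (P.ka * (P.nV T (0, 0) (F (P.β T), F1 (P.β T)) -
        (1 + I * P.lam) * T * P.cV T (0, 0) (F (P.β T), F1 (P.β T)))) T := by
  have hd : (P.δ : ℂ) ≠ 0 := ofReal_ne_zero.2 h.ne'
  have hc : (P.cg : ℂ) ≠ 0 := ofReal_ne_zero.2 P.cg_pos.ne'
  have hs : (P.s2 : ℂ) ≠ 0 := ofReal_ne_zero.2 P.par_s2_pos.ne'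
  have hb : HasDerivAt P.β ((1 / P.δ : ℝ) : ℂ) T :=
    (((hasDerivAt_id T).div_const P.δ).sub_const (P.N * P.p)).ofReal_comp
  have h1 := HasDerivAt.scomp T hF hb
  have h2 := (((((hasDerivAt_id T).ofReal_comp.fun_pow 2).const_mul I).div_const
    (2 * P.δ)).fun_neg.cexp.const_mul ((Real.sqrt P.L : ℝ) : ℂ)).fun_mul (h1.sub_const 0)
  refine h2.congr_deriv ?_
  have hq : (P.cg : ℂ) ^ 2 + (P.δ * P.s2 * P.cg) ^ 2 = 1 := by
    have := P.sq_add
    rw [sg, lam] at this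
    exact_mod_cast this
  simp only [id, ofReal_one, nV, cV, ref, sc, sg, lam, ka, Function.comp, smul_eq_mul, sub_zero]
  push_cast
  generalize exp (-(I * (T : ℂ) ^ 2 / (2 * P.δ))) = e
  field_simp
  linear_combination (Real.sqrt P.L * e * I * T * F (P.β T)) * hq

theorem nF_eq (h : 0 < P.δ) (T : ℝ) : P.nF T = P.nV T (0, 0) (P.Vtop T) := by
  have hk : (P.ka : ℂ) ≠ 0 := ofReal_ne_zero.2 P.ka_pos.ne'
  have h1 : HasDerivAt (fun T => P.cV T (0, 0) (P.Vtop T))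
      (P.ka * (P.nV T (0, 0) (P.Vtop T) - (1 + I * P.lam) * T * P.cV T (0, 0) (P.Vtop T))) T :=
    P.par_deriv h T (F1 := fun b => Fu1 P.δ P.N (1 - P.p) P.p b) (Fu0_beta _ _ _ _ h)
  rw [← funext (P.cF_eq h), ← P.cF_eq h] at h1
  exact sub_left_injective (mul_left_cancel₀ hk ((P.cF_deriv T).unique h1))
theorem cV_deriv (h : 0 < P.δ) (T : ℝ) (c : ℂ) :
    HasDerivAt (fun T => P.cV T (0, 0) (P.V T c))
      (P.ka * (P.nV T (0, 0) (P.V T c) - (1 + I * P.lam) * T * P.cV T (0, 0) (P.V T c))) T :=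
  P.par_deriv h T (F1 := fun b => G1 P.δ P.N (1 - P.p) P.p b c) (G0_beta _ _ _ _ h c)
theorem cP_deriv (h : 0 < P.δ) (xs xe T : ℝ) :
    HasDerivAt (P.cP xs xe) (P.ka * (P.nP xs xe T - (1 + I * P.lam) * T * P.cP xs xe T)) T := by
  have h1 := (P.cV_deriv h T (P.cutU xe)).fun_sub (P.cV_deriv h T (P.cutD xs))
  have h2 : P.cP xs xe = fun T =>
      P.cV T (0, 0) (P.V T (P.cutU xe)) - P.cV T (0, 0) (P.V T (P.cutD xs)) := by
    funext T
    simp only [cP, cV]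
    ring
  rw [← h2] at h1
  refine h1.congr_deriv ?_
  simp only [cP, nP, cV, nV]
  ring

/-- translation by a period -/
theorem cV_shift (h : 0 < P.δ) (T : ℝ) (w : ℂ) :
    P.cV T (0, 0) (P.V T (w + 2 * Real.pi * I)) =
      exp (-(2 * Real.pi * I * P.N * P.p)) *
        P.cV (T - 2 * Real.pi) (0, 0) (P.V (T - 2 * Real.pi) w) := by
  have hd : (P.δ : ℂ) ≠ 0 := ofReal_ne_zero.2 h.ne'
  have h1 : P.β T + I * (2 * Real.pi * I) / P.δ = P.β (T - 2 * Real.pi) := by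
    simp only [β]
    push_cast
    field_simp
    linear_combination (2 * Real.pi) * I_sq
  have h2 : exp (-(I * T ^ 2 / (2 * P.δ))) *
      exp (I * (2 * Real.pi * I) ^ 2 / (2 * P.δ) + P.β T * (2 * Real.pi * I)) =
      exp (-(2 * Real.pi * I * P.N * P.p)) *
        exp (-(I * ((T - 2 * Real.pi : ℝ) : ℂ) ^ 2 / (2 * P.δ))) := by
    rw [← exp_add, ← exp_add, β]
    congr 1
    push_cast
    field_simp
    linear_combination (4 * Real.pi ^ 2) * I_sq
  simp only [cV, V, sub_zero]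
  rw [add_comm w, G0_shift _ _ _ _ h, exp_two_pi_mul_I, mul_one, h1]
  linear_combination (Real.sqrt P.L : ℝ) *
    G0 P.δ P.N (1 - P.p) P.p (P.β (T - 2 * Real.pi)) w * h2

/-- the parameter with `δ` replaced -/
def withδ (d : ℝ) (hd : 0 ≤ d) : Par := { P with δ := d, hδ := hd }

/-- the parameter with `δ` replaced by the positive part of `d` -/
def parQ (d : ℝ) : Par := P.withδ (max d 0) (le_max_right _ _)

theorem par_cg_cont : Continuous fun d => (P.parQ d).cg := by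
  change Continuous fun d : ℝ => 1 / Real.sqrt (1 + (max d 0 * P.s2) ^ 2)
  exact continuous_const.div (by fun_prop) fun d => by positivity

theorem par_lam_cont : Continuous fun d => (P.parQ d).lam := by
  change Continuous fun d : ℝ => max d 0 * P.s2
  fun_prop

theorem par_ka_cont : Continuous fun d => (P.parQ d).ka :=
  (continuous_const (y := P.s2)).mul (P.par_cg_cont.pow 2)

theorem par_t_cont : Continuous fun d => (P.parQ d).t :=
  (P.par_lam_cont.mul P.par_cg_cont).div (continuous_const.add P.par_cg_cont) fun d => by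
    linarith [(P.parQ d).cg_pos]

theorem par_sq_cont : Continuous fun d => ((Real.sqrt (Real.pi / (P.parQ d).cg) : ℝ) : ℂ) :=
  continuous_ofReal.comp (continuous_const.div P.par_cg_cont fun d => (P.parQ d).cg_pos.ne').sqrt

theorem par_cF_cont (T : ℝ) : Continuous fun d => (P.parQ d).cF T := by
  refine (continuous_const.mul P.par_sq_cont).mul ?_
  change Continuous fun d : ℝ => ∑ n ∈ Finset.range (P.N + 1),
    (P.N.choose n : ℂ) * (1 - P.p) ^ (P.N - n) * P.p ^ n *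
      exp (I * (max d 0 : ℝ) * (n - P.N * P.p) ^ 2 / 2 + I * T * (n - P.N * P.p))
  fun_prop

theorem par_nF_cont (T : ℝ) : Continuous fun d => (P.parQ d).nF T := by
  refine (((continuous_const.mul P.par_sq_cont).mul ?_).div (continuous_ofReal.comp P.par_ka_cont)
    fun d => ofReal_ne_zero.2 (P.parQ d).ka_pos.ne').add
    (((continuous_const.add (continuous_const.mul (continuous_ofReal.comp P.par_lam_cont))).mul
      continuous_const).mul (P.par_cF_cont T))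
  change Continuous fun d : ℝ => ∑ n ∈ Finset.range (P.N + 1),
    (P.N.choose n : ℂ) * (1 - P.p) ^ (P.N - n) * P.p ^ n * (I * (n - P.N * P.p)) *
      exp (I * (max d 0 : ℝ) * (n - P.N * P.p) ^ 2 / 2 + I * T * (n - P.N * P.p))
  fun_prop

theorem par_div_cont (B : ℝ) {a : ℝ} (ha : 0 < a) : Continuous fun d => B / (a * (P.parQ d).cg) :=
  continuous_const.div (continuous_const.mul P.par_cg_cont) fun d =>
    (mul_pos ha (P.parQ d).cg_pos).ne'

theorem par_exp_cont (x : ℝ) : Continuous fun d => Real.exp ((P.parQ d).ka * x) :=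
  (P.par_ka_cont.mul continuous_const).rexp

theorem par_lim {t1 : ℝ} (ht : 0 < t1) (h0 : P.δ = 0) (f g : Par → ℝ)
    (hf : Continuous fun d => f (P.parQ d)) (hg : Continuous fun d => g (P.parQ d))
    (h : ∀ d (hd : 0 ≤ d), 0 < d → (P.withδ d hd).t ≤ t1 → f (P.withδ d hd) ≤ g (P.withδ d hd)) :
    f P ≤ g P := by
  have hQ : P.parQ 0 = P := by
    obtain ⟨N, p, δ, _, _, _, _, _⟩ := P
    obtain rfl : δ = 0 := h0
    simp only [parQ, withδ, max_self]
  have ht0 : (P.parQ 0).t < t1 := by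
    rw [hQ, t, sg, lam, h0]
    simpa using ht
  have h1 : ∀ᶠ d in 𝓝[>] (0 : ℝ), (P.parQ d).t < t1 :=
    (P.par_t_cont.continuousAt.eventually_lt continuousAt_const ht0).filter_mono nhdsWithin_le_nhds
  rw [← hQ]
  refine le_of_tendsto_of_tendsto ((hf.tendsto 0).mono_left nhdsWithin_le_nhds)
    ((hg.tendsto 0).mono_left (nhdsWithin_le_nhds (s := Ioi 0))) ?_
  filter_upwards [h1, self_mem_nhdsWithin] with d h2 h3
  exact h _ _ (lt_max_of_lt_left h3) h2.le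

/-- bounds for complete pieces pass to the limit `δ = 0` -/
theorem Up_lim {T hi hh A B C t1 : ℝ} (ht : 0 < t1) (h0 : P.δ = 0)
    (h : ∀ d (hd : 0 ≤ d), 0 < d → (P.withδ d hd).t ≤ t1 →
      (P.withδ d hd).Up T ((P.withδ d hd).cF T) ((P.withδ d hd).nF T) hi hh A B C) :
    P.Up T (P.cF T) (P.nF T) hi hh A B C :=
  ⟨P.par_lim ht h0 (fun R => ‖R.cF T‖) (fun R => hi * Real.exp (R.ka * (T ^ 2 * hh)))
      (P.par_cF_cont T).norm (continuous_const.mul (P.par_exp_cont _))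
      fun d hd h1 h2 => (h d hd h1 h2).1,
    P.par_lim ht h0 (fun R => ‖R.nF T‖) (fun R =>
      (A * |T| + B / (R.s2 * R.cg) + C / (Real.sqrt R.s2 * R.cg)) * Real.exp (R.ka * (T ^ 2 * hh)))
      (P.par_nF_cont T).norm (((continuous_const.add (P.par_div_cont B P.par_s2_pos)).add
        (P.par_div_cont C (Real.sqrt_pos.2 P.par_s2_pos))).mul (P.par_exp_cont _))
      fun d hd h1 h2 => (h d hd h1 h2).2⟩

theorem Pr_lim {T lo hl m z sb t1 : ℝ} (ht : 0 < t1) (h0 : P.δ = 0)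
    (h : ∀ d (hd : 0 ≤ d), 0 < d → (P.withδ d hd).t ≤ t1 →
      (P.withδ d hd).Pr T ((P.withδ d hd).cF T) ((P.withδ d hd).nF T) lo hl m z sb) :
    P.Pr T (P.cF T) (P.nF T) lo hl m z sb :=
  ⟨P.par_lim ht h0 (fun R => lo * Real.exp (R.ka * (T ^ 2 * hl))) (fun R => ‖R.cF T‖)
      (continuous_const.mul (P.par_exp_cont _)) (P.par_cF_cont T).norm
      fun d hd h1 h2 => (h d hd h1 h2).1,
    P.par_lim ht h0 (fun R => ‖R.nF T‖) (fun R => (z * |T| + sb / (R.s2 * R.cg)) * ‖R.cF T‖)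
      (P.par_nF_cont T).norm
      ((continuous_const.add (P.par_div_cont sb P.par_s2_pos)).mul (P.par_cF_cont T).norm)
      fun d hd h1 h2 => (h d hd h1 h2).2.1,
    P.par_lim ht h0 (fun R => T * (R.nF T * (starRingEnd ℂ) (R.cF T)).re)
      (fun R => ((1 - m) * T ^ 2 + |T| * (sb / (R.s2 * R.cg))) * ‖R.cF T‖ ^ 2)
      (continuous_const.mul (continuous_re.comp
        ((P.par_nF_cont T).mul (continuous_conj.comp (P.par_cF_cont T)))))
      ((continuous_const.add (continuous_const.mul (P.par_div_cont sb P.par_s2_pos))).mul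
        ((P.par_cF_cont T).norm.pow 2))
      fun d hd h1 h2 => (h d hd h1 h2).2.2⟩

end Par

end Pool.Agent.Sok
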