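import Pool.Agent.Sok.Gen

/-! The entire integrand `exp (i w²/(2δ) + β w) (α + γ e^w)^N`, its primitives vanishing at
`-i∞`, and the complete integrals. -/

set_option autoImplicit false

namespace Pool.Agent.Sok

open Complex Set Filter Topology

noncomputable def Eg (δ : ℝ) (N : ℕ) (α γ β w : ℂ) : ℂ :=
  exp (I * w ^ 2 / (2 * δ) + β * w) * (α + γ * exp w) ^ N

noncomputable def G0 (δ : ℝ) (N : ℕ) (α γ β w : ℂ) : ℂ :=
  ∫ s in Ioi (0 : ℝ), Eg δ N α γ β (w - (1 + I) * s) * (1 + I)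

noncomputable def G1 (δ : ℝ) (N : ℕ) (α γ β w : ℂ) : ℂ :=
  ∫ s in Ioi (0 : ℝ), (w - (1 + I) * s) * Eg δ N α γ β (w - (1 + I) * s) * (1 + I)

noncomputable def Fu0 (δ : ℝ) (N : ℕ) (α γ β : ℂ) : ℂ :=
  ∫ s : ℝ, Eg δ N α γ β ((1 + I) * s) * (1 + I)

noncomputable def Fu1 (δ : ℝ) (N : ℕ) (α γ β : ℂ) : ℂ :=
  ∫ s : ℝ, (1 + I) * s * Eg δ N α γ β ((1 + I) * s) * (1 + I)

variable {δ : ℝ} (N : ℕ) (α γ β : ℂ)

theorem pa_diff : Differentiable ℂ (Eg δ N α γ β) := by
  unfold Eg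
  fun_prop

theorem Eg_cont : Continuous (Eg δ N α γ β) := (pa_diff N α γ β).continuous

theorem pa_beta (b z : ℂ) : HasDerivAt (fun b => Eg δ N α γ b z) (z * Eg δ N α γ b z) b := by
  have h := ((((hasDerivAt_id b).mul_const z).const_add (I * z ^ 2 / (2 * δ))).cexp).mul_const
    ((α + γ * exp z) ^ N)
  refine h.congr_deriv ?_
  simp only [Eg, id]
  ring

/-- A Gaussian majorant along the lines of direction `1 + i`. -/
theorem pa_bound (hδ : 0 < δ) (R : ℝ) : ∃ C : ℝ, ∀ w b : ℂ, ‖w‖ ≤ R → ‖b‖ ≤ R → ∀ s : ℝ,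
    ‖Eg δ N α γ b (w + (1 + I) * s)‖ ≤ C * Real.exp (-(1 / (2 * δ)) * s ^ 2) ∧
    ‖(w + (1 + I) * s) * Eg δ N α γ b (w + (1 + I) * s)‖ ≤
      C * Real.exp (-(1 / (2 * δ)) * s ^ 2) := by
  obtain ⟨K, hK⟩ : ∃ K : ℝ, K = 2 * (N + 1) + 2 * R / δ + 2 * R := ⟨_, rfl⟩
  refine ⟨(‖α‖ + ‖γ‖) ^ N * Real.exp ((N + 1) * R + R ^ 2 / (2 * δ) + R ^ 2 + K ^ 2 * δ / 2),
    fun w b hw hb s => ?_⟩
  have hR : 0 ≤ R := (norm_nonneg _).trans hw
  have hu : ‖(1 + I) * (s : ℂ)‖ ≤ 2 * |s| := by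
    rw [norm_mul, norm_real, Real.norm_eq_abs]
    refine mul_le_mul_of_nonneg_right ((norm_add_le _ _).trans ?_) (abs_nonneg _)
    rw [norm_one, norm_I]
    norm_num
  have hδ' : (δ : ℂ) ≠ 0 := ofReal_ne_zero.2 hδ.ne'
  have he : I * (w + (1 + I) * s) ^ 2 / (2 * δ) =
      I * w ^ 2 / (2 * δ) + I * w * ((1 + I) * s) / δ + ((-(s ^ 2 / δ) : ℝ) : ℂ) := by
    push_cast
    field_simp
    linear_combination (s : ℂ) ^ 2 * (I + 2) * I_sq
  obtain ⟨z, hz⟩ : ∃ z, z = w + (1 + I) * s := ⟨_, rfl⟩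
  rw [← hz] at he ⊢
  have hzn : ‖z‖ ≤ R + 2 * |s| := hz ▸ (norm_add_le _ _).trans (add_le_add hw hu)
  have h1 : ‖I * w ^ 2 / (2 * δ)‖ ≤ R ^ 2 / (2 * δ) := by
    rw [norm_div, norm_mul, norm_I, one_mul, norm_pow, norm_mul, norm_real, Complex.norm_two,
      Real.norm_of_nonneg hδ.le]
    gcongr
  have h2 : ‖I * w * ((1 + I) * s) / δ‖ ≤ R * (2 * |s|) / δ := by
    rw [norm_div, norm_mul, norm_mul, norm_I, one_mul, norm_real, Real.norm_of_nonneg hδ.le]
    gcongr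
  have h3 : ‖b * z‖ ≤ R * (R + 2 * |s|) := by
    rw [norm_mul]
    gcongr
  have h4 : (I * z ^ 2 / (2 * δ) + b * z).re ≤
      R ^ 2 / (2 * δ) + R * (2 * |s|) / δ - s ^ 2 / δ + R * (R + 2 * |s|) := by
    rw [he, add_re, add_re, add_re, ofReal_re]
    linarith [re_le_norm (I * w ^ 2 / (2 * δ)), re_le_norm (I * w * ((1 + I) * s) / δ),
      re_le_norm (b * z)]
  have h5 : 1 ≤ Real.exp ‖z‖ := Real.one_le_exp (norm_nonneg _)
  have h6 : ‖α + γ * exp z‖ ≤ (‖α‖ + ‖γ‖) * Real.exp ‖z‖ := by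
    refine (norm_add_le _ _).trans ?_
    rw [norm_mul, add_mul]
    exact add_le_add (le_mul_of_one_le_right (norm_nonneg _) h5)
      (mul_le_mul_of_nonneg_left (norm_exp_le_exp_norm z) (norm_nonneg _))
  have h7 : K * |s| ≤ 1 / (2 * δ) * s ^ 2 + K ^ 2 * δ / 2 := by
    have h8 : 1 / (2 * δ) * s ^ 2 + K ^ 2 * δ / 2 - K * |s| = (|s| - K * δ) ^ 2 / (2 * δ) := by
      rw [← sq_abs s]
      field_simp
      ring
    have h9 : 0 ≤ (|s| - K * δ) ^ 2 / (2 * δ) := by positivity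
    linarith
  have key : Real.exp ‖z‖ * ‖Eg δ N α γ b z‖ ≤ (‖α‖ + ‖γ‖) ^ N *
      Real.exp ((N + 1) * R + R ^ 2 / (2 * δ) + R ^ 2 + K ^ 2 * δ / 2) *
        Real.exp (-(1 / (2 * δ)) * s ^ 2) := by
    rw [Eg, norm_mul, norm_exp, norm_pow, mul_assoc, ← Real.exp_add]
    calc _ ≤ Real.exp ‖z‖ * (Real.exp (I * z ^ 2 / (2 * δ) + b * z).re *
          ((‖α‖ + ‖γ‖) * Real.exp ‖z‖) ^ N) := by gcongr
      _ = (‖α‖ + ‖γ‖) ^ N * Real.exp ((N + 1) * ‖z‖ + (I * z ^ 2 / (2 * δ) + b * z).re) := by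
          rw [mul_pow, ← Real.exp_nat_mul, Real.exp_add, add_mul, one_mul, Real.exp_add]
          ring
      _ ≤ _ := by
          refine mul_le_mul_of_nonneg_left (Real.exp_le_exp.2 ?_) (by positivity)
          have h8 : (N + 1 : ℝ) * ‖z‖ ≤ (N + 1) * (R + 2 * |s|) := by gcongr
          have h9 : s ^ 2 / δ = 2 * (1 / (2 * δ) * s ^ 2) := by field_simp
          have h10 : K * |s| = (N + 1) * (2 * |s|) + R * (2 * |s|) / δ + R * (2 * |s|) := by
            rw [hK]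
            ring
          linarith
  refine ⟨(le_mul_of_one_le_left (norm_nonneg _) h5).trans key, le_trans ?_ key⟩
  rw [norm_mul]
  exact mul_le_mul_of_nonneg_right (by linarith [Real.add_one_le_exp ‖z‖]) (norm_nonneg _)

theorem pa_bound' (hδ : 0 < δ) (R : ℝ) : ∃ B : ℝ → ℝ, MeasureTheory.Integrable B ∧
    ∀ w b : ℂ, ‖w‖ ≤ R → ‖b‖ ≤ R → ∀ s : ℝ,
      ‖Eg δ N α γ b (w + (1 + I) * s) * (1 + I)‖ ≤ B s ∧
      ‖Eg δ N α γ b (w - (1 + I) * s) * (1 + I)‖ ≤ B s ∧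
      ‖(w - (1 + I) * s) * Eg δ N α γ b (w - (1 + I) * s) * (1 + I)‖ ≤ B s := by
  obtain ⟨C, hC⟩ := pa_bound N α γ hδ R
  refine ⟨fun s => C * Real.exp (-(1 / (2 * δ)) * s ^ 2) * ‖1 + I‖,
    ((integrable_exp_neg_mul_sq (by positivity)).const_mul C).mul_const _, fun w b hw hb s => ?_⟩
  have h := hC w b hw hb (-s)
  rw [neg_sq, ofReal_neg, mul_neg, ← sub_eq_add_neg] at h
  simp only [norm_mul _ (1 + I)]
  exact ⟨mul_le_mul_of_nonneg_right (hC w b hw hb s).1 (norm_nonneg _),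
    mul_le_mul_of_nonneg_right h.1 (norm_nonneg _), mul_le_mul_of_nonneg_right h.2 (norm_nonneg _)⟩

/-- Differentiation under the integral sign for a dominated family of entire functions. -/
theorem pa_hol {μ : MeasureTheory.Measure ℝ} {F F' : ℂ → ℝ → ℂ} {x : ℂ} {B : ℝ → ℝ}
    (hd : ∀ s y, HasDerivAt (fun y => F y s) (F' y s) y) (hc : ∀ y, Continuous (F y))
    (hc' : Continuous (F' x)) (hB : MeasureTheory.Integrable B μ)
    (hb : ∀ y, ‖y‖ ≤ ‖x‖ + 2 → ∀ s, ‖F y s‖ ≤ B s) :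
    MeasureTheory.Integrable (F x) μ ∧ MeasureTheory.Integrable (F' x) μ ∧
      HasDerivAt (fun y => ∫ s, F y s ∂μ) (∫ s, F' x s ∂μ) x := by
  have hi : MeasureTheory.Integrable (F x) μ :=
    hB.mono' (hc x).aestronglyMeasurable (.of_forall (hb x (by linarith)))
  refine ⟨hi, hasDerivAt_integral_of_dominated_loc_of_deriv_le (Metric.ball_mem_nhds x one_pos)
    (.of_forall fun y => (hc y).aestronglyMeasurable) hi hc'.aestronglyMeasurable
    (.of_forall fun s y hy => ?_) hB (.of_forall fun s y _ => hd s y)⟩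
  have hdiff : Differentiable ℂ fun y => F y s := fun y => (hd s y).differentiableAt
  have h := norm_deriv_le_of_forall_mem_sphere_norm_le (c := y) one_pos hdiff.diffContOnCl
    (C := B s) fun v hv => hb v (by
      have h1 := mem_ball_iff_norm.1 hy
      have h2 := mem_sphere_iff_norm.1 hv
      linarith [norm_le_norm_add_norm_sub' v y, norm_le_norm_add_norm_sub' y x]) s
  rwa [(hd s y).deriv, div_one] at h

/-- The primitive of a dominated entire function. -/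
theorem pa_prim {E : ℂ → ℂ} (hE : Differentiable ℂ E) {w : ℂ} {B : ℝ → ℝ}
    (hB : MeasureTheory.Integrable B)
    (hb : ∀ y, ‖y‖ ≤ ‖w‖ + 2 → ∀ s : ℝ, ‖E (y - (1 + I) * s) * (1 + I)‖ ≤ B s) :
    HasDerivAt (fun y => ∫ s in Ioi (0 : ℝ), E (y - (1 + I) * s) * (1 + I)) (E w) w := by
  have hc := hE.continuous
  have hc' : Continuous (deriv E) := hE.deriv.continuous
  have hu : (1 + I : ℂ) ≠ 0 := fun h => by simpa using congrArg re h
  obtain ⟨h1, h2, h3⟩ := pa_hol (μ := MeasureTheory.volume.restrict (Ioi (0 : ℝ)))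
    (F := fun y s => E (y - (1 + I) * s) * (1 + I))
    (F' := fun y s => deriv E (y - (1 + I) * s) * (1 + I)) (x := w)
    (fun s y => ((hE _).hasDerivAt.comp_sub_const y _).mul_const _) (fun y => by fun_prop)
    (by fun_prop) hB.restrict hb
  have hd : ∀ s : ℝ, HasDerivAt (fun s : ℝ => -E (w - (1 + I) * s))
      (deriv E (w - (1 + I) * s) * (1 + I)) s := fun s => by
    have h4 := ((hE (w - (1 + I) * s)).hasDerivAt.comp (s : ℂ)
      (((hasDerivAt_id (s : ℂ)).const_mul (1 + I)).const_sub w)).neg.comp_ofReal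
    refine h4.congr_deriv ?_
    ring
  have h5 : MeasureTheory.IntegrableOn (fun s : ℝ => -E (w - (1 + I) * s)) (Ioi 0) := by
    refine (h1.div_const (1 + I)).neg.congr (.of_forall fun s => ?_)
    simp only [Pi.neg_apply, mul_div_cancel_right₀ _ hu]
  have h6 := MeasureTheory.integral_Ioi_of_hasDerivAt_of_tendsto' (fun s _ => hd s) h2
    (MeasureTheory.tendsto_zero_of_hasDerivAt_of_integrableOn_Ioi (fun s _ => hd s) h2 h5)
  rw [h6] at h3
  simpa using h3

/-- `G0` is a primitive of the integrand. -/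
theorem G0_deriv (hδ : 0 < δ) (w : ℂ) : HasDerivAt (G0 δ N α γ β) (Eg δ N α γ β w) w := by
  obtain ⟨B, hB, hb⟩ := pa_bound' N α γ hδ (max (‖w‖ + 2) ‖β‖)
  exact pa_prim (pa_diff N α γ β) hB fun y hy s =>
    (hb y β (hy.trans (le_max_left _ _)) (le_max_right _ _) s).2.1

theorem G1_deriv (hδ : 0 < δ) (w : ℂ) :
    HasDerivAt (G1 δ N α γ β) (w * Eg δ N α γ β w) w := by
  obtain ⟨B, hB, hb⟩ := pa_bound' N α γ hδ (max (‖w‖ + 2) ‖β‖)
  exact pa_prim (E := fun z => z * Eg δ N α γ β z) (differentiable_id.mul (pa_diff N α γ β)) hB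
    fun y hy s => (hb y β (hy.trans (le_max_left _ _)) (le_max_right _ _) s).2.2

theorem G0_beta (hδ : 0 < δ) (w : ℂ) :
    HasDerivAt (fun b => G0 δ N α γ b w) (G1 δ N α γ β w) β := by
  obtain ⟨B, hB, hb⟩ := pa_bound' N α γ hδ (max ‖w‖ (‖β‖ + 2))
  have hc := fun b => Eg_cont (δ := δ) N α γ b
  exact (pa_hol (μ := MeasureTheory.volume.restrict (Ioi (0 : ℝ)))
    (F := fun b s => Eg δ N α γ b (w - (1 + I) * s) * (1 + I))
    (F' := fun b s => (w - (1 + I) * s) * Eg δ N α γ b (w - (1 + I) * s) * (1 + I)) (x := β)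
    (fun s b => (pa_beta N α γ b _).mul_const _) (fun b => by have := hc b; fun_prop)
    (by have := hc β; fun_prop) hB.restrict fun b h s =>
      (hb w b (le_max_left _ _) (h.trans (le_max_right _ _)) s).2.1).2.2

theorem Fu0_beta (hδ : 0 < δ) : HasDerivAt (fun b => Fu0 δ N α γ b) (Fu1 δ N α γ β) β := by
  obtain ⟨B, hB, hb⟩ := pa_bound' N α γ hδ (‖β‖ + 2)
  have hc := fun b => Eg_cont (δ := δ) N α γ b
  exact (pa_hol (μ := MeasureTheory.volume)
    (F := fun b s => Eg δ N α γ b ((1 + I) * s) * (1 + I))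
    (F' := fun b s => (1 + I) * s * Eg δ N α γ b ((1 + I) * s) * (1 + I)) (x := β)
    (fun s b => (pa_beta N α γ b _).mul_const _) (fun b => by have := hc b; fun_prop)
    (by have := hc β; fun_prop) hB fun b h s => by
      simpa only [zero_add] using (hb 0 b (by rw [norm_zero]; positivity) h s).1).2.2

/-- the integrand with its primitives -/
noncomputable def gP (hδ : 0 < δ) : Prim where
  E := Eg δ N α γ β
  A0 := G0 δ N α γ β
  A1 := G1 δ N α γ β
  hc := Eg_cont N α γ β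
  hA0 := G0_deriv N α γ β hδ
  hA1 := G1_deriv N α γ β hδ

theorem Fu0_eq (hδ : 0 < δ) : Fu0 δ N α γ β = (1 + I) * (Real.sqrt (Real.pi * δ) : ℝ) *
    ∑ n ∈ Finset.range (N + 1),
      (N.choose n : ℂ) * α ^ (N - n) * γ ^ n * exp (I * δ * (β + n) ^ 2 / 2) := by
  have hδ' : (δ : ℂ) ≠ 0 := ofReal_ne_zero.2 hδ.ne'
  have hb : (-(δ : ℂ)⁻¹).re < 0 := by
    rw [← ofReal_inv, neg_re, ofReal_re, neg_lt_zero]
    positivity
  have he : ∀ s : ℝ, Eg δ N α γ β ((1 + I) * s) * (1 + I) = ∑ n ∈ Finset.range (N + 1),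
      (1 + I) * ((N.choose n : ℂ) * α ^ (N - n) * γ ^ n) *
        exp (-(δ : ℂ)⁻¹ * s ^ 2 + (β + n) * (1 + I) * s + 0) := fun s => by
    rw [Eg, add_comm α, add_pow, Finset.mul_sum, Finset.sum_mul]
    refine Finset.sum_congr rfl fun n _ => ?_
    have h1 : -(δ : ℂ)⁻¹ * s ^ 2 + (β + n) * (1 + I) * s + 0 =
        I * ((1 + I) * s) ^ 2 / (2 * δ) + β * ((1 + I) * s) + n * ((1 + I) * s) := by
      field_simp
      linear_combination -(s : ℂ) ^ 2 * (I + 2) * I_sq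
    rw [h1, exp_add _ (n * _), exp_nat_mul, mul_pow]
    ring
  have hs : ((Real.pi : ℂ) / - -(δ : ℂ)⁻¹) ^ (1 / 2 : ℂ) = (Real.sqrt (Real.pi * δ) : ℝ) := by
    rw [neg_neg, div_inv_eq_mul, Real.sqrt_eq_rpow, ofReal_cpow (by positivity)]
    push_cast
    rfl
  simp only [Fu0, he]
  rw [MeasureTheory.integral_finsetSum _ fun n _ =>
    (integrable_cexp_quadratic' hb _ _).const_mul _, Finset.mul_sum]
  refine Finset.sum_congr rfl fun n _ => ?_
  have h2 : 0 - ((β + n) * (1 + I)) ^ 2 / (4 * -(δ : ℂ)⁻¹) = I * δ * (β + n) ^ 2 / 2 := by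
    field_simp
    linear_combination 2 * δ * (β + n) ^ 2 * I_sq
  rw [MeasureTheory.integral_const_mul, integral_cexp_quadratic hb, hs, h2]
  ring

/-- majorant of the integrand and of its first moment -/
noncomputable def pbM (δ K : ℝ) (β w : ℂ) : ℝ :=
  (1 + ‖w‖) * Real.exp (-(w.re * w.im) / δ - β.im * w.im + K * |w.re|)

theorem pb_cont (K : ℝ) : Continuous (pbM δ K β) := by
  unfold pbM
  fun_prop

theorem pb_nonneg (K : ℝ) (w : ℂ) : 0 ≤ pbM δ K β w := by
  unfold pbM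
  positivity

theorem pb_Eg (w : ℂ) :
    (1 + ‖w‖) * ‖Eg δ N α γ β w‖ ≤ (‖α‖ + ‖γ‖) ^ N * pbM δ (|β.re| + N) β w := by
  have h1 : ‖α + γ * exp w‖ ≤ (‖α‖ + ‖γ‖) * Real.exp |w.re| := by
    have a1 : 1 ≤ Real.exp |w.re| := Real.one_le_exp (abs_nonneg _)
    have a2 : Real.exp w.re ≤ Real.exp |w.re| := Real.exp_le_exp.mpr (le_abs_self _)
    have a3 := norm_add_le α (γ * exp w)
    rw [norm_mul, norm_exp] at a3
    nlinarith [norm_nonneg α, norm_nonneg γ]
  have h2 : (I * w ^ 2 / (2 * δ) + β * w).re =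
      -(w.re * w.im) / δ - β.im * w.im + β.re * w.re := by
    rw [show (2 * δ : ℂ) = ((2 * δ : ℝ) : ℂ) by push_cast; rfl, add_re, div_ofReal_re]
    simp only [pow_two, mul_re, mul_im, I_re, I_im]
    ring
  have h3 : β.re * w.re ≤ |β.re| * |w.re| := by
    rw [← abs_mul]
    exact le_abs_self _
  have h4 : ‖Eg δ N α γ β w‖ ≤ (‖α‖ + ‖γ‖) ^ N *
      Real.exp (-(w.re * w.im) / δ - β.im * w.im + (|β.re| + N) * |w.re|) := by
    rw [Eg, norm_mul, norm_exp, norm_pow, h2]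
    refine (mul_le_mul (Real.exp_le_exp.mpr (add_le_add le_rfl h3))
      (pow_le_pow_left₀ (norm_nonneg _) h1 N) (by positivity) (by positivity)).trans_eq ?_
    rw [mul_pow, ← Real.exp_nat_mul, mul_left_comm, ← Real.exp_add]
    congr 2
    ring
  rw [pbM, mul_left_comm]
  exact mul_le_mul_of_nonneg_left h4 (by positivity)

theorem pb_gauss (hδ : 0 < δ) {K : ℝ} (hK : 0 ≤ K) (R : ℝ) : ∃ C : ℝ, ∀ u : ℂ, ‖u‖ ≤ R →
    ∀ s : ℝ, pbM δ K β (u + (1 + I) * s) ≤ C * Real.exp (-(1 / (2 * δ)) * s ^ 2) := by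
  set L := K + |β.im| + 1 with hL
  have hL0 : 0 ≤ L := by positivity
  refine ⟨Real.exp (R ^ 2 / δ + 2 * L * R + δ * (2 * R / δ + 2 * L) ^ 2 / 2), fun u hu s => ?_⟩
  set w := u + (1 + I) * s with hw
  have ha : w.re = u.re + s := by simp [hw]
  have hb : w.im = u.im + s := by simp [hw]
  have h1 : |u.re| ≤ R := (abs_re_le_norm u).trans hu
  have h2 : |u.im| ≤ R := (abs_im_le_norm u).trans hu
  have h3 : |w.re| ≤ R + |s| := by rw [ha]; exact (abs_add_le _ _).trans (by linarith)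
  have h4 : |w.im| ≤ R + |s| := by rw [hb]; exact (abs_add_le _ _).trans (by linarith)
  have h5 : 1 + ‖w‖ ≤ Real.exp (|w.re| + |w.im|) := by
    have := Real.add_one_le_exp (|w.re| + |w.im|)
    linarith [norm_le_abs_re_add_abs_im w]
  have h6 : -(w.re * w.im) ≤ R ^ 2 + 2 * R * |s| - s ^ 2 := by
    rw [ha, hb]
    have b1 : -(u.re * u.im) ≤ R * R := by
      refine (neg_le_abs _).trans ?_
      rw [abs_mul]
      exact mul_le_mul h1 h2 (abs_nonneg _) ((abs_nonneg _).trans h1)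
    have b2 : -(u.re * s) ≤ R * |s| := by
      refine (neg_le_abs _).trans ?_
      rw [abs_mul]
      exact mul_le_mul_of_nonneg_right h1 (abs_nonneg _)
    have b3 : -(u.im * s) ≤ R * |s| := by
      refine (neg_le_abs _).trans ?_
      rw [abs_mul]
      exact mul_le_mul_of_nonneg_right h2 (abs_nonneg _)
    nlinarith
  have h7 : -(β.im * w.im) ≤ |β.im| * (R + |s|) := by
    refine (neg_le_abs _).trans ?_
    rw [abs_mul]
    exact mul_le_mul_of_nonneg_left h4 (abs_nonneg _)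
  have h8 : (2 * R / δ + 2 * L) * |s| ≤ δ * (2 * R / δ + 2 * L) ^ 2 / 2 + 1 / (2 * δ) * s ^ 2 := by
    generalize 2 * R / δ + 2 * L = c
    have : δ * c ^ 2 / 2 + 1 / (2 * δ) * s ^ 2 - c * |s| = (δ * c - |s|) ^ 2 / (2 * δ) := by
      rw [← sq_abs s]
      field_simp
      ring
    have h : 0 ≤ (δ * c - |s|) ^ 2 / (2 * δ) := by positivity
    linarith
  have h9 := div_le_div_of_nonneg_right h6 hδ.le
  have h10 : (R ^ 2 + 2 * R * |s| - s ^ 2) / δ =
      R ^ 2 / δ + 2 * R / δ * |s| - 2 * (1 / (2 * δ) * s ^ 2) := by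
    field_simp
  have h11 := mul_le_mul_of_nonneg_left h3 hK
  have h12 : 0 ≤ (K + |β.im|) * (R + |s|) :=
    mul_nonneg (by positivity) ((abs_nonneg _).trans h3)
  rw [pbM, ← Real.exp_add]
  refine (mul_le_mul_of_nonneg_right h5 (Real.exp_pos _).le).trans ?_
  rw [← Real.exp_add, Real.exp_le_exp]
  simp only [hL] at h8 ⊢
  linarith

theorem pb_int (hδ : 0 < δ) {K : ℝ} (hK : 0 ≤ K) (u : ℂ) :
    MeasureTheory.Integrable fun s : ℝ => pbM δ K β (u + (1 + I) * s) := by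
  obtain ⟨C, hC⟩ := pb_gauss β hδ hK ‖u‖
  refine ((integrable_exp_neg_mul_sq (b := 1 / (2 * δ)) (by positivity)).const_mul C).mono'
    ((pb_cont β K).comp (by fun_prop)).aestronglyMeasurable (.of_forall fun s => ?_)
  rw [Real.norm_of_nonneg (pb_nonneg β K _)]
  exact hC u le_rfl s

theorem pb_vert (K : ℝ) (w : ℂ) (s h : ℝ) (hs : h * |s| ≤ s * (w.re / δ + β.im)) :
    pbM δ K β (w + s * I) ≤ (1 + |s|) * Real.exp (-(h * |s|)) * pbM δ K β w := by
  have h1 : 1 + ‖w + s * I‖ ≤ (1 + |s|) * (1 + ‖w‖) := by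
    have := norm_add_le w (s * I)
    rw [norm_mul, norm_I, norm_real, Real.norm_eq_abs] at this
    nlinarith [abs_nonneg s, norm_nonneg w]
  have ha : (w + s * I).re = w.re := by simp
  have hb : (w + s * I).im = w.im + s := by simp
  rw [pbM, pbM, ha, hb, mul_mul_mul_comm, ← Real.exp_add]
  refine mul_le_mul h1 (Real.exp_le_exp.mpr ?_) (Real.exp_pos _).le (by positivity)
  have : -(w.re * (w.im + s)) / δ = -(w.re * w.im) / δ - s * (w.re / δ) := by ring
  linarith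

theorem pb_flip (F : ℝ → ℂ) (s : ℝ) : ∫ r in Ioi (0 : ℝ), F (s - r) = ∫ t in Iic s, F t := by
  rw [MeasureTheory.integral_Iic_eq_integral_Iio,
    ← MeasureTheory.integral_indicator measurableSet_Ioi,
    ← MeasureTheory.integral_indicator measurableSet_Iio,
    ← MeasureTheory.integral_sub_left_eq_self ((Iio s).indicator F) MeasureTheory.volume s]
  congr 1
  funext r
  simp only [indicator, mem_Ioi, mem_Iio, sub_lt_self_iff]

theorem pb_decay {F : ℝ → ℝ → ℂ} {g : ℝ → ℝ} {h : ℝ} (hh : 0 < h)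
    (hg : MeasureTheory.Integrable g)
    (hF : ∀ s t, 0 ≤ s → 0 < t → ‖F s t‖ ≤ (1 + s) * Real.exp (-(h * s)) * g t) :
    Tendsto (fun s => ∫ t in Ioi (0 : ℝ), F s t) atTop (𝓝 0) := by
  have h1 : Tendsto (fun s : ℝ => h * s) atTop atTop := tendsto_id.const_mul_atTop hh
  have h2 := ((Real.tendsto_pow_mul_exp_neg_atTop_nhds_zero 0).comp h1).add
    (((Real.tendsto_pow_mul_exp_neg_atTop_nhds_zero 1).comp h1).const_mul h⁻¹)
  have h3 := h2.mul_const (∫ t in Ioi (0 : ℝ), g t)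
  rw [mul_zero, add_zero, zero_mul] at h3
  refine squeeze_zero_norm' ?_ h3
  filter_upwards [eventually_ge_atTop 0] with s hs
  refine (MeasureTheory.norm_integral_le_of_norm_le
    (hg.integrableOn.const_mul ((1 + s) * Real.exp (-(h * s)))) ?_).trans_eq ?_
  · exact (MeasureTheory.ae_restrict_iff' measurableSet_Ioi).mpr
      (.of_forall fun t ht => hF s t hs ht)
  · rw [MeasureTheory.integral_const_mul]
    simp only [Function.comp, pow_zero, pow_one]
    field_simp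

/-- all four limits for an integrand below the majorant -/
theorem pb_main (hδ : 0 < δ) {K D : ℝ} (hK : 0 ≤ K) (hD : 0 ≤ D) {H A : ℂ → ℂ} (hc : Continuous H)
    (hb : ∀ w, ‖H w‖ ≤ D * pbM δ K β w)
    (hA : ∀ w, A w = ∫ s in Ioi (0 : ℝ), H (w - (1 + I) * s) * (1 + I))
    (hd : ∀ w, HasDerivAt A (H w) w) (z : ℂ) :
    Tendsto (fun s : ℝ => A (z + s * (1 + I))) atTop
      (𝓝 (∫ s : ℝ, H ((1 + I) * s) * (1 + I))) ∧
    Tendsto (fun s : ℝ => A (z - s * (1 + I))) atTop (𝓝 0) ∧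
    (0 < z.re / δ + β.im → Tendsto (fun s : ℝ => A (z + s * I)) atTop
      (𝓝 (∫ s : ℝ, H ((1 + I) * s) * (1 + I)))) ∧
    (z.re / δ + β.im < 0 → Tendsto (fun s : ℝ => A (z - s * I)) atTop (𝓝 0)) := by
  have hn : ∀ w, ‖H w * (1 + I)‖ ≤ D * ‖1 + I‖ * pbM δ K β w := fun w => by
    rw [norm_mul, mul_right_comm]
    exact mul_le_mul_of_nonneg_right (hb w) (norm_nonneg _)
  have hi : ∀ u : ℂ, MeasureTheory.Integrable fun s : ℝ => H (u + (1 + I) * s) * (1 + I) :=
    fun u => ((pb_int β hδ hK u).const_mul (D * ‖1 + I‖)).mono'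
      (Continuous.aestronglyMeasurable (by fun_prop)) (.of_forall fun s => hn _)
  have hl : ∀ (u : ℂ) (s : ℝ), A (u + s * (1 + I)) =
      ∫ t in Iic s, H (u + (1 + I) * t) * (1 + I) := fun u s => by
    rw [hA, ← pb_flip (fun t : ℝ => H (u + (1 + I) * t) * (1 + I))]
    congr 1
    funext r
    congr 2
    push_cast
    ring
  have hne : ∀ u : ℂ, Tendsto (fun s : ℝ => A (u + s * (1 + I))) atTop
      (𝓝 (∫ s : ℝ, H (u + (1 + I) * s) * (1 + I))) := fun u => by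
    simp only [hl]
    exact (MeasureTheory.aecover_Iic tendsto_id).integral_tendsto_of_countably_generated (hi u)
  have hsp : ∀ (u : ℂ) (s : ℝ), A (u + s * (1 + I)) = (∫ t : ℝ, H (u + (1 + I) * t) * (1 + I)) -
      ∫ t in Ioi s, H (u + (1 + I) * t) * (1 + I) := fun u s => by
    rw [hl, ← intervalIntegral.integral_Iic_add_Ioi (b := s) (hi u).integrableOn
      (hi u).integrableOn, add_sub_cancel_right]
  have hfu : ∀ u : ℂ, ∫ s : ℝ, H (u + (1 + I) * s) * (1 + I) =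
      ∫ s : ℝ, H ((1 + I) * s) * (1 + I) := fun u => by
    obtain ⟨C, hC⟩ := pb_gauss β hδ hK ‖u‖
    have h0 := (hne u).sub (hne 0)
    simp only [zero_add] at h0
    have h1 : Tendsto (fun s : ℝ => Real.exp (-(1 / (2 * δ)) * s ^ 2)) atTop (𝓝 0) :=
      Real.tendsto_exp_atBot.comp ((tendsto_pow_atTop two_ne_zero).const_mul_atTop_of_neg
        (neg_lt_zero.mpr (by positivity)))
    have h2 := ((h1.const_mul C).const_mul D).mul_const ‖u‖
    rw [mul_zero, mul_zero, zero_mul] at h2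
    refine sub_eq_zero.mp (tendsto_nhds_unique h0 (squeeze_zero_norm (fun s => ?_) h2))
    have h3 := (convex_closedBall ((s : ℂ) * (1 + I)) ‖u‖).norm_image_sub_le_of_norm_hasDerivWithin_le
      (f := A) (f' := H) (C := D * (C * Real.exp (-(1 / (2 * δ)) * s ^ 2)))
      (fun x _ => (hd x).hasDerivWithinAt) (fun x hx => (hb x).trans (by
        refine mul_le_mul_of_nonneg_left ?_ hD
        have := hC (x - s * (1 + I)) (mem_closedBall_iff_norm.mp hx) s
        rwa [show x - s * (1 + I) + (1 + I) * s = x by ring] at this))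
      (Metric.mem_closedBall_self (norm_nonneg u))
      (y := u + s * (1 + I)) (mem_closedBall_iff_norm.mpr (by rw [add_sub_cancel_right]))
    rwa [add_sub_cancel_right] at h3
  refine ⟨hfu z ▸ hne z, ?_, fun h => ?_, fun h => ?_⟩
  · have h1 := ((MeasureTheory.aecover_Ioi (μ := MeasureTheory.volume)
      tendsto_neg_atTop_atBot).integral_tendsto_of_countably_generated (hi z)).const_sub
      (∫ t : ℝ, H (z + (1 + I) * t) * (1 + I))
    rw [sub_self] at h1
    refine h1.congr fun s => ?_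
    rw [← hsp]
    congr 1
    push_cast
    ring
  · have h1 := (pb_decay (F := fun s t => H (z + s * I + (1 + I) * t) * (1 + I)) h
      ((pb_int β hδ hK z).const_mul (D * ‖1 + I‖)) fun s t hs ht => by
        refine (hn _).trans ?_
        rw [mul_left_comm _ (D * ‖1 + I‖), add_right_comm]
        refine mul_le_mul_of_nonneg_left ?_ (by positivity)
        have := pb_vert β K (z + (1 + I) * t) s (z.re / δ + β.im) (by
          rw [abs_of_nonneg hs, mul_comm, show (z + (1 + I) * t).re = z.re + t by simp]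
          gcongr
          linarith)
        rwa [abs_of_nonneg hs] at this).const_sub (∫ s : ℝ, H ((1 + I) * s) * (1 + I))
    rw [sub_zero] at h1
    refine h1.congr fun s => ?_
    have := hsp (z + s * I) 0
    rw [hfu, ofReal_zero, zero_mul, add_zero] at this
    exact this.symm
  · simp only [hA]
    refine pb_decay (F := fun s t => H (z - s * I - (1 + I) * t) * (1 + I)) (neg_pos.mpr h)
      (((pb_int β hδ hK z).comp_neg).const_mul (D * ‖1 + I‖)) fun s t hs ht => ?_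
    refine (hn _).trans ?_
    rw [mul_left_comm _ (D * ‖1 + I‖)]
    refine mul_le_mul_of_nonneg_left ?_ (by positivity)
    have := pb_vert β K (z + (1 + I) * (-t : ℝ)) (-s) (-(z.re / δ + β.im)) (by
      rw [abs_neg, abs_of_nonneg hs, show (z + (1 + I) * (-t : ℝ)).re = z.re - t by
        simp [sub_eq_add_neg], neg_mul, neg_mul, neg_le_neg_iff, mul_comm]
      gcongr
      linarith)
    rwa [abs_neg, abs_of_nonneg hs, show z + (1 + I) * (-t : ℝ) + (-s : ℝ) * I =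
      z - s * I - (1 + I) * t by push_cast; ring] at this

theorem pb_b0 (w : ℂ) : ‖Eg δ N α γ β w‖ ≤ (‖α‖ + ‖γ‖) ^ N * pbM δ (|β.re| + N) β w :=
  le_trans (le_mul_of_one_le_left (norm_nonneg _) (le_add_of_nonneg_right (norm_nonneg _)))
    (pb_Eg N α γ β w)

theorem pb_b1 (w : ℂ) : ‖w * Eg δ N α γ β w‖ ≤ (‖α‖ + ‖γ‖) ^ N * pbM δ (|β.re| + N) β w := by
  rw [norm_mul]
  exact le_trans (mul_le_mul_of_nonneg_right (le_add_of_nonneg_left zero_le_one) (norm_nonneg _))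
    (pb_Eg N α γ β w)

theorem lim_ne (hδ : 0 < δ) (z : ℂ) :
    Tendsto (fun s : ℝ => (G0 δ N α γ β (z + s * (1 + I)), G1 δ N α γ β (z + s * (1 + I)))) atTop
      (𝓝 (Fu0 δ N α γ β, Fu1 δ N α γ β)) :=
  (pb_main β hδ (by positivity) (by positivity) (Eg_cont N α γ β) (pb_b0 N α γ β) (fun _ => rfl)
    (G0_deriv N α γ β hδ) z).1.prodMk_nhds
  (pb_main β hδ (by positivity) (by positivity) (continuous_id.mul (Eg_cont N α γ β))
    (pb_b1 N α γ β) (fun _ => rfl) (G1_deriv N α γ β hδ) z).1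

theorem lim_sw (hδ : 0 < δ) (z : ℂ) :
    Tendsto (fun s : ℝ => (G0 δ N α γ β (z - s * (1 + I)), G1 δ N α γ β (z - s * (1 + I)))) atTop
      (𝓝 (0, 0)) :=
  (pb_main β hδ (by positivity) (by positivity) (Eg_cont N α γ β) (pb_b0 N α γ β) (fun _ => rfl)
    (G0_deriv N α γ β hδ) z).2.1.prodMk_nhds
  (pb_main β hδ (by positivity) (by positivity) (continuous_id.mul (Eg_cont N α γ β))
    (pb_b1 N α γ β) (fun _ => rfl) (G1_deriv N α γ β hδ) z).2.1

theorem lim_up (hδ : 0 < δ) (z : ℂ) (h : 0 < z.re / δ + β.im) :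
    Tendsto (fun s : ℝ => (G0 δ N α γ β (z + s * I), G1 δ N α γ β (z + s * I))) atTop
      (𝓝 (Fu0 δ N α γ β, Fu1 δ N α γ β)) :=
  ((pb_main β hδ (by positivity) (by positivity) (Eg_cont N α γ β) (pb_b0 N α γ β) (fun _ => rfl)
    (G0_deriv N α γ β hδ) z).2.2.1 h).prodMk_nhds
  ((pb_main β hδ (by positivity) (by positivity) (continuous_id.mul (Eg_cont N α γ β))
    (pb_b1 N α γ β) (fun _ => rfl) (G1_deriv N α γ β hδ) z).2.2.1 h)

theorem lim_down (hδ : 0 < δ) (z : ℂ) (h : z.re / δ + β.im < 0) :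
    Tendsto (fun s : ℝ => (G0 δ N α γ β (z - s * I), G1 δ N α γ β (z - s * I))) atTop
      (𝓝 (0, 0)) :=
  ((pb_main β hδ (by positivity) (by positivity) (Eg_cont N α γ β) (pb_b0 N α γ β) (fun _ => rfl)
    (G0_deriv N α γ β hδ) z).2.2.2 h).prodMk_nhds
  ((pb_main β hδ (by positivity) (by positivity) (continuous_id.mul (Eg_cont N α γ β))
    (pb_b1 N α γ β) (fun _ => rfl) (G1_deriv N α γ β hδ) z).2.2.2 h)



theorem Eg_shift (hδ : 0 < δ) (c w : ℂ) : Eg δ N α γ β (c + w) =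
    exp (I * c ^ 2 / (2 * δ) + β * c) * Eg δ N α (γ * exp c) (β + I * c / δ) w := by
  have hδ' : (δ : ℂ) ≠ 0 := ofReal_ne_zero.2 hδ.ne'
  have h : I * (c + w) ^ 2 / (2 * δ) + β * (c + w) =
      I * c ^ 2 / (2 * δ) + β * c + (I * w ^ 2 / (2 * δ) + (β + I * c / δ) * w) := by
    field_simp
    ring
  rw [Eg, Eg, h, exp_add (_ + β * c), exp_add c, mul_assoc γ, mul_assoc (exp _)]

theorem G0_shift (hδ : 0 < δ) (c w : ℂ) : G0 δ N α γ β (c + w) =
    exp (I * c ^ 2 / (2 * δ) + β * c) * G0 δ N α (γ * exp c) (β + I * c / δ) w := by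
  simp only [G0, add_sub_assoc, Eg_shift N α γ β hδ c, mul_assoc (exp _),
    MeasureTheory.integral_const_mul]

theorem pa_shift {f g : ℂ → ℂ} {f' g' a c d : ℂ} (hf : HasDerivAt f f' β)
    (hg : HasDerivAt g g' (β + d)) (h : ∀ b, f b = exp (a + b * c) * g (b + d)) :
    f' = exp (a + β * c) * (g' + c * g (β + d)) := by
  have h1 := ((((hasDerivAt_id β).mul_const c).const_add a).cexp).fun_mul (hg.comp_add_const β d)
  obtain rfl : f = fun b => exp (a + b * c) * g (b + d) := funext h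
  rw [hf.unique h1]
  simp only [id]
  ring

theorem G1_shift (hδ : 0 < δ) (c w : ℂ) : G1 δ N α γ β (c + w) =
    exp (I * c ^ 2 / (2 * δ) + β * c) * (G1 δ N α (γ * exp c) (β + I * c / δ) w +
      c * G0 δ N α (γ * exp c) (β + I * c / δ) w) :=
  pa_shift β (G0_beta N α γ β hδ (c + w)) (G0_beta N α (γ * exp c) _ hδ w)
    fun b => G0_shift N α γ b hδ c w

theorem Fu0_shift (hδ : 0 < δ) (c : ℂ) : Fu0 δ N α γ β =
    exp (I * c ^ 2 / (2 * δ) + β * c) * Fu0 δ N α (γ * exp c) (β + I * c / δ) := by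
  have hδ' : (δ : ℂ) ≠ 0 := ofReal_ne_zero.2 hδ.ne'
  rw [Fu0_eq N α γ β hδ, Fu0_eq N α _ _ hδ, mul_left_comm (exp _), Finset.mul_sum _ _ (exp _)]
  refine congrArg _ (Finset.sum_congr rfl fun n _ => ?_)
  have h : I * δ * (β + n) ^ 2 / 2 =
      I * c ^ 2 / (2 * δ) + β * c + (n * c + I * δ * (β + I * c / δ + n) ^ 2 / 2) := by
    field_simp
    linear_combination (-c ^ 2 * I - 2 * c * δ * (β + n)) * I_sq
  rw [h, exp_add (_ + β * c), exp_add (n * c), exp_nat_mul, mul_pow]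
  ring

theorem Fu1_shift (hδ : 0 < δ) (c : ℂ) : Fu1 δ N α γ β =
    exp (I * c ^ 2 / (2 * δ) + β * c) * (Fu1 δ N α (γ * exp c) (β + I * c / δ) +
      c * Fu0 δ N α (γ * exp c) (β + I * c / δ)) :=
  pa_shift β (Fu0_beta N α γ β hδ) (Fu0_beta N α (γ * exp c) _ hδ)
    fun b => Fu0_shift N α γ b hδ c

theorem Eg_scale (a w : ℂ) : Eg δ N (a * α) (a * γ) β w = a ^ N * Eg δ N α γ β w := by
  rw [Eg, Eg, mul_assoc a, ← mul_add, mul_pow, mul_left_comm]

theorem G0_scale (a w : ℂ) : G0 δ N (a * α) (a * γ) β w = a ^ N * G0 δ N α γ β w := by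
  simp only [G0, Eg_scale, mul_assoc (a ^ N), MeasureTheory.integral_const_mul]

theorem G1_scale (a w : ℂ) : G1 δ N (a * α) (a * γ) β w = a ^ N * G1 δ N α γ β w := by
  simp only [G1, Eg_scale, mul_left_comm _ (a ^ N), mul_assoc (a ^ N),
    MeasureTheory.integral_const_mul]

theorem Fu0_scale (a : ℂ) : Fu0 δ N (a * α) (a * γ) β = a ^ N * Fu0 δ N α γ β := by
  simp only [Fu0, Eg_scale, mul_assoc (a ^ N), MeasureTheory.integral_const_mul]

theorem Fu1_scale (a : ℂ) : Fu1 δ N (a * α) (a * γ) β = a ^ N * Fu1 δ N α γ β := by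
  simp only [Fu1, Eg_scale, mul_left_comm _ (a ^ N), mul_assoc (a ^ N),
    MeasureTheory.integral_const_mul]

/-- logarithmic derivative of the integrand -/
theorem Eg_deriv (w : ℂ) (h : α + γ * exp w ≠ 0) : HasDerivAt (Eg δ N α γ β)
    ((I * w / δ + β + N * (γ * exp w / (α + γ * exp w))) * Eg δ N α γ β w) w := by
  have h1 := (((((hasDerivAt_pow 2 w).const_mul I).div_const (2 * (δ : ℂ))).fun_add
    ((hasDerivAt_id w).const_mul β)).cexp).fun_mul
    ((((hasDerivAt_exp w).const_mul γ).const_add α).fun_pow N)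
  refine h1.congr_deriv ?_
  have h2 : (N : ℂ) * (α + γ * exp w) ^ (N - 1) =
      N * ((α + γ * exp w)⁻¹ * (α + γ * exp w) ^ N) := by
    rcases N with _ | n
    · simp
    · rw [Nat.add_sub_cancel, pow_succ', inv_mul_cancel_left₀ h]
  rw [h2, Eg]
  simp only [id]
  push_cast
  ring

/-- a real dilation `w = a z` of an integrand with primitives -/
noncomputable def Prim.dil (J : Prim) (a : ℝ) (ha : a ≠ 0) : Prim where
  E := fun z => J.E (a * z)
  A0 := fun z => J.A0 (a * z) / a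
  A1 := fun z => J.A1 (a * z) / a ^ 2
  hc := J.hc.comp (continuous_const.mul continuous_id)
  hA0 := fun z => (((J.hA0 (a * z)).comp z (hasDerivAt_const_mul (a : ℂ))).div_const
    (a : ℂ)).congr_deriv (mul_div_cancel_right₀ _ (ofReal_ne_zero.2 ha))
  hA1 := fun z => (((J.hA1 (a * z)).comp z (hasDerivAt_const_mul (a : ℂ))).div_const
    ((a : ℂ) ^ 2)).congr_deriv (by
      have : (a : ℂ) ≠ 0 := ofReal_ne_zero.2 ha
      field_simp)

end Pool.Agent.Sok
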