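import Pool.Agent.Sok.Fact

/-! Sums over the non dominant pieces on one side. -/

set_option autoImplicit false

namespace Pool.Agent.Sok

open Finset

/-- numerical context: `Dl ≤ D ≤ Dh`, `ν0 ≤ ν`, `1/√(s2 ν) ≤ q`, `1/√ν ≤ qn` -/
structure Cx where
  Dl : ℤ
  Dh : ℤ
  ν : ℤ
  q : ℤ
  qn : ℤ

structure Cx.Ok (cx : Cx) (P : Par) (D : ℝ) : Prop where
  hD : 0 < D
  hl0 : 0 ≤ toR cx.Dl
  hl : toR cx.Dl ≤ D
  hh : D ≤ toR cx.Dh
  hν0 : 0 < toR cx.ν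
  hν : toR cx.ν ≤ P.ka * D ^ 2
  hq : 1 / (P.s2 * P.cg * D) ≤ toR cx.q
  hqn : 1 / (Real.sqrt P.s2 * P.cg * D) ≤ toR cx.qn

/-- `5.44` rounded down -/
def nuD : ℤ := 5981343255101

def mkCx (c : Col) (Dl Dh : ℤ) (k : Cx → Bool) : Bool :=
  leI 0 Dl && ltI 0 Dh && ltI 0 c.cgh && fI (maxI 0 c.cgl) fun cl =>
  fI (maxI nuD (mulD (mulD c.s02 (mulD cl cl)) (mulD Dl Dl))) fun ν =>
  fI (maxI c.s02 (divD nuD (mulU (mulU c.cgh c.cgh) (mulU Dh Dh)))) fun s =>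
  fI (sqrtD (mulD s ν)) fun r => fI (sqrtD ν) fun r' => ltI 0 r && ltI 0 r' &&
  fI (divU one r) fun q => fI (divU one r') fun qn => k ⟨Dl, Dh, ν, q, qn⟩

theorem sd_mulD0 {a b : ℤ} (ha : 0 ≤ toR a) (hb : 0 ≤ toR b) : 0 ≤ toR (mulD a b) := by
  rw [← toR_zero, toR_le] at ha hb ⊢
  exact toR_le.1 (toR_zero ▸ mulD_nonneg (toR_zero ▸ toR_le.2 ha) (toR_zero ▸ toR_le.2 hb))

theorem sd_divD0 {a b : ℤ} (ha : 0 ≤ toR a) (hb : 0 ≤ toR b) : 0 ≤ toR (divD a b) := by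
  rw [← toR_zero, toR_le] at ha hb ⊢
  exact toR_le.1 (toR_zero ▸ divD_nonneg (toR_zero ▸ toR_le.2 ha) (toR_zero ▸ toR_le.2 hb))

theorem sd_le0 {a : ℤ} (h : leI 0 a = true) : 0 ≤ toR a := toR_zero ▸ leI_ok h
theorem sd_lt0 {a : ℤ} (h : ltI 0 a = true) : 0 < toR a := toR_zero ▸ ltI_ok h
theorem sd_ge0 {a : ℤ} (h : leI a 0 = true) : toR a ≤ 0 := toR_zero ▸ leI_ok h

theorem sd_mulU0 {a b : ℤ} (ha : 0 ≤ toR a) (hb : 0 ≤ toR b) : 0 ≤ toR (mulU a b) :=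
  (mul_nonneg ha hb).trans (mulU_ok a b)

theorem mkCx_ok {c : Col} {Dl Dh : ℤ} {k : Cx → Bool} (h : mkCx c Dl Dh k = true) :
    ∃ cx, k cx = true ∧ cx.Dl = Dl ∧ cx.Dh = Dh ∧ ∀ x P D, c.Ok x P → 0 < D → toR Dl ≤ D →
      D ≤ toR Dh → 5.44 ≤ P.ka * D ^ 2 → cx.Ok P D := by
  simp only [mkCx, fI_eq, Bool.and_eq_true] at h
  obtain ⟨⟨⟨h1, h2⟩, h3⟩, ⟨h4, h5⟩, h⟩ := h
  refine ⟨_, h, rfl, rfl, fun x P D hc hD hl hh hν => ?_⟩
  have h1 := sd_le0 h1
  have h2 := sd_lt0 h2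
  have h3 := sd_lt0 h3
  have h4 := sd_lt0 h4
  have h5 := sd_lt0 h5
  have hs := P.par_s2_pos
  have hg := P.cg_pos
  have hn : toR nuD ≤ 5.44 := by
    rw [toR, nuD]
    norm_num
  have hn0 : 0 < toR nuD := by
    rw [toR, nuD]
    norm_num
  have hcl0 : 0 ≤ toR (maxI 0 c.cgl) := by
    rw [toR_maxI, toR_zero]
    exact le_max_left _ _
  have hcl : toR (maxI 0 c.cgl) ≤ P.cg := by
    rw [toR_maxI, toR_zero]
    exact max_le hg.le hc.cgl
  have hs0 : 0 ≤ toR c.s02 := by linarith [hc.s02']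
  generalize maxI 0 c.cgl = cl at *
  have hν1 : toR (maxI nuD (mulD (mulD c.s02 (mulD cl cl)) (mulD Dl Dl))) ≤ P.ka * D ^ 2 := by
    rw [toR_maxI]
    refine max_le (hn.trans hν) ?_
    rw [Par.ka, sq, sq]
    exact mulD_le (sd_mulD0 hs0 (sd_mulD0 hcl0 hcl0)) (sd_mulD0 h1 h1)
      (mulD_le hs0 (sd_mulD0 hcl0 hcl0) hc.s02 (mulD_le hcl0 hcl0 hcl hcl)) (mulD_le h1 h1 hl hl)
  have hν0 : 0 < toR (maxI nuD (mulD (mulD c.s02 (mulD cl cl)) (mulD Dl Dl))) := by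
    rw [toR_maxI]
    exact lt_max_of_lt_left hn0
  generalize maxI nuD (mulD (mulD c.s02 (mulD cl cl)) (mulD Dl Dl)) = ν at *
  have hs1 : toR (maxI c.s02 (divD nuD (mulU (mulU c.cgh c.cgh) (mulU Dh Dh)))) ≤ P.s2 := by
    rw [toR_maxI]
    refine max_le hc.s02 ?_
    have h6 : 0 < P.cg * P.cg * (D * D) := by positivity
    refine (divD_le hn0.le h6 (hn.trans hν) (mulU_le (by positivity) (by positivity)
      (mulU_le hg.le hg.le hc.cgh hc.cgh) (mulU_le hD.le hD.le hh hh))).trans (le_of_eq ?_)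
    rw [Par.ka]
    field_simp
  have hs2 : 0 ≤ toR (maxI c.s02 (divD nuD (mulU (mulU c.cgh c.cgh) (mulU Dh Dh)))) := by
    rw [toR_maxI]
    exact le_max_of_le_left hs0
  generalize maxI c.s02 (divD nuD (mulU (mulU c.cgh c.cgh) (mulU Dh Dh))) = s at *
  refine ⟨hD, h1, hl, hh, hν0, hν1, divU_le zero_le_one h4 toR_one.ge ?_,
    divU_le zero_le_one h5 toR_one.ge ?_⟩
  · refine (sqrtD_ok _).trans (Real.sqrt_le_iff.2 ⟨by positivity, ?_⟩)
    refine (mulD_le hs2 hν0.le hs1 hν1).trans (le_of_eq ?_)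
    rw [Par.ka]
    ring
  · refine (sqrtD_ok _).trans (Real.sqrt_le_iff.2 ⟨by positivity, hν1.trans (le_of_eq ?_)⟩)
    rw [Par.ka, mul_pow, mul_pow, Real.sq_sqrt hs.le]

/-- the intervals of the list, in increasing order, cover `[lo, hi]` -/
def covers (hi : ℤ) : List FU → ℤ → Bool
  | [], _ => false
  | f :: l, lo => leI f.T1 lo && (leI hi f.T2 || covers hi l f.T2)

theorem covers_ok {hi lo : ℤ} {l : List FU} (h : covers hi l lo = true) {T : ℝ} (h1 : toR lo ≤ T)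
    (h2 : T ≤ toR hi) : ∃ f ∈ l, toR f.T1 ≤ T ∧ T ≤ toR f.T2 := by
  induction l generalizing lo with
  | nil => exact absurd h (by simp [covers])
  | cons f l ih =>
    simp only [covers, Bool.and_eq_true, Bool.or_eq_true] at h
    rcases le_total T (toR f.T2) with h3 | h3
    · exact ⟨f, List.mem_cons_self, (leI_ok h.1).trans h1, h3⟩
    · rcases h.2 with h4 | h4
      · exact ⟨f, List.mem_cons_self, (leI_ok h.1).trans h1, h2.trans (leI_ok h4)⟩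
      · obtain ⟨g, hg, h5⟩ := ih h4 h3
        exact ⟨g, List.mem_cons_of_mem _ hg, h5⟩

def coversS (pos : Bool) (lo hi : ℤ) (l : List FU) : Bool :=
  cond pos (covers hi l lo) (covers (-lo) l (-hi))

def Pc.beq (g h : Pc) : Bool :=
  cond g.full h.full (!h.full && leI g.xs h.xs && leI h.xs g.xs && leI g.xe h.xe && leI h.xe g.xe)

/-- data of the reference piece and of the weights: `k ∈ [k1, k2]` corresponds affinely to
`r ∈ [r1, r2]`; the reference is at least `lo exp (-ν r² hr)` -/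
structure Rf where
  k1 : ℤ
  k2 : ℤ
  r1 : ℤ
  r2 : ℤ
  lo : ℤ
  hr : ℤ
  Y : ℤ
  Y0 : ℤ
  e0 : ℤ
  e1 : ℤ

def Rf.chk (R : Rf) : Bool :=
  leI 0 R.k1 && leI R.k1 R.k2 && leI R.k2 one && ltI 0 R.lo && leI 0 R.hr && leI 0 R.Y &&
  leI 0 R.Y0 && leI 0 R.e0 && leI 0 R.e1

def powU (y : ℤ) : ℕ → ℤ
  | 0 => one
  | n + 1 => mulU (powU y n) y

/-- lower bound of `|T|` on the interval of an entry -/
def FU.tmin (f : FU) : ℤ := maxI 0 (maxI f.T1 (-f.T2))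

/-- one entry for the piece of index `j`; keeps the maxima -/
def one1 (cx : Cx) (R : Rf) (j : ℕ) (w : ℤ) (f : FU) (s0 s1 s2 : ℤ) (k : ℤ → ℤ → ℤ → Bool) : Bool :=
  fI (R.k1 + j * one) fun ka => fI (R.k2 + j * one) fun kb => leI f.hh 0 &&
  leI 0 f.A && leI 0 f.B && leI 0 f.C &&
  fI (divD f.tmin cx.Dh) fun km => fI (maxI R.r1 R.r2) fun rm =>
  fI (maxI (minI (mulD (mulD ka ka) (-f.hh) - mulU (mulU R.r1 R.r1) R.hr)
      (mulD (mulD kb kb) (-f.hh) - mulU (mulU R.r2 R.r2) R.hr))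
    (mulD (mulD km km) (-f.hh) - mulU (mulU rm rm) R.hr)) fun y => leI 0 y &&
  fI (divU (expU (-(mulD cx.ν y))) R.lo) fun g => fI (mulU g w) fun gw =>
  fI (maxI s0 (mulU g f.hi)) fun s0 => fI (maxI s1 ((j + 1) * mulU gw f.hi)) fun s1 =>
  fI (maxI s2 (mulU gw (mulU f.A kb + mulU f.B cx.q + mulU f.C cx.qn +
    mulU f.hi ((j + 1) * R.e0 + j * R.e1)))) fun s2 => k s0 s1 s2

def oneL (cx : Cx) (R : Rf) (j : ℕ) (w : ℤ) (g : Pc) :
    List FU → ℤ → ℤ → ℤ → (ℤ → ℤ → ℤ → Bool) → Bool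
  | [], s0, s1, s2, k => k s0 s1 s2
  | f :: l, s0, s1, s2, k => f.g.beq g && one1 cx R j w f s0 s1 s2 fun s0 s1 s2 =>
      oneL cx R j w g l s0 s1 s2 k

/-- the pieces `j, j+1, ...`, one list of entries each; the continuation gets the next index -/
def ones (cx : Cx) (R : Rf) (pos : Bool) (pc : ℕ → Pc) :
    List (List FU) → ℕ → ℤ → ℤ → ℤ → (ℕ → ℤ → ℤ → ℤ → Bool) → Bool
  | [], j, s0, s1, s2, k => k j s0 s1 s2
  | l :: L, j, s0, s1, s2, k =>
      coversS pos (mulD (R.k1 + j * one) cx.Dl) (mulU (R.k2 + j * one) cx.Dh) l &&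
      fI (mulU R.Y0 (powU R.Y j)) fun w => oneL cx R j w (pc j) l 0 0 0 fun a b c =>
      fI (s0 + a) fun s0 => fI (s1 + b) fun s1 => fI (s2 + c) fun s2 =>
      fN (j + 1) fun j => ones cx R pos pc L j s0 s1 s2 k

/-- all pieces with `κ ≥ km` whose exponent is at least `ν (ph0 + ph1 (κ - km))` -/
def geo (cx : Cx) (R : Rf) (km ph0 ph1 h A B C s0 s1 s2 : ℤ) (k : ℤ → ℤ → ℤ → Bool) : Bool :=
  fI km fun km => fI ph1 fun ph1 => fI (maxI R.r1 R.r2) fun rm =>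
  fI (ph0 - mulU (mulU rm rm) R.hr) fun y => leI 0 y && leI 0 ph1 && leI 0 km &&
  fI (maxI 0 (logU (maxI R.Y one))) fun ly => fI (mulD cx.ν ph1) fun n1 =>
  leI one (mulD (n1 - ly) km) && fI (expU (ly - n1)) fun r => fI (expU (-n1)) fun r0 =>
  ltI r one && ltI r0 one && fI (divU (expU (-(mulD cx.ν y))) R.lo) fun g =>
  fI (mulU (mulU g R.Y0) (expU (mulU ly km))) fun gy => fI (divU one (one - r)) fun S0 =>
  fI (mulU km S0 + mulU r (mulU S0 S0)) fun S1 =>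
  fI (s0 + divU (mulU g h) (one - r0)) fun s0 => fI (s1 + mulU (mulU gy h) (S1 + S0)) fun s1 =>
  fI (s2 + mulU gy (mulU (A + mulU h (R.e0 + R.e1)) S1 +
    mulU (mulU B cx.q + mulU C cx.qn + mulU h R.e0) S0)) fun s2 => k s0 s1 s2

def geoL (cx : Cx) (R : Rf) (j : ℕ) (g : Pc) : List FU → ℤ → ℤ → ℤ → (ℤ → ℤ → ℤ → Bool) → Bool
  | [], s0, s1, s2, k => k s0 s1 s2
  | f :: l, s0, s1, s2, k => f.g.beq g && leI f.hh 0 && leI 0 f.hi &&
      leI 0 f.A && leI 0 f.B && leI 0 f.C &&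
      fI (maxI (R.k1 + j * one) (divD f.tmin cx.Dh)) fun km => fI (mulD km (-f.hh)) fun a =>
      geo cx R km (mulD km a) (2 * a) f.hi f.A f.B f.C s0 s1 s2 fun s0 s1 s2 =>
      geoL cx R j g l s0 s1 s2 k

/-- the constant `A` of a far piece when `ah/|T| ∈ [u1, u2]` -/
def FI.A (f : FI) (u1 u2 : ℤ) (k : ℤ → Bool) : Bool :=
  leI 0 u1 && leI 0 f.e1 && leI f.e1 f.e2 && leI 0 f.li && leI 0 f.PG &&
  leI 0 f.Af && leI 0 f.B && leI 0 f.C && leI 0 f.hi &&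
  fI (maxI (one - u1) (u2 - one)) fun m1 =>
  fI (mulU f.li (maxI (one - mulD u1 f.e1) (mulU u2 f.e2 - one))) fun m2 =>
  fI (f.Af + mulU f.PG (sqrtU (mulU m1 m1 + mulU m2 m2))) k

/-- far pieces, position unknown -/
def imgG (cx : Cx) (R : Rf) (f : FI) (s0 s1 s2 : ℤ) (k : ℤ → ℤ → ℤ → Bool) : Bool :=
  ltI 0 f.TI && leI 0 f.ah && f.A 0 (divU f.ah f.TI) fun A =>
  fI (divD (f.ah - divU (maxI f.y0 0) f.TI) cx.Dh) fun c => fI (divD f.TI cx.Dh) fun km =>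
  leI 0 c && geo cx R km (mulD c km) c f.hi A f.B f.C s0 s1 s2 k

/-- far pieces of index `j, j+1, ...` -/
def imgX (cx : Cx) (R : Rf) (j : ℕ) (f : FI) (s0 s1 s2 : ℤ) (k : ℤ → ℤ → ℤ → Bool) : Bool :=
  fI (R.k1 + j * one) fun ka => fI (R.k2 + j * one) fun kb => fI (mulD ka cx.Dl) fun ta =>
  fI (mulU kb cx.Dh) fun tb => ltI 0 ta && leI f.TI ta && leI 0 f.ah &&
  fI (mulD cx.Dl cx.Dl) fun D2 => ltI 0 D2 && fI (divD f.ah cx.Dh) fun c =>
  fI (divU (maxI f.y0 0) D2) fun y0 =>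
  fI (minI (mulD ka c - mulU (mulU R.r1 R.r1) R.hr) (mulD kb c - mulU (mulU R.r2 R.r2) R.hr) - y0)
  fun y => leI 0 y && f.A (divD f.ah tb) (divU f.ah ta) fun A1 => f.A 0 (divU f.ah ta) fun A =>
  fI (divU (expU (-(mulD cx.ν y))) R.lo) fun g => fI (expU (-(mulD cx.ν c))) fun r0 =>
  fI (mulU (maxI R.Y one) r0) fun r => ltI r one && fI (divU one (one - r)) fun S0 =>
  fI (mulU r (mulU S0 S0)) fun S1 => fI (mulU g (mulU R.Y0 (powU R.Y j))) fun w =>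
  fI (s0 + mulU (mulU g f.hi) S0) fun s0 =>
  fI (s1 + mulU (mulU w f.hi) ((j + 1) * S0 + S1)) fun s1 =>
  fI (s2 + mulU w (mulU A1 kb + mulU A (mulU kb (S0 - one) + S1) +
    mulU (mulU f.B cx.q + mulU f.C cx.qn + mulU f.hi ((j + 1) * R.e0 + j * R.e1)) S0 +
    mulU (mulU f.hi (R.e0 + R.e1)) S1)) fun s2 => k s0 s1 s2

/-- the three sums over the set `J` of indices are bounded relative to `Rr` -/
def SideB (a n : ℕ → ℂ) (J : ℕ → Prop) [DecidablePred J] (Rr Y Y0 e0 e1 S0 S1 S2 : ℝ) : Prop :=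
  ∀ N, (∑ j ∈ (range N).filter J, ‖a j‖ ≤ S0 * Rr) ∧
    (∑ j ∈ (range N).filter J, (j + 1) * Y0 * Y ^ j * ‖a j‖ ≤ S1 * Rr) ∧
    (∑ j ∈ (range N).filter J, Y0 * Y ^ j * (‖n j‖ + ((j + 1) * e0 + j * e1) * ‖a j‖) ≤ S2 * Rr)

/-- the situation on one side: `k` is `κ` or `1 - κ`, the reference has `r = k` or `r = 1 - k` -/
structure Sit (cx : Cx) (R : Rf) (P : Par) (D k r Rr : ℝ) : Prop where
  cx : cx.Ok P D
  chk : R.chk = true
  h1 : toR R.k1 ≤ k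
  h2 : k ≤ toR R.k2
  hr : (r = k ∧ R.r1 = R.k1 ∧ R.r2 = R.k2) ∨ (r = 1 - k ∧ R.r1 = one - R.k1 ∧ R.r2 = one - R.k2)
  hR : toR R.lo * Real.exp (-(P.ka * D ^ 2 * (r ^ 2 * toR R.hr))) ≤ Rr

/-- the signed parameter of the piece of index `j` -/
noncomputable def sT (pos : Bool) (D k : ℝ) (j : ℕ) : ℝ := if pos then (k + j) * D else -((k + j) * D)

section

variable {b : Box} {cx : Cx} {R : Rf} {P : Par} {D k r Rr : ℝ} {pos : Bool} {a n : ℕ → ℂ}

/-- the terms `a j`, `n j` have the modulus of the piece `g` -/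
def IsPc (P : Par) (pos : Bool) (D k : ℝ) (a n : ℕ → ℂ) (j : ℕ) (g : Pc) : Prop :=
  ‖a j‖ = ‖g.c P (sT pos D k j)‖ ∧ ‖n j‖ = ‖g.n P (sT pos D k j)‖ / D ∧ (g.full = false → 0 < P.δ)

theorem sd_chk (S : Sit cx R P D k r Rr) : 0 ≤ toR R.k1 ∧ toR R.k2 ≤ 1 ∧ 0 < toR R.lo ∧
    0 ≤ toR R.hr ∧ 0 ≤ toR R.Y ∧ 0 ≤ toR R.Y0 ∧ 0 ≤ toR R.e0 ∧ 0 ≤ toR R.e1 := by
  have h := S.chk
  simp only [Rf.chk, Bool.and_eq_true] at h
  obtain ⟨⟨⟨⟨⟨⟨⟨⟨h1, -⟩, h3⟩, h4⟩, h5⟩, h6⟩, h7⟩, h8⟩, h9⟩ := h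
  exact ⟨sd_le0 h1, toR_one ▸ leI_ok h3, sd_lt0 h4, sd_le0 h5, sd_le0 h6, sd_le0 h7, sd_le0 h8,
    sd_le0 h9⟩

theorem sd_k0 (S : Sit cx R P D k r Rr) : 0 ≤ k := (sd_chk S).1.trans S.h1

theorem sd_κ0 (S : Sit cx R P D k r Rr) (i : ℕ) : 0 ≤ k + i :=
  add_nonneg (sd_k0 S) (Nat.cast_nonneg i)

theorem sd_Rr (S : Sit cx R P D k r Rr) : 0 ≤ Rr :=
  (mul_pos (sd_chk S).2.2.1 (Real.exp_pos _)).le.trans S.hR

theorem sd_q (S : Sit cx R P D k r Rr) : 0 ≤ toR cx.q ∧ 0 ≤ toR cx.qn := by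
  have h1 := P.par_s2_pos
  have h2 := P.cg_pos
  have h3 := S.cx.hD
  exact ⟨le_trans (by positivity) S.cx.hq, le_trans (by positivity) S.cx.hqn⟩

theorem sd_rm (S : Sit cx R P D k r Rr) :
    r ^ 2 * toR R.hr ≤ toR (mulU (mulU (maxI R.r1 R.r2) (maxI R.r1 R.r2)) R.hr) := by
  obtain ⟨h1, h2, -, h4, -⟩ := sd_chk S
  have h5 : 0 ≤ r ∧ r ≤ toR (maxI R.r1 R.r2) := by
    rw [toR_maxI]
    rcases S.hr with ⟨e, e1, e2⟩ | ⟨e, e1, e2⟩
    · rw [e, e2]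
      exact ⟨sd_k0 S, le_max_of_le_right S.h2⟩
    · rw [e, e1, toR_sub, toR_one]
      exact ⟨by linarith [S.h2], le_max_of_le_left (by linarith [S.h1])⟩
  rw [sq]
  exact mulU_le (mul_nonneg h5.1 h5.1) h4 (mulU_le h5.1 h5.1 h5.2 h5.2) le_rfl

theorem sd_sq (x : ℤ) {h : ℤ} (hh : 0 ≤ toR h) :
    toR x ^ 2 * toR h ≤ toR (mulU (mulU x x) h) := by
  rw [sq]
  exact mulU_le (mul_self_nonneg _) hh (mulU_ok x x) le_rfl

theorem sd_idx (x : ℤ) (j : ℕ) : toR (x + j * one) = toR x + j := by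
  rw [toR_add, toR_natmul, toR_one, mul_one]

theorem sd_succ (j : ℕ) (x : ℤ) : toR ((j + 1) * x) = (j + 1) * toR x := by
  rw [toR_intmul]
  push_cast
  rfl

theorem sd_exp (S : Sit cx R P D k r Rr) {y : ℤ} {X : ℝ} (hy : 0 ≤ toR y) (hX : toR y ≤ X) :
    Real.exp (-(P.ka * D ^ 2 * X)) ≤ toR (expU (-(mulD cx.ν y))) := by
  refine le_trans (Real.exp_le_exp.2 ?_) (expU_ok _)
  rw [toR_neg, neg_le_neg_iff]
  exact mulD_le S.cx.hν0.le hy S.cx.hν hX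

theorem sd_g0 (S : Sit cx R P D k r Rr) (y : ℤ) : 0 ≤ toR (divU (expU y) R.lo) :=
  le_trans (div_nonneg ((Real.exp_pos _).le.trans (expU_ok y)) (sd_chk S).2.2.1.le)
    (divU_ok _ (sd_chk S).2.2.1)

theorem sd_ref (S : Sit cx R P D k r Rr) {y : ℤ} {X : ℝ} (hy : 0 ≤ toR y)
    (hX : toR y + r ^ 2 * toR R.hr ≤ X) :
    Real.exp (-(P.ka * D ^ 2 * X)) ≤ toR (divU (expU (-(mulD cx.ν y))) R.lo) * Rr := by
  have hlo := (sd_chk S).2.2.1
  have h1 := sd_exp S hy (le_sub_iff_add_le.2 hX)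
  have h2 := (div_le_iff₀ hlo).1 (divU_ok (expU (-(mulD cx.ν y))) hlo)
  have h3 := sd_g0 S (-(mulD cx.ν y))
  calc Real.exp (-(P.ka * D ^ 2 * X)) = Real.exp (-(P.ka * D ^ 2 * (X - r ^ 2 * toR R.hr))) *
        Real.exp (-(P.ka * D ^ 2 * (r ^ 2 * toR R.hr))) := by
        rw [← Real.exp_add]
        congr 1
        ring
    _ ≤ toR (divU (expU (-(mulD cx.ν y))) R.lo) * toR R.lo *
        Real.exp (-(P.ka * D ^ 2 * (r ^ 2 * toR R.hr))) :=
        mul_le_mul_of_nonneg_right (h1.trans h2) (Real.exp_pos _).le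
    _ ≤ _ := by
        rw [mul_assoc]
        exact mul_le_mul_of_nonneg_left S.hR h3

theorem sd_abs (S : Sit cx R P D k r Rr) (i : ℕ) : |sT pos D k i| = (k + i) * D := by
  have h := mul_nonneg (sd_κ0 S i) S.cx.hD.le
  unfold sT
  split_ifs
  · exact abs_of_nonneg h
  · rw [abs_neg]
    exact abs_of_nonneg h

theorem sd_cov {lo hi : ℤ} {l : List FU} (h : coversS pos lo hi l = true) {i : ℕ}
    (h1 : toR lo ≤ (k + i) * D) (h2 : (k + i) * D ≤ toR hi) :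
    ∃ f ∈ l, toR f.T1 ≤ sT pos D k i ∧ sT pos D k i ≤ toR f.T2 := by
  cases pos
  · exact covers_ok (T := -((k + i) * D)) h (by rw [toR_neg]; linarith) (by rw [toR_neg]; linarith)
  · exact covers_ok (T := (k + i) * D) h h1 h2

theorem sd_lo (S : Sit cx R P D k r Rr) {j i : ℕ} (h : j ≤ i) :
    toR (mulD (R.k1 + j * one) cx.Dl) ≤ (k + i) * D := by
  have h1 : (j : ℝ) ≤ i := by exact_mod_cast h
  refine mulD_le ?_ S.cx.hl0 ?_ S.cx.hl
  · rw [sd_idx]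
    exact add_nonneg (sd_chk S).1 (Nat.cast_nonneg j)
  · rw [sd_idx]
    linarith [S.h1]

theorem sd_hi (S : Sit cx R P D k r Rr) (j : ℕ) :
    (k + j) * D ≤ toR (mulU (R.k2 + j * one) cx.Dh) := by
  refine mulU_le (sd_κ0 S j) S.cx.hD.le ?_ S.cx.hh
  rw [sd_idx]
  linarith [S.h2]

theorem sd_tmin (S : Sit cx R P D k r Rr) {f : FU} {i : ℕ} (h1 : toR f.T1 ≤ sT pos D k i)
    (h2 : sT pos D k i ≤ toR f.T2) :
    0 ≤ toR (divD f.tmin cx.Dh) ∧ toR (divD f.tmin cx.Dh) ≤ k + i := by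
  have hD := S.cx.hD
  have h3 : 0 ≤ toR f.tmin := by
    rw [FU.tmin, toR_maxI, toR_zero]
    exact le_max_left _ _
  have h4 : toR f.tmin ≤ (k + i) * D := by
    rw [FU.tmin, toR_maxI, toR_maxI, toR_zero, toR_neg, ← sd_abs (pos := pos) S i]
    exact max_le (abs_nonneg _) (max_le (h1.trans (le_abs_self _))
      ((neg_le_neg h2).trans (neg_le_abs _)))
  refine ⟨sd_divD0 h3 (hD.le.trans S.cx.hh), (divD_le h3 hD h4 S.cx.hh).trans (le_of_eq ?_)⟩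
  field_simp

theorem sd_beq {g h : Pc} (e : g.beq h = true) :
    g.full = h.full ∧ g.c P = h.c P ∧ g.n P = h.n P := by
  obtain ⟨gf, gs, ge⟩ := g
  obtain ⟨hf, hs, he⟩ := h
  cases gf
  · simp only [Pc.beq, cond_false, Bool.and_eq_true, Bool.not_eq_true'] at e
    obtain ⟨⟨⟨⟨h1, h2⟩, h3⟩, h4⟩, h5⟩ := e
    obtain rfl := h1
    obtain rfl := le_antisymm (toR_le.1 (leI_ok h2)) (toR_le.1 (leI_ok h3))
    obtain rfl := le_antisymm (toR_le.1 (leI_ok h4)) (toR_le.1 (leI_ok h5))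
    exact ⟨rfl, rfl, rfl⟩
  · simp only [Pc.beq, cond_true] at e
    obtain rfl := e
    exact ⟨rfl, rfl, rfl⟩

/-- normalised form of an upper bound -/
theorem sd_ub (S : Sit cx R P D k r Rr) {i : ℕ} {g : Pc} (hp : IsPc P pos D k a n i g)
    {ex hi m B C A X : ℝ} (hu : P.Ub (g.c P (sT pos D k i)) (g.n P (sT pos D k i)) ex hi m B C)
    (hB : 0 ≤ B) (hC : 0 ≤ C) (hm : m ≤ A * D) (hX : D ^ 2 * X ≤ -ex) :
    0 ≤ hi ∧ ‖a i‖ ≤ hi * Real.exp (-(P.ka * D ^ 2 * X)) ∧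
      ‖n i‖ ≤ (A + B * toR cx.q + C * toR cx.qn) * Real.exp (-(P.ka * D ^ 2 * X)) := by
  have hD := S.cx.hD
  have he : Real.exp (P.ka * ex) ≤ Real.exp (-(P.ka * D ^ 2 * X)) := by
    refine Real.exp_le_exp.2 ?_
    have := mul_le_mul_of_nonneg_left hX P.ka_pos.le
    linarith
  have h0 : 0 ≤ hi := nonneg_of_mul_nonneg_left ((norm_nonneg _).trans hu.1) (Real.exp_pos _)
  have h1 : 0 ≤ m + B / (P.s2 * P.cg) + C / (Real.sqrt P.s2 * P.cg) :=
    nonneg_of_mul_nonneg_left ((norm_nonneg _).trans hu.2) (Real.exp_pos _)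
  have h2 : (m + B / (P.s2 * P.cg) + C / (Real.sqrt P.s2 * P.cg)) / D ≤
      A + B * toR cx.q + C * toR cx.qn := by
    have e : (m + B / (P.s2 * P.cg) + C / (Real.sqrt P.s2 * P.cg)) / D =
        m / D + B * (1 / (P.s2 * P.cg * D)) + C * (1 / (Real.sqrt P.s2 * P.cg * D)) := by
      ring
    rw [e]
    exact add_le_add (add_le_add ((div_le_iff₀ hD).2 hm) (mul_le_mul_of_nonneg_left S.cx.hq hB))
      (mul_le_mul_of_nonneg_left S.cx.hqn hC)
  refine ⟨h0, hp.1 ▸ hu.1.trans (mul_le_mul_of_nonneg_left he h0), ?_⟩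
  rw [hp.2.1]
  calc ‖g.n P (sT pos D k i)‖ / D ≤ (m + B / (P.s2 * P.cg) + C / (Real.sqrt P.s2 * P.cg)) *
        Real.exp (P.ka * ex) / D := div_le_div_of_nonneg_right hu.2 hD.le
    _ = (m + B / (P.s2 * P.cg) + C / (Real.sqrt P.s2 * P.cg)) / D * Real.exp (P.ka * ex) := by
        ring
    _ ≤ _ := mul_le_mul h2 he (Real.exp_pos _).le ((div_nonneg h1 hD.le).trans h2)

/-- the bound given by an entry containing the parameter of the piece -/
theorem sd_up (S : Sit cx R P D k r Rr) (hb : b.Mem P) {i : ℕ} {g : Pc}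
    (hp : IsPc P pos D k a n i g) {f : FU} (hf : f.Ok b) (e : f.g.beq g = true)
    (h1 : toR f.T1 ≤ sT pos D k i) (h2 : sT pos D k i ≤ toR f.T2) (hB : 0 ≤ toR f.B)
    (hC : 0 ≤ toR f.C) :
    0 ≤ toR f.hi ∧ ‖a i‖ ≤ toR f.hi * Real.exp (-(P.ka * D ^ 2 * ((k + i) ^ 2 * toR (-f.hh)))) ∧
      ‖n i‖ ≤ (toR f.A * (k + i) + toR f.B * toR cx.q + toR f.C * toR cx.qn) *
        Real.exp (-(P.ka * D ^ 2 * ((k + i) ^ 2 * toR (-f.hh)))) := by
  obtain ⟨e1, e2, e3⟩ := sd_beq (P := P) e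
  have hu := hf P hb (fun h => hp.2.2 (e1 ▸ h)) _ h1 h2
  rw [e2, e3] at hu
  refine sd_ub S hp hu hB hC (le_of_eq ?_) (le_of_eq ?_)
  · rw [sd_abs S, mul_assoc]
  · rw [← sq_abs (sT pos D k i), sd_abs S, toR_neg]
    ring

theorem sd_quad {al be x1 x x2 : ℝ} (ha : al ≤ 0) (h1 : x1 ≤ x) (h2 : x ≤ x2) :
    min (al * x1 ^ 2 + be * x1) (al * x2 ^ 2 + be * x2) ≤ al * x ^ 2 + be * x := by
  rcases le_total 0 (al * (x + x1) + be) with h | h
  · refine min_le_of_left_le ?_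
    have := mul_nonneg (sub_nonneg.2 h1) h
    linarith
  · refine min_le_of_right_le ?_
    have h3 : al * (x2 + x) + be ≤ 0 := by
      have := mul_nonpos_of_nonpos_of_nonneg ha (sub_nonneg.2 (h1.trans h2))
      linarith
    have := mul_nonpos_of_nonneg_of_nonpos (sub_nonneg.2 h2) h3
    linarith

theorem sd_conc (S : Sit cx R P D k r Rr) (j : ℕ) {H : ℝ} (hH : 0 ≤ H) :
    min ((toR R.k1 + j) ^ 2 * H - toR R.r1 ^ 2 * toR R.hr)
      ((toR R.k2 + j) ^ 2 * H - toR R.r2 ^ 2 * toR R.hr) ≤ (k + j) ^ 2 * H - r ^ 2 * toR R.hr := by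
  obtain ⟨h1, h2, -, h4, -⟩ := sd_chk S
  have h5 := S.h1
  have h6 := S.h2
  have hj : (0 : ℝ) ≤ j := Nat.cast_nonneg j
  rcases S.hr with ⟨e, e1, e2⟩ | ⟨e, e1, e2⟩
  · rw [e, e1, e2]
    rcases le_total H (toR R.hr) with h | h
    · have h7 := sd_quad (be := 2 * j * H) (sub_nonpos.2 h) h5 h6
      rcases min_le_iff.1 h7 with h8 | h8
      · exact min_le_of_left_le (by linarith)
      · exact min_le_of_right_le (by linarith)
    · refine min_le_of_left_le ?_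
      have h7 := mul_nonneg (sub_nonneg.2 h5)
        (add_nonneg (mul_nonneg (add_nonneg (h1.trans h5) h1) (sub_nonneg.2 h))
          (mul_nonneg hj hH))
      have h8 := mul_nonneg (sub_nonneg.2 h5) (mul_nonneg hj hH)
      linarith
  · rw [e, e1, toR_sub, toR_one]
    refine min_le_of_left_le (sub_le_sub ?_ ?_)
    · exact mul_le_mul_of_nonneg_right (pow_le_pow_left₀ (by linarith) (by linarith) 2) hH
    · exact mul_le_mul_of_nonneg_right (pow_le_pow_left₀ (by linarith) (by linarith) 2) h4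

theorem sd_pow {y : ℤ} (hy : 0 ≤ toR y) (m : ℕ) : toR y ^ m ≤ toR (powU y m) := by
  induction m with
  | zero => exact (pow_zero _).trans_le toR_one.ge
  | succ m ih =>
    rw [pow_succ]
    exact mulU_le (pow_nonneg hy m) hy ih le_rfl

/-- the three bounds for one index -/
def SdOne (a n : ℕ → ℂ) (j : ℕ) (Rr Y Y0 e0 e1 x0 x1 x2 : ℝ) : Prop :=
  ‖a j‖ ≤ x0 * Rr ∧ (j + 1) * Y0 * Y ^ j * ‖a j‖ ≤ x1 * Rr ∧
    Y0 * Y ^ j * (‖n j‖ + ((j + 1) * e0 + j * e1) * ‖a j‖) ≤ x2 * Rr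

theorem SdOne.mono {j : ℕ} {Y Y0 e0 e1 x0 x1 x2 z0 z1 z2 : ℝ}
    (h : SdOne a n j Rr Y Y0 e0 e1 x0 x1 x2) (hR : 0 ≤ Rr) (h0 : x0 ≤ z0) (h1 : x1 ≤ z1)
    (h2 : x2 ≤ z2) : SdOne a n j Rr Y Y0 e0 e1 z0 z1 z2 :=
  ⟨h.1.trans (mul_le_mul_of_nonneg_right h0 hR), h.2.1.trans (mul_le_mul_of_nonneg_right h1 hR),
    h.2.2.trans (mul_le_mul_of_nonneg_right h2 hR)⟩

/-- the three bounds from bounds for the two moduli -/
theorem sd_one (S : Sit cx R P D k r Rr) {j : ℕ} {h M E G W : ℝ} (hh : 0 ≤ h) (hM : 0 ≤ M)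
    (ha : ‖a j‖ ≤ h * E) (hn : ‖n j‖ ≤ M * E) (hE : E ≤ G * Rr)
    (hW : G * (toR R.Y0 * toR R.Y ^ j) ≤ W) :
    SdOne a n j Rr (toR R.Y) (toR R.Y0) (toR R.e0) (toR R.e1) (G * h) ((j + 1) * (W * h))
      (W * (M + h * ((j + 1) * toR R.e0 + j * toR R.e1))) := by
  obtain ⟨-, -, -, -, hY, hY0, he0, he1⟩ := sd_chk S
  have hR := sd_Rr S
  have h1 : ‖a j‖ ≤ h * (G * Rr) := ha.trans (mul_le_mul_of_nonneg_left hE hh)
  have h2 : ‖n j‖ ≤ M * (G * Rr) := hn.trans (mul_le_mul_of_nonneg_left hE hM)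
  have h3 : 0 ≤ toR R.Y0 * toR R.Y ^ j := by positivity
  have h4 : 0 ≤ (j + 1) * toR R.e0 + j * toR R.e1 := by positivity
  refine ⟨h1.trans (le_of_eq (by ring)), ?_, ?_⟩
  · calc (j + 1) * toR R.Y0 * toR R.Y ^ j * ‖a j‖ ≤
          (j + 1) * toR R.Y0 * toR R.Y ^ j * (h * (G * Rr)) :=
          mul_le_mul_of_nonneg_left h1 (by positivity)
      _ = (G * (toR R.Y0 * toR R.Y ^ j)) * ((j + 1) * h * Rr) := by ring
      _ ≤ W * ((j + 1) * h * Rr) := mul_le_mul_of_nonneg_right hW (by positivity)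
      _ = _ := by ring
  · calc toR R.Y0 * toR R.Y ^ j * (‖n j‖ + ((j + 1) * toR R.e0 + j * toR R.e1) * ‖a j‖) ≤
          toR R.Y0 * toR R.Y ^ j * (M * (G * Rr) +
            ((j + 1) * toR R.e0 + j * toR R.e1) * (h * (G * Rr))) :=
          mul_le_mul_of_nonneg_left (add_le_add h2 (mul_le_mul_of_nonneg_left h1 h4)) h3
      _ = (G * (toR R.Y0 * toR R.Y ^ j)) *
            ((M + h * ((j + 1) * toR R.e0 + j * toR R.e1)) * Rr) := by ring
      _ ≤ W * ((M + h * ((j + 1) * toR R.e0 + j * toR R.e1)) * Rr) :=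
          mul_le_mul_of_nonneg_right hW (by positivity)
      _ = _ := by ring

theorem sd_sum {J : ℕ → Prop} [DecidablePred J] {F G : ℕ → ℝ} {s : ℝ} {i0 : ℕ} (hs : HasSum G s)
    (hG : ∀ t, 0 ≤ G t) (h : ∀ i, J i → i0 ≤ i ∧ F i ≤ G (i - i0)) (N : ℕ) :
    ∑ j ∈ (range N).filter J, F j ≤ s := by
  calc ∑ j ∈ (range N).filter J, F j ≤ ∑ j ∈ (range N).filter J, G (j - i0) :=
        sum_le_sum fun i hi => (h i (mem_filter.1 hi).2).2
    _ = ∑ t ∈ ((range N).filter J).image (fun j => j - i0), G t := by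
        refine (sum_image fun x hx y hy e => ?_).symm
        have h1 := (h x (mem_filter.1 hx).2).1
        have h2 := (h y (mem_filter.1 hy).2).1
        have e' : x - i0 = y - i0 := e
        omega
    _ ≤ s := sum_le_hasSum _ (fun t _ => hG t) hs

theorem sd_side (S : Sit cx R P D k r Rr) {J : ℕ → Prop} [DecidablePred J] {G0 G1 G2 : ℕ → ℝ}
    {x0 x1 x2 z0 z1 z2 : ℝ} {i0 : ℕ} (h0 : HasSum G0 x0) (h1 : HasSum G1 x1) (h2 : HasSum G2 x2)
    (p0 : ∀ t, 0 ≤ G0 t) (p1 : ∀ t, 0 ≤ G1 t) (p2 : ∀ t, 0 ≤ G2 t) (q0 : x0 ≤ z0) (q1 : x1 ≤ z1)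
    (q2 : x2 ≤ z2) (h : ∀ i, J i → i0 ≤ i ∧ SdOne a n i Rr (toR R.Y) (toR R.Y0) (toR R.e0)
      (toR R.e1) (G0 (i - i0)) (G1 (i - i0)) (G2 (i - i0))) :
    SideB a n J Rr (toR R.Y) (toR R.Y0) (toR R.e0) (toR R.e1) z0 z1 z2 := by
  have hR := sd_Rr S
  exact fun N =>
    ⟨(sd_sum (h0.mul_right Rr) (fun t => mul_nonneg (p0 t) hR)
        (fun i hi => ⟨(h i hi).1, (h i hi).2.1⟩) N).trans (mul_le_mul_of_nonneg_right q0 hR),
      (sd_sum (h1.mul_right Rr) (fun t => mul_nonneg (p1 t) hR)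
        (fun i hi => ⟨(h i hi).1, (h i hi).2.2.1⟩) N).trans (mul_le_mul_of_nonneg_right q1 hR),
      (sd_sum (h2.mul_right Rr) (fun t => mul_nonneg (p2 t) hR)
        (fun i hi => ⟨(h i hi).1, (h i hi).2.2.2⟩) N).trans (mul_le_mul_of_nonneg_right q2 hR)⟩

theorem sd_add {J J1 J2 : ℕ → Prop} [DecidablePred J] [DecidablePred J1] [DecidablePred J2]
    (hJ : ∀ i, J i → J1 i ∨ J2 i) {F : ℕ → ℝ} (hF : ∀ i, 0 ≤ F i) (N : ℕ) :
    ∑ j ∈ (range N).filter J, F j ≤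
      ∑ j ∈ (range N).filter J1, F j + ∑ j ∈ (range N).filter J2, F j := by
  simp only [sum_filter, ← sum_add_distrib]
  refine sum_le_sum fun i _ => ?_
  have h1 := hF i
  have h2 := hJ i
  split_ifs <;> first | linarith | (exfalso; tauto)

theorem sd_union (S : Sit cx R P D k r Rr) {J J1 J2 : ℕ → Prop} [DecidablePred J]
    [DecidablePred J1] [DecidablePred J2] (hJ : ∀ i, J i → J1 i ∨ J2 i)
    {x0 x1 x2 y0 y1 y2 z0 z1 z2 : ℝ}
    (h1 : SideB a n J1 Rr (toR R.Y) (toR R.Y0) (toR R.e0) (toR R.e1) x0 x1 x2)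
    (h2 : SideB a n J2 Rr (toR R.Y) (toR R.Y0) (toR R.e0) (toR R.e1) y0 y1 y2)
    (e0 : z0 = x0 + y0) (e1 : z1 = x1 + y1) (e2 : z2 = x2 + y2) :
    SideB a n J Rr (toR R.Y) (toR R.Y0) (toR R.e0) (toR R.e1) z0 z1 z2 := by
  obtain ⟨-, -, -, -, hY, hY0, he0, he1⟩ := sd_chk S
  intro N
  rw [e0, e1, e2, add_mul, add_mul, add_mul]
  exact ⟨(sd_add hJ (fun i => by positivity) N).trans (add_le_add (h1 N).1 (h2 N).1),
    (sd_add hJ (fun i => by positivity) N).trans (add_le_add (h1 N).2.1 (h2 N).2.1),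
    (sd_add hJ (fun i => by positivity) N).trans (add_le_add (h1 N).2.2 (h2 N).2.2)⟩

theorem sd_empty {J : ℕ → Prop} [DecidablePred J] (hJ : ∀ i, ¬J i) {Y Y0 e0 e1 x0 x1 x2 : ℝ} :
    SideB a n J Rr Y Y0 e0 e1 (x0 - x0) (x1 - x1) (x2 - x2) := by
  intro N
  rw [filter_false_of_mem fun i _ => hJ i]
  simp

theorem sd_single (S : Sit cx R P D k r Rr) {j : ℕ} {x0 x1 x2 : ℝ}
    (h : SdOne a n j Rr (toR R.Y) (toR R.Y0) (toR R.e0) (toR R.e1) x0 x1 x2) :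
    SideB a n (fun i => i = j) Rr (toR R.Y) (toR R.Y0) (toR R.e0) (toR R.e1) x0 x1 x2 := by
  obtain ⟨-, -, -, -, hY, hY0, he0, he1⟩ := sd_chk S
  intro N
  rw [filter_eq']
  split_ifs
  · simp only [sum_singleton]
    exact h
  · simp only [sum_empty]
    exact ⟨le_trans (by positivity) h.1, le_trans (by positivity) h.2.1,
      le_trans (by positivity) h.2.2⟩

theorem sd_one1 (S : Sit cx R P D k r Rr) (hb : b.Mem P) {j : ℕ} {g : Pc}
    (hp : IsPc P pos D k a n j g) {w : ℤ} (hw : toR R.Y0 * toR R.Y ^ j ≤ toR w) {f : FU}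
    (hf : f.Ok b) (e : f.g.beq g = true) {s0 s1 s2 : ℤ} {K : ℤ → ℤ → ℤ → Bool}
    (h : one1 cx R j w f s0 s1 s2 K = true) :
    ∃ t0 t1 t2, K t0 t1 t2 = true ∧ toR s0 ≤ toR t0 ∧ toR s1 ≤ toR t1 ∧ toR s2 ≤ toR t2 ∧
      (toR f.T1 ≤ sT pos D k j → sT pos D k j ≤ toR f.T2 → SdOne a n j Rr (toR R.Y) (toR R.Y0)
        (toR R.e0) (toR R.e1) (toR t0) (toR t1) (toR t2)) := by
  simp only [one1, fI_eq, Bool.and_eq_true] at h
  obtain ⟨⟨⟨⟨h1, h2⟩, h3⟩, h4⟩, h5, h⟩ := h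
  refine ⟨_, _, _, h, ?_, ?_, ?_, fun t1 t2 => ?_⟩
  · rw [toR_maxI]
    exact le_max_left _ _
  · rw [toR_maxI]
    exact le_max_left _ _
  · rw [toR_maxI]
    exact le_max_left _ _
  clear h
  obtain ⟨k1, k2, -, hr, hY, hY0, he0, he1⟩ := sd_chk S
  obtain ⟨hq, hqn⟩ := sd_q S
  have hH : 0 ≤ toR (-f.hh) := by
    rw [toR_neg]
    linarith [sd_ge0 h1]
  have hA := sd_le0 h2
  have hB := sd_le0 h3
  have hC := sd_le0 h4
  have hκ := sd_κ0 S j
  obtain ⟨u0, u1, u2⟩ := sd_up S hb hp hf e t1 t2 hB hC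
  obtain ⟨m0, m1⟩ := sd_tmin S t1 t2
  have hsq : ∀ x : ℤ, toR (mulD (mulD x x) (-f.hh)) ≤ toR x ^ 2 * toR (-f.hh) := fun x =>
    (mulD_ok _ _).trans (mul_le_mul_of_nonneg_right ((mulD_ok x x).trans_eq (sq _).symm) hH)
  have hE := sd_ref S (X := (k + j) ^ 2 * toR (-f.hh)) (sd_le0 h5) (by
    rw [toR_maxI, toR_minI, toR_sub, toR_sub, toR_sub, ← le_sub_iff_add_le]
    refine max_le (le_trans (min_le_min ?_ ?_) (sd_conc S j hH)) ?_
    · exact sub_le_sub (sd_idx R.k1 j ▸ hsq _) (sd_sq _ hr)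
    · exact sub_le_sub (sd_idx R.k2 j ▸ hsq _) (sd_sq _ hr)
    · exact sub_le_sub ((hsq _).trans (mul_le_mul_of_nonneg_right (pow_le_pow_left₀ m0 m1 2) hH))
        (sd_rm S))
  have hg := sd_g0 S (-(mulD cx.ν (maxI (minI
    (mulD (mulD (R.k1 + j * one) (R.k1 + j * one)) (-f.hh) - mulU (mulU R.r1 R.r1) R.hr)
    (mulD (mulD (R.k2 + j * one) (R.k2 + j * one)) (-f.hh) - mulU (mulU R.r2 R.r2) R.hr))
    (mulD (mulD (divD f.tmin cx.Dh) (divD f.tmin cx.Dh)) (-f.hh) -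
      mulU (mulU (maxI R.r1 R.r2) (maxI R.r1 R.r2)) R.hr))))
  generalize divU (expU _) R.lo = G at hE hg ⊢
  have hW : toR G * (toR R.Y0 * toR R.Y ^ j) ≤ toR (mulU G w) :=
    mulU_le hg (by positivity) le_rfl hw
  have hW0 : 0 ≤ toR (mulU G w) := le_trans (by positivity) hW
  refine (sd_one S u0 (by positivity) u1 u2 hE hW).mono (sd_Rr S) ?_ ?_ ?_
  · rw [toR_maxI]
    exact le_max_of_le_right (mulU_ok _ _)
  · rw [toR_maxI, sd_succ]
    exact le_max_of_le_right (mul_le_mul_of_nonneg_left (mulU_ok _ _) (by positivity))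
  · rw [toR_maxI]
    refine le_max_of_le_right (mulU_le hW0 (by positivity) le_rfl ?_)
    rw [toR_add, toR_add, toR_add]
    refine add_le_add (add_le_add (add_le_add (mulU_le hA hκ le_rfl ?_) (mulU_ok _ _))
      (mulU_ok _ _)) (mulU_le u0 (by positivity) le_rfl (le_of_eq ?_))
    · rw [sd_idx]
      linarith [S.h2]
    · rw [toR_add, sd_succ, toR_natmul]

theorem sd_oneL (S : Sit cx R P D k r Rr) (hb : b.Mem P) {j : ℕ} {g : Pc}
    (hp : IsPc P pos D k a n j g) {w : ℤ} (hw : toR R.Y0 * toR R.Y ^ j ≤ toR w) {l : List FU}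
    (hl : ∀ f ∈ l, f.Ok b) {s0 s1 s2 : ℤ} {K : ℤ → ℤ → ℤ → Bool}
    (h : oneL cx R j w g l s0 s1 s2 K = true) :
    ∃ t0 t1 t2, K t0 t1 t2 = true ∧ toR s0 ≤ toR t0 ∧ toR s1 ≤ toR t1 ∧ toR s2 ≤ toR t2 ∧
      ((∃ f ∈ l, toR f.T1 ≤ sT pos D k j ∧ sT pos D k j ≤ toR f.T2) → SdOne a n j Rr (toR R.Y)
        (toR R.Y0) (toR R.e0) (toR R.e1) (toR t0) (toR t1) (toR t2)) := by
  induction l generalizing s0 s1 s2 with
  | nil => exact ⟨s0, s1, s2, h, le_rfl, le_rfl, le_rfl, fun ⟨f, hf, _⟩ => absurd hf (by simp)⟩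
  | cons f l ih =>
    rw [oneL, Bool.and_eq_true] at h
    obtain ⟨u0, u1, u2, h1, a0, a1, a2, h2⟩ := sd_one1 S hb hp hw (hl f List.mem_cons_self) h.1 h.2
    obtain ⟨t0, t1, t2, h3, b0, b1, b2, h4⟩ := ih (fun f hf => hl f (List.mem_cons_of_mem _ hf)) h1
    refine ⟨t0, t1, t2, h3, a0.trans b0, a1.trans b1, a2.trans b2, fun ⟨f', hf, h5⟩ => ?_⟩
    rcases List.mem_cons.1 hf with rfl | hf
    · exact (h2 h5.1 h5.2).mono (sd_Rr S) b0 b1 b2
    · exact h4 ⟨f', hf, h5⟩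

/-- PLAN: `(k+j)² H - r² hr` is concave in `k` if `H ≤ hr` and monotone otherwise, so its minimum
is at an end point. -/
theorem ones_ok (S : Sit cx R P D k r Rr) (hb : b.Mem P) {pc : ℕ → Pc} {L : List (List FU)}
    (hL : ∀ l ∈ L, ∀ f ∈ l, f.Ok b) {j : ℕ} {s0 s1 s2 : ℤ} {K : ℕ → ℤ → ℤ → ℤ → Bool}
    (hp : ∀ i, j ≤ i → i < j + L.length → IsPc P pos D k a n i (pc i))
    (h : ones cx R pos pc L j s0 s1 s2 K = true) :
    ∃ t0 t1 t2, K (j + L.length) t0 t1 t2 = true ∧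
      SideB a n (fun i => j ≤ i ∧ i < j + L.length) Rr (toR R.Y) (toR R.Y0) (toR R.e0) (toR R.e1)
        (toR t0 - toR s0) (toR t1 - toR s1) (toR t2 - toR s2) := by
  induction L generalizing j s0 s1 s2 with
  | nil => exact ⟨s0, s1, s2, h, sd_empty fun i hi => by simp at hi; omega⟩
  | cons l L ih =>
    simp only [ones, fI_eq, fN_eq, Bool.and_eq_true] at h
    obtain ⟨-, -, -, -, hY, hY0, -⟩ := sd_chk S
    obtain ⟨x0, x1, x2, h1, -, -, -, h2⟩ := sd_oneL S hb (hp j le_rfl (by simp))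
      (mulU_le hY0 (pow_nonneg hY j) le_rfl (sd_pow hY j)) (hL l List.mem_cons_self) h.2
    obtain ⟨t0, t1, t2, h3, h4⟩ := ih (fun l hl => hL l (List.mem_cons_of_mem _ hl))
      (fun i h5 h6 => hp i (by omega) (by rw [List.length_cons]; omega)) h1
    refine ⟨t0, t1, t2, ?_, sd_union S (fun i hi => ?_)
      (sd_single S (h2 (sd_cov h.1 (sd_lo S le_rfl) (sd_hi S j)))) h4 ?_ ?_ ?_⟩
    · rw [List.length_cons, ← add_assoc, add_right_comm]
      exact h3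
    · rw [List.length_cons] at hi
      omega
    all_goals
      rw [toR_add]
      ring

theorem sd_dec0 {d y ρ : ℝ} {t : ℕ} (hd : 0 ≤ d) (hy : (t : ℝ) ≤ y) (hρ : Real.exp (-d) ≤ ρ) :
    Real.exp (-(d * y)) ≤ ρ ^ t := by
  calc Real.exp (-(d * y)) ≤ Real.exp (t * -d) := by
        refine Real.exp_le_exp.2 ?_
        have := mul_le_mul_of_nonneg_left hy hd
        linarith
    _ = Real.exp (-d) ^ t := Real.exp_nat_mul _ _
    _ ≤ ρ ^ t := pow_le_pow_left₀ (Real.exp_pos _).le hρ t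

theorem sd_dec {d km x ρ : ℝ} {t : ℕ} (h1 : 1 ≤ d * km) (h0 : 0 ≤ km) (hx : km + t ≤ x)
    (hρ : Real.exp (-d) ≤ ρ) :
    Real.exp (-(d * (x - km))) ≤ ρ ^ t ∧ x * Real.exp (-(d * (x - km))) ≤ (km + t) * ρ ^ t := by
  have hd : 0 ≤ d := by
    by_contra hd
    have := mul_nonpos_of_nonpos_of_nonneg (not_le.1 hd).le h0
    linarith
  have ht : (0 : ℝ) ≤ t := Nat.cast_nonneg t
  refine ⟨sd_dec0 hd (by linarith) hρ, ?_⟩
  have h2 : x ≤ (km + t) * Real.exp (d * (x - (km + t))) := by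
    have h3 := Real.add_one_le_exp (d * (x - (km + t)))
    have h4 := mul_le_mul_of_nonneg_left h3 (add_nonneg h0 ht)
    have h5 := mul_nonneg (sub_nonneg.2 hx) (add_nonneg (sub_nonneg.2 h1) (mul_nonneg hd ht))
    linarith
  calc x * Real.exp (-(d * (x - km))) ≤
        (km + t) * Real.exp (d * (x - (km + t))) * Real.exp (-(d * (x - km))) :=
        mul_le_mul_of_nonneg_right h2 (Real.exp_pos _).le
    _ = (km + t) * Real.exp (-(d * t)) := by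
        rw [mul_assoc, ← Real.exp_add]
        congr 2
        ring
    _ ≤ _ := mul_le_mul_of_nonneg_left (sd_dec0 hd le_rfl hρ) (add_nonneg h0 ht)

theorem sd_geom {ρ : ℤ} (h0 : 0 ≤ toR ρ) (h1 : ltI ρ one = true) :
    HasSum (fun t : ℕ => toR ρ ^ t) (1 - toR ρ)⁻¹ ∧
      HasSum (fun t : ℕ => t * toR ρ ^ t) (toR ρ / (1 - toR ρ) ^ 2) ∧ 1 ≤ (1 - toR ρ)⁻¹ ∧
      (1 - toR ρ)⁻¹ ≤ toR (divU one (one - ρ)) ∧ toR ρ / (1 - toR ρ) ^ 2 ≤
        toR (mulU ρ (mulU (divU one (one - ρ)) (divU one (one - ρ)))) := by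
  have h2 : toR ρ < 1 := toR_one ▸ ltI_ok h1
  have h3 : 0 < 1 - toR ρ := sub_pos.2 h2
  have h4 : (1 - toR ρ)⁻¹ ≤ toR (divU one (one - ρ)) := by
    have := divU_ok one (b := one - ρ) (by rw [toR_sub, toR_one]; exact h3)
    rwa [toR_sub, toR_one, one_div] at this
  refine ⟨hasSum_geometric_of_lt_one h0 h2, hasSum_coe_mul_geometric_of_norm_lt_one
    (by rw [Real.norm_of_nonneg h0]; exact h2), (one_le_inv₀ h3).2 (by linarith), h4, ?_⟩
  rw [div_eq_mul_inv, ← inv_pow, sq]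
  exact mulU_le h0 (by positivity) le_rfl (mulU_le (by positivity) (by positivity) h4 h4)

theorem sd_expU0 (y : ℤ) : 0 ≤ toR (expU y) := (Real.exp_pos _).le.trans (expU_ok y)

theorem sd_geo (S : Sit cx R P D k r Rr) {km ph0 ph1 h A B C s0 s1 s2 : ℤ}
    {K : ℤ → ℤ → ℤ → Bool} {J : ℕ → Prop} [DecidablePred J] (hh : 0 ≤ toR h) (hA : 0 ≤ toR A)
    (hB : 0 ≤ toR B) (hC : 0 ≤ toR C)
    (hJ : ∀ i, J i → toR km ≤ k + i ∧ ∃ X, toR ph0 + toR ph1 * (k + i - toR km) ≤ X ∧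
      ‖a i‖ ≤ toR h * Real.exp (-(P.ka * D ^ 2 * X)) ∧
      ‖n i‖ ≤ (toR A * (k + i) + toR B * toR cx.q + toR C * toR cx.qn) *
        Real.exp (-(P.ka * D ^ 2 * X)))
    (hg : geo cx R km ph0 ph1 h A B C s0 s1 s2 K = true) :
    ∃ t0 t1 t2, K t0 t1 t2 = true ∧ SideB a n J Rr (toR R.Y) (toR R.Y0) (toR R.e0) (toR R.e1)
      (toR t0 - toR s0) (toR t1 - toR s1) (toR t2 - toR s2) := by
  simp only [geo, fI_eq, Bool.and_eq_true] at hg
  obtain ⟨⟨⟨h1, h2⟩, h3⟩, h4, ⟨h5, h6⟩, hg⟩ := hg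
  refine ⟨_, _, _, hg, ?_⟩
  clear hg
  obtain ⟨-, -, -, hr, hY, hY0, he0, he1⟩ := sd_chk S
  obtain ⟨hq, hqn⟩ := sd_q S
  have hR := sd_Rr S
  have h2 := sd_le0 h2
  have h3 := sd_le0 h3
  have hν : 0 ≤ P.ka * D ^ 2 := S.cx.hν0.le.trans S.cx.hν
  have hE := sd_ref S (X := toR ph0) (sd_le0 h1) (by rw [toR_sub]; linarith [sd_rm S])
  have hg := sd_g0 S (-(mulD cx.ν (ph0 - mulU (mulU (maxI R.r1 R.r2) (maxI R.r1 R.r2)) R.hr)))
  generalize divU (expU _) R.lo = g at hE hg ⊢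
  have hly0 : 0 ≤ toR (maxI 0 (logU (maxI R.Y one))) := by
    rw [toR_maxI, toR_zero]
    exact le_max_left _ _
  have hly : toR R.Y ≤ Real.exp (toR (maxI 0 (logU (maxI R.Y one)))) := by
    have h7 : 0 < toR (maxI R.Y one) := by
      rw [toR_maxI, toR_one]
      exact lt_max_of_lt_right one_pos
    calc toR R.Y ≤ toR (maxI R.Y one) := by
          rw [toR_maxI]
          exact le_max_left _ _
      _ = Real.exp (Real.log (toR (maxI R.Y one))) := (Real.exp_log h7).symm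
      _ ≤ _ := by
          refine Real.exp_le_exp.2 ((logU_ok h7).trans ?_)
          rw [toR_maxI 0]
          exact le_max_right _ _
  generalize maxI 0 (logU (maxI R.Y one)) = ly at hly hly0 h4 h5 ⊢
  have hn0 : 0 ≤ toR (mulD cx.ν ph1) := sd_mulD0 S.cx.hν0.le h2
  have hn1 : toR (mulD cx.ν ph1) ≤ P.ka * D ^ 2 * toR ph1 :=
    mulD_le S.cx.hν0.le h2 S.cx.hν le_rfl
  generalize mulD cx.ν ph1 = n1 at hn0 hn1 h4 h5 h6 ⊢
  have h4 : 1 ≤ (toR n1 - toR ly) * toR km := by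
    have := (leI_ok h4).trans (mulD_ok _ _)
    rwa [toR_one, toR_sub] at this
  have hρ : Real.exp (-(toR n1 - toR ly)) ≤ toR (expU (ly - n1)) := by
    rw [neg_sub, ← toR_sub]
    exact expU_ok _
  have hρ0 : Real.exp (-toR n1) ≤ toR (expU (-n1)) := toR_neg n1 ▸ expU_ok _
  have p1 := sd_expU0 (ly - n1)
  have p0 := sd_expU0 (-n1)
  obtain ⟨a1, a2, a3, a4, a5⟩ := sd_geom p1 h5
  obtain ⟨b1, -, b3, -, -⟩ := sd_geom p0 h6
  have h6 : toR (expU (-n1)) < 1 := toR_one ▸ ltI_ok h6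
  have hgy : toR g * toR R.Y0 * Real.exp (toR ly * toR km) ≤
      toR (mulU (mulU g R.Y0) (expU (mulU ly km))) :=
    mulU_le (by positivity) (Real.exp_pos _).le (mulU_ok _ _)
      ((Real.exp_le_exp.2 (mulU_ok _ _)).trans (expU_ok _))
  have hgy0 : 0 ≤ toR (mulU (mulU g R.Y0) (expU (mulU ly km))) := le_trans (by positivity) hgy
  generalize mulU (mulU g R.Y0) (expU (mulU ly km)) = gy at hgy hgy0 ⊢
  generalize expU (ly - n1) = ρ at hρ p1 a1 a2 a3 a4 a5 ⊢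
  generalize expU (-n1) = ρ0 at hρ0 p0 b1 b3 h6 ⊢
  have c0 : 0 ≤ (1 - toR ρ)⁻¹ := zero_le_one.trans a3
  have c1 : toR km * (1 - toR ρ)⁻¹ + toR ρ / (1 - toR ρ) ^ 2 ≤
      toR (mulU km (divU one (one - ρ)) +
        mulU ρ (mulU (divU one (one - ρ)) (divU one (one - ρ)))) := by
    rw [toR_add]
    exact add_le_add (mulU_le h3 c0 le_rfl a4) a5
  have c2 : 0 ≤ toR km * (1 - toR ρ)⁻¹ + toR ρ / (1 - toR ρ) ^ 2 := by positivity
  have a6 := (a1.mul_left (toR km)).add a2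
  refine sd_side S (i0 := ⌈toR km - k⌉₊) (b1.mul_left (toR g * toR h))
    ((a6.add a1).mul_left (toR gy * toR h))
    (((a6.mul_left (toR A + toR h * (toR R.e0 + toR R.e1))).add
      (a1.mul_left (toR B * toR cx.q + toR C * toR cx.qn + toR h * toR R.e0))).mul_left (toR gy))
    (fun t => by positivity) (fun t => by positivity) (fun t => by positivity) ?_ ?_ ?_
    fun i hi => ?_
  · rw [toR_add, add_sub_cancel_left, ← div_eq_mul_inv]
    exact divU_le (by positivity) (by rw [toR_sub, toR_one]; linarith) (mulU_ok _ _)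
      (by rw [toR_sub, toR_one])
  · rw [toR_add, add_sub_cancel_left]
    refine mulU_le (by positivity) (by positivity) (mulU_ok _ _) ?_
    rw [toR_add _ (divU _ _)]
    exact add_le_add c1 a4
  · rw [toR_add, add_sub_cancel_left]
    refine mulU_le hgy0 (by positivity) le_rfl ?_
    rw [toR_add]
    refine add_le_add (mulU_le (by positivity) c2 ?_ c1) (mulU_le (by positivity) c0 ?_ a4)
    · rw [toR_add]
      exact add_le_add le_rfl (mulU_le hh (by positivity) le_rfl (toR_add _ _).ge)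
    · rw [toR_add, toR_add]
      exact add_le_add (add_le_add (mulU_ok _ _) (mulU_ok _ _)) (mulU_ok _ _)
  obtain ⟨j1, X, j2, j3, j4⟩ := hJ i hi
  have j5 : ⌈toR km - k⌉₊ ≤ i := Nat.ceil_le.2 (by linarith)
  have j6 : toR km + (i - ⌈toR km - k⌉₊ : ℕ) ≤ k + i := by
    rw [Nat.cast_sub j5]
    linarith [Nat.le_ceil (toR km - k)]
  refine ⟨j5, ?_⟩
  generalize i - ⌈toR km - k⌉₊ = t at j6 ⊢
  have hκ := sd_κ0 S i
  have hi' : (i : ℝ) ≤ k + i := by linarith [sd_k0 S]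
  obtain ⟨d1, d2⟩ := sd_dec h4 h3 j6 hρ
  have d0 := sd_dec0 (y := k + i - toR km) (t := t) hn0 (by linarith) hρ0
  have hX : Real.exp (-(P.ka * D ^ 2 * X)) ≤
      toR g * Real.exp (-(toR n1 * (k + i - toR km))) * Rr := by
    calc Real.exp (-(P.ka * D ^ 2 * X)) ≤
          Real.exp (-(P.ka * D ^ 2 * toR ph0) + -(toR n1 * (k + i - toR km))) := by
          refine Real.exp_le_exp.2 ?_
          have e1 := mul_le_mul_of_nonneg_left j2 hν
          have e2 := mul_le_mul_of_nonneg_right hn1 (sub_nonneg.2 j1)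
          linarith
      _ ≤ toR g * Rr * Real.exp (-(toR n1 * (k + i - toR km))) := by
          rw [Real.exp_add]
          exact mul_le_mul_of_nonneg_right hE (Real.exp_pos _).le
      _ = _ := by ring
  have hW : toR g * Real.exp (-(toR n1 * (k + i - toR km))) * (toR R.Y0 * toR R.Y ^ i) ≤
      toR gy * Real.exp (-((toR n1 - toR ly) * (k + i - toR km))) := by
    have e1 : toR R.Y ^ i ≤ Real.exp (toR ly * (k + i)) := by
      refine (pow_le_pow_left₀ hY hly i).trans ?_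
      rw [← Real.exp_nat_mul, mul_comm]
      exact Real.exp_le_exp.2 (mul_le_mul_of_nonneg_left hi' hly0)
    calc toR g * Real.exp (-(toR n1 * (k + i - toR km))) * (toR R.Y0 * toR R.Y ^ i) ≤
          toR g * Real.exp (-(toR n1 * (k + i - toR km))) *
            (toR R.Y0 * Real.exp (toR ly * (k + i))) :=
          mul_le_mul_of_nonneg_left (mul_le_mul_of_nonneg_left e1 hY0) (by positivity)
      _ = toR g * toR R.Y0 * Real.exp (-(toR n1 * (k + i - toR km)) + toR ly * (k + i)) := by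
          rw [Real.exp_add]
          ring
      _ = toR g * toR R.Y0 * Real.exp (toR ly * toR km) *
            Real.exp (-((toR n1 - toR ly) * (k + i - toR km))) := by
          rw [mul_assoc (toR g * toR R.Y0), ← Real.exp_add]
          congr 2
          ring
      _ ≤ _ := mul_le_mul_of_nonneg_right hgy (Real.exp_pos _).le
  have u0 := (Real.exp_pos (-((toR n1 - toR ly) * (k + i - toR km)))).le
  refine (sd_one S hh (by positivity) j3 j4 hX hW).mono hR ?_ ?_ ?_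
  · have := mul_le_mul_of_nonneg_left d0 (mul_nonneg hg hh)
    linarith
  · generalize Real.exp (-((toR n1 - toR ly) * (k + i - toR km))) = u at d1 d2 u0 ⊢
    have e1 : (i + 1) * u ≤ toR km * toR ρ ^ t + t * toR ρ ^ t + toR ρ ^ t := by
      have := mul_le_mul_of_nonneg_right hi' u0
      linarith
    have := mul_le_mul_of_nonneg_left e1 (mul_nonneg hgy0 hh)
    linarith
  · generalize Real.exp (-((toR n1 - toR ly) * (k + i - toR km))) = u at d1 d2 u0 ⊢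
    rw [mul_assoc]
    refine mul_le_mul_of_nonneg_left ?_ hgy0
    have e1 := mul_le_mul_of_nonneg_left d2 hA
    have e2 := mul_le_mul_of_nonneg_left ((mul_le_mul_of_nonneg_right hi' u0).trans d2)
      (mul_nonneg hh (add_nonneg he0 he1))
    have e3 := mul_le_mul_of_nonneg_left d1
      (by positivity : 0 ≤ toR B * toR cx.q + toR C * toR cx.qn + toR h * toR R.e0)
    linarith

theorem sd_geoL (S : Sit cx R P D k r Rr) (hb : b.Mem P) {g : Pc} {l : List FU}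
    (hl : ∀ f ∈ l, f.Ok b) {j : ℕ} {s0 s1 s2 : ℤ} {K : ℤ → ℤ → ℤ → Bool} {J : ℕ → Prop}
    [DecidablePred J] (hJ : ∀ i, J i → j ≤ i ∧ IsPc P pos D k a n i g ∧
      ∃ f ∈ l, toR f.T1 ≤ sT pos D k i ∧ sT pos D k i ≤ toR f.T2)
    (h : geoL cx R j g l s0 s1 s2 K = true) :
    ∃ t0 t1 t2, K t0 t1 t2 = true ∧ SideB a n J Rr (toR R.Y) (toR R.Y0) (toR R.e0) (toR R.e1)
      (toR t0 - toR s0) (toR t1 - toR s1) (toR t2 - toR s2) := by
  classical
  induction l generalizing s0 s1 s2 J with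
  | nil => exact ⟨s0, s1, s2, h, sd_empty fun i hi => by simpa using (hJ i hi).2.2⟩
  | cons f l ih =>
    simp only [geoL, fI_eq, Bool.and_eq_true] at h
    obtain ⟨⟨⟨⟨⟨⟨h1, h2⟩, h3⟩, h4⟩, h5⟩, h6⟩, h⟩ := h
    have hH : 0 ≤ toR (-f.hh) := by
      rw [toR_neg]
      linarith [sd_ge0 h2]
    obtain ⟨x0, x1, x2, h7, h8⟩ := sd_geo (a := a) (n := n) S
      (J := fun i => J i ∧ toR f.T1 ≤ sT pos D k i ∧ sT pos D k i ≤ toR f.T2) (sd_le0 h3)
      (sd_le0 h4) (sd_le0 h5) (sd_le0 h6) (fun i hi => by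
        obtain ⟨-, u1, u2⟩ := sd_up S hb (hJ i hi.1).2.1 (hl f List.mem_cons_self) h1 hi.2.1 hi.2.2
          (sd_le0 h5) (sd_le0 h6)
        obtain ⟨m0, m1⟩ := sd_tmin S hi.2.1 hi.2.2
        have e1 : (j : ℝ) ≤ i := by exact_mod_cast (hJ i hi.1).1
        have e2 : toR (maxI (R.k1 + j * one) (divD f.tmin cx.Dh)) ≤ k + i := by
          rw [toR_maxI, sd_idx]
          exact max_le (by linarith [S.h1]) m1
        have e3 : 0 ≤ toR (maxI (R.k1 + j * one) (divD f.tmin cx.Dh)) := by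
          rw [toR_maxI]
          exact le_max_of_le_right m0
        refine ⟨e2, _, ?_, u1, u2⟩
        generalize maxI (R.k1 + j * one) (divD f.tmin cx.Dh) = km at e2 e3 ⊢
        have e4 := mulD_ok km (-f.hh)
        have e5 := mulD_ok km (mulD km (-f.hh))
        have e6 := mul_le_mul_of_nonneg_left e4 e3
        have e7 := mul_le_mul_of_nonneg_right e4 (sub_nonneg.2 e2)
        have e8 := mul_nonneg (sq_nonneg (k + i - toR km)) hH
        rw [toR_intmul]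
        push_cast
        linarith) h
    obtain ⟨t0, t1, t2, h9, h10⟩ := ih (fun f hf => hl f (List.mem_cons_of_mem _ hf))
      (J := fun i => J i ∧ ∃ f ∈ l, toR f.T1 ≤ sT pos D k i ∧ sT pos D k i ≤ toR f.T2)
      (fun i hi => ⟨(hJ i hi.1).1, (hJ i hi.1).2.1, hi.2⟩) h7
    refine ⟨t0, t1, t2, h9, sd_union S (fun i hi => ?_) h8 h10 (by ring) (by ring) (by ring)⟩
    obtain ⟨f', hf, h11⟩ := (hJ i hi).2.2
    rcases List.mem_cons.1 hf with rfl | hf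
    · exact Or.inl ⟨hi, h11⟩
    · exact Or.inr ⟨hi, f', hf, h11⟩

/-- PLAN: assign to each index an entry containing its parameter; for one entry the numbers
`κ = k + i` are at least `km` and differ by integers, `i ≤ κ`, `Y^i ≤ exp (ly κ)`, and
`κ exp (-dec κ)` decreases for `κ ≥ km` because `dec km ≥ 1`. -/
theorem geoL_ok (S : Sit cx R P D k r Rr) (hb : b.Mem P) {g : Pc} {l : List FU}
    (hl : ∀ f ∈ l, f.Ok b) {j m : ℕ} {Tm s0 s1 s2 : ℤ} {K : ℤ → ℤ → ℤ → Bool}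
    (hp : ∀ i, j ≤ i → i < m → IsPc P pos D k a n i g ∧ (k + i) * D ≤ toR Tm)
    (hc : coversS pos (mulD (R.k1 + j * one) cx.Dl) Tm l = true)
    (h : geoL cx R j g l s0 s1 s2 K = true) :
    ∃ t0 t1 t2, K t0 t1 t2 = true ∧
      SideB a n (fun i => j ≤ i ∧ i < m) Rr (toR R.Y) (toR R.Y0) (toR R.e0) (toR R.e1)
        (toR t0 - toR s0) (toR t1 - toR s1) (toR t2 - toR s2) :=
  sd_geoL S hb hl (fun i hi =>
    ⟨hi.1, (hp i hi.1 hi.2).1, sd_cov hc (sd_lo S hi.1) (hp i hi.1 hi.2).2⟩) h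

theorem sd_FIA {f : FI} {u1 u2 : ℤ} {K : ℤ → Bool} (h : f.A u1 u2 K = true) :
    ∃ A, K A = true ∧ 0 ≤ toR A ∧ 0 ≤ toR f.hi ∧ 0 ≤ toR f.B ∧ 0 ≤ toR f.C ∧
      ∀ τ, 0 < τ → toR u1 * τ ≤ toR f.ah → toR f.ah ≤ toR u2 * τ →
        toR f.Af * τ + toR f.PG * Real.sqrt ((τ - toR f.ah) ^ 2 + (toR f.li *
          max (|(τ - toR f.ah * toR f.e1)|) (|(τ - toR f.ah * toR f.e2)|)) ^ 2) ≤ toR A * τ := by
  simp only [FI.A, fI_eq, Bool.and_eq_true] at h
  obtain ⟨⟨⟨⟨⟨⟨⟨⟨⟨h1, h2⟩, h3⟩, h4⟩, h5⟩, h6⟩, h7⟩, h8⟩, h9⟩, h⟩ := h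
  have h1 := sd_le0 h1
  have h2 := sd_le0 h2
  have h3 := leI_ok h3
  have h4 := sd_le0 h4
  have h5 := sd_le0 h5
  have h6 := sd_le0 h6
  refine ⟨_, h, ?_, sd_le0 h9, sd_le0 h7, sd_le0 h8, fun τ hτ t1 t2 => ?_⟩
  · rw [toR_add]
    exact add_nonneg h6 (sd_mulU0 h5 ((Real.sqrt_nonneg _).trans (sqrtU_ok _)))
  clear h
  have a0 : 0 ≤ toR f.ah := (mul_nonneg h1 hτ.le).trans t1
  have a1 : |τ - toR f.ah| ≤ toR (maxI (one - u1) (u2 - one)) * τ := by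
    rw [toR_maxI, toR_sub, toR_sub, toR_one, max_mul_of_nonneg _ _ hτ.le, abs_le]
    constructor
    · rw [neg_le]
      exact le_max_of_le_right (by linarith)
    · exact le_max_of_le_left (by linarith)
  have a2 : ∀ e, toR f.e1 ≤ e → e ≤ toR f.e2 → |τ - toR f.ah * e| ≤
      toR (maxI (one - mulD u1 f.e1) (mulU u2 f.e2 - one)) * τ := fun e e1 e2 => by
    rw [toR_maxI, toR_sub, toR_sub, toR_one, max_mul_of_nonneg _ _ hτ.le, abs_le]
    have b1 := mul_le_mul_of_nonneg_right (mulD_ok u1 f.e1) hτ.le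
    have b2 := mul_le_mul_of_nonneg_right (mulU_ok u2 f.e2) hτ.le
    have b3 := mul_le_mul_of_nonneg_right t1 h2
    have b4 := mul_le_mul_of_nonneg_right t2 (h2.trans h3)
    have b5 := mul_le_mul_of_nonneg_left e1 a0
    have b6 := mul_le_mul_of_nonneg_left e2 a0
    constructor
    · rw [neg_le]
      exact le_max_of_le_right (by linarith)
    · exact le_max_of_le_left (by linarith)
  have a3 : toR f.li * max (|(τ - toR f.ah * toR f.e1)|) (|(τ - toR f.ah * toR f.e2)|) ≤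
      toR (mulU f.li (maxI (one - mulD u1 f.e1) (mulU u2 f.e2 - one))) * τ := by
    refine (mul_le_mul_of_nonneg_left (max_le (a2 _ le_rfl h3) (a2 _ h3 le_rfl)) h4).trans ?_
    rw [← mul_assoc]
    exact mul_le_mul_of_nonneg_right (mulU_ok _ _) hτ.le
  have a4 : 0 ≤ toR f.li * max (|(τ - toR f.ah * toR f.e1)|) (|(τ - toR f.ah * toR f.e2)|) :=
    mul_nonneg h4 (le_max_of_le_left (abs_nonneg _))
  generalize toR f.li * max (|(τ - toR f.ah * toR f.e1)|) (|(τ - toR f.ah * toR f.e2)|) = z at a3 a4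
  generalize maxI (one - u1) (u2 - one) = m1 at a1
  generalize mulU f.li (maxI (one - mulD u1 f.e1) (mulU u2 f.e2 - one)) = m2 at a3
  have a5 : Real.sqrt ((τ - toR f.ah) ^ 2 + z ^ 2) ≤ toR (sqrtU (mulU m1 m1 + mulU m2 m2)) * τ := by
    refine le_trans ?_ (mul_le_mul_of_nonneg_right (sqrtU_ok _) hτ.le)
    rw [← Real.sqrt_sq hτ.le, ← Real.sqrt_mul' _ (sq_nonneg τ), Real.sqrt_sq hτ.le]
    refine Real.sqrt_le_sqrt ?_
    have b1 := pow_le_pow_left₀ (abs_nonneg _) a1 2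
    have b2 := pow_le_pow_left₀ a4 a3 2
    have b3 := mul_le_mul_of_nonneg_right (mulU_ok m1 m1) (sq_nonneg τ)
    have b4 := mul_le_mul_of_nonneg_right (mulU_ok m2 m2) (sq_nonneg τ)
    rw [sq_abs] at b1
    rw [toR_add]
    linarith
  have a6 := mul_le_mul_of_nonneg_left a5 h5
  have a7 := mul_le_mul_of_nonneg_right (mulU_ok f.PG (sqrtU (mulU m1 m1 + mulU m2 m2))) hτ.le
  rw [toR_add]
  linarith

theorem sd_img (S : Sit cx R P D k r Rr) (hb : b.Mem P) {f : FI} (hf : f.Ok b) (hs : f.pos = pos)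
    {i : ℕ} (hp : IsPc P pos D k a n i f.pc) (hT : toR f.TI ≤ (k + i) * D) {A X : ℝ}
    (hB : 0 ≤ toR f.B) (hC : 0 ≤ toR f.C)
    (hA : toR f.Af * ((k + i) * D) + toR f.PG * Real.sqrt (((k + i) * D - toR f.ah) ^ 2 +
      (toR f.li * max (|((k + i) * D - toR f.ah * toR f.e1)|)
        (|((k + i) * D - toR f.ah * toR f.e2)|)) ^ 2) ≤ A * ((k + i) * D))
    (hX : D ^ 2 * X ≤ (k + i) * D * toR f.ah - toR f.y0) :
    ‖a i‖ ≤ toR f.hi * Real.exp (-(P.ka * D ^ 2 * X)) ∧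
      ‖n i‖ ≤ (A * (k + i) + toR f.B * toR cx.q + toR f.C * toR cx.qn) *
        Real.exp (-(P.ka * D ^ 2 * X)) := by
  have hu := hf P hb (hp.2.2 rfl) (sT pos D k i) (by
    rw [hs, sT]
    split_ifs
    · exact hT
    · rwa [neg_neg])
  rw [Par.Img, sd_abs S] at hu
  exact (sd_ub S hp hu hB hC (hA.trans_eq (mul_assoc _ _ _).symm) (by linarith)).2

theorem imgG_ok (S : Sit cx R P D k r Rr) (hb : b.Mem P) {f : FI} (hf : f.Ok b) (hs : f.pos = pos)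
    {m : ℕ} {s0 s1 s2 : ℤ} {K : ℤ → ℤ → ℤ → Bool}
    (hp : ∀ i, m ≤ i → IsPc P pos D k a n i f.pc ∧ toR f.TI ≤ (k + i) * D)
    (h : imgG cx R f s0 s1 s2 K = true) :
    ∃ t0 t1 t2, K t0 t1 t2 = true ∧
      SideB a n (fun i => m ≤ i) Rr (toR R.Y) (toR R.Y0) (toR R.e0) (toR R.e1)
        (toR t0 - toR s0) (toR t1 - toR s1) (toR t2 - toR s2) := by
  rw [imgG, Bool.and_eq_true, Bool.and_eq_true] at h
  obtain ⟨⟨h1, h2⟩, h⟩ := h
  obtain ⟨A, h, hA, hh, hB, hC, hτ⟩ := sd_FIA h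
  simp only [fI_eq, Bool.and_eq_true] at h
  obtain ⟨h3, h⟩ := h
  have h1 := sd_lt0 h1
  have h2 := sd_le0 h2
  have h3 := sd_le0 h3
  have hD := S.cx.hD
  have hDh := hD.trans_le S.cx.hh
  refine sd_geo S hh hA hB hC (fun i hi => ?_) h
  obtain ⟨p1, p2⟩ := hp i hi
  have e0 := h1.trans_le p2
  have e1 : toR (divD f.TI cx.Dh) ≤ k + i := by
    refine (divD_le h1.le hD p2 S.cx.hh).trans (le_of_eq ?_)
    field_simp
  have e2 := (div_le_iff₀ h1).1 (divU_ok f.ah h1)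
  have e3 : 0 ≤ toR (divU f.ah f.TI) := (div_nonneg h2 h1.le).trans (divU_ok f.ah h1)
  have e4 := (div_le_iff₀ h1).1 (divU_ok (maxI f.y0 0) h1)
  have e5 : toR f.y0 ≤ toR (maxI f.y0 0) ∧ 0 ≤ toR (maxI f.y0 0) := by
    rw [toR_maxI, toR_zero]
    exact ⟨le_max_left _ _, le_max_right _ _⟩
  have e6 : 0 ≤ toR (divU (maxI f.y0 0) f.TI) :=
    (div_nonneg e5.2 h1.le).trans (divU_ok _ h1)
  have e7 := (le_div_iff₀ hDh).1 (divD_ok (f.ah - divU (maxI f.y0 0) f.TI) hDh)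
  rw [toR_sub] at e7
  generalize divD (f.ah - divU (maxI f.y0 0) f.TI) cx.Dh = c at h3 e7 ⊢
  refine ⟨e1, toR c * (k + i), ?_, sd_img S hb hf hs p1 p2 hB hC (hτ _ e0 ?_ ?_) ?_⟩
  · linarith [mulD_ok c (divD f.TI cx.Dh)]
  · rwa [toR_zero, zero_mul]
  · exact e2.trans (mul_le_mul_of_nonneg_left p2 e3)
  · have b1 := mul_le_mul_of_nonneg_left p2 e6
    have b2 := mul_le_mul_of_nonneg_left S.cx.hh h3
    have b3 := mul_le_mul_of_nonneg_left (b2.trans e7) e0.le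
    linarith [e5.1]

theorem sd_conc1 (S : Sit cx R P D k r Rr) (j : ℕ) (c : ℝ) :
    min ((toR R.k1 + j) * c - toR R.r1 ^ 2 * toR R.hr)
      ((toR R.k2 + j) * c - toR R.r2 ^ 2 * toR R.hr) ≤ (k + j) * c - r ^ 2 * toR R.hr := by
  obtain ⟨-, -, -, h4, -⟩ := sd_chk S
  rcases S.hr with ⟨e, e1, e2⟩ | ⟨e, e1, e2⟩
  · rw [e, e1, e2]
    rcases min_le_iff.1 (sd_quad (be := c) (neg_nonpos.2 h4) S.h1 S.h2) with h8 | h8
    · exact min_le_of_left_le (by linarith)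
    · exact min_le_of_right_le (by linarith)
  · rw [e, e1, e2, toR_sub, toR_sub, toR_one]
    rcases min_le_iff.1 (sd_quad (be := c + 2 * toR R.hr) (neg_nonpos.2 h4) S.h1 S.h2) with h8 | h8
    · exact min_le_of_left_le (by linarith)
    · exact min_le_of_right_le (by linarith)

theorem sd_tail {ρ x y s : ℝ} (h : HasSum (fun t : ℕ => ρ ^ t) s) :
    HasSum (fun t : ℕ => if t = 0 then x else y * ρ ^ t) (x + y * (s - 1)) := by
  have h1 := (h.mul_left y).add (hasSum_ite_eq 0 (x - y))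
  have e : x + y * (s - 1) = y * s + (x - y) := by ring
  have e' : (fun t : ℕ => if t = 0 then x else y * ρ ^ t) =
      fun t : ℕ => y * ρ ^ t + if t = 0 then x - y else 0 := by
    funext t
    split_ifs with h2
    · rw [h2, pow_zero]
      ring
    · rw [add_zero]
  rw [e, e']
  exact h1

theorem imgX_ok (S : Sit cx R P D k r Rr) (hb : b.Mem P) {f : FI} (hf : f.Ok b) (hs : f.pos = pos)
    {j : ℕ} {s0 s1 s2 : ℤ} {K : ℤ → ℤ → ℤ → Bool}
    (hp : ∀ i, j ≤ i → IsPc P pos D k a n i f.pc) (h : imgX cx R j f s0 s1 s2 K = true) :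
    ∃ t0 t1 t2, K t0 t1 t2 = true ∧
      SideB a n (fun i => j ≤ i) Rr (toR R.Y) (toR R.Y0) (toR R.e0) (toR R.e1)
        (toR t0 - toR s0) (toR t1 - toR s1) (toR t2 - toR s2) := by
  simp only [imgX, fI_eq, Bool.and_eq_true] at h
  obtain ⟨⟨⟨h1, h2⟩, h3⟩, h4, h5, h⟩ := h
  obtain ⟨A1, h, hA1, -, -, -, hτ1⟩ := sd_FIA h
  obtain ⟨A, h, hA, hh, hB, hC, hτ⟩ := sd_FIA h
  rw [Bool.and_eq_true] at h
  obtain ⟨h6, h⟩ := h
  refine ⟨_, _, _, h, ?_⟩
  clear h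
  obtain ⟨k1, -, -, hr, hY, hY0, he0, he1⟩ := sd_chk S
  obtain ⟨hq, hqn⟩ := sd_q S
  have hR := sd_Rr S
  have hD := S.cx.hD
  have hDh := hD.trans_le S.cx.hh
  have h1 := sd_lt0 h1
  have h2 := leI_ok h2
  have h3 := sd_le0 h3
  have h4 := sd_lt0 h4
  have hν : 0 ≤ P.ka * D ^ 2 := S.cx.hν0.le.trans S.cx.hν
  have hc0 : 0 ≤ toR (divD f.ah cx.Dh) := sd_divD0 h3 hDh.le
  have hc : toR (divD f.ah cx.Dh) * D ≤ toR f.ah :=
    (mul_le_mul_of_nonneg_left S.cx.hh hc0).trans ((le_div_iff₀ hDh).1 (divD_ok f.ah hDh))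
  generalize divD f.ah cx.Dh = c at h5 h6 hc0 hc ⊢
  have hy0 : toR f.y0 ≤ toR (divU (maxI f.y0 0) (mulD cx.Dl cx.Dl)) * D ^ 2 := by
    have e5 : toR f.y0 ≤ toR (maxI f.y0 0) ∧ 0 ≤ toR (maxI f.y0 0) := by
      rw [toR_maxI, toR_zero]
      exact ⟨le_max_left _ _, le_max_right _ _⟩
    refine e5.1.trans ((div_le_iff₀ (pow_pos hD 2)).1 (divU_le e5.2 h4 le_rfl ?_))
    rw [sq]
    exact mulD_le S.cx.hl0 S.cx.hl0 S.cx.hl S.cx.hl
  generalize divU (maxI f.y0 0) (mulD cx.Dl cx.Dl) = y0 at h5 hy0 ⊢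
  have hE := sd_ref S (X := (k + j) * toR c - toR y0) (sd_le0 h5) (by
    have e1 : toR (minI (mulD (R.k1 + j * one) c - mulU (mulU R.r1 R.r1) R.hr)
        (mulD (R.k2 + j * one) c - mulU (mulU R.r2 R.r2) R.hr)) ≤
          (k + j) * toR c - r ^ 2 * toR R.hr := by
      rw [toR_minI, toR_sub, toR_sub]
      refine le_trans (min_le_min ?_ ?_) (sd_conc1 S j (toR c))
      · exact sub_le_sub (sd_idx R.k1 j ▸ mulD_ok _ _) (sd_sq _ hr)
      · exact sub_le_sub (sd_idx R.k2 j ▸ mulD_ok _ _) (sd_sq _ hr)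
    rw [toR_sub]
    linarith)
  have hg := sd_g0 S (-(mulD cx.ν (minI (mulD (R.k1 + j * one) c - mulU (mulU R.r1 R.r1) R.hr)
    (mulD (R.k2 + j * one) c - mulU (mulU R.r2 R.r2) R.hr) - y0)))
  generalize divU (expU _) R.lo = g at hE hg ⊢
  have hr0 := sd_exp S hc0 le_rfl
  have p0 := sd_expU0 (-(mulD cx.ν c))
  generalize expU (-(mulD cx.ν c)) = r0 at hr0 p0 h6 ⊢
  have hm : toR R.Y ≤ toR (maxI R.Y one) ∧ 1 ≤ toR (maxI R.Y one) := by
    rw [toR_maxI, toR_one]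
    exact ⟨le_max_left _ _, le_max_right _ _⟩
  have hρ1 : toR r0 ≤ toR (mulU (maxI R.Y one) r0) :=
    (le_mul_of_one_le_left p0 hm.2).trans (mulU_ok _ _)
  have hρ2 : toR r0 * toR R.Y ≤ toR (mulU (maxI R.Y one) r0) :=
    (mul_comm _ _).trans_le (mulU_le hY p0 hm.1 le_rfl)
  generalize mulU (maxI R.Y one) r0 = ρ at hρ1 hρ2 h6 ⊢
  have p1 := p0.trans hρ1
  obtain ⟨a1, a2, a3, a4, a5⟩ := sd_geom p1 h6
  have hw : toR g * (toR R.Y0 * toR R.Y ^ j) ≤ toR (mulU g (mulU R.Y0 (powU R.Y j))) :=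
    mulU_le hg (by positivity) le_rfl (mulU_le hY0 (pow_nonneg hY j) le_rfl (sd_pow hY j))
  have hw0 : 0 ≤ toR (mulU g (mulU R.Y0 (powU R.Y j))) := le_trans (by positivity) hw
  generalize mulU g (mulU R.Y0 (powU R.Y j)) = w at hw hw0 ⊢
  generalize mulU ρ (mulU (divU one (one - ρ)) (divU one (one - ρ))) = S1 at a5 ⊢
  generalize divU one (one - ρ) = S0 at a4 ⊢
  have hkb : k + j ≤ toR (R.k2 + j * one) := by
    rw [sd_idx]
    linarith [S.h2]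
  have hkb0 := (sd_κ0 S j).trans hkb
  have htb := sd_hi S j
  have hta := fun i (hi : j ≤ i) => sd_lo S hi
  generalize mulU (R.k2 + j * one) cx.Dh = tb at htb hτ1
  generalize R.k2 + j * one = kb at hkb hkb0 ⊢
  generalize mulD (R.k1 + j * one) cx.Dl = ta at hta h1 h2 hτ hτ1
  have c0 : 0 ≤ (1 - toR ρ)⁻¹ := zero_le_one.trans a3
  have c1 : 0 ≤ (1 - toR ρ)⁻¹ - 1 := sub_nonneg.2 a3
  have c2 : 0 ≤ toR ρ / (1 - toR ρ) ^ 2 := by positivity
  refine sd_side S (i0 := j) (a1.mul_left (toR g * toR f.hi))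
    (((a1.mul_left ((j : ℝ) + 1)).add a2).mul_left (toR w * toR f.hi))
    (((((sd_tail (x := toR A1 * toR kb) (y := toR A * toR kb) a1).add (a2.mul_left (toR A))).add
      (a1.mul_left (toR f.B * toR cx.q + toR f.C * toR cx.qn +
        toR f.hi * ((j + 1) * toR R.e0 + j * toR R.e1)))).add
      (a2.mul_left (toR f.hi * (toR R.e0 + toR R.e1)))).mul_left (toR w))
    (fun t => by positivity) (fun t => by positivity) (fun t => by positivity) ?_ ?_ ?_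
    fun i hi => ⟨hi, ?_⟩
  · rw [toR_add, add_sub_cancel_left]
    exact mulU_le (by positivity) c0 (mulU_ok _ _) a4
  · rw [toR_add, add_sub_cancel_left]
    refine mulU_le (by positivity) (by positivity) (mulU_ok _ _) ?_
    rw [toR_add, sd_succ]
    exact add_le_add (mul_le_mul_of_nonneg_left a4 (by positivity)) a5
  · rw [toR_add, add_sub_cancel_left]
    refine mulU_le hw0 (by positivity) le_rfl ?_
    rw [toR_add, toR_add, toR_add]
    refine add_le_add (add_le_add ?_ (mulU_le (by positivity) c0 ?_ a4))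
      (mulU_le (by positivity) c2 (mulU_le hh (by positivity) le_rfl (toR_add _ _).ge) a5)
    · have b1 : toR kb * ((1 - toR ρ)⁻¹ - 1) + toR ρ / (1 - toR ρ) ^ 2 ≤
          toR (mulU kb (S0 - one) + S1) := by
        rw [toR_add]
        refine add_le_add (mulU_le hkb0 c1 le_rfl ?_) a5
        rw [toR_sub, toR_one]
        linarith
      have b2 := mulU_le hA (by positivity) le_rfl b1
      linarith [mulU_ok A1 kb]
    · rw [toR_add, toR_add]
      refine add_le_add (add_le_add (mulU_ok _ _) (mulU_ok _ _))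
        (mulU_le hh (by positivity) le_rfl (le_of_eq ?_))
      rw [toR_add, sd_succ, toR_natmul]
  have p2 := hta i hi
  have p3 := hp i hi
  obtain ⟨t, rfl⟩ := Nat.exists_eq_add_of_le hi
  rw [Nat.add_sub_cancel_left]
  have ht : (0 : ℝ) ≤ t := Nat.cast_nonneg t
  have hκ := sd_κ0 S (j + t)
  have e0 := h1.trans_le p2
  have e2 : toR f.ah ≤ toR (divU f.ah ta) * ((k + (j + t : ℕ)) * D) :=
    ((div_le_iff₀ h1).1 (divU_ok f.ah h1)).trans
      (mul_le_mul_of_nonneg_left p2 ((div_nonneg h3 h1.le).trans (divU_ok f.ah h1)))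
  have e3 : D ^ 2 * ((k + (j + t : ℕ)) * toR c - toR y0) ≤
      (k + (j + t : ℕ)) * D * toR f.ah - toR f.y0 := by
    have := mul_le_mul_of_nonneg_left hc e0.le
    linarith
  have hX : Real.exp (-(P.ka * D ^ 2 * ((k + (j + t : ℕ)) * toR c - toR y0))) ≤
      toR g * toR r0 ^ t * Rr := by
    calc Real.exp (-(P.ka * D ^ 2 * ((k + (j + t : ℕ)) * toR c - toR y0))) =
          Real.exp (-(P.ka * D ^ 2 * ((k + j) * toR c - toR y0))) *
            Real.exp (-(P.ka * D ^ 2 * toR c * t)) := by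
          rw [← Real.exp_add]
          congr 1
          push_cast
          ring
      _ ≤ toR g * Rr * toR r0 ^ t :=
          mul_le_mul hE (sd_dec0 (mul_nonneg hν hc0) le_rfl hr0) (Real.exp_pos _).le
            (mul_nonneg hg hR)
      _ = _ := by ring
  have hW : toR g * toR r0 ^ t * (toR R.Y0 * toR R.Y ^ (j + t)) ≤ toR w * toR ρ ^ t := by
    calc toR g * toR r0 ^ t * (toR R.Y0 * toR R.Y ^ (j + t)) =
          toR g * (toR R.Y0 * toR R.Y ^ j) * (toR r0 * toR R.Y) ^ t := by ring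
      _ ≤ _ := mul_le_mul hw (pow_le_pow_left₀ (mul_nonneg p0 hY) hρ2 t) (by positivity) hw0
  have u0 : 0 ≤ toR ρ ^ t := pow_nonneg p1 t
  have key : ∀ A' : ℝ, 0 ≤ A' → A' * (k + (j + t : ℕ)) * toR ρ ^ t ≤
      (if t = 0 then toR A1 * toR kb else toR A * toR kb * toR ρ ^ t) + toR A * (t * toR ρ ^ t) →
      toR f.Af * ((k + (j + t : ℕ)) * D) + toR f.PG *
        Real.sqrt (((k + (j + t : ℕ)) * D - toR f.ah) ^ 2 +
          (toR f.li * max (|((k + (j + t : ℕ)) * D - toR f.ah * toR f.e1)|)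
            (|((k + (j + t : ℕ)) * D - toR f.ah * toR f.e2)|)) ^ 2) ≤
        A' * ((k + (j + t : ℕ)) * D) →
      SdOne a n (j + t) Rr (toR R.Y) (toR R.Y0) (toR R.e0) (toR R.e1)
        (toR g * toR f.hi * toR ρ ^ t)
        (toR w * toR f.hi * (((j : ℝ) + 1) * toR ρ ^ t + t * toR ρ ^ t))
        (toR w * ((if t = 0 then toR A1 * toR kb else toR A * toR kb * toR ρ ^ t) +
          toR A * (t * toR ρ ^ t) + (toR f.B * toR cx.q + toR f.C * toR cx.qn +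
            toR f.hi * ((j + 1) * toR R.e0 + j * toR R.e1)) * toR ρ ^ t +
          toR f.hi * (toR R.e0 + toR R.e1) * (t * toR ρ ^ t))) := fun A' b0 b1 b2 => by
    obtain ⟨j3, j4⟩ := sd_img S hb hf hs p3 (h2.trans p2) hB hC b2 e3
    refine (sd_one S hh (by positivity) j3 j4 hX hW).mono hR ?_ (le_of_eq ?_) ?_
    · have := mul_le_mul_of_nonneg_left (pow_le_pow_left₀ p0 hρ1 t) (mul_nonneg hg hh)
      linarith
    · push_cast
      ring
    · rw [mul_assoc]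
      refine mul_le_mul_of_nonneg_left ?_ hw0
      generalize (if t = 0 then toR A1 * toR kb else toR A * toR kb * toR ρ ^ t) = z at b1 ⊢
      push_cast at b1 ⊢
      linarith
  rcases Nat.eq_zero_or_pos t with rfl | h7
  · refine key (toR A1) hA1 ?_ (hτ1 _ e0 ?_ e2)
    · have := mul_le_mul_of_nonneg_left hkb hA1
      simpa using this
    · rw [Nat.add_zero] at e0 ⊢
      exact (le_div_iff₀ e0).1 (divD_le h3 e0 le_rfl htb)
  · refine key (toR A) hA ?_ (hτ _ e0 (by rwa [toR_zero, zero_mul]) e2)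
    rw [if_neg h7.ne']
    have := mul_le_mul_of_nonneg_right (mul_le_mul_of_nonneg_left hkb hA) u0
    push_cast
    linarith

end

end Pool.Agent.Sok
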