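import Pool.Agent.Sok.Par

/-! Affine charts of the integrand: jets, limits of the primitives and the two kinds of ends. -/

set_option autoImplicit false

namespace Pool.Agent.Sok

open Complex Set Filter Topology

/-- the change of variable `w = c + a z` -/
noncomputable def Prim.aff (J : Prim) (c : ℂ) (a : ℝ) (ha : a ≠ 0) : Prim where
  E := fun z => J.E (c + a * z)
  A0 := fun z => J.A0 (c + a * z) / a
  A1 := fun z => (J.A1 (c + a * z) - c * J.A0 (c + a * z)) / a ^ 2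
  hc := J.hc.comp (continuous_const.add (continuous_const.mul continuous_id))
  hA0 := fun z => by
    have ha' : (a : ℂ) ≠ 0 := ofReal_ne_zero.2 ha
    have hl : HasDerivAt (fun z : ℂ => c + a * z) a z := by
      simpa using ((hasDerivAt_id z).const_mul (a : ℂ)).const_add c
    refine (((J.hA0 _).comp z hl).div_const (a : ℂ)).congr_deriv ?_
    field_simp
  hA1 := fun z => by
    have ha' : (a : ℂ) ≠ 0 := ofReal_ne_zero.2 ha
    have hl : HasDerivAt (fun z : ℂ => c + a * z) a z := by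
      simpa using ((hasDerivAt_id z).const_mul (a : ℂ)).const_add c
    refine ((((J.hA1 _).comp z hl).sub (((J.hA0 _).comp z hl).const_mul c)).div_const
      ((a : ℂ) ^ 2)).congr_deriv ?_
    field_simp
    ring

/-- a pair of values of the primitives in the chart -/
noncomputable def affV (c : ℂ) (a : ℝ) (u : ℂ × ℂ) : ℂ × ℂ := (u.1 / a, (u.2 - c * u.1) / a ^ 2)

theorem affV_zero (c : ℂ) (a : ℝ) : affV c a (0, 0) = (0, 0) := by simp [affV]

theorem affV_cont (c : ℂ) (a : ℝ) : Continuous (affV c a) := by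
  unfold affV
  fun_prop

/-- the logistic function -/
noncomputable def lgs (α γ w : ℂ) : ℂ := γ * exp w / (α + γ * exp w)

theorem lgs_deriv {α γ w : ℂ} (h : α + γ * exp w ≠ 0) :
    HasDerivAt (lgs α γ) (lgs α γ w * (1 - lgs α γ w)) w := by
  have h1 : HasDerivAt (fun w => γ * exp w) (γ * exp w) w := (Complex.hasDerivAt_exp w).const_mul γ
  refine (h1.div (h1.const_add α) h).congr_deriv ?_
  unfold lgs
  field_simp

/-- the logarithmic derivative of the integrand -/
noncomputable def phi1 (δ : ℝ) (N : ℕ) (α γ β w : ℂ) : ℂ := I * w / δ + β + N * lgs α γ w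

/-- the jet of the integrand in the chart `w = c + a z` with large parameter `L` -/
noncomputable def aJ {δ : ℝ} (N : ℕ) (α γ β c : ℂ) {a L : ℝ} (hδ : 0 < δ) (ha : 0 < a)
    (hL : 0 < L) : Jet where
  toPrim := (gP N α γ β hδ).aff c a ha.ne'
  L := L
  f1 := fun z => a / L * phi1 δ N α γ β (c + a * z)
  f2 := fun z => a ^ 2 / L * (I / δ + N * (lgs α γ (c + a * z) * (1 - lgs α γ (c + a * z))))
  f3 := fun z => a ^ 3 / L * (N * (lgs α γ (c + a * z) * (1 - lgs α γ (c + a * z)) *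
    (1 - 2 * lgs α γ (c + a * z))))
  f4 := fun z => a ^ 4 / L * (N * (lgs α γ (c + a * z) * (1 - lgs α γ (c + a * z)) *
    (1 - 6 * (lgs α γ (c + a * z) * (1 - lgs α γ (c + a * z))))))
  f5 := fun z => a ^ 5 / L * (N * (lgs α γ (c + a * z) * (1 - lgs α γ (c + a * z)) *
    (1 - 2 * lgs α γ (c + a * z)) *
      (1 - 12 * (lgs α γ (c + a * z) * (1 - lgs α γ (c + a * z))))))
  U := {z | α + γ * exp (c + a * z) ≠ 0}
  hL := hL
  hE := fun z hz => by
    have hL' : (L : ℂ) ≠ 0 := ofReal_ne_zero.2 hL.ne'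
    have hl : HasDerivAt (fun z : ℂ => c + a * z) a z := by
      simpa using ((hasDerivAt_id z).const_mul (a : ℂ)).const_add c
    refine ((Eg_deriv (δ := δ) N α γ β _ hz).comp z hl).congr_deriv ?_
    show _ = L * (a / L * phi1 δ N α γ β (c + a * z)) * Eg δ N α γ β (c + a * z)
    unfold phi1 lgs
    field_simp
  h1 := fun z hz => by
    have hl : HasDerivAt (fun z : ℂ => c + a * z) a z := by
      simpa using ((hasDerivAt_id z).const_mul (a : ℂ)).const_add c
    have hs := (lgs_deriv hz).comp z hl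
    refine (((((hl.const_mul I).div_const (δ : ℂ)).add_const β).add
      (hs.const_mul (N : ℂ))).const_mul ((a : ℂ) / L)).congr_deriv ?_
    ring
  h2 := fun z hz => by
    have hl : HasDerivAt (fun z : ℂ => c + a * z) a z := by
      simpa using ((hasDerivAt_id z).const_mul (a : ℂ)).const_add c
    have hs := (lgs_deriv hz).comp z hl
    refine ((((hs.mul (hs.const_sub 1)).const_mul (N : ℂ)).const_add (I / δ)).const_mul
      ((a : ℂ) ^ 2 / L)).congr_deriv ?_
    simp only [Function.comp]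
    ring
  h3 := fun z hz => by
    have hl : HasDerivAt (fun z : ℂ => c + a * z) a z := by
      simpa using ((hasDerivAt_id z).const_mul (a : ℂ)).const_add c
    have hs := (lgs_deriv hz).comp z hl
    refine ((((hs.mul (hs.const_sub 1)).mul ((hs.const_mul 2).const_sub 1)).const_mul
      (N : ℂ)).const_mul ((a : ℂ) ^ 3 / L)).congr_deriv ?_
    simp only [Function.comp, Pi.mul_apply]
    ring
  h4 := fun z hz => by
    have hl : HasDerivAt (fun z : ℂ => c + a * z) a z := by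
      simpa using ((hasDerivAt_id z).const_mul (a : ℂ)).const_add c
    have hs := (lgs_deriv hz).comp z hl
    have hw := hs.mul (hs.const_sub 1)
    refine (((hw.mul ((hw.const_mul 6).const_sub 1)).const_mul
      (N : ℂ)).const_mul ((a : ℂ) ^ 4 / L)).congr_deriv ?_
    simp only [Function.comp, Pi.mul_apply]
    ring

section ends

variable {δ : ℝ} {N : ℕ} {α γ β c : ℂ} {a L : ℝ} (hδ : 0 < δ) (ha : 0 < a) (hL : 0 < L)

theorem aJ_P (z : ℂ) : (aJ N α γ β c hδ ha hL).P z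
    = affV c a (G0 δ N α γ β (c + a * z), G1 δ N α γ β (c + a * z)) := rfl

theorem aJ_E (z : ℂ) : (aJ N α γ β c hδ ha hL).E z = Eg δ N α γ β (c + a * z) := rfl

theorem ta_line (w D : ℂ) (u : ℝ) : HasDerivAt (fun t : ℝ => w + t * D) D u := by
  simpa using ((Complex.ofRealCLM.hasDerivAt (x := u)).mul_const D).const_add w

theorem ta_comp {f : ℂ → ℂ} {f' w D : ℂ} {u : ℝ} (h : HasDerivAt f f' (w + u * D)) :
    HasDerivAt (fun t : ℝ => f (w + t * D)) (f' * D) u :=
  HasDerivAt.comp_of_eq (h₂ := f) (𝕜' := ℂ) u h (ta_line w D u) rfl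

theorem ta_re {f : ℝ → ℂ} {f' : ℂ} {u : ℝ} (h : HasDerivAt f f' u) :
    HasDerivAt (fun t => (f t).re) f'.re u :=
  Complex.reCLM.hasFDerivAt.comp_hasDerivAt u h

theorem ta_im {f : ℝ → ℂ} {f' : ℂ} {u : ℝ} (h : HasDerivAt f f' u) :
    HasDerivAt (fun t => (f t).im) f'.im u :=
  Complex.imCLM.hasFDerivAt.comp_hasDerivAt u h

theorem ta_mono {f f' : ℝ → ℝ} {b : ℝ} (h : ∀ u, 0 ≤ u → u ≤ b → HasDerivAt f (f' u) u ∧ 0 ≤ f' u)
    (hb : 0 ≤ b) : f 0 ≤ f b := by
  have hm : MonotoneOn f (Icc 0 b) := by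
    refine monotoneOn_of_deriv_nonneg (convex_Icc 0 b)
      (fun u hu => (h u hu.1 hu.2).1.continuousAt.continuousWithinAt)
      (fun u hu => ?_) (fun u hu => ?_)
    · rw [interior_Icc] at hu
      exact (h u hu.1.le hu.2.le).1.differentiableAt.differentiableWithinAt
    · rw [interior_Icc] at hu
      rw [(h u hu.1.le hu.2.le).1.deriv]
      exact (h u hu.1.le hu.2.le).2
  exact hm ⟨le_rfl, hb⟩ ⟨hb, le_rfl⟩ hb

/-- the symmetric form of the factor -/
noncomputable def nF (α γ w : ℂ) : ℂ := α * exp (-(w / 2)) + γ * exp (w / 2)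

theorem nF_deriv (α γ w : ℂ) : HasDerivAt (nF α γ) (nF (-α) γ w / 2) w := by
  have h : HasDerivAt (fun w : ℂ => w / 2) (1 / 2) w := (hasDerivAt_id w).div_const 2
  refine ((h.neg.cexp.const_mul α).add (h.cexp.const_mul γ)).congr_deriv ?_
  simp only [nF, Pi.neg_apply]
  ring

theorem nF_eq (α γ w : ℂ) : α + γ * exp w = nF α γ w * exp (w / 2) := by
  have h1 : exp (-(w / 2)) * exp (w / 2) = 1 := by rw [← exp_add]; simp
  have h2 : exp (w / 2) * exp (w / 2) = exp w := by rw [← exp_add]; simp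
  unfold nF
  linear_combination (-α) * h1 - γ * h2

theorem lgs_W {w : ℂ} (h : α + γ * exp w ≠ 0) :
    lgs α γ w * (1 - lgs α γ w) * nF α γ w ^ 2 = α * γ := by
  have h2 : exp (w / 2) * exp (w / 2) = exp w := by rw [← exp_add]; simp
  have h3 : nF α γ w = (α + γ * exp w) / exp (w / 2) := by
    rw [nF_eq]
    field_simp
  rw [h3, div_pow, sq (exp (w / 2)), h2]
  unfold lgs
  field_simp
  ring

theorem lgs_tau {w : ℂ} (h : α + γ * exp w ≠ 0) :
    (2 * lgs α γ w - 1) * nF α γ w = nF (-α) γ w := by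
  have h1 := nF_eq α γ w
  have h2 := nF_eq (-α) γ w
  have h3 := exp_ne_zero (w / 2)
  apply mul_right_cancel₀ h3
  rw [mul_assoc, ← h1, ← h2]
  unfold lgs
  field_simp
  ring

/-- along a diagonal ray the symmetric factor grows -/
theorem diag_grow {w D : ℂ} (hD : D ^ 2 = 2 * I) (h : α + γ * exp w ≠ 0)
    (hτ : 0 ≤ ((2 * lgs α γ w - 1) * D).re) {u : ℝ} (hu : 0 ≤ u) :
    ‖nF α γ w‖ ≤ ‖nF α γ (w + u * D)‖ := by
  have hre : D.re * D.re - D.im * D.im = 0 := by
    have := congrArg Complex.re hD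
    simpa [sq] using this
  have hk : ∀ t : ℝ, 0 ≤ t →
      0 ≤ (star (nF α γ (w + t * D)) * (nF (-α) γ (w + t * D) * D)).re := by
    intro t ht
    have h0 : 0 ≤ (star (nF α γ (w + (0 : ℝ) * D)) * (nF (-α) γ (w + (0 : ℝ) * D) * D)).re := by
      rw [ofReal_zero, zero_mul, add_zero, ← lgs_tau h]
      have : star (nF α γ w) * ((2 * lgs α γ w - 1) * nF α γ w * D)
          = (normSq (nF α γ w) : ℝ) * ((2 * lgs α γ w - 1) * D) := by
        rw [normSq_eq_conj_mul_self]
        simp only [star_def]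
        ring
      rw [this, re_ofReal_mul]
      exact mul_nonneg (normSq_nonneg _) hτ
    refine h0.trans (ta_mono
      (f := fun t : ℝ => (star (nF α γ (w + t * D)) * (nF (-α) γ (w + t * D) * D)).re)
      (fun v _ _ => ⟨ta_re ((ta_comp (nF_deriv α γ _)).star.mul
        ((ta_comp (nF_deriv (-α) γ _)).mul_const D)), ?_⟩) ht)
    rw [neg_neg]
    generalize nF α γ (w + v * D) = n
    generalize nF (-α) γ (w + v * D) = m
    have h1 : (star (m / 2 * D) * (m * D) + star n * (n / 2 * D * D)).re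
        = normSq (m * D) / 2 + normSq n / 2 * (D.re * D.re - D.im * D.im) := by
      simp [normSq_apply]
      ring
    rw [h1, hre, mul_zero, add_zero]
    exact div_nonneg (normSq_nonneg _) zero_le_two
  have h2 := ta_mono (f := fun t : ℝ => (star (nF α γ (w + t * D)) * nF α γ (w + t * D)).re)
    (fun v hv _ => ⟨ta_re ((ta_comp (nF_deriv α γ _)).star.mul (ta_comp (nF_deriv α γ _))), by
      have h3 := hk v hv
      generalize nF α γ (w + v * D) = n at h3 ⊢
      generalize nF (-α) γ (w + v * D) = m at h3 ⊢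
      have h1 : (star (m / 2 * D) * n + star n * (m / 2 * D)).re = (star n * (m * D)).re := by
        simp
        ring
      rwa [h1]⟩) hu
  simp only [ofReal_zero, zero_mul, add_zero, star_def, ← normSq_eq_conj_mul_self, ofReal_re,
    normSq_eq_norm_sq] at h2
  exact le_of_sq_le_sq_norm h2
where
  le_of_sq_le_sq_norm {x y : ℂ} (h : ‖x‖ ^ 2 ≤ ‖y‖ ^ 2) : ‖x‖ ≤ ‖y‖ :=
    (pow_le_pow_iff_left₀ (norm_nonneg _) (norm_nonneg _) two_ne_zero).1 h

include hδ in
/-- along a diagonal ray the rate of decay improves -/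
theorem diag_rate {w D : ℂ} (hD : D ^ 2 = 2 * I) (h : α + γ * exp w ≠ 0)
    (hW : N * δ * ‖lgs α γ w * (1 - lgs α γ w)‖ ≤ 1)
    (hτ : 0 ≤ ((2 * lgs α γ w - 1) * D).re) {u : ℝ} (hu : 0 ≤ u) :
    α + γ * exp (w + u * D) ≠ 0 ∧
      (phi1 δ N α γ β (w + u * D) * D).re ≤ (phi1 δ N α γ β w * D).re := by
  have hn : 0 < ‖nF α γ w‖ := by
    rw [norm_pos_iff]
    intro h0
    exact h (by rw [nF_eq, h0, zero_mul])
  have hne : ∀ t : ℝ, 0 ≤ t → α + γ * exp (w + t * D) ≠ 0 := fun t ht => by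
    rw [nF_eq]
    exact mul_ne_zero (norm_pos_iff.1 (hn.trans_le (diag_grow hD h hτ ht))) (exp_ne_zero _)
  refine ⟨hne u hu, ?_⟩
  have h2 := ta_mono (f := fun t : ℝ => -(phi1 δ N α γ β (w + t * D) * D).re)
    (f' := fun t : ℝ => -((I * D / δ + N * (lgs α γ (w + t * D) * (1 - lgs α γ (w + t * D)) * D))
      * D).re)
    (fun v hv _ => ⟨(ta_re ((((((ta_line w D v).const_mul I).div_const (δ : ℂ)).add_const β).add
      ((ta_comp (lgs_deriv (hne v hv))).const_mul (N : ℂ))).mul_const D)).neg, by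
      have h3 := congrArg norm ((lgs_W (hne v hv)).trans (lgs_W h).symm)
      rw [norm_mul, norm_mul _ (nF α γ w ^ 2), norm_pow, norm_pow] at h3
      have h4 := pow_le_pow_left₀ hn.le (diag_grow hD h hτ hv) 2
      generalize lgs α γ (w + v * D) * (1 - lgs α γ (w + v * D)) = W at h3 ⊢
      have h5 : ‖W‖ ≤ ‖lgs α γ w * (1 - lgs α γ w)‖ := by
        refine le_of_mul_le_mul_right ?_ (pow_pos hn 2)
        rw [← h3]
        exact mul_le_mul_of_nonneg_left h4 (norm_nonneg _)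
      have h6 : (I * D / δ + N * (W * D)) * D = (I / δ + N * W) * D ^ 2 := by ring
      have h7 : ((I / δ + N * W) * (2 * I)).re = -(2 / δ) - 2 * (N * W.im) := by
        simp
        ring
      have h8 : N * δ * -W.im ≤ 1 :=
        le_trans (mul_le_mul_of_nonneg_left
          (((neg_le_abs _).trans (abs_im_le_norm W)).trans h5) (by positivity)) hW
      rw [h6, hD, h7]
      have h9 : N * -W.im ≤ 1 / δ := by
        rw [le_div_iff₀ hδ]
        linarith
      have h10 : 2 / δ = 2 * (1 / δ) := by ring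
      linarith⟩) hu
  simp only [ofReal_zero, zero_mul, add_zero] at h2
  linarith

/-- the height and the limit along a diagonal ray -/
theorem diag_ray {z D : ℂ} {v : ℂ × ℂ} {E0 g r : ℝ} (hD : D ^ 2 = 2 * I)
    (hv : Tendsto (fun s : ℝ => (G0 δ N α γ β (c + a * z + s * D), G1 δ N α γ β (c + a * z + s * D)))
      atTop (𝓝 v)) (hE0 : 0 ≤ E0) (h : α + γ * exp (c + a * z) ≠ 0)
    (hW : N * δ * ‖lgs α γ (c + a * z) * (1 - lgs α γ (c + a * z))‖ ≤ 1)
    (hτ : 0 ≤ ((2 * lgs α γ (c + a * z) - 1) * D).re)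
    (hr : ((aJ N α γ β c hδ ha hL).f1 z * D).re ≤ -(Real.sqrt 2 * r))
    (hE : ‖(aJ N α γ β c hδ ha hL).E z‖ ≤ E0 * Real.exp (-(L * g))) :
    ∃ e : ℂ, ‖e‖ = 1 ∧ (∀ s : ℝ, 0 ≤ s →
      ‖(aJ N α γ β c hδ ha hL).E (z + s * e)‖ ≤ E0 * Real.exp (-(L * (g + r * s)))) ∧
      Tendsto (fun s : ℝ => (aJ N α γ β c hδ ha hL).P (z + s * e)) atTop (𝓝 (affV c a v)) := by
  have h2 : 0 < Real.sqrt 2 := by positivity
  have hn : ‖D‖ = Real.sqrt 2 := by
    have := congrArg norm hD
    rw [norm_pow, norm_mul, norm_I, mul_one, Complex.norm_two] at this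
    rw [← this, Real.sqrt_sq (norm_nonneg _)]
  have hw : ∀ s : ℝ, c + a * (z + s * (D / (Real.sqrt 2 : ℝ)))
      = c + a * z + (a / Real.sqrt 2 * s : ℝ) * D := fun s => by
    push_cast
    ring
  refine ⟨D / (Real.sqrt 2 : ℝ), ?_,
    fun s hs => ray_height (aJ N α γ β c hδ ha hL) (S := s) hE0 (fun t ht _ => ?_) hE s hs le_rfl,
    ?_⟩
  · rw [norm_div, hn, norm_real, Real.norm_of_nonneg h2.le, div_self h2.ne']
  · have h3 := diag_rate (β := β) hδ hD h hW hτ (u := a / Real.sqrt 2 * t) (by positivity)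
    rw [← hw] at h3
    refine ⟨h3.1, ?_⟩
    have h4 : ∀ w : ℂ, (a / L * w * (D / (Real.sqrt 2 : ℝ))).re
        = a / L * (w * D).re / Real.sqrt 2 := fun w => by
      rw [← mul_div_assoc, div_ofReal_re, mul_assoc, ← ofReal_div, re_ofReal_mul]
    have h5 : (a / L * phi1 δ N α γ β (c + a * z) * D).re
        = a / L * (phi1 δ N α γ β (c + a * z) * D).re := by
      rw [mul_assoc, ← ofReal_div, re_ofReal_mul]
    have h6 := mul_le_mul_of_nonneg_left h3.2 (div_pos ha hL).le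
    show (a / L * phi1 δ N α γ β (c + a * (z + t * (D / (Real.sqrt 2 : ℝ)))) *
      (D / (Real.sqrt 2 : ℝ))).re ≤ -r
    change (a / L * phi1 δ N α γ β (c + a * z) * D).re ≤ _ at hr
    rw [h4, div_le_iff₀ h2]
    linarith
  · have h3 := ((affV_cont c a).tendsto v).comp (hv.comp
      (tendsto_id.const_mul_atTop (r := a / Real.sqrt 2) (by positivity)))
    refine h3.congr (fun s => ?_)
    show _ = (aJ N α γ β c hδ ha hL).P _
    rw [aJ_P, hw]
    rfl

/-- the end of a contour in the direction `1 + i` -/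
theorem ne_ray {z : ℂ} {E0 g r : ℝ} (hE0 : 0 ≤ E0) (h : α + γ * exp (c + a * z) ≠ 0)
    (hW : N * δ * ‖lgs α γ (c + a * z) * (1 - lgs α γ (c + a * z))‖ ≤ 1)
    (hτ : 0 ≤ ((2 * lgs α γ (c + a * z) - 1) * (1 + I)).re)
    (hr : ((aJ N α γ β c hδ ha hL).f1 z * (1 + I)).re ≤ -(Real.sqrt 2 * r))
    (hE : ‖(aJ N α γ β c hδ ha hL).E z‖ ≤ E0 * Real.exp (-(L * g))) :
    ∃ e : ℂ, ‖e‖ = 1 ∧ (∀ s : ℝ, 0 ≤ s →
      ‖(aJ N α γ β c hδ ha hL).E (z + s * e)‖ ≤ E0 * Real.exp (-(L * (g + r * s)))) ∧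
      Tendsto (fun s : ℝ => (aJ N α γ β c hδ ha hL).P (z + s * e)) atTop
        (𝓝 (affV c a (Fu0 δ N α γ β, Fu1 δ N α γ β))) :=
  diag_ray hδ ha hL (by linear_combination I_mul_I) (lim_ne N α γ β hδ _) hE0 h hW hτ hr hE

/-- the end of a contour in the direction `-1 - i` -/
theorem sw_ray {z : ℂ} {E0 g r : ℝ} (hE0 : 0 ≤ E0) (h : α + γ * exp (c + a * z) ≠ 0)
    (hW : N * δ * ‖lgs α γ (c + a * z) * (1 - lgs α γ (c + a * z))‖ ≤ 1)
    (hτ : ((2 * lgs α γ (c + a * z) - 1) * (1 + I)).re ≤ 0)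
    (hr : Real.sqrt 2 * r ≤ ((aJ N α γ β c hδ ha hL).f1 z * (1 + I)).re)
    (hE : ‖(aJ N α γ β c hδ ha hL).E z‖ ≤ E0 * Real.exp (-(L * g))) :
    ∃ e : ℂ, ‖e‖ = 1 ∧ (∀ s : ℝ, 0 ≤ s →
      ‖(aJ N α γ β c hδ ha hL).E (z + s * e)‖ ≤ E0 * Real.exp (-(L * (g + r * s)))) ∧
      Tendsto (fun s : ℝ => (aJ N α γ β c hδ ha hL).P (z + s * e)) atTop (𝓝 (0, 0)) := by
  rw [← affV_zero c a]
  refine diag_ray hδ ha hL (D := -(1 + I)) (by linear_combination I_mul_I) ?_ hE0 h hW
    (by rw [mul_neg, neg_re]; linarith) (by rw [mul_neg, neg_re]; linarith) hE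
  simpa only [mul_neg, ← sub_eq_add_neg] using lim_sw N α γ β hδ (c + a * z)

end ends

end Pool.Agent.Sok
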