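import Pool.Agent.Sok.TA

/-! Vertical rays for an integrand with real weights. -/

set_option autoImplicit false

namespace Pool.Agent.Sok

open Complex Set Filter Topology

section up

variable {q p x : ℝ}

/-- the squared modulus of the factor on a vertical line -/
noncomputable def upQ (q p x y : ℝ) : ℝ :=
  q ^ 2 + p ^ 2 * Real.exp x ^ 2 + 2 * p * q * Real.exp x * Real.cos y

theorem up_exp (x y : ℝ) : exp (x + y * I) = ⟨Real.exp x * Real.cos y, Real.exp x * Real.sin y⟩ := by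
  apply Complex.ext
  · simp [exp_re]
  · simp [exp_im]

theorem up_normSq (y : ℝ) : normSq ((q : ℂ) + p * exp (x + y * I)) = upQ q p x y := by
  rw [up_exp, upQ, normSq_apply]
  simp
  linear_combination p ^ 2 * Real.exp x ^ 2 * Real.cos_sq_add_sin_sq y

theorem up_im (y : ℝ) : (lgs q p (x + y * I)).im
    = p * q * Real.exp x * Real.sin y / upQ q p x y := by
  rw [lgs, div_im, up_normSq, up_exp, ← sub_div]
  simp
  ring

theorem up_W {y : ℝ} (h : (q : ℂ) + p * exp (x + y * I) ≠ 0) :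
    lgs q p (x + y * I) * (1 - lgs q p (x + y * I))
      = p * q * exp (x + y * I) / (q + p * exp (x + y * I)) ^ 2 := by
  unfold lgs
  field_simp
  ring

theorem up_Wre {y : ℝ} (h : (q : ℂ) + p * exp (x + y * I) ≠ 0) :
    (lgs q p (x + y * I) * (1 - lgs q p (x + y * I))).re = p * q * Real.exp x *
      ((q ^ 2 + p ^ 2 * Real.exp x ^ 2) * Real.cos y + 2 * p * q * Real.exp x) / upQ q p x y ^ 2 := by
  rw [up_W h, div_re, map_pow, up_normSq, up_exp, ← add_div]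
  simp [sq]
  congr 1
  linear_combination (p ^ 3 * q * Real.exp x ^ 3 * Real.cos y + 2 * p ^ 2 * q ^ 2 * Real.exp x ^ 2) *
    Real.cos_sq_add_sin_sq y

theorem up_Wn (hq : 0 < q) (hp : 0 < p) {y : ℝ} (h : (q : ℂ) + p * exp (x + y * I) ≠ 0) :
    ‖lgs q p (x + y * I) * (1 - lgs q p (x + y * I))‖ = p * q * Real.exp x / upQ q p x y := by
  rw [up_W h, norm_div, norm_pow, ← normSq_eq_norm_sq, up_normSq, norm_mul, norm_mul, norm_exp]
  simp [abs_of_pos hq, abs_of_pos hp]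

theorem up_pos {y : ℝ} (h : (q : ℂ) + p * exp (x + y * I) ≠ 0) : 0 < upQ q p x y := by
  rw [← up_normSq]
  exact normSq_pos.2 h

/-- the tangent line bound for the logarithm of the factor -/
theorem up_tan {A B y u : ℝ} (hB : 0 ≤ B) (hA : 0 ≤ A) (hQ : 0 < A + B * Real.cos y)
    (hc : 0 ≤ A * Real.cos y + B) (h1 : -Real.pi ≤ y) (h2 : y ≤ 0) (hu : 0 ≤ u) :
    A + B * Real.cos (y + u) ≤
      (A + B * Real.cos y) * Real.exp (-(B * Real.sin y / (A + B * Real.cos y)) * u) := by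
  have hcos : ∀ t, 0 ≤ t → t ≤ -y → Real.cos y ≤ Real.cos (y + t) := fun t h3 h4 => by
    rw [← Real.cos_neg y, ← Real.cos_neg (y + t)]
    exact Real.cos_le_cos_of_nonneg_of_le_pi (by linarith) (by linarith) (by linarith)
  have hp : ∀ t, 0 ≤ t → t ≤ -y → 0 < A + B * Real.cos (y + t) := fun t h3 h4 =>
    hQ.trans_le (by nlinarith [hcos t h3 h4])
  have hd : ∀ t : ℝ, HasDerivAt (fun t => A + B * Real.cos (y + t)) (B * -Real.sin (y + t)) t :=
    fun t => by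
      simpa using ((((hasDerivAt_id t).const_add y).cos).const_mul B).const_add A
  have hk : ∀ t, 0 ≤ t → t ≤ -y → B * Real.sin y / (A + B * Real.cos y)
      ≤ B * Real.sin (y + t) / (A + B * Real.cos (y + t)) := fun t h3 h4 => by
    have := ta_mono (f := fun t => B * Real.sin (y + t) / (A + B * Real.cos (y + t)))
      (f' := fun t => B * (A * Real.cos (y + t) + B) / (A + B * Real.cos (y + t)) ^ 2)
      (fun v h5 h6 => ⟨by
        have h7 : HasDerivAt (fun t => B * Real.sin (y + t)) (B * Real.cos (y + v)) v := by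
          simpa using (((hasDerivAt_id v).const_add y).sin).const_mul B
        refine (h7.div (hd v) (hp v h5 (h6.trans h4)).ne').congr_deriv ?_
        congr 1
        linear_combination B ^ 2 * Real.cos_sq_add_sin_sq (y + v),
        div_nonneg (mul_nonneg hB (by nlinarith [hcos v h5 (h6.trans h4)])) (sq_nonneg _)⟩) h3
    simpa using this
  have hh : ∀ t, 0 ≤ t → t ≤ -y → A + B * Real.cos (y + t) ≤
      (A + B * Real.cos y) * Real.exp (-(B * Real.sin y / (A + B * Real.cos y)) * t) :=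
    fun t h3 h4 => by
    have := ta_mono (f := fun t => -(B * Real.sin y / (A + B * Real.cos y)) * t -
        Real.log (A + B * Real.cos (y + t)))
      (f' := fun t => -(B * Real.sin y / (A + B * Real.cos y)) -
        B * -Real.sin (y + t) / (A + B * Real.cos (y + t)))
      (fun v h5 h6 => ⟨(((hasDerivAt_id' v).const_mul
        (-(B * Real.sin y / (A + B * Real.cos y)))).fun_sub
          ((hd v).log (hp v h5 (h6.trans h4)).ne')).congr_deriv (by rw [mul_one]), by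
        have := hk v h5 (h6.trans h4)
        rw [mul_neg, neg_div]
        linarith⟩) h3
    simp only [mul_zero, add_zero, zero_sub] at this
    rw [← Real.exp_log (hp t h3 h4), ← Real.exp_log hQ, ← Real.exp_add, Real.exp_log hQ]
    exact Real.exp_le_exp.2 (by linarith)
  rcases le_total u (-y) with h3 | h3
  · exact hh u hu h3
  · have h4 := hh (-y) (by linarith) le_rfl
    have h5 : Real.sin y ≤ 0 := Real.sin_nonpos_of_nonpos_of_neg_pi_le h2 h1
    have h6 : 0 ≤ -(B * Real.sin y / (A + B * Real.cos y)) :=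
      neg_nonneg.2 (div_nonpos_of_nonpos_of_nonneg (mul_nonpos_of_nonneg_of_nonpos hB h5) hQ.le)
    rw [add_neg_cancel, Real.cos_zero] at h4
    refine le_trans (by nlinarith [Real.cos_le_one (y + u)]) (h4.trans ?_)
    exact mul_le_mul_of_nonneg_left (Real.exp_le_exp.2 (mul_le_mul_of_nonneg_left h3 h6)) hQ.le

variable {δ : ℝ} {N : ℕ} {β : ℂ}

theorem up_cmp (hδ : 0 < δ) {y u m : ℝ} (h : upQ q p x (y + u) ≤ upQ q p x y * Real.exp (2 * m)) :
    ‖Eg δ N q p β (x + y * I + u * I)‖ ≤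
      ‖Eg δ N q p β (x + y * I)‖ * Real.exp (N * m - (x / δ + β.im) * u) := by
  have h1 : (x : ℂ) + y * I + u * I = x + (y + u : ℝ) * I := by
    push_cast
    ring
  have h2 : ‖(q : ℂ) + p * exp (x + (y + u : ℝ) * I)‖ ≤ ‖(q : ℂ) + p * exp (x + y * I)‖ * Real.exp m := by
    refine (pow_le_pow_iff_left₀ (norm_nonneg _) (by positivity) two_ne_zero).1 ?_
    rw [mul_pow, ← normSq_eq_norm_sq, ← normSq_eq_norm_sq, up_normSq, up_normSq, ← Real.exp_nat_mul]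
    exact h
  have h3 : ∀ t : ℝ, (I * (x + t * I) ^ 2 / (2 * δ) + β * (x + t * I)).re
      = β.re * x - (x / δ + β.im) * t := fun t => by
    have : (2 * δ : ℂ) = (2 * δ : ℝ) := by push_cast; ring
    rw [add_re, this, div_ofReal_re]
    simp [sq]
    field_simp
    ring
  rw [h1, Eg, Eg, norm_mul, norm_mul, norm_exp, norm_exp, h3, h3, norm_pow, norm_pow]
  refine (mul_le_mul_of_nonneg_left (pow_le_pow_left₀ (norm_nonneg _) h2 N)
    (Real.exp_pos _).le).trans (le_of_eq ?_)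
  rw [mul_pow, ← Real.exp_nat_mul, mul_comm (_ ^ N), ← mul_assoc, ← Real.exp_add, mul_right_comm,
    ← Real.exp_add]
  congr 2
  ring

variable (hq : 0 < q) (hp : 0 < p) (hδ : 0 < δ) {w : ℂ}
include hq hp hδ

/-- below the real axis the initial rate holds along the whole ray -/
theorem up_low (h : (q : ℂ) + p * exp w ≠ 0) (hW : 0 ≤ (lgs q p w * (1 - lgs q p w)).re)
    (h1 : -Real.pi ≤ w.im) (h2 : w.im ≤ 0) {u : ℝ} (hu : 0 ≤ u) :
    ‖Eg δ N q p β (w + u * I)‖ ≤ ‖Eg δ N q p β w‖ * Real.exp (-((phi1 δ N q p β w).im * u)) := by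
  rw [← re_add_im w] at h hW ⊢
  generalize w.re = x at *
  generalize w.im = y at *
  have hQ := up_pos h
  rw [up_Wre h] at hW
  have h3 := (div_nonneg_iff.1 hW).resolve_right (fun h => absurd h.2 (not_le.2 (pow_pos hQ 2)))
  have h4 := nonneg_of_mul_nonneg_right h3.1 (by positivity)
  have h5 := up_tan (A := q ^ 2 + p ^ 2 * Real.exp x ^ 2) (B := 2 * p * q * Real.exp x)
    (by positivity) (by positivity) hQ h4 h1 h2 hu
  refine (up_cmp hδ (m := -(p * q * Real.exp x * Real.sin y / upQ q p x y) * u)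
    (h5.trans (le_of_eq ?_))).trans (le_of_eq ?_)
  · unfold upQ
    congr 2
    ring
  · congr 2
    rw [phi1, add_im, add_im, div_ofReal_im, ← ofReal_natCast, im_ofReal_mul, up_im]
    simp
    ring

/-- above the real axis the Gaussian rate holds up to the reflected point -/
theorem up_mid (h1 : 0 ≤ w.im) {u : ℝ} (hu : 0 ≤ u) (h2 : u ≤ 2 * Real.pi - 2 * w.im) :
    ‖Eg δ N q p β (w + u * I)‖ ≤ ‖Eg δ N q p β w‖ * Real.exp (-((w.re / δ + β.im) * u)) := by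
  rw [← re_add_im w]
  generalize w.re = x at *
  generalize w.im = y at *
  have h3 : Real.cos (y + u) ≤ Real.cos y := by
    rcases le_total (y + u) Real.pi with h4 | h4
    · exact Real.cos_le_cos_of_nonneg_of_le_pi h1 h4 (by linarith)
    · rw [← Real.cos_two_pi_sub (y + u)]
      exact Real.cos_le_cos_of_nonneg_of_le_pi h1 (by linarith) (by linarith)
  refine (up_cmp hδ (m := 0) ?_).trans (le_of_eq (by simp))
  rw [mul_zero, Real.exp_zero, mul_one]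
  unfold upQ
  have : 0 ≤ 2 * p * q * Real.exp x := by positivity
  nlinarith

/-- the bound valid on the whole ray -/
theorem up_far (h : (q : ℂ) + p * exp w ≠ 0) (u : ℝ) :
    ‖Eg δ N q p β (w + u * I)‖ ≤ ‖Eg δ N q p β w‖ * Real.exp
      (N * (w.im ^ 2 * ‖lgs q p w * (1 - lgs q p w)‖ / 2) - (w.re / δ + β.im) * u) := by
  have hw := re_add_im w
  generalize w.re = x at *
  generalize w.im = y at *
  subst hw
  have hQ := up_pos h
  rw [up_Wn hq hp h]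
  refine up_cmp hδ (le_trans ?_ (mul_le_mul_of_nonneg_left (Real.add_one_le_exp _) hQ.le))
  rw [mul_div_cancel₀ _ two_ne_zero, mul_add, mul_one, mul_left_comm, mul_div_cancel₀ _ hQ.ne']
  unfold upQ
  have : 0 ≤ p * q * Real.exp x := by positivity
  nlinarith [Real.cos_le_one (y + u), Real.one_sub_sq_div_two_le_cos (x := y)]

/-- a rate valid along the whole vertical ray -/
theorem up_all (h : (q : ℂ) + p * exp w ≠ 0) {ρ b : ℝ} (h1 : ρ ≤ w.re / δ + β.im)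
    (h2 : w.im ≤ 0 → -Real.pi ≤ w.im ∧ 0 ≤ (lgs q p w * (1 - lgs q p w)).re ∧
      ρ ≤ (phi1 δ N q p β w).im) (h3 : w.im ≤ b)
    (h4 : 0 < b → N * (b ^ 2 * ‖lgs q p w * (1 - lgs q p w)‖ / 2) ≤
      (w.re / δ + β.im - ρ) * (2 * Real.pi - 2 * b)) {u : ℝ} (hu : 0 ≤ u) :
    ‖Eg δ N q p β (w + u * I)‖ ≤ ‖Eg δ N q p β w‖ * Real.exp (-(ρ * u)) := by
  rcases le_or_gt w.im 0 with h5 | h5
  · obtain ⟨h6, h7, h8⟩ := h2 h5
    exact (up_low hq hp hδ h h7 h6 h5 hu).trans (mul_le_mul_of_nonneg_left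
      (Real.exp_le_exp.2 (neg_le_neg (mul_le_mul_of_nonneg_right h8 hu))) (norm_nonneg _))
  rcases le_total u (2 * Real.pi - 2 * w.im) with h6 | h6
  · exact (up_mid hq hp hδ h5.le hu h6).trans (mul_le_mul_of_nonneg_left
      (Real.exp_le_exp.2 (neg_le_neg (mul_le_mul_of_nonneg_right h1 hu))) (norm_nonneg _))
  · refine (up_far hq hp hδ h u).trans (mul_le_mul_of_nonneg_left
      (Real.exp_le_exp.2 ?_) (norm_nonneg _))
    have h7 := h4 (h5.trans_le h3)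
    have h8 : (N : ℝ) * (w.im ^ 2 * ‖lgs q p w * (1 - lgs q p w)‖ / 2) ≤
        N * (b ^ 2 * ‖lgs q p w * (1 - lgs q p w)‖ / 2) := by gcongr
    have h9 : 2 * Real.pi - 2 * b ≤ u := by linarith
    nlinarith [mul_le_mul_of_nonneg_left h9 (sub_nonneg.2 h1)]

end up

namespace Par

variable (P : Par)

/-- `N δ / 4` -/
noncomputable def lamU : ℝ := P.N * P.δ / 4
/-- the square of the parameter of the turning point -/
noncomputable def k2 : ℝ := P.lamU / (1 + Real.sqrt (1 + P.lamU ^ 2))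
noncomputable def kap : ℝ := Real.sqrt P.k2
noncomputable def Xi : ℝ := P.N * (1 - P.k2 ^ 2) / 8
noncomputable def nn : ℂ := -((1 + P.k2) + I * (1 - P.k2)) / 2
noncomputable def al : ℂ := (P.kap - P.nn) / (2 * P.kap)
noncomputable def ga : ℂ := (P.kap + P.nn) / (2 * P.kap)
/-- the turning point -/
noncomputable def wT : ℂ :=
  ⟨Real.log ((1 - P.p) / P.p) - Real.log ((1 + P.kap) / (1 - P.kap)),
    2 * Real.arctan P.kap - Real.pi⟩
noncomputable def vre : ℝ :=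
  Real.log (P.p / (1 - P.p)) + Real.log ((1 + P.kap) / (1 - P.kap)) + 2 * P.kap / (1 + P.k2)
noncomputable def vim : ℝ := Real.pi - 2 * Real.arctan P.kap + 2 * P.lamU - 4 * P.lamU * P.p -
  2 * P.kap / (1 - P.k2)
/-- the universal coordinate of the parameter `T` -/
noncomputable def v (T : ℝ) : ℂ := ⟨P.vre, T + P.vim⟩

theorem q_pos : 0 < 1 - P.p := by linarith [P.hp]

theorem N_pos : (0 : ℝ) < P.N := by exact_mod_cast lt_of_lt_of_le (by norm_num) P.hN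

theorem lamU_nonneg : 0 ≤ P.lamU := by
  have := P.hδ
  unfold lamU
  positivity

theorem k2_nonneg : 0 ≤ P.k2 := by
  have := P.lamU_nonneg
  unfold k2
  positivity

theorem k2_lt : P.k2 < 1 := by
  have h := P.lamU_nonneg
  rw [k2, div_lt_one (by positivity)]
  have : P.lamU ≤ Real.sqrt (1 + P.lamU ^ 2) := Real.le_sqrt_of_sq_le (by linarith)
  linarith

theorem lamU_k2 : P.lamU * (1 - P.k2 ^ 2) = 2 * P.k2 := by
  have h := Real.sq_sqrt (show 0 ≤ 1 + P.lamU ^ 2 by positivity)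
  have h1 : 0 < 1 + Real.sqrt (1 + P.lamU ^ 2) := by positivity
  unfold k2
  field_simp
  linear_combination P.lamU * h

theorem kap_sq : P.kap ^ 2 = P.k2 := Real.sq_sqrt P.k2_nonneg

theorem kap_nonneg : 0 ≤ P.kap := Real.sqrt_nonneg _

theorem kap_lt : P.kap < 1 := by nlinarith [P.kap_sq, P.k2_lt, P.kap_nonneg]

theorem k4_pos : 0 < 1 - P.k2 ^ 2 := by nlinarith [P.k2_lt, P.k2_nonneg]

theorem Xi_pos : 0 < P.Xi := div_pos (mul_pos P.N_pos P.k4_pos) (by norm_num)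

theorem Xi_δ : P.Xi * P.δ = P.k2 := by
  have := P.lamU_k2
  unfold lamU at this
  unfold Xi
  linarith

/-- first lower bound of `Ξ` -/
theorem Xi_ge : 5 * (1 - P.k2 ^ 2) ≤ P.Xi := by
  have h : (40 : ℝ) ≤ P.N := by exact_mod_cast P.hN
  have := P.k4_pos
  unfold Xi
  nlinarith

theorem exp_vre : (1 - P.kap) * ((1 - P.p) / P.p) =
    (1 + P.kap) * Real.exp (2 * P.kap / (1 + P.k2) - P.vre) := by
  have h1 := P.kap_lt
  have h2 := P.kap_nonneg
  have h3 := P.q_pos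
  have h4 := P.hp0
  have h5 : 0 < 1 - P.kap := by linarith
  rw [vre, sub_add_cancel_right, Real.exp_neg, Real.exp_add, Real.exp_log (by positivity), Real.exp_log (by positivity)]
  field_simp

/-- second lower bound of `Ξ` -/
theorem Xi_ge' : 7 / 8 * ((1 + P.kap) ^ 2 * (1 + P.k2) *
    Real.exp (2 * P.kap / (1 + P.k2) - P.vre) + 2 * (1 - P.k2 ^ 2)) ≤ P.Xi := by
  have h1 := P.exp_vre
  have h2 := P.s2_ge
  have h3 := P.q_pos
  have h4 := P.hp0
  have h5 := P.k4_pos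
  have h6 : (1 + P.kap) ^ 2 * (1 + P.k2) * Real.exp (2 * P.kap / (1 + P.k2) - P.vre)
      = (1 - P.k2 ^ 2) * ((1 - P.p) / P.p) := by
    rw [← P.kap_sq] at h1 ⊢
    linear_combination -(1 + P.kap) * (1 + P.kap ^ 2) * h1
  have h7 : 7 * ((1 - P.p) / P.p + 2) ≤ P.N := by
    rw [div_add' _ _ _ h4.ne', ← mul_div_assoc, div_le_iff₀ h4]
    refine le_of_mul_le_mul_right ?_ h3
    unfold s2 at h2
    nlinarith [sq_nonneg P.p]
  rw [h6, Xi]
  nlinarith

/-- the constraint coming from `p ≤ 1/2` -/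
theorem vre_le : (1 - P.kap) * Real.exp (P.vre - 2 * P.kap / (1 + P.k2)) ≤ 1 + P.kap := by
  have h1 := P.exp_vre
  have h2 : 1 ≤ (1 - P.p) / P.p := by
    rw [le_div_iff₀ P.hp0]
    linarith [P.hp]
  have h3 := P.kap_lt
  have h4 := Real.exp_pos (P.vre - 2 * P.kap / (1 + P.k2))
  have h5 : Real.exp (2 * P.kap / (1 + P.k2) - P.vre) * Real.exp (P.vre - 2 * P.kap / (1 + P.k2))
      = 1 := by
    rw [← Real.exp_add]
    simp
  have h6 : 1 - P.kap ≤ (1 + P.kap) * Real.exp (2 * P.kap / (1 + P.k2) - P.vre) := by nlinarith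
  have := mul_le_mul_of_nonneg_right h6 h4.le
  rwa [mul_assoc, h5, mul_one] at this

variable {P} (hδ : 0 < P.δ)
include hδ

theorem lamU_pos : 0 < P.lamU := by
  have := P.N_pos
  unfold lamU
  positivity

theorem k2_pos : 0 < P.k2 := by
  have := lamU_pos hδ
  unfold k2
  positivity

theorem kap_pos : 0 < P.kap := Real.sqrt_pos.2 (k2_pos hδ)

theorem al_ga : P.al + P.ga = 1 := by
  have h : (P.kap : ℂ) ≠ 0 := ofReal_ne_zero.2 (kap_pos hδ).ne'
  unfold al ga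
  field_simp
  ring

theorem lam_al_ga : P.N * P.δ * (P.al * P.ga) = -I := by
  have h : (P.kap : ℂ) ≠ 0 := ofReal_ne_zero.2 (kap_pos hδ).ne'
  have h1 : (P.N * P.δ / 4 : ℂ) * (1 - (P.kap ^ 2) ^ 2) = 2 * P.kap ^ 2 := by
    have := P.lamU_k2
    rw [← P.kap_sq, lamU] at this
    exact_mod_cast congrArg ofReal this
  unfold al ga nn
  rw [← P.kap_sq]
  push_cast
  field_simp
  linear_combination (-8 * I) * h1 - P.N * P.δ * (1 - P.kap ^ 2) ^ 2 * I_mul_I

theorem al_ne : P.al ≠ 0 := fun h => by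
  have := lam_al_ga hδ
  rw [h, zero_mul, mul_zero] at this
  exact I_ne_zero (neg_eq_zero.1 this.symm)

theorem exp_wT : P.p * exp P.wT * P.al = (1 - P.p) * P.ga := by
  have h1 := P.kap_lt
  have h2 := kap_pos hδ
  have h3 := P.q_pos
  have h4 := P.hp0
  have h5 : 0 < 1 - P.kap := by linarith
  have h6 : P.wT = (Real.log ((1 - P.p) / P.p) - Real.log ((1 + P.kap) / (1 - P.kap)) : ℝ) +
      (2 * Real.arctan P.kap - Real.pi : ℝ) * I := (re_add_im _).symm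
  have h7 : 0 < 1 + P.kap ^ 2 := by positivity
  have hc : Real.cos (2 * Real.arctan P.kap - Real.pi) = -((1 - P.kap ^ 2) / (1 + P.kap ^ 2)) := by
    rw [Real.cos_sub_pi, Real.cos_two_mul, Real.cos_sq_arctan]
    field_simp
    ring
  have hs : Real.sin (2 * Real.arctan P.kap - Real.pi) = -(2 * P.kap / (1 + P.kap ^ 2)) := by
    rw [Real.sin_sub_pi, Real.sin_two_mul, Real.sin_arctan, Real.cos_arctan, mul_assoc,
      div_mul_div_comm, Real.mul_self_sqrt h7.le]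
    ring
  have g2 : (P.kap : ℂ) ≠ 0 := ofReal_ne_zero.2 h2.ne'
  have g4 : (P.p : ℂ) ≠ 0 := ofReal_ne_zero.2 h4.ne'
  have g5 : (1 + P.kap : ℂ) ≠ 0 := by exact_mod_cast (show 1 + P.kap ≠ 0 by positivity)
  have g6 : (1 - P.kap : ℂ) ≠ 0 := by exact_mod_cast h5.ne'
  have g7 : (1 + P.kap ^ 2 : ℂ) ≠ 0 := by exact_mod_cast h7.ne'
  rw [h6, exp_add, exp_mul_I, ← ofReal_exp, ← ofReal_cos, ← ofReal_sin, hc, hs, Real.exp_sub,
    Real.exp_log (by positivity), Real.exp_log (by positivity)]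
  unfold al ga nn
  rw [← P.kap_sq]
  push_cast
  field_simp
  linear_combination (-2 * P.kap * (1 - P.p) * (1 - P.kap) ^ 2 * (1 + P.kap)) * I_mul_I

theorem den_wT (η : ℂ) : (1 - P.p + P.p * exp (P.wT + η)) * P.al
    = (1 - P.p) * (P.al + P.ga * exp η) := by
  rw [exp_add]
  linear_combination exp η * exp_wT hδ

theorem den_ne {η : ℂ} (h : P.al + P.ga * exp η ≠ 0) :
    (1 - P.p : ℂ) + P.p * exp (P.wT + η) ≠ 0 := fun h0 => by
  have h1 := den_wT hδ η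
  rw [h0, zero_mul] at h1
  exact mul_ne_zero (by exact_mod_cast P.q_pos.ne') h h1.symm

theorem lgs_wT {η : ℂ} (h : P.al + P.ga * exp η ≠ 0) :
    lgs (1 - P.p) P.p (P.wT + η) = lgs P.al P.ga η := by
  rw [lgs, lgs, div_eq_div_iff (den_ne hδ h) h]
  apply mul_left_cancel₀ (al_ne hδ)
  have h1 := exp_wT hδ
  rw [exp_add]
  linear_combination exp η * P.al * h1

theorem phi_wT (T : ℝ) (η : ℂ) : P.δ * phi1 P.δ P.N (1 - P.p) P.p (P.β T) (P.wT + η)
    = I * (η - P.v T) + P.N * P.δ * (lgs (1 - P.p) P.p (P.wT + η) - P.ga) := by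
  have h1 := P.kap_lt
  have h2 := kap_pos hδ
  have h3 := P.q_pos
  have h4 := P.hp0
  have h5 := P.k2_lt
  have h6 := P.k2_nonneg
  have h7 := P.lamU_k2
  have hd : (P.δ : ℂ) ≠ 0 := ofReal_ne_zero.2 hδ.ne'
  have hl : Real.log (P.p / (1 - P.p)) = -Real.log ((1 - P.p) / P.p) := by
    rw [← Real.log_inv, inv_div]
  have e1 : I * P.wT + P.δ * P.β T = -(I * P.v T) - P.N * P.δ * P.ga := by
    have g1 : P.N * P.δ * P.ga = ((2 * P.lamU - 2 * P.kap / (1 - P.k2) : ℝ) : ℂ) -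
        I * ((2 * P.kap / (1 + P.k2) : ℝ) : ℂ) := by
      have g2 : (P.kap : ℂ) ≠ 0 := ofReal_ne_zero.2 h2.ne'
      have g3 : (1 - P.kap ^ 2 : ℂ) ≠ 0 := by
        exact_mod_cast (show 1 - P.kap ^ 2 ≠ 0 by rw [P.kap_sq]; linarith)
      have g4 : (1 + P.kap ^ 2 : ℂ) ≠ 0 := by exact_mod_cast (show 1 + P.kap ^ 2 ≠ 0 by positivity)
      have g5 : (P.N * P.δ / 4 : ℂ) * (1 - (P.kap ^ 2) ^ 2) = 2 * P.kap ^ 2 := by
        rw [← P.kap_sq, lamU] at h7
        exact_mod_cast congrArg ofReal h7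
      unfold ga nn lamU
      rw [← P.kap_sq]
      push_cast
      field_simp
      linear_combination (-16 * (1 + P.kap ^ 2) - 16 * I * (1 - P.kap ^ 2)) * g5
    rw [g1, β]
    apply Complex.ext
    · simp only [v, wT, vim, lamU, add_re, mul_re, I_re, I_im, ofReal_re, ofReal_im, sub_re, neg_re]
      field_simp
      ring
    · simp only [v, wT, vre, hl, add_im, mul_im, I_re, I_im, ofReal_re, ofReal_im, sub_im, neg_im]
      ring
  rw [phi1]
  field_simp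
  linear_combination e1

omit hδ in
theorem wT_lo : 2 * P.kap / (1 + P.k2) - Real.pi ≤ P.wT.im := by
  have h1 := Real.sin_le (x := 2 * Real.arctan P.kap)
    (by have := Real.arctan_nonneg.2 P.kap_nonneg; positivity)
  rw [Real.sin_two_mul, Real.sin_arctan, Real.cos_arctan, mul_assoc, div_mul_div_comm,
    Real.mul_self_sqrt (by positivity), P.kap_sq, mul_one, ← mul_div_assoc] at h1
  show _ ≤ 2 * Real.arctan P.kap - Real.pi
  linarith

omit hδ in
theorem wT_hi : P.wT.im ≤ 2 * P.kap - Real.pi ∧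
    P.wT.im ≤ 1 - 2 * (1 + P.k2)⁻¹ - Real.pi / 2 := by
  have h0 := P.k2_nonneg
  have h1 : Real.arctan P.kap ≤ Real.pi / 4 := by
    rw [← Real.arctan_one]
    exact Real.arctan_mono P.kap_lt.le
  have h2 := Real.sin_le (x := Real.pi / 2 - 2 * Real.arctan P.kap) (by linarith)
  rw [Real.sin_pi_div_two_sub, Real.cos_two_mul, Real.cos_sq_arctan, P.kap_sq, one_div] at h2
  have h3 : Real.arctan P.kap ≤ P.kap := by
    have := Real.le_tan (Real.arctan_nonneg.2 P.kap_nonneg) (Real.arctan_lt_pi_div_two _)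
    rwa [Real.tan_arctan] at this
  show 2 * Real.arctan P.kap - Real.pi ≤ _ ∧ 2 * Real.arctan P.kap - Real.pi ≤ _
  constructor <;> linarith

end Par

/-- a parameter point with the two scales of the chart at the turning point -/
structure TX where
  P : Par
  T : ℝ
  c1 : ℝ
  m2 : ℝ
  hδ : 0 < P.δ
  h1 : 0 < c1
  h2 : 0 < m2

namespace TX

variable (X : TX)

noncomputable def a : ℝ := 2 * X.P.kap * X.c1
noncomputable def L : ℝ := 4 * X.c1 ^ 2 * X.m2 * X.P.Xi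
noncomputable def va : ℂ := X.P.v X.T / X.a

theorem a_pos : 0 < X.a := mul_pos (mul_pos two_pos (Par.kap_pos X.hδ)) X.h1

theorem L_pos : 0 < X.L := by
  have := X.h1
  have := X.h2
  have := X.P.Xi_pos
  unfold L
  positivity

theorem L_δ : X.L * X.P.δ = X.a ^ 2 * X.m2 := by
  rw [L, a, mul_assoc, X.P.Xi_δ, ← X.P.kap_sq]
  ring

/-- the jet in the chart `w = wT + a z` -/
noncomputable def J : Jet :=
  aJ X.P.N (1 - X.P.p) X.P.p (X.P.β X.T) X.P.wT X.hδ X.a_pos X.L_pos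

/-- the values of the primitives at the upper end -/
noncomputable def top : ℂ × ℂ := affV X.P.wT X.a (X.P.Vtop X.T)

theorem J_L : X.J.L = X.L := rfl

theorem J_P (z : ℂ) : X.J.P z = affV X.P.wT X.a (X.P.V X.T (X.P.wT + X.a * z)) := rfl

theorem J_E (z : ℂ) : X.J.E z = X.P.E X.T (X.P.wT + X.a * z) := rfl

theorem E_ne {z : ℂ} (h : z ∈ X.J.U) : X.J.E z ≠ 0 :=
  mul_ne_zero (exp_ne_zero _) (pow_ne_zero _ h)

/-- the logistic function in the chart -/
noncomputable def σ (z : ℂ) : ℂ := lgs (1 - X.P.p) X.P.p (X.P.wT + X.a * z)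

theorem cL : (X.L : ℂ) = X.a ^ 2 * X.m2 / X.P.δ := by
  rw [eq_div_iff (ofReal_ne_zero.2 X.hδ.ne')]
  exact_mod_cast congrArg ofReal X.L_δ

theorem f1_eq (z : ℂ) : X.a * (X.m2 * X.J.f1 z - I * (z - X.va))
    = X.P.N * X.P.δ * (X.σ z - X.P.ga) := by
  have h1 : (X.a : ℂ) ≠ 0 := ofReal_ne_zero.2 X.a_pos.ne'
  have h2 : (X.m2 : ℂ) ≠ 0 := ofReal_ne_zero.2 X.h2.ne'
  have h3 : (X.P.δ : ℂ) ≠ 0 := ofReal_ne_zero.2 X.hδ.ne'
  have h4 := Par.phi_wT X.hδ X.T (X.a * z)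
  show (X.a : ℂ) * (X.m2 * (X.a / X.L * phi1 X.P.δ X.P.N (1 - X.P.p) X.P.p (X.P.β X.T)
    (X.P.wT + X.a * z)) - _) = _
  rw [cL, va, σ]
  field_simp
  linear_combination h4

theorem f2_eq (z : ℂ) : X.m2 * X.J.f2 z - I = X.P.N * X.P.δ * (X.σ z * (1 - X.σ z)) := by
  have h1 : (X.a : ℂ) ≠ 0 := ofReal_ne_zero.2 X.a_pos.ne'
  have h2 : (X.m2 : ℂ) ≠ 0 := ofReal_ne_zero.2 X.h2.ne'
  have h3 : (X.P.δ : ℂ) ≠ 0 := ofReal_ne_zero.2 X.hδ.ne'
  show X.m2 * (X.a ^ 2 / X.L * (_ + _ * (X.σ z * (1 - X.σ z)))) - _ = _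
  rw [cL]
  field_simp
  ring

theorem f345_eq (z : ℂ) :
    X.m2 * X.J.f3 z = X.a * (X.m2 * X.J.f2 z - I) * (1 - 2 * X.σ z) ∧
    2 * X.m2 * X.J.f4 z = X.a ^ 2 * (X.m2 * X.J.f2 z - I) * (3 * (2 * X.σ z - 1) ^ 2 - 1) ∧
    X.m2 * X.J.f5 z = X.a ^ 3 * (X.m2 * X.J.f2 z - I) * (1 - 2 * X.σ z) *
      (3 * (2 * X.σ z - 1) ^ 2 - 2) := by
  have h1 : (X.a : ℂ) ≠ 0 := ofReal_ne_zero.2 X.a_pos.ne'
  have h2 : (X.m2 : ℂ) ≠ 0 := ofReal_ne_zero.2 X.h2.ne'
  have h3 : (X.P.δ : ℂ) ≠ 0 := ofReal_ne_zero.2 X.hδ.ne'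
  rw [f2_eq]
  refine ⟨?_, ?_, ?_⟩
  · show X.m2 * (X.a ^ 3 / X.L * (_ * (X.σ z * (1 - X.σ z) * (1 - 2 * X.σ z)))) = _
    rw [cL]
    field_simp
  · show 2 * X.m2 * (X.a ^ 4 / X.L * (_ * (X.σ z * (1 - X.σ z) *
      (1 - 6 * (X.σ z * (1 - X.σ z)))))) = _
    rw [cL]
    field_simp
    ring
  · show X.m2 * (X.a ^ 5 / X.L * (_ * (X.σ z * (1 - X.σ z) * (1 - 2 * X.σ z) *
      (1 - 12 * (X.σ z * (1 - X.σ z)))))) = _
    rw [cL]
    field_simp
    ring

theorem mem_U {z : ℂ} (h : X.m2 * X.J.f2 z - I ≠ 0) : z ∈ X.J.U := fun h0 => by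
  apply h
  rw [f2_eq, σ, lgs, h0]
  simp

theorem tau_eq (z : ℂ) : 2 * X.P.kap * (2 * X.σ z - 1) = 2 * X.P.nn +
    (1 - X.P.k2 ^ 2) * X.c1 * (X.m2 * X.J.f1 z - I * (z - X.va)) := by
  have h0 : (X.P.kap : ℂ) ≠ 0 := ofReal_ne_zero.2 (Par.kap_pos X.hδ).ne'
  have h1 := X.f1_eq z
  have h2 : (X.P.N * X.P.δ / 4 : ℂ) * (1 - (X.P.kap ^ 2) ^ 2) = 2 * X.P.kap ^ 2 := by
    have := X.P.lamU_k2
    rw [← X.P.kap_sq, Par.lamU] at this
    exact_mod_cast congrArg ofReal this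
  have h3 : 2 * X.P.kap * X.P.ga = X.P.kap + X.P.nn := mul_div_cancel₀ _ (by simpa using h0)
  rw [a] at h1
  rw [← X.P.kap_sq]
  push_cast at h1 ⊢
  apply mul_left_cancel₀ h0
  linear_combination -(1 - (X.P.kap ^ 2) ^ 2) / 2 * h1 - 2 * (X.σ z - X.P.ga) * h2 +
    2 * X.P.kap * h3

theorem tau_re (z : ℂ) : 2 * X.P.kap * ((2 * X.σ z - 1) * (1 + I)).re = (1 - X.P.k2 ^ 2) * X.c1 *
    ((X.m2 * X.J.f1 z - I * (z - X.va)) * (1 + I)).re - 2 * X.P.k2 := by
  have h := congrArg (fun w => (w * (1 + I)).re) (X.tau_eq z)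
  generalize X.m2 * X.J.f1 z - I * (z - X.va) = Y at h ⊢
  generalize 2 * X.σ z - 1 = τ at h ⊢
  simp [Par.nn, sq] at h ⊢
  linarith

theorem W_le {z : ℂ} (h : (X.m2 * X.J.f2 z * (starRingEnd ℂ) (X.J.f2 z) +
    I * X.J.f2 z * (2 : ℤ)).re ≤ 0) : X.P.N * X.P.δ * ‖X.σ z * (1 - X.σ z)‖ ≤ 1 := by
  have h1 := congrArg norm (X.f2_eq z)
  rw [norm_mul, norm_mul, norm_natCast, norm_real, Real.norm_of_nonneg X.hδ.le] at h1
  rw [← h1]
  refine (pow_le_one_iff_of_nonneg (norm_nonneg _) two_ne_zero).1 ?_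
  rw [← normSq_eq_norm_sq, normSq_apply]
  generalize X.J.f2 z = f at h ⊢
  simp at h ⊢
  nlinarith [mul_le_mul_of_nonneg_left h X.h2.le]

theorem w_re (z : ℂ) : (X.P.wT + X.a * z).re
    = 2 * X.P.kap * (X.c1 * (z - X.va).re + (1 + X.P.k2)⁻¹) := by
  have h1 := X.a_pos.ne'
  have h2 := X.P.k2_nonneg
  have hl : Real.log (X.P.p / (1 - X.P.p)) = -Real.log ((1 - X.P.p) / X.P.p) := by
    rw [← Real.log_inv, inv_div]
  rw [mul_add, ← mul_assoc, ← a, va, sub_re, div_ofReal_re, mul_sub,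
    mul_div_cancel₀ _ h1, add_re, re_ofReal_mul]
  simp only [Par.v, Par.wT, Par.vre, hl]
  ring

variable {X} {z : ℂ} {E0 g r : ℝ}

theorem ray_ne (hE0 : 0 ≤ E0) (h : X.m2 * X.J.f2 z - I ≠ 0)
    (hW : (X.m2 * X.J.f2 z * (starRingEnd ℂ) (X.J.f2 z) + I * X.J.f2 z * (2 : ℤ)).re ≤ 0)
    (hτ : 2 * X.P.k2 ≤ (1 - X.P.k2 ^ 2) * X.c1 *
      ((X.m2 * X.J.f1 z - I * (z - X.va)) * (1 + I)).re)
    (hr : (X.J.f1 z * (1 + I)).re ≤ -(Real.sqrt 2 * r))
    (hE : ‖X.J.E z‖ ≤ E0 * Real.exp (-(X.L * g))) :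
    ∃ e : ℂ, ‖e‖ = 1 ∧ (∀ s : ℝ, 0 ≤ s →
      ‖X.J.E (z + s * e)‖ ≤ E0 * Real.exp (-(X.L * (g + r * s)))) ∧
      Tendsto (fun s : ℝ => X.J.P (z + s * e)) atTop (𝓝 X.top) := by
  refine ne_ray X.hδ X.a_pos X.L_pos hE0 (X.mem_U h) (X.W_le hW) ?_ hr hE
  have h1 := X.tau_re z
  exact nonneg_of_mul_nonneg_right (a := 2 * X.P.kap) (h1 ▸ sub_nonneg.2 hτ)
    (mul_pos two_pos (Par.kap_pos X.hδ))

theorem ray_sw (hE0 : 0 ≤ E0) (h : X.m2 * X.J.f2 z - I ≠ 0)
    (hW : (X.m2 * X.J.f2 z * (starRingEnd ℂ) (X.J.f2 z) + I * X.J.f2 z * (2 : ℤ)).re ≤ 0)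
    (hτ : (1 - X.P.k2 ^ 2) * X.c1 * ((X.m2 * X.J.f1 z - I * (z - X.va)) * (1 + I)).re ≤ 2 * X.P.k2)
    (hr : Real.sqrt 2 * r ≤ (X.J.f1 z * (1 + I)).re)
    (hE : ‖X.J.E z‖ ≤ E0 * Real.exp (-(X.L * g))) :
    ∃ e : ℂ, ‖e‖ = 1 ∧ (∀ s : ℝ, 0 ≤ s →
      ‖X.J.E (z + s * e)‖ ≤ E0 * Real.exp (-(X.L * (g + r * s)))) ∧
      Tendsto (fun s : ℝ => X.J.P (z + s * e)) atTop (𝓝 (0, 0)) := by
  refine sw_ray X.hδ X.a_pos X.L_pos hE0 (X.mem_U h) (X.W_le hW) ?_ hr hE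
  have h1 := X.tau_re z
  exact nonpos_of_mul_nonpos_right (a := 2 * X.P.kap) (h1 ▸ sub_nonpos.2 hτ)
    (mul_pos two_pos (Par.kap_pos X.hδ))

theorem ray_up (hE0 : 0 ≤ E0) (h : X.m2 * X.J.f2 z - I ≠ 0) {b : ℝ} (hr0 : 0 < r)
    (h1 : r * (X.m2 * X.c1) ≤ X.c1 * (z - X.va).re + (1 + X.P.k2)⁻¹)
    (h2 : X.P.wT.im + X.a * z.im ≤ 0 → 0 ≤ X.c1 * z.im + (1 + X.P.k2)⁻¹ ∧ 0 ≤ (X.J.f2 z).re ∧
      r ≤ (X.J.f1 z).im) (h3 : X.P.wT.im + X.a * z.im ≤ b)
    (h4 : 0 < b → b ^ 2 * ‖X.m2 * X.J.f2 z - I‖ ≤ 4 * (Real.pi - b) * (X.a * X.m2 *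
      ((X.c1 * (z - X.va).re + (1 + X.P.k2)⁻¹) / (X.m2 * X.c1) - r)))
    (hE : ‖X.J.E z‖ ≤ E0 * Real.exp (-(X.L * g))) :
    (∀ s : ℝ, 0 ≤ s → ‖X.J.E (z + s * I)‖ ≤ E0 * Real.exp (-(X.L * (g + r * s)))) ∧
      Tendsto (fun s : ℝ => X.J.P (z + s * I)) atTop (𝓝 X.top) := by
  have hd := X.hδ
  have ha := X.a_pos
  have hm := X.h2
  have hc := X.h1
  have hk := Par.kap_pos X.hδ
  have hq : (1 - X.P.p : ℂ) = (1 - X.P.p : ℝ) := by push_cast; rfl
  have hw : ∀ s : ℝ, X.P.wT + X.a * (z + s * I) = X.P.wT + X.a * z + (X.a * s : ℝ) * I :=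
    fun s => by push_cast; ring
  have hb : (X.P.β X.T).im = 0 := ofReal_im _
  have hi : (X.P.wT + X.a * z).im = X.P.wT.im + X.a * z.im := by rw [add_im, im_ofReal_mul]
  have hre := X.w_re z
  generalize X.c1 * (z - X.va).re + (1 + X.P.k2)⁻¹ = a0 at *
  have h5 : X.a * X.m2 * r ≤ 2 * X.P.kap * a0 := by
    rw [a]
    nlinarith [mul_le_mul_of_nonneg_left h1 hk.le]
  have h6 : 0 < X.a * X.m2 * r := by positivity
  have hU : ((1 - X.P.p : ℝ) : ℂ) + X.P.p * exp (X.P.wT + X.a * z) ≠ 0 := hq ▸ X.mem_U h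
  have hW := X.f2_eq z
  constructor
  · intro s hs
    have h7 := up_all (N := X.P.N) (β := X.P.β X.T) (ρ := X.a * X.m2 * r / X.P.δ) (b := b)
      X.P.q_pos X.P.hp0 hd hU (by rw [hre, hb, add_zero]; gcongr) (fun h8 => ?_) (hi ▸ h3)
      (fun h8 => ?_) (u := X.a * s) (by positivity)
    · rw [← hq, ← hw] at h7
      refine genA_fin hE0 h7 hE (le_of_eq ?_)
      rw [show X.L = X.a ^ 2 * X.m2 / X.P.δ by rw [← X.L_δ]; field_simp]
      ring
    · obtain ⟨g1, g2, g3⟩ := h2 (hi ▸ h8)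
      rw [← hq]
      refine ⟨?_, ?_, ?_⟩
      · have := X.P.wT_lo
        rw [hi, a]
        rw [div_eq_mul_inv] at this
        nlinarith [mul_nonneg hk.le g1]
      · have g4 := congrArg re hW
        rw [sub_re, I_re, sub_zero, re_ofReal_mul, ← ofReal_natCast, ← ofReal_mul,
          re_ofReal_mul] at g4
        exact nonneg_of_mul_nonneg_right (g4 ▸ mul_nonneg hm.le g2) (mul_pos X.P.N_pos hd)
      · have g4 : (X.J.f1 z).im = X.a / X.L * (phi1 X.P.δ X.P.N (1 - X.P.p) X.P.p (X.P.β X.T)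
            (X.P.wT + X.a * z)).im := by
          rw [← im_ofReal_mul, ofReal_div]
          rfl
        rw [g4, show X.L = X.a ^ 2 * X.m2 / X.P.δ by rw [← X.L_δ]; field_simp] at g3
        rw [div_le_iff₀ hd]
        refine (mul_le_mul_of_nonneg_left g3 (mul_pos ha hm).le).trans (le_of_eq ?_)
        field_simp
    · have g1 := h4 h8
      rw [hW, norm_mul, norm_mul, norm_natCast, norm_real, Real.norm_of_nonneg hd.le] at g1
      have g2 : X.a * X.m2 * (a0 / (X.m2 * X.c1) - r) = 2 * X.P.kap * a0 - X.a * X.m2 * r := by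
        rw [a]
        field_simp
      rw [g2] at g1
      rw [← hq, hre, hb, add_zero, ← sub_div, div_mul_eq_mul_div, le_div_iff₀ hd]
      change _ * (_ * ‖X.σ z * (1 - X.σ z)‖ / 2) * _ ≤ _
      linarith
  · have h7 := lim_up X.P.N (1 - X.P.p) X.P.p (X.P.β X.T) hd (X.P.wT + X.a * z)
      (by rw [hre, hb, add_zero]; exact div_pos (h6.trans_le h5) hd)
    refine (((affV_cont X.P.wT X.a).tendsto _).comp (h7.comp
      (tendsto_id.const_mul_atTop (r := X.a) ha))).congr (fun s => ?_)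
    rw [J_P, hw]
    rfl

end TX

end Pool.Agent.Sok
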