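import Pool.Agent.Sok.Tail
import Pool.Agent.Sok.Ser
import Pool.Agent.Sok.TB

/-! Taylor model charts at the turning point: series form and exponential form. -/

set_option autoImplicit false

namespace Pool.Agent.Sok

open TM Complex Finset

/-- joint Horner scheme for `(cosh u - 1)/u²` and `(sinh u - u)/u³` in `x = u²/16` -/
def hor2 (x : TM) : ℕ → TM → TM → (TM → TM → Bool) → Bool
  | 0, c, s, k => k c s
  | j + 1, c, s, k => mul c x fun a => addq a (16 ^ j : ℕ) (Nat.factorial (2 * j + 2)) fun a =>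
      mul s x fun b => addq b (16 ^ j : ℕ) (Nat.factorial (2 * j + 3)) fun b => hor2 x j a b k

def ser0 (x : TM) (m : ℕ) (k : TM → TM → Bool) : Bool :=
  ab x fun r => leI (4 * r) (((2 * m + 5) ^ 2 : ℕ) * one) && cst 0 0 fun o =>
  addq o (16 ^ m : ℕ) (Nat.factorial (2 * m + 2)) fun c =>
  wid c (mulU r (qU (2 * 16 ^ m : ℕ) (Nat.factorial (2 * m + 4)))) fun c =>
  addq o (16 ^ m : ℕ) (Nat.factorial (2 * m + 3)) fun s =>
  wid s (mulU r (qU (2 * 16 ^ m : ℕ) (Nat.factorial (2 * m + 5)))) fun s =>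
  ndiv x 16 fun y => hor2 y m c s k

/-- `m` Horner steps, with one optional doubling of the argument -/
def serT (x : TM) (m : ℕ) (dbl : Bool) (k : TM → TM → Bool) : Bool :=
  cond dbl
    (ndiv x 4 fun y => ser0 y m fun c s => mul y s fun a => addc a one 0 fun s1 =>
      mul s1 s1 fun b => ndiv b 2 fun C => mul c s1 fun d => add s d fun d => ndiv d 4 fun S =>
      k C S)
    (ser0 x m k)

/-- `c` and `s` are the tails of the series of `cosh` and `sinh` -/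
def TailCS (u : ℂ) (j : ℕ) (c s : ℂ) : Prop :=
  cosh u = ∑ i ∈ range (j + 1), u ^ (2 * i) / (2 * i).factorial + u ^ (2 * j + 2) * c ∧
    sinh u = ∑ i ∈ range (j + 1), u ^ (2 * i + 1) / (2 * i + 1).factorial + u ^ (2 * j + 3) * s

theorem tch_step {u c s : ℂ} {j : ℕ} (h : TailCS u (j + 1) c s) :
    TailCS u j (c * u ^ 2 + ((1 : ℤ) : ℂ) / ((2 * j + 2).factorial : ℕ))
      (s * u ^ 2 + ((1 : ℤ) : ℂ) / ((2 * j + 3).factorial : ℕ)) := by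
  obtain ⟨h1, h2⟩ := h
  rw [sum_range_succ] at h1 h2
  refine ⟨h1.trans ?_, h2.trans ?_⟩
  · rw [show 2 * (j + 1) = 2 * j + 2 from rfl]
    push_cast
    ring
  · rw [show 2 * (j + 1) + 1 = 2 * j + 3 from rfl]
    push_cast
    ring

theorem tch_sum (u : ℂ) (M : ℕ) :
    ∑ i ∈ range (2 * M), u ^ i / i.factorial + ∑ i ∈ range (2 * M), (-u) ^ i / i.factorial
      = 2 * ∑ i ∈ range M, u ^ (2 * i) / (2 * i).factorial ∧
    ∑ i ∈ range (2 * M + 1), u ^ i / i.factorial - ∑ i ∈ range (2 * M + 1), (-u) ^ i / i.factorial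
      = 2 * ∑ i ∈ range M, u ^ (2 * i + 1) / (2 * i + 1).factorial := by
  induction M with
  | zero => simp
  | succ M ih =>
    have e1 : (-u) ^ (2 * M) = u ^ (2 * M) := (even_two_mul M).neg_pow u
    have e2 : (-u) ^ (2 * M + 1) = -u ^ (2 * M + 1) := (odd_two_mul_add_one M).neg_pow u
    have e3 : (-u) ^ (2 * M + 1 + 1) = u ^ (2 * M + 1 + 1) := (even_two_mul (M + 1)).neg_pow u
    rw [show 2 * (M + 1) = 2 * M + 1 + 1 from rfl]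
    constructor
    · rw [sum_range_succ, sum_range_succ, sum_range_succ _ (2 * M + 1), sum_range_succ _ (2 * M),
        sum_range_succ _ M, e1, e2]
      linear_combination ih.1
    · rw [sum_range_succ, sum_range_succ, sum_range_succ _ (2 * M + 1 + 1),
        sum_range_succ (fun i => (-u) ^ i / (i.factorial : ℂ)) (2 * M + 1), sum_range_succ _ M, e2, e3]
      linear_combination ih.2

theorem tch_div {u r : ℂ} {n : ℕ} {b : ℝ} (hb : 0 ≤ b) (h : ‖r‖ ≤ ‖u‖ ^ n * b) :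
    ∃ c, ‖c‖ ≤ b ∧ r = u ^ n * c := by
  by_cases h0 : u ^ n = 0
  · rw [← norm_pow, h0, norm_zero, zero_mul, norm_le_zero_iff] at h
    exact ⟨0, by simpa using hb, by rw [h, mul_zero]⟩
  · refine ⟨r / u ^ n, ?_, (mul_div_cancel₀ _ h0).symm⟩
    rwa [norm_div, div_le_iff₀ (norm_pos_iff.2 h0), norm_pow, mul_comm]

theorem tch_tail {u : ℂ} {j : ℕ} (h : 2 * ‖u‖ ≤ 2 * j + 3) : ∃ c s, TailCS u j c s ∧
    ‖c‖ ≤ ((2 : ℤ) : ℝ) / ((2 * j + 2).factorial : ℕ) ∧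
    ‖s‖ ≤ ((2 : ℤ) : ℝ) / ((2 * j + 3).factorial : ℕ) := by
  have hb : ∀ n : ℕ, 2 * j + 2 ≤ n → ∀ w : ℂ, ‖w‖ = ‖u‖ →
      ‖cexp w - ∑ i ∈ range n, w ^ i / i.factorial‖ ≤ ‖u‖ ^ n * (((2 : ℤ) : ℝ) / (n.factorial : ℕ)) := by
    intro n hn w hw
    have h1 : (2 * j + 2 : ℝ) ≤ n := by exact_mod_cast hn
    refine (Complex.exp_bound' (n := n) ?_).trans (le_of_eq ?_)
    · rw [hw, div_le_iff₀ (by positivity)]
      push_cast
      linarith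
    · rw [hw]
      push_cast
      ring
  obtain ⟨e1, e2⟩ := tch_sum u (j + 1)
  obtain ⟨c, c1, c2⟩ := tch_div (u := u) (n := 2 * j + 2)
    (r := cosh u - ∑ i ∈ range (j + 1), u ^ (2 * i) / (2 * i).factorial)
    (b := ((2 : ℤ) : ℝ) / ((2 * j + 2).factorial : ℕ)) (by positivity) (by
      have h1 := hb _ le_rfl u rfl
      have h2 := hb _ le_rfl (-u) (norm_neg u)
      have h3 := norm_add_le_of_le h1 h2
      rw [← add_sub_add_comm, ← two_cosh, show 2 * j + 2 = 2 * (j + 1) from rfl, e1, ← mul_sub,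
        norm_mul, Complex.norm_two] at h3
      rw [show 2 * j + 2 = 2 * (j + 1) from rfl]
      linarith)
  obtain ⟨s, s1, s2⟩ := tch_div (u := u) (n := 2 * j + 3)
    (r := sinh u - ∑ i ∈ range (j + 1), u ^ (2 * i + 1) / (2 * i + 1).factorial)
    (b := ((2 : ℤ) : ℝ) / ((2 * j + 3).factorial : ℕ)) (by positivity) (by
      have h1 := hb (2 * j + 3) (by omega) u rfl
      have h2 := hb (2 * j + 3) (by omega) (-u) (norm_neg u)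
      have h3 := norm_sub_le_of_le h1 h2
      rw [sub_sub_sub_comm, ← two_sinh, show 2 * j + 3 = 2 * (j + 1) + 1 from rfl, e2, ← mul_sub,
        norm_mul, Complex.norm_two] at h3
      rw [show 2 * j + 3 = 2 * (j + 1) + 1 from rfl]
      linarith)
  exact ⟨c, s, ⟨by linear_combination c2, by linear_combination s2⟩, c1, s1⟩

theorem tch_hor {x : TM} (j : ℕ) {c s : TM} {k : TM → TM → Bool} (h : hor2 x j c s k = true) :
    ∃ c' s', k c' s' = true ∧ ∀ pt u C S, Rep pt x (u ^ 2 / (16 : ℕ)) → Rep pt c (16 ^ j * C) →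
      Rep pt s (16 ^ j * S) → TailCS u j C S →
      ∃ C' S', Rep pt c' C' ∧ Rep pt s' S' ∧ TailCS u 0 C' S' := by
  induction j generalizing c s with
  | zero => exact ⟨c, s, h, fun _ _ C S _ h1 h2 h3 => ⟨C, S, by simpa using h1, by simpa using h2, h3⟩⟩
  | succ j ih =>
    unfold hor2 at h
    obtain ⟨_, h, a1⟩ := mul_ok h
    obtain ⟨_, h, a2⟩ := addq_ok h
    obtain ⟨_, h, a3⟩ := mul_ok h
    obtain ⟨_, h, a4⟩ := addq_ok h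
    obtain ⟨c', s', h, ih⟩ := ih h
    have e : ∀ (u w : ℂ) (n : ℕ), 16 ^ j * (w * u ^ 2 + ((1 : ℤ) : ℂ) / n) =
        16 ^ (j + 1) * w * (u ^ 2 / (16 : ℕ)) + (((16 ^ j : ℕ) : ℤ) : ℂ) / n := fun u w n => by
      push_cast
      ring
    exact ⟨c', s', h, fun pt u C S h0 h1 h2 h3 => ih pt u _ _ h0 (e .. ▸ a2 _ _ (a1 _ _ _ h1 h0))
      (e .. ▸ a4 _ _ (a3 _ _ _ h2 h0)) (tch_step h3)⟩

theorem ser0_ok {x : TM} {m : ℕ} {k : TM → TM → Bool} (h : ser0 x m k = true) :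
    ∃ c s, k c s = true ∧ ∀ pt u, Rep pt x (u ^ 2) → ∃ C S, Rep pt c C ∧ Rep pt s S ∧
      cosh u = 1 + u ^ 2 * C ∧ sinh u = u * (1 + u ^ 2 * S) := by
  unfold ser0 at h
  obtain ⟨r, h, hr⟩ := ab_ok h
  obtain ⟨t, h⟩ := Bool.and_eq_true_iff.1 h
  obtain ⟨_, h, a1⟩ := cst_ok h
  obtain ⟨_, h, a2⟩ := addq_ok h
  obtain ⟨_, h, a3⟩ := wid_ok h
  obtain ⟨_, h, a4⟩ := addq_ok h
  obtain ⟨_, h, a5⟩ := wid_ok h
  obtain ⟨_, h, a7⟩ := ndiv_ok h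
  obtain ⟨c, s, h, a6⟩ := tch_hor m h
  refine ⟨c, s, h, fun pt u hu => ?_⟩
  replace t := leI_ok t
  replace hr := hr _ _ hu
  rw [toR_intmul, toR_natmul, toR_one] at t
  obtain ⟨C, S, b1, b2, b3⟩ := tch_tail (u := u) (j := m + 1) (by
    rw [norm_pow] at hr
    push_cast at t ⊢
    refine (pow_le_pow_iff_left₀ (by positivity) (by positivity) two_ne_zero).1 ?_
    linarith only [hr, t])
  have hw : ∀ (w : ℂ) (a n : ℕ), ‖w‖ ≤ ((2 : ℤ) : ℝ) / (n.factorial : ℕ) →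
      ‖16 ^ m * (w * u ^ 2 + ((1 : ℤ) : ℂ) / a) - (toC 0 0 + (((16 ^ m : ℕ) : ℤ) : ℂ) / a)‖ ≤
        toR (mulU r (qU (2 * 16 ^ m : ℕ) n.factorial)) := fun w a n h1 => by
    rw [ser_toC, toR_zero, ofReal_zero, zero_add, show 16 ^ m * (w * u ^ 2 + ((1 : ℤ) : ℂ) / a) -
      (((16 ^ m : ℕ) : ℤ) : ℂ) / a = u ^ 2 * (16 ^ m * w) by push_cast; ring, norm_mul]
    refine mulU_le (norm_nonneg _) (norm_nonneg _) hr (le_trans ?_ (qU_ok _ n.factorial_pos))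
    rw [norm_mul, norm_pow, Complex.norm_ofNat]
    refine (mul_le_mul_of_nonneg_left h1 (by positivity)).trans (le_of_eq ?_)
    push_cast
    ring
  obtain ⟨C', S', c1, c2, c3, c4⟩ := a6 pt u _ _ (a7 _ _ hu)
    (a3 _ _ _ (a2 _ _ (a1 pt)) (hw _ _ _ b2)) (a5 _ _ _ (a4 _ _ (a1 pt)) (hw _ _ _ b3)) (tch_step b1)
  exact ⟨C', S', c1, c2, by simpa using c3, by rw [c4]; simp; ring⟩

theorem tch_one : toC one 0 = 1 := by rw [ser_toC, toR_one, ofReal_one]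

theorem serT_ok {x : TM} {m : ℕ} {dbl : Bool} {k : TM → TM → Bool} (h : serT x m dbl k = true) :
    ∃ c s, k c s = true ∧ ∀ pt u, Rep pt x (u ^ 2) → ∃ C S, Rep pt c C ∧ Rep pt s S ∧
      cosh u = 1 + u ^ 2 * C ∧ sinh u = u * (1 + u ^ 2 * S) := by
  unfold serT at h
  cases dbl
  · exact ser0_ok h
  rw [cond_true] at h
  obtain ⟨_, h, a1⟩ := ndiv_ok h
  obtain ⟨_, _, h, a2⟩ := ser0_ok h
  obtain ⟨_, h, a3⟩ := mul_ok h
  obtain ⟨_, h, a4⟩ := addc_ok h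
  obtain ⟨_, h, a5⟩ := mul_ok h
  obtain ⟨_, h, a6⟩ := ndiv_ok h
  obtain ⟨_, h, a7⟩ := mul_ok h
  obtain ⟨_, h, a8⟩ := add_ok h
  obtain ⟨_, h, a9⟩ := ndiv_ok h
  refine ⟨_, _, h, fun pt u hu => ?_⟩
  have b1 := a1 _ _ hu
  rw [show u ^ 2 / (4 : ℕ) = (u / 2) ^ 2 by push_cast; ring] at b1
  obtain ⟨C, S, b2, b3, b4, b5⟩ := a2 _ _ b1
  have b6 := a4 _ _ (a3 _ _ _ b1 b3)
  rw [tch_one] at b6
  have e1 := cosh_two_mul (u / 2)
  have e2 := sinh_two_mul (u / 2)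
  rw [mul_div_cancel₀ _ two_ne_zero] at e1 e2
  refine ⟨_, _, a6 _ _ (a5 _ _ _ b6 b6), a9 _ _ (a8 _ _ _ b3 (a7 _ _ _ b2 b6)), ?_, ?_⟩
  · rw [e1, cosh_sq, b5]
    push_cast
    ring
  · rw [e2, b4, b5]
    push_cast
    ring

/-- the data used by the ends of the contours -/
structure TE where
  kk : TM
  c1 : TM
  m2 : TM
  va : TM
  ik : TM
  k4 : TM
  kh : ℤ
  kl : ℤ
  om : ℤ
  dn : ℤ
  mc : ℤ
  ex : Bool

structure TE.Ok (e : TE) (x : Pt) (X : TX) : Prop where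
  kk : RepA x e.kk (X.P.k2 * (2 : ℤ))
  c1 : RepA x e.c1 X.c1
  m2 : RepA x e.m2 X.m2
  va : RepA x e.va X.va
  ik : RepA x e.ik (X.P.k2 + 1 : ℂ)⁻¹
  k4 : RepA x e.k4 ((1 - X.P.k2 ^ 2) * X.c1)
  kh : X.P.kap ≤ toR e.kh
  kl : toR e.kl ≤ X.P.kap
  om : X.P.wT.im ≤ -toR e.om
  dn : toR e.dn ≤ X.a * X.m2
  mc : X.m2 * X.c1 ≤ toR e.mc
  ex : e.ex = true → X.a = 1 ∧ X.m2 = 1

def mkTE (k2 c1 m2 va : TM) (ex : Bool) (k : TE → Bool) : Bool :=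
  nmul k2 2 fun kk => addc k2 one 0 fun a => inv a fun ik => rmul k2 k2 fun a => neg a fun a =>
  addc a one 0 fun a => rmul a c1 fun k4 => rmul m2 c1 fun mc => hi k2 fun h => lo k2 fun l =>
  lo ik fun il => hi mc fun mh => lo mc fun ml => fI (sqrtU h) fun kh => fI (sqrtD l) fun kl =>
  fI (maxI (mulD half piD + 2 * il - one) (piD - 2 * kh)) fun om =>
  fI (cond ex one (mulD (2 * maxI kl 0) (maxI ml 0))) fun dn =>
  k ⟨kk, c1, m2, va, ik, k4, kh, kl, om, dn, mh, ex⟩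

theorem tch_half : toR half = 1 / 2 := acc_half

theorem mkTE_ok {k2 c1 m2 va : TM} {ex : Bool} {k : TE → Bool} (h : mkTE k2 c1 m2 va ex k = true) :
    ∃ e, k e = true ∧ ∀ x (X : TX), RepA x k2 X.P.k2 → RepA x c1 X.c1 → RepA x m2 X.m2 →
      RepA x va X.va → (ex = true → X.a = 1 ∧ X.m2 = 1) → e.Ok x X := by
  unfold mkTE at h
  obtain ⟨_, h, a1⟩ := nmul_ok h
  obtain ⟨_, h, a2⟩ := addc_ok h
  obtain ⟨_, h, a3⟩ := inv_ok h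
  obtain ⟨_, h, a4⟩ := rmul_ok h
  obtain ⟨_, h, a5⟩ := neg_ok h
  obtain ⟨_, h, a6⟩ := addc_ok h
  obtain ⟨_, h, a7⟩ := rmul_ok h
  obtain ⟨_, h, a8⟩ := rmul_ok h
  obtain ⟨kh, h, b1⟩ := hi_ok h
  obtain ⟨kl, h, b2⟩ := lo_ok h
  obtain ⟨il, h, b3⟩ := lo_ok h
  obtain ⟨mh, h, b4⟩ := hi_ok h
  obtain ⟨ml, h, b5⟩ := lo_ok h
  simp only [fI_eq] at h
  rw [tch_one] at a2 a6
  refine ⟨_, h, fun x X h1 h2 h3 h4 h5 => ?_⟩
  have c1 : X.P.kap ≤ toR (sqrtU kh) :=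
    (Real.sqrt_le_sqrt (b1 _ _ h1.rep)).trans (sqrtU_ok _)
  have c2 : toR (sqrtD kl) ≤ X.P.kap :=
    (sqrtD_ok _).trans (Real.sqrt_le_sqrt (b2 _ _ h1.rep))
  have c3 := b3 _ _ (a3 _ _ (a2 _ _ h1.rep)).2
  have c4 := a8 _ _ _ h3.rep h2.rep
  rw [← ofReal_mul] at c4
  have c5 := b5 _ _ c4
  have c6 := X.P.kap_nonneg
  have c7 := mul_pos X.h2 X.h1
  refine ⟨fun y hy => a1 _ _ (h1 y hy), h2, h3, h4, fun y hy => (a3 _ _ (a2 _ _ (h1 y hy))).2,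
    fun y hy => ?_, c1, c2, ?_, ?_, b4 _ _ c4, h5⟩
  · have := a7 _ _ _ (a6 _ _ (a5 _ _ (a4 _ _ _ (h1 y hy) (h1 y hy)))) (h2 y hy)
    rwa [neg_add_eq_sub, ← sq] at this
  · obtain ⟨d1, d2⟩ := X.P.wT_hi
    have d3 := mulD_ok half piD
    have d4 := piD_ok
    rw [← ofReal_one, ← ofReal_add, ← ofReal_inv, ofReal_re, add_comm] at c3
    rw [tch_half] at d3
    rw [toR_maxI, le_neg, max_le_iff, toR_sub, toR_add, toR_sub, toR_intmul, toR_intmul, toR_one]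
    push_cast
    constructor <;> linarith
  · cases ex
    · refine (mulD_le (x := 2 * X.P.kap) (y := X.m2 * X.c1) ?_ ?_ ?_ ?_).trans (le_of_eq ?_)
      · rw [toR_intmul, toR_maxI, toR_zero]
        positivity
      · rw [toR_maxI, toR_zero]
        positivity
      · rw [toR_intmul, toR_maxI, toR_zero]
        push_cast
        exact mul_le_mul_of_nonneg_left (max_le c2 c6) zero_le_two
      · rw [toR_maxI, toR_zero]
        exact max_le c5 c7.le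
      · rw [TX.a]
        ring
    · rw [(h5 rfl).1, (h5 rfl).2, mul_one]
      exact toR_one.le

/-- the data of the series chart -/
structure TS where
  k2 : TM
  kk : TM
  s : TM
  vh : TM
  n : TM
  sw : TM
  s8 : ℤ
  m : ℕ
  dbl : Bool

/-- the continuation gets `y y' zS N1 N` -/
def tsCore (c : TS) (z : TM) (k : TM → TM → TM → TM → TM → Bool) : Bool :=
  mul z z fun z2 => rmul c.sw z2 fun t => rmul c.s t fun x => serT x c.m c.dbl fun C S =>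
  mul t C fun y => mul t S fun y' => rmul c.s y' fun a => addc a one 0 fun S1 =>
  mul z S1 fun zS => mul c.n zS fun a => add a y fun N1 => rmul c.s N1 fun a =>
  addc a one 0 fun N => k y y' zS N1 N

def tsA (c : TS) (y zS : TM) (k : TM → Bool) : Bool :=
  mul c.n y fun a => rmul c.k2 zS fun b => add a b fun a => rmul c.s a fun a => add a c.n k

/-- the continuation gets `iv f1 f2` -/
def tsF (c : TS) (z y' N1 N : TM) (k : TM → TM → TM → Bool) : Bool :=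
  inv N fun iv => sub N1 y' fun a => mul z a fun a => mul a iv fun a => sub a c.vh fun a =>
  mi a fun f1 => mul N1 iv fun a => addc iv one 0 fun b => mul a b fun a => mi a fun f2 =>
  k iv f1 f2

def optM (w2 : Option TM) (F : TM) (k : TM → Bool) : Bool :=
  Option.casesOn (motive := fun _ => Bool) w2 (k F) (fun w => rmul F w k)

theorem optM_ok {w2 : Option TM} {F : TM} {k : TM → Bool} (h : optM w2 F k = true) :
    ∃ c, k c = true ∧ ∀ pt (f : ℂ) (w : ℝ), Rep pt F f →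
      (∀ t, w2 = some t → Rep pt t (w ^ 2 : ℝ)) → (w2 = none → w = 1) →
      Rep pt c (f * (w ^ 2 : ℝ)) := by
  cases w2 with
  | none => exact ⟨F, h, fun pt f w h1 _ h2 => by simpa [h2 rfl] using h1⟩
  | some t =>
    obtain ⟨c, h, b⟩ := rmul_ok (a := F) (b := t) h
    exact ⟨c, h, fun pt f w h1 h2 _ => b _ _ _ h1 (h2 t rfl)⟩

/-- with `X = ‖N‖²`: bounds for `‖A/N‖ w/X` and `‖A/N‖ ‖3 (A/N)² - kk‖ w/X`, where `w2` is `w²`,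
or is omitted -/
def supG (N A kk : TM) (w2 : Option TM) (k : ℤ → ℤ → Bool) : Bool :=
  conj N fun Nc => mul N Nc fun X => rp X fun X => inv X fun iX => conj A fun Ac =>
  mul A Ac fun T => rp T fun T => rmul T iX fun T => rmul iX iX fun i2 =>
  mul A Nc fun u => mul u u fun u => rp u fun u => rmul u i2 fun R =>
  rmul T i2 fun F => optM w2 F fun F =>
  rmul T T fun a => nmul a 9 fun a => nmul R (-6) fun b => add b kk fun b => rmul kk b fun b =>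
  add a b fun G => rmul F G fun G => hi F fun u => hi G fun v =>
  fI (sqrtU u) fun u => fI (sqrtU v) fun v => k u v

theorem supG_ok {N A kk : TM} {w2 : Option TM} {k : ℤ → ℤ → Bool} (h : supG N A kk w2 k = true) :
    ∃ u v, k u v = true ∧ ∀ pt (n a : ℂ) (κ w : ℝ), Rep pt N n → Rep pt A a → Rep pt kk κ → 0 ≤ w →
      (∀ t, w2 = some t → Rep pt t (w ^ 2 : ℝ)) → (w2 = none → w = 1) →
      n ≠ 0 ∧ ‖a * n⁻¹‖ * (w / ‖n‖ ^ 2) ≤ toR u ∧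
        ‖a * n⁻¹‖ * (w / ‖n‖ ^ 2) * ‖3 * (a * n⁻¹) ^ 2 - κ‖ ≤ toR v := by
  unfold supG at h
  obtain ⟨_, h, a1⟩ := conj_ok h
  obtain ⟨_, h, a2⟩ := mul_ok h
  obtain ⟨_, h, a3⟩ := rp_ok h
  obtain ⟨_, h, a4⟩ := inv_ok h
  obtain ⟨_, h, a5⟩ := conj_ok h
  obtain ⟨_, h, a6⟩ := mul_ok h
  obtain ⟨_, h, a7⟩ := rp_ok h
  obtain ⟨_, h, a8⟩ := rmul_ok h
  obtain ⟨_, h, a9⟩ := rmul_ok h
  obtain ⟨_, h, b1⟩ := mul_ok h
  obtain ⟨_, h, b2⟩ := mul_ok h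
  obtain ⟨_, h, b3⟩ := rp_ok h
  obtain ⟨_, h, b4⟩ := rmul_ok h
  obtain ⟨_, h, b5⟩ := rmul_ok h
  obtain ⟨_, h, b6⟩ := optM_ok h
  obtain ⟨_, h, c1⟩ := rmul_ok h
  obtain ⟨_, h, c2⟩ := nmul_ok h
  obtain ⟨_, h, c3⟩ := nmul_ok h
  obtain ⟨_, h, c4⟩ := add_ok h
  obtain ⟨_, h, c5⟩ := rmul_ok h
  obtain ⟨_, h, c6⟩ := add_ok h
  obtain ⟨_, h, c7⟩ := rmul_ok h
  obtain ⟨_, h, c8⟩ := hi_ok h
  obtain ⟨_, h, c9⟩ := hi_ok h
  simp only [fI_eq] at h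
  refine ⟨_, _, h, fun pt n a κ w h1 h2 h3 h4 h5 h6 => ?_⟩
  have d1 := a1 _ _ h1
  obtain ⟨d2, d3⟩ := a4 _ _ (a3 _ _ (a2 _ _ _ h1 d1))
  have d4 := a8 _ _ _ (a7 _ _ (a6 _ _ _ h2 (a5 _ _ h2))) d3
  have d5 := a9 _ _ _ d3 d3
  have d6 := b1 _ _ _ h2 d1
  have d7 := b4 _ _ _ (b3 _ _ (b2 _ _ _ d6 d6)) d5
  have d8 := b6 _ _ w (b5 _ _ _ d4 d5) h5 h6
  have d9 := c9 _ _ (c7 _ _ _ d8 (c6 _ _ _ (c2 _ _ (c1 _ _ _ d4 d4))
    (c5 _ _ _ h3 (c4 _ _ _ (c3 _ _ d7) h3))))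
  replace d8 := c8 _ _ d8
  have hn : n ≠ 0 := fun h0 => d2 (by simp [h0])
  have e0 : (normSq n : ℂ) ≠ 0 := ofReal_ne_zero.2 (normSq_pos.2 hn).ne'
  have e1 : ((a * (starRingEnd ℂ) a).re : ℂ) * ((n * (starRingEnd ℂ) n).re : ℂ)⁻¹
      = (normSq (a * n⁻¹) : ℝ) := by
    rw [mul_conj, mul_conj, ofReal_re, ofReal_re, map_mul, map_inv₀]
    push_cast
    rfl
  have e2 : ((a * (starRingEnd ℂ) n * (a * (starRingEnd ℂ) n)).re : ℂ) *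
      (((n * (starRingEnd ℂ) n).re : ℂ)⁻¹ * ((n * (starRingEnd ℂ) n).re : ℂ)⁻¹)
      = (((a * n⁻¹) ^ 2).re : ℝ) := by
    have : a * (starRingEnd ℂ) n = (normSq n : ℝ) * (a * n⁻¹) := by
      rw [← mul_conj]
      field_simp
    rw [this, mul_mul_mul_comm, ← ofReal_mul, re_ofReal_mul, mul_conj, ofReal_re, sq]
    push_cast
    field_simp
  rw [e1, e2] at d9
  rw [e1] at d8
  rw [mul_conj, ofReal_re, normSq_eq_norm_sq n] at d8 d9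
  generalize a * n⁻¹ = τ at d8 d9 ⊢
  have e3 : ‖3 * τ ^ 2 - κ‖ ^ 2 = normSq τ * normSq τ * 9 + κ * ((τ ^ 2).re * (-6) + κ) := by
    rw [← normSq_eq_norm_sq]
    simp [normSq_apply, sq]
    ring
  norm_cast at d8 d9
  refine ⟨hn, (Real.le_sqrt_of_sq_le (le_trans (le_of_eq ?_) d8)).trans (sqrtU_ok _),
    (Real.le_sqrt_of_sq_le (le_trans (le_of_eq ?_) d9)).trans (sqrtU_ok _)⟩
  · rw [normSq_eq_norm_sq]
    ring
  · rw [mul_pow, e3, normSq_eq_norm_sq]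
    push_cast
    ring

theorem TX.ex_eq (X : TX) {z d E : ℂ} (hE : E = cexp (X.a * z)) (hd : d = X.P.al + X.P.ga * E)
    (h : d ≠ 0) : z ∈ X.J.U ∧
      X.a * X.m2 * X.J.f1 z = I * (X.a * z - ((E - 1) * d⁻¹ + X.P.v X.T)) ∧
      X.m2 * X.J.f2 z - I = -(I * (E * d⁻¹ * d⁻¹)) ∧
      2 * X.σ z - 1 = (X.P.ga * E - X.P.al) * d⁻¹ := by
  have h0 : X.P.al + X.P.ga * cexp (X.a * z) ≠ 0 := hE ▸ hd ▸ h
  have h1 : X.σ z = X.P.ga * E / d := by rw [TX.σ, Par.lgs_wT X.hδ h0, lgs, hd, hE]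
  have h2 := Par.al_ga X.hδ
  have h3 := Par.lam_al_ga X.hδ
  have h4 : (X.a : ℂ) ≠ 0 := ofReal_ne_zero.2 X.a_pos.ne'
  have h5 := X.f1_eq z
  have h6 : X.P.N * X.P.δ * (X.P.ga * E / d - X.P.ga) = -I * ((E - 1) * d⁻¹) := by
    rw [← h3]
    field_simp
    rw [hd]
    linear_combination (-X.P.N * X.P.δ * X.P.ga * E) * h2
  refine ⟨Par.den_ne X.hδ h0, ?_, ?_, ?_⟩
  · rw [h1, h6, TX.va, mul_sub, mul_left_comm _ I, mul_sub, mul_div_cancel₀ _ h4] at h5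
    linear_combination h5
  · rw [X.f2_eq, h1, ← neg_mul, ← h3]
    field_simp
    rw [hd]
    ring
  · rw [h1]
    field_simp
    rw [hd]
    ring

theorem TX.ser_eq (X : TX) {s : ℝ} (h1 : X.c1 = s) (h2 : X.m2 = s) {vh z C S y y' zS N1 N A : ℂ}
    (hv : X.P.v X.T = 2 * X.P.kap * s ^ 2 * vh)
    (hC : cosh (X.P.kap * s * z) = 1 + (X.P.kap * s * z) ^ 2 * C)
    (hS : sinh (X.P.kap * s * z) = X.P.kap * s * z * (1 + (X.P.kap * s * z) ^ 2 * S))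
    (e1 : y = s * X.P.k2 * (z * z) * C) (e2 : y' = s * X.P.k2 * (z * z) * S)
    (e3 : zS = z * (s * y' + 1)) (e4 : N1 = X.P.nn * zS + y) (e5 : N = s * N1 + 1)
    (e6 : A = s * (X.P.nn * y + X.P.k2 * zS) + X.P.nn) (hN : N ≠ 0) : z ∈ X.J.U ∧
      X.J.f1 z = I * (z * (N1 - y') * N⁻¹ - vh) ∧ X.J.f2 z = I * (N1 * N⁻¹ * (N⁻¹ + 1)) ∧
      X.J.f3 z = A * N⁻¹ * (I * (N⁻¹ * N⁻¹)) * 2 ∧
      X.J.f4 z = s * ((X.P.k2 - A * N⁻¹ * (A * N⁻¹) * 3) * (I * (N⁻¹ * N⁻¹))) * 2 ∧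
      X.J.f5 z = 8 * s ^ 2 * I * (A * N⁻¹ * (N⁻¹ * N⁻¹) * (3 * (A * N⁻¹) ^ 2 - X.P.k2 * 2)) := by
  have g0 : (X.P.kap : ℂ) ≠ 0 := ofReal_ne_zero.2 (Par.kap_pos X.hδ).ne'
  have g1 : (s : ℂ) ≠ 0 := ofReal_ne_zero.2 (h1 ▸ X.h1.ne')
  have g2 : (X.a : ℂ) = 2 * X.P.kap * s := by rw [TX.a, h1]; push_cast; rfl
  have g3 : (X.P.k2 : ℂ) = X.P.kap ^ 2 := by rw [← X.P.kap_sq]; push_cast; rfl
  have g4 : cexp (X.a * z) = cexp (X.P.kap * s * z) ^ 2 := by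
    rw [← Complex.exp_nat_mul, g2]
    congr 1
    push_cast
    ring
  have g5 := cosh_add_sinh (X.P.kap * s * z)
  have g6 := cosh_sub_sinh (X.P.kap * s * z)
  have g7 : cexp (X.P.kap * s * z) * cexp (-(X.P.kap * s * z)) = 1 := by
    rw [← Complex.exp_add, add_neg_cancel, Complex.exp_zero]
  have g8 := Complex.exp_ne_zero (X.P.kap * s * z)
  have k1 : sinh (X.P.kap * s * z) = X.P.kap * s * zS := by rw [hS, e3, e2, g3]; ring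
  have k2 : cosh (X.P.kap * s * z) = 1 + s * y := by rw [hC, e1, g3]; ring
  rw [k1, k2] at g5 g6
  generalize cexp (-(X.P.kap * s * z)) = e' at g6 g7
  generalize cexp (X.P.kap * s * z) = e at g4 g5 g7 g8
  have k3 : 2 * X.P.kap * X.P.ga = X.P.kap + X.P.nn := mul_div_cancel₀ _ (by simpa using g0)
  have k4 : 2 * X.P.kap * X.P.al = X.P.kap - X.P.nn := mul_div_cancel₀ _ (by simpa using g0)
  have k5 : e * N = X.P.al + X.P.ga * e ^ 2 := by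
    apply mul_left_cancel₀ (mul_ne_zero two_ne_zero g0)
    rw [e5, e4]
    linear_combination -k4 - e ^ 2 * k3 + (X.P.kap + X.P.nn) * e * g5 +
      (X.P.kap - X.P.nn) * (e * g6 + g7)
  have k6 : X.P.kap * (X.P.ga * e ^ 2 - X.P.al) = e * A := by
    apply mul_left_cancel₀ (two_ne_zero' ℂ)
    rw [e6, g3]
    linear_combination -k4 + e ^ 2 * k3 - (X.P.kap + X.P.nn) * e * g5 +
      (X.P.kap - X.P.nn) * (e * g6 + g7)
  have k7 : e ^ 2 - 1 = 2 * e * (X.P.kap * s * zS) := by linear_combination -e * g5 + e * g6 + g7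
  obtain ⟨m1, m2, m3, m4⟩ := X.ex_eq g4.symm k5 (mul_ne_zero g8 hN)
  obtain ⟨m5, m6, m7⟩ := X.f345_eq z
  have m8 : X.P.kap * (2 * X.σ z - 1) = A * N⁻¹ := by
    rw [m4, ← mul_assoc, k6]
    field_simp
  have m9 : e ^ 2 * (e * N)⁻¹ * (e * N)⁻¹ = N⁻¹ * N⁻¹ := by field_simp
  have m10 : N * N⁻¹ = 1 := mul_inv_cancel₀ hN
  rw [m9] at m3
  rw [m3, g2] at m5 m6 m7
  rw [g2, k7, hv, show 2 * e * (X.P.kap * s * zS) * (e * N)⁻¹ = 2 * X.P.kap * s * (zS * N⁻¹) by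
    field_simp] at m2
  rw [h2] at m2 m3 m5 m6 m7
  rw [← m8, g3]
  refine ⟨m1, mul_left_cancel₀ (mul_ne_zero (mul_ne_zero (mul_ne_zero two_ne_zero g0) g1) g1)
    (m2.trans ?_), mul_left_cancel₀ g1 ?_, mul_left_cancel₀ g1 (m5.trans (by ring)),
    mul_left_cancel₀ (mul_ne_zero two_ne_zero g1) (m6.trans (by ring)),
    mul_left_cancel₀ g1 (m7.trans (by ring))⟩
  · rw [e3]
    linear_combination (-2 * I * X.P.kap * s * z) * m10 + (2 * I * X.P.kap * s * z * N⁻¹) * e5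
  · have : s * N1 = N - 1 := by rw [e5]; ring
    linear_combination m3 - I * N⁻¹ * (N⁻¹ + 1) * this - I * (N⁻¹ + 1) * m10

def tsChart (c : TS) : Chart where
  jet2 := fun z k => tsCore c z fun _ y' _ N1 N => tsF c z y' N1 N fun _ f1 f2 => k f1 f2
  jet4 := fun z k => tsCore c z fun y y' zS N1 N => tsF c z y' N1 N fun iv f1 f2 =>
    tsA c y zS fun A => mul A iv fun τ => mul iv iv fun i2 => mi i2 fun i2 =>
    mul τ i2 fun a => nmul a 2 fun f3 => mul τ τ fun a => nmul a 3 fun a => sub c.k2 a fun a =>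
    mul a i2 fun a => rmul c.s a fun a => nmul a 2 fun f4 => k f1 f2 f3 f4
  sup := fun z k => tsCore c z fun y _ zS _ N => tsA c y zS fun A =>
    supG N A c.kk none fun u v => fI (2 * u) fun u => fI (mulU c.s8 v) fun v => k u v

/-- the series chart with scale `s`; `v = 2 κ s² vh` -/
def mkS (k2 s vh : TM) (m : ℕ) (dbl : Bool) (k : TS → Bool) : Bool :=
  mulc k2 (-half) half fun a => addc a (-half) (-half) fun n => rmul s k2 fun sw =>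
  nmul k2 2 fun kk => hi s fun sh => fI (8 * mulU sh sh) fun s8 =>
  k ⟨k2, kk, s, vh, n, sw, s8, m, dbl⟩

def mkTS (k2 s vh : TM) (m : ℕ) (dbl : Bool) (k : Chart → TE → Bool) : Bool :=
  rmul s vh fun va => mkTE k2 s s va false fun e => mkS k2 s vh m dbl fun c => k (tsChart c) e

structure TS.Ok (c : TS) (x : Pt) (X : TX) (vh : ℂ) : Prop where
  k2 : RepA x c.k2 X.P.k2
  kk : RepA x c.kk (X.P.k2 * (2 : ℤ))
  s : RepA x c.s X.c1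
  vh : RepA x c.vh vh
  n : RepA x c.n X.P.nn
  sw : RepA x c.sw (X.c1 * X.P.k2)
  s8 : 8 * X.c1 ^ 2 ≤ toR c.s8

theorem tsCore_ok {c : TS} {w : TM} {k : TM → TM → TM → TM → TM → Bool}
    (h : tsCore c w k = true) : ∃ a1 a2 a3 a4 a5, k a1 a2 a3 a4 a5 = true ∧
      ∀ x (X : TX) w0 vh, c.Ok x X w0 → X.m2 = X.c1 → X.P.v X.T = 2 * X.P.kap * X.c1 ^ 2 * vh →
      ∀ t ht z, Rep (x.set3 t ht) w z → ∃ y y' zS N1 N, Rep (x.set3 t ht) a1 y ∧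
        Rep (x.set3 t ht) a2 y' ∧ Rep (x.set3 t ht) a3 zS ∧ Rep (x.set3 t ht) a4 N1 ∧
        Rep (x.set3 t ht) a5 N ∧ ∀ A, A = X.c1 * (X.P.nn * y + X.P.k2 * zS) + X.P.nn → N ≠ 0 →
        z ∈ X.J.U ∧ X.J.f1 z = I * (z * (N1 - y') * N⁻¹ - vh) ∧
        X.J.f2 z = I * (N1 * N⁻¹ * (N⁻¹ + 1)) ∧ X.J.f3 z = A * N⁻¹ * (I * (N⁻¹ * N⁻¹)) * 2 ∧
        X.J.f4 z = X.c1 * ((X.P.k2 - A * N⁻¹ * (A * N⁻¹) * 3) * (I * (N⁻¹ * N⁻¹))) * 2 ∧
        X.J.f5 z = 8 * X.c1 ^ 2 * I *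
          (A * N⁻¹ * (N⁻¹ * N⁻¹) * (3 * (A * N⁻¹) ^ 2 - X.P.k2 * 2)) := by
  unfold tsCore at h
  obtain ⟨_, h, a1⟩ := mul_ok h
  obtain ⟨_, h, a2⟩ := rmul_ok h
  obtain ⟨_, h, a3⟩ := rmul_ok h
  obtain ⟨_, _, h, a4⟩ := serT_ok h
  obtain ⟨_, h, a5⟩ := mul_ok h
  obtain ⟨_, h, a6⟩ := mul_ok h
  obtain ⟨_, h, a7⟩ := rmul_ok h
  obtain ⟨_, h, a8⟩ := addc_ok h
  obtain ⟨_, h, a9⟩ := mul_ok h
  obtain ⟨_, h, b1⟩ := mul_ok h
  obtain ⟨_, h, b2⟩ := add_ok h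
  obtain ⟨_, h, b3⟩ := rmul_ok h
  obtain ⟨_, h, b4⟩ := addc_ok h
  rw [tch_one] at a8 b4
  refine ⟨_, _, _, _, _, h, fun x X _ vh hc h1 h2 t ht z hz => ?_⟩
  have c1 := a2 _ _ _ (hc.sw t ht) (a1 _ _ _ hz hz)
  have c2 := a3 _ _ _ (hc.s t ht) c1
  rw [show (X.c1 : ℂ) * (X.c1 * X.P.k2 * (z * z)) = (X.P.kap * X.c1 * z) ^ 2 by
    rw [← X.P.kap_sq]; push_cast; ring] at c2
  obtain ⟨C, S, c3, c4, c5, c6⟩ := a4 _ _ c2
  have d1 := a5 _ _ _ c1 c3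
  have d2 := a6 _ _ _ c1 c4
  have d3 := a9 _ _ _ hz (a8 _ _ (a7 _ _ _ (hc.s t ht) d2))
  have d4 := b2 _ _ _ (b1 _ _ _ (hc.n t ht) d3) d1
  exact ⟨_, _, _, _, _, d1, d2, d3, d4, b4 _ _ (b3 _ _ _ (hc.s t ht) d4), fun A hA hN =>
    X.ser_eq rfl h1 h2 c5 c6 rfl rfl rfl rfl rfl hA hN⟩

theorem tsA_ok {c : TS} {a b : TM} {k : TM → Bool} (h : tsA c a b k = true) :
    ∃ r, k r = true ∧ ∀ x (X : TX) vh, c.Ok x X vh → ∀ t ht y zS, Rep (x.set3 t ht) a y →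
      Rep (x.set3 t ht) b zS →
      Rep (x.set3 t ht) r (X.c1 * (X.P.nn * y + X.P.k2 * zS) + X.P.nn) := by
  unfold tsA at h
  obtain ⟨_, h, a1⟩ := mul_ok h
  obtain ⟨_, h, a2⟩ := rmul_ok h
  obtain ⟨_, h, a3⟩ := add_ok h
  obtain ⟨_, h, a4⟩ := rmul_ok h
  obtain ⟨_, h, a5⟩ := add_ok h
  exact ⟨_, h, fun x X vh hc t ht y zS h1 h2 => a5 _ _ _ (a4 _ _ _ (hc.s t ht)
    (a3 _ _ _ (a1 _ _ _ (hc.n t ht) h1) (a2 _ _ _ (hc.k2 t ht) h2))) (hc.n t ht)⟩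

theorem tsF_ok {c : TS} {w a b d : TM} {k : TM → TM → TM → Bool} (h : tsF c w a b d k = true) :
    ∃ r1 r2 r3, k r1 r2 r3 = true ∧ ∀ pt vh z y' N1 N, Rep pt c.vh vh → Rep pt w z →
      Rep pt a y' → Rep pt b N1 → Rep pt d N → N ≠ 0 ∧ Rep pt r1 N⁻¹ ∧
      Rep pt r2 (I * (z * (N1 - y') * N⁻¹ - vh)) ∧ Rep pt r3 (I * (N1 * N⁻¹ * (N⁻¹ + 1))) := by
  unfold tsF at h
  obtain ⟨_, h, a1⟩ := inv_ok h
  obtain ⟨_, h, a2⟩ := sub_ok h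
  obtain ⟨_, h, a3⟩ := mul_ok h
  obtain ⟨_, h, a4⟩ := mul_ok h
  obtain ⟨_, h, a5⟩ := sub_ok h
  obtain ⟨_, h, a6⟩ := mi_ok h
  obtain ⟨_, h, a7⟩ := mul_ok h
  obtain ⟨_, h, a8⟩ := addc_ok h
  obtain ⟨_, h, a9⟩ := mul_ok h
  obtain ⟨_, h, b1⟩ := mi_ok h
  rw [tch_one] at a8
  refine ⟨_, _, _, h, fun pt vh z y' N1 N h1 h2 h3 h4 h5 => ?_⟩
  obtain ⟨c1, c2⟩ := a1 _ _ h5
  exact ⟨c1, c2, a6 _ _ (a5 _ _ _ (a4 _ _ _ (a3 _ _ _ h2 (a2 _ _ _ h4 h3)) c2) h1),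
    b1 _ _ (a9 _ _ _ (a7 _ _ _ h4 c2) (a8 _ _ c2))⟩

/-- the jet with `f1` shifted by a constant -/
noncomputable def TX.Jc (X : TX) (c : ℂ) : Jet :=
  aJ X.P.N (1 - X.P.p) X.P.p (X.P.β X.T + X.L * c / X.a) X.P.wT X.hδ X.a_pos X.L_pos

theorem TX.Jc_zero (X : TX) : X.Jc 0 = X.J := by simp [TX.Jc, TX.J]

theorem TX.Jc_f1 (X : TX) (c z : ℂ) : (X.Jc c).f1 z = X.J.f1 z + c := by
  have h1 : (X.a : ℂ) ≠ 0 := ofReal_ne_zero.2 X.a_pos.ne'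
  have h2 : (X.L : ℂ) ≠ 0 := ofReal_ne_zero.2 X.L_pos.ne'
  simp only [TX.Jc, TX.J, aJ, phi1]
  field_simp
  ring

theorem TX.Jc_E (X : TX) (c z : ℂ) :
    (X.Jc c).E z = X.J.E z * cexp (X.L * c / X.a * X.P.wT) * cexp (X.L * (c * z)) := by
  have h1 : (X.a : ℂ) ≠ 0 := ofReal_ne_zero.2 X.a_pos.ne'
  rw [TX.Jc, TX.J, aJ_E, aJ_E, Eg, Eg, mul_right_comm (cexp _), mul_right_comm _ (_ ^ _),
    ← Complex.exp_add, ← Complex.exp_add]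
  congr 2
  field_simp
  ring

theorem tsChart_sh {c : TS} {x : Pt} {X : TX} {w0 vh : ℂ} (hc : c.Ok x X w0) (h1 : X.m2 = X.c1)
    (h2 : X.P.v X.T = 2 * X.P.kap * X.c1 ^ 2 * vh) : (tsChart c).Ok x (X.Jc (I * (vh - w0))) where
  h2 := fun w k h => by
    obtain ⟨_, _, _, _, _, h, a1⟩ := tsCore_ok h
    obtain ⟨_, _, _, h, a2⟩ := tsF_ok h
    refine ⟨_, _, h, fun t ht z hz => ?_⟩
    obtain ⟨y, y', zS, N1, N, -, b2, -, b4, b5, b6⟩ := a1 x X w0 vh hc h1 h2 t ht z hz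
    obtain ⟨c1, -, c3, c4⟩ := a2 _ _ _ _ _ _ (hc.vh t ht) hz b2 b4 b5
    obtain ⟨d1, d2, d3, -⟩ := b6 _ rfl c1
    rw [← d3] at c4
    exact ⟨d1, by rwa [X.Jc_f1, d2, ← mul_add, sub_add_sub_cancel], c4⟩
  h4 := fun w k h => by
    obtain ⟨_, _, _, _, _, h, a1⟩ := tsCore_ok h
    obtain ⟨_, _, _, h, a2⟩ := tsF_ok h
    obtain ⟨_, h, a3⟩ := tsA_ok h
    obtain ⟨_, h, a4⟩ := mul_ok h
    obtain ⟨_, h, a5⟩ := mul_ok h
    obtain ⟨_, h, a6⟩ := mi_ok h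
    obtain ⟨_, h, a7⟩ := mul_ok h
    obtain ⟨_, h, a8⟩ := nmul_ok h
    obtain ⟨_, h, a9⟩ := mul_ok h
    obtain ⟨_, h, e1⟩ := nmul_ok h
    obtain ⟨_, h, e2⟩ := sub_ok h
    obtain ⟨_, h, e3⟩ := mul_ok h
    obtain ⟨_, h, e4⟩ := rmul_ok h
    obtain ⟨_, h, e5⟩ := nmul_ok h
    refine ⟨_, _, _, _, h, fun t ht z hz => ?_⟩
    obtain ⟨y, y', zS, N1, N, b1, b2, b3, b4, b5, b6⟩ := a1 x X w0 vh hc h1 h2 t ht z hz
    obtain ⟨c1, c2, c3, c4⟩ := a2 _ _ _ _ _ _ (hc.vh t ht) hz b2 b4 b5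
    obtain ⟨d1, d2, d3, d4, d5, -⟩ := b6 _ rfl c1
    have g1 := a4 _ _ _ (a3 x X w0 hc t ht _ _ b1 b3) c2
    have g2 := a6 _ _ (a5 _ _ _ c2 c2)
    have g3 := a8 _ _ (a7 _ _ _ g1 g2)
    have g4 := e5 _ _ (e4 _ _ _ (hc.s t ht) (e3 _ _ _ (e2 _ _ _ (hc.k2 t ht)
      (e1 _ _ (a9 _ _ _ g1 g1))) g2))
    rw [Int.cast_ofNat] at g3 g4
    rw [Int.cast_ofNat, ← d5] at g4
    rw [← d3] at c4
    rw [← d4] at g3
    exact ⟨d1, by rwa [X.Jc_f1, d2, ← mul_add, sub_add_sub_cancel], c4, g3, g4⟩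
  hs := fun w k h => by
    obtain ⟨_, _, _, _, _, h, a1⟩ := tsCore_ok h
    obtain ⟨_, h, a2⟩ := tsA_ok h
    obtain ⟨u, v, h, a3⟩ := supG_ok h
    simp only [fI_eq] at h
    refine ⟨_, _, h, fun t ht z hz => ?_⟩
    obtain ⟨y, y', zS, N1, N, b1, -, b3, -, b5, b6⟩ := a1 x X w0 vh hc h1 h2 t ht z hz
    obtain ⟨c1, c2, c3⟩ := a3 _ _ _ (X.P.k2 * 2) 1 b5 (a2 x X w0 hc t ht _ _ b1 b3)
      (by simpa using hc.kk t ht) zero_le_one (fun _ h => nomatch h) (fun _ => rfl)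
    obtain ⟨d1, -, -, d4, -, d6⟩ := b6 _ rfl c1
    have e : ‖N⁻¹ * N⁻¹‖ = 1 / ‖N‖ ^ 2 := by rw [norm_mul, norm_inv, sq, one_div, mul_inv]
    refine ⟨d1, show ‖X.J.f3 z‖ ≤ _ from ?_, show ‖X.J.f5 z‖ ≤ _ from ?_⟩
    · rw [d4, norm_mul, norm_mul _ (I * _), norm_mul I, norm_I, one_mul, e, Complex.norm_two,
        toR_intmul]
      push_cast
      linarith
    · rw [d6, norm_mul, norm_mul _ I, norm_I, mul_one, norm_mul (_ * _), norm_mul _ (N⁻¹ * N⁻¹), e]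
      push_cast at c3
      refine mulU_le (norm_nonneg _) (by positivity) ?_ c3
      simpa using hc.s8

theorem tsChart_ok {c : TS} {x : Pt} {X : TX} {vh : ℂ} (hc : c.Ok x X vh) (h1 : X.m2 = X.c1)
    (h2 : X.P.v X.T = 2 * X.P.kap * X.c1 ^ 2 * vh) : (tsChart c).Ok x X.J := by
  have := tsChart_sh hc h1 h2
  rwa [sub_self, mul_zero, X.Jc_zero] at this

theorem tch_n {k2 : TM} {k : TM → Bool}
    (h : (mulc k2 (-half) half fun a => addc a (-half) (-half) k) = true) :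
    ∃ n, k n = true ∧ ∀ pt (P : Par), Rep pt k2 P.k2 → Rep pt n P.nn := by
  obtain ⟨_, h, a1⟩ := mulc_ok h
  obtain ⟨_, h, a2⟩ := addc_ok h
  refine ⟨_, h, fun pt P h1 => ?_⟩
  have := a2 _ _ (a1 _ _ h1)
  rwa [show P.k2 * toC (-half) half + toC (-half) (-half) = P.nn by
    apply Complex.ext <;> simp [toC, toR_neg, tch_half, Par.nn] <;> ring] at this

theorem tch_va {X : TX} {vh : ℂ} (h : X.P.v X.T = 2 * X.P.kap * X.c1 ^ 2 * vh) :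
    X.c1 * vh = X.va := by
  rw [TX.va, eq_div_iff (ofReal_ne_zero.2 X.a_pos.ne'), h, TX.a]
  push_cast
  ring

theorem mkS_ok {k2 s vh : TM} {m : ℕ} {dbl : Bool} {k : TS → Bool}
    (h : mkS k2 s vh m dbl k = true) : ∃ c, k c = true ∧ ∀ x (X : TX) (vh0 : ℂ),
      RepA x k2 X.P.k2 → RepA x s X.c1 → RepA x vh vh0 → c.Ok x X vh0 := by
  unfold mkS at h
  obtain ⟨_, h, a3⟩ := tch_n h
  obtain ⟨_, h, a4⟩ := rmul_ok h
  obtain ⟨_, h, a5⟩ := nmul_ok h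
  obtain ⟨sh, h, a6⟩ := hi_ok h
  rw [fI_eq] at h
  refine ⟨_, h, fun x X vh0 h3 h4 h5 => ⟨h3, fun y hy => a5 _ _ (h3 y hy), h4, h5,
    fun y hy => a3 _ _ (h3 y hy), fun y hy => a4 _ _ _ (h4 y hy) (h3 y hy), ?_⟩⟩
  have b1 := a6 _ _ h4.rep
  have b2 := mulU_le X.h1.le X.h1.le b1 b1
  rw [toR_intmul, sq]
  push_cast
  linarith

theorem mkTS_ok {k2 s vh : TM} {m : ℕ} {dbl : Bool} {k : Chart → TE → Bool}
    (h : mkTS k2 s vh m dbl k = true) : ∃ C e, k C e = true ∧ ∀ x (X : TX) (vh0 : ℂ),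
      X.m2 = X.c1 → X.P.v X.T = 2 * X.P.kap * X.c1 ^ 2 * vh0 → RepA x k2 X.P.k2 →
      RepA x s X.c1 → RepA x vh vh0 → C.Ok x X.J ∧ e.Ok x X := by
  unfold mkTS at h
  obtain ⟨_, h, a1⟩ := rmul_ok h
  obtain ⟨_, h, a2⟩ := mkTE_ok h
  obtain ⟨_, h, a3⟩ := mkS_ok h
  exact ⟨_, _, h, fun x X vh0 h1 h2 h3 h4 h5 => ⟨tsChart_ok (a3 x X vh0 h3 h4 h5) h1 h2,
    a2 x X h3 h4 (h1 ▸ h4) (fun y hy => tch_va h2 ▸ a1 _ _ _ (h4 y hy) (h5 y hy))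
      (fun h => nomatch h)⟩⟩

/-- the data of the exponential chart -/
structure TG where
  ex : Bool
  a : TM
  al : TM
  ga : TM
  v : TM
  two : TM
  i1 : TM
  i2 : TM
  i3 : TM
  i4 : TM
  b3 : ℤ
  b5 : ℤ

/-- multiplies by `c` unless `c` is known to be one -/
def scT (ex : Bool) (c t : TM) (k : TM → Bool) : Bool := cond ex (k t) (rmul c t k)

/-- the continuation gets `η E den num` -/
def tgCore (c : TG) (z : TM) (k : TM → TM → TM → TM → Bool) : Bool :=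
  scT c.ex c.a z fun η => exp η fun E => mul c.ga E fun a => add c.al a fun d =>
  sub a c.al fun n => k η E d n

/-- the continuation gets `iv (i K) f1 f2` -/
def tgF (c : TG) (η E d : TM) (k : TM → TM → TM → TM → Bool) : Bool :=
  inv d fun iv => addc E (-one) 0 fun a => mul a iv fun a => add a c.v fun a => sub η a fun a =>
  mi a fun a => scT c.ex c.i1 a fun f1 => mul E iv fun a => mul a iv fun a => mi a fun K =>
  neg K fun a => addc a 0 one fun a => scT c.ex c.i2 a fun f2 => k iv K f1 f2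

def tgChart (c : TG) : Chart where
  jet2 := fun z k => tgCore c z fun η E d _ => tgF c η E d fun _ _ f1 f2 => k f1 f2
  jet4 := fun z k => tgCore c z fun η E d n => tgF c η E d fun iv K f1 f2 =>
    mul n iv fun τ => mul K τ fun a => scT c.ex c.i3 a fun f3 => mul τ τ fun a =>
    nmul a (-3) fun a => addc a one 0 fun a => mul K a fun a => ndiv a 2 fun a =>
    scT c.ex c.i4 a fun f4 => k f1 f2 f3 f4
  sup := fun z k => tgCore c z fun _ E d n => conj E fun a => mul E a fun a => rp a fun w =>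
    supG d n c.two (some w) fun u v => fI (mulU c.b3 u) fun u => fI (mulU c.b5 v) fun v => k u v

structure TG.Ok (c : TG) (x : Pt) (X : TX) : Prop where
  ex : c.ex = true → X.a = 1 ∧ X.m2 = 1
  a : RepA x c.a X.a
  al : RepA x c.al X.P.al
  ga : RepA x c.ga X.P.ga
  v : RepA x c.v (X.P.v X.T)
  two : RepA x c.two (2 : ℝ)
  i1 : RepA x c.i1 ((X.a * X.m2)⁻¹ : ℝ)
  i2 : RepA x c.i2 (X.m2⁻¹ : ℝ)
  i3 : RepA x c.i3 (X.a / X.m2 : ℝ)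
  i4 : RepA x c.i4 (X.a ^ 2 / X.m2 : ℝ)
  b3 : X.a / X.m2 ≤ toR c.b3
  b5 : X.a ^ 3 / X.m2 ≤ toR c.b5

theorem scT_ok {ex : Bool} {c t : TM} {k : TM → Bool} (h : scT ex c t k = true) :
    ∃ r, k r = true ∧ ∀ pt (a : ℝ) z, (ex = true → a = 1) → Rep pt c a → Rep pt t z →
      Rep pt r (a * z) := by
  unfold scT at h
  cases ex
  · obtain ⟨r, h, a1⟩ := rmul_ok (a := c) (b := t) h
    exact ⟨r, h, fun pt a z _ => a1 pt a z⟩
  · exact ⟨t, h, fun pt a z h1 _ h2 => by simpa [h1 rfl] using h2⟩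

theorem tgCore_ok {c : TG} {w : TM} {k : TM → TM → TM → TM → Bool} (h : tgCore c w k = true) :
    ∃ a1 a2 a3 a4, k a1 a2 a3 a4 = true ∧ ∀ x (X : TX), c.Ok x X → ∀ t ht z,
      Rep (x.set3 t ht) w z → ∃ E d, Rep (x.set3 t ht) a1 (X.a * z) ∧ Rep (x.set3 t ht) a2 E ∧
        Rep (x.set3 t ht) a3 d ∧ Rep (x.set3 t ht) a4 (X.P.ga * E - X.P.al) ∧ (d ≠ 0 →
        z ∈ X.J.U ∧
        X.J.f1 z = ((X.a * X.m2)⁻¹ : ℝ) * (I * (X.a * z - ((E + -1) * d⁻¹ + X.P.v X.T))) ∧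
        X.J.f2 z = (X.m2⁻¹ : ℝ) * (-(I * (E * d⁻¹ * d⁻¹)) + I) ∧
        X.J.f3 z = (X.a / X.m2 : ℝ) * (I * (E * d⁻¹ * d⁻¹) * ((X.P.ga * E - X.P.al) * d⁻¹)) ∧
        X.J.f4 z = (X.a ^ 2 / X.m2 : ℝ) * (I * (E * d⁻¹ * d⁻¹) * ((X.P.ga * E - X.P.al) * d⁻¹ *
          ((X.P.ga * E - X.P.al) * d⁻¹) * (-3) + 1) / 2) ∧
        X.J.f5 z = (X.a ^ 3 / X.m2 : ℝ) * (I * ((X.P.ga * E - X.P.al) * d⁻¹ * (E * d⁻¹ * d⁻¹) *
          (3 * ((X.P.ga * E - X.P.al) * d⁻¹) ^ 2 - 2)))) := by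
  unfold tgCore at h
  obtain ⟨_, h, a1⟩ := scT_ok h
  obtain ⟨_, h, a2⟩ := exp_ok h
  obtain ⟨_, h, a3⟩ := mul_ok h
  obtain ⟨_, h, a4⟩ := add_ok h
  obtain ⟨_, h, a5⟩ := sub_ok h
  refine ⟨_, _, _, _, h, fun x X hc t ht z hz => ?_⟩
  have b1 := a1 _ _ _ (fun h => (hc.ex h).1) (hc.a t ht) hz
  have b2 := a2 _ _ b1
  have b3 := a3 _ _ _ (hc.ga t ht) b2
  refine ⟨_, _, b1, b2, a4 _ _ _ (hc.al t ht) b3, a5 _ _ _ b3 (hc.al t ht), fun hd => ?_⟩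
  obtain ⟨m1, m2, m3, m4⟩ := X.ex_eq rfl rfl hd
  obtain ⟨m5, m6, m7⟩ := X.f345_eq z
  have g1 : (X.a : ℂ) ≠ 0 := ofReal_ne_zero.2 X.a_pos.ne'
  have g2 : (X.m2 : ℂ) ≠ 0 := ofReal_ne_zero.2 X.h2.ne'
  rw [m3] at m5 m6 m7
  rw [← m4]
  generalize cexp (X.a * z) * (X.P.al + X.P.ga * cexp (X.a * z))⁻¹ *
    (X.P.al + X.P.ga * cexp (X.a * z))⁻¹ = K at *
  push_cast
  refine ⟨m1, ?_, ?_, ?_, ?_, ?_⟩
  · rw [eq_inv_mul_iff_mul_eq₀ (mul_ne_zero g1 g2)]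
    exact m2
  · rw [eq_inv_mul_iff_mul_eq₀ g2]
    linear_combination m3
  · rw [div_mul_eq_mul_div, eq_div_iff g2]
    linear_combination m5
  · rw [div_mul_eq_mul_div, eq_div_iff g2]
    linear_combination m6 / 2
  · rw [div_mul_eq_mul_div, eq_div_iff g2]
    linear_combination m7

theorem tch_m1 : toC (-one) 0 = -1 := by rw [ser_toC, toR_neg, toR_one]; simp

theorem tch_I : toC 0 one = I := by
  apply Complex.ext <;> simp [toC, toR_zero, toR_one]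

theorem tgF_ok {c : TG} {a b d : TM} {k : TM → TM → TM → TM → Bool} (h : tgF c a b d k = true) :
    ∃ r1 r2 r3 r4, k r1 r2 r3 r4 = true ∧ ∀ x (X : TX), c.Ok x X → ∀ t ht η E D,
      Rep (x.set3 t ht) a η → Rep (x.set3 t ht) b E → Rep (x.set3 t ht) d D → D ≠ 0 ∧
      Rep (x.set3 t ht) r1 D⁻¹ ∧ Rep (x.set3 t ht) r2 (I * (E * D⁻¹ * D⁻¹)) ∧
      Rep (x.set3 t ht) r3 (((X.a * X.m2)⁻¹ : ℝ) * (I * (η - ((E + -1) * D⁻¹ + X.P.v X.T)))) ∧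
      Rep (x.set3 t ht) r4 ((X.m2⁻¹ : ℝ) * (-(I * (E * D⁻¹ * D⁻¹)) + I)) := by
  unfold tgF at h
  obtain ⟨_, h, a1⟩ := inv_ok h
  obtain ⟨_, h, a2⟩ := addc_ok h
  obtain ⟨_, h, a3⟩ := mul_ok h
  obtain ⟨_, h, a4⟩ := add_ok h
  obtain ⟨_, h, a5⟩ := sub_ok h
  obtain ⟨_, h, a6⟩ := mi_ok h
  obtain ⟨_, h, a7⟩ := scT_ok h
  obtain ⟨_, h, a8⟩ := mul_ok h
  obtain ⟨_, h, a9⟩ := mul_ok h
  obtain ⟨_, h, b1⟩ := mi_ok h
  obtain ⟨_, h, b2⟩ := neg_ok h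
  obtain ⟨_, h, b3⟩ := addc_ok h
  obtain ⟨_, h, b4⟩ := scT_ok h
  rw [tch_m1] at a2
  rw [tch_I] at b3
  refine ⟨_, _, _, _, h, fun x X hc t ht η E D h1 h2 h3 => ?_⟩
  obtain ⟨c1, c2⟩ := a1 _ _ h3
  have c3 := b1 _ _ (a9 _ _ _ (a8 _ _ _ h2 c2) c2)
  exact ⟨c1, c2, c3, a7 _ _ _ (fun h => by rw [(hc.ex h).1, (hc.ex h).2, mul_one, inv_one])
    (hc.i1 t ht) (a6 _ _ (a5 _ _ _ h1 (a4 _ _ _ (a3 _ _ _ (a2 _ _ h2) c2) (hc.v t ht)))),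
    b4 _ _ _ (fun h => by rw [(hc.ex h).2, inv_one]) (hc.i2 t ht) (b3 _ _ (b2 _ _ c3))⟩

theorem tgChart_ok {c : TG} {x : Pt} {X : TX} (hc : c.Ok x X) : (tgChart c).Ok x X.J where
  h2 := fun w k h => by
    dsimp only [tgChart] at h
    obtain ⟨_, _, _, _, h, a1⟩ := tgCore_ok h
    obtain ⟨_, _, _, _, h, a2⟩ := tgF_ok h
    refine ⟨_, _, h, fun t ht z hz => ?_⟩
    obtain ⟨E, d, b1, b2, b3, -, b5⟩ := a1 x X hc t ht z hz
    obtain ⟨c1, -, -, c4, c5⟩ := a2 x X hc t ht _ _ _ b1 b2 b3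
    obtain ⟨d1, d2, d3, -⟩ := b5 c1
    exact ⟨d1, d2 ▸ c4, d3 ▸ c5⟩
  h4 := fun w k h => by
    dsimp only [tgChart] at h
    obtain ⟨_, _, _, _, h, a1⟩ := tgCore_ok h
    obtain ⟨_, _, _, _, h, a2⟩ := tgF_ok h
    obtain ⟨_, h, a3⟩ := mul_ok h
    obtain ⟨_, h, a4⟩ := mul_ok h
    obtain ⟨_, h, a5⟩ := scT_ok h
    obtain ⟨_, h, a6⟩ := mul_ok h
    obtain ⟨_, h, a7⟩ := nmul_ok h
    obtain ⟨_, h, a8⟩ := addc_ok h
    obtain ⟨_, h, a9⟩ := mul_ok h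
    obtain ⟨_, h, e1⟩ := ndiv_ok h
    obtain ⟨_, h, e2⟩ := scT_ok h
    rw [tch_one] at a8
    refine ⟨_, _, _, _, h, fun t ht z hz => ?_⟩
    obtain ⟨E, d, b1, b2, b3, b4, b5⟩ := a1 x X hc t ht z hz
    obtain ⟨c1, c2, c3, c4, c5⟩ := a2 x X hc t ht _ _ _ b1 b2 b3
    obtain ⟨d1, d2, d3, d4, d5, -⟩ := b5 c1
    have g1 := a3 _ _ _ b4 c2
    have g2 := a5 _ _ _ (fun h => by rw [(hc.ex h).1, (hc.ex h).2, div_one]) (hc.i3 t ht)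
      (a4 _ _ _ c3 g1)
    have g3 := e2 _ _ _ (fun h => by rw [(hc.ex h).1, (hc.ex h).2, div_one, one_pow]) (hc.i4 t ht)
      (e1 _ _ (a9 _ _ _ c3 (a8 _ _ (a7 _ _ (a6 _ _ _ g1 g1)))))
    rw [Int.cast_neg, Int.cast_ofNat, Nat.cast_ofNat] at g3
    exact ⟨d1, d2 ▸ c4, d3 ▸ c5, d4 ▸ g2, d5 ▸ g3⟩
  hs := fun w k h => by
    dsimp only [tgChart] at h
    obtain ⟨_, _, _, _, h, a1⟩ := tgCore_ok h
    obtain ⟨_, h, a2⟩ := conj_ok h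
    obtain ⟨_, h, a3⟩ := mul_ok h
    obtain ⟨_, h, a4⟩ := rp_ok h
    obtain ⟨u, v, h, a5⟩ := supG_ok h
    simp only [fI_eq] at h
    refine ⟨_, _, h, fun t ht z hz => ?_⟩
    obtain ⟨E, d, -, b2, b3, b4, b5⟩ := a1 x X hc t ht z hz
    have b6 := a4 _ _ (a3 _ _ _ b2 (a2 _ _ b2))
    rw [mul_conj, ofReal_re, normSq_eq_norm_sq] at b6
    obtain ⟨c1, c2, c3⟩ := a5 _ _ _ 2 ‖E‖ b3 b4 (hc.two t ht) (norm_nonneg _)
      (fun _ h => Option.some.inj h ▸ b6) (fun h => nomatch h)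
    obtain ⟨d1, -, -, d4, -, d6⟩ := b5 c1
    have e : ‖E * d⁻¹ * d⁻¹‖ = ‖E‖ / ‖d‖ ^ 2 := by
      rw [norm_mul, norm_mul, norm_inv, sq, div_eq_mul_inv, mul_inv, mul_assoc]
    have p1 := X.a_pos
    have p2 := X.h2
    refine ⟨d1, ?_, ?_⟩
    · rw [d4, norm_mul, norm_mul (I * _), norm_mul I, norm_I, one_mul, e, norm_real,
        Real.norm_of_nonneg (by positivity), mul_comm (_ / _ ^ 2)]
      exact mulU_le (by positivity) (by positivity) hc.b3 c2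
    · rw [d6, norm_mul, norm_mul I, norm_I, one_mul, norm_mul (_ * _), norm_mul _ (E * d⁻¹ * d⁻¹),
        e, norm_real, Real.norm_of_nonneg (by positivity)]
      exact mulU_le (by positivity) (by positivity) hc.b5 c3

/-- `α`, `γ` and `κ²`, `1/(2κ)` from `κ` -/
def mkAG (kap : TM) (k : TM → TM → TM → TM → Bool) : Bool :=
  rmul kap kap fun k2 => nmul kap 2 fun a => inv a fun ia => mulc k2 (-half) half fun a =>
  addc a (-half) (-half) fun n => rmul ia n fun a => addc a half 0 fun ga => neg a fun a =>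
  addc a half 0 fun al => k al ga k2 ia

theorem mkAG_ok {kap : TM} {k : TM → TM → TM → TM → Bool} (h : mkAG kap k = true) :
    ∃ a g k2 ia, k a g k2 ia = true ∧ ∀ pt (P : Par), Rep pt kap P.kap → Rep pt a P.al ∧
      Rep pt g P.ga ∧ Rep pt k2 P.k2 ∧ Rep pt ia ((2 * P.kap)⁻¹ : ℝ) := by
  unfold mkAG at h
  obtain ⟨_, h, a1⟩ := rmul_ok h
  obtain ⟨_, h, a2⟩ := nmul_ok h
  obtain ⟨_, h, a3⟩ := inv_ok h
  obtain ⟨_, h, a4⟩ := tch_n h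
  obtain ⟨_, h, a5⟩ := rmul_ok h
  obtain ⟨_, h, a6⟩ := addc_ok h
  obtain ⟨_, h, a7⟩ := neg_ok h
  obtain ⟨_, h, a8⟩ := addc_ok h
  refine ⟨_, _, _, _, h, fun pt P h1 => ?_⟩
  have b1 := a1 _ _ _ h1 h1
  rw [← ofReal_mul, ← sq, P.kap_sq] at b1
  obtain ⟨b2, b3⟩ := a3 _ _ (a2 _ _ h1)
  have b4 := a5 _ _ _ b3 (a4 _ _ b1)
  have b5 := a6 _ _ b4
  have b6 := a8 _ _ (a7 _ _ b4)
  rw [ser_toC, tch_half] at b5 b6
  rw [Int.cast_ofNat] at b2 b3 b5 b6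
  have g : (P.kap : ℂ) ≠ 0 := left_ne_zero_of_mul b2
  refine ⟨?_, ?_, b1, by rwa [ofReal_inv, ofReal_mul, mul_comm]⟩
  · rwa [show P.al = -((P.kap * 2 : ℂ)⁻¹ * P.nn) + ((1 / 2 : ℝ) : ℂ) by
      rw [Par.al]; push_cast; field_simp; ring]
  · rwa [show P.ga = (P.kap * 2 : ℂ)⁻¹ * P.nn + ((1 / 2 : ℝ) : ℂ) by
      rw [Par.ga]; push_cast; field_simp; ring]

theorem tch_two : toC (2 * one) 0 = (2 : ℝ) := by
  rw [ser_toC, toR_intmul, toR_one]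
  simp

/-- the exponential chart `w = wT + z` with large parameter `1/δ` -/
def mkT1 (kap v : TM) (k : Chart → TE → Bool) : Bool :=
  mkAG kap fun al ga k2 ia => cst one 0 fun o => cst (2 * one) 0 fun t =>
  mkTE k2 ia o v true fun e => k (tgChart ⟨true, o, al, ga, v, t, o, o, o, o, one, one⟩) e

theorem mkT1_ok {kap v : TM} {k : Chart → TE → Bool} (h : mkT1 kap v k = true) :
    ∃ C e, k C e = true ∧ ∀ x (X : TX), X.a = 1 → X.m2 = 1 → RepA x kap X.P.kap →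
      RepA x v (X.P.v X.T) → C.Ok x X.J ∧ e.Ok x X := by
  unfold mkT1 at h
  obtain ⟨_, _, _, _, h, a1⟩ := mkAG_ok h
  obtain ⟨o, h, a2⟩ := cst_ok h
  obtain ⟨_, h, a3⟩ := cst_ok h
  obtain ⟨_, h, a4⟩ := mkTE_ok h
  rw [tch_two] at a3
  refine ⟨_, _, h, fun x X h1 h2 h3 h4 => ?_⟩
  have b1 : ∀ r : ℝ, r = 1 → RepA x o r := fun r hr y hy => by
    rw [hr, ofReal_one, ← tch_one]
    exact a2 _
  have b2 : (2 * X.P.kap)⁻¹ = X.c1 := inv_eq_of_mul_eq_one_right h1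
  refine ⟨tgChart_ok ⟨fun _ => ⟨h1, h2⟩, b1 _ h1, fun y hy => (a1 _ _ (h3 y hy)).1,
    fun y hy => (a1 _ _ (h3 y hy)).2.1, h4, fun y hy => a3 _, b1 _ ?_, b1 _ ?_, b1 _ ?_, b1 _ ?_,
    ?_, ?_⟩, a4 x X (fun y hy => (a1 _ _ (h3 y hy)).2.2.1)
      (fun y hy => b2 ▸ (a1 _ _ (h3 y hy)).2.2.2) (b1 _ h2) ?_ (fun _ => ⟨h1, h2⟩)⟩
  iterate 6 simp [h1, h2, toR_one]
  rwa [TX.va, h1, ofReal_one, div_one]

/-- the exponential chart with the same scales as the series chart -/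
def mkTG (kap s vh : TM) (k : Chart → TE → Bool) : Bool :=
  mkAG kap fun al ga k2 ia => cst (2 * one) 0 fun t => rmul s vh fun va =>
  mkTE k2 s s va false fun e => nmul kap 2 fun i3 => rmul i3 s fun a => rmul a va fun v =>
  inv s fun i2 => rmul i2 i2 fun b => rmul b ia fun i1 => rmul i3 a fun i4 => rmul i4 a fun i5 =>
  hi i3 fun b3 => hi i5 fun b5 => k (tgChart ⟨false, a, al, ga, v, t, i1, i2, i3, i4, b3, b5⟩) e

theorem mkTG_ok {kap s vh : TM} {k : Chart → TE → Bool} (h : mkTG kap s vh k = true) :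
    ∃ C e, k C e = true ∧ ∀ x (X : TX) (vh0 : ℂ), X.m2 = X.c1 →
      X.P.v X.T = 2 * X.P.kap * X.c1 ^ 2 * vh0 → RepA x kap X.P.kap →
      RepA x s X.c1 → RepA x vh vh0 → C.Ok x X.J ∧ e.Ok x X := by
  unfold mkTG at h
  obtain ⟨_, _, _, _, h, a1⟩ := mkAG_ok h
  obtain ⟨_, h, a2⟩ := cst_ok h
  obtain ⟨_, h, a3⟩ := rmul_ok h
  obtain ⟨_, h, a4⟩ := mkTE_ok h
  obtain ⟨i3, h, a5⟩ := nmul_ok h
  obtain ⟨a, h, a6⟩ := rmul_ok h
  obtain ⟨_, h, a7⟩ := rmul_ok h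
  obtain ⟨i2, h, a8⟩ := inv_ok h
  obtain ⟨_, h, a9⟩ := rmul_ok h
  obtain ⟨_, h, b1⟩ := rmul_ok h
  obtain ⟨i4, h, b2⟩ := rmul_ok h
  obtain ⟨_, h, b3⟩ := rmul_ok h
  obtain ⟨_, h, b4⟩ := hi_ok h
  obtain ⟨_, h, b5⟩ := hi_ok h
  rw [tch_two] at a2
  refine ⟨_, _, h, fun x X vh0 h1 h2 h3 h4 h5 => ?_⟩
  have g1 := X.h1.ne'
  have g2 := (Par.kap_pos X.hδ).ne'
  have c0 := fun y hy => tch_va h2 ▸ a3 _ _ _ (h4 y hy) (h5 y hy)
  have c1 : RepA x i3 (X.a / X.m2 : ℝ) := fun y hy => by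
    rw [h1, TX.a, mul_div_cancel_right₀ _ g1, mul_comm, ofReal_mul]
    exact a5 _ _ (h3 y hy)
  have c2 : RepA x a X.a := fun y hy => by
    have := a6 _ _ _ (c1 y hy) (h4 y hy)
    rwa [← ofReal_mul, h1, div_mul_cancel₀ _ g1] at this
  have c3 : RepA x i2 (X.m2⁻¹ : ℝ) := fun y hy => by
    rw [h1, ofReal_inv]
    exact (a8 _ _ (h4 y hy)).2
  have c4 : RepA x i4 (X.a ^ 2 / X.m2 : ℝ) := fun y hy => by
    have := b2 _ _ _ (c1 y hy) (c2 y hy)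
    rwa [← ofReal_mul, div_mul_eq_mul_div, ← sq] at this
  refine ⟨tgChart_ok ⟨(fun h => nomatch h), c2, fun y hy => (a1 _ _ (h3 y hy)).1,
    fun y hy => (a1 _ _ (h3 y hy)).2.1, fun y hy => ?_, fun y hy => a2 _, fun y hy => ?_, c3, c1, c4,
    b4 _ _ c1.rep, ?_⟩, a4 x X (fun y hy => (a1 _ _ (h3 y hy)).2.2.1) h4 (h1 ▸ h4) c0
      (fun h => nomatch h)⟩
  · have := a7 _ _ _ (c2 y hy) (c0 y hy)
    rwa [TX.va, mul_div_cancel₀ _ (ofReal_ne_zero.2 X.a_pos.ne')] at this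
  · have := b1 _ _ _ (a9 _ _ _ (c3 y hy) (c3 y hy)) (a1 _ _ (h3 y hy)).2.2.2
    rwa [← ofReal_mul, ← ofReal_mul, show X.m2⁻¹ * X.m2⁻¹ * (2 * X.P.kap)⁻¹ = (X.a * X.m2)⁻¹ by
      rw [TX.a, h1]; field_simp] at this
  · have := b5 _ _ (b3 _ _ _ c4.rep c2.rep)
    rwa [← ofReal_mul, ofReal_re, div_mul_eq_mul_div, ← pow_succ] at this

end Pool.Agent.Sok
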