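import Pool.Agent.Sok.TCh

/-! Ends of contours and facts in the charts at the turning point. -/

set_option autoImplicit false

namespace Pool.Agent.Sok

open TM Complex

/-- multiplies by `1 + i` -/
def mdi (a : TM) (k : TM → Bool) : Bool := mi a fun b => add a b k

/-- `m2 f2` and `W = m2 f2 - i`, which must not vanish -/
def endW (e : TE) (S : St) (k : TM → TM → Bool) : Bool :=
  scT e.ex e.m2 S.f2 fun a => addc a 0 (-one) fun W => ablo W fun w => ltI 0 w && k a W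

/-- a lower bound of `1/√2` -/
def is2 : ℤ := 777472127993

/-- diagonal end: direction `1 + i` if `up`, else `-1 - i` -/
def endD (e : TE) (a : Ac) (up : Bool) : End := fun S k =>
  endW e S fun b _ => conj S.f2 fun c => mul b c fun b => mi S.f2 fun c => nmul c 2 fun c =>
  add b c fun b => hi b fun b => leI b 0 &&
  scT e.ex e.m2 S.f1 fun y => sub S.cur e.va fun d => mi d fun d => sub y d fun y =>
  mdi y fun Y => mdi S.f1 fun f =>
  cond up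
    (rmul e.k4 Y fun Z => sub Z e.kk fun Z => lo Z fun u => leI 0 u && hi f fun r =>
      leI r 0 && aA a S.g (mulD (-r) is2) one S.dist S.I S.M k)
    (((hi Y fun u => leI u 0) || rmul e.k4 Y fun Z => sub Z e.kk fun Z => hi Z fun u => leI u 0) &&
      lo f fun r => leI 0 r && aA a S.g (mulD r is2) one S.dist S.I S.M k)

/-- upper bound of `a im z` -/
def upY (e : TE) (y X : TM) (k : ℤ → Bool) : Bool :=
  cond e.ex (hi y k) (hi X fun u => fI (mulU (2 * e.kh) (maxI u 0)) k)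

/-- the rate, corrected if the starting point may be above the real axis -/
def upR (e : TE) (W : TM) (ri be : ℤ) (k : ℤ → Bool) : Bool :=
  cond (leI be 0) (k ri) (ab W fun w => fI (mulD (4 * (piD - be)) e.dn) fun q =>
    ltI be piD && ltI 0 e.dn && ltI 0 q && fI (ri - divU (mulU (mulU be be) w) q) k)

/-- vertical end -/
def endV (e : TE) (a : Ac) : End := fun S k =>
  endW e S fun _ W => ip S.cur fun y => rmul e.c1 y fun X => add X e.ik fun X' =>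
  lo X' fun xl => sub S.cur e.va fun d => rp d fun d => rmul e.c1 d fun d => add d e.ik fun d =>
  lo d fun a0 => ltI 0 e.mc && leI 0 a0 && fI (divD a0 e.mc) fun ri =>
  upY e y X fun yU => fI (yU - e.om) fun be => upR e W ri be fun r =>
  cond (leI 0 xl && leI 0 e.kl && leI piU (2 * mulD e.kl xl + -1))
    (ltI 0 r && aA a S.g r one S.dist S.I S.M k)
    (leI 0 xl && lo S.f2 fun u => leI 0 u && ip S.f1 fun f => lo f fun u =>
      fI (minI r u) fun r => ltI 0 r && aA a S.g r one S.dist S.I S.M k)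

/-- upper end of kind `0` (vertical) or `1` (diagonal) -/
def endT (e : TE) (a : Ac) (kind : ℕ) : End := cond (Nat.beq kind 0) (endV e a) (endD e a true)

section

variable {e : TE} {x : Pt} {X : TX} {a : Ac} {E0 : ℝ}

theorem mdi_ok {t : TM} {k : TM → Bool} (h : mdi t k = true) :
    ∃ r, k r = true ∧ ∀ pt z, Rep pt t z → Rep pt r (z * (1 + I)) := by
  unfold mdi at h
  obtain ⟨_, h, a1⟩ := mi_ok h
  obtain ⟨_, h, a2⟩ := add_ok h
  refine ⟨_, h, fun pt z hz => ?_⟩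
  rw [mul_add, mul_one, mul_comm]
  exact a2 _ _ _ hz (a1 _ _ hz)

theorem endW_ok (he : e.Ok x X) {S : St} {k : TM → TM → Bool} (h : endW e S k = true) {f : ℂ}
    (hf : RepA x S.f2 f) : ∃ b W, k b W = true ∧ Rep x b (X.m2 * f) ∧ Rep x W (X.m2 * f - I) ∧
      X.m2 * f - I ≠ 0 := by
  unfold endW at h
  obtain ⟨_, h, a1⟩ := scT_ok h
  obtain ⟨_, h, a2⟩ := addc_ok h
  obtain ⟨_, h, a3⟩ := ablo_ok h
  obtain ⟨t, h⟩ := Bool.and_eq_true_iff.1 h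
  have b1 := a1 _ _ _ (fun h => (he.ex h).2) he.m2.rep hf.rep
  have b2 := a2 _ _ b1
  rw [show toC 0 (-one) = -I by apply Complex.ext <;> simp [toC, toR_zero, toR_neg, toR_one],
    ← sub_eq_add_neg] at b2
  exact ⟨_, _, h, b1, b2, norm_pos_iff.1 ((toR_zero ▸ ltI_ok t).trans_le (a3 _ _ b2))⟩

theorem te_is2 {r : ℤ} (h : 0 ≤ toR r) : Real.sqrt 2 * toR (mulD r is2) ≤ toR r := by
  have h1 : Real.sqrt 2 * toR is2 ≤ 1 := by
    rw [← le_div_iff₀ (by norm_num [toR, is2])]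
    exact Real.sqrt_le_iff.2 (by norm_num [toR, is2])
  have h2 := mul_le_mul_of_nonneg_left (mulD_ok r is2) (Real.sqrt_nonneg 2)
  nlinarith

theorem te_fin (ha : a.Ok X.L) (hE : 0 ≤ E0) {S : St} {k : ℤ → ℤ → Bool} {u0 v : ℂ × ℂ} {z zc d : ℂ}
    (hS : S.Ok x X.J a E0 zc u0 z) {r : ℤ} (h : aA a S.g r one S.dist S.I S.M k = true)
    (hd : ‖d‖ = 1) (h1 : ∀ s : ℝ, 0 ≤ s →
      ‖X.J.E (z + s * d)‖ ≤ E0 * Real.exp (-(X.L * (toR S.g + toR r * s))))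
    (h2 : Filter.Tendsto (fun s : ℝ => X.J.P (z + s * d)) Filter.atTop (nhds v)) :
    ∃ I M, k I M = true ∧ Bd X.J.L E0 (a.W X.J.L) zc u0 v (toR I) (toR M) := by
  obtain ⟨I', M', h3, -, h4⟩ := aA_ray ha h
  refine ⟨I', M', h3, ?_⟩
  have := hS.hB.trans (wt_nonneg _ ha.1.le X.L_pos.le)
    (h4 X.J.toPrim E0 zc z d v hE hd h1 h2 hS.hd)
  rwa [add_sub_cancel, add_sub_cancel] at this

theorem endD_ok (he : e.Ok x X) (ha : a.Ok X.L) (hE : 0 ≤ E0) (up : Bool) (zc : ℂ) :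
    End.Ok (endD e a up) x X.J a E0 zc (if up then X.top else (0, 0)) := by
  intro S k u0 z hS h
  unfold endD at h
  obtain ⟨_, _, h, a1, -, a2⟩ := endW_ok he h hS.h2
  obtain ⟨_, h, a3⟩ := conj_ok h
  obtain ⟨_, h, a4⟩ := mul_ok h
  obtain ⟨_, h, a5⟩ := mi_ok h
  obtain ⟨_, h, a6⟩ := nmul_ok h
  obtain ⟨_, h, a7⟩ := add_ok h
  obtain ⟨_, h, a8⟩ := hi_ok h
  obtain ⟨t, h⟩ := Bool.and_eq_true_iff.1 h
  obtain ⟨_, h, b1⟩ := scT_ok h
  obtain ⟨_, h, b2⟩ := sub_ok h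
  obtain ⟨_, h, b3⟩ := mi_ok h
  obtain ⟨_, h, b4⟩ := sub_ok h
  obtain ⟨Y, h, b5⟩ := mdi_ok h
  obtain ⟨f, h, b6⟩ := mdi_ok h
  have c1 := (a8 _ _ (a7 _ _ _ (a4 _ _ _ a1 (a3 _ _ hS.h2.rep))
    (a6 _ _ (a5 _ _ hS.h2.rep)))).trans (toR_zero ▸ leI_ok t)
  have c2 := b5 _ _ (b4 _ _ _ (b1 _ _ _ (fun h => (he.ex h).2) he.m2.rep hS.h1.rep)
    (b3 _ _ (b2 _ _ _ hS.hc.rep he.va.rep)))
  have c3 := b6 _ _ hS.h1.rep
  have c4 : ∀ k', (rmul e.k4 Y fun Z => sub Z e.kk k') = true → ∃ Z w, k' Z = true ∧ Rep x Z w ∧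
      w.re = (1 - X.P.k2 ^ 2) * X.c1 * ((X.m2 * X.J.f1 z - I * (z - X.va)) * (1 + I)).re -
        2 * X.P.k2 := fun k' h => by
    obtain ⟨_, h, d1⟩ := rmul_ok h
    obtain ⟨_, h, d2⟩ := sub_ok h
    refine ⟨_, _, h, d2 _ _ _ (d1 _ _ _ he.k4.rep c2) he.kk.rep, ?_⟩
    generalize (X.m2 * X.J.f1 z - I * (z - X.va)) * (1 + I) = y
    simp [sq, mul_comm]
  cases up
  · rw [cond_false] at h
    obtain ⟨t1, h⟩ := Bool.and_eq_true_iff.1 h
    obtain ⟨_, h, d1⟩ := lo_ok h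
    obtain ⟨t2, h⟩ := Bool.and_eq_true_iff.1 h
    obtain ⟨d, d2, d3, d4⟩ := TX.ray_sw hE a2 c1 (by
      rcases Bool.or_eq_true_iff.1 t1 with t1 | t1
      · obtain ⟨_, t1, g1⟩ := hi_ok t1
        have g2 := (g1 _ _ c2).trans (toR_zero ▸ leI_ok t1)
        have g3 := mul_nonpos_of_nonneg_of_nonpos (mul_pos X.P.k4_pos X.h1).le g2
        linarith [X.P.k2_nonneg]
      · obtain ⟨_, _, t1, g1, g2⟩ := c4 _ t1
        obtain ⟨_, t1, g3⟩ := hi_ok t1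
        have g4 := (g3 _ _ g1).trans (toR_zero ▸ leI_ok t1)
        linarith) ((te_is2 (toR_zero ▸ leI_ok t2)).trans (d1 _ _ c3)) hS.hg
    exact te_fin ha hE hS h d2 d3 d4
  · rw [cond_true] at h
    obtain ⟨_, _, h, g1, g2⟩ := c4 _ h
    obtain ⟨_, h, g3⟩ := lo_ok h
    obtain ⟨t1, h⟩ := Bool.and_eq_true_iff.1 h
    obtain ⟨r, h, d1⟩ := hi_ok h
    obtain ⟨t2, h⟩ := Bool.and_eq_true_iff.1 h
    have g4 := (toR_zero ▸ leI_ok t1).trans (g3 _ _ g1)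
    have g5 := toR_zero ▸ leI_ok t2
    have g6 := te_is2 (r := -r) (by rw [toR_neg]; linarith)
    rw [toR_neg] at g6
    obtain ⟨d, d2, d3, d4⟩ := TX.ray_ne (r := toR (mulD (-r) is2)) hE a2 c1 (by linarith)
      (by linarith [d1 _ _ c3]) hS.hg
    exact te_fin ha hE hS h d2 d3 d4

theorem upY_ok (he : e.Ok x X) {y Y : TM} {k : ℤ → Bool} (h : upY e y Y k = true) {t : ℝ}
    (h1 : Rep x y t) (h2 : Rep x Y (X.c1 * t : ℝ)) : ∃ u, k u = true ∧ X.a * t ≤ toR u := by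
  unfold upY at h
  cases hx : e.ex <;> rw [hx] at h
  · rw [cond_false] at h
    obtain ⟨u, h, d1⟩ := hi_ok h
    rw [fI_eq] at h
    refine ⟨_, h, le_trans ?_ (mulU_le (x := 2 * X.P.kap) (y := max (X.c1 * t) 0)
      (by linarith [X.P.kap_nonneg]) (le_max_right _ _) ?_ ?_)⟩
    · rw [TX.a, mul_assoc]
      exact mul_le_mul_of_nonneg_left (le_max_left _ _) (by linarith [X.P.kap_nonneg])
    · rw [toR_intmul]
      push_cast
      linarith [he.kh]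
    · rw [toR_maxI, toR_zero]
      exact max_le_max (d1 _ _ h2) le_rfl
  · rw [cond_true] at h
    obtain ⟨u, h, d1⟩ := hi_ok h
    exact ⟨_, h, by rw [(he.ex hx).1, one_mul]; exact d1 _ _ h1⟩

theorem upR_ok (he : e.Ok x X) {W : TM} {ri be : ℤ} {k : ℤ → Bool} (h : upR e W ri be k = true)
    {w : ℂ} (h1 : Rep x W w) : ∃ r, k r = true ∧ toR r ≤ toR ri ∧ (0 < toR be →
      toR be ^ 2 * ‖w‖ ≤ 4 * (Real.pi - toR be) * (X.a * X.m2 * (toR ri - toR r)) ∧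
        toR be < Real.pi) := by
  unfold upR at h
  cases hb : leI be 0 <;> rw [hb] at h
  · rw [cond_false] at h
    obtain ⟨_, h, d1⟩ := ab_ok h
    simp only [fI_eq, Bool.and_eq_true] at h
    obtain ⟨⟨⟨s1, s2⟩, s3⟩, h⟩ := h
    replace s1 := ltI_ok s1
    replace s2 := toR_zero ▸ ltI_ok s2
    replace s3 := toR_zero ▸ ltI_ok s3
    have d2 := toR_zero ▸ leI_false hb
    have d3 := piD_ok
    have d4 := mulD_le (a := 4 * (piD - be)) (x := 4 * (Real.pi - toR be))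
      (by rw [toR_intmul, toR_sub]; push_cast; linarith) s2.le
      (by rw [toR_intmul, toR_sub]; push_cast; linarith) he.dn
    have d5 := divU_le (by positivity) s3 (mulU_le (by positivity) (norm_nonneg _)
      (mulU_ok be be) (d1 _ _ h1)) d4
    refine ⟨_, h, ?_, fun _ => ⟨?_, by linarith⟩⟩
    · rw [toR_sub]
      exact sub_le_self _ (le_trans (div_nonneg (by positivity) (s3.le.trans d4)) d5)
    · rw [toR_sub ri, sub_sub_cancel, ← mul_assoc, mul_comm _ (toR _), sq]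
      exact (div_le_iff₀ (s3.trans_le d4)).1 d5
  · exact ⟨_, h, le_rfl, fun d => absurd (toR_zero ▸ leI_ok hb) (not_le.2 d)⟩

theorem endV_ok (he : e.Ok x X) (ha : a.Ok X.L) (hE : 0 ≤ E0) (zc : ℂ) :
    End.Ok (endV e a) x X.J a E0 zc X.top := by
  intro S k u0 z hS h
  unfold endV at h
  obtain ⟨_, W, h, -, a1, a2⟩ := endW_ok he h hS.h2
  obtain ⟨y, h, a3⟩ := ip_ok h
  obtain ⟨Y, h, a4⟩ := rmul_ok h
  obtain ⟨_, h, a5⟩ := add_ok h
  obtain ⟨xl, h, a6⟩ := lo_ok h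
  obtain ⟨_, h, a7⟩ := sub_ok h
  obtain ⟨_, h, a8⟩ := rp_ok h
  obtain ⟨_, h, a9⟩ := rmul_ok h
  obtain ⟨_, h, b1⟩ := add_ok h
  obtain ⟨a0, h, b2⟩ := lo_ok h
  simp only [fI_eq, Bool.and_eq_true] at h
  obtain ⟨⟨t1, t2⟩, h⟩ := h
  replace t1 := toR_zero ▸ ltI_ok t1
  replace t2 := toR_zero ▸ leI_ok t2
  have c0 : Rep x e.ik ((1 + X.P.k2)⁻¹ : ℝ) := by
    rw [ofReal_inv, add_comm, ofReal_add]
    exact he.ik.rep
  have c1 := a3 _ _ hS.hc.rep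
  have c2 := a4 _ _ _ he.c1.rep c1
  have c3 := a6 _ _ (a5 _ _ _ c2 c0)
  have c4 := b2 _ _ (b1 _ _ _ (a9 _ _ _ he.c1.rep (a8 _ _ (a7 _ _ _ hS.hc.rep he.va.rep))) c0)
  rw [← ofReal_mul] at c2
  rw [← ofReal_mul, ← ofReal_add, ofReal_re] at c3 c4
  have p1 := mul_pos X.h2 X.h1
  have c5 := divD_le t2 p1 c4 he.mc
  obtain ⟨yU, h, c6⟩ := upY_ok he h c1 c2
  have c7 : X.P.wT.im + X.a * z.im ≤ toR (yU - e.om) := by
    rw [toR_sub]
    linarith [he.om]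
  generalize yU - e.om = be at h c7
  generalize divD a0 e.mc = ri at h c5
  obtain ⟨r, h, c8, c9⟩ := upR_ok he h a1
  have key : ∀ r', toR r' ≤ toR r → (ltI 0 r' && aA a S.g r' one S.dist S.I S.M k) = true →
      (X.P.wT.im + X.a * z.im ≤ 0 → 0 ≤ X.c1 * z.im + (1 + X.P.k2)⁻¹ ∧ 0 ≤ (X.J.f2 z).re ∧
        toR r' ≤ (X.J.f1 z).im) →
      ∃ I M, k I M = true ∧ Bd X.J.L E0 (a.W X.J.L) zc u0 X.top (toR I) (toR M) := by
    intro r' g1 g2 g3
    obtain ⟨g2, g4⟩ := Bool.and_eq_true_iff.1 g2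
    obtain ⟨g5, g6⟩ := TX.ray_up hE a2 (toR_zero ▸ ltI_ok g2)
      ((le_div_iff₀ p1).1 (g1.trans (c8.trans c5))) g3 c7 (fun g7 => (c9 g7).1.trans
        (mul_le_mul_of_nonneg_left (mul_le_mul_of_nonneg_left (sub_le_sub c5 g1)
          (mul_pos X.a_pos X.h2).le) (by linarith [(c9 g7).2]))) hS.hg
    exact te_fin ha hE hS g4 norm_I g5 g6
  cases hb : (leI 0 xl && leI 0 e.kl && leI piU (2 * mulD e.kl xl + -1)) <;> rw [hb] at h
  · rw [cond_false] at h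
    obtain ⟨s1, h⟩ := Bool.and_eq_true_iff.1 h
    obtain ⟨_, h, d1⟩ := lo_ok h
    obtain ⟨s2, h⟩ := Bool.and_eq_true_iff.1 h
    obtain ⟨_, h, d2⟩ := ip_ok h
    obtain ⟨u, h, d3⟩ := lo_ok h
    refine key (minI r u) (toR_minI r u ▸ min_le_left _ _) h fun _ =>
      ⟨(toR_zero ▸ leI_ok s1).trans c3, (toR_zero ▸ leI_ok s2).trans (d1 _ _ hS.h2.rep), ?_⟩
    rw [toR_minI]
    exact (min_le_right _ _).trans (d3 _ _ (d2 _ _ hS.h1.rep))
  · refine key r le_rfl h fun g => absurd g (not_le.2 ?_)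
    simp only [Bool.and_eq_true] at hb
    obtain ⟨⟨s1, s2⟩, s3⟩ := hb
    have d1 := mulD_le (toR_zero ▸ leI_ok s2) (toR_zero ▸ leI_ok s1) he.kl c3
    have d2 := piU_ok.trans (leI_ok s3)
    have d3 := X.P.wT_lo
    have d4 : toR (-1) < 0 := by norm_num [toR]
    rw [toR_add, toR_intmul] at d2
    rw [div_eq_mul_inv] at d3
    rw [TX.a]
    push_cast at d2
    linarith

theorem endT_ok (he : e.Ok x X) (ha : a.Ok X.L) (hE : 0 ≤ E0) (kind : ℕ) (zc : ℂ) :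
    End.Ok (endT e a kind) x X.J a E0 zc X.top := by
  unfold endT
  cases Nat.beq kind 0
  exacts [endD_ok he ha hE true zc, endV_ok he ha hE zc]

end

/-- certificate of a contour through a saddle point -/
structure XT where
  u : ℤ
  v : ℤ
  n : ℕ
  ρ : ℤ
  q : Path
  ku : ℕ

/-- the saddle point and the entry; the continuation gets `z lo hi M` -/
def valT (C : Chart) (a : Ac) (d : XT) (ed eu : End) (k : TM → ℤ → ℤ → ℤ → Bool) : Bool :=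
  saddleZ C d.u d.v d.n d.ρ fun z => C.sup z fun _ _ => entryX C a z d.q ed eu (k z)

/-- the complete contour does not vanish -/
def chkTD (C : Chart) (e : TE) (L0 : ℤ) (d : XT) : Bool :=
  mkAc L0 0 fun a => valT C a d (endD e a false) (endT e a d.ku) fun _ l _ _ => ltI 0 l

/-- the two parts of the contour cut at `(u, v)` do not vanish and have ordered means -/
def chkTM (C : Chart) (e : TE) (L0 u v : ℤ) (dA dB : XT) : Bool :=
  mkAc L0 1 fun a => valT C a dA (endD e a false) (endCut u v) fun zA lA _ MA =>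
  valT C a dB (endCut u v) (endT e a dB.ku) fun zB lB _ MB =>
  ltI 0 lA && ltI 0 lB && sub zB zA fun d => lo d fun g =>
  ltI (divU (divU MA lA + divU MB lB) a.L0) g

/-- the conclusion of `FMok` for the cut point `c` -/
def Par.Cut (P : Par) (T : ℝ) (c : ℂ) : Prop :=
  P.cV T (0, 0) (P.V T c) ≠ 0 ∧ P.cV T (P.V T c) (P.Vtop T) ≠ 0 ∧
    0 < (P.nV T (P.V T c) (P.Vtop T) / P.cV T (P.V T c) (P.Vtop T) -
      P.nV T (0, 0) (P.V T c) / P.cV T (0, 0) (P.V T c)).re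

section

variable {C : Chart} {e : TE} {x : Pt} {X : TX}

theorem valT_ok (hC : C.Ok x X.J) {a : Ac} (ha : a.Ok X.L) {d : XT} (hq : d.q.cls.ok)
    {ed eu : End} {vd vu : ℂ × ℂ} (hd : ∀ E0 zc, 0 ≤ E0 → ed.Ok x X.J a E0 zc vd)
    (hu : ∀ E0 zc, 0 ≤ E0 → eu.Ok x X.J a E0 zc vu) {k : TM → ℤ → ℤ → ℤ → Bool}
    (h : valT C a d ed eu k = true) : ∃ z z0 l hi M, k z l hi M = true ∧ RepA x z z0 ∧
      X.J.f1 z0 = 0 ∧ 0 < ‖X.J.E z0‖ ∧ ‖X.J.E z0‖ * toR l ≤ Real.sqrt X.L * ‖vu.1 - vd.1‖ ∧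
      Bd X.L ‖X.J.E z0‖ (a.W X.L) z0 vd vu (toR hi) (toR M) := by
  unfold valT at h
  obtain ⟨z, z0, h, h1, h2⟩ := saddleZ_ok hC h
  obtain ⟨_, _, h, h3⟩ := hC.hs _ _ h
  obtain ⟨l, hi, M, h, h4, h5⟩ := entryX_ok hC ha h1 h2 hq (hd _ _ (norm_nonneg _))
    (hu _ _ (norm_nonneg _)) h
  exact ⟨z, z0, l, hi, M, h, h1, h2, norm_pos_iff.2 (X.E_ne (h3 x.x3 x.h3 z0 h1.rep).1), h4, h5⟩

/-- the complete piece in the chart -/
theorem TX.cF_top (X : TX) : X.P.cF X.T =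
    (Real.sqrt X.P.L : ℝ) * cexp (-(I * X.T ^ 2 / (2 * X.P.δ))) * (X.a * X.top.1) := by
  rw [X.P.cF_eq X.hδ, Par.cV, sub_zero, TX.top, affV,
    mul_div_cancel₀ _ (ofReal_ne_zero.2 X.a_pos.ne')]

/-- the mean of a piece -/
theorem TX.mean (X : TX) {u v : ℂ × ℂ} (h : (affV X.P.wT X.a v).1 - (affV X.P.wT X.a u).1 ≠ 0) :
    X.P.cV X.T u v ≠ 0 ∧ X.P.sc * (X.P.nV X.T u v / X.P.cV X.T u v) = X.P.wT - X.P.ref X.T +
      X.a * (((affV X.P.wT X.a v).2 - (affV X.P.wT X.a u).2) /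
        ((affV X.P.wT X.a v).1 - (affV X.P.wT X.a u).1)) := by
  have h1 : (X.a : ℂ) ≠ 0 := ofReal_ne_zero.2 X.a_pos.ne'
  have h2 : (X.P.sc : ℂ) ≠ 0 := ofReal_ne_zero.2 (mul_pos (X.P.sg_pos X.hδ) X.P.cg_pos).ne'
  have h3 : ((Real.sqrt X.P.L : ℝ) : ℂ) ≠ 0 :=
    ofReal_ne_zero.2 (Real.sqrt_pos.2 (X.P.L_pos X.hδ)).ne'
  have h4 := Complex.exp_ne_zero (-(I * X.T ^ 2 / (2 * X.P.δ)))
  simp only [affV] at h ⊢
  rw [← sub_div] at h ⊢
  have h5 : v.1 - u.1 ≠ 0 := left_ne_zero_of_mul h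
  refine ⟨mul_ne_zero (mul_ne_zero h3 h4) h5, ?_⟩
  rw [Par.nV, Par.cV]
  field_simp
  ring

theorem te_mean {E l M W s : ℝ} {z0 d1 d2 : ℂ} (hE : 0 < E) (hl : 0 < l) (hW : 0 < W)
    (h1 : E * l ≤ s * ‖d1‖) (h2 : W * s * ‖d2 - z0 * d1‖ ≤ E * M) :
    d1 ≠ 0 ∧ |(d2 / d1 - z0).re| ≤ M / l / W := by
  have h3 : 0 < s * ‖d1‖ := (mul_pos hE hl).trans_le h1
  have h4 : d1 ≠ 0 := fun h => by simp [h] at h3
  have h5 := norm_pos_iff.2 h4
  have h6 : 0 < s := pos_of_mul_pos_left h3 h5.le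
  refine ⟨h4, (abs_re_le_norm _).trans ?_⟩
  have h7 : 0 ≤ M := nonneg_of_mul_nonneg_right (le_trans (by positivity) h2) hE
  rw [div_sub' h4, norm_div, mul_comm d1, div_div, div_le_div_iff₀ h5 (by positivity)]
  refine le_of_mul_le_mul_left ?_ h6
  nlinarith [mul_le_mul_of_nonneg_left h2 hl.le, mul_le_mul_of_nonneg_left h1 h7]

theorem chkTD_ok (hC : C.Ok x X.J) (he : e.Ok x X) {L0 : ℤ} (hL : toR L0 ≤ X.L) {d : XT}
    (hq : d.q.cls.ok) (h : chkTD C e L0 d = true) : X.P.S X.T ≠ 0 := by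
  intro h0
  unfold chkTD at h
  obtain ⟨a, h, -, -, ha⟩ := mkAc_ok h
  replace ha := ha _ hL
  obtain ⟨_, z0, l, _, _, h, -, -, h1, h2, -⟩ := valT_ok hC ha hq (vd := (0, 0))
    (fun E0 zc h => endD_ok he ha h false zc) (fun E0 zc h => endT_ok he ha h d.ku zc) h
  have h3 := X.cF_top
  rw [Par.cF, h0, mul_zero] at h3
  have h4 : X.top.1 = 0 := ((mul_eq_zero.1 ((mul_eq_zero.1 h3.symm).resolve_left (mul_ne_zero
    (ofReal_ne_zero.2 (Real.sqrt_pos.2 (X.P.L_pos X.hδ)).ne') (Complex.exp_ne_zero _)))).resolve_left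
    (ofReal_ne_zero.2 X.a_pos.ne'))
  rw [h4, sub_zero, norm_zero, mul_zero] at h2
  exact absurd h2 (not_le.2 (mul_pos h1 (toR_zero ▸ ltI_ok h)))

theorem chkTM_ok (hC : C.Ok x X.J) (he : e.Ok x X) {L0 u v : ℤ} (hL : toR L0 ≤ X.L) {dA dB : XT}
    (hA : dA.q.cls.ok) (hB : dB.q.cls.ok) (h : chkTM C e L0 u v dA dB = true) :
    X.P.Cut X.T (X.P.wT + X.a * toC u v) := by
  unfold chkTM at h
  obtain ⟨a, h, -, a2, ha⟩ := mkAc_ok h
  replace ha := ha _ hL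
  obtain ⟨_, zA, lA, _, MA, h, p0, -, p1, p2, -, p3⟩ := valT_ok hC ha hA (vd := (0, 0))
    (fun E0 zc h => endD_ok he ha h false zc) (fun E0 zc _ => endCut_ok u v x X.J a E0 zc) h
  obtain ⟨_, zB, lB, _, MB, h, q0, -, q1, q2, -, q3⟩ := valT_ok hC ha hB
    (fun E0 zc _ => endCut_ok u v x X.J a E0 zc) (fun E0 zc h => endT_ok he ha h dB.ku zc) h
  simp only [Bool.and_eq_true] at h
  obtain ⟨⟨t1, t2⟩, h⟩ := h
  obtain ⟨dd, h, t3⟩ := sub_ok h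
  obtain ⟨g, h, t4⟩ := lo_ok h
  replace t1 := toR_zero ▸ ltI_ok t1
  replace t2 := toR_zero ▸ ltI_ok t2
  have t5 := (divU_ok _ ha.1).trans_lt (ltI_ok h)
  have t6 := t4 _ _ (t3 _ _ _ q0.rep p0.rep)
  have hW : a.W X.L = toR a.L0 := by simp [Ac.W, wt, a2]
  have hs : 0 < X.P.sc := mul_pos (X.P.sg_pos X.hδ) X.P.cg_pos
  rw [hW] at p3 q3
  obtain ⟨p4, p5⟩ := te_mean p1 t1 ha.1 p2 p3
  obtain ⟨q4, q5⟩ := te_mean q1 t2 ha.1 q2 q3
  rw [X.J_P, ← affV_zero X.P.wT X.a] at p4 p5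
  rw [X.J_P] at q4 q5
  obtain ⟨p6, p7⟩ := X.mean p4
  obtain ⟨q6, q7⟩ := X.mean q4
  refine ⟨p6, q6, (mul_pos_iff_of_pos_left hs).1 ?_⟩
  rw [← re_ofReal_mul, mul_sub, p7, q7, add_sub_add_left_eq_sub, ← mul_sub, re_ofReal_mul]
  refine mul_pos X.a_pos ?_
  rw [toR_add, add_div] at t5
  have t7 := div_le_div_of_nonneg_right (divU_ok MA t1) ha.1.le
  have t8 := div_le_div_of_nonneg_right (divU_ok MB t2) ha.1.le
  have t9 := (abs_le.1 p5).2
  have t10 := (abs_le.1 q5).1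
  rw [TX.top] at t10
  rw [sub_re] at t6 t9 t10 ⊢
  linarith

end

end Pool.Agent.Sok
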