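import Pool.Agent.Sok.TME

/-! Complex Taylor models of total degree three in four real variables in `[-1,1]`.
Definitions: `TMD`, `TMS`; soundness: `TMB`, `TMP`, `TMN`, `TML`, `TMM`, `TME`. -/
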