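import Pool.Agent.Sok.TMS

/-! Taylor models: the bit operations on packed numbers. -/

set_option autoImplicit false

namespace Pool.Agent.Sok.TMI

open Finset Pool.Agent.MP_97ada9_an

variable {Z : ℕ} {c : ℕ → ℤ}

theorem cT_eq : cT = (2 ^ 80) ^ 130 := by decide +kernel

theorem cH_eq : cH = pk (fun n => if gd n then 2 ^ 51 else 0) 130 := by decide +kernel

theorem cH2_eq : cH2 = 2 * cH := by decide +kernel

theorem tmb_cO : cO = pk (fun n => if gd n then 2 ^ 1 - 1 else 0) 130 := by decide +kernel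

theorem tmb_cW : cW = pk (fun n => if n = 130 then 35 else if gd n then 2 ^ 51 - 1 else 0) 131 := by
  decide +kernel

theorem tmb_cX : cX + cH = cT := by decide +kernel

theorem tmb_cM : cM >>> 28 = pk (fun n => if gd n then 2 ^ 52 - 1 else 0) 130 := by decide +kernel

theorem tmb_cP : cP = pk (fun n => 2 ^ 79 + if gd n then 2 ^ 27 else 0) 130 + 2 ^ 70 * cT := by
  decide +kernel

theorem tmb_cM0 : cM0 = pk (fun n => if g0 n then 2 ^ 52 - 1 else 0) 130 := by decide +kernel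

theorem tmb_cR0 : cR0 = pk (fun n => if (gd n && !g0 n) then 2 ^ 51 else 0) 130 := by decide +kernel

theorem tmb_cM2 : cM2 = pk (fun n => if g2 n then 2 ^ 52 - 1 else 0) 130 := by decide +kernel

theorem tmb_cR2 : cR2 = pk (fun n => if (gd n && !g2 n) then 2 ^ 51 else 0) 130 := by decide +kernel

theorem tmb_cMe : cMe = pk (fun n => if ge n then 2 ^ 52 - 1 else 0) 130 := by decide +kernel

theorem tmb_cMo :
    cMo = pk (fun n => if (!ge n && (gd n || n == 130)) then 2 ^ 52 - 1 else 0) 131 := by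
  decide +kernel

theorem tmb_sub {A B : ℕ} (h : A = A &&& B) {n : ℕ} (hn : A.testBit n = true) :
    B.testBit n = true := by
  rw [h, Nat.testBit_and, Bool.and_eq_true] at hn
  exact hn.2

theorem tmb_g0 {n : ℕ} (h : g0 n = true) : gd n = true := tmb_sub (by decide +kernel) h

theorem tmb_g2 {n : ℕ} (h : g2 n = true) : gd n = true := tmb_sub (by decide +kernel) h

theorem tmb_ge {n : ℕ} (h : ge n = true) : gd n = true := tmb_sub (by decide +kernel) h

theorem tmb_g2' : ∀ n < 130, g2 n = true → gd (n + 86) = true := by decide +kernel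

theorem tmb_gd0 : gd 0 = true := by decide +kernel

theorem tmb_dg {z : ℕ → ℕ} {L : ℕ} (hz : ∀ n < L, z n < 2 ^ 80) (n : ℕ) :
    dg 80 (pk z L) n = if n < L then z n else 0 := dg_sum 80 L z hz n

theorem tmb_lt {z : ℕ → ℕ} {L : ℕ} (hz : ∀ n < L, z n < 2 ^ 80) : pk z L < (2 ^ 80) ^ L :=
  sum_lt_pow _ L z hz

theorem tmb_congr {z z' : ℕ → ℕ} {L : ℕ} (h : ∀ n < L, z n = z' n) : pk z L = pk z' L :=
  sum_congr rfl fun n hn => by rw [h n (mem_range.1 hn)]

theorem tmb_ext {X L : ℕ} {z : ℕ → ℕ} (hX : X < (2 ^ 80) ^ L) (h : ∀ n < L, dg 80 X n = z n) :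
    X = pk z L := by
  rw [← tmb_congr h]
  exact eq_sum_dg 80 X L hX

theorem tmb_cast (z : ℕ → ℕ) (L : ℕ) :
    (pk z L : ℤ) = ∑ n ∈ range L, (z n : ℤ) * (2 ^ 80) ^ n := by
  unfold pk
  rw [Nat.cast_sum]
  refine sum_congr rfl fun n _ => ?_
  rw [Nat.cast_mul, Nat.cast_pow, Nat.cast_pow, Nat.cast_ofNat]

theorem tmb_xor (K X Y n : ℕ) : dg K (Nat.xor X Y) n = dg K X n ^^^ dg K Y n := by
  unfold dg
  rw [Nat.xor_eq, ← pow_mul, Nat.xor_div_two_pow, Nat.xor_mod_two_pow]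

theorem tmb_mask (X L h : ℕ) (hh : h ≤ 80) (k : ℕ → Bool) :
    Nat.land X (pk (fun n => if k n then 2 ^ h - 1 else 0) L) =
      pk (fun n => if k n then dg 80 X n % 2 ^ h else 0) L := by
  have hle : 2 ^ h ≤ 2 ^ 80 := Nat.pow_le_pow_right (by norm_num) hh
  have hpos : 0 < 2 ^ h := by positivity
  have hd : ∀ n < L, (if k n then 2 ^ h - 1 else 0) < 2 ^ 80 := by
    intro n _
    split_ifs <;> omega
  refine tmb_ext (lt_of_le_of_lt Nat.and_le_right (tmb_lt hd)) fun n hn => ?_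
  rw [dg_land, tmb_dg hd, if_pos hn]
  split_ifs
  · exact Nat.and_two_pow_sub_one_eq_mod _ _
  · exact Nat.and_zero _

theorem tmb_val {z : ℕ → ℕ} (h : ∀ n < 130, (z n : ℤ) = c n + if gd n then 2 ^ 51 else 0) :
    (pk z 130 : ℤ) = cH + pv c := by
  rw [cH_eq, tmb_cast, tmb_cast, pv, ← sum_add_distrib]
  refine sum_congr rfl fun n hn => ?_
  rw [h n (mem_range.1 hn), ← add_mul, add_comm (c n)]
  congr 2
  split_ifs <;> norm_num

theorem tmb_val' (hs : Sp c) (hb : Bd c) :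
    (pk (fun n => if gd n then (c n + 2 ^ 51).toNat else 0) 130 : ℤ) = cH + pv c := by
  refine tmb_val fun n _ => ?_
  have h1 := hb n
  cases hg : gd n
  · simp [hs n hg]
  · simp only [if_true]
    omega

theorem tmb_z (hb : Bd c) (n : ℕ) : (if gd n then (c n + 2 ^ 51).toNat else 0) < 2 ^ 52 := by
  have h1 := hb n
  split_ifs <;> omega

theorem tmb_z' (hb : Bd c) :
    ∀ n < 130, (if gd n then (c n + 2 ^ 51).toNat else 0) < 2 ^ 80 := fun n _ =>
  (tmb_z hb n).trans (by norm_num)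

/-- `cH + pv c` is a sum of nonnegative terms (`cH_eq`, `Sp.bd`). -/
theorem Pk.of_sub {A B : ℕ} (hs : Sp c) (hl : l1 c < 2 ^ 51) (h : (A : ℤ) - B = cH + pv c) :
    Pk (Nat.sub A B) c := by
  refine ⟨hs, ?_⟩
  have h1 := tmb_val' hs (hs.bd hl)
  rw [← h1] at h ⊢
  have h2 : Nat.sub A B = A - B := rfl
  rw [h2]
  generalize pk _ 130 = W at h ⊢
  omega

theorem Pk.digits (h : Pk Z c) (hb : Bd c) :
    Z = pk (fun n => if gd n then (c n + 2 ^ 51).toNat else 0) 130 := by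
  have h1 := tmb_val' h.1 hb
  rw [← h.2] at h1
  exact (Nat.cast_injective h1).symm

theorem tmb_dgZ (h : Pk Z c) (hb : Bd c) (n : ℕ) :
    dg 80 Z n = if gd n then (c n + 2 ^ 51).toNat else 0 := by
  rw [h.digits hb, tmb_dg (tmb_z' hb)]
  split_ifs with h1 h2 h2
  · rfl
  · rfl
  · exact absurd (gd_lt h2) h1
  · rfl

theorem tmb_Zlt (h : Pk Z c) (hb : Bd c) : Z < cT := by
  rw [h.digits hb, cT_eq]
  exact tmb_lt (tmb_z' hb)

/-- compare digits (`dg_sum`) -/
theorem Pk.unique {c' : ℕ → ℤ} (h : Pk Z c) (hb : Bd c) (h' : Pk Z c') (hb' : Bd c') : c = c' := by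
  funext n
  have h1 := tmb_dgZ h hb n
  rw [tmb_dgZ h' hb' n] at h1
  cases hg : gd n
  · rw [h.1 n hg, h'.1 n hg]
  · rw [hg] at h1
    simp only [if_true] at h1
    have h2 := hb n
    have h3 := hb' n
    omega

theorem Pk.xf (h : Pk Z c) (hb : Bd c) :
    ((Nat.add Z cX : ℕ) : ℤ) = cT + pv c ∧ Nat.add Z cX ≤ 2 * cT := by
  have h1 := tmb_Zlt h hb
  have h2 := h.2
  have h3 := tmb_cX
  have h4 : Nat.add Z cX = Z + cX := rfl
  rw [h4]
  generalize cT = T at h1 h3 ⊢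
  generalize cH = H at h2 h3
  generalize cX = X at h3 ⊢
  generalize pv c = V at h2 ⊢
  omega

theorem abs_pv_le (hs : Sp c) (hb : Bd c) : |pv c| ≤ cT := by
  have h2 := tmb_val' hs hb
  have h1 := tmb_Zlt (⟨hs, h2⟩ : Pk _ c) hb
  have h3 := tmb_cX
  generalize pk _ 130 = W at h1 h2
  generalize cT = T at h1 h3 ⊢
  generalize cH = H at h2 h3
  generalize cX = X at h3
  generalize pv c = V at h2 ⊢
  rw [abs_le]
  omega

theorem tmb_low (X : ℕ) : Nat.land X 1152921504606846975 = dg 80 X 0 % 2 ^ 60 := by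
  have h1 : (1152921504606846975 : ℕ) = 2 ^ 60 - 1 := by norm_num
  rw [h1, Nat.land_eq, Nat.and_two_pow_sub_one_eq_mod, dg, pow_zero, Nat.div_one,
    Nat.mod_mod_of_dvd _ (pow_dvd_pow 2 (by norm_num))]

theorem Pk.low (h : Pk Z c) (hb : Bd c) :
    ((Nat.land Z 1152921504606846975 : ℕ) : ℤ) = c 0 + 2 ^ 51 := by
  rw [tmb_low, tmb_dgZ h hb, tmb_gd0, if_pos rfl]
  have h1 := hb 0
  omega

theorem tmb_xor1 {u k : ℕ} (h : u < 2 ^ k) : u ^^^ (2 ^ k - 1) = 2 ^ k - (u + 1) := by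
  refine Nat.eq_of_testBit_eq fun i => ?_
  rw [Nat.testBit_xor, Nat.testBit_two_pow_sub_one, Nat.testBit_two_pow_sub_succ h]
  by_cases hi : i < k
  · simp [hi]
  · have : u.testBit i = false :=
      Nat.testBit_lt_two_pow (h.trans_le (Nat.pow_le_pow_right two_pos (not_lt.1 hi)))
    simp [hi, this]

theorem tmb_xor2 {v k : ℕ} (h : v < 2 ^ k) : (2 ^ k + v) ^^^ 2 ^ k = v := by
  have h1 := Nat.two_pow_add_eq_or_of_lt h 1
  rw [mul_one] at h1
  refine Nat.eq_of_testBit_eq fun i => ?_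
  rw [h1, Nat.testBit_xor, Nat.testBit_or, Nat.testBit_two_pow]
  by_cases hi : k = i
  · subst hi
    simp [Nat.testBit_lt_two_pow h]
  · simp [hi]

theorem tmb_xor_lt {X Y K L : ℕ} (hX : X < (2 ^ K) ^ L) (hY : Y < (2 ^ K) ^ L) :
    Nat.xor X Y < (2 ^ K) ^ L := by
  rw [← pow_mul] at hX hY ⊢
  exact Nat.xor_lt_two_pow hX hY

theorem pk_add (z z' : ℕ → ℕ) (L : ℕ) : pk z L + pk z' L = pk (fun n => z n + z' n) L := by
  unfold pk
  rw [← sum_add_distrib]
  exact sum_congr rfl fun n _ => (add_mul _ _ _).symm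

theorem tmb_succ (z : ℕ → ℕ) (L : ℕ) : pk z (L + 1) = pk z L + z L * (2 ^ 80) ^ L :=
  sum_range_succ _ _

/-- digit by digit: a digit `u < 2^52` is xored with `2^51 - 1 + u / 2^51` -/
theorem Pk.wab_eq (h : Pk Z c) (hb : Bd c) : wab Z = pk (wv c) 131 := by
  have h1 : Nat.land (Nat.shiftRight Z 51) cO =
      pk (fun n => if gd n then (c n + 2 ^ 51).toNat / 2 ^ 51 else 0) 131 := by
    have e0 : gd 130 = false := by decide +kernel
    rw [tmb_cO, tmb_mask _ _ _ (by norm_num), tmb_succ _ 130, e0, if_neg (by simp), zero_mul,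
      add_zero]
    refine tmb_congr fun n _ => ?_
    split_ifs with hg
    · have h2 := dg_shift 80 Z 51 n (by norm_num)
      rw [tmb_dgZ h hb, if_pos hg] at h2
      have h3 := hb n
      generalize dg 80 (Nat.shiftRight Z 51) n = D at h2 ⊢
      norm_num at h2 h3 ⊢
      omega
    · rfl
  have h2 : Nat.add cW (Nat.land (Nat.shiftRight Z 51) cO) =
      pk (fun n => (if n = 130 then 35 else if gd n then 2 ^ 51 - 1 else 0) +
        if gd n then (c n + 2 ^ 51).toNat / 2 ^ 51 else 0) 131 := by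
    rw [h1, tmb_cW, ← pk_add]
    rfl
  have h3 : ∀ n < 131, ((if n = 130 then 35 else if gd n then 2 ^ 51 - 1 else 0) +
      if gd n then (c n + 2 ^ 51).toNat / 2 ^ 51 else 0) < 2 ^ 80 := by
    intro n _
    have h4 := hb n
    split_ifs <;> omega
  have h5 : Z < (2 ^ 80) ^ 131 := by
    refine (tmb_Zlt h hb).trans_le ?_
    rw [cT_eq]
    exact Nat.pow_le_pow_right (by positivity) (by norm_num)
  have h6 := tmb_lt h3
  unfold wab
  rw [h2]
  refine tmb_ext ?_ fun n hn => ?_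
  · exact tmb_xor_lt h5 h6
  · rw [tmb_xor, tmb_dg h3, if_pos hn, tmb_dgZ h hb, wv]
    have h4 := hb n
    cases hg : gd n
    · rw [h.1 n hg]
      split_ifs <;> simp_all
    · have h7 : n ≠ 130 := (gd_lt hg).ne
      simp only [if_true, if_neg h7]
      split_ifs with h8
      · have h9 : (c n + 2 ^ 51).toNat < 2 ^ 51 := by omega
        rw [Nat.div_eq_of_lt h9, add_zero, tmb_xor1 h9]
        omega
      · have h9 : (c n + 2 ^ 51).toNat = 2 ^ 51 + (c n).toNat := by omega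
        have h10 : (c n).toNat < 2 ^ 51 := by omega
        have h11 : 2 ^ 51 - 1 + (2 ^ 51 + (c n).toNat) / 2 ^ 51 = 2 ^ 51 := by omega
        rw [h9, h11, tmb_xor2 h10]

theorem pk_low {z : ℕ → ℕ} (h : z 0 < 2 ^ 60) :
    Nat.land (pk z 131) 1152921504606846975 = z 0 := by
  have h1 : (1152921504606846975 : ℕ) = 2 ^ 60 - 1 := by norm_num
  have h2 : ∀ L, pk z (L + 1) % 2 ^ 60 = z 0 := by
    intro L
    induction L with
    | zero => rw [pk, sum_range_one, pow_zero, mul_one, Nat.mod_eq_of_lt h]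
    | succ L ih =>
      have e : z (L + 1) * (2 ^ 80) ^ (L + 1) = 2 ^ 60 * (z (L + 1) * (2 ^ 80) ^ L * 2 ^ 20) := by
        rw [pow_succ]; ring
      rw [tmb_succ, e, Nat.add_mul_mod_self_left, ih]
  rw [h1, Nat.land_eq, Nat.and_two_pow_sub_one_eq_mod]
  exact h2 130

theorem tmb_tail {z : ℕ → ℕ} (j L : ℕ) (hz : ∀ n < L, z n < 2 ^ 80) :
    pk z L / (2 ^ 80) ^ j ≡ ∑ n ∈ range L, if j ≤ n then z n else 0 [MOD 1152922604119523329] := by
  have h1 : 2 ^ 80 ≡ 1 [MOD 1152922604119523329] := by decide +kernel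
  induction L with
  | zero => simp [pk, Nat.ModEq]
  | succ L ih =>
    by_cases hj : j ≤ L
    · obtain ⟨d, rfl⟩ := Nat.exists_eq_add_of_le hj
      have e : z (j + d) * (2 ^ 80) ^ (j + d) = (2 ^ 80) ^ j * (z (j + d) * (2 ^ 80) ^ d) := by
        rw [pow_add]; ring
      rw [tmb_succ, e, Nat.add_mul_div_left _ _ (by positivity), sum_range_succ, if_pos hj]
      refine (ih fun n hn => hz n (by omega)).add ?_
      have := (h1.pow d).mul_left (z (j + d))
      rwa [one_pow, mul_one] at this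
    · have h2 : pk z (L + 1) < (2 ^ 80) ^ j :=
        (tmb_lt hz).trans_le (Nat.pow_le_pow_right (by positivity) (by omega))
      rw [Nat.div_eq_of_lt h2, sum_eq_zero]
      intro n hn
      rw [if_neg (by have := mem_range.1 hn; omega)]

theorem tmb_tail' {z : ℕ → ℕ} {L : ℕ} (h : ∑ n ∈ range L, z n < 1152922604119523329) (j : ℕ) :
    (pk z L / (2 ^ 80) ^ j) % 1152922604119523329 = ∑ n ∈ range L, if j ≤ n then z n else 0 := by
  have hz : ∀ n < L, z n < 2 ^ 80 := fun n hn =>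
    ((single_le_sum (fun _ _ => Nat.zero_le _) (mem_range.2 hn)).trans_lt h).trans (by norm_num)
  have h1 := tmb_tail j L hz
  unfold Nat.ModEq at h1
  rw [h1, Nat.mod_eq_of_lt]
  refine lt_of_le_of_lt (sum_le_sum fun n _ => ?_) h
  split_ifs <;> omega

theorem tmb_sum {z : ℕ → ℕ} {L : ℕ} (h : ∑ n ∈ range L, z n < 1152922604119523329) :
    pk z L % 1152922604119523329 = ∑ n ∈ range L, z n := by
  have h1 := tmb_tail' h 0
  rw [pow_zero, Nat.div_one] at h1
  rw [h1]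
  exact sum_congr rfl fun n _ => if_pos (Nat.zero_le n)

/-- `2^80 ≡ 1` modulo `2^60 + 2^40 + 2^20 + 1 = 1152922604119523329` -/
theorem pk_tail {z : ℕ → ℕ} (h : ∑ n ∈ range 131, z n < 1152922604119523329) (j : ℕ) :
    Nat.mod (Nat.shiftRight (pk z 131) (80 * j)) 1152922604119523329 =
      ∑ n ∈ range 131, if j ≤ n then z n else 0 := by
  rw [← tmb_tail' h j, ← pow_mul, Nat.shiftRight_eq, Nat.shiftRight_eq_div_pow]
  rfl

theorem pk_sum {z : ℕ → ℕ} (h : ∑ n ∈ range 131, z n < 1152922604119523329) :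
    Nat.mod (pk z 131) 1152922604119523329 = ∑ n ∈ range 131, z n := tmb_sum h

/-- `P % cT` has the digits `p n + 2^79 + (if gd n then 2^27 else 0)`; use
`Nat.shiftRight_and_distrib`, `dg_land`, `dg_shift`. -/
theorem rs_ok {P : ℕ} {p : ℕ → ℤ} (h : (P : ℤ) ≡ cP + pv p [ZMOD cT])
    (hp : ∀ n < 130, |p n| < 2 ^ 79 - 2 ^ 27) :
    Pk (Nat.shiftRight (Nat.land P cM) 28) (rq p) := by
  set d : ℕ → ℕ := fun n => (p n + (2 ^ 79 + if gd n then 2 ^ 27 else 0)).toNat with hd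
  have hd1 : ∀ n < 130, (d n : ℤ) = p n + (2 ^ 79 + if gd n then 2 ^ 27 else 0) := by
    intro n hn
    have h1 := abs_lt.1 (hp n hn)
    simp only [hd]
    split_ifs <;> omega
  have hd2 : ∀ n < 130, d n < 2 ^ 80 := by
    intro n hn
    have h1 := abs_lt.1 (hp n hn)
    have h2 := hd1 n hn
    split_ifs at h2 <;> omega
  have h1 : (pk d 130 : ℤ) =
      pk (fun n => 2 ^ 79 + if gd n then 2 ^ 27 else 0) 130 + pv p := by
    rw [tmb_cast, tmb_cast, pv, ← sum_add_distrib]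
    refine sum_congr rfl fun n hn => ?_
    rw [hd1 n (mem_range.1 hn), ← add_mul, add_comm (p n)]
    congr 2
    split_ifs <;> norm_num
  have h2 : (cP : ℤ) + pv p = pk d 130 + cT * 2 ^ 70 := by
    rw [h1, tmb_cP, Nat.cast_add, Nat.cast_mul, Nat.cast_pow, Nat.cast_ofNat]
    generalize (cT : ℤ) = T
    generalize ((pk _ 130 : ℕ) : ℤ) = W
    ring
  have h3 : P % cT = pk d 130 := by
    have h4 : pk d 130 < cT := by rw [cT_eq]; exact tmb_lt hd2
    rw [h2] at h
    have h5 : (P : ℤ) ≡ pk d 130 [ZMOD cT] := h.trans (Int.add_mul_emod_self_left _ _ _)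
    rw [← Nat.mod_eq_of_lt h4]
    exact Int.natCast_modEq_iff.1 h5
  have h4 : ∀ n < 130, dg 80 P n = d n := by
    intro n hn
    have h5 := tmb_dg hd2 n
    rw [← h3, cT_eq, mod_eq_sum_dg, dg_sum _ _ _ (fun i _ => dg_lt _ _ _), if_pos hn, if_pos hn] at h5
    exact h5
  refine ⟨fun n hg => by simp [rq, hg], ?_⟩
  have h5 : Nat.shiftRight (Nat.land P cM) 28 = Nat.land (Nat.shiftRight P 28) (cM >>> 28) :=
    Nat.shiftRight_and_distrib
  rw [h5, tmb_cM, tmb_mask _ _ _ (by norm_num)]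
  refine tmb_val fun n hn => ?_
  have h6 := dg_shift 80 P 28 n (by norm_num)
  rw [h4 n hn] at h6
  have h7 := hd1 n hn
  unfold rq
  cases hg : gd n
  · simp
  · rw [hg] at h7
    simp only [if_true] at h7 ⊢
    rw [show (80 - 28 : ℕ) = 52 from rfl] at h6
    rw [h6]
    generalize d n = D at h7
    omega

theorem cP_ge : 2 ^ 70 * cT ≤ cP := by decide +kernel

theorem cQ_eq : cQ = cP + 1024 * cT * cT := by decide +kernel

theorem tmb_sel (X : ℕ) (k : ℕ → Bool) (hk : ∀ n, k n = true → gd n = true) :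
    Pk (Nat.add (Nat.land X (pk (fun n => if k n then 2 ^ 52 - 1 else 0) 130))
      (pk (fun n => if (gd n && !k n) then 2 ^ 51 else 0) 130))
      (fun n => if k n then ((dg 80 X n % 2 ^ 52 : ℕ) : ℤ) - 2 ^ 51 else 0) := by
  refine ⟨fun n hg => if_neg fun hh => by simp [hk n hh] at hg, ?_⟩
  rw [tmb_mask _ _ _ (by norm_num), Nat.add_eq, pk_add]
  refine tmb_val fun n _ => ?_
  cases h1 : k n
  · cases h2 : gd n <;> simp
  · simp [hk n h1]

theorem sel0_any (Z : ℕ) : ∃ c, Pk (sel0 Z) (s0 c) ∧ Bd (s0 c) := by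
  refine ⟨fun n => ((dg 80 Z n % 2 ^ 52 : ℕ) : ℤ) - 2 ^ 51, ?_, fun n => ?_⟩
  · unfold sel0
    rw [tmb_cM0, tmb_cR0]
    exact tmb_sel Z g0 fun _ => tmb_g0
  · simp only [s0]
    split_ifs <;> omega

theorem Pk.sel0 (h : Pk Z c) (hb : Bd c) : Pk (sel0 Z) (s0 c) := by
  have h1 := tmb_sel Z g0 fun _ => tmb_g0
  rw [← tmb_cM0, ← tmb_cR0] at h1
  have h2 : s0 c = fun n => if g0 n then ((dg 80 Z n % 2 ^ 52 : ℕ) : ℤ) - 2 ^ 51 else 0 := by
    funext n
    unfold s0
    split_ifs with hg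
    · rw [tmb_dgZ h hb, if_pos (tmb_g0 hg)]
      have := hb n
      omega
    · rfl
  rw [h2]
  exact h1

theorem tmb_dg_shift (X j n : ℕ) : dg 80 (Nat.shiftRight X (80 * j)) n = dg 80 X (n + j) := by
  unfold dg
  rw [Nat.shiftRight_eq, Nat.shiftRight_eq_div_pow, Nat.div_div_eq_div_mul, pow_mul, ← pow_add,
    add_comm j n]

theorem Pk.sel2 (h : Pk Z c) (hb : Bd c) : Pk (sel2 Z) (s2 c) := by
  have h1 := tmb_sel (Nat.shiftRight Z 6880) g2 fun _ => tmb_g2
  rw [← tmb_cM2, ← tmb_cR2] at h1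
  have h2 : s2 c = fun n => if g2 n then
      ((dg 80 (Nat.shiftRight Z 6880) n % 2 ^ 52 : ℕ) : ℤ) - 2 ^ 51 else 0 := by
    funext n
    unfold s2
    split_ifs with hg
    · rw [show (6880 : ℕ) = 80 * 86 from rfl, tmb_dg_shift, tmb_dgZ h hb,
        if_pos (tmb_g2' n (gd_lt (tmb_g2 hg)) hg)]
      have := hb (n + 86)
      omega
    · rfl
  rw [h2]
  exact h1

theorem tmb_wv (hb : Bd c) (n : ℕ) : wv c n < 2 ^ 52 := by
  have := hb n
  unfold wv
  split_ifs <;> omega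

theorem Pk.land_cMo (h : Pk Z c) (hb : Bd c) :
    Nat.land (wab Z) cMo = pk (fun n => if ge n then 0 else wv c n) 131 := by
  rw [h.wab_eq hb, tmb_cMo, tmb_mask _ _ _ (by norm_num)]
  refine tmb_congr fun n hn => ?_
  rw [tmb_dg (fun i _ => (tmb_wv hb i).trans (by norm_num)), if_pos hn,
    Nat.mod_eq_of_lt (tmb_wv hb n)]
  cases h1 : ge n
  · cases h2 : gd n
    · by_cases h3 : n = 130
      · simp [h3]
      · simp [h3, wv, h.1 n h2]
    · simp
  · simp

theorem Pk.land_cMe (h : Pk Z c) (hb : Bd c) :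
    ((Nat.mod (Nat.land Z cMe) 1152922604119523329 : ℕ) : ℤ) =
      ∑ n ∈ range 130, if ge n then c n + 2 ^ 51 else 0 := by
  rw [tmb_cMe, tmb_mask _ _ _ (by norm_num)]
  have h1 : ∑ n ∈ range 130, (if ge n then dg 80 Z n % 2 ^ 52 else 0) < 1152922604119523329 := by
    refine lt_of_le_of_lt (sum_le_card_nsmul _ _ (2 ^ 52) fun n _ => ?_) (by simp)
    split_ifs <;> omega
  have h2 : Nat.mod _ _ = _ := tmb_sum h1
  rw [h2, Nat.cast_sum]
  refine sum_congr rfl fun n _ => ?_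
  split_ifs with hg
  · rw [tmb_dgZ h hb, if_pos (tmb_ge hg)]
    have := hb n
    omega
  · rfl

end Pool.Agent.Sok.TMI
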