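import Pool.Agent.Sok.Num

/-! Complex Taylor models of total degree three in four real variables in `[-1,1]`: definitions.
The coefficient of `x^a`, scaled by `2^28`, is stored with offset `2^51` in the digit number
`30 a0 + 35 a1 + 37 a2 + 43 a3` of a natural number written in base `2^80`.
All operations are in continuation passing style and return `false` when they fail.
Nothing is forced: the kernel evaluates the fields on demand and remembers their values. -/

set_option autoImplicit false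

namespace Pool.Agent.Sok

/-- a point of the cube -/
structure Pt where
  x0 : ℝ
  x1 : ℝ
  x2 : ℝ
  x3 : ℝ
  h0 : |x0| ≤ 1
  h1 : |x1| ≤ 1
  h2 : |x2| ≤ 1
  h3 : |x3| ≤ 1

def Pt.set3 (x : Pt) (y : ℝ) (hy : |y| ≤ 1) : Pt := { x with x3 := y, h3 := hy }
def Pt.set2 (x : Pt) (y : ℝ) (hy : |y| ≤ 1) : Pt := { x with x2 := y, h2 := hy }

/-- the coordinate number `i` -/
def Pt.get (x : Pt) (i : ℕ) : ℝ :=
  match i with
  | 0 => x.x0
  | 1 => x.x1
  | 2 => x.x2
  | _ => x.x3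

/-- the point of `[lo, hi]` with normalised coordinate `y` -/
noncomputable def varVal (lo hi : ℤ) (y : ℝ) : ℝ := (toR lo + toR hi) / 2 + (toR hi - toR lo) / 2 * y

/-- a Taylor model: packed real parts, packed imaginary parts, error bound and a crude bound for
the sum of the absolute values of the coefficients -/
inductive TM : Type
  | mk (re im e s : ℕ)

namespace TMI

/-- the number with digits one at the listed places -/
def sp (l : List ℕ) : ℕ :=
  List.foldr (fun p a => Nat.add a (Nat.shiftLeft 1 (Nat.mul 80 p))) 0 l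

def cO : ℕ := sp [0, 30, 35, 37, 43, 60, 65, 67, 70, 72, 73, 74, 78, 80, 86, 90, 95, 97, 100, 102,
  103, 104, 105, 107, 108, 109, 110, 111, 113, 115, 116, 117, 121, 123, 129]
def cO0 : ℕ := sp [0, 30, 35, 37, 60, 65, 67, 70, 72, 74, 90, 95, 97, 100, 102, 104, 105, 107,
  109, 111]
def cO2 : ℕ := sp [0, 30, 35, 37]
def cOe : ℕ := sp [0, 60, 70, 74, 86]
def cT : ℕ := Nat.shiftLeft 1 10400
def cH : ℕ := Nat.shiftLeft cO 51
def cH2 : ℕ := Nat.shiftLeft cO 52
def cX : ℕ := Nat.sub cT cH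
def cW : ℕ := Nat.add (Nat.sub cH cO) (Nat.mul 35 cT)
def cM : ℕ := Nat.shiftLeft (Nat.mul cO 4503599627370495) 28
def cP : ℕ :=
  Nat.add (Nat.add (Nat.shiftLeft (Nat.div cT 1208925819614629174706175) 79)
    (Nat.shiftLeft cO 27)) (Nat.shiftLeft cT 70)
def cQ : ℕ := Nat.add cP (Nat.shiftLeft cT 10410)
def cM0 : ℕ := Nat.mul cO0 4503599627370495
def cR0 : ℕ := Nat.shiftLeft (Nat.sub cO cO0) 51
def cM2 : ℕ := Nat.mul cO2 4503599627370495
def cR2 : ℕ := Nat.shiftLeft (Nat.sub cO cO2) 51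
def cMe : ℕ := Nat.mul cOe 4503599627370495
def cMo : ℕ := Nat.mul (Nat.add (Nat.sub cO cOe) cT) 4503599627370495

/-- upper bound for the modulus of `x + i y` -/
def cn (x y : ℕ) : ℕ :=
  Nat.sub (Nat.add x y) (Nat.shiftRight (Nat.mul (Nat.sub x (Nat.sub x y)) 2399) 12)
/-- the difference `p - n` in the scale of the scalars -/
def subS (p n : ℕ) : ℤ :=
  Bool.rec (motive := fun _ => ℤ) (Int.negSucc (Nat.pred (Nat.shiftLeft (Nat.sub n p) 12)))
    (Int.ofNat (Nat.shiftLeft (Nat.sub p n) 12)) (Nat.ble n p)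

/-- digitwise absolute values (negative digits come out one too small; top digit 35) -/
def wr (a : TM) : ℕ := Nat.xor a.1 (Nat.add cW (Nat.land (Nat.shiftRight a.1 51) cO))
def wi (a : TM) : ℕ := Nat.xor a.2 (Nat.add cW (Nat.land (Nat.shiftRight a.2 51) cO))
def t1 (a : TM) : ℕ :=
  Nat.sub (Nat.mod (Nat.add (wr a) (wi a)) 1152922604119523329)
    (Nat.add (Nat.land (wr a) 1152921504606846975) (Nat.land (wi a) 1152921504606846975))
def t2 (a : TM) : ℕ := Nat.mod (Nat.shiftRight (Nat.add (wr a) (wi a)) 4800) 1152922604119523329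
def t3 (a : TM) : ℕ := Nat.mod (Nat.shiftRight (Nat.add (wr a) (wi a)) 7200) 1152922604119523329
def mm (a : TM) : ℕ :=
  Nat.sub (Nat.mod (Nat.add (wr a) (wi a)) 1152922604119523329)
    (Nat.shiftRight (Nat.mul (Nat.sub (Nat.land (wr a) 1152921504606846975)
      (Nat.sub (Nat.land (wr a) 1152921504606846975) (Nat.land (wi a) 1152921504606846975)))
      2399) 12)
def r0 (a : TM) : ℕ := Nat.mod (wr a) 1152922604119523329
def r1 (a : TM) : ℕ := Nat.mod (Nat.shiftRight (wr a) 2400) 1152922604119523329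
def r2 (a : TM) : ℕ := Nat.mod (Nat.shiftRight (wr a) 4800) 1152922604119523329
def r3 (a : TM) : ℕ := Nat.mod (Nat.shiftRight (wr a) 7200) 1152922604119523329

def mulCC (a b : TM) (k : TM → Bool) : Bool :=
  Bool.rec (motive := fun _ => Bool) false
    (k ⟨Nat.shiftRight (Nat.land (Nat.sub (Nat.add (Nat.mul (Nat.add b.1 cX) (Nat.add (Nat.add a.1 cX) (Nat.add a.2 cX)))
        cQ) (Nat.mul (Nat.add a.2 cX) (Nat.add (Nat.add b.1 cX) (Nat.add b.2 cX)))) cM) 28,
      Nat.shiftRight (Nat.land (Nat.add (Nat.add (Nat.mul (Nat.add b.1 cX) (Nat.add (Nat.add a.1 cX) (Nat.add a.2 cX)))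
        cQ) (Nat.mul (Nat.add a.1 cX) (Nat.sub (Nat.add b.2 cT) b.1))) cM) 28,
      Nat.add (Nat.shiftRight (Nat.add (Nat.add (Nat.add (Nat.add
        (Nat.mul a.3 (Nat.add (mm b) b.3)) (Nat.mul b.3 (mm a)))
        (Nat.mul (Nat.sub (t1 a) (t2 a)) (t3 b))) (Nat.mul (Nat.sub (t2 a) (t3 a)) (t2 b)))
        (Nat.mul (t3 a) (t1 b))) 28) 36,
      Nat.add (Nat.shiftRight (Nat.mul (mm a) (mm b)) 26) 36⟩)
    (Nat.ble (Nat.add (Nat.add a.4 b.4) (Nat.shiftRight (Nat.mul (mm a) (mm b)) 26))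
      2251799813685247)

def mulRC (a b : TM) (k : TM → Bool) : Bool :=
  Bool.rec (motive := fun _ => Bool) false
    (k ⟨Nat.shiftRight (Nat.land (Nat.add (Nat.mul (Nat.add a.1 cX) (Nat.add b.1 cX)) cP) cM) 28,
      Nat.shiftRight (Nat.land (Nat.add (Nat.mul (Nat.add a.1 cX) (Nat.add b.2 cX)) cP) cM) 28,
      Nat.add (Nat.shiftRight (Nat.add (Nat.add (Nat.add (Nat.add
        (Nat.mul a.3 (Nat.add (mm b) b.3)) (Nat.mul b.3 (r0 a)))
        (Nat.mul (Nat.sub (r1 a) (r2 a)) (t3 b))) (Nat.mul (Nat.sub (r2 a) (r3 a)) (t2 b)))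
        (Nat.mul (r3 a) (t1 b))) 28) 36,
      Nat.add (Nat.shiftRight (Nat.mul (r0 a) (mm b)) 26) 36⟩)
    (Nat.ble (Nat.add (Nat.add a.4 b.4) (Nat.shiftRight (Nat.mul (r0 a) (mm b)) 26))
      2251799813685247)

def mulCR (a b : TM) (k : TM → Bool) : Bool :=
  Bool.rec (motive := fun _ => Bool) false
    (k ⟨Nat.shiftRight (Nat.land (Nat.add (Nat.mul (Nat.add a.1 cX) (Nat.add b.1 cX)) cP) cM) 28,
      Nat.shiftRight (Nat.land (Nat.add (Nat.mul (Nat.add a.2 cX) (Nat.add b.1 cX)) cP) cM) 28,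
      Nat.add (Nat.shiftRight (Nat.add (Nat.add (Nat.add (Nat.add
        (Nat.mul a.3 (Nat.add (r0 b) b.3)) (Nat.mul b.3 (mm a)))
        (Nat.mul (Nat.sub (t1 a) (t2 a)) (r3 b))) (Nat.mul (Nat.sub (t2 a) (t3 a)) (r2 b)))
        (Nat.mul (t3 a) (r1 b))) 28) 36,
      Nat.add (Nat.shiftRight (Nat.mul (mm a) (r0 b)) 26) 36⟩)
    (Nat.ble (Nat.add (Nat.add a.4 b.4) (Nat.shiftRight (Nat.mul (mm a) (r0 b)) 26))
      2251799813685247)

def mulRR (a b : TM) (k : TM → Bool) : Bool :=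
  Bool.rec (motive := fun _ => Bool) false
    (k ⟨Nat.shiftRight (Nat.land (Nat.add (Nat.mul (Nat.add a.1 cX) (Nat.add b.1 cX)) cP) cM) 28,
      cH,
      Nat.add (Nat.shiftRight (Nat.add (Nat.add (Nat.add (Nat.add
        (Nat.mul a.3 (Nat.add (r0 b) b.3)) (Nat.mul b.3 (r0 a)))
        (Nat.mul (Nat.sub (r1 a) (r2 a)) (r3 b))) (Nat.mul (Nat.sub (r2 a) (r3 a)) (r2 b)))
        (Nat.mul (r3 a) (r1 b))) 28) 19,
      Nat.add (Nat.shiftRight (Nat.mul (r0 a) (r0 b)) 26) 36⟩)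
    (Nat.ble (Nat.add (Nat.add a.4 b.4) (Nat.shiftRight (Nat.mul (r0 a) (r0 b)) 26))
      2251799813685247)

/-- products by the constants `± p ± i q`, with an additional error `x` -/
def mcPP (a : TM) (p q x : ℕ) (k : TM → Bool) : Bool :=
  Bool.rec (motive := fun _ => Bool) false
    (k ⟨Nat.shiftRight (Nat.land (Nat.sub (Nat.add (Nat.mul (Nat.add a.1 cX) p) cP)
        (Nat.mul (Nat.add a.2 cX) q)) cM) 28,
      Nat.shiftRight (Nat.land (Nat.add (Nat.add (Nat.mul (Nat.add a.1 cX) q) cP)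
        (Nat.mul (Nat.add a.2 cX) p)) cM) 28,
      Nat.add (Nat.shiftRight (Nat.add (Nat.mul a.3 (cn p q)) x) 28) 36,
      Nat.add (Nat.shiftRight (Nat.mul (Nat.add 1048576 a.4) (Nat.add 134217728 (Nat.add p q))) 28) 36⟩)
    (Nat.ble (Nat.mul (Nat.add 1048576 a.4) (Nat.add 134217728 (Nat.add p q)))
      302231454903657293676544)

def mcPM (a : TM) (p q x : ℕ) (k : TM → Bool) : Bool :=
  Bool.rec (motive := fun _ => Bool) false
    (k ⟨Nat.shiftRight (Nat.land (Nat.add (Nat.add (Nat.mul (Nat.add a.1 cX) p) cP)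
        (Nat.mul (Nat.add a.2 cX) q)) cM) 28,
      Nat.shiftRight (Nat.land (Nat.sub (Nat.add (Nat.mul (Nat.add a.2 cX) p) cP)
        (Nat.mul (Nat.add a.1 cX) q)) cM) 28,
      Nat.add (Nat.shiftRight (Nat.add (Nat.mul a.3 (cn p q)) x) 28) 36,
      Nat.add (Nat.shiftRight (Nat.mul (Nat.add 1048576 a.4) (Nat.add 134217728 (Nat.add p q))) 28) 36⟩)
    (Nat.ble (Nat.mul (Nat.add 1048576 a.4) (Nat.add 134217728 (Nat.add p q)))
      302231454903657293676544)

def mcMP (a : TM) (p q x : ℕ) (k : TM → Bool) : Bool :=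
  Bool.rec (motive := fun _ => Bool) false
    (k ⟨Nat.shiftRight (Nat.land (Nat.sub (Nat.sub cP (Nat.mul (Nat.add a.1 cX) p))
        (Nat.mul (Nat.add a.2 cX) q)) cM) 28,
      Nat.shiftRight (Nat.land (Nat.sub (Nat.add (Nat.mul (Nat.add a.1 cX) q) cP)
        (Nat.mul (Nat.add a.2 cX) p)) cM) 28,
      Nat.add (Nat.shiftRight (Nat.add (Nat.mul a.3 (cn p q)) x) 28) 36,
      Nat.add (Nat.shiftRight (Nat.mul (Nat.add 1048576 a.4) (Nat.add 134217728 (Nat.add p q))) 28) 36⟩)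
    (Nat.ble (Nat.mul (Nat.add 1048576 a.4) (Nat.add 134217728 (Nat.add p q)))
      302231454903657293676544)

def mcMM (a : TM) (p q x : ℕ) (k : TM → Bool) : Bool :=
  Bool.rec (motive := fun _ => Bool) false
    (k ⟨Nat.shiftRight (Nat.land (Nat.sub (Nat.add (Nat.mul (Nat.add a.2 cX) q) cP)
        (Nat.mul (Nat.add a.1 cX) p)) cM) 28,
      Nat.shiftRight (Nat.land (Nat.sub (Nat.sub cP (Nat.mul (Nat.add a.1 cX) q))
        (Nat.mul (Nat.add a.2 cX) p)) cM) 28,
      Nat.add (Nat.shiftRight (Nat.add (Nat.mul a.3 (cn p q)) x) 28) 36,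
      Nat.add (Nat.shiftRight (Nat.mul (Nat.add 1048576 a.4) (Nat.add 134217728 (Nat.add p q))) 28) 36⟩)
    (Nat.ble (Nat.mul (Nat.add 1048576 a.4) (Nat.add 134217728 (Nat.add p q)))
      302231454903657293676544)

def smP (a : TM) (p x : ℕ) (k : TM → Bool) : Bool :=
  Bool.rec (motive := fun _ => Bool) false
    (k ⟨Nat.shiftRight (Nat.land (Nat.add (Nat.mul (Nat.add a.1 cX) p) cP) cM) 28,
      Bool.rec (motive := fun _ => ℕ)
        (Nat.shiftRight (Nat.land (Nat.add (Nat.mul (Nat.add a.2 cX) p) cP) cM) 28) cH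
        (Nat.beq a.2 cH),
      Nat.add (Nat.shiftRight (Nat.add (Nat.mul a.3 p) x) 28) 36,
      Nat.add (Nat.shiftRight (Nat.mul (Nat.add 1048576 a.4) (Nat.add 134217728 p)) 28) 36⟩)
    (Nat.ble (Nat.mul (Nat.add 1048576 a.4) (Nat.add 134217728 p))
      302231454903657293676544)

def smM (a : TM) (p x : ℕ) (k : TM → Bool) : Bool :=
  Bool.rec (motive := fun _ => Bool) false
    (k ⟨Nat.shiftRight (Nat.land (Nat.sub cP (Nat.mul (Nat.add a.1 cX) p)) cM) 28,
      Bool.rec (motive := fun _ => ℕ)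
        (Nat.shiftRight (Nat.land (Nat.sub cP (Nat.mul (Nat.add a.2 cX) p)) cM) 28) cH
        (Nat.beq a.2 cH),
      Nat.add (Nat.shiftRight (Nat.add (Nat.mul a.3 p) x) 28) 36,
      Nat.add (Nat.shiftRight (Nat.mul (Nat.add 1048576 a.4) (Nat.add 134217728 p)) 28) 36⟩)
    (Nat.ble (Nat.mul (Nat.add 1048576 a.4) (Nat.add 134217728 p))
      302231454903657293676544)

def addN (a : TM) (n : ℕ) (k : TM → Bool) : Bool := k ⟨Nat.add a.1 n, a.2, a.3, Nat.add a.4 n⟩
def subN (a : TM) (n : ℕ) (k : TM → Bool) : Bool := k ⟨Nat.sub a.1 n, a.2, a.3, Nat.add a.4 n⟩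
def widN (a : TM) (e : ℕ) (k : TM → Bool) : Bool := k ⟨a.1, a.2, Nat.add a.3 e, a.4⟩
/-- product by `-i` -/
def mni (a : TM) (k : TM → Bool) : Bool := k ⟨a.2, Nat.sub cH2 a.1, a.3, a.4⟩

def addAt (Z : ℕ) (c : ℤ) (j : ℕ) : ℕ :=
  Int.casesOn (motive := fun _ => ℕ) c (fun n => Nat.add Z (Nat.shiftLeft n j))
    (fun n => Nat.sub Z (Nat.shiftLeft (Nat.succ n) j))

def wt (i : ℕ) : ℕ :=
  match i with
  | 0 => 2400
  | 1 => 2800
  | 2 => 2960
  | _ => 3440

def sel0 (Z : ℕ) : ℕ := Nat.add (Nat.land Z cM0) cR0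
def sel2 (Z : ℕ) : ℕ := Nat.add (Nat.land (Nat.shiftRight Z 6880) cM2) cR2

/-- two steps of the iteration for the square root of `N` -/
def nwt (N r : ℕ) : ℕ :=
  Nat.succ (Nat.shiftRight (Nat.add (Nat.succ (Nat.shiftRight (Nat.add r (Nat.div N r)) 1))
    (Nat.div N (Nat.succ (Nat.shiftRight (Nat.add r (Nat.div N r)) 1)))) 1)

def sq0 (a : TM) : ℕ :=
  Nat.add (Nat.mul (Nat.land (wr a) 1152921504606846975) (Nat.land (wr a) 1152921504606846975))
    (Nat.mul (Nat.land (wi a) 1152921504606846975) (Nat.land (wi a) 1152921504606846975))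

/-- a cheaper upper bound of the modulus -/
def dv (a : TM) : ℕ :=
  Nat.add (Bool.rec (motive := fun _ => ℕ) (mm a) (r0 a) (Nat.beq a.2 cH)) a.3

/-- removes the constant coefficient -/
def ctr (a : TM) : TM :=
  ⟨Nat.sub (Nat.add a.1 2251799813685248) (Nat.land a.1 1152921504606846975),
    Nat.sub (Nat.add a.2 2251799813685248) (Nat.land a.2 1152921504606846975), a.3, a.4⟩

def cab (Z : ℕ) : ℕ :=
  Nat.add (Nat.sub (Nat.land Z 1152921504606846975) 2251799813685248)
    (Nat.sub 2251799813685248 (Nat.land Z 1152921504606846975))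

end TMI

namespace TM

open TMI

def add (a b : TM) (k : TM → Bool) : Bool :=
  k ⟨Nat.sub (Nat.add a.1 b.1) cH, Nat.sub (Nat.add a.2 b.2) cH, Nat.add a.3 b.3, Nat.add a.4 b.4⟩

def sub (a b : TM) (k : TM → Bool) : Bool :=
  k ⟨Nat.sub (Nat.add a.1 cH) b.1, Nat.sub (Nat.add a.2 cH) b.2, Nat.add a.3 b.3, Nat.add a.4 b.4⟩

def mul (a b : TM) (k : TM → Bool) : Bool :=
  Bool.rec (motive := fun _ => TM → TM → (TM → Bool) → Bool)
    (Bool.rec (motive := fun _ => TM → TM → (TM → Bool) → Bool) mulCC mulCR (Nat.beq b.2 cH))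
    (Bool.rec (motive := fun _ => TM → TM → (TM → Bool) → Bool) mulRC mulRR (Nat.beq b.2 cH))
    (Nat.beq a.2 cH) a b k

/-- the same as `mul` -/
def rmul (a b : TM) (k : TM → Bool) : Bool := mul a b k

def neg (a : TM) (k : TM → Bool) : Bool := k ⟨Nat.sub cH2 a.1, Nat.sub cH2 a.2, a.3, a.4⟩
def conj (a : TM) (k : TM → Bool) : Bool := k ⟨a.1, Nat.sub cH2 a.2, a.3, a.4⟩
def rp (a : TM) (k : TM → Bool) : Bool := k ⟨a.1, cH, a.3, a.4⟩
def ip (a : TM) (k : TM → Bool) : Bool := k ⟨a.2, cH, a.3, a.4⟩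
def mi (a : TM) (k : TM → Bool) : Bool := k ⟨Nat.sub cH2 a.2, a.1, a.3, a.4⟩

def addc (a : TM) (u v : ℤ) (k : TM → Bool) : Bool :=
  Int.casesOn (motive := fun _ => Bool) u
    (fun p => Int.casesOn (motive := fun _ => Bool) v
      (fun q => k ⟨Nat.add a.1 (Nat.shiftRight p 12), Nat.add a.2 (Nat.shiftRight q 12), Nat.add a.3 2,
        Nat.add a.4 (Nat.add (Nat.shiftRight p 12) (Nat.shiftRight q 12))⟩)
      (fun q => k ⟨Nat.add a.1 (Nat.shiftRight p 12), Nat.sub a.2 (Nat.shiftRight q 12), Nat.add a.3 2,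
        Nat.add a.4 (Nat.add (Nat.shiftRight p 12) (Nat.shiftRight q 12))⟩))
    (fun p => Int.casesOn (motive := fun _ => Bool) v
      (fun q => k ⟨Nat.sub a.1 (Nat.shiftRight p 12), Nat.add a.2 (Nat.shiftRight q 12), Nat.add a.3 2,
        Nat.add a.4 (Nat.add (Nat.shiftRight p 12) (Nat.shiftRight q 12))⟩)
      (fun q => k ⟨Nat.sub a.1 (Nat.shiftRight p 12), Nat.sub a.2 (Nat.shiftRight q 12), Nat.add a.3 2,
        Nat.add a.4 (Nat.add (Nat.shiftRight p 12) (Nat.shiftRight q 12))⟩))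

def cst (u v : ℤ) (k : TM → Bool) : Bool := addc ⟨cH, cH, 0, 0⟩ u v k

def var (i : ℕ) (lo hi : ℤ) (k : TM → Bool) : Bool :=
  k ⟨addAt (addAt cH (Int.ediv (Int.add lo hi) 8192) 0) (Int.ediv (Int.sub hi lo) 8192) (wt i), cH,
    2, Nat.add (Int.natAbs (Int.ediv (Int.add lo hi) 8192))
      (Int.natAbs (Int.ediv (Int.sub hi lo) 8192))⟩

def mulc (a : TM) (u v : ℤ) (k : TM → Bool) : Bool :=
  Int.casesOn (motive := fun _ => Bool) u
    (fun p => Int.casesOn (motive := fun _ => Bool) v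
      (fun q => mcPP a (Nat.shiftRight p 12) (Nat.shiftRight q 12)
        (Nat.shiftLeft (Nat.add a.3 a.4) 1) k)
      (fun q => mcPM a (Nat.shiftRight p 12) (Nat.shiftRight q 12)
        (Nat.shiftLeft (Nat.add a.3 a.4) 1) k))
    (fun p => Int.casesOn (motive := fun _ => Bool) v
      (fun q => mcMP a (Nat.shiftRight p 12) (Nat.shiftRight q 12)
        (Nat.shiftLeft (Nat.add a.3 a.4) 1) k)
      (fun q => mcMM a (Nat.shiftRight p 12) (Nat.shiftRight q 12)
        (Nat.shiftLeft (Nat.add a.3 a.4) 1) k))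

def smul (a : TM) (u : ℤ) (k : TM → Bool) : Bool :=
  Int.casesOn (motive := fun _ => Bool) u
    (fun p => smP a (Nat.shiftRight p 12) (Nat.add a.3 a.4) k)
    (fun p => smM a (Nat.shiftRight p 12) (Nat.add a.3 a.4) k)

/-- multiplication by the integer `n` itself (not scaled) -/
def nmul (a : TM) (n : ℤ) (k : TM → Bool) : Bool :=
  Int.casesOn (motive := fun _ => Bool) n
    (fun m => k ⟨Nat.sub (Nat.add (Nat.mul a.1 m) cH) (Nat.mul cH m),
      Nat.sub (Nat.add (Nat.mul a.2 m) cH) (Nat.mul cH m), Nat.mul a.3 m, Nat.mul a.4 m⟩)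
    (fun m => k ⟨Nat.sub (Nat.mul cH (Nat.add m 2)) (Nat.mul a.1 (Nat.succ m)),
      Nat.sub (Nat.mul cH (Nat.add m 2)) (Nat.mul a.2 (Nat.succ m)),
      Nat.mul a.3 (Nat.succ m), Nat.mul a.4 (Nat.succ m)⟩)

/-- division by the natural number `n` -/
def ndiv (a : TM) (n : ℕ) (k : TM → Bool) : Bool :=
  smP a (Nat.div 268435456 n) (Nat.add a.3 a.4) k

/-- adds the real number `u / n` -/
def addq (a : TM) (u : ℤ) (n : ℕ) (k : TM → Bool) : Bool :=
  Int.casesOn (motive := fun _ => Bool) u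
    (fun p => k ⟨Nat.add a.1 (Nat.div (Nat.shiftLeft p 28) n), a.2, Nat.succ a.3,
      Nat.add a.4 (Nat.div (Nat.shiftLeft p 28) n)⟩)
    (fun p => k ⟨Nat.sub a.1 (Nat.div (Nat.shiftLeft (Nat.succ p) 28) n), a.2, Nat.succ a.3,
      Nat.add a.4 (Nat.div (Nat.shiftLeft (Nat.succ p) 28) n)⟩)

def wid (a : TM) (e : ℤ) (k : TM → Bool) : Bool :=
  Int.casesOn (motive := fun _ => Bool) e
    (fun n => k ⟨a.1, a.2, Nat.add a.3 (Nat.succ (Nat.shiftRight n 12)), a.4⟩) (fun _ => k a)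

/-- forgets the error term and all monomials containing the last variable -/
def strip (a : TM) (k : TM → Bool) : Bool :=
  k ⟨sel0 a.1, sel0 a.2, 0, Nat.add (r0 ⟨sel0 a.1, 0, 0, 0⟩) (r0 ⟨sel0 a.2, 0, 0, 0⟩)⟩

/-- mean value over the last variable -/
def mean3 (a : TM) (k : TM → Bool) : Bool :=
  ndiv ⟨sel2 a.1, sel2 a.2, 0, a.4⟩ 3 fun c => add ⟨sel0 a.1, sel0 a.2, a.3, a.4⟩ c k

/-- upper bound of the real part (even monomials counted with their sign) -/
def hi (a : TM) (k : ℤ → Bool) : Bool :=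
  Bool.rec (motive := fun _ => Bool) false
    (k (subS (Nat.add (Nat.shiftRight (Nat.add
      (Nat.mod (Nat.shiftRight (Nat.add (wr a) (Nat.land (wr a) cMo)) 2400) 1152922604119523329)
      (Nat.add (Nat.mod (Nat.land a.1 cMe) 1152922604119523329)
        (Nat.land a.1 1152921504606846975))) 1) a.3) 6755399441055744))
    (Nat.ble a.4 2251799813685247)

def lo (a : TM) (k : ℤ → Bool) : Bool :=
  Bool.rec (motive := fun _ => Bool) false
    (k (subS (Nat.shiftRight (Nat.add (Nat.mod (Nat.land a.1 cMe) 1152922604119523329)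
        (Nat.land a.1 1152921504606846975)) 1)
      (Nat.add (Nat.add (Nat.shiftRight
        (Nat.mod (Nat.shiftRight (Nat.add (wr a) (Nat.land (wr a) cMo)) 2400) 1152922604119523329)
        1) a.3) 6755399441055744)))
    (Nat.ble a.4 2251799813685247)

/-- upper bound of the modulus -/
def ab (a : TM) (k : ℤ → Bool) : Bool :=
  Bool.rec (motive := fun _ => Bool) false
    (k (Int.ofNat (Nat.shiftLeft (Nat.add (Bool.rec (motive := fun _ => ℕ)
      (Nat.add (nwt (sq0 a) (Nat.sub (mm a) (t1 a))) (t1 a)) (r0 a) (Nat.beq a.2 cH)) a.3) 12)))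
    (Nat.ble a.4 2251799813685247)

/-- lower bound of the modulus -/
def ablo (a : TM) (k : ℤ → Bool) : Bool :=
  Bool.rec (motive := fun _ => Bool) false
    (k (Int.ofNat (Nat.shiftLeft (Nat.sub (Bool.rec (motive := fun _ => ℕ)
      (Nat.sub (Nat.div (sq0 a) (nwt (sq0 a) (Nat.sub (mm a) (t1 a)))) (t1 a))
      (Nat.sub (Nat.land (wr a) 1152921504606846975) (r1 a)) (Nat.beq a.2 cH)) a.3) 12)))
    (Nat.ble a.4 2251799813685247)

/-- the constant coefficient (no meaning attached) -/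
def cen (a : TM) (k : ℤ → ℤ → Bool) : Bool :=
  k (subS (Nat.land a.1 1152921504606846975) 2251799813685248)
    (subS (Nat.land a.2 1152921504606846975) 2251799813685248)

end TM

namespace TMI

open TM

/-- `mn`, `mp` are the products by `-y` and `y` -/
def invG (m : TM → TM → (TM → Bool) → Bool) (mn mp : TM → (TM → Bool) → Bool) (a : TM)
    (k : TM → Bool) : Bool :=
  mn a fun w => addN w 268435456 fun u =>
  Bool.rec (motive := fun _ => Bool) false
    (addN u 268435456 fun s => m s u fun s => addN s 268435456 fun s => m s u fun s =>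
      addN s 268435456 fun s => widN s (Nat.succ (Nat.div (Nat.pow (dv u) 4)
        (Nat.shiftLeft (Nat.sub 268435456 (dv u)) 56))) fun s => mp s k)
    (Nat.ble (Nat.add (dv u) (Nat.shiftRight u.4 23)) 214748364)

def invC (f g : TM → ℕ → ℕ → ℕ → (TM → Bool) → Bool) (p q : ℕ) (a : TM) (k : TM → Bool) : Bool :=
  invG mulCC (fun t => f t p q 0) (fun t => g t p q 0) a k

def invR (f g : TM → ℕ → ℕ → (TM → Bool) → Bool) (p : ℕ) (a : TM) (k : TM → Bool) : Bool :=
  invG mul (fun t => f t p 0) (fun t => g t p 0) a k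

def hornC (u : TM) (k : TM → Bool) : Bool :=
  ndiv u 24 fun s => addq s 1 6 fun s => mul s u fun s => addN s 134217728 fun s => mul s u fun s =>
  addN s 268435456 fun s => mul s u fun s => addN s 268435456 k

def hornI (u : TM) (k : TM → Bool) : Bool :=
  mni u fun v => mul v v fun w => ndiv w 24 fun s => subN s 134217728 fun s => mul s w fun s =>
  addN s 268435456 fun s => ndiv w 6 fun t => subN t 268435456 fun t => mul t v fun t =>
  mni t fun t => add s t k

def expR (u _v : ℤ) (d : ℕ) (s : TM) (k : TM → Bool) : Bool :=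
  smul s (expU u) fun s => widN s (Nat.succ (Nat.shiftRight
    (Nat.mul (Int.natAbs (Int.sub (expU u) (expD u))) (Nat.add 268435456 (Nat.mul 4 d))) 40)) k

def expI (_u v : ℤ) (d : ℕ) (s : TM) (k : TM → Bool) : Bool :=
  mulc s (cosU v) (sinU v) fun s => widN s (Nat.succ (Nat.shiftRight (Nat.mul
    (Nat.add (Int.natAbs (Int.sub (cosU v) (cosD v))) (Int.natAbs (Int.sub (sinU v) (sinD v))))
    (Nat.add 268435456 (Nat.mul 4 d))) 40)) k

def expC (u v : ℤ) (d : ℕ) (s : TM) (k : TM → Bool) : Bool :=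
  mulc s (mulD (expU u) (cosU v)) (mulD (expU u) (sinU v)) fun s =>
    widN s (Nat.succ (Nat.shiftRight (Nat.mul (Nat.add (Nat.add
      (Nat.mul 2 (Int.natAbs (Int.sub (expU u) (expD u)))) (Nat.shiftRight (Nat.mul
        (Int.natAbs (expU u)) (Nat.add (Int.natAbs (Int.sub (cosU v) (cosD v)))
          (Int.natAbs (Int.sub (sinU v) (sinD v))))) 40)) 3)
      (Nat.add 268435456 (Nat.mul 4 d))) 40)) k

def expG (f : ℤ → ℤ → ℕ → TM → (TM → Bool) → Bool) (cu cv : ℤ) (u : TM) (k : TM → Bool) : Bool :=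
  Bool.rec (motive := fun _ => Bool) false
    (Bool.rec (motive := fun _ => TM → (TM → Bool) → Bool) hornC hornI (Nat.beq u.1 cH) u fun s =>
      widN s (Nat.succ (Nat.div (Nat.pow (dv u) 5) 311537811512089657711829779753205760)) fun s =>
      f cu cv (dv u) s k)
    (Nat.ble (Nat.add (dv u) (Nat.shiftRight u.4 22)) 536870911)

end TMI

namespace TM

open TMI

def inv (a : TM) (k : TM → Bool) : Bool :=
  Bool.rec (motive := fun _ => TM → (TM → Bool) → Bool)
    (Bool.rec (motive := fun _ => ℕ → ℕ → TM → (TM → Bool) → Bool)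
      (Bool.rec (motive := fun _ => ℕ → ℕ → TM → (TM → Bool) → Bool) (invC mcPP mcMM)
        (invC mcPM mcMP) (Nat.ble (Nat.land a.2 1152921504606846975) 2251799813685248))
      (Bool.rec (motive := fun _ => ℕ → ℕ → TM → (TM → Bool) → Bool) (invC mcMP mcPM)
        (invC mcMM mcPP) (Nat.ble (Nat.land a.2 1152921504606846975) 2251799813685248))
      (Nat.ble 2251799813685248 (Nat.land a.1 1152921504606846975))
      (Nat.div (Nat.shiftLeft (cab a.1) 56)
        (Nat.add (Nat.mul (cab a.1) (cab a.1)) (Nat.mul (cab a.2) (cab a.2))))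
      (Nat.div (Nat.shiftLeft (cab a.2) 56)
        (Nat.add (Nat.mul (cab a.1) (cab a.1)) (Nat.mul (cab a.2) (cab a.2)))))
    (Bool.rec (motive := fun _ => ℕ → TM → (TM → Bool) → Bool) (invR smP smM) (invR smM smP)
      (Nat.ble 2251799813685248 (Nat.land a.1 1152921504606846975))
      (Nat.div 72057594037927936 (cab a.1)))
    (Nat.beq a.2 cH) a k

def exp (a : TM) (k : TM → Bool) : Bool :=
  expG (Bool.rec (motive := fun _ => ℤ → ℤ → ℕ → TM → (TM → Bool) → Bool)
      (Bool.rec (motive := fun _ => ℤ → ℤ → ℕ → TM → (TM → Bool) → Bool) expC expI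
        (Nat.beq (Nat.land a.1 1152921504606846975) 2251799813685248))
      expR (Nat.beq (Nat.land a.2 1152921504606846975) 2251799813685248))
    (subS (Nat.land a.1 1152921504606846975) 2251799813685248)
    (subS (Nat.land a.2 1152921504606846975) 2251799813685248) (ctr a) k

end TM

end Pool.Agent.Sok
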