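import Pool.Agent.Sok.TMM

/-! Taylor models: inverse and exponential. -/

set_option autoImplicit false

namespace Pool.Agent.Sok

namespace TMI

open TM

theorem tme_guard {b r : Bool} (h : Bool.rec (motive := fun _ => Bool) false r b = true) :
    b = true ∧ r = true := by
  cases b
  · exact absurd h Bool.false_ne_true
  · exact ⟨rfl, h⟩

theorem tme_div (a b : ℕ) (hb : 0 < b) : (a : ℝ) / b ≤ (Nat.succ (Nat.div a b) : ℕ) := by
  rw [div_le_iff₀ (by exact_mod_cast hb)]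
  have h : a < (a / b + 1) * b := by rw [mul_comm]; exact Nat.lt_mul_div_succ a hb
  exact_mod_cast h.le

theorem tme_shift (a : ℕ) : (a : ℝ) / 2 ^ 40 ≤ (Nat.succ (Nat.shiftRight a 40) : ℕ) := by
  have h := tme_div a (2 ^ 40) (by positivity)
  rw [Nat.cast_pow, Nat.cast_ofNat] at h
  rw [show Nat.shiftRight a 40 = Nat.div a (2 ^ 40) from Nat.shiftRight_eq_div_pow a 40]
  exact h

theorem tme_one : ((268435456 : ℕ) : ℂ) / 2 ^ 28 = 1 := by norm_num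
theorem tme_half : ((134217728 : ℕ) : ℂ) / 2 ^ 28 = 1 / 2 := by norm_num

theorem tme_geo {u : ℂ} {D : ℕ} (h : 2 ^ 28 * ‖u‖ ≤ D) (hD : D ≤ 214748364) : 1 - u ≠ 0 ∧
    2 ^ 28 * ‖(1 - u)⁻¹ - (((u + 1) * u + 1) * u + 1)‖ ≤
      (Nat.succ (Nat.div (Nat.pow D 4) (Nat.shiftLeft (Nat.sub 268435456 D) 56)) : ℕ) := by
  have hD' : (D : ℝ) ≤ 214748364 := by exact_mod_cast hD
  have h1 : ‖u‖ ≤ D / 2 ^ 28 := by rw [le_div_iff₀ (by positivity)]; linarith
  have h2 : 1 - D / 2 ^ 28 ≤ ‖1 - u‖ := by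
    have := norm_sub_norm_le (1 : ℂ) u
    rw [norm_one] at this
    linarith
  have h3 : (0 : ℝ) < 1 - D / 2 ^ 28 := by
    rw [sub_pos, div_lt_one (by positivity)]; linarith
  have h4 : 1 - u ≠ 0 := norm_pos_iff.1 (h3.trans_le h2)
  have h5 : ‖u‖ ^ 4 / ‖1 - u‖ ≤ (D / 2 ^ 28) ^ 4 / (1 - D / 2 ^ 28) :=
    div_le_div₀ (by positivity) (pow_le_pow_left₀ (norm_nonneg u) h1 4) h3 h2
  refine ⟨h4, ?_⟩
  have e1 : Nat.shiftLeft (Nat.sub 268435456 D) 56 = (268435456 - D) * 2 ^ 56 :=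
    Nat.shiftLeft_eq _ _
  refine le_trans ?_ (tme_div _ _ (by rw [e1]; exact Nat.mul_pos (by omega) (by positivity)))
  have e2 : (1 - u)⁻¹ - (((u + 1) * u + 1) * u + 1) = u ^ 4 / (1 - u) := by
    field_simp
    ring
  have e3 : ((Nat.pow D 4 : ℕ) : ℝ) = (D : ℝ) ^ 4 := Nat.cast_pow D 4
  rw [e1, e2, e3, norm_div, norm_pow, Nat.cast_mul, Nat.cast_sub (by omega)]
  refine (mul_le_mul_of_nonneg_left h5 (by positivity)).trans (le_of_eq ?_)
  have h6 : (268435456 : ℝ) - D ≠ 0 := ne_of_gt (by linarith)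
  have h7 : (1 : ℝ) - D / 2 ^ 28 = (268435456 - D) / 2 ^ 28 := by ring
  rw [h7, Nat.cast_pow, Nat.cast_ofNat, Nat.cast_ofNat]
  generalize (268435456 : ℝ) - D = E at h6
  field_simp

theorem tme_invG {m : TM → TM → (TM → Bool) → Bool} {mn mp : TM → (TM → Bool) → Bool} (y : ℂ)
    (hm : ∀ a b k, m a b k = true →
      ∃ c, k c = true ∧ ∀ x z w, Rep x a z → Rep x b w → Rep x c (z * w))
    (hn : ∀ a k, mn a k = true → ∃ c, k c = true ∧ ∀ x z, Rep x a z → Rep x c (-(z * y)))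
    (hp : ∀ a k, mp a k = true → ∃ c, k c = true ∧ ∀ x z, Rep x a z → Rep x c (z * y))
    {a : TM} {k : TM → Bool} (h : invG m mn mp a k = true) :
    ∃ c, k c = true ∧ ∀ x z, Rep x a z → z ≠ 0 ∧ Rep x c z⁻¹ := by
  obtain ⟨w, h, r1⟩ := hn _ _ h
  obtain ⟨u, h, r2⟩ := addN_ok h
  obtain ⟨g, h⟩ := tme_guard h
  obtain ⟨s1, h, r3⟩ := addN_ok h
  obtain ⟨s2, h, r4⟩ := hm _ _ _ h
  obtain ⟨s3, h, r5⟩ := addN_ok h
  obtain ⟨s4, h, r6⟩ := hm _ _ _ h
  obtain ⟨s5, h, r7⟩ := addN_ok h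
  obtain ⟨s6, h, r8⟩ := widN_ok h
  obtain ⟨c, h, r9⟩ := hp _ _ h
  refine ⟨c, h, fun x z hz => ?_⟩
  have g1 : dv u + u.4 >>> 23 ≤ 214748364 := Nat.le_of_ble_eq_true g
  rw [Nat.shiftRight_eq_div_pow] at g1
  rw [tme_one] at r2 r3 r5 r7
  have q2 := r2 x _ (r1 x z hz)
  obtain ⟨t1, t2⟩ := tme_geo (dv_ok (by omega) q2) (by omega)
  have q9 := r9 x _ (r8 x _ _ (r7 x _ (r6 x _ _ (r5 x _ (r4 x _ _ (r3 x _ q2) q2)) q2)) t2)
  have e : 1 - (-(z * y) + 1) = z * y := by ring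
  rw [e] at q9 t1
  have hy := right_ne_zero_of_mul t1
  rw [mul_inv, inv_mul_cancel_right₀ hy] at q9
  exact ⟨left_ne_zero_of_mul t1, q9⟩

/-- `f` multiplies by the constant `g p q`, scaled -/
def tme_Mc (f : TM → ℕ → ℕ → ℕ → (TM → Bool) → Bool) (g : ℕ → ℕ → ℂ) : Prop :=
  ∀ a p q e k, f a p q e k = true → ∃ c, k c = true ∧ ∀ x z w, Rep x a z →
    (2 ^ 28 * ‖z‖ ≤ ((a.3 + a.4 : ℕ) : ℝ) → 2 ^ 28 * ‖2 ^ 28 * w - z * g p q‖ ≤ e) → Rep x c w

theorem tme_invC {f g : TM → ℕ → ℕ → ℕ → (TM → Bool) → Bool} {F G : ℕ → ℕ → ℂ}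
    (hf : tme_Mc f F) (hg : tme_Mc g G) (e : ∀ p q, F p q = -G p q) {p q : ℕ} {a : TM}
    {k : TM → Bool} (h : invC f g p q a k = true) :
    ∃ c, k c = true ∧ ∀ x z, Rep x a z → z ≠ 0 ∧ Rep x c z⁻¹ := by
  refine tme_invG (G p q / 2 ^ 28) (fun _ _ _ => mulCC_ok) (fun a k h => ?_) (fun a k h => ?_) h
  · obtain ⟨c, h, r⟩ := hf _ _ _ _ _ h
    refine ⟨c, h, fun x z hz => r x z _ hz fun _ => ?_⟩
    rw [e, show 2 ^ 28 * -(z * (G p q / 2 ^ 28)) - z * -G p q = 0 by ring]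
    simp
  · obtain ⟨c, h, r⟩ := hg _ _ _ _ _ h
    refine ⟨c, h, fun x z hz => r x z _ hz fun _ => ?_⟩
    rw [show 2 ^ 28 * (z * (G p q / 2 ^ 28)) - z * G p q = 0 by ring]
    simp

/-- `f` multiplies by the constant `g p`, scaled -/
def tme_Sm (f : TM → ℕ → ℕ → (TM → Bool) → Bool) (g : ℕ → ℂ) : Prop :=
  ∀ a p e k, f a p e k = true → ∃ c, k c = true ∧ ∀ x z w, Rep x a z →
    (2 ^ 28 * ‖z‖ ≤ ((a.3 + a.4 : ℕ) : ℝ) → 2 ^ 28 * ‖2 ^ 28 * w - z * g p‖ ≤ e) → Rep x c w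

theorem tme_invR {f g : TM → ℕ → ℕ → (TM → Bool) → Bool} {F G : ℕ → ℂ}
    (hf : tme_Sm f F) (hg : tme_Sm g G) (e : ∀ p, F p = -G p) {p : ℕ} {a : TM}
    {k : TM → Bool} (h : invR f g p a k = true) :
    ∃ c, k c = true ∧ ∀ x z, Rep x a z → z ≠ 0 ∧ Rep x c z⁻¹ := by
  refine tme_invG (G p / 2 ^ 28) (fun _ _ _ => mul_ok) (fun a k h => ?_) (fun a k h => ?_) h
  · obtain ⟨c, h, r⟩ := hf _ _ _ _ h
    refine ⟨c, h, fun x z hz => r x z _ hz fun _ => ?_⟩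
    rw [e, show 2 ^ 28 * -(z * (G p / 2 ^ 28)) - z * -G p = 0 by ring]
    simp
  · obtain ⟨c, h, r⟩ := hg _ _ _ _ h
    refine ⟨c, h, fun x z hz => r x z _ hz fun _ => ?_⟩
    rw [show 2 ^ 28 * (z * (G p / 2 ^ 28)) - z * G p = 0 by ring]
    simp

theorem tme_PP : tme_Mc mcPP fun p q => p + q * Complex.I := fun _ _ _ _ _ => mcPP_ok
theorem tme_PM : tme_Mc mcPM fun p q => p - q * Complex.I := fun _ _ _ _ _ => mcPM_ok
theorem tme_MP : tme_Mc mcMP fun p q => -p + q * Complex.I := fun _ _ _ _ _ => mcMP_ok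
theorem tme_MM : tme_Mc mcMM fun p q => -p - q * Complex.I := fun _ _ _ _ _ => mcMM_ok
theorem tme_P : tme_Sm smP fun p => p := fun _ _ _ _ => smP_ok
theorem tme_M : tme_Sm smM fun p => -p := fun _ _ _ _ => smM_ok

/-- the Taylor polynomial of degree four -/
noncomputable def tme_T (u : ℂ) : ℂ := 1 + u + u ^ 2 / 2 + u ^ 3 / 6 + u ^ 4 / 24

theorem tme_hornC {u : TM} {k : TM → Bool} (h : hornC u k = true) :
    ∃ c, k c = true ∧ ∀ x z, Rep x u z → Rep x c (tme_T z) := by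
  obtain ⟨s1, h, r1⟩ := ndiv_ok h
  obtain ⟨s2, h, r2⟩ := addq_ok h
  obtain ⟨s3, h, r3⟩ := mul_ok h
  obtain ⟨s4, h, r4⟩ := addN_ok h
  obtain ⟨s5, h, r5⟩ := mul_ok h
  obtain ⟨s6, h, r6⟩ := addN_ok h
  obtain ⟨s7, h, r7⟩ := mul_ok h
  obtain ⟨c, h, r8⟩ := addN_ok h
  rw [tme_half] at r4
  rw [tme_one] at r6 r8
  refine ⟨c, h, fun x z hz => ?_⟩
  have q := r8 x _ (r7 x _ _ (r6 x _ (r5 x _ _ (r4 x _ (r3 x _ _ (r2 x _ (r1 x z hz)) hz)) hz)) hz)
  refine (congrArg (Rep x c) ?_).mp q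
  rw [tme_T]
  push_cast
  ring

theorem tme_hornI {u : TM} {k : TM → Bool} (h : hornI u k = true) :
    ∃ c, k c = true ∧ ∀ x z, Rep x u z → Rep x c (tme_T z) := by
  obtain ⟨v, h, r1⟩ := mni_ok h
  obtain ⟨w, h, r2⟩ := mul_ok h
  obtain ⟨s3, h, r3⟩ := ndiv_ok h
  obtain ⟨s4, h, r4⟩ := subN_ok h
  obtain ⟨s5, h, r5⟩ := mul_ok h
  obtain ⟨s6, h, r6⟩ := addN_ok h
  obtain ⟨t1, h, r7⟩ := ndiv_ok h
  obtain ⟨t2, h, r8⟩ := subN_ok h
  obtain ⟨t3, h, r9⟩ := mul_ok h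
  obtain ⟨t4, h, r10⟩ := mni_ok h
  obtain ⟨c, h, r11⟩ := add_ok h
  rw [tme_half] at r4
  rw [tme_one] at r6 r8
  refine ⟨c, h, fun x z hz => ?_⟩
  have q1 := r1 x z hz
  have q2 := r2 x _ _ q1 q1
  have e1 : -Complex.I * z * (-Complex.I * z) = -z ^ 2 := by
    linear_combination z ^ 2 * Complex.I_mul_I
  rw [e1] at q2
  have q := r11 x _ _ (r6 x _ (r5 x _ _ (r4 x _ (r3 x _ q2)) q2))
    (r10 x _ (r9 x _ _ (r8 x _ (r7 x _ q2)) q1))
  refine (congrArg (Rep x c) ?_).mp q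
  rw [tme_T]
  push_cast
  linear_combination (-z ^ 2 / 6 - 1) * z * Complex.I_mul_I

theorem tme_exp {u : ℂ} {D : ℕ} (h : 2 ^ 28 * ‖u‖ ≤ D) (hD : D ≤ 536870911) :
    2 ^ 28 * ‖Complex.exp u - tme_T u‖ ≤
      (Nat.succ (Nat.div (Nat.pow D 5) 311537811512089657711829779753205760) : ℕ) ∧
    2 ^ 28 * ‖Complex.exp u‖ ≤ 268435456 + 4 * D := by
  have hD' : (D : ℝ) ≤ 536870911 := by exact_mod_cast hD
  have h1 : ‖u‖ ≤ D / 2 ^ 28 := by rw [le_div_iff₀ (by positivity)]; linarith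
  have h2 : ‖u‖ ≤ 2 := by linarith
  have h0 := norm_nonneg u
  constructor
  · refine le_trans ?_ (tme_div _ _ (by norm_num))
    have h3 := Complex.exp_bound' (x := u) (n := 5) (by push_cast; linarith)
    have e : ∑ m ∈ Finset.range 5, u ^ m / (m.factorial : ℂ) = tme_T u := by
      simp only [Finset.sum_range_succ, Finset.sum_range_zero, tme_T, Nat.factorial]
      push_cast
      ring
    have e3 : ((Nat.pow D 5 : ℕ) : ℝ) = (D : ℝ) ^ 5 := Nat.cast_pow D 5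
    have h4 : ‖u‖ ^ 5 ≤ (D / 2 ^ 28) ^ 5 := by gcongr
    rw [e, show ((Nat.factorial 5 : ℕ) : ℝ) = 120 by norm_num [Nat.factorial]] at h3
    rw [div_pow] at h4
    rw [e3]
    push_cast
    linarith
  · have h3 := Real.abs_exp_sub_one_sub_id_le (x := ‖u‖ / 2) (by rw [abs_le]; constructor <;> linarith)
    have h4 : Real.exp ‖u‖ = Real.exp (‖u‖ / 2) ^ 2 := by rw [← Real.exp_nat_mul]; congr 1; push_cast; ring
    have h5 := Complex.norm_exp_le_exp_norm u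
    generalize ‖u‖ = t at *
    have h6 : Real.exp (t / 2) ≤ 1 + t / 2 + (t / 2) ^ 2 := by linarith [(abs_le.1 h3).2]
    have h7 : Real.exp (t / 2) ^ 2 ≤ (1 + t / 2 + (t / 2) ^ 2) ^ 2 := by gcongr
    have h8 : t ^ 2 ≤ 2 * t := by nlinarith
    have h9 : t ^ 3 ≤ 4 * t := by nlinarith
    have h10 : t ^ 4 ≤ 8 * t := by nlinarith
    nlinarith

/-- the last step multiplies by `exp (toC u v)` -/
def tme_Ex (f : ℤ → ℤ → ℕ → TM → (TM → Bool) → Bool) (u v : ℤ) : Prop :=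
  ∀ d s k, f u v d s k = true → ∃ c, k c = true ∧ ∀ x E, Rep x s E →
    2 ^ 28 * ‖E‖ ≤ 268435456 + 4 * (d : ℝ) → Rep x c (E * Complex.exp (toC u v))

theorem tme_wid {E A B : ℂ} {d n : ℕ} (hE : 2 ^ 28 * ‖E‖ ≤ 268435456 + 4 * (d : ℝ))
    (h : 2 ^ 40 * ‖A - B‖ ≤ n) : 2 ^ 28 * ‖E * A - E * B‖ ≤
      (Nat.succ (Nat.shiftRight (Nat.mul n (Nat.add 268435456 (Nat.mul 4 d))) 40) : ℕ) := by
  refine le_trans ?_ (tme_shift _)
  have e : ((Nat.mul n (Nat.add 268435456 (Nat.mul 4 d)) : ℕ) : ℝ) = n * (268435456 + 4 * d) := by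
    show ((n * (268435456 + 4 * d) : ℕ) : ℝ) = _
    push_cast
    rfl
  rw [e, ← mul_sub, norm_mul, le_div_iff₀ (by positivity)]
  have := mul_le_mul h hE (by positivity) (by positivity)
  linarith

theorem tme_gap {a b : ℤ} {t : ℝ} (h1 : t ≤ toR a) (h2 : toR b ≤ t) :
    2 ^ 40 * |t - toR a| ≤ (Int.natAbs (Int.sub a b) : ℕ) := by
  have e : ((Int.natAbs (Int.sub a b) : ℕ) : ℝ) = |(a : ℝ) - b| := by
    rw [Nat.cast_natAbs]
    show ((|a - b| : ℤ) : ℝ) = _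
    push_cast
    rfl
  rw [e, abs_of_nonpos (by linarith)]
  refine le_trans ?_ (le_abs_self _)
  unfold toR at *
  linarith

theorem tme_mulD (a b : ℤ) : 2 ^ 40 * |toR a * toR b - toR (mulD a b)| ≤ 1 := by
  have h1 := mulD_ok a b
  rw [abs_of_nonneg (by linarith)]
  have h2 : a * b < (a * b / 1099511627776 + 1) * 1099511627776 :=
    Int.lt_ediv_add_one_mul_self _ (by norm_num)
  have h3 : mulD a b = a * b / 1099511627776 := mulD_eq a b
  rw [← h3] at h2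
  have h4 : (a : ℝ) * b < (mulD a b + 1) * 1099511627776 := by exact_mod_cast h2
  unfold toR
  linarith

theorem tme_expR (u : ℤ) : tme_Ex expR u 0 := by
  intro d s k h
  obtain ⟨s1, h, r1⟩ := smul_ok h
  obtain ⟨c, h, r2⟩ := widN_ok h
  refine ⟨c, h, fun x E hs hE => r2 x _ _ (r1 x E hs) (tme_wid hE ?_)⟩
  have e : toC u 0 = (toR u : ℝ) := by
    apply Complex.ext <;> simp [toC, toR_zero]
  rw [e, ← Complex.ofReal_exp, ← Complex.ofReal_sub, Complex.norm_real, Real.norm_eq_abs]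
  exact tme_gap (expU_ok u) (expD_ok u)

theorem tme_expI (v : ℤ) : tme_Ex expI 0 v := by
  intro d s k h
  obtain ⟨s1, h, r1⟩ := mulc_ok h
  obtain ⟨c, h, r2⟩ := widN_ok h
  refine ⟨c, h, fun x E hs hE => r2 x _ _ (r1 x E hs) (tme_wid hE ?_)⟩
  have h1 := Complex.norm_le_abs_re_add_abs_im (Complex.exp (toC 0 v) - toC (cosU v) (sinU v))
  simp only [Complex.sub_re, Complex.sub_im, Complex.exp_re, Complex.exp_im, toC, toR_zero,
    Real.exp_zero, one_mul] at h1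
  have h2 := tme_gap (cosU_ok v) (cosD_ok v)
  have h3 := tme_gap (sinU_ok v) (sinD_ok v)
  rw [Nat.add_eq, Nat.cast_add]
  simp only [toC, toR_zero]
  linarith

theorem tme_expC (u v : ℤ) : tme_Ex expC u v := by
  intro d s k h
  obtain ⟨s1, h, r1⟩ := mulc_ok h
  obtain ⟨c, h, r2⟩ := widN_ok h
  refine ⟨c, h, fun x E hs hE => r2 x _ _ (r1 x E hs) (tme_wid hE ?_)⟩
  have h1 := Complex.norm_le_abs_re_add_abs_im
    (Complex.exp (toC u v) - toC (mulD (expU u) (cosU v)) (mulD (expU u) (sinU v)))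
  simp only [Complex.sub_re, Complex.sub_im, Complex.exp_re, Complex.exp_im, toC] at h1
  have h2 := tme_gap (cosU_ok v) (cosD_ok v)
  have h3 := tme_gap (sinU_ok v) (sinD_ok v)
  have h4 := tme_gap (expU_ok u) (expD_ok u)
  have h5 := tme_mulD (expU u) (cosU v)
  have h6 := tme_mulD (expU u) (sinU v)
  have key : ∀ e U t T A : ℝ, |t| ≤ 1 → |e * t - A| ≤ |e - U| + |U| * |t - T| + |U * T - A| := by
    intro e U t T A ht
    have a1 : |(e - U) * t| ≤ |e - U| := by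
      rw [abs_mul]; exact mul_le_of_le_one_right (abs_nonneg _) ht
    have a2 := abs_add_three ((e - U) * t) (U * (t - T)) (U * T - A)
    rw [show (e - U) * t + U * (t - T) + (U * T - A) = e * t - A by ring, abs_mul U] at a2
    linarith
  have k1 := key (Real.exp (toR u)) (toR (expU u)) _ (toR (cosU v)) (toR (mulD (expU u) (cosU v)))
    (Real.abs_cos_le_one (toR v))
  have k2 := key (Real.exp (toR u)) (toR (expU u)) _ (toR (sinU v)) (toR (mulD (expU u) (sinU v)))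
    (Real.abs_sin_le_one (toR v))
  have h7 : |toR (expU u)| = (Int.natAbs (expU u) : ℕ) / 2 ^ 40 := by
    rw [Nat.cast_natAbs, toR, abs_div]
    push_cast
    norm_num
  generalize Int.natAbs (Int.sub (cosU v) (cosD v)) = n1 at *
  generalize Int.natAbs (Int.sub (sinU v) (sinD v)) = n2 at *
  generalize Int.natAbs (Int.sub (expU u) (expD u)) = n3 at *
  generalize Int.natAbs (expU u) = n4 at *
  have h8 := tme_shift (Nat.mul n4 (Nat.add n1 n2))
  generalize Nat.shiftRight (Nat.mul n4 (Nat.add n1 n2)) 40 = n5 at *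
  simp only [Nat.add_eq, Nat.mul_eq, Nat.succ_eq_add_one] at h8 ⊢
  push_cast at h8 ⊢
  have h9 := mul_le_mul_of_nonneg_left (add_le_add h2 h3) (abs_nonneg (toR (expU u)))
  have h10 : |toR (expU u)| * ((n1 : ℝ) + n2) = n4 * (n1 + n2) / 2 ^ 40 := by rw [h7]; ring
  simp only [toC]
  linarith

theorem tme_expG {f : ℤ → ℤ → ℕ → TM → (TM → Bool) → Bool} {cu cv : ℤ} (hf : tme_Ex f cu cv)
    {u : TM} {k : TM → Bool} (h : expG f cu cv u k = true) :
    ∃ c, k c = true ∧ ∀ x z, Rep x u z → Rep x c (Complex.exp (z + toC cu cv)) := by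
  obtain ⟨g, h⟩ := tme_guard h
  have g1 : dv u + u.4 >>> 22 ≤ 536870911 := Nat.le_of_ble_eq_true g
  rw [Nat.shiftRight_eq_div_pow] at g1
  have key : ∀ (b : Bool) (K : TM → Bool),
      Bool.rec (motive := fun _ => TM → (TM → Bool) → Bool) hornC hornI b u K = true →
      ∃ c, K c = true ∧ ∀ x z, Rep x u z → Rep x c (tme_T z) := by
    intro b K hb
    cases b
    · exact tme_hornC hb
    · exact tme_hornI hb
  obtain ⟨s1, h, r1⟩ := key _ _ h
  obtain ⟨s2, h, r2⟩ := widN_ok h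
  obtain ⟨c, h, r3⟩ := hf _ _ _ h
  refine ⟨c, h, fun x z hz => ?_⟩
  obtain ⟨t1, t2⟩ := tme_exp (dv_ok (by omega) hz) (by omega)
  rw [Complex.exp_add]
  exact r3 x _ (r2 x _ _ (r1 x z hz) t1) t2

end TMI

namespace TM

open TMI

variable {a : TM} {k : TM → Bool}

/-- With `u = 1 - z y` and `‖u‖ ≤ d < 1`: `z⁻¹ = y (1 + u + u² + u³ + u⁴ / (1 - u))`.
Prove a lemma for `invG` with hypotheses on `m`, `mn`, `mp` (any complex `y`). -/
theorem inv_ok (h : inv a k = true) :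
    ∃ c, k c = true ∧ ∀ x z, Rep x a z → z ≠ 0 ∧ Rep x c z⁻¹ := by
  unfold inv at h
  generalize Nat.beq a.2 cH = b0 at h
  generalize Nat.ble (Nat.land a.2 1152921504606846975) 2251799813685248 = b1 at h
  generalize Nat.ble 2251799813685248 (Nat.land a.1 1152921504606846975) = b2 at h
  generalize cab a.1 = p at h
  generalize cab a.2 = q at h
  cases b0
  · cases b1 <;> cases b2
    · exact tme_invC tme_PP tme_MM (fun p q => by ring) h
    · exact tme_invC tme_MP tme_PM (fun p q => by ring) h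
    · exact tme_invC tme_PM tme_MP (fun p q => by ring) h
    · exact tme_invC tme_MM tme_PP (fun p q => by ring) h
  · cases b2
    · exact tme_invR tme_P tme_M (fun p => by ring) h
    · exact tme_invR tme_M tme_P (fun p => by ring) h

/-- `exp z = exp (z - c) * exp c`; `Complex.exp_bound'` with `n = 5`; `‖exp w‖ ≤ 1 + 4 ‖w‖` for
`‖w‖ ≤ 2`; the enclosures `expU_ok` .. `sinD_ok` of `Num`. -/
theorem exp_ok (h : exp a k = true) :
    ∃ c, k c = true ∧ ∀ x z, Rep x a z → Rep x c (Complex.exp z) := by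
  have key : ∀ p q n : ℕ, tme_Ex
      (Bool.rec (motive := fun _ => ℤ → ℤ → ℕ → TM → (TM → Bool) → Bool)
        (Bool.rec (motive := fun _ => ℤ → ℤ → ℕ → TM → (TM → Bool) → Bool) expC expI (Nat.beq p n))
        expR (Nat.beq q n)) (subS p n) (subS q n) := by
    intro p q n
    cases hq : Nat.beq q n
    · cases hp : Nat.beq p n
      · exact tme_expC _ _
      · rw [Nat.eq_of_beq_eq_true hp, subS_eq n n, sub_self, zero_mul]
        exact tme_expI _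
    · rw [Nat.eq_of_beq_eq_true hq, subS_eq n n, sub_self, zero_mul]
      exact tme_expR _
  obtain ⟨c, h, r⟩ := tme_expG (key _ _ _) h
  refine ⟨c, h, fun x z hz => ?_⟩
  have := r x _ (ctr_ok hz)
  rwa [sub_add_cancel] at this

end TM

end Pool.Agent.Sok
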