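import Pool.Agent.Sok.TMS

/-! Taylor models: the polynomials behind the packed numbers. -/

set_option autoImplicit false

namespace Pool.Agent.Sok.TMI

open Finset

variable {c d : ℕ → ℤ} (x : Pt)

theorem tmpa_gd0 : gd 0 = true := by decide +kernel

theorem tmpa_sp (h : Sp c) (n : ℕ) : c n = 0 ∨ n = 0 ∨ 30 ≤ n := by
  have : ∀ n < 130, gd n = true → n = 0 ∨ 30 ≤ n := by decide +kernel
  cases hg : gd n
  exacts [.inl (h n hg), .inr (this n (gd_lt hg) hg)]

theorem tmpa_g0 : ∀ n < 130, (g0 n = true → code n / 64 = 0) ∧ (g2 n = true → code n / 64 = 0) ∧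
    (gd n = true → code n / 64 = 0 → g0 n = true) := by decide +kernel

theorem tmpa_g2 : ∀ n < 86, g2 (44 + n) = false := by decide +kernel

theorem tmpa_lo : ∀ n < 86, gd n = true → code n / 64 ≠ 2 := by decide +kernel

theorem tmpa_up : ∀ n < 44, (g2 n = true → code n / 64 = 0 ∧ code (86 + n) / 64 = 2 ∧
    code (86 + n) % 4 = code n % 4 ∧ code (86 + n) / 4 % 4 = code n / 4 % 4 ∧
    code (86 + n) / 16 % 4 = code n / 16 % 4) ∧
    (g2 n = false → gd (86 + n) = true → code (86 + n) / 64 ≠ 2) := by decide +kernel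

theorem tmpa_sq {n : ℕ} (hn : n < 130) (h : ge n = true) : 0 ≤ mon x n := by
  have : ∀ n < 130, ge n = true → Even (code n % 4) ∧ Even (code n / 4 % 4) ∧
    Even (code n / 16 % 4) ∧ Even (code n / 64) := by decide +kernel
  obtain ⟨a, b, c, d⟩ := this n hn h
  exact mul_nonneg (mul_nonneg (mul_nonneg (a.pow_nonneg _) (b.pow_nonneg _)) (c.pow_nonneg _))
    (d.pow_nonneg _)

theorem tmpa_fun (h : ∀ n < 130, c n ≠ 0 → code n / 64 = 0) :
    ∃ f : ℝ → ℝ → ℝ → ℝ, ∀ x : Pt, ev x c = f x.x0 x.x1 x.x2 :=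
  ⟨fun u v w => ∑ n ∈ range 130,
    c n * (u ^ (code n % 4) * v ^ (code n / 4 % 4) * w ^ (code n / 16 % 4)),
    fun x => sum_congr rfl fun n hn => by
      by_cases h0 : c n = 0
      · rw [h0, Int.cast_zero, zero_mul, zero_mul]
      · rw [mon, h n (mem_range.1 hn) h0, pow_zero, mul_one]⟩

theorem abs_mon_le (n : ℕ) : |mon x n| ≤ 1 := by
  simp only [mon, abs_mul, abs_pow]
  exact mul_le_one₀ (mul_le_one₀ (mul_le_one₀ (pow_le_one₀ (abs_nonneg _) x.h0) (by positivity)
    (pow_le_one₀ (abs_nonneg _) x.h1)) (by positivity) (pow_le_one₀ (abs_nonneg _) x.h2))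
    (by positivity) (pow_le_one₀ (abs_nonneg _) x.h3)

theorem tmpa_term (a : ℤ) (n : ℕ) : |a * mon x n| ≤ (|a| : ℤ) := by
  rw [abs_mul, Int.cast_abs]
  exact mul_le_of_le_one_right (abs_nonneg _) (abs_mon_le x n)

theorem mon_zero : mon x 0 = 1 := by
  rw [mon, show code 0 = 0 by decide +kernel]
  simp

theorem mon_var (i : ℕ) : ∃ j, wt i = 80 * j ∧ gd j = true ∧ j ≠ 0 ∧ mon x j = x.get i := by
  rcases i with _ | _ | _ | i
  · refine ⟨30, rfl, by decide +kernel, by decide, ?_⟩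
    rw [mon, show code 30 = 1 by decide +kernel]
    simp [Pt.get]
  · refine ⟨35, rfl, by decide +kernel, by decide, ?_⟩
    rw [mon, show code 35 = 4 by decide +kernel]
    simp [Pt.get]
  · refine ⟨37, rfl, by decide +kernel, by decide, ?_⟩
    rw [mon, show code 37 = 16 by decide +kernel]
    simp [Pt.get]
  · refine ⟨43, rfl, by decide +kernel, by decide, ?_⟩
    rw [mon, show code 43 = 64 by decide +kernel]
    simp [Pt.get]

theorem ev_add (c d : ℕ → ℤ) : ev x (fun n => c n + d n) = ev x c + ev x d := by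
  simp only [ev, Int.cast_add, add_mul, sum_add_distrib]
theorem ev_sub (c d : ℕ → ℤ) : ev x (fun n => c n - d n) = ev x c - ev x d := by
  simp only [ev, Int.cast_sub, sub_mul, sum_sub_distrib]
theorem ev_neg (c : ℕ → ℤ) : ev x (fun n => -c n) = -ev x c := by
  simp only [ev, Int.cast_neg, neg_mul, sum_neg_distrib]
theorem ev_mul (c : ℕ → ℤ) (t : ℤ) : ev x (fun n => c n * t) = ev x c * t := by
  simp only [ev, Int.cast_mul, sum_mul, mul_right_comm]
theorem ev_zero : ev x (fun _ => 0) = 0 := by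
  simp only [ev, Int.cast_zero, zero_mul, sum_const_zero]
theorem ev_sgl {j : ℕ} (hj : gd j = true) (v : ℤ) : ev x (sgl j v) = v * mon x j := by
  rw [ev, sum_eq_single_of_mem j (mem_range.2 (gd_lt hj)) fun n _ hn => by
    rw [sgl, if_neg hn, Int.cast_zero, zero_mul], sgl, if_pos rfl]
theorem pv_add (c d : ℕ → ℤ) : pv (fun n => c n + d n) = pv c + pv d := by
  simp only [pv, add_mul, sum_add_distrib]
theorem pv_sub (c d : ℕ → ℤ) : pv (fun n => c n - d n) = pv c - pv d := by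
  simp only [pv, sub_mul, sum_sub_distrib]
theorem pv_neg (c : ℕ → ℤ) : pv (fun n => -c n) = -pv c := by
  simp only [pv, neg_mul, sum_neg_distrib]
theorem pv_mul (c : ℕ → ℤ) (t : ℤ) : pv (fun n => c n * t) = pv c * t := by
  rw [pv, pv, sum_mul]
  exact sum_congr rfl fun n _ => mul_right_comm _ _ _
theorem pv_zero : pv (fun _ => 0) = 0 := by
  simp only [pv, zero_mul, sum_const_zero]
theorem pv_sgl {j : ℕ} (hj : gd j = true) (v : ℤ) : pv (sgl j v) = v * (2 ^ 80) ^ j := by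
  rw [pv, sum_eq_single_of_mem j (mem_range.2 (gd_lt hj)) fun n _ hn => by
    rw [sgl, if_neg hn, zero_mul], sgl, if_pos rfl]
theorem l1_add (c d : ℕ → ℤ) : l1 (fun n => c n + d n) ≤ l1 c + l1 d := by
  rw [l1, l1, l1, ← sum_add_distrib]
  exact sum_le_sum fun n _ => abs_add_le _ _
theorem l1_sub (c d : ℕ → ℤ) : l1 (fun n => c n - d n) ≤ l1 c + l1 d := by
  rw [l1, l1, l1, ← sum_add_distrib]
  exact sum_le_sum fun n _ => abs_sub _ _
theorem l1_neg (c : ℕ → ℤ) : l1 (fun n => -c n) = l1 c := by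
  simp only [l1, abs_neg]
theorem l1_mul (c : ℕ → ℤ) (t : ℤ) : l1 (fun n => c n * t) = l1 c * |t| := by
  simp only [l1, abs_mul, sum_mul]
theorem l1_zero : l1 (fun _ => 0) = 0 := by
  simp only [l1, abs_zero, sum_const_zero]
theorem l1_sgl {j : ℕ} (hj : gd j = true) (v : ℤ) : l1 (sgl j v) = |v| := by
  rw [l1, sum_eq_single_of_mem j (mem_range.2 (gd_lt hj)) fun n _ hn => by
    rw [sgl, if_neg hn, abs_zero], sgl, if_pos rfl]
theorem sp_sgl {j : ℕ} (hj : gd j = true) (v : ℤ) : Sp (sgl j v) := fun n hn =>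
  if_neg fun e => by rw [e, hj] at hn; exact absurd hn (by decide)
theorem abs_ev_le (c : ℕ → ℤ) : |ev x c| ≤ l1 c := by
  rw [ev, l1, Int.cast_sum]
  exact (abs_sum_le_sum_abs _ _).trans (sum_le_sum fun n _ => tmpa_term x _ n)
theorem G_nonneg (lo hi : ℕ) (c : ℕ → ℤ) : 0 ≤ G lo hi c := 
  sum_nonneg fun n _ => by split_ifs; exacts [abs_nonneg _, le_rfl]
theorem G_zero (lo hi : ℕ) : G lo hi (fun _ => 0) = 0 := by
  simp only [G, abs_zero, ite_self, sum_const_zero]
theorem res_eq (h : Sp c) : res c = c := funext fun n => by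
  rw [res]
  cases hg : gd n
  · rw [h n hg]; rfl
  · rfl

theorem tmpa_ctr (c : ℕ → ℤ) : l1 (fun n => c n - sgl 0 (c 0) n) = l1 c - |c 0| := by
  rw [← l1_sgl tmpa_gd0, l1, l1, l1, ← sum_sub_distrib]
  refine sum_congr rfl fun n _ => ?_
  rw [sgl]
  split_ifs with h
  · simp [h]
  · simp

theorem l1_split (h : Sp c) : l1 c = |c 0| + G 30 60 c + G 60 90 c + G 90 130 c := by
  rw [← l1_sgl tmpa_gd0, l1, l1, G, G, G, ← sum_add_distrib, ← sum_add_distrib, ← sum_add_distrib]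
  refine sum_congr rfl fun n hn => ?_
  have := mem_range.1 hn
  rw [sgl]
  rcases tmpa_sp h n with h0 | h0 | h0
  · rw [h0]
    split_ifs with h1
    all_goals first | omega | simp [← h1, h0] | simp
  · subst h0
    simp
  · split_ifs <;> first | omega | simp

theorem ev_sub_zero (h : Sp c) :
    |ev x c - c 0| ≤ ((G 30 60 c + G 60 90 c + G 90 130 c : ℤ) : ℝ) := by
  have h1 := abs_ev_le x fun n => c n - sgl 0 (c 0) n
  rw [ev_sub, ev_sgl x tmpa_gd0, mon_zero, mul_one, tmpa_ctr, l1_split h] at h1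
  refine h1.trans_eq ?_
  congr 1
  ring

/-- removing the constant coefficient -/
theorem l1_ctr (c : ℕ → ℤ) : l1 (fun n => c n - sgl 0 (c 0) n) ≤ l1 c := by
  rw [tmpa_ctr]
  exact sub_le_self _ (abs_nonneg _)

theorem tmpb_sum {R : Type} [CommRing R] (c d : ℕ → ℤ) (f : ℕ → R) :
    ∑ n ∈ range 130, (conv c d n : R) * f n = ∑ i ∈ range 130, ∑ j ∈ range 130,
      if i + j < 130 then (c i : R) * d j * f (i + j) else 0 := by
  simp only [conv, Int.cast_sum, sum_mul]
  rw [sum_comm]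
  refine sum_congr rfl fun i _ => ?_
  rw [sum_comm]
  refine sum_congr rfl fun j _ => ?_
  simp only [Int.cast_ite, Int.cast_mul, Int.cast_zero, ite_mul, zero_mul, sum_ite_eq, mem_range]

theorem tmpb_pv (c d : ℕ → ℤ) (B : ℤ) :
    (∑ n ∈ range 130, c n * B ^ n) * (∑ n ∈ range 130, d n * B ^ n) ≡
      ∑ n ∈ range 130, conv c d n * B ^ n [ZMOD B ^ 130] := by
  have h := tmpb_sum c d (fun n => B ^ n)
  simp only [Int.cast_id] at h
  rw [h, sum_mul_sum]
  refine (Int.modEq_iff_dvd.2 ?_).symm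
  rw [← sum_sub_distrib]
  refine dvd_sum fun i _ => ?_
  rw [← sum_sub_distrib]
  refine dvd_sum fun j _ => ?_
  have e : c i * B ^ i * (d j * B ^ j) = c i * d j * B ^ (i + j) := by ring
  rw [e]
  split_ifs with hij
  · rw [sub_self]
    exact dvd_zero _
  · rw [sub_zero]
    exact Dvd.dvd.mul_left (pow_dvd_pow B (not_lt.1 hij)) _

theorem pv_conv (c d : ℕ → ℤ) : pv c * pv d ≡ pv (conv c d) [ZMOD (2 ^ 80) ^ 130] :=
  tmpb_pv c d (2 ^ 80)

theorem tmpb_abs (c d : ℕ → ℤ) (n : ℕ) :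
    |conv c d n| ≤ conv (fun i => |c i|) (fun j => |d j|) n := by
  refine (abs_sum_le_sum_abs _ _).trans (sum_le_sum fun i _ => ?_)
  refine (abs_sum_le_sum_abs _ _).trans (sum_le_sum fun j _ => ?_)
  split_ifs
  · rw [abs_mul]
  · rw [abs_zero]

theorem abs_conv_le (c d : ℕ → ℤ) (n : ℕ) : |conv c d n| ≤ l1 c * l1 d := by
  refine (tmpb_abs c d n).trans ?_
  rw [l1, l1, sum_mul_sum]
  refine sum_le_sum fun i _ => sum_le_sum fun j _ => ?_
  split_ifs
  · exact le_rfl
  · positivity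

theorem l1_conv (c d : ℕ → ℤ) : l1 (conv c d) ≤ l1 c * l1 d := by
  refine (sum_le_sum fun n _ => tmpb_abs c d n).trans ?_
  have h := tmpb_sum (fun i => |c i|) (fun j => |d j|) (fun _ => (1 : ℤ))
  simp only [Int.cast_id, mul_one] at h
  rw [h, l1, l1, sum_mul_sum]
  refine sum_le_sum fun i _ => sum_le_sum fun j _ => ?_
  split_ifs
  · exact le_rfl
  · positivity

theorem l1_res (p : ℕ → ℤ) : l1 (res p) ≤ l1 p := by
  refine sum_le_sum fun n _ => ?_
  rw [res]
  split_ifs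
  · exact le_rfl
  · rw [abs_zero]
    exact abs_nonneg _

/-- the exponents add, or the degree is at least four -/
def tmpbOk (i j : ℕ) : Prop :=
  if gd (i + j) = true then
    code (i + j) % 4 = code i % 4 + code j % 4 ∧
    code (i + j) / 4 % 4 = code i / 4 % 4 + code j / 4 % 4 ∧
    code (i + j) / 16 % 4 = code i / 16 % 4 + code j / 16 % 4 ∧
    code (i + j) / 64 = code i / 64 + code j / 64
  else 4 ≤ min (i / 30) 3 + min (j / 30) 3

instance tmpb_dec (i j : ℕ) : Decidable (tmpbOk i j) := by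
  unfold tmpbOk
  infer_instance

theorem tmpb_code : ∀ i < 130, gd i = true → ∀ j < 130, gd j = true → tmpbOk i j := by
  decide +kernel

theorem tmpb_term (hc : Sp c) (hd : Sp d) {i j : ℕ} (hi : i < 130) (hj : j < 130) :
    |c i * mon x i * (d j * mon x j) - if i + j < 130 then
      (c i : ℝ) * d j * (if gd (i + j) then mon x (i + j) else 0) else 0| ≤
      if 4 ≤ min (i / 30) 3 + min (j / 30) 3 then ((|c i| * |d j| : ℤ) : ℝ) else 0 := by
  have h0 : (0 : ℝ) ≤ if 4 ≤ min (i / 30) 3 + min (j / 30) 3 then ((|c i| * |d j| : ℤ) : ℝ)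
      else 0 := by
    split_ifs
    · positivity
    · exact le_rfl
  cases gi : gd i
  · simp only [hc i gi, Int.cast_zero, zero_mul, ite_self, sub_zero, abs_zero, le_refl]
  cases gj : gd j
  · simp only [hd j gj, Int.cast_zero, zero_mul, mul_zero, ite_self, sub_zero, abs_zero, le_refl]
  have h := tmpb_code i hi gi j hj gj
  unfold tmpbOk at h
  by_cases hg : gd (i + j) = true
  · rw [if_pos hg] at h
    have e : mon x (i + j) = mon x i * mon x j := by
      simp only [mon, h.1, h.2.1, h.2.2.1, h.2.2.2, pow_add]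
      ring
    rw [if_pos (gd_lt hg), if_pos hg, e]
    have z : c i * mon x i * (d j * mon x j) - (c i : ℝ) * d j * (mon x i * mon x j) = 0 := by ring
    rw [z, abs_zero]
    exact h0
  · rw [if_neg hg] at h
    rw [if_neg hg, if_pos h, mul_zero, ite_self, sub_zero]
    push_cast
    rw [abs_mul, abs_mul, abs_mul]
    exact mul_le_mul (mul_le_of_le_one_right (abs_nonneg _) (abs_mon_le x i))
      (mul_le_of_le_one_right (abs_nonneg _) (abs_mon_le x j)) (by positivity) (abs_nonneg _)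

theorem tmpb_G (c d : ℕ → ℤ) :
    (∑ i ∈ range 130, ∑ j ∈ range 130,
      if 4 ≤ min (i / 30) 3 + min (j / 30) 3 then |c i| * |d j| else 0) =
      G 30 60 c * G 90 130 d + G 60 90 c * (G 60 90 d + G 90 130 d) +
        G 90 130 c * (G 30 60 d + G 60 90 d + G 90 130 d) := by
  simp only [G, ← sum_add_distrib, sum_mul_sum]
  refine sum_congr rfl fun i hi => sum_congr rfl fun j hj => ?_
  rw [mem_range] at hi hj
  split_ifs <;> first | omega | ring

/-- For places `i`, `j` with `gd`: if `gd (i + j)` then the exponents add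
(`decide +kernel` on `code`, for all `i j < 130`), otherwise
`4 ≤ min (i / 30) 3 + min (j / 30) 3`. -/
theorem ev_conv (hc : Sp c) (hd : Sp d) :
    |ev x c * ev x d - ev x (res (conv c d))| ≤
      ((G 30 60 c * G 90 130 d + G 60 90 c * (G 60 90 d + G 90 130 d) +
        G 90 130 c * (G 30 60 d + G 60 90 d + G 90 130 d) : ℤ) : ℝ) := by
  have e : ev x (res (conv c d)) =
      ∑ n ∈ range 130, (conv c d n : ℝ) * (if gd n then mon x n else 0) := by
    refine sum_congr rfl fun n _ => ?_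
    rw [res]
    split_ifs
    · rfl
    · simp
  rw [e, tmpb_sum, ← tmpb_G, ev, ev, sum_mul_sum, ← sum_sub_distrib, Int.cast_sum]
  refine (abs_sum_le_sum_abs _ _).trans (sum_le_sum fun i hi => ?_)
  rw [← sum_sub_distrib, Int.cast_sum]
  refine (abs_sum_le_sum_abs _ _).trans (sum_le_sum fun j hj => ?_)
  rw [Int.cast_ite, Int.cast_zero]
  exact tmpb_term x hc hd (mem_range.1 hi) (mem_range.1 hj)

theorem sp_rq (p : ℕ → ℤ) : Sp (rq p) := fun n hn => by simp [rq, hn]

theorem tmpb_cnt : (∑ n ∈ range 130, if gd n then (2 ^ 27 : ℤ) else 0) = 35 * 2 ^ 27 := by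
  decide +kernel

theorem tmpb_rq (p : ℕ → ℤ) (n : ℕ) :
    |res p n - 2 ^ 28 * rq p n| ≤ if gd n then (2 ^ 27 : ℤ) else 0 := by
  rw [res, rq]
  split_ifs
  · rw [abs_le]
    omega
  · simp

/-- there are 35 places with `gd` -/
theorem ev_rq (p : ℕ → ℤ) : |ev x (res p) - 2 ^ 28 * ev x (rq p)| ≤ 35 * 2 ^ 27 := by
  have e : ev x (res p) - 2 ^ 28 * ev x (rq p) = ev x (fun n => res p n - rq p n * 2 ^ 28) := by
    rw [ev_sub, ev_mul]
    push_cast
    ring
  have h : l1 (fun n => res p n - rq p n * 2 ^ 28) ≤ 35 * 2 ^ 27 := by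
    rw [← tmpb_cnt]
    refine sum_le_sum fun n _ => ?_
    have := tmpb_rq p n
    rwa [mul_comm] at this
  rw [e]
  exact (abs_ev_le x _).trans (by exact_mod_cast h)

theorem l1_rq (p : ℕ → ℤ) : 2 ^ 28 * l1 (rq p) ≤ l1 (res p) + 35 * 2 ^ 27 := by
  rw [← tmpb_cnt, l1, l1, mul_sum, ← sum_add_distrib]
  refine sum_le_sum fun n _ => ?_
  have h := tmpb_rq p n
  have h2 := abs_sub_abs_le_abs_sub (2 ^ 28 * rq p n) (res p n)
  rw [abs_sub_comm, abs_mul, abs_of_pos (by norm_num : (0 : ℤ) < 2 ^ 28)] at h2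
  exact sub_le_iff_le_add'.1 (h2.trans h)

/-- at the places with `ge` the monomial is a square, so it lies in `[0,1]` -/
theorem ev_hi (h : Sp c) : 2 * ev x c ≤ ((2 * c 0 + ∑ n ∈ range 130,
    if 30 ≤ n then (if ge n then |c n| + c n else 2 * |c n|) else 0 : ℤ) : ℝ) := by
  have h1 := ev_sgl x tmpa_gd0 (c 0)
  rw [mon_zero, mul_one] at h1
  rw [Int.cast_add, Int.cast_mul, ← h1, ev, ev, Int.cast_sum, mul_sum, mul_sum, ← sum_add_distrib]
  refine sum_le_sum fun n hn => ?_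
  have a := abs_le.1 (tmpa_term x (c n) n)
  rw [sgl]
  rcases tmpa_sp h n with h0 | h0 | h0
  · rw [h0]
    split_ifs with h1 h2
    all_goals first | omega | simp [← h1, h0] | simp
  · subst h0
    simp
  · rw [if_neg (by omega), if_pos h0]
    split_ifs with h2
    · have b := tmpa_sq x (mem_range.1 hn) h2
      have b' := (abs_le.1 (abs_mon_le x n)).2
      push_cast
      rcases abs_cases (c n : ℝ) with ⟨e, e'⟩ | ⟨e, e'⟩ <;> rw [e] <;> nlinarith
    · push_cast at a ⊢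
      linarith [a.2]

theorem ev_lo (h : Sp c) : ((2 * c 0 - ∑ n ∈ range 130,
    if 30 ≤ n then (if ge n then |c n| - c n else 2 * |c n|) else 0 : ℤ) : ℝ) ≤ 2 * ev x c := by
  have h1 := ev_hi x (c := fun n => -c n) fun n hn => neg_eq_zero.2 (h n hn)
  simp only [ev_neg, abs_neg, ← sub_eq_add_neg] at h1
  push_cast at h1 ⊢
  linarith

theorem l1_s0 (c : ℕ → ℤ) : l1 (s0 c) ≤ l1 c := sum_le_sum fun n _ => by
  rw [s0]
  split_ifs
  exacts [le_rfl, abs_nonneg _]

theorem l1_s2 (c : ℕ → ℤ) : l1 (s2 c) ≤ l1 c := by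
  rw [l1, l1, sum_range_add _ 44 86, sum_range_add (fun n => |c n|) 86 44, add_comm]
  refine add_le_add (sum_le_sum fun n hn => ?_) (sum_le_sum fun n _ => ?_)
  · rw [s2, tmpa_g2 n (mem_range.1 hn)]
    exact abs_nonneg _
  · rw [s2, add_comm]
    split_ifs
    exacts [le_rfl, abs_nonneg _]

theorem ev_s0_set3 (c : ℕ → ℤ) (y : ℝ) (hy : |y| ≤ 1) :
    ev (x.set3 y hy) (s0 c) = ev x (s0 c) := by
  obtain ⟨f, hf⟩ := tmpa_fun (c := s0 c) fun n hn h => (tmpa_g0 n hn).1 (by
    by_contra e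
    exact h (if_neg e))
  rw [hf, hf]
  rfl

theorem ev_s2_set3 (c : ℕ → ℤ) (y : ℝ) (hy : |y| ≤ 1) :
    ev (x.set3 y hy) (s2 c) = ev x (s2 c) := by
  obtain ⟨f, hf⟩ := tmpa_fun (c := s2 c) fun n hn h => (tmpa_g0 n hn).2.1 (by
    by_contra e
    exact h (if_neg e))
  rw [hf, hf]
  rfl

theorem ev_s0_fun (c : ℕ → ℤ) : ∃ f : ℝ → ℝ → ℝ → ℝ, ∀ x : Pt, ev x (s0 c) = f x.x0 x.x1 x.x2 := 
  tmpa_fun fun n hn h => (tmpa_g0 n hn).1 (by
    by_contra e
    exact h (if_neg e))

/-- group the places by the exponent `code n / 64` of the last variable; the places with exponent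
two are `86, 116, 121, 123` -/
theorem ev_set3 (h : Sp c) : ∃ B D : ℝ, ∀ y (hy : |y| ≤ 1), ev (x.set3 y hy) c =
    ev x (s0 c) + B * y + ev x (s2 c) * y ^ 2 + D * y ^ 3 := by
  obtain ⟨m, hm⟩ : ∃ m : ℕ → ℝ, m = fun n =>
    x.x0 ^ (code n % 4) * x.x1 ^ (code n / 4 % 4) * x.x2 ^ (code n / 16 % 4) := ⟨_, rfl⟩
  have e (n) : mon x n = m n * x.x3 ^ (code n / 64) := by rw [hm, mon]
  have e0 : ev x (s0 c) = ∑ n ∈ range 130, if code n / 64 = 0 then c n * m n else 0 :=
    sum_congr rfl fun n hn => by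
      obtain ⟨a, -, b⟩ := tmpa_g0 n (mem_range.1 hn)
      rw [s0, e]
      cases hg : gd n
      · simp [h n hg]
      · by_cases h0 : code n / 64 = 0
        · simp [h0, b hg h0]
        · rw [if_neg h0, if_neg (mt a h0), Int.cast_zero, zero_mul]
  have e2 : ev x (s2 c) = ∑ n ∈ range 130, if code n / 64 = 2 then c n * m n else 0 := by
    rw [ev, sum_range_add _ 44 86, sum_range_add _ 86 44, add_comm]
    congr 1
    · refine sum_congr rfl fun n hn => ?_
      rw [s2, tmpa_g2 n (mem_range.1 hn)]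
      cases hg : gd n
      · simp [h n hg]
      · simp [tmpa_lo n (mem_range.1 hn) hg]
    · refine sum_congr rfl fun n hn => ?_
      obtain ⟨a, b⟩ := tmpa_up n (mem_range.1 hn)
      rw [s2, e, add_comm n]
      cases h2 : g2 n
      · cases hg : gd (86 + n)
        · simp [h _ hg]
        · simp [b h2 hg]
      · obtain ⟨a0, a1, a2, a3, a4⟩ := a h2
        simp [hm, a0, a1, a2, a3, a4]
  refine ⟨∑ n ∈ range 130, if code n / 64 = 1 then c n * m n else 0,
    ∑ n ∈ range 130, if code n / 64 = 3 then c n * m n else 0, fun y hy => ?_⟩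
  rw [e0, e2, ev, sum_mul, sum_mul, sum_mul, ← sum_add_distrib, ← sum_add_distrib,
    ← sum_add_distrib]
  refine sum_congr rfl fun n _ => ?_
  have e' : mon (x.set3 y hy) n = m n * y ^ (code n / 64) := by rw [hm, mon]; rfl
  have l : code n / 64 < 4 := Nat.div_lt_of_lt_mul (Nat.mod_lt _ (by norm_num))
  rw [e']
  generalize code n / 64 = k at l
  interval_cases k <;> simp [mul_assoc]

theorem mean_bound {f : ℝ → ℂ} (hf : ContinuousOn f (Set.Icc (-1) 1)) {A B C D : ℂ} {e : ℝ}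
    (h : ∀ y : ℝ, |y| ≤ 1 → ‖2 ^ 28 * f y - (A + B * y + C * y ^ 2 + D * y ^ 3)‖ ≤ e) :
    ‖2 ^ 28 * ((1 / 2 : ℂ) * ∫ y in (-1 : ℝ)..1, f y) - (A + C / 3)‖ ≤ e := by
  have i1 : IntervalIntegrable f MeasureTheory.volume (-1) 1 :=
    hf.intervalIntegrable_of_Icc (by norm_num)
  have i2 (k : ℕ) (a : ℂ) :
      IntervalIntegrable (fun y : ℝ => a * (y : ℂ) ^ k) MeasureTheory.volume (-1) 1 :=
    Continuous.intervalIntegrable (by fun_prop) _ _
  have i3 (k : ℕ) (a : ℂ) : ∫ y in (-1 : ℝ)..1, a * (y : ℂ) ^ k =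
      a * ((1 - (-1) ^ (k + 1)) / (k + 1)) := by
    rw [intervalIntegral.integral_const_mul]
    simp only [← Complex.ofReal_pow]
    rw [intervalIntegral.integral_ofReal, integral_pow]
    simp
  have b := intervalIntegral.norm_integral_le_of_norm_le_const (a := -1) (b := 1) (C := e)
    (f := fun y : ℝ => 2 ^ 28 * f y - (A * y ^ 0 + B * y ^ 1 + C * y ^ 2 + D * y ^ 3))
    fun y hy => by
      rw [Set.uIoc_of_le (by norm_num)] at hy
      rw [pow_zero, mul_one, pow_one]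
      exact h y (abs_le.2 ⟨hy.1.le, hy.2⟩)
  rw [intervalIntegral.integral_sub (i1.const_mul _) ((((i2 _ _).add (i2 _ _)).add (i2 _ _)).add
    (i2 _ _)), intervalIntegral.integral_add (((i2 _ _).add (i2 _ _)).add (i2 _ _)) (i2 _ _),
    intervalIntegral.integral_add ((i2 _ _).add (i2 _ _)) (i2 _ _),
    intervalIntegral.integral_add (i2 _ _) (i2 _ _), i3, i3, i3, i3,
    intervalIntegral.integral_const_mul] at b
  generalize ∫ y in (-1 : ℝ)..1, f y = J at b ⊢
  have e1 : 2 ^ 28 * ((1 / 2 : ℂ) * J) - (A + C / 3) = (1 / 2 : ℝ) * (2 ^ 28 * J -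
      (A * ((1 - (-1) ^ (0 + 1)) / ((0 : ℕ) + 1)) + B * ((1 - (-1) ^ (1 + 1)) / ((1 : ℕ) + 1)) +
        C * ((1 - (-1) ^ (2 + 1)) / ((2 : ℕ) + 1)) +
        D * ((1 - (-1) ^ (3 + 1)) / ((3 : ℕ) + 1)))) := by
    push_cast
    ring
  rw [e1, norm_mul, Complex.norm_real, Real.norm_of_nonneg (by norm_num)]
  norm_num at b ⊢
  linarith

end Pool.Agent.Sok.TMI
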