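import Pool.Agent.Sok.TMB
import Pool.Agent.Sok.TMP

/-! Taylor models: the linear operations without rescaling. -/

set_option autoImplicit false

namespace Pool.Agent.Sok

theorem exists_varVal {lo hi : ℤ} {t : ℝ} (h1 : toR lo ≤ t) (h2 : t ≤ toR hi) :
    ∃ y, |y| ≤ 1 ∧ varVal lo hi y = t := by
  rcases (h1.trans h2).eq_or_lt with e | e
  · refine ⟨0, by simp, ?_⟩
    unfold varVal
    linarith
  · have hd : 0 < toR hi - toR lo := by linarith
    refine ⟨(2 * t - toR lo - toR hi) / (toR hi - toR lo), ?_, ?_⟩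
    · rw [abs_le, le_div_iff₀ hd, div_le_iff₀ hd]
      constructor <;> linarith
    · unfold varVal
      field_simp
      ring

namespace TMI

section aux

variable {Z Z' Z1 Z2 e s : ℕ} {c d : ℕ → ℤ}

theorem tml_gd0 : gd 0 = true := by decide +kernel

theorem tml_rep {x : Pt} {w : ℂ} (h : s < 2 ^ 51 → ∃ c d, Pk Z1 c ∧ Pk Z2 d ∧ l1 c + l1 d ≤ s ∧
    ‖2 ^ 28 * w - evC x c d‖ ≤ e) : Rep x ⟨Z1, Z2, e, s⟩ w := h

theorem tml_lt {t : ℤ} (h : t ≤ s) (hs : s < 2 ^ 51) : t < 2 ^ 51 :=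
  h.trans_lt (by exact_mod_cast hs)

theorem tml_zero : Pk cH (fun _ => 0) := ⟨fun _ _ => rfl, by rw [pv_zero, add_zero]⟩

theorem tml_neg (h : Pk Z c) (hl : l1 c < 2 ^ 51) : Pk (Nat.sub cH2 Z) (fun n => -c n) :=
  Pk.of_sub (fun n hn => by rw [h.1 n hn, neg_zero]) (by rwa [l1_neg]) (by
    rw [pv_neg, h.2, cH2_eq, Nat.cast_mul, Nat.cast_ofNat]
    generalize (cH : ℤ) = H
    ring)

theorem tml_add (h : Pk Z c) (h' : Pk Z' d) (hl : l1 c + l1 d < 2 ^ 51) :
    Pk (Nat.sub (Nat.add Z Z') cH) (fun n => c n + d n) :=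
  Pk.of_sub (fun n hn => by rw [h.1 n hn, h'.1 n hn, add_zero]) ((l1_add c d).trans_lt hl) (by
    rw [pv_add, Nat.add_eq, Nat.cast_add, h.2, h'.2]
    generalize (cH : ℤ) = H
    ring)

theorem tml_sub (h : Pk Z c) (h' : Pk Z' d) (hl : l1 c + l1 d < 2 ^ 51) :
    Pk (Nat.sub (Nat.add Z cH) Z') (fun n => c n - d n) :=
  Pk.of_sub (fun n hn => by rw [h.1 n hn, h'.1 n hn, sub_zero]) ((l1_sub c d).trans_lt hl) (by
    rw [pv_sub, Nat.add_eq, Nat.cast_add, h.2, h'.2]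
    generalize (cH : ℤ) = H
    ring)

theorem tml_mulP (h : Pk Z c) (m : ℕ) (hl : l1 c * m < 2 ^ 51) :
    Pk (Nat.sub (Nat.add (Nat.mul Z m) cH) (Nat.mul cH m)) (fun n => c n * m) :=
  Pk.of_sub (fun n hn => by rw [h.1 n hn, zero_mul]) (by rwa [l1_mul, Nat.abs_cast]) (by
    rw [pv_mul, Nat.add_eq, Nat.mul_eq, Nat.mul_eq, Nat.cast_add, Nat.cast_mul, Nat.cast_mul, h.2]
    generalize (cH : ℤ) = H
    ring)

theorem tml_mulM (h : Pk Z c) (m : ℕ) (hl : l1 c * (m + 1 : ℕ) < 2 ^ 51) :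
    Pk (Nat.sub (Nat.mul cH (Nat.add m 2)) (Nat.mul Z (Nat.succ m)))
      (fun n => c n * -((m + 1 : ℕ) : ℤ)) :=
  Pk.of_sub (fun n hn => by rw [h.1 n hn, zero_mul]) (by rwa [l1_mul, abs_neg, Nat.abs_cast]) (by
    rw [pv_mul, Nat.add_eq, Nat.mul_eq, Nat.mul_eq, Nat.cast_mul, Nat.cast_mul, h.2]
    generalize (cH : ℤ) = H
    push_cast
    ring)

theorem tml_sp {j : ℕ} (h : Sp c) (hj : gd j = true) (v : ℤ) : Sp fun n => c n + sgl j v n :=
  fun n hn => show c n + sgl j v n = 0 by rw [h n hn, sp_sgl hj v n hn, add_zero]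

theorem tml_l1 {j : ℕ} (c : ℕ → ℤ) (hj : gd j = true) (v : ℤ) :
    l1 (fun n => c n + sgl j v n) ≤ l1 c + |v| := by
  rw [← l1_sgl hj v]
  exact l1_add _ _

theorem tml_addAt {j : ℕ} (h : Pk Z c) (hj : gd j = true) (v : ℤ) (hl : l1 c + |v| < 2 ^ 51) :
    Pk (addAt Z v (80 * j)) fun n => c n + sgl j v n := by
  cases v with
  | ofNat p =>
    refine ⟨tml_sp h.1 hj _, ?_⟩
    have e : addAt Z (Int.ofNat p) (80 * j) = Z + p <<< (80 * j) := rfl
    rw [e, pv_add, pv_sgl hj, Nat.shiftLeft_eq, pow_mul, Nat.cast_add, h.2, Nat.cast_mul,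
      Nat.cast_pow, Nat.cast_pow, Nat.cast_ofNat, add_assoc]
    rfl
  | negSucc p =>
    refine Pk.of_sub (A := Z) (B := (p + 1) <<< (80 * j)) (tml_sp h.1 hj _)
      ((tml_l1 c hj _).trans_lt hl) ?_
    rw [pv_add, pv_sgl hj, Nat.shiftLeft_eq, pow_mul, h.2, Nat.cast_mul,
      Nat.cast_pow, Nat.cast_pow, Nat.cast_ofNat, Int.negSucc_eq, Nat.cast_add, Nat.cast_one]
    generalize (cH : ℤ) = H
    generalize ((2 : ℤ) ^ 80) ^ j = T
    ring

/-- `Z'` is `Z` with `P` added to the constant coefficient -/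
def tml_Sh (Z Z' : ℕ) (P : ℤ) : Prop :=
  ∀ c, Pk Z c → l1 c + |P| < 2 ^ 51 → Pk Z' fun n => c n + sgl 0 P n

theorem tml_shA (Z n : ℕ) : tml_Sh Z (Nat.add Z n) n := fun c h _ =>
  ⟨tml_sp h.1 tml_gd0 _, by
    rw [pv_add, pv_sgl tml_gd0, Nat.add_eq, Nat.cast_add, h.2, pow_zero, mul_one, add_assoc]⟩

theorem tml_shS (Z n : ℕ) : tml_Sh Z (Nat.sub Z n) (-n) := fun c h hl =>
  Pk.of_sub (tml_sp h.1 tml_gd0 _) ((tml_l1 c tml_gd0 _).trans_lt hl) (by
    rw [pv_add, pv_sgl tml_gd0, h.2, pow_zero, mul_one, sub_eq_add_neg, add_assoc])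

theorem tml_sh0 (Z : ℕ) : tml_Sh Z Z 0 := fun c h _ =>
  ⟨tml_sp h.1 tml_gd0 _, by rw [pv_add, pv_sgl tml_gd0, h.2, zero_mul, add_zero]⟩

theorem tml_shift {a : TM} {P Q : ℤ} {x : Pt} {z w : ℂ} {r : ℝ} (h1 : tml_Sh a.1 Z1 P)
    (h2 : tml_Sh a.2 Z2 Q) (hs : a.4 + (|P| + |Q|) ≤ s) (hw : ‖2 ^ 28 * w - (P + Q * Complex.I)‖ ≤ r)
    (he : a.3 + r ≤ e) (h : Rep x a z) : Rep x ⟨Z1, Z2, e, s⟩ (z + w) := tml_rep fun hl => by
  have p0 := abs_nonneg P
  have q0 := abs_nonneg Q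
  obtain ⟨c, d, k1, k2, k3, k4⟩ := h (by omega)
  have c0 := l1_nonneg c
  have d0 := l1_nonneg d
  have c1 := tml_l1 c tml_gd0 P
  have d1 := tml_l1 d tml_gd0 Q
  refine ⟨_, _, h1 c k1 (tml_lt (by linarith) hl), h2 d k2 (tml_lt (by linarith) hl),
    by linarith, ?_⟩
  have e : 2 ^ 28 * (z + w) - evC x (fun n => c n + sgl 0 P n) (fun n => d n + sgl 0 Q n) =
      (2 ^ 28 * z - evC x c d) + (2 ^ 28 * w - (P + Q * Complex.I)) := by
    simp only [evC, ev_add, ev_sgl x tml_gd0, mon_zero]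
    push_cast
    ring
  rw [e]
  linarith [norm_add_le (2 ^ 28 * z - evC x c d) (2 ^ 28 * w - (P + Q * Complex.I))]

theorem tml_div (p n : ℕ) : |(p : ℝ) / n - (p / n : ℕ)| ≤ 1 := by
  rcases Nat.eq_zero_or_pos n with rfl | hn
  · simp
  · have h1 : ((p / n : ℕ) : ℝ) ≤ p / n := Nat.cast_div_le
    have h2 : (p : ℝ) / n < (p / n : ℕ) + 1 := by
      rw [div_lt_iff₀ (by exact_mod_cast hn)]
      have : p < (p / n + 1) * n := by
        rw [add_mul, one_mul]
        exact Nat.lt_div_mul_add hn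
      exact_mod_cast this
    rw [abs_le]
    constructor <;> linarith

theorem tml_cP (p : ℕ) : |2 ^ 28 * toR (Int.ofNat p) - ((Nat.shiftRight p 12 : ℕ) : ℤ)| ≤ 1 := by
  have e : Nat.shiftRight p 12 = p / 4096 := Nat.shiftRight_eq_div_pow p 12
  have h1 : ((p / 4096 * 4096 : ℕ) : ℝ) ≤ p := by exact_mod_cast Nat.div_mul_le_self p 4096
  have h2 : (p : ℝ) ≤ (p / 4096 * 4096 + 4096 : ℕ) := by exact_mod_cast (by omega)
  rw [e, toR, Int.ofNat_eq_natCast, Int.cast_natCast, Int.cast_natCast, abs_le]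
  generalize p / 4096 = q at h1 h2
  push_cast at h1 h2
  constructor <;> linarith

theorem tml_cM (p : ℕ) :
    |2 ^ 28 * toR (Int.negSucc p) - (-((Nat.shiftRight p 12 : ℕ) : ℤ) : ℤ)| ≤ 1 := by
  have e : Nat.shiftRight p 12 = p / 4096 := Nat.shiftRight_eq_div_pow p 12
  have h1 : ((p / 4096 * 4096 : ℕ) : ℝ) ≤ p := by exact_mod_cast Nat.div_mul_le_self p 4096
  have h2 : ((p + 1 : ℕ) : ℝ) ≤ (p / 4096 * 4096 + 4096 : ℕ) := by exact_mod_cast (by omega)
  rw [e, toR, Int.negSucc_eq, abs_le]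
  generalize p / 4096 = q at h1 h2
  push_cast at h1 h2 ⊢
  constructor <;> linarith

theorem tml_toC {u v P Q : ℤ} (h1 : |2 ^ 28 * toR u - P| ≤ 1) (h2 : |2 ^ 28 * toR v - Q| ≤ 1) :
    ‖2 ^ 28 * toC u v - (P + Q * Complex.I)‖ ≤ 2 := by
  have e : 2 ^ 28 * toC u v - (P + Q * Complex.I) =
      ⟨2 ^ 28 * toR u - P, 2 ^ 28 * toR v - Q⟩ := by
    rw [toC, Complex.mk_eq_add_mul_I, Complex.mk_eq_add_mul_I]
    push_cast
    ring
  rw [e]
  refine (Complex.norm_le_abs_re_add_abs_im _).trans ?_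
  linarith

theorem tml_real {t : ℝ} {P : ℤ} {r : ℝ} (h : |2 ^ 28 * t - P| ≤ r) :
    ‖2 ^ 28 * (t : ℂ) - (P + (0 : ℤ) * Complex.I)‖ ≤ r := by
  have e : 2 ^ 28 * (t : ℂ) - (P + (0 : ℤ) * Complex.I) = ((2 ^ 28 * t - P : ℝ) : ℂ) := by
    push_cast
    ring
  rwa [e, Complex.norm_real]

theorem tml_ediv (u : ℤ) : |(u : ℝ) / 8192 - (Int.ediv u 8192 : ℤ)| ≤ 1 := by
  have e : Int.ediv u 8192 = u / 8192 := rfl
  have h1 : ((u / 8192 * 8192 : ℤ) : ℝ) ≤ u := by exact_mod_cast (by omega)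
  have h2 : (u : ℝ) ≤ (u / 8192 * 8192 + 8192 : ℤ) := by exact_mod_cast (by omega)
  rw [e, abs_le]
  generalize u / 8192 = q at h1 h2
  push_cast at h1 h2
  constructor <;> linarith

end aux

variable {a : TM} {k : TM → Bool} {n : ℕ}

theorem addN_ok (h : addN a n k = true) :
    ∃ c, k c = true ∧ ∀ x z, Rep x a z → Rep x c (z + n / 2 ^ 28) :=
  ⟨_, h, fun x z hz => tml_shift (r := 0) (tml_shA _ _) (tml_sh0 _) (by simp)
    (by
      have : (2 : ℂ) ^ 28 * (n / 2 ^ 28) = n := by field_simp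
      rw [this]
      simp) (by simp) hz⟩
theorem subN_ok (h : subN a n k = true) :
    ∃ c, k c = true ∧ ∀ x z, Rep x a z → Rep x c (z - n / 2 ^ 28) :=
  ⟨_, h, fun x z hz => by
    rw [sub_eq_add_neg]
    exact tml_shift (r := 0) (tml_shS _ _) (tml_sh0 _) (by simp)
      (by
        have : (2 : ℂ) ^ 28 * -(n / 2 ^ 28) = -n := by field_simp
        rw [this]
        simp) (by simp) hz⟩
theorem widN_ok (h : widN a n k = true) :
    ∃ c, k c = true ∧ ∀ x z w, Rep x a z → 2 ^ 28 * ‖w - z‖ ≤ n → Rep x c w :=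
  ⟨_, h, fun x z w hz hw => by
    rw [← add_sub_cancel z w]
    exact tml_shift (r := n) (tml_sh0 _) (tml_sh0 _) (by simp) (by simpa using hw) (by simp) hz⟩
theorem mni_ok (h : mni a k = true) :
    ∃ c, k c = true ∧ ∀ x z, Rep x a z → Rep x c (-Complex.I * z) :=
  ⟨_, h, fun x z hz => tml_rep fun hl => by
    obtain ⟨c, d, k1, k2, k3, k4⟩ := hz hl
    refine ⟨_, _, k2, tml_neg k1 (tml_lt (by linarith [l1_nonneg d]) hl),
      by rw [l1_neg]; linarith, ?_⟩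
    have e : 2 ^ 28 * (-Complex.I * z) - evC x d (fun n => -c n) =
        -Complex.I * (2 ^ 28 * z - evC x c d) := by
      simp only [evC, ev_neg]
      push_cast
      linear_combination (-(ev x d : ℂ)) * Complex.I_mul_I
    rwa [e, norm_mul, norm_neg, Complex.norm_I, one_mul]⟩

end TMI

namespace TM

open TMI

variable {a b : TM} {k : TM → Bool} {u v : ℤ}

theorem add_ok (h : add a b k = true) :
    ∃ c, k c = true ∧ ∀ x z w, Rep x a z → Rep x b w → Rep x c (z + w) :=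
  ⟨_, h, fun x z w hz hw => tml_rep fun hl => by
    have hl' : a.4 + b.4 < 2 ^ 51 := hl
    obtain ⟨c, d, k1, k2, k3, k4⟩ := hz (by omega)
    obtain ⟨c', d', m1, m2, m3, m4⟩ := hw (by omega)
    have hs : l1 c + l1 d + (l1 c' + l1 d') ≤ (Nat.add a.4 b.4 : ℕ) := by
      rw [Nat.add_eq, Nat.cast_add]
      linarith
    refine ⟨_, _, tml_add k1 m1 (tml_lt (by linarith [l1_nonneg d, l1_nonneg d']) hl),
      tml_add k2 m2 (tml_lt (by linarith [l1_nonneg c, l1_nonneg c']) hl),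
      by linarith [l1_add c c', l1_add d d'], ?_⟩
    have e : 2 ^ 28 * (z + w) - evC x (fun n => c n + c' n) (fun n => d n + d' n) =
        (2 ^ 28 * z - evC x c d) + (2 ^ 28 * w - evC x c' d') := by
      simp only [evC, ev_add]
      push_cast
      ring
    rw [e, Nat.add_eq, Nat.cast_add]
    exact (norm_add_le _ _).trans (add_le_add k4 m4)⟩
theorem sub_ok (h : sub a b k = true) :
    ∃ c, k c = true ∧ ∀ x z w, Rep x a z → Rep x b w → Rep x c (z - w) :=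
  ⟨_, h, fun x z w hz hw => tml_rep fun hl => by
    have hl' : a.4 + b.4 < 2 ^ 51 := hl
    obtain ⟨c, d, k1, k2, k3, k4⟩ := hz (by omega)
    obtain ⟨c', d', m1, m2, m3, m4⟩ := hw (by omega)
    have hs : l1 c + l1 d + (l1 c' + l1 d') ≤ (Nat.add a.4 b.4 : ℕ) := by
      rw [Nat.add_eq, Nat.cast_add]
      linarith
    refine ⟨_, _, tml_sub k1 m1 (tml_lt (by linarith [l1_nonneg d, l1_nonneg d']) hl),
      tml_sub k2 m2 (tml_lt (by linarith [l1_nonneg c, l1_nonneg c']) hl),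
      by linarith [l1_sub c c', l1_sub d d'], ?_⟩
    have e : 2 ^ 28 * (z - w) - evC x (fun n => c n - c' n) (fun n => d n - d' n) =
        (2 ^ 28 * z - evC x c d) - (2 ^ 28 * w - evC x c' d') := by
      simp only [evC, ev_sub]
      push_cast
      ring
    rw [e, Nat.add_eq, Nat.cast_add]
    exact (norm_sub_le _ _).trans (add_le_add k4 m4)⟩
theorem neg_ok (h : neg a k = true) :
    ∃ c, k c = true ∧ ∀ x z, Rep x a z → Rep x c (-z) :=
  ⟨_, h, fun x z hz => tml_rep fun hl => by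
    obtain ⟨c, d, k1, k2, k3, k4⟩ := hz hl
    refine ⟨_, _, tml_neg k1 (tml_lt (by linarith [l1_nonneg d]) hl),
      tml_neg k2 (tml_lt (by linarith [l1_nonneg c]) hl), by rwa [l1_neg, l1_neg], ?_⟩
    have e : 2 ^ 28 * -z - evC x (fun n => -c n) (fun n => -d n) =
        -(2 ^ 28 * z - evC x c d) := by
      simp only [evC, ev_neg]
      push_cast
      ring
    rwa [e, norm_neg]⟩
theorem conj_ok (h : conj a k = true) :
    ∃ c, k c = true ∧ ∀ x z, Rep x a z → Rep x c ((starRingEnd ℂ) z) :=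
  ⟨_, h, fun x z hz => tml_rep fun hl => by
    obtain ⟨c, d, k1, k2, k3, k4⟩ := hz hl
    refine ⟨_, _, k1, tml_neg k2 (tml_lt (by linarith [l1_nonneg c]) hl), by rwa [l1_neg], ?_⟩
    have e : 2 ^ 28 * (starRingEnd ℂ) z - evC x c (fun n => -d n) =
        (starRingEnd ℂ) (2 ^ 28 * z - evC x c d) := by
      simp only [evC, ev_neg, map_sub, map_add, map_mul, map_pow, Complex.conj_ofReal,
        Complex.conj_I, map_ofNat]
      push_cast
      ring
    rwa [e, Complex.norm_conj]⟩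
theorem rp_ok (h : rp a k = true) :
    ∃ c, k c = true ∧ ∀ x z, Rep x a z → Rep x c (z.re : ℝ) :=
  ⟨_, h, fun x z hz => tml_rep fun hl => by
    obtain ⟨c, d, k1, k2, k3, k4⟩ := hz hl
    refine ⟨_, _, k1, tml_zero, by rw [l1_zero]; linarith [l1_nonneg d], ?_⟩
    have e : 2 ^ 28 * ((z.re : ℝ) : ℂ) - evC x c (fun _ => 0) =
        ((((2 ^ 28 : ℝ) * z - evC x c d).re : ℝ) : ℂ) := by
      simp only [evC, ev_zero, Complex.sub_re, Complex.re_ofReal_mul, Complex.add_re,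
        Complex.ofReal_re, Complex.I_re]
      push_cast
      ring
    rw [e, Complex.norm_real]
    refine (Complex.abs_re_le_norm _).trans ?_
    exact_mod_cast k4⟩
theorem ip_ok (h : ip a k = true) :
    ∃ c, k c = true ∧ ∀ x z, Rep x a z → Rep x c (z.im : ℝ) :=
  ⟨_, h, fun x z hz => tml_rep fun hl => by
    obtain ⟨c, d, k1, k2, k3, k4⟩ := hz hl
    refine ⟨_, _, k2, tml_zero, by rw [l1_zero]; linarith [l1_nonneg c], ?_⟩
    have e : 2 ^ 28 * ((z.im : ℝ) : ℂ) - evC x d (fun _ => 0) =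
        ((((2 ^ 28 : ℝ) * z - evC x c d).im : ℝ) : ℂ) := by
      simp only [evC, ev_zero, Complex.sub_im, Complex.im_ofReal_mul, Complex.add_im,
        Complex.ofReal_im, Complex.I_im]
      push_cast
      ring
    rw [e, Complex.norm_real]
    refine (Complex.abs_im_le_norm _).trans ?_
    exact_mod_cast k4⟩
theorem mi_ok (h : mi a k = true) :
    ∃ c, k c = true ∧ ∀ x z, Rep x a z → Rep x c (Complex.I * z) :=
  ⟨_, h, fun x z hz => tml_rep fun hl => by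
    obtain ⟨c, d, k1, k2, k3, k4⟩ := hz hl
    refine ⟨_, _, tml_neg k2 (tml_lt (by linarith [l1_nonneg c]) hl), k1,
      by rw [l1_neg]; linarith, ?_⟩
    have e : 2 ^ 28 * (Complex.I * z) - evC x (fun n => -d n) c =
        Complex.I * (2 ^ 28 * z - evC x c d) := by
      simp only [evC, ev_neg]
      push_cast
      linear_combination (ev x d : ℂ) * Complex.I_mul_I
    rwa [e, norm_mul, Complex.norm_I, one_mul]⟩
theorem addc_ok (h : addc a u v k = true) :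
    ∃ c, k c = true ∧ ∀ x z, Rep x a z → Rep x c (z + toC u v) := by
  rcases u with p | p <;> rcases v with q | q
  · exact ⟨_, h, fun x z hz => tml_shift (tml_shA _ _) (tml_shA _ _)
      (by simp only [Nat.abs_cast, Nat.add_eq, Nat.cast_add, le_refl])
      (tml_toC (tml_cP p) (tml_cP q)) (by simp) hz⟩
  · exact ⟨_, h, fun x z hz => tml_shift (tml_shA _ _) (tml_shS _ _)
      (by simp only [abs_neg, Nat.abs_cast, Nat.add_eq, Nat.cast_add, le_refl])
      (tml_toC (tml_cP p) (tml_cM q)) (by simp) hz⟩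
  · exact ⟨_, h, fun x z hz => tml_shift (tml_shS _ _) (tml_shA _ _)
      (by simp only [abs_neg, Nat.abs_cast, Nat.add_eq, Nat.cast_add, le_refl])
      (tml_toC (tml_cM p) (tml_cP q)) (by simp) hz⟩
  · exact ⟨_, h, fun x z hz => tml_shift (tml_shS _ _) (tml_shS _ _)
      (by simp only [abs_neg, Nat.abs_cast, Nat.add_eq, Nat.cast_add, le_refl])
      (tml_toC (tml_cM p) (tml_cM q)) (by simp) hz⟩
theorem cst_ok (h : cst u v k = true) : ∃ c, k c = true ∧ ∀ x, Rep x c (toC u v) := by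
  obtain ⟨c, h1, h2⟩ := addc_ok (a := ⟨cH, cH, 0, 0⟩) h
  refine ⟨c, h1, fun x => ?_⟩
  rw [← zero_add (toC u v)]
  exact h2 x 0 (tml_rep fun _ => ⟨_, _, tml_zero, tml_zero, by simp [l1_zero],
    by simp [evC, ev_zero]⟩)
theorem var_ok {i : ℕ} (h : var i u v k = true) :
    ∃ c, k c = true ∧ ∀ x, Rep x c (varVal u v (x.get i) : ℝ) :=
  ⟨_, h, fun x => tml_rep fun hl => by
    obtain ⟨j, j1, j2, -, j4⟩ := mon_var x i
    have y1 : |x.get i| ≤ 1 := j4 ▸ abs_mon_le x j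
    have t1 : |((u + v : ℤ) : ℝ) / 8192 - (Int.ediv (Int.add u v) 8192 : ℤ)| ≤ 1 := tml_ediv _
    have t2 : |((v - u : ℤ) : ℝ) / 8192 - (Int.ediv (Int.sub v u) 8192 : ℤ)| ≤ 1 := tml_ediv _
    generalize Int.ediv (Int.add u v) 8192 = P at t1 hl ⊢
    generalize Int.ediv (Int.sub v u) 8192 = Q at t2 hl ⊢
    have hs : |P| + |Q| ≤ (Nat.add P.natAbs Q.natAbs : ℕ) := by simp
    have b1 := tml_l1 (fun _ => 0) tml_gd0 P
    rw [l1_zero, zero_add] at b1
    have k1 := tml_addAt tml_zero tml_gd0 P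
      (tml_lt (by rw [l1_zero]; linarith [abs_nonneg Q]) hl)
    rw [j1]
    refine ⟨_, _, tml_addAt k1 j2 Q (tml_lt (by linarith) hl), tml_zero,
      by rw [l1_zero]; linarith [tml_l1 (fun n => 0 + sgl 0 P n) j2 Q], ?_⟩
    have e : 2 ^ 28 * ((varVal u v (x.get i) : ℝ) : ℂ) -
        evC x (fun n => 0 + sgl 0 P n + sgl j Q n) (fun _ => 0) =
        (((((u + v : ℤ) : ℝ) / 8192 - P) + (((v - u : ℤ) : ℝ) / 8192 - Q) * x.get i : ℝ) : ℂ) := by
      have e1 := ev_add x (fun n => 0 + sgl 0 P n) (sgl j Q)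
      have e2 := ev_add x (fun _ => 0) (sgl 0 P)
      rw [evC, e1, e2, ev_zero, ev_sgl x tml_gd0, ev_sgl x j2, mon_zero, j4, varVal, toR, toR]
      push_cast
      ring
    rw [e, Complex.norm_real]
    refine (abs_add_le _ _).trans ?_
    rw [abs_mul]
    have := mul_le_one₀ t2 (abs_nonneg _) y1
    push_cast at *
    linarith⟩
theorem nmul_ok (h : nmul a u k = true) :
    ∃ c, k c = true ∧ ∀ x z, Rep x a z → Rep x c (z * (u : ℂ)) := by
  rcases u with m | m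
  · refine ⟨_, h, fun x z hz => tml_rep fun hl => ?_⟩
    rcases Nat.eq_zero_or_pos m with rfl | hm
    · exact ⟨_, _, tml_mulP (c := fun _ => 0) (Z := cH) tml_zero 0 (by simp),
        tml_mulP (c := fun _ => 0) (Z := cH) tml_zero 0 (by simp),
        by simp [l1_zero], by simp [evC, ev_zero]⟩
    obtain ⟨c, d, k1, k2, k3, k4⟩ := hz ((Nat.le_mul_of_pos_right _ hm).trans_lt hl)
    have m0 : (0 : ℤ) ≤ m := Nat.cast_nonneg m
    have hs : l1 c * m + l1 d * m ≤ (Nat.mul a.4 m : ℕ) := by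
      rw [Nat.mul_eq, Nat.cast_mul, ← add_mul]
      exact mul_le_mul_of_nonneg_right k3 m0
    refine ⟨_, _, tml_mulP k1 m (tml_lt (by linarith [mul_nonneg (l1_nonneg d) m0]) hl),
      tml_mulP k2 m (tml_lt (by linarith [mul_nonneg (l1_nonneg c) m0]) hl),
      by rwa [l1_mul, l1_mul, Nat.abs_cast], ?_⟩
    have e : 2 ^ 28 * (z * (Int.ofNat m : ℤ)) - evC x (fun n => c n * m) (fun n => d n * m) =
        (2 ^ 28 * z - evC x c d) * m := by
      simp only [evC, ev_mul, Int.ofNat_eq_natCast]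
      push_cast
      ring
    rw [e, norm_mul, Complex.norm_natCast, Nat.mul_eq, Nat.cast_mul]
    exact mul_le_mul_of_nonneg_right k4 (Nat.cast_nonneg m)
  · refine ⟨_, h, fun x z hz => tml_rep fun hl => ?_⟩
    obtain ⟨c, d, k1, k2, k3, k4⟩ := hz ((Nat.le_mul_of_pos_right _ m.succ_pos).trans_lt hl)
    have m0 : (0 : ℤ) ≤ (m + 1 : ℕ) := Nat.cast_nonneg _
    have hs : l1 c * (m + 1 : ℕ) + l1 d * (m + 1 : ℕ) ≤ (Nat.mul a.4 (Nat.succ m) : ℕ) := by
      rw [Nat.mul_eq, Nat.cast_mul, ← add_mul]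
      exact mul_le_mul_of_nonneg_right k3 m0
    refine ⟨_, _, tml_mulM k1 m (tml_lt (by linarith [mul_nonneg (l1_nonneg d) m0]) hl),
      tml_mulM k2 m (tml_lt (by linarith [mul_nonneg (l1_nonneg c) m0]) hl),
      by rwa [l1_mul, l1_mul, abs_neg, Nat.abs_cast], ?_⟩
    have e : 2 ^ 28 * (z * (Int.negSucc m : ℤ)) - evC x (fun n => c n * -((m + 1 : ℕ) : ℤ))
        (fun n => d n * -((m + 1 : ℕ) : ℤ)) = -((2 ^ 28 * z - evC x c d) * (m + 1 : ℕ)) := by
      simp only [evC, ev_mul, Int.negSucc_eq]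
      push_cast
      ring
    rw [e, norm_neg, norm_mul, Complex.norm_natCast, Nat.mul_eq, Nat.cast_mul]
    exact mul_le_mul_of_nonneg_right k4 (Nat.cast_nonneg _)
theorem addq_ok {n : ℕ} (h : addq a u n k = true) :
    ∃ c, k c = true ∧ ∀ x z, Rep x a z → Rep x c (z + (u : ℂ) / (n : ℂ)) := by
  rcases u with p | p
  · refine ⟨_, h, fun x z hz => ?_⟩
    have e : ((Int.ofNat p : ℤ) : ℂ) / n = ((p / n : ℝ) : ℂ) := by simp
    rw [e]
    refine tml_shift (r := 1) (tml_shA _ _) (tml_sh0 _) (by simp) (tml_real ?_) (by simp) hz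
    have t := tml_div (p * 2 ^ 28) n
    have e1 : Nat.div (Nat.shiftLeft p 28) n = p * 2 ^ 28 / n :=
      congrArg (· / n) (Nat.shiftLeft_eq p 28)
    rw [e1, Int.cast_natCast]
    have e2 : (2 : ℝ) ^ 28 * (p / n) = (p * 2 ^ 28 : ℕ) / n := by
      push_cast
      ring
    rwa [e2]
  · refine ⟨_, h, fun x z hz => ?_⟩
    have e : ((Int.negSucc p : ℤ) : ℂ) / n = ((-((p + 1) / n) : ℝ) : ℂ) := by
      rw [Int.negSucc_eq]
      push_cast
      ring
    rw [e]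
    refine tml_shift (r := 1) (tml_shS _ _) (tml_sh0 _) (by simp) (tml_real ?_) (by simp) hz
    have t := tml_div ((p + 1) * 2 ^ 28) n
    have e1 : Nat.div (Nat.shiftLeft (Nat.succ p) 28) n = (p + 1) * 2 ^ 28 / n :=
      congrArg (· / n) (Nat.shiftLeft_eq (p + 1) 28)
    rw [e1, Int.cast_neg, Int.cast_natCast]
    have e2 : (2 : ℝ) ^ 28 * -((p + 1) / n) = -(((p + 1) * 2 ^ 28 : ℕ) / n) := by
      push_cast
      ring
    rwa [e2, neg_sub_neg, abs_sub_comm]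
theorem wid_ok (h : wid a u k = true) :
    ∃ c, k c = true ∧ ∀ x z w, Rep x a z → ‖w - z‖ ≤ toR u → Rep x c w := by
  rcases u with n | n
  · obtain ⟨c, h1, h2⟩ := widN_ok (a := a) (n := Nat.succ (Nat.shiftRight n 12)) h
    refine ⟨c, h1, fun x z w hz hw => h2 x z w hz ?_⟩
    have t := (abs_le.1 (tml_cP n)).2
    rw [Int.cast_natCast] at t
    rw [Nat.cast_succ]
    linarith
  · refine ⟨a, h, fun x z w _ hw => ?_⟩
    have : toR (Int.negSucc n) < 0 :=
      div_neg_of_neg_of_pos (by exact_mod_cast Int.negSucc_lt_zero n) (by norm_num)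
    linarith [norm_nonneg (w - z)]

end TM

end Pool.Agent.Sok
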