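import Pool.Agent.Sok.TMN
import Pool.Agent.Sok.TML

/-! Taylor models: products. -/

set_option autoImplicit false

namespace Pool.Agent.Sok

namespace TMI

variable {a b : TM} {k : TM → Bool} {p q e : ℕ} {x : Pt} {c d c' d' : ℕ → ℤ}

theorem tmm_norm (u v : ℝ) : ‖(u : ℂ) + v * Complex.I‖ ≤ |u| + |v| := by
  refine (norm_add_le _ _).trans_eq ?_
  rw [norm_mul, Complex.norm_I, mul_one, Complex.norm_real, Complex.norm_real]
  rfl

theorem tmm_shr (E : ℕ) : (E : ℝ) ≤ 2 ^ 28 * ((Nat.shiftRight E 28 : ℕ) + 1) := by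
  have h1 : Nat.shiftRight E 28 = E / 2 ^ 28 := Nat.shiftRight_eq_div_pow E 28
  have h2 : E ≤ 2 ^ 28 * (Nat.shiftRight E 28 + 1) := by omega
  exact_mod_cast h2

theorem tmm_rq0 : rq (fun _ => 0) = fun _ => 0 := by
  funext n
  simp [rq]

theorem tmm_res0 : res (fun _ => 0) = fun _ => 0 := res_eq fun _ _ => rfl

theorem tmm_err {f g : ℕ → ℤ} {ζ : ℂ} {E : ℝ} (h : ‖2 ^ 56 * ζ - evC x (res f) (res g)‖ ≤ E) :
    2 ^ 28 * ‖2 ^ 28 * ζ - evC x (rq f) (rq g)‖ ≤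
      E + 35 * 2 ^ 27 + |ev x (res g) - 2 ^ 28 * ev x (rq g)| := by
  have e1 : (2 : ℂ) ^ 28 * (2 ^ 28 * ζ - evC x (rq f) (rq g)) =
      (2 ^ 56 * ζ - evC x (res f) (res g)) + (((ev x (res f) - 2 ^ 28 * ev x (rq f) : ℝ) : ℂ) +
        ((ev x (res g) - 2 ^ 28 * ev x (rq g) : ℝ) : ℂ) * Complex.I) := by
    unfold evC; push_cast; ring
  have e2 : (2 : ℝ) ^ 28 = ‖(2 : ℂ) ^ 28‖ := by rw [norm_pow, Complex.norm_two]
  have := ev_rq x f
  calc _ = ‖(2 : ℂ) ^ 28 * (2 ^ 28 * ζ - evC x (rq f) (rq g))‖ := by rw [norm_mul, ← e2]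
    _ ≤ _ := by
      rw [e1]
      refine (norm_add_le _ _).trans ((add_le_add h (tmm_norm _ _)).trans ?_)
      linarith

theorem tmm_fin {f g : ℕ → ℤ} {ζ : ℂ} {R I E s ρ : ℕ} (hR : Pk R (rq f)) (hI : Pk I (rq g))
    (hs : l1 f + l1 g ≤ 2 ^ 28 * (s + 1)) (hρ : ρ = 36 ∨ ρ = 19 ∧ g = fun _ => 0)
    (h : ‖2 ^ 56 * ζ - evC x (res f) (res g)‖ ≤ E) :
    Rep x ⟨R, I, Nat.add (Nat.shiftRight E 28) ρ, Nat.add s 36⟩ ζ := by
  refine fun _ => ⟨_, _, hR, hI, ?_, ?_⟩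
  · have h1 := l1_rq f
    have h2 := l1_rq g
    have h3 := l1_res f
    have h4 := l1_res g
    show _ ≤ ((s + 36 : ℕ) : ℤ)
    omega
  · have h1 := tmm_err h
    have h2 := tmm_shr E
    have h3 := ev_rq x g
    show _ ≤ ((Nat.shiftRight E 28 + ρ : ℕ) : ℝ)
    rcases hρ with rfl | ⟨rfl, rfl⟩
    · push_cast
      linarith
    · rw [tmm_rq0, tmm_res0, ev_zero, mul_zero, sub_zero, abs_zero] at h1
      rw [tmm_rq0]
      push_cast
      linarith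

theorem tmm_abs (f : ℕ → ℤ) {n : ℕ} (hn : n < 130) : |f n| ≤ l1 f :=
  Finset.single_le_sum (f := fun i => |f i|) (fun _ _ => abs_nonneg _) (Finset.mem_range.2 hn)

theorem tmm_rs {P : ℕ} {f : ℕ → ℤ} {t : ℤ} (j : ℤ) (h : (P : ℤ) = cP + t + cT * j)
    (ht : t ≡ pv f [ZMOD cT]) (hf : l1 f ≤ 3 * 2 ^ 77) :
    Pk (Nat.shiftRight (Nat.land P cM) 28) (rq f) := by
  refine rs_ok ?_ fun n hn => (tmm_abs f hn).trans_lt (by omega)
  refine Int.ModEq.trans ?_ (ht.add_left _)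
  exact Int.modEq_iff_dvd.2 ⟨-j, by rw [h]; ring⟩

theorem tmm_conv (c d : ℕ → ℤ) : pv c * pv d ≡ pv (conv c d) [ZMOD cT] := by
  have : (cT : ℤ) = (2 ^ 80) ^ 130 := by rw [cT_eq, Nat.cast_pow, Nat.cast_pow, Nat.cast_ofNat]
  rw [this]
  exact pv_conv c d

/-- real and imaginary part of a product -/
def cre (c d c' d' : ℕ → ℤ) (n : ℕ) : ℤ := conv c c' n - conv d d' n
def cim (c d c' d' : ℕ → ℤ) (n : ℕ) : ℤ := conv c d' n + conv d c' n

theorem tmm_cre : pv c * pv c' - pv d * pv d' ≡ pv (cre c d c' d') [ZMOD cT] := by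
  rw [show pv (cre c d c' d') = _ from pv_sub _ _]
  exact (tmm_conv _ _).sub (tmm_conv _ _)

theorem tmm_cim : pv c * pv d' + pv d * pv c' ≡ pv (cim c d c' d') [ZMOD cT] := by
  rw [show pv (cim c d c' d') = _ from pv_add _ _]
  exact (tmm_conv _ _).add (tmm_conv _ _)

theorem tmm_l1 {ma a1 a2 a3 mb b1 b2 b3 : ℕ} (na : NS c d ma a1 a2 a3)
    (nb : NS c' d' mb b1 b2 b3) :
    4 * (l1 (cre c d c' d') + l1 (cim c d c' d')) ≤ 9 * ((ma * mb : ℕ) : ℤ) := by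
  have h1 : l1 (cre c d c' d') ≤ _ := (l1_sub _ _).trans (add_le_add (l1_conv _ _) (l1_conv _ _))
  have h2 : l1 (cim c d c' d') ≤ _ := (l1_add _ _).trans (add_le_add (l1_conv _ _) (l1_conv _ _))
  have h3 := mul_le_mul na.hl nb.hl
    (by have := l1_nonneg c'; have := l1_nonneg d'; omega) (by positivity)
  push_cast
  linarith

theorem tmm_trunc {ma a1 a2 a3 mb b1 b2 b3 : ℕ} (na : NS c d ma a1 a2 a3)
    (nb : NS c' d' mb b1 b2 b3) (hc : Sp c) (hd : Sp d) (hc' : Sp c') (hd' : Sp d') :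
    ‖evC x c d * evC x c' d' - evC x (res (cre c d c' d')) (res (cim c d c' d'))‖ ≤
      (((a1 - a2) * b3 + (a2 - a3) * b2 + a3 * b1 : ℕ) : ℝ) := by
  have r1 : res (cre c d c' d') = fun n => res (conv c c') n - res (conv d d') n := by
    funext n; simp only [res, cre]; split_ifs <;> simp
  have r2 : res (cim c d c' d') = fun n => res (conv c d') n + res (conv d c') n := by
    funext n; simp only [res, cim]; split_ifs <;> simp
  have e1 : evC x c d * evC x c' d' - evC x (res (cre c d c' d')) (res (cim c d c' d')) =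
      (((ev x c * ev x c' - ev x (res (conv c c'))) - (ev x d * ev x d' - ev x (res (conv d d')))
        : ℝ) : ℂ) + (((ev x c * ev x d' - ev x (res (conv c d'))) +
          (ev x d * ev x c' - ev x (res (conv d c'))) : ℝ) : ℂ) * Complex.I := by
    unfold evC
    rw [r1, r2, ev_sub, ev_add]
    push_cast
    linear_combination ((ev x d : ℂ) * ev x d') * Complex.I_sq
  rw [e1]
  refine (tmm_norm _ _).trans ((add_le_add
    ((abs_sub _ _).trans (add_le_add (ev_conv x hc hc') (ev_conv x hd hd')))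
    ((abs_add_le _ _).trans (add_le_add (ev_conv x hc hd') (ev_conv x hd hc')))).trans ?_)
  rw [← Int.cast_add, ← Int.cast_add, ← Int.cast_add, ← Int.cast_natCast, Int.cast_le]
  obtain ⟨κ, k0, k1, k2, k3⟩ := na.ex
  obtain ⟨μ, m0, m1, m2, m3⟩ := nb.ex
  have h21 := na.h21
  have h32 := na.h32
  have g21 : (b2 : ℤ) ≤ b1 := by exact_mod_cast nb.h21
  have g32 : (b3 : ℤ) ≤ b2 := by exact_mod_cast nb.h32
  push_cast [h21, h32]
  have p1 := add_nonneg (G_nonneg 30 60 c') (G_nonneg 30 60 d')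
  have p2 := add_nonneg (G_nonneg 60 90 c') (G_nonneg 60 90 d')
  have p3 := add_nonneg (G_nonneg 90 130 c') (G_nonneg 90 130 d')
  have q1 := mul_le_mul k1 (show G 90 130 c' + G 90 130 d' ≤ b3 by omega) p3
    ((add_nonneg (G_nonneg _ _ _) (G_nonneg _ _ _)).trans k1)
  have q2 := mul_le_mul k2 (show G 60 90 c' + G 60 90 d' + (G 90 130 c' + G 90 130 d') ≤ b2 by omega)
    (add_nonneg p2 p3) ((add_nonneg (G_nonneg _ _ _) (G_nonneg _ _ _)).trans k2)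
  have q3 := mul_le_mul k3 (show G 30 60 c' + G 30 60 d' + (G 60 90 c' + G 60 90 d') +
    (G 90 130 c' + G 90 130 d') ≤ b1 by omega) (add_nonneg (add_nonneg p1 p2) p3)
    ((add_nonneg (G_nonneg _ _ _) (G_nonneg _ _ _)).trans k3)
  have q4 := mul_le_mul_of_nonneg_left g21 k0
  have q5 := mul_le_mul_of_nonneg_left g32 k0
  have q6 := mul_nonneg k0 (Int.natCast_nonneg b1)
  linarith

theorem tmm_mul {ma a1 a2 a3 mb b1 b2 b3 R I ρ : ℕ} (na : NS c d ma a1 a2 a3)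
    (nb : NS c' d' mb b1 b2 b3) (hc : Sp c) (hd : Sp d) (hc' : Sp c') (hd' : Sp d') {z w : ℂ}
    {ea eb : ℕ} (hz : ‖2 ^ 28 * z - evC x c d‖ ≤ ea) (hw : ‖2 ^ 28 * w - evC x c' d'‖ ≤ eb)
    (hR : Pk R (rq (cre c d c' d'))) (hI : Pk I (rq (cim c d c' d')))
    (hρ : ρ = 36 ∨ ρ = 19 ∧ cim c d c' d' = fun _ => 0) :
    Rep x ⟨R, I, Nat.add (Nat.shiftRight (Nat.add (Nat.add (Nat.add (Nat.add
      (Nat.mul ea (Nat.add mb eb)) (Nat.mul eb ma)) (Nat.mul (Nat.sub a1 a2) b3))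
      (Nat.mul (Nat.sub a2 a3) b2)) (Nat.mul a3 b1)) 28) ρ,
      Nat.add (Nat.shiftRight (Nat.mul ma mb) 26) 36⟩ (z * w) := by
  refine tmm_fin hR hI ?_ hρ ?_
  · have h1 := tmm_l1 na nb
    have h2 : Nat.shiftRight (Nat.mul ma mb) 26 = ma * mb / 2 ^ 26 :=
      Nat.shiftRight_eq_div_pow _ 26
    omega
  · have h1 := tmm_trunc (x := x) na nb hc hd hc' hd'
    have h2 := na.hm x
    have h3 := nb.hm x
    generalize evC x (res _) (res _) = Q at h1 ⊢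
    generalize evC x c d = A at h1 h2 hz
    generalize evC x c' d' = B at h1 h3 hw
    have e1 : 2 ^ 56 * (z * w) - Q = (2 ^ 28 * z - A) * (B + (2 ^ 28 * w - B)) +
        (2 ^ 28 * w - B) * A + (A * B - Q) := by ring
    have e2 : Nat.add (Nat.add (Nat.add (Nat.add (Nat.mul ea (Nat.add mb eb)) (Nat.mul eb ma))
        (Nat.mul (Nat.sub a1 a2) b3)) (Nat.mul (Nat.sub a2 a3) b2)) (Nat.mul a3 b1) =
        ea * (mb + eb) + eb * ma + ((a1 - a2) * b3 + (a2 - a3) * b2 + a3 * b1) := by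
      simp only [Nat.add_eq, Nat.mul_eq, Nat.sub_eq, add_assoc]
    rw [e1, e2, Nat.cast_add, Nat.cast_add, Nat.cast_mul, Nat.cast_mul, Nat.cast_add]
    refine (norm_add_le _ _).trans (add_le_add ((norm_add_le _ _).trans (add_le_add ?_ ?_)) h1)
    · rw [norm_mul]
      exact mul_le_mul hz ((norm_add_le _ _).trans (add_le_add h3 hw)) (norm_nonneg _)
        (Nat.cast_nonneg _)
    · rw [norm_mul]
      exact mul_le_mul hw h2 (norm_nonneg _) (Nat.cast_nonneg _)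

theorem tmm_guard {g : Bool} {sa sb t : ℕ} (h : Bool.rec (motive := fun _ => Bool) false g
    (Nat.ble (Nat.add (Nat.add sa sb) (Nat.shiftRight t 26)) 2251799813685247) = true) :
    sa < 2 ^ 51 ∧ sb < 2 ^ 51 ∧ t < 2 ^ 77 ∧ g = true := by
  obtain ⟨h1, h2⟩ := guard h
  have h3 : sa + sb + Nat.shiftRight t 26 ≤ 2251799813685247 := Nat.le_of_ble_eq_true h1
  have h4 : Nat.shiftRight t 26 = t / 2 ^ 26 := Nat.shiftRight_eq_div_pow _ 26
  exact ⟨by omega, by omega, by omega, h2⟩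

theorem tmm_le {ma a1 a2 a3 mb b1 b2 b3 : ℕ} (na : NS c d ma a1 a2 a3)
    (nb : NS c' d' mb b1 b2 b3) (ht : Nat.mul ma mb < 2 ^ 77) :
    l1 (cre c d c' d') ≤ 3 * 2 ^ 77 ∧ l1 (cim c d c' d') ≤ 3 * 2 ^ 77 := by
  have h1 := tmm_l1 na nb
  have h2 := l1_nonneg (cre c d c' d')
  have h3 := l1_nonneg (cim c d c' d')
  have h4 : ma * mb < 2 ^ 77 := ht
  omega

theorem tmm_one {X Y : ℕ} {α β : ℤ} (hX : (X : ℤ) = cT + α) (hY : (Y : ℤ) = cT + β) :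
    ((Nat.add (Nat.mul X Y) cP : ℕ) : ℤ) = cP + α * β + cT * (cT + α + β) := by
  rw [Nat.add_eq, Nat.mul_eq, Nat.cast_add, Nat.cast_mul, hX, hY]
  ring

theorem mulCC_ok (h : mulCC a b k = true) :
    ∃ c, k c = true ∧ ∀ x z w, Rep x a z → Rep x b w → Rep x c (z * w) := by
  obtain ⟨sa, sb, ht, hk⟩ := tmm_guard h
  refine ⟨_, hk, fun x z w hz hw => ?_⟩
  obtain ⟨c, d, hc, hd, hl, he⟩ := hz sa
  obtain ⟨c', d', hc', hd', hl', he'⟩ := hw sb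
  have na := nsC hc hd (by omega)
  have nb := nsC hc' hd' (by omega)
  obtain ⟨b1, b2⟩ := tmn_bd hc.1 hd.1 (by omega)
  obtain ⟨b3, b4⟩ := tmn_bd hc'.1 hd'.1 (by omega)
  obtain ⟨x1, y1⟩ := hc.xf b1
  obtain ⟨x2, y2⟩ := hd.xf b2
  obtain ⟨x3, y3⟩ := hc'.xf b3
  obtain ⟨x4, y4⟩ := hd'.xf b4
  have x5 : ((Nat.sub (Nat.add b.2 cT) b.1 : ℕ) : ℤ) = cT + (pv d' - pv c') := by
    have s1 : Sp fun n => d' n - c' n := fun n hn => by simp only [hc'.1 n hn, hd'.1 n hn, sub_zero]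
    have h1 := (abs_le.1 (abs_pv_le s1 (s1.bd ((l1_sub _ _).trans_lt (by omega))))).1
    have h2 := hc'.2
    have h3 := hd'.2
    rw [pv_sub] at h1
    rw [Nat.sub_eq, Nat.add_eq]
    generalize cT = T at *
    generalize cH = H at *
    omega
  obtain ⟨l1, l2⟩ := tmm_le na nb ht
  generalize Nat.add a.1 cX = X1 at *
  generalize Nat.add a.2 cX = X2 at *
  generalize Nat.add b.1 cX = X3 at *
  generalize Nat.add b.2 cX = X4 at *
  generalize Nat.sub (Nat.add b.2 cT) b.1 = X5 at *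
  refine tmm_mul na nb hc.1 hd.1 hc'.1 hd'.1 he he'
    (tmm_rs (pv c + pv c' - pv d - pv d' + 1024 * cT) ?_ tmm_cre l1)
    (tmm_rs (3 * cT + 2 * pv c + pv d + pv c' + pv d' + 1024 * cT) ?_ tmm_cim l2) (Or.inl rfl)
  · have h1 : Nat.mul X2 (Nat.add X3 X4) ≤ Nat.add (Nat.mul X3 (Nat.add X1 X2)) cQ := by
      have := Nat.mul_le_mul y2 (Nat.add_le_add y3 y4)
      rw [cQ_eq]
      generalize cT = T at *
      simp only [Nat.add_eq, Nat.mul_eq]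
      nlinarith [Nat.zero_le (X3 * (X1 + X2)), Nat.zero_le cP, Nat.zero_le (T * T)]
    rw [Nat.sub_eq, Nat.cast_sub h1, cQ_eq]
    simp only [Nat.add_eq, Nat.mul_eq, Nat.cast_add, Nat.cast_mul, x1, x2, x3, x4, Nat.cast_ofNat]
    ring
  · rw [cQ_eq]
    simp only [Nat.add_eq, Nat.mul_eq, Nat.cast_add, Nat.cast_mul, x1, x2, x3, x5, Nat.cast_ofNat]
    ring

theorem mulRC_ok (ha : a.2 = cH) (h : mulRC a b k = true) :
    ∃ c, k c = true ∧ ∀ x z w, Rep x a z → Rep x b w → Rep x c (z * w) := by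
  obtain ⟨sa, sb, ht, hk⟩ := tmm_guard h
  refine ⟨_, hk, fun x z w hz hw => ?_⟩
  obtain ⟨c, d, hc, hd, hl, he⟩ := hz sa
  obtain ⟨c', d', hc', hd', hl', he'⟩ := hw sb
  obtain ⟨b1, b2⟩ := tmn_bd hc.1 hd.1 (by omega)
  obtain ⟨b3, b4⟩ := tmn_bd hc'.1 hd'.1 (by omega)
  obtain rfl := (ha ▸ hd).eq_zero b2
  have na := nsR hc (by rw [l1_zero] at hl; omega)
  have nb := nsC hc' hd' (by omega)
  obtain ⟨l1, l2⟩ := tmm_le na nb ht
  exact tmm_mul na nb hc.1 hd.1 hc'.1 hd'.1 he he'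
    (tmm_rs _ (tmm_one (hc.xf b1).1 (hc'.xf b3).1)
      (by simpa only [pv_zero, zero_mul, sub_zero] using tmm_cre (d := fun _ => 0)) l1)
    (tmm_rs _ (tmm_one (hc.xf b1).1 (hd'.xf b4).1)
      (by simpa only [pv_zero, zero_mul, add_zero] using tmm_cim (d := fun _ => 0)) l2) (Or.inl rfl)

theorem mulCR_ok (hb : b.2 = cH) (h : mulCR a b k = true) :
    ∃ c, k c = true ∧ ∀ x z w, Rep x a z → Rep x b w → Rep x c (z * w) := by
  obtain ⟨sa, sb, ht, hk⟩ := tmm_guard h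
  refine ⟨_, hk, fun x z w hz hw => ?_⟩
  obtain ⟨c, d, hc, hd, hl, he⟩ := hz sa
  obtain ⟨c', d', hc', hd', hl', he'⟩ := hw sb
  obtain ⟨b1, b2⟩ := tmn_bd hc.1 hd.1 (by omega)
  obtain ⟨b3, b4⟩ := tmn_bd hc'.1 hd'.1 (by omega)
  obtain rfl := (hb ▸ hd').eq_zero b4
  have na := nsC hc hd (by omega)
  have nb := nsR hc' (by rw [l1_zero] at hl'; omega)
  obtain ⟨l1, l2⟩ := tmm_le na nb ht
  exact tmm_mul na nb hc.1 hd.1 hc'.1 hd'.1 he he'
    (tmm_rs _ (tmm_one (hc.xf b1).1 (hc'.xf b3).1)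
      (by simpa only [pv_zero, mul_zero, sub_zero] using tmm_cre (d' := fun _ => 0)) l1)
    (tmm_rs _ (tmm_one (hd.xf b2).1 (hc'.xf b3).1)
      (by simpa only [pv_zero, mul_zero, zero_add] using tmm_cim (d' := fun _ => 0)) l2)
    (Or.inl rfl)

theorem mulRR_ok (ha : a.2 = cH) (hb : b.2 = cH) (h : mulRR a b k = true) :
    ∃ c, k c = true ∧ ∀ x z w, Rep x a z → Rep x b w → Rep x c (z * w) := by
  obtain ⟨sa, sb, ht, hk⟩ := tmm_guard h
  refine ⟨_, hk, fun x z w hz hw => ?_⟩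
  obtain ⟨c, d, hc, hd, hl, he⟩ := hz sa
  obtain ⟨c', d', hc', hd', hl', he'⟩ := hw sb
  obtain ⟨b1, b2⟩ := tmn_bd hc.1 hd.1 (by omega)
  obtain ⟨b3, b4⟩ := tmn_bd hc'.1 hd'.1 (by omega)
  obtain rfl := (ha ▸ hd).eq_zero b2
  obtain rfl := (hb ▸ hd').eq_zero b4
  have na := nsR hc (by rw [l1_zero] at hl; omega)
  have nb := nsR hc' (by rw [l1_zero] at hl'; omega)
  have e0 : cim c (fun _ => 0) c' (fun _ => 0) = fun _ => 0 := by
    funext n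
    simp [cim, conv]
  exact tmm_mul na nb hc.1 hd.1 hc'.1 hd'.1 he he'
    (tmm_rs _ (tmm_one (hc.xf b1).1 (hc'.xf b3).1)
      (by simpa only [pv_zero, mul_zero, sub_zero] using tmm_cre (d' := fun _ => 0))
      (tmm_le na nb ht).1) (by rw [e0, tmm_rq0]; exact pk_cH) (Or.inr ⟨rfl, e0⟩)

theorem tmm_t {s n : ℕ} (h : Nat.mul (Nat.add 1048576 s) (Nat.add 134217728 n) ≤
    302231454903657293676544) : s < 2 ^ 51 ∧ n ≤ 2 ^ 58 := by
  have h1 : (1048576 + s) * (134217728 + n) ≤ 302231454903657293676544 := h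
  constructor <;> nlinarith [Nat.zero_le (s * n)]

theorem tmm_refl {u v : ℤ} (h : u = v) : u ≡ v [ZMOD cT] := h ▸ Int.ModEq.refl _

theorem tmm_int (u v : ℤ) :
    ‖(u : ℂ) + v * Complex.I‖ = Real.sqrt ((u : ℝ) ^ 2 + (v : ℝ) ^ 2) := by
  simpa using tmn_norm u v

theorem tmm_nat (u v : ℕ) :
    ‖(u : ℂ) + v * Complex.I‖ = Real.sqrt ((u : ℝ) ^ 2 + (v : ℝ) ^ 2) := by
  simpa using tmn_norm u v

theorem tmm_scl (u v : ℤ) {n N R I : ℕ} {z w : ℂ}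
    (ht : Nat.mul (Nat.add 1048576 a.4) (Nat.add 134217728 n) ≤ 302231454903657293676544)
    (hn : |u| + |v| ≤ n) (hN : ‖(u : ℂ) + v * Complex.I‖ ≤ N)
    (hP : ∀ c d, Pk a.1 c → Pk a.2 d → Bd c → Bd d →
      l1 (fun n => c n * u - d n * v) ≤ 3 * 2 ^ 77 → l1 (fun n => c n * v + d n * u) ≤ 3 * 2 ^ 77 →
      Pk R (rq fun n => c n * u - d n * v) ∧ Pk I (rq fun n => c n * v + d n * u))
    (hz : Rep x a z) (hw : 2 ^ 28 * ‖z‖ ≤ ((a.3 + a.4 : ℕ) : ℝ) →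
      2 ^ 28 * ‖2 ^ 28 * w - z * (u + v * Complex.I)‖ ≤ e) :
    Rep x ⟨R, I, Nat.add (Nat.shiftRight (Nat.add (Nat.mul a.3 N) e) 28) 36, Nat.add (Nat.shiftRight
      (Nat.mul (Nat.add 1048576 a.4) (Nat.add 134217728 n)) 28) 36⟩ w := by
  obtain ⟨c, d, hc, hd, hl, he⟩ := hz (tmm_t ht).1
  have hs := (tmm_t ht).1
  obtain ⟨b1, b2⟩ := tmn_bd hc.1 hd.1 (by omega)
  have p1 := l1_nonneg fun n => c n * u - d n * v
  have p2 := l1_nonneg fun n => c n * v + d n * u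
  have h1 : l1 (fun n => c n * u - d n * v) + l1 (fun n => c n * v + d n * u) ≤
      (Nat.mul (Nat.add 1048576 a.4) (Nat.add 134217728 n) : ℕ) := by
    have q1 := l1_sub (fun n => c n * u) (fun n => d n * v)
    have q2 := l1_add (fun n => c n * v) (fun n => d n * u)
    rw [l1_mul, l1_mul] at q1 q2
    have q3 := mul_le_mul hl hn (by positivity) (by positivity)
    have q4 : (a.4 : ℤ) * n ≤ (1048576 + a.4) * (134217728 + n) :=
      mul_le_mul (by omega) (by omega) (by positivity) (by positivity)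
    simp only [Nat.add_eq, Nat.mul_eq]
    push_cast
    linarith only [q1, q2, q3, q4]
  obtain ⟨hR, hI⟩ := hP c d hc hd b1 b2 (by omega) (by omega)
  refine tmm_fin hR hI ?_ (Or.inl rfl) ?_
  · generalize Nat.mul _ _ = t at h1 ⊢
    have h2 : Nat.shiftRight t 28 = t / 2 ^ 28 := Nat.shiftRight_eq_div_pow _ 28
    omega
  · have h2 : ‖evC x c d‖ ≤ a.4 := by
      refine (tmm_norm _ _).trans ((add_le_add (abs_ev_le x c) (abs_ev_le x d)).trans ?_)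
      exact_mod_cast hl
    have h3 := hw ((tmn_tri he).1.trans (by push_cast; linarith))
    rw [res_eq fun n hn => by simp only [hc.1 n hn, hd.1 n hn, zero_mul, sub_zero],
      res_eq fun n hn => by simp only [hc.1 n hn, hd.1 n hn, zero_mul, add_zero]]
    have e1 : 2 ^ 56 * w - evC x (fun n => c n * u - d n * v) (fun n => c n * v + d n * u) =
        (2 ^ 28 * z - evC x c d) * (u + v * Complex.I) +
          2 ^ 28 * (2 ^ 28 * w - z * (u + v * Complex.I)) := by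
      unfold evC
      rw [ev_sub, ev_add, ev_mul, ev_mul, ev_mul, ev_mul]
      push_cast
      linear_combination ((ev x d : ℂ) * v) * Complex.I_sq
    rw [e1, Nat.add_eq, Nat.mul_eq, Nat.cast_add, Nat.cast_mul]
    refine (norm_add_le _ _).trans (add_le_add ?_ ?_)
    · rw [norm_mul]
      exact mul_le_mul he hN (norm_nonneg _) (Nat.cast_nonneg _)
    · rwa [norm_mul, norm_pow, Complex.norm_two]

section

variable {X Y : ℕ} {α β : ℤ}

theorem tmm_big (hX : X ≤ 2 * cT) (hY : Y ≤ 2 * cT) (h : p + q ≤ 2 ^ 58) : X * p + Y * q ≤ cP := by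
  have h1 := cP_ge
  generalize cT = T at *
  have h2 := Nat.mul_le_mul_right p hX
  have h3 := Nat.mul_le_mul_right q hY
  have h4 := Nat.mul_le_mul_left (2 * T) h
  nlinarith [Nat.zero_le T]

theorem tmm_pm (hX : (X : ℤ) = cT + α ∧ X ≤ 2 * cT) (hY : (Y : ℤ) = cT + β ∧ Y ≤ 2 * cT)
    (h : p + q ≤ 2 ^ 58) : ((Nat.sub (Nat.add (Nat.mul X p) cP) (Nat.mul Y q) : ℕ) : ℤ) =
      cP + (α * p - β * q) + cT * (p - q) := by
  have := tmm_big hX.2 hY.2 h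
  simp only [Nat.add_eq, Nat.mul_eq, Nat.sub_eq]
  rw [Nat.cast_sub (by omega), Nat.cast_add, Nat.cast_mul, Nat.cast_mul, hX.1, hY.1]
  ring

theorem tmm_pp (hX : (X : ℤ) = cT + α ∧ X ≤ 2 * cT) (hY : (Y : ℤ) = cT + β ∧ Y ≤ 2 * cT) :
    ((Nat.add (Nat.add (Nat.mul X p) cP) (Nat.mul Y q) : ℕ) : ℤ) =
      cP + (α * p + β * q) + cT * (p + q) := by
  simp only [Nat.add_eq, Nat.mul_eq]
  rw [Nat.cast_add, Nat.cast_add, Nat.cast_mul, Nat.cast_mul, hX.1, hY.1]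
  ring

theorem tmm_mm (hX : (X : ℤ) = cT + α ∧ X ≤ 2 * cT) (hY : (Y : ℤ) = cT + β ∧ Y ≤ 2 * cT)
    (h : p + q ≤ 2 ^ 58) : ((Nat.sub (Nat.sub cP (Nat.mul X p)) (Nat.mul Y q) : ℕ) : ℤ) =
      cP + (-(α * p) - β * q) + cT * (-p - q) := by
  have := tmm_big hX.2 hY.2 h
  simp only [Nat.mul_eq, Nat.sub_eq]
  rw [Nat.cast_sub (by omega), Nat.cast_sub (by omega), Nat.cast_mul, Nat.cast_mul, hX.1, hY.1]
  ring

theorem tmm_p (hX : (X : ℤ) = cT + α ∧ X ≤ 2 * cT) :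
    ((Nat.add (Nat.mul X p) cP : ℕ) : ℤ) = cP + α * p + cT * p := by
  rw [Nat.add_eq, Nat.mul_eq, Nat.cast_add, Nat.cast_mul, hX.1]
  ring

theorem tmm_m (hX : (X : ℤ) = cT + α ∧ X ≤ 2 * cT) (h : p ≤ 2 ^ 58) :
    ((Nat.sub cP (Nat.mul X p) : ℕ) : ℤ) = cP + -(α * p) + cT * -p := by
  have := tmm_big (q := 0) hX.2 hX.2 h
  rw [Nat.sub_eq, Nat.mul_eq, Nat.cast_sub (by omega), Nat.cast_mul, hX.1]
  ring

end

theorem mcPP_ok (h : mcPP a p q e k = true) :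
    ∃ c, k c = true ∧ ∀ x z w, Rep x a z → (2 ^ 28 * ‖z‖ ≤ ((a.3 + a.4 : ℕ) : ℝ) →
      2 ^ 28 * ‖2 ^ 28 * w - z * (p + q * Complex.I)‖ ≤ e) → Rep x c w := by
  obtain ⟨h1, hk⟩ := guard h
  have ht := Nat.le_of_ble_eq_true h1
  refine ⟨_, hk, fun x z w hz hw => tmm_scl (p) (q) ht (by simp) ?_ ?_ hz
    (by simpa [sub_eq_add_neg] using hw)⟩
  · refine le_of_eq_of_le ?_ (cn_ge p q)
    rw [tmm_int, tmm_nat]
    simp
  · intro c d hc hd b1 b2 l1 l2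
    have hn : p + q ≤ 2 ^ 58 := (tmm_t ht).2
    exact ⟨tmm_rs _ (tmm_pm (hc.xf b1) (hd.xf b2) hn) (tmm_refl (by rw [pv_sub, pv_mul, pv_mul])) l1,
      tmm_rs _ (tmm_pp (hc.xf b1) (hd.xf b2)) (tmm_refl (by rw [pv_add, pv_mul, pv_mul])) l2⟩

theorem mcPM_ok (h : mcPM a p q e k = true) :
    ∃ c, k c = true ∧ ∀ x z w, Rep x a z → (2 ^ 28 * ‖z‖ ≤ ((a.3 + a.4 : ℕ) : ℝ) →
      2 ^ 28 * ‖2 ^ 28 * w - z * (p - q * Complex.I)‖ ≤ e) → Rep x c w := by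
  obtain ⟨h1, hk⟩ := guard h
  have ht := Nat.le_of_ble_eq_true h1
  refine ⟨_, hk, fun x z w hz hw => tmm_scl (p) (-q) ht (by simp) ?_ ?_ hz
    (by simpa [sub_eq_add_neg] using hw)⟩
  · refine le_of_eq_of_le ?_ (cn_ge p q)
    rw [tmm_int, tmm_nat]
    simp
  · intro c d hc hd b1 b2 l1 l2
    have hn : p + q ≤ 2 ^ 58 := (tmm_t ht).2
    exact ⟨tmm_rs _ (tmm_pp (hc.xf b1) (hd.xf b2)) (tmm_refl (by rw [pv_sub, pv_mul, pv_mul]; ring)) l1,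
      tmm_rs _ (tmm_pm (hd.xf b2) (hc.xf b1) hn) (tmm_refl (by rw [pv_add, pv_mul, pv_mul]; ring)) l2⟩

theorem mcMP_ok (h : mcMP a p q e k = true) :
    ∃ c, k c = true ∧ ∀ x z w, Rep x a z → (2 ^ 28 * ‖z‖ ≤ ((a.3 + a.4 : ℕ) : ℝ) →
      2 ^ 28 * ‖2 ^ 28 * w - z * (-p + q * Complex.I)‖ ≤ e) → Rep x c w := by
  obtain ⟨h1, hk⟩ := guard h
  have ht := Nat.le_of_ble_eq_true h1
  refine ⟨_, hk, fun x z w hz hw => tmm_scl (-p) (q) ht (by simp) ?_ ?_ hz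
    (by simpa [sub_eq_add_neg] using hw)⟩
  · refine le_of_eq_of_le ?_ (cn_ge p q)
    rw [tmm_int, tmm_nat]
    simp
  · intro c d hc hd b1 b2 l1 l2
    have hn : p + q ≤ 2 ^ 58 := (tmm_t ht).2
    exact ⟨tmm_rs _ (tmm_mm (hc.xf b1) (hd.xf b2) hn) (tmm_refl (by rw [pv_sub, pv_mul, pv_mul]; ring)) l1,
      tmm_rs _ (tmm_pm (hc.xf b1) (hd.xf b2) (by omega)) (tmm_refl (by rw [pv_add, pv_mul, pv_mul]; ring)) l2⟩

theorem mcMM_ok (h : mcMM a p q e k = true) :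
    ∃ c, k c = true ∧ ∀ x z w, Rep x a z → (2 ^ 28 * ‖z‖ ≤ ((a.3 + a.4 : ℕ) : ℝ) →
      2 ^ 28 * ‖2 ^ 28 * w - z * (-p - q * Complex.I)‖ ≤ e) → Rep x c w := by
  obtain ⟨h1, hk⟩ := guard h
  have ht := Nat.le_of_ble_eq_true h1
  refine ⟨_, hk, fun x z w hz hw => tmm_scl (-p) (-q) ht (by simp) ?_ ?_ hz
    (by simpa [sub_eq_add_neg] using hw)⟩
  · refine le_of_eq_of_le ?_ (cn_ge p q)
    rw [tmm_int, tmm_nat]
    simp
  · intro c d hc hd b1 b2 l1 l2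
    have hn : p + q ≤ 2 ^ 58 := (tmm_t ht).2
    exact ⟨tmm_rs _ (tmm_pm (hd.xf b2) (hc.xf b1) (by omega)) (tmm_refl (by rw [pv_sub, pv_mul, pv_mul]; ring)) l1,
      tmm_rs _ (tmm_mm (hc.xf b1) (hd.xf b2) (by omega)) (tmm_refl (by rw [pv_add, pv_mul, pv_mul]; ring)) l2⟩

theorem smP_ok (h : smP a p e k = true) :
    ∃ c, k c = true ∧ ∀ x z w, Rep x a z → (2 ^ 28 * ‖z‖ ≤ ((a.3 + a.4 : ℕ) : ℝ) →
      2 ^ 28 * ‖2 ^ 28 * w - z * (p)‖ ≤ e) → Rep x c w := by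
  obtain ⟨h1, hk⟩ := guard h
  have ht := Nat.le_of_ble_eq_true h1
  refine ⟨_, hk, fun x z w hz hw => tmm_scl (p) 0 ht (by simp) (by simp) ?_ hz
    (by simpa using hw)⟩
  intro c d hc hd b1 b2 l1 l2
  have hn : p ≤ 2 ^ 58 := (tmm_t ht).2
  refine ⟨tmm_rs _ (tmm_p (hc.xf b1)) (tmm_refl (by rw [pv_sub, pv_mul, pv_mul]; ring)) l1, ?_⟩
  cases hq : Nat.beq a.2 cH
  · exact tmm_rs _ (tmm_p (hd.xf b2)) (tmm_refl (by rw [pv_add, pv_mul, pv_mul]; ring)) l2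
  · obtain rfl := beq_cH hq hd b2
    simp only [mul_zero, zero_mul, add_zero, tmm_rq0]
    exact pk_cH

theorem smM_ok (h : smM a p e k = true) :
    ∃ c, k c = true ∧ ∀ x z w, Rep x a z → (2 ^ 28 * ‖z‖ ≤ ((a.3 + a.4 : ℕ) : ℝ) →
      2 ^ 28 * ‖2 ^ 28 * w - z * (-p)‖ ≤ e) → Rep x c w := by
  obtain ⟨h1, hk⟩ := guard h
  have ht := Nat.le_of_ble_eq_true h1
  refine ⟨_, hk, fun x z w hz hw => tmm_scl (-p) 0 ht (by simp) (by simp) ?_ hz
    (by simpa using hw)⟩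
  intro c d hc hd b1 b2 l1 l2
  have hn : p ≤ 2 ^ 58 := (tmm_t ht).2
  refine ⟨tmm_rs _ (tmm_m (hc.xf b1) hn) (tmm_refl (by rw [pv_sub, pv_mul, pv_mul]; ring)) l1, ?_⟩
  cases hq : Nat.beq a.2 cH
  · exact tmm_rs _ (tmm_m (hd.xf b2) hn) (tmm_refl (by rw [pv_add, pv_mul, pv_mul]; ring)) l2
  · obtain rfl := beq_cH hq hd b2
    simp only [mul_zero, zero_mul, add_zero, tmm_rq0]
    exact pk_cH

theorem tmm_pos (p : ℕ) : |2 ^ 28 * toR (Int.ofNat p) - (Nat.shiftRight p 12 : ℕ)| ≤ 1 := by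
  have h1 : Nat.shiftRight p 12 = p / 2 ^ 12 := Nat.shiftRight_eq_div_pow _ 12
  have h2 : (4096 : ℝ) * (Nat.shiftRight p 12 : ℕ) ≤ p := by exact_mod_cast (by omega)
  have h3 : (p : ℝ) ≤ 4096 * ((Nat.shiftRight p 12 : ℕ) + 1) := by exact_mod_cast (by omega)
  have h4 : toR (Int.ofNat p) = p / 1099511627776 := by simp [toR]
  rw [h4, abs_le]
  constructor <;> linarith

theorem tmm_neg (p : ℕ) : |2 ^ 28 * toR (Int.negSucc p) - -(Nat.shiftRight p 12 : ℕ)| ≤ 1 := by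
  have h1 : Nat.shiftRight p 12 = p / 2 ^ 12 := Nat.shiftRight_eq_div_pow _ 12
  have h2 : (4096 : ℝ) * (Nat.shiftRight p 12 : ℕ) ≤ p := by exact_mod_cast (by omega)
  have h3 : (p : ℝ) + 1 ≤ 4096 * ((Nat.shiftRight p 12 : ℕ) + 1) := by exact_mod_cast (by omega)
  have h4 : toR (Int.negSucc p) = -(p + 1) / 1099511627776 := by simp [toR, Int.cast_negSucc]
  rw [h4, abs_le]
  constructor <;> linarith

theorem tmm_mc {z y : ℂ} {r s r' s' : ℝ} {m : ℕ} (hr : |2 ^ 28 * r - r'| ≤ 1)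
    (hs : |2 ^ 28 * s - s'| ≤ 1) (hy : y = r' + s' * Complex.I) (h : 2 ^ 28 * ‖z‖ ≤ m) :
    2 ^ 28 * ‖2 ^ 28 * (z * ⟨r, s⟩) - z * y‖ ≤ (Nat.shiftLeft m 1 : ℕ) := by
  have e1 : 2 ^ 28 * (z * ⟨r, s⟩) - z * y =
      z * (((2 ^ 28 * r - r' : ℝ) : ℂ) + ((2 ^ 28 * s - s' : ℝ) : ℂ) * Complex.I) := by
    rw [hy, Complex.mk_eq_add_mul_I]; push_cast; ring
  have e2 : Nat.shiftLeft m 1 = m * 2 := Nat.shiftLeft_eq m 1
  rw [e1, e2, norm_mul, ← mul_assoc, Nat.cast_mul]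
  exact mul_le_mul h ((tmm_norm _ _).trans (by push_cast; linarith)) (norm_nonneg _)
    (Nat.cast_nonneg _)

theorem tmm_sm {z y : ℂ} {r r' m : ℝ} (hr : |2 ^ 28 * r - r'| ≤ 1) (hy : y = r')
    (h : 2 ^ 28 * ‖z‖ ≤ m) : 2 ^ 28 * ‖2 ^ 28 * (z * r) - z * y‖ ≤ m := by
  have e1 : 2 ^ 28 * (z * r) - z * y = z * ((2 ^ 28 * r - r' : ℝ) : ℂ) := by
    rw [hy]; push_cast; ring
  rw [e1, norm_mul, ← mul_assoc, Complex.norm_real]
  exact (mul_le_of_le_one_right (by positivity) hr).trans h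

end TMI

namespace TM

open TMI

variable {a b : TM} {k : TM → Bool} {u v : ℤ}

theorem mul_ok (h : mul a b k = true) :
    ∃ c, k c = true ∧ ∀ x z w, Rep x a z → Rep x b w → Rep x c (z * w) := by
  unfold mul at h
  cases ha : Nat.beq a.2 cH <;> cases hb : Nat.beq b.2 cH <;> rw [ha, hb] at h
  · exact mulCC_ok h
  · exact mulCR_ok (Nat.eq_of_beq_eq_true hb) h
  · exact mulRC_ok (Nat.eq_of_beq_eq_true ha) h
  · exact mulRR_ok (Nat.eq_of_beq_eq_true ha) (Nat.eq_of_beq_eq_true hb) h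

theorem rmul_ok (h : rmul a b k = true) :
    ∃ c, k c = true ∧ ∀ x z w, Rep x a z → Rep x b w → Rep x c (z * w) := mul_ok h

theorem mulc_ok (h : mulc a u v k = true) :
    ∃ c, k c = true ∧ ∀ x z, Rep x a z → Rep x c (z * toC u v) := by
  unfold mulc at h
  rcases u with p | p <;> rcases v with q | q <;> dsimp only at h
  · obtain ⟨c, h1, h2⟩ := mcPP_ok h
    exact ⟨c, h1, fun x z hz => h2 x z _ hz (tmm_mc (tmm_pos p) (tmm_pos q) (by simp))⟩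
  · obtain ⟨c, h1, h2⟩ := mcPM_ok h
    exact ⟨c, h1, fun x z hz => h2 x z _ hz
      (tmm_mc (tmm_pos p) (tmm_neg q) (by simp [sub_eq_add_neg]))⟩
  · obtain ⟨c, h1, h2⟩ := mcMP_ok h
    exact ⟨c, h1, fun x z hz => h2 x z _ hz (tmm_mc (tmm_neg p) (tmm_pos q) (by simp))⟩
  · obtain ⟨c, h1, h2⟩ := mcMM_ok h
    exact ⟨c, h1, fun x z hz => h2 x z _ hz
      (tmm_mc (tmm_neg p) (tmm_neg q) (by simp [sub_eq_add_neg]))⟩

theorem smul_ok (h : smul a u k = true) :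
    ∃ c, k c = true ∧ ∀ x z, Rep x a z → Rep x c (z * (toR u : ℝ)) := by
  unfold smul at h
  rcases u with p | p <;> dsimp only at h
  · obtain ⟨c, h1, h2⟩ := smP_ok h
    exact ⟨c, h1, fun x z hz => h2 x z _ hz (tmm_sm (tmm_pos p) (by simp))⟩
  · obtain ⟨c, h1, h2⟩ := smM_ok h
    exact ⟨c, h1, fun x z hz => h2 x z _ hz (tmm_sm (tmm_neg p) (by simp))⟩

theorem ndiv_ok {n : ℕ} (h : ndiv a n k = true) :
    ∃ c, k c = true ∧ ∀ x z, Rep x a z → Rep x c (z / (n : ℂ)) := by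
  obtain ⟨c, h1, h2⟩ := smP_ok h
  refine ⟨c, h1, fun x z hz => h2 x z _ hz fun h3 => ?_⟩
  have e1 : z / n = z * ((n : ℝ)⁻¹ : ℝ) := by push_cast; rfl
  rw [e1]
  refine tmm_sm (r' := (Nat.div 268435456 n : ℕ)) ?_ (by simp) h3
  rcases Nat.eq_zero_or_pos n with rfl | hn
  · simp
  · have h4 : ((268435456 / n : ℕ) : ℝ) ≤ (268435456 : ℕ) / n := Nat.cast_div_le
    have h5 : (268435456 : ℝ) < n * ((268435456 / n : ℕ) + 1) := by
      exact_mod_cast Nat.lt_mul_div_succ 268435456 hn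
    rw [mul_comm, ← div_lt_iff₀ (by exact_mod_cast hn)] at h5
    rw [← div_eq_mul_inv, abs_le]
    show _ ≤ _ - ((268435456 / n : ℕ) : ℝ) ∧ _ - ((268435456 / n : ℕ) : ℝ) ≤ _
    rw [show (2 : ℝ) ^ 28 = 268435456 by norm_num]
    rw [Nat.cast_ofNat] at h4
    constructor <;> linarith

theorem mean3_ok (h : mean3 a k = true) :
    ∃ c, k c = true ∧ ∀ (x : Pt) (f : ℝ → ℂ), ContinuousOn f (Set.Icc (-1) 1) →
      (∀ y (hy : |y| ≤ 1), Rep (x.set3 y hy) a (f y)) →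
      RepA x c ((1 / 2 : ℂ) * ∫ y in (-1 : ℝ)..1, f y) := by
  obtain ⟨c1, h1, h2⟩ := ndiv_ok h
  obtain ⟨c2, h3, h4⟩ := add_ok h1
  refine ⟨c2, h3, fun x f hf hx y' hy' => ?_⟩
  generalize hm : (1 / 2 : ℂ) * ∫ y in (-1 : ℝ)..1, f y = m
  suffices H : ∃ w, Rep (x.set3 y' hy') ⟨sel0 a.1, sel0 a.2, a.3, a.4⟩ (m - w / (3 : ℕ)) ∧
      Rep (x.set3 y' hy') ⟨sel2 a.1, sel2 a.2, 0, a.4⟩ w by
    obtain ⟨w, k1, k2⟩ := H
    simpa using h4 _ _ _ k1 (h2 _ _ k2)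
  by_cases hs : a.4 < 2 ^ 51
  swap
  · exact ⟨0, fun h => absurd h hs, fun h => absurd h hs⟩
  obtain ⟨c, d, hc, hd, hl, -⟩ := hx 0 (by simp) hs
  obtain ⟨b1, b2⟩ := tmn_bd hc.1 hd.1 (by omega)
  obtain ⟨B, D, e1⟩ := ev_set3 x hc.1
  obtain ⟨B', D', e2⟩ := ev_set3 x hd.1
  have key := mean_bound hf (A := evC x (s0 c) (s0 d)) (B := B + B' * Complex.I)
    (C := evC x (s2 c) (s2 d)) (D := D + D' * Complex.I) (e := a.3) fun y hy => by
      obtain ⟨c', d', hc', hd', hl', he⟩ := hx y hy hs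
      obtain ⟨b3, b4⟩ := tmn_bd hc'.1 hd'.1 (by omega)
      obtain rfl := hc.unique b1 hc' b3
      obtain rfl := hd.unique b2 hd' b4
      refine le_of_eq_of_le (congrArg norm ?_) he
      unfold evC
      rw [e1, e2]
      push_cast
      ring
  refine ⟨evC x (s2 c) (s2 d) / 2 ^ 28,
    fun _ => ⟨_, _, hc.sel0 b1, hd.sel0 b2, (add_le_add (l1_s0 c) (l1_s0 d)).trans hl, ?_⟩,
    fun _ => ⟨_, _, hc.sel2 b1, hd.sel2 b2, (add_le_add (l1_s2 c) (l1_s2 d)).trans hl, ?_⟩⟩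
  · refine le_of_eq_of_le (congrArg norm ?_) key
    rw [hm, show evC (x.set3 y' hy') (s0 c) (s0 d) = evC x (s0 c) (s0 d) by
      unfold evC; rw [ev_s0_set3, ev_s0_set3]]
    push_cast
    ring
  · rw [show evC (x.set3 y' hy') (s2 c) (s2 d) = evC x (s2 c) (s2 d) by
      unfold evC; rw [ev_s2_set3, ev_s2_set3], mul_div_cancel₀ _ (by norm_num), sub_self, norm_zero]
    exact Nat.cast_nonneg _

end TM

end Pool.Agent.Sok
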