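import Pool.Agent.Sok.TMB
import Pool.Agent.Sok.TMP

/-! Taylor models: graded norms and the bounds read off from them. -/

set_option autoImplicit false

namespace Pool.Agent.Sok

open Finset

namespace TMI

/-- what a product needs to know about the norms of a factor -/
structure NS (c d : ℕ → ℤ) (m a1 a2 a3 : ℕ) : Prop where
  h32 : a3 ≤ a2
  h21 : a2 ≤ a1
  ex : ∃ κ : ℤ, 0 ≤ κ ∧ G 30 60 c + G 30 60 d ≤ a1 - a2 + 4 * κ ∧
    G 60 90 c + G 60 90 d ≤ a2 - a3 + 10 * κ ∧ G 90 130 c + G 90 130 d ≤ a3 - 15 * κ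
  hm : ∀ x, ‖evC x c d‖ ≤ m
  hl : 2 * (l1 c + l1 d) ≤ 3 * m

variable {a : TM} {c d : ℕ → ℤ}

theorem pk_cH : Pk cH (fun _ => 0) := ⟨fun _ _ => rfl, by rw [pv_zero, add_zero]⟩

theorem Pk.eq_zero (h : Pk cH d) (hb : Bd d) : d = fun _ => 0 :=
  h.unique hb pk_cH (fun _ => by constructor <;> norm_num)

theorem tmn_norm (u v : ℝ) : ‖(u : ℂ) + v * Complex.I‖ = Real.sqrt (u ^ 2 + v ^ 2) :=
  Complex.norm_add_mul_I u v

theorem tmn_cn (p q : ℕ) : ∃ f : ℕ, 4096 * f ≤ 2399 * min p q ∧ cn p q + f = p + q ∧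
    Nat.shiftRight (Nat.mul (Nat.sub p (Nat.sub p q)) 2399) 12 = f := by
  refine ⟨(p - (p - q)) * 2399 / 4096, by omega, ?_, Nat.shiftRight_eq_div_pow _ 12⟩
  have : cn p q = p + q - (p - (p - q)) * 2399 / 4096 :=
    congrArg (p + q - ·) (Nat.shiftRight_eq_div_pow _ 12)
  omega

theorem tmn_cn_sq (p q : ℕ) : p ^ 2 + q ^ 2 ≤ cn p q ^ 2 := by
  obtain ⟨f, h1, h2, -⟩ := tmn_cn p q
  generalize cn p q = r at h2
  rcases le_total p q with h | h
  · rw [min_eq_left h] at h1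
    obtain ⟨t, rfl⟩ : ∃ t, r = q + t := ⟨r - q, by omega⟩
    have h3 : 1697 * p ≤ 4096 * t := by omega
    nlinarith [Nat.mul_le_mul h3 h3, Nat.mul_le_mul h h3]
  · rw [min_eq_right h] at h1
    obtain ⟨t, rfl⟩ : ∃ t, r = p + t := ⟨r - p, by omega⟩
    have h3 : 1697 * q ≤ 4096 * t := by omega
    nlinarith [Nat.mul_le_mul h3 h3, Nat.mul_le_mul h h3]

theorem tmn_le {p q r : ℕ} (h : p ^ 2 + q ^ 2 ≤ r ^ 2) : ‖(p : ℂ) + q * Complex.I‖ ≤ r := by
  have := tmn_norm p q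
  push_cast at this
  rw [this]
  exact Real.sqrt_le_iff.2 ⟨Nat.cast_nonneg _, by exact_mod_cast h⟩

theorem cn_ge (p q : ℕ) : ‖(p : ℂ) + q * Complex.I‖ ≤ cn p q := tmn_le (tmn_cn_sq p q)

theorem tmn_mono {u v u' v' : ℝ} (hu : |u| ≤ u') (hv : |v| ≤ v') :
    ‖(u : ℂ) + v * Complex.I‖ ≤ ‖(u' : ℂ) + v' * Complex.I‖ := by
  rw [tmn_norm, tmn_norm]
  exact Real.sqrt_le_sqrt (add_le_add (sq_le_sq' (abs_le.1 hu).1 (abs_le.1 hu).2)
    (sq_le_sq' (abs_le.1 hv).1 (abs_le.1 hv).2))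

theorem tmn_wv (h : Sp c) {n : ℕ} (hn : n < 130) :
    (wv c n : ℤ) ≤ |c n| ∧ |c n| ≤ wv c n + if gd n then 1 else 0 := by
  have h0 := h n
  unfold wv
  rw [if_neg (by omega)]
  cases hg : gd n
  · simp [h0 hg]
  · rw [if_pos rfl]
    rcases abs_cases (c n) with h1 | h1 <;> split_ifs <;> omega

theorem tmn_wv_le (hb : Bd c) (n : ℕ) : wv c n ≤ 2 ^ 51 := by
  have := hb n
  unfold wv
  split_ifs <;> omega

/-- tails of the sums of digits -/
def tl (j : ℕ) (z : ℕ → ℕ) : ℕ := ∑ n ∈ range 131, if j ≤ n then z n else 0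

theorem tl_add (j : ℕ) (z z' : ℕ → ℕ) : tl j (fun n => z n + z' n) = tl j z + tl j z' := by
  unfold tl
  rw [← sum_add_distrib]
  exact sum_congr rfl fun n _ => by split_ifs <;> rfl

theorem tmn_sum_lt {z : ℕ → ℕ} (h : ∀ n, z n ≤ 2 ^ 52) :
    ∑ n ∈ range 131, z n < 1152922604119523329 :=
  lt_of_le_of_lt (sum_le_card_nsmul _ _ _ fun n _ => h n) (by simp)

theorem tmn_tl (h : Sp c) {lo hi : ℕ} (h1 : lo ≤ hi) (h2 : hi ≤ 130) :
    (tl lo (wv c) : ℤ) - tl hi (wv c) ≤ G lo hi c ∧ G lo hi c ≤ tl lo (wv c) - tl hi (wv c) +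
      (∑ n ∈ range 130, if lo ≤ n ∧ n < hi ∧ gd n = true then 1 else 0 : ℕ) := by
  unfold tl G
  rw [sum_range_succ _ 130, sum_range_succ (fun n => if hi ≤ n then wv c n else 0) 130,
    if_pos (h1.trans h2), if_pos h2]
  push_cast
  rw [add_sub_add_right_eq_sub, ← sum_sub_distrib, ← sum_add_distrib]
  constructor <;> refine sum_le_sum fun n hn => ?_ <;>
    have := tmn_wv h (mem_range.1 hn) <;> generalize gd n = g at this ⊢ <;> cases g <;>
    simp only [Bool.false_eq_true, and_false, and_true, if_false, if_true] at this ⊢ <;>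
    split_ifs <;> omega

theorem tmn_low : ∀ n < 30, n ≠ 0 → gd n = false ∧ ge n = false := by decide +kernel

theorem tmn_ge : ∀ n < 130, ge n = true → gd n = true := by decide +kernel

theorem tmn_facts (h : Sp c) : ∃ a1 a2 a3 : ℕ, ∑ n ∈ range 131, wv c n = wv c 0 + tl 30 (wv c) ∧
    tl 30 (wv c) = a1 + a2 + a3 + 35 ∧ tl 60 (wv c) = a2 + a3 + 35 ∧ tl 90 (wv c) = a3 + 35 ∧
    G 30 60 c ≤ a1 + 4 ∧ G 60 90 c ≤ a2 + 10 ∧ G 90 130 c ≤ a3 + 20 ∧
    (wv c 0 : ℤ) ≤ |c 0| ∧ |c 0| ≤ wv c 0 + 1 := by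
  have e1 := (tmn_tl h (lo := 30) (hi := 60) (by omega) (by omega)).2
  have e2 := (tmn_tl h (lo := 60) (hi := 90) (by omega) (by omega)).2
  have e3 := (tmn_tl h (lo := 90) (hi := 130) (by omega) (by omega)).2
  rw [show (∑ n ∈ range 130, if 30 ≤ n ∧ n < 60 ∧ gd n = true then 1 else 0 : ℕ) = 4 by
    decide +kernel] at e1
  rw [show (∑ n ∈ range 130, if 60 ≤ n ∧ n < 90 ∧ gd n = true then 1 else 0 : ℕ) = 10 by
    decide +kernel] at e2
  rw [show (∑ n ∈ range 130, if 90 ≤ n ∧ n < 130 ∧ gd n = true then 1 else 0 : ℕ) = 20 by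
    decide +kernel] at e3
  have mono : ∀ i j, i ≤ j → tl j (wv c) ≤ tl i (wv c) := fun i j hij =>
    sum_le_sum fun n _ => by split_ifs <;> omega
  have e4 : tl 130 (wv c) = 35 := by
    unfold tl
    rw [sum_range_succ, sum_eq_zero fun n hn => if_neg (by have := mem_range.1 hn; omega)]
    simp [wv]
  have e5 : ∑ n ∈ range 131, wv c n = wv c 0 + tl 30 (wv c) := by
    have : wv c 0 = ∑ n ∈ range 131, if n = 0 then wv c n else 0 := by simp
    rw [this, tl, ← sum_add_distrib]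
    refine sum_congr rfl fun n _ => ?_
    by_cases h0 : n = 0
    · subst h0; simp
    · by_cases h3 : 30 ≤ n
      · simp [h0, h3]
      · have := h n (tmn_low n (by omega) h0).1
        have h4 : n ≠ 130 := by omega
        simp [h0, h3, wv, this, h4]
  have e6 := tmn_wv h (n := 0) (by omega)
  rw [if_pos (by decide +kernel)] at e6
  have m1 := mono 30 60 (by omega)
  have m2 := mono 60 90 (by omega)
  have m3 := mono 90 130 (by omega)
  refine ⟨tl 30 (wv c) - tl 60 (wv c), tl 60 (wv c) - tl 90 (wv c), tl 90 (wv c) - 35, e5, ?_⟩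
  omega

theorem tmn_dev (hc : Sp c) (hd : Sp d) (x : Pt) :
    ‖evC x c d - ((c 0 : ℝ) + (d 0 : ℝ) * Complex.I)‖ ≤
      ((G 30 60 c + G 60 90 c + G 90 130 c + (G 30 60 d + G 60 90 d + G 90 130 d) : ℤ) : ℝ) := by
  have e : evC x c d - ((c 0 : ℝ) + (d 0 : ℝ) * Complex.I) =
      ((ev x c - c 0 : ℝ) : ℂ) + ((ev x d - d 0 : ℝ) : ℂ) * Complex.I := by
    unfold evC; push_cast; ring
  rw [e, Int.cast_add]
  refine (norm_add_le _ _).trans (add_le_add ?_ ?_)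
  · rw [Complex.norm_real]; exact ev_sub_zero x hc
  · rw [norm_mul, Complex.norm_I, mul_one, Complex.norm_real]; exact ev_sub_zero x hd

theorem tmn_real (hc : Pk a.1 c) (hb : Bd c) : r0 a = wv c 0 + tl 30 (wv c) ∧
    r1 a = tl 30 (wv c) ∧ r2 a = tl 60 (wv c) ∧ r3 a = tl 90 (wv c) ∧
    Nat.land (wr a) 1152921504606846975 = wv c 0 := by
  have e : wr a = pk (wv c) 131 := hc.wab_eq hb
  have hs := tmn_sum_lt (z := wv c) fun n => (tmn_wv_le hb n).trans (by norm_num)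
  obtain ⟨-, -, -, e1, -⟩ := tmn_facts hc.1
  unfold r0 r1 r2 r3
  rw [e]
  exact ⟨(pk_sum hs).trans e1, pk_tail hs 30, pk_tail hs 60, pk_tail hs 90,
    pk_low ((tmn_wv_le hb 0).trans_lt (by norm_num))⟩

theorem tmn_cx (hc : Pk a.1 c) (hd : Pk a.2 d) (hb : Bd c) (hb' : Bd d) :
    t1 a = tl 30 (wv c) + tl 30 (wv d) ∧ t2 a = tl 60 (wv c) + tl 60 (wv d) ∧
    t3 a = tl 90 (wv c) + tl 90 (wv d) ∧ mm a = cn (wv c 0) (wv d 0) + t1 a ∧
    sq0 a = wv c 0 ^ 2 + wv d 0 ^ 2 := by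
  have e : wr a = pk (wv c) 131 := hc.wab_eq hb
  have e' : wi a = pk (wv d) 131 := hd.wab_eq hb'
  have hs := tmn_sum_lt (z := fun n => wv c n + wv d n) fun n => by
    have := tmn_wv_le hb n
    have := tmn_wv_le hb' n
    omega
  obtain ⟨-, -, -, e1, -⟩ := tmn_facts hc.1
  obtain ⟨-, -, -, e2, -⟩ := tmn_facts hd.1
  have l1 := pk_low (z := wv c) ((tmn_wv_le hb 0).trans_lt (by norm_num))
  have l2 := pk_low (z := wv d) ((tmn_wv_le hb' 0).trans_lt (by norm_num))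
  have s0 := pk_sum hs
  rw [sum_add_distrib, e1, e2] at s0
  obtain ⟨f, -, f1, f2⟩ := tmn_cn (wv c 0) (wv d 0)
  have ea : Nat.add (pk (wv c) 131) (pk (wv d) 131) = _ := pk_add _ _ _
  have h1 : t1 a = tl 30 (wv c) + tl 30 (wv d) := by
    unfold t1
    rw [e, e', ea, s0, l1, l2, Nat.sub_eq, Nat.add_eq]
    omega
  refine ⟨h1, ?_, ?_, ?_, ?_⟩
  · unfold t2
    rw [e, e', ea, ← tl_add]
    exact pk_tail hs 60
  · unfold t3
    rw [e, e', ea, ← tl_add]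
    exact pk_tail hs 90
  · unfold mm
    rw [h1, e, e', ea, s0, l1, l2, f2, Nat.sub_eq]
    omega
  · unfold sq0
    rw [e, e', l1, l2, sq, sq]
    rfl

theorem tmn_bd (hc : Sp c) (hd : Sp d) (hl : l1 c + l1 d < 2 ^ 51) : Bd c ∧ Bd d := by
  have := l1_nonneg c
  have := l1_nonneg d
  exact ⟨hc.bd (by omega), hd.bd (by omega)⟩

theorem tmn_c0 {u v : ℤ} {p q : ℕ} (hu : |u| ≤ p + 1) (hv : |v| ≤ q + 1) :
    ‖((u : ℝ) : ℂ) + (v : ℝ) * Complex.I‖ ≤ ‖(p : ℂ) + q * Complex.I‖ + 2 := by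
  refine (tmn_mono (u' := p + 1) (v' := q + 1) (by exact_mod_cast hu) (by exact_mod_cast hv)).trans ?_
  have e : (((p : ℝ) + 1 : ℝ) : ℂ) + (((q : ℝ) + 1 : ℝ) : ℂ) * Complex.I =
      (p + q * Complex.I) + (1 + Complex.I) := by push_cast; ring
  rw [e]
  refine (norm_add_le _ _).trans (add_le_add le_rfl ((norm_add_le _ _).trans ?_))
  norm_num

/-- distance to the constant coefficient, and the size of the latter -/
theorem tmn_ab (hc : Pk a.1 c) (hd : Pk a.2 d) (hb : Bd c) (hb' : Bd d) (x : Pt) :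
    ‖evC x c d‖ ≤ ‖(wv c 0 : ℂ) + wv d 0 * Complex.I‖ + t1 a ∧
      ‖(wv c 0 : ℂ) + wv d 0 * Complex.I‖ - t1 a ≤ ‖evC x c d‖ := by
  obtain ⟨e1, -⟩ := tmn_cx hc hd hb hb'
  obtain ⟨a1, a2, a3, -, f1, -, -, f4, f5, f6, f7, f8⟩ := tmn_facts hc.1
  obtain ⟨b1, b2, b3, -, g1, -, -, g4, g5, g6, g7, g8⟩ := tmn_facts hd.1
  have h1 := tmn_dev hc.1 hd.1 x
  have h2 : ((G 30 60 c + G 60 90 c + G 90 130 c + (G 30 60 d + G 60 90 d + G 90 130 d) : ℤ) : ℝ)
      + 2 ≤ t1 a := by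
    have : G 30 60 c + G 60 90 c + G 90 130 c + (G 30 60 d + G 60 90 d + G 90 130 d) + 2 ≤ t1 a := by
      omega
    exact_mod_cast this
  have h3 := tmn_c0 f8 g8
  have h4 : ‖(wv c 0 : ℂ) + wv d 0 * Complex.I‖ ≤ ‖((c 0 : ℝ) : ℂ) + (d 0 : ℝ) * Complex.I‖ := by
    have := tmn_mono (u := wv c 0) (v := wv d 0) (u' := |(c 0 : ℝ)|) (v' := |(d 0 : ℝ)|)
      (by rw [Nat.abs_cast]; exact_mod_cast f7) (by rw [Nat.abs_cast]; exact_mod_cast g7)
    rw [tmn_norm |(c 0 : ℝ)|, sq_abs, sq_abs, ← tmn_norm] at this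
    exact_mod_cast this
  have h5 := abs_le.1 (abs_norm_sub_norm_le (evC x c d) ((c 0 : ℝ) + (d 0 : ℝ) * Complex.I))
  constructor <;> linarith [h5.1, h5.2]

theorem nsC (hc : Pk a.1 c) (hd : Pk a.2 d) (hl : l1 c + l1 d < 2 ^ 51) :
    NS c d (mm a) (t1 a) (t2 a) (t3 a) := by
  obtain ⟨hb, hb'⟩ := tmn_bd hc.1 hd.1 hl
  obtain ⟨e1, e2, e3, e4, -⟩ := tmn_cx hc hd hb hb'
  obtain ⟨a1, a2, a3, -, f1, f2, f3, f4, f5, f6, f7, f8⟩ := tmn_facts hc.1
  obtain ⟨b1, b2, b3, -, g1, g2, g3, g4, g5, g6, g7, g8⟩ := tmn_facts hd.1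
  refine ⟨by omega, by omega, ⟨2, by omega⟩, fun x => ?_, ?_⟩
  · rw [e4, Nat.cast_add]
    exact (tmn_ab hc hd hb hb' x).1.trans (add_le_add (cn_ge _ _) le_rfl)
  · obtain ⟨f, k1, k2, -⟩ := tmn_cn (wv c 0) (wv d 0)
    rw [l1_split hc.1, l1_split hd.1]
    omega

theorem tmn_r0 (hc : Pk a.1 c) (hb : Bd c) : l1 c ≤ r0 a ∧
    G 30 60 c + G 60 90 c + G 90 130 c ≤ r1 a := by
  obtain ⟨e0, e1, -⟩ := tmn_real hc hb
  obtain ⟨a1, a2, a3, -, f1, f2, f3, f4, f5, f6, f7, f8⟩ := tmn_facts hc.1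
  rw [l1_split hc.1]
  omega

theorem evC_real (x : Pt) (c : ℕ → ℤ) : evC x c (fun _ => 0) = (ev x c : ℝ) := by
  simp [evC, ev_zero]

theorem nsR (hc : Pk a.1 c) (hl : l1 c < 2 ^ 51) :
    NS c (fun _ => 0) (r0 a) (r1 a) (r2 a) (r3 a) := by
  have hb := hc.1.bd hl
  obtain ⟨e0, e1, e2, e3, -⟩ := tmn_real hc hb
  obtain ⟨a1, a2, a3, -, f1, f2, f3, f4, f5, f6, f7, f8⟩ := tmn_facts hc.1
  have h1 := (tmn_r0 hc hb).1
  refine ⟨by omega, by omega, ⟨1, ?_⟩, fun x => ?_, ?_⟩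
  · simp only [G_zero]
    omega
  · rw [evC_real, Complex.norm_real]
    exact (abs_ev_le x c).trans (by exact_mod_cast h1)
  · rw [l1_zero]
    omega

theorem subS_eq (p n : ℕ) : subS p n = ((p : ℤ) - n) * 4096 := by
  unfold subS
  cases h : Nat.ble n p
  · have h1 : ¬ n ≤ p := by rw [← Nat.ble_eq, h]; simp
    show Int.negSucc ((n - p) <<< 12 - 1) = _
    rw [Nat.shiftLeft_eq]
    omega
  · have h1 : n ≤ p := Nat.le_of_ble_eq_true h
    show (((p - n) <<< 12 : ℕ) : ℤ) = _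
    rw [Nat.shiftLeft_eq]
    omega

theorem toR_subS (p n : ℕ) : toR (subS p n) = ((p : ℝ) - n) / 2 ^ 28 := by
  rw [subS_eq, toR]
  push_cast
  ring

theorem toR_shl (n : ℕ) : toR (Int.ofNat (Nat.shiftLeft n 12)) = n / 2 ^ 28 := by
  show toR ((n <<< 12 : ℕ) : ℤ) = _
  rw [Nat.shiftLeft_eq, toR]
  push_cast
  ring

theorem tmn_tri {z P : ℂ} {e : ℝ} (h : ‖2 ^ 28 * z - P‖ ≤ e) :
    2 ^ 28 * ‖z‖ ≤ ‖P‖ + e ∧ ‖P‖ - e ≤ 2 ^ 28 * ‖z‖ := by
  have h1 := abs_le.1 (abs_norm_sub_norm_le (2 ^ 28 * z) P)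
  have h2 : ‖(2 : ℂ) ^ 28 * z‖ = 2 ^ 28 * ‖z‖ := by rw [norm_mul, norm_pow, Complex.norm_two]
  constructor <;> linarith [h1.1, h1.2]

theorem beq_cH {Z : ℕ} (h : Nat.beq Z cH = true) (hd : Pk Z d) (hb : Bd d) : d = fun _ => 0 := by
  rw [Nat.eq_of_beq_eq_true h] at hd
  exact hd.eq_zero hb

theorem dv_ok {x : Pt} {z : ℂ} (hs : a.4 < 2 ^ 51) (h : Rep x a z) : 2 ^ 28 * ‖z‖ ≤ dv a := by
  obtain ⟨c, d, hc, hd, hl, he⟩ := h hs
  have hl' : l1 c + l1 d < 2 ^ 51 := by omega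
  refine (tmn_tri he).1.trans ?_
  unfold dv
  rw [Nat.add_eq, Nat.cast_add]
  refine add_le_add ?_ le_rfl
  cases hq : Nat.beq a.2 cH
  · exact (nsC hc hd hl').hm x
  · obtain rfl := beq_cH hq hd (tmn_bd hc.1 hd.1 hl').2
    rw [l1_zero] at hl'
    exact (nsR hc (by omega)).hm x

theorem tmn_ctr {Z : ℕ} (hc : Pk Z c) (hl : l1 c < 2 ^ 51) :
    Pk (Nat.sub (Nat.add Z 2251799813685248) (Nat.land Z 1152921504606846975))
      (fun n => c n - sgl 0 (c 0) n) := by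
  have h0 : gd 0 = true := by decide +kernel
  refine Pk.of_sub (fun n hn => ?_) ((l1_ctr c).trans_lt hl) ?_
  · show c n - sgl 0 (c 0) n = 0
    rw [hc.1 n hn, sp_sgl h0 _ n hn, sub_zero]
  · rw [hc.low (hc.1.bd hl), pv_sub, pv_sgl h0, Nat.add_eq, Nat.cast_add, hc.2]
    push_cast
    ring

theorem ctr_ok {x : Pt} {z : ℂ} (h : Rep x a z) :
    Rep x (ctr a) (z - toC (subS (Nat.land a.1 1152921504606846975) 2251799813685248)
      (subS (Nat.land a.2 1152921504606846975) 2251799813685248)) := by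
  intro hs
  obtain ⟨c, d, hc, hd, hl, he⟩ := h hs
  have hs' : a.4 < 2 ^ 51 := hs
  have := l1_nonneg c
  have := l1_nonneg d
  have h0 : gd 0 = true := by decide +kernel
  refine ⟨_, _, tmn_ctr hc (by omega), tmn_ctr hd (by omega),
    (add_le_add (l1_ctr c) (l1_ctr d)).trans hl, le_of_eq_of_le ?_ he⟩
  congr 1
  have e1 : ((Nat.land a.1 1152921504606846975 : ℕ) : ℝ) = c 0 + 2 ^ 51 := by
    exact_mod_cast hc.low (hc.1.bd (by omega))
  have e2 : ((Nat.land a.2 1152921504606846975 : ℕ) : ℝ) = d 0 + 2 ^ 51 := by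
    exact_mod_cast hd.low (hd.1.bd (by omega))
  unfold evC toC
  rw [ev_sub, ev_sub, ev_sgl x h0, ev_sgl x h0, mon_zero, toR_subS, toR_subS, e1, e2,
    Complex.mk_eq_add_mul_I]
  push_cast
  ring

theorem guard {g b : Bool} (h : Bool.rec (motive := fun _ => Bool) false b g = true) :
    g = true ∧ b = true := by
  cases g
  · exact absurd h (by simp)
  · exact ⟨rfl, h⟩

theorem guard_s {b : Bool}
    (h : Bool.rec (motive := fun _ => Bool) false b (Nat.ble a.4 2251799813685247) = true) :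
    a.4 < 2 ^ 51 ∧ b = true := by
  obtain ⟨h1, h2⟩ := guard h
  have := Nat.le_of_ble_eq_true h1
  exact ⟨by omega, h2⟩

theorem tmn_step {N r : ℕ} (h : 0 < r ∨ N = 0) : N ≤ ((r + N / r) / 2 + 1) ^ 2 := by
  rcases h with h | rfl
  · have h1 := Nat.lt_mul_div_succ N h
    generalize N / r = u at h1 ⊢
    obtain ⟨s, hs⟩ : ∃ s, s = (r + u) / 2 + 1 := ⟨_, rfl⟩
    have h2 : r + (u + 1) ≤ 2 * s := by omega
    rw [← hs]
    zify at h1 h2 ⊢
    nlinarith [sq_nonneg ((r : ℤ) - (u + 1)), mul_self_le_mul_self (by positivity) h2]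
  · exact Nat.zero_le _

theorem tmn_nwt (N r : ℕ) : N ≤ nwt N r ^ 2 := by
  have e : nwt N r = (((r + N / r) / 2 + 1) + N / ((r + N / r) / 2 + 1)) / 2 + 1 := rfl
  rw [e]
  exact tmn_step (Or.inl (Nat.succ_pos _))

theorem tmn_div {N R : ℕ} (h : N ≤ R ^ 2) : (N / R) ^ 2 ≤ N := by
  have h1 : N / R ≤ R := Nat.div_le_of_le_mul (by rwa [sq] at h)
  calc (N / R) ^ 2 = N / R * (N / R) := sq _
    _ ≤ N / R * R := Nat.mul_le_mul_left _ h1
    _ ≤ N := Nat.div_mul_le_self _ _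

theorem tmn_hl (hc : Pk a.1 c) (hb : Bd c) (x : Pt) {A B : ℕ}
    (hA : A = Nat.mod (Nat.shiftRight (Nat.add (wr a) (Nat.land (wr a) cMo)) 2400)
      1152922604119523329)
    (hB : B = Nat.add (Nat.mod (Nat.land a.1 cMe) 1152922604119523329)
      (Nat.land a.1 1152921504606846975)) :
    2 * ev x c ≤ ((A + B - 6 * 2 ^ 51 - 6 : ℤ) : ℝ) ∧
      ((B - 6 * 2 ^ 51 - A + 6 : ℤ) : ℝ) ≤ 2 * ev x c := by
  have e : wr a = pk (wv c) 131 := hc.wab_eq hb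
  have e' : Nat.land (wr a) cMo = _ := hc.land_cMo hb
  have hs := tmn_sum_lt (z := fun n => wv c n + if ge n then 0 else wv c n) fun n => by
    have := tmn_wv_le hb n
    split_ifs <;> omega
  have ea : Nat.add (pk (wv c) 131) (pk (fun n => if ge n then 0 else wv c n) 131) = _ :=
    pk_add _ _ _
  rw [e', e, ea] at hA
  have hA' : (A : ℤ) = ∑ n ∈ range 130,
      (if 30 ≤ n then ((wv c n + if ge n then 0 else wv c n : ℕ) : ℤ) else 0) + 70 := by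
    rw [hA.trans (pk_tail hs 30), sum_range_succ _ 130]
    have : ge 130 = false := by decide +kernel
    push_cast
    simp [this, wv]
  have hB' : (B : ℤ) = (∑ n ∈ range 130, if ge n then c n + 2 ^ 51 else 0) + (c 0 + 2 ^ 51) := by
    rw [hB, Nat.add_eq, Nat.cast_add, hc.land_cMe hb, hc.low hb]
  have k0 : ∑ n ∈ range 130, (if n = 0 then c 0 else 0) = c 0 := by simp
  have k1 : ∑ n ∈ range 130, (if n = 0 then (2 : ℤ) ^ 51 else if ge n then 2 ^ 51 - 1 else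
      if gd n then -2 else 0) = 5 * 2 ^ 51 - 64 := by decide +kernel
  have k2 : ∑ n ∈ range 130, (if n = 0 then (2 : ℤ) ^ 51 else if ge n then 2 ^ 51 + 1 else
      if gd n then 2 else 0) = 5 * 2 ^ 51 + 64 := by decide +kernel
  have g0 : ge 0 = true := by decide +kernel
  have t1 : ∀ n ∈ range 130,
      (if 30 ≤ n then (if ge n then |c n| + c n else 2 * |c n|) else 0) +
        ((if n = 0 then c 0 else 0) + (if n = 0 then (2 : ℤ) ^ 51 else if ge n then 2 ^ 51 - 1 else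
        if gd n then -2 else 0)) ≤
      (if 30 ≤ n then ((wv c n + if ge n then 0 else wv c n : ℕ) : ℤ) else 0) +
        (if ge n then c n + 2 ^ 51 else 0) ∧
      (if 30 ≤ n then (if ge n then |c n| - c n else 2 * |c n|) else 0) +
        (if ge n then c n + 2 ^ 51 else 0) ≤
      (if 30 ≤ n then ((wv c n + if ge n then 0 else wv c n : ℕ) : ℤ) else 0) +
        ((if n = 0 then c 0 else 0) + (if n = 0 then (2 : ℤ) ^ 51 else if ge n then 2 ^ 51 + 1 else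
        if gd n then 2 else 0)) := by
    intro n hn
    have hn' := mem_range.1 hn
    by_cases h0 : n = 0
    · subst h0
      simp [g0]
    · by_cases h3 : 30 ≤ n
      · have h4 := tmn_wv hc.1 hn'
        have h5 := tmn_ge n hn'
        simp only [if_neg h0, if_pos h3]
        cases hg : ge n <;> cases hd : gd n <;> simp [hg, hd] at h4 h5 ⊢ <;> omega
      · obtain ⟨h4, h5⟩ := tmn_low n (by omega) h0
        simp [h0, h3, h4, h5]
  have s1 := sum_le_sum fun n hn => (t1 n hn).1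
  have s2 := sum_le_sum fun n hn => (t1 n hn).2
  simp only [sum_add_distrib, k0, k1, k2] at s1 s2
  exact ⟨(ev_hi x hc.1).trans (Int.cast_le.2 (by omega)),
    le_trans (Int.cast_le.2 (by omega)) (ev_lo x hc.1)⟩

theorem tmn_re {x : Pt} {z : ℂ} {e : ℝ} (h : ‖2 ^ 28 * z - evC x c d‖ ≤ e) :
    |2 ^ 28 * z.re - ev x c| ≤ e := by
  refine le_of_eq_of_le ?_ ((Complex.abs_re_le_norm _).trans h)
  have : (2 : ℂ) ^ 28 = ((2 ^ 28 : ℝ) : ℂ) := by push_cast; rfl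
  rw [this, evC]
  simp only [Complex.sub_re, Complex.re_ofReal_mul, Complex.add_re, Complex.ofReal_re,
    Complex.I_re, mul_zero, add_zero]

end TMI

namespace TM

open TMI

variable {a : TM}

theorem hi_ok {k : ℤ → Bool} (h : hi a k = true) :
    ∃ r, k r = true ∧ ∀ x z, Rep x a z → z.re ≤ toR r := by
  obtain ⟨hs, hk⟩ := guard_s h
  refine ⟨_, hk, fun x z hz => ?_⟩
  obtain ⟨c, d, hc, hd, hl, he⟩ := hz hs
  have h1 := (tmn_hl hc (tmn_bd hc.1 hd.1 (by omega)).1 x rfl rfl).1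
  have h2 := (abs_le.1 (tmn_re he)).2
  rw [toR_subS, le_div_iff₀ (by positivity)]
  generalize Nat.mod (Nat.shiftRight _ 2400) _ = A at h1 ⊢
  generalize Nat.add (Nat.mod (Nat.land a.1 cMe) _) _ = B at h1 ⊢
  have h3 : (A + B - 6 * 2 ^ 51 - 6 : ℤ) + 2 * a.3 ≤
      2 * ((Nat.add (Nat.shiftRight (Nat.add A B) 1) a.3 : ℕ) - (6755399441055744 : ℕ)) := by
    have : Nat.add (Nat.shiftRight (Nat.add A B) 1) a.3 = (A + B) / 2 + a.3 := rfl
    omega
  have h4 := Int.cast_le (R := ℝ).2 h3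
  rw [Int.cast_add, Int.cast_mul, Int.cast_mul, Int.cast_sub _ ((6755399441055744 : ℕ) : ℤ),
    Int.cast_natCast, Int.cast_natCast, Int.cast_natCast, Int.cast_ofNat] at h4
  linarith

theorem lo_ok {k : ℤ → Bool} (h : lo a k = true) :
    ∃ r, k r = true ∧ ∀ x z, Rep x a z → toR r ≤ z.re := by
  obtain ⟨hs, hk⟩ := guard_s h
  refine ⟨_, hk, fun x z hz => ?_⟩
  obtain ⟨c, d, hc, hd, hl, he⟩ := hz hs
  have h1 := (tmn_hl hc (tmn_bd hc.1 hd.1 (by omega)).1 x rfl rfl).2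
  have h2 := (abs_le.1 (tmn_re he)).1
  rw [toR_subS, div_le_iff₀ (by positivity)]
  generalize Nat.mod (Nat.shiftRight _ 2400) _ = A at h1 ⊢
  generalize Nat.add (Nat.mod (Nat.land a.1 cMe) _) _ = B at h1 ⊢
  have h3 : 2 * (((Nat.shiftRight B 1 : ℕ) : ℤ) -
      (Nat.add (Nat.add (Nat.shiftRight A 1) a.3) 6755399441055744 : ℕ)) + 2 * a.3 ≤
      (B - 6 * 2 ^ 51 - A + 6 : ℤ) := by
    have : Nat.add (Nat.add (Nat.shiftRight A 1) a.3) 6755399441055744 =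
      A / 2 + a.3 + 6755399441055744 := rfl
    have : Nat.shiftRight B 1 = B / 2 := rfl
    omega
  have h4 := Int.cast_le (R := ℝ).2 h3
  rw [Int.cast_add, Int.cast_mul, Int.cast_mul, Int.cast_sub ((Nat.shiftRight B 1 : ℕ) : ℤ),
    Int.cast_natCast, Int.cast_natCast, Int.cast_natCast, Int.cast_ofNat] at h4
  linarith

theorem ab_ok {k : ℤ → Bool} (h : ab a k = true) :
    ∃ r, k r = true ∧ ∀ x z, Rep x a z → ‖z‖ ≤ toR r := by
  obtain ⟨hs, hk⟩ := guard_s h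
  refine ⟨_, hk, fun x z hz => ?_⟩
  obtain ⟨c, d, hc, hd, hl, he⟩ := hz hs
  obtain ⟨hb, hb'⟩ := tmn_bd hc.1 hd.1 (by omega)
  rw [toR_shl, le_div_iff₀ (by positivity), mul_comm, Nat.add_eq, Nat.cast_add]
  refine (tmn_tri he).1.trans (add_le_add ?_ le_rfl)
  cases hq : Nat.beq a.2 cH
  · refine (tmn_ab hc hd hb hb' x).1.trans ?_
    show _ ≤ ((nwt (sq0 a) _ + t1 a : ℕ) : ℝ)
    rw [Nat.cast_add]
    refine add_le_add (tmn_le ?_) le_rfl
    rw [← (tmn_cx hc hd hb hb').2.2.2.2]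
    exact tmn_nwt _ _
  · obtain rfl := beq_cH hq hd hb'
    rw [l1_zero] at hl
    exact (nsR hc (by omega)).hm x

theorem ablo_ok {k : ℤ → Bool} (h : ablo a k = true) :
    ∃ r, k r = true ∧ ∀ x z, Rep x a z → toR r ≤ ‖z‖ := by
  obtain ⟨hs, hk⟩ := guard_s h
  refine ⟨_, hk, fun x z hz => ?_⟩
  obtain ⟨c, d, hc, hd, hl, he⟩ := hz hs
  obtain ⟨hb, hb'⟩ := tmn_bd hc.1 hd.1 (by omega)
  rw [toR_shl, div_le_iff₀ (by positivity), mul_comm]
  have key : ∀ (p q : ℕ) (t : ℝ), 0 ≤ t → (p : ℝ) - q ≤ t → ((Nat.sub p q : ℕ) : ℝ) ≤ t := by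
    intro p q t h0 h1
    rcases le_total p q with h2 | h2
    · rwa [Nat.sub_eq, Nat.sub_eq_zero_of_le h2, Nat.cast_zero]
    · rwa [Nat.sub_eq, Nat.cast_sub h2]
  refine key _ _ _ (by positivity) (le_trans (sub_le_sub_right ?_ _) (tmn_tri he).2)
  cases hq : Nat.beq a.2 cH
  · refine key _ _ _ (norm_nonneg _) (le_trans (sub_le_sub_right ?_ _) (tmn_ab hc hd hb hb' x).2)
    have h1 := tmn_norm (wv c 0) (wv d 0)
    push_cast at h1
    rw [h1]
    refine Real.le_sqrt_of_sq_le ?_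
    have h2 := (tmn_div (tmn_nwt (sq0 a) (Nat.sub (mm a) (t1 a)))).trans_eq
      (tmn_cx hc hd hb hb').2.2.2.2
    exact_mod_cast h2
  · obtain rfl := beq_cH hq hd hb'
    refine key _ _ _ (norm_nonneg _) ?_
    rw [evC_real, Complex.norm_real, (tmn_real hc hb).2.2.2.2, Real.norm_eq_abs]
    have h1 := ev_sub_zero x hc.1
    have h2 : ((G 30 60 c + G 60 90 c + G 90 130 c : ℤ) : ℝ) ≤ r1 a := by
      exact_mod_cast (tmn_r0 hc hb).2
    have h3 : (wv c 0 : ℝ) ≤ |(c 0 : ℝ)| := by exact_mod_cast (tmn_wv hc.1 (n := 0) (by omega)).1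
    have h4 := abs_sub_abs_le_abs_sub (c 0 : ℝ) (ev x c)
    rw [abs_sub_comm] at h4
    linarith

theorem cen_ok {k : ℤ → ℤ → Bool} (h : cen a k = true) : ∃ u v, k u v = true := ⟨_, _, h⟩

theorem strip_ok {k : TM → Bool} (h : strip a k = true) :
    ∃ c, k c = true ∧ ∃ f : ℝ → ℝ → ℝ → ℂ, ∀ x : Pt, Rep x c (f x.x0 x.x1 x.x2) := by
  obtain ⟨c, hc, hb⟩ := sel0_any a.1
  obtain ⟨d, hd, hb'⟩ := sel0_any a.2
  obtain ⟨f, hf⟩ := ev_s0_fun c
  obtain ⟨g, hg⟩ := ev_s0_fun d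
  refine ⟨_, h, fun s t u => (f s t u + g s t u * Complex.I) / 2 ^ 28, fun x _ =>
    ⟨_, _, hc, hd, ?_, ?_⟩⟩
  · have h1 := (tmn_r0 (a := ⟨sel0 a.1, 0, 0, 0⟩) hc hb).1
    have h2 := (tmn_r0 (a := ⟨sel0 a.2, 0, 0, 0⟩) hd hb').1
    exact (add_le_add h1 h2).trans_eq (Nat.cast_add _ _).symm
  · rw [evC, hf, hg, mul_div_cancel₀ _ (by norm_num), sub_self, norm_zero]
    exact Nat.cast_nonneg _

end TM

end Pool.Agent.Sok
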