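import Pool.Agent.Sok.TMD
import Pool.Agent.MP_97ada9_an.Pack

/-! Taylor models: the meaning of the packed data. -/

set_option autoImplicit false

namespace Pool.Agent.Sok

open Finset

namespace TMI

/-- the places that carry a monomial -/
def gd (n : ℕ) : Bool := Nat.testBit 694163274581176688351954135298653290497 n
/-- the places of the monomials without the last variable -/
def g0 (n : ℕ) : Bool := Nat.testBit 3474829603596879780124202457104385 n
/-- the places of the monomials of degree at most one without the last variable -/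
def g2 (n : ℕ) : Bool := Nat.testBit 172872433665 n
/-- the places of the monomials that are squares -/
def ge (n : ℕ) : Bool := Nat.testBit 77391323665809967780200449 n
/-- the exponents of the monomial at place `n`, two bits each -/
def code (n : ℕ) : ℕ :=
  0xc000000000009000840000006081540048003051244518000c214215000900001200060000000003000000800000000000500044000000204114000800001100050000000002000000000000000000000000000000004000000000001000040000000001000000000000000000000000000000000000000000000000000000000000 / 256 ^ n % 256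
noncomputable def mon (x : Pt) (n : ℕ) : ℝ :=
  x.x0 ^ (code n % 4) * x.x1 ^ (code n / 4 % 4) * x.x2 ^ (code n / 16 % 4) * x.x3 ^ (code n / 64)
def pv (c : ℕ → ℤ) : ℤ := ∑ n ∈ range 130, c n * (2 ^ 80) ^ n
def l1 (c : ℕ → ℤ) : ℤ := ∑ n ∈ range 130, |c n|
noncomputable def ev (x : Pt) (c : ℕ → ℤ) : ℝ := ∑ n ∈ range 130, c n * mon x n
noncomputable def evC (x : Pt) (c d : ℕ → ℤ) : ℂ := ev x c + ev x d * Complex.I
def Sp (c : ℕ → ℤ) : Prop := ∀ n, gd n = false → c n = 0
def Bd (c : ℕ → ℤ) : Prop := ∀ n, -2 ^ 51 ≤ c n ∧ c n < 2 ^ 51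
def Pk (Z : ℕ) (c : ℕ → ℤ) : Prop := Sp c ∧ (Z : ℤ) = cH + pv c
def pk (z : ℕ → ℕ) (L : ℕ) : ℕ := ∑ n ∈ range L, z n * (2 ^ 80) ^ n
def G (lo hi : ℕ) (c : ℕ → ℤ) : ℤ := ∑ n ∈ range 130, if lo ≤ n ∧ n < hi then |c n| else 0
def conv (c d : ℕ → ℤ) (n : ℕ) : ℤ :=
  ∑ i ∈ range 130, ∑ j ∈ range 130, if i + j = n then c i * d j else 0
def res (p : ℕ → ℤ) (n : ℕ) : ℤ := if gd n then p n else 0
def rq (p : ℕ → ℤ) (n : ℕ) : ℤ := if gd n then (p n + 2 ^ 27) / 2 ^ 28 else 0
def s0 (c : ℕ → ℤ) (n : ℕ) : ℤ := if g0 n then c n else 0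
def s2 (c : ℕ → ℤ) (n : ℕ) : ℤ := if g2 n then c (n + 86) else 0
def sgl (j : ℕ) (v : ℤ) (n : ℕ) : ℤ := if n = j then v else 0
def wv (c : ℕ → ℤ) (n : ℕ) : ℕ :=
  if n = 130 then 35 else if c n < 0 then (-c n - 1).toNat else (c n).toNat
def wab (Z : ℕ) : ℕ := Nat.xor Z (Nat.add cW (Nat.land (Nat.shiftRight Z 51) cO))

theorem gd_lt {n : ℕ} (h : gd n = true) : n < 130 := by
  by_contra hn
  have : gd n = false := Nat.testBit_lt_two_pow
    (lt_of_lt_of_le (by norm_num) (Nat.pow_le_pow_right two_pos (not_lt.1 hn)))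
  rw [this] at h
  exact absurd h (by simp)

theorem l1_nonneg (c : ℕ → ℤ) : 0 ≤ l1 c := sum_nonneg fun _ _ => abs_nonneg _

theorem Sp.abs_le {c : ℕ → ℤ} (h : Sp c) (n : ℕ) : |c n| ≤ l1 c := by
  cases hg : gd n
  · rw [h n hg]; exact l1_nonneg c
  · exact single_le_sum (f := fun i => |c i|) (fun _ _ => abs_nonneg _) (mem_range.2 (gd_lt hg))

theorem Sp.bd {c : ℕ → ℤ} (h : Sp c) (hl : l1 c < 2 ^ 51) : Bd c := fun n => by
  have := _root_.abs_le.1 (h.abs_le n)
  constructor <;> omega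

end TMI

/-- `a` encloses the number `z` at the point `x` -/
def Rep (x : Pt) (a : TM) (z : ℂ) : Prop :=
  a.4 < 2 ^ 51 → ∃ c d, TMI.Pk a.1 c ∧ TMI.Pk a.2 d ∧ TMI.l1 c + TMI.l1 d ≤ a.4 ∧
    ‖2 ^ 28 * z - TMI.evC x c d‖ ≤ a.3

/-- `a` encloses `z` whatever the last coordinate is -/
def RepA (x : Pt) (a : TM) (z : ℂ) : Prop := ∀ y (hy : |y| ≤ 1), Rep (x.set3 y hy) a z

theorem RepA.rep {x : Pt} {a : TM} {z : ℂ} (h : RepA x a z) : Rep x a z := h x.x3 x.h3

end Pool.Agent.Sok
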