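import Pool.Agent.Sok.TM
import Pool.Agent.Sok.Acc
import Pool.Agent.Sok.LCchk

/-! Generic checker for polygonal contours through a saddle point. -/

set_option autoImplicit false

namespace Pool.Agent.Sok

open TM

/-- Taylor model evaluation of the derivatives of the phase -/
structure Chart where
  jet2 : TM → (TM → TM → Bool) → Bool
  jet4 : TM → (TM → TM → TM → TM → Bool) → Bool
  sup : TM → (ℤ → ℤ → Bool) → Bool

structure Chart.Ok (C : Chart) (x : Pt) (J : Jet) : Prop where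
  h2 : ∀ w k, C.jet2 w k = true → ∃ a b, k a b = true ∧ ∀ y hy z, Rep (x.set3 y hy) w z →
    z ∈ J.U ∧ Rep (x.set3 y hy) a (J.f1 z) ∧ Rep (x.set3 y hy) b (J.f2 z)
  h4 : ∀ w k, C.jet4 w k = true → ∃ a b c d, k a b c d = true ∧ ∀ y hy z,
    Rep (x.set3 y hy) w z → z ∈ J.U ∧ Rep (x.set3 y hy) a (J.f1 z) ∧
      Rep (x.set3 y hy) b (J.f2 z) ∧ Rep (x.set3 y hy) c (J.f3 z) ∧ Rep (x.set3 y hy) d (J.f4 z)
  hs : ∀ w k, C.sup w k = true → ∃ a b, k a b = true ∧ ∀ y hy z, Rep (x.set3 y hy) w z →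
    z ∈ J.U ∧ ‖J.f3 z‖ ≤ toR a ∧ ‖J.f5 z‖ ≤ toR b

/-- bounds of `f3`, `f5` on `z + [lo, hi] h` -/
def supI (C : Chart) (z h : TM) (lo hi : ℤ) (k : ℤ → ℤ → Bool) : Bool :=
  var 3 lo hi fun τ => mul h τ fun a => add z a fun w => C.sup w k

/-- bounds of `f3`, `f5` on the segment from `z` to `z + h`, cut in one or two parts -/
def supS (C : Chart) (z h : TM) (two : Bool) (k : ℤ → ℤ → Bool) : Bool :=
  cond two
    (supI C z h 0 half fun a b => supI C z h half one fun a' b' =>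
      fI (maxI a a') fun a => fI (maxI b b') fun b => k a b)
    (supI C z h 0 one k)

theorem tla_half : toR half = 1 / 2 := by
  unfold toR half
  norm_num

theorem tla_supI {C : Chart} {x : Pt} {J : Jet} (hC : C.Ok x J) {z h : TM} {lo hi : ℤ}
    {k : ℤ → ℤ → Bool} {z0 h0 : ℂ} (hz : RepA x z z0) (hh : RepA x h h0)
    (H : supI C z h lo hi k = true) : ∃ a b, k a b = true ∧ ∀ s : ℝ, toR lo ≤ s → s ≤ toR hi →
      z0 + s * h0 ∈ J.U ∧ ‖J.f3 (z0 + s * h0)‖ ≤ toR a ∧ ‖J.f5 (z0 + s * h0)‖ ≤ toR b := by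
  unfold supI at H
  obtain ⟨t, H, ht⟩ := var_ok H
  obtain ⟨a, H, ha⟩ := mul_ok H
  obtain ⟨w, H, hw⟩ := add_ok H
  obtain ⟨p, q, H, hpq⟩ := hC.hs _ _ H
  refine ⟨p, q, H, fun s h1 h2 => ?_⟩
  obtain ⟨y, hy, e⟩ := exists_varVal h1 h2
  refine hpq y hy _ ?_
  have h3 : Rep (x.set3 y hy) t ((s : ℝ) : ℂ) := by
    have h4 := ht (x.set3 y hy)
    rw [show (x.set3 y hy).get 3 = y from rfl, e] at h4
    exact h4
  have h5 := hw _ _ _ (hz y hy) (ha _ _ _ (hh y hy) h3)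
  rwa [mul_comm h0] at h5

theorem supS_ok {C : Chart} {x : Pt} {J : Jet} (hC : C.Ok x J) {z h : TM} {two : Bool}
    {k : ℤ → ℤ → Bool} {z0 h0 : ℂ} (hz : RepA x z z0) (hh : RepA x h h0)
    (H : supS C z h two k = true) : ∃ a b, k a b = true ∧ ∀ s : ℝ, 0 ≤ s → s ≤ 1 →
      z0 + s * h0 ∈ J.U ∧ ‖J.f3 (z0 + s * h0)‖ ≤ toR a ∧ ‖J.f5 (z0 + s * h0)‖ ≤ toR b := by
  unfold supS at H
  cases two
  · rw [cond_false] at H
    obtain ⟨a, b, H, hab⟩ := tla_supI hC hz hh H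
    exact ⟨a, b, H, fun s h0 h1 => hab s (by rwa [toR_zero]) (by rwa [toR_one])⟩
  · rw [cond_true] at H
    obtain ⟨a, b, H, hab⟩ := tla_supI hC hz hh H
    obtain ⟨a', b', H, hab'⟩ := tla_supI hC hz hh H
    rw [fI_eq, fI_eq] at H
    refine ⟨_, _, H, fun s h0 h1 => ?_⟩
    rw [toR_maxI, toR_maxI]
    rcases le_total s (1 / 2) with h2 | h2
    · obtain ⟨e1, e2, e3⟩ := hab s (by rwa [toR_zero]) (by rwa [tla_half])
      exact ⟨e1, e2.trans (le_max_left _ _), e3.trans (le_max_left _ _)⟩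
    · obtain ⟨e1, e2, e3⟩ := hab' s (by rwa [tla_half]) (by rwa [toR_one])
      exact ⟨e1, e2.trans (le_max_right _ _), e3.trans (le_max_right _ _)⟩

/-- the current vertex with its data -/
structure St where
  cur : TM
  f1 : TM
  f2 : TM
  rel : Bool
  u : ℤ
  v : ℤ
  g : ℤ
  dist : ℤ
  I : ℤ
  M : ℤ

/-- `z` is the current vertex, `zc` the base point, `u0` the value of the primitives at the start -/
structure St.Ok (S : St) (x : Pt) (J : Jet) (a : Ac) (E0 : ℝ) (zc : ℂ) (u0 : ℂ × ℂ) (z : ℂ) :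
    Prop where
  hc : RepA x S.cur z
  h1 : RepA x S.f1 (J.f1 z)
  h2 : RepA x S.f2 (J.f2 z)
  hz : z = (if S.rel then zc else 0) + toC S.u S.v
  hg : ‖J.E z‖ ≤ E0 * Real.exp (-(J.L * toR S.g))
  hd : ‖z - zc‖ ≤ toR S.dist
  hB : Bd J.L E0 (a.W J.L) zc u0 (J.P z) (toR S.I) (toR S.M)

/-- a segment to a new vertex; modes `0,1,2`: `A,G,B` from the old vertex, `3,4,5` from the new -/
structure Step where
  rel : Bool
  u : ℤ
  v : ℤ
  two : Bool
  mode : ℕ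

def accM (a : Ac) (m : ℕ) (g ρ κ len dA d2 I M : ℤ) (k : ℤ → ℤ → Bool) : Bool :=
  fI ρ fun ρ => fI κ fun κ =>
  cond (Nat.beq m 0) (aA a g (ρ - mulU half (maxI κ 0)) len dA I M k)
    (cond (Nat.beq m 1)
      (ltI κ 0 && fI (minI ρ 0) fun r => aG a (g - divU (mulU r r) (-(2 * κ))) len (-κ) d2 I M k)
      (aB a (g - maxI 0 (mulU half (maxI κ 0) - ρ)) len d2 I M k))

def step (C : Chart) (a : Ac) (zc : TM) (s : Step) (S : St) (k : St → Bool) : Bool :=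
  (cond s.rel (addc zc s.u s.v) (cst s.u s.v)) fun z2 =>
  (cond (s.rel == S.rel) (cst (s.u - S.u) (s.v - S.v)) (sub z2 S.cur)) fun h =>
  ab h fun len => supS C S.cur h s.two fun K3 K5 => C.jet2 z2 fun f1 f2 =>
  mul h h fun h2 => mul S.f1 h fun a1 => mul f1 h fun a2 => mul S.f2 h2 fun b1 =>
  mul f2 h2 fun b2 => add a1 a2 fun c1 => nmul c1 6 fun c1 => sub b1 b2 fun c2 =>
  add c1 c2 fun c => hi c fun c =>
  fI (mulU len len) fun l2 => fI (mulU l2 len) fun l3 =>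
  fI (S.g - divU (c + divU (mulU K5 (mulU l2 l3)) (60 * one)) (12 * one)) fun g2 =>
  fI (divU (mulU K3 l3) (3 * one)) fun k3 => fI (S.dist + len) fun d2 =>
  cond (Nat.blt s.mode 3)
    (hi a1 fun r => hi b1 fun b => accM a s.mode S.g (-r) (b + k3) len S.dist d2 S.I S.M
      fun I M => k ⟨z2, f1, f2, s.rel, s.u, s.v, g2, d2, I, M⟩)
    (lo a2 fun r => hi b2 fun b => accM a (s.mode - 3) g2 r (b + k3) len d2 d2 S.I S.M
      fun I M => k ⟨z2, f1, f2, s.rel, s.u, s.v, g2, d2, I, M⟩)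

def steps (C : Chart) (a : Ac) (zc : TM) : List Step → St → (St → Bool) → Bool
  | [], S, k => k S
  | s :: l, S, k => step C a zc s S fun S' => steps C a zc l S' k

theorem tla_accM {a : Ac} {L : ℝ} (ha : a.Ok L) {m : ℕ} {g ρ κ len dA d2 I M : ℤ}
    {k : ℤ → ℤ → Bool} (h : accM a m g ρ κ len dA d2 I M k = true) :
    ∃ I' M', k I' M' = true ∧ ∀ (J : Prim) (E0 : ℝ) (zr z h : ℂ), 0 ≤ E0 →
      Prof J.E E0 L z h (toR g) (toR ρ) (toR κ) → ‖h‖ ≤ toR len → ‖z - zr‖ ≤ toR dA →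
      (∀ s : ℝ, 0 ≤ s → s ≤ 1 → ‖z + s * h - zr‖ ≤ toR d2) →
      Bd L E0 (a.W L) zr (J.P z) (J.P (z + h)) (toR I' - toR I) (toR M' - toR M) := by
  unfold accM at h
  rw [fI_eq, fI_eq] at h
  have hm := mulU_ok half (maxI κ 0)
  rw [tla_half, toR_maxI, toR_zero] at hm
  cases h0 : Nat.beq m 0
  · rw [h0, cond_false] at h
    cases h1 : Nat.beq m 1
    · rw [h1, cond_false] at h
      obtain ⟨I', M', h, hb⟩ := aB_ok ha h
      refine ⟨I', M', h, fun J E0 zr z h' hE hP hl _ hd => hb J E0 zr z h' hE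
        (fun s s0 s1 => ⟨Prof.sup (ha.1.le.trans ha.2.1) hE hP ?_ s s0 s1, hd s s0 s1⟩) hl⟩
      rw [toR_sub, toR_maxI, toR_zero, toR_sub]
      have e : max 0 (-toR ρ + max (toR κ) 0 / 2) ≤
          max 0 (toR (mulU half (maxI κ 0)) - toR ρ) := max_le_max le_rfl (by linarith)
      linarith
    · rw [h1, cond_true, Bool.and_eq_true, fI_eq] at h
      obtain ⟨hk, h⟩ := h
      have hk' := ltI_ok hk
      rw [toR_zero] at hk'
      obtain ⟨I', M', h, hb⟩ := aG_ok ha h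
      refine ⟨I', M', h, fun J E0 zr z h' hE hP hl _ hd =>
        hb J E0 _ _ _ zr z h' hE hP (by rw [toR_neg, neg_neg]) ?_ hl hd⟩
      have e0 : toR (-(2 * κ)) = 2 * toR (-κ) := by
        rw [toR_neg, toR_neg, toR_intmul]
        push_cast
        ring
      have e1 := mulU_ok (minI ρ 0) (minI ρ 0)
      rw [toR_minI, toR_zero, ← sq] at e1
      have e2 : min (toR ρ) 0 ^ 2 / (2 * toR (-κ)) ≤
          toR (divU (mulU (minI ρ 0) (minI ρ 0)) (-(2 * κ))) :=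
        divU_le (sq_nonneg _) (by rw [e0, toR_neg]; linarith) e1 e0.le
      rw [toR_sub]
      linarith
  · rw [h0, cond_true] at h
    obtain ⟨I', M', h, hb⟩ := aA_ok ha h
    refine ⟨I', M', h, fun J E0 zr z h' hE hP hl hd _ => hb J E0 _ _ zr z h' hE hP ?_ hl hd⟩
    rw [toR_sub]
    linarith

theorem tla_toC_sub (a b c d : ℤ) : toC (a - b) (c - d) = toC a c - toC b d := by
  apply Complex.ext
  · exact toR_sub a b
  · exact toR_sub c d

theorem tla_vert {x : Pt} {zc : TM} {zc0 : ℂ} (hz : RepA x zc zc0) {r : Bool} {u v : ℤ}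
    {k : TM → Bool} (h : (cond r (addc zc u v) (cst u v)) k = true) :
    ∃ c, k c = true ∧ RepA x c ((if r then zc0 else 0) + toC u v) := by
  cases r
  · rw [cond_false] at h
    obtain ⟨c, h, hc⟩ := cst_ok h
    refine ⟨c, h, fun y hy => ?_⟩
    simpa using hc (x.set3 y hy)
  · rw [cond_true] at h
    obtain ⟨c, h, hc⟩ := addc_ok h
    exact ⟨c, h, fun y hy => hc _ _ (hz y hy)⟩

theorem tla_diff {x : Pt} {zc0 : ℂ} {r r' : Bool} {u v u' v' : ℤ} {p p' : TM}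
    (hp : RepA x p ((if r then zc0 else 0) + toC u v))
    (hp' : RepA x p' ((if r' then zc0 else 0) + toC u' v')) {k : TM → Bool}
    (h : (cond (r' == r) (cst (u' - u) (v' - v)) (sub p' p)) k = true) :
    ∃ c, k c = true ∧ RepA x c
      (((if r' then zc0 else 0) + toC u' v') - ((if r then zc0 else 0) + toC u v)) := by
  cases e : (r' == r)
  · rw [e, cond_false] at h
    obtain ⟨c, h, hc⟩ := sub_ok h
    exact ⟨c, h, fun y hy => hc _ _ _ (hp' y hy) (hp y hy)⟩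
  · rw [e, cond_true] at h
    obtain ⟨c, h, hc⟩ := cst_ok h
    refine ⟨c, h, fun y hy => ?_⟩
    have e1 : r' = r := by simpa using e
    have e2 := hc (x.set3 y hy)
    rw [tla_toC_sub] at e2
    rw [e1, add_sub_add_left_eq_sub]
    exact e2

theorem tla_n (n : ℤ) : toR (n * one) = n := by rw [toR_intmul, toR_one, mul_one]

/-- the height gap at the new vertex -/
theorem tla_gap {g c K5 len : ℤ} {t y : ℝ} (ht : 0 ≤ t) (hl : t ≤ toR len) (hK : 0 ≤ toR K5)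
    (hy : y ≤ toR c) :
    toR (g - divU (c + divU (mulU K5 (mulU (mulU len len) (mulU (mulU len len) len)))
      (60 * one)) (12 * one)) ≤ toR g - y / 12 - toR K5 * t ^ 5 / 720 := by
  have e2 : t * t ≤ toR (mulU len len) := mulU_le ht ht hl hl
  have e3 : t * t * t ≤ toR (mulU (mulU len len) len) := mulU_le (by positivity) ht e2 hl
  have e5 := mulU_le (by positivity) (by positivity) e2 e3
  have e6 := mulU_le hK (by positivity) le_rfl e5
  have e7 := divU_ok (mulU K5 (mulU (mulU len len) (mulU (mulU len len) len))) (b := 60 * one)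
    (by rw [tla_n]; norm_num)
  have e8 := divU_ok (c + divU (mulU K5 (mulU (mulU len len) (mulU (mulU len len) len)))
    (60 * one)) (b := 12 * one) (by rw [tla_n]; norm_num)
  rw [tla_n] at e7 e8
  rw [toR_add] at e8
  rw [toR_sub]
  push_cast at e7 e8
  have e9 : toR K5 * t ^ 5 = toR K5 * (t * t * (t * t * t)) := by ring
  rw [e9]
  linarith

theorem tla_k3 {K3 len : ℤ} {t : ℝ} (ht : 0 ≤ t) (hl : t ≤ toR len) (hK : 0 ≤ toR K3) :
    toR K3 * t ^ 3 / 3 ≤ toR (divU (mulU K3 (mulU (mulU len len) len)) (3 * one)) := by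
  have e2 : t * t ≤ toR (mulU len len) := mulU_le ht ht hl hl
  have e3 : t * t * t ≤ toR (mulU (mulU len len) len) := mulU_le (by positivity) ht e2 hl
  have e6 := mulU_le hK (by positivity) le_rfl e3
  have e7 := divU_ok (mulU K3 (mulU (mulU len len) len)) (b := 3 * one)
    (by rw [tla_n]; norm_num)
  rw [tla_n] at e7
  push_cast at e7
  have e9 : toR K3 * t ^ 3 = toR K3 * (t * t * t) := by ring
  rw [e9]
  linarith

theorem tla_W {a : Ac} {L : ℝ} (ha : a.Ok L) : 0 ≤ a.W L :=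
  wt_nonneg _ ha.1.le (ha.1.le.trans ha.2.1)

theorem tla_Bd {a : Ac} {L E0 I M I' M' : ℝ} (ha : a.Ok L) {zr : ℂ} {u v w : ℂ × ℂ}
    (h : Bd L E0 (a.W L) zr u v I M) (h' : Bd L E0 (a.W L) zr v w (I' - I) (M' - M)) :
    Bd L E0 (a.W L) zr u w I' M' := by
  have e := h.trans (tla_W ha) h'
  rwa [add_sub_cancel, add_sub_cancel] at e

theorem tla_dist {z h zr : ℂ} {d l s : ℝ} (hd : ‖z - zr‖ ≤ d) (hl : ‖h‖ ≤ l) (s0 : 0 ≤ s)
    (s1 : s ≤ 1) : ‖z + s * h - zr‖ ≤ d + l := by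
  have e : z + s * h - zr = (z - zr) + s * h := by ring
  have e1 := norm_add_le (z - zr) (s * h)
  rw [norm_mul, Complex.norm_real, Real.norm_of_nonneg s0] at e1
  have e2 := mul_le_mul_of_nonneg_right s1 (norm_nonneg h)
  rw [e]
  linarith

section

variable {C : Chart} {x : Pt} {J : Jet} {a : Ac} {E0 : ℝ} {zc : TM} {zc0 : ℂ} {u0 : ℂ × ℂ}

theorem step_ok (hC : C.Ok x J) (ha : a.Ok J.L) (hE : 0 ≤ E0) (hz : RepA x zc zc0) {s : Step}
    {S : St} {k : St → Bool} {z : ℂ} (hS : S.Ok x J a E0 zc0 u0 z)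
    (h : step C a zc s S k = true) : ∃ S' z', k S' = true ∧ S'.Ok x J a E0 zc0 u0 z' := by
  unfold step at h
  obtain ⟨z2, h, hz2⟩ := tla_vert hz h
  obtain ⟨d, h, hd⟩ := tla_diff (hS.hz ▸ hS.hc) hz2 h
  rw [← hS.hz] at hd
  obtain ⟨w, hw⟩ : ∃ w, w = (if s.rel then zc0 else 0) + toC s.u s.v - z := ⟨_, rfl⟩
  have hzw : z + w = (if s.rel then zc0 else 0) + toC s.u s.v := by rw [hw, add_sub_cancel]
  rw [← hw] at hd
  rw [← hzw] at hz2
  obtain ⟨len, h, hlen⟩ := ab_ok h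
  have hl := hlen _ _ hd.rep
  obtain ⟨K3, K5, h, hK⟩ := supS_ok hC hS.hc hd h
  obtain ⟨f1, f2, h, hf⟩ := hC.h2 _ _ h
  have hf1 : RepA x f1 (J.f1 (z + w)) := fun y hy => (hf y hy _ (hz2 y hy)).2.1
  have hf2 : RepA x f2 (J.f2 (z + w)) := fun y hy => (hf y hy _ (hz2 y hy)).2.2
  obtain ⟨d2, h, hd2⟩ := mul_ok h
  replace hd2 := hd2 _ _ _ hd.rep hd.rep
  rw [← sq] at hd2
  obtain ⟨a1, h, ha1⟩ := mul_ok h
  replace ha1 := ha1 _ _ _ hS.h1.rep hd.rep
  obtain ⟨a2, h, ha2⟩ := mul_ok h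
  replace ha2 := ha2 _ _ _ hf1.rep hd.rep
  obtain ⟨b1, h, hb1⟩ := mul_ok h
  replace hb1 := hb1 _ _ _ hS.h2.rep hd2
  obtain ⟨b2, h, hb2⟩ := mul_ok h
  replace hb2 := hb2 _ _ _ hf2.rep hd2
  obtain ⟨c1, h, hc1⟩ := add_ok h
  replace hc1 := hc1 _ _ _ ha1 ha2
  obtain ⟨c1', h, hc1'⟩ := nmul_ok h
  replace hc1' := hc1' _ _ hc1
  obtain ⟨c2, h, hc2⟩ := sub_ok h
  replace hc2 := hc2 _ _ _ hb1 hb2
  obtain ⟨c3, h, hc3⟩ := add_ok h
  replace hc3 := hc3 _ _ _ hc1' hc2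
  obtain ⟨c, h, hc⟩ := hi_ok h
  replace hc := hc _ _ hc3
  rw [fI_eq, fI_eq, fI_eq, fI_eq, fI_eq] at h
  have K30 : 0 ≤ toR K3 := (norm_nonneg _).trans (hK 0 le_rfl zero_le_one).2.1
  have K50 : 0 ≤ toR K5 := (norm_nonneg _).trans (hK 0 le_rfl zero_le_one).2.2
  have hgap := tla_gap (g := S.g) (norm_nonneg w) hl K50 hc
  have hk3 := tla_k3 (norm_nonneg w) hl K30
  have hg2 := seg_height J hE (fun t t0 t1 => ⟨(hK t t0 t1).1, (hK t t0 t1).2.2⟩) hS.hg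
    (hgap.trans (le_of_eq (by
      have e : (J.f1 z * w + J.f1 (z + w) * w) / 2 + (J.f2 z * w ^ 2 - J.f2 (z + w) * w ^ 2) / 12 =
          ((J.f1 z * w + J.f1 (z + w) * w) * ((6 : ℤ) : ℂ) +
            (J.f2 z * w ^ 2 - J.f2 (z + w) * w ^ 2)) / ((12 : ℝ) : ℂ) := by
        push_cast
        ring
      rw [e, Complex.div_ofReal_re])))
  have hds : ∀ t : ℝ, 0 ≤ t → t ≤ 1 → ‖z + t * w - zc0‖ ≤ toR (S.dist + len) := fun t t0 t1 => by
    rw [toR_add]
    exact tla_dist hS.hd hl t0 t1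
  have hd1 : ‖z + w - zc0‖ ≤ toR (S.dist + len) := by simpa using hds 1 zero_le_one le_rfl
  cases hm : Nat.blt s.mode 3
  · rw [hm, cond_false] at h
    obtain ⟨r, h, hr⟩ := lo_ok h
    replace hr := hr _ _ ha2
    obtain ⟨b, h, hb⟩ := hi_ok h
    replace hb := hb _ _ hb2
    obtain ⟨I, M, h, hB⟩ := tla_accM ha h
    have e : ∀ t : ℝ, z + w + t * (-w) = z + ((1 - t : ℝ) : ℂ) * w := fun t => by
      push_cast
      ring
    have hP := prof_of J (z := z + w) (h := -w) (ρ := toR r) (κ := toR (b + _)) (K3 := toR K3) hE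
      (fun t t0 t1 => by
        rw [e]
        exact ⟨(hK _ (by linarith) (by linarith)).1, (hK _ (by linarith) (by linarith)).2.1⟩)
      hg2 (by rw [mul_neg, Complex.neg_re, neg_neg]; exact hr)
      (by rw [neg_sq, norm_neg, toR_add]; exact add_le_add hb hk3)
    have hB' := hB J.toPrim E0 zc0 (z + w) (-w) hE hP (by rwa [norm_neg]) hd1
      (fun t t0 t1 => by
        rw [e]
        exact hds _ (by linarith) (by linarith))
    rw [add_neg_cancel_right] at hB'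
    exact ⟨_, z + w, h, ⟨hz2, hf1, hf2, hzw, hg2, hd1, tla_Bd ha hS.hB hB'.symm⟩⟩
  · rw [hm, cond_true] at h
    obtain ⟨r, h, hr⟩ := hi_ok h
    replace hr := hr _ _ ha1
    obtain ⟨b, h, hb⟩ := hi_ok h
    replace hb := hb _ _ hb1
    obtain ⟨I, M, h, hB⟩ := tla_accM ha h
    have hP := prof_of J (z := z) (h := w) (ρ := toR (-r)) (κ := toR (b + _)) (K3 := toR K3) hE
      (fun t t0 t1 => ⟨(hK t t0 t1).1, (hK t t0 t1).2.1⟩) hS.hg
      (by rw [toR_neg]; exact neg_le_neg hr) (by rw [toR_add]; exact add_le_add hb hk3)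
    have hB' := hB J.toPrim E0 zc0 z w hE hP hl hS.hd hds
    exact ⟨_, z + w, h, ⟨hz2, hf1, hf2, hzw, hg2, hd1, tla_Bd ha hS.hB hB'⟩⟩

theorem steps_ok (hC : C.Ok x J) (ha : a.Ok J.L) (hE : 0 ≤ E0) (hz : RepA x zc zc0)
    {l : List Step} {S : St} {k : St → Bool} {z : ℂ} (hS : S.Ok x J a E0 zc0 u0 z)
    (h : steps C a zc l S k = true) : ∃ S' z', k S' = true ∧ S'.Ok x J a E0 zc0 u0 z' := by
  induction l generalizing S z with
  | nil => exact ⟨S, z, h, hS⟩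
  | cons s l ih =>
    obtain ⟨S', z', h', hS'⟩ := step_ok hC ha hE hz hS h
    exact ih hS' h'

end

/-- the last part of a tail -/
abbrev End := St → (ℤ → ℤ → Bool) → Bool

/-- the end leads to the value `v` of the primitives -/
def End.Ok (e : End) (x : Pt) (J : Jet) (a : Ac) (E0 : ℝ) (zc : ℂ) (v : ℂ × ℂ) : Prop :=
  ∀ S k u0 z, St.Ok S x J a E0 zc u0 z → e S k = true →
    ∃ I M, k I M = true ∧ Bd J.L E0 (a.W J.L) zc u0 v (toR I) (toR M)

/-- the polygon stops at the constant point `(u, v)` -/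
def endCut (u v : ℤ) : End := fun S k =>
  !S.rel && leI S.u u && leI u S.u && leI S.v v && leI v S.v && k S.I S.M

theorem endCut_ok (u v : ℤ) (x : Pt) (J : Jet) (a : Ac) (E0 : ℝ) (zc : ℂ) :
    End.Ok (endCut u v) x J a E0 zc (J.P (toC u v)) := by
  intro S k u0 z hS h
  unfold endCut at h
  simp only [Bool.and_eq_true, Bool.not_eq_true'] at h
  obtain ⟨⟨⟨⟨⟨h0, h1⟩, h2⟩, h3⟩, h4⟩, h⟩ := h
  refine ⟨_, _, h, ?_⟩
  have e : z = toC u v := by
    rw [hS.hz, h0]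
    unfold toC
    rw [le_antisymm (leI_ok h1) (leI_ok h2), le_antisymm (leI_ok h3) (leI_ok h4)]
    simp
  rw [← e]
  exact hS.hB

/-- a tail starting at `zc + (u, v)` with height gap `g` -/
def tail (C : Chart) (a : Ac) (zc : TM) (u v g dist : ℤ) (l : List Step) (e : End)
    (k : ℤ → ℤ → Bool) : Bool :=
  addc zc u v fun w => C.jet2 w fun f1 f2 =>
    steps C a zc l ⟨w, f1, f2, true, u, v, g, dist, 0, 0⟩ fun S => e S k

theorem tail_ok {C : Chart} {x : Pt} {J : Jet} {a : Ac} {E0 : ℝ} {zc : TM} {zc0 : ℂ}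
    (hC : C.Ok x J) (ha : a.Ok J.L) (hE : 0 ≤ E0) (hz : RepA x zc zc0) {u v g dist : ℤ}
    {l : List Step} {e : End} {w : ℂ × ℂ} (he : e.Ok x J a E0 zc0 w)
    (hg : ‖J.E (zc0 + toC u v)‖ ≤ E0 * Real.exp (-(J.L * toR g))) (hd : ‖toC u v‖ ≤ toR dist)
    {k : ℤ → ℤ → Bool} (h : tail C a zc u v g dist l e k = true) :
    ∃ I M, k I M = true ∧ Bd J.L E0 (a.W J.L) zc0 (J.P (zc0 + toC u v)) w (toR I) (toR M) := by
  unfold tail at h
  obtain ⟨p, h, hp⟩ := addc_ok h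
  have hp' : RepA x p (zc0 + toC u v) := fun y hy => hp _ _ (hz y hy)
  obtain ⟨f1, f2, h, hf⟩ := hC.h2 _ _ h
  have hS : St.Ok ⟨p, f1, f2, true, u, v, g, dist, 0, 0⟩ x J a E0 zc0 (J.P (zc0 + toC u v))
      (zc0 + toC u v) :=
    ⟨hp', fun y hy => (hf y hy _ (hp' y hy)).2.1, fun y hy => (hf y hy _ (hp' y hy)).2.2, rfl, hg,
      by rwa [add_sub_cancel_left], by
        show Bd _ _ _ _ _ _ (toR 0) (toR 0)
        rw [toR_zero]
        exact Bd.refl _ _ _ _⟩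
  obtain ⟨S, z, h, hS'⟩ := steps_ok hC ha hE hz hS h
  exact he S k _ z hS' h

/-- the Laplace core; the continuation gets `lo hi mc gm gp len` -/
def core (C : Chart) (a : Ac) (z : TM) (u v : ℤ) (c : LCC) (two : Bool)
    (k : ℤ → ℤ → ℤ → ℤ → ℤ → ℤ → Bool) : Bool :=
  cst u v fun d => neg d fun dn => ab d fun len => C.jet4 z fun _ f2 f3 f4 =>
  supS C z d two fun _ K => supS C z dn two fun _ K' =>
  mul d d fun d2 => mul d2 d fun d3 => mul d2 d2 fun d4 =>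
  mul f2 d2 fun A2 => ndiv A2 2 fun A2 => mul f3 d3 fun A3 => ndiv A3 6 fun A3 =>
  mul f4 d4 fun A4 => ndiv A4 24 fun A4 =>
  hi A2 fun al => fI (-al) fun al => ltI 0 al &&
  fI (mulU len len) fun l2 =>
  fI (divU (mulU (maxI K K') (mulU (mulU l2 l2) len)) (120 * one)) fun K =>
  hi A3 fun p1 => lo A3 fun p2 => ab A3 fun c3 => ab A4 fun c4 =>
  fI (divU c3 al) fun cc => fI (divU K al) fun kk =>
  leI (maxI p1 (-p2)) (mulD c.p al) && leI c4 (mulD c.e al) && leI kk c.k &&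
  fI (mulU c.U0 c.U0) fun UU => leI UU (2 * mulD al a.L0) &&
  fI (cc + kk) fun ck =>
  fI (mulU (mulU len (sqrtU (divU piU al))) (mulU (mulU ck ck) c.J2 + c.JE + c.tr)) fun er =>
  ab f2 fun fh => ablo f2 fun fl => ltI 0 fl &&
  fI (sqrtD (divD (2 * piD) fh) - er) fun lo => fI (sqrtU (divU (2 * piU) fl) + er) fun hi' =>
  fI (mulU cc c.M3 + mulU kk c.M5) fun n1 =>
  fI (cond (Nat.ble 2 a.ty) n1 (minI n1
    (mulU (divU (2 * mulU al a.L0) (mulD c.U0 c.U0)) (mulU cc c.N3 + mulU kk c.N5)))) fun nn =>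
  fI (mulD (2 * al) (sqrtD (2 * al))) fun den => ltI 0 den && ltI 0 (mulD c.U0 c.U0) &&
  fI (divU (mulU (mulU l2 (sqrtU (2 * piU))) nn) den) fun mc =>
  add A2 A4 fun B => add B A3 fun Bp => sub B A3 fun Bm => hi Bp fun gp => hi Bm fun gm =>
  fI (mulU kk al) fun K => fI (-gm - K) fun gm => fI (-gp - K) fun gp => k lo hi' mc gm gp len

/-- data of a contour through a saddle -/
structure Path where
  u : ℤ
  v : ℤ
  cls : LCC
  two : Bool
  dn : List Step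
  up : List Step

/-- the continuation gets `lo hi M` -/
def entryX (C : Chart) (a : Ac) (z : TM) (q : Path) (ed eu : End) (k : ℤ → ℤ → ℤ → Bool) : Bool :=
  core C a z q.u q.v q.cls q.two fun lo hi mc gm gp len =>
  tail C a z (-q.u) (-q.v) gm len q.dn ed fun I1 M1 =>
  tail C a z q.u q.v gp len q.up eu fun I2 M2 =>
  fI (lo - I1 - I2) fun lo => fI (hi + I1 + I2) fun hi => fI (mc + M1 + M2) fun M => k lo hi M

/-- upper bound only: both tails start at the base point, whose gap is `η` -/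
def entryU (C : Chart) (a : Ac) (z : TM) (η : ℤ) (dn up : List Step) (ed eu : End)
    (k : ℤ → ℤ → Bool) : Bool :=
  tail C a z 0 0 η 0 dn ed fun I1 M1 => tail C a z 0 0 η 0 up eu fun I2 M2 =>
  fI (I1 + I2) fun I => fI (M1 + M2) fun M => k I M

section

variable {C : Chart} {x : Pt} {J : Jet} {a : Ac} {z : TM} {z0 : ℂ} {ed eu : End} {vd vu : ℂ × ℂ}

theorem tailB_ok {E0 : ℝ} (hC : C.Ok x J) (ha : a.Ok J.L) (hE0 : 0 ≤ E0) (hz : RepA x z z0)
    {u v g dist : ℤ} {l : List Step} {e : End} {w : ℂ × ℂ} (he : e.Ok x J a E0 z0 w)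
    (hg : ‖J.E (z0 + toC u v)‖ ≤ E0 * Real.exp (-(J.L * toR g))) (hd : ‖toC u v‖ ≤ toR dist)
    {k : ℤ → ℤ → Bool} (h : tail C a z u v g dist l e k = true) :
    ∃ I M, k I M = true ∧ Bd J.L E0 (a.W J.L) z0 (J.P (z0 + toC u v)) w (toR I) (toR M) := by
  unfold tail at h
  obtain ⟨c, h, hc⟩ := TM.addc_ok h
  obtain ⟨f1, f2, h, hf⟩ := hC.h2 _ _ h
  have hS : St.Ok ⟨c, f1, f2, true, u, v, g, dist, 0, 0⟩ x J a E0 z0 (J.P (z0 + toC u v))
      (z0 + toC u v) :=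
    ⟨fun y hy => hc _ _ (hz y hy), fun y hy => (hf y hy _ (hc _ _ (hz y hy))).2.1,
      fun y hy => (hf y hy _ (hc _ _ (hz y hy))).2.2, rfl, hg, by rwa [add_sub_cancel_left],
      by rw [toR_zero]; exact Bd.refl _ _ _ _⟩
  obtain ⟨S, z', h, hS'⟩ := steps_ok hC ha hE0 hz hS h
  exact he S k _ z' hS' h

theorem tailB_two (n : ℤ) : toR (2 * n) = 2 * toR n := by
  rw [toR_intmul]; norm_num

theorem tailB_neg (u v : ℤ) : toC (-u) (-v) = -toC u v := by
  apply Complex.ext <;> simp [toC, toR_neg]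

theorem tailB_div {p q : ℤ} {r : ℝ} (hq : 0 < toR q) (h : r ≤ toR p) :
    r ≤ toR (divU p q) * toR q := by
  have := divU_ok p hq
  rw [div_le_iff₀ hq] at this
  exact h.trans this

theorem tailB_mom {W X E l2 D al r nn mc : ℝ} (hE : 0 ≤ E) (hr : r ≤ nn) (hal : 0 < al)
    (hD : 0 ≤ D) (hmc : D * nn / (2 * al * Real.sqrt (2 * al)) ≤ mc) (hl : l2 = D)
    (h : W * X ≤ E * (l2 * r / (2 * al * Real.sqrt (2 * al)))) : W * X ≤ E * mc := by
  refine h.trans (mul_le_mul_of_nonneg_left (le_trans ?_ hmc) hE)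
  rw [hl]
  exact div_le_div_of_nonneg_right (mul_le_mul_of_nonneg_left hr hD) (by positivity)

theorem core_ok (hC : C.Ok x J) (ha : a.Ok J.L) (hz : RepA x z z0) (h0 : J.f1 z0 = 0)
    {u v : ℤ} {c : LCC} {two : Bool} (hq : c.ok) {k : ℤ → ℤ → ℤ → ℤ → ℤ → ℤ → Bool}
    (h : core C a z u v c two k = true) :
    ∃ lo hi mc gm gp len, k lo hi mc gm gp len = true ∧
      ‖J.E z0‖ * toR lo ≤ Real.sqrt J.L * ‖J.A0 (z0 + toC u v) - J.A0 (z0 - toC u v)‖ ∧
      Bd J.L ‖J.E z0‖ (a.W J.L) z0 (J.P (z0 - toC u v)) (J.P (z0 + toC u v)) (toR hi) (toR mc) ∧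
      ‖J.E (z0 - toC u v)‖ ≤ ‖J.E z0‖ * Real.exp (-(J.L * toR gm)) ∧
      ‖J.E (z0 + toC u v)‖ ≤ ‖J.E z0‖ * Real.exp (-(J.L * toR gp)) ∧ ‖toC u v‖ ≤ toR len := by
  unfold core at h
  obtain ⟨d, h, hd⟩ := TM.cst_ok h
  obtain ⟨dn, h, hdn⟩ := TM.neg_ok h
  obtain ⟨len, h, hlen⟩ := TM.ab_ok h
  obtain ⟨f1, f2, f3, f4, h, hf⟩ := hC.h4 _ _ h
  obtain ⟨K3, K, h, hK⟩ := supS_ok hC hz (fun y hy => hd _) h
  obtain ⟨K3', K', h, hK'⟩ := supS_ok hC hz (fun y hy => hdn _ _ (hd _)) h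
  obtain ⟨-, -, r2, r3, r4⟩ := hf x.x3 x.h3 z0 (hz _ _)
  generalize x.set3 x.x3 x.h3 = y at r2 r3 r4
  generalize toC u v = D at *
  obtain ⟨d2, h, hd2⟩ := TM.mul_ok h
  obtain ⟨d3, h, hd3⟩ := TM.mul_ok h
  obtain ⟨d4, h, hd4⟩ := TM.mul_ok h
  replace hd2 := hd2 y _ _ (hd y) (hd y)
  replace hd3 := hd3 y _ _ hd2 (hd y)
  replace hd4 := hd4 y _ _ hd2 hd2
  obtain ⟨B2, h, hB2⟩ := TM.mul_ok h
  obtain ⟨A2, h, hA2⟩ := TM.ndiv_ok h
  obtain ⟨B3, h, hB3⟩ := TM.mul_ok h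
  obtain ⟨A3, h, hA3⟩ := TM.ndiv_ok h
  obtain ⟨B4, h, hB4⟩ := TM.mul_ok h
  obtain ⟨A4, h, hA4⟩ := TM.ndiv_ok h
  replace hA2 : Rep y A2 (J.f2 z0 * D ^ 2 / 2) := by
    simpa only [sq, Nat.cast_ofNat] using hA2 y _ (hB2 y _ _ r2 hd2)
  replace hA3 : Rep y A3 (J.f3 z0 * D ^ 3 / 6) := by
    simpa only [pow_succ, pow_zero, one_mul, Nat.cast_ofNat] using hA3 y _ (hB3 y _ _ r3 hd3)
  replace hA4 : Rep y A4 (J.f4 z0 * D ^ 4 / 24) := by
    have := hA4 y _ (hB4 y _ _ r4 hd4)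
    rwa [show D * D * (D * D) = D ^ 4 by ring, Nat.cast_ofNat] at this
  clear hB2 hB3 hB4
  obtain ⟨al', h, hal⟩ := TM.hi_ok h
  replace hal := hal y _ hA2
  replace hlen := hlen y _ (hd y)
  rw [fI_eq, Bool.and_eq_true, fI_eq, fI_eq] at h
  obtain ⟨t1, h⟩ := h
  have hal' : toR (-al') ≤ -(J.f2 z0 * D ^ 2 / 2).re := by rw [toR_neg]; linarith
  generalize -al' = al at *
  have hal0 : 0 < toR al := by simpa only [toR_zero] using ltI_ok t1
  have hl2 : ‖D‖ * ‖D‖ ≤ toR (mulU len len) := mulU_le (norm_nonneg _) (norm_nonneg _) hlen hlen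
  generalize mulU len len = l2 at *
  have hK5 : ∀ r : ℝ, 0 ≤ r → r ≤ toR (maxI K K') → r * ‖D‖ ^ 5 / 120 ≤
      toR (divU (mulU (maxI K K') (mulU (mulU l2 l2) len)) (120 * one)) := fun r hr hr' => by
    have e : toR (120 * one) = 120 := by rw [toR_intmul, toR_one]; norm_num
    refine divU_le (by positivity) (by rw [e]; norm_num) (mulU_le hr (by positivity) hr' ?_) e.le
    rw [show ‖D‖ ^ 5 = ‖D‖ * ‖D‖ * (‖D‖ * ‖D‖) * ‖D‖ by ring]
    exact mulU_le (by positivity) (norm_nonneg _)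
      (mulU_le (by positivity) (by positivity) hl2 hl2) hlen
  generalize divU (mulU (maxI K K') (mulU (mulU l2 l2) len)) (120 * one) = K5 at *
  obtain ⟨p1, h, hp1⟩ := TM.hi_ok h
  obtain ⟨p2, h, hp2⟩ := TM.lo_ok h
  obtain ⟨c3, h, hc3⟩ := TM.ab_ok h
  obtain ⟨c4, h, hc4⟩ := TM.ab_ok h
  simp only [fI_eq, Bool.and_eq_true] at h
  obtain ⟨⟨⟨t2, t3⟩, t4⟩, t5, h⟩ := h
  have hcc := tailB_div hal0 (hc3 y _ hA3)
  have hkk := tailB_div hal0 (le_refl (toR K5))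
  generalize divU c3 al = cc at *
  generalize divU K5 al = kk at *
  obtain ⟨hL0, hL, -⟩ := ha
  have H : CoreHyp J z0 D (toR a.L0) (toR c.U0) (toR c.p) (toR c.e) (toR c.k) (toR al) (toR cc)
      (toR kk) := by
    refine ⟨hL0, hL, h0, hal0, fun s hs hs' => ?_, hal', ?_, hcc,
      (hc4 y _ hA4).trans ((leI_ok t3).trans (mulD_ok _ _)), leI_ok t4, ?_⟩
    · rcases le_total 0 s with h1 | h1
      · obtain ⟨h2, -, h3⟩ := hK s h1 hs'
        exact ⟨h2, (hK5 _ (norm_nonneg _)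
          (h3.trans (by rw [toR_maxI]; exact le_max_left _ _))).trans hkk⟩
      · obtain ⟨h2, -, h3⟩ := hK' (-s) (by linarith) (by linarith)
        rw [Complex.ofReal_neg, neg_mul_neg] at h2 h3
        exact ⟨h2, (hK5 _ (norm_nonneg _)
          (h3.trans (by rw [toR_maxI]; exact le_max_right _ _))).trans hkk⟩
    · refine le_trans ?_ ((leI_ok t2).trans (mulD_ok _ _))
      rw [toR_maxI, toR_neg]
      exact abs_le.mpr ⟨by linarith [hp2 y _ hA3, le_max_right (toR p1) (-toR p2)],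
        (hp1 y _ hA3).trans (le_max_left _ _)⟩
    · have h1 := leI_ok t5
      rw [tailB_two] at h1
      have h2 := mulU_ok c.U0 c.U0
      have h3 := mulD_ok al a.L0
      rw [sq]
      linarith
  have hcc0 : 0 ≤ toR cc := nonneg_of_mul_nonneg_left ((norm_nonneg _).trans hcc) hal0
  have hkk0 : 0 ≤ toR kk :=
    nonneg_of_mul_nonneg_left (le_trans (by positivity) (H.hU 0 (by norm_num) zero_le_one).2) hal0
  have hJ2 : 0 ≤ toR c.J2 := by simpa using hq.hJ2 0 le_rfl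
  have hJE : 0 ≤ toR c.JE := by simpa using hq.hJE 0 le_rfl
  have htr : 0 ≤ toR c.tr := le_trans (MeasureTheory.integral_nonneg co_lcG) hq.htr
  have hM3 : 0 ≤ toR c.M3 := by simpa using hq.hM3 0 le_rfl
  have hM5 : 0 ≤ toR c.M5 := by simpa using hq.hM5 0 le_rfl
  have hN3 : 0 ≤ toR c.N3 := by simpa using hq.hN3 0 le_rfl
  have hN5 : 0 ≤ toR c.N5 := by simpa using hq.hN5 0 le_rfl
  have her : ‖D‖ * Real.sqrt (Real.pi / toR al) *
      ((toR cc + toR kk) ^ 2 * toR c.J2 + toR c.JE + toR c.tr) ≤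
      toR (mulU (mulU len (sqrtU (divU piU al)))
        (mulU (mulU (cc + kk) (cc + kk)) c.J2 + c.JE + c.tr)) := by
    refine mulU_le (by positivity) (by positivity) (mulU_le (norm_nonneg _) (Real.sqrt_nonneg _)
      hlen ((Real.sqrt_le_sqrt (divU_le Real.pi_pos.le hal0 piU_ok le_rfl)).trans
        (sqrtU_ok _))) ?_
    rw [toR_add, toR_add, ← toR_add cc kk, sq]
    linarith [mulU_le (mul_self_nonneg _) hJ2 (mulU_ok (cc + kk) (cc + kk)) le_rfl]
  generalize mulU (mulU len (sqrtU (divU piU al)))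
    (mulU (mulU (cc + kk) (cc + kk)) c.J2 + c.JE + c.tr) = er at *
  obtain ⟨fh, h, hfh⟩ := TM.ab_ok h
  obtain ⟨fl, h, hfl⟩ := TM.ablo_ok h
  simp only [Bool.and_eq_true] at h
  obtain ⟨t6, ⟨t7, t8⟩, h⟩ := h
  have hfl0 : 0 < toR fl := by simpa only [toR_zero] using ltI_ok t6
  have hUU : 0 < toR (mulD c.U0 c.U0) := by simpa only [toR_zero] using ltI_ok t8
  have hden : 0 < toR (mulD (2 * al) (sqrtD (2 * al))) := by
    simpa only [toR_zero] using ltI_ok t7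
  have hpiU : 2 * Real.pi ≤ toR (2 * piU) := by rw [tailB_two]; linarith [piU_ok]
  have hpiD : toR (2 * piD) ≤ 2 * Real.pi := by rw [tailB_two]; linarith [piD_ok]
  have hlo : toR (sqrtD (divD (2 * piD) fh)) ≤ Real.sqrt (2 * Real.pi / ‖J.f2 z0‖) :=
    (sqrtD_ok _).trans (Real.sqrt_le_sqrt (divD_le
      (by rw [← toR_zero, toR_le]; decide) (hfl0.trans_le (hfl y _ r2)) hpiD (hfh y _ r2)))
  have hhi : Real.sqrt (2 * Real.pi / ‖J.f2 z0‖) ≤ toR (sqrtU (divU (2 * piU) fl)) :=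
    (Real.sqrt_le_sqrt (divU_le (by positivity) hfl0 hpiU (hfl y _ r2))).trans (sqrtU_ok _)
  have hint := abs_le.mp ((core_int H hq).trans (mul_le_mul_of_nonneg_left her (norm_nonneg _)))
  have hn1 : toR cc * toR c.M3 + toR kk * toR c.M5 ≤ toR (mulU cc c.M3 + mulU kk c.M5) := by
    rw [toR_add]; exact add_le_add (mulU_ok _ _) (mulU_ok _ _)
  have hn2 : 2 * toR al * toR a.L0 / toR c.U0 ^ 2 * (toR cc * toR c.N3 + toR kk * toR c.N5) ≤
      toR (mulU (divU (2 * mulU al a.L0) (mulD c.U0 c.U0)) (mulU cc c.N3 + mulU kk c.N5)) := by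
    refine mulU_le (by positivity) (by positivity) (divU_le (by positivity) hUU ?_ ?_) ?_
    · rw [tailB_two]; linarith [mulU_ok al a.L0]
    · rw [sq]; exact mulD_ok _ _
    · rw [toR_add]; exact add_le_add (mulU_ok _ _) (mulU_ok _ _)
  have hn1' : 0 ≤ toR (mulU cc c.M3 + mulU kk c.M5) := le_trans (by positivity) hn1
  have hn2' := le_trans (by positivity) hn2
  generalize mulU cc c.M3 + mulU kk c.M5 = n1 at *
  generalize mulU (divU (2 * mulU al a.L0) (mulD c.U0 c.U0)) (mulU cc c.N3 + mulU kk c.N5) = n2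
    at *
  have hmc : ∀ nn : ℤ, 0 ≤ toR nn → ‖D‖ ^ 2 * Real.sqrt (2 * Real.pi) * toR nn /
      (2 * toR al * Real.sqrt (2 * toR al)) ≤
      toR (divU (mulU (mulU l2 (sqrtU (2 * piU))) nn) (mulD (2 * al) (sqrtD (2 * al)))) := by
    intro nn hnn
    refine divU_le (by positivity) hden (mulU_le (by positivity) hnn (mulU_le (by positivity)
      (Real.sqrt_nonneg _) (by rwa [sq]) ((Real.sqrt_le_sqrt hpiU).trans (sqrtU_ok _))) le_rfl)
      ((mulD_ok _ _).trans ?_)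
    have h1 := sqrtD_ok (2 * al)
    rw [tailB_two] at h1 ⊢
    exact mul_le_mul_of_nonneg_left h1 (by positivity)
  obtain ⟨B, h, hB⟩ := TM.add_ok h
  obtain ⟨Bp, h, hBp⟩ := TM.add_ok h
  obtain ⟨Bm, h, hBm⟩ := TM.sub_ok h
  obtain ⟨gp, h, hgp⟩ := TM.hi_ok h
  obtain ⟨gm, h, hgm⟩ := TM.hi_ok h
  replace hgp := hgp y _ (hBp y _ _ (hB y _ _ hA2 hA4) hA3)
  replace hgm := hgm y _ (hBm y _ _ (hB y _ _ hA2 hA4) hA3)
  have hK2 := mulU_ok kk al
  have hE := norm_nonneg (J.E z0)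
  refine ⟨_, _, _, _, _, _, h, ?_, ⟨?_, ?_⟩, ?_, ?_, hlen⟩
  · rw [toR_sub, mul_sub]
    linarith [mul_le_mul_of_nonneg_left hlo hE, hint.1]
  · rw [toR_add, mul_add]
    exact le_trans (by simpa only [Prim.P, sub_le_iff_le_add'] using hint.2)
      (add_le_add (mul_le_mul_of_nonneg_left hhi hE) le_rfl)
  · have m1 := core_mom H hq
    have m2 := core_mom0 H hq
    have hD : 0 ≤ ‖D‖ ^ 2 * Real.sqrt (2 * Real.pi) := by positivity
    rw [mul_assoc] at m1 m2 ⊢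
    simp only [Prim.P]
    have hX : 0 ≤ Real.sqrt J.L *
      ‖J.A1 (z0 + D) - J.A1 (z0 - D) - z0 * (J.A0 (z0 + D) - J.A0 (z0 - D))‖ := by positivity
    cases hty : Nat.ble 2 a.ty with
    | true =>
      have hW : a.W J.L = J.L := by
        have := Nat.le_of_ble_eq_true hty
        rw [Ac.W, wt, if_neg (by omega), if_neg (by omega)]
      rw [hW, cond_true]
      exact tailB_mom hE hn1 hal0 hD (hmc _ hn1') rfl m1
    | false =>
      have hW : a.W J.L ≤ toR a.L0 := by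
        have : ¬2 ≤ a.ty := fun h2 => by rw [Nat.ble_eq_true_of_le h2] at hty; cases hty
        rw [Ac.W, wt]
        split_ifs
        exacts [hL0.le, le_rfl, by omega]
      rw [cond_false]
      refine (mul_le_mul_of_nonneg_right hW hX).trans ?_
      cases hmin : leI n1 n2 with
      | true =>
        rw [minI_cond, hmin, cond_true]
        exact (mul_le_mul_of_nonneg_right hL hX).trans
          (tailB_mom hE hn1 hal0 hD (hmc _ hn1') rfl m1)
      | false =>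
        rw [minI_cond, hmin, cond_false]
        exact tailB_mom hE hn2 hal0 hD (hmc _ hn2') rfl m2
  · have := core_end (g := toR (-gm - mulU kk al)) (-1) (Or.inr rfl) H (by
      rw [toR_sub, toR_neg]
      simp only [Complex.add_re, Complex.sub_re, Complex.ofReal_neg, Complex.ofReal_one,
        neg_one_mul, Complex.neg_re] at hgm ⊢
      linarith)
    rwa [Complex.ofReal_neg, Complex.ofReal_one, neg_one_mul, ← sub_eq_add_neg] at this
  · have := core_end (g := toR (-gp - mulU kk al)) 1 (Or.inl rfl) H (by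
      rw [toR_sub, toR_neg]
      simp only [Complex.add_re, Complex.ofReal_one, one_mul] at hgp ⊢
      linarith)
    rwa [Complex.ofReal_one, one_mul] at this

theorem entryX_ok (hC : C.Ok x J) (ha : a.Ok J.L) (hz : RepA x z z0) (h0 : J.f1 z0 = 0)
    {q : Path} (hq : q.cls.ok) (hd : ed.Ok x J a ‖J.E z0‖ z0 vd) (hu : eu.Ok x J a ‖J.E z0‖ z0 vu)
    {k : ℤ → ℤ → ℤ → Bool} (h : entryX C a z q ed eu k = true) :
    ∃ lo hi M, k lo hi M = true ∧ ‖J.E z0‖ * toR lo ≤ Real.sqrt J.L * ‖vu.1 - vd.1‖ ∧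
      Bd J.L ‖J.E z0‖ (a.W J.L) z0 vd vu (toR hi) (toR M) := by
  unfold entryX at h
  obtain ⟨lo, hi, mc, gm, gp, len, h, h1, h2, h3, h4, h5⟩ := core_ok hC ha hz h0 hq h
  have hE := norm_nonneg (J.E z0)
  obtain ⟨I1, M1, h, b1⟩ := tailB_ok hC ha hE hz hd
    (by rwa [tailB_neg, ← sub_eq_add_neg]) (by rwa [tailB_neg, norm_neg]) h
  obtain ⟨I2, M2, h, b2⟩ := tailB_ok hC ha hE hz hu h4 h5 h
  rw [tailB_neg, ← sub_eq_add_neg] at b1
  simp only [fI_eq] at h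
  have hW : 0 ≤ a.W J.L := wt_nonneg _ ha.1.le J.hL.le
  refine ⟨_, _, _, h, ?_, ((b1.symm.trans hW h2).trans hW b2).mono hE ?_ ?_⟩
  · have c1 := b1.1
    have c2 := b2.1
    simp only [Prim.P] at c1 c2
    have e : J.A0 (z0 + toC q.u q.v) - J.A0 (z0 - toC q.u q.v) = (vu.1 - vd.1) +
        (vd.1 - J.A0 (z0 - toC q.u q.v)) - (vu.1 - J.A0 (z0 + toC q.u q.v)) := by ring
    have t := mul_le_mul_of_nonneg_left ((norm_sub_le _ _).trans (add_le_add
      (norm_add_le (vu.1 - vd.1) (vd.1 - J.A0 (z0 - toC q.u q.v)))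
      (le_refl ‖vu.1 - J.A0 (z0 + toC q.u q.v)‖))) (Real.sqrt_nonneg J.L)
    rw [← e, mul_add, mul_add] at t
    rw [toR_sub, toR_sub, mul_sub, mul_sub]
    linarith
  · rw [toR_add, toR_add]; linarith
  · rw [toR_add, toR_add]; linarith


theorem entryU_ok (hC : C.Ok x J) (ha : a.Ok J.L) (hz : RepA x z z0) {η : ℤ} {E0 : ℝ}
    (hE : ‖J.E z0‖ ≤ E0 * Real.exp (-(J.L * toR η))) (hE0 : 0 ≤ E0) {dn up : List Step}
    (hd : ed.Ok x J a E0 z0 vd) (hu : eu.Ok x J a E0 z0 vu) {k : ℤ → ℤ → Bool}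
    (h : entryU C a z η dn up ed eu k = true) :
    ∃ I M, k I M = true ∧ Bd J.L E0 (a.W J.L) z0 vd vu (toR I) (toR M) := by
  unfold entryU at h
  have e : toC 0 0 = 0 := by
    unfold toC
    rw [toR_zero]
    rfl
  have hg : ‖J.E (z0 + toC 0 0)‖ ≤ E0 * Real.exp (-(J.L * toR η)) := by rwa [e, add_zero]
  have h0 : ‖toC 0 0‖ ≤ toR 0 := by rw [e, toR_zero, norm_zero]
  obtain ⟨I1, M1, h, h1⟩ := tail_ok hC ha hE0 hz hd hg h0 h
  obtain ⟨I2, M2, h, h2⟩ := tail_ok hC ha hE0 hz hu hg h0 h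
  rw [fI_eq, fI_eq] at h
  refine ⟨_, _, h, ?_⟩
  rw [toR_add, toR_add]
  exact h1.symm.trans (tla_W ha) h2

end

/-- Newton steps on the polynomial part -/
def newton (C : Chart) : ℕ → TM → (TM → Bool) → Bool
  | 0, z, k => k z
  | n + 1, z, k => C.jet2 z fun f1 f2 => inv f2 fun i => mul f1 i fun a => sub z a fun w =>
      strip w fun w => newton C n w k

/-- the tests of `kraw` -/
def krawT (ε m K ρ : ℤ) : Bool :=
  leI 0 ρ && ltI 0 m && leI (2 * mulU K ρ) m && leI (ε + mulU K (mulU ρ ρ)) (mulD ρ m)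

/-- encloses a saddle point near `(u, v)` -/
def saddleZ (C : Chart) (u v : ℤ) (n : ℕ) (ρ : ℤ) (k : TM → Bool) : Bool :=
  cst u v fun z => newton C n z fun z => strip z fun z => C.jet2 z fun f1 f2 =>
  ab f1 fun ε => ablo f2 fun m => wid z ρ fun zb => C.sup zb fun K _ =>
  krawT ε m K ρ && k zb

theorem tla_newton {C : Chart} {x : Pt} {J : Jet} (hC : C.Ok x J) {n : ℕ} {z : TM}
    {k : TM → Bool} (h : newton C n z k = true) : ∃ w, k w = true := by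
  induction n generalizing z with
  | zero => exact ⟨z, h⟩
  | succ n ih =>
    unfold newton at h
    obtain ⟨f1, f2, h, -⟩ := hC.h2 _ _ h
    obtain ⟨i, h, -⟩ := inv_ok h
    obtain ⟨p, h, -⟩ := mul_ok h
    obtain ⟨q, h, -⟩ := sub_ok h
    obtain ⟨w, h, -⟩ := strip_ok h
    exact ih h

theorem saddleZ_ok {C : Chart} {x : Pt} {J : Jet} (hC : C.Ok x J) {u v ρ : ℤ} {n : ℕ}
    {k : TM → Bool} (h : saddleZ C u v n ρ k = true) :
    ∃ z z0, k z = true ∧ RepA x z z0 ∧ J.f1 z0 = 0 := by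
  unfold saddleZ at h
  obtain ⟨p, h, -⟩ := cst_ok h
  obtain ⟨q, h⟩ := tla_newton hC h
  obtain ⟨z, h, f, hf⟩ := strip_ok h
  have hz : RepA x z (f x.x0 x.x1 x.x2) := fun y hy => hf (x.set3 y hy)
  obtain ⟨c, hc⟩ : ∃ c, c = f x.x0 x.x1 x.x2 := ⟨_, rfl⟩
  rw [← hc] at hz
  obtain ⟨f1, f2, h, hj⟩ := hC.h2 _ _ h
  obtain ⟨-, j1, j2⟩ := hj x.x3 x.h3 _ (hz _ _)
  obtain ⟨ε, h, hε⟩ := ab_ok h
  obtain ⟨m, h, hm⟩ := ablo_ok h
  obtain ⟨zb, h, hzb⟩ := wid_ok h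
  obtain ⟨K, K', h, hK⟩ := hC.hs _ _ h
  unfold krawT at h
  simp only [Bool.and_eq_true] at h
  obtain ⟨⟨⟨⟨t0, t1⟩, t2⟩, t3⟩, h⟩ := h
  have r0 := leI_ok t0
  have m0 := ltI_ok t1
  have r2 := leI_ok t2
  have r3 := leI_ok t3
  rw [toR_zero] at r0 m0
  rw [toR_intmul] at r2
  rw [toR_add] at r3
  push_cast at r2
  have hb : ∀ w, ‖w - c‖ ≤ toR ρ → RepA x zb w := fun w hw y hy => hzb _ _ _ (hz y hy) hw
  have hU : ∀ w, ‖w - c‖ ≤ toR ρ → w ∈ J.U ∧ ‖J.f3 w‖ ≤ toR K := fun w hw =>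
    ⟨(hK x.x3 x.h3 _ (hb w hw _ _)).1, (hK x.x3 x.h3 _ (hb w hw _ _)).2.1⟩
  have K0 : 0 ≤ toR K := (norm_nonneg _).trans (hU c (by rwa [sub_self, norm_zero])).2
  have e1 := mulU_ok K ρ
  have e2 := mulU_le K0 (mul_nonneg r0 r0) le_rfl (mulU_ok ρ ρ)
  have e3 := mulD_ok ρ m
  obtain ⟨z0, hz0, hf0⟩ := kraw (F := J.f1) (dF := J.f2) (ddF := J.f3) (c := c) (K := toR K) r0
    (fun w hw => ⟨J.h1 w (hU w hw).1, J.h2 w (hU w hw).1, (hU w hw).2⟩) (hε _ _ j1) m0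
    (hm _ _ j2) (by linarith) (by rw [sq]; linarith)
  exact ⟨zb, z0, h, hb z0 hz0, hf0⟩

end Pool.Agent.Sok
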